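import Mathlib
import Pool.Agent.H92.Gr3

open Real H92.Gr

namespace H56.Asq

variable {n : ℕ}

/-- the cone used in the factorisation argument -/
def FF (A : Matrix (Fin n) (Fin n) ℝ) : Set (Fin n → ℝ) :=
  {φ | ∃ (ι : Type) (_ : Fintype ι) (u v : Fin n → ι → ℝ) (w : Fin n → ℝ),
    (∀ a, ∑ l, u a l ^ 2 ≤ w a) ∧ (∀ a, ∑ l, v a l ^ 2 ≤ w a) ∧
    ∀ i, φ i = 4 * w i - ∑ a, ∑ b, A a b * ∑ l, u a l * v b l}

lemma convex_FF (A : Matrix (Fin n) (Fin n) ℝ) : Convex ℝ (FF A) := by
  rintro φ ⟨ι, _, u, v, w, hu, hv, h⟩ ψ ⟨κ, _, u', v', w', hu', hv', h'⟩ s t hs ht -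
  have e1 : √s * √s = s := Real.mul_self_sqrt hs
  have e2 : √t * √t = t := Real.mul_self_sqrt ht
  have sq : ∀ (u : Fin n → ι → ℝ) (u' : Fin n → κ → ℝ) (v : Fin n → ι → ℝ)
      (v' : Fin n → κ → ℝ) (a b : Fin n),
      ∑ l : ι ⊕ κ, Sum.elim (fun l => √s * u a l) (fun l => √t * u' a l) l *
        Sum.elim (fun l => √s * v b l) (fun l => √t * v' b l) l =
      s * ∑ l, u a l * v b l + t * ∑ l, u' a l * v' b l := by
    intro u u' v v' a b
    rw [Fintype.sum_sum_type, Finset.mul_sum, Finset.mul_sum]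
    simp only [Sum.elim_inl, Sum.elim_inr]
    refine congrArg₂ (· + ·) (Finset.sum_congr rfl fun l _ => ?_)
      (Finset.sum_congr rfl fun l _ => ?_)
    · linear_combination (u a l * v b l) * e1
    · linear_combination (u' a l * v' b l) * e2
  refine ⟨ι ⊕ κ, inferInstance,
    fun a => Sum.elim (fun l => √s * u a l) (fun l => √t * u' a l),
    fun a => Sum.elim (fun l => √s * v a l) (fun l => √t * v' a l),
    fun a => s * w a + t * w' a, fun a => ?_, fun a => ?_, fun i => ?_⟩
  · simp only [pow_two] at *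
    rw [sq]
    have h1 := mul_le_mul_of_nonneg_left (hu a) hs
    have h2 := mul_le_mul_of_nonneg_left (hu' a) ht
    linarith
  · simp only [pow_two] at *
    rw [sq]
    have h1 := mul_le_mul_of_nonneg_left (hv a) hs
    have h2 := mul_le_mul_of_nonneg_left (hv' a) ht
    linarith
  · simp only [sq, Pi.add_apply, Pi.smul_apply, smul_eq_mul, h, h', mul_add,
      Finset.sum_add_distrib]
    have c : ∀ (r : ℝ) (X : Fin n → Fin n → ℝ), ∑ a, ∑ b, A a b * (r * X a b) =
        r * ∑ a, ∑ b, A a b * X a b := by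
      intro r X
      rw [Finset.mul_sum]
      refine Finset.sum_congr rfl fun a _ => ?_
      rw [Finset.mul_sum]
      exact Finset.sum_congr rfl fun b _ => by ring
    rw [c, c]; ring

lemma FF_nonneg (hn : 0 < n) (A : Matrix (Fin n) (Fin n) ℝ) (hA : bil ℝ A ≤ 2) {φ : Fin n → ℝ}
    (h : φ ∈ FF A) : ∃ i, 0 ≤ φ i := by
  obtain ⟨ι, _, u, v, w, hu, hv, h⟩ := h
  have : Nonempty (Fin n) := ⟨⟨0, hn⟩⟩
  obtain ⟨i, hi⟩ := Finite.exists_max w
  have w0 : 0 ≤ w i := (Finset.sum_nonneg fun l _ => sq_nonneg _).trans (hu i)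
  have hc : Cor (w i) (fun a b => ∑ l, u a l * v b l) :=
    ⟨ι, inferInstance, u, v, fun a => by simpa using (hu a).trans (hi a),
      fun a => by simpa using (hv a).trans (hi a), fun a b => by simp⟩
  have h1 := le_mul_gam A w0 hc
  have h2 := gam_real A
  have h3 : gam A ≤ 4 := by
    have : 10 * π / 17 * bil ℝ A ≤ 10 * π / 17 * 2 :=
      mul_le_mul_of_nonneg_left hA (by positivity)
    linarith [pi_lt_d2]
  refine ⟨i, ?_⟩
  rw [h i]
  have h4 := (le_abs_self _).trans (h1.trans (mul_le_mul_of_nonneg_left h3 w0))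
  linarith

/-- Grothendieck factorisation for quadratic forms. -/
theorem pietsch (hn : 0 < n) (A : Matrix (Fin n) (Fin n) ℝ) (hA : bil ℝ A ≤ 2) :
    ∃ μ : Fin n → ℝ, (∀ i, 0 ≤ μ i) ∧ ∑ i, μ i = 1 ∧
      ∀ x : Fin n → ℝ, |∑ a, ∑ b, A a b * (x a * x b)| ≤ 4 * ∑ i, μ i * x i ^ 2 := by
  let S : Set (Fin n → ℝ) := {φ | ∀ i, φ i < 0}
  have hS : S = Set.pi Set.univ fun _ => Set.Iio (0 : ℝ) := by ext φ; simp [S]
  have cS : Convex ℝ S := hS ▸ convex_pi fun _ _ => convex_Iio 0
  have oS : IsOpen S := hS ▸ isOpen_set_pi Set.finite_univ fun _ _ => isOpen_Iio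
  have dj : Disjoint S (FF A) := Set.disjoint_left.2 fun φ h1 h2 => by
    obtain ⟨i, hi⟩ := FF_nonneg hn A hA h2
    exact absurd (h1 i) (not_lt.2 hi)
  obtain ⟨f, c, hf, hg⟩ := geometric_hahn_banach_open cS oS (convex_FF A) dj
  let m : Fin n → ℝ := fun i => f (Pi.single i 1)
  have fe : ∀ φ, f φ = ∑ i, φ i * m i := fun φ => by
    conv_lhs => rw [pi_eq_sum_univ' φ]
    rw [map_sum]
    exact Finset.sum_congr rfl fun i _ => by rw [map_smul]; rfl
  have mem : ∀ (x : Fin n → ℝ) (s : ℝ), s ^ 2 = 1 →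
      (fun i => 4 * x i ^ 2 - s * ∑ a, ∑ b, A a b * (x a * x b)) ∈ FF A := by
    intro x s hs
    refine ⟨Unit, inferInstance, fun a _ => x a, fun a _ => s * x a, fun a => x a ^ 2,
      fun a => by simp, fun a => by simp [mul_pow, hs], fun i => ?_⟩
    simp only [Finset.univ_unique, Finset.sum_singleton, Finset.mul_sum]
    refine congrArg _ (Finset.sum_congr rfl fun a _ => Finset.sum_congr rfl fun b _ => by ring)
  have c0 : c ≤ 0 := by
    have := hg _ (mem 0 1 (by norm_num))
    rw [fe] at this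
    simpa using this
  have M0 : 0 < ∑ i, m i := by
    have := hf (fun _ => -1) fun _ => by norm_num
    rw [fe] at this
    simp only [neg_mul, one_mul, Finset.sum_neg_distrib] at this
    linarith
  have m0 : ∀ i, 0 ≤ m i := fun i => by
    by_contra hneg
    push Not at hneg
    have := hf (fun j => -(Pi.single i (1 : ℝ) : Fin n → ℝ) j - (-m i / (2 * ∑ i, m i)))
      fun j => by
        have h1 : 0 < -m i / (2 * ∑ i, m i) := div_pos (by linarith) (by linarith)
        have h2 : 0 ≤ (Pi.single i (1 : ℝ) : Fin n → ℝ) j := by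
          by_cases h : j = i <;> simp [h]
        show _ < _
        linarith
    rw [fe] at this
    simp only [sub_mul, Finset.sum_sub_distrib, neg_mul, Finset.sum_neg_distrib,
      ← Finset.mul_sum] at this
    have e1 : ∑ j, (Pi.single i (1 : ℝ) : Fin n → ℝ) j * m j = m i := by
      simp [Pi.single_apply]
    have e2 : -m i / (2 * ∑ i, m i) * ∑ i, m i = -m i / 2 := by field_simp
    rw [e1, e2] at this
    linarith
  have key : ∀ (x : Fin n → ℝ) (s : ℝ), s ^ 2 = 1 →
      s * (∑ a, ∑ b, A a b * (x a * x b)) * ∑ i, m i ≤ 4 * ∑ i, m i * x i ^ 2 := by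
    intro x s hs
    set P := ∑ a, ∑ b, A a b * (x a * x b) with hP
    set d := 4 * ∑ i, m i * x i ^ 2 - s * P * ∑ i, m i with hd
    have ht : ∀ t : ℝ, c ≤ t ^ 2 * d := fun t => by
      have := hg _ (mem (fun a => t * x a) s hs)
      rw [fe] at this
      have e : ∑ a, ∑ b, A a b * (t * x a * (t * x b)) = t ^ 2 * P := by
        rw [hP, Finset.mul_sum]
        refine Finset.sum_congr rfl fun a _ => ?_
        rw [Finset.mul_sum]
        exact Finset.sum_congr rfl fun b _ => by ring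
      rw [e] at this
      refine this.trans (le_of_eq ?_)
      clear_value d P
      rw [hd, mul_sub, Finset.mul_sum, Finset.mul_sum, Finset.mul_sum, Finset.mul_sum,
        ← Finset.sum_sub_distrib]
      exact Finset.sum_congr rfl fun i _ => by ring
    by_contra hneg
    have dn : d < 0 := by rw [hd]; linarith [not_le.1 hneg]
    have := ht (√((1 - c) / -d))
    rw [Real.sq_sqrt (div_nonneg (by linarith) (by linarith))] at this
    have e : (1 - c) / -d * d = c - 1 := by field_simp [dn.ne]; ring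
    linarith
  refine ⟨fun i => m i / ∑ i, m i, fun i => div_nonneg (m0 i) M0.le, ?_, fun x => ?_⟩
  · rw [← Finset.sum_div, div_self M0.ne']
  · have e : ∑ i, m i / (∑ i, m i) * x i ^ 2 = (∑ i, m i * x i ^ 2) / ∑ i, m i := by
      rw [Finset.sum_div]; exact Finset.sum_congr rfl fun i _ => by ring
    rw [e, ← mul_div_assoc, le_div_iff₀ M0]
    have h1 := key x 1 (by norm_num)
    have h2 := key x (-1) (by norm_num)
    rcases abs_cases (∑ a, ∑ b, A a b * (x a * x b)) with h | h <;> rw [h.1] <;> linarith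

end H56.Asq
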