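import Mathlib

open scoped TensorProduct

namespace H56.Asq

/-- Almost square normed spaces. -/
def ASQ (X : Type*) [NormedAddCommGroup X] : Prop :=
  ∀ (k : ℕ) (x : Fin k → X), (∀ i, ‖x i‖ = 1) → ∀ ε : ℝ, 0 < ε →
    ∃ y : X, ‖y‖ = 1 ∧ ∀ i, ‖x i + y‖ ≤ 1 + ε ∧ ‖x i - y‖ ≤ 1 + ε

variable (X : Type*) [NormedAddCommGroup X] [NormedSpace ℝ X]

/-- The algebraic symmetric tensor square: the span of the tensors x ⊗ x inside X ⊗ X. -/
def SymT : Submodule ℝ (X ⊗[ℝ] X) := Submodule.span ℝ (Set.range fun x : X => x ⊗ₜ[ℝ] x)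

variable {X} in
/-- The numbers ∑ |l i| ‖x i‖ ^ 2 over the finite representations u = ∑ l i • x i ⊗ x i. -/
def reps (u : X ⊗[ℝ] X) : Set ℝ :=
  {s | ∃ (m : ℕ) (l : Fin m → ℝ) (x : Fin m → X),
    u = ∑ i, l i • (x i ⊗ₜ[ℝ] x i) ∧ s = ∑ i, |l i| * ‖x i‖ ^ 2}

variable {X} in
/-- The symmetric projective norm. -/
noncomputable def piS (u : X ⊗[ℝ] X) : ℝ := sInf (reps u)

variable {X}

lemma reps_bdd (u : X ⊗[ℝ] X) : BddBelow (reps u) :=
  ⟨0, by rintro s ⟨m, l, x, -, rfl⟩; positivity⟩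

lemma reps_ne {u : X ⊗[ℝ] X} (hu : u ∈ SymT X) : (reps u).Nonempty := by
  obtain ⟨m, l, g, h⟩ := Submodule.mem_span_set'.1 hu
  choose x hx using fun i => (g i).2
  refine ⟨_, m, l, x, ?_, rfl⟩
  rw [← h]
  exact Finset.sum_congr rfl fun i _ => by rw [← hx i]

lemma reps_add {u v : X ⊗[ℝ] X} {s t : ℝ} (hs : s ∈ reps u) (ht : t ∈ reps v) :
    s + t ∈ reps (u + v) := by
  obtain ⟨m, l, x, rfl, rfl⟩ := hs
  obtain ⟨m', l', x', rfl, rfl⟩ := ht
  exact ⟨m + m', Fin.append l l', Fin.append x x', by simp [Fin.sum_univ_add],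
    by simp [Fin.sum_univ_add]⟩

lemma reps_smul (r : ℝ) {u : X ⊗[ℝ] X} {s : ℝ} (hs : s ∈ reps u) : |r| * s ∈ reps (r • u) := by
  obtain ⟨m, l, x, rfl, rfl⟩ := hs
  exact ⟨m, fun i => r * l i, x, by simp [Finset.smul_sum, mul_smul],
    by simp [Finset.mul_sum, abs_mul, mul_assoc]⟩

lemma piS_add {u v : X ⊗[ℝ] X} (hu : u ∈ SymT X) (hv : v ∈ SymT X) :
    piS (u + v) ≤ piS u + piS v := by
  have : piS (u + v) - piS v ≤ piS u := le_csInf (reps_ne hu) fun s hs => by
    have : piS (u + v) - s ≤ piS v := le_csInf (reps_ne hv) fun t ht => by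
      have : piS (u + v) ≤ s + t := csInf_le (reps_bdd _) (reps_add hs ht)
      linarith
    linarith
  linarith

lemma piS_smul (r : ℝ) {u : X ⊗[ℝ] X} (hu : u ∈ SymT X) : piS (r • u) ≤ |r| * piS u := by
  rcases (abs_nonneg r).eq_or_lt with h | h
  · obtain ⟨s, hs⟩ := reps_ne hu
    have : piS (r • u) ≤ |r| * s := csInf_le (reps_bdd _) (reps_smul r hs)
    rw [← h] at this ⊢
    simpa using this
  · rw [← div_le_iff₀' h]
    refine le_csInf (reps_ne hu) fun s hs => ?_
    rw [div_le_iff₀' h]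
    exact csInf_le (reps_bdd _) (reps_smul r hs)

lemma piS_zero : piS (0 : X ⊗[ℝ] X) = 0 :=
  le_antisymm (csInf_le (reps_bdd _) ⟨0, fun _ => 0, fun _ => 0, by simp, by simp⟩)
    (le_csInf (reps_ne (zero_mem _)) (by rintro s ⟨m, l, x, -, rfl⟩; positivity))

variable (X)

/-- A copy of the algebraic symmetric tensor square, to carry the symmetric projective norm. -/
def S2 : Type _ := SymT X

noncomputable instance : AddCommGroup (S2 X) := inferInstanceAs (AddCommGroup (SymT X))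

noncomputable instance : Module ℝ (S2 X) := inferInstanceAs (Module ℝ (SymT X))

/-- The symmetric projective norm, bundled. -/
noncomputable def piSemi : Seminorm ℝ (S2 X) :=
  Seminorm.ofSMulLE (fun u : SymT X => piS u.1) piS_zero (fun u v => piS_add u.2 v.2)
    fun r u => piS_smul r u.2

noncomputable instance : SeminormedAddCommGroup (S2 X) :=
  (piSemi X).toAddGroupSeminorm.toSeminormedAddCommGroup

noncomputable instance : NormedSpace ℝ (S2 X) := ⟨fun r u => piS_smul r u.2⟩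

/-- The completed symmetric projective tensor square. -/
abbrev SymProj : Type _ := UniformSpace.Completion (S2 X)

end H56.Asq
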