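import Mathlib
import Pool.Agent.H56.Asq1
import Pool.Agent.H56.AsqDef

open scoped TensorProduct ZeroAtInfty
open Filter Topology H92.Gr

namespace H56.Asq

abbrev c0 := C₀(ℕ, ℝ)

lemma tend (x : c0) : Tendsto x atTop (𝓝 0) := by
  have := x.zero_at_infty'
  rwa [cocompact_eq_cofinite, Nat.cofinite_eq_atTop] at this

noncomputable def e (i : ℕ) : c0 :=
  ⟨⟨Pi.single i 1, continuous_of_discreteTopology⟩, by
    rw [cocompact_eq_cofinite, Nat.cofinite_eq_atTop]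
    refine tendsto_const_nhds.congr' ?_
    filter_upwards [eventually_gt_atTop i] with j hj
    simp [hj.ne']⟩

lemma e_apply (i j : ℕ) : e i j = if j = i then 1 else 0 := by
  show (Pi.single i (1 : ℝ) : ℕ → ℝ) j = _
  simp [Pi.single_apply]

lemma ev_le (x : c0) (i : ℕ) : |x i| ≤ ‖x‖ := x.toBCF.norm_coe_le_norm i

lemma nrm_le (x : c0) {C : ℝ} (hC : 0 ≤ C) (h : ∀ i, |x i| ≤ C) : ‖x‖ ≤ C :=
  (BoundedContinuousFunction.norm_le (f := x.toBCF) hC).2 h

lemma norm_e (i : ℕ) : ‖e i‖ = 1 :=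
  le_antisymm (nrm_le _ zero_le_one fun j => by rw [e_apply]; split_ifs <;> simp)
    (by simpa [e_apply] using ev_le (e i) i)

theorem asq_c0 : ASQ c0 := by
  intro k x hx ε hε
  have : ∀ᶠ N in atTop, ∀ i, |x i N| ≤ ε := eventually_all.2 fun i => by
    filter_upwards [(Metric.tendsto_nhds.1 (tend (x i))) ε hε] with N hN
    simpa using hN.le
  obtain ⟨N, hN⟩ := this.exists
  have key : ∀ i (s : ℝ), |s| = 1 → ‖x i + s • e N‖ ≤ 1 + ε := fun i s hs =>
    nrm_le _ (by linarith) fun j => by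
      have h1 := ev_le (x i) j
      rw [hx] at h1
      show |x i j + s * e N j| ≤ _
      rw [e_apply]
      split_ifs with h
      · have := abs_add_le (x i j) (s * 1)
        rw [mul_one, hs] at this
        rw [mul_one, h]
        rw [h] at this
        linarith [hN i]
      · simp only [mul_zero, add_zero]; linarith
  refine ⟨e N, norm_e N, fun i => ⟨by simpa using key i 1 (by simp), ?_⟩⟩
  have := key i (-1) (by simp)
  rwa [neg_one_smul ℝ (e N), ← sub_eq_add_neg] at this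

def ev (i : ℕ) : c0 →ₗ[ℝ] ℝ where
  toFun x := x i
  map_add' _ _ := rfl
  map_smul' _ _ := rfl

noncomputable def T (n : ℕ) : c0 →ₗ[ℝ] c0 := ∑ p : Fin n, (ev p).smulRight (e p)

lemma T_eq (n : ℕ) (x : c0) : T n x = ∑ p : Fin n, x p • e p := by
  simp [T, LinearMap.sum_apply, ev]

lemma comb_apply {n : ℕ} (c : Fin n → ℝ) (j : ℕ) :
    (∑ p : Fin n, c p • e p : c0) j = if h : j < n then c ⟨j, h⟩ else 0 := by
  have : (∑ p : Fin n, c p • e p : c0) j = ∑ p : Fin n, c p * e p j := by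
    show ev j _ = _
    rw [map_sum]
    exact Finset.sum_congr rfl fun p _ => rfl
  rw [this]
  split_ifs with h
  · rw [Finset.sum_eq_single ⟨j, h⟩]
    · simp [e_apply]
    · intro b _ hb
      rw [e_apply, if_neg, mul_zero]
      exact fun h' => hb (Fin.ext h'.symm)
    · simp
  · refine Finset.sum_eq_zero fun p _ => ?_
    rw [e_apply, if_neg, mul_zero]
    exact fun h' => h (h' ▸ p.2)

lemma T_tend (x : c0) : Tendsto (fun n => T n x) atTop (𝓝 x) := by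
  refine Metric.tendsto_nhds.2 fun ε hε => ?_
  obtain ⟨N, hN⟩ := eventually_atTop.1 ((Metric.tendsto_nhds.1 (tend x)) (ε / 2) (by linarith))
  filter_upwards [eventually_ge_atTop N] with n hn
  rw [dist_eq_norm]
  refine (nrm_le _ (C := ε / 2) (by linarith) fun j => ?_).trans_lt (by linarith)
  show |T n x j - x j| ≤ _
  rw [T_eq, comb_apply]
  split_ifs with h
  · simp only [sub_self, abs_zero]; linarith
  · simpa using (hN j (by omega)).le

section
variable {X : Type*} [NormedAddCommGroup X] [NormedSpace ℝ X]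

lemma lift_le (B : X →ₗ[ℝ] X →ₗ[ℝ] ℝ) (hB : ∀ x, |B x x| ≤ ‖x‖ ^ 2) {u : X ⊗[ℝ] X}
    (hu : u ∈ SymT X) : |TensorProduct.lift B u| ≤ piS u := by
  refine le_csInf (reps_ne hu) ?_
  rintro s ⟨m, l, x, rfl, rfl⟩
  rw [map_sum]
  refine (Finset.abs_sum_le_sum_abs _ _).trans (Finset.sum_le_sum fun i _ => ?_)
  rw [map_smul, TensorProduct.lift.tmul, smul_eq_mul, abs_mul]
  exact mul_le_mul_of_nonneg_left (hB _) (abs_nonneg _)

lemma sq_mem (x : X) : x ⊗ₜ[ℝ] x ∈ SymT X := Submodule.subset_span ⟨x, rfl⟩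

lemma piS_sq (x : X) : piS (x ⊗ₜ[ℝ] x) ≤ ‖x‖ ^ 2 :=
  csInf_le (reps_bdd _) ⟨1, fun _ => 1, fun _ => x, by simp, by simp⟩

lemma sym_mem (a b : X) : a ⊗ₜ[ℝ] b + b ⊗ₜ[ℝ] a ∈ SymT X := by
  have : a ⊗ₜ[ℝ] b + b ⊗ₜ[ℝ] a = (a + b) ⊗ₜ[ℝ] (a + b) - a ⊗ₜ[ℝ] a - b ⊗ₜ[ℝ] b := by
    simp only [TensorProduct.add_tmul, TensorProduct.tmul_add]; abel
  rw [this]
  exact sub_mem (sub_mem (sq_mem _) (sq_mem _)) (sq_mem _)

/-- the symmetric bilinear form attached to a functional on the symmetric square -/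
noncomputable def form (φ : SymT X →ₗ[ℝ] ℝ) : X →ₗ[ℝ] X →ₗ[ℝ] ℝ :=
  LinearMap.mk₂ ℝ (fun a b => φ ⟨_, sym_mem a b⟩ / 2)
    (fun a a' b => by
      rw [← add_div, ← map_add]
      refine congrArg (fun t => φ t / 2) (Subtype.ext ?_)
      simp only [TensorProduct.add_tmul, TensorProduct.tmul_add, Submodule.coe_add]; abel)
    (fun r a b => by
      rw [smul_eq_mul, ← mul_div_assoc, ← smul_eq_mul, ← map_smul]
      refine congrArg (fun t => φ t / 2) (Subtype.ext ?_)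
      simp [TensorProduct.smul_tmul'])
    (fun a b b' => by
      rw [← add_div, ← map_add]
      refine congrArg (fun t => φ t / 2) (Subtype.ext ?_)
      simp only [TensorProduct.add_tmul, TensorProduct.tmul_add, Submodule.coe_add]; abel)
    (fun r a b => by
      rw [smul_eq_mul, ← mul_div_assoc, ← smul_eq_mul, ← map_smul]
      refine congrArg (fun t => φ t / 2) (Subtype.ext ?_)
      simp [TensorProduct.smul_tmul'])

lemma form_symm (φ : SymT X →ₗ[ℝ] ℝ) (a b : X) : form φ a b = form φ b a :=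
  congrArg (fun t => φ t / 2) (Subtype.ext (add_comm _ _))

lemma form_self (φ : SymT X →ₗ[ℝ] ℝ) (a : X) : form φ a a = φ ⟨_, sq_mem a⟩ := by
  show φ ⟨_, sym_mem a a⟩ / 2 = _
  have : (⟨_, sym_mem a a⟩ : SymT X) = ⟨_, sq_mem a⟩ + ⟨_, sq_mem a⟩ := rfl
  rw [this, map_add]; ring

lemma polar (B : X →ₗ[ℝ] X →ₗ[ℝ] ℝ) (hs : ∀ a b, B a b = B b a) (hB : ∀ x, |B x x| ≤ ‖x‖ ^ 2)
    {a b : X} (ha : ‖a‖ ≤ 1) (hb : ‖b‖ ≤ 1) : |B a b| ≤ 2 := by
  have h1 := hB (a + b)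
  have h2 := hB (a - b)
  have n1 : ‖a + b‖ ^ 2 ≤ 2 ^ 2 :=
    pow_le_pow_left₀ (norm_nonneg _) ((norm_add_le _ _).trans (by linarith)) 2
  have n2 : ‖a - b‖ ^ 2 ≤ 2 ^ 2 :=
    pow_le_pow_left₀ (norm_nonneg _) ((norm_sub_le _ _).trans (by linarith)) 2
  simp only [map_add, map_sub, LinearMap.add_apply, LinearMap.sub_apply] at h1 h2
  rw [hs b a] at h1 h2
  rw [abs_le] at *
  constructor <;> linarith [h1.1, h1.2, h2.1, h2.2]

end

noncomputable def sqf (i : ℕ) : c0 →ₗ[ℝ] c0 →ₗ[ℝ] ℝ := (ev i).smulRight (ev i)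

lemma sqf_apply (i : ℕ) (x : c0) : sqf i x x = x i ^ 2 := by
  show x i * x i = _; ring

lemma sq_le (i : ℕ) (x : c0) : x i ^ 2 ≤ ‖x‖ ^ 2 := by
  rw [← sq_abs]; exact pow_le_pow_left₀ (abs_nonneg _) (ev_le x i) 2

lemma small {u : c0 ⊗[ℝ] c0} (hu : u ∈ SymT c0) {i : ℕ} {δ η : ℝ}
    (h1 : piS (e i ⊗ₜ[ℝ] e i + u) ≤ 1 + δ) (h2 : piS (e i ⊗ₜ[ℝ] e i - u) ≤ 1 + δ)
    (R : c0 →ₗ[ℝ] c0 →ₗ[ℝ] ℝ) (R0 : ∀ x, 0 ≤ R x x) (R1 : ∀ x, R x x ≤ ‖x‖ ^ 2)
    (Ri : R (e i) (e i) ≤ η) : |TensorProduct.lift R u| ≤ 2 * δ + η := by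
  have key : ∀ (R : c0 →ₗ[ℝ] c0 →ₗ[ℝ] ℝ), (∀ x, 0 ≤ R x x) → (∀ x, R x x ≤ ‖x‖ ^ 2) →
      |TensorProduct.lift (sqf i) u - TensorProduct.lift R u| ≤ δ + R (e i) (e i) := by
    intro R R0 R1
    have hQ : ∀ x, |(sqf i - R) x x| ≤ ‖x‖ ^ 2 := fun x => by
      rw [LinearMap.sub_apply, LinearMap.sub_apply, sqf_apply, abs_le]
      constructor <;> linarith [R0 x, R1 x, sq_le i x, sq_nonneg (x i)]
    have a1 := (lift_le _ hQ (add_mem (sq_mem (e i)) hu)).trans h1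
    have a2 := (lift_le _ hQ (sub_mem (sq_mem (e i)) hu)).trans h2
    have e1 : TensorProduct.lift (sqf i - R) u =
        TensorProduct.lift (sqf i) u - TensorProduct.lift R u := by
      have : TensorProduct.lift (sqf i - R) =
          TensorProduct.lift (sqf i) - TensorProduct.lift R := by ext a b; simp
      rw [this]; rfl
    have e2 : TensorProduct.lift (sqf i - R) (e i ⊗ₜ[ℝ] e i) = 1 - R (e i) (e i) := by
      rw [TensorProduct.lift.tmul, LinearMap.sub_apply, LinearMap.sub_apply, sqf_apply, e_apply]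
      simp
    rw [map_add, e1, e2] at a1
    rw [map_sub, e1, e2] at a2
    rw [abs_le] at *
    constructor <;> linarith [a1.1, a1.2, a2.1, a2.2]
  have k0 := key 0 (by simp) (by simp)
  have k1 := key R R0 R1
  have z : TensorProduct.lift (0 : c0 →ₗ[ℝ] c0 →ₗ[ℝ] ℝ) u = 0 := by
    have : TensorProduct.lift (0 : c0 →ₗ[ℝ] c0 →ₗ[ℝ] ℝ) = 0 := by ext a b; simp
    rw [this]; rfl
  rw [z] at k0
  simp only [LinearMap.zero_apply, add_zero, sub_zero] at k0
  rw [abs_le] at *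
  constructor <;> linarith [k0.1, k0.2, k1.1, k1.2]

lemma lift_tend (B : c0 →ₗ[ℝ] c0 →ₗ[ℝ] ℝ) (hs : ∀ a b, B a b = B b a)
    (hB : ∀ x, |B x x| ≤ ‖x‖ ^ 2) {u : c0 ⊗[ℝ] c0} (hu : u ∈ SymT c0) :
    Tendsto (fun n => TensorProduct.lift (B.compl₁₂ (T n) (T n)) u) atTop
      (𝓝 (TensorProduct.lift B u)) := by
  have bd : ∀ a b, ‖B a b‖ ≤ 2 * ‖a‖ * ‖b‖ := fun a b => by
    rcases eq_or_ne a 0 with rfl | ha
    · simp
    rcases eq_or_ne b 0 with rfl | hb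
    · simp
    have na := norm_pos_iff.2 ha
    have nb := norm_pos_iff.2 hb
    have := polar B hs hB (a := ‖a‖⁻¹ • a) (b := ‖b‖⁻¹ • b)
      (by rw [norm_smul, norm_inv, norm_norm, inv_mul_cancel₀ na.ne'])
      (by rw [norm_smul, norm_inv, norm_norm, inv_mul_cancel₀ nb.ne'])
    simp only [map_smul, LinearMap.smul_apply, smul_eq_mul, abs_mul, abs_inv, abs_norm] at this
    rw [inv_mul_le_iff₀ nb, inv_mul_le_iff₀ na] at this
    rw [Real.norm_eq_abs]; linarith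
  have hc : Continuous fun x : c0 => B x x := by
    have : (fun x : c0 => B x x) = fun x => (B.mkContinuous₂ 2 bd) x x := rfl
    rw [this]; fun_prop
  induction hu using Submodule.span_induction with
  | mem x hx =>
    obtain ⟨x, rfl⟩ := hx
    simp only [TensorProduct.lift.tmul, LinearMap.compl₁₂_apply]
    exact (hc.tendsto x).comp (T_tend x)
  | zero => simp
  | add x y _ _ hx hy => simpa only [map_add] using hx.add hy
  | smul r x _ hx => simpa only [map_smul] using hx.const_smul r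

lemma lift_form (φ : SymT c0 →ₗ[ℝ] ℝ) {u : c0 ⊗[ℝ] c0} (hu : u ∈ SymT c0) :
    TensorProduct.lift (form φ) u = φ ⟨u, hu⟩ := by
  induction hu using Submodule.span_induction with
  | mem x hx =>
    obtain ⟨x, rfl⟩ := hx
    rw [TensorProduct.lift.tmul, form_self]
  | zero => rw [map_zero]; exact (map_zero φ).symm
  | add x y _ _ hx hy => rw [map_add, hx, hy, ← map_add]; rfl
  | smul r x _ hx => rw [map_smul, hx, ← map_smul]; rfl

lemma trunc_small (B : c0 →ₗ[ℝ] c0 →ₗ[ℝ] ℝ) (hs : ∀ a b, B a b = B b a)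
    (hB : ∀ x, |B x x| ≤ ‖x‖ ^ 2) {u : c0 ⊗[ℝ] c0} (hu : u ∈ SymT c0) {δ : ℝ}
    (h : ∀ i < 100, piS (e i ⊗ₜ[ℝ] e i + u) ≤ 1 + δ ∧ piS (e i ⊗ₜ[ℝ] e i - u) ≤ 1 + δ)
    {n : ℕ} (hn : 100 ≤ n) :
    |TensorProduct.lift (B.compl₁₂ (T n) (T n)) u| ≤ 12 * (2 * δ + 1 / 100) := by
  let A : Matrix (Fin n) (Fin n) ℝ := fun p q => B (e p) (e q)
  have ex : ∀ p q : Fin n → ℝ, B (∑ i, p i • e i) (∑ j, q j • e j) =
      ∑ i, ∑ j, A i j * (p i * q j) := fun p q => by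
    simp only [map_sum, map_smul, LinearMap.sum_apply, LinearMap.smul_apply, smul_eq_mul]
    simp only [Finset.mul_sum]
    rw [Finset.sum_comm]
    exact Finset.sum_congr rfl fun i _ => Finset.sum_congr rfl fun j _ => by
      simp only [A]; ring
  have nc : ∀ p : Fin n → ℝ, (∀ i, ‖p i‖ = 1) → ‖(∑ i, p i • e i : c0)‖ ≤ 1 := fun p hp =>
    nrm_le _ zero_le_one fun j => by
      rw [comb_apply]
      split_ifs
      · exact (hp _).le
      · simp
  have hA : bil ℝ A ≤ 2 := by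
    refine csSup_le ⟨_, fun _ => 1, fun _ => 1, by simp, by simp, rfl⟩ ?_
    rintro s ⟨p, q, hp, hq, rfl⟩
    have := polar B hs hB (nc p hp) (nc q hq)
    rw [ex] at this
    simpa only [mul_assoc, Real.norm_eq_abs] using this
  obtain ⟨μ, μ0, μ1, hμ⟩ := pietsch (by omega) A hA
  obtain ⟨i, hi, hμi⟩ : ∃ i : Fin n, i.1 < 100 ∧ μ i ≤ 1 / 100 := by
    by_contra hc
    push Not at hc
    have h1 : ∑ i : Fin 100, μ (Fin.castLE hn i) ≤ ∑ i, μ i := by
      refine (Finset.sum_map Finset.univ (Fin.castLEEmb hn) μ).symm.le.trans ?_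
      exact Finset.sum_le_sum_of_subset_of_nonneg (Finset.subset_univ _) fun i _ _ => μ0 i
    have h2 : ∑ _i : Fin 100, (1 / 100 : ℝ) < ∑ i : Fin 100, μ (Fin.castLE hn i) :=
      Finset.sum_lt_sum_of_nonempty Finset.univ_nonempty fun i _ => hc _ i.2
    simp at h2
    linarith
  let D : c0 →ₗ[ℝ] c0 →ₗ[ℝ] ℝ := ∑ p : Fin n, μ p • sqf p
  have De : ∀ x, D x x = ∑ p : Fin n, μ p * x p ^ 2 := fun x => by
    simp [D, LinearMap.sum_apply, sqf_apply]
  have D0 : ∀ x, 0 ≤ D x x := fun x => by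
    rw [De]; exact Finset.sum_nonneg fun p _ => mul_nonneg (μ0 p) (sq_nonneg _)
  have D1 : ∀ x, D x x ≤ ‖x‖ ^ 2 := fun x => by
    rw [De, ← one_mul (‖x‖ ^ 2), ← μ1, Finset.sum_mul]
    exact Finset.sum_le_sum fun p _ => mul_le_mul_of_nonneg_left (sq_le p x) (μ0 p)
  have Di : D (e i) (e i) ≤ 1 / 100 := by
    rw [De, Finset.sum_eq_single i]
    · simpa [e_apply] using hμi
    · intro b _ hb
      rw [e_apply, if_neg fun h' => hb (Fin.ext h')]; simp
    · simp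
  set Bn := B.compl₁₂ (T n) (T n) with hBn
  have BD : ∀ x, |Bn x x| ≤ 4 * D x x := fun x => by
    rw [hBn, LinearMap.compl₁₂_apply, T_eq, ex, De]
    exact hμ fun p => x p
  let R : c0 →ₗ[ℝ] c0 →ₗ[ℝ] ℝ := (1 / 2 : ℝ) • D + (1 / 8 : ℝ) • Bn
  have Re : ∀ x, R x x = 1 / 2 * D x x + 1 / 8 * Bn x x := fun x => by simp [R]
  have R0 : ∀ x, 0 ≤ R x x := fun x => by rw [Re]; linarith [(abs_le.1 (BD x)).1]
  have RD : ∀ x, R x x ≤ D x x := fun x => by rw [Re]; linarith [(abs_le.1 (BD x)).2]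
  have s1 := small hu (h i hi).1 (h i hi).2 D D0 D1 Di
  have s2 := small hu (h i hi).1 (h i hi).2 R R0 (fun x => (RD x).trans (D1 x))
    ((RD _).trans Di)
  have e1 : TensorProduct.lift R u =
      1 / 2 * TensorProduct.lift D u + 1 / 8 * TensorProduct.lift Bn u := by
    have : TensorProduct.lift R =
        (1 / 2 : ℝ) • TensorProduct.lift D + (1 / 8 : ℝ) • TensorProduct.lift Bn := by
      ext a b; simp [R]
    rw [this]; rfl
  rw [e1] at s2
  rw [abs_le] at *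
  constructor <;> linarith [s1.1, s1.2, s2.1, s2.2]

theorem not_asq {Z : Type*} [NormedAddCommGroup Z] [NormedSpace ℝ Z] (j : SymT c0 →ₗ[ℝ] Z)
    (hj : ∀ u, ‖j u‖ = piS u.1) (hd : DenseRange j) : ¬ ASQ Z := by
  intro h
  obtain ⟨y, ny, hy⟩ := h 100 (fun i => j ⟨_, sq_mem (e i)⟩) (fun i => by
    rw [hj]
    refine le_antisymm (by simpa [norm_e] using piS_sq (e i)) ?_
    have := lift_le (sqf i) (fun x => by
      rw [sqf_apply, abs_of_nonneg (sq_nonneg _)]; exact sq_le i x) (sq_mem (e i))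
    simpa [sqf_apply, e_apply] using this) (1 / 200) (by norm_num)
  obtain ⟨u, hu⟩ := hd.exists_dist_lt y (ε := 1 / 200) (by norm_num)
  rw [dist_eq_norm] at hu
  have h1 : ∀ i < 100, piS (e i ⊗ₜ[ℝ] e i + u.1) ≤ 1 + 1 / 100 ∧
      piS (e i ⊗ₜ[ℝ] e i - u.1) ≤ 1 + 1 / 100 := fun i hi => by
    have a := hj (⟨_, sq_mem (e i)⟩ + u)
    have b := hj (⟨_, sq_mem (e i)⟩ - u)
    rw [map_add] at a
    rw [map_sub] at b
    have c : ‖j ⟨_, sq_mem (e i)⟩ + y‖ ≤ 1 + 1 / 200 := (hy ⟨i, hi⟩).1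
    have d : ‖j ⟨_, sq_mem (e i)⟩ - y‖ ≤ 1 + 1 / 200 := (hy ⟨i, hi⟩).2
    have c' := norm_sub_le (j ⟨_, sq_mem (e i)⟩ + y) (y - j u)
    have d' := norm_add_le (j ⟨_, sq_mem (e i)⟩ - y) (y - j u)
    rw [show ∀ p : Z, p + y - (y - j u) = p + j u from fun p => by abel] at c'
    rw [sub_add_sub_cancel] at d'
    exact ⟨a.symm.le.trans (by linarith), b.symm.le.trans (by linarith)⟩
  obtain ⟨g, g1, g2⟩ := exists_dual_vector'' ℝ (j u)
  let φ : SymT c0 →ₗ[ℝ] ℝ := g.toLinearMap ∘ₗ j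
  have hB : ∀ x, |form φ x x| ≤ ‖x‖ ^ 2 := fun x => by
    rw [form_self]
    have := g.le_of_opNorm_le g1 (j ⟨_, sq_mem x⟩)
    rw [one_mul, hj] at this
    exact this.trans (piS_sq x)
  have t := (lift_tend _ (form_symm φ) hB u.2).abs
  have := le_of_tendsto t (eventually_atTop.2
    ⟨100, fun n hn => trunc_small _ (form_symm φ) hB u.2 h1 hn⟩)
  rw [lift_form φ u.2] at this
  have e1 : φ ⟨u.1, u.2⟩ = ‖j u‖ := g2
  have n1 := norm_sub_norm_le y (j u)
  rw [e1, abs_norm] at this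
  linarith

end H56.Asq
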