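import Mathlib

namespace Pool.Agent.H56.Bh

/-- a 0, ..., a n is the beginning of a p-ordering of X: every a k lies in X and, for
1 ≤ k ≤ n, a k minimises over x ∈ X the exponent of p in the product of x - a i over i < k
(the exponent of 0 being infinite). -/
def IsPOrdering (X : Set ℤ) (p n : ℕ) (a : ℕ → ℤ) : Prop :=
  (∀ k ≤ n, a k ∈ X) ∧
  ∀ k, 1 ≤ k → k ≤ n → ∀ x ∈ X,
    emultiplicity (p : ℤ) (∏ i ∈ Finset.range k, (a k - a i)) ≤
      emultiplicity (p : ℤ) (∏ i ∈ Finset.range k, (x - a i))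

/-- F is the Bhargava factorial of n for X: F is a positive integer and for every prime p the
exponent of p in F equals the exponent of p in the product of a n - a i over i < n, for some
p-ordering a of X. -/
def IsFactorial (X : Set ℤ) (n F : ℕ) : Prop :=
  0 < F ∧ ∀ p : ℕ, p.Prime → ∃ a : ℕ → ℤ, IsPOrdering X p n a ∧
    emultiplicity (p : ℤ) (∏ i ∈ Finset.range n, (a n - a i)) = (F.factorization p : ℕ∞)

/-- w p m is the largest power of p dividing m. -/
def w (p m : ℕ) : ℕ := p ^ m.factorization p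

/-- The set of primes. -/
def primes : Set ℤ := {q | 0 < q ∧ Prime q}

/-- The set of twin primes. -/
def twins : Set ℤ := {q | q ∈ primes ∧ (q - 2 ∈ primes ∨ q + 2 ∈ primes)}

/-- The primes lying in a triplet p, p+2, p+6 of primes. -/
def triplets : Set ℤ :=
  {q | ∃ p, p ∈ primes ∧ p + 2 ∈ primes ∧ p + 6 ∈ primes ∧ (q = p ∨ q = p + 2 ∨ q = p + 6)}

/-- The primes lying in a quadruplet p, p+2, p+6, p+8 of primes. -/
def quadruplets : Set ℤ :=
  {q | ∃ p, p ∈ primes ∧ p + 2 ∈ primes ∧ p + 6 ∈ primes ∧ p + 8 ∈ primes ∧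
    (q = p ∨ q = p + 2 ∨ q = p + 6 ∨ q = p + 8)}

end Pool.Agent.H56.Bh
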