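import Mathlib
import Pool.Agent.H56.BhDefs

namespace Pool.Agent.H56.Bh

open Finset

lemma not_dvd_prod_iff {p : ℕ} (hp : p.Prime) (x : ℤ) (a : ℕ → ℤ) (k : ℕ) :
    emultiplicity (p : ℤ) (∏ i ∈ range k, (x - a i)) = 0 ↔
      ∀ i < k, ((x : ℤ) : ZMod p) ≠ (a i : ZMod p) := by
  have hp' : Prime (p : ℤ) := Nat.prime_iff_prime_int.mp hp
  rw [emultiplicity_eq_zero, hp'.dvd_finsetProd_iff]
  simp only [mem_range, not_exists, not_and]
  refine forall₂_congr (fun i _ => ?_)
  rw [Ne, eq_comm, ZMod.intCast_eq_intCast_iff_dvd_sub]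

/-- few residues force divisibility -/
lemma dvd_of_few {X : Set ℤ} {p n : ℕ} (hp : p.Prime) (R : Finset (ZMod p)) (hR : R.card ≤ n)
    (hX : ∀ x ∈ X, (x : ZMod p) ∈ R) {F : ℕ} (hF : IsFactorial X n F) : p ∣ F := by
  obtain ⟨a, ha, h⟩ := hF.2 p hp
  by_contra hnd
  rw [Nat.factorization_eq_zero_of_not_dvd hnd, Nat.cast_zero, not_dvd_prod_iff hp] at h
  have hk : ∀ k ≤ n, ∀ i < k, ((a k : ℤ) : ZMod p) ≠ (a i : ZMod p) := by
    intro k hk
    rcases Nat.eq_zero_or_pos k with rfl | h0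
    · simp
    have h1 := ha.2 k h0 hk (a n) (ha.1 n le_rfl)
    rw [(not_dvd_prod_iff hp (a n) a k).mpr (fun i hi => h i (by omega))] at h1
    exact (not_dvd_prod_iff hp (a k) a k).mp (le_antisymm h1 bot_le)
  have hc : (range (n + 1)).card ≤ R.card := by
    refine Finset.card_le_card_of_injOn (fun i => (a i : ZMod p)) ?_ ?_
    · intro i hi
      simp only [coe_range, Set.mem_Iio] at hi
      exact hX _ (ha.1 i (by omega))
    · intro i hi j hj hij
      simp only [coe_range, Set.mem_Iio] at hi hj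
      by_contra hne
      rcases lt_or_gt_of_ne hne with h | h
      · exact hk j (by omega) i h hij.symm
      · exact hk i (by omega) j h hij
  rw [card_range] at hc
  omega

lemma emult_zero_of_many {X : Set ℤ} {p n : ℕ} (hp : p.Prime) (S : Finset ℤ) (hS : ∀ x ∈ S, x ∈ X)
    (hc : n < (S.image (fun x : ℤ => (x : ZMod p))).card) {a : ℕ → ℤ} (ha : IsPOrdering X p n a) :
    emultiplicity (p : ℤ) (∏ i ∈ range n, (a n - a i)) = 0 := by
  rcases Nat.eq_zero_or_pos n with rfl | h0
  · rw [not_dvd_prod_iff hp]; simp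
  have h1 : ((range n).image (fun i => (a i : ZMod p))).card
      < (S.image (fun x : ℤ => (x : ZMod p))).card :=
    lt_of_le_of_lt (card_image_le.trans (by simp)) hc
  obtain ⟨z, hz, hz'⟩ := Finset.exists_mem_notMem_of_card_lt_card h1
  obtain ⟨x, hx, rfl⟩ := mem_image.mp hz
  have h2 := ha.2 n h0 le_rfl x (hS x hx)
  rw [(not_dvd_prod_iff hp x a n).mpr (fun i hi h => hz' (mem_image.mpr ⟨i, by simpa, h.symm⟩))]
    at h2
  exact le_antisymm h2 bot_le

/-- many residues prevent divisibility -/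
lemma not_dvd_of_many {X : Set ℤ} {p n : ℕ} (hp : p.Prime) (S : Finset ℤ) (hS : ∀ x ∈ S, x ∈ X)
    (hc : n < (S.image (fun x : ℤ => (x : ZMod p))).card) {F : ℕ} (hF : IsFactorial X n F) :
    ¬ p ∣ F := by
  obtain ⟨a, ha, h⟩ := hF.2 p hp
  rw [emult_zero_of_many hp S hS hc ha] at h
  have h1 : F.factorization p = 0 := by exact_mod_cast h.symm
  intro hd
  have := (hp.dvd_iff_one_le_factorization hF.1.ne').mp hd
  omega

lemma exists_ordering {X : Set ℤ} (hX : X.Nonempty) (p n : ℕ) : ∃ a, IsPOrdering X p n a := by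
  induction n with
  | zero =>
    obtain ⟨x, hx⟩ := hX
    exact ⟨fun _ => x, fun _ _ => hx, fun k h1 h2 => by omega⟩
  | succ n ih =>
    obtain ⟨a, ha⟩ := ih
    obtain ⟨x, hx, hmin⟩ := (wellFounded_lt (α := ℕ∞)).has_min
      ((fun x : ℤ => emultiplicity (p : ℤ) (∏ i ∈ range (n + 1), (x - a i))) '' X) (hX.image _)
    obtain ⟨x, hxX, rfl⟩ := hx
    have hup : ∀ k ≤ n + 1, ∀ y : ℤ, ∏ i ∈ range k, (y - Function.update a (n + 1) x i)
        = ∏ i ∈ range k, (y - a i) := by
      intro k hk y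
      refine prod_congr rfl (fun i hi => ?_)
      rw [Function.update_of_ne (by simp at hi; omega)]
    refine ⟨Function.update a (n + 1) x, ?_, ?_⟩
    · intro k hk
      rcases eq_or_lt_of_le hk with rfl | h
      · simpa using hxX
      · rw [Function.update_of_ne h.ne]; exact ha.1 k (by omega)
    · intro k h1 hk y hy
      rw [hup k hk, hup k hk]
      rcases eq_or_lt_of_le hk with rfl | h
      · rw [Function.update_self]
        exact not_lt.mp (hmin _ ⟨y, hy, rfl⟩)
      · rw [Function.update_of_ne h.ne]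
        exact ha.2 k h1 (by omega) y hy

theorem exists_factorial {X : Set ℤ} {n : ℕ} (S : Finset ℤ) (hS : ∀ x ∈ S, x ∈ X)
    (hc : n < S.card) : ∃ F, IsFactorial X n F := by
  have hX : X.Nonempty := by
    obtain ⟨x, hx⟩ := card_pos.mp (show 0 < S.card by omega)
    exact ⟨x, hS x hx⟩
  choose a ha using fun p => exists_ordering hX p n
  have hfin : ∀ p : ℕ, p.Prime → ∃ e : ℕ,
      emultiplicity (p : ℤ) (∏ i ∈ range n, (a p n - a p i)) = (e : ℕ∞) := by
    intro p hp
    have hp' : Prime (p : ℤ) := Nat.prime_iff_prime_int.mp hp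
    rcases Nat.eq_zero_or_pos n with rfl | h0
    · exact ⟨0, by rw [Nat.cast_zero, not_dvd_prod_iff hp]; simp⟩
    have h1 : ((range n).image (a p)).card < S.card :=
      lt_of_le_of_lt (card_image_le.trans (by simp)) hc
    obtain ⟨x, hx, hx'⟩ := Finset.exists_mem_notMem_of_card_lt_card h1
    have h2 := (ha p).2 n h0 le_rfl x (hS x hx)
    have h3 : ∏ i ∈ range n, (x - a p i) ≠ 0 := by
      rw [prod_ne_zero_iff]
      intro i hi h
      exact hx' (mem_image.mpr ⟨i, hi, by linarith⟩)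
    have h4 : emultiplicity (p : ℤ) (∏ i ∈ range n, (x - a p i)) ≠ ⊤ :=
      finiteMultiplicity_iff_emultiplicity_ne_top.mp (FiniteMultiplicity.of_prime_left hp' h3)
    have h5 := ne_top_of_le_ne_top h4 h2
    exact ⟨_, (ENat.natCast_toNat h5).symm⟩
  choose! e he using hfin
  obtain ⟨B, hB⟩ : ∃ B : ℕ, ∀ x ∈ S, |x| ≤ B := by
    obtain ⟨B, hB⟩ := (S.image (fun x : ℤ => x.natAbs)).bddAbove
    refine ⟨B, fun x hx => ?_⟩
    have := hB (mem_coe.mpr (mem_image_of_mem _ hx))
    rw [Int.abs_eq_natAbs]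
    exact_mod_cast this
  have hz : ∀ p : ℕ, p.Prime → 2 * B < p → e p = 0 := by
    intro p hp hpB
    have h1 := emult_zero_of_many hp S hS (by
      rw [card_image_of_injOn]
      · exact hc
      · intro x hx y hy hxy
        have h2 := (ZMod.intCast_eq_intCast_iff_dvd_sub _ _ _).mp hxy
        have h3 := hB x hx
        have h4 := hB y hy
        have h5 : |y - x| < p := by
          have := abs_sub y x
          have : (2 * B : ℤ) < p := by exact_mod_cast hpB
          linarith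
        have := Int.eq_zero_of_abs_lt_dvd h2 h5
        linarith) (ha p)
    rw [he p hp] at h1
    exact_mod_cast h1
  let f : ℕ →₀ ℕ := Finsupp.onFinset (range (2 * B + 1)) (fun p => if p.Prime then e p else 0) (by
    intro p hp
    by_contra h
    simp only [mem_range, not_lt] at h
    by_cases h1 : p.Prime
    · simp [h1, hz p h1 (by omega)] at hp
    · simp [h1] at hp)
  have hf : ∀ p ∈ f.support, p.Prime := by
    intro p hp
    by_contra h
    simp [f, h] at hp
  refine ⟨f.prod (· ^ ·), ?_, fun p hp => ⟨a p, ha p, ?_⟩⟩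
  · exact Finset.prod_pos (fun p hp => pow_pos (hf p hp).pos _)
  · rw [Nat.prod_pow_factorization_eq_self hf, he p hp]
    simp [f, hp]

lemma mem_primes (n : ℕ) (h : n.Prime) : (n : ℤ) ∈ primes :=
  ⟨by exact_mod_cast h.pos, Nat.prime_iff_prime_int.mp h⟩

lemma primes_iff (q : ℤ) : q ∈ primes ↔ 0 < q ∧ q.natAbs.Prime := by
  unfold primes
  simp only [Set.mem_ofPred_eq, Int.prime_iff_natAbs_prime]

lemma cast_ne_zero {p : ℕ} (hp : p.Prime) {q : ℤ} (hq : q ∈ primes) (hne : q ≠ p) :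
    (q : ZMod p) ≠ 0 := by
  intro h
  rw [ZMod.intCast_zmod_eq_zero_iff_dvd] at h
  obtain ⟨h0, h1⟩ := (primes_iff q).mp hq
  have h2 : p ∣ q.natAbs := Int.natCast_dvd.mp h
  have := (Nat.prime_dvd_prime_iff_eq hp h1).mp h2
  omega

lemma dvd_of_not_mem {X : Set ℤ} {p : ℕ} (hp : p.Prime) (hX : X ⊆ primes) (hpX : (p : ℤ) ∉ X)
    {F : ℕ} (hF : IsFactorial X (p - 1) F) : p ∣ F := by
  have : NeZero p := ⟨hp.ne_zero⟩
  refine dvd_of_few hp (univ.erase 0) ?_ (fun x hx => ?_) hF
  · rw [card_erase_of_mem (mem_univ _), card_univ, ZMod.card]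
  · exact mem_erase.mpr ⟨cast_ne_zero hp (hX hx) (fun h => hpX (h ▸ hx)), mem_univ _⟩

end Pool.Agent.H56.Bh
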