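import Mathlib
namespace Pool.Agent.H56.Bm1
open MeasureTheory Set Metric Filter Topology
open scoped ENNReal
variable {n : ℕ}

lemma vol_cb (z : Fin n → ℝ) {r : ℝ} (hr : 0 ≤ r) :
    volume (closedBall z r) = ENNReal.ofReal ((2 * r) ^ n) := by
  rw [Real.volume_pi_closedBall z hr, Fintype.card_fin]

lemma vol_mul (z w : Fin n → ℝ) {r : ℝ} (hr : 0 ≤ r) (k : ℕ) :
    volume (closedBall z (k * r)) = (k : ℝ≥0∞) ^ n * volume (closedBall w r) := by
  rw [vol_cb z (by positivity), vol_cb w hr, show (2 * (k * r)) ^ n = (k : ℝ) ^ n * (2 * r) ^ n by ring,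
    ENNReal.ofReal_mul (by positivity), ENNReal.ofReal_pow (by positivity), ENNReal.ofReal_natCast]

lemma vol_ne (z : Fin n → ℝ) {r : ℝ} (hr : 0 < r) :
    volume (closedBall z r) ≠ 0 ∧ volume (closedBall z r) ≠ ∞ := by
  rw [vol_cb z hr.le]
  exact ⟨by simp only [ne_eq, ENNReal.ofReal_eq_zero, not_le]; positivity, ENNReal.ofReal_ne_top⟩

lemma vit {S A : Set (Fin n → ℝ)} (hA : MeasurableSet A) (κ : ℝ≥0∞) (R : ℝ)
    (h : ∀ x ∈ S, ∃ z r, 0 < r ∧ r ≤ R ∧ x ∈ closedBall z r ∧
      volume (closedBall z r) ≤ κ * volume (closedBall z r ∩ A)) :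
    volume S ≤ 5 ^ n * κ * volume A := by
  obtain ⟨u, hu, hd, hc⟩ := Vitali.exists_disjoint_subfamily_covering_enlargement_closedBall
    {p : (Fin n → ℝ) × ℝ | 0 < p.2 ∧ p.2 ≤ R ∧
      volume (closedBall p.1 p.2) ≤ κ * volume (closedBall p.1 p.2 ∩ A)}
    Prod.fst Prod.snd R (fun a ha => ha.2.1) 5 (by norm_num)
  have hcount : u.Countable := hd.countable_of_nonempty_interior fun a ha =>
    (nonempty_ball.2 (hu ha).1).mono ball_subset_interior_closedBall
  have hsub : S ⊆ ⋃ b ∈ u, closedBall b.1 (5 * b.2) := by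
    intro x hx
    obtain ⟨z, r, h1, h2, h3, h4⟩ := h x hx
    obtain ⟨b, hb, hb2⟩ := hc (z, r) ⟨h1, h2, h4⟩
    exact mem_biUnion hb (hb2 h3)
  calc volume S ≤ ∑' b : u, volume (closedBall b.1.1 (5 * b.1.2)) :=
        (measure_mono hsub).trans (measure_biUnion_le _ hcount _)
    _ ≤ ∑' b : u, 5 ^ n * κ * volume (closedBall b.1.1 b.1.2 ∩ A) := by
        refine ENNReal.tsum_le_tsum fun b => ?_
        have := vol_mul b.1.1 b.1.1 (hu b.2).1.le 5
        simp only [Nat.cast_ofNat] at this
        rw [this, mul_assoc]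
        exact mul_le_mul_right (hu b.2).2.2 _
    _ = 5 ^ n * κ * volume (⋃ b ∈ u, closedBall b.1 b.2 ∩ A) := by
        rw [ENNReal.tsum_mul_left, measure_biUnion hcount
          (hd.mono fun b => inter_subset_left) fun b _ => measurableSet_closedBall.inter hA]
    _ ≤ _ := mul_le_mul_right (measure_mono (iUnion₂_subset fun _ _ => inter_subset_right)) _

lemma av_le {Q : Set (Fin n → ℝ)} (h0 : volume Q ≠ 0) (h1 : volume Q ≠ ∞) {f : (Fin n → ℝ) → ℝ}
    (hf : IntegrableOn f Q) (c : ℝ) :
    ‖(⨍ x in Q, f x) - c‖ₑ * volume Q ≤ ∫⁻ x in Q, ‖f x - c‖ₑ := by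
  have hp : 0 < volume.real Q := ENNReal.toReal_pos h0 h1
  refine le_trans (le_of_eq ?_) (enorm_integral_le_lintegral_enorm _)
  rw [integral_sub hf (integrableOn_const h1), setIntegral_const, setAverage_eq,
    ← ENNReal.ofReal_toReal h1, ← ofReal_norm, ← ofReal_norm, ← ENNReal.ofReal_mul (norm_nonneg _)]
  congr 1
  change _ * volume.real Q = _
  rw [Real.norm_eq_abs, Real.norm_eq_abs, ← abs_of_pos hp, ← abs_mul, abs_of_pos hp]
  congr 1
  simp only [smul_eq_mul]
  field_simp

lemma ivt {f : (Fin n → ℝ) → ℝ} (hm : Measurable f) (hf : LocallyIntegrable f)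
    (c : Fin n → ℝ) {R : ℝ} (hR : 0 < R) :
    ∀ᵐ x, x ∈ closedBall c R → ∀ μ, (⨍ y in closedBall c R, f y) ≤ μ → μ < f x →
      ∃ z r, 0 < r ∧ r ≤ R ∧ x ∈ closedBall z r ∧ closedBall z r ⊆ closedBall c R ∧
        (⨍ y in closedBall z r, f y) = μ := by
  filter_upwards [IsUnifLocDoublingMeasure.ae_tendsto_average volume hf 1] with x hx hxQ μ h1 h2
  have hmem : ∀ t : ℝ, 0 ≤ t → x ∈ closedBall (x + t • (c - x)) (t * R) := by
    intro t ht
    rw [mem_closedBall, dist_self_add_right, norm_smul, Real.norm_of_nonneg ht, ← dist_eq_norm,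
      dist_comm]
    exact mul_le_mul_of_nonneg_left hxQ ht
  have hsub : ∀ t : ℝ, 0 ≤ t → t ≤ 1 → closedBall (x + t • (c - x)) (t * R) ⊆ closedBall c R := by
    intro t h0 ht
    refine closedBall_subset_closedBall' ?_
    rw [dist_eq_norm, show x + t • (c - x) - c = (1 - t) • (x - c) by module, norm_smul,
      Real.norm_of_nonneg (by linarith), ← dist_eq_norm]
    have : (1 - t) * dist x c ≤ (1 - t) * R := mul_le_mul_of_nonneg_left hxQ (by linarith)
    linarith
  have hT := hx (l := 𝓝[>] (0 : ℝ)) (fun t => x + t • (c - x)) (fun t => t * R)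
    (tendsto_nhdsWithin_iff.2 ⟨by
      have : Tendsto (fun t : ℝ => t * R) (𝓝 0) (𝓝 (0 * R)) := (continuous_mul_const R).tendsto 0
      rw [zero_mul] at this
      exact this.mono_left nhdsWithin_le_nhds,
      eventually_mem_nhdsWithin.mono fun t ht => mul_pos ht hR⟩)
    (eventually_mem_nhdsWithin.mono fun t ht => by rw [one_mul]; exact hmem t (le_of_lt ht))
  obtain ⟨t1, ht1, ht2⟩ := ((hT.eventually (lt_mem_nhds h2)).and
    (Ioc_mem_nhdsGT (show (0 : ℝ) < 1 by norm_num))).exists
  let ψ : ℝ → ℝ := fun t => ((2 * (t * R)) ^ n)⁻¹ *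
    ∫ y in closedBall c R, indicator (closedBall (x + t • (c - x)) (t * R)) f y
  have hψ : ∀ t, 0 < t → t ≤ 1 → ψ t = ⨍ y in closedBall (x + t • (c - x)) (t * R), f y := by
    intro t h0 ht
    simp only [ψ]
    rw [setIntegral_indicator measurableSet_closedBall, inter_eq_right.2 (hsub t h0.le ht),
      setAverage_eq, Measure.real, vol_cb _ (by positivity), ENNReal.toReal_ofReal (by positivity),
      smul_eq_mul]
  have hcont : ContinuousOn ψ (Icc t1 1) := by
    intro t ht
    have t0 : 0 < t := ht2.1.trans_le ht.1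
    refine ContinuousAt.continuousWithinAt (ContinuousAt.mul
      (ContinuousAt.inv₀ (by fun_prop) (by positivity)) ?_)
    refine continuousAt_of_dominated (bound := fun y => ‖f y‖)
      (Eventually.of_forall fun s => (hm.indicator measurableSet_closedBall).aestronglyMeasurable)
      (Eventually.of_forall fun s => Eventually.of_forall fun y => norm_indicator_le_norm_self _ _)
      (hf.integrableOn_isCompact (isCompact_closedBall c R)).norm ?_
    have hs : volume (sphere (x + t • (c - x)) (t * R)) = 0 :=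
      Measure.addHaar_sphere_of_ne_zero _ _ (by positivity)
    refine ae_restrict_of_ae ?_
    filter_upwards [measure_eq_zero_iff_ae_notMem.1 hs] with y hy
    have hc : Continuous fun s : ℝ => dist y (x + s • (c - x)) - s * R := by fun_prop
    rcases lt_or_gt_of_ne (show dist y (x + t • (c - x)) - t * R ≠ 0 from
      fun h => hy (sub_eq_zero.1 h)) with h | h
    · refine continuousAt_const.congr (f := fun _ => f y) ?_
      filter_upwards [hc.continuousAt.eventually (gt_mem_nhds h)] with s hs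
      rw [indicator_of_mem (mem_closedBall.2 (by linarith))]
    · refine continuousAt_const.congr (f := fun _ => (0 : ℝ)) ?_
      filter_upwards [hc.continuousAt.eventually (lt_mem_nhds h)] with s hs
      rw [indicator_of_notMem (fun h => by linarith [mem_closedBall.1 h])]
  obtain ⟨t, ht, e⟩ := intermediate_value_Icc' ht2.2 hcont (show μ ∈ Icc (ψ 1) (ψ t1) from
    ⟨by rw [hψ 1 one_pos le_rfl]; simpa using h1, by rw [hψ t1 ht2.1 ht2.2]; exact ht1.le⟩)
  have t0 : 0 < t := ht2.1.trans_le ht.1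
  exact ⟨_, t * R, by positivity, by nlinarith [ht.2], hmem t t0.le, hsub t t0.le ht.2,
    by rw [← hψ t t0 ht.2, e]⟩

lemma stepB {f : (Fin n → ℝ) → ℝ} (hm : Measurable f) (hf : LocallyIntegrable f)
    {lam : ℝ} (hl : 0 < lam) (κ : ℝ≥0∞)
    (H : ∀ z r, 0 < r → volume (closedBall z r) ≤
      κ * volume (closedBall z r ∩ {x | |f x - ⨍ y in closedBall z r, f y| ≤ lam}))
    (c : Fin n → ℝ) {R : ℝ} (hR : 0 < R) :
    ∫⁻ x in closedBall c R, ENNReal.ofReal (f x - ⨍ y in closedBall c R, f y) ≤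
      ENNReal.ofReal (3 * lam) * (1 + 5 ^ n * κ) * volume (closedBall c R) := by
  have hI := ivt hm hf c hR
  generalize (⨍ y in closedBall c R, f y) = d at hI ⊢
  let S : ℕ → Set (Fin n → ℝ) := fun k => {x | 3 * lam * (k + 1) ≤ f x - d}
  let A : ℕ → Set (Fin n → ℝ) := fun k =>
    closedBall c R ∩ {x | |f x - (d + 3 * lam * (k + 1) - lam)| ≤ lam}
  have mS : ∀ k, MeasurableSet (S k) := fun k => measurableSet_le measurable_const (by fun_prop)
  have mA : ∀ k, MeasurableSet (A k) := fun k =>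
    measurableSet_closedBall.inter (measurableSet_le (by fun_prop) measurable_const)
  obtain ⟨G, hG, hG2⟩ := hI.exists_mem
  have h1 : ∀ k, volume (S k ∩ closedBall c R) ≤ 5 ^ n * κ * volume (A k) := by
    intro k
    rw [← measure_inter_conull (t := G) (mem_ae_iff.1 hG)]
    refine vit (mA k) κ R fun x hx => ?_
    have hk : (0 : ℝ) ≤ k := Nat.cast_nonneg k
    have hx1 : 3 * lam * (k + 1) ≤ f x - d := hx.1.1
    obtain ⟨z, r, a1, a2, a3, a4, a5⟩ := hG2 x hx.2 hx.1.2 (d + 3 * lam * (k + 1) - lam)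
      (by nlinarith) (by linarith)
    refine ⟨z, r, a1, a2, a3, (H z r a1).trans (mul_le_mul_right (measure_mono ?_) _)⟩
    rw [a5]
    exact fun y hy => ⟨hy.1, a4 hy.1, hy.2⟩
  have h2 : ∑' k, volume (A k) ≤ volume (closedBall c R) := by
    rw [← measure_iUnion _ mA]
    · exact measure_mono (iUnion_subset fun k => inter_subset_left)
    · refine (pairwise_disjoint_on A).2 fun i j hij => ?_
      rw [Set.disjoint_left]
      intro x hi hj
      have b1 := abs_le.1 (show |f x - (d + 3 * lam * (i + 1) - lam)| ≤ lam from hi.2)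
      have b2 := abs_le.1 (show |f x - (d + 3 * lam * (j + 1) - lam)| ≤ lam from hj.2)
      have b3 : (i : ℝ) + 1 ≤ j := by exact_mod_cast hij
      nlinarith [b1.2, b2.1]
  have h3 : ∀ x, ENNReal.ofReal (f x - d) ≤
      ENNReal.ofReal (3 * lam) * (1 + ∑' k, indicator (S k) 1 x) := by
    intro x
    have b1 := Nat.lt_floor_add_one ((f x - d) / (3 * lam))
    set m := ⌊(f x - d) / (3 * lam)⌋₊ with hm'
    rw [div_lt_iff₀ (by positivity)] at b1
    have b2 : (m : ℝ≥0∞) ≤ ∑' k, indicator (S k) 1 x := by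
      refine le_trans (le_of_eq ?_) (ENNReal.sum_le_tsum (Finset.range m))
      rw [Finset.sum_congr rfl (g := fun _ => 1)]
      · simp
      · intro k hk
        refine indicator_of_mem (s := S k) (show 3 * lam * (k + 1) ≤ f x - d from ?_)
          (1 : (Fin n → ℝ) → ℝ≥0∞)
        have b3 : k + 1 ≤ m := Finset.mem_range.1 hk
        have b4 := (Nat.le_floor_iff' (by omega : k + 1 ≠ 0)).1 b3
        rw [le_div_iff₀ (by positivity)] at b4
        push_cast at b4; linarith
    calc _ ≤ ENNReal.ofReal (3 * lam * (1 + m)) := ENNReal.ofReal_le_ofReal (by linarith)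
      _ = ENNReal.ofReal (3 * lam) * (1 + m) := by
        rw [ENNReal.ofReal_mul (by positivity), ENNReal.ofReal_add (by norm_num) (by positivity),
          ENNReal.ofReal_one, ENNReal.ofReal_natCast]
      _ ≤ _ := by gcongr
  have mI : ∀ k, Measurable (indicator (S k) (1 : (Fin n → ℝ) → ℝ≥0∞)) := fun k =>
    measurable_const.indicator (mS k)
  refine (lintegral_mono h3).trans ?_
  rw [lintegral_const_mul' _ _ ENNReal.ofReal_ne_top, lintegral_add_left measurable_const,
    lintegral_tsum fun k => (mI k).aemeasurable, setLIntegral_const, mul_assoc, add_mul]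
  gcongr
  calc _ ≤ ∑' k, 5 ^ n * κ * volume (A k) := by
        refine ENNReal.tsum_le_tsum fun k => ?_
        rw [lintegral_indicator_one (mS k), Measure.restrict_apply (mS k)]
        exact h1 k
    _ ≤ _ := by rw [ENNReal.tsum_mul_left]; exact mul_le_mul_right h2 _

end Pool.Agent.H56.Bm1
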