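import Pool.Agent.H56.Bm1
namespace Pool.Agent.H56.Bm2
open MeasureTheory Set Metric Filter Topology Pool.Agent.H56.Bm1
open scoped ENNReal
variable {n : ℕ}

def Om (E : Set (Fin n → ℝ)) (k : ℕ) : Set (Fin n → ℝ) :=
  E ∪ ⋃ p ∈ {p : (Fin n → ℝ) × ℝ | 0 < p.2 ∧
    volume (closedBall p.1 p.2) < 2 ^ k * volume (closedBall p.1 p.2 ∩ E)}, ball p.1 p.2

lemma mOm {E : Set (Fin n → ℝ)} (hE : MeasurableSet E) (k : ℕ) : MeasurableSet (Om E k) :=
  hE.union (isOpen_biUnion fun _ _ => isOpen_ball).measurableSet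

lemma canc {a b c : ℝ≥0∞} (h0 : a ≠ 0) (h1 : a ≠ ∞) (h : a * b ≤ a * c) : b ≤ c :=
  (ENNReal.mul_le_mul_iff_right h0 h1).1 h

lemma sumJ (J : Finset ℕ) (ks : ℕ) (a : ℕ → ℝ≥0∞) (D : ℝ≥0∞)
    (h : ∀ k ∈ J, k ≤ ks ∧ 2 ^ ks * a k ≤ 2 ^ k * D) : ∑ k ∈ J, a k ≤ 2 * D := by
  have g : ∀ m : ℕ, ∑ k ∈ Finset.range m, (2 : ℝ≥0∞) ^ k ≤ 2 ^ m := by
    intro m
    induction m with
    | zero => simp
    | succ m ih => rw [Finset.sum_range_succ, pow_succ, mul_two]; gcongr
  refine canc (a := 2 ^ ks) (by simp) (by simp) ?_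
  calc 2 ^ ks * ∑ k ∈ J, a k = ∑ k ∈ J, 2 ^ ks * a k := Finset.mul_sum _ _ _
    _ ≤ ∑ k ∈ J, 2 ^ k * D := Finset.sum_le_sum fun k hk => (h k hk).2
    _ ≤ ∑ k ∈ Finset.range (ks + 1), 2 ^ k * D := Finset.sum_le_sum_of_subset fun k hk =>
        Finset.mem_range.2 (Nat.lt_succ_of_le (h k hk).1)
    _ ≤ 2 ^ (ks + 1) * D := by rw [← Finset.sum_mul]; exact mul_le_mul_left (g _) _
    _ = _ := by ring

lemma comb {E A Q : Set (Fin n → ℝ)} (hA : MeasurableSet A) {k ks : ℕ} {R : ℝ}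
    (h1 : E ∩ Q ⊆ A) (h2 : 2 ^ ks * volume A ≤ 3 ^ n * volume Q)
    (h3 : ∀ x ∈ Q, ∀ z r, 0 < r → x ∈ ball z r →
      volume (closedBall z r) < 2 ^ k * volume (closedBall z r ∩ E) →
      r ≤ R ∧ closedBall z r ∩ E ⊆ A) :
    2 ^ ks * volume (Om E k ∩ Q) ≤ 2 ^ k * (2 * 15 ^ n * volume Q) := by
  have hv := vit (S := (Om E k ∩ Q) \ E) hA (2 ^ k) R (by
    rintro x ⟨⟨hx | hx, hxQ⟩, hxE⟩
    · exact absurd hx hxE
    · obtain ⟨p, hp, hxp⟩ := mem_iUnion₂.1 hx
      obtain ⟨a1, a2⟩ := h3 x hxQ p.1 p.2 hp.1 hxp hp.2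
      exact ⟨p.1, p.2, hp.1, a1, ball_subset_closedBall hxp,
        hp.2.le.trans (mul_le_mul_right (measure_mono (subset_inter inter_subset_left a2)) _)⟩)
  have hs : Om E k ∩ Q ⊆ ((Om E k ∩ Q) \ E) ∪ A := by
    intro x hx
    by_cases hE : x ∈ E
    · exact Or.inr (h1 ⟨hE, hx.2⟩)
    · exact Or.inl ⟨hx, hE⟩
  have e15 : (15 : ℝ≥0∞) ^ n = 5 ^ n * 3 ^ n := by rw [← mul_pow]; norm_num
  have o1 : (1 : ℝ≥0∞) ≤ 5 ^ n * 2 ^ k :=
    one_le_mul (one_le_pow₀ (by norm_num)) (one_le_pow₀ (by norm_num))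
  calc 2 ^ ks * volume (Om E k ∩ Q) ≤ 2 ^ ks * (5 ^ n * 2 ^ k * volume A + 5 ^ n * 2 ^ k * volume A) := by
        refine mul_le_mul_right ((measure_mono hs).trans ((measure_union_le _ _).trans ?_)) _
        exact add_le_add hv (le_mul_of_one_le_left' o1)
    _ = 2 * (5 ^ n * 2 ^ k) * (2 ^ ks * volume A) := by ring
    _ ≤ 2 * (5 ^ n * 2 ^ k) * (3 ^ n * volume Q) := mul_le_mul_right h2 _
    _ = _ := by rw [e15]; ring

lemma est1 {E : Set (Fin n → ℝ)} (hE : MeasurableSet E) {c y : Fin n → ℝ} {ρ : ℝ} (hρ : 0 < ρ)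
    {ks : ℕ} (hy : y ∈ closedBall c ρ) (hy2 : y ∉ Om E ks) (k : ℕ) :
    2 ^ ks * volume (Om E k ∩ closedBall c ρ) ≤ 2 ^ k * (2 * 15 ^ n * volume (closedBall c ρ)) := by
  have dens : ∀ z r, 0 < r → y ∈ ball z r →
      2 ^ ks * volume (closedBall z r ∩ E) ≤ volume (closedBall z r) := by
    intro z r hr h
    by_contra hn
    exact hy2 (Or.inr (mem_iUnion₂.2 ⟨(z, r), ⟨hr, not_le.1 hn⟩, h⟩))
  have v3 : ∀ (z : Fin n → ℝ) r, 0 ≤ r → volume (closedBall z (3 * r)) =
      3 ^ n * volume (closedBall z r) := fun z r hr => by simpa using vol_mul z z hr 3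
  by_cases hb : ∃ x ∈ closedBall c ρ, ∃ z r, ρ ≤ r ∧ x ∈ ball z r ∧
      volume (closedBall z r) < 2 ^ k * volume (closedBall z r ∩ E)
  · obtain ⟨x, hx, z, r, h1, h2, h3⟩ := hb
    have hr : 0 < r := hρ.trans_le h1
    have h4 := dens z (3 * r) (by positivity) (by
      have := dist_triangle4 y c x z
      rw [mem_closedBall] at hy hx
      rw [mem_ball] at h2 ⊢
      rw [dist_comm c x] at this
      linarith)
    have h5 : (2 : ℝ≥0∞) ^ ks ≤ 2 ^ k * 3 ^ n := by
      refine canc (vol_ne z hr).1 (vol_ne z hr).2 ?_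
      calc volume (closedBall z r) * 2 ^ ks ≤ 2 ^ k * volume (closedBall z (3 * r) ∩ E) * 2 ^ ks :=
            mul_le_mul_left (h3.le.trans (mul_le_mul_right (measure_mono (inter_subset_inter_left _
              (closedBall_subset_closedBall (by linarith)))) _)) _
        _ = 2 ^ k * (2 ^ ks * volume (closedBall z (3 * r) ∩ E)) := by ring
        _ ≤ 2 ^ k * (3 ^ n * volume (closedBall z r)) := by
            rw [← v3 z r hr.le]; exact mul_le_mul_right h4 _
        _ = _ := by ring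
    have h6 : (3 : ℝ≥0∞) ^ n ≤ 2 * 15 ^ n :=
      (pow_le_pow_left' (by norm_num) n).trans (le_mul_of_one_le_left' (by norm_num))
    calc _ ≤ 2 ^ k * 3 ^ n * volume (closedBall c ρ) :=
          mul_le_mul' h5 (measure_mono inter_subset_right)
      _ ≤ _ := by rw [mul_assoc]; gcongr
  · refine comb (A := closedBall c (3 * ρ) ∩ E) (R := ρ) (measurableSet_closedBall.inter hE)
      (fun x hx => ⟨closedBall_subset_closedBall (by linarith) hx.2, hx.1⟩) ?_ ?_
    · rw [← v3 c ρ hρ.le]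
      exact dens c _ (by positivity) (closedBall_subset_ball (by linarith) hy)
    · intro x hx z r hr hxz h
      have hlt : r < ρ := by
        by_contra hn
        exact hb ⟨x, hx, z, r, not_lt.1 hn, hxz, h⟩
      refine ⟨hlt.le, inter_subset_inter_left _ (closedBall_subset_closedBall' ?_)⟩
      have := dist_triangle z x c
      rw [mem_closedBall] at hx
      rw [mem_ball, dist_comm] at hxz
      linarith

lemma est2 {E : Set (Fin n → ℝ)} (hE : MeasurableSet E) {c : Fin n → ℝ} {ρ : ℝ} (hρ : 0 < ρ)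
    {N k : ℕ} (h : 2 ^ N * volume E ≤ volume (closedBall c ρ)) (hk : k ≤ N) :
    2 ^ N * volume (Om E k ∩ closedBall c ρ) ≤ 2 ^ k * (2 * 15 ^ n * volume (closedBall c ρ)) := by
  refine comb (A := E) (R := ρ) hE inter_subset_left
    (h.trans (le_mul_of_one_le_left' (one_le_pow₀ (by norm_num)))) ?_
  intro x _ z r hr _ h2
  refine ⟨?_, inter_subset_right⟩
  by_contra hn
  refine absurd (h2.trans_le ((mul_le_mul' (pow_le_pow_right₀ (by norm_num) hk)
    (measure_mono inter_subset_right)).trans h)) (not_lt.2 ?_)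
  rw [vol_cb c hρ.le, vol_cb z hr.le]
  exact ENNReal.ofReal_le_ofReal (pow_le_pow_left₀ (by positivity) (by linarith) n)

lemma lint {E : Set (Fin n → ℝ)} (hE : MeasurableSet E) (Q : Set (Fin n → ℝ)) (J : Finset ℕ) :
    ∫⁻ x in Q, ‖∑ k ∈ J, indicator (Om E k) (1 : (Fin n → ℝ) → ℝ) x‖ₑ ≤
      ∑ k ∈ J, volume (Om E k ∩ Q) := by
  calc _ ≤ ∫⁻ x in Q, ∑ k ∈ J, indicator (Om E k) (1 : (Fin n → ℝ) → ℝ≥0∞) x := by
        refine lintegral_mono fun x => (enorm_sum_le _ _).trans (Finset.sum_le_sum fun k _ => ?_)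
        by_cases hx : x ∈ Om E k <;> simp [hx]
    _ = _ := by
        rw [lintegral_finsetSum _ fun k _ => measurable_one.indicator (mOm hE k)]
        refine Finset.sum_congr rfl fun k _ => ?_
        rw [lintegral_indicator_one (mOm hE k), Measure.restrict_apply (mOm hE k)]

lemma stepA {E : Set (Fin n → ℝ)} (hE : MeasurableSet E) {c : Fin n → ℝ} {ρ : ℝ} (hρ : 0 < ρ)
    {N : ℕ} (h : 2 ^ N * volume E ≤ volume (closedBall c ρ)) :
    ∃ g : (Fin n → ℝ) → ℝ, Measurable g ∧ LocallyIntegrable g ∧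
      (∀ z r, 0 < r → ∫⁻ x in closedBall z r, ‖g x - ⨍ y in closedBall z r, g y‖ₑ ≤
        8 * 15 ^ n * volume (closedBall z r)) ∧
      ∀ x ∈ E, (N : ℝ) - 4 * 15 ^ n ≤ g x - ⨍ y in closedBall c ρ, g y := by
  classical
  let g : (Fin n → ℝ) → ℝ := fun x => ∑ k ∈ Finset.range N, indicator (Om E k) 1 x
  have hm : Measurable g := Finset.measurable_sum _ fun k _ => measurable_one.indicator (mOm hE k)
  have hl : LocallyIntegrable g := by
    refine (locallyIntegrable_const (N : ℝ)).mono hm.aestronglyMeasurable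
      (Eventually.of_forall fun x => (norm_sum_le _ _).trans ?_)
    refine (Finset.sum_le_sum (g := fun _ => (1 : ℝ)) fun k _ => ?_).trans (by simp)
    by_cases hx : x ∈ Om E k <;> simp [hx]
  have hi : ∀ z r, IntegrableOn g (closedBall z r) := fun z r =>
    hl.integrableOn_isCompact (isCompact_closedBall z r)
  refine ⟨g, hm, hl, fun z r hr => ?_, fun x hx => ?_⟩
  · obtain ⟨d, hd⟩ : ∃ d : ℝ, ∫⁻ x in closedBall z r, ‖g x - d‖ₑ ≤
        2 * (2 * 15 ^ n * volume (closedBall z r)) := by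
      let J := (Finset.range N).filter fun k => ¬ closedBall z r ⊆ Om E k
      refine ⟨∑ k ∈ (Finset.range N).filter fun k => closedBall z r ⊆ Om E k, (1 : ℝ), ?_⟩
      rw [setLIntegral_congr_fun measurableSet_closedBall
        (g := fun x => ‖∑ k ∈ J, indicator (Om E k) (1 : (Fin n → ℝ) → ℝ) x‖ₑ) (fun x hx => by
          simp only [g, J]
          have e : ∑ k ∈ (Finset.range N).filter (fun k => closedBall z r ⊆ Om E k),
              indicator (Om E k) (1 : (Fin n → ℝ) → ℝ) x =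
              ∑ k ∈ (Finset.range N).filter (fun k => closedBall z r ⊆ Om E k), (1 : ℝ) :=
            Finset.sum_congr rfl fun k hk => indicator_of_mem ((Finset.mem_filter.1 hk).2 hx) _
          rw [← Finset.sum_filter_add_sum_filter_not (Finset.range N)
            (fun k => closedBall z r ⊆ Om E k), e, add_sub_cancel_left])]
      refine (lint hE _ J).trans ?_
      rcases J.eq_empty_or_nonempty with e | e
      · rw [e]; simp
      · obtain ⟨y, hy, hy2⟩ := not_subset.1 (Finset.mem_filter.1 (J.max'_mem e)).2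
        exact sumJ J (J.max' e) _ _ fun k hk => ⟨J.le_max' k hk, est1 hE hr hy hy2 k⟩
    have h2 := (av_le (vol_ne z hr).1 (vol_ne z hr).2 (hi z r) d).trans hd
    calc _ ≤ ∫⁻ x in closedBall z r, (‖(⨍ y in closedBall z r, g y) - d‖ₑ + ‖g x - d‖ₑ) := by
          refine lintegral_mono fun x => ?_
          rw [show g x - ⨍ y in closedBall z r, g y =
            (g x - d) - ((⨍ y in closedBall z r, g y) - d) by ring, add_comm]
          exact enorm_sub_le
      _ ≤ 2 * (2 * 15 ^ n * volume (closedBall z r)) + 2 * (2 * 15 ^ n * volume (closedBall z r)) := by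
          rw [lintegral_add_left measurable_const, setLIntegral_const]
          exact add_le_add h2 hd
      _ = _ := by ring
  · have h1 : g x = N := by
      simp only [g]
      rw [Finset.sum_congr rfl (g := fun _ => (1 : ℝ))
        (fun k _ => indicator_of_mem (show x ∈ Om E k from Or.inl hx) _)]
      simp
    have h2 := av_le (vol_ne c hρ).1 (vol_ne c hρ).2 (hi c ρ) 0
    simp only [sub_zero] at h2
    have h3 := (h2.trans (lint hE _ _)).trans (sumJ _ N _ _ fun k hk =>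
      ⟨(Finset.mem_range.1 hk).le, est2 hE hρ h (Finset.mem_range.1 hk).le⟩)
    have h4 : ‖⨍ y in closedBall c ρ, g y‖ₑ ≤ ENNReal.ofReal (4 * 15 ^ n) := by
      refine canc (vol_ne c hρ).1 (vol_ne c hρ).2 ?_
      rw [mul_comm, ENNReal.ofReal_mul (by norm_num), ENNReal.ofReal_pow (by norm_num)]
      refine h3.trans (le_of_eq ?_)
      simp only [ENNReal.ofReal_ofNat]; ring
    rw [← ofReal_norm, ENNReal.ofReal_le_ofReal_iff (by positivity), Real.norm_eq_abs] at h4
    linarith [le_abs_self (⨍ y in closedBall c ρ, g y)]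

end Pool.Agent.H56.Bm2
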