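import Pool.Agent.H56.ChanDef

open MeasureTheory Matrix
open scoped Kronecker ComplexConjugate

namespace Pool.Agent.H56.Chan

variable {n : Type} [Fintype n] [DecidableEq n]

instance : IsProbabilityMeasure (haar n) := ⟨by
  have := Measure.haarMeasure_self (G := UG n) (K₀ := ⊤)
  simpa [haar] using this⟩

instance : (haar n).IsMulLeftInvariant := by
  unfold haar; infer_instance

lemma mat_mul (g V : UG n) : (g * V).mat = g.mat * V.mat := rfl

lemma cont_mat : Continuous (UG.mat : UG n → Matrix n n ℂ) := continuous_subtype_val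

lemma cont_entry (a i : n) : Continuous fun V : UG n => V.mat a i :=
  (continuous_apply i).comp ((continuous_apply a).comp cont_mat)

lemma integ {F : UG n → ℂ} (hF : Continuous F) : Integrable F (haar n) :=
  hF.integrable_of_hasCompactSupport (HasCompactSupport.of_compactSpace F)

lemma inv_int (g : Matrix n n ℂ) (hg : g ∈ Matrix.unitaryGroup n ℂ) (F : Matrix n n ℂ → ℂ) :
    ∫ V, F (g * UG.mat V) ∂(haar n) = ∫ V, F (UG.mat V) ∂(haar n) :=
  integral_mul_left_eq_self (μ := haar n) (fun V => F (UG.mat V)) (show UG n from ⟨g, hg⟩)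

/-- integrand -/
def mono (i1 i2 j1 j2 a1 a2 b1 b2 : n) (V : Matrix n n ℂ) : ℂ :=
  V a1 i1 * V a2 i2 * conj (V b1 j1) * conj (V b2 j2)

lemma cont_mono (i1 i2 j1 j2 a1 a2 b1 b2 : n) :
    Continuous fun V : UG n => mono i1 i2 j1 j2 a1 a2 b1 b2 V.mat := by
  unfold mono
  exact (((cont_entry _ _).mul (cont_entry _ _)).mul
    (Complex.continuous_conj.comp (cont_entry _ _))).mul
    (Complex.continuous_conj.comp (cont_entry _ _))

noncomputable def W (i1 i2 j1 j2 a1 a2 b1 b2 : n) : ℂ :=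
  ∫ V, mono i1 i2 j1 j2 a1 a2 b1 b2 (UG.mat V) ∂(haar n)

lemma W_perm (σ : Equiv.Perm n) (i1 i2 j1 j2 a1 a2 b1 b2 : n) :
    W i1 i2 j1 j2 (σ a1) (σ a2) (σ b1) (σ b2) = W i1 i2 j1 j2 a1 a2 b1 b2 := by
  have hg : σ.permMatrix ℂ ∈ Matrix.unitaryGroup n ℂ := by
    rw [Matrix.mem_unitaryGroup_iff, star_eq_conjTranspose, conjTranspose_permMatrix,
      ← permMatrix_mul]
    simp
  rw [W, W, ← inv_int _ hg (mono i1 i2 j1 j2 a1 a2 b1 b2)]
  congr 1
  ext V
  simp [mono, PEquiv.toMatrix_toPEquiv_mul]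

lemma W_diag (φ : n → ℂ) (hφ : ∀ a, φ a * conj (φ a) = 1) (i1 i2 j1 j2 a1 a2 b1 b2 : n) :
    W i1 i2 j1 j2 a1 a2 b1 b2 =
      φ a1 * φ a2 * conj (φ b1) * conj (φ b2) * W i1 i2 j1 j2 a1 a2 b1 b2 := by
  have hg : Matrix.diagonal φ ∈ Matrix.unitaryGroup n ℂ := by
    rw [Matrix.mem_unitaryGroup_iff, star_eq_conjTranspose, diagonal_conjTranspose,
      diagonal_mul_diagonal, ← diagonal_one]
    congr 1
    ext a
    simpa using hφ a
  conv_lhs => rw [W, ← inv_int _ hg (mono i1 i2 j1 j2 a1 a2 b1 b2)]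
  rw [W, ← integral_const_mul]
  congr 1
  ext V
  simp only [mono, diagonal_mul, map_mul]
  ring

lemma cnt (P1 P2 Q1 Q2 : Prop) [Decidable P1] [Decidable P2] [Decidable Q1] [Decidable Q2]
    (h : (if P1 then Complex.I else 1) * (if P2 then Complex.I else 1) *
      conj (if Q1 then Complex.I else 1) * conj (if Q2 then Complex.I else 1) = 1) :
    ((P1 ∨ P2) ↔ (Q1 ∨ Q2)) ∧ ((P1 ∧ P2) ↔ (Q1 ∧ Q2)) := by
  by_cases e1 : P1 <;> by_cases e2 : P2 <;> by_cases e3 : Q1 <;> by_cases e4 : Q2 <;>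
    simp [e1, e2, e3, e4, Complex.ext_iff] at h ⊢ <;> norm_num at h

lemma W_zero (i1 i2 j1 j2 a1 a2 b1 b2 : n) (h1 : ¬ (a1 = b1 ∧ a2 = b2))
    (h2 : ¬ (a1 = b2 ∧ a2 = b1)) : W i1 i2 j1 j2 a1 a2 b1 b2 = 0 := by
  by_contra hW
  have key : ∀ p : n, (if a1 = p then Complex.I else 1) * (if a2 = p then Complex.I else 1) *
      conj (if b1 = p then Complex.I else 1) * conj (if b2 = p then Complex.I else 1) = 1 := by
    intro p
    have := W_diag (fun a => if a = p then Complex.I else 1) (by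
      intro a; by_cases h : a = p <;> simp [h]) i1 i2 j1 j2 a1 a2 b1 b2
    apply mul_right_cancel₀ hW
    rw [one_mul]; exact this.symm
  have k1 := cnt _ _ _ _ (key a1)
  have k2 := cnt _ _ _ _ (key a2)
  have k3 := cnt _ _ _ _ (key b1)
  grind

omit [Fintype n] in
lemma exists_perm {p q p' q' : n} (h : p ≠ q) (h' : p' ≠ q') :
    ∃ σ : Equiv.Perm n, σ p = p' ∧ σ q = q' := by
  refine ⟨Equiv.swap (Equiv.swap p p' q) q' * Equiv.swap p p', ?_, ?_⟩
  · simp only [Equiv.Perm.mul_apply, Equiv.swap_apply_left]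
    apply Equiv.swap_apply_of_ne_of_ne _ h'
    intro e
    apply h
    apply (Equiv.swap p p').injective
    rw [Equiv.swap_apply_left]; exact e
  · simp

lemma sum_row (V : UG n) (i j : n) : ∑ a, V.mat a i * conj (V.mat a j) = if i = j then 1 else 0 := by
  have h : star V.mat * V.mat = 1 := (show Matrix.unitaryGroup n ℂ from V).2.1
  have := congrFun (congrFun h j) i
  simp only [Matrix.mul_apply, star_apply, one_apply] at this
  have e : (if i = j then (1:ℂ) else 0) = if j = i then 1 else 0 := by simp only [eq_comm]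
  rw [e, ← this]
  apply Finset.sum_congr rfl
  intro a _
  rw [mul_comm]; rfl

lemma tr1 (i1 i2 j1 j2 : n) : ∑ a1, ∑ a2, W i1 i2 j1 j2 a1 a2 a1 a2 =
    (if i1 = j1 then 1 else 0) * (if i2 = j2 then 1 else 0) := by
  simp only [W]
  rw [Finset.sum_congr rfl fun a1 _ =>
    (integral_finsetSum _ fun a2 _ => integ (cont_mono i1 i2 j1 j2 a1 a2 a1 a2)).symm,
    ← integral_finsetSum _ fun a1 _ => integ (continuous_finsetSum _ fun a2 _ =>
      cont_mono i1 i2 j1 j2 a1 a2 a1 a2)]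
  have : ∀ V : UG n, ∑ a1, ∑ a2, mono i1 i2 j1 j2 a1 a2 a1 a2 V.mat =
      (if i1 = j1 then 1 else 0) * (if i2 = j2 then 1 else 0) := by
    intro V
    rw [← sum_row V, ← sum_row V, Finset.sum_mul_sum]
    refine Finset.sum_congr rfl fun a1 _ => Finset.sum_congr rfl fun a2 _ => ?_
    simp only [mono]; ring
  simp only [this]
  simp

lemma tr2 (i1 i2 j1 j2 : n) : ∑ a1, ∑ a2, W i1 i2 j1 j2 a1 a2 a2 a1 =
    (if i1 = j2 then 1 else 0) * (if i2 = j1 then 1 else 0) := by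
  simp only [W]
  rw [Finset.sum_congr rfl fun a1 _ =>
    (integral_finsetSum _ fun a2 _ => integ (cont_mono i1 i2 j1 j2 a1 a2 a2 a1)).symm,
    ← integral_finsetSum _ fun a1 _ => integ (continuous_finsetSum _ fun a2 _ =>
      cont_mono i1 i2 j1 j2 a1 a2 a2 a1)]
  have : ∀ V : UG n, ∑ a1, ∑ a2, mono i1 i2 j1 j2 a1 a2 a2 a1 V.mat =
      (if i1 = j2 then 1 else 0) * (if i2 = j1 then 1 else 0) := by
    intro V
    rw [← sum_row V, ← sum_row V, Finset.sum_mul_sum]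
    refine Finset.sum_congr rfl fun a1 _ => Finset.sum_congr rfl fun a2 _ => ?_
    simp only [mono]; ring
  simp only [this]
  simp

/-- index type of the four-dimensional case -/
abbrev I4 := Fin 2 × Fin 2

noncomputable def rot : Matrix I4 I4 ℂ :=
  (!![3/5, 4/5; -4/5, 3/5] : Matrix (Fin 2) (Fin 2) ℂ) ⊗ₖ (1 : Matrix (Fin 2) (Fin 2) ℂ)

lemma rot_mem : rot ∈ Matrix.unitaryGroup I4 ℂ := by
  rw [Matrix.mem_unitaryGroup_iff, star_eq_conjTranspose, rot, conjTranspose_kronecker,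
    ← mul_kronecker_mul, conjTranspose_one, mul_one, ← one_kronecker_one]
  congr 1
  ext a b
  fin_cases a <;> fin_cases b <;> simp [Matrix.mul_apply, Fin.sum_univ_two, map_ofNat] <;> norm_num

lemma rot_mul (V : Matrix I4 I4 ℂ) (i : I4) :
    (rot * V) (0, 0) i = 3 / 5 * V (0, 0) i + 4 / 5 * V (1, 0) i := by
  simp [rot, Matrix.mul_apply, Fintype.sum_prod_type, Fin.sum_univ_two, one_apply]

lemma W_rot (i1 i2 j1 j2 : I4) : W i1 i2 j1 j2 (0,0) (0,0) (0,0) (0,0) =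
    ∑ a1 : Fin 2, ∑ a2 : Fin 2, ∑ b1 : Fin 2, ∑ b2 : Fin 2,
      (![3/5, 4/5] a1 * ![3/5, 4/5] a2 * ![3/5, 4/5] b1 * ![3/5, 4/5] b2 : ℂ) *
        W i1 i2 j1 j2 (a1, 0) (a2, 0) (b1, 0) (b2, 0) := by
  have hc : ∀ a1 a2 b1 b2 : Fin 2, Continuous fun V : UG I4 =>
      (![3/5, 4/5] a1 * ![3/5, 4/5] a2 * ![3/5, 4/5] b1 * ![3/5, 4/5] b2 : ℂ) *
        mono i1 i2 j1 j2 (a1, 0) (a2, 0) (b1, 0) (b2, 0) V.mat := fun a1 a2 b1 b2 =>
    continuous_const.mul (cont_mono _ _ _ _ _ _ _ _)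
  simp only [W, ← integral_const_mul]
  rw [Finset.sum_congr rfl fun a1 _ => Finset.sum_congr rfl fun a2 _ =>
    Finset.sum_congr rfl fun b1 _ =>
    (integral_finsetSum _ fun b2 _ => integ (hc a1 a2 b1 b2)).symm]
  rw [Finset.sum_congr rfl fun a1 _ => Finset.sum_congr rfl fun a2 _ =>
    (integral_finsetSum _ fun b1 _ => integ (continuous_finsetSum _ fun b2 _ =>
      hc a1 a2 b1 b2)).symm]
  rw [Finset.sum_congr rfl fun a1 _ =>
    (integral_finsetSum _ fun a2 _ => integ (continuous_finsetSum _ fun b1 _ =>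
      continuous_finsetSum _ fun b2 _ => hc a1 a2 b1 b2)).symm]
  rw [← integral_finsetSum _ fun a1 _ => integ (continuous_finsetSum _ fun a2 _ =>
      continuous_finsetSum _ fun b1 _ => continuous_finsetSum _ fun b2 _ => hc a1 a2 b1 b2)]
  rw [← inv_int _ rot_mem (mono i1 i2 j1 j2 (0,0) (0,0) (0,0) (0,0))]
  congr 1
  ext V
  simp only [mono, rot_mul, Fin.sum_univ_two, map_add, map_mul, map_div₀, map_ofNat]
  simp
  ring

lemma W_form (i1 i2 j1 j2 : I4) : ∃ x y : ℂ, ∀ a1 a2 b1 b2 : I4,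
    W i1 i2 j1 j2 a1 a2 b1 b2 = x * ((if a1 = b1 then 1 else 0) * (if a2 = b2 then 1 else 0)) +
      y * ((if a1 = b2 then 1 else 0) * (if a2 = b1 then 1 else 0)) := by
  set x := W i1 i2 j1 j2 (0,0) (1,0) (0,0) (1,0) with hx
  set y := W i1 i2 j1 j2 (0,0) (1,0) (1,0) (0,0) with hy
  set z := W i1 i2 j1 j2 (0,0) (0,0) (0,0) (0,0) with hz
  have h01 : ((0,0) : I4) ≠ (1,0) := by decide
  have hX : ∀ p q : I4, p ≠ q → W i1 i2 j1 j2 p q p q = x := by
    intro p q h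
    obtain ⟨σ, h1, h2⟩ := exists_perm h01 h
    rw [hx, ← h1, ← h2, W_perm σ]
  have hY : ∀ p q : I4, p ≠ q → W i1 i2 j1 j2 p q q p = y := by
    intro p q h
    obtain ⟨σ, h1, h2⟩ := exists_perm h01 h
    rw [hy, ← h1, ← h2, W_perm σ]
  have hZ : ∀ p : I4, W i1 i2 j1 j2 p p p p = z := by
    intro p
    rw [hz, ← W_perm (Equiv.swap (0,0) p), Equiv.swap_apply_right]
  have hzxy : z = x + y := by
    have := W_rot i1 i2 j1 j2
    simp only [Fin.sum_univ_two] at this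
    rw [hZ, hZ (1,0), hX _ _ h01, hX _ _ h01.symm, hY _ _ h01, hY _ _ h01.symm,
      W_zero _ _ _ _ (0,0) (0,0) (0,0) (1,0) (by decide) (by decide),
      W_zero _ _ _ _ (0,0) (0,0) (1,0) (0,0) (by decide) (by decide),
      W_zero _ _ _ _ (0,0) (0,0) (1,0) (1,0) (by decide) (by decide),
      W_zero _ _ _ _ (0,0) (1,0) (0,0) (0,0) (by decide) (by decide),
      W_zero _ _ _ _ (0,0) (1,0) (1,0) (1,0) (by decide) (by decide),
      W_zero _ _ _ _ (1,0) (0,0) (0,0) (0,0) (by decide) (by decide),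
      W_zero _ _ _ _ (1,0) (0,0) (1,0) (1,0) (by decide) (by decide),
      W_zero _ _ _ _ (1,0) (1,0) (0,0) (0,0) (by decide) (by decide),
      W_zero _ _ _ _ (1,0) (1,0) (0,0) (1,0) (by decide) (by decide),
      W_zero _ _ _ _ (1,0) (1,0) (1,0) (0,0) (by decide) (by decide)] at this
    simp at this
    linear_combination (625 / 288) * this
  refine ⟨x, y, fun a1 a2 b1 b2 => ?_⟩
  by_cases h1 : a1 = b1 ∧ a2 = b2
  · obtain ⟨rfl, rfl⟩ := h1
    by_cases h : a1 = a2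
    · subst h; simp [hZ, hzxy]
    · simp [hX _ _ h, h]
  · by_cases h2 : a1 = b2 ∧ a2 = b1
    · obtain ⟨rfl, rfl⟩ := h2
      have h : a1 ≠ a2 := fun e => h1 ⟨e, e.symm⟩
      simp [hY _ _ h, h]
    · rw [W_zero _ _ _ _ _ _ _ _ h1 h2]
      by_cases e1 : a1 = b1 <;> by_cases e2 : a2 = b2 <;> by_cases e3 : a1 = b2 <;>
        by_cases e4 : a2 = b1 <;> simp_all

lemma W_eq (i1 i2 j1 j2 a1 a2 b1 b2 : I4) :
    W i1 i2 j1 j2 a1 a2 b1 b2 =
      (4 * ((if i1 = j1 then 1 else 0) * (if i2 = j2 then 1 else 0)) -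
        ((if i1 = j2 then 1 else 0) * (if i2 = j1 then 1 else 0))) / 60 *
        ((if a1 = b1 then 1 else 0) * (if a2 = b2 then 1 else 0)) +
      (4 * ((if i1 = j2 then 1 else 0) * (if i2 = j1 then 1 else 0)) -
        ((if i1 = j1 then 1 else 0) * (if i2 = j2 then 1 else 0))) / 60 *
        ((if a1 = b2 then 1 else 0) * (if a2 = b1 then 1 else 0)) := by
  obtain ⟨x, y, h⟩ := W_form i1 i2 j1 j2
  have t1 := tr1 i1 i2 j1 j2
  have t2 := tr2 i1 i2 j1 j2
  rw [Finset.sum_congr rfl fun a1 _ => Finset.sum_congr rfl fun a2 _ => h a1 a2 a1 a2] at t1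
  rw [Finset.sum_congr rfl fun a1 _ => Finset.sum_congr rfl fun a2 _ => h a1 a2 a2 a1] at t2
  have s1 : ∑ a1 : I4, ∑ a2 : I4, (x * ((if a1 = a1 then (1:ℂ) else 0) * (if a2 = a2 then 1 else 0)) +
      y * ((if a1 = a2 then 1 else 0) * (if a2 = a1 then 1 else 0))) = 16 * x + 4 * y := by
    simp [Finset.sum_add_distrib, ← Finset.mul_sum]; ring
  have s2 : ∑ a1 : I4, ∑ a2 : I4, (x * ((if a1 = a2 then (1:ℂ) else 0) * (if a2 = a1 then 1 else 0)) +
      y * ((if a1 = a1 then 1 else 0) * (if a2 = a2 then 1 else 0))) = 4 * x + 16 * y := by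
    simp [Finset.sum_add_distrib, ← Finset.mul_sum]; ring
  rw [s1] at t1
  rw [s2] at t2
  rw [h, ← t1, ← t2]
  ring

end Pool.Agent.H56.Chan
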