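import Pool.Agent.H56.Chan1

open MeasureTheory Matrix
open scoped Kronecker ComplexConjugate

namespace Pool.Agent.H56.Chan

lemma unitMat_chan {d e : ℕ} [NeZero e] (V : Matrix (Fin d × Fin e) (Fin d × Fin e) ℂ)
    (p q : Fin d × Fin d) :
    unitMat (chan V) p q = ∑ f, V (p.1, f) (q.1, 0) * conj (V (p.2, f) (q.2, 0)) := by
  simp only [unitMat, chan, traceEnv, single_kronecker_single, mul_one]
  refine Finset.sum_congr rfl fun f _ => ?_
  rw [Matrix.mul_apply, Finset.sum_eq_single (q.2, (0 : Fin e))]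
  · simp [conjTranspose_apply]
  · intro b _ hb
    rw [mul_single_apply_of_ne _ _ _ _ _ hb, zero_mul]
  · simp

/-- index set -/
abbrev P2 := Fin 2 → Fin 2 × Fin 2

def uI (p : P2) : ℂ := (if (p 0).1 = (p 0).2 then 1 else 0) * (if (p 1).1 = (p 1).2 then 1 else 0)

def uS (p : P2) : ℂ := (if (p 0).1 = (p 1).2 then 1 else 0) * (if (p 1).1 = (p 0).2 then 1 else 0)

lemma moment_eq (p q : P2) : moment 2 2 2 p q =
    uI p * ((4 * uI q - uS q) / 15) + uS p * ((4 * uS q - uI q) / 30) := by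
  have h1 : ∀ V : Matrix I4 I4 ℂ, powMat 2 (chan V) p q = ∑ f : Fin 2, ∑ g : Fin 2,
      mono ((q 0).1, 0) ((q 1).1, 0) ((q 0).2, 0) ((q 1).2, 0)
        ((p 0).1, f) ((p 1).1, g) ((p 0).2, f) ((p 1).2, g) V := by
    intro V
    simp only [powMat, Fin.prod_univ_two, unitMat_chan, Finset.sum_mul_sum, mono]
    refine Finset.sum_congr rfl fun f _ => Finset.sum_congr rfl fun g _ => ?_
    ring
  have h2 : moment 2 2 2 p q = ∑ f : Fin 2, ∑ g : Fin 2,
      W ((q 0).1, 0) ((q 1).1, 0) ((q 0).2, 0) ((q 1).2, 0)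
        ((p 0).1, f) ((p 1).1, g) ((p 0).2, f) ((p 1).2, g) := by
    simp only [moment, h1, W]
    rw [integral_finsetSum _ fun f _ => integ (continuous_finsetSum _ fun g _ =>
      cont_mono _ _ _ _ _ _ _ _)]
    refine Finset.sum_congr rfl fun f _ => ?_
    rw [integral_finsetSum _ fun g _ => integ (cont_mono _ _ _ _ _ _ _ _)]
  rw [h2]
  simp only [W_eq, Fin.sum_univ_two, Prod.mk.injEq, and_true, uI, uS]
  simp only [Fin.zero_ne_one, one_ne_zero, and_false, if_false]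
  ring

def U : Matrix P2 (Fin 2) ℂ := fun p => ![uI p, uS p]

noncomputable def C : Matrix (Fin 2) (Fin 2) ℂ := !![4/15, -1/15; -1/30, 4/30]

lemma moment_fac : moment 2 2 2 = U * C * Uᴴ := by
  ext p q
  rw [moment_eq]
  simp only [Matrix.mul_apply, Fin.sum_univ_two, U, C, conjTranspose_apply]
  have a1 : star (uI q) = uI q := by unfold uI; split_ifs <;> simp
  have a2 : star (uS q) = uS q := by unfold uS; split_ifs <;> simp
  simp [a1, a2]
  ring

lemma sumP2 (F : P2 → ℂ) : ∑ p, F p = ∑ a : Fin 2 × Fin 2, ∑ b : Fin 2 × Fin 2, F ![a, b] := by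
  rw [← Fintype.sum_prod_type', ← (piFinTwoEquiv fun _ => Fin 2 × Fin 2).symm.sum_comp]
  rfl

lemma gram : Uᴴ * U = !![4, 2; 2, 4] := by
  ext i j
  rw [Matrix.mul_apply, sumP2]
  fin_cases i <;> fin_cases j <;>
    simp [U, uI, uS, conjTranspose_apply, Fintype.sum_prod_type, Fin.sum_univ_two] <;> norm_num

lemma pow_fac (k : ℕ) : moment 2 2 2 ^ (k + 1) = U * (C * (!![4, 2; 2, 4] * C) ^ k) * Uᴴ := by
  induction k with
  | zero => simp [moment_fac]
  | succ k ih =>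
    rw [pow_succ, ih, moment_fac, pow_succ, ← gram]
    simp only [Matrix.mul_assoc]

lemma N_eq (k : ℕ) : N 2 (k + 1) 2 2 = (Matrix.trace ((C * (!![4, 2; 2, 4] * C) ^ k)ᴴ *
    !![4, 2; 2, 4] * (C * (!![4, 2; 2, 4] * C) ^ k) * !![4, 2; 2, 4])).re := by
  rw [N, pow_fac]
  set D := C * (!![4, 2; 2, 4] * C) ^ k
  congr 1
  rw [conjTranspose_mul, conjTranspose_mul, conjTranspose_conjTranspose]
  have : U * (Dᴴ * Uᴴ) * (U * D * Uᴴ) = U * (Dᴴ * (Uᴴ * U) * D * Uᴴ) := by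
    simp only [Matrix.mul_assoc]
  rw [this, Matrix.trace_mul_comm, gram]
  simp only [Matrix.mul_assoc, gram]

lemma GC_pow (k : ℕ) : (!![4, 2; 2, 4] * C) ^ k =
    !![1, 0; ((2/3 * (1 - (2/5:ℝ)^k) : ℝ) : ℂ), (((2/5:ℝ)^k : ℝ) : ℂ)] := by
  have h : !![4, 2; 2, 4] * C = !![1, 0; 2/5, 2/5] := by
    ext i j
    fin_cases i <;> fin_cases j <;> simp [C, Matrix.mul_apply, Fin.sum_univ_two] <;> norm_num
  rw [h]
  induction k with
  | zero =>
    ext i j
    fin_cases i <;> fin_cases j <;> simp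
  | succ k ih =>
    rw [pow_succ, ih]
    ext i j
    fin_cases i <;> fin_cases j <;> simp [Matrix.mul_apply, Fin.sum_univ_two, pow_succ] <;> ring

lemma N_val (k : ℕ) : N 2 (k + 1) 2 2 =
    (28 - 2 * (2/5:ℝ)^(k+1) + 28 * ((2/5:ℝ)^(k+1))^2) / 27 := by
  rw [N_eq, GC_pow]
  generalize hr : (2/5:ℝ)^k = r
  have : C * !![1, 0; ((2/3 * (1 - r) : ℝ) : ℂ), (r : ℂ)] =
      !![((4/15 - 2/3 * (1 - r) / 15 : ℝ) : ℂ), ((-r / 15 : ℝ) : ℂ);
        ((-1/30 + 4 * (2/3 * (1 - r)) / 30 : ℝ) : ℂ), ((4 * r / 30 : ℝ) : ℂ)] := by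
    ext i j
    fin_cases i <;> fin_cases j <;> simp [C, Matrix.mul_apply, Fin.sum_univ_two] <;> ring
  rw [this, pow_succ, hr]
  generalize hA : (4/15 - 2/3 * (1 - r) / 15 : ℝ) = A
  generalize hB : (-r / 15 : ℝ) = B
  generalize hC : (-1/30 + 4 * (2/3 * (1 - r)) / 30 : ℝ) = D
  generalize hD : (4 * r / 30 : ℝ) = E
  simp [Matrix.trace, Matrix.mul_apply, Fin.sum_univ_two, conjTranspose_apply]
  subst hA hB hC hD
  ring

end Pool.Agent.H56.Chan
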