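import Mathlib

/-!
Definitions: Haar probability measure on the unitary group, the Stinespring channel of a
unitary, and the moment operators of the ensemble cHaar(d, dE).
-/

open MeasureTheory Matrix
open scoped Kronecker

namespace Pool.Agent.H56.Chan

/-- The unitary group of complex matrices indexed by `n`. -/
def UG (n : Type) [Fintype n] [DecidableEq n] : Type := Matrix.unitaryGroup n ℂ

variable {n : Type} [Fintype n] [DecidableEq n]

noncomputable instance : Group (UG n) := inferInstanceAs (Group (Matrix.unitaryGroup n ℂ))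

instance : TopologicalSpace (UG n) :=
  inferInstanceAs (TopologicalSpace (Matrix.unitaryGroup n ℂ))

instance : IsTopologicalGroup (UG n) :=
  inferInstanceAs (IsTopologicalGroup (unitary (Matrix n n ℂ)))

instance : MeasurableSpace (UG n) := borel (UG n)

instance : BorelSpace (UG n) := ⟨rfl⟩

instance : CompactSpace (UG n) := by
  have h1 : IsCompact (Set.pi Set.univ fun _ : n => Set.pi Set.univ fun _ : n =>
      Metric.closedBall (0 : ℂ) 1) :=
    isCompact_univ_pi fun _ => isCompact_univ_pi fun _ => isCompact_closedBall 0 1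
  have h2 : IsCompact ((unitary (Matrix n n ℂ) : Set (Matrix n n ℂ))) := by
    have h3 : IsClosed ((unitary (Matrix n n ℂ) : Set (Matrix n n ℂ))) := isClosed_unitary
    refine IsCompact.of_isClosed_subset (X := Matrix n n ℂ) h1 h3 ?_
    intro U hU i _ j _
    simpa using entry_norm_bound_of_unitary (𝕜 := ℂ) hU i j
  exact isCompact_iff_compactSpace.mp h2

/-- The matrix of a unitary. -/
def UG.mat (V : UG n) : Matrix n n ℂ := Subtype.val V

/-- Haar measure on the unitary group, normalised to total mass one. -/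
noncomputable def haar (n : Type) [Fintype n] [DecidableEq n] : Measure (UG n) :=
  Measure.haarMeasure ⊤

/-- The trace over the environment `ℂ^e` of a matrix on `ℂ^d ⊗ ℂ^e`. -/
noncomputable def traceEnv {d e : ℕ} (Y : Matrix (Fin d × Fin e) (Fin d × Fin e) ℂ) :
    Matrix (Fin d) (Fin d) ℂ := fun a b => ∑ f, Y (a, f) (b, f)

/-- The channel `X ↦ Tr_E [V (X ⊗ |0⟩⟨0|) V†]`. -/
noncomputable def chan {d e : ℕ} [NeZero e] (V : Matrix (Fin d × Fin e) (Fin d × Fin e) ℂ)
    (X : Matrix (Fin d) (Fin d) ℂ) : Matrix (Fin d) (Fin d) ℂ :=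
  traceEnv (V * (X ⊗ₖ Matrix.single (0 : Fin e) (0 : Fin e) (1 : ℂ)) * Vᴴ)

/-- Matrix of a map `Φ : M_d → M_d` in the orthonormal basis of matrix units `E_q`:
the entry `(p, q)` is the `p`-th entry of `Φ (E_q)`. -/
noncomputable def unitMat {d : ℕ} (Φ : Matrix (Fin d) (Fin d) ℂ → Matrix (Fin d) (Fin d) ℂ)
    (p q : Fin d × Fin d) : ℂ := Φ (Matrix.single q.1 q.2 1) p.1 p.2

/-- Matrix of the `t`-th tensor power of `Φ` in the orthonormal basis
`E_{q 1} ⊗ ⋯ ⊗ E_{q t}` of `M_d^{⊗ t}`. -/
noncomputable def powMat {d : ℕ} (t : ℕ)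
    (Φ : Matrix (Fin d) (Fin d) ℂ → Matrix (Fin d) (Fin d) ℂ) :
    Matrix (Fin t → Fin d × Fin d) (Fin t → Fin d × Fin d) ℂ :=
  fun p q => ∏ s, unitMat Φ (p s) (q s)

/-- Matrix of the `t`-th moment operator of the ensemble cHaar(d, e): the Haar average of the
`t`-th tensor power of the channel of `V`. -/
noncomputable def moment (t d e : ℕ) [NeZero e] :
    Matrix (Fin t → Fin d × Fin d) (Fin t → Fin d × Fin d) ℂ :=
  fun p q => ∫ V, powMat t (chan (UG.mat V)) p q ∂(haar (Fin d × Fin e))

/-- `N_{t,k}(d, e)`: squared Hilbert–Schmidt norm `Tr (A† A)` of the `k`-th power `A` of the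
moment operator. -/
noncomputable def N (t k d e : ℕ) [NeZero e] : ℝ :=
  (Matrix.trace ((moment t d e ^ k)ᴴ * moment t d e ^ k)).re

end Pool.Agent.H56.Chan
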