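import Mathlib

set_option autoImplicit false

namespace Pool.Agent.H56.Dec
open Set Filter Topology

variable {X : Type} [TopologicalSpace X]

def Dec (M : Set X) : Prop :=
  ∃ A B : Set X, A ⊆ M ∧ B ⊆ M ∧ A ≠ M ∧ B ≠ M ∧ IsCompact A ∧ IsConnected A ∧
    IsCompact B ∧ IsConnected B ∧ A ∪ B = M

def HD (K : Set X) : Prop :=
  ∀ M : Set X, M ⊆ K → IsCompact M → IsConnected M → M.Nontrivial → Dec M

lemma comp_closed {N : Set X} (hN : IsClosed N) (x : X) : IsClosed (connectedComponentIn N x) := by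
  by_cases hx : x ∈ N
  · rw [connectedComponentIn_eq_image hx]
    exact hN.isClosedEmbedding_subtypeVal.isClosedMap _ isClosed_connectedComponent
  · rw [connectedComponentIn_eq_empty hx]; exact isClosed_empty

variable [T2Space X]

lemma sep {N D : Set X} (hN' : IsCompact N) (hD : IsClosed D) {x : X} (hx : x ∈ N)
    (h : Disjoint (connectedComponentIn N x) D) :
    ∃ Z Z' : Set X, IsClosed Z ∧ IsClosed Z' ∧ Disjoint Z Z' ∧ Z ∪ Z' = N ∧ x ∈ Z ∧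
      Disjoint Z D := by
  have hN := hN'.isClosed
  have : CompactSpace N := isCompact_iff_compactSpace.mp hN'
  rw [connectedComponentIn_eq_image hx, connectedComponent_eq_iInter_isClopen] at h
  have hD' : IsCompact ((↑) ⁻¹' D : Set N) := (hD.preimage continuous_subtype_val).isCompact
  have h2 : ((↑) ⁻¹' D : Set N) ∩
      ⋂ s : { s : Set N // IsClopen s ∧ (⟨x, hx⟩ : N) ∈ s }, (s : Set N) = ∅ := by
    rw [eq_empty_iff_forall_notMem]
    rintro z ⟨h1, h2⟩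
    exact disjoint_left.mp h ⟨z, h2, rfl⟩ h1
  obtain ⟨t, ht⟩ := hD'.elim_finite_subfamily_closed _ (fun s => s.2.1.1) h2
  set W : Set N := ⋂ s ∈ t, (s : Set N) with hW
  have hWc : IsClopen W := isClopen_biInter_finset fun s _ => s.2.1
  have hxW : (⟨x, hx⟩ : N) ∈ W := mem_iInter₂.mpr fun s _ => s.2.2
  refine ⟨(↑) '' W, (↑) '' Wᶜ, hN.isClosedEmbedding_subtypeVal.isClosedMap _ hWc.1,
    hN.isClosedEmbedding_subtypeVal.isClosedMap _ hWc.compl.1, ?_, ?_, ⟨_, hxW, rfl⟩, ?_⟩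
  · exact (disjoint_image_iff Subtype.val_injective).mpr disjoint_compl_right
  · rw [← image_union, union_compl_self]; simp
  · rw [disjoint_left]
    rintro _ ⟨z, hz, rfl⟩ hzD
    have : z ∈ ((↑) ⁻¹' D : Set N) ∩ W := ⟨hzD, hz⟩
    rw [ht] at this; exact this

/-- boundary bumping -/
lemma bump {M F : Set X} (hM : IsCompact M) (hc : IsPreconnected M) (hF : IsClosed F) {x : X}
    (hx : x ∈ M ∩ F) (hn : ¬ M ⊆ F) :
    ∃ D ⊆ M ∩ F, IsCompact D ∧ IsPreconnected D ∧ x ∈ D ∧ (D ∩ closure (M \ F)).Nonempty := by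
  have hN := hM.inter_right hF
  refine ⟨connectedComponentIn (M ∩ F) x, connectedComponentIn_subset _ _,
    hN.of_isClosed_subset (comp_closed hN.isClosed x) (connectedComponentIn_subset _ _),
    isPreconnected_connectedComponentIn, mem_connectedComponentIn hx, ?_⟩
  by_contra h
  obtain ⟨Z, Z', h1, h2, h3, h4, h5, h6⟩ := sep hN isClosed_closure hx
    (disjoint_iff_inter_eq_empty.2 (not_nonempty_iff_eq_empty.1 h))
  obtain ⟨y, hy1, hy2⟩ := not_subset.1 hn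
  obtain ⟨z, -, hz1, hz2⟩ := isPreconnected_closed_iff.1 hc Z (Z' ∪ closure (M \ F)) h1
    (h2.union isClosed_closure) (fun w hw => by
      by_cases hwF : w ∈ F
      · have : w ∈ Z ∪ Z' := by rw [h4]; exact ⟨hw, hwF⟩
        exact this.imp id Or.inl
      · exact Or.inr (Or.inr (subset_closure ⟨hw, hwF⟩))) ⟨x, hx.1, h5⟩
    ⟨y, hy1, Or.inr (subset_closure ⟨hy1, hy2⟩)⟩
  rcases hz2 with hz2 | hz2
  · exact disjoint_left.1 h3 hz1 hz2
  · exact disjoint_left.1 h6 hz1 hz2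

lemma dec_of_interior {M A U : Set X} (hM : IsCompact M) (hc : IsPreconnected M) (hAM : A ⊆ M)
    (hA : IsCompact A) (hAc : IsConnected A) (hne : A ≠ M) (hU : IsOpen U)
    (hUn : (M ∩ U).Nonempty) (hUA : M ∩ U ⊆ A) : Dec M := by
  set B := closure (M \ A) with hB
  have hBM : B ⊆ M := closure_minimal sdiff_subset hM.isClosed
  have hBc : IsCompact B := hM.of_isClosed_subset isClosed_closure hBM
  have hcov : ∀ w ∈ M, w ∉ A → w ∈ B := fun w h1 h2 => subset_closure ⟨h1, h2⟩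
  have hn : ¬ M ⊆ B := by
    obtain ⟨u, hu1, hu2⟩ := hUn
    intro h
    obtain ⟨w, hw1, hw2⟩ := mem_closure_iff.1 (h hu1) U hU hu2
    exact hw2.2 (hUA ⟨hw2.1, hw1⟩)
  obtain ⟨y, hy1, hy2⟩ : ∃ y ∈ M, y ∉ A := not_subset.1 fun h => hne (hAM.antisymm h)
  by_cases hp : IsPreconnected B
  · refine ⟨A, B, hAM, hBM, hne, fun h => hn h.ge, hA, hAc, hBc, ⟨⟨y, hcov y hy1 hy2⟩, hp⟩,
      (union_subset hAM hBM).antisymm fun w hw => ?_⟩
    by_cases h : w ∈ A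
    · exact Or.inl h
    · exact Or.inr (hcov w hw h)
  · rw [isPreconnected_closed_iff] at hp
    push Not at hp
    obtain ⟨P, Q, hP, hQ, hPQ, hP1, hQ1, hd⟩ := hp
    have key : ∀ P Q : Set X, IsClosed P → IsClosed Q → B ⊆ P ∪ Q → (B ∩ Q).Nonempty →
        B ∩ (P ∩ Q) = ∅ → A ∪ B ∩ P ≠ M ∧ IsConnected (A ∪ B ∩ P) := by
      intro P Q hP hQ hPQ hQ1 hd
      constructor
      · intro h
        obtain ⟨q, hq1, hq2⟩ := hQ1
        have h2 : M \ A ⊆ P := fun w hw => by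
          have : w ∈ A ∪ B ∩ P := by rw [h]; exact hw.1
          exact (this.resolve_left hw.2).2
        have h3 : q ∈ B ∩ (P ∩ Q) := ⟨hq1, closure_minimal h2 hP hq1, hq2⟩
        rw [hd] at h3; exact h3
      · obtain ⟨a, ha⟩ := hAc.nonempty
        refine ⟨⟨a, Or.inl ha⟩, isPreconnected_of_forall a fun w hw => ?_⟩
        rcases hw with hw | hw
        · exact ⟨A, subset_union_left, ha, hw, hAc.isPreconnected⟩
        · obtain ⟨D, hD1, hD2, hD3, hD4, z, hz1, hz2⟩ :=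
            bump hM hc isClosed_closure ⟨hBM hw.1, hw.1⟩ hn
          have hzA : z ∈ A := closure_minimal (fun u hu => by
            by_contra h; exact hu.2 (hcov u hu.1 h)) hA.isClosed hz2
          have hDP : D ⊆ P := fun u hu => by
            by_contra h
            obtain ⟨s, hs1, hs2⟩ := isPreconnected_closed_iff.1 hD3 P Q hP hQ
              (fun s hs => hPQ (hD1 hs).2) ⟨w, hD4, hw.2⟩
              ⟨u, hu, (hPQ (hD1 hu).2).resolve_left h⟩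
            have h3 : s ∈ B ∩ (P ∩ Q) := ⟨(hD1 hs1).2, hs2⟩
            rw [hd] at h3; exact h3
          exact ⟨A ∪ D, union_subset_union_right _ fun u hu => ⟨(hD1 hu).2, hDP hu⟩, Or.inl ha,
            Or.inr hD4, hAc.isPreconnected.union z hzA hz1 hD3⟩
    obtain ⟨k1, k2⟩ := key P Q hP hQ hPQ hQ1 hd
    obtain ⟨k3, k4⟩ := key Q P hQ hP (by rwa [union_comm]) hP1 (by rwa [inter_comm Q])
    have hs : ∀ P : Set X, A ∪ B ∩ P ⊆ M := fun P => union_subset hAM (inter_subset_left.trans hBM)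
    refine ⟨_, _, hs P, hs Q, k1, k3, hA.union (hBc.inter_right hP), k2,
      hA.union (hBc.inter_right hQ), k4, (union_subset (hs P) (hs Q)).antisymm fun w hw => ?_⟩
    by_cases h : w ∈ A
    · exact Or.inl (Or.inl h)
    · rcases hPQ (hcov w hw h) with h2 | h2
      · exact Or.inl (Or.inr ⟨hcov w hw h, h2⟩)
      · exact Or.inr (Or.inr ⟨hcov w hw h, h2⟩)

lemma dec_of_arc [RegularSpace X] {M U : Set X} (hM : IsCompact M) (hc : IsPreconnected M)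
    (hnt : M.Nontrivial) (hU : IsOpen U) (hUn : (M ∩ U).Nonempty) {γ : ℝ → X} {a b : ℝ}
    (hγ : ContinuousOn γ (Icc a b)) (hi : InjOn γ (Icc a b)) (hMU : M ∩ U ⊆ γ '' Icc a b) :
    Dec M := by
  obtain ⟨x, hxM, hxU⟩ := hUn
  obtain ⟨y, hyM, hyx⟩ := hnt.exists_ne x
  obtain ⟨F, hF1, hF2, hF3⟩ := exists_mem_nhds_isClosed_subset
    ((hU.sdiff (isClosed_singleton (x := y))).mem_nhds ⟨hxU, hyx.symm⟩)
  obtain ⟨D, hD1, hD2, hD3, hD4, z, hz1, hz2⟩ := bump hM hc hF2 ⟨hxM, mem_of_mem_nhds hF1⟩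
    fun h => (hF3 (h hyM)).2 rfl
  have hzx : z ≠ x := by
    rintro rfl
    obtain ⟨w, hw1, hw2⟩ := mem_closure_iff_nhds.1 hz2 F hF1
    exact hw2.2 hw1
  have hDU : D ⊆ M ∩ U := fun u hu => ⟨(hD1 hu).1, (hF3 (hD1 hu).2).1⟩
  have hcp : ∀ α β, a ≤ α → β ≤ b → IsCompact (γ '' Icc α β) := fun α β h1 h2 =>
    isCompact_Icc.image_of_continuousOn (hγ.mono (Icc_subset_Icc h1 h2))
  have main : ∀ s ∈ Icc a b, ∀ t ∈ Icc a b, s < t → γ s ∈ D → γ t ∈ D → Dec M := by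
    intro s hs t ht hst h1 h2
    have hall : ∀ r ∈ Icc s t, γ r ∈ D := by
      intro r hr
      have hr1 : a ≤ r := hs.1.trans hr.1
      have hr2 : r ≤ b := hr.2.trans ht.2
      obtain ⟨w, hw, ⟨r1, hr3, rfl⟩, r2, hr4, hr5⟩ := isPreconnected_closed_iff.1 hD3 _ _
        (hcp a r le_rfl hr2).isClosed (hcp r b hr1 le_rfl).isClosed (fun u hu => by
          obtain ⟨r', hr', rfl⟩ := hMU (hDU hu)
          rcases le_total r' r with h | h
          · exact Or.inl ⟨r', ⟨hr'.1, h⟩, rfl⟩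
          · exact Or.inr ⟨r', ⟨h, hr'.2⟩, rfl⟩)
        ⟨_, h1, s, ⟨hs.1, hr.1⟩, rfl⟩ ⟨_, h2, t, ⟨hr.2, ht.2⟩, rfl⟩
      have h6 := hi ⟨hr1.trans hr4.1, hr4.2⟩ ⟨hr3.1, hr3.2.trans hr2⟩ hr5
      have h7 : r1 = r := le_antisymm hr3.2 (h6 ▸ hr4.1)
      rwa [h7] at hw
    obtain ⟨hs1, hs2⟩ := hs
    obtain ⟨ht1, ht2⟩ := ht
    set α := s + (t - s) / 3 with hα
    set β := s + 2 * (t - s) / 3 with hβ
    have e1 : a ≤ α := by linarith
    have e2 : β ≤ b := by linarith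
    refine dec_of_interior (A := γ '' Icc α β) (U := U \ (γ '' Icc a α ∪ γ '' Icc β b)) hM hc ?_
      (hcp _ _ e1 e2) ((isConnected_Icc (by linarith)).image _ (hγ.mono (Icc_subset_Icc e1 e2)))
      (fun h => ?_) (hU.sdiff ((hcp a α le_rfl (by linarith)).union
        (hcp β b (by linarith) le_rfl)).isClosed) ⟨γ ((s + t) / 2), ?_⟩ ?_
    · rintro _ ⟨r, hr, rfl⟩
      exact (hDU (hall r ⟨by linarith [hr.1], by linarith [hr.2]⟩)).1
    · have : γ s ∈ γ '' Icc α β := by rw [h]; exact (hDU h1).1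
      obtain ⟨r, hr, h3⟩ := this
      have := hi ⟨e1.trans hr.1, hr.2.trans e2⟩ ⟨hs1, hs2⟩ h3
      linarith [hr.1]
    · have h3 := hDU (hall ((s + t) / 2) ⟨by linarith, by linarith⟩)
      have h4 : (s + t) / 2 ∈ Icc a b := ⟨by linarith, by linarith⟩
      refine ⟨h3.1, h3.2, ?_⟩
      rintro (⟨r, hr, h5⟩ | ⟨r, hr, h5⟩)
      · have := hi ⟨hr.1, by linarith [hr.2]⟩ h4 h5
        linarith [hr.2]
      · have := hi ⟨by linarith [hr.1], hr.2⟩ h4 h5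
        linarith [hr.1]
    · rintro u ⟨hu1, hu2, hu3⟩
      obtain ⟨r, hr, rfl⟩ := hMU ⟨hu1, hu2⟩
      refine ⟨r, ⟨?_, ?_⟩, rfl⟩
      · by_contra h
        exact hu3 (Or.inl ⟨r, ⟨hr.1, (not_le.1 h).le⟩, rfl⟩)
      · by_contra h
        exact hu3 (Or.inr ⟨r, ⟨(not_le.1 h).le, hr.2⟩, rfl⟩)
  obtain ⟨s, hs, rfl⟩ := hMU (hDU hD4)
  obtain ⟨t, ht, rfl⟩ := hMU (hDU hz1)
  rcases lt_trichotomy s t with h | h | h
  · exact main s hs t ht h hD4 hz1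
  · exact absurd (by rw [h]) hzx
  · exact main t ht s hs h hz1 hD4

lemma hd_union [RegularSpace X] {L K : Set X} (hL : HD L) (hLc : IsClosed L) {ι : Type}
    [Countable ι] (γ : ι → ℝ → X) (a b : ι → ℝ) (hγ : ∀ i, ContinuousOn (γ i) (Icc (a i) (b i)))
    (hi : ∀ i, InjOn (γ i) (Icc (a i) (b i))) (hK : K ⊆ L ∪ ⋃ i, γ i '' Icc (a i) (b i)) :
    HD K := by
  intro M hMK hM hc hnt
  by_cases hML : M ⊆ L
  · exact hL M hML hM hc hnt
  obtain ⟨y, hy1, hy2⟩ := not_subset.1 hML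
  have : CompactSpace M := isCompact_iff_compactSpace.1 hM
  let S : Option ι → Set M := fun o => (↑) ⁻¹' (o.elim L fun i => γ i '' Icc (a i) (b i))
  have hd := dense_iUnion_interior_of_closed (f := S) (fun o => by
    refine IsClosed.preimage continuous_subtype_val ?_
    cases o with
    | none => exact hLc
    | some i => exact (isCompact_Icc.image_of_continuousOn (hγ i)).isClosed) (by
    refine eq_univ_of_forall fun w => mem_iUnion.2 ?_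
    rcases hK (hMK w.2) with h | h
    · exact ⟨none, h⟩
    · obtain ⟨i, hi⟩ := mem_iUnion.1 h
      exact ⟨some i, hi⟩)
  obtain ⟨w, hw1, hw2⟩ := hd.exists_mem_open
    (hLc.isOpen_compl.preimage continuous_subtype_val) ⟨⟨y, hy1⟩, hy2⟩
  obtain ⟨o, ho⟩ := mem_iUnion.1 hw1
  cases o with
  | none => exact absurd (interior_subset ho) hw2
  | some i =>
    obtain ⟨U, hU, hU2⟩ := isOpen_induced_iff.1 (isOpen_interior (s := S (some i)))
    refine dec_of_arc hM hc.isPreconnected hnt hU ⟨w, w.2, ?_⟩ (hγ i) (hi i) fun u hu => ?_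
    · rw [← hU2] at ho; exact ho
    · have : (⟨u, hu.1⟩ : M) ∈ interior (S (some i)) := by rw [← hU2]; exact hu.2
      exact (interior_subset this : (⟨u, hu.1⟩ : M) ∈ S (some i))

lemma hd_fan [RegularSpace X] {C : Type} [TopologicalSpace C] [CompactSpace C]
    [TotallySeparatedSpace C] {Λ : C × ℝ → X} (hΛ : Continuous Λ) {v : X} (hv : ∀ c, Λ (c, 0) = v)
    (hi : ∀ c c', ∀ s ∈ Icc (0 : ℝ) 2, ∀ s' ∈ Icc (0 : ℝ) 2, Λ (c, s) = Λ (c', s') →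
      s = s' ∧ (s ≠ 0 → c = c')) : HD (Λ '' univ ×ˢ Icc 0 2) := by
  have hcl : ∀ (W : Set C) (α β : ℝ), IsClosed W → IsClosed (Λ '' W ×ˢ Icc α β) :=
    fun W α β hW => ((hW.isCompact.prod isCompact_Icc).image hΛ).isClosed
  have leg : ∀ D ⊆ Λ '' univ ×ˢ Icc 0 2, IsPreconnected D → v ∉ D → ∀ c, ∀ s ∈ Icc (0 : ℝ) 2,
      Λ (c, s) ∈ D → D ⊆ (fun r => Λ (c, r)) '' Icc 0 2 := by
    intro D hD hc hvD c s hs hcs y hy
    obtain ⟨⟨c', s'⟩, ⟨-, hs'⟩, rfl⟩ := hD hy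
    by_cases h : c = c'
    · exact ⟨s', hs', by rw [h]⟩
    obtain ⟨W, hW, h1, h2⟩ := exists_isClopen_of_totally_separated h
    obtain ⟨w, hw, ⟨⟨d, r⟩, ⟨h3, h4⟩, rfl⟩, ⟨d', r'⟩, ⟨h5, h6⟩, h7⟩ :=
      isPreconnected_closed_iff.1 hc _ _ (hcl W 0 2 hW.1) (hcl Wᶜ 0 2 hW.compl.1) (fun u hu => by
        obtain ⟨⟨d, r⟩, ⟨-, hr⟩, rfl⟩ := hD hu
        by_cases h : d ∈ W
        · exact Or.inl ⟨_, ⟨h, hr⟩, rfl⟩
        · exact Or.inr ⟨(d, r), ⟨h, hr⟩, rfl⟩) ⟨_, hcs, (c, s), ⟨h1, hs⟩, rfl⟩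
        ⟨_, hy, (c', s'), ⟨h2, hs'⟩, rfl⟩
    obtain ⟨h8, h9⟩ := hi d d' r h4 r' h6 h7.symm
    have h10 : r ≠ 0 := by rintro rfl; rw [hv] at hw; exact hvD hw
    exact absurd (h9 h10 ▸ h3) h5
  intro M hML hM hc hnt
  by_cases hvM : v ∈ M
  · obtain ⟨y, hyM, hyv⟩ := hnt.exists_ne v
    obtain ⟨⟨c₀, s₀⟩, ⟨-, hs₀⟩, rfl⟩ := hML hyM
    have hpos : 0 < s₀ := lt_of_le_of_ne hs₀.1 (by rintro rfl; exact hyv (hv _))
    have hnv : ∀ r, 0 < r → v ∉ Λ '' univ ×ˢ Icc r 2 := by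
      rintro r hr ⟨⟨d, r'⟩, ⟨-, h1⟩, h2⟩
      rw [← hv d] at h2
      have := (hi d d r' ⟨by linarith [h1.1], h1.2⟩ 0 ⟨le_rfl, zero_le_two⟩ h2).1
      linarith [h1.1]
    have hsplit : ∀ r, ∀ u ∈ M, u ∉ Λ '' univ ×ˢ Icc r 2 → u ∈ Λ '' univ ×ˢ Icc 0 r := by
      intro r u hu1 hu2
      obtain ⟨⟨d, r'⟩, ⟨-, h1⟩, rfl⟩ := hML hu1
      refine ⟨_, ⟨trivial, h1.1, ?_⟩, rfl⟩
      by_contra h
      exact hu2 ⟨_, ⟨trivial, (not_le.1 h).le, h1.2⟩, rfl⟩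
    have star : ∀ c, ∀ s ∈ Icc (0 : ℝ) 2, Λ (c, s) ∈ M → ∀ s' ∈ Icc 0 s, Λ (c, s') ∈ M := by
      intro c s hs hcs s' hs'
      rcases hs'.1.eq_or_lt with h | h
      · rw [← h, hv]; exact hvM
      obtain ⟨D, hD1, -, hD3, hD4, z, hz1, hz2⟩ := bump hM hc.isPreconnected
        (hcl univ s' 2 isClosed_univ) ⟨hcs, _, ⟨trivial, hs'.2, hs.2⟩, rfl⟩ fun h' => hnv s' h (h' hvM)
      obtain ⟨r1, h1, rfl⟩ := leg D (fun u hu => hML (hD1 hu).1) hD3
        (fun h' => hnv s' h (hD1 h').2) c s hs hD4 hz1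
      obtain ⟨⟨d, r2⟩, ⟨-, h2⟩, h3⟩ := (hD1 hz1).2
      obtain ⟨⟨d', r3⟩, ⟨-, h4⟩, h5⟩ := closure_minimal (fun u hu => hsplit s' u hu.1 hu.2)
        (hcl univ 0 s' isClosed_univ) hz2
      have h6 := (hi _ _ r2 ⟨by linarith [h2.1], h2.2⟩ r1 h1 h3).1
      have h7 := (hi _ _ r3 ⟨h4.1, by linarith [h4.2, hs'.2, hs.2]⟩ r1 h1 h5).1
      have h8 : r1 = s' := by linarith [h2.1, h4.2]
      rw [← h8]; exact (hD1 hz1).1
    have hvA : v ∈ M ∩ Λ '' univ ×ˢ Icc 0 (s₀ / 2) :=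
      ⟨hvM, (c₀, 0), ⟨trivial, le_rfl, by linarith⟩, hv _⟩
    refine dec_of_interior (A := M ∩ Λ '' univ ×ˢ Icc 0 (s₀ / 2))
      (U := (Λ '' univ ×ˢ Icc (s₀ / 2) 2)ᶜ) hM hc.isPreconnected inter_subset_left
      (hM.inter_right (hcl _ _ _ isClosed_univ)) ⟨⟨v, hvA⟩, ?_⟩ (fun h => ?_)
      (hcl _ _ _ isClosed_univ).isOpen_compl ⟨v, hvM, hnv _ (by linarith)⟩
      fun u hu => ⟨hu.1, hsplit _ u hu.1 hu.2⟩
    · refine isPreconnected_of_forall v ?_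
      rintro _ ⟨h1, ⟨c, s⟩, ⟨-, h2⟩, rfl⟩
      refine ⟨(fun r => Λ (c, r)) '' Icc 0 s, ?_, ⟨0, ⟨le_rfl, h2.1⟩, hv c⟩,
        ⟨s, ⟨h2.1, le_rfl⟩, rfl⟩, isPreconnected_Icc.image _ (by fun_prop)⟩
      rintro _ ⟨r, hr, rfl⟩
      exact ⟨star c s ⟨h2.1, by linarith [h2.2, hs₀.2]⟩ h1 r hr,
        _, ⟨trivial, hr.1, hr.2.trans h2.2⟩, rfl⟩
    · rw [← h] at hyM
      obtain ⟨-, ⟨d, r⟩, ⟨-, h1⟩, h2⟩ := hyM
      have := (hi _ _ r ⟨h1.1, by linarith [h1.2, hs₀.2]⟩ s₀ hs₀ h2).1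
      linarith [h1.2]
  · obtain ⟨y, hyM⟩ := hc.nonempty
    obtain ⟨⟨c, s⟩, ⟨-, hs⟩, rfl⟩ := hML hyM
    refine dec_of_arc (γ := fun r => Λ (c, r)) (a := 0) (b := 2) hM hc.isPreconnected hnt
      isOpen_univ ⟨_, hyM, trivial⟩ (by fun_prop) (fun r hr r' hr' h => (hi _ _ r hr r' hr' h).1)
      (inter_subset_left.trans (leg M hML hc.isPreconnected hvM c s hs hyM))

lemma irred {K : Set X} (hK : IsCompact K) (hc : IsPreconnected K) {x y : X} (hx : x ∈ K)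
    (hy : y ∈ K) : ∃ K' ⊆ K, IsCompact K' ∧ IsConnected K' ∧ x ∈ K' ∧ y ∈ K' ∧
      ∀ L : Set X, L ⊆ K' → IsCompact L → IsConnected L → x ∈ L → y ∈ L → L = K' := by
  obtain ⟨m, hm1, hm2⟩ := zorn_superset_nonempty
    {L : Set X | IsCompact L ∧ IsPreconnected L ∧ x ∈ L ∧ y ∈ L} (fun c hc hch hne => by
      have := hne.to_subtype
      have hcp : ∀ i : c, IsCompact (i : Set X) := fun i => (hc i.2).1
      have hI : IsCompact (⋂ i : c, (i : Set X)) := by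
        obtain ⟨i, hi⟩ := hne
        exact (hc hi).1.of_isClosed_subset (isClosed_iInter fun i => (hcp i).isClosed)
          (iInter_subset (fun i : c => (i : Set X)) ⟨i, hi⟩)
      refine ⟨⋂ i : c, (i : Set X), ⟨hI, ?_, mem_iInter.2 fun i => (hc i.2).2.2.1,
        mem_iInter.2 fun i => (hc i.2).2.2.2⟩,
        fun s hs => iInter_subset (fun i : c => (i : Set X)) ⟨s, hs⟩⟩
      rw [isPreconnected_closed_iff]
      intro P Q hP hQ hPQ ⟨p, hp⟩ ⟨q, hq⟩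
      by_contra hd
      obtain ⟨U, V, hU, hV, h1, h2, h3⟩ := SeparatedNhds.of_isCompact_isCompact
        (hI.inter_right hP) (hI.inter_right hQ) (disjoint_left.2 fun w h1 h2 =>
          hd ⟨w, h1.1, h1.2, h2.2⟩)
      obtain ⟨i, hi⟩ := exists_subset_nhds_of_isCompact' (V := fun i : c => (i : Set X))
        (U := U ∪ V) (fun i j => by
          rcases hch.total i.2 j.2 with h | h
          · exact ⟨i, le_rfl, h⟩
          · exact ⟨j, h, le_rfl⟩) hcp (fun i => (hcp i).isClosed) fun w hw =>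
          (hU.union hV).mem_nhds ((hPQ hw).imp (fun h => h1 ⟨hw, h⟩) fun h => h2 ⟨hw, h⟩)
      obtain ⟨w, -, hw1, hw2⟩ := (hc i.2).2.1 U V hU hV hi ⟨p, mem_iInter.1 hp.1 i, h1 hp⟩
        ⟨q, mem_iInter.1 hq.1 i, h2 hq⟩
      exact disjoint_left.1 h3 hw1 hw2) K ⟨hK, hc, hx, hy⟩
  obtain ⟨h1, h2, h3, h4⟩ := hm2.prop
  exact ⟨m, hm1, h1, ⟨⟨x, h3⟩, h2⟩, h3, h4, fun L hL a1 a2 a3 a4 =>
    (hm2.eq_of_subset ⟨a1, a2.isPreconnected, a3, a4⟩ hL).symm.symm⟩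

end Pool.Agent.H56.Dec
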