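import Pool.Agent.H56.Fsp1

set_option autoImplicit false

namespace Pool.Agent.H56.Fsp
open Complex Set Metric Filter Topology

lemma cont_mul {Y : Type} [TopologicalSpace Y] {a g : Y → ℂ} (C : ℝ) (ha : Continuous a)
    (hC : ∀ y, ‖g y‖ ≤ C) (hg : ∀ y, a y ≠ 0 → ContinuousAt g y) :
    Continuous fun y => a y * g y := by
  rw [continuous_iff_continuousAt]
  intro y
  by_cases h : a y = 0
  · rw [ContinuousAt, h, zero_mul]
    refine squeeze_zero_norm (a := fun y => ‖a y‖ * C) (fun y => ?_) ?_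
    · rw [norm_mul]; gcongr; exact hC y
    · have : Continuous fun y => ‖a y‖ * C := by fun_prop
      simpa [h] using this.tendsto y
  · exact ha.continuousAt.mul (hg y h)

noncomputable def G (p : ℂ × ℂ) : ℝ :=
  min ‖p.2 - (1 - m (T p.1)) * E (T p.1)‖ 2 - m (T p.1)

lemma XS_eq : XS = {p : ℂ × ℂ | normSq p.1 = p.1.re} ∩ {p | ‖p.2‖ ≤ 1} ∩
    {p | 1 - 2 * ‖p.1‖ ≤ ‖p.2‖} ∩ {p | (p.1.re : ℂ) * (G p : ℂ) = 0} := by
  ext p
  simp only [mem_inter_iff, mem_ofPred_eq]
  constructor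
  · intro hp
    have hn := norm_le_of_mem hp
    rcases hp with ⟨t, θ, rfl⟩ | ⟨ω, rfl⟩
    · have hz : ‖(e t θ).2 - (1 - m t) * E t‖ = m t := by
        have : (e t θ).2 - (1 - m t) * E t = m t * (E t * E θ) := by simp only [e]; ring
        rw [this, norm_mul, norm_mul, norm_E, norm_E, norm_real, Real.norm_eq_abs,
          abs_of_nonneg (m_nonneg t)]; ring
      refine ⟨⟨⟨?_, (norm_snd_le _).trans hn⟩, ?_⟩, ?_⟩
      · simp only [e]
        rw [normSq_apply, c_re, c_im]; field_simp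
      · rcases le_or_gt 0 t with ht | ht
        · simp only [e, m_of_nonneg ht]
          have := norm_nonneg (c t)
          simp [norm_E]
        · have h1 := one_sub_m t ht
          have h2 := norm_sub_le (e t θ).2 ((1 - m t) * E t)
          have h3 : (1 - m t : ℂ) = ((1 - m t : ℝ) : ℂ) := by push_cast; ring
          rw [hz, norm_mul, norm_E, h3, norm_real, Real.norm_eq_abs,
            abs_of_nonneg (by linarith [m_lt t])] at h2
          have h4 : (e t θ).1 = c t := rfl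
          rw [h4]; linarith
      · have : G (e t θ) = 0 := by
          have h4 : (e t θ).1 = c t := rfl
          rw [G, h4, T_c, hz, min_eq_left (by linarith [m_lt t]), sub_self]
        simp [this]
    · simp [b, norm_E]
  · rintro ⟨⟨⟨h1, h2⟩, h3⟩, h4⟩
    by_cases hw : p.1 = 0
    · right
      refine ⟨arg p.2, Prod.ext hw ?_⟩
      have h5 : ‖p.2‖ = 1 := by rw [hw, norm_zero] at h3; linarith
      have := norm_mul_exp_arg_mul_I p.2
      rw [h5] at this
      rw [ofReal_one, one_mul] at this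
      exact this.symm
    · left
      have hre : p.1.re ≠ 0 := by rw [← h1]; exact (normSq_pos.2 hw).ne'
      have hG : G p = 0 := by
        rcases mul_eq_zero.1 h4 with h | h
        · exact absurd (by exact_mod_cast h) hre
        · exact_mod_cast h
      set t := T p.1 with ht
      have hc : p.1 = c t := by
        have h5 : p.1 * (1 - t * I) = 1 := by
          rw [normSq_apply] at h1
          apply Complex.ext
          · simp [ht, T]; field_simp; linarith
          · simp [ht, T]; field_simp; ring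
        exact eq_inv_of_mul_eq_one_left h5
      have hz : ‖p.2 - (1 - m t) * E t‖ = m t := by
        rw [G, ← ht, sub_eq_zero] at hG
        rcases min_choice ‖p.2 - (1 - m t) * E t‖ 2 with h | h
        · rw [← h, hG]
        · linarith [m_lt t]
      have := norm_mul_exp_arg_mul_I (p.2 - (1 - m t) * E t)
      rw [hz] at this
      refine ⟨t, arg (p.2 - (1 - m t) * E t) - t, Prod.ext hc ?_⟩
      have h6 : E t * E (arg (p.2 - (1 - m t) * E t) - t) = E (arg (p.2 - (1 - m t) * E t)) := by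
        rw [← E_add]; simp
      simp only [e]
      have h7 : (m t : ℂ) * E (arg (p.2 - (1 - m t) * E t)) = p.2 - (1 - m t) * E t := this
      linear_combination -(m t : ℂ) * h6 - h7

lemma XS_compact : IsCompact XS := by
  refine Metric.isCompact_of_isClosed_isBounded ?_ ?_
  · rw [XS_eq]
    refine ((IsClosed.inter (IsClosed.inter ?_ ?_) ?_).inter ?_)
    · exact isClosed_eq (by fun_prop) (by fun_prop)
    · exact isClosed_le (by fun_prop) (by fun_prop)
    · exact isClosed_le (by fun_prop) (by fun_prop)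
    · refine isClosed_eq (cont_mul 2 (by fun_prop) (fun p => ?_) fun p hp => ?_) continuous_const
      · rw [norm_real, Real.norm_eq_abs, G, abs_le]
        have h1 := m_nonneg (T p.1)
        have h2 := m_lt (T p.1)
        have h3 := min_le_right ‖p.2 - (1 - m (T p.1)) * E (T p.1)‖ 2
        have h4 : 0 ≤ min ‖p.2 - (1 - m (T p.1)) * E (T p.1)‖ 2 := le_min (norm_nonneg _) zero_le_two
        constructor <;> linarith
      · have hT : ContinuousAt (fun p : ℂ × ℂ => T p.1) p :=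
          ContinuousAt.comp (f := fun p : ℂ × ℂ => p.1) (T_contAt (by exact_mod_cast hp))
            continuousAt_fst
        have h1 := m_cont.continuousAt.comp hT
        have h3 := E_cont.continuousAt.comp hT
        have h4 := continuous_ofReal.continuousAt.comp h1
        refine continuous_ofReal.continuousAt.comp ?_
        unfold G
        exact (((continuousAt_snd.sub ((continuousAt_const.sub h4).mul h3)).norm).min
          continuousAt_const).sub h1
  · exact (isBounded_iff_forall_norm_le.2 ⟨1, fun p hp => norm_le_of_mem hp⟩)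

/-- polar description of the whole space -/
noncomputable def P (ω τ : ℝ) : ℂ × ℂ :=
  (((1 - |τ| : ℝ) : ℂ) / ((1 - |τ| : ℝ) - τ * I),
    ((1 - max (-τ) 0 : ℝ) : ℂ) * E (τ / (1 - |τ|)) + (max (-τ) 0 : ℝ) * E ω)

lemma P_den (τ : ℝ) : (((1 - |τ| : ℝ) : ℂ) - τ * I) ≠ 0 := by
  intro h
  have h1 := congrArg Complex.re h
  have h2 := congrArg Complex.im h
  simp at h1 h2
  simp [h2] at h1

lemma P_neg (ω : ℝ) : P ω (-1) = b ω := by simp [P, b]

lemma P_eq (ω : ℝ) {τ : ℝ} (h : |τ| < 1) :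
    P ω τ = e (τ / (1 - |τ|)) (ω - τ / (1 - |τ|)) := by
  have h0 : 0 < 1 - |τ| := by linarith
  have hm : m (τ / (1 - |τ|)) = max (-τ) 0 := by
    rcases le_or_gt 0 τ with ht | ht
    · rw [m_of_nonneg (div_nonneg ht h0.le), max_eq_right (by linarith)]
    · have : 0 ≤ -(τ / (1 - |τ|)) := by
        rw [← neg_div]; exact div_nonneg (by linarith) h0.le
      rw [m, max_eq_left this, max_eq_left (by linarith)]
      rw [abs_of_neg ht] at *
      field_simp; ring
  refine Prod.ext ?_ ?_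
  · simp only [P, e]
    rw [div_eq_iff (P_den τ)]
    have h1 := c_mul (τ / (1 - |τ|))
    have h2 : ((τ / (1 - |τ|) : ℝ) : ℂ) * ((1 - |τ| : ℝ) : ℂ) = τ := by
      rw [← ofReal_mul, div_mul_cancel₀ _ h0.ne']
    linear_combination -((1 - |τ| : ℝ) : ℂ) * h1 - c (τ / (1 - |τ|)) * I * h2
  · simp only [P, e, hm]
    have h6 : E (τ / (1 - |τ|)) * E (ω - τ / (1 - |τ|)) = E ω := by rw [← E_add]; simp
    rw [← h6]; push_cast; ring

lemma P_mem (ω : ℝ) {τ : ℝ} (h : τ ∈ Ico (-1 : ℝ) 1) : P ω τ ∈ XS := by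
  rcases h.1.eq_or_lt with h1 | h1
  · rw [← h1, P_neg]; exact Or.inr ⟨ω, rfl⟩
  · rw [P_eq ω (abs_lt.2 ⟨h1, h.2⟩)]; exact Or.inl ⟨_, _, rfl⟩

lemma P_surj {p : ℂ × ℂ} (hp : p ∈ XS) : ∃ ω, ∃ τ ∈ Ico (-1 : ℝ) 1, p = P ω τ := by
  rcases hp with ⟨t, θ, rfl⟩ | ⟨ω, rfl⟩
  · have h0 : 0 < 1 + |t| := by positivity
    have h1 : |t / (1 + |t|)| = |t| / (1 + |t|) := by rw [abs_div, abs_of_pos h0]
    have h2 : |t / (1 + |t|)| < 1 := by rw [h1, div_lt_one h0]; linarith
    have h3 : t / (1 + |t|) / (1 - |t / (1 + |t|)|) = t := by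
      rw [h1]; field_simp; ring
    refine ⟨θ + t, t / (1 + |t|), ⟨(abs_lt.1 h2).1.le, (abs_lt.1 h2).2⟩, ?_⟩
    rw [P_eq _ h2, h3]; simp
  · exact ⟨ω, -1, ⟨le_rfl, by norm_num⟩, (P_neg ω).symm⟩

lemma P_inj {ω ω' τ τ' : ℝ} (h : τ ∈ Ico (-1 : ℝ) 1) (h' : τ' ∈ Ico (-1 : ℝ) 1)
    (H : (P ω τ).1 = (P ω' τ').1) : τ = τ' := by
  simp only [P] at H
  rw [div_eq_div_iff (P_den τ) (P_den τ')] at H
  have h2 := congrArg Complex.im H
  simp at h2
  obtain ⟨a1, a2⟩ := h
  obtain ⟨b1, b2⟩ := h'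
  rcases abs_cases τ with ⟨e1, e2⟩ | ⟨e1, e2⟩ <;> rcases abs_cases τ' with ⟨e3, e4⟩ | ⟨e3, e4⟩ <;>
    rw [e1, e3] at h2 <;> nlinarith

lemma P_cont {Y : Type} [TopologicalSpace Y] {ω τ : Y → ℝ} (hω : Continuous ω)
    (hτ : Continuous τ) (h : ∀ y, τ y ∈ Ico (-1 : ℝ) 1) : Continuous fun y => P (ω y) (τ y) := by
  unfold P
  have hE := E_cont
  refine Continuous.prodMk (Continuous.div (by fun_prop) (by fun_prop) fun y => P_den _)
    (Continuous.add (cont_mul 1 (by fun_prop) (fun y => (norm_E _).le) fun y hy => ?_)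
      (by fun_prop))
  refine E_cont.continuousAt.comp (hτ.continuousAt.div (by fun_prop) ?_)
  have h1 : τ y ≠ -1 := by intro h2; simp [h2] at hy
  have h2 : |τ y| < 1 := abs_lt.2 ⟨lt_of_le_of_ne (h y).1 h1.symm, (h y).2⟩
  linarith

lemma arcs (x y : XS) (hxy : x ≠ y) :
    ∃ γ : unitInterval → XS, Continuous γ ∧ Function.Injective γ ∧ γ 0 = x ∧ γ 1 = y := by
  obtain ⟨ω, τ, hτ, hx⟩ := P_surj x.2
  obtain ⟨ω₁, τ', hτ', hy⟩ := P_surj y.2
  obtain ⟨ω', hω1, hω2⟩ : ∃ ω', E ω' = E ω₁ ∧ |ω' - ω| < 2 * Real.pi := by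
    have hp : 0 < 2 * Real.pi := by have := Real.pi_pos; positivity
    refine ⟨toIcoMod hp ω ω₁, E_eq_iff.2 ⟨-toIcoDiv hp ω ω₁, ?_⟩, ?_⟩
    · have := toIcoMod_add_toIcoDiv_zsmul hp ω ω₁
      rw [zsmul_eq_mul] at this
      push_cast; linarith
    · have := toIcoMod_mem_Ico hp ω ω₁
      rw [abs_of_nonneg (by linarith [this.1])]; linarith [this.2]
  have hy' : y.1 = P ω' τ' := by rw [hy]; simp only [P, hω1]
  have hI : ∀ s : unitInterval, τ + s * (τ' - τ) ∈ Ico (-1 : ℝ) 1 := fun s => by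
    have := (convex_Ico (-1 : ℝ) 1) hτ hτ' (sub_nonneg.2 s.2.2) s.2.1 (by ring)
    convert this using 1
    simp only [smul_eq_mul]; ring
  refine ⟨fun s => ⟨P (ω + s * (ω' - ω)) (τ + s * (τ' - τ)), P_mem _ (hI s)⟩,
    Continuous.subtype_mk (P_cont (by fun_prop) (by fun_prop) hI) _, fun s s' H => ?_,
    Subtype.ext (by simp [hx]), Subtype.ext (by simp [hy'])⟩
  have H1 : P (ω + s * (ω' - ω)) (τ + s * (τ' - τ)) = P (ω + s' * (ω' - ω)) (τ + s' * (τ' - τ)) :=
    congrArg Subtype.val H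
  by_cases hne : τ' = τ
  · subst hne
    have hd : (P ω τ').2 ≠ (P ω' τ').2 := fun h =>
      hxy (Subtype.ext (by rw [hx, hy']; exact Prod.ext rfl h))
    have H2 := congrArg Prod.snd H1
    simp only [P, sub_self, mul_zero, add_zero, add_right_inj] at H2 hd
    have hm : ((max (-τ') 0 : ℝ) : ℂ) ≠ 0 := by intro h; simp [h] at hd
    have hω : ω' - ω ≠ 0 := by intro h; rw [sub_eq_zero] at h; simp [h] at hd
    have H3 := E_inj (mul_left_cancel₀ hm H2) (by
      rw [show ω + s * (ω' - ω) - (ω + s' * (ω' - ω)) = (s - s') * (ω' - ω) by ring, abs_mul]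
      have : |(s : ℝ) - s'| ≤ 1 := by
        rw [abs_le]; constructor <;> linarith [s.2.1, s.2.2, s'.2.1, s'.2.2]
      nlinarith [abs_nonneg (ω' - ω)])
    exact Subtype.ext (mul_right_cancel₀ hω (add_left_cancel H3))
  · have H2 := P_inj (hI s) (hI s') (congrArg Prod.fst H1)
    exact Subtype.ext (mul_right_cancel₀ (sub_ne_zero.2 hne) (add_left_cancel H2))

end Pool.Agent.H56.Fsp
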