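import Pool.Agent.H56.Dec1
import Pool.Agent.H56.Fsp2

set_option autoImplicit false

namespace Pool.Agent.H56.Dec
open Set Filter Topology Complex
open Pool.Agent.H56.Fsp (E norm_E E_add E_zero E_cont E_inj E_ne E_eq_iff cont_mul)

def S : Set (ℕ → ℂ) := {z | ∀ n, ‖z n‖ = 1 ∧ z (n + 1) ^ 3 = z n}
def C : Set (ℕ → ℂ) := {z | z ∈ S ∧ z 0 = 1}

lemma S_compact : IsCompact S := by
  refine (isCompact_univ_pi fun _ : ℕ => isCompact_sphere (0 : ℂ) 1).of_isClosed_subset ?_
    fun z hz n _ => by simpa using (hz n).1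
  simp only [S, ofPred_forall]
  exact isClosed_iInter fun n => (isClosed_eq (by fun_prop) (by fun_prop)).inter
    (isClosed_eq (by fun_prop) (by fun_prop))

instance : CompactSpace C := isCompact_iff_compactSpace.1
  (S_compact.inter_right (isClosed_eq (continuous_apply 0) continuous_const))

def c₀ : C := ⟨fun _ => 1, fun _ => by simp, rfl⟩

instance : Nonempty C := ⟨c₀⟩

lemma fin_roots (k : ℕ) (hk : 0 < k) (a : ℂ) : {w : ℂ | w ^ k = a}.Finite :=
  (Polynomial.nthRoots k a).toFinset.finite_toSet.subset fun w hw => by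
    simpa [Polynomial.mem_nthRoots hk] using hw

instance : TotallyDisconnectedSpace C := ⟨fun t _ ht c hc c' hc' => by
  refine Subtype.ext (funext fun n => ?_)
  refine ht.constant_of_mapsTo (fin_roots (3 ^ n) (by positivity) 1).isDiscrete
    (f := fun d : C => d.1 n) ((continuous_apply n).comp continuous_subtype_val).continuousOn
    (fun d _ => ?_) hc hc'
  show d.1 n ^ 3 ^ n = 1
  induction n with
  | zero => simpa using d.2.2
  | succ n ih => rw [pow_succ', pow_mul, (d.2.1 n).2, ih]⟩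

noncomputable def cl (s : ℝ) : ℝ := min (max s 0) 1

lemma cl_cont : Continuous cl := by unfold cl; fun_prop
lemma cl_nonneg (s : ℝ) : 0 ≤ cl s := le_min (le_max_right _ _) zero_le_one
lemma cl_le (s : ℝ) : cl s ≤ 1 := min_le_right _ _
lemma cl_of_nonpos {s : ℝ} (h : s ≤ 0) : cl s = 0 := by simp [cl, max_eq_right h]
lemma cl_of_ge {s : ℝ} (h : 1 ≤ s) : cl s = 1 := by
  rw [cl, max_eq_left (by linarith), min_eq_right h]
lemma cl_of_mem {s : ℝ} (h : 0 ≤ s) (h' : s ≤ 1) : cl s = s := by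
  rw [cl, max_eq_left h, min_eq_left h']
lemma cl_add {s : ℝ} (h : s ∈ Icc (0 : ℝ) 2) : cl s + cl (s - 1) = s := by
  rcases le_total s 1 with h1 | h1
  · rw [cl_of_mem h.1 h1, cl_of_nonpos (by linarith), add_zero]
  · rw [cl_of_ge h1, cl_of_mem (by linarith) (by linarith [h.2])]; ring

lemma E_cl_inj {s s' : ℝ} (h : E (Real.pi * cl s) = E (Real.pi * cl s')) : cl s = cl s' := by
  have hp := Real.pi_pos
  refine mul_left_cancel₀ hp.ne' (E_inj h ?_)
  rw [← mul_sub, abs_mul, abs_of_pos hp]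
  have : |cl s - cl s'| ≤ 1 := by
    rw [abs_le]; constructor <;> linarith [cl_nonneg s, cl_le s, cl_nonneg s', cl_le s']
  nlinarith

noncomputable def leg (c : ℕ → ℂ) (s : ℝ) : ℕ → ℂ := fun n =>
  (if n = 0 then 1 else (cl s : ℂ)) * (c n * E (Real.pi * cl (s - 1) / 3 ^ n))

lemma leg_cont : Continuous fun p : C × ℝ => leg p.1 p.2 := by
  have h1 := cl_cont
  have h2 := E_cont
  refine continuous_pi fun n => ?_
  have h3 : Continuous fun p : C × ℝ => p.1.1 n :=
    (continuous_apply n).comp (continuous_subtype_val.comp continuous_fst)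
  unfold leg
  refine Continuous.mul ?_ (h3.mul (by fun_prop))
  split_ifs <;> fun_prop

lemma leg_zero (c : C) (s : ℝ) : leg c s 0 = E (Real.pi * cl (s - 1)) := by
  simp [leg, c.2.2]

lemma leg_inj (c c' : C) {s s' : ℝ} (hs : s ∈ Icc (0 : ℝ) 2) (hs' : s' ∈ Icc (0 : ℝ) 2)
    (h : leg c s = leg c' s') : s = s' ∧ (s ≠ 0 → c = c') := by
  have h0 := congrFun h 0
  rw [leg_zero, leg_zero] at h0
  have h1 := congrArg norm (congrFun h 1)
  simp only [leg, one_ne_zero, if_false, norm_mul, norm_E, (c.2.1 1).1, (c'.2.1 1).1, mul_one,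
    norm_real, Real.norm_eq_abs, abs_of_nonneg (cl_nonneg _)] at h1
  have h2 : s = s' := by rw [← cl_add hs, ← cl_add hs', h1, E_cl_inj h0]
  subst h2
  refine ⟨rfl, fun h3 => Subtype.ext (funext fun n => ?_)⟩
  have h4 : (cl s : ℂ) ≠ 0 := by
    have : 0 < cl s := lt_min (lt_max_of_lt_left (lt_of_le_of_ne hs.1 h3.symm)) one_pos
    exact_mod_cast this.ne'
  have h5 := congrFun h n
  simp only [leg] at h5
  exact mul_right_cancel₀ (E_ne _) (mul_left_cancel₀ (by split_ifs <;> simp [h4]) h5)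

lemma leg_clamp (c : ℕ → ℂ) (s : ℝ) : ∃ s' ∈ Icc (0 : ℝ) 2, leg c s = leg c s' := by
  rcases le_total s 0 with h | h
  · refine ⟨0, ⟨le_rfl, zero_le_two⟩, ?_⟩
    unfold leg
    rw [cl_of_nonpos h, cl_of_nonpos le_rfl, cl_of_nonpos (by linarith), cl_of_nonpos (by linarith)]
  rcases le_total s 2 with h' | h'
  · exact ⟨s, ⟨h, h'⟩, rfl⟩
  · refine ⟨2, ⟨zero_le_two, le_rfl⟩, ?_⟩
    unfold leg
    rw [cl_of_ge (s := s) (by linarith), cl_of_ge (s := 2) (by linarith),
      cl_of_ge (s := s - 1) (by linarith), cl_of_ge (s := 2 - 1) (by linarith)]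

lemma leg_vertex (c c' : C) : leg c 0 = leg c' 0 := by
  funext n
  rcases n with _ | n
  · rw [leg_zero, leg_zero]
  · simp [leg, cl_of_nonpos le_rfl]

lemma E_cube (t : ℝ) (n : ℕ) : E (t / 3 ^ (n + 1)) ^ 3 = E (t / 3 ^ n) := by
  rw [pow_succ, pow_two, ← E_add, ← E_add]; congr 1; field_simp; ring

lemma leg_of_S {z : ℕ → ℂ} (hz : z ∈ S) {θ : ℝ} (h0 : 0 ≤ θ) (h1 : θ ≤ 1)
    (h : z 0 = E (Real.pi * θ)) : ∃ c : C, z = leg c (1 + θ) := by
  refine ⟨⟨fun n => z n * E (-(Real.pi * θ) / 3 ^ n), fun n => ⟨by simp [norm_E, (hz n).1], ?_⟩, ?_⟩,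
    funext fun n => ?_⟩
  · rw [mul_pow, (hz n).2, E_cube]
  · simp only [h, pow_zero, div_one]; rw [← E_add]; simp [E_zero]
  · simp only [leg, add_sub_cancel_left, cl_of_mem h0 h1, cl_of_ge (by linarith : 1 ≤ 1 + θ)]
    rw [mul_assoc, ← E_add, neg_div, neg_add_cancel, E_zero]; simp

lemma neg_S {z : ℕ → ℂ} (hz : z ∈ S) : -z ∈ S := fun n =>
  ⟨by simp [(hz n).1], by simp only [Pi.neg_apply]; rw [← (hz n).2]; ring⟩

lemma E_pi : E Real.pi = -1 := exp_pi_mul_I

lemma leg_two (c : C) : ∃ c' : C, -leg c 2 = leg c' 1 := by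
  have h : leg c 2 ∈ S := fun n => by
    simp only [leg, cl_of_ge (by norm_num : (1 : ℝ) ≤ 2), cl_of_ge (by norm_num : (1 : ℝ) ≤ 2 - 1),
      ofReal_one, ite_self, one_mul]
    exact ⟨by simp [norm_E, (c.2.1 n).1], by rw [mul_pow, (c.2.1 n).2, E_cube]⟩
  simpa using leg_of_S (neg_S h) le_rfl zero_le_one (by
    simp [leg_zero, cl_of_ge (by norm_num : (1 : ℝ) ≤ 2 - 1), E_pi, E_zero])

def sg (b : Bool) : ℂ := if b then 1 else -1

lemma sg_not (b : Bool) : sg (!b) = -sg b := by cases b <;> simp [sg]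
lemma sg_ne (b : Bool) : sg b ≠ 0 := by cases b <;> simp [sg]
lemma sg_norm (b : Bool) : ‖sg b‖ = 1 := by cases b <;> simp [sg]

lemma S_cases {z : ℕ → ℂ} (hz : z ∈ S) : ∃ b, ∃ c : C, ∃ s, z = sg b • leg c s := by
  have hp := Real.pi_pos
  have h1 := norm_mul_exp_arg_mul_I (z 0)
  rw [(hz 0).1, ofReal_one, one_mul] at h1
  have h2 := arg_le_pi (z 0)
  have h3 := neg_pi_lt_arg (z 0)
  rcases le_total 0 (arg (z 0)) with h | h
  · obtain ⟨c, hc⟩ := leg_of_S hz (θ := arg (z 0) / Real.pi) (by positivity)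
      ((div_le_one hp).2 h2) (by rw [mul_div_cancel₀ _ hp.ne']; exact h1.symm)
    exact ⟨true, c, _, by simpa [sg] using hc⟩
  · obtain ⟨c, hc⟩ := leg_of_S (neg_S hz) (θ := (arg (z 0) + Real.pi) / Real.pi)
      (div_nonneg (by linarith) hp.le) ((div_le_one hp).2 (by linarith)) (by
        rw [mul_div_cancel₀ _ hp.ne', E_add, E_pi]
        have : E (arg (z 0)) = z 0 := h1
        simp [this])
    exact ⟨false, c, _, by rw [← hc]; simp [sg]⟩

noncomputable def u (k : ℕ) : C := TopologicalSpace.denseSeq C (Nat.unpair k).1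
noncomputable def sf (t : ℝ) : ℝ := 2 * |Real.sin (Real.pi * max t 0)|
noncomputable def P (t : ℝ) : ℕ → ℂ := (E (Real.pi * cl (-t)))⁻¹ • leg (u ⌊t⌋₊) (sf t)
noncomputable def η (t : ℝ) : ℝ := 1 / (1 + max t 0)

lemma η_pos (t : ℝ) : 0 < η t := by
  have := le_max_right t 0
  unfold η; positivity

lemma η_cont : Continuous η := by
  unfold η
  exact continuous_const.div (by fun_prop) fun t => by linarith [le_max_right t 0]

lemma η_inj {t t' : ℝ} (h : η t = η t') : max t 0 = max t' 0 := by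
  simpa [η] using h

lemma P_cont : Continuous P := by
  have h1 := cl_cont
  have h2 := E_cont
  have h3 : Continuous sf := by unfold sf; fun_prop
  refine Continuous.smul (Continuous.inv₀ (by fun_prop) fun _ => E_ne _) (continuous_pi fun n => ?_)
  rcases n with _ | n
  · simp only [leg_zero]; fun_prop
  · simp only [leg, Nat.succ_ne_zero, if_false]
    refine cont_mul 1 (by fun_prop) (fun t => by simp [norm_E, ((u _).2.1 _).1]) fun t ht => ?_
    refine ContinuousAt.mul ?_ (by fun_prop)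
    have h4 : Real.sin (Real.pi * max t 0) ≠ 0 := by
      intro h; simp [sf, h, cl_of_nonpos le_rfl] at ht
    have h5 : 0 < t := by
      by_contra h; rw [max_eq_right (not_lt.1 h)] at h4; simp at h4
    have h6 : (⌊t⌋₊ : ℝ) < t := lt_of_le_of_ne (Nat.floor_le h5.le) fun h => by
      rw [max_eq_left h5.le, ← h, mul_comm] at h4; exact h4 (Real.sin_nat_mul_pi _)
    refine continuousAt_const.congr (f := fun _ => (u ⌊t⌋₊).1 (n + 1)) ?_
    filter_upwards [Ioo_mem_nhds h6 (Nat.lt_floor_add_one t)] with t' ht'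
    rw [Nat.floor_eq_on_Ico _ t' ⟨ht'.1.le, ht'.2⟩]

lemma P_of_nonneg {t : ℝ} (h : 0 ≤ t) : P t = leg (u ⌊t⌋₊) (sf t) := by
  simp [P, cl_of_nonpos (neg_nonpos.2 h), E_zero]

lemma P_of_nonpos {t : ℝ} (h : t ≤ 0) : P t = (E (Real.pi * cl (-t)))⁻¹ • leg c₀ 0 := by
  simp [P, sf, max_eq_right h, leg_vertex (u ⌊t⌋₊) c₀]

lemma norm_P (t : ℝ) : ‖P t 0‖ = 1 := by simp [P, leg_zero, norm_E]

lemma P_inj {t t' : ℝ} (ht : -1 ≤ t) (ht' : -1 ≤ t') (h : P t = P t') (h' : η t = η t') :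
    t = t' := by
  have h1 := η_inj h'
  rcases le_or_gt t 0 with h2 | h2
  · have h3 : t' ≤ 0 := by rw [max_eq_right h2] at h1; linarith [le_max_left t' 0]
    have h4 := congrFun h 0
    rw [P_of_nonpos h2, P_of_nonpos h3] at h4
    simp only [Pi.smul_apply, smul_eq_mul, leg_zero] at h4
    have h5 := E_cl_inj (inv_injective (mul_right_cancel₀ (E_ne _) h4))
    rw [cl_of_mem (by linarith) (by linarith), cl_of_mem (by linarith) (by linarith)] at h5
    linarith
  · rw [max_eq_left h2.le] at h1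
    rcases le_total t' 0 with h3 | h3
    · rw [max_eq_right h3] at h1; linarith
    · rwa [max_eq_left h3] at h1

lemma P_approx (c : C) {s : ℝ} (hs : s ∈ Icc (0 : ℝ) 2) : ∃ t : ℕ → ℝ, (∀ k, 0 < t k) ∧
    Tendsto (fun k => (P (t k), η (t k))) atTop (𝓝 (leg c s, 0)) := by
  have hp := Real.pi_pos
  obtain ⟨d, hd1, hd2⟩ := mem_closure_iff_seq_limit.1 (TopologicalSpace.denseRange_denseSeq C c)
  choose j hj using hd1
  set τ := Real.arcsin (s / 2) / Real.pi with hτ
  have h0 : 0 ≤ τ := div_nonneg (Real.arcsin_nonneg.2 (by linarith [hs.1])) hp.le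
  have h1 : τ < 1 := (div_lt_one hp).2 (by linarith [Real.arcsin_le_pi_div_two (s / 2)])
  have h2 : ∀ k : ℕ, (k : ℝ) + 1 ≤ (Nat.pair (j k) (k + 1) : ℝ) + τ := fun k => by
    have : k + 1 ≤ Nat.pair (j k) (k + 1) := Nat.right_le_pair _ _
    have : (k : ℝ) + 1 ≤ (Nat.pair (j k) (k + 1) : ℝ) := by exact_mod_cast this
    linarith
  have h3 : ∀ k : ℕ, 0 < (Nat.pair (j k) (k + 1) : ℝ) + τ := fun k =>
    lt_of_lt_of_le (by positivity) (h2 k)
  refine ⟨fun k => Nat.pair (j k) (k + 1) + τ, h3, Tendsto.prodMk_nhds ?_ ?_⟩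
  · have h4 : Tendsto (fun k => leg (d k) s) atTop (𝓝 (leg c s)) :=
      (leg_cont.tendsto (c, s)).comp (hd2.prodMk_nhds tendsto_const_nhds)
    refine h4.congr fun k => ?_
    rw [P_of_nonneg (h3 k).le, Nat.floor_eq_on_Ico (Nat.pair (j k) (k + 1)) _
      ⟨by linarith, by linarith⟩, u, Nat.unpair_pair, hj]
    congr 1
    rw [sf, max_eq_left (h3 k).le, mul_add, hτ, mul_div_cancel₀ _ hp.ne', add_comm,
      mul_comm Real.pi, Real.sin_add_nat_mul_pi, abs_mul, abs_pow, abs_neg, abs_one, one_pow,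
      one_mul, Real.sin_arcsin (by linarith [hs.1]) (by linarith [hs.2]),
      abs_of_nonneg (by linarith [hs.1])]
    ring
  · refine squeeze_zero (fun k => (η_pos _).le) (fun k => ?_) tendsto_one_div_add_atTop_nhds_zero_nat
    rw [η, max_eq_left (h3 k).le]
    exact one_div_le_one_div_of_le (by positivity) (by linarith [h2 k])

end Pool.Agent.H56.Dec
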