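import Pool.Agent.H56.Dec2

set_option autoImplicit false

namespace Pool.Agent.H56.Dec
open Set Filter Topology Complex
open Pool.Agent.H56.Fsp (E norm_E E_add E_zero E_cont E_inj E_ne E_eq_iff cont_mul)

abbrev V := (ℕ → ℂ) × ℝ

def LS (b : Bool) : Set V :=
  {p | (∃ c : C, ∃ s, p = (sg b • leg c s, 0)) ∨ ∃ t, p = (sg b • P t, η t)}

def XS : Set V := {p | ∃ b, p ∈ LS b}

lemma P_clamp (t : ℝ) : P (max t (-1)) = P t ∧ η (max t (-1)) = η t := by
  rcases le_total t (-1) with h | h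
  · rw [max_eq_right h, P_of_nonpos (by norm_num), P_of_nonpos (by linarith),
      cl_of_ge (by norm_num), cl_of_ge (by linarith), η, η, max_eq_right (by norm_num),
      max_eq_right (by linarith)]
    exact ⟨rfl, rfl⟩
  · rw [max_eq_left h]; exact ⟨rfl, rfl⟩

lemma LS_compact (b : Bool) : IsCompact (LS b) := by
  have h1 := P_cont
  have h2 := η_cont
  have h3 := leg_cont
  have hc : ∀ n : ℕ, IsCompact ((fun t => (sg b • P t, η t)) '' Icc (-1) n ∪
      ((fun p : C × ℝ => sg b • leg p.1 p.2) '' univ ×ˢ Icc 0 2) ×ˢ Icc 0 (1 / ((n : ℝ) + 1))) :=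
    fun n => (isCompact_Icc.image (by fun_prop)).union
      (((isCompact_univ.prod isCompact_Icc).image (h3.fun_const_smul _)).prod isCompact_Icc)
  have : LS b = ⋂ n : ℕ, ((fun t => (sg b • P t, η t)) '' Icc (-1) n ∪
      ((fun p : C × ℝ => sg b • leg p.1 p.2) '' univ ×ˢ Icc 0 2) ×ˢ Icc 0 (1 / ((n : ℝ) + 1))) := by
    ext p
    rw [mem_iInter]
    constructor
    · rintro (⟨c, s, rfl⟩ | ⟨t, rfl⟩) n
      · obtain ⟨s', hs', h⟩ := leg_clamp c s
        exact Or.inr ⟨⟨(c, s'), ⟨trivial, hs'⟩, by simp only [h]⟩, le_rfl, by positivity⟩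
      · have hn : (0 : ℝ) ≤ n := Nat.cast_nonneg n
        rcases le_total t n with h | h
        · exact Or.inl ⟨max t (-1), ⟨le_max_right _ _, max_le h (by linarith)⟩,
            by simp only [(P_clamp t).1, (P_clamp t).2]⟩
        · obtain ⟨s', hs', h'⟩ := leg_clamp (u ⌊t⌋₊) (sf t)
          refine Or.inr ⟨⟨(u ⌊t⌋₊, s'), ⟨trivial, hs'⟩, ?_⟩, (η_pos t).le, ?_⟩
          · simp only [P_of_nonneg (hn.trans h), h']
          · simp only [η, max_eq_left (hn.trans h)]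
            exact one_div_le_one_div_of_le (by positivity) (by linarith)
    · intro h
      by_cases h4 : ∃ t, p = (sg b • P t, η t)
      · exact Or.inr h4
      have h5 := fun n => (h n).resolve_left fun ⟨t, _, ht⟩ => h4 ⟨t, ht.symm⟩
      obtain ⟨⟨⟨c, s⟩, -, h6⟩, h7, -⟩ := h5 0
      refine Or.inl ⟨c, s, Prod.ext h6.symm (le_antisymm ?_ h7)⟩
      exact ge_of_tendsto' tendsto_one_div_add_atTop_nhds_zero_nat fun n => (h5 n).2.2
  rw [this]
  exact (hc 0).of_isClosed_subset (isClosed_iInter fun n => (hc n).isClosed) (iInter_subset _ 0)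

instance : CompactSpace XS := isCompact_iff_compactSpace.1 (by
  have : XS = LS true ∪ LS false := by ext p; simp [XS, or_comm]
  rw [this]; exact (LS_compact _).union (LS_compact _))

noncomputable def Λ (b : Bool) (p : C × ℝ) : XS :=
  ⟨(sg b • leg p.1 p.2, 0), b, Or.inl ⟨_, _, rfl⟩⟩
noncomputable def ρ (b : Bool) (t : ℝ) : XS := ⟨(sg b • P t, η t), b, Or.inr ⟨_, rfl⟩⟩

lemma Λ_cont (b : Bool) : Continuous (Λ b) :=
  Continuous.subtype_mk ((leg_cont.fun_const_smul _).prodMk continuous_const) _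

lemma ρ_cont (b : Bool) : Continuous (ρ b) :=
  Continuous.subtype_mk ((P_cont.fun_const_smul _).prodMk η_cont) _

lemma Λ_inj (b : Bool) (c c' : C) (s : ℝ) (hs : s ∈ Icc (0 : ℝ) 2) (s' : ℝ)
    (hs' : s' ∈ Icc (0 : ℝ) 2) (h : Λ b (c, s) = Λ b (c', s')) : s = s' ∧ (s ≠ 0 → c = c') :=
  leg_inj c c' hs hs' (smul_right_injective _ (sg_ne b) (congrArg (fun x : XS => x.1.1) h))

lemma ρ_inj (b : Bool) (T : ℝ) : InjOn (ρ b) (Icc (-1) T) := fun _ ht _ ht' h =>
  P_inj ht.1 ht'.1 (smul_right_injective _ (sg_ne b) (congrArg (fun x : XS => x.1.1) h))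
    (congrArg (fun x : XS => x.1.2) h)

lemma ρ_clamp (b : Bool) (t : ℝ) : ρ b (max t (-1)) = ρ b t :=
  Subtype.ext (by simp only [ρ, (P_clamp t).1, (P_clamp t).2])

lemma Λ_clamp (b : Bool) (c : C) (s : ℝ) : ∃ s' ∈ Icc (0 : ℝ) 2, Λ b (c, s') = Λ b (c, s) := by
  obtain ⟨s', hs', h⟩ := leg_clamp c s
  exact ⟨s', hs', Subtype.ext (by simp only [Λ, h])⟩

def L (b : Bool) : Set XS := Λ b '' univ ×ˢ Icc 0 2
def L' (b : Bool) : Set XS := (↑) ⁻¹' LS b

lemma Λ_mem (b : Bool) (c : C) (s : ℝ) : Λ b (c, s) ∈ L b := by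
  obtain ⟨s', hs', h⟩ := Λ_clamp b c s
  exact ⟨(c, s'), ⟨trivial, hs'⟩, h⟩

lemma mem_L' {b : Bool} {x : XS} : x ∈ L' b ↔ (∃ c s, x = Λ b (c, s)) ∨ ∃ t, x = ρ b t :=
  or_congr (exists_congr fun c => exists_congr fun s => (@Subtype.ext_iff _ _ x (Λ b (c, s))).symm)
    (exists_congr fun t => (@Subtype.ext_iff _ _ x (ρ b t)).symm)

lemma L'_compact (b : Bool) : IsCompact (L' b) :=
  ((LS_compact b).isClosed.preimage continuous_subtype_val).isCompact

lemma Λ_closure (b : Bool) (c : C) (s : ℝ) : Λ b (c, s) ∈ closure (ρ b '' Ioi 0) := by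
  obtain ⟨s', hs', h⟩ := Λ_clamp b c s
  obtain ⟨t, h1, h2⟩ := P_approx c hs'
  rw [← h]
  refine mem_closure_of_tendsto (f := fun k => ρ b (t k)) (b := atTop) ?_
    (Eventually.of_forall fun k => ⟨_, h1 k, rfl⟩)
  rw [tendsto_subtype_rng]
  have h3 : Continuous fun p : V => (sg b • p.1, p.2) := by fun_prop
  exact (h3.tendsto _).comp h2

lemma L'_conn (b : Bool) : IsPreconnected (L' b) := by
  refine (isPreconnected_range (ρ_cont b)).subset_closure ?_ fun x hx => ?_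
  · rintro _ ⟨t, rfl⟩; exact mem_L'.2 (Or.inr ⟨t, rfl⟩)
  · rcases mem_L'.1 hx with ⟨c, s, rfl⟩ | ⟨t, rfl⟩
    · exact closure_mono (image_subset_range _ _) (Λ_closure b c s)
    · exact subset_closure ⟨t, rfl⟩

lemma ρ_link (b : Bool) : ρ (!b) (-1) = ρ b 0 := by
  refine Subtype.ext (Prod.ext ?_ ?_)
  · simp only [ρ, sg_not]
    rw [P_of_nonpos (by norm_num), P_of_nonpos le_rfl, cl_of_ge (by norm_num),
      cl_of_nonpos (by norm_num)]
    simp [E_pi, E_zero]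
  · simp [ρ, η]

def K (b : Bool) (T : ℝ) (c : C) : Set XS :=
  (L' b ∪ ρ (!b) '' Icc (-1) T) ∪ (fun s => Λ (!b) (c, s)) '' Icc 0 2

lemma K_compact (b : Bool) (T : ℝ) (c : C) : IsCompact (K b T c) :=
  ((L'_compact b).union (isCompact_Icc.image (ρ_cont _))).union
    (isCompact_Icc.image ((Λ_cont _).comp (by fun_prop)))

lemma K_conn (b : Bool) {T : ℝ} (hT : -1 ≤ T) (c : C) : IsPreconnected (K b T c) := by
  obtain ⟨c', hc'⟩ := leg_two c
  have h1 : IsPreconnected (L' b ∪ ρ (!b) '' Icc (-1) T) :=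
    (L'_conn b).union (ρ b 0) (mem_L'.2 (Or.inr ⟨_, rfl⟩)) ⟨-1, ⟨le_rfl, hT⟩, ρ_link b⟩
      (isPreconnected_Icc.image _ (ρ_cont _).continuousOn)
  refine h1.union (Λ b (c', 1))
    (Or.inl (mem_L'.2 (Or.inl ⟨_, _, rfl⟩))) ⟨2, ⟨zero_le_two, le_rfl⟩, ?_⟩
    (isPreconnected_Icc.image _ ((Λ_cont _).comp (by fun_prop)).continuousOn)
  exact Subtype.ext (by simp [Λ, sg_not, ← hc'])

lemma K_hd (b : Bool) (T : ℝ) (c : C) : HD (K b T c) := by
  refine hd_union (L := L b) (hd_fan (Λ_cont b) (v := Λ b (c₀, 0))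
    (fun c => Subtype.ext (by simp only [Λ, leg_vertex c c₀])) (Λ_inj b))
    ((isCompact_univ.prod isCompact_Icc).image (Λ_cont b)).isClosed (ι := ℕ ⊕ Bool)
    (Sum.elim (fun _ => ρ b) fun i => cond i (ρ (!b)) fun s => Λ (!b) (c, s))
    (Sum.elim (fun _ => -1) fun i => cond i (-1) 0) (Sum.elim (fun n => n) fun i => cond i T 2)
    ?_ ?_ ?_
  · rintro (n | _ | _)
    · exact (ρ_cont _).continuousOn
    · exact ((Λ_cont _).comp (by fun_prop)).continuousOn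
    · exact (ρ_cont _).continuousOn
  · rintro (n | _ | _)
    · exact ρ_inj _ _
    · exact fun s hs s' hs' h => (Λ_inj _ _ _ s hs s' hs' h).1
    · exact ρ_inj _ _
  · rintro x ((hx | hx) | hx)
    · rcases mem_L'.1 hx with ⟨c, s, rfl⟩ | ⟨t, rfl⟩
      · exact Or.inl (Λ_mem _ _ _)
      · obtain ⟨n, hn⟩ := exists_nat_ge (max t (-1))
        exact Or.inr (mem_iUnion.2 ⟨Sum.inl n, max t (-1), ⟨le_max_right _ _, hn⟩, ρ_clamp _ _⟩)
    · exact Or.inr (mem_iUnion.2 ⟨Sum.inr true, hx⟩)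
    · exact Or.inr (mem_iUnion.2 ⟨Sum.inr false, hx⟩)

lemma K_pair (x y : XS) : ∃ b T c, -1 ≤ T ∧ x ∈ K b T c ∧ y ∈ K b T c := by
  obtain ⟨b, hx⟩ := x.2
  obtain ⟨b', hy⟩ := y.2
  by_cases h : b' = b
  · subst h; exact ⟨b', 0, c₀, by norm_num, Or.inl (Or.inl hx), Or.inl (Or.inl hy)⟩
  obtain rfl : b' = !b := by cases b <;> cases b' <;> simp_all
  rcases mem_L'.1 hy with ⟨c, s, rfl⟩ | ⟨t, rfl⟩
  · exact ⟨b, 0, c, by norm_num, Or.inl (Or.inl hx), Or.inr (Λ_clamp _ _ _)⟩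
  · exact ⟨b, max t (-1), c₀, le_max_right _ _, Or.inl (Or.inl hx),
      Or.inl (Or.inr ⟨_, ⟨le_max_right _ _, le_rfl⟩, ρ_clamp _ _⟩)⟩

instance : ConnectedSpace XS := by
  have : PreconnectedSpace XS := ⟨isPreconnected_of_forall_pair fun x _ y _ => by
    obtain ⟨b, T, c, h1, h2, h3⟩ := K_pair x y
    exact ⟨_, subset_univ _, h2, h3, K_conn b h1 c⟩⟩
  exact ⟨⟨ρ true 0⟩⟩

lemma delta (x y : XS) : ∃ K : Set XS, IsCompact K ∧ IsConnected K ∧ x ∈ K ∧ y ∈ K ∧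
    (∀ L : Set XS, L ⊆ K → IsCompact L → IsConnected L → x ∈ L → y ∈ L → L = K) ∧ HD K := by
  obtain ⟨b, T, c, h1, h2, h3⟩ := K_pair x y
  obtain ⟨K', a1, a2, a3, a4, a5, a6⟩ := irred (K_compact b T c) (K_conn b h1 c) h2 h3
  exact ⟨K', a2, a3, a4, a5, a6, fun M hM => K_hd b T c M (hM.trans a1)⟩

lemma norm_zero' (x : XS) : ‖x.1.1 0‖ = 1 := by
  obtain ⟨b, ⟨c, s, h⟩ | ⟨t, h⟩⟩ := x.2
  · simp [h, sg_norm, leg_zero, norm_E]
  · simp [h, sg_norm, norm_P]

def σ (x : XS) : XS := ⟨(-x.1.1, x.1.2), by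
  obtain ⟨b, ⟨c, s, h⟩ | ⟨t, h⟩⟩ := x.2
  · exact ⟨!b, Or.inl ⟨c, s, by simp [h, sg_not]⟩⟩
  · exact ⟨!b, Or.inr ⟨t, by simp [h, sg_not]⟩⟩⟩

lemma σ_cont : Continuous σ := Continuous.subtype_mk (by fun_prop) _

def f (x : XS) : V := (fun n => x.1.1 0 * x.1.1 n, x.1.2)

lemma f_cont : Continuous f := by
  have h : ∀ n, Continuous fun x : XS => x.1.1 n := fun n =>
    (continuous_apply n).comp (continuous_fst.comp continuous_subtype_val)
  exact (continuous_pi fun n => (h 0).mul (h n)).prodMk (by fun_prop)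

lemma f_σ (x : XS) : f (σ x) = f x := by simp [f, σ]

lemma f_eq {x y : XS} (h : f x = f y) : x = y ∨ σ x = y := by
  have h1 : ∀ n, x.1.1 0 * x.1.1 n = y.1.1 0 * y.1.1 n := fun n => congrFun (congrArg Prod.fst h) n
  have h2 : x.1.2 = y.1.2 := (congrArg Prod.snd h : (f x).2 = (f y).2)
  have h3 : y.1.1 0 ≠ 0 := by intro h; simpa [h] using norm_zero' y
  rcases mul_self_eq_mul_self_iff.1 (h1 0) with h4 | h4
  · exact Or.inl (Subtype.ext (Prod.ext (funext fun n =>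
      mul_left_cancel₀ h3 (by rw [← h1, h4])) h2))
  · exact Or.inr (Subtype.ext (Prod.ext (funext fun n =>
      mul_left_cancel₀ h3 (by rw [← h1, h4]; simp [σ])) h2))

abbrev Y := range f

def fY : XS → Y := rangeFactorization f

lemma fY_cont : Continuous fY := f_cont.rangeFactorization
lemma fY_surj : Function.Surjective fY := rangeFactorization_surjective

lemma fY_open : IsOpenMap fY := by
  intro U hU
  rw [← (fY_cont.isClosedMap.isQuotientMap fY_cont fY_surj).isOpen_preimage]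
  have : fY ⁻¹' (fY '' U) = U ∪ σ ⁻¹' U := by
    ext x
    constructor
    · rintro ⟨y, hy, h⟩
      rcases f_eq (congrArg Subtype.val h.symm) with h1 | h1
      · exact Or.inl (by rwa [h1])
      · exact Or.inr (by rwa [mem_preimage, h1])
    · rintro (h | h)
      · exact ⟨x, h, rfl⟩
      · exact ⟨σ x, h, Subtype.ext (f_σ x)⟩
  rw [this]
  exact hU.union (hU.preimage σ_cont)

lemma fY_local : IsLocalHomeomorph fY := by
  rw [isLocalHomeomorph_iff_isOpenEmbedding_restrict]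
  intro x
  have h0 : Continuous fun x : XS => x.1.1 0 :=
    (continuous_apply 0).comp (continuous_fst.comp continuous_subtype_val)
  have hU : IsOpen {y : XS | ‖y.1.1 0 - x.1.1 0‖ < 1} :=
    isOpen_lt (h0.sub continuous_const).norm continuous_const
  refine ⟨_, hU.mem_nhds (by simp), .of_continuous_injective_isOpenMap
    (fY_cont.comp continuous_subtype_val) (fun y z h => ?_) (fY_open.comp hU.isOpenMap_subtype_val)⟩
  rcases f_eq (congrArg Subtype.val h) with h1 | h1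
  · exact Subtype.ext h1
  · exfalso
    have h2 : ‖y.1.1.1 0 - x.1.1 0‖ < 1 := y.2
    have h3 : ‖z.1.1.1 0 - x.1.1 0‖ < 1 := z.2
    have h4 : z.1.1.1 0 = -y.1.1.1 0 := by rw [← h1]; rfl
    have h5 := norm_sub_le (y.1.1.1 0 - x.1.1 0) (z.1.1.1 0 - x.1.1 0)
    rw [h4, show y.1.1.1 0 - x.1.1 0 - (-y.1.1.1 0 - x.1.1 0) = 2 * y.1.1.1 0 by ring, norm_mul,
      norm_zero', ← h4] at h5
    simp at h5; linarith

end Pool.Agent.H56.Dec
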