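import Pool.Agent.H56.Dec3

set_option autoImplicit false

namespace Pool.Agent.H56.Dec
open Set Filter Topology Complex
open Pool.Agent.H56.Fsp (E norm_E E_add E_zero E_cont E_inj E_ne E_eq_iff cont_mul)

instance : CompactSpace S := isCompact_iff_compactSpace.1 S_compact

noncomputable def j (z : S) : Y := fY ⟨(z.1, 0), by
  obtain ⟨b, c, s, h⟩ := S_cases z.2
  exact ⟨b, Or.inl ⟨c, s, by rw [h]⟩⟩⟩

lemma j_cont : Continuous j := fY_cont.comp (Continuous.subtype_mk (by fun_prop) _)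

noncomputable def pr (n : ℕ) (y : Y) : ℂ := y.1.1 n ^ 2 / y.1.1 0

lemma pr_cont (n : ℕ) : Continuous (pr n) := by
  have h : ∀ n, Continuous fun y : Y => y.1.1 n := fun n =>
    (continuous_apply n).comp (continuous_fst.comp continuous_subtype_val)
  refine ((h n).pow 2).div (h 0) ?_
  rintro ⟨_, x, rfl⟩
  have h3 : x.1.1 0 ≠ 0 := by intro h; simpa [h] using norm_zero' x
  exact mul_ne_zero h3 h3

lemma S_ne (z : S) (n : ℕ) : z.1 n ≠ 0 := by intro h; simpa [h] using (z.2 n).1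

lemma pr_j (n : ℕ) (z : S) : pr n (j z) = z.1 n ^ 2 := by
  have := S_ne z 0
  show (z.1 0 * z.1 n) ^ 2 / (z.1 0 * z.1 0) = _
  field_simp

lemma pr_cube (n : ℕ) (z : S) : pr (n + 1) (j z) ^ 3 = pr n (j z) := by
  rw [pr_j, pr_j, ← (z.2 n).2]; ring

lemma j_eq {z w : S} (h : ∀ n, w.1 n ^ 2 = z.1 n ^ 2) : j w = j z := by
  have key : ∀ ε : ℂ, ε ^ 2 = 1 → w.1 0 = ε * z.1 0 → ∀ n, w.1 n = ε * z.1 n := by
    intro ε hε h0 n
    induction n with
    | zero => exact h0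
    | succ n ih =>
      have h1 : (w.1 (n + 1) - ε * z.1 (n + 1)) * (w.1 (n + 1) + ε * z.1 (n + 1)) = 0 := by
        linear_combination h (n + 1) - z.1 (n + 1) ^ 2 * hε
      rcases mul_eq_zero.1 h1 with h2 | h2
      · exact sub_eq_zero.1 h2
      · exfalso
        have h3 := (w.2 n).2
        rw [eq_neg_of_add_eq_zero_left h2, ih, ← (z.2 n).2] at h3
        have h4 : z.1 (n + 1) ^ 3 = 0 := by
          linear_combination (-1 / 2 * ε) * h3 - (1 / 2 * z.1 (n + 1) ^ 3 * (ε ^ 2 + 2)) * hε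
        exact S_ne z (n + 1) (pow_eq_zero_iff three_ne_zero |>.1 h4)
  obtain ⟨ε, h1, h2⟩ : ∃ ε : ℂ, ε ^ 2 = 1 ∧ w.1 0 = ε * z.1 0 := by
    rcases sq_eq_sq_iff_eq_or_eq_neg.1 (h 0) with h | h
    · exact ⟨1, by simp, by simp [h]⟩
    · exact ⟨-1, by simp, by simp [h]⟩
  refine Subtype.ext (Prod.ext (funext fun n => ?_) rfl)
  show w.1 0 * w.1 n = z.1 0 * z.1 n
  rw [key ε h1 h2 n, h2]
  linear_combination z.1 0 * z.1 n * h1

lemma miss {A : Set Y} (hA : IsCompact A) (hj : A ⊆ range j) {z : S} (hz : j z ∉ A) :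
    ∀ᶠ n in atTop, ∀ a ∈ A, pr n a ≠ z.1 n ^ 2 := by
  have hstep : ∀ n, A ∩ {a | pr (n + 1) a = z.1 (n + 1) ^ 2} ⊆ A ∩ {a | pr n a = z.1 n ^ 2} := by
    rintro n a ⟨h1, h2⟩
    obtain ⟨w, rfl⟩ := hj h1
    refine ⟨h1, ?_⟩
    rw [mem_ofPred_eq] at h2 ⊢
    rw [← pr_cube, h2, ← (z.2 n).2]; ring
  have hanti : Antitone fun n => A ∩ {a | pr n a = z.1 n ^ 2} := antitone_nat_of_succ_le hstep
  by_contra h
  have hne : ∀ n, (A ∩ {a | pr n a = z.1 n ^ 2}).Nonempty := fun n => by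
    rw [not_eventually, frequently_atTop] at h
    obtain ⟨m, hm1, hm2⟩ := h n
    push Not at hm2
    obtain ⟨a, ha⟩ := hm2
    exact ⟨a, hanti hm1 ha⟩
  have hcl : ∀ n, IsClosed {a : Y | pr n a = z.1 n ^ 2} := fun n =>
    isClosed_eq (pr_cont n) continuous_const
  obtain ⟨a, ha⟩ := IsCompact.nonempty_iInter_of_sequence_nonempty_isCompact_isClosed _ hstep hne
    (hA.inter_right (hcl 0)) fun n => hA.isClosed.inter (hcl n)
  rw [mem_iInter] at ha
  obtain ⟨w, rfl⟩ := hj (ha 0).1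
  exact hz (j_eq (z := z) (w := w) (fun n => by rw [← pr_j]; exact (ha n).2) ▸ (ha 0).1)

lemma third {A : Set Y} (hA : IsPreconnected A) (hj : A ⊆ range j) {n : ℕ} {w : ℂ} (hw : ‖w‖ = 1)
    (h : ∀ a ∈ A, pr n a ≠ w) {a a' : Y} (ha : a ∈ A) (ha' : a' ∈ A) (he : pr n a = pr n a') :
    pr (n + 1) a = pr (n + 1) a' := by
  have hw0 : w ≠ 0 := by intro h; simp [h] at hw
  have hn : ∀ a ∈ A, ‖-pr n a / w‖ = 1 := fun a ha => by
    obtain ⟨z, rfl⟩ := hj ha
    simp [pr_j, (z.2 n).1, hw]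
  have hs : ∀ a ∈ A, -pr n a / w ∈ slitPlane := fun a ha => by
    rw [mem_slitPlane_iff_arg]
    refine ⟨fun h1 => ?_, fun h1 => by simpa [h1] using hn a ha⟩
    have h2 := norm_mul_exp_arg_mul_I (-pr n a / w)
    rw [hn a ha, h1, exp_pi_mul_I, ofReal_one, one_mul, eq_div_iff hw0] at h2
    exact h a ha (by linear_combination h2)
  have := hA.constant_of_mapsTo (fin_roots 3 three_pos (-w)).isDiscrete
    (f := fun a => pr (n + 1) a / exp (log (-pr n a / w) / 3)) ?_ ?_ ha ha'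
  · rw [he] at this
    exact (div_left_inj' (exp_ne_zero _)).1 this
  · refine (pr_cont _).continuousOn.div (ContinuousOn.cexp (ContinuousOn.div_const
      (ContinuousOn.clog ((pr_cont n).neg.div_const _).continuousOn hs) _)) fun _ _ => exp_ne_zero _
  · intro a ha
    have h1 := slitPlane_ne_zero (hs a ha)
    obtain ⟨z, rfl⟩ := hj ha
    show (_ / _) ^ 3 = -w
    rw [div_pow, pr_cube, ← exp_nat_mul, Nat.cast_ofNat, mul_div_cancel₀ _ three_ne_zero,
      exp_log h1]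
    have h2 : pr n (j z) ≠ 0 := by rw [pr_j]; exact pow_ne_zero _ (S_ne z n)
    field_simp

noncomputable def leaf (t : ℝ) : S :=
  ⟨fun n => E (t / 3 ^ n), fun n => ⟨norm_E _, E_cube t n⟩⟩

lemma leaf_cont : Continuous leaf := by
  have := E_cont
  exact Continuous.subtype_mk (by fun_prop) _

def M : Set Y := closure (range fun t => j (leaf t))

lemma M_sub : M ⊆ range j :=
  closure_minimal (by rintro _ ⟨t, rfl⟩; exact ⟨_, rfl⟩) (isCompact_range j_cont).isClosed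

lemma pr_leaf (n : ℕ) (t : ℝ) : pr n (j (leaf t)) = E (2 * t / 3 ^ n) := by
  rw [pr_j, pow_two]
  show E (t / 3 ^ n) * E (t / 3 ^ n) = _
  rw [← E_add]; congr 1; ring

lemma M_indec : ¬ Dec M := by
  rintro ⟨A, B, hA, hB, hA1, hB1, hA2, hA3, hB2, hB3, hAB⟩
  obtain ⟨a, ha1, ha2⟩ := not_subset.1 fun h => hA1 (hA.antisymm h)
  obtain ⟨b, hb1, hb2⟩ := not_subset.1 fun h => hB1 (hB.antisymm h)
  obtain ⟨z, rfl⟩ := M_sub ha1
  obtain ⟨w, rfl⟩ := M_sub hb1
  obtain ⟨n, h1, h2⟩ := ((miss hA2 (hA.trans M_sub) ha2).and (miss hB2 (hB.trans M_sub) hb2)).exists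
  have hp := Real.pi_pos
  let q : ℕ → Y := fun i => j (leaf (i * Real.pi * 3 ^ n))
  have hq : ∀ i, q i ∈ A ∪ B := fun i => by rw [hAB]; exact subset_closure ⟨_, rfl⟩
  have h3 : ∀ i, pr n (q i) = E 0 := fun i => by
    rw [pr_leaf]; exact E_eq_iff.2 ⟨i, by push_cast; field_simp; ring⟩
  have h4 : ∀ i k : ℕ, i < k → k ≤ 2 → pr (n + 1) (q i) ≠ pr (n + 1) (q k) := by
    intro i k hik hk h
    rw [pr_leaf, pr_leaf] at h
    have h5 : (i : ℝ) < k := by exact_mod_cast hik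
    have h6 : (k : ℝ) ≤ 2 := by exact_mod_cast hk
    have h7 : (0 : ℝ) ≤ i := Nat.cast_nonneg i
    have h8 : ∀ i : ℝ, 2 * (i * Real.pi * 3 ^ n) / 3 ^ (n + 1) = 2 * Real.pi / 3 * i := fun i => by
      field_simp; ring
    rw [h8, h8] at h
    have := E_inj h (by rw [abs_lt]; constructor <;> nlinarith)
    nlinarith
  have kA : ∀ i k : ℕ, i < k → k ≤ 2 → q i ∈ A → q k ∈ A → False := fun i k a1 a2 a3 a4 =>
    h4 i k a1 a2 (third hA3.isPreconnected (hA.trans M_sub) (by simp [(z.2 n).1]) h1 a3 a4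
      (by rw [h3, h3]))
  have kB : ∀ i k : ℕ, i < k → k ≤ 2 → q i ∈ B → q k ∈ B → False := fun i k a1 a2 a3 a4 =>
    h4 i k a1 a2 (third hB3.isPreconnected (hB.trans M_sub) (by simp [(w.2 n).1]) h2 a3 a4
      (by rw [h3, h3]))
  rcases hq 0 with a0 | a0 <;> rcases hq 1 with a1 | a1 <;> rcases hq 2 with a2 | a2
  all_goals first
    | exact kA 0 1 (by norm_num) (by norm_num) a0 a1
    | exact kA 0 2 (by norm_num) (by norm_num) a0 a2
    | exact kA 1 2 (by norm_num) (by norm_num) a1 a2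
    | exact kB 0 1 (by norm_num) (by norm_num) a0 a1
    | exact kB 0 2 (by norm_num) (by norm_num) a0 a2
    | exact kB 1 2 (by norm_num) (by norm_num) a1 a2

lemma fY_sign (x y : XS) (b : Bool) (h1 : x.1.1 = sg b • y.1.1) (h2 : x.1.2 = y.1.2) :
    fY x = fY y := by
  refine Subtype.ext (Prod.ext (funext fun n => ?_) h2)
  show x.1.1 0 * x.1.1 n = y.1.1 0 * y.1.1 n
  rw [h1]; cases b <;> simp [sg]

lemma not_delta {K : Set Y} (hK : IsCompact K) (hc : IsConnected K) (h1 : fY (ρ true 0) ∈ K)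
    (h2 : fY (Λ true (c₀, 0)) ∈ K) : ¬ HD K := by
  have hray : ∀ t, 0 < t → fY (ρ true t) ∈ K := by
    intro t ht
    have h3 : η t < 1 := by
      rw [η, max_eq_left ht.le, div_lt_one (by linarith)]; linarith
    obtain ⟨y, hy1, hy2⟩ := hc.isPreconnected.intermediate_value h2 h1
      (f := fun y : Y => y.1.2) (by fun_prop) (show η t ∈ Icc 0 (η 0) from
        ⟨(η_pos t).le, by simpa [η] using h3.le⟩)
    obtain ⟨x, rfl⟩ := fY_surj y
    have h4 : x.1.2 = η t := hy2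
    obtain ⟨b, ⟨c, s, h⟩ | ⟨t', h⟩⟩ := x.2
    · rw [h] at h4; exact absurd h4 (η_pos t).ne
    · have h5 : max t' 0 = max t 0 := η_inj (by rw [← h4, h])
      have h6 : t' = t := by
        rw [max_eq_left ht.le] at h5
        rcases le_total t' 0 with h7 | h7
        · rw [max_eq_right h7] at h5; linarith
        · rwa [max_eq_left h7] at h5
      rwa [← fY_sign x (ρ true t) b (by simp [h, h6, ρ, sg]) h4]
  have hM : M ⊆ K := by
    intro y hy
    obtain ⟨z, rfl⟩ := M_sub hy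
    obtain ⟨b, c, s, h⟩ := S_cases z.2
    have h0 : j z = fY (Λ true (c, s)) := fY_sign _ _ b (by simp [h, Λ, sg]) rfl
    rw [h0]
    refine closure_minimal ?_ hK.isClosed (image_closure_subset_closure_image fY_cont
      ⟨_, Λ_closure true c s, rfl⟩)
    rintro _ ⟨_, ⟨t, ht, rfl⟩, rfl⟩
    exact hray t ht
  intro H
  refine M_indec (H M hM (hK.of_isClosed_subset isClosed_closure hM)
    (isConnected_range (j_cont.comp leaf_cont)).closure
    ⟨_, subset_closure ⟨0, rfl⟩, _, subset_closure ⟨1, rfl⟩, fun h => ?_⟩)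
  have h3 := congrArg (pr 0) h
  simp only [pr_leaf] at h3
  have := E_inj h3 (by norm_num; linarith [Real.pi_gt_three])
  norm_num at this

end Pool.Agent.H56.Dec
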