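import Mathlib

set_option autoImplicit false

namespace Pool.Agent.H56.Delta

open Finset

def Rep (E f n : ℕ) : Prop := n * E ≤ f ∧ f ≤ n * (E + 1)

theorem Rep.add {E f n f' n' : ℕ} (h : Rep E f n) (h' : Rep E f' n') : Rep E (f + f') (n + n') := by
  unfold Rep at *
  constructor <;> nlinarith [h.1, h.2, h'.1, h'.2]

theorem rep_two (E : ℕ) : Rep E (2 * E + 1) 2 := by unfold Rep; omega

theorem rep_zero (E : ℕ) : Rep E 0 0 := by simp [Rep]

theorem Rep.add_mul {E f n : ℕ} (h : Rep E f n) (k : ℕ) :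
    Rep E (f + k * (2 * E + 1)) (n + 2 * k) := by
  unfold Rep at *
  constructor <;> nlinarith [h.1, h.2]

theorem Rep.undo {E f n n0 : ℕ} (h : Rep E (f + (2 * E + 1)) n) (h0 : Rep E f n0) :
    ∃ n', n' + 1 ≤ n ∧ Rep E f n' := by
  unfold Rep at *
  rcases n with _ | n
  · omega
  by_cases h1 : n0 ≤ n
  · exact ⟨n0, by omega, h0⟩
  · refine ⟨n, le_rfl, ?_, ?_⟩
    · exact le_trans (Nat.mul_le_mul_right _ (by omega)) h0.1
    · nlinarith [h.2]

/-- the numerical data of the construction -/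
structure Data (U I : Type) [Fintype U] [Fintype I] [DecidableEq U] [DecidableEq I] where
  A : ℕ
  m : ℕ
  dU : U → ℕ
  own : I → Option U
  iv : I → ℕ
  E : I → ℕ
  N : U → ℕ
  γ : U → ℕ
  g : I → ℕ
  hA : 1 ≤ A
  hm : 0 < m
  hd : ∀ u, 1 ≤ dU u ∧ dU u < A
  hiv : ∀ j, (own j).elim A dU ≤ iv j
  hiv' : ∀ j, iv j < (own j).elim A dU + 2 * A
  hex : ∀ (o : Option U) (i : ℕ), o.elim A dU ≤ i → i < o.elim A dU + 2 * A →
    ∃ j, own j = o ∧ iv j = i
  hE : ∀ j, 1 ≤ E j
  hN : ∀ u, 2 ≤ N u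
  h1 : ∀ u, N u * γ u = A * m
  h2 : ∀ j, (2 * E j + 1) * g j = (own j).elim 0 γ + iv j * m
  c1 : ∀ j, Nat.Coprime (2 * E j + 1) (g j)
  c2 : ∀ j, 2 * E j + 1 ∣ m
  c3 : ∀ j u, 2 * E j + 1 ∣ γ u
  c4 : ∀ j j', j' ≠ j → 2 * E j + 1 ∣ g j'
  c5 : ∀ u, Nat.Coprime (N u) (γ u)
  c6 : ∀ u, N u ∣ m
  c7 : ∀ u u', u' ≠ u → N u ∣ γ u'
  hG : ∀ G, G ∣ m → (∀ u, G ∣ γ u) → (∀ j, G ∣ g j) → G = 1

variable {U I : Type} [Fintype U] [Fintype I] [DecidableEq U] [DecidableEq I] (X : Data U I)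

namespace Data

def Len (x l : ℕ) : Prop := ∃ (α : U → ℕ) (f n : I → ℕ), (∀ j, Rep (X.E j) (f j) (n j)) ∧
  ∑ u, α u + ∑ j, n j ≤ l ∧ x = l * X.m + ∑ u, α u * X.γ u + ∑ j, f j * X.g j

def cnt (π : I → ℕ) (u : U) : ℕ := ∑ j, if X.own j = some u then π j else 0

def Y (π : I → ℕ) (κ : U → ℕ) : ℕ := ∑ j, π j * X.iv j + X.A * ∑ u, κ u

def P (α : U → ℕ) (f : I → ℕ) (π : I → ℕ) (κ : U → ℕ) (s : ℤ) : Prop :=
  ∃ n : I → ℕ, (∀ j, Rep (X.E j) (f j + π j * (2 * X.E j + 1)) (n j)) ∧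
    (∀ u, X.cnt π u ≤ α u + κ u * X.N u) ∧
    ∑ u, ((α u + κ u * X.N u : ℕ) : ℤ) - ∑ u, (X.cnt π u : ℤ) + ∑ j, (n j : ℤ) ≤ s

def Red (α : U → ℕ) (f : I → ℕ) : Prop := (∀ u, α u < X.N u) ∧
  (∀ j f' n', Rep (X.E j) f' n' → f j ≠ f' + (2 * X.E j + 1)) ∧ ∀ j, ∃ n, Rep (X.E j) (f j) n

theorem sum_conv (π : I → ℕ) : ∑ j, π j * (2 * X.E j + 1) * X.g j =
    ∑ u, X.cnt π u * X.γ u + (∑ j, π j * X.iv j) * X.m := by
  simp only [cnt, sum_mul]
  rw [sum_comm, ← sum_add_distrib]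
  refine sum_congr rfl fun j _ => ?_
  rw [mul_assoc, X.h2, mul_add, mul_assoc]
  congr 1
  rcases X.own j with _ | u
  · simp
  · simp

theorem sum_block (κ : U → ℕ) : ∑ u, κ u * X.N u * X.γ u = (X.A * ∑ u, κ u) * X.m := by
  rw [mul_sum, sum_mul]
  refine sum_congr rfl fun u _ => ?_
  rw [mul_assoc, X.h1]
  ring

theorem modEq_single {T : Type} [Fintype T] [DecidableEq T] (q : ℕ) (w a b : T → ℕ) (t : T)
    (hc : Nat.Coprime q (w t)) (hd : ∀ t', t' ≠ t → q ∣ w t') (r s : ℕ) (hr : q ∣ r) (hs : q ∣ s)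
    (h : r + ∑ t, a t * w t = s + ∑ t, b t * w t) : a t ≡ b t [MOD q] := by
  have key : ∀ (r : ℕ) (a : T → ℕ), q ∣ r → r + ∑ t, a t * w t ≡ a t * w t [MOD q] := by
    intro r a hr
    rw [← add_sum_erase _ _ (mem_univ t), add_left_comm]
    have : q ∣ r + ∑ x ∈ univ.erase t, a x * w x :=
      dvd_add hr (dvd_sum fun x hx => (hd x (mem_erase.1 hx).1).mul_left _)
    exact (Nat.ModEq.add_left _ ((Nat.modEq_zero_iff_dvd).2 this)).trans (by rfl)
  have h1 := (key r a hr).symm.trans (h ▸ key s b hs)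
  exact Nat.ModEq.cancel_right_of_coprime hc h1

theorem len_iff {α : U → ℕ} {f : I → ℕ} (hr : X.Red α f) (L l : ℕ) :
    X.Len (L * X.m + ∑ u, α u * X.γ u + ∑ j, f j * X.g j) l ↔
      ∃ π κ, l + X.Y π κ = L ∧ X.P α f π κ l := by
  constructor
  · rintro ⟨α', f', n, h1, h2, h3⟩
    have a1 : ∀ j, ∃ p, f' j = f j + p * (2 * X.E j + 1) := by
      intro j
      have hm := modEq_single (2 * X.E j + 1) X.g f f' j (X.c1 j) (X.c4 j) _ _
        (dvd_add ((X.c2 j).mul_left _) (dvd_sum fun u _ => (X.c3 j u).mul_left _))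
        (dvd_add ((X.c2 j).mul_left _) (dvd_sum fun u _ => (X.c3 j u).mul_left _)) h3
      by_cases hle : f j ≤ f' j
      · obtain ⟨p, hp⟩ := (Nat.modEq_iff_dvd' hle).1 hm
        exact ⟨p, by rw [mul_comm]; omega⟩
      · exfalso
        obtain ⟨p, hp⟩ := (Nat.modEq_iff_dvd' (show f' j ≤ f j by omega)).1 hm.symm
        rcases p with _ | p
        · omega
        refine hr.2.1 j _ _ ((h1 j).add_mul p) ?_
        have : (2 * X.E j + 1) * (p + 1) = p * (2 * X.E j + 1) + (2 * X.E j + 1) := by ring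
        omega
    choose π hπ using a1
    have e1 : L * X.m + ∑ u, α u * X.γ u =
        (l + ∑ j, π j * X.iv j) * X.m + ∑ u, (α' u + X.cnt π u) * X.γ u := by
      simp only [hπ, add_mul, sum_add_distrib, X.sum_conv] at h3 ⊢
      omega
    have a2 : ∀ u, ∃ k, α' u + X.cnt π u = α u + k * X.N u := by
      intro u
      have hm := modEq_single (X.N u) X.γ α (fun u => α' u + X.cnt π u) u (X.c5 u) (X.c7 u) _ _
        ((X.c6 u).mul_left _) ((X.c6 u).mul_left _) e1
      refine ⟨(α' u + X.cnt π u) / X.N u, ?_⟩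
      have h4 : α u % X.N u = (α' u + X.cnt π u) % X.N u := hm
      rw [Nat.mod_eq_of_lt (hr.1 u)] at h4
      rw [h4, mul_comm, Nat.mod_add_div]
    choose κ hκ using a2
    refine ⟨π, κ, ?_, n, fun j => hπ j ▸ h1 j, fun u => by rw [← hκ]; omega, ?_⟩
    · simp only [hκ, add_mul, sum_add_distrib, X.sum_block] at e1
      refine Nat.eq_of_mul_eq_mul_right X.hm ?_
      simp only [Y, add_mul]
      omega
    · simp only [← hκ]
      push_cast
      rw [sum_add_distrib]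
      have : ((∑ u, α' u + ∑ j, n j : ℕ) : ℤ) ≤ l := by exact_mod_cast h2
      push_cast at this
      omega
  · rintro ⟨π, κ, h1, n, h2, h3, h4⟩
    have a1 : ∀ u, ∃ a, α u + κ u * X.N u = a + X.cnt π u := fun u =>
      ⟨α u + κ u * X.N u - X.cnt π u, by have := h3 u; omega⟩
    choose α' hα using a1
    refine ⟨α', _, n, h2, ?_, ?_⟩
    · simp only [hα] at h4
      push_cast at h4
      rw [sum_add_distrib] at h4
      have : ((∑ u, α' u + ∑ j, n j : ℕ) : ℤ) ≤ l := by push_cast; omega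
      exact_mod_cast this
    · have e1 : ∑ u, (α u + κ u * X.N u) * X.γ u = ∑ u, (α' u + X.cnt π u) * X.γ u := by
        simp only [hα]
      simp only [add_mul, sum_add_distrib, X.sum_conv, X.sum_block] at e1 ⊢
      rw [← h1]
      simp only [Y, add_mul]
      omega

/-- weight of a gadget without a small generator -/
def w (j : I) : ℤ := if X.own j = none then 1 else 0

theorem cnt_single (π : I → ℕ) (j : I) (u : U) :
    X.cnt (π + Pi.single j 1) u = X.cnt π u + if X.own j = some u then 1 else 0 := by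
  simp only [cnt, Pi.add_apply]
  have : (if X.own j = some u then 1 else 0 : ℕ) =
      ∑ j', if j = j' then (if X.own j' = some u then 1 else 0) else 0 := by simp
  rw [this, ← sum_add_distrib]
  refine sum_congr rfl fun j' _ => ?_
  by_cases h : j = j'
  · subst h; split_ifs <;> simp_all
  · simp [h, Ne.symm h]

theorem sum_cnt_single (π : I → ℕ) (j : I) :
    ∑ u, (X.cnt (π + Pi.single j 1) u : ℤ) = ∑ u, (X.cnt π u : ℤ) + 1 - X.w j := by
  simp only [cnt_single, w]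
  push_cast
  rw [sum_add_distrib]
  rcases X.own j with _ | u
  · simp
  · simp [eq_comm]

theorem Y_single (π : I → ℕ) (κ : U → ℕ) (j : I) :
    X.Y (π + Pi.single j 1) κ = X.Y π κ + X.iv j := by
  simp only [Y, Pi.add_apply, add_mul, sum_add_distrib, Pi.single_apply]
  simp
  ring

theorem Y_block (π : I → ℕ) (κ : U → ℕ) (u : U) :
    X.Y π (κ + Pi.single u 1) = X.Y π κ + X.A := by
  simp only [Y, Pi.add_apply, sum_add_distrib, Pi.single_apply]
  simp
  ring

variable {X} {α : U → ℕ} {f π : I → ℕ} {κ : U → ℕ} {s : ℤ}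

theorem P.mono (h : X.P α f π κ s) {s' : ℤ} (hs : s ≤ s') : X.P α f π κ s' := by
  obtain ⟨n, h1, h2, h3⟩ := h
  exact ⟨n, h1, h2, h3.trans hs⟩

theorem sum_update (n : I → ℕ) (j : I) (a : ℕ) :
    ∑ i, ((Function.update n j a i : ℕ) : ℤ) = ∑ i, (n i : ℤ) - n j + a := by
  rw [← add_sum_erase _ _ (mem_univ j), ← add_sum_erase _ (fun i => (n i : ℤ)) (mem_univ j),
    sum_congr rfl (g := fun i => (n i : ℤ)) (fun i hi => by simp [(mem_erase.1 hi).1])]
  simp
  ring

theorem P.undo (hr : X.Red α f) {j : I} (h : X.P α f (π + Pi.single j 1) κ s) :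
    X.P α f π κ (s - X.w j) ∧ ∀ u, X.own j = some u → X.cnt π u < α u + κ u * X.N u := by
  obtain ⟨n, h1, h2, h3⟩ := h
  obtain ⟨n0, h0⟩ := hr.2.2 j
  have h4 := h1 j
  simp only [Pi.add_apply, Pi.single_eq_same, add_mul, one_mul, ← add_assoc] at h4
  obtain ⟨n', h5, h6⟩ := Rep.undo h4 (h0.add_mul (π j))
  refine ⟨⟨Function.update n j n', fun i => ?_, fun u => ?_, ?_⟩, fun u hu => ?_⟩
  · by_cases hi : i = j
    · subst hi; simpa using h6
    · simpa [hi] using h1 i
  · have := h2 u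
    rw [cnt_single] at this
    omega
  · rw [sum_cnt_single] at h3
    rw [sum_update]
    omega
  · have := h2 u
    rw [cnt_single, if_pos hu] at this
    omega

theorem P.add (h : X.P α f π κ s) (j : I)
    (hj : ∀ u, X.own j = some u → X.cnt π u < α u + κ u * X.N u) :
    X.P α f (π + Pi.single j 1) κ (s + 1 + X.w j) := by
  obtain ⟨n, h1, h2, h3⟩ := h
  refine ⟨Function.update n j (n j + 2), fun i => ?_, fun u => ?_, ?_⟩
  · by_cases hi : i = j
    · subst hi
      simpa [add_mul, add_assoc] using (h1 i).add (rep_two _)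
    · simpa [hi] using h1 i
  · rw [cnt_single]
    split_ifs with hu
    · exact hj u hu
    · exact h2 u
  · rw [sum_cnt_single, sum_update]
    push_cast at h3 ⊢
    omega

theorem cnt_zero (u : U) : X.cnt 0 u = 0 := by simp [cnt]

theorem P.block {u : U} (h : X.P α f 0 (κ + Pi.single u 1) s) : X.P α f 0 κ (s - 2) := by
  obtain ⟨n, h1, -, h3⟩ := h
  refine ⟨n, h1, fun u => by simp [cnt_zero], ?_⟩
  simp only [Pi.add_apply, add_mul, ← add_assoc, Pi.single_apply, Nat.cast_add,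
    sum_add_distrib] at h3 ⊢
  simp only [ite_mul, one_mul, zero_mul, Nat.cast_ite, Nat.cast_zero, sum_ite_eq', mem_univ,
    if_true] at h3
  have := X.hN u
  omega

theorem w_nonneg (j : I) : 0 ≤ X.w j := by unfold w; split_ifs <;> simp

theorem w_le (j : I) : X.w j ≤ 1 := by unfold w; split_ifs <;> simp

theorem split_fun {T : Type} [DecidableEq T] (π : T → ℕ) :
    π = 0 ∨ ∃ (j : T) (π' : T → ℕ), π = π' + Pi.single j 1 := by
  by_cases h : π = 0
  · exact Or.inl h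
  obtain ⟨j, hj⟩ := Function.ne_iff.1 h
  refine Or.inr ⟨j, Function.update π j (π j - 1), ?_⟩
  funext i
  by_cases hi : i = j
  · subst hi
    simp only [Pi.zero_apply] at hj
    simp
    omega
  · simp [hi]

/-- the type of a reduced configuration -/
def Ty (α : U → ℕ) (d : ℕ) : Prop :=
  ((d = X.A ∧ α = 0) ∨ ∃ u, 1 ≤ α u ∧ X.dU u = d) ∧ ∀ u, 1 ≤ α u → d ≤ X.dU u

theorem Ty.le {d : ℕ} (h : X.Ty α d) : d ≤ X.A := by
  rcases h.1 with h | ⟨u, _, h⟩
  · omega
  · have := X.hd u; omega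

theorem exists_ty (α : U → ℕ) : ∃ d, X.Ty α d := by
  by_cases h : α = 0
  · exact ⟨X.A, Or.inl ⟨rfl, h⟩, fun u hu => by simp [h] at hu⟩
  obtain ⟨j, hj⟩ := Function.ne_iff.1 h
  obtain ⟨u, h1, h2⟩ := exists_min_image (univ.filter fun u => 1 ≤ α u) X.dU
    ⟨j, by simp at hj ⊢; omega⟩
  exact ⟨X.dU u, Or.inr ⟨u, by simpa using h1, rfl⟩, fun v hv => h2 v (by simpa using hv)⟩

theorem P.gap (hr : X.Red α f) {d : ℕ} (hd : X.Ty α d) (h : X.P α f π κ s) :
    X.Y π κ = 0 ∨ d ≤ X.Y π κ := by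
  have := hd.le
  rcases split_fun κ with rfl | ⟨u, κ', rfl⟩
  · rcases split_fun π with rfl | ⟨j, π', rfl⟩
    · left; simp [Y]
    · right
      rw [Y_single]
      have h1 := (P.undo hr h).2
      have h2 := X.hiv j
      rcases ho : X.own j with _ | u
      · simp [ho] at h2; omega
      · have h3 := h1 u ho
        have h4 := hd.2 u (by simp at h3; omega)
        simp [ho] at h2
        omega
  · right
    rw [Y_block]
    omega

theorem P.top (hr : X.Red α f) (k : ℕ) : ∀ π κ, ∑ j, π j + ∑ u, κ u = k → X.P α f π κ s →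
    X.P α f 0 0 s := by
  induction k with
  | zero =>
    intro π κ hk h
    have h1 : π = 0 := funext fun j => by
      have := single_le_sum (f := π) (fun _ _ => Nat.zero_le _) (mem_univ j); simp; omega
    have h2 : κ = 0 := funext fun j => by
      have := single_le_sum (f := κ) (fun _ _ => Nat.zero_le _) (mem_univ j); simp; omega
    rwa [h1, h2] at h
  | succ k ih =>
    intro π κ hk h
    rcases split_fun π with rfl | ⟨j, π', rfl⟩
    · rcases split_fun κ with rfl | ⟨u, κ', rfl⟩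
      · exact h
      · refine ih 0 κ' ?_ (h.block.mono (by omega))
        simp [sum_add_distrib, Pi.single_apply] at hk ⊢
        omega
    · refine ih π' κ ?_ ((P.undo hr h).1.mono (by have := X.w_nonneg j; omega))
      simp [sum_add_distrib, Pi.single_apply] at hk ⊢
      omega

theorem P.step (hr : X.Red α f) {d : ℕ} (hd : X.Ty α d) (h : X.P α f π κ s)
    (hy : d < X.Y π κ) : ∃ π' κ', X.Y π' κ' + 1 = X.Y π κ ∧ X.P α f π' κ' (s + 1) := by
  have hdA := hd.le
  have hA := X.hA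
  have hel : ∀ o : Option U, 1 ≤ o.elim X.A X.dU ∧ o.elim X.A X.dU ≤ X.A := by
    rintro (_ | u)
    · simp; omega
    · have := X.hd u; simp; omega
  have hw : ∀ j j', X.own j' = X.own j → X.w j' = X.w j := fun j j' h => by simp [w, h]
  have htop : ∀ (κ : U → ℕ) (s : ℤ) (i : ℕ), d ≤ i → i < X.A → X.P α f 0 κ s →
      ∃ j, X.iv j = i ∧ X.P α f (0 + Pi.single j 1) κ (s + 1) := by
    intro κ s i h1 h2 h3
    rcases hd.1 with h4 | ⟨u, h4, h5⟩
    · omega
    obtain ⟨j, e1, e2⟩ := X.hex (some u) i (by simp; omega) (by simp; omega)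
    refine ⟨j, e2, (h3.add j fun v hv => ?_).mono (by simp [w, e1])⟩
    obtain rfl : u = v := by simpa [e1] using hv
    rw [cnt_zero]
    omega
  have hnone : ∀ (π : I → ℕ) (κ : U → ℕ) (s : ℤ) (i : ℕ), X.A ≤ i → i < 3 * X.A → X.P α f π κ s →
      ∃ j, X.iv j = i ∧ X.P α f (π + Pi.single j 1) κ (s + 2) := by
    intro π κ s i h1 h2 h3
    obtain ⟨j, e1, e2⟩ := X.hex none i (by simpa) (by simp; omega)
    exact ⟨j, e2, (h3.add j fun v hv => by simp [e1] at hv).mono (by simp [w, e1, add_assoc])⟩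
  by_cases c1 : ∃ j, 1 ≤ π j ∧ (X.own j).elim X.A X.dU < X.iv j
  · obtain ⟨j, h1, h2⟩ := c1
    obtain ⟨π', rfl⟩ : ∃ π' : I → ℕ, π = π' + Pi.single j 1 := ⟨Function.update π j (π j - 1), by
      funext i
      by_cases hi : i = j
      · subst hi; simp; omega
      · simp [hi]⟩
    have := X.hiv' j
    obtain ⟨j', e1, e2⟩ := X.hex (X.own j) (X.iv j - 1) (by omega) (by omega)
    have h4 := P.undo hr h
    exact ⟨π' + Pi.single j' 1, κ, by rw [Y_single, Y_single]; omega,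
      (h4.1.add j' (e1 ▸ h4.2)).mono (by rw [hw j j' e1]; omega)⟩
  push Not at c1
  rcases split_fun π with rfl | ⟨j, π1, rfl⟩
  · rcases split_fun κ with rfl | ⟨u, κ1, rfl⟩
    · simp [Y] at hy
    rcases split_fun κ1 with rfl | ⟨v, κ2, rfl⟩
    · rw [Y_block] at hy ⊢
      have h0 : X.Y 0 0 = 0 := by simp [Y]
      obtain ⟨j, e1, e2⟩ := htop 0 _ (X.A - 1) (by omega) (by omega) h.block
      exact ⟨_, 0, by rw [Y_single]; omega, e2.mono (by omega)⟩
    · obtain ⟨j, e1, e2⟩ := hnone 0 κ2 _ (2 * X.A - 1) (by omega) (by omega) h.block.block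
      exact ⟨_, κ2, by rw [Y_single, Y_block, Y_block]; omega, e2.mono (by omega)⟩
  have a1 := c1 j (by simp)
  have a2 := X.hiv j
  have a3 := hel (X.own j)
  have h4 := P.undo hr h
  have a4 := X.w_nonneg j
  rcases split_fun π1 with rfl | ⟨j2, π2, rfl⟩
  · rcases split_fun κ with rfl | ⟨u, κ1, rfl⟩
    · rw [Y_single] at hy ⊢
      have h0 : X.Y 0 0 = 0 := by simp [Y]
      obtain ⟨j', e1, e2⟩ := htop 0 _ (X.iv j - 1) (by omega) (by omega) h4.1
      exact ⟨_, 0, by rw [Y_single]; omega, e2.mono (by omega)⟩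
    · obtain ⟨j', e1, e2⟩ := hnone 0 κ1 _ (X.iv j + X.A - 1) (by omega) (by omega) h4.1.block
      exact ⟨_, κ1, by rw [Y_single, Y_single, Y_block]; omega, e2.mono (by omega)⟩
  · have b1 := c1 j2 (by simp [Pi.single_apply]; omega)
    have b2 := X.hiv j2
    have b3 := hel (X.own j2)
    have h5 := P.undo hr h4.1
    obtain ⟨j', e1, e2⟩ := X.hex (X.own j2) (X.iv j + X.iv j2 - 1) (by omega) (by omega)
    exact ⟨π2 + Pi.single j' 1, κ, by rw [Y_single, Y_single, Y_single]; omega,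
      (h5.1.add j' (e1 ▸ h5.2)).mono (by rw [hw j2 j' e1]; omega)⟩

end Data

end Pool.Agent.H56.Delta
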