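import Pool.Agent.H56.Delta1

set_option autoImplicit false

namespace Pool.Agent.H56.Delta

open Finset

variable {U I : Type} [Fintype U] [Fintype I] [DecidableEq U] [DecidableEq I] {X : Data U I}

namespace Data

theorem Len.add {x l y k : ℕ} (h : X.Len x l) (h' : X.Len y k) : X.Len (x + y) (l + k) := by
  obtain ⟨α, f, n, h1, h2, rfl⟩ := h
  obtain ⟨α', f', n', h1', h2', rfl⟩ := h'
  refine ⟨α + α', f + f', n + n', fun j => (h1 j).add (h1' j), ?_, ?_⟩
  · simp only [Pi.add_apply, sum_add_distrib]; omega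
  · simp only [Pi.add_apply, sum_add_distrib, add_mul]; omega

theorem len_zero : X.Len 0 0 := ⟨0, 0, 0, fun j => rep_zero _, by simp, by simp⟩

theorem Len.le {x l : ℕ} (h : X.Len x l) : l ≤ x := by
  obtain ⟨α, f, n, -, -, rfl⟩ := h
  have := Nat.le_mul_of_pos_right l X.hm
  omega

theorem Len.eq_zero {x : ℕ} (h : X.Len x 0) : x = 0 := by
  obtain ⟨α, f, n, h1, h2, rfl⟩ := h
  have a1 : ∀ u, α u = 0 := fun u => by
    have := single_le_sum (f := α) (fun _ _ => Nat.zero_le _) (mem_univ u); omega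
  have a2 : ∀ j, f j = 0 := fun j => by
    have := single_le_sum (f := n) (fun _ _ => Nat.zero_le _) (mem_univ j)
    have h3 := (h1 j).2
    have : n j = 0 := by omega
    simpa [this] using h3
  simp [a1, a2]

theorem iv_pos (j : I) : 1 ≤ X.iv j := by
  have := X.hiv j
  rcases ho : X.own j with _ | u
  · have := X.hA; simp [ho] at *; omega
  · have := X.hd u; simp [ho] at *; omega

theorem sum_single_mul {T : Type} [Fintype T] [DecidableEq T] (t : T) (a : ℕ) (w : T → ℕ) :
    ∑ u, (Pi.single t a : T → ℕ) u * w u = a * w t := by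
  simp [Pi.single_apply]

theorem sum_single' {T : Type} [Fintype T] [DecidableEq T] (t : T) (a : ℕ) :
    ∑ u, (Pi.single t a : T → ℕ) u = a := by
  simp [Pi.single_apply]

theorem split_fun' {T : Type} [DecidableEq T] (π : T → ℕ) (j : T) (a : ℕ) (h : a ≤ π j) :
    ∃ π' : T → ℕ, π = π' + Pi.single j a := by
  refine ⟨Function.update π j (π j - a), ?_⟩
  funext i
  by_cases hi : i = j
  · subst hi; simp; omega
  · simp [hi]

/-- every element has a reduced configuration -/
theorem Len.exists_red {x l : ℕ} (h : X.Len x l) : ∃ α f L, X.Red α f ∧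
    x = L * X.m + ∑ u, α u * X.γ u + ∑ j, f j * X.g j := by
  classical
  have hex : ∃ k, ∃ l, x - l = k ∧ X.Len x l := ⟨_, l, rfl, h⟩
  obtain ⟨L, hL, hx⟩ := Nat.find_spec hex
  have hmax : ∀ l', X.Len x l' → l' ≤ L := fun l' h' => by
    have := Nat.find_min' hex ⟨l', rfl, h'⟩
    have := h'.le
    have := hx.le
    omega
  obtain ⟨α, f, n, h1, h2, h3⟩ := hx
  refine ⟨α, f, L, ⟨fun u => ?_, fun j f' n' hr he => ?_, fun j => ⟨_, h1 j⟩⟩, h3⟩
  · by_contra hc
    obtain ⟨α', rfl⟩ := split_fun' α u (X.N u) (by omega)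
    have := hmax (L + X.A) ⟨α', f, n, h1, ?_, ?_⟩
    · have := X.hA; omega
    · simp only [Pi.add_apply, sum_add_distrib] at h2; omega
    · simp only [Pi.add_apply, sum_add_distrib, add_mul, sum_single_mul, X.h1] at h3 ⊢
      omega
  · obtain ⟨f1, rfl⟩ := split_fun' f j (2 * X.E j + 1) (by omega)
    have e : f1 j = f' := by simpa using he
    have h4 := h1 j
    simp only [Pi.add_apply, Pi.single_eq_same] at h4
    obtain ⟨n1, h5, h6⟩ := Rep.undo h4 (e ▸ hr)
    have h7 : ∀ i, Rep (X.E i) (f1 i) (Function.update n j n1 i) := fun i => by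
      by_cases hi : i = j
      · subst hi; simpa using h6
      · simpa [hi] using h1 i
    have h8 : ∑ i, Function.update n j n1 i + 1 ≤ ∑ i, n i := by
      have := sum_update n j n1
      have : ((∑ i, Function.update n j n1 i + 1 : ℕ) : ℤ) ≤ (∑ i, n i : ℕ) := by
        push_cast; omega
      exact_mod_cast this
    have hi := iv_pos (X := X) j
    simp only [Pi.add_apply, sum_add_distrib, add_mul (_ : ℕ) ((Pi.single j (2 * X.E j + 1) : I → ℕ) _),
      sum_single_mul, X.h2] at h3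
    rcases ho : X.own j with _ | u
    · have := hmax (L + X.iv j) ⟨α, f1, _, h7, by omega, ?_⟩
      · omega
      · simp only [ho, Option.elim, add_mul] at h3 ⊢
        omega
    · have := hmax (L + X.iv j) ⟨α + Pi.single u 1, f1, _, h7, ?_, ?_⟩
      · omega
      · simp only [Pi.add_apply, sum_add_distrib, sum_single']
        omega
      · simp only [ho, Option.elim, add_mul, Pi.add_apply, sum_add_distrib, sum_single_mul] at h3 ⊢
        omega

theorem Len.one_le {x l : ℕ} (h : X.Len x 1) (h' : X.Len x l) : l ≤ 1 := by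
  obtain ⟨α, f, n, h1, h2, rfl⟩ := h
  have hr : X.Red α f := by
    refine ⟨fun u => ?_, fun j f' n' _ he => ?_, fun j => ⟨_, h1 j⟩⟩
    · have := single_le_sum (f := α) (fun _ _ => Nat.zero_le _) (mem_univ u)
      have := X.hN u
      omega
    · have := single_le_sum (f := n) (fun _ _ => Nat.zero_le _) (mem_univ j)
      have h3 := (h1 j).2
      have h4 : n j * (X.E j + 1) ≤ 1 * (X.E j + 1) := Nat.mul_le_mul_right _ (by omega)
      have := X.hE j
      omega
  obtain ⟨π, κ, h3, -⟩ := (X.len_iff hr 1 l).1 h'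
  omega

theorem Len.split {x l : ℕ} (h : X.Len x (l + 1)) : ∃ a y, x = a + y ∧ X.Len a 1 ∧ X.Len y l := by
  obtain ⟨α, f, n, h1, h2, rfl⟩ := h
  rcases split_fun α with rfl | ⟨u, α', rfl⟩
  · rcases split_fun n with rfl | ⟨j, n', rfl⟩
    · refine ⟨X.m, _, ?_, ⟨0, 0, 0, fun j => rep_zero _, by simp, by simp⟩,
        ⟨0, f, 0, h1, by simp, rfl⟩⟩
      ring
    · have h3 := h1 j
      simp only [Pi.add_apply, Pi.single_eq_same] at h3
      obtain ⟨e, he, he', h4⟩ : ∃ e, Rep (X.E j) e 1 ∧ e ≤ f j ∧ Rep (X.E j) (f j - e) (n' j) := by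
        unfold Rep at *
        simp only [add_mul, one_mul] at h3 ⊢
        by_cases hc : f j ≤ n' j * (X.E j + 1) + X.E j
        · exact ⟨X.E j, by omega, by omega, by omega, by omega⟩
        · refine ⟨X.E j + 1, by omega, by omega, ?_, by omega⟩
          have : n' j * X.E j ≤ n' j * (X.E j + 1) := Nat.mul_le_mul_left _ (by omega)
          omega
      obtain ⟨f', rfl⟩ := split_fun' f j e he'
      refine ⟨X.m + e * X.g j, _, ?_, ⟨0, Pi.single j e, Pi.single j 1, fun i => ?_, by simp,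
        by simp [sum_single_mul]⟩, ⟨0, f', n', fun i => ?_, ?_, rfl⟩⟩
      · simp only [Pi.add_apply, add_mul, sum_add_distrib, sum_single_mul]
        ring
      · by_cases hi : i = j
        · subst hi; simpa using he
        · simpa [hi] using rep_zero _
      · by_cases hi : i = j
        · subst hi; simpa using h4
        · simpa [hi] using h1 i
      · simp only [Pi.add_apply, sum_add_distrib, sum_single'] at h2 ⊢
        omega
  · refine ⟨X.m + X.γ u, _, ?_, ⟨Pi.single u 1, 0, 0, fun j => rep_zero _, by simp,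
      by simp [sum_single_mul]⟩, ⟨α', f, n, h1, ?_, rfl⟩⟩
    · simp only [Pi.add_apply, add_mul, sum_add_distrib, sum_single_mul]
      ring
    · simp only [Pi.add_apply, sum_add_distrib, sum_single'] at h2 ⊢
      omega

variable (X) in
def S : AddSubmonoid ℕ where
  carrier := {x | ∃ l, X.Len x l}
  add_mem' := fun ⟨_, h⟩ ⟨_, h'⟩ => ⟨_, h.add h'⟩
  zero_mem' := ⟨0, len_zero⟩

theorem atom_iff (a : ℕ) :
    (a ∈ X.S ∧ a ≠ 0 ∧ ∀ b ∈ X.S, ∀ c ∈ X.S, b + c = a → b = 0 ∨ c = 0) ↔ X.Len a 1 := by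
  constructor
  · rintro ⟨⟨l, h⟩, h0, h1⟩
    rcases l with _ | l
    · exact absurd h.eq_zero h0
    obtain ⟨b, y, rfl, h2, h3⟩ := h.split
    rcases h1 b ⟨_, h2⟩ y ⟨_, h3⟩ rfl with h4 | h4
    · have := h2.le; omega
    · simpa [h4] using h2
  · intro h
    refine ⟨⟨_, h⟩, by have := h.le; omega, ?_⟩
    rintro b ⟨l, hb⟩ c ⟨k, hc⟩ rfl
    have := h.one_le (hb.add hc)
    rcases l with _ | l
    · exact Or.inl hb.eq_zero
    · obtain rfl : k = 0 := by omega
      exact Or.inr hc.eq_zero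

theorem fac_iff (x l : ℕ) : (∃ m : Multiset ℕ,
    (∀ a ∈ m, a ∈ X.S ∧ a ≠ 0 ∧ ∀ b ∈ X.S, ∀ c ∈ X.S, b + c = a → b = 0 ∨ c = 0) ∧
      m.sum = x ∧ Multiset.card m = l) ↔ X.Len x l := by
  simp only [atom_iff]
  constructor
  · rintro ⟨m, h, rfl, rfl⟩
    induction m using Multiset.induction_on with
    | empty => exact len_zero
    | cons a m ih =>
      rw [Multiset.sum_cons, Multiset.card_cons, add_comm (Multiset.card m)]
      exact (h a (by simp)).add (ih fun b hb => h b (by simp [hb]))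
  · induction l generalizing x with
    | zero => exact fun h => ⟨0, by simp, by simp [h.eq_zero], rfl⟩
    | succ l ih =>
      intro h
      obtain ⟨a, y, rfl, h1, h2⟩ := h.split
      obtain ⟨m, h3, rfl, rfl⟩ := ih _ h2
      refine ⟨a ::ₘ m, fun b hb => ?_, by simp, by simp⟩
      rcases Multiset.mem_cons.1 hb with rfl | hb
      · exact h1
      · exact h3 b hb

theorem finite_compl : ((X.S : Set ℕ)ᶜ).Finite := by
  have hm : X.m ∈ X.S := ⟨1, 0, 0, 0, fun j => rep_zero _, by simp, by simp⟩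
  have h1 : ∀ u, X.m + X.γ u ∈ X.S := fun u =>
    ⟨1, Pi.single u 1, 0, 0, fun j => rep_zero _, by simp, by simp [sum_single_mul]⟩
  have h2 : ∀ j e, Rep (X.E j) e 1 → X.m + e * X.g j ∈ X.S := fun j e he =>
    ⟨1, 0, Pi.single j e, Pi.single j 1, fun i => by
      by_cases hi : i = j
      · subst hi; simpa using he
      · simpa [hi] using rep_zero _, by simp, by simp [sum_single_mul]⟩
  have hg : Nat.setGcd (X.S : Set ℕ) = 1 := by
    refine X.hG _ (Nat.setGcd_dvd_of_mem hm) (fun u => ?_) fun j => ?_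
    · exact (Nat.dvd_add_right (Nat.setGcd_dvd_of_mem hm)).1 (Nat.setGcd_dvd_of_mem (h1 u))
    · have a1 := Nat.setGcd_dvd_of_mem (s := (X.S : Set ℕ)) (h2 j (X.E j) (by unfold Rep; omega))
      have a2 := Nat.setGcd_dvd_of_mem (s := (X.S : Set ℕ))
        (h2 j (X.E j + 1) (by unfold Rep; omega))
      rw [add_mul, one_mul, ← add_assoc] at a2
      exact (Nat.dvd_add_right a1).1 a2
  obtain ⟨n, hn⟩ := Nat.exists_mem_closure_of_ge (X.S : Set ℕ)
  refine (Set.finite_lt_nat n).subset fun x hx => ?_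
  by_contra hc
  have := hn x (by simpa using hc) (by rw [hg]; exact one_dvd _)
  rw [AddSubmonoid.closure_eq] at this
  exact hx this

theorem gap_mem {x k d : ℕ} (hd : 0 < d) (h1 : X.Len x k) (h2 : X.Len x (k + d))
    (h3 : ∀ j, k < j → j < k + d → ¬X.Len x j) : d = 1 ∨ d = X.A ∨ ∃ u, X.dU u = d := by
  obtain ⟨α, f, L, hr, rfl⟩ := h1.exists_red
  obtain ⟨e, he⟩ := exists_ty (X := X) α
  obtain ⟨π, κ, a1, a2⟩ := (X.len_iff hr L k).1 h1
  obtain ⟨π', κ', b1, b2⟩ := (X.len_iff hr L (k + d)).1 h2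
  by_cases hy : e < X.Y π κ
  · obtain ⟨π1, κ1, c1, c2⟩ := a2.step hr he hy
    have := h3 (k + 1) (by omega)
    left
    by_contra hc
    exact this (by omega) ((X.len_iff hr L (k + 1)).2 ⟨π1, κ1, by omega, by exact_mod_cast c2⟩)
  · have g1 := a2.gap hr he
    have g2 := b2.gap hr he
    have : d = e := by omega
    subst this
    rcases he.1 with h | ⟨u, _, h⟩
    · exact Or.inr (Or.inl h.1)
    · exact Or.inr (Or.inr ⟨u, h⟩)

theorem exists_gap (o : Option U) : ∃ x, X.Len x 2 ∧ X.Len x (2 + o.elim X.A X.dU) ∧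
    ∀ j, 2 < j → j < 2 + o.elim X.A X.dU → ¬X.Len x j := by
  set d := o.elim X.A X.dU with hd
  obtain ⟨j, e1, e2⟩ := X.hex o d le_rfl (by have := X.hA; omega)
  let α : U → ℕ := o.elim 0 fun u => Pi.single u 1
  have hα : ∀ u, α u = if o = some u then 1 else 0 := by
    intro u
    rcases o with _ | v
    · simp [α]
    · simp [α, Pi.single_apply, eq_comm]
  have hr : X.Red α 0 := by
    refine ⟨fun u => ?_, fun j f' n' _ he => by simp at he, fun j => ⟨0, rep_zero _⟩⟩
    have := X.hN u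
    rw [hα]; split_ifs <;> omega
  have ht : X.Ty α d := by
    refine ⟨?_, fun u hu => ?_⟩
    · rcases o with _ | v
      · exact Or.inl ⟨rfl, rfl⟩
      · exact Or.inr ⟨v, by simp [hα], rfl⟩
    · rw [hα] at hu
      split_ifs at hu with h
      · simp [hd, h]
      · omega
  have hs : ∑ u, (α u : ℤ) = 1 - X.w j := by
    rcases o with _ | v
    · simp [hα, w, e1]
    · simp [hα, w, e1, eq_comm]
  have h0 : X.P α 0 0 0 (1 - X.w j) :=
    ⟨0, fun i => by simpa using rep_zero _, fun u => by simp [cnt_zero], by simp [cnt_zero, hs]⟩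
  have hY : X.Y 0 0 = 0 := by simp [Y]
  have := X.w_nonneg j
  refine ⟨_, (X.len_iff hr (2 + d) 2).2 ⟨0 + Pi.single j 1, 0, by rw [Y_single]; omega,
    (h0.add j fun u hu => ?_).mono (by omega)⟩,
    (X.len_iff hr (2 + d) _).2 ⟨0, 0, by omega, h0.mono (by omega)⟩, fun l h1 h2 h3 => ?_⟩
  · simp [cnt_zero, hα, ← e1, hu]
  · obtain ⟨π, κ, a1, a2⟩ := (X.len_iff hr _ _).1 h3
    have := a2.gap hr ht
    omega

end Data

end Pool.Agent.H56.Delta
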