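import Pool.Agent.H56.Delta2

set_option autoImplicit false

namespace Pool.Agent.H56.Delta

open Finset

theorem exists_primes (T : Type) [Fintype T] (B : ℕ) :
    ∃ p : T → ℕ, Function.Injective p ∧ ∀ t, (p t).Prime ∧ B < p t := by
  have h : ({p : ℕ | p.Prime} \ {p | p ≤ B}).Infinite :=
    Nat.infinite_setOf_prime.diff (Set.finite_le_nat B)
  let e := h.natEmbedding
  refine ⟨fun t => e (Fintype.equivFin T t), fun a b hab => ?_, fun t => ?_⟩
  · have := e.injective (Subtype.ext hab)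
    exact (Fintype.equivFin T).injective (Fin.ext this)
  · have := (e (Fintype.equivFin T t)).2
    exact ⟨this.1, by simpa using this.2⟩

theorem cop_lt {p a : ℕ} (hp : p.Prime) (h0 : 0 < a) (h : a < p) : Nat.Coprime p a :=
  (Nat.coprime_of_lt_prime (by omega) h hp)

theorem exists_data {U I : Type} [Fintype U] [Fintype I] [DecidableEq U] [DecidableEq I]
    (A : ℕ) (dU : U → ℕ) (own : I → Option U) (iv : I → ℕ) (hA : 1 ≤ A)
    (hd : ∀ u, 1 ≤ dU u ∧ dU u < A) (hiv : ∀ j, (own j).elim A dU ≤ iv j)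
    (hiv' : ∀ j, iv j < (own j).elim A dU + 2 * A)
    (hex : ∀ (o : Option U) (i : ℕ), o.elim A dU ≤ i → i < o.elim A dU + 2 * A →
      ∃ j, own j = o ∧ iv j = i) : ∃ X : Data U I, X.A = A ∧ X.dU = dU := by
  obtain ⟨N, hN, hN'⟩ := exists_primes U A
  obtain ⟨M, hM, hM'⟩ := exists_primes I (2 + ∑ u, N u + 3 * A + (A + 3 * A * ∑ u, N u))
  have hi : ∀ j, 1 ≤ iv j ∧ iv j < 3 * A := fun j => by
    have := hiv j
    have := hiv' j
    rcases ho : own j with _ | u
    · simp [ho] at *; omega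
    · have := hd u; simp [ho] at *; omega
  have hNs : ∀ u, N u ≤ ∑ u, N u := fun u =>
    single_le_sum (f := N) (fun _ _ => Nat.zero_le _) (mem_univ u)
  have hE : ∀ j, 2 * (M j / 2) + 1 = M j := fun j => by
    have := (hM' j).1.eq_two_or_odd
    have := (hM' j).2
    omega
  have hNM : ∀ j u, Nat.Coprime (M j) (N u) := fun j u =>
    cop_lt (hM' j).1 (hN' u).1.pos (by have := hNs u; have := (hM' j).2; omega)
  let γ : U → ℕ := fun u => A * (∏ v ∈ univ.erase u, N v) * ∏ j, M j
  let g : I → ℕ := fun j => (∏ i ∈ univ.erase j, M i) *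
    (own j).elim (iv j * ∏ u, N u) fun u => (A + iv j * N u) * ∏ v ∈ univ.erase u, N v
  have c1 : ∀ j, Nat.Coprime (M j) (g j) := fun j => by
    refine Nat.Coprime.mul_right (Nat.Coprime.prod_right fun i hi => ?_) ?_
    · exact (Nat.coprime_primes (hM' j).1 (hM' i).1).2 fun h => (mem_erase.1 hi).1 (hM h).symm
    · have := hi j
      have := (hM' j).2
      rcases own j with _ | u
      · exact Nat.Coprime.mul_right (cop_lt (hM' j).1 (by omega) (by omega))
          (Nat.Coprime.prod_right fun u _ => hNM j u)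
      · have : iv j * N u ≤ 3 * A * ∑ u, N u := Nat.mul_le_mul (by omega) (hNs u)
        exact Nat.Coprime.mul_right (cop_lt (hM' j).1 (by omega) (by omega))
          (Nat.Coprime.prod_right fun u _ => hNM j u)
  have c5 : ∀ u, Nat.Coprime (N u) (γ u) := fun u => by
    refine Nat.Coprime.mul_right (Nat.Coprime.mul_right (cop_lt (hN' u).1 hA (hN' u).2)
      (Nat.Coprime.prod_right fun i hi => ?_)) (Nat.Coprime.prod_right fun j _ => (hNM j u).symm)
    exact (Nat.coprime_primes (hN' u).1 (hN' i).1).2 fun h => (mem_erase.1 hi).1 (hN h).symm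
  refine ⟨⟨A, (∏ u, N u) * ∏ j, M j, dU, own, iv, fun j => M j / 2, N, γ, g, hA, ?_, hd, hiv, hiv',
    hex, fun j => ?_, fun u => (hN' u).1.two_le, fun u => ?_, fun j => ?_, fun j => ?_,
    fun j => ?_, fun j u => ?_, fun j j' h => ?_, c5, fun u => ?_, fun u v h => ?_,
    fun G g1 g2 g3 => ?_⟩, rfl, rfl⟩
  · exact Nat.mul_pos (prod_pos fun u _ => (hN' u).1.pos) (prod_pos fun u _ => (hM' u).1.pos)
  · have := (hM' j).2; omega
  · rw [← mul_prod_erase _ N (mem_univ u)]
    simp only [γ]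
    ring
  · rw [hE]
    simp only [g, γ]
    rw [← mul_assoc, mul_prod_erase _ M (mem_univ j)]
    rcases own j with _ | u
    · simp only [Option.elim]; ring
    · simp only [Option.elim]
      rw [← mul_prod_erase _ N (mem_univ u)]
      ring
  · rw [hE]; exact c1 j
  · rw [hE]; exact (dvd_prod_of_mem _ (mem_univ j)).mul_left _
  · rw [hE]; exact (dvd_prod_of_mem _ (mem_univ j)).mul_left _
  · rw [hE]; exact (dvd_prod_of_mem _ (by simp [h.symm])).mul_right _
  · exact (dvd_prod_of_mem _ (mem_univ u)).mul_right _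
  · exact ((dvd_prod_of_mem _ (by simp [h.symm])).mul_left _).mul_right _
  · by_contra hG
    obtain ⟨p, hp, hpG⟩ := Nat.exists_prime_and_dvd hG
    rcases (Nat.Prime.dvd_mul hp).1 (hpG.trans g1) with h | h
    · obtain ⟨u, -, h⟩ := (Prime.dvd_finset_prod_iff hp.prime _).1 h
      exact hp.one_lt.ne' (Nat.eq_one_of_dvd_coprimes (c5 u) h (hpG.trans (g2 u)))
    · obtain ⟨j, -, h⟩ := (Prime.dvd_finset_prod_iff hp.prime _).1 h
      exact hp.one_lt.ne' (Nat.eq_one_of_dvd_coprimes (c1 j) h (hpG.trans (g3 j)))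

theorem exists_data' (D : Finset ℕ) (h0 : ∀ d ∈ D, 0 < d) (hD : D.Nonempty) :
    ∃ (U I : Type) (_ : Fintype U) (_ : Fintype I) (_ : DecidableEq U) (_ : DecidableEq I)
      (X : Data U I), ∀ d, d ∈ D ↔ ∃ o : Option U, o.elim X.A X.dU = d := by
  set A := D.max' hD with hA
  have hAD : A ∈ D := D.max'_mem hD
  have hA1 := h0 A hAD
  obtain ⟨X, h1, h2⟩ := exists_data (U := D.erase A) (I := Option (D.erase A) × Fin (2 * A)) A
    (fun u => u.1) (fun j => j.1) (fun j => j.1.elim A (fun u => u.1) + j.2) hA1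
    (fun u => ⟨h0 _ (mem_erase.1 u.2).2, lt_of_le_of_ne (D.le_max' _ (mem_erase.1 u.2).2)
      (mem_erase.1 u.2).1⟩) (fun j => by omega) (fun j => by have := j.2.2; omega)
    (fun o i a b => ⟨(o, ⟨i - o.elim A fun u => u.1, by omega⟩), rfl, by simp only; omega⟩)
  refine ⟨_, _, _, _, _, _, X, fun d => ?_⟩
  rw [h1, h2]
  constructor
  · intro hd
    by_cases h : d = A
    · exact ⟨none, h.symm⟩
    · exact ⟨some ⟨d, mem_erase.2 ⟨h, hd⟩⟩, rfl⟩
  · rintro ⟨_ | u, rfl⟩
    · exact hAD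
    · exact (mem_erase.1 u.2).2

end Pool.Agent.H56.Delta
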