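import Mathlib

namespace Pool.Agent.H56.Dens123

open Filter Topology Finset
open scoped Classical

/-- counting function -/
noncomputable def cnt (A : Set ℕ) (x : ℕ) : ℕ := ((Finset.Icc 1 x).filter (· ∈ A)).card

lemma ncard_eq (A : Set ℕ) (x : ℕ) : (A ∩ Set.Icc 1 x).ncard = cnt A x := by
  unfold cnt
  rw [← Set.ncard_coe_finset]
  congr 1
  ext n
  simp only [Set.mem_inter_iff, Set.mem_Icc, Finset.coe_filter, Finset.mem_Icc, Set.mem_ofPred_eq]
  tauto

lemma cnt_succ (A : Set ℕ) (x : ℕ) :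
    cnt A (x + 1) = cnt A x + if x + 1 ∈ A then 1 else 0 := by
  unfold cnt
  rw [← Finset.insert_Icc_right_eq_Icc_add_one (by omega), Finset.filter_insert]
  split_ifs with h
  · rw [Finset.card_insert_of_notMem (by simp)]
  · simp

/-- indicator -/
noncomputable def ind (A : Set ℕ) (n : ℕ) : ℕ := if n ∈ A then 1 else 0

lemma ind_pos {A : Set ℕ} {n : ℕ} (h : n ∈ A) : ind A n = 1 := if_pos h

lemma ind_neg {A : Set ℕ} {n : ℕ} (h : n ∉ A) : ind A n = 0 := if_neg h

lemma ind_le (A : Set ℕ) (n : ℕ) : ind A n ≤ 1 := by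
  unfold ind; split_ifs <;> omega

lemma cnt_succ' (A : Set ℕ) (x : ℕ) : cnt A (x + 1) = cnt A x + ind A (x + 1) :=
  cnt_succ A x

lemma cnt_zero (A : Set ℕ) : cnt A 0 = 0 := by simp [cnt]

lemma cnt_le (A : Set ℕ) (x : ℕ) : cnt A x ≤ x := by
  induction x with
  | zero => simp [cnt_zero]
  | succ x ih => rw [cnt_succ]; split_ifs <;> omega

lemma cnt_add_le (A : Set ℕ) (x k : ℕ) : cnt A (x + k) ≤ cnt A x + k := by
  induction k with
  | zero => simp
  | succ k ih => rw [← add_assoc, cnt_succ]; split_ifs <;> omega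

def E : Set ℕ := {n | 0 < n ∧ Even (padicValNat 3 n)}

lemma mem_E_three (n : ℕ) (hn : 0 < n) : 3 * n ∈ E ↔ n ∉ E := by
  have : Fact (Nat.Prime 3) := ⟨by norm_num⟩
  simp only [E, Set.mem_ofPred_eq]
  rw [padicValNat.mul (by norm_num) hn.ne', padicValNat.self (by norm_num), add_comm,
    Nat.even_add_one]
  constructor
  · rintro ⟨_, h⟩ ⟨_, h'⟩; exact h h'
  · intro h; exact ⟨by omega, fun h' => h ⟨hn, h'⟩⟩

lemma mem_E_of_not_dvd (n : ℕ) (hn : ¬ 3 ∣ n) : n ∈ E := by
  refine ⟨Nat.pos_of_ne_zero (by rintro rfl; simp at hn), ?_⟩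
  rw [padicValNat.eq_zero_of_not_dvd hn]
  simp

lemma mem_E_two (n : ℕ) (hn : n ∈ E) : 2 * n ∈ E := by
  have : Fact (Nat.Prime 3) := ⟨by norm_num⟩
  obtain ⟨h0, h⟩ := hn
  refine ⟨by omega, ?_⟩
  rw [padicValNat.mul (by norm_num) h0.ne', padicValNat.eq_zero_of_not_dvd (by norm_num : ¬ 3 ∣ 2),
    zero_add]
  exact h

lemma cnt_E_rec (x : ℕ) : cnt E x + cnt E (x / 3) = x := by
  induction x with
  | zero => simp [cnt_zero]
  | succ x ih =>
    rw [cnt_succ]
    by_cases h : 3 ∣ x + 1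
    · obtain ⟨m, hm⟩ := h
      have h1 : (x + 1) / 3 = x / 3 + 1 := by omega
      have h2 : x / 3 + 1 = m := by omega
      rw [h1, cnt_succ, h2, hm]
      have := mem_E_three m (by omega)
      by_cases hE : m ∈ E
      · rw [if_neg (by tauto), if_pos hE]; omega
      · rw [if_pos (by tauto), if_neg hE]; omega
    · have h1 : (x + 1) / 3 = x / 3 := by omega
      rw [h1, if_pos (mem_E_of_not_dvd _ h)]
      omega

lemma cnt_E_err (x : ℕ) : |4 * (cnt E x : ℝ) - 3 * x| ≤ 6 * Real.sqrt x := by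
  induction x using Nat.strong_induction_on with
  | _ x ih =>
    rcases Nat.eq_zero_or_pos x with rfl | hx
    · simp [cnt_zero]
    have h1 := ih (x / 3) (by omega)
    have h2 : (cnt E x : ℝ) + cnt E (x / 3) = x := by exact_mod_cast cnt_E_rec x
    have h3 : (3 : ℝ) * (x / 3 : ℕ) ≤ x := by exact_mod_cast (by omega : 3 * (x / 3) ≤ x)
    have h4 : (x : ℝ) ≤ 3 * (x / 3 : ℕ) + 2 := by exact_mod_cast (by omega : x ≤ 3 * (x / 3) + 2)
    have h5 : (1 : ℝ) ≤ Real.sqrt x := by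
      rw [Real.one_le_sqrt]; exact_mod_cast hx
    have h6 : Real.sqrt (x / 3 : ℕ) ≤ 2 / 3 * Real.sqrt x := by
      rw [Real.sqrt_le_iff]
      refine ⟨by positivity, ?_⟩
      rw [mul_pow, Real.sq_sqrt (by positivity)]
      have : (0 : ℝ) ≤ x := by positivity
      linarith
    rw [abs_le] at h1 ⊢
    constructor <;> linarith [h1.1, h1.2]

lemma tendsto_E : Tendsto (fun x : ℕ => (cnt E x : ℝ) / x) atTop (𝓝 (3 / 4)) := by
  rw [tendsto_iff_norm_sub_tendsto_zero]
  have h0 : Tendsto (fun x : ℕ => 2 * (Real.sqrt x)⁻¹) atTop (𝓝 0) := by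
    have : Tendsto (fun x : ℕ => Real.sqrt x) atTop atTop :=
      Real.tendsto_sqrt_atTop.comp tendsto_natCast_atTop_atTop
    simpa using this.inv_tendsto_atTop.const_mul 2
  refine squeeze_zero' (Eventually.of_forall fun _ => norm_nonneg _) ?_ h0
  filter_upwards [eventually_gt_atTop 0] with x hx
  have hx' : (0 : ℝ) < x := by exact_mod_cast hx
  have hs : 0 < Real.sqrt x := Real.sqrt_pos.mpr hx'
  have h := cnt_E_err x
  have e : (cnt E x : ℝ) / x - 3 / 4 = (4 * (cnt E x : ℝ) - 3 * x) / (4 * x) := by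
    field_simp
  rw [Real.norm_eq_abs, e, abs_div, abs_of_pos (by positivity : (0 : ℝ) < 4 * x),
    div_le_iff₀ (by positivity)]
  have hss : Real.sqrt x * Real.sqrt x = x := Real.mul_self_sqrt hx'.le
  have : 2 * (Real.sqrt x)⁻¹ * (4 * x) = 8 * Real.sqrt x := by
    field_simp
    nlinarith
  rw [this]
  linarith

lemma key (A : Set ℕ) (hA : ∀ n, 0 < n → ¬ (n ∈ A ∧ 2 * n ∈ A ∧ 3 * n ∈ A)) (x : ℕ) :
    cnt E x + cnt (E \ A) (3 * x) + cnt A (3 * x)
      ≤ cnt (E \ A) x + cnt (E \ A) (2 * x) + 3 * x := by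
  induction x with
  | zero => simp [cnt_zero]
  | succ x ih =>
    have e3 : 3 * (x + 1) = 3 * x + 1 + 1 + 1 := by ring
    have e2 : 2 * (x + 1) = 2 * x + 1 + 1 := by ring
    have hA' := hA (x + 1) (by omega)
    have h3 := mem_E_three (x + 1) (by omega)
    have h2 := mem_E_two (x + 1)
    rw [e3] at hA' h3
    rw [e2] at hA' h2
    rw [e3, e2]
    rw [cnt_succ' E x, cnt_succ' (E \ A) x, cnt_succ' (E \ A) (2 * x + 1),
      cnt_succ' (E \ A) (2 * x), cnt_succ' (E \ A) (3 * x + 1 + 1), cnt_succ' (E \ A) (3 * x + 1),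
      cnt_succ' (E \ A) (3 * x), cnt_succ' A (3 * x + 1 + 1), cnt_succ' A (3 * x + 1),
      cnt_succ' A (3 * x)]
    have g1 : ∀ m : ℕ, ind (E \ A) m + ind A m ≤ 1 := by
      intro m
      by_cases hm : m ∈ A
      · rw [ind_neg (fun h => h.2 hm), ind_pos hm]
      · rw [ind_neg hm]; exact ind_le _ _
    have g2 : ind E (x + 1) + ind (E \ A) (3 * x + 1 + 1 + 1) + ind A (3 * x + 1 + 1 + 1)
        ≤ ind (E \ A) (x + 1) + ind (E \ A) (2 * x + 1 + 1) + 1 := by
      by_cases hE : x + 1 ∈ E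
      · rw [ind_pos hE, ind_neg (fun h => h3.mp h.1 hE)]
        by_cases a3 : 3 * x + 1 + 1 + 1 ∈ A
        · rw [ind_pos a3]
          by_cases a1 : x + 1 ∈ A
          · have a2 : 2 * x + 1 + 1 ∉ A := fun a2 => hA' ⟨a1, a2, a3⟩
            rw [ind_pos (show 2 * x + 1 + 1 ∈ E \ A from ⟨h2 hE, a2⟩)]
            omega
          · rw [ind_pos (show x + 1 ∈ E \ A from ⟨hE, a1⟩)]
            omega
        · rw [ind_neg a3]; omega
      · rw [ind_neg hE]
        have := g1 (3 * x + 1 + 1 + 1)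
        omega
    have g3 := g1 (3 * x + 1)
    have g4 := g1 (3 * x + 1 + 1)
    omega

theorem upper (A : Set ℕ) (hA : ∀ n, 0 < n → ¬ (n ∈ A ∧ 2 * n ∈ A ∧ 3 * n ∈ A)) (d : ℝ)
    (hd : Tendsto (fun x : ℕ => (cnt A x : ℝ) / x) atTop (𝓝 d)) : d ≤ 3 / 4 := by
  by_contra hcon
  push Not at hcon
  set c : ℝ := d - 3 / 4 with hc
  have hc0 : 0 < c := by linarith
  set F : ℕ → ℝ := fun x => (cnt (E \ A) x : ℝ) with hF
  have h3 : Tendsto (fun x : ℕ => (cnt A (3 * x) : ℝ) / ((3 * x : ℕ) : ℝ)) atTop (𝓝 d) :=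
    hd.comp (tendsto_id.const_mul_atTop' (by norm_num))
  have hev : ∀ᶠ x : ℕ in atTop, F (3 * x) ≤ F x + F (2 * x) - c * x := by
    filter_upwards [h3.eventually (lt_mem_nhds (show d - c / 3 < d by linarith)),
      tendsto_E.eventually (lt_mem_nhds (show 3 / 4 - c < (3 / 4 : ℝ) by linarith)),
      eventually_gt_atTop 0] with x h1 h2 hx
    have hx' : (0 : ℝ) < x := by exact_mod_cast hx
    rw [lt_div_iff₀ (by positivity)] at h1 h2
    have hk : (cnt E x : ℝ) + cnt (E \ A) (3 * x) + cnt A (3 * x)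
        ≤ cnt (E \ A) x + cnt (E \ A) (2 * x) + 3 * x := by exact_mod_cast key A hA x
    push_cast at h1
    simp only [hF]
    have : d = c + 3 / 4 := by linarith
    rw [this] at h1
    nlinarith
  obtain ⟨X, hX⟩ := eventually_atTop.mp hev
  have hP : ∀ k : ℕ, ∃ C : ℝ, 0 ≤ C ∧ ∀ y : ℕ, F y ≤ (1 - k * (c / 3)) * y + C := by
    intro k
    induction k with
    | zero =>
      refine ⟨0, le_refl _, fun y => ?_⟩
      simp only [hF]
      have : (cnt (E \ A) y : ℝ) ≤ y := by exact_mod_cast cnt_le _ y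
      simpa using this
    | succ k ih =>
      obtain ⟨C, hC0, hC⟩ := ih
      set t : ℝ := ((k + 1 : ℕ) : ℝ) * (c / 3) with ht
      have ht0 : 0 ≤ t := by positivity
      refine ⟨2 * C + 2 * t + t * (3 * X), by positivity, fun y => ?_⟩
      by_cases hy : y < 3 * X
      · have h1 : F y ≤ y := by
          simp only [hF]; exact_mod_cast cnt_le _ y
        have h2 : (y : ℝ) ≤ 3 * X := by exact_mod_cast hy.le
        nlinarith
      · have h1 := hX (y / 3) (by omega)
        have h2 := hC (y / 3)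
        have h3 := hC (2 * (y / 3))
        have h4 : F y ≤ F (3 * (y / 3)) + (y % 3 : ℕ) := by
          simp only [hF]
          have := cnt_add_le (E \ A) (3 * (y / 3)) (y % 3)
          rw [Nat.div_add_mod] at this
          exact_mod_cast this
        have h5 : (y : ℝ) = 3 * (y / 3 : ℕ) + (y % 3 : ℕ) := by
          exact_mod_cast (Nat.div_add_mod y 3).symm
        have h6 : ((y % 3 : ℕ) : ℝ) ≤ 2 := by exact_mod_cast (by omega : y % 3 ≤ 2)
        have h7 : (0 : ℝ) ≤ t * (3 * X) := by positivity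
        have h8 : t = k * (c / 3) + c / 3 := by rw [ht]; push_cast; ring
        push_cast at h3
        set q : ℝ := ((y / 3 : ℕ) : ℝ)
        set r : ℝ := ((y % 3 : ℕ) : ℝ)
        have h9 : t * r ≤ 2 * t := by nlinarith
        have h10 : (1 - t) * y = 3 * q - 3 * (k * (c / 3) * q) - c * q + r - t * r := by
          rw [h5, h8]; ring
        rw [h10]
        nlinarith
  obtain ⟨k, hk⟩ := exists_nat_gt (6 / c)
  obtain ⟨C, hC0, hC⟩ := hP k
  obtain ⟨y, hy⟩ := exists_nat_gt C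
  have h1 := hC y
  have h2 : 0 ≤ F y := by simp only [hF]; positivity
  rw [div_lt_iff₀ hc0] at hk
  have h3 : (0 : ℝ) ≤ y := by positivity
  nlinarith

end Pool.Agent.H56.Dens123
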