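import Pool.Agent.H56.SymbK4

set_option autoImplicit false

namespace Pool.Agent.H56.HS

open MvPolynomial Finset RingTheory.Sequence

section ring
variable {R : Type*} [CommRing R]

theorem mk_mem_smul (J A : Ideal R) (x : R) :
    Ideal.Quotient.mk J x ∈ (A • ⊤ : Submodule R (R ⧸ J)) ↔ x ∈ A ⊔ J := by
  rw [Ideal.smul_top_eq_map, Submodule.restrictScalars_mem, ← Ideal.mem_quotient_iff_mem_sup]
  rfl

theorem reg_iff (J : Ideal R) (rs : List R) : IsRegular (R ⧸ J) rs ↔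
    (∀ i (h : i < rs.length), ∀ f, rs[i] * f ∈ Ideal.ofList (rs.take i) ⊔ J →
      f ∈ Ideal.ofList (rs.take i) ⊔ J) ∧ (1 : R) ∉ Ideal.ofList rs ⊔ J := by
  rw [isRegular_iff, isWeaklyRegular_iff]
  refine and_congr (forall₂_congr fun i h => ?_) ?_
  · rw [isSMulRegular_quotient_iff_mem_of_smul_mem]
    constructor
    · intro h1 f hf
      rw [← mk_mem_smul] at hf ⊢
      exact h1 _ hf
    · intro h1 x hx
      obtain ⟨f, rfl⟩ := Ideal.Quotient.mk_surjective x
      exact (mk_mem_smul _ _ _).2 (h1 f ((mk_mem_smul _ _ _).1 hx))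
  · rw [← mk_mem_smul, ne_eq, eq_comm, Submodule.eq_top_iff']
    refine not_congr ⟨fun h => h _, fun h x => ?_⟩
    obtain ⟨f, rfl⟩ := Ideal.Quotient.mk_surjective x
    have := Submodule.smul_mem _ f h
    change Ideal.Quotient.mk J (f * 1) ∈ _ at this
    rwa [mul_one] at this

theorem exists_reg [IsNoetherianRing R] (A m : Ideal R)
    (h : ∀ g, (∀ x ∈ m, x * g ∈ A) → g ∈ A) : ∃ y ∈ m, ∀ f, y * f ∈ A → f ∈ A := by
  by_contra hn
  push Not at hn
  obtain ⟨P, hP, hm⟩ : ∃ P ∈ associatedPrimes R (R ⧸ A), m ≤ P :=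
    (m.subset_union_prime_finite (associatedPrimes.finite ..) (f := id) 0 0
      fun _ h _ _ => h.1).1 (by
        change _ ⊆ ⋃ p ∈ associatedPrimes R (R ⧸ A), (p : Set R)
        rw [biUnion_associatedPrimes_eq_zero_divisors]
        intro y hy
        obtain ⟨f, h1, h2⟩ := hn y hy
        exact ⟨Ideal.Quotient.mk A f, fun e => h2 (Ideal.Quotient.eq_zero_iff_mem.1 e),
          Ideal.Quotient.eq_zero_iff_mem.2 h1⟩)
  rw [AssociatedPrimes.mem_iff, isAssociatedPrime_iff] at hP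
  obtain ⟨hP, x, rfl⟩ := hP
  obtain ⟨g, rfl⟩ := Ideal.Quotient.mk_surjective x
  have : g ∈ A := h g fun x hx => by
    have := hm hx
    rw [Submodule.mem_colon_singleton, Submodule.mem_bot] at this
    exact Ideal.Quotient.eq_zero_iff_mem.1 this
  refine hP.ne_top ?_
  rw [Ideal.Quotient.eq_zero_iff_mem.2 this]
  simp

end ring

variable {n : ℕ} {K : Type*} [Field K]

theorem X_mem_PC (C : Finset (Fin n)) (j : Fin n) : (X j : MvPolynomial (Fin n) K) ∈ PC K C ↔ j ∈ C := by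
  rw [mem_PC, support_X]
  simp only [mem_singleton, forall_eq, Finsupp.single_apply, sum_ite_eq]
  split_ifs <;> simp [*]

theorem mem_PC_pow (C : Finset (Fin n)) (k : ℕ) (g : MvPolynomial (Fin n) K) :
    g ∈ PC K C ^ k ↔ ∀ m ∈ g.support, k ≤ ∑ j ∈ C, m j := by
  constructor
  · intro h
    rw [← ph_dvd, ← Ideal.mem_span_singleton, ← Ideal.span_singleton_pow]
    exact Ideal.le_comap_pow _ k h
  · intro h
    rw [g.as_sum]
    refine Ideal.sum_mem _ fun m hm => ?_
    rw [monomial_eq, Finsupp.prod_fintype _ _ (by simp), ← prod_mul_prod_compl C]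
    refine Ideal.mul_mem_left _ _ (Ideal.mul_mem_right _ _ (Ideal.pow_le_pow_right (h m hm) ?_))
    rw [← prod_pow_eq_pow_sum]
    exact Ideal.prod_mem_prod fun j hj => Ideal.pow_mem_pow ((X_mem_PC C j).2 hj) _

theorem PC_pow_cancel (C : Finset (Fin n)) (k : ℕ) {y f : MvPolynomial (Fin n) K}
    (hy : y ∉ PC K C) (h : y * f ∈ PC K C ^ k) : f ∈ PC K C ^ k := by
  rw [mem_PC_pow, ← ph_dvd] at h ⊢
  rw [map_mul] at h
  exact Polynomial.prime_X.pow_dvd_of_dvd_mul_left k (fun h => hy ((mem_PC' C y).2 h)) h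

def trans (F : Finset (Finset (Fin n))) : Set (Finset (Fin n)) := {s | ∀ C ∈ F, ∃ j ∈ C, j ∈ s}

theorem span_trans (F : Finset (Finset (Fin n))) :
    Ideal.span ((fun s : Finset (Fin n) =>
      monomial (∑ i ∈ s, Finsupp.single i 1) (1 : K)) '' trans F) = F.inf (PC K) := by
  have e : ((fun s : Finset (Fin n) => monomial (∑ i ∈ s, Finsupp.single i 1) (1 : K)) '' trans F) =
      (fun m => monomial m (1 : K)) '' (eT '' trans F) := by
    rw [Set.image_image]; rfl
  have ev : ∀ (s : Finset (Fin n)) j, eT s j = if j ∈ s then 1 else 0 := fun s j => by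
    simp [eT, Finsupp.finsetSum_apply, Finsupp.single_apply]
  ext g
  rw [e, mem_ideal_span_monomial_image, Submodule.mem_finsetInf]
  simp only [mem_PC]
  constructor
  · intro h C hC m hm
    obtain ⟨_, ⟨s, hs, rfl⟩, h1⟩ := h m hm
    obtain ⟨j, h2, h3⟩ := hs C hC
    have := h1 j
    rw [ev, if_pos h3] at this
    exact this.trans (single_le_sum (f := fun j => m j) (fun _ _ => Nat.zero_le _) h2)
  · intro h m hm
    refine ⟨_, ⟨m.support, fun C hC => ?_, rfl⟩, fun j => ?_⟩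
    · obtain ⟨j, h4, h5⟩ := exists_ne_zero_of_sum_ne_zero (Nat.one_le_iff_ne_zero.1 (h C hC m hm))
      exact ⟨j, h4, Finsupp.mem_support_iff.2 h5⟩
    · rw [ev]
      split_ifs with h1
      · have := Finsupp.mem_support_iff.1 h1
        omega
      · omega

theorem minP (F : Finset (Finset (Fin n))) (hF : ∀ C ∈ F, ∀ D ∈ F, C ⊆ D → C = D)
    (P : Ideal (MvPolynomial (Fin n) K)) :
    P ∈ (F.inf (PC K)).minimalPrimes ↔ ∃ C ∈ F, P = PC K C := by
  constructor
  · rintro ⟨⟨h1, h2⟩, h3⟩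
    obtain ⟨C, hC, h4⟩ := h1.inf_le'.1 h2
    exact ⟨C, hC, le_antisymm (h3 ⟨PC_prime C, inf_le hC⟩ h4) h4⟩
  · rintro ⟨C, hC, rfl⟩
    refine ⟨⟨PC_prime C, inf_le hC⟩, ?_⟩
    rintro Q ⟨h1, h2⟩ h3
    obtain ⟨D, hD, h4⟩ := h1.inf_le'.1 h2
    have := hF D hD C hC fun j hj => (X_mem_PC C j).1 (h3 (h4 ((X_mem_PC D j).2 hj)))
    exact this ▸ h4

noncomputable def JF (K : Type*) [Field K] (F : Finset (Finset (Fin n))) (k : ℕ) :
    Ideal (MvPolynomial (Fin n) K) := F.inf fun C => PC K C ^ k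

theorem symb_eq (F : Finset (Finset (Fin n))) (hF : ∀ C ∈ F, ∀ D ∈ F, C ⊆ D → C = D) (k : ℕ) :
    ⨅ P ∈ Ideal.minimalPrimes (Ideal.span ((fun s : Finset (Fin n) =>
      monomial (∑ i ∈ s, Finsupp.single i 1) (1 : K)) '' trans F)), P ^ k = JF K F k := by
  rw [span_trans]
  ext g
  simp only [Ideal.mem_iInf, minP F hF, JF, Submodule.mem_finsetInf]
  exact ⟨fun h C hC => h _ ⟨C, hC, rfl⟩, by rintro h _ ⟨C, hC, rfl⟩; exact h C hC⟩

theorem mem_JF (F : Finset (Finset (Fin n))) (k : ℕ) (g : MvPolynomial (Fin n) K) :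
    g ∈ JF K F k ↔ ∀ m : Fin n →₀ ℕ, (∃ C ∈ F, ∑ j ∈ C, m j < k) → coeff m g = 0 := by
  simp only [JF, Submodule.mem_finsetInf, mem_PC_pow, mem_support_iff]
  constructor
  · rintro h m ⟨C, hC, h1⟩
    by_contra h2
    exact absurd (h C hC m h2) (not_le.2 h1)
  · intro h C hC m hm
    by_contra h1
    exact hm (h m ⟨C, hC, not_le.1 h1⟩)

theorem JF_cancel (F : Finset (Finset (Fin n))) (k : ℕ) {y f : MvPolynomial (Fin n) K}
    (hy : ∀ C ∈ F, y ∉ PC K C) (h : y * f ∈ JF K F k) : f ∈ JF K F k := by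
  simp only [JF, Submodule.mem_finsetInf] at h ⊢
  exact fun C hC => PC_pow_cancel C k (hy C hC) (h C hC)

theorem mem_mX (y : MvPolynomial (Fin n) K) :
    y ∈ Ideal.span (Set.range (X : Fin n → MvPolynomial (Fin n) K)) ↔ coeff 0 y = 0 := by
  rw [← Set.image_univ, mem_ideal_span_X_image]
  constructor
  · intro h
    by_contra h1
    simpa using h 0 (mem_support_iff.2 h1)
  · intro h m hm
    by_contra h1
    have : m = 0 := by
      ext j
      by_contra h2
      exact h1 ⟨j, trivial, h2⟩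
    exact mem_support_iff.1 hm (this ▸ h)

end Pool.Agent.H56.HS
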