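import Mathlib

set_option autoImplicit false

namespace Pool.Agent.H56.Der

open Filter Topology Set Metric

def Dar (f : ℝ → ℝ) : Prop := ∀ a b, ∀ w ∈ uIcc (f a) (f b), ∃ t ∈ uIcc a b, f t = w

def B1 (f : ℝ → ℝ) : Prop :=
  ∃ u : ℕ → ℝ → ℝ, (∀ m, Continuous (u m)) ∧ ∀ y, Tendsto (u · y) atTop (𝓝 (f y))

theorem Dar.near {f : ℝ → ℝ} (h : Dar f) {s t r : ℝ} (hst : t ≠ s) (hr : 0 < r) :
    ∃ w ∈ uIcc s t, w ≠ s ∧ |f w - f s| < r := by
  by_cases h1 : |f t - f s| < r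
  · exact ⟨t, right_mem_uIcc, hst, h1⟩
  rcases le_abs'.1 (not_lt.1 h1) with h2 | h2
  · obtain ⟨w, w1, w2⟩ := h s t (f s - r / 2) (mem_uIcc.2 (Or.inr ⟨by linarith, by linarith⟩))
    exact ⟨w, w1, by rintro rfl; linarith, abs_lt.2 ⟨by linarith, by linarith⟩⟩
  · obtain ⟨w, w1, w2⟩ := h s t (f s + r / 2) (mem_uIcc.2 (Or.inl ⟨by linarith, by linarith⟩))
    exact ⟨w, w1, by rintro rfl; linarith, abs_lt.2 ⟨by linarith, by linarith⟩⟩

theorem B1.gd {f : ℝ → ℝ} (h : B1 f) : IsGδ {q : ℝ × ℝ | q.2 = f q.1} := by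
  obtain ⟨u, h1, h2⟩ := h
  have : {q : ℝ × ℝ | q.2 = f q.1} = ⋂ k : ℕ, ⋃ m ≥ k, {q | dist (u m q.1) q.2 < 1 / (k + 1)} := by
    ext ⟨y, z⟩
    simp only [Set.mem_ofPred_eq, mem_iInter, mem_iUnion]
    constructor
    · rintro rfl k
      obtain ⟨m, a1, a2⟩ := ((Metric.tendsto_nhds.1 (h2 y) _ (Nat.one_div_pos_of_nat (n := k))).and
        (eventually_ge_atTop k)).exists
      exact ⟨m, a2, a1⟩
    · intro h
      refine eq_of_forall_dist_le fun ε hε => ?_
      obtain ⟨k, a1, a2⟩ := ((eventually_atTop.1 (Metric.tendsto_nhds.1 (h2 y) _ (half_pos hε))).elim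
        fun N hN => (eventually_ge_atTop N).mono fun k hk m (hm : k ≤ m) => hN m (hk.trans hm)).and
        (tendsto_one_div_add_atTop_nhds_zero_nat.eventually (eventually_lt_nhds (half_pos hε)))
        |>.exists
      obtain ⟨m, b1, b2⟩ := h k
      have := dist_triangle_left z (f y) (u m y)
      linarith [a1 m b1]
  rw [this]
  exact .iInter fun k => (isOpen_biUnion fun m _ => isOpen_lt (by fun_prop) continuous_const).isGδ

theorem cont_pt {Y : Type} [TopologicalSpace Y] [BaireSpace Y] [Nonempty Y] {u : ℕ → Y → ℝ}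
    {f : Y → ℝ} (h1 : ∀ m, Continuous (u m)) (h2 : ∀ y, Tendsto (u · y) atTop (𝓝 (f y))) :
    ∃ p, ContinuousAt f p := by
  let S : ℕ → ℕ → Set Y := fun k m => ⋂ i ≥ m, {y | dist (u i y) (u m y) ≤ 1 / (k + 1)}
  have a1 : ∀ k, Dense (⋃ m, interior (S k m)) := fun k =>
    dense_iUnion_interior_of_closed (fun m => isClosed_biInter fun i _ =>
      isClosed_le (by fun_prop) continuous_const) (eq_univ_of_forall fun y => by
        obtain ⟨m, hm⟩ := Metric.cauchySeq_iff'.1 (h2 y).cauchySeq _ (Nat.one_div_pos_of_nat (n := k))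
        exact mem_iUnion.2 ⟨m, mem_iInter₂.2 fun i hi => (hm i hi).le⟩)
  obtain ⟨p, hp⟩ := (dense_iInter_of_isOpen (fun k => isOpen_iUnion fun m => isOpen_interior)
    a1).nonempty
  refine ⟨p, Metric.tendsto_nhds.2 fun ε hε => ?_⟩
  obtain ⟨k, hk⟩ := exists_nat_one_div_lt (show 0 < ε / 3 by positivity)
  obtain ⟨m, hm⟩ := mem_iUnion.1 (mem_iInter.1 hp k)
  have a2 : ∀ y ∈ S k m, dist (f y) (u m y) ≤ 1 / (k + 1) := fun y hy =>
    le_of_tendsto ((h2 y).dist tendsto_const_nhds)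
      ((eventually_ge_atTop m).mono fun i hi => mem_iInter₂.1 hy i hi)
  filter_upwards [mem_interior_iff_mem_nhds.1 hm, Metric.tendsto_nhds.1 (h1 m).continuousAt _
    (show 0 < ε / 3 by positivity)] with y b1 b2
  have := dist_triangle4_right (f y) (f p) (u m y) (u m p)
  linarith [a2 y b1, a2 p (interior_subset hm)]

def ch (g : ℕ → ℝ → ℝ) : ℕ → ℝ → ℝ
  | 0, x => x
  | j + 1, x => g j (ch g j x)

variable {g : ℕ → ℝ → ℝ} {n : ℕ}

theorem ch_add (g : ℕ → ℝ → ℝ) (i j : ℕ) (x : ℝ) :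
    ch g (i + j) x = ch (fun k => g (i + k)) j (ch g i x) := by
  induction j with
  | zero => rfl
  | succ j ih => exact congrArg (g (i + j)) ih

theorem box (h : ∀ i, Dar (g i)) (x x' : ℝ) (m : ℕ) : ∀ w ∈ uIcc (ch g m x) (ch g m x'),
    ∃ y, ch g m y = w ∧ ∀ j ≤ m, ch g j y ∈ uIcc (ch g j x) (ch g j x') := by
  induction m with
  | zero => exact fun w hw => ⟨w, rfl, fun j hj => by obtain rfl : j = 0 := by omega
                                                      exact hw⟩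
  | succ m ih =>
    intro w hw
    obtain ⟨t, t1, t2⟩ := h m _ _ w hw
    obtain ⟨y, y1, y2⟩ := ih t t1
    have e : ch g (m + 1) y = w := by rw [← t2, ← y1]; rfl
    refine ⟨y, e, fun j hj => ?_⟩
    rcases hj.eq_or_lt with rfl | hj
    · rwa [e]
    · exact y2 j (by omega)

theorem uabs {a b c r : ℝ} (h : c ∈ uIcc a b) (hr : |b - a| < r) : |c - a| < r :=
  (abs_sub_left_of_mem_uIcc h).trans_lt hr

theorem bil (h : ∀ i, Dar (g i)) {s t r : ℝ} (hst : t ≠ s) (hr : 0 < r) (m : ℕ) :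
    ∃ w ∈ uIcc s t, w ≠ s ∧ ∀ j ≤ m, |ch g j w - ch g j s| < r := by
  induction m with
  | zero =>
    obtain ⟨w, a1, a2, a3⟩ := Dar.near (f := id) (fun a b w hw => ⟨w, hw, rfl⟩) hst hr
    exact ⟨w, a1, a2, fun j hj => by obtain rfl : j = 0 := by omega
                                     exact a3⟩
  | succ m ih =>
    obtain ⟨w, a1, a2, a3⟩ := ih
    by_cases hc : ch g m w = ch g m s
    · refine ⟨w, a1, a2, fun j hj => ?_⟩
      rcases hj.eq_or_lt with rfl | hj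
      · simpa [ch, hc] using hr
      · exact a3 j (by omega)
    obtain ⟨v, b1, b2, b3⟩ := (h m).near hc hr
    obtain ⟨y, rfl, c2⟩ := box h s w m v b1
    refine ⟨y, uIcc_subset_uIcc left_mem_uIcc a1 (c2 0 (by omega)), by rintro rfl; exact b2 rfl,
      fun j hj => ?_⟩
    rcases hj.eq_or_lt with rfl | hj
    · exact b3
    · exact uabs (c2 j (by omega)) (a3 j (by omega))

theorem bar (h : ∀ i, Dar (g i)) (p : ℝ) {r : ℝ} (hr : 0 < r) (m i : ℕ) {t : ℝ} (ht : t ≠ ch g i p) :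
    ∃ T ∈ uIcc (ch g i p) t, T ≠ ch g i p ∧ |T - ch g i p| < r ∧
      ∀ x, ch g i x = T → |ch g (i + m) x - ch g (i + m) p| < r := by
  obtain ⟨w, a1, a2, a3⟩ := bil (g := fun k => g (i + k)) (fun k => h _) ht hr m
  exact ⟨w, a1, a2, a3 0 (by omega), fun x hx => by rw [ch_add, ch_add, hx]; exact a3 m le_rfl⟩

def Z (_g : ℕ → ℝ → ℝ) (_n : ℕ) : Type := ℝ

def gam (g : ℕ → ℝ → ℝ) (n : ℕ) (x : Z g n) : Fin (n + 1) → ℝ := fun j => ch g j x

noncomputable instance : PseudoMetricSpace (Z g n) := .induced (gam g n) inferInstance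

theorem dist_lt {x y : Z g n} {r : ℝ} (hr : 0 < r) :
    dist x y < r ↔ ∀ j ≤ n, |ch g j x - ch g j y| < r :=
  (dist_pi_lt_iff hr).trans ⟨fun h j hj => h ⟨j, by omega⟩, fun h j => h j (by omega)⟩

theorem cont {j : ℕ} (hj : j ≤ n) : Continuous fun x : Z g n => ch g j x :=
  (continuous_apply (⟨j, by omega⟩ : Fin (n + 1))).comp (continuous_induced_dom (f := gam g n))

theorem gd (h : ∀ i, B1 (g i)) : IsGδ (range (gam g n)) := by
  have : range (gam g n) = ⋂ j : Fin n, (fun p => (p j.castSucc, p j.succ)) ⁻¹'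
      {q : ℝ × ℝ | q.2 = g j q.1} := by
    ext p
    simp only [mem_iInter, mem_preimage, Set.mem_ofPred_eq]
    refine ⟨by rintro ⟨x, rfl⟩ j; rfl, fun hp => ⟨p 0, funext fun ⟨j, hj⟩ => ?_⟩⟩
    induction j with
    | zero => rfl
    | succ j ih => exact (congrArg (g j) (ih (by omega))).trans (hp ⟨j, by omega⟩).symm
  rw [this]
  exact .iInter fun j => (h j).gd.preimage (by fun_prop)

theorem cont_on (h : ∀ i, B1 (g i)) {D : Set (Z g n)} (h1 : IsClosed D) (h2 : D.Nonempty) :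
    ∃ p ∈ D, ∀ ε > 0, ∃ r > 0, ∀ x ∈ D, dist x p < r → |ch g (n + 1) x - ch g (n + 1) p| < ε := by
  obtain ⟨C, c1, rfl⟩ := isClosed_induced_iff.1 h1
  have := ((gd (n := n) h).inter c1.isGδ).baireSpace_of_t2Space_locallyCompactSpace
  obtain ⟨x, hx⟩ := h2
  have : Nonempty ↥(range (gam g n) ∩ C) := ⟨⟨_, mem_range_self x, hx⟩⟩
  obtain ⟨u, u1, u2⟩ := h n
  obtain ⟨⟨_, ⟨p, rfl⟩, p1⟩, hp⟩ := cont_pt (Y := ↥(range (gam g n) ∩ C))
    (u := fun m q => u m (q.1 (Fin.last n)))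
    (fun m => (u1 m).comp ((continuous_apply _).comp continuous_subtype_val)) fun q => u2 _
  refine ⟨p, p1, fun ε hε => ?_⟩
  obtain ⟨r, r0, hr⟩ := Metric.continuousAt_iff.1 hp ε hε
  exact ⟨r, r0, fun y hy h => hr (x := ⟨_, mem_range_self y, hy⟩) h⟩

end Pool.Agent.H56.Der
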