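import Pool.Agent.H56.Der1

set_option autoImplicit false

namespace Pool.Agent.H56.Der

open Filter Topology Set Metric

variable {g : ℕ → ℝ → ℝ} {n : ℕ}

theorem core (h : ∀ i, Dar (g i)) [PreconnectedSpace (Z g n)] {A : Set (Z g n)} {p : Z g n}
    (p1 : p ∈ frontier A) (p2 : p ∉ A) {ε : ℝ} (hε : 0 < ε)
    (h1 : ∀ x, (∀ j ≤ n + 1, |ch g j x - ch g j p| < ε) → x ∉ A) {r : ℝ} (hr : 0 < r)
    (h2 : ∀ x ∈ frontier A, dist x p < r → |ch g (n + 1) x - ch g (n + 1) p| < ε) : False := by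
  wlog hre : r ≤ ε generalizing r
  · exact this hε (fun x hx hx' => h2 x hx (by linarith)) le_rfl
  let Bar := {w | |g n w - ch g (n + 1) p| < ε}
  have a3 : ∀ x : Z g n, dist x p < r → ch g n x ∈ Bar → x ∉ A := fun x hx hb => h1 x fun j hj => by
    rcases hj.eq_or_lt with rfl | hj
    · exact hb
    · exact ((dist_lt hr).1 hx j (by omega)).trans_le hre
  choose T t1 t2 t3 t4 using fun i =>
    bar h p hr (n + 1 - i) i (t := ch g i p + 1) (by linarith [zero_lt_one' ℝ])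
  choose S s1 s2 s3 s4 using fun i =>
    bar h p hr (n + 1 - i) i (t := ch g i p - 1) (by linarith [zero_lt_one' ℝ])
  let O := ⋂ i ∈ Iic n, {x : Z g n | ch g i x ∈ Ioo (S i) (T i)}
  let K := ⋂ i ∈ Iic n, {x : Z g n | ch g i x ∈ Icc (S i) (T i)}
  have o1 : IsOpen O := (finite_Iic n).isOpen_biInter fun i hi => isOpen_Ioo.preimage (cont hi)
  have k1 : IsClosed K := isClosed_biInter fun i hi => isClosed_Icc.preimage (cont hi)
  have o2 : O ⊆ K := iInter₂_mono fun i _ x hx => Ioo_subset_Icc_self hx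
  have k2 : ∀ x ∈ K, dist x p < r := fun x hx => (dist_lt hr).2 fun j hj => by
    have := mem_iInter₂.1 hx j hj
    exact abs_lt.2 ⟨by linarith [this.1, (abs_lt.1 (s3 j)).1], by linarith [this.2, (abs_lt.1 (t3 j)).2]⟩
  have k3 : ∀ x ∈ K, ch g n x ∉ Bar → x ∈ O := fun x hx hb => mem_iInter₂.2 fun j hj => by
    have e : j + (n + 1 - j) = n + 1 := by have : j ≤ n := hj
                                           omega
    have := mem_iInter₂.1 hx j hj
    refine ⟨this.1.lt_of_ne fun h => hb ?_, this.2.lt_of_ne fun h => hb ?_⟩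
    · exact (e ▸ s4 j x h.symm : |ch g (n + 1) x - ch g (n + 1) p| < r).trans_le hre
    · exact (e ▸ t4 j x h : |ch g (n + 1) x - ch g (n + 1) p| < r).trans_le hre
  obtain ⟨a, a1, a2⟩ := mem_closure_iff.1 p1.1 O o1 (mem_iInter₂.2 fun i _ =>
    ⟨((uIcc_of_ge (by linarith : ch g i p - 1 ≤ ch g i p)).subset (s1 i)).2.lt_of_ne (s2 i),
      ((uIcc_of_le (by linarith : ch g i p ≤ ch g i p + 1)).subset (t1 i)).1.lt_of_ne (t2 i).symm⟩)
  have a4 : ch g n a ∉ Bar := fun hb => a3 a (k2 a (o2 a1)) hb a2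
  let F := {x : Z g n | x ∈ A ∧ x ∈ K ∧ ∀ w ∈ uIcc (ch g n a) (ch g n x), w ∉ Bar}
  have f0 : ∀ x ∈ closure A, x ∈ K → ch g n x ∉ Bar → x ∈ interior A := fun x x1 x2 x3 => by
    by_contra hc
    exact x3 (h2 x ⟨x1, hc⟩ (k2 x x2))
  have f1 : IsOpen F := isOpen_iff_mem_nhds.2 fun x hx => by
    have b1 := hx.2.2 _ right_mem_uIcc
    obtain ⟨ρ, ρ0, hρ⟩ := Metric.isOpen_iff.1 (isOpen_interior.inter o1) x
      ⟨f0 x (subset_closure hx.1) hx.2.1 b1, k3 x hx.2.1 b1⟩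
    refine mem_of_superset (ball_mem_nhds x ρ0) fun y hy =>
      ⟨interior_subset (hρ hy).1, o2 (hρ hy).2, fun w hw hb => ?_⟩
    rcases uIcc_subset_uIcc_union_uIcc (b := ch g n x) hw with hw | hw
    · exact hx.2.2 w hw hb
    obtain ⟨z, rfl, z2⟩ := box h x y n w hw
    have : (z : Z g n) ∈ ball x ρ := (dist_lt ρ0).2 fun j hj =>
      uabs (z2 j hj) ((dist_lt ρ0).1 hy j hj)
    exact a3 z (k2 z (o2 (hρ this).2)) hb (interior_subset (hρ this).1)
  have f2 : IsClosed F := isClosed_of_closure_subset fun x hx => by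
    have b1 : x ∈ K := closure_minimal (fun y hy => hy.2.1) k1 hx
    have b2 : ∀ w ∈ uIcc (ch g n a) (ch g n x), w ≠ ch g n x → w ∉ Bar := fun w hw hn => by
      obtain ⟨y, y1, y2⟩ := Metric.mem_closure_iff.1 hx _ (abs_pos.2 (sub_ne_zero.2 hn))
      have := (dist_lt (abs_pos.2 (sub_ne_zero.2 hn))).1 y2 n le_rfl
      rcases uIcc_subset_uIcc_union_uIcc (b := ch g n y) hw with hw | hw
      · exact y1.2.2 w hw
      · rw [uIcc_comm] at hw
        rw [abs_sub_comm] at this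
        exact absurd (uabs hw this) (lt_irrefl _)
    have b3 : ch g n x ∉ Bar := fun hb => by
      have hb' : |g n (ch g n x) - ch g (n + 1) p| < ε := hb
      obtain ⟨w, w1, w2, w3⟩ := (h n).near (s := ch g n x) (t := ch g n a)
        (fun e => a4 (e ▸ hb)) (sub_pos.2 hb')
      refine b2 w (by rwa [uIcc_comm]) w2 ?_
      have := abs_sub_le (g n w) (g n (ch g n x)) (ch g (n + 1) p)
      show |g n w - ch g (n + 1) p| < ε
      linarith
    refine ⟨interior_subset (f0 x (closure_mono (fun y hy => hy.1) hx) b1 b3), b1, fun w hw => ?_⟩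
    by_cases hn : w = ch g n x
    · exact hn ▸ b3
    · exact b2 w hw hn
  have := IsClopen.eq_univ ⟨f2, f1⟩ ⟨a, a2, o2 a1, by simpa using a4⟩
  exact p2 (show p ∈ F from this ▸ mem_univ p).1

theorem conn (h : ∀ i, Dar (g i)) (h' : ∀ i, B1 (g i)) (n : ℕ) : PreconnectedSpace (Z g n) := by
  induction n with
  | zero =>
    let e : ℝ → Z g 0 := fun x => x
    have : Continuous e := continuous_induced_rng.2 (continuous_pi fun j => by
      obtain rfl : j = 0 := Fin.ext (by omega)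
      exact continuous_id)
    exact ⟨(show range e = univ from range_eq_univ.2 fun x => ⟨x, rfl⟩) ▸ isPreconnected_range this⟩
  | succ n ih =>
    refine ⟨isPreconnected_iff_subset_of_disjoint.2 fun U V hU hV h1 h2 => ?_⟩
    have e : V = Uᶜ := by
      rw [univ_inter] at h2
      exact (eq_compl_iff_isCompl.2 ⟨disjoint_iff_inter_eq_empty.2 (by rwa [inter_comm]),
        codisjoint_iff.2 (by rw [sup_comm]; exact univ_subset_iff.1 h1)⟩)
    subst e
    by_contra hc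
    let A : Set (Z g n) := U
    have a1 : (frontier A).Nonempty := nonempty_frontier_iff.2
      ⟨nonempty_iff_ne_empty.2 fun h0 => hc (Or.inr (by rw [show U = ∅ from h0]; simp)),
        fun h0 => hc (Or.inl (by rw [show U = univ from h0]))⟩
    obtain ⟨p, p1, p2⟩ := cont_on h' isClosed_frontier a1
    by_cases hp : p ∈ A
    · obtain ⟨ε, hε, a2⟩ := Metric.isOpen_iff.1 hU p hp
      obtain ⟨r, hr, a3⟩ := p2 ε hε
      exact core h (A := Aᶜ) (by rwa [frontier_compl]) (fun h => h hp) hε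
        (fun x hx h => h (a2 ((dist_lt hε).2 hx))) hr (by rwa [frontier_compl])
    · obtain ⟨ε, hε, a2⟩ := Metric.isOpen_iff.1 hV p hp
      obtain ⟨r, hr, a3⟩ := p2 ε hε
      exact core h p1 hp hε (fun x hx => a2 ((dist_lt hε).2 hx)) hr a3

noncomputable def cl (x : ℝ) : ℝ := max 0 (min x 1)

theorem cl_mem (x : ℝ) : cl x ∈ Icc (0 : ℝ) 1 :=
  ⟨le_max_left _ _, max_le zero_le_one (min_le_right _ _)⟩

theorem cl_eq {x : ℝ} (h : x ∈ Icc (0 : ℝ) 1) : cl x = x := by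
  rw [cl, min_eq_left h.2, max_eq_right h.1]

theorem cl_cont : Continuous cl := by
  unfold cl
  fun_prop

theorem cl_dar : Dar cl := fun _ _ _ hw => intermediate_value_uIcc cl_cont.continuousOn hw

theorem der {f F : ℝ → ℝ} (h : ∀ x ∈ Icc (0 : ℝ) 1, HasDerivWithinAt F (f x) (Icc 0 1) x) :
    Dar (f ∘ cl) ∧ B1 (f ∘ cl) := by
  refine ⟨fun a b w hw => ?_, ?_⟩
  · have s1 : uIcc (cl a) (cl b) ⊆ Icc 0 1 := ordConnected_Icc.uIcc_subset (cl_mem a) (cl_mem b)
    obtain ⟨t, t1, rfl⟩ := (ordConnected_uIcc.image_hasDerivWithinAt fun x hx =>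
      (h x (s1 hx)).mono s1).uIcc_subset ⟨_, left_mem_uIcc, rfl⟩ ⟨_, right_mem_uIcc, rfl⟩ hw
    obtain ⟨s, s2, rfl⟩ := cl_dar a b t t1
    exact ⟨s, s2, rfl⟩
  have c : ContinuousOn F (Icc 0 1) := fun x hx => (h x hx).continuousWithinAt
  have m1 : ∀ y ∈ Icc (0 : ℝ) 1, ∀ t ∈ Icc (0 : ℝ) 1, y + t * (1 - y) ∈ Icc (0 : ℝ) 1 :=
    fun y hy t ht => ⟨by nlinarith [hy.1, hy.2, ht.1], by nlinarith [hy.1, hy.2, ht.2]⟩
  have m2 : ∀ y ∈ Icc (0 : ℝ) 1, ∀ t ∈ Icc (0 : ℝ) 1, y - t * y ∈ Icc (0 : ℝ) 1 :=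
    fun y hy t ht => ⟨by nlinarith [hy.1, hy.2, ht.2], by nlinarith [hy.1, hy.2, ht.1]⟩
  have m3 : ∀ m : ℕ, 1 / ((m : ℝ) + 1) ∈ Icc (0 : ℝ) 1 := fun m =>
    ⟨by positivity, (div_le_one (by positivity)).2 (by simp)⟩
  have := cl_cont
  refine ⟨fun m x => slope (fun t => F (cl x + t * (1 - cl x)) - F (cl x - t * cl x)) 0 (1 / (m + 1)),
    fun m => ?_, fun x => ?_⟩
  · simp only [slope_def_field, zero_mul, add_zero, sub_zero, sub_self]
    exact ((c.comp_continuous (by fun_prop) fun x => m1 _ (cl_mem x) _ (m3 m)).sub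
      (c.comp_continuous (by fun_prop) fun x => m2 _ (cl_mem x) _ (m3 m))).div_const _
  have hy := cl_mem x
  beta_reduce
  rw [Function.comp]
  generalize cl x = y at hy
  have d1 := HasDerivWithinAt.comp_of_eq (0 : ℝ) (h y hy) (((hasDerivWithinAt_id (0 : ℝ)
    (Icc 0 1)).mul_const (1 - y)).const_add y) (fun t ht => m1 y hy t ht) (by simp)
  have d2 := HasDerivWithinAt.comp_of_eq (0 : ℝ) (h y hy) (((hasDerivWithinAt_id (0 : ℝ)
    (Icc 0 1)).mul_const y).const_sub y) (fun t ht => m2 y hy t ht) (by simp)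
  have d3 := hasDerivWithinAt_iff_tendsto_slope.1 (d1.sub d2)
  rw [show f y * (1 * (1 - y)) - f y * -(1 * y) = f y by ring] at d3
  exact d3.comp (tendsto_nhdsWithin_iff.2 ⟨tendsto_one_div_add_atTop_nhds_zero_nat,
    .of_forall fun m => ⟨m3 m, (Nat.one_div_pos_of_nat).ne'⟩⟩)

theorem ch_upd (f : ℝ → ℝ) {j : ℕ} (hj : j ≤ n) (x : ℝ) :
    ch (Function.update g n f) j x = ch g j x := by
  induction j with
  | zero => rfl
  | succ j ih => rw [ch, ih (by omega), Function.update_of_ne (by omega), ch]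

theorem lst (l : List (ℝ → ℝ)) (h : ∀ g ∈ l, MapsTo g (Icc (0 : ℝ) 1) (Icc (0 : ℝ) 1) ∧
    ∃ F : ℝ → ℝ, ∀ x ∈ Icc (0 : ℝ) 1, HasDerivWithinAt F (g x) (Icc (0 : ℝ) 1) x) :
    ∃ g n, (∀ i, Dar (g i) ∧ B1 (g i)) ∧ 1 ≤ n ∧ ∀ x, ch g 1 x = cl x ∧ ch g n x ∈ Icc (0 : ℝ) 1 ∧
      ch g n x = l.foldr (fun g h => g ∘ h) id (cl x) := by
  induction l with
  | nil => exact ⟨fun _ => cl, 1, fun _ => ⟨cl_dar, fun _ => cl, fun _ => cl_cont,
      fun _ => tendsto_const_nhds⟩, le_rfl, fun x => ⟨rfl, cl_mem x, rfl⟩⟩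
  | cons f l ih =>
    obtain ⟨g, n, a1, a2, a3⟩ := ih fun g hg => h g (List.mem_cons_of_mem _ hg)
    obtain ⟨b1, F, b2⟩ := h f List.mem_cons_self
    refine ⟨Function.update g n (f ∘ cl), n + 1, fun i => ?_, by omega, fun x => ?_⟩
    · rcases eq_or_ne i n with rfl | hi
      · simpa using der b2
      · simpa [hi] using a1 i
    have e : ch (Function.update g n (f ∘ cl)) (n + 1) x = f (ch g n x) := by
      rw [ch, ch_upd _ le_rfl, Function.update_self, Function.comp, cl_eq (a3 x).2.1]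
    exact ⟨(ch_upd _ a2 x).trans (a3 x).1, e ▸ b1 (a3 x).2.1, e.trans (congrArg f (a3 x).2.2)⟩

end Pool.Agent.H56.Der
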