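import Pool.Agent.H56.DivDef

open Set Filter Topology Real

namespace Pool.Agent.H56.Dv

def S (r : ℝ) (k : ℕ) : Set ℝ :=
  {x | ∃ n : ℕ, n ≠ 0 ∧ (∀ p : ℕ, p.Prime → p ∣ n → k < p) ∧ x = sig r n}

def K (r : ℝ) (k : ℕ) : Set ℝ := closure (S r k)

noncomputable def Z (r : ℝ) (k : ℕ) : ℝ := sSup (S r k)

noncomputable def cs (x : ℝ) (a : ℕ) : ℝ := ∑ j ∈ Finset.range (a + 1), x ^ j

lemma S_zero (r : ℝ) : S r 0 = sig r '' {n | 1 ≤ n} := by
  ext x
  constructor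
  · rintro ⟨n, h, -, rfl⟩; exact ⟨n, Nat.one_le_iff_ne_zero.2 h, rfl⟩
  · rintro ⟨n, h, rfl⟩; exact ⟨n, Nat.one_le_iff_ne_zero.1 h, fun p hp _ => hp.pos, rfl⟩

lemma one_mem (r : ℝ) (k : ℕ) : (1:ℝ) ∈ S r k :=
  ⟨1, one_ne_zero, fun p hp h => absurd (Nat.dvd_one.1 h) hp.ne_one, by simp [sig]⟩

lemma sig_mul (r : ℝ) {m n : ℕ} (h : m.Coprime n) : sig r (m * n) = sig r m * sig r n := by
  unfold sig
  rw [h.divisors_mul, Finset.sum_map, Finset.sum_mul_sum, ← Finset.sum_product']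
  rw [← Finset.sum_attach (m.divisors ×ˢ n.divisors)]
  apply Finset.sum_congr rfl
  intro p _
  simp only [Function.Embedding.coeFn_mk, Nat.cast_mul]
  exact Real.mul_rpow (Nat.cast_nonneg _) (Nat.cast_nonneg _)

lemma sig_pow (r : ℝ) {p : ℕ} (hp : p.Prime) (a : ℕ) : sig r (p ^ a) = cs ((p:ℝ) ^ (-r)) a := by
  unfold sig cs
  rw [Nat.sum_divisors_prime_pow hp]
  apply Finset.sum_congr rfl
  intro j _
  rw [Nat.cast_pow, ← Real.rpow_natCast, ← Real.rpow_mul (Nat.cast_nonneg _), mul_comm,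
    Real.rpow_mul (Nat.cast_nonneg _), Real.rpow_natCast]

lemma S_nonprime (r : ℝ) {k : ℕ} (h : ¬ (k + 1).Prime) : S r k = S r (k + 1) := by
  ext x
  constructor
  · rintro ⟨n, h1, h2, rfl⟩
    refine ⟨n, h1, fun p hp hd => ?_, rfl⟩
    have := h2 p hp hd
    rcases Nat.lt_or_ge (k + 1) p with h3 | h3
    · exact h3
    · exact absurd (show p = k + 1 by omega) (fun e => h (e ▸ hp))
  · rintro ⟨n, h1, h2, rfl⟩
    exact ⟨n, h1, fun p hp hd => by have := h2 p hp hd; omega, rfl⟩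

lemma S_up (r : ℝ) {k : ℕ} (h : (k + 1).Prime) (a : ℕ) {u : ℝ} (hu : u ∈ S r (k + 1)) :
    cs (((k + 1 : ℕ):ℝ) ^ (-r)) a * u ∈ S r k := by
  obtain ⟨n, h1, h2, rfl⟩ := hu
  have hc : ((k + 1) ^ a).Coprime n :=
    Nat.Coprime.pow_left a ((Nat.Prime.coprime_iff_not_dvd h).2 fun hd => lt_irrefl _ (h2 _ h hd))
  refine ⟨(k + 1) ^ a * n, by positivity, fun p hp hd => ?_, by rw [sig_mul r hc, sig_pow r h]⟩
  rcases (Nat.Prime.dvd_mul hp).1 hd with h3 | h3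
  · have := (Nat.prime_dvd_prime_iff_eq hp h).1 (hp.dvd_of_dvd_pow h3)
    omega
  · have := h2 p hp h3
    omega

lemma S_down (r : ℝ) {k : ℕ} (h : (k + 1).Prime) {y : ℝ} (hy : y ∈ S r k) :
    ∃ a u, u ∈ S r (k + 1) ∧ y = cs (((k + 1 : ℕ):ℝ) ^ (-r)) a * u := by
  obtain ⟨n, h1, h2, rfl⟩ := hy
  obtain ⟨a, m, hm, rfl⟩ := Nat.exists_eq_pow_mul_and_not_dvd h1 (k + 1) h.ne_one
  have hc : ((k + 1) ^ a).Coprime m :=
    Nat.Coprime.pow_left a ((Nat.Prime.coprime_iff_not_dvd h).2 hm)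
  refine ⟨a, sig r m, ⟨m, by rintro rfl; simp at hm, fun p hp hd => ?_, rfl⟩,
    by rw [sig_mul r hc, sig_pow r h]⟩
  have := h2 p hp (Dvd.dvd.mul_left hd _)
  rcases Nat.lt_or_ge (k + 1) p with h3 | h3
  · exact h3
  · exact absurd (show p = k + 1 by omega) (fun e => hm (e ▸ hd))

lemma cs_zero (x : ℝ) : cs x 0 = 1 := by simp [cs]

lemma cs_succ (x : ℝ) (a : ℕ) : cs x (a + 1) = 1 + x * cs x a := by
  unfold cs; rw [geom_sum_succ]; ring

lemma cs_mono {x : ℝ} (hx : 0 ≤ x) : Monotone (cs x) := fun a b h =>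
  Finset.sum_le_sum_of_subset_of_nonneg (Finset.range_mono (by omega))
    fun _ _ _ => by positivity

lemma cs_tendsto {x : ℝ} (h0 : 0 ≤ x) (h1 : x < 1) : Tendsto (cs x) atTop (𝓝 (1 - x)⁻¹) :=
  (hasSum_geometric_of_lt_one h0 h1).tendsto_sum_nat.comp (tendsto_add_atTop_nat 1)

lemma cs_le {x : ℝ} (h0 : 0 ≤ x) (h1 : x < 1) (a : ℕ) : cs x a ≤ (1 - x)⁻¹ :=
  (cs_mono h0).ge_of_tendsto (cs_tendsto h0 h1) a

lemma one_le_cs {x : ℝ} (h0 : 0 ≤ x) (a : ℕ) : 1 ≤ cs x a :=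
  cs_zero x ▸ cs_mono h0 (Nat.zero_le a)

lemma K_up (r : ℝ) {k : ℕ} (h : (k + 1).Prime) (a : ℕ) {u : ℝ} (hu : u ∈ K r (k + 1)) :
    cs (((k + 1 : ℕ):ℝ) ^ (-r)) a * u ∈ K r k :=
  map_mem_closure (f := fun u => cs (((k + 1 : ℕ):ℝ) ^ (-r)) a * u) (by fun_prop) hu
    fun _ hv => S_up r h a hv

lemma x_lt_one {r : ℝ} (hr : 0 < r) {p : ℕ} (hp : p.Prime) : (p:ℝ) ^ (-r) < 1 :=
  Real.rpow_lt_one_of_one_lt_of_neg (by exact_mod_cast hp.one_lt) (by linarith)

lemma K_up' {r : ℝ} (hr : 0 < r) {k : ℕ} (h : (k + 1).Prime) {u : ℝ} (hu : u ∈ K r (k + 1)) :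
    (1 - ((k + 1 : ℕ):ℝ) ^ (-r))⁻¹ * u ∈ K r k :=
  isClosed_closure.mem_of_tendsto ((cs_tendsto (by positivity) (x_lt_one hr h)).mul_const u)
    (Eventually.of_forall fun a => K_up r h a hu)

lemma K_sub (r : ℝ) {k : ℕ} (h : (k + 1).Prime) {M : Set ℝ} (hM : IsClosed M)
    (h1 : ∀ a u, u ∈ K r (k + 1) → cs (((k + 1 : ℕ):ℝ) ^ (-r)) a * u ∈ M) : K r k ⊆ M := by
  apply closure_minimal _ hM
  intro y hy
  obtain ⟨a, u, hu, rfl⟩ := S_down r h hy
  exact h1 a u (subset_closure hu)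

lemma S_ge {r : ℝ} {k : ℕ} {y : ℝ} (hy : y ∈ S r k) : 1 ≤ y := by
  obtain ⟨n, h1, -, rfl⟩ := hy
  have := Finset.single_le_sum (f := fun d : ℕ => (d:ℝ) ^ (-r)) (s := n.divisors)
    (fun _ _ => by positivity) (Nat.one_mem_divisors.2 h1)
  simpa [sig] using this

lemma S_le {r : ℝ} (hr : 2 ≤ r) {k : ℕ} (hk : 1 ≤ k) {y : ℝ} (hy : y ∈ S r k) :
    y ≤ 1 + k * (k:ℝ) ^ (-r) := by
  obtain ⟨n, h1, h2, rfl⟩ := hy
  have hk' : (0:ℝ) < k := by exact_mod_cast hk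
  have sub : n.divisors ⊆ insert 1 (Finset.Ioc k (max k n)) := by
    intro d hd
    rw [Finset.mem_insert, Finset.mem_Ioc]
    by_cases e : d = 1
    · exact Or.inl e
    · right
      have hd' := Nat.dvd_of_mem_divisors hd
      have a1 := h2 _ (Nat.minFac_prime e) ((Nat.minFac_dvd d).trans hd')
      have a2 := Nat.minFac_le (Nat.pos_of_mem_divisors hd)
      have a3 := Nat.divisor_le hd
      constructor <;> omega
  calc sig r n ≤ ∑ d ∈ insert 1 (Finset.Ioc k (max k n)), (d:ℝ) ^ (-r) :=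
        Finset.sum_le_sum_of_subset_of_nonneg sub fun _ _ _ => by positivity
    _ = 1 + ∑ d ∈ Finset.Ioc k (max k n), (d:ℝ) ^ (-r) := by
        rw [Finset.sum_insert (by simp; omega)]; simp
    _ ≤ 1 + ∑ d ∈ Finset.Ioc k (max k n), (k:ℝ) ^ (2 - r) * ((d:ℝ) ^ 2)⁻¹ := by
        gcongr with d hd
        have a1 : (k:ℝ) ≤ d := by exact_mod_cast (Finset.mem_Ioc.1 hd).1.le
        have a2 : (d:ℝ) ^ (-r) = (d:ℝ) ^ (2 - r) * ((d:ℝ) ^ 2)⁻¹ := by
          have : (0:ℝ) < d := hk'.trans_le a1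
          rw [sub_eq_add_neg, Real.rpow_add this, Real.rpow_two]
          field_simp
        rw [a2]
        gcongr ?_ * _
        exact Real.rpow_le_rpow_of_nonpos hk' a1 (by linarith)
    _ ≤ 1 + (k:ℝ) ^ (2 - r) * (k:ℝ)⁻¹ := by
        rw [← Finset.mul_sum]
        gcongr
        have := sum_Ioc_inv_sq_le_sub (α := ℝ) (k := k) (n := max k n) (by omega) (le_max_left _ _)
        have a : (0:ℝ) ≤ (((max k n : ℕ)):ℝ)⁻¹ := by positivity
        linarith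
    _ = _ := by
        rw [sub_eq_add_neg, Real.rpow_add hk', Real.rpow_two]
        field_simp

lemma S_bdd {r : ℝ} (hr : 2 ≤ r) {k : ℕ} (hk : 1 ≤ k) : BddAbove (S r k) :=
  ⟨_, fun _ hy => S_le hr hk hy⟩

lemma Z_le {r : ℝ} (hr : 2 ≤ r) {k : ℕ} (hk : 1 ≤ k) : Z r k ≤ 1 + k * (k:ℝ) ^ (-r) :=
  csSup_le ⟨1, one_mem r k⟩ fun _ hy => S_le hr hk hy

lemma le_Z {r : ℝ} (hr : 2 ≤ r) {k : ℕ} {T : Finset ℕ} (hT : ∀ q ∈ T, q.Prime ∧ k < q)
    (hk : 1 ≤ k) : 1 + ∑ q ∈ T, (q:ℝ) ^ (-r) ≤ Z r k := by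
  have h0 : ∏ q ∈ T, q ≠ 0 := Finset.prod_ne_zero_iff.2 fun q hq => (hT q hq).1.ne_zero
  refine le_trans ?_ (le_csSup (S_bdd hr hk) ⟨∏ q ∈ T, q, h0, fun p hp hd => ?_, rfl⟩)
  · have sub : insert 1 T ⊆ (∏ q ∈ T, q).divisors := by
      intro d hd
      rw [Nat.mem_divisors]
      refine ⟨?_, h0⟩
      rcases Finset.mem_insert.1 hd with rfl | hd
      · exact one_dvd _
      · exact Finset.dvd_prod_of_mem _ hd
    have := Finset.sum_le_sum_of_subset_of_nonneg (f := fun d : ℕ => (d:ℝ) ^ (-r)) sub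
      fun _ _ _ => by positivity
    rw [Finset.sum_insert fun h => (hT 1 h).1.ne_one rfl] at this
    simpa [sig] using this
  · obtain ⟨q, hq, h⟩ := (hp.prime.dvd_finsetProd_iff _).1 hd
    rw [(Nat.prime_dvd_prime_iff_eq hp (hT q hq).1).1 h]
    exact (hT q hq).2

/-- boolean primality test -/
def isP' (n m : ℕ) : Bool := decide (2 ≤ n) && decide (n < (m + 1) * (m + 1)) &&
  (List.range (m + 1)).all fun d => d < 2 || n ≤ d || n % d != 0

lemma isP'_iff {n m : ℕ} (h : n < (m + 1) * (m + 1)) : isP' n m = true ↔ n.Prime := by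
  simp only [isP', Bool.and_eq_true, decide_eq_true_eq, List.all_eq_true, List.mem_range,
    Bool.or_eq_true, bne_iff_ne, ne_eq]
  constructor
  · rintro ⟨⟨h1, -⟩, h2⟩
    rw [Nat.prime_def_le_sqrt]
    refine ⟨h1, fun d hd1 hd2 hd => ?_⟩
    have a1 : d * d ≤ n := Nat.le_sqrt.1 hd2
    have a2 : d < m + 1 := by nlinarith
    rcases h2 d a2 with (h3 | h3) | h3
    · omega
    · nlinarith
    · exact h3 (Nat.mod_eq_zero_of_dvd hd)
  · intro hp
    refine ⟨⟨hp.two_le, h⟩, fun d _ => ?_⟩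
    by_contra hc
    push Not at hc
    rcases (Nat.dvd_prime hp).1 (Nat.dvd_of_mod_eq_zero hc.2) with e | e <;> omega

lemma isP'_prime {n m : ℕ} (h : isP' n m = true) : n.Prime := by
  have : n < (m + 1) * (m + 1) := by
    simp only [isP', Bool.and_eq_true, decide_eq_true_eq] at h
    exact h.1.2
  exact (isP'_iff this).1 h

lemma block (a b : ℕ)
    (h : 21 ≤ ((Finset.Ioc b (2 * a)).filter fun q => isP' q 130 = true).card) (n : ℕ)
    (h1 : a ≤ n) (h2 : n ≤ b) : 21 ≤ ((Finset.Ioc n (2 * n)).filter Nat.Prime).card := by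
  refine h.trans (Finset.card_le_card fun q hq => ?_)
  simp only [Finset.mem_filter, Finset.mem_Ioc] at hq ⊢
  exact ⟨⟨by omega, by omega⟩, isP'_prime hq.2⟩

lemma count2 (n : ℕ) (h1 : 400 ≤ n) (h2 : n ≤ 8092) :
    21 ≤ ((Finset.Ioc n (2 * n)).filter Nat.Prime).card := by
  by_cases a1 : n ≤ 652
  · exact block 400 652 (by decide +kernel) n h1 a1
  by_cases a2 : n ≤ 1170
  · exact block 652 1170 (by decide +kernel) n (by omega) a2
  by_cases a3 : n ≤ 2160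
  · exact block 1170 2160 (by decide +kernel) n (by omega) a3
  by_cases a4 : n ≤ 4138
  · exact block 2160 4138 (by decide +kernel) n (by omega) a4
  · exact block 4138 8092 (by decide +kernel) n (by omega) h2

lemma count4 (n : ℕ) (h1 : 8092 ≤ n) : 421 ≤ ((Finset.Ioc n (4 * n)).filter Nat.Prime).card := by
  by_contra hc
  push Not at hc
  have hc' : (((Finset.Ioc n (4 * n)).filter Nat.Prime).card : ℝ) ≤ 420 := by
    exact_mod_cast Nat.lt_succ_iff.1 hc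
  have hn : (8092:ℝ) ≤ n := by exact_mod_cast h1
  have t1 := Chebyshev.theta_ge (4 * n)
  have t2 := Chebyshev.theta_le_log4_mul_x (x := n) (by positivity)
  have hL0 : 0 ≤ log (4 * n : ℝ) := log_nonneg (by linarith)
  have t3 : Chebyshev.theta ((4 * n : ℕ):ℝ) ≤ Chebyshev.theta n + 420 * log (4 * n : ℝ) := by
    unfold Chebyshev.theta
    rw [Nat.floor_natCast, Nat.floor_natCast,
      ← Finset.Ioc_union_Ioc_eq_Ioc (Nat.zero_le n) (show n ≤ 4 * n by omega), Finset.filter_union,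
      Finset.sum_union (Finset.disjoint_filter_filter (Finset.Ioc_disjoint_Ioc_of_le le_rfl))]
    gcongr
    refine (Finset.sum_le_card_nsmul _ _ (log (4 * n : ℝ)) fun p hp => ?_).trans ?_
    · simp only [Finset.mem_filter, Finset.mem_Ioc] at hp
      apply log_le_log (by exact_mod_cast hp.2.pos)
      exact_mod_cast hp.1.2
    · rw [nsmul_eq_mul]; gcongr
  push_cast at t1 t3
  set t := √(n:ℝ) with ht
  have tt : t * t = n := mul_self_sqrt (by positivity)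
  have t0 : 0 ≤ t := sqrt_nonneg _
  have t89 : 89 ≤ t := by nlinarith
  have s4 : √(4 * n : ℝ) = 2 * t := by
    rw [← tt, show 4 * (t * t) = (2 * t) ^ 2 by ring, sqrt_sq (by linarith)]
  have l2 := log_two_gt_d9
  have l2' := log_two_lt_d9
  have l4 : log 4 = 2 * log 2 := by rw [show (4:ℝ) = 2 ^ 2 by norm_num, log_pow]; norm_num
  have hL : log (4 * n : ℝ) ≤ 9.1 + t / 64 := by
    have e : (4 * n : ℝ) = (2 ^ 8 * (2 * t / 256)) ^ 2 := by rw [← tt]; ring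
    rw [e, log_pow, log_mul (by norm_num) (by positivity), log_pow]
    have := log_le_sub_one_of_pos (show 0 < 2 * t / 256 by positivity)
    push_cast
    linarith
  have hL1 : log (4 * n + 1 : ℝ) ≤ log (4 * n : ℝ) + 1 := by
    have := log_le_log (show (0:ℝ) < 4 * n + 1 by positivity) (show (4 * n + 1 : ℝ) ≤ 4 * n * 2 by linarith)
    rw [log_mul (by positivity) (by norm_num)] at this
    linarith
  rw [s4] at t1
  rw [l4] at t2
  have k1 : 2 * (2 * t) * log (4 * n : ℝ) ≤ 2 * (2 * t) * (9.1 + t / 64) := by gcongr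
  have k2 : (n:ℝ) * 0.6931471803 ≤ n * log 2 := by gcongr
  nlinarith

lemma from_count {r : ℝ} (hr : 2 ≤ r) (hr' : r ≤ 13 / 3) {n m : ℕ} (hn : 1 ≤ n) {N : ℕ}
    (hN : N ≤ ((Finset.Ioc n (2 ^ m * n)).filter Nat.Prime).card)
    (hm : 103 / 100 * (20.2:ℝ) ^ m ≤ N) : 1 + 103 / 100 * (n:ℝ) ^ (-r) ≤ Z r n := by
  refine le_trans ?_ (le_Z hr (T := (Finset.Ioc n (2 ^ m * n)).filter Nat.Prime) (fun q hq => ?_) hn)
  · have hn' : (0:ℝ) < n := by exact_mod_cast hn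
    have a1 := Finset.card_nsmul_le_sum ((Finset.Ioc n (2 ^ m * n)).filter Nat.Prime)
      (fun q : ℕ => (q:ℝ) ^ (-r)) (((2:ℝ) ^ m * n) ^ (-r)) (fun q hq => by
        simp only [Finset.mem_filter, Finset.mem_Ioc] at hq
        apply Real.rpow_le_rpow_of_nonpos (by exact_mod_cast hq.2.pos) _ (by linarith)
        exact_mod_cast hq.1.2)
    have a2 : (2:ℝ) ^ r ≤ 20.2 := by
      calc (2:ℝ) ^ r ≤ 2 ^ (13 / 3 : ℝ) := Real.rpow_le_rpow_of_exponent_le (by norm_num) hr'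
        _ ≤ 20.2 := by
          apply le_of_pow_le_pow_left₀ (n := 3) (by norm_num) (by norm_num)
          rw [← Real.rpow_natCast, ← Real.rpow_mul (by norm_num)]
          norm_num
    have a3 : ((2:ℝ) ^ m * n) ^ (-r) = (((2:ℝ) ^ r) ^ m)⁻¹ * (n:ℝ) ^ (-r) := by
      rw [Real.mul_rpow (by positivity) hn'.le, Real.rpow_neg (by positivity),
        ← Real.rpow_natCast, ← Real.rpow_mul (by norm_num), mul_comm (m:ℝ),
        Real.rpow_mul (by norm_num), Real.rpow_natCast]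
    have a4 : (N:ℝ) ≤ ((Finset.Ioc n (2 ^ m * n)).filter Nat.Prime).card := by exact_mod_cast hN
    have a5 : (103 / 100 : ℝ) ≤ N * (((2:ℝ) ^ r) ^ m)⁻¹ := by
      rw [← div_eq_mul_inv, le_div_iff₀ (by positivity)]
      refine le_trans ?_ hm
      gcongr
    rw [nsmul_eq_mul, a3] at a1
    have a6 : (0:ℝ) ≤ (n:ℝ) ^ (-r) := by positivity
    have a7 : (0:ℝ) ≤ (((2:ℝ) ^ r) ^ m)⁻¹ * (n:ℝ) ^ (-r) := by positivity
    nlinarith [mul_le_mul_of_nonneg_right a4 a7, mul_le_mul_of_nonneg_right a5 a6]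
  · simp only [Finset.mem_filter, Finset.mem_Ioc] at hq
    exact ⟨hq.2, hq.1.1⟩

lemma Z_ge {r : ℝ} (hr : 2 ≤ r) (hr' : r ≤ 13 / 3) {n : ℕ} (hn : 400 ≤ n) :
    1 + 103 / 100 * (n:ℝ) ^ (-r) ≤ Z r n := by
  by_cases h : n ≤ 8092
  · exact from_count hr hr' (m := 1) (by omega) (by simpa using count2 n hn h) (by norm_num)
  · exact from_count hr hr' (m := 2) (by omega) (by simpa using count4 n (by omega)) (by norm_num)

lemma small {r : ℝ} (hr : 2 ≤ r) {n : ℕ} (hn : 1 ≤ n) : n * (n:ℝ) ^ (-r) ≤ 1 / n := by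
  have hn' : (1:ℝ) ≤ n := by exact_mod_cast hn
  have : (n:ℝ) ^ (-r) ≤ (n:ℝ) ^ (-2:ℝ) := Real.rpow_le_rpow_of_exponent_le hn' (by linarith)
  rw [Real.rpow_neg (by positivity) 2, Real.rpow_two] at this
  calc n * (n:ℝ) ^ (-r) ≤ n * ((n:ℝ) ^ 2)⁻¹ := by gcongr
    _ = 1 / n := by field_simp

lemma dense_step {r : ℝ} (hr : 2 ≤ r) (hr' : r ≤ 13 / 3) (j : ℕ) : ∀ k, 400 ≤ k → ∀ y, 1 ≤ y →
    y ≤ Z r k → ∃ u ∈ K r k, 0 ≤ u ∧ u ≤ y ∧ y ≤ u * Z r (k + j) := by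
  induction j with
  | zero => exact fun k _ y h1 h2 => ⟨1, subset_closure (one_mem r k), zero_le_one, h1, by simpa⟩
  | succ j ih =>
    intro k hk y h1 h2
    rw [show k + (j + 1) = k + 1 + j by ring]
    by_cases hp : (k + 1).Prime
    · by_cases h : y ≤ Z r (k + 1)
      · obtain ⟨u, hu, a⟩ := ih (k + 1) (by omega) y h1 h
        exact ⟨u, by simpa [cs_zero] using K_up r hp 0 hu, a⟩
      · push Not at h
        have z1 := Z_ge hr hr' (n := k + 1) (by omega)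
        have x1 := x_lt_one (r := r) (by linarith) hp
        have x2 := small hr (n := k + 1) (by omega)
        have x3 : (400:ℝ) ≤ ((k + 1 : ℕ):ℝ) := by exact_mod_cast (by omega : 400 ≤ k + 1)
        have zle : Z r k ≤ (1 - ((k + 1 : ℕ):ℝ) ^ (-r))⁻¹ * Z r (k + 1) := by
          apply csSup_le ⟨1, one_mem r k⟩
          intro v hv
          obtain ⟨a, u, hu, rfl⟩ := S_down r hp hv
          apply mul_le_mul (cs_le (by positivity) x1 a) (le_csSup (S_bdd hr (by omega)) hu)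
            (zero_le_one.trans (S_ge hu)) (inv_nonneg.2 (by linarith))
        have up := fun u hu => K_up' (r := r) (by linarith) hp (u := u) hu
        have x0 : 0 < ((k + 1 : ℕ):ℝ) ^ (-r) := by positivity
        generalize ((k + 1 : ℕ):ℝ) ^ (-r) = x at *
        have x4 : x ≤ 1 / 400 := by
          have : 1 / ((k + 1 : ℕ):ℝ) ≤ 1 := by rw [div_le_one (by linarith)]; linarith
          nlinarith
        have p1 : 0 < 1 - x := by linarith
        obtain ⟨u, hu, a0, a1, a2⟩ := ih (k + 1) (by omega) ((1 - x) * y) (by nlinarith) (by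
          rw [← le_div_iff₀' p1, div_eq_inv_mul]; exact h2.trans zle)
        refine ⟨_, up u hu, by positivity, ?_, ?_⟩
        · rw [← div_eq_inv_mul, div_le_iff₀' p1]; exact a1
        · rw [mul_assoc, ← div_eq_inv_mul, le_div_iff₀' p1]; exact a2
    · have e := S_nonprime r hp
      have := ih (k + 1) (by omega) y h1 (by simpa [Z, e] using h2)
      simpa [K, e] using this

lemma K_eq {r : ℝ} (hr : 2 ≤ r) (hr' : r ≤ 13 / 3) {k : ℕ} (hk : 400 ≤ k) :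
    K r k = Icc 1 (Z r k) := by
  apply Subset.antisymm
  · exact closure_minimal (fun y hy => ⟨S_ge hy, le_csSup (S_bdd hr (by omega)) hy⟩) isClosed_Icc
  · rintro y ⟨h1, h2⟩
    rw [K, ← (isClosed_closure (s := S r k)).closure_eq, Metric.mem_closure_iff]
    intro ε hε
    obtain ⟨j, hj⟩ := exists_nat_gt (y / ε)
    obtain ⟨u, hu, a0, a1, a2⟩ := dense_step hr hr' j k hk y h1 h2
    refine ⟨u, hu, ?_⟩
    have b1 := Z_le hr (k := k + j) (by omega)
    have b2 := small hr (n := k + j) (by omega)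
    have b3 : (j:ℝ) < ((k + j : ℕ):ℝ) := by exact_mod_cast (by omega : j < k + j)
    have b4 : (0:ℝ) < ((k + j : ℕ):ℝ) := by exact_mod_cast (by omega : 0 < k + j)
    rw [Real.dist_eq, abs_of_nonneg (by linarith)]
    have b5 : y * (1 / ((k + j : ℕ):ℝ)) < ε := by
      rw [mul_one_div, div_lt_iff₀ b4]
      rw [div_lt_iff₀ hε] at hj
      nlinarith
    have b6 : u * (1 / ((k + j : ℕ):ℝ)) ≤ y * (1 / ((k + j : ℕ):ℝ)) := by gcongr
    nlinarith [mul_le_mul_of_nonneg_left (b1.trans (add_le_add_right b2 1)) a0]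

end Pool.Agent.H56.Dv
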