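import Pool.Agent.H56.Div1

open Set Filter Topology Real

namespace Pool.Agent.H56.Dv

def Sc : ℕ := 10 ^ 18

lemma Sc_pos : (0:ℝ) < Sc := by unfold Sc; positivity

lemma Sc_pos' : 0 < Sc := by unfold Sc; positivity

def Enc (c : ℕ × ℕ) (v : ℝ) : Prop := (c.1 : ℝ) ≤ v * Sc ∧ v * Sc ≤ c.2

abbrev E := (ℕ × ℕ) × (ℕ × ℕ)

def Rep : List E → Set ℝ → Prop
  | [], K => K = ∅
  | e :: L, K => ∃ A B K', Enc e.1 A ∧ Enc e.2 B ∧ 0 ≤ A ∧ A ≤ B ∧ Rep L K' ∧ K = Icc A B ∪ K'

lemma Rep.closed : ∀ {L : List E} {K : Set ℝ}, Rep L K → IsClosed K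
  | [], _, h => by rw [show _ = ∅ from h]; exact isClosed_empty
  | _ :: _, _, ⟨_, _, _, _, _, _, _, h, e⟩ => by rw [e]; exact isClosed_Icc.union h.closed

lemma Rep.perm {L L' : List E} (h : L.Perm L') : ∀ {K : Set ℝ}, Rep L K → Rep L' K := by
  induction h with
  | nil => exact id
  | cons e _ ih =>
    rintro K ⟨A, B, K', a1, a2, a3, a4, a5, a6⟩
    exact ⟨A, B, K', a1, a2, a3, a4, ih a5, a6⟩
  | swap e f L =>
    rintro K ⟨A, B, K', a1, a2, a3, a4, ⟨A', B', K'', b1, b2, b3, b4, b5, b6⟩, a6⟩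
    exact ⟨A', B', Icc A B ∪ K'', b1, b2, b3, b4, ⟨A, B, K'', a1, a2, a3, a4, b5, rfl⟩, by
      rw [a6, b6, union_left_comm]⟩
  | trans _ _ ih1 ih2 => exact fun h => ih2 (ih1 h)

lemma Rep.append : ∀ {L L' : List E} {K K' : Set ℝ}, Rep L K → Rep L' K' → Rep (L ++ L') (K ∪ K')
  | [], _, _, _, h, h' => by rw [show _ = ∅ from h, empty_union]; exact h'
  | _ :: _, _, _, _, ⟨A, B, K1, a1, a2, a3, a4, a5, a6⟩, h' =>
    ⟨A, B, _, a1, a2, a3, a4, a5.append h', by rw [a6, union_assoc]⟩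

def mulE (c d : ℕ × ℕ) : ℕ × ℕ := (c.1 * d.1 / Sc, c.2 * d.2 / Sc + 1)

lemma Enc.mul {c d : ℕ × ℕ} {u v : ℝ} (hu : 0 ≤ u) (hv : 0 ≤ v) (h1 : Enc c u) (h2 : Enc d v) :
    Enc (mulE c d) (u * v) := by
  have hS := Sc_pos
  constructor
  · refine Nat.cast_div_le.trans ?_
    rw [div_le_iff₀ hS]
    push_cast
    calc (c.1:ℝ) * d.1 ≤ (u * Sc) * (v * Sc) := mul_le_mul h1.1 h2.1 (by positivity) (by positivity)
      _ = _ := by ring
  · have a := Nat.lt_div_mul_add (a := c.2 * d.2) Sc_pos'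
    have a' : ((c.2 * d.2 : ℕ):ℝ) ≤ ((c.2 * d.2 / Sc * Sc + Sc : ℕ):ℝ) := by exact_mod_cast a.le
    apply le_of_mul_le_mul_right _ hS
    simp only [mulE]
    push_cast at a' ⊢
    calc u * v * Sc * Sc = (u * Sc) * (v * Sc) := by ring
      _ ≤ (c.2:ℝ) * d.2 := mul_le_mul h1.2 h2.2 (by positivity) (by positivity)
      _ ≤ _ := by linarith

def scale (c : ℕ × ℕ) (e : E) : E := (mulE c e.1, mulE c e.2)

lemma Rep.scale {c : ℕ × ℕ} {u : ℝ} (hu : 0 ≤ u) (hc : Enc c u) :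
    ∀ {L : List E} {K : Set ℝ}, Rep L K → Rep (L.map (scale c)) ((fun y => u * y) '' K)
  | [], _, h => by rw [show _ = ∅ from h, image_empty]; rfl
  | _ :: _, _, ⟨A, B, K', a1, a2, a3, a4, a5, a6⟩ =>
    ⟨u * A, u * B, _, hc.mul hu a3 a1, hc.mul hu (a3.trans a4) a2, by positivity, by gcongr,
      Rep.scale hu hc a5, by rw [a6, image_union, image_mul_left_Icc hu a4]⟩

lemma Rep.between {c d : ℕ × ℕ} {u v w : ℝ} (hu : 0 < u) (huw : u ≤ w) (hwv : w ≤ v)
    (hc : Enc c u) (hd : Enc d v) : ∀ {L : List E} {K : Set ℝ}, Rep L K →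
      (L.all fun e => decide (d.2 * e.1.2 ≤ c.1 * e.2.1)) = true → ∀ y ∈ K,
      w * y ∈ (fun y => u * y) '' K ∪ (fun y => v * y) '' K
  | [], _, h, _, y, hy => by rw [show _ = ∅ from h] at hy; exact absurd hy (notMem_empty _)
  | e :: L, K, ⟨A, B, K', a1, a2, a3, a4, a5, a6⟩, h, y, hy => by
    simp only [List.all_cons, Bool.and_eq_true, decide_eq_true_eq] at h
    rw [a6] at hy ⊢
    rcases hy with hy | hy
    · have hS := Sc_pos
      have hv : 0 < v := by linarith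
      have k : v * A ≤ u * B := by
        have h1 : (d.2:ℝ) * e.1.2 ≤ c.1 * e.2.1 := by exact_mod_cast h.1
        have h2 : (v * Sc) * (A * Sc) ≤ (d.2:ℝ) * e.1.2 :=
          mul_le_mul hd.2 a1.2 (by positivity) (by positivity)
        have h3 : (c.1:ℝ) * e.2.1 ≤ (u * Sc) * (B * Sc) :=
          mul_le_mul hc.1 a2.1 (by positivity) (by positivity)
        apply le_of_mul_le_mul_right _ (mul_pos hS hS)
        nlinarith
      have y0 : 0 ≤ y := a3.trans hy.1
      by_cases h1 : w * y ≤ u * B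
      · refine Or.inl ⟨w * y / u, Or.inl ⟨?_, ?_⟩, by field_simp⟩
        · rw [le_div_iff₀ hu]; nlinarith [hy.1]
        · rw [div_le_iff₀ hu]; linarith
      · refine Or.inr ⟨w * y / v, Or.inl ⟨?_, ?_⟩, by field_simp⟩
        · rw [le_div_iff₀ hv]; linarith
        · rw [div_le_iff₀ hv]; nlinarith [hy.2]
    · rcases Rep.between hu huw hwv hc hd a5 h.2 y hy with h1 | h1
      · exact Or.inl (image_mono subset_union_right h1)
      · exact Or.inr (image_mono subset_union_right h1)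

def collapse : E → List E → List E
  | f, [] => [f]
  | f, e :: L => if e.1.2 ≤ f.2.1 ∧ f.1.2 ≤ e.2.1 then
      collapse ((min f.1.1 e.1.1, min f.1.2 e.1.2), (max f.2.1 e.2.1, max f.2.2 e.2.2)) L
    else f :: collapse e L

lemma Rep.collapse : ∀ {L : List E} {f : E} {K : Set ℝ}, Rep (f :: L) K → Rep (collapse f L) K
  | [], _, _, h => h
  | e :: L, f, K, ⟨A, B, K', a1, a2, a3, a4, h', a6⟩ => by
    rw [Dv.collapse]
    split_ifs with h
    · obtain ⟨A', B', K'', b1, b2, b3, b4, b5, b6⟩ := h'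
      have hS := Sc_pos
      have h1 : (e.1.2:ℝ) ≤ f.2.1 := by exact_mod_cast h.1
      have h2 : (f.1.2:ℝ) ≤ e.2.1 := by exact_mod_cast h.2
      have k1 : A' ≤ B := le_of_mul_le_mul_right (by linarith [b1.2, a2.1]) hS
      have k2 : A ≤ B' := le_of_mul_le_mul_right (by linarith [a1.2, b2.1]) hS
      apply Rep.collapse
      refine ⟨min A A', max B B', K'', ?_, ?_, le_min a3 b3, (min_le_left _ _).trans
        (a4.trans (le_max_left _ _)), b5, ?_⟩
      · simp only [Enc, Nat.cast_min, min_mul_of_nonneg _ _ hS.le]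
        exact ⟨min_le_min a1.1 b1.1, min_le_min a1.2 b1.2⟩
      · simp only [Enc, Nat.cast_max, max_mul_of_nonneg _ _ hS.le]
        exact ⟨max_le_max a2.1 b2.1, max_le_max a2.2 b2.2⟩
      · rw [a6, b6, ← union_assoc, Icc_union_Icc' k1 k2]
    · exact ⟨A, B, K', a1, a2, a3, a4, Rep.collapse h', a6⟩

def nextC (x c : ℕ × ℕ) : ℕ × ℕ := (Sc + (mulE x c).1, Sc + (mulE x c).2)

def build (x : ℕ × ℕ) (L : List E) : ℕ → (ℕ × ℕ) × List E
  | 0 => ((Sc, Sc), L)
  | n + 1 => (nextC x (build x L n).1, L.map (scale (nextC x (build x L n).1)) ++ (build x L n).2)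

lemma build_spec {x : ℕ × ℕ} {u : ℝ} (hu : 0 ≤ u) (hx : Enc x u) {L : List E} {K : Set ℝ}
    (h : Rep L K) (n : ℕ) : Enc (build x L n).1 (cs u n) ∧ ∃ M, Rep (build x L n).2 M ∧
      (∀ a ≤ n, ∀ y ∈ K, cs u a * y ∈ M) ∧ ∀ z ∈ M, ∃ a, ∃ y ∈ K, z = cs u a * y := by
  induction n with
  | zero =>
    refine ⟨by simp [build, Enc, cs_zero], K, h, fun a ha y hy => ?_, fun z hz => ⟨0, z, hz, ?_⟩⟩
    · rw [Nat.le_zero.1 ha, cs_zero, one_mul]; exact hy
    · rw [cs_zero, one_mul]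
  | succ n ih =>
    obtain ⟨h1, M, h2, h3, h4⟩ := ih
    have k : Enc (nextC x (build x L n).1) (cs u (n + 1)) := by
      have := hx.mul hu (zero_le_one.trans (one_le_cs hu n)) h1
      rw [cs_succ]
      simp only [Enc, nextC, Nat.cast_add]
      constructor <;> linarith [this.1, this.2]
    refine ⟨k, _, (h.scale (zero_le_one.trans (one_le_cs hu _)) k).append h2,
      fun a ha y hy => ?_, ?_⟩
    · rcases Nat.lt_or_ge n a with h5 | h5
      · exact Or.inl ⟨y, hy, by rw [show a = n + 1 by omega]⟩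
      · exact Or.inr (h3 a h5 y hy)
    · rintro z (⟨y, hy, rfl⟩ | hz)
      · exact ⟨_, y, hy, rfl⟩
      · exact h4 z hz

def iroot (a b p : ℕ) : ℕ → ℕ → ℕ → ℕ
  | 0, lo, _ => lo
  | n + 1, lo, hi => if ((lo + hi) / 2) ^ b * p ^ a ≤ Sc ^ b then iroot a b p n ((lo + hi) / 2) hi
      else iroot a b p n lo ((lo + hi) / 2)

def rootOK (a b p x : ℕ) : Bool :=
  decide (x ^ b * p ^ a ≤ Sc ^ b) && decide (Sc ^ b ≤ (x + 1) ^ b * p ^ a) && decide (x + 1 < Sc)

lemma rootOK_spec {a b p x : ℕ} (hb : b ≠ 0) (hp : 0 < p) (h : rootOK a b p x = true) :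
    Enc (x, x + 1) ((p:ℝ) ^ (-((a:ℝ) / b))) ∧ x + 1 < Sc := by
  simp only [rootOK, Bool.and_eq_true, decide_eq_true_eq] at h
  obtain ⟨⟨h1, h2⟩, h3⟩ := h
  have hS := Sc_pos
  have hp' : (0:ℝ) < p := by exact_mod_cast hp
  have hb' : (b:ℝ) ≠ 0 := by exact_mod_cast hb
  have e : (((p:ℝ) ^ (-((a:ℝ) / b))) * Sc) ^ b * (p:ℝ) ^ a = (Sc:ℝ) ^ b := by
    rw [mul_pow, ← Real.rpow_natCast ((p:ℝ) ^ _) b, ← Real.rpow_mul hp'.le,
      show -((a:ℝ) / b) * b = -(a:ℝ) by field_simp, Real.rpow_neg hp'.le, Real.rpow_natCast]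
    field_simp
  have h1' : (x:ℝ) ^ b * (p:ℝ) ^ a ≤ (Sc:ℝ) ^ b := by exact_mod_cast h1
  have h2' : (Sc:ℝ) ^ b ≤ ((x + 1 : ℕ):ℝ) ^ b * (p:ℝ) ^ a := by exact_mod_cast h2
  rw [← e] at h1' h2'
  have pa : (0:ℝ) < (p:ℝ) ^ a := by positivity
  exact ⟨⟨le_of_pow_le_pow_left₀ hb (by positivity) (le_of_mul_le_mul_right h1' pa),
    le_of_pow_le_pow_left₀ hb (by positivity) (le_of_mul_le_mul_right h2' pa)⟩, h3⟩

def cinf (x : ℕ) : ℕ × ℕ := (Sc * Sc / (Sc - x), Sc * Sc / (Sc - (x + 1)) + 1)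

lemma cinf_spec {x : ℕ} {u : ℝ} (h : Enc (x, x + 1) u) (hx : x + 1 < Sc) :
    Enc (cinf x) (1 - u)⁻¹ := by
  have hS := Sc_pos
  have hx' : ((x + 1 : ℕ):ℝ) < Sc := by exact_mod_cast hx
  have h1 : (x:ℝ) ≤ u * Sc := h.1
  have h2 : u * Sc ≤ ((x + 1 : ℕ):ℝ) := h.2
  have hu : 0 < 1 - u := by nlinarith
  push_cast at hx' h2
  constructor
  · refine Nat.cast_div_le.trans ?_
    rw [Nat.cast_sub (by omega), div_le_iff₀ (by linarith), ← div_eq_inv_mul, div_mul_eq_mul_div,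
      le_div_iff₀ hu]
    push_cast
    nlinarith
  · have a := Nat.lt_div_mul_add (a := Sc * Sc) (b := Sc - (x + 1)) (by omega)
    have a' : ((Sc * Sc : ℕ):ℝ) ≤ ((Sc * Sc / (Sc - (x + 1)) * (Sc - (x + 1)) + (Sc - (x + 1)) : ℕ):ℝ) := by
      exact_mod_cast a.le
    simp only [cinf]
    rw [Nat.cast_add, Nat.cast_mul, Nat.cast_mul, Nat.cast_sub hx.le] at a'
    rw [← div_eq_inv_mul, div_le_iff₀ hu]
    push_cast at a' ⊢
    have q0 : (0:ℝ) ≤ ((Sc * Sc / (Sc - (x + 1)) : ℕ):ℝ) := by positivity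
    generalize ((Sc * Sc / (Sc - (x + 1)) : ℕ):ℝ) = q at *
    apply le_of_mul_le_mul_right _ hS
    nlinarith [mul_le_mul_of_nonneg_left h2 (show 0 ≤ q + 1 by linarith)]

def depth (p : ℕ) : ℕ := if p = 2 then 4 else if p = 3 then 2 else if p ≤ 19 then 1 else 0

def leE (e f : E) : Prop := e.1.1 ≤ f.1.1

instance : DecidableRel leE := fun e f => Nat.decLe e.1.1 f.1.1

def norm : List E → List E
  | [] => []
  | f :: L => collapse f L

lemma Rep.norm : ∀ {L : List E} {K : Set ℝ}, Rep L K → Rep (norm L) K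
  | [], _, h => h
  | _ :: _, _, h => h.collapse

def step (a b p x : ℕ) (L : List E) : Option (List E) :=
  if (rootOK a b p x && L.all fun e =>
      decide ((cinf x).2 * e.1.2 ≤ (build (x, x + 1) L (depth p)).1.1 * e.2.1)) = true then
    some (norm (List.insertionSort leE
      (L.map (scale (cinf x)) ++ (build (x, x + 1) L (depth p)).2)))
  else none

lemma step_spec {a b k x : ℕ} (hb : b ≠ 0) (hr : 0 < (a:ℝ) / b) (hp : (k + 1).Prime)
    {L L' : List E} (h : step a b (k + 1) x L = some L') (hL : Rep L (K (a / b) (k + 1))) :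
    Rep L' (K (a / b) k) := by
  unfold step at h
  split_ifs at h with hc
  rw [Bool.and_eq_true] at hc
  obtain ⟨hx, hx'⟩ := rootOK_spec hb hp.pos hc.1
  have u0 : 0 ≤ ((k + 1 : ℕ):ℝ) ^ (-((a:ℝ) / b)) := by positivity
  have u1 := x_lt_one hr hp
  obtain ⟨h1, M, h2, h3, h4⟩ := build_spec u0 hx hL (depth (k + 1))
  have hi := cinf_spec hx hx'
  have R := (hL.scale (inv_nonneg.2 (by linarith)) hi).append h2
  rw [← Option.some.inj h]
  refine (Rep.perm (List.perm_insertionSort _ _).symm ?_).norm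
  convert R using 1
  apply Subset.antisymm
  · apply K_sub _ hp R.closed
    intro n u hu
    rcases Nat.lt_or_ge (depth (k + 1)) n with h5 | h5
    · rcases hL.between (lt_of_lt_of_le one_pos (one_le_cs u0 _)) (cs_mono u0 h5.le)
        (cs_le u0 u1 n) h1 hi hc.2 u hu with ⟨y, hy, e⟩ | h6
      · exact Or.inr (e ▸ h3 _ le_rfl y hy)
      · exact Or.inl h6
    · exact Or.inr (h3 n h5 u hu)
  · rintro z (⟨y, hy, rfl⟩ | hz)
    · exact K_up' hr hp hy
    · obtain ⟨n, y, hy, rfl⟩ := h4 z hz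
      exact K_up _ hp n hy

def run (a b : ℕ) : ℕ → List E → Option (List E)
  | 0, L => some L
  | k + 1, L => if isP' (k + 1) 20 = true then
      (step a b (k + 1) (iroot a b (k + 1) 61 0 Sc) L).bind (run a b k) else run a b k L

lemma run_spec {a b : ℕ} (hb : b ≠ 0) (hr : 0 < (a:ℝ) / b) : ∀ (k : ℕ) {L L' : List E}, k ≤ 401 →
    run a b k L = some L' → Rep L (K (a / b) k) → Rep L' (K (a / b) 0)
  | 0, _, _, _, h, hL => by rw [← Option.some.inj h]; exact hL
  | k + 1, L, L', hk, h, hL => by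
    rw [run] at h
    split_ifs at h with hp
    · obtain ⟨L1, h1, h2⟩ := Option.bind_eq_some_iff.1 h
      exact run_spec hb hr k (by omega) h2 (step_spec hb hr (isP'_prime hp) h1 hL)
    · rw [isP'_iff (by omega)] at hp
      refine run_spec hb hr k (by omega) h ?_
      rw [K, S_nonprime _ hp]; exact hL

def base (x : ℕ) : List E := [((Sc, Sc), (Sc + 103 * x / 100, Sc + 401 * (x + 1)))]

lemma base_spec {r : ℝ} (hr : 2 ≤ r) (hr' : r ≤ 13 / 3) {x : ℕ}
    (hx : Enc (x, x + 1) (((401:ℕ):ℝ) ^ (-r))) : Rep (base x) (K r 401) := by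
  have h1 := Z_ge hr hr' (n := 401) (by norm_num)
  have h2 := Z_le hr (k := 401) (by norm_num)
  have hS := Sc_pos
  have h0 : 0 ≤ ((401:ℕ):ℝ) ^ (-r) := by positivity
  generalize ((401:ℕ):ℝ) ^ (-r) = w at *
  refine ⟨1, Z r 401, ∅, by simp [Enc], ⟨?_, ?_⟩, zero_le_one, by linarith, rfl,
    by rw [K_eq hr hr' (by norm_num), union_empty]⟩
  · have a : ((103 * x / 100 : ℕ):ℝ) ≤ ((103 * x : ℕ):ℝ) / ((100:ℕ):ℝ) := Nat.cast_div_le
    have b : (x:ℝ) ≤ _ := hx.1
    simp only [Nat.cast_add]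
    push_cast at a b h1
    nlinarith [mul_le_mul_of_nonneg_right h1 hS.le]
  · have b : _ ≤ ((x + 1 : ℕ):ℝ) := hx.2
    push_cast at b h2 ⊢
    nlinarith [mul_le_mul_of_nonneg_right h2 hS.le]

def sep : List E → Bool
  | [] => true
  | [_] => true
  | e :: f :: L => decide (e.2.2 < f.1.1) && sep (f :: L)

lemma sep_low : ∀ {L : List E} {e : E} {K : Set ℝ}, Rep (e :: L) K → sep (e :: L) = true →
    ∀ y ∈ K, (e.1.1:ℝ) ≤ y * Sc
  | [], e, K, ⟨A, B, K', a1, _, _, _, a5, a6⟩, _, y, hy => by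
    rw [a6, show K' = ∅ from a5, union_empty] at hy
    nlinarith [a1.1, hy.1, Sc_pos]
  | f :: L, e, K, ⟨A, B, K', a1, a2, _, a4, a5, a6⟩, h, y, hy => by
    simp only [sep, Bool.and_eq_true, decide_eq_true_eq] at h
    rw [a6] at hy
    rcases hy with hy | hy
    · nlinarith [a1.1, hy.1, Sc_pos]
    · have h1 := sep_low a5 h.2 y hy
      have h2 : (e.2.2:ℝ) < f.1.1 := by exact_mod_cast h.1
      nlinarith [a1.1, a2.2, Sc_pos]

lemma comps_union {A B m : ℝ} {K' : Set ℝ} (hAB : A ≤ B) (hm : B < m) (hK : ∀ y ∈ K', m < y) :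
    comps (Icc A B ∪ K') = comps K' + 1 := by
  have hmn : m ∉ Icc A B ∪ K' := by
    rintro (h | h)
    · linarith [h.2]
    · exact lt_irrefl _ (hK m h)
  have c1 : ∀ x ∈ Icc A B, connectedComponentIn (Icc A B ∪ K') x = Icc A B := by
    intro x hx
    apply Subset.antisymm _ (isPreconnected_Icc.subset_connectedComponentIn hx subset_union_left)
    intro y hy
    rcases connectedComponentIn_subset _ _ hy with h | h
    · exact h
    · exfalso
      have m1 : x ∈ Icc A B ∪ K' := Or.inl hx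
      have m2 : m ∈ Icc x y := ⟨by linarith [hx.2], (hK y h).le⟩
      have := IsPreconnected.Icc_subset (α := ℝ) isPreconnected_connectedComponentIn
        (mem_connectedComponentIn m1) hy m2
      exact hmn (connectedComponentIn_subset _ _ this)
  have c2 : ∀ x ∈ K', connectedComponentIn (Icc A B ∪ K') x = connectedComponentIn K' x := by
    intro x hx
    have m1 : x ∈ Icc A B ∪ K' := Or.inr hx
    apply Subset.antisymm _ (connectedComponentIn_mono x subset_union_right)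
    apply isPreconnected_connectedComponentIn.subset_connectedComponentIn
      (mem_connectedComponentIn m1)
    intro y hy
    rcases connectedComponentIn_subset _ _ hy with h | h
    · exfalso
      have m2 : m ∈ Icc y x := ⟨by linarith [h.2], (hK x hx).le⟩
      have := IsPreconnected.Icc_subset (α := ℝ) isPreconnected_connectedComponentIn hy
        (mem_connectedComponentIn m1) m2
      exact hmn (connectedComponentIn_subset _ _ this)
    · exact h
  unfold comps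
  rw [← encard_insert_of_notMem (a := Icc A B)]
  · congr 1
    rw [image_union, image_congr c1, image_congr c2, Nonempty.image_const (nonempty_Icc.2 hAB)]
    rfl
  · rintro ⟨x, hx, e⟩
    have : A ∈ connectedComponentIn K' x := by
      rw [show connectedComponentIn K' x = Icc A B from e]; exact ⟨le_rfl, hAB⟩
    linarith [hK A (connectedComponentIn_subset _ _ this)]

lemma comps_eq : ∀ {L : List E} {K : Set ℝ}, Rep L K → sep L = true → comps K = L.length
  | [], _, h, _ => by rw [show _ = ∅ from h]; simp [comps]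
  | [e], K, ⟨A, B, K', _, _, _, a4, a5, a6⟩, _ => by
    rw [a6, show K' = ∅ from a5, comps_union (m := B + 1) a4 (by linarith) (by simp)]
    simp [comps]
  | e :: f :: L, K, ⟨A, B, K', _, a2, _, a4, a5, a6⟩, h => by
    simp only [sep, Bool.and_eq_true, decide_eq_true_eq] at h
    have h2 : (e.2.2:ℝ) < f.1.1 := by exact_mod_cast h.1
    have hS := Sc_pos
    rw [a6, comps_union (m := (e.2.2 + f.1.1) / 2 / Sc) a4 ?_ ?_, comps_eq a5 h.2]
    · simp
    · rw [lt_div_iff₀ hS]; linarith [a2.2]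
    · intro y hy
      rw [div_lt_iff₀ hS]; linarith [sep_low a5 h.2 y hy]

def final (a b n : ℕ) : Bool :=
  rootOK a b 401 (iroot a b 401 61 0 Sc) &&
    match run a b 401 (base (iroot a b 401 61 0 Sc)) with
    | some L => sep L && decide (L.length = n)
    | none => false

lemma final_spec {a b n : ℕ} (hb : b ≠ 0) (hr : 2 ≤ (a:ℝ) / b) (hr' : (a:ℝ) / b ≤ 13 / 3)
    (h : final a b n = true) : C (a / b) = n := by
  unfold final at h
  rw [Bool.and_eq_true] at h
  obtain ⟨h1, h2⟩ := h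
  split at h2
  · rename_i L hL
    rw [Bool.and_eq_true, decide_eq_true_eq] at h2
    have := run_spec hb (by linarith) 401 le_rfl hL
      (base_spec hr hr' (rootOK_spec hb (by norm_num) h1).1)
    rw [C, ← S_zero, ← h2.2]
    exact comps_eq this h2.1
  · exact absurd h2 (by simp)

lemma f1 : final 69 16 253 = true := by decide +kernel

lemma f2 : final 13 3 252 = true := by decide +kernel

end Pool.Agent.H56.Dv
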