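import Mathlib

/-!
Definitions: the divisor function `σ_{-r}` and the number `C_r` of connected components of the
closure of its image.
-/

namespace Pool.Agent.H56.Dv

/-- `σ_{-r}(n) = ∑_{d ∣ n} d^{-r}`. -/
noncomputable def sig (r : ℝ) (n : ℕ) : ℝ := ∑ d ∈ n.divisors, (d : ℝ) ^ (-r)

/-- The number of connected components of a set of reals (as an extended natural number). -/
noncomputable def comps (K : Set ℝ) : ℕ∞ :=
  ((fun x => connectedComponentIn K x) '' K).encard

/-- `C_r`: the number of connected components of the closure of `σ_{-r}({1, 2, …})`. -/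
noncomputable def C (r : ℝ) : ℕ∞ := comps (closure (sig r '' {n | 1 ≤ n}))

end Pool.Agent.H56.Dv
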