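import Mathlib

set_option autoImplicit false
set_option linter.unusedSectionVars false

namespace Pool.Agent.H56.Erg

open Filter Topology Set Metric

variable {X : Type} [NormedAddCommGroup X] [NormedSpace ℝ X] [UniformConvexSpace X]

theorem ucs {ε : ℝ} (hε : 0 < ε) : ∃ δ, 0 < δ ∧ ∀ (ρ : ℝ) (A B : X), 0 < ρ → ‖A‖ ≤ ρ → ‖B‖ ≤ ρ →
    ε * ρ ≤ ‖A - B‖ → ‖A + B‖ ≤ (2 - δ) * ρ := by
  obtain ⟨δ, h1, h2⟩ := exists_forall_closed_ball_dist_add_le_two_sub X hε
  refine ⟨δ, h1, fun ρ A B hρ a1 a2 a3 => ?_⟩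
  have n : ∀ z : X, ‖ρ⁻¹ • z‖ = ‖z‖ / ρ := fun z => by
    rw [norm_smul, norm_inv, Real.norm_of_nonneg hρ.le, inv_mul_eq_div]
  have := h2 (x := ρ⁻¹ • A) (by rwa [n, div_le_one hρ]) (y := ρ⁻¹ • B) (by rwa [n, div_le_one hρ])
    (by rwa [← smul_sub, n, le_div_iff₀ hρ])
  rwa [← smul_add, n, div_le_iff₀ hρ] at this

theorem uc {ε : ℝ} (hε : 0 < ε) : ∃ δ, 0 < δ ∧ ∀ (ρ : ℝ) (A B : X), ρ ≤ 2 → ‖A‖ ≤ ρ → ‖B‖ ≤ ρ →
    ε ≤ ‖A - B‖ → ‖A + B‖ ≤ 2 * ρ - δ := by
  obtain ⟨δ, h1, h2⟩ := ucs (X := X) (half_pos hε)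
  refine ⟨δ * ε / 2, by positivity, fun ρ A B hρ a1 a2 a3 => ?_⟩
  have := norm_sub_le A B
  have := h2 ρ A B (by linarith) a1 a2 (by nlinarith)
  nlinarith

theorem comb_norm {t : ℝ} (ht : t ∈ Icc (0 : ℝ) 1) {x y : X} {r : ℝ} (hx : ‖x‖ ≤ r)
    (hy : ‖y‖ ≤ r) : ‖t • x + (1 - t) • y‖ ≤ r := by
  simpa using convex_closedBall (0 : X) r (x := x) (by simpa) (y := y) (by simpa) ht.1
    (sub_nonneg.2 ht.2) (by ring)

theorem aff {ε : ℝ} (hε : 0 < ε) : ∃ δ, 0 < δ ∧ ∀ t ∈ Icc (0 : ℝ) 1, ∀ T : X → X,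
    (∀ x y, ‖x‖ ≤ 1 → ‖y‖ ≤ 1 → ‖T x - T y‖ ≤ ‖x - y‖) → ∀ x y, ‖x‖ ≤ 1 → ‖y‖ ≤ 1 →
    ‖x - y‖ ≤ ‖T x - T y‖ + δ → ‖T (t • x + (1 - t) • y) - (t • T x + (1 - t) • T y)‖ ≤ ε := by
  obtain ⟨δ, h1, h2⟩ := uc (X := X) hε
  refine ⟨δ / 2, half_pos h1, fun t ht T hT x y hx hy h => ?_⟩
  rcases ht.1.eq_or_lt with rfl | t0
  · simpa using hε.le
  rcases ht.2.eq_or_lt with rfl | t1
  · simpa using hε.le
  have t2 : 0 < 1 - t := by linarith
  have hm := comb_norm ht hx hy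
  set m := T (t • x + (1 - t) • y)
  have d2 : ‖x - y‖ ≤ 2 := (norm_sub_le _ _).trans (by linarith)
  have a1 : ‖t • (T x - m)‖ ≤ t * (1 - t) * ‖x - y‖ := by
    have := hT _ _ hx hm
    rw [show x - (t • x + (1 - t) • y) = (1 - t) • (x - y) by module, norm_smul,
      Real.norm_of_nonneg t2.le] at this
    rw [norm_smul, Real.norm_of_nonneg t0.le, mul_assoc]
    exact mul_le_mul_of_nonneg_left this t0.le
  have a2 : ‖(1 - t) • (m - T y)‖ ≤ t * (1 - t) * ‖x - y‖ := by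
    have := hT _ _ hm hy
    rw [show (t • x + (1 - t) • y) - y = t • (x - y) by module, norm_smul,
      Real.norm_of_nonneg t0.le] at this
    rw [norm_smul, Real.norm_of_nonneg t2.le, mul_comm t, mul_assoc]
    exact mul_le_mul_of_nonneg_left this t2.le
  by_contra hc
  have a3 := h2 _ _ _ (by nlinarith [norm_nonneg (x - y), mul_pos t0 t2]) a1 a2 (by
    rw [show t • (T x - m) - (1 - t) • (m - T y) = -(m - (t • T x + (1 - t) • T y)) by module,
      norm_neg]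
    exact (not_le.1 hc).le)
  have e : (t * (1 - t)) • (T x - T y) = (t * (1 - t)) • (t • (T x - m) + (1 - t) • (m - T y)) +
      ((1 - t) ^ 2 • t • (T x - m) + t ^ 2 • (1 - t) • (m - T y)) := by module
  have a4 := (congrArg norm e).le.trans ((norm_add_le _ _).trans (add_le_add le_rfl (norm_add_le _ _)))
  rw [norm_smul, norm_smul, norm_smul ((1 - t) ^ 2), norm_smul (t ^ 2),
    Real.norm_of_nonneg (mul_pos t0 t2).le, Real.norm_of_nonneg (sq_nonneg _),
    Real.norm_of_nonneg (sq_nonneg _)] at a4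
  have b1 := mul_le_mul_of_nonneg_left a1 (sq_nonneg (1 - t))
  have b2 := mul_le_mul_of_nonneg_left a2 (sq_nonneg t)
  have b3 := mul_le_mul_of_nonneg_left a3 (mul_pos t0 t2).le
  have b4 := mul_le_mul_of_nonneg_left h (mul_pos t0 t2).le
  nlinarith [mul_pos (mul_pos t0 t2) h1]

def WL (W : Filter X) (u : X) : Prop := ∀ C : Set X, IsClosed C → Convex ℝ C → C ∈ W → u ∈ C

theorem exists_wl [CompleteSpace X] (W : Filter X) [W.NeBot] (h : ∀ᶠ w in W, ‖w‖ ≤ 1) :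
    ∃ u, WL W u := by
  let J := {C : Set X // IsClosed C ∧ Convex ℝ C ∧ C ∈ W}
  let S := {r : ℝ | ∃ C : J, ∀ x ∈ C.1, r ≤ ‖x‖}
  have j0 : Nonempty J := ⟨⟨univ, isClosed_univ, convex_univ, univ_mem⟩⟩
  have s0 : S.Nonempty := ⟨0, j0.some, fun _ _ => norm_nonneg _⟩
  have s1 : ∀ r ∈ S, r ≤ 1 := by
    rintro r ⟨C, hC⟩
    obtain ⟨x, h1, h2⟩ := (h.and C.2.2.2).exists
    exact (hC x h2).trans h1
  let F : Filter X := ⨅ j : J × Ioi (0 : ℝ), 𝓟 (j.1.1 ∩ closedBall 0 (sSup S + j.2))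
  have hF : F.NeBot := by
    refine iInf_neBot_of_directed' (fun a b => ⟨(⟨a.1.1 ∩ b.1.1, a.1.2.1.inter b.1.2.1,
      a.1.2.2.1.inter b.1.2.2.1, inter_mem a.1.2.2.2 b.1.2.2.2⟩, min a.2 b.2), ?_, ?_⟩) fun j => ?_
    · exact principal_mono.2 (inter_subset_inter inter_subset_left (closedBall_subset_closedBall
        (add_le_add le_rfl (Subtype.coe_le_coe.2 (min_le_left _ _)))))
    · exact principal_mono.2 (inter_subset_inter inter_subset_right (closedBall_subset_closedBall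
        (add_le_add le_rfl (Subtype.coe_le_coe.2 (min_le_right _ _)))))
    · rw [principal_neBot_iff]
      by_contra hc
      have := le_csSup ⟨1, s1⟩ (show sSup S + j.2 ∈ S from ⟨j.1, fun x hx => by
        by_contra h1
        exact hc ⟨x, hx, by simpa using (not_le.1 h1).le⟩⟩)
      have : (0 : ℝ) < j.2 := j.2.2
      linarith
  obtain ⟨u, hu⟩ := CompleteSpace.complete (f := F) (Metric.cauchy_iff.2 ⟨hF, fun ε hε => by
    obtain ⟨δ, h1, h2⟩ := uc (X := X) hε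
    have η0 : 0 < min (δ / 8) 1 := by positivity
    obtain ⟨r, ⟨C, hC⟩, hr⟩ := exists_lt_of_lt_csSup s0
      (show sSup S - min (δ / 8) 1 < sSup S by linarith)
    refine ⟨_, mem_iInf_of_mem (C, ⟨_, η0⟩) (mem_principal_self _), fun x hx y hy => ?_⟩
    by_contra hc
    have a1 := h2 (sSup S + min (δ / 8) 1) x y (by linarith [csSup_le s0 s1, min_le_right (δ / 8) 1]) (by simpa using hx.2)
      (by simpa using hy.2) (by rw [← dist_eq_norm]; exact not_lt.1 hc)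
    have a2 := hC _ (C.2.2.1 hx.1 hy.1 (show (0 : ℝ) ≤ 1 / 2 by norm_num)
      (show (0 : ℝ) ≤ 1 / 2 by norm_num) (by norm_num))
    rw [← smul_add, norm_smul] at a2
    norm_num at a1 a2
    linarith [min_le_left (δ / 8) 1]⟩)
  refine ⟨u, fun C c1 c2 c3 => ?_⟩
  have hC : C ∈ F := mem_of_superset
    (mem_iInf_of_mem (⟨C, c1, c2, c3⟩, ⟨1, by simp⟩) (mem_principal_self _)) inter_subset_left
  exact c1.mem_of_tendsto (b := F) (f := id) hu hC

noncomputable def cmb (s : ℝ) (W P : Ultrafilter X) : Ultrafilter X :=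
  W.bind fun w => P.map fun p => s • w + (1 - s) • p

theorem ev_cmb {s : ℝ} {W P : Ultrafilter X} {q : X → Prop} :
    (∀ᶠ z in (cmb s W P : Filter X), q z) ↔
      ∀ᶠ w in (W : Filter X), ∀ᶠ p in (P : Filter X), q (s • w + (1 - s) • p) := Iff.rfl

theorem WL.cmb {W : Ultrafilter X} {u : X} (h : WL W u) (s : ℝ) : WL (cmb s W W) u := by
  intro C c1 c2 c3
  have a1 : ∀ᶠ w in (W : Filter X), s • w + (1 - s) • u ∈ C :=
    (ev_cmb.1 c3).mono fun w hw => h {p | s • w + (1 - s) • p ∈ C} (c1.preimage (by fun_prop))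
      (fun a ha b hb α β h1 h2 h3 => by
        have := c2 ha hb h1 h2 h3
        obtain rfl : α = 1 - β := by linarith
        have e : (1 - β) • (s • w + (1 - s) • a) + β • (s • w + (1 - s) • b) =
          s • w + (1 - s) • ((1 - β) • a + β • b) := by module
        rwa [e] at this) hw
  have := h {w | s • w + (1 - s) • u ∈ C} (c1.preimage (by fun_prop))
    (fun a ha b hb α β h1 h2 h3 => by
      have := c2 ha hb h1 h2 h3
      obtain rfl : α = 1 - β := by linarith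
      have e : (1 - β) • (s • a + (1 - s) • u) + β • (s • b + (1 - s) • u) =
        s • ((1 - β) • a + β • b) + (1 - s) • u := by module
      rwa [e] at this) a1
  have e : s • u + (1 - s) • u = u := by module
  rwa [Set.mem_ofPred_eq, e] at this

theorem shrink {Q : Ultrafilter X → Prop} (hQ : ∀ W, Q W → Q (cmb (1 / 2) W W)) {W : Ultrafilter X}
    {u : X} (h1 : Q W) (h2 : WL W u) (h3 : ∀ᶠ w in (W : Filter X), ‖w - u‖ ≤ 2) {ε : ℝ}
    (hε : 0 < ε) : ∃ W', Q W' ∧ ∀ᶠ w in (W' : Filter X), ‖w - u‖ ≤ ε := by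
  obtain ⟨δ, d1, d2⟩ := ucs (X := X) (ε := 1 / 2) (by norm_num)
  set κ := max (3 / 4) (1 - δ / 2) with hκ
  have k0 : 0 < κ := lt_max_of_lt_left (by norm_num)
  have key : ∀ j : ℕ, ∃ W', Q W' ∧ WL W' u ∧ ∀ᶠ w in (W' : Filter X), ‖w - u‖ ≤ κ ^ j * 2 := by
    intro j
    induction j with
    | zero => exact ⟨W, h1, h2, by simpa using h3⟩
    | succ j ih =>
      obtain ⟨W', a1, a2, a3⟩ := ih
      refine ⟨_, hQ _ a1, a2.cmb _, ev_cmb.2 (a3.mono fun w hw => ?_)⟩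
      have r0 : 0 < κ ^ j * 2 := by positivity
      have e : ∀ p : X, ‖(1 / 2 : ℝ) • w + (1 - 1 / 2 : ℝ) • p - u‖ = ‖(w - u) + (p - u)‖ / 2 :=
        fun p => by
          rw [show (1 / 2 : ℝ) • w + (1 - 1 / 2 : ℝ) • p - u = (1 / 2 : ℝ) • ((w - u) + (p - u)) by
            module, norm_smul]
          norm_num
          ring
      rw [pow_succ', mul_assoc]
      by_cases hc : ‖w - u‖ ≤ 1 / 2 * (κ ^ j * 2)
      · filter_upwards [a3] with p hp
        have := norm_add_le (w - u) (p - u)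
        rw [e]
        nlinarith [le_max_left (3 / 4) (1 - δ / 2)]
      · have : ∀ᶠ p in (W' : Filter X), ¬p ∈ closedBall w (1 / 2 * (κ ^ j * 2)) :=
          Ultrafilter.eventually_not.2 fun h => hc (by
            simpa [dist_eq_norm, norm_sub_rev] using a2 _ isClosed_closedBall (convex_closedBall _ _) h)
        filter_upwards [a3, this] with p hp hp'
        have := d2 _ _ _ r0 hw hp (by
          rw [mem_closedBall', dist_eq_norm] at hp'
          simpa using (not_le.1 hp').le)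
        rw [e]
        nlinarith [le_max_right (3 / 4) (1 - δ / 2)]
  obtain ⟨j, hj⟩ := exists_pow_lt_of_lt_one (half_pos hε)
    (max_lt (by norm_num) (by linarith) : κ < 1)
  obtain ⟨W', a1, -, a3⟩ := key j
  exact ⟨W', a1, a3.mono fun w hw => by linarith⟩

end Pool.Agent.H56.Erg
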