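import Pool.Agent.H56.Erg1

set_option autoImplicit false
set_option linter.unusedSectionVars false

namespace Pool.Agent.H56.Erg

open Filter Topology Set Metric

variable {X : Type} [NormedAddCommGroup X] [NormedSpace ℝ X] [UniformConvexSpace X] {U : X → X}

structure NE (U : X → X) : Prop where
  ball : ∀ x, ‖x‖ ≤ 1 → ‖U x‖ ≤ 1
  lip : ∀ x y, ‖x‖ ≤ 1 → ‖y‖ ≤ 1 → ‖U x - U y‖ ≤ ‖x - y‖

theorem NE.iter (h : NE U) (m : ℕ) : NE U^[m] := by
  induction m with
  | zero => exact ⟨fun _ h => h, fun _ _ _ _ => le_rfl⟩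
  | succ m ih =>
    exact ⟨fun x hx => ih.ball _ (h.ball x hx), fun x y hx hy =>
      (ih.lip _ _ (h.ball x hx) (h.ball y hy)).trans (h.lip x y hx hy)⟩

theorem tri (a b c : X) : ‖a - c‖ ≤ ‖a - b‖ + ‖b - c‖ := norm_sub_le_norm_sub_add_norm_sub a b c

theorem aff2 {ε : ℝ} (hε : 0 < ε) : ∃ δ, 0 < δ ∧ ∀ t ∈ Icc (0 : ℝ) 1, ∀ T : X → X, NE T →
    ∀ x y x' y', ‖x‖ ≤ 1 → ‖y‖ ≤ 1 → ‖T x - x'‖ ≤ δ → ‖T y - y'‖ ≤ δ → ‖x - y‖ ≤ ‖x' - y'‖ + δ →
    ‖T (t • x + (1 - t) • y) - (t • x' + (1 - t) • y')‖ ≤ ε := by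
  obtain ⟨δ, h1, h2⟩ := aff (X := X) (half_pos hε)
  refine ⟨min (δ / 3) (ε / 2), by positivity, fun t ht T hT x y x' y' hx hy a1 a2 a3 => ?_⟩
  have b1 := min_le_left (δ / 3) (ε / 2)
  have b2 := min_le_right (δ / 3) (ε / 2)
  have c1 := h2 t ht T hT.lip x y hx hy (by
    have := tri x' (T x) y'
    have := tri (T x) (T y) y'
    have := norm_sub_rev x' (T x)
    linarith)
  have c2 := comb_norm ht (a1.trans b2) (a2.trans b2)
  have := tri (T (t • x + (1 - t) • y)) (t • T x + (1 - t) • T y) (t • x' + (1 - t) • y')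
  rw [show t • T x + (1 - t) • T y - (t • x' + (1 - t) • y') =
    t • (T x - x') + (1 - t) • (T y - y') by module] at this
  linarith

def AFP (U : X → X) (P : Filter X) : Prop :=
  (∀ᶠ p in P, ‖p‖ ≤ 1) ∧ ∀ η > 0, ∀ᶠ p in P, ‖U p - p‖ ≤ η

theorem AFP.iter (h : NE U) {P : Filter X} (hP : AFP U P) (m : ℕ) : AFP U^[m] P := by
  refine ⟨hP.1, ?_⟩
  induction m with
  | zero => exact fun η hη => Eventually.of_forall fun p => by simpa using hη.le
  | succ m ih =>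
    intro η hη
    filter_upwards [hP.1, hP.2 _ (half_pos hη), ih _ (half_pos hη)] with p h1 h2 h3
    have := tri (U^[m] (U p)) (U^[m] p) p
    have := (h.iter m).lip _ _ (h.ball p h1) h1
    rw [Function.iterate_succ_apply]
    linarith

theorem AFP.cmb (h : NE U) {W P : Ultrafilter X} (hW : AFP U W) (hP : AFP U P) {s : ℝ}
    (hs : s ∈ Icc (0 : ℝ) 1) : AFP U (cmb s W P) := by
  refine ⟨ev_cmb.2 (hW.1.mono fun w hw => hP.1.mono fun p hp => comb_norm hs hw hp),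
    fun η hη => ev_cmb.2 ?_⟩
  obtain ⟨δ, h1, h2⟩ := aff2 (X := X) hη
  filter_upwards [hW.1, hW.2 δ h1] with w a1 a2
  filter_upwards [hP.1, hP.2 δ h1] with p b1 b2
  exact h2 s hs U h w p w p a1 b1 a2 b2 (by linarith)

theorem AFP.fix (h : NE U) {W : Ultrafilter X} (hW : AFP U W) {u : X} (hu : WL W u) :
    ‖u‖ ≤ 1 ∧ U u = u := by
  have h1 : ‖u‖ ≤ 1 := by
    simpa using hu (closedBall 0 1) isClosed_closedBall (convex_closedBall _ _)
      (hW.1.mono fun w hw => by simpa using hw)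
  refine ⟨h1, sub_eq_zero.1 (norm_le_zero_iff.1 (le_of_forall_pos_le_add fun ε hε => ?_))⟩
  obtain ⟨W', a1, a2⟩ := shrink (Q := fun W => AFP U W)
    (fun W hW => hW.cmb h hW (by constructor <;> norm_num)) hW hu
    (hW.1.mono fun w hw => (norm_sub_le _ _).trans (by linarith)) (show 0 < ε / 3 by positivity)
  obtain ⟨w, b1, b2, b3⟩ := (a1.1.and (a2.and (a1.2 (ε / 3) (by positivity)))).exists
  have := tri (U u) (U w) u
  have := tri (U w) w u
  have := h.lip u w h1 b1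
  have := norm_sub_rev u w
  linarith

def AO (U : X → X) (z : ℕ → X) : Prop :=
  (∀ n, ‖z n‖ ≤ 1) ∧ ∀ ε > 0, ∃ N, ∀ n ≥ N, ∀ m, ‖U^[m] (z n) - z (n + m)‖ ≤ ε

theorem ad {s : ℕ → ℝ} (h0 : ∀ n, 0 ≤ s n)
    (h : ∀ ε > 0, ∃ N, ∀ n ≥ N, ∀ m, s (n + m) ≤ s n + ε) :
    ∀ ε > 0, ∃ N, ∀ n ≥ N, ∀ m, s n ≤ s (n + m) + ε := by
  intro ε hε
  obtain ⟨N, hN⟩ := h _ (half_pos hε)
  obtain ⟨k, hk⟩ := exists_lt_of_ciInf_lt (f := fun k => s (N + k))
    (lt_add_of_pos_right _ (half_pos hε))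
  refine ⟨N + k, fun n hn m => ?_⟩
  obtain ⟨i, rfl⟩ := Nat.exists_eq_add_of_le hn
  have a1 := hN (N + k) (by omega) i
  have a2 := ciInf_le (f := fun k => s (N + k)) ⟨0, by rintro _ ⟨k, rfl⟩; exact h0 _⟩ (k + i + m)
  rw [show N + (k + i + m) = N + k + i + m by ring] at a2
  linarith

theorem AO.cmb (h : NE U) {z z' : ℕ → X} (hz : AO U z) (hz' : AO U z') {t : ℝ}
    (ht : t ∈ Icc (0 : ℝ) 1) : AO U fun n => t • z n + (1 - t) • z' n := by
  refine ⟨fun n => comb_norm ht (hz.1 n) (hz'.1 n), fun ε hε => ?_⟩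
  obtain ⟨δ, h1, h2⟩ := aff2 (X := X) hε
  obtain ⟨N1, a1⟩ := hz.2 δ h1
  obtain ⟨N2, a2⟩ := hz'.2 δ h1
  obtain ⟨N3, a3⟩ := ad (s := fun n => ‖z n - z' n‖) (fun _ => norm_nonneg _) (fun η hη => by
    obtain ⟨M1, b1⟩ := hz.2 _ (half_pos hη)
    obtain ⟨M2, b2⟩ := hz'.2 _ (half_pos hη)
    refine ⟨M1 + M2, fun n hn m => ?_⟩
    have := b1 n (by omega) m
    have := b2 n (by omega) m
    have := (h.iter m).lip _ _ (hz.1 n) (hz'.1 n)
    have := tri (z (n + m)) (U^[m] (z n)) (z' (n + m))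
    have := tri (U^[m] (z n)) (U^[m] (z' n)) (z' (n + m))
    have := norm_sub_rev (z (n + m)) (U^[m] (z n))
    linarith) δ h1
  exact ⟨N1 + N2 + N3, fun n hn m => h2 t ht _ (h.iter m) _ _ _ _ (hz.1 n) (hz'.1 n)
    (a1 n (by omega) m) (a2 n (by omega) m) (a3 n (by omega) m)⟩

noncomputable def av (y : ℕ → X) (k n : ℕ) : X :=
  ((k : ℝ) + 1)⁻¹ • ∑ j ∈ Finset.range (k + 1), y (n + j)

theorem av_succ (y : ℕ → X) (k n : ℕ) : av y (k + 1) n =
    (((k : ℝ) + 1) / (k + 2)) • av y k n + (1 - ((k : ℝ) + 1) / (k + 2)) • y (n + (k + 1)) := by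
  unfold av
  rw [Finset.sum_range_succ _ (k + 1)]
  push_cast
  match_scalars <;> field_simp <;> ring

theorem av_t (k : ℕ) : ((k : ℝ) + 1) / (k + 2) ∈ Icc (0 : ℝ) 1 :=
  ⟨by positivity, (div_le_one (by positivity)).2 (by linarith)⟩

theorem av_mem {C : Set X} (hC : Convex ℝ C) {y : ℕ → X} {n : ℕ} :
    ∀ k, (∀ j ≤ k, y (n + j) ∈ C) → av y k n ∈ C := by
  intro k
  induction k with
  | zero => exact fun h => by simpa [av] using h 0 le_rfl
  | succ k ih =>
    intro h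
    rw [av_succ]
    exact hC (ih fun j hj => h j (by omega)) (h _ le_rfl) (av_t k).1 (sub_nonneg.2 (av_t k).2)
      (by ring)

theorem av_shift {y : ℕ → X} (hy : ∀ n, ‖y n‖ ≤ 1) (l n i : ℕ) :
    ‖av y l (n + i) - av y l n‖ ≤ 2 * i / (l + 1) := by
  induction i with
  | zero => simp
  | succ i ih =>
    have e : av y l (n + (i + 1)) - av y l (n + i) =
        ((l : ℝ) + 1)⁻¹ • (y (n + i + (l + 1)) - y (n + i)) := by
      unfold av
      have a1 := Finset.sum_range_succ (fun j => y (n + i + j)) (l + 1)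
      have a2 := Finset.sum_range_succ' (fun j => y (n + i + j)) (l + 1)
      rw [← smul_sub]
      congr 1
      simp only [show ∀ j, n + (i + 1) + j = n + i + (j + 1) from fun j => by ring]
      rw [sub_eq_sub_iff_add_eq_add, add_comm (y _), ← a1, a2, add_zero]
    have a1 : ‖av y l (n + (i + 1)) - av y l (n + i)‖ ≤ 2 / (l + 1) := by
      rw [e, norm_smul, norm_inv, Real.norm_of_nonneg (by positivity), inv_mul_eq_div]
      gcongr
      exact (norm_sub_le _ _).trans (by linarith [hy (n + i + (l + 1)), hy (n + i)])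
    have := tri (av y l (n + (i + 1))) (av y l (n + i)) (av y l n)
    push_cast
    rw [mul_add, add_div, mul_one]
    linarith

theorem av_swap (y : ℕ → X) (k l n : ℕ) : av (av y k) l n = av (av y l) k n := by
  simp only [av, ← Finset.smul_sum]
  rw [smul_comm, Finset.sum_comm]
  simp only [add_right_comm n]

theorem small (a : ℝ) {ε : ℝ} (hε : 0 < ε) : ∀ᶠ l : ℕ in atTop, a / (l + 1) ≤ ε :=
  (tendsto_const_nhds.div_atTop (tendsto_atTop_add_const_right _ 1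
    tendsto_natCast_atTop_atTop)).eventually (eventually_le_nhds hε)

theorem spread {C : Set X} (hC : Convex ℝ C) {y : ℕ → X} (hy : ∀ n, ‖y n‖ ≤ 1) {k : ℕ}
    (h : ∀ᶠ n in atTop, av y k n ∈ C) {ε : ℝ} (hε : 0 < ε) :
    ∀ᶠ l in atTop, ∀ n, ∃ w ∈ C, ‖w - av y l n‖ ≤ ε := by
  obtain ⟨n0, h⟩ := eventually_atTop.1 h
  filter_upwards [small (2 * (n0 + k : ℕ)) hε] with l hl n
  refine ⟨_, av_mem hC (n := n + n0) l fun j _ => h _ (by omega), ?_⟩
  rw [av_swap, ← mem_closedBall_iff_norm]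
  refine av_mem (convex_closedBall _ _) k fun j hj => ?_
  rw [mem_closedBall_iff_norm, add_assoc]
  refine (av_shift hy l n _).trans (le_trans ?_ hl)
  gcongr

theorem ao_av (h : NE U) {x : X} (hx : ‖x‖ ≤ 1) (k : ℕ) : AO U (av (fun n => U^[n] x) k) := by
  have a : ∀ i, AO U fun n => U^[n + i] x := fun i => ⟨fun n => (h.iter _).ball x hx,
    fun ε hε => ⟨0, fun n _ m => by
      rw [← Function.iterate_add_apply, show m + (n + i) = n + m + i by ring]
      simpa using hε.le⟩⟩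
  induction k with
  | zero =>
    rw [show av (fun n => U^[n] x) 0 = fun n => U^[n + 0] x from funext fun n => by simp [av]]
    exact a 0
  | succ k ih =>
    have := ih.cmb h (a (k + 1)) (av_t k)
    rwa [show av (fun n => U^[n] x) (k + 1) = _ from funext (av_succ _ k)]

end Pool.Agent.H56.Erg
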