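import Pool.Agent.H56.Erg2

set_option autoImplicit false
set_option linter.unusedSectionVars false

namespace Pool.Agent.H56.Erg

open Filter Topology Set Metric

variable {X : Type} [NormedAddCommGroup X] [NormedSpace ℝ X] [UniformConvexSpace X] {U : X → X}

def A (P : Filter X) (t : ℝ) (u : X) (c : ℝ) : Set X :=
  {z | ∀ η > 0, ∀ᶠ p in P, ‖t • z + (1 - t) • p - u‖ ≤ c + η}

variable {P : Ultrafilter X} {t c : ℝ} {u v z : X}

theorem A_lip (ht : t ∈ Icc (0 : ℝ) 1) (h : z ∈ A P t u c) {z' : X} {r : ℝ} (hr : ‖z - z'‖ ≤ r) :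
    z' ∈ A P t u (c + r) := fun η hη => (h η hη).mono fun p hp => by
  have := norm_sub_le (t • z + (1 - t) • p - u) (t • (z - z'))
  rw [show t • z + (1 - t) • p - u - t • (z - z') = t • z' + (1 - t) • p - u by module,
    norm_smul, Real.norm_of_nonneg ht.1] at this
  nlinarith [norm_nonneg (z - z'), ht.1, ht.2]

theorem A_eps (h : ∀ ε > 0, z ∈ A P t u (c + ε)) : z ∈ A P t u c := fun η hη =>
  (h _ (half_pos hη) _ (half_pos hη)).mono fun p hp => by linarith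

theorem A_closed (ht : t ∈ Icc (0 : ℝ) 1) : IsClosed (A P t u c) := by
  refine isClosed_of_closure_subset fun z hz => A_eps fun ε hε => ?_
  obtain ⟨w, h1, h2⟩ := Metric.mem_closure_iff.1 hz ε hε
  exact A_lip ht h1 (by rw [← dist_eq_norm, dist_comm]; exact h2.le)

theorem A_convex : Convex ℝ (A P t u c) := fun a ha b hb α β h1 h2 h3 η hη => by
  filter_upwards [ha η hη, hb η hη] with p a1 a2
  obtain rfl : β = 1 - α := by linarith
  have := comb_norm ⟨h1, by linarith⟩ a1 a2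
  rwa [show α • (t • a + (1 - t) • p - u) + (1 - α) • (t • b + (1 - t) • p - u) =
    t • (α • a + (1 - α) • b) + (1 - t) • p - u by module] at this

theorem key1 (h : NE U) (hP : AFP U P) (ht : t ∈ Icc (0 : ℝ) 1) (u1 : ‖u‖ ≤ 1) (u2 : U u = u)
    {z : ℕ → X} (hz : AO U z) {ε : ℝ} (hε : 0 < ε) :
    ∃ N, ∀ n ≥ N, ∀ m, z n ∈ A P t u c → z (n + m) ∈ A P t u (c + ε) := by
  have hl : ∀ n, ∃ l ∈ Icc (0 : ℝ) 2, Tendsto (fun p => ‖z n - p‖) P (𝓝 l) := fun n =>
    isCompact_Icc.ultrafilter_le_nhds (P.map fun p => ‖z n - p‖) (le_principal_iff.2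
      (hP.1.mono fun p hp => ⟨norm_nonneg _, (norm_sub_le _ _).trans (by linarith [hz.1 n])⟩))
  choose l l1 l2 using hl
  obtain ⟨δ, h1, h2⟩ := aff2 (X := X) hε
  obtain ⟨N1, a1⟩ := hz.2 δ h1
  obtain ⟨N2, a2⟩ := ad (s := l) (fun n => (l1 n).1) (fun η hη => by
    obtain ⟨M, b1⟩ := hz.2 _ (half_pos hη)
    refine ⟨M, fun n hn m => le_of_tendsto_of_tendsto (l2 (n + m)) ((l2 n).add_const η) ?_⟩
    filter_upwards [hP.1, (hP.iter h m).2 _ (half_pos hη)] with p p1 p2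
    have := b1 n hn m
    have := (h.iter m).lip _ _ (hz.1 n) p1
    have := tri (z (n + m)) (U^[m] (z n)) p
    have := tri (U^[m] (z n)) (U^[m] p) p
    have := norm_sub_rev (z (n + m)) (U^[m] (z n))
    linarith) _ (half_pos h1)
  refine ⟨N1 + N2, fun n hn m hc η hη => ?_⟩
  filter_upwards [hP.1, (hP.iter h m).2 _ h1, hc η hη, ((l2 n).sub (l2 (n + m))).eventually
    (eventually_le_nhds (show _ < δ by linarith [a2 n (by omega) m]))] with p p1 p2 p3 p4
  have b1 := h2 t ht _ (h.iter m) _ _ _ _ (hz.1 n) p1 (a1 n (by omega) m) p2 (by linarith)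
  have b2 := (h.iter m).lip _ _ (comb_norm ht (hz.1 n) p1) u1
  rw [Function.iterate_fixed u2] at b2
  have := tri (t • z (n + m) + (1 - t) • p) (U^[m] (t • z n + (1 - t) • p)) u
  rw [norm_sub_rev] at b1
  linarith

noncomputable def G (y : ℕ → X) : Filter X := atTop.bind fun k => atTop.map (av y k)

theorem mem_G {y : ℕ → X} {s : Set X} :
    s ∈ G y ↔ ∀ᶠ k in atTop, ∀ᶠ n in atTop, av y k n ∈ s := Iff.rfl

theorem afp_G {y : ℕ → X} (hy : ∀ n, ‖y n‖ ≤ 1) (h : ∀ k, AO U (av y k)) : AFP U (G y) := by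
  refine ⟨mem_G.2 (.of_forall fun k => .of_forall (h k).1), fun η hη => mem_G.2 ?_⟩
  filter_upwards [small 2 (half_pos hη)] with k hk
  obtain ⟨N, hN⟩ := (h k).2 _ (half_pos hη)
  filter_upwards [eventually_ge_atTop N] with n hn
  have a1 := hN n hn 1
  have a2 := av_shift hy k n 1
  have := tri (U (av y k n)) (av y k (n + 1)) (av y k n)
  simp only [Function.iterate_one, Nat.cast_one, mul_one] at a1 a2
  show ‖U (av y k n) - av y k n‖ ≤ η
  linarith

theorem key2 (h : NE U) (hP : AFP U P) (ht : t ∈ Icc (0 : ℝ) 1) (u1 : ‖u‖ ≤ 1) (u2 : U u = u)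
    {y : ℕ → X} (hy : ∀ n, ‖y n‖ ≤ 1) (ha : ∀ k, AO U (av y k)) {W V : Ultrafilter X}
    (hW : ↑W ≤ G y) (hV : ↑V ≤ G y) (hv : WL V v) (hc : A P t u c ∈ W) : v ∈ A P t u c := by
  obtain ⟨k, hk⟩ : ∃ k, ∃ᶠ n in atTop, av y k n ∈ A P t u c := by
    by_contra hn
    exact Ultrafilter.compl_notMem_iff.2 hc (hW (mem_G.2 (.of_forall fun k =>
      not_frequently.1 (not_exists.1 hn k))))
  refine A_eps fun ε hε => hv _ (A_closed ht) A_convex (hV (mem_G.2 ?_))
  obtain ⟨N, hN⟩ := key1 (c := c) h hP ht u1 u2 (ha k) (half_pos hε)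
  obtain ⟨n, n1, n2⟩ := (hk.and_eventually (eventually_ge_atTop N)).exists
  filter_upwards [spread (C := A P t u (c + ε / 2)) A_convex hy (k := k)
    ((eventually_ge_atTop n).mono fun j hj => by
      obtain ⟨m, rfl⟩ := Nat.exists_eq_add_of_le hj
      exact hN n n2 m n1) (half_pos hε)] with l hl
  refine .of_forall fun j => ?_
  obtain ⟨w, w1, w2⟩ := hl j
  simpa [add_assoc] using A_lip ht w1 w2

def Good (U : X → X) (u v : X) (W : Ultrafilter X) : Prop :=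
  AFP U W ∧ ∀ P : Ultrafilter X, AFP U P → ∀ t ∈ Icc (0 : ℝ) 1, ∀ c, A P t u c ∈ W → v ∈ A P t u c

theorem Good.cmb (h : NE U) (v1 : ‖v‖ ≤ 1) (v2 : U v = v) {W : Ultrafilter X} (hW : Good U u v W) :
    Good U u v (cmb (1 / 2) W W) := by
  refine ⟨hW.1.cmb h hW.1 (by constructor <;> norm_num), fun P hP t ht c hc => ?_⟩
  have t2 : 0 < 2 - t := by linarith [ht.2]
  have hs : t / (2 - t) ∈ Icc (0 : ℝ) 1 :=
    ⟨div_nonneg ht.1 t2.le, (div_le_one t2).2 (by linarith [ht.2])⟩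
  have ht' : t / 2 ∈ Icc (0 : ℝ) 1 := ⟨by linarith [ht.1], by linarith [ht.2]⟩
  have e : ∀ a b p : X, (t / 2) • a + (1 - t / 2) • ((t / (2 - t)) • b + (1 - t / (2 - t)) • p) =
      t • ((1 / 2 : ℝ) • a + (1 - 1 / 2 : ℝ) • b) + (1 - t) • p := fun a b p => by
    match_scalars <;> field_simp <;> ring
  have a1 := hW.2 _ (hW.1.cmb h hP hs) _ ht' c ((ev_cmb.1 hc).mono fun w hw η hη =>
    ev_cmb.2 (hw.mono fun w' hw' => (hw' η hη).mono fun p hp => by rwa [e]))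
  have hv : AFP U (pure v : Ultrafilter X) := ⟨v1, fun η hη => by
    show ‖U v - v‖ ≤ η
    simpa [v2] using hη.le⟩
  refine A_eps fun ε hε η hη => ?_
  have a2 := hW.2 _ (hv.cmb h hP hs) _ ht' (c + ε) ((ev_cmb.1 (a1 ε hε)).mono fun w hw η hη =>
    ev_cmb.2 (show ∀ᶠ p in (P : Filter X), _ from hw.mono fun p hp => by
      rw [e] at hp ⊢
      rw [show (1 / 2 : ℝ) • w + (1 - 1 / 2 : ℝ) • v = (1 / 2 : ℝ) • v + (1 - 1 / 2 : ℝ) • w by
        module]
      linarith))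
  have a3 := ev_cmb.1 (a2 η hη)
  rw [Ultrafilter.coe_pure, eventually_pure] at a3
  refine a3.mono fun p hp => ?_
  rwa [e, show (1 / 2 : ℝ) • v + (1 - 1 / 2 : ℝ) • v = v by module] at hp

theorem uniq (h : NE U) {y : ℕ → X} (hy : ∀ n, ‖y n‖ ≤ 1) (ha : ∀ k, AO U (av y k))
    {W V : Ultrafilter X} (hW : ↑W ≤ G y) (hV : ↑V ≤ G y) (hu : WL W u) (hv : WL V v) : v = u := by
  have g := afp_G hy ha
  have w1 : AFP U W := ⟨hW g.1, fun η hη => hW (g.2 η hη)⟩
  have w2 : AFP U V := ⟨hV g.1, fun η hη => hV (g.2 η hη)⟩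
  obtain ⟨u1, u2⟩ := w1.fix h hu
  obtain ⟨v1, v2⟩ := w2.fix h hv
  refine sub_eq_zero.1 (norm_le_zero_iff.1 (le_of_forall_pos_le_add fun ε hε => ?_))
  obtain ⟨W', a1, a2⟩ := shrink (Q := Good U u v) (fun W hW => hW.cmb h v1 v2)
    ⟨w1, fun P hP t ht c hc => key2 h hP ht u1 u2 hy ha hW hV hv hc⟩ hu
    (w1.1.mono fun w hw => (norm_sub_le _ _).trans (by linarith)) (half_pos hε)
  obtain ⟨p, hp⟩ := (a1.2 W w1 1 ⟨zero_le_one, le_rfl⟩ (ε / 2) (a2.mono fun w hw η hη =>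
    .of_forall fun p => by simpa using hw.trans (by linarith)) _ (half_pos hε)).exists
  simpa using hp

theorem main [CompleteSpace X] (h : NE U) {y : ℕ → X} (hy : ∀ n, ‖y n‖ ≤ 1)
    (ha : ∀ k, AO U (av y k)) :
    ∃ u, ‖u‖ ≤ 1 ∧ U u = u ∧ ∀ f : X →L[ℝ] ℝ, Tendsto (fun l => f (av y l 0)) atTop (𝓝 (f u)) := by
  have g := afp_G hy ha
  have : (G y).NeBot := ⟨fun hb => by
    obtain ⟨k, hk⟩ := (mem_G.1 (show ∅ ∈ G y by rw [hb]; exact mem_bot)).exists
    exact hk.exists.elim fun _ h => h⟩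
  have hW := Ultrafilter.of_le (G y)
  obtain ⟨u, hu⟩ := exists_wl (Ultrafilter.of (G y) : Filter X) (hW g.1)
  obtain ⟨u1, u2⟩ := AFP.fix h ⟨hW g.1, fun η hη => hW (g.2 η hη)⟩ hu
  have key : ∀ f : X →L[ℝ] ℝ, ∀ a > f u, ∀ᶠ l in atTop, f (av y l 0) < a := by
    intro f a h1
    have b1 : {ζ | f ζ < (a + f u) / 2} ∈ G y := mem_iff_ultrafilter.2 fun V hV => by
      by_contra hn
      obtain ⟨v, hv⟩ := exists_wl (V : Filter X) (hV g.1)
      have := hv {ζ | (a + f u) / 2 ≤ f ζ} (isClosed_le continuous_const f.continuous)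
        (convex_halfSpace_ge f.toLinearMap.isLinear _)
        (mem_of_superset (Ultrafilter.compl_mem_iff_notMem.2 hn) fun ζ hζ =>
          (not_lt.1 (show ¬f ζ < (a + f u) / 2 from hζ) :))
      rw [uniq h hy ha hW hV hu hv, Set.mem_ofPred_eq] at this
      linarith
    obtain ⟨k, hk⟩ := (mem_G.1 b1).exists
    have f0 : 0 < ‖f‖ + 1 := by positivity
    filter_upwards [spread (convex_halfSpace_lt f.toLinearMap.isLinear _) hy hk
      (show 0 < (a - f u) / 2 / (‖f‖ + 1) from div_pos (by linarith) f0)] with l hl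
    obtain ⟨w, w1, w2⟩ := hl 0
    have c1 := f.le_opNorm (w - av y l 0)
    rw [le_div_iff₀ f0] at w2
    rw [map_sub, Real.norm_eq_abs] at c1
    have : f w < (a + f u) / 2 := w1
    nlinarith [neg_abs_le (f w - f (av y l 0)), norm_nonneg (w - av y l 0)]
  refine ⟨u, u1, u2, fun f => tendsto_order.2 ⟨fun a ha => ?_, key f⟩⟩
  exact (key (-f) (-a) (by simpa using ha)).mono fun l hl => by simpa using hl

end Pool.Agent.H56.Erg
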