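import Mathlib
namespace Pool.Agent.H56.Fb1
open FreeGroup
variable {B : Type*}

def lt (s : B × Bool) : FreeGroup B := FreeGroup.mk [s]
def bar (s : B × Bool) : B × Bool := (s.1, !s.2)

lemma lt_bar (s : B × Bool) : lt (bar s) = (lt s)⁻¹ := by
  simp [lt, bar, FreeGroup.inv_mk, FreeGroup.invRev]

lemma bar_bar (s : B × Bool) : bar (bar s) = s := by simp [bar]

lemma bar_ne (s : B × Bool) : bar s ≠ s := by
  obtain ⟨a, b⟩ := s
  cases b <;> simp [bar]

lemma bar_inj {s t : B × Bool} (h : bar s = bar t) : s = t := by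
  rw [← bar_bar s, h, bar_bar]

def Adj (T : Set (FreeGroup B)) (x y : FreeGroup B) : Prop :=
  x ∈ T ∧ y ∈ T ∧ ∃ s, y = x * lt s

lemma Adj.symm {T : Set (FreeGroup B)} {x y : FreeGroup B} (h : Adj T x y) : Adj T y x := by
  obtain ⟨h1, h2, s, rfl⟩ := h
  exact ⟨h2, h1, bar s, by simp [lt_bar]⟩

variable [DecidableEq B]

lemma tw (a : B × Bool) (w : FreeGroup B) :
    toWord (lt a * w) = a :: toWord w ∨ toWord w = bar a :: toWord (lt a * w) := by
  have h : lt a * w = FreeGroup.mk (a :: toWord w) := by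
    conv_lhs => rw [← mk_toWord (x := w)]
    simp [lt, FreeGroup.mul_mk]
  rw [h, toWord_mk, reduce.cons, reduce_toWord]
  cases toWord w with
  | nil => left; rfl
  | cons hd tl =>
    by_cases hc : a.1 = hd.1 ∧ a.2 = not hd.2
    · right
      simp only [hc, and_self, if_true]
      obtain ⟨x, y⟩ := hd
      obtain ⟨u, v⟩ := a
      simp only at hc
      obtain ⟨rfl, rfl⟩ := hc
      simp [bar]
    · left
      simp only [hc, if_false]

def q (s : B × Bool) (w : FreeGroup B) : Prop := (toWord w).getLast? = some s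

lemma not_q_one (s : B × Bool) : ¬ q s (1 : FreeGroup B) := by simp [q]

lemma bb {s a : B × Bool} {w : FreeGroup B} (h1 : ¬ q s w) (h2 : q s (lt a * w)) :
    w = 1 ∧ a = s := by
  unfold q at h1 h2
  rcases tw a w with h | h
  · rw [h] at h2
    cases hw : toWord w with
    | nil =>
      rw [hw] at h2
      exact ⟨toWord_eq_nil_iff.1 hw, by simpa using h2⟩
    | cons hd tl =>
      rw [hw] at h2 h1
      rw [List.getLast?_cons_cons] at h2
      exact absurd h2 h1
  · rw [h] at h1
    cases hw : toWord (lt a * w) with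
    | nil => rw [hw] at h2; simp at h2
    | cons hd tl =>
      rw [hw] at h2 h1
      rw [List.getLast?_cons_cons] at h1
      exact absurd h2 h1

lemma ww {s : B × Bool} {w : FreeGroup B} (h1 : ¬ q s w) :
    ∀ L : List (B × Bool), q s (FreeGroup.mk L * w) →
      ∃ L1 L2, L = L1 ++ L2 ∧ FreeGroup.mk L2 * w = 1 := by
  intro L
  induction L with
  | nil => intro h; exact absurd (by simpa [← FreeGroup.one_eq_mk] using h) h1
  | cons a L ih =>
    intro h
    by_cases hq : q s (FreeGroup.mk L * w)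
    · obtain ⟨L1, L2, e1, e2⟩ := ih hq
      exact ⟨a :: L1, L2, by simp [e1], e2⟩
    · have : FreeGroup.mk (a :: L) * w = lt a * (FreeGroup.mk L * w) := by
        rw [← mul_assoc]; simp [lt, FreeGroup.mul_mk]
      rw [this] at h
      exact ⟨[a], L, rfl, (bb hq h).1⟩

lemma cc {s : B × Bool} {L : List (B × Bool)} {g k : FreeGroup B} (hg : toWord g = s :: L)
    (hn : norm k ≤ norm g) (hk : k ≠ g) : q (bar s) (k * g⁻¹) := by
  by_contra hq
  have h0 : q (bar s) g⁻¹ := by
    unfold q
    rw [toWord_inv, hg]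
    simp [FreeGroup.invRev, bar]
  have h1 : FreeGroup.mk (toWord k⁻¹) * (k * g⁻¹) = g⁻¹ := by rw [mk_toWord]; simp
  obtain ⟨L1, L2, e1, e2⟩ := ww hq (toWord k⁻¹) (by rw [h1]; exact h0)
  have h2 : g⁻¹ = FreeGroup.mk L1 := by
    rw [← h1, e1, ← FreeGroup.mul_mk, mul_assoc, e2, mul_one]
  have h3 : norm g ≤ L1.length := by
    rw [← norm_inv_eq, h2]; exact norm_mk_le
  have h4 : norm k = L1.length + L2.length := by
    rw [← norm_inv_eq, FreeGroup.norm, e1, List.length_append]
  have h5 : L2 = [] := List.length_eq_zero_iff.1 (by omega)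
  rw [h5, ← FreeGroup.one_eq_mk, one_mul] at e2
  exact hk (mul_inv_eq_one.1 e2)

lemma dd {s t : B × Bool} {g : FreeGroup B} (h1 : norm (g * lt s) ≤ norm g)
    (h2 : norm (g * lt t) ≤ norm g) : s = t := by
  have key : ∀ s : B × Bool, norm (g * lt s) ≤ norm g → (toWord g⁻¹).head? = some s := by
    intro s h
    rw [← norm_inv_eq, ← norm_inv_eq (x := g), mul_inv_rev, ← lt_bar] at h
    rcases tw (bar s) g⁻¹ with e | e
    · unfold FreeGroup.norm at h
      rw [e] at h
      simp at h
    · rw [e, bar_bar]; rfl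
  have := (key s h1).symm.trans (key t h2)
  simpa using this

lemma aa {s : B × Bool} {L : List (B × Bool)} {g : FreeGroup B} (hg : toWord g = s :: L) :
    norm ((lt s)⁻¹ * g) < norm g := by
  have h : (lt s)⁻¹ * g = FreeGroup.mk L := by
    rw [← mk_toWord (x := g), hg, inv_mul_eq_iff_eq_mul]
    simp [lt, FreeGroup.mul_mk]
  have h2 : norm g = L.length + 1 := by rw [FreeGroup.norm, hg]; rfl
  have := norm_mk_le (L₁ := L)
  rw [h]; omega

lemma conv {T : Set (FreeGroup B)} {t u : FreeGroup B} {s : B × Bool}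
    (h : Relation.ReflTransGen (Adj T) t u) : q (bar s) (u⁻¹ * t) → t * lt s ∈ T := by
  induction h with
  | refl => intro h; simp only [inv_mul_cancel] at h; exact absurd h (not_q_one _)
  | @tail x y _ hxy ih =>
    intro h
    obtain ⟨_, hy, a, rfl⟩ := hxy
    by_cases hq : q (bar s) (x⁻¹ * t)
    · exact ih hq
    · rw [mul_inv_rev, mul_assoc, ← lt_bar] at h
      obtain ⟨e1, e2⟩ := bb hq h
      have e3 : x = t := inv_mul_eq_one.1 e1
      rw [← e3, ← bar_inj e2]; exact hy

lemma ee {s t : B × Bool} (h : s ≠ t) : q s ((lt t)⁻¹ * lt s) := by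
  have h0 : toWord (lt s) = [s] := by simp [lt, toWord_mk]
  rw [← lt_bar]
  unfold q
  rcases tw (bar t) (lt s) with e | e
  · rw [e, h0]; rfl
  · rw [h0, bar_bar] at e
    exact absurd (List.cons.inj e).1 h

end Pool.Agent.H56.Fb1
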