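import Pool.Agent.H56.Fb1
namespace Pool.Agent.H56.Fb2
open Pool.Agent.H56.Fb1
variable {K : Type*} [Field K] {B : Type*}

abbrev AA (K : Type*) [Field K] (B : Type*) := MonoidAlgebra K (FreeGroup B)

noncomputable def u (K : Type*) [Field K] (g : FreeGroup B) : AA K B := MonoidAlgebra.single g 1

lemma u_mul (g h : FreeGroup B) : u K g * u K h = u K (g * h) := by simp [u]
lemma u_one : u K (1 : FreeGroup B) = 1 := rfl
lemma coeff_mul_u (x : AA K B) (g h : FreeGroup B) : (x * u K g).coeff h = x.coeff (h * g⁻¹) := by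
  simp [u]
lemma back (x : AA K B) (s : B × Bool) : x * u K (lt s) * u K (lt (bar s)) = x := by
  rw [mul_assoc, u_mul, lt_bar, mul_inv_cancel, u_one, mul_one]

noncomputable def ev : (FreeGroup B →₀ AA K B) →ₗ[K] AA K B :=
  Finsupp.lsum K (fun g => LinearMap.mulRight K (u K g))

lemma ev_single (g : FreeGroup B) (x : AA K B) : ev (Finsupp.single g x) = x * u K g := by
  simp [ev]

lemma ev_eq (v : FreeGroup B →₀ AA K B) : ev v = ∑ g ∈ v.support, v g * u K g := by
  simp [ev, Finsupp.sum]

noncomputable def mp (θ : AA K B →ₗ[K] AA K B) :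
    (FreeGroup B →₀ AA K B) →ₗ[K] (FreeGroup B →₀ AA K B) := Finsupp.mapRange.linearMap θ

lemma mp_apply (θ : AA K B →ₗ[K] AA K B) (v : FreeGroup B →₀ AA K B) (g : FreeGroup B) :
    mp θ v g = θ (v g) := by simp [mp]

lemma mp_single (θ : AA K B →ₗ[K] AA K B) (g : FreeGroup B) (x : AA K B) :
    mp θ (Finsupp.single g x) = Finsupp.single g (θ x) := by simp [mp]

noncomputable def fam (x a : AA K B) : FreeGroup B →₀ AA K B :=
  Finsupp.mapRange.linearMap (LinearMap.toSpanSingleton K (AA K B) x) a.coeff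

lemma fam_apply (x a : AA K B) (g : FreeGroup B) : fam x a g = a.coeff g • x := by simp [fam]

lemma ev_fam (x a : AA K B) : ev (fam x a) = x * a := by
  induction a using MonoidAlgebra.induction_linear with
  | zero => simp [fam]
  | add a b ha hb =>
    have : fam x (a + b) = fam x a + fam x b := by
      unfold fam; rw [MonoidAlgebra.coeff_add, map_add]
    rw [this, map_add, ha, hb, mul_add]
  | single g c =>
    have : fam x (MonoidAlgebra.single g c) = Finsupp.single g (c • x) := by simp [fam]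
    rw [this, ev_single, smul_mul_assoc, ← mul_smul_comm, u, MonoidAlgebra.smul_single]
    simp

def Compat (V : Submodule K (AA K B)) (θ : AA K B →ₗ[K] AA K B) : Prop :=
  ∀ v ∈ V, ∀ s, v * u K (lt s) ∈ V → θ (v * u K (lt s)) = θ v * u K (lt s)

def PP (V : Submodule K (AA K B)) : Prop :=
  ∀ θ, Compat V θ → ∀ v : FreeGroup B →₀ AA K B, (∀ g, v g ∈ V) → ev v = 0 → ev (mp θ v) = 0

def Uniq (V : Submodule K (AA K B)) (lam : AA K B →ₗ[K] K) : Prop :=
  ∀ s t v w, v ∈ V → v * u K (lt s) ∈ V → lam v ≠ 0 → w ∈ V → w * u K (lt t) ∈ V → lam w ≠ 0 →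
    s = t

lemma span_fam (V : Submodule K (AA K B)) {x : AA K B}
    (hx : x ∈ Submodule.span (AA K B)ᵐᵒᵖ (V : Set (AA K B))) :
    ∀ a, ∃ v : FreeGroup B →₀ AA K B, (∀ g, v g ∈ V) ∧ ev v = x * a := by
  induction hx using Submodule.span_induction with
  | mem x hx => exact fun a => ⟨fam x a, fun g => by rw [fam_apply]; exact V.smul_mem _ hx, ev_fam x a⟩
  | zero => exact fun a => ⟨0, fun g => by simp, by simp⟩
  | add x y _ _ hx hy =>
    intro a
    obtain ⟨v, h1, h2⟩ := hx a
    obtain ⟨w, h3, h4⟩ := hy a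
    exact ⟨v + w, fun g => V.add_mem (h1 g) (h3 g), by rw [map_add, h2, h4, add_mul]⟩
  | smul b x _ hx =>
    intro a
    obtain ⟨v, h1, h2⟩ := hx (b.unop * a)
    exact ⟨v, h1, by rw [h2, MulOpposite.smul_eq_mul_unop, mul_assoc]⟩

lemma normal {V : Submodule K (AA K B)} {lam : AA K B →ₗ[K] K}
    (hc : ∃ h s, h ∈ V ∧ h * u K (lt s) ∈ V ∧ lam h ≠ 0) :
    ∃ h s, h ∈ V ∧ h * u K (lt s) ∈ V ∧ lam h = 1 := by
  obtain ⟨h, s, h1, h2, h3⟩ := hc
  refine ⟨(lam h)⁻¹ • h, s, V.smul_mem _ h1, ?_, ?_⟩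
  · rw [smul_mul_assoc]; exact V.smul_mem _ h2
  · rw [map_smul, smul_eq_mul, inv_mul_cancel₀ h3]

lemma kill {V : Submodule K (AA K B)} {lam : AA K B →ₗ[K] K} (hU : Uniq V lam)
    {h : AA K B} {s : B × Bool} (h1 : h ∈ V) (h2 : h * u K (lt s) ∈ V) (h3 : lam h = 1)
    {v : AA K B} (hv : v ∈ V) (hv2 : v * u K (lt s) ∈ V) : lam (v * u K (lt s)) = 0 := by
  by_contra hne
  exact bar_ne s (hU (bar s) s _ h hv2 (by rw [back]; exact hv) hne h1 h2 (by rw [h3]; exact one_ne_zero))

lemma step_PP {V : Submodule K (AA K B)} {lam : AA K B →ₗ[K] K} (hU : Uniq V lam) (hP : PP V) :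
    PP (V ⊓ LinearMap.ker lam) := by
  intro θ' hθ' v hv h0
  obtain ⟨θ, hθ, hag⟩ : ∃ θ, Compat V θ ∧ ∀ x ∈ V ⊓ LinearMap.ker lam, θ x = θ' x := by
    by_cases hc : ∃ h s, h ∈ V ∧ h * u K (lt s) ∈ V ∧ lam h ≠ 0
    · obtain ⟨h, s0, h1, h2, h3⟩ := normal hc
      refine ⟨θ' + lam.smulRight (θ' (h * u K (lt s0)) * u K (lt (bar s0)) - θ' h), ?_, ?_⟩
      · have main : ∀ v ∈ V, v * u K (lt s0) ∈ V →
            (θ' + lam.smulRight (θ' (h * u K (lt s0)) * u K (lt (bar s0)) - θ' h))
              (v * u K (lt s0)) =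
            (θ' + lam.smulRight (θ' (h * u K (lt s0)) * u K (lt (bar s0)) - θ' h)) v *
              u K (lt s0) := by
          intro v hv hv2
          have k1 := kill hU h1 h2 h3 hv hv2
          have k2 := kill hU h1 h2 h3 h1 h2
          have e0 : (v - lam v • h) * u K (lt s0) = v * u K (lt s0) - lam v • (h * u K (lt s0)) := by
            rw [sub_mul, smul_mul_assoc]
          have k3 := hθ' (v - lam v • h) ⟨V.sub_mem hv (V.smul_mem _ h1), by simp [h3]⟩ s0
            (by rw [e0]; exact ⟨V.sub_mem hv2 (V.smul_mem _ h2), by simp [k1, k2]⟩)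
          rw [e0] at k3
          have k4 := back (θ' (h * u K (lt s0))) (bar s0)
          rw [bar_bar] at k4
          simp only [map_sub, map_smul, sub_mul, smul_mul_assoc] at k3
          simp only [LinearMap.add_apply, LinearMap.smulRight_apply, k1, zero_smul,
            add_mul, smul_mul_assoc, sub_mul, k4, smul_sub]
          rw [sub_eq_iff_eq_add.1 k3]; abel
        intro v hv s hs
        by_cases e1 : s = s0
        · subst e1; exact main v hv hs
        by_cases e2 : s = bar s0
        · subst e2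
          have k := back v (bar s0)
          rw [bar_bar] at k
          have := main _ hs (by rw [k]; exact hv)
          rw [k] at this
          rw [this, back]
        · have l1 : lam v = 0 := by
            by_contra hne
            exact e1 (hU s s0 v h hv hs hne h1 h2 (by rw [h3]; exact one_ne_zero))
          have l2 : lam (v * u K (lt s)) = 0 := by
            by_contra hne
            apply e2
            rw [← hU (bar s) s0 _ h hs (by rw [back]; exact hv) hne h1 h2
              (by rw [h3]; exact one_ne_zero), bar_bar]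
          simp only [LinearMap.add_apply, LinearMap.smulRight_apply, l1, l2, zero_smul, add_zero]
          exact hθ' v ⟨hv, l1⟩ s ⟨hs, l2⟩
      · intro x hx
        have : lam x = 0 := hx.2
        simp [this]
    · refine ⟨θ', fun v hv s hs => hθ' v ⟨hv, ?_⟩ s ⟨hs, ?_⟩, fun _ _ => rfl⟩
      · by_contra hne; exact hc ⟨v, s, hv, hs, hne⟩
      · by_contra hne; exact hc ⟨_, bar s, hs, by rw [back]; exact hv, hne⟩
  have e : mp θ' v = mp θ v := by
    ext1 g; rw [mp_apply, mp_apply, hag _ (hv g)]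
  rw [e]
  exact hP θ hθ v (fun g => (hv g).1) h0

lemma step_basis {V : Submodule K (AA K B)} {lam : AA K B →ₗ[K] K} (hU : Uniq V lam) (hP : PP V)
    {S' : Set (AA K B)} (hS : S' ⊆ (V ⊓ LinearMap.ker lam : Submodule K (AA K B)))
    (ind : LinearIndepOn (AA K B)ᵐᵒᵖ id S')
    (sp : ∀ x ∈ V ⊓ LinearMap.ker lam, x ∈ Submodule.span (AA K B)ᵐᵒᵖ S') :
    ∃ S : Set (AA K B), S' ⊆ S ∧ S ⊆ V ∧ LinearIndepOn (AA K B)ᵐᵒᵖ id S ∧
      ∀ x ∈ V, x ∈ Submodule.span (AA K B)ᵐᵒᵖ S := by
  have gen : ∀ (S : Set (AA K B)) (h : AA K B), S' ⊆ S → h ∈ V → lam h = 1 →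
      h ∈ Submodule.span (AA K B)ᵐᵒᵖ S → ∀ x ∈ V, x ∈ Submodule.span (AA K B)ᵐᵒᵖ S := by
    intro S h hSS h1 h3 hh x hx
    have e : x = lam x • h + (x - lam x • h) := by abel
    rw [e]
    refine Submodule.add_mem _ (Submodule.smul_of_tower_mem _ _ hh) (Submodule.span_mono hSS ?_)
    exact sp _ ⟨V.sub_mem hx (V.smul_mem _ h1), by simp [h3]⟩
  by_cases h0 : ∀ v ∈ V, lam v = 0
  · exact ⟨S', subset_rfl, fun x hx => (hS hx).1, ind, fun x hx => sp x ⟨hx, h0 x hx⟩⟩
  by_cases hc : ∃ h s, h ∈ V ∧ h * u K (lt s) ∈ V ∧ lam h ≠ 0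
  · obtain ⟨h, s0, h1, h2, h3⟩ := normal hc
    refine ⟨S', subset_rfl, fun x hx => (hS hx).1, ind, gen S' h subset_rfl h1 h3 ?_⟩
    have k := sp _ ⟨h2, kill hU h1 h2 h3 h1 h2⟩
    have k2 := Submodule.smul_mem _ (MulOpposite.op (u K (lt (bar s0)))) k
    rwa [MulOpposite.smul_eq_mul_unop, MulOpposite.unop_op, back] at k2
  · push Not at h0
    obtain ⟨h', h1', h3'⟩ := h0
    obtain ⟨h, h1, h3⟩ : ∃ h ∈ V, lam h = 1 :=
      ⟨(lam h')⁻¹ • h', V.smul_mem _ h1', by rw [map_smul, smul_eq_mul, inv_mul_cancel₀ h3']⟩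
    have key : ∀ a, h * a ∈ Submodule.span (AA K B)ᵐᵒᵖ S' → a = 0 := by
      intro a ha
      obtain ⟨v, hv, e⟩ := span_fam (V ⊓ LinearMap.ker lam) (Submodule.span_mono hS ha) 1
      have hC : Compat V (lam.smulRight (1 : AA K B)) := by
        intro v hv s hs
        have l1 : lam v = 0 := by by_contra hne; exact hc ⟨v, s, hv, hs, hne⟩
        have l2 : lam (v * u K (lt s)) = 0 := by
          by_contra hne; exact hc ⟨_, bar s, hs, by rw [back]; exact hv, hne⟩
        simp [l1, l2]
      have := hP _ hC (fam h a - v)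
        (fun g => V.sub_mem (by rw [fam_apply]; exact V.smul_mem _ h1) (hv g).1)
        (by rw [map_sub, ev_fam, e, mul_one, sub_self])
      have e2 : mp (lam.smulRight (1 : AA K B)) (fam h a - v) = fam 1 a := by
        ext1 g
        have l : lam (v g) = 0 := (hv g).2
        simp [mp_apply, fam_apply, h3, l]
      rwa [e2, ev_fam, one_mul] at this
    refine ⟨S' ∪ {h}, Set.subset_union_left, ?_, ?_, gen _ h Set.subset_union_left h1 h3
      (Submodule.subset_span (Or.inr rfl))⟩
    · rintro x (hx | rfl)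
      · exact (hS hx).1
      · exact h1
    · refine ind.union (LinearIndepOn.singleton' fun r hr => ?_) ?_
      · have := key r.unop (by
          rw [← MulOpposite.smul_eq_mul_unop]
          rw [id] at hr
          rw [hr]; exact Submodule.zero_mem _)
        exact MulOpposite.unop_injective this
      · rw [Submodule.disjoint_def]
        intro x hx hx2
        rw [Set.image_id] at hx hx2
        obtain ⟨r, rfl⟩ := Submodule.mem_span_singleton.1 hx2
        rw [MulOpposite.smul_eq_mul_unop] at hx ⊢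
        rw [key _ hx, mul_zero]

def VT (I : Submodule (AA K B)ᵐᵒᵖ (AA K B)) (T : Set (FreeGroup B)) : Submodule K (AA K B) where
  carrier := {x | x ∈ I ∧ ∀ g, x.coeff g ≠ 0 → g ∈ T}
  add_mem' := by
    rintro x y ⟨h1, h2⟩ ⟨h3, h4⟩
    refine ⟨I.add_mem h1 h3, fun g hg => ?_⟩
    by_cases hx : x.coeff g = 0
    · apply h4; intro hy; apply hg; simp [hx, hy]
    · exact h2 g hx
  zero_mem' := ⟨I.zero_mem, fun g hg => absurd (by simp) hg⟩
  smul_mem' := by
    rintro c x ⟨h1, h2⟩
    refine ⟨Submodule.smul_of_tower_mem _ _ h1, fun g hg => h2 g fun hx => hg ?_⟩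
    simp [hx]

lemma PP_VT (I : Submodule (AA K B)ᵐᵒᵖ (AA K B)) {T : Set (FreeGroup B)}
    (hT : ∀ t ∈ T, ∀ t' ∈ T, Relation.ReflTransGen (Adj T) t t') : PP (VT I T) := by
  classical
  intro θ hθ v
  induction hN : ∑ g ∈ v.support, FreeGroup.norm g using Nat.strong_induction_on generalizing v with
  | _ N ih =>
  intro hv h0
  rcases v.support.eq_empty_or_nonempty with he | he
  · rw [Finsupp.support_eq_empty.1 he]; simp
  obtain ⟨g, hg, hmax⟩ := v.support.exists_max_image FreeGroup.norm he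
  have hco : ∀ t, (v g).coeff t ≠ 0 → ∃ k ∈ v.support, k ≠ g ∧ (v k).coeff (t * g * k⁻¹) ≠ 0 := by
    intro t ht
    by_contra hn
    push Not at hn
    have := congrArg (fun x : AA K B => x.coeff (t * g)) h0
    simp only [ev_eq, MonoidAlgebra.coeff_sum, Finsupp.finsetSum_apply, coeff_mul_u] at this
    rw [Finset.sum_eq_single g (fun k hk hkg => hn k hk hkg) (fun h => absurd hg h)] at this
    apply ht; simpa using this
  cases hw : FreeGroup.toWord g with
  | nil =>
    exfalso
    have hg0 : v g ≠ 0 := Finsupp.mem_support_iff.1 hg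
    obtain ⟨t, ht⟩ : ∃ t, (v g).coeff t ≠ 0 := by
      by_contra hn
      push Not at hn
      exact hg0 (MonoidAlgebra.coeff_eq_zero.1 (Finsupp.ext hn))
    obtain ⟨k, hk, hkg, _⟩ := hco t ht
    have h1 : g = 1 := FreeGroup.toWord_eq_nil_iff.1 hw
    have h2 := hmax k hk
    rw [h1, FreeGroup.norm_one, Nat.le_zero, FreeGroup.norm_eq_zero] at h2
    exact hkg (h2.trans h1.symm)
  | cons s L =>
    have hmem : v g * u K (lt s) ∈ VT I T := by
      refine ⟨?_, fun y hy => ?_⟩
      · have := I.smul_mem (MulOpposite.op (u K (lt s))) (hv g).1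
        rwa [MulOpposite.smul_eq_mul_unop] at this
      · rw [coeff_mul_u] at hy
        obtain ⟨k, hk, hkg, hc⟩ := hco _ hy
        have h1 := cc hw (hmax k hk) hkg
        have h2 := conv (s := s) (hT _ ((hv g).2 _ hy) _ ((hv k).2 _ hc))
          (by rw [show (y * (lt s)⁻¹ * g * k⁻¹)⁻¹ * (y * (lt s)⁻¹) = k * g⁻¹ by group]; exact h1)
        simpa using h2
    have hlt := aa hw
    have huu : u K (lt s) * u K ((lt s)⁻¹ * g) = u K g := by rw [u_mul]; simp
    set v2 := v - Finsupp.single g (v g) + Finsupp.single ((lt s)⁻¹ * g) (v g * u K (lt s)) with hv2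
    have hsupp : v2.support ⊆ insert ((lt s)⁻¹ * g) (v.support.erase g) := by
      intro k hk
      rw [Finsupp.mem_support_iff] at hk
      rw [Finset.mem_insert, Finset.mem_erase, Finsupp.mem_support_iff]
      by_contra hn
      push Not at hn
      apply hk
      rw [hv2, Finsupp.add_apply, Finsupp.sub_apply, Finsupp.single_eq_of_ne hn.1, add_zero]
      by_cases e : k = g
      · subst e; simp
      · rw [hn.2 e, Finsupp.single_eq_of_ne e, sub_zero]
    have hmeas : ∑ k ∈ v2.support, FreeGroup.norm k < N := by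
      have a1 := Finset.sum_le_sum_of_subset (f := FreeGroup.norm) hsupp
      have a2 : ∑ k ∈ insert ((lt s)⁻¹ * g) (v.support.erase g), FreeGroup.norm k ≤
          FreeGroup.norm ((lt s)⁻¹ * g) + ∑ k ∈ v.support.erase g, FreeGroup.norm k := by
        by_cases hi : (lt s)⁻¹ * g ∈ v.support.erase g
        · rw [Finset.insert_eq_of_mem hi]; omega
        · rw [Finset.sum_insert hi]
      have a3 := Finset.add_sum_erase v.support FreeGroup.norm hg
      omega
    have := ih _ hmeas v2 rfl (fun k => by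
        rw [hv2, Finsupp.add_apply, Finsupp.sub_apply, Finsupp.single_apply, Finsupp.single_apply]
        refine Submodule.add_mem _ (Submodule.sub_mem _ (hv k) ?_) ?_
        · split_ifs
          · exact hv g
          · exact Submodule.zero_mem _
        · split_ifs
          · exact hmem
          · exact Submodule.zero_mem _)
      (by rw [hv2, map_add, map_sub, ev_single, ev_single, h0, mul_assoc, huu]; simp)
    rw [hv2, map_add, map_sub, map_add, map_sub, mp_single, mp_single, ev_single, ev_single,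
      hθ _ (hv g) s hmem, mul_assoc, huu] at this
    simpa using this

end Pool.Agent.H56.Fb2
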