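import Pool.Agent.H56.Fb2
namespace Pool.Agent.H56.Fb3
open Pool.Agent.H56.Fb1 Pool.Agent.H56.Fb2
variable {K : Type*} [Field K] {B : Type*}

noncomputable def co (K : Type*) [Field K] (g : FreeGroup B) : AA K B →ₗ[K] K :=
  (Finsupp.lapply g).comp (MonoidAlgebra.coeffLinearEquiv K).toLinearMap

lemma co_apply (g : FreeGroup B) (x : AA K B) : co K g x = x.coeff g := rfl

lemma fin_case (I : Submodule (AA K B)ᵐᵒᵖ (AA K B)) (f : AA K B) (ρ : AA K B →ₗ[K] AA K B)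
    (hf : f ∈ I) (hρ1 : ρ f = 1) (hρ : ∀ x ∈ I, ∀ a, ρ (x * a) = ρ x * a) (n : ℕ) :
    ∀ V : Submodule K (AA K B), FiniteDimensional K V → Module.finrank K V = n → f ∈ V →
      (∀ x ∈ V, x ∈ I) → PP V →
      ∃ S : Set (AA K B), f ∈ S ∧ S ⊆ V ∧ LinearIndepOn (AA K B)ᵐᵒᵖ id S ∧
        ∀ x ∈ V, x ∈ Submodule.span (AA K B)ᵐᵒᵖ S := by
  classical
  induction n using Nat.strong_induction_on with
  | _ n ih =>
  intro V hfd hn hfV hVI hP
  set Φ : AA K B →ₗ[K] AA K B := LinearMap.id - (LinearMap.mulLeft K f).comp ρ with hΦ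
  have Φa : ∀ x, Φ x = x - f * ρ x := fun x => by simp [hΦ]
  have Φm : ∀ x ∈ I, ∀ a, Φ (x * a) = Φ x * a := by
    intro x hx a; rw [Φa, Φa, hρ x hx, sub_mul, mul_assoc]
  set Z : Set (FreeGroup B) := {g | ∃ v ∈ V, (Φ v).coeff g ≠ 0} with hZ
  have hZf : Z.Finite := by
    obtain ⟨t, ht⟩ := (Submodule.fg_iff_finiteDimensional V).2 hfd
    refine (t.biUnion (fun x => (Φ x).coeff.support)).finite_toSet.subset ?_
    rintro g ⟨v, hv, hg⟩
    by_contra hn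
    apply hg
    have : V ≤ LinearMap.ker ((co K g).comp Φ) := by
      rw [← ht, Submodule.span_le]
      intro x hx
      by_contra hx2
      apply hn
      simp only [Finset.coe_biUnion, Set.mem_iUnion]
      exact ⟨x, hx, Finsupp.mem_support_iff.2 hx2⟩
    exact this hv
  rcases Z.eq_empty_or_nonempty with he | he
  · refine ⟨{f}, rfl, by simpa using hfV, LinearIndepOn.singleton' fun r hr => ?_, fun x hx => ?_⟩
    · rw [id, MulOpposite.smul_eq_mul_unop] at hr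
      have := hρ f hf r.unop
      rw [hr, map_zero, hρ1, one_mul] at this
      exact MulOpposite.unop_injective this.symm
    · have h0 : Φ x = 0 := by
        refine MonoidAlgebra.coeff_eq_zero.1 (Finsupp.ext fun g => ?_)
        by_contra hg
        have : g ∈ Z := ⟨x, hx, hg⟩
        rw [he] at this; exact this
      rw [Φa, sub_eq_zero] at h0
      exact Submodule.mem_span_singleton.2 ⟨MulOpposite.op (ρ x), by
        rw [MulOpposite.smul_eq_mul_unop, MulOpposite.unop_op]; exact h0.symm⟩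
  obtain ⟨g, hg, hmax⟩ := Set.exists_max_image Z FreeGroup.norm hZf he
  have hU : Uniq V ((co K g).comp Φ) := by
    have key : ∀ s v, v ∈ V → v * u K (lt s) ∈ V → ((co K g).comp Φ) v ≠ 0 →
        FreeGroup.norm (g * lt s) ≤ FreeGroup.norm g := by
      intro s v hv hs hl
      refine hmax _ ⟨_, hs, ?_⟩
      rw [Φm v (hVI v hv), coeff_mul_u, mul_inv_cancel_right]
      exact hl
    intro s t v w h1 h2 h3 h4 h5 h6
    exact dd (key s v h1 h2 h3) (key t w h4 h5 h6)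
  have hlt : V ⊓ LinearMap.ker ((co K g).comp Φ) < V := by
    refine lt_of_le_of_ne inf_le_left fun e => ?_
    obtain ⟨v, hv, hv2⟩ := hg
    rw [← e] at hv
    exact hv2 hv.2
  have hfV' : f ∈ V ⊓ LinearMap.ker ((co K g).comp Φ) := by
    refine ⟨hfV, ?_⟩
    have : Φ f = 0 := by rw [Φa, hρ1, mul_one, sub_self]
    simp [this]
  obtain ⟨S', h1, h2, h3, h4⟩ := ih _ (hn ▸ Submodule.finrank_lt_finrank_of_lt hlt) _
    (Submodule.finiteDimensional_of_le inf_le_left) rfl hfV' (fun x hx => hVI x hx.1)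
    (step_PP hU hP)
  obtain ⟨S, k1, k2, k3, k4⟩ := step_basis hU hP h2 h3 h4
  exact ⟨S, k1 h1, k2, k3, k4⟩

def RC (t0 : FreeGroup B) (T : Set (FreeGroup B)) : Prop :=
  t0 ∈ T ∧ ∀ t ∈ T, Relation.ReflTransGen (Adj T) t0 t

lemma rt_mono {T U : Set (FreeGroup B)} (h : T ⊆ U) {x y : FreeGroup B}
    (hx : Relation.ReflTransGen (Adj T) x y) : Relation.ReflTransGen (Adj U) x y := by
  induction hx with
  | refl => exact .refl
  | tail _ hab ih => exact ih.tail ⟨h hab.1, h hab.2.1, hab.2.2⟩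

lemma rt_symm {T : Set (FreeGroup B)} {x y : FreeGroup B}
    (hx : Relation.ReflTransGen (Adj T) x y) : Relation.ReflTransGen (Adj T) y x := by
  induction hx with
  | refl => exact .refl
  | tail _ h ih => exact .head h.symm ih

lemma RC.conn {t0 : FreeGroup B} {T : Set (FreeGroup B)} (h : RC t0 T) :
    ∀ t ∈ T, ∀ t' ∈ T, Relation.ReflTransGen (Adj T) t t' :=
  fun t ht t' ht' => (rt_symm (h.2 t ht)).trans (h.2 t' ht')

lemma RC.ins {t0 y : FreeGroup B} {T : Set (FreeGroup B)} (h : RC t0 T) (hy : y ∈ T)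
    (s : B × Bool) : RC t0 (insert (y * lt s) T) := by
  refine ⟨Or.inr h.1, ?_⟩
  rintro t (rfl | ht)
  · exact (rt_mono (Set.subset_insert _ _) (h.2 y hy)).tail ⟨Or.inr hy, Or.inl rfl, s, rfl⟩
  · exact rt_mono (Set.subset_insert _ _) (h.2 t ht)

lemma fin_sub {t0 : FreeGroup B} {T : Set (FreeGroup B)} (h : RC t0 T) (s : Finset (FreeGroup B)) :
    (s : Set (FreeGroup B)) ⊆ T → ∃ U ⊆ T, U.Finite ∧ RC t0 U ∧ (s : Set (FreeGroup B)) ⊆ U := by
  classical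
  have base : RC t0 {t0} := ⟨rfl, fun t ht => by rw [ht]⟩
  have one : ∀ t, Relation.ReflTransGen (Adj T) t0 t → ∃ U ⊆ T, U.Finite ∧ RC t0 U ∧ t ∈ U := by
    intro t ht
    induction ht with
    | refl => exact ⟨{t0}, by simpa using h.1, Set.finite_singleton _, base, rfl⟩
    | tail _ hab ih =>
      obtain ⟨U, h1, h2, h3, h4⟩ := ih
      obtain ⟨_, hb, s, rfl⟩ := hab
      exact ⟨_, Set.insert_subset hb h1, h2.insert _, h3.ins h4 s, Or.inl rfl⟩
  induction s using Finset.induction_on with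
  | empty => exact fun _ => ⟨{t0}, by simpa using h.1, Set.finite_singleton _, base, by simp⟩
  | insert a s _ ih =>
    intro hs
    rw [Finset.coe_insert, Set.insert_subset_iff] at hs
    obtain ⟨U, h1, h2, h3, h4⟩ := ih hs.2
    obtain ⟨W, k1, k2, k3, k4⟩ := one a (h.2 a hs.1)
    refine ⟨U ∪ W, Set.union_subset h1 k1, h2.union k2, ⟨Or.inl h3.1, ?_⟩, ?_⟩
    · rintro t (ht | ht)
      · exact rt_mono Set.subset_union_left (h3.2 t ht)
      · exact rt_mono Set.subset_union_right (k3.2 t ht)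
    · rw [Finset.coe_insert]
      exact Set.insert_subset (Or.inr k4) (h4.trans Set.subset_union_left)

lemma exit_ {T M : Set (FreeGroup B)} {x y : FreeGroup B}
    (h : Relation.ReflTransGen (Adj T) x y) (hx : x ∈ M) :
    y ∉ M → ∃ z ∈ M, ∃ s, z * lt s ∈ T ∧ z * lt s ∉ M := by
  induction h with
  | refl => exact fun h => absurd hx h
  | @tail a b _ hab ih =>
    intro hb
    by_cases ha : a ∈ M
    · obtain ⟨_, h2, s, rfl⟩ := hab
      exact ⟨a, ha, s, h2, hb⟩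
    · exact ih ha

lemma fd_VT (I : Submodule (AA K B)ᵐᵒᵖ (AA K B)) {U : Set (FreeGroup B)} (hU : U.Finite) :
    FiniteDimensional K (VT I U) := by
  have := hU.to_subtype
  refine FiniteDimensional.of_injective
    (LinearMap.pi (fun g : U => (co K g.1).comp (VT I U).subtype)) ?_
  rw [injective_iff_map_eq_zero]
  intro x hx
  refine Subtype.ext (MonoidAlgebra.coeff_eq_zero.1 (Finsupp.ext fun g => ?_))
  by_contra hg
  exact hg (congrFun hx ⟨g, x.2.2 g hg⟩)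

def PS (I : Submodule (AA K B)ᵐᵒᵖ (AA K B)) (T : Set (FreeGroup B)) (t0 : FreeGroup B) (f : AA K B) :
    Set (Set (FreeGroup B) × Set (AA K B)) := {p | p.1 ⊆ T ∧ RC t0 p.1 ∧ f ∈ p.2 ∧
    p.2 ⊆ VT I p.1 ∧ LinearIndepOn (AA K B)ᵐᵒᵖ id p.2 ∧
    ∀ x ∈ VT I p.1, x ∈ Submodule.span (AA K B)ᵐᵒᵖ p.2}

lemma chain_ub (I : Submodule (AA K B)ᵐᵒᵖ (AA K B)) (T : Set (FreeGroup B)) (t0 : FreeGroup B)
    (f : AA K B) (c : Set (Set (FreeGroup B) × Set (AA K B))) (hc : c ⊆ PS I T t0 f)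
    (hch : IsChain (· ≤ ·) c) (y) (hy : y ∈ c) : ∃ ub ∈ PS I T t0 f, ∀ z ∈ c, z ≤ ub := by
  have d1 : DirectedOn (fun i j : Set (FreeGroup B) × Set (AA K B) => i.1 ⊆ j.1) c := by
    intro a ha b hb
    obtain ⟨z, hz, h1, h2⟩ := hch.directedOn a ha b hb
    exact ⟨z, hz, h1.1, h2.1⟩
  have d2 : DirectedOn (Prod.snd ⁻¹'o (· ⊆ ·)) c := by
    intro a ha b hb
    obtain ⟨z, hz, h1, h2⟩ := hch.directedOn a ha b hb
    exact ⟨z, hz, h1.2, h2.2⟩
  have b1 : ∀ p ∈ c, p.1 ⊆ ⋃ p ∈ c, p.1 := fun p hp x hx => Set.mem_iUnion₂.2 ⟨p, hp, hx⟩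
  have b2 : ∀ p ∈ c, p.2 ⊆ ⋃ p ∈ c, p.2 := fun p hp x hx => Set.mem_iUnion₂.2 ⟨p, hp, hx⟩
  refine ⟨(⋃ p ∈ c, p.1, ⋃ p ∈ c, p.2), ⟨?_, ⟨?_, ?_⟩, ?_, ?_, ?_, ?_⟩, fun z hz =>
    ⟨b1 z hz, b2 z hz⟩⟩
  · exact Set.iUnion₂_subset fun p hp => (hc hp).1
  · exact b1 y hy (hc hy).2.1.1
  · intro t ht
    obtain ⟨p, hp, htp⟩ := Set.mem_iUnion₂.1 ht
    exact rt_mono (b1 p hp) ((hc hp).2.1.2 t htp)
  · exact b2 y hy (hc hy).2.2.1
  · intro x hx
    obtain ⟨p, hp, hxp⟩ := Set.mem_iUnion₂.1 hx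
    have := (hc hp).2.2.2.1 hxp
    exact ⟨this.1, fun g hg => b1 p hp (this.2 g hg)⟩
  · exact linearIndepOn_biUnion_of_directed d2 fun p hp => (hc hp).2.2.2.2.1
  · intro x hx
    obtain ⟨p, hp, hs⟩ := DirectedOn.exists_mem_subset_of_finset_subset_biUnion ⟨y, hy⟩ d1
      (s := x.coeff.support) (fun g hg => hx.2 g (Finsupp.mem_support_iff.1 hg))
    exact Submodule.span_mono (b2 p hp)
      ((hc hp).2.2.2.2.2 x ⟨hx.1, fun g hg => hs (Finsupp.mem_support_iff.2 hg)⟩)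

lemma uniq_ins (I : Submodule (AA K B)ᵐᵒᵖ (AA K B)) {M : Set (FreeGroup B)} {t0 x : FreeGroup B}
    (m2 : RC t0 M) (hzM : x ∉ M) : Uniq (VT I (insert x M)) (co K x) := by
  classical
  have key : ∀ s v, v * u K (lt s) ∈ VT I (insert x M) → co K x v ≠ 0 → x * lt s ∈ M := by
    intro s v hs hl
    have h1 := hs.2 (x * lt s) (by rw [coeff_mul_u, mul_inv_cancel_right]; exact hl)
    rcases h1 with h1 | h1
    · exfalso
      have h2 : lt s = 1 := mul_eq_left.1 h1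
      have h3 := congrArg FreeGroup.toWord h2
      rw [lt, FreeGroup.toWord_mk, FreeGroup.reduce_singleton, FreeGroup.toWord_one] at h3
      exact List.cons_ne_nil _ _ h3
    · exact h1
  intro s t v w _ h2 h3 _ h5 h6
  by_contra hst
  have e : (x * lt t)⁻¹ * (x * lt s) = (lt t)⁻¹ * lt s := by
    rw [mul_inv_rev, mul_assoc, inv_mul_cancel_left]
  have := conv (s := bar s) (m2.conn _ (key s v h2 h3) _ (key t w h5 h6)) (by
    rw [bar_bar, e]
    exact ee hst)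
  rw [lt_bar, mul_inv_cancel_right] at this
  exact hzM this

theorem main (I : Submodule (AA K B)ᵐᵒᵖ (AA K B)) (T : Set (FreeGroup B))
    (hT : ∀ t ∈ T, ∀ t' ∈ T, Relation.ReflTransGen (Adj T) t t') (f : AA K B) (hf : f ∈ VT I T)
    (ρ : AA K B →ₗ[K] AA K B) (hρ1 : ρ f = 1) (hρ : ∀ x ∈ I, ∀ a, ρ (x * a) = ρ x * a) :
    ∃ S : Set (AA K B), f ∈ S ∧ S ⊆ VT I T ∧ LinearIndepOn (AA K B)ᵐᵒᵖ id S ∧
      ∀ x ∈ VT I T, x ∈ Submodule.span (AA K B)ᵐᵒᵖ S := by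
  classical
  obtain ⟨t0, ht0⟩ : ∃ t, f.coeff t ≠ 0 := by
    by_contra hn
    push Not at hn
    have : f = 0 := MonoidAlgebra.coeff_eq_zero.1 (Finsupp.ext hn)
    rw [this, map_zero] at hρ1
    exact zero_ne_one hρ1
  have hR : RC t0 T := ⟨hf.2 t0 ht0, fun t ht => hT _ (hf.2 t0 ht0) t ht⟩
  obtain ⟨U, u1, u2, u3, u4⟩ := fin_sub hR f.coeff.support
    (fun g hg => hf.2 g (Finsupp.mem_support_iff.1 hg))
  obtain ⟨S0, s1, s2, s3, s4⟩ := fin_case I f ρ hf.1 hρ1 hρ _ (VT I U) (fd_VT I u2) rfl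
    ⟨hf.1, fun g hg => u4 (Finsupp.mem_support_iff.2 hg)⟩ (fun x hx => hx.1) (PP_VT I u3.conn)
  obtain ⟨⟨M, S'⟩, -, hm⟩ := zorn_le_nonempty₀ (PS I T t0 f) (chain_ub I T t0 f)
    (U, S0) ⟨u1, u3, s1, s2, s3, s4⟩
  have hm1 : M ⊆ T ∧ RC t0 M ∧ f ∈ S' ∧ S' ⊆ VT I M ∧ LinearIndepOn (AA K B)ᵐᵒᵖ id S' ∧
    ∀ x ∈ VT I M, x ∈ Submodule.span (AA K B)ᵐᵒᵖ S' := hm.1
  obtain ⟨m1, m2, m3, m4, m5, m6⟩ := hm1
  have hMT : M = T := by
    refine Set.Subset.antisymm m1 fun t ht => ?_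
    by_contra htM
    obtain ⟨z, hz, s, hzT, hzM⟩ := exit_ (hR.2 t ht) m2.1 htM
    have hR2 := m2.ins hz s
    generalize z * lt s = x at hzT hzM hR2
    have a1 : S' ⊆ (VT I (insert x M) ⊓ LinearMap.ker (co K x) : Submodule K (AA K B)) := by
      intro y hy
      have h1 : y ∈ VT I M := m4 hy
      refine ⟨⟨h1.1, fun g hg => Or.inr (h1.2 g hg)⟩, ?_⟩
      by_contra hne
      exact hzM (h1.2 x hne)
    have a2 : ∀ y ∈ VT I (insert x M) ⊓ LinearMap.ker (co K x),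
        y ∈ Submodule.span (AA K B)ᵐᵒᵖ S' := by
      intro y hy
      refine m6 y ⟨hy.1.1, fun g hg => ?_⟩
      rcases hy.1.2 g hg with e | e
      · exfalso
        rw [e] at hg
        exact hg hy.2
      · exact e
    obtain ⟨S, k1, k2, k3, k4⟩ := step_basis (uniq_ins I m2 hzM) (PP_VT I hR2.conn) a1 m5 a2
    have h1 : (insert x M, S) ∈ PS I T t0 f := ⟨Set.insert_subset hzT m1, hR2, k1 m3, k2, k3, k4⟩
    have h2 : (M, S') ≤ (insert x M, S) := ⟨Set.subset_insert _ _, k1⟩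
    have h3 : insert x M ⊆ M := (hm.2 h1 h2).1
    exact hzM (h3 (Set.mem_insert _ _))
  subst hMT
  exact ⟨S', m3, m4, m5, m6⟩

end Pool.Agent.H56.Fb3
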