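import Mathlib

set_option autoImplicit false

namespace Pool.Agent.H56.Fsp
open Complex Set Metric Filter Topology

noncomputable def c (t : ℝ) : ℂ := (1 - t * I)⁻¹
noncomputable def T (w : ℂ) : ℝ := w.im / w.re
noncomputable def m (t : ℝ) : ℝ := max (-t) 0 / (1 + max (-t) 0)
noncomputable def E (t : ℝ) : ℂ := exp (t * I)
noncomputable def e (t θ : ℝ) : ℂ × ℂ := (c t, E t * (1 - m t + m t * E θ))
noncomputable def b (ω : ℝ) : ℂ × ℂ := (0, E ω)
def XS : Set (ℂ × ℂ) := {p | (∃ t θ, p = e t θ) ∨ ∃ ω, p = b ω}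

lemma den_ne (t : ℝ) : (1 - t * I : ℂ) ≠ 0 := by
  intro h
  have := congrArg Complex.re h
  simp at this

lemma c_ne (t : ℝ) : c t ≠ 0 := inv_ne_zero (den_ne t)

lemma c_mul (t : ℝ) : c t * (1 - t * I) = 1 := inv_mul_cancel₀ (den_ne t)

lemma normSq_den (t : ℝ) : normSq (1 - t * I : ℂ) = 1 + t ^ 2 := by
  simp [normSq_apply]; ring

lemma c_re (t : ℝ) : (c t).re = 1 / (1 + t ^ 2) := by
  rw [c, inv_re, normSq_den]; simp

lemma c_im (t : ℝ) : (c t).im = t / (1 + t ^ 2) := by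
  rw [c, inv_im, normSq_den]; simp

lemma c_re_pos (t : ℝ) : 0 < (c t).re := by rw [c_re]; positivity

lemma T_c (t : ℝ) : T (c t) = t := by
  rw [T, c_re, c_im]
  have : (1 + t ^ 2) ≠ 0 := by positivity
  field_simp

lemma T_zero : T 0 = 0 := by simp [T]

lemma c_inj {t t' : ℝ} (h : c t = c t') : t = t' := by
  rw [← T_c t, h, T_c]

lemma den_ge (t : ℝ) : 1 ≤ ‖(1 - t * I : ℂ)‖ := by
  have := Complex.abs_re_le_norm (1 - t * I : ℂ)
  simpa using this

lemma den_le (t : ℝ) : ‖(1 - t * I : ℂ)‖ ≤ 1 + |t| := by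
  refine (norm_sub_le _ _).trans ?_
  simp

lemma norm_c_le (t : ℝ) : ‖c t‖ ≤ 1 := by
  rw [c, norm_inv]; exact inv_le_one_of_one_le₀ (den_ge t)

lemma norm_c_ge (t : ℝ) : 1 / (1 + |t|) ≤ ‖c t‖ := by
  rw [c, norm_inv, one_div]
  exact inv_anti₀ (by linarith [den_ge t]) (den_le t)

lemma c_lip (t t' : ℝ) : ‖c t - c t'‖ ≤ |t - t'| := by
  have h : c t - c t' = c t * c t' * (((t - t' : ℝ) : ℂ) * I) := by
    have h1 := c_mul t
    have h2 := c_mul t'
    push_cast
    linear_combination (c t') * h1 - (c t) * h2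
  rw [h, norm_mul, norm_mul, norm_mul, norm_I, mul_one, norm_real, Real.norm_eq_abs]
  have h1 := norm_c_le t
  have h2 := norm_c_le t'
  have h3 : ‖c t‖ * ‖c t'‖ ≤ 1 := mul_le_one₀ h1 (norm_nonneg _) h2
  nlinarith [abs_nonneg (t - t')]

lemma m_nonneg (t : ℝ) : 0 ≤ m t := by
  have : 0 ≤ max (-t) 0 := le_max_right _ _
  unfold m; positivity

lemma m_eq (t : ℝ) : m t = 1 - 1 / (1 + max (-t) 0) := by
  have : 0 ≤ max (-t) 0 := le_max_right _ _
  unfold m; field_simp; ring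

lemma m_lt (t : ℝ) : m t < 1 := by
  have : 0 ≤ max (-t) 0 := le_max_right _ _
  rw [m_eq]
  have : 0 < 1 / (1 + max (-t) 0) := by positivity
  linarith

lemma m_of_nonneg {t : ℝ} (h : 0 ≤ t) : m t = 0 := by
  simp [m, max_eq_right (neg_nonpos.2 h)]

lemma m_pos {t : ℝ} (h : t < 0) : 0 < m t := by
  have h' : 0 < -t := by linarith
  rw [m, max_eq_left h'.le]; positivity

lemma m_sub (t t' : ℝ) : m t - m t' =
    (max (-t) 0 - max (-t') 0) / ((1 + max (-t) 0) * (1 + max (-t') 0)) := by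
  have h1 : 0 ≤ max (-t) 0 := le_max_right _ _
  have h2 : 0 ≤ max (-t') 0 := le_max_right _ _
  rw [m_eq, m_eq]; field_simp; ring

lemma m_lip (t t' : ℝ) : |m t - m t'| ≤ |t - t'| := by
  have h1 : 0 ≤ max (-t) 0 := le_max_right _ _
  have h2 : 0 ≤ max (-t') 0 := le_max_right _ _
  rw [m_sub, abs_div, abs_of_pos (by positivity : 0 < (1 + max (-t) 0) * (1 + max (-t') 0))]
  have h3 : |max (-t) 0 - max (-t') 0| ≤ |t - t'| := by
    have := abs_max_sub_max_le_abs (-t) (-t') 0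
    rwa [show -t - -t' = -(t - t') by ring, abs_neg] at this
  refine (div_le_self (abs_nonneg _) (by nlinarith [mul_nonneg h1 h2])).trans h3

lemma m_cont : Continuous m := by
  have : LipschitzWith 1 m := LipschitzWith.of_dist_le_mul fun x y => by
    simpa [Real.dist_eq] using m_lip x y
  exact this.continuous

lemma m_anti (t : ℝ) {s : ℝ} (hs : 0 ≤ s) : 0 ≤ m t - m (t + s) := by
  have h1 : 0 ≤ max (-t) 0 := le_max_right _ _
  have h2 : 0 ≤ max (-(t + s)) 0 := le_max_right _ _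
  rw [m_sub]
  have : max (-(t + s)) 0 ≤ max (-t) 0 := max_le_max (by linarith) le_rfl
  exact div_nonneg (by linarith) (by positivity)

lemma m_drop (t : ℝ) {s : ℝ} (hs : 0 ≤ s) : m t - m (t + s) ≤ s * ‖c t‖ := by
  rcases le_or_gt 0 t with ht | ht
  · rw [m_of_nonneg ht, m_of_nonneg (by linarith)]
    simp only [sub_self]; positivity
  · have h2 : 0 ≤ max (-(t + s)) 0 := le_max_right _ _
    have h3 : -(t + s) ≤ max (-(t + s)) 0 := le_max_left _ _
    have h4 := norm_c_ge t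
    rw [abs_of_neg ht] at h4
    rw [m_sub, max_eq_left (by linarith : (0 : ℝ) ≤ -t)]
    have h5 : 0 < 1 + -t := by linarith
    calc (-t - max (-(t + s)) 0) / ((1 + -t) * (1 + max (-(t + s)) 0))
        ≤ s / ((1 + -t) * 1) := by
          gcongr
          · linarith
          · linarith
      _ = s * (1 / (1 + -t)) := by ring
      _ ≤ _ := by gcongr

lemma one_sub_m (t : ℝ) (ht : t < 0) : 1 - m t ≤ ‖c t‖ := by
  have h4 := norm_c_ge t
  rw [abs_of_neg ht] at h4
  rw [m_eq, max_eq_left (by linarith : (0 : ℝ) ≤ -t)]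
  linarith

lemma norm_E (t : ℝ) : ‖E t‖ = 1 := norm_exp_ofReal_mul_I t

lemma E_ne (t : ℝ) : E t ≠ 0 := exp_ne_zero _

lemma E_add (s t : ℝ) : E (s + t) = E s * E t := by
  simp only [E]; rw [← exp_add]; push_cast; ring_nf

lemma E_zero : E 0 = 1 := by simp [E]

lemma E_cont : Continuous E := by unfold E; fun_prop

lemma E_lip (t t' : ℝ) : ‖E t - E t'‖ ≤ |t - t'| := by
  have h : E t - E t' = E t' * (E (t - t') - 1) := by
    rw [mul_sub, ← E_add]; simp
  rw [h, norm_mul, norm_E, one_mul]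
  have := @Real.norm_exp_I_mul_ofReal_sub_one_le (t - t')
  rwa [mul_comm, Real.norm_eq_abs] at this

lemma E_eq_iff {t t' : ℝ} : E t = E t' ↔ ∃ n : ℤ, t = t' + n * (2 * Real.pi) := by
  simp only [E]
  rw [exp_eq_exp_iff_exists_int]
  refine exists_congr fun n => ⟨fun h => ?_, fun h => ?_⟩
  · have := congrArg Complex.im h
    simpa using this
  · rw [h]; push_cast; ring

lemma E_inj {t t' : ℝ} (h : E t = E t') (h2 : |t - t'| < 2 * Real.pi) : t = t' := by
  obtain ⟨n, hn⟩ := E_eq_iff.1 h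
  have hp := Real.pi_pos
  have h3 : |(n : ℝ)| < 1 := by
    rw [hn, add_sub_cancel_left, abs_mul, abs_of_pos (by positivity : 0 < 2 * Real.pi)] at h2
    nlinarith
  have h4 : n = 0 := by
    have : |n| < 1 := by exact_mod_cast h3
    exact Int.abs_lt_one_iff.1 this
  simpa [h4] using hn

lemma norm_mix (t θ : ℝ) : ‖(1 - m t + m t * E θ : ℂ)‖ ≤ 1 := by
  have h0 := m_nonneg t
  have h1 := m_lt t
  refine (norm_add_le _ _).trans ?_
  rw [norm_mul, norm_E, norm_real, Real.norm_eq_abs, abs_of_nonneg h0]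
  have : (1 - m t : ℂ) = ((1 - m t : ℝ) : ℂ) := by push_cast; ring
  rw [this, norm_real, Real.norm_eq_abs, abs_of_nonneg (by linarith)]
  linarith

lemma norm_one_sub_E (θ : ℝ) : ‖1 - E θ‖ ≤ 2 := by
  refine (norm_sub_le _ _).trans ?_
  rw [norm_E, norm_one]; norm_num

lemma e_lip (t θ t' θ' : ℝ) : dist (e t θ) (e t' θ') ≤ 3 * |t - t'| + |θ - θ'| := by
  rw [Prod.dist_eq]
  have a1 := abs_nonneg (t - t')
  have a2 := abs_nonneg (θ - θ')
  refine max_le ?_ ?_
  · rw [dist_eq_norm]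
    have := c_lip t t'
    simp only [e]; linarith
  · rw [dist_eq_norm]
    simp only [e]
    have h : E t * (1 - m t + m t * E θ) - E t' * (1 - m t' + m t' * E θ') =
        (E t - E t') * (1 - m t + m t * E θ) +
          E t' * (((m t' - m t : ℝ) : ℂ) * (1 - E θ) + (m t' : ℂ) * (E θ - E θ')) := by
      push_cast; ring
    rw [h]
    refine (norm_add_le _ _).trans ?_
    rw [norm_mul, norm_mul, norm_E, one_mul]
    have h1 : ‖E t - E t'‖ * ‖(1 - m t + m t * E θ : ℂ)‖ ≤ |t - t'| * 1 := by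
      gcongr
      · exact E_lip t t'
      · exact norm_mix t θ
    have h2 : ‖((m t' - m t : ℝ) : ℂ) * (1 - E θ)‖ ≤ |t - t'| * 2 := by
      rw [norm_mul, norm_real, Real.norm_eq_abs]
      exact mul_le_mul (by rw [abs_sub_comm]; exact m_lip t t') (norm_one_sub_E θ)
        (norm_nonneg _) a1
    have h3 : ‖(m t' : ℂ) * (E θ - E θ')‖ ≤ 1 * |θ - θ'| := by
      rw [norm_mul, norm_real, Real.norm_eq_abs, abs_of_nonneg (m_nonneg t')]
      gcongr
      · exact (m_lt t').le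
      · exact E_lip θ θ'
    have h4 := norm_add_le (((m t' - m t : ℝ) : ℂ) * (1 - E θ)) ((m t' : ℂ) * (E θ - E θ'))
    linarith

lemma b_lip (ω ω' : ℝ) : dist (b ω) (b ω') ≤ |ω - ω'| := by
  rw [Prod.dist_eq]
  refine max_le (by simp [b]) ?_
  rw [dist_eq_norm]; exact E_lip ω ω'

lemma norm_le_of_mem {p : ℂ × ℂ} (hp : p ∈ XS) : ‖p‖ ≤ 1 := by
  rw [Prod.norm_def]
  rcases hp with ⟨t, θ, rfl⟩ | ⟨ω, rfl⟩
  · refine max_le (norm_c_le t) ?_
    simp only [e]; rw [norm_mul, norm_E, one_mul]; exact norm_mix t θ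
  · refine max_le (by simp [b]) ?_
    simp only [b]; rw [norm_E]

/-- the correction term of the semiflow -/
noncomputable def ex (s : ℝ) (p : ℂ × ℂ) : ℂ :=
  (((m (T p.1) - m (T p.1 + s)) / m (T p.1) : ℝ) : ℂ) * (E (T p.1) - p.2)

noncomputable def φ (s : ℝ) (p : ℂ × ℂ) : ℂ × ℂ :=
  (p.1 / (1 - s * I * p.1), E s * (p.2 + ex s p))

lemma ex_e (t θ : ℝ) {s : ℝ} (hs : 0 ≤ s) :
    ex s (e t θ) = ((m t - m (t + s) : ℝ) : ℂ) * (E t * (1 - E θ)) := by
  simp only [ex, e, T_c]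
  rcases le_or_gt 0 t with ht | ht
  · rw [m_of_nonneg ht, m_of_nonneg (by linarith : 0 ≤ t + s)]; simp
  · have : (m t : ℂ) ≠ 0 := by exact_mod_cast (m_pos ht).ne'
    push_cast; field_simp; ring

lemma ex_b (ω s : ℝ) : ex s (b ω) = 0 := by
  simp [ex, b, T_zero, m_of_nonneg le_rfl]

lemma c_add (t s : ℝ) : c t = c (t + s) * (1 - s * I * c t : ℂ) := by
  have h1 := c_mul t
  have h2 := c_mul (t + s)
  push_cast at h2
  linear_combination (c (t + s)) * h1 - (c t) * h2

lemma den2_ne (t s : ℝ) : (1 - s * I * c t : ℂ) ≠ 0 := by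
  intro h
  have := c_add t s
  rw [h, mul_zero] at this
  exact c_ne t this

lemma φ_e (t θ : ℝ) {s : ℝ} (hs : 0 ≤ s) : φ s (e t θ) = e (t + s) θ := by
  rw [φ, ex_e t θ hs]
  simp only [e]
  refine Prod.ext ?_ ?_
  · simp only
    rw [div_eq_iff (den2_ne t s)]
    exact c_add t s
  · simp only
    rw [E_add]; push_cast; ring

lemma φ_b (ω s : ℝ) : φ s (b ω) = b (ω + s) := by
  rw [φ, ex_b]; simp [b, E_add, mul_comm]

lemma φ_mem {p : ℂ × ℂ} (hp : p ∈ XS) {s : ℝ} (hs : 0 ≤ s) : φ s p ∈ XS := by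
  rcases hp with ⟨t, θ, rfl⟩ | ⟨ω, rfl⟩
  · exact Or.inl ⟨_, _, φ_e t θ hs⟩
  · exact Or.inr ⟨_, φ_b ω s⟩

lemma ex_le {p : ℂ × ℂ} (hp : p ∈ XS) {s : ℝ} (hs : 0 ≤ s) :
    ‖ex s p‖ ≤ 2 * (s * ‖p.1‖) ∧ ‖ex s p‖ ≤ 2 * m (T p.1) := by
  rcases hp with ⟨t, θ, rfl⟩ | ⟨ω, rfl⟩
  · rw [ex_e t θ hs, norm_mul, norm_mul, norm_E, one_mul, norm_real, Real.norm_eq_abs,
      abs_of_nonneg (m_anti t hs)]
    have h1 := m_anti t hs
    have h2 := m_drop t hs
    have h3 := norm_one_sub_E θ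
    have h4 := m_nonneg (t + s)
    have h5 := norm_nonneg (1 - E θ)
    simp only [e, T_c]
    constructor <;> nlinarith
  · rw [ex_b]
    have := m_nonneg (T (b ω).1)
    constructor
    · simp [b]
    · rw [norm_zero]; linarith

lemma T_contAt {w : ℂ} (hw : w.re ≠ 0) : ContinuousAt T w := by
  unfold T
  exact continuous_im.continuousAt.div continuous_re.continuousAt hw

lemma φ_cont {Y : Type} [TopologicalSpace Y] {s : Y → ℝ} {p : Y → ℂ × ℂ} (hs : Continuous s)
    (hp : Continuous p) (h0 : ∀ y, 0 ≤ s y) (hm : ∀ y, p y ∈ XS) :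
    Continuous fun y => φ (s y) (p y) := by
  have hex : Continuous fun y => ex (s y) (p y) := by
    rw [continuous_iff_continuousAt]
    intro y
    rcases hm y with ⟨t, θ, hy⟩ | ⟨ω, hy⟩
    · have hT : ContinuousAt (fun y => T (p y).1) y := by
        refine ContinuousAt.comp (f := fun y => (p y).1) (T_contAt ?_) hp.fst.continuousAt
        rw [hy]; exact (c_re_pos t).ne'
      have hTy : T (p y).1 = t := by rw [hy]; exact T_c t
      rcases le_or_gt 0 t with ht | ht
      · have h1 : ex (s y) (p y) = 0 := by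
          have := (ex_le (hm y) (h0 y)).2
          rw [hTy, m_of_nonneg ht, mul_zero] at this
          exact norm_le_zero_iff.1 this
        rw [ContinuousAt, h1]
        refine squeeze_zero_norm (fun y => (ex_le (hm y) (h0 y)).2) ?_
        have := (m_cont.continuousAt.comp hT).const_mul (2 : ℝ)
        have h2 := this.tendsto
        simpa [hTy, m_of_nonneg ht] using h2
      · unfold ex
        have h1 := m_cont.continuousAt.comp hT
        have h2 := m_cont.continuousAt.comp (hT.add hs.continuousAt)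
        have h3 := E_cont.continuousAt.comp hT
        refine ContinuousAt.mul (continuous_ofReal.continuousAt.comp ((h1.sub h2).div h1 ?_))
          (h3.sub hp.snd.continuousAt)
        simp only [Function.comp, hTy]; exact (m_pos ht).ne'
    · rw [ContinuousAt, hy, ex_b]
      refine squeeze_zero_norm (fun y => (ex_le (hm y) (h0 y)).1) ?_
      have : Continuous fun y => 2 * (s y * ‖(p y).1‖) := by fun_prop
      have h2 := this.tendsto y
      simpa [hy, b] using h2
  unfold φ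
  refine Continuous.prodMk (hp.fst.div (by fun_prop) fun y => ?_)
    ((E_cont.comp hs).mul (hp.snd.add hex))
  rcases hm y with ⟨t, θ, hy⟩ | ⟨ω, hy⟩
  · rw [hy]; exact den2_ne t _
  · rw [hy]; simp [b]

end Pool.Agent.H56.Fsp
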