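import Pool.Agent.H56.Fsp2

set_option autoImplicit false

namespace Pool.Agent.H56.Fsp
open Complex Set Metric Filter Topology

noncomputable def e' (t θ : ℝ) : XS := ⟨e t θ, Or.inl ⟨t, θ, rfl⟩⟩
noncomputable def b' (ω : ℝ) : XS := ⟨b ω, Or.inr ⟨ω, rfl⟩⟩

lemma cases' (x : XS) : (∃ t θ, x = e' t θ) ∨ ∃ ω, x = b' ω := by
  rcases x.2 with ⟨t, θ, h⟩ | ⟨ω, h⟩
  · exact Or.inl ⟨t, θ, Subtype.ext h⟩
  · exact Or.inr ⟨ω, Subtype.ext h⟩

lemma e_ne_b (t θ ω : ℝ) : e' t θ ≠ b' ω := fun h =>
  c_ne t (congrArg (fun x : XS => x.1.1) h)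

lemma e_fst {t θ t' θ' : ℝ} (h : e' t θ = e' t' θ') : t = t' :=
  c_inj (congrArg (fun x : XS => x.1.1) h)

lemma e_congr (t : ℝ) {θ θ' : ℝ} (h : E θ = E θ') : e' t θ = e' t θ' :=
  Subtype.ext (by simp only [e', e, h])

lemma e_ray {t : ℝ} (ht : 0 ≤ t) (θ θ' : ℝ) : e' t θ = e' t θ' :=
  Subtype.ext (by simp [e', e, m_of_nonneg ht])

lemma e_snd {t θ θ' : ℝ} (ht : t < 0) (h : e' t θ = e' t θ') : E θ = E θ' := by
  have h1 : E t * (1 - m t + m t * E θ) = E t * (1 - m t + m t * E θ') :=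
    congrArg (fun x : XS => x.1.2) h
  have h2 : (m t : ℂ) ≠ 0 := by exact_mod_cast (m_pos ht).ne'
  exact mul_left_cancel₀ h2 (add_left_cancel (mul_left_cancel₀ (E_ne t) h1))

lemma b_iff {ω ω' : ℝ} : b' ω = b' ω' ↔ E ω = E ω' :=
  ⟨fun h => congrArg (fun x : XS => x.1.2) h, fun h => Subtype.ext (by simp only [b', b, h])⟩

lemma e'_cont {Y : Type} [TopologicalSpace Y] {t θ : Y → ℝ} (ht : Continuous t)
    (hθ : Continuous θ) : Continuous fun y => e' (t y) (θ y) := by
  refine Continuous.subtype_mk ?_ _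
  have h1 := E_cont
  have h2 := m_cont
  have h3 : Continuous c := by
    unfold c; exact Continuous.inv₀ (by fun_prop) den_ne
  unfold e; fun_prop

lemma b'_cont : Continuous b' := by
  refine Continuous.subtype_mk ?_ _
  have h1 := E_cont
  unfold b; fun_prop

lemma shift_inj {u : ℝ → ℝ} (hu : ∀ t t', |u t - u t'| ≤ |t - t'| / 2) {t t' : ℝ}
    (h : t + u t = t' + u t') : t = t' := by
  have h1 := hu t t'
  rw [show u t - u t' = -(t - t') by linarith, abs_neg] at h1
  have h2 : |t - t'| ≤ 0 := by linarith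
  exact sub_eq_zero.1 (abs_nonpos_iff.1 h2)

lemma shift_surj {u : ℝ → ℝ} (hc : Continuous u) (h0 : ∀ t, 0 ≤ u t) (h1 : ∀ t, u t ≤ 1)
    (t₁ : ℝ) : ∃ t, t + u t = t₁ := by
  have hc' : Continuous fun t => t + u t := by fun_prop
  obtain ⟨t, -, ht⟩ := intermediate_value_Icc (by linarith : t₁ - 1 ≤ t₁) hc'.continuousOn
    (show t₁ ∈ Icc (t₁ - 1 + u (t₁ - 1)) (t₁ + u t₁) from
      ⟨by linarith [h1 (t₁ - 1)], by linarith [h0 t₁]⟩)
  exact ⟨t, ht⟩

lemma fixed_set (A : Set XS) (hA : IsClosed A) (hne : A.Nonempty) :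
    ∃ f : XS → XS, Continuous f ∧ Function.Surjective f ∧
      (∀ y, IsConnected (f ⁻¹' {y})) ∧ (∀ x, f x = x ↔ x ∈ A) := by
  obtain ⟨h, hc, h0, h1, hz, hl⟩ : ∃ h : XS → ℝ, Continuous h ∧ (∀ x, 0 ≤ h x) ∧ (∀ x, h x ≤ 1) ∧
      (∀ x, h x = 0 ↔ x ∈ A) ∧ ∀ x y, |h x - h y| ≤ dist x y / 6 := by
    refine ⟨fun x => infDist x A / 6, (continuous_infDist_pt A).div_const _,
      fun x => div_nonneg infDist_nonneg (by norm_num), fun x => ?_, fun x => ?_, fun x y => ?_⟩
    · obtain ⟨a, ha⟩ := hne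
      have h1 := infDist_le_dist_of_mem (x := x) ha
      have h2 : dist x a ≤ ‖x.1‖ + ‖a.1‖ := dist_le_norm_add_norm x.1 a.1
      have h3 := norm_le_of_mem x.2
      have h4 := norm_le_of_mem a.2
      simp only; linarith
    · rw [hA.mem_iff_infDist_zero hne]; simp
    · have h1 := infDist_le_infDist_add_dist (x := x) (y := y) (s := A)
      have h2 := infDist_le_infDist_add_dist (x := y) (y := x) (s := A)
      rw [dist_comm] at h2
      rw [abs_le]; constructor <;> linarith
  have he : ∀ t θ t' θ', |h (e' t θ) - h (e' t' θ')| ≤ |t - t'| / 2 + |θ - θ'| / 6 :=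
    fun t θ t' θ' => by
      have h2 := hl (e' t θ) (e' t' θ')
      have h3 : dist (e' t θ) (e' t' θ') ≤ _ := e_lip t θ t' θ'
      linarith
  have he' : ∀ θ t t', |h (e' t θ) - h (e' t' θ)| ≤ |t - t'| / 2 := fun θ t t' => by
    simpa using he t θ t' θ
  have hb : ∀ ω ω', |h (b' ω) - h (b' ω')| ≤ |ω - ω'| / 2 := fun ω ω' => by
    have h2 := hl (b' ω) (b' ω')
    have h3 : dist (b' ω) (b' ω') ≤ _ := b_lip ω ω'
    linarith [abs_nonneg (ω - ω')]
  let f : XS → XS := fun x => ⟨φ (h x) x.1, φ_mem x.2 (h0 x)⟩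
  have fe : ∀ t θ, f (e' t θ) = e' (t + h (e' t θ)) θ := fun t θ => Subtype.ext (φ_e t θ (h0 _))
  have fb : ∀ ω, f (b' ω) = b' (ω + h (b' ω)) := fun ω => Subtype.ext (φ_b ω _)
  have hse : ∀ t₁ θ, ∃ t, t + h (e' t θ) = t₁ := fun t₁ θ =>
    shift_surj (hc.comp (e'_cont continuous_id continuous_const)) (fun _ => h0 _) (fun _ => h1 _) t₁
  have hfib : ∀ y, IsConnected (f ⁻¹' {y}) := by
    intro y
    rcases cases' y with ⟨t₁, θ₁, rfl⟩ | ⟨ω₁, rfl⟩
    · choose τ hτ using hse t₁
      rcases le_or_gt 0 t₁ with ht | ht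
      · have hτc : Continuous τ := by
          have : LipschitzWith 1 τ := LipschitzWith.of_dist_le_mul fun θ θ' => by
            have h2 := he (τ θ) θ (τ θ') θ'
            rw [show h (e' (τ θ) θ) - h (e' (τ θ') θ') = -(τ θ - τ θ') by
              linarith [hτ θ, hτ θ'], abs_neg] at h2
            simp only [Real.dist_eq, NNReal.coe_one, one_mul]
            linarith [abs_nonneg (θ - θ')]
          exact this.continuous
        have : f ⁻¹' {e' t₁ θ₁} = range fun θ => e' (τ θ) θ := by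
          ext x
          simp only [mem_preimage, mem_singleton_iff, mem_range]
          constructor
          · intro hx
            rcases cases' x with ⟨t, θ, rfl⟩ | ⟨ω, rfl⟩
            · rw [fe] at hx
              exact ⟨θ, by rw [shift_inj (he' θ) ((hτ θ).trans (e_fst hx).symm)]⟩
            · rw [fb] at hx; exact absurd hx.symm (e_ne_b _ _ _)
          · rintro ⟨θ, rfl⟩
            rw [fe, hτ]; exact e_ray ht _ _
        rw [this]
        exact isConnected_range (e'_cont hτc continuous_id)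
      · have : f ⁻¹' {e' t₁ θ₁} = {e' (τ θ₁) θ₁} := by
          ext x
          simp only [mem_preimage, mem_singleton_iff]
          constructor
          · intro hx
            rcases cases' x with ⟨t, θ, rfl⟩ | ⟨ω, rfl⟩
            · rw [fe] at hx
              have h2 := e_fst hx
              rw [h2] at hx
              have h3 := e_congr t (e_snd ht hx)
              rw [h3] at h2 ⊢
              rw [shift_inj (he' θ₁) (h2.trans (hτ θ₁).symm)]
            · rw [fb] at hx; exact absurd hx.symm (e_ne_b _ _ _)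
          · rintro rfl
            rw [fe, hτ]
        rw [this]; exact isConnected_singleton
    · obtain ⟨ω₀, hω₀⟩ := shift_surj (hc.comp b'_cont) (fun _ => h0 _) (fun _ => h1 _) ω₁
      have : f ⁻¹' {b' ω₁} = {b' ω₀} := by
        ext x
        simp only [mem_preimage, mem_singleton_iff]
        constructor
        · intro hx
          rcases cases' x with ⟨t, θ, rfl⟩ | ⟨ω, rfl⟩
          · rw [fe] at hx; exact absurd hx (e_ne_b _ _ _)
          · rw [fb, b_iff, E_eq_iff] at hx
            obtain ⟨n, hn⟩ := hx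
            have h2 : b' ω = b' (ω - n * (2 * Real.pi)) := b_iff.2 (E_eq_iff.2 ⟨n, by ring⟩)
            have h3 : ω - n * (2 * Real.pi) = ω₀ := shift_inj hb (by
              rw [← h2]; simp only [Function.comp] at hω₀; linarith)
            rw [h2, h3]
        · rintro rfl
          rw [fb]; exact congrArg b' hω₀
      rw [this]; exact isConnected_singleton
  refine ⟨f, Continuous.subtype_mk (φ_cont hc continuous_subtype_val h0 fun y => y.2) _,
    fun y => (hfib y).nonempty, hfib, fun x => ?_⟩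
  rw [← hz]
  rcases cases' x with ⟨t, θ, rfl⟩ | ⟨ω, rfl⟩
  · rw [fe]
    exact ⟨fun H => by linarith [e_fst H], fun H => by rw [H, add_zero]⟩
  · rw [fb]
    refine ⟨fun H => ?_, fun H => by rw [H, add_zero]⟩
    have := E_inj (b_iff.1 H) (by
      rw [add_sub_cancel_left, abs_of_nonneg (h0 _)]; linarith [h1 (b' ω), Real.pi_gt_three])
    linarith

lemma free_arc : ∃ γ : unitInterval → XS, Continuous γ ∧ Function.Injective γ ∧
    IsOpen (γ '' {t : unitInterval | (0 : unitInterval) < t ∧ t < 1}) := by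
  refine ⟨fun s => e' (1 + s) 0, e'_cont (by fun_prop) continuous_const,
    fun s s' h => Subtype.ext (add_left_cancel (e_fst h)), ?_⟩
  have : (fun s : unitInterval => e' (1 + s) 0) '' {t : unitInterval | (0 : unitInterval) < t ∧ t < 1}
      = {x : XS | x.1.1.re < x.1.1.im} ∩ {x : XS | x.1.1.im < 2 * x.1.1.re} := by
    have key : ∀ t θ, ((e' t θ).1.1.re < (e' t θ).1.1.im ∧ (e' t θ).1.1.im < 2 * (e' t θ).1.1.re) ↔
        (1 < t ∧ t < 2) := fun t θ => by
      have h1 : (e' t θ).1.1 = c t := rfl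
      have h2 : 0 < 1 + t ^ 2 := by positivity
      rw [h1, c_re, c_im, div_lt_div_iff_of_pos_right h2, mul_one_div,
        div_lt_div_iff_of_pos_right h2]
    ext x
    simp only [mem_image, mem_ofPred_eq, mem_inter_iff]
    constructor
    · rintro ⟨s, ⟨h1, h2⟩, rfl⟩
      have h3 : (0 : ℝ) < s := h1
      have h4 : (s : ℝ) < 1 := h2
      exact (key _ _).2 ⟨by linarith, by linarith⟩
    · intro hx
      rcases cases' x with ⟨t, θ, rfl⟩ | ⟨ω, rfl⟩
      · obtain ⟨h1, h2⟩ := (key _ _).1 hx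
        refine ⟨⟨t - 1, by linarith, by linarith⟩, ⟨?_, ?_⟩, ?_⟩
        · show (0 : ℝ) < t - 1
          linarith
        · show t - 1 < (1 : ℝ)
          linarith
        · simp only [add_sub_cancel]
          exact e_ray (by linarith) _ _
      · simp [b', b] at hx
  rw [this]
  exact (isOpen_lt (by fun_prop) (by fun_prop)).inter (isOpen_lt (by fun_prop) (by fun_prop))

lemma not_circle (ψ : XS ≃ₜ Circle) : False := by
  let w : ℝ → ℂ := fun ω => -((ψ (b' ω) : ℂ) / ψ (e' 1 0))
  have hw : Continuous w := by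
    have := (ψ.continuous.comp b'_cont)
    have h2 : Continuous fun ω => (ψ (b' ω) : ℂ) := continuous_subtype_val.comp this
    exact (h2.div_const _).neg
  have hn : ∀ ω, ‖w ω‖ = 1 := fun ω => by simp [w]
  have hs : ∀ ω, w ω ∈ slitPlane := fun ω => by
    rw [mem_slitPlane_iff_arg]
    refine ⟨fun h => ?_, fun h => by simpa [h] using hn ω⟩
    have h1 := norm_mul_exp_arg_mul_I (w ω)
    rw [hn, h, exp_pi_mul_I] at h1
    have h2 : (ψ (b' ω) : ℂ) / ψ (e' 1 0) = 1 := by
      simp only [w, ofReal_one, one_mul, neg_inj] at h1; exact h1.symm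
    rw [div_eq_one_iff_eq (Circle.coe_ne_zero _)] at h2
    exact e_ne_b _ _ _ (ψ.injective (Circle.ext h2)).symm
  have hg : Continuous fun ω => arg (w ω) :=
    continuous_iff_continuousAt.2 fun ω => (continuousAt_arg (hs ω)).comp hw.continuousAt
  have hper : w (Real.pi + Real.pi) = w 0 := by
    have : b' (Real.pi + Real.pi) = b' 0 := b_iff.2 (E_eq_iff.2 ⟨1, by push_cast; ring⟩)
    simp only [w, this]
  have hk : Continuous fun ω => arg (w (ω + Real.pi)) - arg (w ω) :=
    (hg.comp (continuous_add_right _)).sub hg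
  obtain ⟨ω, hω⟩ : ∃ ω, arg (w (ω + Real.pi)) - arg (w ω) = 0 := by
    refine mem_range.1 (intermediate_value_univ₂ (a := ?_) (b := ?_) hk continuous_const ?_ ?_ |>.imp
      fun _ h => h)
    · exact if arg (w Real.pi) ≤ arg (w 0) then 0 else Real.pi
    · exact if arg (w Real.pi) ≤ arg (w 0) then Real.pi else 0
    · split_ifs with h
      · simpa using h
      · rw [hper]; linarith [not_le.1 h]
    · split_ifs with h
      · rw [hper]; linarith
      · simpa using (not_le.1 h).le
  have h1 : w (ω + Real.pi) = w ω := ext_norm_arg (by rw [hn, hn]) (sub_eq_zero.1 hω)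
  simp only [w, neg_inj] at h1
  rw [div_left_inj' (Circle.coe_ne_zero _)] at h1
  have h2 := E_inj (b_iff.1 (ψ.injective (Circle.ext h1))) (by
    rw [add_sub_cancel_left, abs_of_pos Real.pi_pos]; linarith [Real.pi_pos])
  linarith [Real.pi_pos]

instance : CompactSpace XS := isCompact_iff_compactSpace.1 XS_compact

instance : ConnectedSpace XS := by
  have : PreconnectedSpace XS := ⟨isPreconnected_of_forall_pair fun x _ y _ => by
    by_cases h : x = y
    · exact ⟨{x}, subset_univ _, rfl, h.symm, isPreconnected_singleton⟩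
    · obtain ⟨γ, hc, -, h0, h1⟩ := arcs x y h
      exact ⟨range γ, subset_univ _, ⟨0, h0⟩, ⟨1, h1⟩, isPreconnected_range hc⟩⟩
  exact ⟨⟨b' 0⟩⟩

end Pool.Agent.H56.Fsp
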