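import Mathlib

set_option autoImplicit false

namespace Pool.Agent.H56.Gel
open Filter Topology Set Metric
open scoped Classical BoundedContinuousFunction

def K : Set (ℂ × ℝ) := {p | 1 ≤ ‖p.1‖ ∨ 1 ≤ p.2}

lemma minmod (F : ℂ × ℝ → ℂ) (hc : Continuous F)
    (hd : ∀ t, DifferentiableOn ℂ (fun z => F (z, t)) (ball 0 1)) (δ : ℝ) (hδ : 0 < δ)
    (h : ∀ p ∈ K, δ ≤ ‖F p‖) (p : ℂ × ℝ) : δ ≤ ‖F p‖ := by
  set G : Set ℝ := {t | ∀ z ∈ closedBall (0 : ℂ) 1, δ ≤ ‖F (z, t)‖} with hG
  have h1 : ∀ t, (∀ z ∈ closedBall (0 : ℂ) 1, F (z, t) ≠ 0) → t ∈ G := fun t ht z hz => by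
    have h2 : DiffContOnCl ℂ (fun z => (F (z, t))⁻¹) (ball 0 1) :=
      ⟨(hd t).inv fun z hz => ht z (ball_subset_closedBall hz), by
        rw [closure_ball _ one_ne_zero]
        exact ContinuousOn.inv₀ (by fun_prop) ht⟩
    have h3 := Complex.norm_le_of_forall_mem_frontier_norm_le (C := δ⁻¹) isBounded_ball h2
      (fun w hw => by
        rw [frontier_ball _ one_ne_zero, mem_sphere_zero_iff_norm] at hw
        rw [norm_inv]
        exact inv_anti₀ hδ (h (w, t) (Or.inl hw.ge)))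
      (show z ∈ closure (ball 0 1) by rwa [closure_ball _ one_ne_zero])
    rwa [norm_inv, inv_le_inv₀ (norm_pos_iff.2 (ht z hz)) hδ] at h3
  have h2 : IsClopen G := by
    constructor
    · simp only [hG, ofPred_forall]
      exact isClosed_iInter fun z => isClosed_iInter fun _ =>
        isClosed_le continuous_const (by fun_prop)
    · rw [isOpen_iff_mem_nhds]
      intro t ht
      have h3 := (isCompact_closedBall (0 : ℂ) 1).eventually_forall_of_forall_eventually
        (x₀ := t) (P := fun s z => F (z, s) ≠ 0) fun z hz => by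
          refine ContinuousAt.eventually_ne (g := fun q : ℝ × ℂ => F (q.2, q.1)) (by fun_prop) ?_
          exact norm_pos_iff.1 (hδ.trans_le (ht z hz))
      exact h3.mono h1
  have h3 : G = univ := h2.eq_univ ⟨1, fun z _ => h (z, 1) (Or.inr le_rfl)⟩
  by_cases hp : 1 ≤ ‖p.1‖
  · exact h p (Or.inl hp)
  · exact (h3 ▸ mem_univ p.2 : p.2 ∈ G) p.1 (mem_closedBall_zero_iff.2 (not_le.1 hp).le)

lemma ex_d : ∃ u : ℕ → ℂ × ℝ, (∀ n, u n ∈ K) ∧ K ⊆ closure (range u) := by
  have : Nonempty K := ⟨⟨(0, 1), Or.inr le_rfl⟩⟩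
  obtain ⟨u, hu⟩ := TopologicalSpace.exists_dense_seq K
  refine ⟨fun n => u n, fun n => (u n).2, fun p hp => ?_⟩
  have := image_closure_subset_closure_image continuous_subtype_val ⟨⟨p, hp⟩, hu ⟨p, hp⟩, rfl⟩
  rwa [← range_comp] at this

noncomputable def u : ℕ → ℂ × ℝ := ex_d.choose
noncomputable def d (n : ℕ) : ℂ × ℝ := u (Nat.unpair n).1
lemma d_mem (n : ℕ) : d n ∈ K := ex_d.choose_spec.1 _

def Om : Type := (ℕ × Finset ℕ) ⊕ (Set ℕ × (ℂ × ℝ))
instance : TopologicalSpace Om := ⊥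
instance : DiscreteTopology Om := ⟨rfl⟩
instance : Nonempty Om := ⟨Sum.inl (0, ∅)⟩

noncomputable def node (α : Set ℕ) (n : ℕ) : Om := Sum.inl (n, (Finset.range n).filter (· ∈ α))
def pt (α : Set ℕ) (p : ℂ × ℝ) : Om := Sum.inr (α, p)

structure Good (x : Om → ℂ) : Prop where
  c : ∀ α, Continuous fun p => x (pt α p)
  h : ∀ α t, DifferentiableOn ℂ (fun z => x (pt α (z, t))) (ball 0 1)
  l : ∀ α, Tendsto (fun n => x (node α n) - x (pt α (d n))) atTop (𝓝 0)

lemma good_const (c : ℂ) : Good fun _ => c :=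
  ⟨fun _ => continuous_const, fun _ _ => differentiableOn_const _, fun _ => by simp⟩

noncomputable def sub : Subalgebra ℂ (Om →ᵇ ℂ) where
  carrier := {x | Good x}
  add_mem' {x y} hx hy := ⟨fun α => (hx.c α).add (hy.c α), fun α t => (hx.h α t).add (hy.h α t),
    fun α => by
      have := (hx.l α).add (hy.l α)
      rw [add_zero] at this
      exact this.congr fun n => by simp; ring⟩
  mul_mem' {x y} hx hy := ⟨fun α => (hx.c α).mul (hy.c α), fun α t => (hx.h α t).mul (hy.h α t),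
    fun α => by
      have h1 := (hx.l α).zero_mul_isBoundedUnder_le (g := fun n => y (node α n))
        (isBoundedUnder_of ⟨‖y‖, fun n => y.norm_coe_le_norm _⟩)
      have h2 := (hy.l α).zero_mul_isBoundedUnder_le (g := fun n => x (pt α (d n)))
        (isBoundedUnder_of ⟨‖x‖, fun n => x.norm_coe_le_norm _⟩)
      have := h1.add h2
      rw [add_zero] at this
      exact this.congr fun n => by simp; ring⟩
  algebraMap_mem' c := by
    have : ⇑(algebraMap ℂ (Om →ᵇ ℂ) c) = fun _ => c := by funext ω; simp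
    change Good _
    rw [this]
    exact good_const c

lemma sub_closed : IsClosed (sub : Set (Om →ᵇ ℂ)) := by
  refine isClosed_of_closure_subset fun x hx => ?_
  obtain ⟨y, hy, h⟩ := mem_closure_iff_seq_limit.1 hx
  have hu := BoundedContinuousFunction.tendsto_iff_tendstoUniformly.1 h
  refine ⟨fun α => (hu.comp (pt α)).continuous (Frequently.of_forall fun n => (hy n).c α),
    fun α t => ?_, fun α => ?_⟩
  · exact (hu.comp fun z => pt α (z, t)).tendstoLocallyUniformly.tendstoLocallyUniformlyOn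
      |>.differentiableOn (Eventually.of_forall fun n => (hy n).h α t) isOpen_ball
  · rw [Metric.tendsto_nhds]
    intro ε hε
    obtain ⟨n, hn⟩ := (Metric.tendsto_nhds.1 h (ε / 3) (by positivity)).exists
    filter_upwards [Metric.tendsto_nhds.1 ((hy n).l α) (ε / 3) (by positivity)] with m hm
    have h1 := (BoundedContinuousFunction.dist_coe_le_dist (f := y n) (g := x) (node α m)).trans_lt hn
    have h2 := (BoundedContinuousFunction.dist_coe_le_dist (f := y n) (g := x)
      (pt α (d m))).trans_lt hn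
    rw [dist_zero_right] at hm ⊢
    rw [dist_eq_norm] at h1 h2
    rw [norm_sub_rev] at h1
    rw [show x (node α m) - x (pt α (d m)) = (x (node α m) - y n (node α m)) +
      (y n (node α m) - y n (pt α (d m))) + (y n (pt α (d m)) - x (pt α (d m))) by ring]
    exact norm_add₃_le.trans_lt (by linarith)

def A : Type := sub

noncomputable instance : NormedCommRing A := inferInstanceAs (NormedCommRing sub)
noncomputable instance : NormedAlgebra ℂ A := inferInstanceAs (NormedAlgebra ℂ sub)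
instance : CompleteSpace A := sub_closed.completeSpace_coe

lemma norm_one' : ‖(1 : A)‖ = 1 := norm_one (α := Om →ᵇ ℂ)

noncomputable def ev (ω : Om) : A →ₐ[ℂ] ℂ where
  toFun x := x.1 ω
  map_one' := rfl
  map_mul' _ _ := rfl
  map_zero' := rfl
  map_add' _ _ := rfl
  commutes' c := by
    change (algebraMap ℂ (Om →ᵇ ℂ) c) ω = c
    simp

lemma mkA (x : Om → ℂ) (C : ℝ) (h1 : ∀ ω, ‖x ω‖ ≤ C) (h2 : Good x) :
    ∃ a : A, ∀ ω, ev ω a = x ω :=
  ⟨⟨BoundedContinuousFunction.ofNormedAddCommGroupDiscrete x C h1, h2⟩, fun _ => rfl⟩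

lemma extA (a b : A) (h : ∀ ω, ev ω a = ev ω b) : a = b :=
  Subtype.ext (BoundedContinuousFunction.ext h)

lemma unit (a : A) (δ : ℝ) (hδ : 0 < δ) (h : ∀ s, δ ≤ ‖ev (Sum.inl s) a‖) : IsUnit a := by
  have g : Good fun ω => ev ω a := a.2
  have h1 : ∀ ω, δ ≤ ‖ev ω a‖ := by
    rintro (s | ⟨α, p⟩)
    · exact h s
    · refine minmod _ (g.c α) (g.h α) δ hδ (fun q hq => ?_) p
      refine closure_minimal (t := {q | δ ≤ ‖ev (pt α q) a‖}) ?_
        (isClosed_le continuous_const (g.c α).norm) (ex_d.choose_spec.2 hq)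
      rintro _ ⟨k, rfl⟩
      have h2 : Tendsto (fun m => Nat.pair k m) atTop atTop :=
        tendsto_atTop_mono (fun m => Nat.right_le_pair k m) tendsto_id
      have h3 := ((g.l α).comp h2).add_const (ev (pt α (u k)) a)
      rw [zero_add] at h3
      refine ge_of_tendsto' h3.norm fun m => ?_
      simp only [Function.comp, d, Nat.unpair_pair, sub_add_cancel]
      exact h _
  have h0 : ∀ ω, ev ω a ≠ 0 := fun ω => norm_pos_iff.1 (hδ.trans_le (h1 ω))
  have h2 : ∀ ω, ‖(ev ω a)⁻¹‖ ≤ δ⁻¹ := fun ω => by rw [norm_inv]; exact inv_anti₀ hδ (h1 ω)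
  obtain ⟨b, hb⟩ := mkA (fun ω => (ev ω a)⁻¹) δ⁻¹ h2
    ⟨fun α => (g.c α).inv₀ fun _ => h0 _, fun α t => (g.h α t).inv fun _ _ => h0 _, fun α => by
      have h3 := (((g.l α).zero_mul_isBoundedUnder_le (g := fun n => (ev (node α n) a)⁻¹)
        (isBoundedUnder_of ⟨_, fun n => h2 _⟩)).zero_mul_isBoundedUnder_le
        (g := fun n => (ev (pt α (d n)) a)⁻¹) (isBoundedUnder_of ⟨_, fun n => h2 _⟩)).neg
      rw [neg_zero] at h3
      refine h3.congr fun n => ?_
      have := h0 (node α n)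
      have := h0 (pt α (d n))
      field_simp
      ring⟩
  exact IsUnit.of_mul_eq_one b (extA _ _ fun ω => by
    rw [map_mul, hb, map_one, mul_inv_cancel₀ (h0 ω)])

end Pool.Agent.H56.Gel
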