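import Pool.Agent.H56.Gel1

set_option autoImplicit false

namespace Pool.Agent.H56.Gel
open Filter Topology Set Metric WeakDual
open scoped Classical

noncomputable def ch (ω : Om) : characterSpace ℂ A := CharacterSpace.equivAlgHom.symm (ev ω)

lemma ch_apply (ω : Om) (a : A) : ch ω a = ev ω a := rfl

theorem gen (x : A) :
    spectrum ℂ x = closure ((fun φ : characterSpace ℂ A => φ x) '' range fun s => ch (Sum.inl s)) := by
  apply Subset.antisymm
  · intro l hl
    by_contra hn
    rw [Metric.mem_closure_iff] at hn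
    push Not at hn
    obtain ⟨δ, hδ, h⟩ := hn
    refine hl (unit _ δ hδ fun s => ?_)
    have := h _ ⟨_, ⟨s, rfl⟩, rfl⟩
    rwa [map_sub, AlgHom.commutes, ← dist_eq_norm]
  · refine closure_minimal ?_ (spectrum.isClosed x)
    rintro _ ⟨φ, -, rfl⟩
    exact CharacterSpace.apply_mem_spectrum φ x

noncomputable def lev (g : ℂ × ℝ → ℂ) : Om → ℂ
  | Sum.inl s => g (d s.1)
  | Sum.inr q => g q.2

lemma ex_lev (g : ℂ × ℝ → ℂ) (hc : Continuous g)
    (hd : ∀ t, DifferentiableOn ℂ (fun z => g (z, t)) (ball 0 1)) (hb : ∀ p, ‖g p‖ ≤ 1) :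
    ∃ a : A, ∀ ω, ev ω a = lev g ω :=
  mkA _ 1 (by rintro (s | q) <;> exact hb _)
    ⟨fun _ => hc, fun _ => hd, fun α => by simp [lev, node, pt]⟩

noncomputable def gz (p : ℂ × ℝ) : ℂ := p.1 / (max 1 ‖p.1‖ : ℝ)
noncomputable def gr (p : ℂ × ℝ) : ℂ := (max 0 (min p.2 1) : ℝ)

lemma gz_norm (p : ℂ × ℝ) : ‖gz p‖ = ‖p.1‖ / max 1 ‖p.1‖ := by
  rw [gz, norm_div, Complex.norm_real, Real.norm_of_nonneg (by positivity)]

lemma ex_z : ∃ a : A, ∀ ω, ev ω a = lev gz ω := by
  refine ex_lev gz (Continuous.div (by fun_prop) (by fun_prop) fun p => ?_) (fun t => ?_) fun p => ?_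
  · exact Complex.ofReal_ne_zero.2 (by positivity)
  · refine differentiableOn_id.congr fun z hz => ?_
    simp [gz, max_eq_left (mem_ball_zero_iff.1 hz).le]
  · rw [gz_norm]
    exact div_le_one_of_le₀ (le_max_right _ _) (by positivity)

lemma ex_r : ∃ a : A, ∀ ω, ev ω a = lev gr ω := by
  refine ex_lev gr (by unfold gr; fun_prop) (fun t => differentiableOn_const (gr (0, t))) fun p => ?_
  rw [gr, Complex.norm_real, Real.norm_of_nonneg (le_max_left _ _)]
  exact max_le zero_le_one (min_le_right _ _)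

noncomputable def ind (α : Set ℕ) : Om → ℂ
  | Sum.inl s => if Sum.inl s = node α s.1 then 1 else 0
  | Sum.inr q => if q.1 = α then 1 else 0

lemma node_ne (α β : Set ℕ) (h : α ≠ β) : ∃ N, ∀ n, N ≤ n → node α n ≠ node β n := by
  obtain ⟨k, hk⟩ : ∃ k, ¬ (k ∈ α ↔ k ∈ β) := by
    by_contra hn
    push Not at hn
    exact h (Set.ext hn)
  refine ⟨k + 1, fun n hn e => hk ?_⟩
  have h1 := Finset.ext_iff.1 (congrArg Prod.snd (Sum.inl_injective e)) k
  simpa [show k < n by omega] using h1

lemma ex_e (α : Set ℕ) : ∃ a : A, ∀ ω, ev ω a = ind α ω := by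
  refine mkA _ 1 ?_ ⟨fun β => continuous_const (y := ind α (pt β 0)),
    fun β t => differentiableOn_const (ind α (pt β 0)), fun β => ?_⟩
  · rintro (s | q) <;> simp only [ind] <;> split_ifs <;> simp
  · by_cases h : β = α
    · simp [h, ind, node, pt]
    · obtain ⟨N, hN⟩ := node_ne β α h
      refine tendsto_const_nhds.congr' ?_
      filter_upwards [eventually_ge_atTop N] with n hn
      have h1 : ind α (node β n) = 0 := if_neg (hN n hn)
      have h2 : ind α (pt β (d n)) = 0 := if_neg h
      rw [h1, h2, sub_zero]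

theorem nonsep : ¬ TopologicalSpace.SeparableSpace (characterSpace ℂ A) := by
  intro hs
  obtain ⟨Z, hZ⟩ := ex_z
  obtain ⟨R, hR⟩ := ex_r
  choose e he using ex_e
  have hc : ∀ a : A, Continuous fun φ : characterSpace ℂ A => φ a := fun a =>
    (gelfandTransform ℂ A a).continuous
  have := Pairwise.countable_of_isOpen_disjoint (ι := Set ℕ)
    (s := fun α => {φ : characterSpace ℂ A | φ (e α) ≠ 0 ∧ ‖φ Z‖ < 1 ∧ ‖φ R‖ < 1}) ?_ ?_ ?_
  · obtain ⟨f, hf⟩ := exists_surjective_nat (Set ℕ)
    exact Function.cantor_surjective f hf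
  · intro α β hab
    obtain ⟨N, hN⟩ := node_ne α β hab
    refine disjoint_left.2 fun φ ⟨h1, h2, h3⟩ ⟨h4, _⟩ => ?_
    have key : e α * e β * ∏ n ∈ Finset.range N,
        (if 1 ≤ ‖(d n).1‖ then Z - algebraMap ℂ A (gz (d n)) else R - 1) = 0 := by
      refine extA _ _ ?_
      rintro (s | q)
      · rw [map_mul, map_mul, map_prod, he, he, map_zero]
        by_cases h5 : Sum.inl s = node α s.1 ∧ Sum.inl s = node β s.1
        · have h6 : s.1 < N := not_le.1 fun h => hN _ h (h5.1.symm.trans h5.2)
          rw [Finset.prod_eq_zero (Finset.mem_range.2 h6), mul_zero]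
          split_ifs with h7
          · rw [map_sub, hZ, AlgHom.commutes]; simp [lev]
          · have h8 := (d_mem s.1).resolve_left h7
            rw [map_sub, hR, map_one]
            simp [lev, gr, min_eq_right h8]
        · simp only [ind]
          rcases not_and_or.1 h5 with h | h <;> simp [h]
      · rw [map_mul, map_mul, he, he, map_zero]
        simp only [ind]
        by_cases h5 : q.1 = α
        · simp [h5, hab]
        · simp [h5]
    have h5 := congrArg φ key
    rw [map_mul, map_mul, map_prod, map_zero] at h5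
    refine mul_ne_zero (mul_ne_zero h1 h4) (Finset.prod_ne_zero_iff.2 fun n _ => ?_) h5
    split_ifs with h7
    · rw [map_sub, AlgHomClass.commutes, sub_ne_zero]
      intro h8
      rw [h8, Algebra.algebraMap_self_apply, gz_norm, max_eq_right h7,
        div_self (by linarith)] at h2
      exact lt_irrefl _ h2
    · rw [map_sub, map_one, sub_ne_zero]
      intro h8
      simp [h8] at h3
  · intro α
    exact (isOpen_ne_fun (hc _) continuous_const).inter
      ((isOpen_lt (hc _).norm continuous_const).inter (isOpen_lt (hc _).norm continuous_const))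
  · intro α
    refine ⟨ch (pt α (0, 0)), ?_, ?_, ?_⟩
    · rw [ch_apply, he]; simp [ind, pt]
    · rw [ch_apply, hZ]; simp [lev, pt, gz]
    · rw [ch_apply, hR]; simp [lev, pt, gr]

end Pool.Agent.H56.Gel
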