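import Mathlib

set_option autoImplicit false

namespace Pool.Agent.H56.HS

open MvPolynomial

variable {n : ℕ} {K : Type*} [Field K]

/-- Differential of the Koszul complex on the variables: an element of the complex assigns to each
subset `t` the coefficient of the basis vector `e_t`, and `e_t` maps to the signed sum of
`x_j e_(t - j)`. -/
noncomputable def kd (f : Finset (Fin n) → MvPolynomial (Fin n) K) :
    Finset (Fin n) → MvPolynomial (Fin n) K :=
  fun s => ∑ j ∈ sᶜ, (-1) ^ (s.filter (· < j)).card * X j * f (insert j s)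

/-- `f` is an element of homological degree `i` and multidegree `a` of the Koszul complex of the
variables with coefficients in the ideal `I` (`e_t` has multidegree the indicator vector of `t`). -/
def IsChain (I : Ideal (MvPolynomial (Fin n) K)) (i : ℕ) (a : Fin n →₀ ℕ)
    (f : Finset (Fin n) → MvPolynomial (Fin n) K) : Prop :=
  ∀ t, f t ∈ I ∧ (t.card ≠ i → f t = 0) ∧
    ∀ m ∈ (f t).support, m + ∑ j ∈ t, Finsupp.single j 1 = a

/-- The multidegree `a` part of the `i`-th Koszul homology of `I`, which is `Tor_i (K, I)_a`,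
is nonzero: some cycle is not a boundary. -/
def TorNe (I : Ideal (MvPolynomial (Fin n) K)) (i : ℕ) (a : Fin n →₀ ℕ) : Prop :=
  ∃ z, IsChain I i a z ∧ kd z = 0 ∧ ¬ ∃ w, IsChain I (i + 1) a w ∧ kd w = z

/-- The `i`-th homological shift ideal. -/
noncomputable def hs (i : ℕ) (I : Ideal (MvPolynomial (Fin n) K)) :
    Ideal (MvPolynomial (Fin n) K) :=
  Ideal.span ((fun a => monomial a (1 : K)) '' {a | TorNe I i a})

/-- `I` is generated by a set of monomials of one degree with the exchange property. -/
def IsPolymatroidal (I : Ideal (MvPolynomial (Fin n) K)) : Prop :=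
  ∃ (G : Set (Fin n →₀ ℕ)) (d : ℕ), I = Ideal.span ((fun a => monomial a (1 : K)) '' G) ∧
    (∀ u ∈ G, ∑ j, u j = d) ∧
    ∀ u ∈ G, ∀ v ∈ G, ∀ p, v p < u p →
      ∃ q, u q < v q ∧ u - Finsupp.single p 1 + Finsupp.single q 1 ∈ G

end Pool.Agent.H56.HS
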