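import Pool.Agent.H56.MConv

set_option autoImplicit false
set_option linter.unusedSectionVars false

namespace Pool.Agent.H56.MConv

open Finset

variable {ι : Type*} [DecidableEq ι] [Fintype ι]

theorem MC.trans {B : Set (ι → ℤ)} {d : ℤ} (h : MC B d) {b : ι → ℤ} (hb : b ∈ B) {x y z : ι}
    (h1 : ex b x y ∈ B) (h2 : ex b y z ∈ B) : ex b x z ∈ B := by
  by_contra h3
  refine h3 ?_
  convert h.persist hb h2 h1 h3 using 1
  ext j; simp only [ex]; ring

theorem MC.critU {B : Set (ι → ℤ)} {d : ℤ} (h : MC B d) {a : ι → ℤ}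
    (hR : ∀ R : Finset ι, ∃ c ∈ B, ∑ j ∈ R, c j ≤ ∑ j ∈ R, a j) : ∃ b ∈ B, ∀ j, b j ≤ a j := by
  classical
  obtain ⟨b, hb, -⟩ := hR ∅
  induction hn : ∑ j, (b j - a j).toNat using Nat.strong_induction_on generalizing b with
  | _ n ih =>
    by_contra hno
    obtain ⟨p, hp⟩ : ∃ p, a p < b p := by
      by_contra h1
      push Not at h1
      exact hno ⟨b, hb, h1⟩
    let R := univ.filter fun q => ex b q p ∈ B
    have h1 : ∀ q ∈ R, a q ≤ b q := by
      intro q hq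
      by_contra h2
      have qp : p ≠ q := by rintro rfl; omega
      refine hno (ih _ (hn ▸ sum_lt_sum (fun j _ => ?_) ⟨p, mem_univ _, ?_⟩) _
        (mem_filter.1 hq).2 rfl)
      · simp only [ex]
        split_ifs with e1 e2 e2
        · omega
        · subst e1; omega
        · omega
        · omega
      · simp only [ex, qp, if_true, if_false]; omega
    obtain ⟨c, hc, hc2⟩ := hR R
    have h2 := h.tight hb Rᶜ (fun x hx y e => by
      simp only [R, mem_compl, mem_filter, mem_univ, true_and] at hx ⊢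
      exact fun h' => hx (h.trans hb e h')) c hc
    have h3 : ∑ j ∈ R, a j < ∑ j ∈ R, b j :=
      sum_lt_sum h1 ⟨p, mem_filter.2 ⟨mem_univ _, by rwa [ex_self]⟩, hp⟩
    have e1 := sum_add_sum_compl R b
    have e2 := sum_add_sum_compl R c
    rw [h.deg b hb] at e1
    rw [h.deg c hc] at e2
    omega

theorem MC.critP {B : Set (ι → ℤ)} {d : ℤ} (h : MC B d) {l : ι → ℤ}
    (hR : ∀ R : Finset ι, ∃ c ∈ B, ∑ j ∈ R, l j ≤ ∑ j ∈ R, c j) : ∃ b ∈ B, ∀ j, l j ≤ b j := by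
  classical
  obtain ⟨b, hb, -⟩ := hR ∅
  induction hn : ∑ j, (l j - b j).toNat using Nat.strong_induction_on generalizing b with
  | _ n ih =>
    by_contra hno
    obtain ⟨p, hp⟩ : ∃ p, b p < l p := by
      by_contra h1
      push Not at h1
      exact hno ⟨b, hb, h1⟩
    let R := univ.filter fun q => ex b p q ∈ B
    have h1 : ∀ q ∈ R, b q ≤ l q := by
      intro q hq
      by_contra h2
      have qp : p ≠ q := by rintro rfl; omega
      refine hno (ih _ (hn ▸ sum_lt_sum (fun j _ => ?_) ⟨p, mem_univ _, ?_⟩) _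
        (mem_filter.1 hq).2 rfl)
      · simp only [ex]
        split_ifs with e1 e2 e2
        · omega
        · omega
        · subst e2; omega
        · omega
      · simp only [ex, qp, if_true, if_false]; omega
    obtain ⟨c, hc, hc2⟩ := hR R
    have h2 := h.tight hb R (fun x hx y e => by
      simp only [R, mem_filter, mem_univ, true_and] at hx ⊢
      exact h.trans hb hx e) c hc
    have h3 : ∑ j ∈ R, b j < ∑ j ∈ R, l j :=
      sum_lt_sum h1 ⟨p, mem_filter.2 ⟨mem_univ _, by rwa [ex_self]⟩, hp⟩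
    omega

theorem mc_of_sub (f : Finset ι → ℤ) (N : ℤ)
    (hf : ∀ X Y : Finset ι, (X ∩ Y).Nonempty → f (X ∪ Y) + f (X ∩ Y) ≤ f X + f Y) :
    MC {a | ∑ j, a j = N ∧ ∀ T : Finset ι, T.Nonempty → ∑ j ∈ T, a j ≤ f T} N := by
  classical
  refine ⟨fun u hu => hu.1, fun a ha a' ha' p hp => ?_⟩
  by_contra hno
  push Not at hno
  let Ti : Finset ι → Prop := fun T => T.Nonempty ∧ p ∉ T ∧ ∑ j ∈ T, a j = f T
  have un : ∀ X Y, Ti X → Ti Y → (X ∩ Y).Nonempty → Ti (X ∪ Y) := by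
    intro X Y hX hY hn
    refine ⟨hX.1.mono subset_union_left, by simp [hX.2.1, hY.2.1], ?_⟩
    have e1 := sum_union_inter (s₁ := X) (s₂ := Y) (f := a)
    have e2 := hf X Y hn
    have e3 := ha.2 _ hn
    have e4 := ha.2 (X ∪ Y) (hX.1.mono subset_union_left)
    have := hX.2.2
    have := hY.2.2
    omega
  have mx : ∀ q, (∃ T, Ti T ∧ q ∈ T) → ∃ M, Ti M ∧ q ∈ M ∧ ∀ T, Ti T → (T ∩ M).Nonempty → T ⊆ M := by
    intro q hq
    obtain ⟨M, hM, hM2⟩ := exists_max_image (univ.filter fun T => Ti T ∧ q ∈ T) card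
      (by obtain ⟨T, hT⟩ := hq; exact ⟨T, mem_filter.2 ⟨mem_univ _, hT⟩⟩)
    obtain ⟨a1, a2⟩ := (mem_filter.1 hM).2
    refine ⟨M, a1, a2, fun T hT hn => ?_⟩
    have := hM2 (T ∪ M) (mem_filter.2 ⟨mem_univ _, un T M hT a1 hn, mem_union_right _ a2⟩)
    have e := eq_of_subset_of_card_le (subset_union_right (s₁ := T) (s₂ := M)) this
    exact e ▸ subset_union_left
  have ind : ∀ W : Finset ι, (∀ q ∈ W, ∃ T, Ti T ∧ q ∈ T) → (∀ T, Ti T → (T ∩ W).Nonempty → T ⊆ W) →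
      ∑ j ∈ W, a' j ≤ ∑ j ∈ W, a j := by
    intro W
    induction W using Finset.strongInduction with
    | H W ih =>
      intro h1 h2
      rcases W.eq_empty_or_nonempty with rfl | ⟨q, hq⟩
      · simp
      obtain ⟨M, a1, a2, a3⟩ := mx q (h1 q hq)
      have hMW : M ⊆ W := h2 M a1 ⟨q, mem_inter.2 ⟨a2, hq⟩⟩
      have := ih (W \ M) (sdiff_ssubset hMW ⟨q, a2⟩) (fun r hr => h1 r (mem_sdiff.1 hr).1)
        (fun T hT ⟨r, hr⟩ x hx => by
          obtain ⟨r1, r2⟩ := mem_inter.1 hr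
          obtain ⟨r2, r3⟩ := mem_sdiff.1 r2
          exact mem_sdiff.2 ⟨h2 T hT ⟨r, mem_inter.2 ⟨r1, r2⟩⟩ hx,
            fun hxM => r3 (a3 T hT ⟨x, mem_inter.2 ⟨hx, hxM⟩⟩ r1)⟩)
      rw [← sum_sdiff hMW, ← sum_sdiff hMW (f := a)]
      have := ha'.2 M a1.1
      have := a1.2.2
      omega
  let W := univ.filter fun q => ∃ T, Ti T ∧ q ∈ T
  have h1 := ind W (fun q hq => (mem_filter.1 hq).2)
    (fun T hT _ x hx => mem_filter.2 ⟨mem_univ _, T, hT, hx⟩)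
  have h2 : ∑ j ∈ Wᶜ, a' j < ∑ j ∈ Wᶜ, a j := by
    refine sum_lt_sum (fun q hq => ?_) ⟨p, ?_, hp⟩
    · by_contra h3
      refine hno q (by omega) ⟨by rw [sum_ex, ha.1]; simp, fun T hT => ?_⟩
      rw [sum_ex]
      have := ha.2 T hT
      split_ifs with e1 e2 e2
      · omega
      · have : ∑ j ∈ T, a j ≠ f T := fun e =>
          mem_compl.1 hq (mem_filter.2 ⟨mem_univ _, T, ⟨hT, e2, e⟩, e1⟩)
        omega
      · omega
      · omega
    · simp only [W, mem_compl, mem_filter, mem_univ, true_and, not_exists, not_and]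
      exact fun T hT => hT.2.1
  have e1 := sum_add_sum_compl W a
  have e2 := sum_add_sum_compl W a'
  rw [ha.1] at e1
  rw [ha'.1] at e2
  omega

theorem MC.rank {B : Set (ι → ℤ)} {d : ℤ} (h : MC B d) (hne : B.Nonempty)
    (h0 : ∀ b ∈ B, ∀ j, 0 ≤ b j) : ∃ r : Finset ι → ℤ, (∀ b ∈ B, ∀ T, ∑ j ∈ T, b j ≤ r T) ∧
      (∀ T, ∃ b ∈ B, ∑ j ∈ T, b j = r T) ∧ ∀ X Y, r (X ∪ Y) + r (X ∩ Y) ≤ r X + r Y := by
  have bd : ∀ b ∈ B, ∀ T : Finset ι, ∑ j ∈ T, b j ≤ d := fun b hb T =>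
    h.deg b hb ▸ sum_le_sum_of_subset_of_nonneg (subset_univ T) fun j _ _ => h0 b hb j
  have gr : ∀ (P : (ι → ℤ) → Prop) (T : Finset ι), (∃ b ∈ B, P b) → ∃ b ∈ B, P b ∧
      ∀ c ∈ B, P c → ∑ j ∈ T, c j ≤ ∑ j ∈ T, b j := by
    rintro P T ⟨b, hb, hP⟩
    obtain ⟨m, ⟨b, a1, a2, rfl⟩, a3⟩ := Int.exists_greatest_of_bdd
      (P := fun m => ∃ b ∈ B, P b ∧ ∑ j ∈ T, b j = m)
      ⟨d, by rintro z ⟨c, a1, -, rfl⟩; exact bd c a1 T⟩ ⟨_, b, hb, hP, rfl⟩
    exact ⟨b, a1, a2, fun c c1 c2 => a3 _ ⟨c, c1, c2, rfl⟩⟩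
  choose g g1 _ g2 using fun T => gr (fun _ => True) T (hne.imp fun _ h => ⟨h, trivial⟩)
  refine ⟨fun T => ∑ j ∈ T, g T j, fun b hb T => g2 T b hb trivial, fun T => ⟨_, g1 T, rfl⟩,
    fun X Y => ?_⟩
  obtain ⟨b, a1, a2, a3⟩ := gr (fun b => ∑ j ∈ X ∪ Y, b j = ∑ j ∈ X ∪ Y, g (X ∪ Y) j) (X ∩ Y)
    ⟨_, g1 _, rfl⟩
  have h1 := h.tight a1 (X ∩ Y) (fun x hx y e => by
    by_contra hy
    have hx' : x ∈ X ∪ Y := mem_union_left _ (mem_inter.1 hx).1
    have c1 := g2 (X ∪ Y) _ e trivial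
    have c2 := a3 _ e
    rw [sum_ex] at c1 c2
    rw [sum_ex] at c2
    simp only [hx, hx', hy, if_true, if_false] at c1 c2
    split_ifs at c1 c2 <;> omega) _ (g1 (X ∩ Y))
  have e1 := sum_union_inter (s₁ := X) (s₂ := Y) (f := b)
  have c1 := g2 X b a1 trivial
  have c2 := g2 Y b a1 trivial
  simp only []
  omega

theorem MC.shift {B : Set (ι → ℤ)} {d : ℤ} (h : MC B d) (h0 : ∀ b ∈ B, ∀ j, 0 ≤ b j) (i : ℕ) :
    MC {a | Good B a ∧ ∑ j, a j = d + i} (d + i) := by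
  rcases B.eq_empty_or_nonempty with rfl | hne
  · exact ⟨fun u hu => hu.2, fun u hu => by obtain ⟨⟨⟨_, h, _⟩, _⟩, _⟩ := hu; exact h.elim⟩
  obtain ⟨r, r1, r2, r3⟩ := h.rank hne h0
  convert mc_of_sub (fun T => r T + min (i : ℤ) (T.card - 1)) (d + i) (fun X Y _ => by
    have := r3 X Y
    have := card_union_add_card_inter X Y
    have := card_le_card (inter_subset_left (s₁ := X) (s₂ := Y))
    have := card_le_card (inter_subset_right (s₁ := X) (s₂ := Y))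
    omega) using 2 with a
  ext a
  have si : ∀ (p : ι) (T : Finset ι), ∑ j ∈ T, (a j - 1 + ind {p} j) =
      ∑ j ∈ T, a j - T.card + if p ∈ T then 1 else 0 := by
    intro p T
    simp [ind, sum_add_distrib, sum_sub_distrib]
  constructor
  · rintro ⟨⟨⟨b, hb, h1⟩, h2⟩, h3⟩
    refine ⟨h3, fun T ⟨p, hp⟩ => ?_⟩
    obtain ⟨c, hc, h4⟩ := h2 p
    have e1 : ∑ j ∈ Tᶜ, b j ≤ ∑ j ∈ Tᶜ, a j := sum_le_sum fun j _ => h1 j
    have e2 := sum_le_sum (s := T) fun j _ => h4 j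
    rw [si, if_pos hp] at e2
    have e3 := sum_add_sum_compl T a
    have e4 := sum_add_sum_compl T b
    rw [h.deg b hb] at e4
    have := r1 b hb T
    have := r1 c hc T
    omega
  · rintro ⟨h1, h2⟩
    refine ⟨⟨h.critU fun R => ?_, fun p => h.critP fun R => ?_⟩, h1⟩
    · obtain ⟨c, hc, e⟩ := r2 Rᶜ
      refine ⟨c, hc, ?_⟩
      have e3 := sum_add_sum_compl R a
      have e4 := sum_add_sum_compl R c
      rw [h.deg c hc] at e4
      rcases Rᶜ.eq_empty_or_nonempty with e5 | e5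
      · rw [e5] at e3 e4
        simp only [sum_empty] at e3 e4
        omega
      · have := h2 _ e5
        omega
    · obtain ⟨c, hc, e⟩ := r2 R
      refine ⟨c, hc, ?_⟩
      rcases R.eq_empty_or_nonempty with rfl | e5
      · simp
      · have := h2 _ e5
        rw [si]
        split_ifs <;> omega

theorem MC.cancel {B H : Set (ι → ℤ)} {d e : ℤ} (h : MC B d) (hne : B.Nonempty)
    (h0 : ∀ b ∈ B, ∀ j, 0 ≤ b j) (hH : MC H e) {c : ι → ℤ}
    (hc : ∀ b ∈ B, ∃ b' ∈ B, ∃ a ∈ H, ∀ j, b' j + a j ≤ b j + c j) : ∃ a ∈ H, ∀ j, a j ≤ c j := by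
  obtain ⟨r, r1, r2, -⟩ := h.rank hne h0
  refine hH.critU fun R => ?_
  obtain ⟨b, hb, e⟩ := r2 Rᶜ
  obtain ⟨b', hb', a, ha, h1⟩ := hc b hb
  refine ⟨a, ha, ?_⟩
  have e1 := sum_le_sum (s := R) fun j _ => h1 j
  rw [sum_add_distrib, sum_add_distrib] at e1
  have e3 := sum_add_sum_compl R b
  have e4 := sum_add_sum_compl R b'
  rw [h.deg b hb] at e3
  rw [h.deg b' hb'] at e4
  have := r1 b' hb' Rᶜ
  omega

end Pool.Agent.H56.MConv
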