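import Mathlib

set_option autoImplicit false

namespace Pool.Agent.H56.MatHom

open Finset

variable {ι : Type*} [LinearOrder ι] [Fintype ι] {K : Type*} [CommRing K]

def sg (K : Type*) [CommRing K] (s : Finset ι) (j : ι) : K := (-1) ^ (s.filter (· < j)).card

omit [Fintype ι] in
theorem sg_sq (s : Finset ι) (j : ι) : sg K s j * sg K s j = 1 := by
  unfold sg; rw [← mul_pow]; simp

omit [Fintype ι] in
theorem sg_insert {s : Finset ι} {l : ι} (h : l ∉ s) (j : ι) :
    sg K (insert l s) j = if l < j then - sg K s j else sg K s j := by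
  unfold sg
  rw [filter_insert]
  split_ifs with h1
  · rw [card_insert_of_notMem (by simp [h]), pow_succ]; ring
  · rfl

def io (j : ι) (f : Finset ι → K) : Finset ι → K :=
  fun s => if j ∈ s then 0 else sg K s j * f (insert j s)

def co (j : ι) (f : Finset ι → K) : Finset ι → K :=
  fun s => if j ∈ s then sg K (s.erase j) j * f (s.erase j) else 0

def bd (f : Finset ι → K) : Finset ι → K := ∑ j, io j f

omit [Fintype ι] in
theorem io_add (j : ι) (f g : Finset ι → K) : io j (f + g) = io j f + io j g := by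
  ext s; simp only [io, Pi.add_apply]; split_ifs <;> ring

omit [Fintype ι] in
theorem io_neg (j : ι) (f : Finset ι → K) : io j (-f) = - io j f := by
  ext s; simp only [io, Pi.neg_apply]; split_ifs <;> ring

omit [Fintype ι] in
theorem io_zero (j : ι) : io j (0 : Finset ι → K) = 0 := by
  ext s; simp [io]

omit [Fintype ι] in
theorem co_zero (j : ι) : co j (0 : Finset ι → K) = 0 := by
  ext s; simp [co]

omit [Fintype ι] in
theorem co_add (j : ι) (f g : Finset ι → K) : co j (f + g) = co j f + co j g := by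
  ext s; simp only [co, Pi.add_apply]; split_ifs <;> ring

omit [Fintype ι] in
theorem io_sum {κ : Type*} (T : Finset κ) (j : ι) (f : κ → Finset ι → K) :
    io j (∑ k ∈ T, f k) = ∑ k ∈ T, io j (f k) := by
  classical
  induction T using Finset.induction_on with
  | empty => simp [io_zero]
  | insert a T h ih => rw [sum_insert h, sum_insert h, io_add, ih]

omit [Fintype ι] in
theorem co_sum {κ : Type*} (T : Finset κ) (j : ι) (f : κ → Finset ι → K) :
    co j (∑ k ∈ T, f k) = ∑ k ∈ T, co j (f k) := by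
  classical
  induction T using Finset.induction_on with
  | empty => simp [co_zero]
  | insert a T h ih => rw [sum_insert h, sum_insert h, co_add, ih]

theorem bd_add (f g : Finset ι → K) : bd (f + g) = bd f + bd g := by
  simp only [bd, io_add, sum_add_distrib]

theorem bd_neg (f : Finset ι → K) : bd (-f) = - bd f := by
  simp only [bd, io_neg, sum_neg_distrib]

theorem bd_zero : bd (0 : Finset ι → K) = 0 := by
  simp [bd, io_zero]

omit [Fintype ι] in
theorem io_io (j l : ι) (f : Finset ι → K) : io j (io l f) = - io l (io j f) := by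
  ext s
  simp only [io, Pi.neg_apply, mem_insert]
  by_cases hj : j ∈ s
  · simp [hj]
  by_cases hl : l ∈ s
  · simp [hl]
  rcases lt_trichotomy j l with h | h | h
  · simp only [hj, hl, h.ne, h.ne', or_self, if_false, sg_insert hj, sg_insert hl, h, h.not_gt,
      if_true, insert_comm j l]
    ring
  · subst h; simp
  · simp only [hj, hl, h.ne, h.ne', or_self, if_false, sg_insert hj, sg_insert hl, h, h.not_gt,
      if_true, insert_comm j l]
    ring

omit [Fintype ι] in
theorem io_co (j : ι) (f : Finset ι → K) : io j (co j f) + co j (io j f) = f := by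
  ext s
  simp only [io, co, Pi.add_apply]
  by_cases hj : j ∈ s
  · simp only [hj, if_true, notMem_erase, if_false, insert_erase hj, zero_add, ← mul_assoc, sg_sq,
      one_mul]
  · simp only [hj, if_false, mem_insert_self, if_true, erase_insert hj, add_zero, ← mul_assoc,
      sg_sq, one_mul]

omit [Fintype ι] in
theorem io_co_ne {j l : ι} (h : j ≠ l) (f : Finset ι → K) : io j (co l f) + co l (io j f) = 0 := by
  ext s
  simp only [io, co, Pi.add_apply, Pi.zero_apply, mem_insert, mem_erase]
  by_cases hj : j ∈ s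
  · simp [hj, h]
  by_cases hl : l ∈ s
  · obtain ⟨t, ht, rfl⟩ : ∃ t, l ∉ t ∧ s = insert l t :=
      ⟨s.erase l, notMem_erase _ _, (insert_erase hl).symm⟩
    have hj' : j ∉ t := fun e => hj (mem_insert_of_mem e)
    have e1 : (insert j (insert l t)).erase l = insert j t := by
      rw [insert_comm, erase_insert (by simp [ht, h.symm])]
    simp only [hj, hl, if_false, or_true, if_true, and_false, erase_insert ht, e1, sg_insert ht,
      sg_insert hj']
    rcases lt_or_gt_of_ne h with h | h
    · simp only [h, h.not_gt, if_true, if_false]; ring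
    · simp only [h, h.not_gt, if_true, if_false]; ring
  · simp [hl, h.symm]

theorem bd_co (e : ι) (f : Finset ι → K) : bd (co e f) + co e (bd f) = f := by
  unfold bd
  rw [co_sum, ← sum_add_distrib, sum_eq_single e]
  · exact io_co e f
  · exact fun j _ h => io_co_ne h f
  · simp

theorem io_bd (e : ι) (f : Finset ι → K) : bd (io e f) = - io e (bd f) := by
  unfold bd
  rw [io_sum, ← sum_neg_distrib]
  exact sum_congr rfl fun j _ => io_io j e f

def Supp (F : Finset ι → Prop) (i : ℕ) (f : Finset ι → K) : Prop :=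
  ∀ t, f t ≠ 0 → F t ∧ t.card = i

structure Mat (F : Finset ι → Prop) : Prop where
  down : ∀ s t, s ⊆ t → F t → F s
  aug : ∀ s t, F s → F t → s.card < t.card → ∃ j ∈ t, j ∉ s ∧ F (insert j s)

omit [Fintype ι] in
theorem Mat.ext {F : Finset ι → Prop} (h : Mat F) {t : Finset ι} (ht : F t) (m : ℕ) :
    ∀ s, F s → s.card + m = t.card → ∃ u, F u ∧ s ⊆ u ∧ u ⊆ s ∪ t ∧ u.card = t.card := by
  induction m with
  | zero => exact fun s hs e => ⟨s, hs, Subset.rfl, subset_union_left, e⟩
  | succ m ih =>
    intro s hs e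
    obtain ⟨j, h1, h2, h3⟩ := h.aug s t hs ht (by omega)
    obtain ⟨u, a, b, c, d⟩ := ih _ h3 (by rw [card_insert_of_notMem h2]; omega)
    refine ⟨u, a, (subset_insert _ _).trans b, c.trans ?_, d⟩
    intro x hx
    simp only [mem_union, mem_insert] at hx ⊢
    rcases hx with (rfl | hx) | hx <;> simp [*]

omit [Fintype ι] in
theorem Mat.link {F : Finset ι → Prop} (h : Mat F) (e : ι) :
    Mat (fun t => e ∉ t ∧ F (insert e t)) := by
  refine ⟨fun s t hst ht => ⟨fun x => ht.1 (hst x), h.down _ _ (insert_subset_insert _ hst) ht.2⟩,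
    fun s t hs ht hc => ?_⟩
  obtain ⟨j, h1, h2, h3⟩ := h.aug _ _ hs.2 ht.2 (by
    rw [card_insert_of_notMem hs.1, card_insert_of_notMem ht.1]; omega)
  simp only [mem_insert, not_or] at h1 h2
  refine ⟨j, h1.resolve_left h2.1, h2.2, ?_, by rwa [insert_comm]⟩
  simp only [mem_insert, not_or]
  exact ⟨fun x => h2.1 x.symm, hs.1⟩

omit [Fintype ι] in
theorem Mat.del {F : Finset ι → Prop} (h : Mat F) (e : ι) :
    Mat (fun t => e ∉ t ∧ F t) := by
  refine ⟨fun s t hst ht => ⟨fun x => ht.1 (hst x), h.down _ _ hst ht.2⟩, fun s t hs ht hc => ?_⟩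
  obtain ⟨j, h1, h2, h3⟩ := h.aug _ _ hs.2 ht.2 hc
  refine ⟨j, h1, h2, ?_, h3⟩
  simp only [mem_insert, not_or]
  exact ⟨fun x => ht.1 (x ▸ h1), hs.1⟩

omit [Fintype ι] in
theorem supp_co {F G : Finset ι → Prop} {i : ℕ} {f : Finset ι → K} (e : ι) (h : Supp G i f)
    (hF : ∀ t, G t → t.card = i → e ∉ t → F (insert e t)) : Supp F (i + 1) (co e f) := by
  intro t ht
  unfold co at ht
  split_ifs at ht with he
  · obtain ⟨a, b⟩ := h _ (right_ne_zero_of_mul ht)
    have := hF _ a b (notMem_erase _ _)
    rw [insert_erase he] at this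
    exact ⟨this, by rw [← b, card_erase_add_one he]⟩
  · exact absurd rfl ht

omit [Fintype ι] in
theorem supp_add {F : Finset ι → Prop} {i : ℕ} {f g : Finset ι → K} (h : Supp F i f)
    (h' : Supp F i g) : Supp F i (f + g) := by
  intro t ht
  by_cases h1 : f t = 0
  · exact h' t (by simpa [h1] using ht)
  · exact h t h1

omit [Fintype ι] in
theorem supp_neg {F : Finset ι → Prop} {i : ℕ} {f : Finset ι → K} (h : Supp F i f) :
    Supp F i (-f) := fun t ht => h t (by simpa using ht)

omit [Fintype ι] [LinearOrder ι] in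
theorem Supp.mono {F G : Finset ι → Prop} {i : ℕ} {f : Finset ι → K} (h : Supp F i f)
    (hF : ∀ t, F t → G t) : Supp G i f := fun t ht => ⟨hF _ (h t ht).1, (h t ht).2⟩

theorem acyc (E : Finset ι) : ∀ F : Finset ι → Prop, Mat F → (∀ t, F t → t ⊆ E) → ∀ i : ℕ,
    (∃ t, F t ∧ i < t.card) → ∀ z : Finset ι → K, Supp F i z → bd z = 0 →
    ∃ w : Finset ι → K, Supp F (i + 1) w ∧ bd w = z := by
  induction E using Finset.induction_on with
  | empty =>
    rintro F - hE i ⟨t, ht, hi⟩
    have := subset_empty.1 (hE t ht)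
    subst this
    simp at hi
  | insert e E he ih =>
    rintro F hF hE i ⟨t0, ht0, hi⟩ z hz hb
    have sub : ∀ t, e ∉ t → F t → t ⊆ E := fun t h1 h2 x hx =>
      (mem_insert.1 (hE t h2 hx)).resolve_left (fun e' => h1 (e' ▸ hx))
    obtain ⟨w1, hw1, e1⟩ : ∃ w1 : Finset ι → K,
        Supp (fun t => e ∉ t ∧ F (insert e t)) i w1 ∧ bd w1 = io e z := by
      by_cases h0 : io e z = 0
      · exact ⟨0, fun t ht => absurd rfl ht, by rw [h0, bd_zero]⟩
      have hs : ∀ t, io e z t ≠ 0 → e ∉ t ∧ F (insert e t) ∧ t.card + 1 = i := by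
        intro t ht
        unfold io at ht
        split_ifs at ht with h1
        · exact absurd rfl ht
        · obtain ⟨a, b⟩ := hz _ (right_ne_zero_of_mul ht)
          exact ⟨h1, a, by rw [← b, card_insert_of_notMem h1]⟩
      obtain ⟨t1, ht1⟩ := Function.ne_iff.1 h0
      obtain ⟨a1, a2, a3⟩ := hs t1 ht1
      obtain ⟨i, rfl⟩ : ∃ i', i = i' + 1 := ⟨t1.card, a3.symm⟩
      obtain ⟨u, b1, b2, -, b4⟩ := hF.ext ht0 (t0.card - 1) {e}
        (hF.down _ _ (by simp) a2) (by simp; omega)
      have hu : e ∈ u := b2 (mem_singleton_self _)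
      refine ih _ (hF.link e) (fun t ht => sub t ht.1 (hF.down _ _ (subset_insert _ _) ht.2)) i
        ⟨u.erase e, ⟨notMem_erase _ _, by rwa [insert_erase hu]⟩, ?_⟩ _
        (fun t ht => ⟨⟨(hs t ht).1, (hs t ht).2.1⟩, by have := (hs t ht).2.2; omega⟩)
        (by rw [io_bd, hb, io_zero, neg_zero])
      rw [card_erase_of_mem hu]; omega
    have h3 : Supp (fun t => e ∉ t ∧ F t) i (w1 + io e (co e z)) := by
      refine supp_add (hw1.mono fun t ht => ⟨ht.1, hF.down _ _ (subset_insert _ _) ht.2⟩) ?_
      intro t ht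
      by_cases h1 : e ∈ t
      · simp [io, h1] at ht
      · simp only [io, co, h1, if_false, mem_insert_self, if_true, erase_insert h1] at ht
        obtain ⟨a, b⟩ := hz _ (right_ne_zero_of_mul (right_ne_zero_of_mul ht))
        exact ⟨⟨h1, a⟩, b⟩
    have hz' : bd (co e z) = z := by simpa [hb, co_zero] using bd_co e z
    have h4 : bd (w1 + io e (co e z)) = 0 := by
      rw [bd_add, e1, io_bd, hz']; simp
    obtain ⟨w, hw, e2⟩ : ∃ w : Finset ι → K, Supp F (i + 1) w ∧ bd w = w1 + io e (co e z) := by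
      by_cases hc : ∃ t, (e ∉ t ∧ F t) ∧ i < t.card
      · obtain ⟨w, a, b⟩ := ih _ (hF.del e) (fun t ht => sub t ht.1 ht.2) i hc _ h3 h4
        exact ⟨w, a.mono fun t ht => ht.2, b⟩
      · refine ⟨co e (w1 + io e (co e z)), supp_co e h3 fun t ht hc' _ => ?_,
          by simpa [h4, co_zero] using bd_co e (w1 + io e (co e z))⟩
        obtain ⟨j, -, a2, a3⟩ := hF.aug t t0 ht.2 ht0 (by omega)
        by_cases hj : j = e
        · exact hj ▸ a3
        · exact absurd ⟨insert j t, ⟨by simp [ht.1, Ne.symm hj], a3⟩, by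
            rw [card_insert_of_notMem a2]; omega⟩ hc
    refine ⟨w + -co e w1, supp_add hw (supp_neg (supp_co e hw1 fun t ht _ _ => ht.2)), ?_⟩
    have a1 := bd_co e w1
    have a2 := io_co e z
    rw [e1] at a1
    rw [bd_add, bd_neg, e2]
    linear_combination a2 - a1

theorem acyc' {F : Finset ι → Prop} (hF : Mat F) {i : ℕ} (h : ∃ t, F t ∧ i < t.card)
    {z : Finset ι → K} (hz : Supp F i z) (hb : bd z = 0) :
    ∃ w : Finset ι → K, Supp F (i + 1) w ∧ bd w = z :=
  acyc univ F hF (fun _ _ => subset_univ _) i h z hz hb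

theorem cone_zero {F : Finset ι → Prop} {i : ℕ} (j : ι) (h : ∀ t, F t → t.card = i → j ∈ t)
    {z : Finset ι → K} (hz : Supp F i z) (hb : bd z = 0) : z = 0 := by
  have h1 : co j z = 0 := by
    ext t
    by_contra ht
    exact ((supp_co (F := fun _ => False) j hz fun t a b c => c (h t a b)) t ht).1
  have := bd_co j z
  rw [h1, hb, bd_zero, co_zero] at this
  simpa using this.symm

theorem top_cycle [Nontrivial K] (r : ℕ) : ∀ F : Finset ι → Prop, Mat F →
    (∃ t, F t ∧ t.card = r) → (∀ j, ∃ t, F t ∧ t.card = r ∧ j ∉ t) →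
    ∃ z : Finset ι → K, Supp F r z ∧ bd z = 0 ∧ z ≠ 0 := by
  induction r with
  | zero =>
    rintro F - ⟨t, ht, h0⟩ -
    obtain rfl := card_eq_zero.1 h0
    refine ⟨fun t => if t = ∅ then 1 else 0, fun t h => ?_, ?_, fun h => ?_⟩
    · have : t = ∅ := by by_contra h'; simp [h'] at h
      subst this
      exact ⟨ht, rfl⟩
    · ext s; simp [bd, io]
    · simpa using congrFun h ∅
  | succ r ih =>
    rintro F hF ⟨t0, ht0, h0⟩ hc
    obtain ⟨e, he⟩ : t0.Nonempty := card_pos.1 (by omega)
    have key : ∀ j, ∃ t, (e ∉ t ∧ F (insert e t)) ∧ t.card = r ∧ j ∉ t := by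
      intro j
      obtain ⟨t, a1, a2, a3⟩ := hc j
      obtain ⟨u, b1, b2, b3, b4⟩ := hF.ext a1 r {e} (hF.down _ _ (by simpa) ht0) (by simp; omega)
      have hu : e ∈ u := b2 (mem_singleton_self _)
      refine ⟨u.erase e, ⟨notMem_erase _ _, by rwa [insert_erase hu]⟩, by
        rw [card_erase_of_mem hu]; omega, fun h => ?_⟩
      have := b3 (mem_of_mem_erase h)
      simp only [mem_union, mem_singleton] at this
      exact this.elim (ne_of_mem_erase h) a3
    obtain ⟨z1, s1, b1, n1⟩ := ih _ (hF.link e) ((key e).imp fun t h => ⟨h.1, h.2.1⟩) key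
    obtain ⟨w, s2, b2⟩ := acyc' (hF.del e) (i := r) (z := z1)
      ((hc e).imp fun t h => ⟨⟨h.2.2, h.1⟩, by omega⟩)
      (s1.mono fun t ht => ⟨ht.1, hF.down _ _ (subset_insert _ _) ht.2⟩) b1
    refine ⟨co e z1 + -w, supp_add (supp_co e s1 fun t ht _ _ => ht.2)
      (supp_neg (s2.mono fun t ht => ht.2)), ?_, fun h => n1 ?_⟩
    · have := bd_co e z1
      rw [b1, co_zero] at this
      rw [bd_add, bd_neg, b2]
      linear_combination this
    · have z : ∀ {G : Finset ι → Prop} {m : ℕ} {f : Finset ι → K},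
          Supp (fun t => e ∉ t ∧ G t) m f → io e f = 0 := by
        intro G m f hf
        ext t
        unfold io
        split_ifs with h1
        · rfl
        · have : f (insert e t) = 0 := by
            by_contra h2
            exact (hf _ h2).1.1 (mem_insert_self _ _)
          simp [this]
      have a1 := congrArg (io e) h
      have a2 := io_co e z1
      rw [io_add, io_neg, z s2, io_zero] at a1
      rw [z s1, co_zero] at a2
      linear_combination a1 - a2

end Pool.Agent.H56.MatHom
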