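import Pool.Agent.H56.HSDef
import Pool.Agent.H56.MConv2
import Pool.Agent.H56.MatHom

set_option autoImplicit false

namespace Pool.Agent.H56.HS

open MvPolynomial Finset Pool.Agent.H56.MConv Pool.Agent.H56.MatHom

variable {n : ℕ} {K : Type*} [Field K]

def toZ (a : Fin n →₀ ℕ) : Fin n → ℤ := fun j => a j

noncomputable def ofZ (b : Fin n → ℤ) : Fin n →₀ ℕ :=
  Finsupp.equivFunOnFinite.symm fun j => (b j).toNat

theorem toZ_ofZ {b : Fin n → ℤ} (h : ∀ j, 0 ≤ b j) : toZ (ofZ b) = b := by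
  ext j; simp [toZ, ofZ, h j]

theorem toZ_add (a b : Fin n →₀ ℕ) : toZ (a + b) = toZ a + toZ b := by
  ext j; simp [toZ]

noncomputable def mI (K : Type*) [Field K] (B : Set (Fin n → ℤ)) : Ideal (MvPolynomial (Fin n) K) :=
  Ideal.span ((fun a => monomial a (1 : K)) '' {a | toZ a ∈ B})

theorem mem_mI {B : Set (Fin n → ℤ)} (h0 : ∀ b ∈ B, ∀ j, 0 ≤ b j) (f : MvPolynomial (Fin n) K) :
    f ∈ mI K B ↔ ∀ m ∈ f.support, ∃ b ∈ B, ∀ j, b j ≤ m j := by
  rw [mI, mem_ideal_span_monomial_image]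
  refine forall₂_congr fun m _ => ⟨?_, ?_⟩
  · rintro ⟨s, h1, h2⟩
    exact ⟨_, h1, fun j => by simpa [toZ] using h2 j⟩
  · rintro ⟨b, h1, h2⟩
    refine ⟨ofZ b, by simpa [toZ_ofZ (h0 b h1)] using h1, fun j => ?_⟩
    have := h2 j
    simp only [ofZ, Finsupp.equivFunOnFinite_symm_apply_apply]
    omega

theorem mI_mul {A B : Set (Fin n → ℤ)} (hA : ∀ b ∈ A, ∀ j, 0 ≤ b j) (hB : ∀ b ∈ B, ∀ j, 0 ≤ b j) :
    mI K A * mI K B = mI K {c | ∃ a ∈ A, ∃ b ∈ B, c = a + b} := by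
  unfold mI
  rw [Ideal.span_mul_span]
  congr 1
  ext f
  constructor
  · rintro ⟨_, ⟨a, ha, rfl⟩, _, ⟨b, hb, rfl⟩, rfl⟩
    exact ⟨a + b, ⟨_, ha, _, hb, toZ_add a b⟩, by simp [monomial_mul]⟩
  · rintro ⟨c, ⟨a, ha, b, hb, e⟩, rfl⟩
    refine ⟨_, ⟨ofZ a, by simpa [toZ_ofZ (hA a ha)] using ha, rfl⟩, _,
      ⟨ofZ b, by simpa [toZ_ofZ (hB b hb)] using hb, rfl⟩, ?_⟩
    simp only [monomial_mul, one_mul]
    congr 2
    ext j
    have := congrFun e j
    have := hA a ha j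
    have := hB b hb j
    simp only [toZ, ofZ, Pi.add_apply, Finsupp.add_apply,
      Finsupp.equivFunOnFinite_symm_apply_apply] at *
    omega

theorem sumS_nn {B : Set (Fin n → ℤ)} (h0 : ∀ b ∈ B, ∀ j, 0 ≤ b j) (k : ℕ) :
    ∀ b ∈ SumS B k, ∀ j, 0 ≤ b j := by
  rintro _ ⟨b, hb, rfl⟩ j
  rw [Finset.sum_apply]
  exact sum_nonneg fun s _ => h0 _ (hb s) j

theorem mI_pow {B : Set (Fin n → ℤ)} (h0 : ∀ b ∈ B, ∀ j, 0 ≤ b j) (k : ℕ) :
    mI K B ^ k = mI K (SumS B k) := by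
  induction k with
  | zero =>
    rw [pow_zero, Ideal.one_eq_top, eq_comm, eq_top_iff]
    intro f _
    rw [mem_mI (sumS_nn h0 0)]
    exact fun m _ => ⟨0, ⟨fun s => s.elim0, fun s => s.elim0, by simp⟩, fun j => by simp⟩
  | succ k ih =>
    rw [pow_succ', ih, mI_mul h0 (sumS_nn h0 k)]
    congr 1
    ext c
    constructor
    · rintro ⟨a, ha, _, ⟨f, hf, rfl⟩, rfl⟩
      refine ⟨Fin.cons a f, fun s => ?_, by simp [Fin.sum_univ_succ]⟩
      induction s using Fin.cases <;> simp [*]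
    · rintro ⟨f, hf, rfl⟩
      exact ⟨f 0, hf 0, _, ⟨fun s => f s.succ, fun s => hf _, rfl⟩, Fin.sum_univ_succ f⟩

noncomputable def eT (t : Finset (Fin n)) : Fin n →₀ ℕ := ∑ j ∈ t, Finsupp.single j 1

theorem eT_apply (t : Finset (Fin n)) (j : Fin n) : (eT t j : ℤ) = ind t j := by
  simp [eT, ind, Finsupp.finsetSum_apply, Finsupp.single_apply]

noncomputable def psi (a : Fin n →₀ ℕ) (c : Finset (Fin n) → K) :
    Finset (Fin n) → MvPolynomial (Fin n) K := fun t => monomial (a - eT t) (c t)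

theorem psi_inj (a : Fin n →₀ ℕ) {c c' : Finset (Fin n) → K} (h : psi a c = psi a c') : c = c' := by
  ext t
  simpa [psi] using congrArg (coeff (a - eT t)) (congrFun h t)

theorem psi_zero (a : Fin n →₀ ℕ) : psi a (0 : Finset (Fin n) → K) = 0 := by
  ext1 t; simp [psi]

theorem face_le {B : Set (Fin n → ℤ)} (h0 : ∀ b ∈ B, ∀ j, 0 ≤ b j) {a : Fin n →₀ ℕ}
    {t : Finset (Fin n)} (h : Face B (toZ a) t) (j : Fin n) : eT t j ≤ a j := by
  obtain ⟨b, hb, h⟩ := h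
  have := h j
  have := h0 b hb j
  have := eT_apply t j
  simp only [toZ] at *
  omega

theorem kd_psi {B : Set (Fin n → ℤ)} (h0 : ∀ b ∈ B, ∀ j, 0 ≤ b j) {a : Fin n →₀ ℕ} {i : ℕ}
    {c : Finset (Fin n) → K} (hc : Supp (Face B (toZ a)) i c) : kd (psi a c) = psi a (bd c) := by
  ext1 s
  simp only [kd, psi, bd, Finset.sum_apply, map_sum]
  rw [← sum_add_sum_compl s, sum_eq_zero (s := s) (fun j hj => by simp [io, hj]), zero_add]
  refine sum_congr rfl fun j hj => ?_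
  have hj' := mem_compl.1 hj
  simp only [io, hj', if_false, sg]
  by_cases h : c (insert j s) = 0
  · simp [h]
  have e : Finsupp.single j 1 + (a - eT (insert j s)) = a - eT s := by
    ext l
    have h1 := face_le h0 (hc _ h).1 l
    have h2 : eT (insert j s) l = Finsupp.single j 1 l + eT s l := by
      simp [eT, sum_insert hj']
    simp only [Finsupp.add_apply, Finsupp.tsub_apply]
    omega
  rw [mul_assoc, X, monomial_mul, one_mul, e, ← C_mul_monomial]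
  simp

theorem chain_iff {B : Set (Fin n → ℤ)} (h0 : ∀ b ∈ B, ∀ j, 0 ≤ b j) (a : Fin n →₀ ℕ) (i : ℕ)
    (z : Finset (Fin n) → MvPolynomial (Fin n) K) :
    IsChain (mI K B) i a z ↔ ∃ c, Supp (Face B (toZ a)) i c ∧ z = psi a c := by
  constructor
  · intro h
    refine ⟨fun t => coeff (a - eT t) (z t), fun t ht => ?_, ?_⟩
    · obtain ⟨h1, h2, h3⟩ := h t
      have hm := mem_support_iff.2 ht
      obtain ⟨b, hb, h4⟩ := (mem_mI h0 _).1 h1 _ hm
      refine ⟨⟨b, hb, fun j => ?_⟩, ?_⟩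
      · have e := DFunLike.congr_fun (h3 _ hm) j
        have := h4 j
        have := eT_apply t j
        change (a - eT t + eT t) j = a j at e
        simp only [Finsupp.add_apply, toZ] at *
        omega
      · by_contra h5
        simp [h2 h5] at ht
    · ext t m
      simp only [psi, coeff_monomial]
      split_ifs with e
      · rw [e]
      · by_contra h5
        refine e ?_
        rw [← (h t).2.2 m (mem_support_iff.2 h5)]
        exact add_tsub_cancel_right _ _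
  · rintro ⟨c, hc, rfl⟩ t
    by_cases h : c t = 0
    · simp [psi, h]
    obtain ⟨h1, h2⟩ := hc t h
    have sup : ∀ m ∈ (psi a c t).support, m = a - eT t := fun m hm => by
      simpa using support_monomial_subset hm
    refine ⟨(mem_mI h0 _).2 fun m hm => ?_, fun h3 => absurd h2 h3, fun m hm => ?_⟩
    · obtain rfl := sup m hm
      have h4 := face_le h0 h1
      obtain ⟨b, hb, h3⟩ := h1
      refine ⟨b, hb, fun j => ?_⟩
      have := h3 j
      have := h4 j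
      have := eT_apply t j
      simp only [Finsupp.tsub_apply, toZ] at *
      omega
    · obtain rfl := sup m hm
      exact tsub_add_cancel_of_le (face_le h0 h1)

theorem tor_iff {B : Set (Fin n → ℤ)} {d : ℤ} (h : MC B d) (h0 : ∀ b ∈ B, ∀ j, 0 ≤ b j)
    (a : Fin n →₀ ℕ) (i : ℕ) :
    TorNe (mI K B) i a ↔ Good B (toZ a) ∧ ∑ j, toZ a j = d + i := by
  have hM : Mat (Face B (toZ a)) :=
    ⟨fun s t => face_down, fun s t hs ht hc => h.aug ht hc hs⟩
  constructor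
  · rintro ⟨z, h1, h2, h3⟩
    obtain ⟨c, hc, rfl⟩ := (chain_iff h0 a i z).1 h1
    have hb : bd c = 0 := psi_inj a (by rw [← kd_psi h0 hc, h2, psi_zero])
    have nb : ∀ w, Supp (Face B (toZ a)) (i + 1) w → bd w ≠ c := fun w hw e =>
      h3 ⟨psi a w, (chain_iff h0 a _ _).2 ⟨w, hw, rfl⟩, by rw [kd_psi h0 hw, e]⟩
    have c0 : c ≠ 0 := fun e => nb 0 (fun t ht => absurd rfl ht) (by rw [e, bd_zero])
    obtain ⟨t, ht⟩ := Function.ne_iff.1 c0
    refine h.face_good ⟨t, hc t ht⟩ (fun t ht => ?_) fun p => ?_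
    · by_contra h4
      obtain ⟨w, a1, a2⟩ := acyc' hM ⟨t, ht, by omega⟩ hc hb
      exact nb w a1 a2
    · by_contra h4
      push Not at h4
      exact c0 (cone_zero p h4 hc hb)
  · rintro ⟨h1, h2⟩
    obtain ⟨h3, h4⟩ := h.good_face h1 h2
    obtain ⟨c, a1, a2, a3⟩ := top_cycle (K := K) i _ hM h3 h4
    refine ⟨psi a c, (chain_iff h0 a _ _).2 ⟨c, a1, rfl⟩, by rw [kd_psi h0 a1, a2, psi_zero], ?_⟩
    rintro ⟨w, b1, b2⟩
    obtain ⟨w, hw, rfl⟩ := (chain_iff h0 a _ w).1 b1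
    have : w = 0 := by
      ext t
      by_contra h5
      obtain ⟨c1, c2⟩ := hw t h5
      have := h.face_card c1
      omega
    rw [kd_psi h0 hw, this, bd_zero] at b2
    exact a3 (psi_inj a b2).symm

theorem hs_mI {B : Set (Fin n → ℤ)} {d : ℤ} (h : MC B d) (h0 : ∀ b ∈ B, ∀ j, 0 ≤ b j) (i : ℕ) :
    hs i (mI K B) = mI K {a | Good B a ∧ ∑ j, a j = d + i} := by
  unfold hs
  simp only [tor_iff h h0]
  rfl

theorem good_nn {B : Set (Fin n → ℤ)} (h0 : ∀ b ∈ B, ∀ j, 0 ≤ b j) (e : ℤ) :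
    ∀ a ∈ {a | Good B a ∧ ∑ j, a j = e}, ∀ j, 0 ≤ a j := by
  rintro a ⟨⟨⟨b, hb, h⟩, -⟩, -⟩ j
  exact (h0 b hb j).trans (h j)

theorem poly_mI {I : Ideal (MvPolynomial (Fin n) K)} (hI : IsPolymatroidal I) :
    ∃ (B : Set (Fin n → ℤ)) (d : ℤ), MC B d ∧ (∀ b ∈ B, ∀ j, 0 ≤ b j) ∧ I = mI K B := by
  obtain ⟨G, d, rfl, h1, h2⟩ := hI
  refine ⟨toZ '' G, d, ⟨?_, ?_⟩, ?_, ?_⟩
  · rintro _ ⟨u, hu, rfl⟩
    rw [← h1 u hu]; simp [toZ]
  · rintro _ ⟨u, hu, rfl⟩ _ ⟨v, hv, rfl⟩ p hp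
    have hp' : v p < u p := by simpa [toZ] using hp
    obtain ⟨q, a1, a2⟩ := h2 u hu v hv p hp'
    refine ⟨q, by simpa [toZ] using a1, _, a2, ?_⟩
    ext j
    simp only [toZ, ex, Finsupp.add_apply, Finsupp.tsub_apply, Finsupp.single_apply, eq_comm (a := j)]
    split_ifs with e1 e2 e2
    · subst e1; omega
    · subst e1; omega
    · omega
    · omega
  · rintro _ ⟨u, hu, rfl⟩ j
    simp [toZ]
  · unfold mI
    congr 2
    ext a
    refine ⟨fun ha => ⟨a, ha, rfl⟩, ?_⟩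
    rintro ⟨u, hu, e⟩
    have : u = a := by
      ext j
      simpa [toZ] using congrFun e j
    exact this ▸ hu

theorem gen_set {B : Set (Fin n → ℤ)} {d : ℤ} (h : MC B d) {i k : ℕ} (hk : i ≤ k) :
    {a | Good (SumS B (k + 1)) a ∧ ∑ j, a j = (k + 1 : ℕ) * d + i} =
      {c | ∃ b ∈ B, ∃ a ∈ {a | Good (SumS B k) a ∧ ∑ j, a j = k * d + i}, c = b + a} := by
  ext c
  constructor
  · rintro ⟨h1, h2⟩
    obtain ⟨b, hb, h3⟩ := h.split hk h1 h2
    refine ⟨b, hb, c - b, ⟨h3, ?_⟩, by simp⟩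
    simp only [Pi.sub_apply, sum_sub_distrib, h2, h.deg b hb]
    push_cast; ring
  · rintro ⟨b, hb, a, ⟨h1, h2⟩, rfl⟩
    refine ⟨good_add hb h1, ?_⟩
    simp only [Pi.add_apply, sum_add_distrib, h2, h.deg b hb]
    push_cast; ring

theorem gen {I : Ideal (MvPolynomial (Fin n) K)} (hI : IsPolymatroidal I) {i k : ℕ} (hk : i ≤ k) :
    hs i (I ^ (k + 1)) = I * hs i (I ^ k) := by
  obtain ⟨B, d, h, h0, rfl⟩ := poly_mI hI
  rw [mI_pow h0, mI_pow h0, hs_mI (h.sumS _) (sumS_nn h0 _), hs_mI (h.sumS _) (sumS_nn h0 _),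
    mI_mul h0 (good_nn (sumS_nn h0 _) _), gen_set h hk]

theorem ass {I : Ideal (MvPolynomial (Fin n) K)} (hI : IsPolymatroidal I) {i k : ℕ} (hi : 0 < i)
    (hk : i ≤ k) : associatedPrimes (MvPolynomial (Fin n) K) (MvPolynomial (Fin n) K ⧸ hs i (I ^ k)) ⊆
      associatedPrimes (MvPolynomial (Fin n) K) (MvPolynomial (Fin n) K ⧸ hs i (I ^ (k + 1))) := by
  rw [gen hI hk]
  obtain ⟨B, d, h, h0, rfl⟩ := poly_mI hI
  rw [mI_pow h0, hs_mI (h.sumS _) (sumS_nn h0 _)]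
  set H := {a | Good (SumS B k) a ∧ ∑ j, a j = k * d + i} with hH
  have hH0 : ∀ a ∈ H, ∀ j, 0 ≤ a j := good_nn (sumS_nn h0 _) _
  have hHM : MC H _ := (h.sumS k).shift (sumS_nn h0 _) i
  rcases B.eq_empty_or_nonempty with rfl | hne
  · have : H = ∅ := by
      ext a
      refine ⟨?_, False.elim⟩
      rintro ⟨⟨⟨_, ⟨b, hb, -⟩, -⟩, -⟩, -⟩
      exact hb ⟨0, by omega⟩
    rw [this]
    have e : mI K (∅ : Set (Fin n → ℤ)) = ⊥ := by simp [mI]
    rw [e, Ideal.mul_bot]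
  have col : ∀ f, (∀ g ∈ mI K B, g * f ∈ mI K B * mI K H) → f ∈ mI K H := by
    intro f hf
    rw [mem_mI hH0]
    intro m hm
    refine h.cancel hne h0 hHM (c := toZ m) fun b hb => ?_
    have := hf (monomial (ofZ b) 1) (Ideal.subset_span ⟨_, by simpa [toZ_ofZ (h0 b hb)] using hb, rfl⟩)
    rw [mI_mul h0 hH0, mem_mI (by
      rintro _ ⟨a, ha, c, hc, rfl⟩ j
      exact add_nonneg (h0 a ha j) (hH0 c hc j))] at this
    obtain ⟨_, ⟨b', a1, a, a2, rfl⟩, a3⟩ := this (ofZ b + m) (by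
      rw [mem_support_iff, coeff_monomial_mul, one_mul]
      exact mem_support_iff.1 hm)
    refine ⟨b', a1, a, a2, fun j => ?_⟩
    have := a3 j
    have := congrFun (toZ_ofZ (h0 b hb)) j
    simp only [toZ, Pi.add_apply, Finsupp.add_apply] at *
    omega
  obtain ⟨s, hs⟩ := (isNoetherianRing_iff_ideal_fg _).1 inferInstance (mI K B)
  intro P hP
  rw [AssociatedPrimes.mem_iff, isAssociatedPrime_iff] at hP ⊢
  obtain ⟨hP, x, e⟩ := hP
  obtain ⟨f, rfl⟩ := Ideal.Quotient.mk_surjective x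
  have mem : ∀ (J : Ideal (MvPolynomial (Fin n) K)) (f r : MvPolynomial (Fin n) K),
      r ∈ Submodule.colon (⊥ : Submodule (MvPolynomial (Fin n) K) (MvPolynomial (Fin n) K ⧸ J))
        {Ideal.Quotient.mk J f} ↔ r * f ∈ J := by
    intro J f r
    rw [Submodule.mem_colon_singleton, Submodule.mem_bot, ← Ideal.Quotient.eq_zero_iff_mem]
    rfl
  have key : s.inf (fun g => Submodule.colon (⊥ : Submodule (MvPolynomial (Fin n) K)
      (MvPolynomial (Fin n) K ⧸ mI K B * mI K H)) {Ideal.Quotient.mk _ (g * f)}) ≤ P := by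
    intro r hr
    rw [e, mem]
    refine col _ fun g hg => ?_
    rw [← hs] at hg
    induction hg using Submodule.span_induction with
    | mem g hg =>
      have := (mem _ _ _).1 (Submodule.mem_finsetInf.1 hr g hg)
      rwa [mul_left_comm] at this
    | zero => simp
    | add a b _ _ ha hb => rw [add_mul]; exact add_mem ha hb
    | smul a b _ hb => rw [smul_eq_mul, mul_assoc]; exact Ideal.mul_mem_left _ _ hb
  obtain ⟨g, hg, h1⟩ := hP.inf_le'.1 key
  refine ⟨hP, _, le_antisymm (fun r hr => ?_) h1⟩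
  rw [e, mem] at hr
  rw [mem, mul_left_comm]
  exact Ideal.mul_mem_mul (hs ▸ Ideal.subset_span hg) hr

end Pool.Agent.H56.HS
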