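import Mathlib

set_option autoImplicit false

namespace Pool.Agent.H56.Haar

open scoped InnerProductSpace
open ContinuousLinearMap

variable {H : Type} [NormedAddCommGroup H] [InnerProductSpace ℂ H] [CompleteSpace H]

theorem star_inter {T V a : H →L[ℂ] H} (hV : V ∈ unitary (H →L[ℂ] H))
    (ha : a ∈ unitary (H →L[ℂ] H)) (h : T * V = a * T) : star T * a = V * star T := by
  have h1 : star V * star T = star T * star a := by rw [← star_mul, ← star_mul, h]
  calc star T * a = (V * star V) * star T * a := by rw [hV.2, one_mul]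
    _ = V * (star T * star a) * a := by rw [mul_assoc V, h1]
    _ = V * star T * (star a * a) := by noncomm_ring
    _ = V * star T := by rw [ha.1, mul_one]

theorem polar {T V a : H →L[ℂ] H} (hV : V ∈ unitary (H →L[ℂ] H))
    (ha : a ∈ unitary (H →L[ℂ] H)) (h : T * V = a * T) (hT : ∀ x, T x = 0 → x = 0) :
    ∃ W : H →L[ℂ] H, star W * W = 1 ∧ W * V = a * W := by
  have h1 := star_inter hV ha h
  have hc : Commute (star T * T) V := by
    show star T * T * V = V * (star T * T)
    rw [mul_assoc, h, ← mul_assoc, h1, mul_assoc]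
  set R := CFC.sqrt (star T * T) with hR
  have hRc : Commute R V := hc.cfcₙ_nnreal _
  have hR2 : R * R = star T * T := CFC.sqrt_mul_sqrt_self _ (star_mul_self_nonneg T)
  have hRs : star R = R := (IsSelfAdjoint.of_nonneg (CFC.sqrt_nonneg _)).star_eq
  have hn : ∀ x, ‖T x‖ = ‖R x‖ := fun x => by
    have e1 : ⟪R x, R x⟫_ℂ = ⟪T x, T x⟫_ℂ := by
      rw [← adjoint_inner_right, ← adjoint_inner_right T, ← star_eq_adjoint, ← star_eq_adjoint,
        hRs]
      exact congrArg _ (congrArg (fun A : H →L[ℂ] H => A x) hR2)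
    rw [inner_self_eq_norm_sq_to_K, inner_self_eq_norm_sq_to_K] at e1
    have : ‖R x‖ ^ 2 = ‖T x‖ ^ 2 := by exact_mod_cast e1
    exact ((pow_left_inj₀ (norm_nonneg _) (norm_nonneg _) two_ne_zero).1 this).symm
  have hd : DenseRange (R : H →ₗ[ℂ] H) := by
    have : (R.range)ᗮ = ⊥ := by
      rw [orthogonal_range, ← star_eq_adjoint, hRs, eq_bot_iff]
      intro x hx
      have hx' : R x = 0 := hx
      exact hT x (by rw [← norm_eq_zero, hn, hx', norm_zero])
    have h2 := Submodule.topologicalClosure_eq_top_iff.2 this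
    rw [DenseRange, dense_iff_closure_eq]
    exact congrArg (fun K : Submodule ℂ H => (K : Set H)) h2
  have hb : ∃ C, ∀ x, ‖(T : H →ₗ[ℂ] H) x‖ ≤ C * ‖(R : H →ₗ[ℂ] H) x‖ :=
    ⟨1, fun x => by simp [hn]⟩
  let W : H →L[ℂ] H := (T : H →ₗ[ℂ] H).extendOfNorm (R : H →ₗ[ℂ] H)
  have hW : ∀ x, W (R x) = T x := fun x => LinearMap.extendOfNorm_eq hd hb x
  refine ⟨W, ?_, ?_⟩
  · refine (norm_map_iff_adjoint_comp_self W).1 fun y => ?_
    refine hd.induction_on (p := fun y => ‖W y‖ = ‖y‖) y
      (isClosed_eq (by fun_prop) (by fun_prop)) fun x => ?_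
    exact (congrArg _ (hW x)).trans (hn x)
  · ext y
    refine hd.induction_on (p := fun y => (W * V) y = (a * W) y) y
      (isClosed_eq (by fun_prop) (by fun_prop)) fun x => ?_
    show W (V (R x)) = a (W (R x))
    have e : V (R x) = R (V x) := (congrArg (fun A : H →L[ℂ] H => A x) hRc.eq).symm
    rw [e, hW, hW]
    exact congrArg (fun A : H →L[ℂ] H => A x) h

theorem cantor_bernstein {V a W₁ W₂ : H →L[ℂ] H} (hV : V ∈ unitary (H →L[ℂ] H))
    (ha : a ∈ unitary (H →L[ℂ] H)) (h1 : star W₁ * W₁ = 1) (h2 : star W₂ * W₂ = 1)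
    (e1 : W₁ * V = a * W₁) (e2 : W₂ * a = V * W₂) :
    ∃ Φ ∈ unitary (H →L[ℂ] H), Φ * V = a * Φ := by
  set W := W₂ * W₁ with hW
  set E := W₂ * star W₂ with hE
  have f2 := star_inter ha hV e2
  have f1 := star_inter hV ha e1
  have cW : Commute (star W) V := by
    show star W * V = V * star W
    rw [hW, star_mul, mul_assoc, f2, ← mul_assoc, f1, mul_assoc]
  have cE : Commute E V := by
    show E * V = V * E
    rw [hE, mul_assoc, f2, ← mul_assoc, e2, mul_assoc]
  have cs : ∀ A : H →L[ℂ] H, Commute A V → Commute A (star V) := fun A hA => by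
    show A * star V = star V * A
    calc A * star V = star V * V * A * star V := by rw [hV.1, one_mul]
      _ = star V * A * (V * star V) := by rw [mul_assoc (star V), ← hA.eq]; noncomm_ring
      _ = star V * A := by rw [hV.2, mul_one]
  let M : Submodule ℂ H := ⨅ n : ℕ, ((1 - E) * star W ^ n).ker
  have hM : ∀ x, x ∈ M ↔ ∀ n : ℕ, ((1 - E) * star W ^ n) x = 0 := fun x => by
    simp only [M, Submodule.mem_iInf]
    rfl
  have hMc : IsClosed (M : Set H) := by
    simp only [M, Submodule.coe_iInf]
    exact isClosed_iInter fun n => isClosed_ker _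
  have : CompleteSpace M := hMc.completeSpace_coe
  have hinv : ∀ A : H →L[ℂ] H, Commute E A → Commute (star W) A → ∀ x ∈ M, A x ∈ M := by
    intro A c1 c2 x hx
    refine (hM _).2 fun n => ?_
    have c3 : Commute ((1 - E) * star W ^ n) A :=
      ((Commute.one_left A).sub_left c1).mul_left (c2.pow_left n)
    show (((1 - E) * star W ^ n) * A) x = 0
    rw [c3.eq]
    show A (((1 - E) * star W ^ n) x) = 0
    rw [(hM x).1 hx n, map_zero]
  set p := M.starProjection with hp
  have ps : star p = p := (isSelfAdjoint_starProjection M).star_eq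
  have pm : ∀ A : H →L[ℂ] H, (∀ x ∈ M, A x ∈ M) → p * A * p = A * p := fun A hA => by
    ext x
    exact Submodule.starProjection_eq_self_iff.2 (hA _ (M.starProjection_apply_mem x))
  have pp : p * p = p := by simpa using pm 1 fun x hx => hx
  have pV : p * V = V * p := by
    have a1 := pm V (hinv V cE cW)
    have a2 := congrArg star (pm (star V) (hinv _ (cs _ cE) (cs _ cW)))
    simp only [star_mul, star_star, ps, ← mul_assoc] at a2
    rw [← a2, a1]
  have pE : E * p = p := by
    ext x
    have := (hM _).1 (M.starProjection_apply_mem x) 0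
    simp only [pow_zero, mul_one, sub_apply, sub_eq_zero] at this
    exact this.symm
  have pW : p * star W * p = star W * p := pm _ fun x hx => (hM _).2 fun n => by
    have := (hM x).1 hx (n + 1)
    rwa [pow_succ, ← mul_assoc] at this
  have pW' : p * W * p = p * W := by
    have := congrArg star pW
    simpa only [star_mul, star_star, ps, ← mul_assoc] using this
  let Φ := W₁ * (1 - p) + star W₂ * p
  have sΦ : star Φ = (1 - p) * star W₁ + p * W₂ := by simp [Φ, ps]
  have hw : star W = star W₁ * star W₂ := by rw [hW, star_mul]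
  have i1 : star Φ * Φ = 1 := by
    rw [sΦ]
    calc _ = (1 - p) * (star W₁ * W₁) * (1 - p) + (star W₁ * star W₂ * p - p * (star W₁ * star W₂) * p)
          + (p * (W₂ * W₁) - p * (W₂ * W₁) * p) + p * (W₂ * star W₂ * p) := by
          simp only [Φ]; noncomm_ring
      _ = 1 := by
          rw [h1, ← hw, pW, pW', pE, pp]
          calc _ = 1 - p + (p * p - p) + p := by noncomm_ring
            _ = 1 := by rw [pp]; abel
  have i2 : ∀ z, (star Φ) z = 0 → z = 0 := fun z hz => by
    have a1 : p (W₂ z) = 0 := by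
      have : p * star Φ = p * W₂ := by
        rw [sΦ]
        calc _ = (p - p * p) * star W₁ + p * p * W₂ := by noncomm_ring
          _ = _ := by rw [pp]; simp
      have e : p (star Φ z) = p (W₂ z) := congrArg (fun A : H →L[ℂ] H => A z) this
      rw [← e, hz, map_zero]
    have a2 : p (star W₁ z) = star W₁ z := by
      rw [sΦ] at hz
      have e : star W₁ z - p (star W₁ z) + p (W₂ z) = 0 := hz
      rw [a1, add_zero, sub_eq_zero] at e
      exact e.symm
    have a3 : star W (W₂ z) = star W₁ z := by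
      rw [hw]
      show star W₁ ((star W₂ * W₂) z) = _
      rw [h2]; rfl
    have a4 : W₂ z ∈ M := (hM _).2 fun n => by
      rcases n with _ | n
      · have : (1 - E) * star W ^ 0 * W₂ = 0 := by
          rw [pow_zero, mul_one, sub_mul, hE, mul_assoc, h2]; simp
        exact congrArg (fun A : H →L[ℂ] H => A z) this
      · have := (hM _).1 (Submodule.starProjection_eq_self_iff.1 a2) n
        rw [← a3] at this
        rw [pow_succ, ← mul_assoc]
        exact this
    have a5 : W₂ z = 0 := by rw [← a1]; exact (Submodule.starProjection_eq_self_iff.2 a4).symm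
    have : (star W₂ * W₂) z = 0 := by
      show star W₂ (W₂ z) = 0
      rw [a5, map_zero]
    rwa [h2] at this
  refine ⟨Φ, ⟨i1, ?_⟩, ?_⟩
  · ext z
    have := i2 ((Φ * star Φ - 1) z) (by
      show (star Φ * (Φ * star Φ - 1)) z = 0
      rw [mul_sub, ← mul_assoc, i1]; simp)
    simpa [sub_eq_zero] using this
  · calc Φ * V = W₁ * V - W₁ * (p * V) + star W₂ * (p * V) := by simp only [Φ]; noncomm_ring
      _ = W₁ * V * (1 - p) + star W₂ * V * p := by rw [pV]; noncomm_ring
      _ = a * Φ := by rw [e1, f2]; simp only [Φ]; noncomm_ring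

/-- mutually injectively intertwined unitaries are conjugate -/
theorem conj_of_inj {V a T₁ T₂ : H →L[ℂ] H} (hV : V ∈ unitary (H →L[ℂ] H))
    (ha : a ∈ unitary (H →L[ℂ] H)) (e1 : T₁ * V = a * T₁) (e2 : T₂ * a = V * T₂)
    (h1 : ∀ x, T₁ x = 0 → x = 0) (h2 : ∀ x, T₂ x = 0 → x = 0) :
    ∃ Φ ∈ unitary (H →L[ℂ] H), Φ * V = a * Φ := by
  obtain ⟨W₁, a1, a2⟩ := polar hV ha e1 h1
  obtain ⟨W₂, b1, b2⟩ := polar ha hV e2 h2
  exact cantor_bernstein hV ha a1 b1 a2 b2

end Pool.Agent.H56.Haar
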