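import Pool.Agent.H56.Haar1

set_option autoImplicit false
set_option linter.unusedSectionVars false

namespace Pool.Agent.H56.Haar

open scoped InnerProductSpace
open ContinuousLinearMap Finset

variable {H : Type} [NormedAddCommGroup H] [InnerProductSpace ℂ H] [CompleteSpace H]
variable {ι : Type} (b : HilbertBasis ι ℂ H)

def Sup (S : Set ι) (x : H) : Prop := ∀ i, i ∉ S → ⟪b i, x⟫_ℂ = 0

noncomputable def sub (S : Set ι) : Submodule ℂ H := ⨅ i : {i // i ∉ S}, (innerSL ℂ (b i)).ker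

omit [CompleteSpace H] in
theorem mem_sub {S : Set ι} {x : H} : x ∈ sub b S ↔ Sup b S x := by
  simp [sub, Sup, Submodule.mem_iInf]

instance (S : Set ι) : CompleteSpace (sub b S) := by
  have : IsClosed (sub b S : Set H) := by
    simp only [sub, Submodule.coe_iInf]
    exact isClosed_iInter fun n => isClosed_ker _
  exact this.completeSpace_coe

noncomputable def pr (S : Set ι) : H →L[ℂ] H := (sub b S).starProjection

theorem pr_sup (S : Set ι) (x : H) : Sup b S (pr b S x) :=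
  (mem_sub b).1 (Submodule.starProjection_apply_mem _ x)

theorem pr_eq_self {S : Set ι} {x : H} (h : Sup b S x) : pr b S x = x :=
  Submodule.starProjection_eq_self_iff.2 ((mem_sub b).2 h)

theorem pr_inner (S : Set ι) (x y : H) : ⟪pr b S x, y⟫_ℂ = ⟪x, pr b S y⟫_ℂ :=
  Submodule.inner_starProjection_left_eq_right _ x y

theorem pr_norm (S : Set ι) (x : H) : ‖pr b S x‖ ≤ ‖x‖ :=
  Submodule.norm_starProjection_apply_le _ x

omit [CompleteSpace H] in
theorem sup_basis {S : Set ι} {i : ι} (h : i ∈ S) : Sup b S (b i) := fun _ hj =>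
  b.orthonormal.2 (fun e => hj (e ▸ h))

open Classical in
theorem pr_coord (S : Set ι) (x : H) (i : ι) :
    ⟪b i, pr b S x⟫_ℂ = if i ∈ S then ⟪b i, x⟫_ℂ else 0 := by
  split_ifs with h
  · rw [← pr_inner, pr_eq_self b (sup_basis b h)]
  · exact pr_sup b S x i h

omit [CompleteSpace H] in
theorem b_ext {x y : H} (h : ∀ i, ⟪b i, x⟫_ℂ = ⟪b i, y⟫_ℂ) : x = y := by
  refine b.repr.injective (lp.ext (funext fun i => ?_))
  rw [b.repr_apply_apply, b.repr_apply_apply, h]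

theorem hasSum_fiber {κ : Type} (l : ι → κ) (x : H) :
    HasSum (fun m => pr b {i | l i = m} x) x := by
  have h1 := (Equiv.sigmaFiberEquiv l).hasSum_iff.2 (b.hasSum_repr x)
  refine h1.sigma fun m => ?_
  have h2 := b.hasSum_repr (pr b {i | l i = m} x)
  rw [← hasSum_subtype_iff_of_support_subset (s := {i | l i = m})] at h2
  · refine HasSum.congr_fun (β := {i // l i = m}) h2 fun i => ?_
    simp [b.repr_apply_apply, pr_coord, Equiv.sigmaFiberEquiv, i.2]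
  · intro i hi
    by_contra hc
    exact hi (by simp [b.repr_apply_apply, pr_sup b _ x i hc])

omit [CompleteSpace H] in
theorem dense_lc : DenseRange (Finsupp.linearCombination ℂ b) := by
  rw [DenseRange, dense_iff_closure_eq, ← LinearMap.coe_range, Finsupp.range_linearCombination]
  exact congrArg (fun K : Submodule ℂ H => (K : Set H)) b.dense_span

omit [CompleteSpace H] in
theorem op_ext {A B : H →L[ℂ] H} (h : ∀ i, A (b i) = B (b i)) : A = B := by
  ext y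
  refine (dense_lc b).induction_on (p := fun y => A y = B y) y
    (isClosed_eq (by fun_prop) (by fun_prop)) fun a => ?_
  simp [Finsupp.linearCombination_apply, Finsupp.sum, h]

omit [CompleteSpace H] in
theorem normsq_sum {κ : Type} {v : κ → H} (hv : Orthonormal ℂ v) (s : Finset κ) (a : κ → ℂ) :
    ‖∑ i ∈ s, a i • v i‖ ^ 2 = ∑ i ∈ s, ‖a i‖ ^ 2 := by
  have := hv.inner_sum a a s
  rw [inner_self_eq_norm_sq_to_K] at this
  simp only [Complex.conj_mul'] at this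
  apply Complex.ofReal_injective
  push_cast
  exact this

theorem exists_unitary (b' : HilbertBasis ι ℂ H) :
    ∃ g : unitary (H →L[ℂ] H), ∀ i, (g : H →L[ℂ] H) (b i) = b' i := by
  classical
  refine ⟨Unitary.linearIsometryEquiv.symm (b.repr.trans b'.repr.symm), fun i => ?_⟩
  simp [b.repr_self, b'.repr_symm_single]

theorem exists_reindex {κ : Type} (e : κ ≃ ι) : ∃ b' : HilbertBasis κ ℂ H, ∀ k, b' k = b (e k) := by
  refine ⟨HilbertBasis.mk (v := b ∘ e) (b.orthonormal.comp e e.injective) ?_, fun k => by simp⟩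
  rw [e.surjective.range_comp, b.dense_span]

omit [CompleteSpace H] in
theorem lc_prod (f : ℤ × ℕ → H) (a : ℤ × ℕ →₀ ℂ) : Finsupp.linearCombination ℂ f a =
    ∑ p ∈ (a.support.image Prod.fst) ×ˢ (a.support.image Prod.snd), a p • f p := by
  rw [Finsupp.linearCombination_apply, Finsupp.sum]
  refine sum_subset subset_product fun p _ hp => ?_
  simp [Finsupp.notMem_support_iff.1 hp]

theorem riesz (c : HilbertBasis (ℤ × ℕ) ℂ H) (f : ℤ × ℕ → H) (C : ℝ)
    (h : ∀ (s : Finset ℤ) (t : Finset ℕ) (a : ℤ × ℕ → ℂ),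
      ‖∑ p ∈ s ×ˢ t, a p • f p‖ ≤ C * √(∑ p ∈ s ×ˢ t, ‖a p‖ ^ 2)) :
    ∃ T : H →L[ℂ] H, ∀ p, T (c p) = f p := by
  have hb : ∃ C, ∀ a, ‖Finsupp.linearCombination ℂ f a‖ ≤ C * ‖Finsupp.linearCombination ℂ c a‖ :=
    ⟨C, fun a => by
      rw [lc_prod, lc_prod]
      refine (h _ _ a).trans (le_of_eq ?_)
      rw [← normsq_sum c.orthonormal, Real.sqrt_sq (norm_nonneg _)]⟩
  refine ⟨(Finsupp.linearCombination ℂ f).extendOfNorm (Finsupp.linearCombination ℂ c),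
    fun p => ?_⟩
  simpa using LinearMap.extendOfNorm_eq (dense_lc c) hb (Finsupp.single p 1)

omit [CompleteSpace H] in
theorem riesz_inj (c : HilbertBasis (ℤ × ℕ) ℂ H) (T : H →L[ℂ] H) (C : ℝ)
    (h : ∀ (s : Finset ℤ) (t : Finset ℕ) (a : ℤ × ℕ → ℂ),
      ∑ p ∈ s ×ˢ t, ‖a p‖ ^ 2 ≤ C * ‖∑ p ∈ s ×ˢ t, a p • T (c p)‖ ^ 2) (x : H) (hx : T x = 0) :
    x = 0 := by
  have : ‖x‖ ^ 2 ≤ C * ‖T x‖ ^ 2 := by
    refine (dense_lc c).induction_on (p := fun y => ‖y‖ ^ 2 ≤ C * ‖T y‖ ^ 2) x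
      (isClosed_le (by fun_prop) (by fun_prop)) fun a => ?_
    rw [lc_prod, normsq_sum c.orthonormal]
    simpa using h _ _ a
  simpa [hx] using this

theorem hasSum_quarter : HasSum (fun j : ℤ => (1 / 4 : ℝ) ^ j.natAbs) (5 / 3) := by
  have h1 := hasSum_geometric_of_lt_one (r := (1 / 4 : ℝ)) (by norm_num) (by norm_num)
  have := HasSum.of_nat_of_neg_add_one (f := fun j : ℤ => (1 / 4 : ℝ) ^ j.natAbs)
    (by simpa using h1) ((h1.mul_left (1 / 4)).congr_fun fun n => by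
      rw [show (-((n : ℤ) + 1)).natAbs = n + 1 by omega, pow_succ'])
  convert this using 1
  norm_num

theorem hasSum_mixed : HasSum (fun j : ℤ => (1 / 4 : ℝ) ^ j.natAbs * 2 ^ (-j)) (15 / 7) := by
  have h1 := hasSum_geometric_of_lt_one (r := (1 / 8 : ℝ)) (by norm_num) (by norm_num)
  have h2 := hasSum_geometric_of_lt_one (r := (1 / 2 : ℝ)) (by norm_num) (by norm_num)
  have := HasSum.of_nat_of_neg_add_one (f := fun j : ℤ => (1 / 4 : ℝ) ^ j.natAbs * 2 ^ (-j))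
    (h1.congr_fun fun n => by
      rw [Int.natAbs_natCast, zpow_neg, zpow_natCast, ← inv_pow, ← mul_pow]
      norm_num) ((h2.mul_left (1 / 2)).congr_fun fun n => by
      rw [show (-((n : ℤ) + 1)).natAbs = n + 1 by omega, neg_neg, ← pow_succ',
        show ((n : ℤ) + 1) = ((n + 1 : ℕ) : ℤ) by push_cast; rfl, zpow_natCast, ← mul_pow]
      norm_num)
  convert this using 1
  norm_num

omit [CompleteSpace H] in
theorem gram (x : ℤ → H) (s : Finset ℤ)
    (h : ∀ n m, ‖⟪x n, x m⟫_ℂ‖ ≤ (1 / 4 : ℝ) ^ (m - n).natAbs * (‖x n‖ * ‖x m‖)) :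
    ‖∑ n ∈ s, x n‖ ^ 2 ≤ 5 / 3 * ∑ n ∈ s, ‖x n‖ ^ 2 ∧
      ∑ n ∈ s, ‖x n‖ ^ 2 ≤ 3 * ‖∑ n ∈ s, x n‖ ^ 2 := by
  have e : ‖∑ n ∈ s, x n‖ ^ 2 = ∑ n ∈ s, ∑ m ∈ s, (⟪x n, x m⟫_ℂ).re := by
    rw [← inner_self_eq_norm_sq (𝕜 := ℂ), sum_inner]
    simp only [inner_sum, RCLike.re_to_complex, Complex.re_sum]
  have row : ∀ n, ∑ m ∈ s, (1 / 4 : ℝ) ^ (m - n).natAbs ≤ 5 / 3 := fun n =>
    sum_le_hasSum s (fun _ _ => by positivity) ((Equiv.subRight n).hasSum_iff.2 hasSum_quarter)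
  have k1 : ∑ n ∈ s, ∑ m ∈ s, (1 / 4 : ℝ) ^ (m - n).natAbs * (‖x n‖ * ‖x m‖) ≤
      5 / 3 * ∑ n ∈ s, ‖x n‖ ^ 2 := by
    have a1 : ∑ n ∈ s, ∑ m ∈ s, (1 / 4 : ℝ) ^ (m - n).natAbs * ‖x n‖ ^ 2 ≤
        5 / 3 * ∑ n ∈ s, ‖x n‖ ^ 2 := by
      rw [mul_sum]
      refine sum_le_sum fun n _ => ?_
      rw [← sum_mul]
      exact mul_le_mul_of_nonneg_right (row n) (by positivity)
    have a2 : ∑ n ∈ s, ∑ m ∈ s, (1 / 4 : ℝ) ^ (m - n).natAbs * ‖x m‖ ^ 2 =
        ∑ n ∈ s, ∑ m ∈ s, (1 / 4 : ℝ) ^ (m - n).natAbs * ‖x n‖ ^ 2 := by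
      rw [sum_comm]
      refine sum_congr rfl fun n _ => sum_congr rfl fun m _ => ?_
      rw [show (n - m).natAbs = (m - n).natAbs by omega]
    have a3 : 2 * ∑ n ∈ s, ∑ m ∈ s, (1 / 4 : ℝ) ^ (m - n).natAbs * (‖x n‖ * ‖x m‖) ≤
        ∑ n ∈ s, ∑ m ∈ s, (1 / 4 : ℝ) ^ (m - n).natAbs * ‖x n‖ ^ 2 +
        ∑ n ∈ s, ∑ m ∈ s, (1 / 4 : ℝ) ^ (m - n).natAbs * ‖x m‖ ^ 2 := by
      simp only [mul_sum, ← sum_add_distrib]
      refine sum_le_sum fun n _ => sum_le_sum fun m _ => ?_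
      have : (0 : ℝ) ≤ (1 / 4 : ℝ) ^ (m - n).natAbs := by positivity
      nlinarith [mul_nonneg this (sq_nonneg (‖x n‖ - ‖x m‖))]
    linarith
  constructor
  · rw [e]
    exact (sum_le_sum fun n _ => sum_le_sum fun m _ =>
      (Complex.re_le_norm _).trans (h n m)).trans k1
  · have k2 : ∑ n ∈ s, ∑ m ∈ s, ((if n = m then 2 * ‖x n‖ ^ 2 else 0) -
        (1 / 4 : ℝ) ^ (m - n).natAbs * (‖x n‖ * ‖x m‖)) ≤ ‖∑ n ∈ s, x n‖ ^ 2 := by
      rw [e]
      refine sum_le_sum fun n _ => sum_le_sum fun m _ => ?_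
      split_ifs with hnm
      · subst hnm
        have := inner_self_eq_norm_sq (𝕜 := ℂ) (x n)
        simp only [RCLike.re_to_complex] at this
        rw [this]
        simp
        nlinarith
      · have := h n m
        have := (abs_le.1 (Complex.abs_re_le_norm ⟪x n, x m⟫_ℂ)).1
        linarith
    simp only [sum_sub_distrib, sum_ite_eq] at k2
    rw [sum_congr rfl (g := fun n => 2 * ‖x n‖ ^ 2) (fun n hn => if_pos hn), ← mul_sum] at k2
    linarith

end Pool.Agent.H56.Haar
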