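import Pool.Agent.H56.Haar2

set_option autoImplicit false
set_option linter.unusedSectionVars false

namespace Pool.Agent.H56.Haar

open scoped InnerProductSpace
open ContinuousLinearMap Finset

variable {H : Type} [NormedAddCommGroup H] [InnerProductSpace ℂ H] [CompleteSpace H]
variable (b : HilbertBasis (ℤ × ℕ) ℂ H)

def Drift (V : H →L[ℂ] H) : Prop := ∀ (m n : ℤ) (x y : H), Sup b {i | i.1 = n} x →
  Sup b {i | i.1 = m} y → ‖⟪y, V x⟫_ℂ‖ ≤ 4 * (1 / 4 : ℝ) ^ (m - 6 - n).natAbs * (‖x‖ * ‖y‖)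

variable {b}

theorem pow_bound {V : H →L[ℂ] H} (hV : Drift b V) (r : ℕ) : ∀ (m n : ℤ) (x y : H),
    Sup b {i | i.1 = n} x → Sup b {i | i.1 = m} y →
    ‖⟪y, (V ^ r) x⟫_ℂ‖ ≤ (1 / 4 : ℝ) ^ r * 2 ^ (m - n) * (‖x‖ * ‖y‖) := by
  induction r with
  | zero =>
    intro m n x y hx hy
    by_cases h : m = n
    · subst h
      simpa [mul_comm] using norm_inner_le_norm (𝕜 := ℂ) y x
    · have : pr b {i | i.1 = m} x = 0 := b_ext b fun i => by
        rw [pr_coord, inner_zero_right]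
        split_ifs with hi
        · exact hx i fun h' => h (hi.symm.trans h')
        · rfl
      have e : ⟪y, x⟫_ℂ = 0 := by rw [← pr_eq_self b hy, pr_inner, this, inner_zero_right]
      have e' : ⟪y, (V ^ 0) x⟫_ℂ = 0 := e
      rw [e', norm_zero]
      positivity
  | succ r ih =>
    intro m n x y hx hy
    set z := (V ^ r) x with hz
    have h1 : HasSum (fun k : ℤ => ⟪y, V (pr b {i | i.1 = k} z)⟫_ℂ) ⟪y, V z⟫_ℂ :=
      (hasSum_fiber b Prod.fst z).mapL ((innerSL ℂ y).comp V)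
    have h2 : ∀ k : ℤ, ‖pr b {i | i.1 = k} z‖ ≤ (1 / 4 : ℝ) ^ r * 2 ^ (k - n) * ‖x‖ := fun k => by
      have a1 := ih k n x _ hx (pr_sup b {i | i.1 = k} z)
      have a2 : ⟪pr b {i | i.1 = k} z, z⟫_ℂ = ⟪pr b {i | i.1 = k} z, pr b {i | i.1 = k} z⟫_ℂ := by
        rw [← pr_inner, pr_eq_self b (pr_sup b _ z)]
      rw [← hz, a2, inner_self_eq_norm_sq_to_K] at a1
      simp only [norm_pow, RCLike.norm_ofReal, abs_norm] at a1
      rcases (norm_nonneg (pr b {i | i.1 = k} z)).eq_or_lt with h | h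
      · rw [← h]; positivity
      · refine le_of_mul_le_mul_right ?_ h
        nlinarith
    have h3 := ((Equiv.subLeft (m - 6)).hasSum_iff.2 hasSum_mixed).mul_left
      (4 * 2 ^ (m - 6 - n) * (1 / 4 : ℝ) ^ r * (‖x‖ * ‖y‖))
    have h4 := h1.norm_le_of_bounded h3 fun k => by
      refine (hV m k _ y (pr_sup b _ z) hy).trans ?_
      refine (mul_le_mul_of_nonneg_left (mul_le_mul_of_nonneg_right (h2 k) (norm_nonneg y))
        (by positivity)).trans (le_of_eq ?_)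
      simp only [Function.comp, Equiv.subLeft_apply]
      rw [show k - n = (m - 6 - n) + -(m - 6 - k) by ring, zpow_add₀ two_ne_zero]
      ring
    rw [pow_succ']
    refine h4.trans ?_
    rw [show m - 6 - n = (m - n) + (-6) by ring, zpow_add₀ two_ne_zero, pow_succ]
    have : (0 : ℝ) ≤ 2 ^ (m - n) * (1 / 4 : ℝ) ^ r * (‖x‖ * ‖y‖) := by positivity
    norm_num at this ⊢
    nlinarith

noncomputable def ap (V : unitary (H →L[ℂ] H)) (n : ℤ) : H →L[ℂ] H := (V ^ n : unitary _)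

theorem ap_add (V : unitary (H →L[ℂ] H)) (n m : ℤ) (x : H) :
    ap V (n + m) x = ap V n (ap V m x) := by
  simp [ap, zpow_add]

theorem ap_inner (V : unitary (H →L[ℂ] H)) (n m : ℤ) (x y : H) :
    ⟪ap V n x, ap V m y⟫_ℂ = ⟪x, ap V (m - n) y⟫_ℂ := by
  rw [show m = n + (m - n) by ring, ap_add, add_sub_cancel_left]
  exact Unitary.inner_map_map _ _ _

theorem ap_norm (V : unitary (H →L[ℂ] H)) (n : ℤ) (x : H) : ‖ap V n x‖ = ‖x‖ :=
  Unitary.norm_map _ _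

theorem ap_zero (V : unitary (H →L[ℂ] H)) (x : H) : ap V 0 x = x := by simp [ap]

theorem ap_succ (V : unitary (H →L[ℂ] H)) (n : ℤ) (x : H) :
    ap V (n + 1) x = (V : H →L[ℂ] H) (ap V n x) := by
  rw [add_comm, ap_add]; simp [ap]

theorem ap_bound {V : unitary (H →L[ℂ] H)} (hV : Drift b V) (j n : ℤ) (x y : H)
    (hx : Sup b {i | i.1 = n} x) (hy : Sup b {i | i.1 = n} y) :
    ‖⟪x, ap V j y⟫_ℂ‖ ≤ (1 / 4 : ℝ) ^ j.natAbs * (‖x‖ * ‖y‖) := by
  obtain ⟨r, rfl | rfl⟩ := j.eq_nat_or_neg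
  · simpa [ap, mul_comm] using pow_bound hV r n n y x hy hx
  · have := ap_inner V r 0 x y
    rw [zero_sub, ap_zero] at this
    rw [← this, norm_inner_symm]
    simpa [ap] using pow_bound hV r n n x y hx hy

theorem gram' {V : unitary (H →L[ℂ] H)} (hV : Drift b V) (k : ℤ) (x : ℤ → H)
    (hx : ∀ n, Sup b {i | i.1 = k} (x n)) (s : Finset ℤ) :
    ‖∑ n ∈ s, ap V n (x n)‖ ^ 2 ≤ 5 / 3 * ∑ n ∈ s, ‖x n‖ ^ 2 ∧
      ∑ n ∈ s, ‖x n‖ ^ 2 ≤ 3 * ‖∑ n ∈ s, ap V n (x n)‖ ^ 2 := by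
  have := gram (fun n => ap V n (x n)) s fun n m => by
    rw [ap_inner, ap_norm, ap_norm]
    exact ap_bound hV _ k _ _ (hx n) (hx m)
  simpa only [ap_norm] using this

theorem le_sqrt_of {u w : ℝ} (hu : 0 ≤ u) (hw : 0 ≤ w) (h : u ^ 2 ≤ 5 / 3 * w) : u ≤ 2 * √w := by
  refine (pow_le_pow_iff_left₀ hu (by positivity) two_ne_zero).1 ?_
  rw [mul_pow, Real.sq_sqrt hw]
  linarith

theorem conj_shift {V a : unitary (H →L[ℂ] H)} (hV : Drift b V) (c : HilbertBasis (ℤ × ℕ) ℂ H)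
    (ha : ∀ p, (a : H →L[ℂ] H) (c p) = c (p.1 + 1, p.2)) : IsConj a V := by
  obtain ⟨ε, hε⟩ := exists_surjective_nat (ℤ × ℕ)
  obtain ⟨T₁, h1⟩ := riesz c (fun p => (1 / 2 : ℂ) ^ p.2 • ap V p.1 (b (ε p.2))) 4 fun s t α => by
    rw [sum_product_right]
    set w := ∑ p ∈ s ×ˢ t, ‖α p‖ ^ 2 with hw
    have a1 : ∀ k ∈ t, ‖∑ n ∈ s, α (n, k) • (1 / 2 : ℂ) ^ k • ap V n (b (ε k))‖ ≤
        (1 / 2 : ℝ) ^ k * (2 * √w) := fun k hk => by
      have e : ∑ n ∈ s, α (n, k) • (1 / 2 : ℂ) ^ k • ap V n (b (ε k)) =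
          (1 / 2 : ℂ) ^ k • ∑ n ∈ s, ap V n (α (n, k) • b (ε k)) := by
        rw [smul_sum]
        exact sum_congr rfl fun n _ => by rw [map_smul, smul_comm]
      rw [e, norm_smul, norm_pow]
      refine mul_le_mul (by simp) (le_sqrt_of (norm_nonneg _) (by positivity) ?_) (norm_nonneg _)
        (by positivity)
      refine (gram' hV (ε k).1 (fun n => α (n, k) • b (ε k)) (fun n => (mem_sub b).1
        (Submodule.smul_mem _ _ ((mem_sub b).2 (sup_basis b rfl)))) s).1.trans ?_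
      refine mul_le_mul_of_nonneg_left ?_ (by norm_num)
      simp only [norm_smul, b.orthonormal.1 _, mul_one]
      rw [hw, sum_product_right]
      exact single_le_sum (f := fun k => ∑ n ∈ s, ‖α (n, k)‖ ^ 2) (fun _ _ => by positivity) hk
    refine (norm_sum_le _ _).trans ((sum_le_sum a1).trans ?_)
    rw [← sum_mul]
    have := sum_le_hasSum t (fun _ _ => by positivity) hasSum_geometric_two
    have : 0 ≤ √w := by positivity
    nlinarith
  have o : Orthonormal ℂ fun k : ℕ => b (0, k) :=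
    b.orthonormal.comp (fun k : ℕ => ((0 : ℤ), k)) fun _ _ h => (Prod.ext_iff.1 h).2
  have key : ∀ (s : Finset ℤ) (t : Finset ℕ) (α : ℤ × ℕ → ℂ),
      ‖∑ p ∈ s ×ˢ t, α p • ap V p.1 (b (0, p.2))‖ ^ 2 ≤ 5 / 3 * ∑ p ∈ s ×ˢ t, ‖α p‖ ^ 2 ∧
      ∑ p ∈ s ×ˢ t, ‖α p‖ ^ 2 ≤ 3 * ‖∑ p ∈ s ×ˢ t, α p • ap V p.1 (b (0, p.2))‖ ^ 2 := by
    intro s t α
    have := gram' hV 0 (fun n => ∑ k ∈ t, α (n, k) • b (0, k)) (fun n => (mem_sub b).1
      (Submodule.sum_mem _ fun k _ => Submodule.smul_mem _ _ ((mem_sub b).2 (sup_basis b rfl)))) s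
    simpa only [normsq_sum o, map_sum, map_smul, sum_product] using this
  obtain ⟨T₂, h2⟩ := riesz c (fun p => ap V p.1 (b (0, p.2))) 2 fun s t α =>
    le_sqrt_of (norm_nonneg _) (by positivity) (key s t α).1
  have e1 : T₁ * a = V * T₁ := op_ext c fun p => by
    show T₁ ((a : H →L[ℂ] H) (c p)) = (V : H →L[ℂ] H) (T₁ (c p))
    rw [ha, h1, h1, ap_succ, map_smul]
  have e2 : T₂ * a = V * T₂ := op_ext c fun p => by
    show T₂ ((a : H →L[ℂ] H) (c p)) = (V : H →L[ℂ] H) (T₂ (c p))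
    rw [ha, h2, h2, ap_succ]
  have i1 : ∀ x, star T₁ x = 0 → x = 0 := fun x hx => by
    refine b_ext b fun i => ?_
    obtain ⟨k, rfl⟩ := hε i
    have : ⟪T₁ (c (0, k)), x⟫_ℂ = 0 := by
      rw [← adjoint_inner_right, ← star_eq_adjoint, hx, inner_zero_right]
    rw [h1, ap_zero, inner_smul_left] at this
    simpa using this
  obtain ⟨Φ, hΦ, e⟩ := conj_of_inj V.2 a.2 (star_inter a.2 V.2 e1) e2 i1
    (riesz_inj c T₂ 3 fun s t α => by simpa only [h2] using (key s t α).2)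
  exact (isConj_iff.2 ⟨⟨Φ, hΦ⟩, mul_inv_eq_iff_eq_mul.2 (Subtype.ext e)⟩).symm

end Pool.Agent.H56.Haar
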