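import Pool.Agent.H56.Haar3

set_option autoImplicit false
set_option linter.unusedSectionVars false

namespace Pool.Agent.H56.Haar

open scoped InnerProductSpace
open ContinuousLinearMap Finset Filter Topology MeasureTheory

variable {H : Type} [NormedAddCommGroup H] [InnerProductSpace ℂ H] [CompleteSpace H]
variable (e : HilbertBasis ℕ ℂ H)

def Tail (blk : ℕ → ℕ) (A : H →L[ℂ] H) : Prop := ∀ (j : ℕ) (x : H),
  ‖pr e {p | j + 1 ≤ blk p} (A (pr e {p | blk p < j} x))‖ ≤ (1 / 4 : ℝ) ^ (j + 1) * ‖x‖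

variable {e} {blk : ℕ → ℕ} {lam : ℕ → ℤ}

theorem half (hl : ∀ i j : ℕ, (lam i - lam j).natAbs ≤ ((i : ℤ) - j).natAbs) {A : H →L[ℂ] H}
    (hA : Tail e blk A) {m n : ℤ} {x y : H} (hx : Sup e {p | lam (blk p) = n} x)
    (hy : Sup e {p | lam (blk p) = m} y) (hd : 2 ≤ (m - n).natAbs) (N N' : ℕ) (hN : N' ≤ N + 1) :
    ‖⟪pr e {p | blk p = N} y, A (pr e {p | blk p < N'} x)⟫_ℂ‖ ≤
      (if (m - n).natAbs ≤ N then (1 / 4 : ℝ) ^ N else 0) * (‖x‖ * ‖y‖) := by
  by_cases h : lam N = m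
  · have hs : Sup e {p | blk p + (m - n).natAbs ≤ N} (pr e {p | blk p < N'} x) := fun p hp => by
      rw [pr_coord]
      split_ifs with h1
      · refine hx p fun h2 => hp ?_
        have := hl N (blk p)
        simp only [Set.mem_ofPred_eq] at h1 h2 ⊢
        omega
      · rfl
    split_ifs with h1
    · obtain ⟨M, rfl⟩ : ∃ M, N = M + 1 := ⟨N - 1, by omega⟩
      have a1 : pr e {p | blk p < M} (pr e {p | blk p < N'} x) = pr e {p | blk p < N'} x :=
        pr_eq_self e fun p hp => hs p fun h2 => hp (by simp only [Set.mem_ofPred_eq] at h2 ⊢; omega)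
      have a2 : pr e {p | M + 1 ≤ blk p} (pr e {p | blk p = M + 1} y) =
          pr e {p | blk p = M + 1} y :=
        pr_eq_self e fun p hp => pr_sup e _ y p fun h2 => hp (le_of_eq h2.symm)
      rw [← a2, pr_inner, ← a1]
      refine (norm_inner_le_norm _ _).trans ?_
      refine (mul_le_mul (pr_norm e _ y) ((hA M _).trans (mul_le_mul_of_nonneg_left (pr_norm e _ x)
        (by positivity))) (norm_nonneg _) (norm_nonneg _)).trans (le_of_eq (by ring))
    · have : pr e {p | blk p < N'} x = 0 := b_ext e fun p => by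
        rw [inner_zero_right]
        exact hs p fun h2 => h1 (by simp only [Set.mem_ofPred_eq] at h2; omega)
      simp [this]
  · have : pr e {p | blk p = N} y = 0 := b_ext e fun p => by
      rw [inner_zero_right, pr_coord]
      split_ifs with h1
      · exact hy p fun h2 => h (h1 ▸ h2)
      · rfl
    rw [this, inner_zero_left, norm_zero]
    positivity

theorem pr_succ (blk : ℕ → ℕ) (N : ℕ) (z : H) :
    pr e {p | blk p < N + 1} z = pr e {p | blk p < N} z + pr e {p | blk p = N} z :=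
  b_ext e fun p => by
    simp only [inner_add_right, pr_coord, Set.mem_ofPred_eq]
    split_ifs <;> first | omega | simp

theorem pr_tendsto (blk : ℕ → ℕ) (z : H) :
    Tendsto (fun N => pr e {p | blk p < N} z) atTop (𝓝 z) := by
  refine (hasSum_fiber e blk z).tendsto_sum_nat.congr fun N => ?_
  induction N with
  | zero => exact (b_ext e fun p => by simp [pr_coord]).symm
  | succ N ih => rw [sum_range_succ, ih, pr_succ]

theorem level_bound (hl : ∀ i j : ℕ, (lam i - lam j).natAbs ≤ ((i : ℤ) - j).natAbs)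
    {U : unitary (H →L[ℂ] H)} (h1 : Tail e blk U) (h2 : Tail e blk (star (U : H →L[ℂ] H)))
    {m n : ℤ} {x y : H} (hx : Sup e {p | lam (blk p) = n} x)
    (hy : Sup e {p | lam (blk p) = m} y) :
    ‖⟪y, (U : H →L[ℂ] H) x⟫_ℂ‖ ≤ 4 * (1 / 4 : ℝ) ^ (m - n).natAbs * (‖x‖ * ‖y‖) := by
  have hp : 0 ≤ ‖x‖ * ‖y‖ := by positivity
  by_cases hd : 2 ≤ (m - n).natAbs
  swap
  · refine (norm_inner_le_norm _ _).trans ?_
    rw [Unitary.norm_map, mul_comm]
    refine le_mul_of_one_le_left hp ?_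
    obtain h | h : (m - n).natAbs = 0 ∨ (m - n).natAbs = 1 := by omega
    all_goals rw [h]; norm_num
  set d := (m - n).natAbs with hdd
  have key : ∀ N, ‖⟪pr e {p | blk p < N} y, (U : H →L[ℂ] H) (pr e {p | blk p < N} x)⟫_ℂ‖ ≤
      (4 * (1 / 4 : ℝ) ^ d - 4 * (1 / 4 : ℝ) ^ (max N d)) * (‖x‖ * ‖y‖) := by
    intro N
    induction N with
    | zero =>
      have : pr e {p | blk p < 0} y = 0 := b_ext e fun p => by simp [pr_coord]
      rw [this]
      simp
    | succ N ih =>
      have a1 := half hl h1 hx hy hd N (N + 1) le_rfl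
      have a2 := half hl h2 hy hx (by omega) N N (by omega)
      rw [show (n - m).natAbs = d by omega, star_eq_adjoint, adjoint_inner_right,
        norm_inner_symm, mul_comm ‖y‖] at a2
      rw [pr_succ blk N y, inner_add_left]
      conv_lhs => arg 1; arg 1; rw [pr_succ blk N x, map_add, inner_add_right]
      refine (norm_add₃_le).trans ?_
      rw [← hdd] at a1
      split_ifs at a1 a2 with h
      · rw [max_eq_left h] at ih
        rw [max_eq_left (by omega), pow_succ]
        have : 0 ≤ (1 / 4 : ℝ) ^ N * (‖x‖ * ‖y‖) := by positivity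
        nlinarith
      · rw [max_eq_right (by omega)] at ih ⊢
        linarith
  have lim : Tendsto (fun N => ‖⟪pr e {p | blk p < N} y,
      (U : H →L[ℂ] H) (pr e {p | blk p < N} x)⟫_ℂ‖) atTop (𝓝 ‖⟪y, (U : H →L[ℂ] H) x⟫_ℂ‖) :=
    ((pr_tendsto blk y).inner (((U : H →L[ℂ] H).continuous.tendsto x).comp
      (pr_tendsto blk x))).norm
  refine le_of_tendsto' lim fun N => (key N).trans (mul_le_mul_of_nonneg_right ?_ hp)
  have : 0 ≤ (1 / 4 : ℝ) ^ (max N d) := by positivity
  linarith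

theorem exists_lam : ∃ lam : ℕ → ℤ, (∀ i j : ℕ, (lam i - lam j).natAbs ≤ ((i : ℤ) - j).natAbs) ∧
    ∀ m, {j | lam j = m}.Infinite := by
  let h : ℕ → ℕ := fun j => min (j - j.sqrt ^ 2) ((j.sqrt + 1) ^ 2 - j)
  let lam : ℕ → ℤ := fun j => if Even j.sqrt then h j else -h j
  have step : ∀ j, (lam (j + 1) - lam j).natAbs ≤ 1 := fun j => by
    have a1 := Nat.sqrt_le' j
    have a2 := Nat.lt_succ_sqrt' j
    simp only [Nat.succ_eq_add_one] at a2
    by_cases c : j + 1 < (j.sqrt + 1) ^ 2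
    · have : (j + 1).sqrt = j.sqrt := (Nat.eq_sqrt'.2 ⟨by omega, c⟩).symm
      simp only [lam, h, this]
      split_ifs <;> omega
    · have e : j + 1 = (j.sqrt + 1) ^ 2 := by omega
      have : (j + 1).sqrt = j.sqrt + 1 := by rw [e, Nat.sqrt_eq']
      simp only [lam, h, this]
      split_ifs <;> omega
  have lip : ∀ j k : ℕ, (lam (j + k) - lam j).natAbs ≤ k := fun j k => by
    induction k with
    | zero => simp
    | succ k ih => have := step (j + k); rw [← add_assoc]; omega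
  refine ⟨lam, fun i j => ?_, fun m => Set.infinite_of_forall_exists_gt fun a => ?_⟩
  · rcases le_total i j with c | c
    · obtain ⟨k, rfl⟩ := Nat.exists_eq_add_of_le c
      have := lip i k
      omega
    · obtain ⟨k, rfl⟩ := Nat.exists_eq_add_of_le c
      have := lip j k
      omega
  · obtain ⟨k, h1, h2, h3⟩ : ∃ k : ℕ, a < k ∧ m.natAbs ≤ k ∧ (Even k ↔ 0 ≤ m) := by
      by_cases c : 0 ≤ m
      · exact ⟨2 * (a + m.natAbs + 1), by omega, by omega, by simp [c]⟩
      · exact ⟨2 * (a + m.natAbs) + 1, by omega, by omega, by simp [c]⟩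
    have e1 : (k + 1) ^ 2 = k ^ 2 + 2 * k + 1 := by ring
    have : (k ^ 2 + m.natAbs).sqrt = k := (Nat.eq_sqrt'.2 ⟨by omega, by omega⟩).symm
    refine ⟨k ^ 2 + m.natAbs, ?_, by have := Nat.le_self_pow two_ne_zero k; omega⟩
    simp only [Set.mem_ofPred_eq, lam, h, this, h3]
    split_ifs <;> omega

theorem exists_g (e : HilbertBasis ℕ ℂ H) (blk : ℕ → ℕ) (hb : Function.Surjective blk) :
    ∃ (b : HilbertBasis (ℤ × ℕ) ℂ H) (g : unitary (H →L[ℂ] H)), ∀ U : unitary (H →L[ℂ] H),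
      Tail e blk U → Tail e blk (star (U : H →L[ℂ] H)) → Drift b (g * U : unitary _) := by
  obtain ⟨lam, hl, hi⟩ := exists_lam
  have : ∀ n, Nonempty (ℕ ≃ {p // lam (blk p) = n}) := fun n => by
    have : Infinite {p // lam (blk p) = n} := 
      ((hi n).preimage (f := blk) (by rw [hb.range_eq]; exact Set.subset_univ _)).to_subtype
    exact nonempty_equiv_of_countable
  let ψ : ℤ × ℕ ≃ ℕ := (Equiv.sigmaEquivProd ℤ ℕ).symm.trans
    ((Equiv.sigmaCongrRight fun n => (this n).some).trans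
      (Equiv.sigmaFiberEquiv fun p => lam (blk p)))
  have hψ : ∀ i, lam (blk (ψ i)) = i.1 := fun i => ((this i.1).some i.2).2
  obtain ⟨b, hb⟩ := exists_reindex e ψ
  obtain ⟨b', hb'⟩ := exists_reindex b ((Equiv.addRight (6 : ℤ)).prodCongr (Equiv.refl ℕ))
  obtain ⟨g, hg⟩ := exists_unitary b b'
  have tr : ∀ n x, Sup b {i | i.1 = n} x → Sup e {p | lam (blk p) = n} x := fun n x hx p hp => by
    obtain ⟨i, rfl⟩ := ψ.surjective p
    rw [← hb]
    exact hx i fun h => hp ((hψ i).trans h)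
  refine ⟨b, g, fun U h1 h2 m n x y hx hy => ?_⟩
  have hy' : Sup b {i | i.1 = m - 6} (star (g : H →L[ℂ] H) y) := fun i hi => by
    rw [star_eq_adjoint, adjoint_inner_right, hg, hb']
    exact hy _ fun h => hi (by simp at h ⊢; omega)
  have := level_bound hl h1 h2 (tr _ _ hx) (tr _ _ hy')
  have hn : ‖star (g : H →L[ℂ] H) y‖ = ‖y‖ := Unitary.norm_map (star g) y
  rwa [hn, star_eq_adjoint, adjoint_inner_left] at this

theorem pr_fin (e : HilbertBasis ℕ ℂ H) (T : ℕ) (x : H) :
    pr e {p | p < T} x = ∑ q ∈ range T, ⟪e q, x⟫_ℂ • e q := b_ext e fun p => by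
  rw [pr_coord]
  split_ifs with h
  · exact (e.orthonormal.inner_right_sum (fun q => ⟪e q, x⟫_ℂ) (mem_range.2 h)).symm
  · rw [inner_sum]
    refine (sum_eq_zero fun q hq => ?_).symm
    rw [inner_smul_right, e.orthonormal.2 (fun c : p = q => h (c ▸ mem_range.1 hq)), mul_zero]

theorem pr_compl (e : HilbertBasis ℕ ℂ H) (N : ℕ) (z : H) :
    pr e {p | N ≤ p} z = z - pr e {p | p < N} z := b_ext e fun p => by
  simp only [inner_sub_right, pr_coord, Set.mem_ofPred_eq]
  split_ifs <;> first | omega | simp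

theorem norm_tail (e : HilbertBasis ℕ ℂ H) (N : ℕ) (z : H) :
    ‖pr e {p | N ≤ p} z‖ = √(‖z‖ ^ 2 - ∑ p ∈ range N, ‖⟪e p, z⟫_ℂ‖ ^ 2) := by
  have a1 : ⟪pr e {p | N ≤ p} z, pr e {p | p < N} z⟫_ℂ = 0 := by
    rw [pr_inner]
    have : pr e {p | N ≤ p} (pr e {p | p < N} z) = 0 := b_ext e fun p => by
      simp only [pr_coord, Set.mem_ofPred_eq]
      split_ifs <;> first | omega | simp
    rw [this, inner_zero_right]
  have a2 := norm_add_sq_eq_norm_sq_add_norm_sq_of_inner_eq_zero _ _ a1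
  rw [← normsq_sum e.orthonormal, ← pr_fin, ← Real.sqrt_mul_self (norm_nonneg (pr e _ z))]
  congr 1
  rw [show pr e {p | N ≤ p} z + pr e {p | p < N} z = z by rw [pr_compl]; abel] at a2
  linarith

theorem tail_tendsto (e : HilbertBasis ℕ ℂ H) (z : H) :
    Tendsto (fun N => ‖pr e {p | N ≤ p} z‖) atTop (𝓝 0) := by
  simp only [pr_compl]
  simpa using ((tendsto_const_nhds (x := z)).sub (pr_tendsto (e := e) id z)).norm

theorem tail_of (e : HilbertBasis ℕ ℂ H) (A : H →L[ℂ] H) (T N : ℕ) (x : H) :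
    ‖pr e {p | N ≤ p} (A (pr e {p | p < T} x))‖ ≤
      (∑ q ∈ range T, ‖pr e {p | N ≤ p} (A (e q))‖) * ‖x‖ := by
  rw [pr_fin, map_sum, map_sum, sum_mul]
  refine (norm_sum_le _ _).trans (sum_le_sum fun q _ => ?_)
  rw [map_smul, map_smul, norm_smul, mul_comm]
  refine mul_le_mul_of_nonneg_left ?_ (norm_nonneg _)
  simpa [e.orthonormal.1 q] using norm_inner_le_norm (𝕜 := ℂ) (e q) x

theorem exists_blk (e : HilbertBasis ℕ ℂ H) [MeasurableSpace (unitary (H →L[ℂ] H))]
    (hm : ∀ p q, Measurable fun U : unitary (H →L[ℂ] H) => ⟪e p, (U : H →L[ℂ] H) (e q)⟫_ℂ)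
    (μ : Measure (unitary (H →L[ℂ] H))) [IsProbabilityMeasure μ] :
    ∃ blk : ℕ → ℕ, Function.Surjective blk ∧
      μ {U | Tail e blk U ∧ Tail e blk (star (U : H →L[ℂ] H))} ≠ 0 := by
  let G : ℕ → ℕ → unitary (H →L[ℂ] H) → ℝ := fun T N U =>
    ∑ q ∈ range T, ‖pr e {p | N ≤ p} ((U : H →L[ℂ] H) (e q))‖ +
      ∑ q ∈ range T, ‖pr e {p | N ≤ p} (star (U : H →L[ℂ] H) (e q))‖
  have hG : ∀ T N, Measurable (G T N) := fun T N => by
    have hn : ∀ (U : unitary (H →L[ℂ] H)) y, ‖star (U : H →L[ℂ] H) y‖ = ‖y‖ := fun U y =>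
      Unitary.norm_map (star U) y
    simp only [G, norm_tail, Unitary.norm_map, hn]
    simp only [star_eq_adjoint, adjoint_inner_right, norm_inner_symm _ (e _)]
    fun_prop
  have hlim : ∀ T U, Tendsto (fun N => G T N U) atTop (𝓝 0) := fun T U => by
    simpa using (tendsto_finsetSum (range T) fun q _ => tail_tendsto e _).add
      (tendsto_finsetSum (range T) fun q _ => tail_tendsto e _)
  obtain ⟨ε, hε, hs⟩ := ENNReal.exists_pos_sum_of_countable one_ne_zero ℕ
  have nx : ∀ T j : ℕ, ∃ N, T < N ∧ μ {U | (1 / 4 : ℝ) ^ (j + 1) ≤ ‖G T N U - 0‖} ≤ ε j := by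
    intro T j
    have := tendstoInMeasure_iff_norm.1 (tendstoInMeasure_of_tendsto_ae (μ := μ)
      (fun N => (hG T N).aestronglyMeasurable) (ae_of_all _ (hlim T))) ((1 / 4 : ℝ) ^ (j + 1))
      (by positivity)
    exact ((eventually_gt_atTop T).and
      (this.eventually (ge_mem_nhds (ENNReal.coe_pos.2 (hε j))))).exists
  choose nx h1 h2 using nx
  let t : ℕ → ℕ := fun j => Nat.rec 0 (fun j T => nx T j) j
  have ht : StrictMono t := strictMono_nat_of_lt_succ fun j => h1 _ _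
  have hex : ∀ p, ∃ j, p < t (j + 1) := fun p => ⟨p, ht.id_le (p + 1)⟩
  have hb : ∀ p j, Nat.find (hex p) < j ↔ p < t j := fun p j => by
    rw [Nat.find_lt_iff]
    constructor
    · rintro ⟨i, a1, a2⟩
      exact a2.trans_le (ht.monotone a1)
    · intro h
      rcases j with _ | j
      · exact absurd h (Nat.not_lt_zero _)
      · exact ⟨j, by omega, h⟩
  refine ⟨fun p => Nat.find (hex p), fun j => ⟨t j, ?_⟩, fun h0 => ?_⟩
  · have a1 := (hb (t j) (j + 1)).2 (ht (Nat.lt_succ_self j))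
    have a2 := (hb (t j) j).not.2 (lt_irrefl _)
    simp only
    omega
  · have hc : μ Set.univ ≤ μ ({U | Tail e (fun p => Nat.find (hex p)) U ∧
        Tail e (fun p => Nat.find (hex p)) (star (U : H →L[ℂ] H))} ∪
        ⋃ j, {U | (1 / 4 : ℝ) ^ (j + 1) ≤ ‖G (t j) (t (j + 1)) U - 0‖}) := by
      refine measure_mono fun U _ => ?_
      rw [Set.mem_union, or_iff_not_imp_right]
      intro hU
      simp only [Set.mem_iUnion, Set.mem_ofPred_eq, not_exists, not_le, sub_zero] at hU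
      have s1 : ∀ j, {p | j + 1 ≤ Nat.find (hex p)} = {p | t (j + 1) ≤ p} := fun j => by
        ext p
        simp only [Set.mem_ofPred_eq, ← not_lt, hb]
      have s2 : ∀ j, {p | Nat.find (hex p) < j} = {p | p < t j} := fun j => by
        ext p
        simp only [Set.mem_ofPred_eq, hb]
      constructor
      all_goals
        intro j x
        rw [s1, s2]
        refine (tail_of e _ _ _ x).trans (mul_le_mul_of_nonneg_right ?_ (norm_nonneg _))
        refine le_trans ?_ ((le_abs_self _).trans (hU j).le)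
      · exact le_add_of_nonneg_right (by positivity)
      · exact le_add_of_nonneg_left (by positivity)
    rw [measure_univ] at hc
    have := hc.trans ((measure_union_le _ _).trans (add_le_add h0.le ((measure_iUnion_le _).trans
      (ENNReal.tsum_le_tsum fun j => h2 (t j) j))))
    rw [zero_add] at this
    exact absurd hs (not_lt.2 this)

theorem main (e : HilbertBasis ℕ ℂ H) : ∃ a : unitary (H →L[ℂ] H),
    ∀ [MeasurableSpace (unitary (H →L[ℂ] H))], (∀ p q, Measurable fun U : unitary (H →L[ℂ] H) =>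
      ⟪e p, (U : H →L[ℂ] H) (e q)⟫_ℂ) → ∀ (μ : Measure (unitary (H →L[ℂ] H)))
      [IsProbabilityMeasure μ], ∃ g, μ {x | IsConj a (g * x)} ≠ 0 := by
  obtain ⟨ψ⟩ : Nonempty (ℤ × ℕ ≃ ℕ) := nonempty_equiv_of_countable
  obtain ⟨c, -⟩ := exists_reindex e ψ
  obtain ⟨c', hc⟩ := exists_reindex c ((Equiv.addRight (1 : ℤ)).prodCongr (Equiv.refl ℕ))
  obtain ⟨a, ha⟩ := exists_unitary c c'
  refine ⟨a, fun hm μ _ => ?_⟩
  obtain ⟨blk, h1, h2⟩ := exists_blk e hm μ
  obtain ⟨b, g, hg⟩ := exists_g e blk h1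
  exact ⟨g, fun h => h2 (measure_mono_null (fun U hU => conj_shift (hg U hU.1 hU.2) c
    fun p => by rw [ha, hc]; rfl) h)⟩

end Pool.Agent.H56.Haar
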