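import Mathlib

namespace Pool.Agent.H56.Hp

open Set Real

/-- the end point beyond `Y` of the chord of `Ω` through `X` and `Y` -/
noncomputable def endp (Ω : Set ℂ) (X Y : ℂ) : ℂ :=
  X + (sSup {t : ℝ | X + t • (Y - X) ∈ Ω}) • (Y - X)

/-- the Hilbert metric -/
noncomputable def hd (Ω : Set ℂ) (X Y : ℂ) : ℝ :=
  (1 / 2) * Real.log (dist X (endp Ω X Y) * dist Y (endp Ω Y X) /
    (dist X (endp Ω Y X) * dist Y (endp Ω X Y)))

def ip (a b : ℂ) : ℝ := a.re * b.re + a.im * b.im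

noncomputable def cc : ℂ := ((-5 / 3 : ℝ) : ℂ)

noncomputable def ph (ξ y : ℂ) : ℝ := 1 - 5 / 3 * y.re - ip ξ y

def Om (D : Set ℂ) : Set ℂ := {y | ∀ ξ ∈ D, 0 < ph ξ y}

@[simp] lemma cc_re : cc.re = -5 / 3 := by simp [cc]
@[simp] lemma cc_im : cc.im = 0 := by simp [cc]

lemma ip_le (a b : ℂ) : ip a b ≤ ‖a‖ * ‖b‖ := by
  have h := Complex.re_le_norm (a * (starRingEnd ℂ) b)
  rw [norm_mul, Complex.norm_conj] at h
  have : (a * (starRingEnd ℂ) b).re = ip a b := by simp [ip]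
  linarith

lemma ip_self (a : ℂ) : ip a a = ‖a‖ ^ 2 := by
  rw [Complex.sq_norm, Complex.normSq_apply]; rfl

lemma isOpen_Om {D : Set ℂ} (hD : IsCompact D) : IsOpen (Om D) := by
  rw [isOpen_iff_mem_nhds]
  intro y hy
  have : ∀ᶠ y' in nhds y, ∀ ξ ∈ D, 0 < ph ξ y' := by
    apply hD.eventually_forall_of_forall_eventually
    intro ξ hξ
    have hc : Continuous (fun z : ℂ × ℂ => ph z.2 z.1) := by unfold ph ip; fun_prop
    exact hc.continuousAt.eventually (lt_mem_nhds (hy ξ hξ))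
  exact this

lemma ph_line (ξ X Y : ℂ) (t : ℝ) : ph ξ (X + t • (Y - X)) = ph ξ X + t * (ph ξ Y - ph ξ X) := by
  simp [ph, ip]; ring

lemma end_lem {D : Set ℂ} (hD : IsCompact D) (hb : ∀ y ∈ Om D, ‖y‖ < 1) {X Y : ℂ}
    (hX : X ∈ Om D) (hY : Y ∈ Om D) (hne : X ≠ Y) :
    ∃ M : ℝ, 0 < M ∧ dist X (endp (Om D) X Y) = M * dist Y (endp (Om D) X Y) ∧
      0 < dist Y (endp (Om D) X Y) ∧
      (∀ ξ ∈ D, ph ξ X ≤ M * ph ξ Y) ∧ ∃ ξ ∈ D, ph ξ X = M * ph ξ Y := by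
  set T := {t : ℝ | X + t • (Y - X) ∈ Om D} with hT
  have hpos : 0 < ‖Y - X‖ := norm_pos_iff.2 (sub_ne_zero.2 hne.symm)
  have hbd : BddAbove T := by
    refine ⟨2 / ‖Y - X‖, fun t ht => ?_⟩
    have h1 := hb _ ht
    have h2 := hb _ hX
    have h3 : ‖t • (Y - X)‖ ≤ ‖X + t • (Y - X)‖ + ‖X‖ := by
      have := norm_sub_le (X + t • (Y - X)) X
      simpa using this
    rw [norm_smul, Real.norm_eq_abs] at h3
    rw [le_div_iff₀ hpos]
    nlinarith [le_abs_self t]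
  have hopen : IsOpen T := (isOpen_Om hD).preimage (by fun_prop)
  have h1 : (1 : ℝ) ∈ T := by simpa [hT] using hY
  have hnot : sSup T ∉ T := by
    intro h
    obtain ⟨ε, hε, hs⟩ := Metric.isOpen_iff.1 hopen _ h
    have : sSup T + ε / 2 ∈ T := hs (by simp [abs_of_pos hε]; linarith)
    have := le_csSup hbd this
    linarith
  have hge : 1 ≤ sSup T := le_csSup hbd h1
  have hgt : 1 < sSup T := lt_of_le_of_ne hge (fun h => hnot (h ▸ h1))
  set p := sSup T with hp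
  have hall : ∀ ξ ∈ D, 0 ≤ ph ξ X + p * (ph ξ Y - ph ξ X) := by
    intro ξ hξ
    by_contra hlt
    push Not at hlt
    have hx := hX ξ hξ
    have hd : ph ξ Y - ph ξ X < 0 := by nlinarith
    have : p ≤ ph ξ X / (ph ξ X - ph ξ Y) := by
      apply csSup_le ⟨1, h1⟩
      intro t ht
      have := ht ξ hξ
      rw [ph_line] at this
      rw [le_div_iff₀ (by linarith)]
      linarith
    rw [le_div_iff₀ (by linarith)] at this
    linarith
  have hex : ∃ ξ ∈ D, ph ξ X + p * (ph ξ Y - ph ξ X) = 0 := by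
    by_contra hcon
    push Not at hcon
    apply hnot
    intro ξ hξ
    rw [ph_line]
    exact lt_of_le_of_ne (hall ξ hξ) (hcon ξ hξ).symm
  have e1 : dist X (endp (Om D) X Y) = p * ‖Y - X‖ := by
    rw [dist_comm, dist_eq_norm]
    have : endp (Om D) X Y - X = p • (Y - X) := by simp [endp, hp, hT]
    rw [this, norm_smul, Real.norm_eq_abs, abs_of_pos (by linarith)]
  have e2 : dist Y (endp (Om D) X Y) = (p - 1) * ‖Y - X‖ := by
    rw [dist_comm, dist_eq_norm]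
    have : endp (Om D) X Y - Y = (p - 1) • (Y - X) := by
      rw [sub_smul, one_smul]
      simp only [endp, hp, hT]; ring
    rw [this, norm_smul, Real.norm_eq_abs, abs_of_pos (by linarith)]
  have hp1 : 0 < p - 1 := by linarith
  refine ⟨p / (p - 1), by positivity, ?_, ?_, ?_, ?_⟩
  · rw [e1, e2]; field_simp
  · rw [e2]; positivity
  · intro ξ hξ
    have := hall ξ hξ
    rw [div_mul_eq_mul_div, le_div_iff₀ hp1]
    linarith
  · obtain ⟨ξ, hξ, h⟩ := hex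
    refine ⟨ξ, hξ, ?_⟩
    rw [div_mul_eq_mul_div, eq_div_iff hp1.ne']
    linarith

lemma hd_lem {D : Set ℂ} (hD : IsCompact D) (hn : D.Nonempty) (hb : ∀ y ∈ Om D, ‖y‖ < 1) {X Y : ℂ}
    (hX : X ∈ Om D) (hY : Y ∈ Om D) :
    ∃ E : ℝ, 0 < E ∧ hd (Om D) X Y = (1 / 2) * Real.log E ∧
      (∀ ξ ∈ D, ∀ η ∈ D, ph ξ X * ph η Y ≤ E * (ph ξ Y * ph η X)) ∧
      ∃ ξ ∈ D, ∃ η ∈ D, ph ξ X * ph η Y = E * (ph ξ Y * ph η X) := by
  by_cases hne : X = Y
  · subst hne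
    obtain ⟨ξ, hξ⟩ := hn
    refine ⟨1, one_pos, by simp [hd, endp], fun ξ _ η _ => by simp, ξ, hξ, ξ, hξ, by simp⟩
  obtain ⟨M, hM, h1, h2, h3, ξ, hξ, h4⟩ := end_lem hD hb hX hY hne
  obtain ⟨N, hN, g1, g2, g3, η, hη, g4⟩ := end_lem hD hb hY hX (Ne.symm hne)
  refine ⟨M * N, by positivity, ?_, ?_, ξ, hξ, η, hη, ?_⟩
  · unfold hd
    rw [h1, g1]
    congr 2
    field_simp
  · intro a ha b hb'
    have p1 := h3 a ha
    have p2 := g3 b hb'
    have q1 := hX a ha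
    have q2 := hY b hb'
    have q3 := hY a ha
    have q4 := hX b hb'
    calc ph a X * ph b Y ≤ (M * ph a Y) * (N * ph b X) :=
          mul_le_mul p1 p2 q2.le (by positivity)
      _ = _ := by ring
  · rw [h4, g4]; ring

/-- the leading line -/
def LL (Ω : Set ℂ) : Set ℂ := Ω ∩ {y | y.re = 3 / 5}

lemma inf_ge {D : Set ℂ} (hD : IsCompact D) (hn : D.Nonempty) (hb : ∀ y ∈ Om D, ‖y‖ < 1) {X : ℂ}
    (hX : X ∈ Om D) (hL : (LL (Om D)).Nonempty) {η : ℂ} {l : ℝ} (hl : 0 < l) (hη : η ∈ D)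
    (hξ : (l : ℂ) * η ∈ D) :
    (1 / 2) * Real.log (l * ph η X / ph (l * η) X) ≤ sInf (hd (Om D) X '' LL (Om D)) := by
  apply le_csInf (hL.image _)
  rintro _ ⟨Y, ⟨hY, hYr⟩, rfl⟩
  obtain ⟨E, hE, h1, h2, -⟩ := hd_lem hD hn hb hX hY
  have h3 := h2 η hη _ hξ
  have h4 : ph (l * η) Y = l * ph η Y := by
    have : Y.re = 3 / 5 := hYr
    simp [ph, ip, this]; ring
  have q1 := hX η hη
  have q2 := hX _ hξ
  have q3 := hY η hη
  rw [h1]
  have : l * ph η X / ph (l * η) X ≤ E := by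
    rw [div_le_iff₀ q2]
    rw [h4] at h3
    have : (l * ph η X) * ph η Y ≤ (E * ph (l * η) X) * ph η Y := by linarith
    exact le_of_mul_le_mul_right this q3
  have := Real.log_le_log (by positivity) this
  linarith

lemma inf_le {D : Set ℂ} (hD : IsCompact D) (hn : D.Nonempty) (hb : ∀ y ∈ Om D, ‖y‖ < 1) {X Y : ℂ}
    (hX : X ∈ Om D) (hY : Y ∈ LL (Om D)) :
    sInf (hd (Om D) X '' LL (Om D)) ≤ hd (Om D) X Y := by
  refine csInf_le ?_ (mem_image_of_mem _ hY)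
  refine ⟨0, ?_⟩
  rintro _ ⟨Z, ⟨hZ, -⟩, rfl⟩
  obtain ⟨E, hE, h1, h2, -⟩ := hd_lem hD hn hb hX hZ
  obtain ⟨ξ, hξ⟩ := hn
  have h3 := h2 ξ hξ ξ hξ
  have q1 := hX ξ hξ
  have q2 := hZ ξ hξ
  have : 1 ≤ E := by
    by_contra h
    push Not at h
    nlinarith [mul_pos q1 q2]
  rw [h1]
  have := Real.log_nonneg this
  linarith

lemma cert {D : Set ℂ} (hD : IsCompact D) (hc : cc ∈ D) (hb : ∀ y ∈ Om D, ‖y‖ < 1) {X V : ℂ}
    (hX : X ∈ Om D) {m : ℝ} (hm : 0 < m) (hs : 0 < 1 - 5 / 3 * X.re)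
    (h1 : ∀ ξ ∈ D, ip ξ V ≤ -m) (h2 : ∀ ξ ∈ D, ip ξ (X - V) ≤ 1 - 5 / 3 * X.re + m) :
    sInf (hd (Om D) X '' LL (Om D)) ≤ (1 / 2) * Real.log (1 + (1 - 5 / 3 * X.re) / m) := by
  set s := 1 - 5 / 3 * X.re with hsd
  set Z : ℂ := (m : ℂ) * X + (s : ℂ) * V with hZ
  have key : ∀ ξ ∈ D, m * ph ξ X ≤ -ip ξ Z ∧ -ip ξ Z ≤ (s + m) * ph ξ X := by
    intro ξ hξ
    have a1 := h1 ξ hξ
    have a2 := h2 ξ hξ
    have e1 : ip ξ Z = m * ip ξ X + s * ip ξ V := by simp [hZ, ip]; ring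
    have e2 : ip ξ (X - V) = ip ξ X - ip ξ V := by simp [ip]; ring
    have e3 : ph ξ X = s - ip ξ X := rfl
    rw [e1, e3]
    rw [e2] at a2
    constructor <;> nlinarith
  have hN : 0 < -ip cc Z := by
    have := (key cc hc).1
    have := hX cc hc
    nlinarith
  set N := -ip cc Z with hNd
  have hNe : N = 5 / 3 * Z.re := by simp [hNd, ip]; ring
  set Y : ℂ := ((1 / N : ℝ) : ℂ) * Z with hY
  have hYr : Y.re = 3 / 5 := by
    have : Y.re = 1 / N * Z.re := by simp [hY]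
    rw [this]
    have hz : Z.re = 3 / 5 * N := by rw [hNe]; ring
    rw [hz]; field_simp
  have hph : ∀ ξ, ph ξ Y = -ip ξ Z / N := by
    intro ξ
    have : ip ξ Y = ip ξ Z / N := by
      simp only [hY, ip, Complex.mul_re, Complex.mul_im, Complex.ofReal_re, Complex.ofReal_im]
      ring
    rw [ph, hYr, this]; ring
  have hYO : Y ∈ Om D := by
    intro ξ hξ
    rw [hph]
    have := (key ξ hξ).1
    have := hX ξ hξ
    apply div_pos _ hN
    nlinarith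
  refine (inf_le hD ⟨cc, hc⟩ hb hX ⟨hYO, hYr⟩).trans ?_
  obtain ⟨E, hE, g1, -, ξ, hξ, η, hη, g3⟩ := hd_lem hD ⟨cc, hc⟩ hb hX hYO
  rw [g1]
  have : E ≤ 1 + s / m := by
    rw [hph, hph] at g3
    have a1 := (key ξ hξ).1
    have a2 := (key η hη).2
    have q1 := hX ξ hξ
    have q2 := hX η hη
    have g4 : ph ξ X * (-ip η Z) = E * (-ip ξ Z * ph η X) := by
      have hN' := hN.ne'
      field_simp at g3
      linarith
    have g5 : E * (m * ph ξ X * ph η X) ≤ ph ξ X * ((s + m) * ph η X) := by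
      calc E * (m * ph ξ X * ph η X) ≤ E * (-ip ξ Z * ph η X) := by gcongr
        _ = ph ξ X * (-ip η Z) := g4.symm
        _ ≤ _ := by gcongr
    have g6 : (E * m) * (ph ξ X * ph η X) ≤ (s + m) * (ph ξ X * ph η X) := by linarith
    have g7 := le_of_mul_le_mul_right g6 (mul_pos q1 q2)
    have : 1 + s / m = (s + m) / m := by field_simp; ring
    rw [this, le_div_iff₀ hm]
    exact g7
  have := Real.log_le_log hE this
  linarith

end Pool.Agent.H56.Hp
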