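import Pool.Agent.H56.Hp1

namespace Pool.Agent.H56.Hp

open Set Real Metric

lemma unit_sq {e : ℂ} (he : ‖e‖ = 1) : e.re ^ 2 + e.im ^ 2 = 1 := by
  have := ip_self e
  rw [he] at this
  simp only [ip] at this
  nlinarith

lemma mem_ball0 {e : ℂ} (he : ‖e‖ = 1) {a : ℝ} (ha : |a| ≤ 4 / 3) :
    cc + (a : ℂ) * e ∈ closedBall cc (4 / 3) := by
  rw [mem_closedBall, dist_eq_norm, add_sub_cancel_left, norm_mul, he, Complex.norm_real]
  simpa using ha

lemma ip_ball0 {e : ℂ} (he : ‖e‖ = 1) (a : ℝ) :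
    ip (cc + (a : ℂ) * e) e = -5 / 3 * e.re + a := by
  have := unit_sq he
  simp [ip]
  linear_combination a * this

lemma polar {X : ℂ} (hX : X ≠ 0) : ∃ (t : ℝ) (e : ℂ), 0 < t ∧ ‖e‖ = 1 ∧ X = (t : ℂ) * e ∧ ‖X‖ = t := by
  have hp : 0 < ‖X‖ := norm_pos_iff.2 hX
  refine ⟨‖X‖, X / (‖X‖ : ℂ), hp, ?_, ?_, rfl⟩
  · rw [norm_div, Complex.norm_real, norm_norm, div_self hp.ne']
  · have : (‖X‖ : ℂ) ≠ 0 := by exact_mod_cast hp.ne'
    field_simp

lemma ph_mul (ξ e : ℂ) (t : ℝ) : ph ξ ((t : ℂ) * e) = 1 - 5 / 3 * (t * e.re) - t * ip ξ e := by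
  simp [ph, ip]; ring

lemma ph_zero (ξ : ℂ) : ph ξ 0 = 1 := by simp [ph, ip]

lemma ip_smul_left (l : ℝ) (η e : ℂ) : ip ((l : ℂ) * η) e = l * ip η e := by simp [ip]; ring
lemma ip_smul_right (l : ℝ) (η e : ℂ) : ip η ((l : ℂ) * e) = l * ip η e := by simp [ip]; ring

lemma norm_lt {D : Set ℂ} (h0 : closedBall cc (4 / 3) ⊆ D) {y : ℂ} (hy : y ∈ Om D) :
    ‖y‖ < 3 / 4 := by
  by_cases h : y = 0
  · simp [h]
  obtain ⟨t, e, ht, he, rfl, hn⟩ := polar h
  have := hy _ (h0 (mem_ball0 he (a := 4 / 3) (by norm_num [abs_of_pos])))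
  rw [ph_mul, ip_ball0 he] at this
  rw [hn]; linarith

def H1 (D : Set ℂ) (e : ℂ) : Prop :=
  ∃ p ∈ D, ∃ μ : ℝ, 0 < μ ∧ ∃ V : ℂ, ∃ η ∈ D, ∃ l : ℝ, 1 < l ∧ (l : ℂ) * η ∈ D ∧
    (∀ ξ ∈ D, ip ξ e ≤ ip p e) ∧ (∀ ξ ∈ D, -ip ξ e ≤ 4 / 3 + 5 / 3 * e.re) ∧
    (∀ ξ ∈ D, ip ξ V ≤ -μ) ∧ (∀ ξ ∈ D, ip ξ (e - V) ≤ 1 + μ) ∧
    1 - ip (l * η) e = μ * (l - 1) ∧ 1 - ip p e = μ * (ip p e + 4 / 3 + 5 / 3 * e.re)

def H2 (D : Set ℂ) (e : ℂ) : Prop :=
  ∃ η ∈ D, ∃ l : ℝ, 1 < l ∧ (l : ℂ) * η ∈ D ∧ (∀ ξ ∈ D, ip ξ e ≤ ip (l * η) e) ∧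
    (∀ ξ ∈ D, ip (l * η) e - ip ξ e ≤ ip (l * η) e * (l - 1))

lemma log_lt {a b : ℝ} (ha : 0 < a) (h : a < b) : (1 / 2) * Real.log a < (1 / 2) * Real.log b := by
  have := Real.log_lt_log ha h
  linarith

lemma log_le {a b : ℝ} (ha : 0 < a) (h : a ≤ b) : (1 / 2) * Real.log a ≤ (1 / 2) * Real.log b := by
  have := Real.log_le_log ha h
  linarith

theorem crit {D : Set ℂ} (hD : IsCompact D) (h0 : closedBall cc (4 / 3) ⊆ D)
    (hL : (LL (Om D)).Nonempty)
    (hH1 : ∀ e : ℂ, ‖e‖ = 1 → 1 / 5 < e.re → H1 D e)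
    (hH2 : ∀ e : ℂ, ‖e‖ = 1 → e.re ≤ 1 / 5 → H2 D e) {X : ℂ} (hX : X ∈ Om D) :
    hd (Om D) 0 X = sInf (hd (Om D) X '' LL (Om D)) ↔
      X.re ^ 2 + X.im ^ 2 = (1 - 5 / 3 * X.re) ^ 2 := by
  have hc : cc ∈ D := h0 (mem_closedBall_self (by norm_num))
  have hn : D.Nonempty := ⟨cc, hc⟩
  have hb : ∀ y ∈ Om D, ‖y‖ < 1 := fun y hy => (norm_lt h0 hy).trans (by norm_num)
  have hO : (0 : ℂ) ∈ Om D := fun ξ _ => by rw [ph_zero]; norm_num
  obtain ⟨E, hE, g1, g2, ξ1, hξ1, η1, hη1, g3⟩ := hd_lem hD hn hb hO hX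
  simp only [ph_zero, one_mul, mul_one] at g2 g3
  by_cases hX0 : X = 0
  · subst hX0
    obtain ⟨η, hη, l, hl, hlη, -⟩ := hH2 (-1) (by simp) (by norm_num)
    have := inf_ge hD hn hb hO hL (by linarith : 0 < l) hη hlη
    rw [ph_zero, ph_zero, mul_one, div_one] at this
    have h2 := Real.log_pos hl
    have h3 : hd (Om D) 0 0 = 0 := by simp [hd, endp]
    rw [h3]
    constructor
    · intro h; linarith
    · intro h; norm_num at h
  obtain ⟨t, e, ht, he, rfl, hnorm⟩ := polar hX0
  have ht34 : t < 3 / 4 := hnorm ▸ norm_lt h0 hX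
  have hu := unit_sq he
  have hre : ((t : ℂ) * e).re = t * e.re := by simp
  have him : ((t : ℂ) * e).im = t * e.im := by simp
  have hre1 : e.re ≤ 1 := by nlinarith
  rw [hre, him]
  set s := 1 - 5 / 3 * (t * e.re) with hs
  have hQ : (t * e.re) ^ 2 + (t * e.im) ^ 2 = t ^ 2 := by linear_combination t ^ 2 * hu
  rw [hQ, g1]
  have hph : ∀ ξ, ph ξ ((t : ℂ) * e) = s - t * ip ξ e := fun ξ => ph_mul ξ e t
  have hq := h0 (mem_ball0 he (a := -(4 / 3)) (by norm_num [abs_of_pos]))
  have hq' := h0 (mem_ball0 he (a := 4 / 3) (by norm_num [abs_of_pos]))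
  have iq := ip_ball0 he (-(4 / 3))
  have iq' := ip_ball0 he (4 / 3)
  rcases le_or_gt s 0 with hs0 | hs0
  · -- beyond the leading line
    have hθ : 0 < 1 - s := by linarith
    set θ := 1 / (1 - s) with hθd
    have θ0 : 0 < θ := by positivity
    have θ1 : θ ≤ 1 := by rw [hθd, div_le_one hθ]; linarith
    have hθs : θ * (1 - s) = 1 := by rw [hθd]; field_simp
    set Y : ℂ := (θ : ℂ) * ((t : ℂ) * e) with hY
    have hphY : ∀ ξ, ph ξ Y = 1 - θ + θ * ph ξ ((t : ℂ) * e) := by
      intro ξ; simp [hY, ph, ip]; ring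
    have hYO : Y ∈ Om D := by
      intro ξ hξ
      rw [hphY]
      have := hX ξ hξ
      nlinarith [mul_pos θ0 this]
    have hYr : Y.re = 3 / 5 := by
      have : Y.re = θ * (t * e.re) := by simp [hY]
      rw [this]
      have : t * e.re = 3 / 5 * (1 - s) := by rw [hs]; ring
      rw [this]; linear_combination 3 / 5 * hθs
    have h1 := inf_le hD hn hb hX (Y := Y) ⟨hYO, hYr⟩
    obtain ⟨E', hE', f1, -, ξ, hξ, η, hη, f3⟩ := hd_lem hD hn hb hX hYO
    rw [hphY, hphY] at f3
    have hA := hX ξ hξ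
    have hB := hX η hη
    have k1 := g2 η hη ξ hξ
    have k2 := g2 _ hq' _ hq
    have k3 := hX _ hq'
    rw [hph, hph, iq, iq'] at k2
    rw [hph, iq'] at k3
    have hE1 : 1 < E := by
      by_contra hh
      push Not at hh
      nlinarith
    set A := ph ξ ((t : ℂ) * e)
    set B := ph η ((t : ℂ) * e)
    have pA : 0 < 1 - θ + θ * A := by nlinarith [mul_pos θ0 hA]
    have hlt : E' < E := by
      by_contra hh
      push Not at hh
      have m1 : E * ((1 - θ + θ * A) * B) ≤ A * (1 - θ + θ * B) := by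
        rw [f3]; gcongr
      rcases lt_or_ge B A with hBA | hBA
      · have m2 : A * (1 - θ + θ * A) ≤ E * B * (1 - θ + θ * A) := by gcongr
        have m3 : A * (θ * B) < A * (θ * A) := by gcongr
        nlinarith
      · have m2 : (1 - θ + θ * A) * B < E * ((1 - θ + θ * A) * B) := by
          have := mul_pos pA hB
          nlinarith
        have m3 : (1 - θ) * A ≤ (1 - θ) * B := by gcongr
        nlinarith
    have := log_lt hE' hlt
    constructor
    · intro h; linarith
    · intro h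
      exfalso
      have : t = -s := by
        have : (t - -s) * (t + -s) = 0 := by linear_combination h
        rcases mul_eq_zero.1 this with h' | h' <;> linarith
      nlinarith
  rcases lt_or_ge (1 / 5) e.re with he5 | he5
  · obtain ⟨p, hp, μ, hμ, V, η, hη, l, hl, hlη, a1, a2, a3, a4, a5, a6⟩ := hH1 e he he5
    set h := ip p e with hh
    set k := 4 / 3 + 5 / 3 * e.re with hk
    set x := ip (l * η) e with hx
    have hA : 0 < s - t * h := by have := hX p hp; rwa [hph] at this
    have hh0 := a1 _ hq'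
    rw [iq'] at hh0
    have hw : 0 < h + k := by linarith
    have a6' : 1 - h = μ * (h + k) := by rw [a6, hk]; ring
    have h1h : 0 < 1 - h := by rw [a6']; positivity
    have hEA : E * (s - t * h) = s + t * k := by
      apply le_antisymm
      · have b1 := a1 ξ1 hξ1
        have b2 := a2 η1 hη1
        rw [hph, hph] at g3
        have : E * (s - t * h) ≤ E * (s - t * ip ξ1 e) := by gcongr
        nlinarith
      · have := g2 p hp _ hq
        rw [hph, hph, iq] at this
        have e1 : s + t * k = s - t * (-5 / 3 * e.re + -(4 / 3)) := by rw [hk]; ring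
        rw [e1]; exact this
    have hEe : E = 1 + t * (h + k) / (s - t * h) := by
      field_simp; linarith
    have up : s ≤ t → sInf (hd (Om D) ((t : ℂ) * e) '' LL (Om D)) ≤
        (1 / 2) * Real.log (1 + s * (h + k) / (s - t * h)) := by
      intro hst
      set α := (s - t * h) / (1 - h) with hα
      have α0 : 0 < α := by positivity
      have α1 : α * (1 - h) = s - t * h := by rw [hα]; field_simp
      have α2 : α ≤ t := by rw [hα, div_le_iff₀ h1h]; linarith
      have := cert hD hc hb hX (V := (α : ℂ) * V) (m := α * μ) (by positivity)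
        (by rw [hre]; exact hs0)
        (fun ξ hξ => by rw [ip_smul_right]; have := a3 ξ hξ; nlinarith)
        (fun ξ hξ => by
          have b1 := a1 ξ hξ
          have b2 := a4 ξ hξ
          have e1 : ip ξ ((t : ℂ) * e - (α : ℂ) * V) = α * ip ξ (e - V) + (t - α) * ip ξ e := by
            simp [ip]; ring
          rw [e1, hre]
          have c1 : α * ip ξ (e - V) ≤ α * (1 + μ) := by gcongr
          have c2 : (t - α) * ip ξ e ≤ (t - α) * h := by gcongr
          nlinarith)
      rw [hre] at this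
      have e2 : s / (α * μ) = s * (h + k) / (s - t * h) := by
        rw [← α1, a6']; field_simp
      rw [← e2]; exact this
    have hxh : x ≤ h := a1 _ hlη
    have hC : 0 < s - t * x := by have := hX _ hlη; rwa [hph] at this
    have lo := inf_ge hD hn hb hX hL (by linarith : 0 < l) hη hlη
    have e3 : l * ph η ((t : ℂ) * e) / ph (l * η) ((t : ℂ) * e) = 1 + (l - 1) * s / (s - t * x) := by
      rw [hph, hph, ← hx]
      have : x = l * ip η e := ip_smul_left l η e
      field_simp
      rw [this]; ring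
    rw [e3] at lo
    have w1 : (h + k) * (1 - x) = (l - 1) * (1 - h) := by rw [a5, a6']; ring
    have w2 : (h + k) * x ≤ (l - 1) * h := by
      have : (1 - h) * ((l - 1) * h - (h + k) * x) = (h + k) * (h - x) := by
        linear_combination (-h) * w1
      have h3 : 0 ≤ (1 - h) * ((l - 1) * h - (h + k) * x) := by
        rw [this]; exact mul_nonneg hw.le (by linarith)
      have := nonneg_of_mul_nonneg_right h3 h1h
      linarith
    have w3 : 0 < (l - 1) * s - (h + k) * x * t := by
      have c1 : (h + k) * x * t ≤ (l - 1) * h * t := by gcongr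
      have c2 : 0 < (l - 1) * (s - t * h) := mul_pos (by linarith) hA
      nlinarith
    have w4 : (l - 1) * s * (s - t * h) - t * (h + k) * (s - t * x) =
        (s - t) * ((l - 1) * s - (h + k) * x * t) := by
      linear_combination (-(s * t)) * w1
    rcases lt_trichotomy s t with hst | hst | hst
    · have u1 := up hst.le
      have : 1 + s * (h + k) / (s - t * h) < E := by rw [hEe]; gcongr
      have := log_lt (by positivity) this
      constructor
      · intro h; linarith
      · intro h; nlinarith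
    · have u1 := up hst.le
      have e4 : (l - 1) * s / (s - t * x) = t * (h + k) / (s - t * h) := by
        rw [div_eq_div_iff hC.ne' hA.ne']
        rw [hst, sub_self, zero_mul] at w4
        rw [hst]; linarith
      rw [e4, ← hEe] at lo
      have e5 : s * (h + k) = t * (h + k) := by rw [hst]
      rw [e5, ← hEe] at u1
      constructor
      · intro _; rw [hst]
      · intro _; linarith
    · have : E < 1 + (l - 1) * s / (s - t * x) := by
        rw [hEe]
        have : t * (h + k) / (s - t * h) < (l - 1) * s / (s - t * x) := by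
          rw [div_lt_div_iff₀ hA hC]
          have := mul_pos (sub_pos.2 hst) w3
          linarith
        linarith
      have := log_lt hE this
      constructor
      · intro h; linarith
      · intro h; nlinarith
  · obtain ⟨η, hη, l, hl, hlη, a1, a2⟩ := hH2 e he he5
    set h := ip (l * η) e with hh
    have hA : 0 < s - t * h := by have := hX _ hlη; rwa [hph] at this
    have hh0 := a1 _ hq'
    rw [iq'] at hh0
    have hh1 : 1 ≤ h := by linarith
    have hst : t < s := by nlinarith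
    have lo := inf_ge hD hn hb hX hL (by linarith : 0 < l) hη hlη
    have e3 : l * ph η ((t : ℂ) * e) / ph (l * η) ((t : ℂ) * e) = 1 + (l - 1) * s / (s - t * h) := by
      rw [hph, hph, ← hh]
      have : h = l * ip η e := ip_smul_left l η e
      field_simp
      rw [this]; ring
    rw [e3] at lo
    have : E < 1 + (l - 1) * s / (s - t * h) := by
      have b1 := a1 ξ1 hξ1
      have b2 := a2 η1 hη1
      rw [hph, hph] at g3
      have c1 : E * (s - t * h) ≤ E * (s - t * ip ξ1 e) := by gcongr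
      have c2 : t * (h - ip η1 e) ≤ t * (h * (l - 1)) := by gcongr
      have c3 : 0 < (l - 1) * (s - t * h) := mul_pos (by linarith) hA
      have c4 : E * (s - t * h) < (s - t * h) + (l - 1) * s := by nlinarith
      have : 1 + (l - 1) * s / (s - t * h) = ((s - t * h) + (l - 1) * s) / (s - t * h) := by
        field_simp
      rw [this, lt_div_iff₀ hA]; exact c4
    have := log_lt hE this
    constructor
    · intro h; linarith
    · intro h; nlinarith

end Pool.Agent.H56.Hp
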