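import Pool.Agent.H56.Hp2

namespace Pool.Agent.H56.Hp

open Set Real Metric Filter Topology

noncomputable def es : ℂ := ⟨5 / 13, 12 / 13⟩
noncomputable def xs : ℂ := ⟨-5 / 3, 4 / 3⟩

noncomputable def v1 (ξ : ℂ) (l : ℝ) : ℝ := ξ.re / l + 5 / 3
noncomputable def v2 (ξ : ℂ) (l : ℝ) : ℝ := ξ.im / l
noncomputable def dl (ξ : ℂ) (l : ℝ) (u : ℂ) : ℝ := u.re * v2 ξ l - u.im * v1 ξ l
noncomputable def aa (ξ : ℂ) (l : ℝ) (u e : ℂ) : ℝ := (e.re * v2 ξ l - e.im * v1 ξ l) / dl ξ l u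
noncomputable def bb (ξ : ℂ) (l : ℝ) (u e : ℂ) : ℝ := (u.re * e.im - u.im * e.re) / dl ξ l u
noncomputable def hv (ξ : ℂ) (l : ℝ) : ℝ := -5 / 3 * ξ.re / l - 1
noncomputable def x2 (ξ e : ℂ) : ℝ := -ξ.re * e.im + ξ.im * e.re
noncomputable def p1 (ξ : ℂ) (l : ℝ) (e : ℂ) : ℝ :=
  (7 / 3 + 5 / 3 * e.re) * (l - 1) / (l - ip ξ e) - 19 / 12
noncomputable def p2 (ξ : ℂ) (l : ℝ) (e : ℂ) : ℝ :=
  (-(5 / 3 * e.im) * (l - 1) + x2 ξ e * (19 / 12 + p1 ξ l e)) / (l - ip ξ e)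
noncomputable def zz (ξ : ℂ) (l : ℝ) (e : ℂ) : ℂ :=
  cc + e * ((p1 ξ l e : ℂ) + (p2 ξ l e : ℂ) * Complex.I)
noncomputable def gg (ξ : ℂ) (l : ℝ) (e e' : ℂ) : ℝ :=
  7 / 3 * (l - 1) - l * (19 / 12) + x2 ξ e * p2 ξ l e
    - (ip ξ e * p1 ξ l e - x2 ξ e * p2 ξ l e) * ip e e'
    - (ip ξ e * p2 ξ l e + x2 ξ e * p1 ξ l e) * x2 e' e
noncomputable def lam (ξ : ℂ) : ℝ :=
  -5 / 3 * ξ.re + √((5 / 3 * ξ.re) ^ 2 - (ξ.re ^ 2 + ξ.im ^ 2))

lemma lam_cont : Continuous lam := by unfold lam; fun_prop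

lemma lam_xs : lam xs = 41 / 9 := by
  have : (5 / 3 * xs.re) ^ 2 - (xs.re ^ 2 + xs.im ^ 2) = (16 / 9) ^ 2 := by
    simp [xs]; norm_num
  rw [lam, this, Real.sqrt_sq (by norm_num)]
  simp [xs]; norm_num

lemma disc_ineq {ξ e e' : ℂ} {l : ℝ} (he : ‖e‖ = 1) (he' : ‖e'‖ = 1) (h1 : l - ip ξ e ≠ 0) :
    (7 / 3 + 5 / 3 * e'.re) * (l - 1) -
      (l - ip ξ e') * (ip (zz ξ l e) e' + 1 / 4 + (4 / 3 + 5 / 3 * e'.re)) =
      (1 - ip e e') * gg ξ l e e' := by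
  have hu := unit_sq he
  have hu' := unit_sq he'
  have q1 : (19 / 12 + p1 ξ l e) * (l - ip ξ e) = (7 / 3 + 5 / 3 * e.re) * (l - 1) := by
    unfold p1; field_simp; ring
  have q2 : p2 ξ l e * (l - ip ξ e) =
      -(5 / 3 * e.im) * (l - 1) + x2 ξ e * (19 / 12 + p1 ξ l e) := by
    unfold p2; field_simp
  set x := ip e e' with hx
  set y := x2 e' e with hy
  have hx' : x = e.re * e'.re + e.im * e'.im := rfl
  have hy' : y = -e'.re * e.im + e'.im * e.re := rfl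
  have hxy : x ^ 2 + y ^ 2 = 1 := by
    rw [hx', hy']; linear_combination (e'.re ^ 2 + e'.im ^ 2) * hu + hu'
  have r1 : e'.re = e.re * x - e.im * y := by
    rw [hx', hy']; linear_combination (-e'.re) * hu
  have r2 : ip ξ e' = ip ξ e * x + x2 ξ e * y := by
    rw [hx', hy']; simp only [ip, x2]
    linear_combination (-(ξ.re * e'.re + ξ.im * e'.im)) * hu
  have r3 : ip (zz ξ l e) e' = -5 / 3 * e'.re + p1 ξ l e * x + p2 ξ l e * y := by
    rw [hx', hy']; simp [ip, zz]; ring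
  have r4 : gg ξ l e e' = 7 / 3 * (l - 1) - l * (19 / 12) + x2 ξ e * p2 ξ l e
    - (ip ξ e * p1 ξ l e - x2 ξ e * p2 ξ l e) * x
    - (ip ξ e * p2 ξ l e + x2 ξ e * p1 ξ l e) * y := rfl
  rw [r4, r3, r2]
  generalize p1 ξ l e = P1 at *
  generalize p2 ξ l e = P2 at *
  generalize ip ξ e = A at *
  generalize x2 ξ e = B at *
  linear_combination (5 / 3 * (l - 1)) * r1 - x * q1 - y * q2 + (B * P2) * hxy

structure Near (ξ : ℂ) (l : ℝ) (u e e' : ℂ) : Prop where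
  n1 : 1 < l
  n2 : dl ξ l u < 0
  n3 : 0 < aa ξ l u e
  n4 : 0 < bb ξ l u e
  n5 : hv ξ l < 0
  n6 : v2 ξ l < 1
  n7 : 0 < l - ip ξ e'
  n8 : 0 < gg ξ l e e'
  n9 : 0 < (5 / 3 * ξ.re) ^ 2 - (ξ.re ^ 2 + ξ.im ^ 2)
  n10 : 1 < -5 / 3 * ξ.re
  n11 : u.re < 1 / 5

abbrev PT := ℂ × ℝ × ℂ × ℂ × ℂ
noncomputable def base : PT := (xs, 41 / 9, Complex.I, es, es)

lemma b_dl : dl xs (41 / 9) Complex.I = -160 / 123 := by
  simp [dl, v1, v2, xs]; norm_num
lemma b_ip : ip xs es = 23 / 39 := by simp [ip, xs, es]; norm_num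
lemma b_p1 : p1 xs (41 / 9) es = 13 / 12 := by rw [p1, b_ip]; simp [es]; norm_num
lemma b_x2 : x2 xs es = 80 / 39 := by simp [x2, xs, es]; norm_num
lemma b_p2 : p2 xs (41 / 9) es = 0 := by rw [p2, b_ip, b_p1, b_x2]; simp [es]; norm_num

lemma c_ip {X : Type*} [TopologicalSpace X] {f g : X → ℂ} {x : X} (hf : ContinuousAt f x)
    (hg : ContinuousAt g x) : ContinuousAt (fun y => ip (f y) (g y)) x := by
  unfold ip; fun_prop
lemma c_v1 : ContinuousAt (fun q : PT => v1 q.1 q.2.1) base := by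
  unfold v1; fun_prop (disch := norm_num [base])
lemma c_v2 : ContinuousAt (fun q : PT => v2 q.1 q.2.1) base := by
  unfold v2; fun_prop (disch := norm_num [base])
lemma c_dl : ContinuousAt (fun q : PT => dl q.1 q.2.1 q.2.2.1) base := by
  have := c_v1; have := c_v2
  unfold dl; fun_prop
lemma c_aa : ContinuousAt (fun q : PT => aa q.1 q.2.1 q.2.2.1 q.2.2.2.1) base := by
  have := c_v1; have := c_v2
  unfold aa
  refine ContinuousAt.div (by fun_prop) c_dl ?_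
  simp only [base]; rw [b_dl]; norm_num
lemma c_bb : ContinuousAt (fun q : PT => bb q.1 q.2.1 q.2.2.1 q.2.2.2.1) base := by
  unfold bb
  refine ContinuousAt.div (by fun_prop) c_dl ?_
  simp only [base]; rw [b_dl]; norm_num
lemma c_hv : ContinuousAt (fun q : PT => hv q.1 q.2.1) base := by
  unfold hv; fun_prop (disch := norm_num [base])
lemma c_x2 : ContinuousAt (fun q : PT => x2 q.1 q.2.2.2.1) base := by
  unfold x2; fun_prop
lemma c_i1 : ContinuousAt (fun q : PT => ip q.1 q.2.2.2.1) base := by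
  unfold ip; fun_prop
lemma c_p1 : ContinuousAt (fun q : PT => p1 q.1 q.2.1 q.2.2.2.1) base := by
  have := c_i1
  unfold p1
  refine ContinuousAt.sub (ContinuousAt.div (by fun_prop) (by fun_prop) ?_) (by fun_prop)
  simp only [base]; rw [b_ip]; norm_num
lemma c_p2 : ContinuousAt (fun q : PT => p2 q.1 q.2.1 q.2.2.2.1) base := by
  have := c_i1; have := c_p1; have := c_x2
  unfold p2
  refine ContinuousAt.div (by fun_prop) (by fun_prop) ?_
  simp only [base]; rw [b_ip]; norm_num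
lemma c_zz : ContinuousAt (fun q : PT => zz q.1 q.2.1 q.2.2.2.1) base := by
  have := c_p1; have := c_p2
  unfold zz; fun_prop
lemma c_gg : ContinuousAt (fun q : PT => gg q.1 q.2.1 q.2.2.2.1 q.2.2.2.2) base := by
  have := c_p1; have := c_p2; have := c_x2; have := c_i1
  have : ContinuousAt (fun q : PT => ip q.2.2.2.1 q.2.2.2.2) base := by unfold ip; fun_prop
  have : ContinuousAt (fun q : PT => x2 q.2.2.2.2 q.2.2.2.1) base := by unfold x2; fun_prop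
  unfold gg; fun_prop

lemma near_ev : ∀ᶠ q : PT in 𝓝 base, Near q.1 q.2.1 q.2.2.1 q.2.2.2.1 q.2.2.2.2 := by
  have h1 : ∀ᶠ q : PT in 𝓝 base, 1 < q.2.1 :=
    (by fun_prop : ContinuousAt (fun q : PT => q.2.1) base).eventually
      (lt_mem_nhds (by norm_num [base]))
  have h2 := c_dl.eventually (gt_mem_nhds (a := 0) (by simp only [base]; rw [b_dl]; norm_num))
  have h3 := c_aa.eventually (lt_mem_nhds (a := 0) (by
    simp only [base, aa]; rw [b_dl]; simp [v1, v2, xs, es]; norm_num))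
  have h4 := c_bb.eventually (lt_mem_nhds (a := 0) (by
    simp only [base, bb]; rw [b_dl]; simp [es]; norm_num))
  have h5 := c_hv.eventually (gt_mem_nhds (a := 0) (by simp [base, hv, xs]; norm_num))
  have h6 := c_v2.eventually (gt_mem_nhds (a := 1) (by simp [base, v2, xs]; norm_num))
  have h7 := (by unfold ip; fun_prop :
    ContinuousAt (fun q : PT => q.2.1 - ip q.1 q.2.2.2.2) base).eventually
      (lt_mem_nhds (a := 0) (by simp only [base]; rw [b_ip]; norm_num))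
  have h8 := c_gg.eventually (lt_mem_nhds (a := 0) (by
    simp only [base, gg]; rw [b_ip, b_p1, b_p2, b_x2]; simp [ip, x2, es]; norm_num))
  have h9 := (by fun_prop : ContinuousAt (fun q : PT =>
    (5 / 3 * q.1.re) ^ 2 - (q.1.re ^ 2 + q.1.im ^ 2)) base).eventually
      (lt_mem_nhds (a := 0) (by simp [base, xs]; norm_num))
  have h10 := (by fun_prop : ContinuousAt (fun q : PT => -5 / 3 * q.1.re) base).eventually
      (lt_mem_nhds (a := 1) (by simp [base, xs]; norm_num))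
  have h11 := (by fun_prop : ContinuousAt (fun q : PT => q.2.2.1.re) base).eventually
      (gt_mem_nhds (a := 1 / 5) (by simp [base]))
  filter_upwards [h1, h2, h3, h4, h5, h6, h7, h8, h9, h10, h11] with q a1 a2 a3 a4 a5 a6 a7 a8 a9
    a10 a11
  exact ⟨a1, a2, a3, a4, a5, a6, a7, a8, a9, a10, a11⟩

lemma ev_ball {P : PT → Prop} (h : ∀ᶠ q : PT in 𝓝 base, P q) :
    ∃ τ > 0, ∀ ξ u e e' : ℂ, ‖ξ - xs‖ < τ → ‖u - Complex.I‖ < τ → ‖e - es‖ < τ → ‖e' - es‖ < τ →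
      P (ξ, lam ξ, u, e, e') := by
  have hc : ContinuousAt (fun w : ℂ × ℂ × ℂ × ℂ => ((w.1, lam w.1, w.2.1, w.2.2.1, w.2.2.2) : PT))
      (xs, Complex.I, es, es) := by
    have := lam_cont
    fun_prop
  have hb : ((xs, lam xs, Complex.I, es, es) : PT) = base := by rw [lam_xs]; rfl
  have := hc.tendsto
  simp only [hb] at this
  obtain ⟨τ, hτ, h2⟩ := Metric.eventually_nhds_iff.1 (this.eventually h)
  refine ⟨τ, hτ, fun ξ u e e' a1 a2 a3 a4 => ?_⟩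
  apply @h2 (ξ, u, e, e')
  rw [Prod.dist_eq, Prod.dist_eq, Prod.dist_eq]
  simp only [dist_eq_norm, max_lt_iff]
  exact ⟨a1, a2, a3, a4⟩

lemma near_ex : ∃ τ > 0, τ ≤ 1 / 10 ∧ (∀ ξ u e e' : ℂ, ‖ξ - xs‖ < τ → ‖u - Complex.I‖ < τ →
      ‖e - es‖ < τ → ‖e' - es‖ < τ → Near ξ (lam ξ) u e e') ∧
    ∃ σ > 0, σ ≤ τ ∧ ∀ ξ e : ℂ, ‖ξ - xs‖ < σ → ‖e - es‖ < σ →
      ‖zz ξ (lam ξ) e - (cc + ((13 / 12 : ℝ) : ℂ) * es)‖ < τ ^ 2 / 2 := by
  obtain ⟨τ, hτ, h⟩ := ev_ball near_ev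
  set τ' := min τ (1 / 10) with hτ'
  have t0 : 0 < τ' := lt_min hτ (by norm_num)
  have t1 : τ' ≤ τ := min_le_left _ _
  refine ⟨τ', t0, min_le_right _ _, fun ξ u e e' a1 a2 a3 a4 =>
    h ξ u e e' (by linarith) (by linarith) (by linarith) (by linarith), ?_⟩
  have hz : zz xs (41 / 9) es = cc + ((13 / 12 : ℝ) : ℂ) * es := by
    rw [zz, b_p1, b_p2]; simp; ring
  have h2 : ∀ᶠ q : PT in 𝓝 base,
      ‖zz q.1 q.2.1 q.2.2.2.1 - (cc + ((13 / 12 : ℝ) : ℂ) * es)‖ < τ' ^ 2 / 2 := by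
    have hc : ContinuousAt (fun q : PT =>
      ‖zz q.1 q.2.1 q.2.2.2.1 - (cc + ((13 / 12 : ℝ) : ℂ) * es)‖) base := by
      have := c_zz
      fun_prop
    refine hc.eventually (gt_mem_nhds ?_)
    simp only [base]
    rw [hz, sub_self, norm_zero]; positivity
  obtain ⟨σ, hσ, h3⟩ := ev_ball h2
  refine ⟨min σ τ', lt_min hσ t0, min_le_right _ _, fun ξ e a1 a2 => ?_⟩
  have := min_le_left σ τ'
  exact h3 ξ Complex.I e e (by linarith) (by simpa using hσ) (by linarith) (by linarith)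

end Pool.Agent.H56.Hp
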