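import Pool.Agent.H56.Hp3

namespace Pool.Agent.H56.Hp

open Set Real Metric Filter Topology

noncomputable def h0 (d : ℂ) : ℝ := 4 / 3 - 5 / 3 * d.re

def Dk (Z : Set ℂ) : Set ℂ := {ζ | ∃ z ∈ Z, ‖ζ - z‖ ≤ 1 / 4}

noncomputable def Z1 (b : ℝ) : Set ℂ :=
  (fun q : ℝ × ℂ => cc + ((q.1 * b : ℝ) : ℂ) * Complex.I + ((13 / 12 - q.1 : ℝ) : ℂ) * q.2) ''
    (Icc 0 1 ×ˢ closedBall 0 1)

lemma Z1_cpt (b : ℝ) : IsCompact (Z1 b) :=
  (isCompact_Icc.prod (isCompact_closedBall _ _)).image (by fun_prop)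

lemma Dk_cpt {Z : Set ℂ} (hZ : IsCompact Z) : IsCompact (Dk Z) := by
  have : Dk Z = (fun q : ℂ × ℂ => q.1 + q.2) '' (Z ×ˢ closedBall 0 (1 / 4)) := by
    ext ζ
    constructor
    · rintro ⟨z, hz, h⟩
      exact ⟨(z, ζ - z), ⟨hz, by simpa using h⟩, by simp⟩
    · rintro ⟨⟨z, w⟩, ⟨hz, hw⟩, rfl⟩
      exact ⟨z, hz, by simpa using hw⟩
  rw [this]
  exact (hZ.prod (isCompact_closedBall _ _)).image (by fun_prop)

lemma Dk_mono {Z Z' : Set ℂ} (h : Z ⊆ Z') : Dk Z ⊆ Dk Z' :=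
  fun _ ⟨z, hz, h'⟩ => ⟨z, h hz, h'⟩

lemma ip_disc {ζ z d : ℂ} {R : ℝ} (h : ‖ζ - z‖ ≤ R) (hd : ‖d‖ = 1) : ip ζ d ≤ ip z d + R := by
  have := ip_le (ζ - z) d
  rw [hd] at this
  have e : ip (ζ - z) d = ip ζ d - ip z d := by simp [ip]; ring
  linarith

lemma mem_D1 (b : ℝ) {t : ℝ} (ht : t ∈ Icc (0 : ℝ) 1) {w : ℂ} (hw : ‖w‖ ≤ 1) :
    cc + ((t * b : ℝ) : ℂ) * Complex.I + ((4 / 3 - t : ℝ) : ℂ) * w ∈ Dk (Z1 b) := by
  refine ⟨_, ⟨(t, w), ⟨ht, by simpa using hw⟩, rfl⟩, ?_⟩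
  have : cc + ((t * b : ℝ) : ℂ) * Complex.I + ((4 / 3 - t : ℝ) : ℂ) * w -
      (cc + ((t * b : ℝ) : ℂ) * Complex.I + ((13 / 12 - t : ℝ) : ℂ) * w) = ((1 / 4 : ℝ) : ℂ) * w := by
    push_cast; ring
  simp only
  rw [this, norm_mul, Complex.norm_real, Real.norm_eq_abs, abs_of_pos (by norm_num)]
  linarith

lemma D0_sub (b : ℝ) : closedBall cc (4 / 3) ⊆ Dk (Z1 b) := by
  intro ζ hζ
  rw [mem_closedBall, dist_eq_norm] at hζ
  have := mem_D1 b (t := 0) ⟨le_rfl, zero_le_one⟩ (w := ((3 / 4 : ℝ) : ℂ) * (ζ - cc)) (by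
    rw [norm_mul, Complex.norm_real, Real.norm_eq_abs, abs_of_pos (by norm_num)]; linarith)
  have e : cc + ((0 * b : ℝ) : ℂ) * Complex.I + ((4 / 3 - 0 : ℝ) : ℂ) * (((3 / 4 : ℝ) : ℂ) * (ζ - cc))
      = ζ := by push_cast; ring
  rwa [e] at this

lemma sup1 {b : ℝ} {ζ d : ℂ} (hζ : ζ ∈ Dk (Z1 b)) (hd : ‖d‖ = 1) :
    ∃ t ∈ Icc (0 : ℝ) 1, ip ζ d ≤ h0 d + t * (b * d.im - 1) := by
  obtain ⟨_, ⟨⟨t, w⟩, ⟨ht, hw⟩, rfl⟩, h⟩ := hζ
  refine ⟨t, ht, ?_⟩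
  have h1 := ip_disc h hd
  have h2 := ip_le w d
  rw [hd] at h2
  have hw' : ‖w‖ ≤ 1 := by simpa using hw
  have e : ip (cc + ((t * b : ℝ) : ℂ) * Complex.I + ((13 / 12 - t : ℝ) : ℂ) * w) d =
      -5 / 3 * d.re + t * b * d.im + (13 / 12 - t) * ip w d := by simp [ip]; ring
  simp only at h1 ht
  rw [e] at h1
  have : (13 / 12 - t) * ip w d ≤ (13 / 12 - t) * 1 := by
    have := ht.2
    gcongr
    · linarith
    · linarith
  unfold h0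
  linarith

lemma sup0 {ζ d : ℂ} (hζ : ζ ∈ closedBall cc (4 / 3)) (hd : ‖d‖ = 1) : ip ζ d ≤ h0 d := by
  rw [mem_closedBall, dist_eq_norm] at hζ
  have := ip_disc hζ hd
  have e : ip cc d = -5 / 3 * d.re := by simp [ip]
  unfold h0; linarith

def Sol (b : ℝ) (e : ℂ) (μ : ℝ) (ξ : ℂ) (l : ℝ) : Prop :=
  0 < μ ∧ 1 < l ∧ ξ ∈ Dk (Z1 b) ∧ ((1 / l : ℝ) : ℂ) * ξ ∈ closedBall cc (4 / 3) ∧
  1 - ip ξ e = μ * (l - 1) ∧ ∃ a c : ℝ, ∃ u d : ℂ, 0 < a ∧ 0 < c ∧ ‖u‖ = 1 ∧ ‖d‖ = 1 ∧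
    e = a * u + c * d ∧ u.re < 1 / 5 ∧ c * h0 d = -μ ∧ ∀ ζ ∈ Dk (Z1 b), a * ip ζ u ≤ 1 + μ

lemma weak {b μ l l' : ℝ} {e ξ ξ' : ℂ} (h : Sol b e μ ξ l) (hl : 0 < l') (h1 : ξ' ∈ Dk (Z1 b))
    (h2 : ((1 / l' : ℝ) : ℂ) * ξ' ∈ closedBall cc (4 / 3)) : μ * (l' - 1) ≤ 1 - ip ξ' e := by
  obtain ⟨-, -, -, -, -, a, c, u, d, ha, hc, hu, hd, rfl, -, k1, k2⟩ := h
  have s1 := sup0 h2 hd
  rw [ip_smul_left] at s1
  have s2 := k2 _ h1
  have e : ip ξ' (a * u + c * d) = a * ip ξ' u + c * ip ξ' d := by simp [ip]; ring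
  have s3 : ip ξ' d ≤ l' * h0 d := by
    have : l' * (1 / l' * ip ξ' d) ≤ l' * h0 d := by gcongr
    have e2 : l' * (1 / l' * ip ξ' d) = ip ξ' d := by field_simp
    linarith
  have s4 : c * ip ξ' d ≤ c * (l' * h0 d) := by gcongr
  rw [e]
  nlinarith

lemma norm_one {u : ℂ} (h : u.re ^ 2 + u.im ^ 2 = 1) : ‖u‖ = 1 := by
  have := ip_self u
  simp only [ip] at this
  have h2 : ‖u‖ ^ 2 = 1 := by nlinarith
  nlinarith [norm_nonneg u]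

lemma sol_of {b l a β : ℝ} {e ξ u : ℂ} (hu : ‖u‖ = 1) (hξ : ξ ∈ Dk (Z1 b))
    (hmax : ∀ ζ ∈ Dk (Z1 b), ip ζ u ≤ ip ξ u) (hl : 1 < l)
    (hq : l ^ 2 + 10 / 3 * l * ξ.re + (ξ.re ^ 2 + ξ.im ^ 2) = 0) (hu5 : u.re < 1 / 5)
    (ha : 0 < a) (hβ : 0 < β) (e1 : e.re = a * u.re + β * v1 ξ l)
    (e2 : e.im = a * u.im + β * v2 ξ l) (hh : hv ξ l < 0) (hF : a * ip ξ u + β * hv ξ l = 1) :
    Sol b e (-(β * hv ξ l)) ξ l := by
  have l0 : l ≠ 0 := by linarith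
  have hv2 : v1 ξ l ^ 2 + v2 ξ l ^ 2 = (4 / 3) ^ 2 := by
    unfold v1 v2; field_simp; linear_combination 9 * hq
  set d : ℂ := ⟨3 / 4 * v1 ξ l, 3 / 4 * v2 ξ l⟩ with hd
  have hd1 : ‖d‖ = 1 := norm_one (by simp only [hd]; linear_combination (9 / 16) * hv2)
  refine ⟨by nlinarith, hl, hξ, ?_, ?_, a, 4 / 3 * β, u, d, ha, by positivity, hu, hd1, ?_, hu5,
    ?_, ?_⟩
  · have : ((1 / l : ℝ) : ℂ) * ξ = cc + ((4 / 3 : ℝ) : ℂ) * d := by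
      apply Complex.ext
      · simp only [Complex.mul_re, Complex.ofReal_re, Complex.ofReal_im, Complex.add_re, cc_re, hd,
          v1]; ring
      · simp only [Complex.mul_im, Complex.ofReal_re, Complex.ofReal_im, Complex.add_im, cc_im, hd,
          v2]; ring
    rw [this]
    exact mem_ball0 hd1 (by norm_num [abs_of_pos])
  · have k : ξ.re * v1 ξ l + ξ.im * v2 ξ l = l * hv ξ l := by
      unfold v1 v2 hv; field_simp; linear_combination 3 * hq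
    simp only [ip] at hF ⊢
    rw [e1, e2]
    linear_combination (-1) * hF - β * k
  · apply Complex.ext
    · simp only [Complex.mul_re, Complex.ofReal_re, Complex.ofReal_im, Complex.add_re, hd, e1]; ring
    · simp only [Complex.mul_im, Complex.ofReal_re, Complex.ofReal_im, Complex.add_im, hd, e2]; ring
  · simp only [h0, hd, v1, hv]; ring
  · intro ζ hζ
    have := hmax ζ hζ
    have : a * ip ζ u ≤ a * ip ξ u := by gcongr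
    linarith

lemma unp {e : ℂ} (he : ‖e‖ = 1) (h5 : 1 / 5 < e.re) :
    ∃ (ξ : ℂ) (l : ℝ), ξ ∈ closedBall cc (4 / 3) ∧
      ∀ b : ℝ, 12 * b * e.im ≤ 13 - 5 * e.re → Sol b e ((5 * e.re - 1) / 8) ξ l := by
  have hu := unit_sq he
  have h1 : e.re ≤ 1 := by nlinarith
  have n0 : 0 < 13 - 5 * e.re := by linarith
  have n1 : 0 < 3 + 5 * e.re := by linarith
  have n2 : 0 < 37 + 35 * e.re := by linarith
  have n0' := n0.ne'
  have n1' := n1.ne'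
  have n2' := n2.ne'
  have m0 : 13 - e.re * 5 ≠ 0 := by linarith
  have m1 : 3 + e.re * 5 ≠ 0 := by linarith
  have m2 : 37 + e.re * 35 ≠ 0 := by linarith
  set u : ℂ := ⟨(5 - 13 * e.re) / (13 - 5 * e.re), 12 * e.im / (13 - 5 * e.re)⟩ with hud
  have hu1 : ‖u‖ = 1 := norm_one (by
    simp only [hud]; field_simp; linear_combination 144 * hu)
  set ξ := cc + ((4 / 3 : ℝ) : ℂ) * u with hξ
  have ξ1 : ξ.re = -5 / 3 + 4 / 3 * ((5 - 13 * e.re) / (13 - 5 * e.re)) := by simp [hξ, hud]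
  have ξ2 : ξ.im = 4 / 3 * (12 * e.im / (13 - 5 * e.re)) := by simp [hξ, hud]
  have hm : ξ ∈ closedBall cc (4 / 3) := mem_ball0 hu1 (by norm_num [abs_of_pos])
  set l := (37 + 35 * e.re) / (13 - 5 * e.re) with hl
  refine ⟨ξ, l, hm, fun b hb => ?_⟩
  have hip : ip ξ u = h0 u := by rw [hξ, ip_ball0 hu1, h0]; ring
  have hhv : hv ξ l = -(4 * (3 + 5 * e.re)) / (37 + 35 * e.re) := by
    rw [hv, ξ1, hl]; field_simp; ring
  have key := sol_of (b := b) (l := l) (e := e) (ξ := ξ) (u := u)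
    (a := (5 * e.re + 7) * (13 - 5 * e.re) / (24 * (3 + 5 * e.re)))
    (β := (5 * e.re - 1) * (37 + 35 * e.re) / (32 * (3 + 5 * e.re))) hu1 (D0_sub b hm)
    (fun ζ hζ => by
      obtain ⟨t, ht, h⟩ := sup1 hζ hu1
      have : b * u.im ≤ 1 := by
        simp only [hud]
        rw [← mul_div_assoc, div_le_one n0]; linarith
      rw [hip]
      nlinarith [ht.1])
    (by rw [hl, one_lt_div n0]; linarith)
    (by
      have k1 : l = 41 / 9 - 40 / 9 * u.re := by simp only [hl, hud]; field_simp; ring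
      have k2 : ξ.re = -5 / 3 + 4 / 3 * u.re := ξ1
      have k3 : ξ.im = 4 / 3 * u.im := ξ2
      rw [k1, k2, k3]
      linear_combination (16 / 9) * unit_sq hu1)
    (by simp only [hud]; rw [div_lt_iff₀ n0]; linarith)
    (by have : 0 < 5 * e.re + 7 := by linarith
        positivity)
    (by have : 0 < 5 * e.re - 1 := by linarith
        positivity)
    (by simp only [v1, ξ1, hl, hud]; field_simp; ring)
    (by simp only [v2, ξ2, hl, hud]; field_simp; ring)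
    (by rw [hhv]; exact div_neg_of_neg_of_pos (by linarith) n2)
    (by rw [hip, hhv, h0]; simp only [hud]; field_simp; ring)
  have e3 : -((5 * e.re - 1) * (37 + 35 * e.re) / (32 * (3 + 5 * e.re)) * hv ξ l) =
      (5 * e.re - 1) / 8 := by rw [hhv]; field_simp; ring
  rwa [e3] at key

noncomputable def GG (ξ : ℂ) (l : ℝ) (u e : ℂ) : ℝ :=
  (e.re * ξ.im - e.im * (ξ.re + 5 / 3 * l)) * ip ξ u
    + (u.re * e.im - u.im * e.re) * (-5 / 3 * ξ.re - l) - (u.re * ξ.im - u.im * (ξ.re + 5 / 3 * l))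

lemma lam_eq {ξ : ℂ} (h : 0 < (5 / 3 * ξ.re) ^ 2 - (ξ.re ^ 2 + ξ.im ^ 2)) :
    lam ξ ^ 2 + 10 / 3 * lam ξ * ξ.re + (ξ.re ^ 2 + ξ.im ^ 2) = 0 := by
  have := Real.sq_sqrt h.le
  unfold lam
  linear_combination this

lemma sol_near {b : ℝ} {e e' ξ u : ℂ} (hu : ‖u‖ = 1) (hξ : ξ ∈ Dk (Z1 b))
    (hmax : ∀ ζ ∈ Dk (Z1 b), ip ζ u ≤ ip ξ u) (hN : Near ξ (lam ξ) u e e')
    (hG : GG ξ (lam ξ) u e = 0) : ∃ μ, Sol b e μ ξ (lam ξ) := by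
  have d0 := hN.n2.ne
  have l0 : lam ξ ≠ 0 := by have := hN.n1; linarith
  refine ⟨_, sol_of hu hξ hmax hN.n1 (lam_eq hN.n9) hN.n11 hN.n3 hN.n4 ?_ ?_ hN.n5 ?_⟩
  · unfold aa bb; field_simp; unfold dl; ring
  · unfold aa bb; field_simp; unfold dl; ring
  · have : (e.re * v2 ξ (lam ξ) - e.im * v1 ξ (lam ξ)) * ip ξ u +
        (u.re * e.im - u.im * e.re) * hv ξ (lam ξ) - dl ξ (lam ξ) u = GG ξ (lam ξ) u e / lam ξ := by
      unfold dl v1 v2 hv GG; field_simp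
    rw [hG, zero_div] at this
    unfold aa bb; field_simp
    linear_combination this

lemma GG_end {u e : ℂ} (hu : ‖u‖ = 1) (h : u.re < 1 / 5) :
    GG (cc + ((4 / 3 : ℝ) : ℂ) * u) (lam (cc + ((4 / 3 : ℝ) : ℂ) * u)) u e =
      (32 - 40 * u.re) / 81 * (16 * u.re * e.im - 20 * e.im + u.im * (15 + 9 * e.re)) := by
  have h1 := unit_sq hu
  set ξ := cc + ((4 / 3 : ℝ) : ℂ) * u with hξ
  have ξ1 : ξ.re = -5 / 3 + 4 / 3 * u.re := by simp [hξ]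
  have ξ2 : ξ.im = 4 / 3 * u.im := by simp [hξ]
  have hl : lam ξ = 41 / 9 - 40 / 9 * u.re := by
    have : (5 / 3 * ξ.re) ^ 2 - (ξ.re ^ 2 + ξ.im ^ 2) = (16 / 9 - 20 / 9 * u.re) ^ 2 := by
      rw [ξ1, ξ2]; linear_combination (-16 / 9) * h1
    rw [lam, this, Real.sqrt_sq (by linarith), ξ1]; ring
  have hip : ip ξ u = -5 / 3 * u.re + 4 / 3 := by rw [hξ, ip_ball0 hu]
  rw [GG, hl, hip, ξ1, ξ2]
  ring

lemma sign_lem {A B x y : ℝ} (hA : 0 ≤ A) (hB : 0 < B) (h1 : A ^ 2 + B ^ 2 = 1)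
    (h2 : x ^ 2 + y ^ 2 = 1) (hy : B ≤ y) (h5 : 5 * A ≤ 4 * B ^ 2) :
    0 ≤ 4 * (A * y - B * x) + 5 * (B - y) ∧ 4 * (-A * y - B * x) + 5 * (B - y) ≤ 0 := by
  have hx2 : x ^ 2 ≤ A ^ 2 := by nlinarith
  have hx := abs_le_of_sq_le_sq' hx2 hA
  have k1 : (y - B) * B ≤ A * (A - x) := by nlinarith [hx.1, hx.2]
  constructor
  · have k2 : B * (A - x) ≤ A * y - B * x := by nlinarith
    have k3 : 5 * A * (A - x) ≤ 4 * B ^ 2 * (A - x) := by gcongr; linarith [hx.2]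
    have k4 : B * (5 * (y - B)) ≤ B * (4 * (B * (A - x))) := by nlinarith
    have := le_of_mul_le_mul_left k4 hB
    linarith
  · nlinarith [hx.1, hx.2]

end Pool.Agent.H56.Hp
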