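import Pool.Agent.H56.Hp4

namespace Pool.Agent.H56.Hp

open Set Real Metric Filter Topology

noncomputable def cl (s : ℝ) : ℝ := max (-1) (min 1 s)
noncomputable def AA (b : ℝ) : ℝ := √(1 - (1 / b) ^ 2)
noncomputable def uu (b s : ℝ) : ℂ :=
  ((AA b * cl s : ℝ) : ℂ) + ((√(1 - (AA b * cl s) ^ 2) : ℝ) : ℂ) * Complex.I
noncomputable def tt (s : ℝ) : ℝ := min 1 (2 - |s|)
noncomputable def xi (b s : ℝ) : ℂ :=
  cc + ((tt s * b : ℝ) : ℂ) * Complex.I + ((4 / 3 - tt s : ℝ) : ℂ) * uu b s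

lemma uu_re (b s : ℝ) : (uu b s).re = AA b * cl s := by simp [uu]
lemma uu_im (b s : ℝ) : (uu b s).im = √(1 - (AA b * cl s) ^ 2) := by
  simp only [uu, Complex.add_im, Complex.ofReal_im, Complex.mul_im, Complex.ofReal_re,
    Complex.I_im, Complex.I_re]; ring

lemma uu_cont (b : ℝ) : Continuous (uu b) := by unfold uu cl; fun_prop
lemma xi_cont (b : ℝ) : Continuous (xi b) := by
  have := uu_cont b
  unfold xi tt; fun_prop

lemma AA_sq {b : ℝ} (hb : 1 < b) : AA b ^ 2 = 1 - (1 / b) ^ 2 := by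
  apply Real.sq_sqrt
  have : 1 / b < 1 := by rw [div_lt_one (by linarith)]; exact hb
  have : 0 < 1 / b := by positivity
  nlinarith

lemma cl_sq (s : ℝ) : cl s ^ 2 ≤ 1 := by
  have h1 : -1 ≤ cl s := le_max_left _ _
  have h2 : cl s ≤ 1 := max_le (by norm_num) (min_le_left _ _)
  nlinarith

lemma uu_facts {b : ℝ} (hb : 1 < b) (s : ℝ) : ‖uu b s‖ = 1 ∧ 1 / b ≤ (uu b s).im := by
  have h1 := AA_sq hb
  have h2 := cl_sq s
  have h3 : 0 < 1 / b := by positivity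
  have h4 : (1 / b) ^ 2 ≤ 1 - (AA b * cl s) ^ 2 := by
    rw [mul_pow]; nlinarith [sq_nonneg (AA b)]
  constructor
  · apply norm_one
    rw [uu_re, uu_im, Real.sq_sqrt (by nlinarith)]; ring
  · rw [uu_im]; exact Real.le_sqrt_of_sq_le h4

lemma uu_end {b s : ℝ} (hb : 1 < b) (h : cl s ^ 2 = 1) : (uu b s).im = 1 / b := by
  have h3 : 0 < 1 / b := by positivity
  rw [uu_im, mul_pow, h, AA_sq hb, mul_one, sub_sub_cancel, Real.sqrt_sq h3.le]

lemma tt_facts {b s : ℝ} (hb : 1 < b) (hs : s ∈ Icc (-2 : ℝ) 2) :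
    tt s ∈ Icc (0 : ℝ) 1 ∧ (tt s = 1 ∨ b * (uu b s).im = 1) := by
  have h1 : |s| ≤ 2 := abs_le.2 ⟨hs.1, hs.2⟩
  refine ⟨⟨le_min (by norm_num) (by linarith), min_le_left _ _⟩, ?_⟩
  rcases le_or_gt |s| 1 with h | h
  · left; exact min_eq_left (by linarith)
  · right
    have : cl s ^ 2 = 1 := by
      rcases lt_abs.1 h with h | h
      · have : cl s = 1 := by rw [cl, min_eq_left h.le]; norm_num
        rw [this]; norm_num
      · have : cl s = -1 := by
          rw [cl, min_eq_right (by linarith)]; exact max_eq_left (by linarith)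
        rw [this]; norm_num
    rw [uu_end hb this]; field_simp

lemma xi_mem {b s : ℝ} (hb : 1 < b) (hs : s ∈ Icc (-2 : ℝ) 2) :
    xi b s ∈ Dk (Z1 b) ∧ ∀ ζ ∈ Dk (Z1 b), ip ζ (uu b s) ≤ ip (xi b s) (uu b s) := by
  obtain ⟨h1, h2⟩ := uu_facts hb s
  obtain ⟨h3, h4⟩ := tt_facts hb hs
  refine ⟨mem_D1 b h3 h1.le, fun ζ hζ => ?_⟩
  obtain ⟨t, ht, h⟩ := sup1 hζ h1
  have hu := unit_sq h1
  have e : ip (xi b s) (uu b s) = h0 (uu b s) + tt s * (b * (uu b s).im - 1) := by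
    simp only [ip, xi, h0, Complex.add_re, Complex.add_im, Complex.mul_re, Complex.mul_im,
      Complex.ofReal_re, Complex.ofReal_im, Complex.I_re, Complex.I_im, cc_re, cc_im]
    linear_combination (4 / 3 - tt s) * hu
  have h5 : 1 ≤ b * (uu b s).im := by
    rw [div_le_iff₀ (by linarith)] at h2; linarith
  rw [e]
  rcases h4 with h4 | h4
  · rw [h4]; nlinarith [ht.2]
  · rw [h4] at h ⊢; linarith

lemma norm_sub_sq {a b : ℂ} (ha : ‖a‖ = 1) (hb : ‖b‖ = 1) : ‖a - b‖ ^ 2 = 2 - 2 * ip a b := by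
  rw [← ip_self]
  have := unit_sq ha
  have := unit_sq hb
  simp only [ip, Complex.sub_re, Complex.sub_im]
  linarith

lemma es_norm : ‖es‖ = 1 := norm_one (by simp [es]; norm_num)

lemma close {b σ s : ℝ} (hσ : 0 < σ) (hσ1 : σ ≤ 1 / 10) (hb : b = 1 + σ ^ 2 / 32)
    (hs : s ∈ Icc (-2 : ℝ) 2) : ‖uu b s - Complex.I‖ < σ ∧ ‖xi b s - xs‖ < σ := by
  have hb1 : 1 < b := by rw [hb]; nlinarith
  obtain ⟨h1, h2⟩ := uu_facts hb1 s
  obtain ⟨h3, -⟩ := tt_facts hb1 hs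
  have h4 := norm_sub_sq h1 Complex.norm_I
  have h5 : ip (uu b s) Complex.I = (uu b s).im := by simp [ip]
  have h6 : 2 - b ≤ 1 / b := by rw [le_div_iff₀ (by linarith)]; nlinarith
  have h7 : ‖uu b s - Complex.I‖ ≤ σ / 4 := by
    apply abs_le_of_sq_le_sq' _ (by positivity) |>.2
    nlinarith
  refine ⟨by linarith, ?_⟩
  have e : xi b s - xs = ((tt s * (b - 1) : ℝ) : ℂ) * Complex.I +
      ((4 / 3 - tt s : ℝ) : ℂ) * (uu b s - Complex.I) := by
    apply Complex.ext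
    · simp only [xi, xs, Complex.add_re, Complex.sub_re, Complex.sub_im, Complex.mul_re,
        Complex.ofReal_re, Complex.ofReal_im, Complex.I_re, Complex.I_im, cc_re]; ring
    · simp only [xi, xs, Complex.add_im, Complex.sub_re, Complex.sub_im, Complex.mul_im,
        Complex.ofReal_re, Complex.ofReal_im, Complex.I_re, Complex.I_im, cc_im]; ring
  rw [e]
  refine (norm_add_le _ _).trans_lt ?_
  rw [norm_mul, norm_mul, Complex.norm_I, Complex.norm_real, Complex.norm_real, Real.norm_eq_abs,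
    Real.norm_eq_abs, abs_of_nonneg (mul_nonneg h3.1 (by linarith)),
    abs_of_nonneg (by linarith [h3.2])]
  have k1 : tt s * (b - 1) ≤ 1 * (b - 1) := by gcongr; exact h3.2
  have k2 : (4 / 3 - tt s) * ‖uu b s - Complex.I‖ ≤ 4 / 3 * (σ / 4) := by
    gcongr; linarith [h3.1]
  nlinarith

def Th (b : ℝ) : Set ℂ := {e | ‖e‖ = 1 ∧ 13 - 5 * e.re ≤ 12 * b * e.im}

lemma close_e {b σ : ℝ} (hσ : 0 < σ) (hb : b = 1 + σ ^ 2 / 32) {e : ℂ} (he : e ∈ Th b) :
    ‖e - es‖ < σ := by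
  obtain ⟨h1, h2⟩ := he
  have h4 := norm_sub_sq h1 es_norm
  have h5 : ip e es = (5 * e.re + 12 * e.im) / 13 := by simp [ip, es]; ring
  have hu := unit_sq h1
  have h6 : e.im ≤ 1 := by nlinarith
  have h7 : σ ^ 2 * e.im ≤ σ ^ 2 * 1 := by gcongr
  apply lt_of_pow_lt_pow_left₀ 2 hσ.le
  rw [h4, h5]
  rw [hb] at h2
  nlinarith [pow_pos hσ 2]

lemma GG_cont {X : Type*} [TopologicalSpace X] {f h k : X → ℂ} {g : X → ℝ} (hf : Continuous f)
    (hg : Continuous g) (hh : Continuous h) (hk : Continuous k) :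
    Continuous (fun s => GG (f s) (g s) (h s) (k s)) := by
  unfold GG ip; fun_prop

lemma ivt {b : ℝ} (hb : 1 < b) (hb2 : b ≤ 1 + 1 / 200) {e : ℂ} (he : e ∈ Th b) :
    ∃ s ∈ Icc (-2 : ℝ) 2, GG (xi b s) (lam (xi b s)) (uu b s) e = 0 := by
  obtain ⟨h1, h2⟩ := he
  have hu := unit_sq h1
  have hc : Continuous (fun s => GG (xi b s) (lam (xi b s)) (uu b s) e) :=
    GG_cont (xi_cont b) (lam_cont.comp (xi_cont b)) (uu_cont b) continuous_const
  have hA := AA_sq hb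
  have hA0 : 0 ≤ AA b := Real.sqrt_nonneg _
  have hB : 0 < 1 / b := by positivity
  have hB2 : 199 / 200 ≤ 1 / b := by rw [le_div_iff₀ (by linarith)]; linarith
  have hA1 : AA b ≤ 1 / 10 := by nlinarith
  have n0 : 0 < 13 - 5 * e.re := by nlinarith
  have m0 : 13 - e.re * 5 ≠ 0 := by linarith
  have n0' := n0.ne'
  obtain ⟨s1, s2⟩ := sign_lem (A := AA b) (B := 1 / b) (x := (5 - 13 * e.re) / (13 - 5 * e.re))
    (y := 12 * e.im / (13 - 5 * e.re)) hA0 hB (by linarith)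
    (by field_simp; linear_combination 144 * hu)
    (by rw [div_le_div_iff₀ (by linarith) n0]; linarith) (by nlinarith)
  have K : ∀ a : ℝ, 16 * a * e.im - 20 * e.im + 1 / b * (15 + 9 * e.re) =
      (13 - 5 * e.re) / 3 * (4 * (a * (12 * e.im / (13 - 5 * e.re)) -
        1 / b * ((5 - 13 * e.re) / (13 - 5 * e.re))) + 5 * (1 / b - 12 * e.im / (13 - 5 * e.re))) := by
    intro a
    generalize 1 / b = B
    field_simp; ring
  have x1 : ∀ s, tt s = 0 → xi b s = cc + ((4 / 3 : ℝ) : ℂ) * uu b s := by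
    intro s h; simp [xi, h]
  have c1 : cl 2 = 1 := by norm_num [cl]
  have c2 : cl (-2) = -1 := by norm_num [cl]
  have f1 : 0 ≤ GG (xi b 2) (lam (xi b 2)) (uu b 2) e := by
    rw [x1 2 (by norm_num [tt]), GG_end (uu_facts hb 2).1 (by rw [uu_re, c1]; linarith),
      uu_end hb (by rw [c1]; norm_num), uu_re, c1, mul_one, K]
    have : 0 ≤ 32 - 40 * AA b := by linarith
    positivity
  have f2 : GG (xi b (-2)) (lam (xi b (-2))) (uu b (-2)) e ≤ 0 := by
    rw [x1 (-2) (by norm_num [tt]), GG_end (uu_facts hb (-2)).1 (by rw [uu_re, c2]; linarith),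
      uu_end hb (by rw [c2]; norm_num), uu_re, c2, mul_neg_one, K]
    apply mul_nonpos_of_nonneg_of_nonpos (by linarith)
    exact mul_nonpos_of_nonneg_of_nonpos (by linarith) s2
  exact intermediate_value_Icc (by norm_num) hc.continuousOn ⟨f2, f1⟩

end Pool.Agent.H56.Hp
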