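import Pool.Agent.H56.Hp5

namespace Pool.Agent.H56.Hp

open Set Real Metric Filter Topology

lemma re_le_dist {d : ℂ} (h : 1 / 10 ≤ |d.re - 5 / 13|) : 1 / 10 ≤ ‖d - es‖ := by
  have := Complex.abs_re_le_norm (d - es)
  have e : (d - es).re = d.re - 5 / 13 := by simp [es]
  rw [e] at this; linarith

lemma pdisc {τ : ℝ} {z ζ d : ℂ} (hz : ‖z - (cc + ((13 / 12 : ℝ) : ℂ) * es)‖ < τ ^ 2 / 2)
    (h : ‖ζ - z‖ ≤ 1 / 4) (hd : ‖d‖ = 1) :
    ip ζ d ≤ h0 d + τ ^ 2 / 2 - 13 / 24 * ‖d - es‖ ^ 2 := by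
  have h1 := ip_disc h hd
  have h2 := ip_disc hz.le hd
  have h3 := norm_sub_sq hd es_norm
  have e : ip (cc + ((13 / 12 : ℝ) : ℂ) * es) d = -5 / 3 * d.re + 13 / 12 * ip d es := by
    simp only [ip, Complex.add_re, Complex.add_im, Complex.mul_re, Complex.mul_im,
      Complex.ofReal_re, Complex.ofReal_im, cc_re, cc_im]; ring
  unfold h0; linarith

lemma H2_of {b : ℝ} {D : Set ℂ} (hb : 1 < b) (hb2 : b ≤ 1 + 1 / 200) (hs : Dk (Z1 b) ⊆ D)
    (B1 : ∀ ζ ∈ D, ∀ d : ℂ, ‖d‖ = 1 → ip ζ d ≤ h0 d + 1 / 100)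
    (B2 : ∀ ζ ∈ D, ∀ d : ℂ, ‖d‖ = 1 → 1 / 10 ≤ |d.re - 5 / 13| →
      ∃ t ∈ Icc (0 : ℝ) 1, ip ζ d ≤ h0 d + t * (b * d.im - 1))
    {e : ℂ} (he : ‖e‖ = 1) (h5 : e.re ≤ 1 / 5) : H2 D e := by
  have hu := unit_sq he
  have hfar : 1 / 10 ≤ |e.re - 5 / 13| := le_abs.2 (Or.inr (by linarith))
  have hn : ‖-e‖ = 1 := by rw [norm_neg, he]
  have neg : ∀ ζ, ip ζ (-e) = -ip ζ e := fun ζ => by simp [ip]; ring
  have h0n : h0 (-e) = 4 / 3 + 5 / 3 * e.re := by simp [h0]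
  rcases le_or_gt (b * e.im) 1 with hc | hc
  · set ξ := cc + ((4 / 3 : ℝ) : ℂ) * e with hξ
    have hip : ip ξ e = h0 e := by rw [hξ, ip_ball0 he, h0]; ring
    set l := 41 / 9 - 40 / 9 * e.re with hl
    have l1 : 1 < l := by rw [hl]; linarith
    have l0 : l ≠ 0 := by linarith
    have hm : (l : ℂ) * (((1 / l : ℝ) : ℂ) * ξ) = ξ := by
      have : (l : ℂ) ≠ 0 := by exact_mod_cast l0
      push_cast; field_simp
    refine ⟨((1 / l : ℝ) : ℂ) * ξ, hs (D0_sub b ?_), l, l1, ?_, ?_, ?_⟩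
    · rw [mem_closedBall, dist_eq_norm]
      apply abs_le_of_sq_le_sq' _ (by norm_num) |>.2
      rw [← ip_self]
      have ξ1 : ξ.re = -5 / 3 + 4 / 3 * e.re := by simp [hξ]
      have ξ2 : ξ.im = 4 / 3 * e.im := by simp [hξ]
      simp only [ip, Complex.sub_re, Complex.sub_im, Complex.mul_re, Complex.mul_im,
        Complex.ofReal_re, Complex.ofReal_im, cc_re, cc_im, ξ1, ξ2]
      apply le_of_eq
      field_simp
      rw [hl]
      linear_combination 16 * hu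
    · rw [hm]; exact hs (D0_sub b (mem_ball0 he (by norm_num [abs_of_pos])))
    · intro ζ hζ
      obtain ⟨t, ht, h⟩ := B2 ζ hζ e he hfar
      rw [hm, hip]; nlinarith [ht.1]
    · intro ζ hζ
      rw [hm, hip]
      rcases le_or_gt e.re (1 / 10) with h10 | h10
      · have := B1 ζ hζ (-e) hn
        rw [neg, h0n] at this
        unfold h0; nlinarith
      · obtain ⟨t, ht, h⟩ := B2 ζ hζ (-e) hn (le_abs.2 (Or.inr (by simp; linarith)))
        have k : b * (-e).im ≤ 1 := by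
          have k1 : (b * e.im) ^ 2 ≤ 1 ^ 2 := by
            have : e.im ^ 2 ≤ 99 / 100 := by nlinarith
            have : b ^ 2 ≤ 10101 / 10000 := by nlinarith
            rw [mul_pow]; nlinarith [sq_nonneg e.im]
          have := (abs_le_of_sq_le_sq' k1 (by norm_num)).1
          simp only [Complex.neg_im]; linarith
        rw [neg, h0n] at h
        have : t * (b * (-e).im - 1) ≤ 0 := by nlinarith [ht.1]
        unfold h0; nlinarith
  · set ξ := cc + ((1 * b : ℝ) : ℂ) * Complex.I + ((4 / 3 - 1 : ℝ) : ℂ) * e with hξ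
    have ξ1 : ξ.re = -5 / 3 + 1 / 3 * e.re := by simp [hξ]; norm_num
    have ξ2 : ξ.im = b + 1 / 3 * e.im := by simp [hξ]; norm_num
    have hip : ip ξ e = h0 e + (b * e.im - 1) := by
      rw [ip, ξ1, ξ2, h0]; linear_combination (1 / 3) * hu
    have hm : ((4 : ℝ) : ℂ) * (((1 / 4 : ℝ) : ℂ) * ξ) = ξ := by push_cast; ring
    have i1 : e.im ≤ 1 := by nlinarith
    have i2 : 199 / 200 ≤ e.im := by nlinarith
    have i3 : e.re ^ 2 ≤ (1 / 10) ^ 2 := by nlinarith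
    have i4 := abs_le_of_sq_le_sq' i3 (by norm_num)
    refine ⟨((1 / 4 : ℝ) : ℂ) * ξ, hs (D0_sub b ?_), 4, by norm_num, ?_, ?_, ?_⟩
    · rw [mem_closedBall, dist_eq_norm]
      apply abs_le_of_sq_le_sq' _ (by norm_num) |>.2
      rw [← ip_self]
      simp only [ip, Complex.sub_re, Complex.sub_im, Complex.mul_re, Complex.mul_im,
        Complex.ofReal_re, Complex.ofReal_im, cc_re, cc_im, ξ1, ξ2]
      nlinarith [i4.1, i4.2]
    · rw [hm]; exact hs (mem_D1 b ⟨zero_le_one, le_rfl⟩ he.le)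
    · intro ζ hζ
      obtain ⟨t, ht, h⟩ := B2 ζ hζ e he hfar
      rw [hm, hip]; nlinarith [ht.2]
    · intro ζ hζ
      have := B1 ζ hζ (-e) hn
      rw [neg, h0n] at this
      rw [hm, hip]
      unfold h0; nlinarith [i4.1, i4.2]

lemma c_zz' {X : Type*} [TopologicalSpace X] {f k : X → ℂ} {g : X → ℝ} {S : Set X}
    (hf : Continuous f) (hg : Continuous g) (hk : Continuous k)
    (h : ∀ x ∈ S, g x - ip (f x) (k x) ≠ 0) : ContinuousOn (fun x => zz (f x) (g x) (k x)) S := by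
  have h1 : Continuous (fun x => ip (f x) (k x)) := by unfold ip; fun_prop
  have h2 : Continuous (fun x => x2 (f x) (k x)) := by unfold x2; fun_prop
  have h5 : ContinuousOn (fun x => g x - ip (f x) (k x)) S := (hg.sub h1).continuousOn
  have h3 : ContinuousOn (fun x => p1 (f x) (g x) (k x)) S := by
    unfold p1
    exact ContinuousOn.sub (ContinuousOn.div (Continuous.continuousOn (by fun_prop)) h5 h)
      continuousOn_const
  have h4 : ContinuousOn (fun x => p2 (f x) (g x) (k x)) S := by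
    unfold p2
    exact ContinuousOn.div (ContinuousOn.add (Continuous.continuousOn (by fun_prop))
      (h2.continuousOn.mul (continuousOn_const.add h3))) h5 h
  unfold zz
  exact continuousOn_const.add (hk.continuousOn.mul
    ((Complex.continuous_ofReal.comp_continuousOn h3).add
      ((Complex.continuous_ofReal.comp_continuousOn h4).mul continuousOn_const)))

theorem exD : ∃ (b : ℝ) (Z : Set ℂ), 1 < b ∧ b ≤ 1 + 1 / 200 ∧ IsCompact Z ∧ Z1 b ⊆ Z ∧
    (∀ ζ ∈ Dk Z, ∀ d : ℂ, ‖d‖ = 1 → b * d.im ≤ 1 → 1 / 10 ≤ |d.re - 5 / 13| → ip ζ d ≤ h0 d) ∧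
    (∀ e : ℂ, ‖e‖ = 1 → 1 / 5 < e.re → H1 (Dk Z) e) ∧
    (∀ e : ℂ, ‖e‖ = 1 → e.re ≤ 1 / 5 → H2 (Dk Z) e) := by
  obtain ⟨τ, hτ, hτ1, hN, σ, hσ, hστ, hZ⟩ := near_ex
  set b := 1 + σ ^ 2 / 32 with hb
  have hb1 : 1 < b := by rw [hb]; nlinarith
  have hb2 : b ≤ 1 + 1 / 200 := by rw [hb]; nlinarith
  set S : Set (ℝ × ℂ) := {q | q.1 ∈ Icc (-2 : ℝ) 2 ∧ q.2 ∈ Th b ∧
    GG (xi b q.1) (lam (xi b q.1)) (uu b q.1) q.2 = 0} with hS
  have near : ∀ q ∈ S, ∀ e' : ℂ, ‖e' - es‖ < τ →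
      Near (xi b q.1) (lam (xi b q.1)) (uu b q.1) q.2 e' := by
    rintro q ⟨h1, h2, -⟩ e' h
    obtain ⟨a1, a2⟩ := close hσ (by linarith) hb h1
    have a3 := close_e hσ hb h2
    exact hN _ _ _ _ (by linarith) (by linarith) (by linarith) h
  have near' : ∀ q ∈ S, Near (xi b q.1) (lam (xi b q.1)) (uu b q.1) q.2 q.2 := fun q hq =>
    near q hq _ (by have := close_e hσ hb hq.2.1; linarith)
  have cx : Continuous (fun q : ℝ × ℂ => xi b q.1) := (xi_cont b).comp continuous_fst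
  have hSc : IsCompact S := by
    refine ((isCompact_Icc (a := (-2 : ℝ)) (b := 2)).prod (isCompact_closedBall (0 : ℂ) 1)).of_isClosed_subset ?_ ?_
    · have c1 : IsClosed {q : ℝ × ℂ | q.1 ∈ Icc (-2 : ℝ) 2} := isClosed_Icc.preimage continuous_fst
      have c2 : IsClosed {q : ℝ × ℂ | ‖q.2‖ = 1} := isClosed_eq (by fun_prop) continuous_const
      have c3 : IsClosed {q : ℝ × ℂ | 13 - 5 * q.2.re ≤ 12 * b * q.2.im} :=
        isClosed_le (by fun_prop) (by fun_prop)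
      have c4 : IsClosed {q : ℝ × ℂ | GG (xi b q.1) (lam (xi b q.1)) (uu b q.1) q.2 = 0} :=
        isClosed_eq (GG_cont cx (lam_cont.comp cx) ((uu_cont b).comp continuous_fst)
          continuous_snd) continuous_const
      exact c1.inter ((c2.inter c3).inter c4)
    · rintro q ⟨h1, h2, -⟩
      exact ⟨h1, by simp [h2.1]⟩
  set ZP := (fun q : ℝ × ℂ => zz (xi b q.1) (lam (xi b q.1)) q.2) '' S with hZP
  have hZPc : IsCompact ZP := hSc.image_of_continuousOn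
    (c_zz' cx (lam_cont.comp cx) continuous_snd (fun q hq => (near' q hq).n7.ne'))
  have hzp : ∀ z ∈ ZP, ‖z - (cc + ((13 / 12 : ℝ) : ℂ) * es)‖ < τ ^ 2 / 2 := by
    rintro _ ⟨q, ⟨h1, h2, -⟩, rfl⟩
    exact hZ _ _ (close hσ (by linarith) hb h1).2 (close_e hσ hb h2)
  have split : ∀ ζ ∈ Dk (Z1 b ∪ ZP), ζ ∈ Dk (Z1 b) ∨ ∃ z ∈ ZP, ‖ζ - z‖ ≤ 1 / 4 := by
    rintro ζ ⟨z, hz | hz, h⟩
    · exact Or.inl ⟨z, hz, h⟩
    · exact Or.inr ⟨z, hz, h⟩
  have pfar : ∀ z ∈ ZP, ∀ ζ d : ℂ, ‖ζ - z‖ ≤ 1 / 4 → ‖d‖ = 1 → τ ≤ ‖d - es‖ → ip ζ d ≤ h0 d := by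
    intro z hz ζ d h hd hf
    have := pdisc (hzp z hz) h hd
    nlinarith
  have B2 : ∀ ζ ∈ Dk (Z1 b ∪ ZP), ∀ d : ℂ, ‖d‖ = 1 → 1 / 10 ≤ |d.re - 5 / 13| →
      ∃ t ∈ Icc (0 : ℝ) 1, ip ζ d ≤ h0 d + t * (b * d.im - 1) := by
    intro ζ hζ d hd hf
    rcases split ζ hζ with h | ⟨z, hz, h⟩
    · exact sup1 h hd
    · refine ⟨0, ⟨le_rfl, zero_le_one⟩, ?_⟩
      have := pfar z hz ζ d h hd (hτ1.trans (re_le_dist hf))
      linarith
  have B3 : ∀ ζ ∈ Dk (Z1 b ∪ ZP), ∀ d : ℂ, ‖d‖ = 1 → b * d.im ≤ 1 → 1 / 10 ≤ |d.re - 5 / 13| →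
      ip ζ d ≤ h0 d := by
    intro ζ hζ d hd h1 hf
    obtain ⟨t, ht, h⟩ := B2 ζ hζ d hd hf
    nlinarith [ht.1]
  have B1 : ∀ ζ ∈ Dk (Z1 b ∪ ZP), ∀ d : ℂ, ‖d‖ = 1 → ip ζ d ≤ h0 d + 1 / 100 := by
    intro ζ hζ d hd
    rcases split ζ hζ with h | ⟨z, hz, h⟩
    · obtain ⟨t, ht, h⟩ := sup1 h hd
      have hu := unit_sq hd
      have : d.im ≤ 1 := by nlinarith
      have : b * d.im - 1 ≤ 1 / 200 := by nlinarith
      nlinarith [ht.1, ht.2]
    · have := pdisc (hzp z hz) h hd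
      nlinarith [sq_nonneg ‖d - es‖]
  have hsub : Dk (Z1 b) ⊆ Dk (Z1 b ∪ ZP) := Dk_mono subset_union_left
  have small : ∀ d : ℂ, ‖d‖ = 1 → 1 / 5 ≤ |d.re| → b * d.im ≤ 1 := by
    intro d hd h
    have hu := unit_sq hd
    have k0 : (1 / 5) ^ 2 ≤ d.re ^ 2 := by rw [← sq_abs d.re]; gcongr
    have k1 : (b * d.im) ^ 2 ≤ 1 ^ 2 := by
      have : d.im ^ 2 ≤ 24 / 25 := by nlinarith
      have : b ^ 2 ≤ 102 / 100 := by nlinarith
      rw [mul_pow]; nlinarith [sq_nonneg d.im]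
    exact (abs_le_of_sq_le_sq' k1 (by norm_num)).2
  refine ⟨b, Z1 b ∪ ZP, hb1, hb2, (Z1_cpt b).union hZPc, subset_union_left, B3, ?_,
    fun e he h5 => H2_of hb1 hb2 hsub B1 B2 he h5⟩
  intro e he h5
  obtain ⟨ξ0, l0, hξ0, hunp⟩ := unp he h5
  have hu := unit_sq he
  have he1 : e.re ≤ 1 := by nlinarith
  have main : ∃ μ ξ l, Sol b e μ ξ l ∧ ∃ p ∈ Dk (Z1 b ∪ ZP),
      (1 + μ) * (ip p e + (4 / 3 + 5 / 3 * e.re)) = 7 / 3 + 5 / 3 * e.re := by
    rcases le_or_gt (12 * b * e.im) (13 - 5 * e.re) with h | h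
    · refine ⟨_, _, _, hunp b h, _, hsub (D0_sub b (mem_ball0 he (a := 4 / 3)
        (by norm_num [abs_of_pos]))), ?_⟩
      rw [ip_ball0 he]; ring
    · have hT : e ∈ Th b := ⟨he, h.le⟩
      obtain ⟨s, hs, hG⟩ := ivt hb1 hb2 hT
      have hq : (s, e) ∈ S := ⟨hs, hT, hG⟩
      have hn := near' _ hq
      obtain ⟨m1, m2⟩ := xi_mem hb1 hs
      obtain ⟨μ, hsol⟩ := sol_near (uu_facts hb1 s).1 m1 m2 hn hG
      refine ⟨μ, _, _, hsol, zz (xi b s) (lam (xi b s)) e + ((1 / 4 : ℝ) : ℂ) * e,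
        ⟨_, Or.inr ⟨(s, e), hq, rfl⟩, ?_⟩, ?_⟩
      · simp only [add_sub_cancel_left]
        rw [norm_mul, he, Complex.norm_real, Real.norm_eq_abs, abs_of_pos (by norm_num)]; linarith
      · have k := disc_ineq (ξ := xi b s) (l := lam (xi b s)) he he hn.n7.ne'
        have k1 : ip e e = 1 := by rw [ip_self, he]; norm_num
        have k2 : ip (zz (xi b s) (lam (xi b s)) e + ((1 / 4 : ℝ) : ℂ) * e) e =
            ip (zz (xi b s) (lam (xi b s)) e) e + 1 / 4 := by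
          simp only [ip, Complex.add_re, Complex.add_im, Complex.mul_re, Complex.mul_im,
            Complex.ofReal_re, Complex.ofReal_im]
          linear_combination (1 / 4) * hu
        obtain ⟨-, l1, -, -, k3, -⟩ := hsol
        rw [k1, sub_self, zero_mul] at k
        rw [k2]
        have k4 : lam (xi b s) - 1 ≠ 0 := by linarith
        apply mul_left_cancel₀ k4
        linear_combination (-1) * k - (ip (zz (xi b s) (lam (xi b s)) e) e + 1 / 4 +
          (4 / 3 + 5 / 3 * e.re)) * k3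
  obtain ⟨μ, ξ, l, hsol, p, hp, hpe⟩ := main
  have hμ0 : μ ≤ (5 * e.re - 1) / 8 := by
    obtain ⟨-, l1, -, m2, m3, -⟩ := hunp 0 (by linarith)
    have := weak hsol (by linarith) (D0_sub b hξ0) m2
    rw [m3] at this
    exact le_of_mul_le_mul_right this (by linarith)
  have hsol' := hsol
  obtain ⟨μ0, l1, m1, m2, m3, a, c, u, d, ha, hc, hu1, hd1, hdec, hu5, k1, k2⟩ := hsol'
  have l0 : (l : ℂ) ≠ 0 := by
    have : l ≠ 0 := by linarith
    exact_mod_cast this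
  have hm : (l : ℂ) * (((1 / l : ℝ) : ℂ) * ξ) = ξ := by push_cast; field_simp
  have hbe := small e he (by rw [abs_of_pos (by linarith)]; linarith)
  refine ⟨p, hp, μ, μ0, c * d, _, hsub (D0_sub b m2), l, l1, by rw [hm]; exact hsub m1,
    ?_, ?_, ?_, ?_, by rw [hm]; exact m3, by linarith⟩
  · intro ζ hζ
    have fin : ip ζ e ≤ h0 e → ip ζ e ≤ ip p e := by
      intro h
      unfold h0 at h
      have : (1 + μ) * (ip ζ e + (4 / 3 + 5 / 3 * e.re)) ≤
          (1 + μ) * (ip p e + (4 / 3 + 5 / 3 * e.re)) := by rw [hpe]; nlinarith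
      have := le_of_mul_le_mul_left this (by linarith)
      linarith
    rcases split ζ hζ with h | ⟨z, hz, h⟩
    · obtain ⟨t, ht, h⟩ := sup1 h he
      apply fin; nlinarith [ht.1]
    · rcases le_or_gt τ ‖e - es‖ with hf | hf
      · exact fin (pfar z hz ζ e h he hf)
      obtain ⟨q, hq, rfl⟩ := hz
      have hn := near q hq e hf
      have hn' := near' q hq
      obtain ⟨m1', m2'⟩ := xi_mem hb1 hq.1
      obtain ⟨μ', -, l1', -, n2, -⟩ := sol_near (uu_facts hb1 q.1).1 m1' m2' hn' hq.2.2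
      have w := weak hsol (by linarith) m1' n2
      have k := disc_ineq (ξ := xi b q.1) (l := lam (xi b q.1)) hq.2.1.1 he hn'.n7.ne'
      have k3 : ip q.2 e ≤ 1 := by
        have := ip_le q.2 e
        rw [hq.2.1.1, he] at this; linarith
      have k4 := mul_nonneg (sub_nonneg.2 k3) hn.n8.le
      have k5 := ip_disc h he
      simp only at k5
      set T := ip (zz (xi b q.1) (lam (xi b q.1)) q.2) e + 1 / 4 + (4 / 3 + 5 / 3 * e.re) with hT
      set L := lam (xi b q.1)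
      have k6 : (1 + μ) * T ≤ 7 / 3 + 5 / 3 * e.re := by
        rcases le_or_gt T 0 with h0' | h0'
        · nlinarith
        · have j1 : (L - 1) * (1 + μ) * T ≤ (L - ip (xi b q.1) e) * T := by
            gcongr; linarith
          have j2 : (L - 1) * ((1 + μ) * T) ≤ (L - 1) * (7 / 3 + 5 / 3 * e.re) := by linarith
          exact le_of_mul_le_mul_left j2 (by linarith)
      rw [← hpe] at k6
      have := le_of_mul_le_mul_left k6 (by linarith)
      linarith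
  · intro ζ hζ
    have hn : ‖-e‖ = 1 := by rw [norm_neg, he]
    have := B3 ζ hζ (-e) hn (small _ hn (by simp; rw [abs_of_pos (by linarith)]; linarith))
      (le_abs.2 (Or.inr (by simp; linarith)))
    have e1 : ip ζ (-e) = -ip ζ e := by simp [ip]; ring
    have e2 : h0 (-e) = 4 / 3 + 5 / 3 * e.re := by simp [h0]
    linarith
  · intro ζ hζ
    have h1 : h0 d < 0 := by nlinarith
    have h2 : 4 / 5 < d.re := by unfold h0 at h1; linarith
    have := B3 ζ hζ d hd1 (small _ hd1 (by rw [abs_of_pos (by linarith)]; linarith))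
      (le_abs.2 (Or.inl (by linarith)))
    rw [ip_smul_right]; nlinarith
  · intro ζ hζ
    have e1 : e - c * d = a * u := by rw [hdec]; ring
    rw [e1, ip_smul_right]
    rcases split ζ hζ with h | ⟨z, hz, h⟩
    · exact k2 ζ h
    · have j1 := pfar z hz ζ u h hu1 (hτ1.trans (re_le_dist (le_abs.2 (Or.inr (by linarith)))))
      have j2 := k2 _ (D0_sub b (mem_ball0 hu1 (a := 4 / 3) (by norm_num [abs_of_pos])))
      rw [ip_ball0 hu1] at j2
      unfold h0 at j1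
      nlinarith

end Pool.Agent.H56.Hp
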