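import Pool.Agent.H56.Hp6

namespace Pool.Agent.H56.Hp

open Set Real Metric Filter Topology

lemma ph_comb (ζ x y : ℂ) {a b : ℝ} (h : a + b = 1) :
    ph ζ (a • x + b • y) = a * ph ζ x + b * ph ζ y := by
  simp only [ph, ip, Complex.add_re, Complex.add_im, Complex.real_smul, Complex.mul_re,
    Complex.mul_im, Complex.ofReal_re, Complex.ofReal_im]
  linear_combination (-1) * h

lemma Om_convex (D : Set ℂ) : Convex ℝ (Om D) := by
  intro x hx y hy a b ha hb hab ζ hζ
  rw [ph_comb ζ x y hab]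
  have h1 := hx ζ hζ
  have h2 := hy ζ hζ
  rcases eq_or_lt_of_le ha with h | h
  · have : b = 1 := by linarith
    rw [← h, this]; linarith
  · nlinarith [mul_pos h h1, mul_nonneg hb h2.le]

lemma clos_le {Z : Set ℂ} {x z : ℂ} (hx : x ∈ closure (Om (Dk Z))) (hz : z ∈ Z) :
    ‖x‖ / 4 ≤ ph z x := by
  have hc : IsClosed {x : ℂ | ‖x‖ / 4 ≤ ph z x} :=
    isClosed_le (by fun_prop) (by unfold ph ip; fun_prop)
  refine closure_minimal (fun y hy => ?_) hc hx
  by_cases h : y = 0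
  · simp [h, ph_zero]
  obtain ⟨t, e, ht, he, rfl, hn⟩ := polar h
  have := hy (z + ((1 / 4 : ℝ) : ℂ) * e) ⟨z, hz, by
    rw [add_sub_cancel_left, norm_mul, he, Complex.norm_real, Real.norm_eq_abs,
      abs_of_pos (by norm_num)]; linarith⟩
  have hu := unit_sq he
  have k : ip (z + ((1 / 4 : ℝ) : ℂ) * e) e = ip z e + 1 / 4 := by
    simp only [ip, Complex.add_re, Complex.add_im, Complex.mul_re, Complex.mul_im,
      Complex.ofReal_re, Complex.ofReal_im]
    linear_combination (1 / 4) * hu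
  rw [ph_mul, k] at this
  simp only [mem_ofPred_eq]
  rw [ph_mul, hn]; linarith

lemma Om_strict {Z : Set ℂ} (hZ : IsCompact Z) : StrictConvex ℝ (closure (Om (Dk Z))) := by
  intro x hx y hy hne a b ha hb hab
  apply interior_mono subset_closure
  rw [(isOpen_Om (Dk_cpt hZ)).interior_eq]
  rintro ζ ⟨z, hz, h⟩
  have h1 := clos_le hx hz
  have h2 := clos_le hy hz
  have h3 : ph z (a • x + b • y) - ‖a • x + b • y‖ / 4 ≤ ph ζ (a • x + b • y) := by
    have k := ip_le (ζ - z) (a • x + b • y)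
    have e : ph ζ (a • x + b • y) = ph z (a • x + b • y) - ip (ζ - z) (a • x + b • y) := by
      simp only [ph, ip, Complex.sub_re, Complex.sub_im]; ring
    have : ‖ζ - z‖ * ‖a • x + b • y‖ ≤ 1 / 4 * ‖a • x + b • y‖ := by gcongr
    linarith
  refine lt_of_lt_of_le ?_ h3
  rw [ph_comb z x y hab]
  by_contra hcon
  push Not at hcon
  have n1 : ‖a • x‖ = a * ‖x‖ := by rw [norm_smul, Real.norm_eq_abs, abs_of_pos ha]
  have n2 : ‖b • y‖ = b * ‖y‖ := by rw [norm_smul, Real.norm_eq_abs, abs_of_pos hb]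
  have n3 := norm_add_le (a • x) (b • y)
  have p1 := mul_nonneg ha.le (sub_nonneg.2 h1)
  have p2 := mul_nonneg hb.le (sub_nonneg.2 h2)
  have q1 : ph z x = ‖x‖ / 4 := by
    have : a * (ph z x - ‖x‖ / 4) = 0 := by nlinarith
    rcases mul_eq_zero.1 this with h | h <;> linarith
  have q2 : ph z y = ‖y‖ / 4 := by
    have : b * (ph z y - ‖y‖ / 4) = 0 := by nlinarith
    rcases mul_eq_zero.1 this with h | h <;> linarith
  have q3 : ‖a • x + b • y‖ = ‖a • x‖ + ‖b • y‖ := by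
    rw [q1, q2] at hcon; linarith
  have sr : SameRay ℝ x y := by
    have k := sameRay_iff_norm_add.2 q3
    have k1 := (k.pos_smul_left (inv_pos.2 ha)).pos_smul_right (inv_pos.2 hb)
    rwa [inv_smul_smul₀ ha.ne', inv_smul_smul₀ hb.ne'] at k1
  rcases sr with h | h | ⟨r1, r2, g1, g2, g3⟩
  · rw [h, ph_zero] at q1; norm_num at q1
  · rw [h, ph_zero] at q2; norm_num at q2
  · have m1 : ‖r1 • x‖ = r1 * ‖x‖ := by rw [norm_smul, Real.norm_eq_abs, abs_of_pos g1]
    have m2 : ‖r2 • y‖ = r2 * ‖y‖ := by rw [norm_smul, Real.norm_eq_abs, abs_of_pos g2]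
    have m3 : ∀ (r : ℝ) (w : ℂ), ph z (r • w) = 1 - r + r * ph z w := by
      intro r w
      simp only [ph, ip, Complex.real_smul, Complex.mul_re,
        Complex.mul_im, Complex.ofReal_re, Complex.ofReal_im]; ring
    have m4 := m3 r1 x
    have m5 := m3 r2 y
    rw [g3] at m1 m4
    rw [q1] at m4
    rw [q2] at m5
    have : r1 = r2 := by nlinarith
    rw [this] at g3
    exact hne (smul_right_injective ℂ g2.ne' g3)

theorem main : ∃ Ω : Set ℂ, IsOpen Ω ∧ Bornology.IsBounded Ω ∧ Convex ℝ Ω ∧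
    StrictConvex ℝ (closure Ω) ∧ (∀ A : ℂ →ᵃ[ℝ] ℂ, Ω ≠ A '' ball 0 1) ∧
    (0 : ℂ) ∈ Ω ∧ (3 / 5 : ℂ) ∈ Ω ∧
    {X ∈ Ω | hd Ω 0 X = sInf (hd Ω X '' (Ω ∩ {Y | Y.re = 3 / 5}))} =
      Ω ∩ {X | X.re ^ 2 + X.im ^ 2 - (1 - 5 / 3 * X.re) ^ 2 = 0} := by
  obtain ⟨b, Z, hb1, hb2, hZ, hsub, B3, hH1, hH2⟩ := exD
  have hD := Dk_cpt hZ
  have hs : Dk (Z1 b) ⊆ Dk Z := Dk_mono hsub
  have h0' : closedBall cc (4 / 3) ⊆ Dk Z := (D0_sub b).trans hs
  have mem : ∀ d : ℂ, ‖d‖ = 1 → b * d.im ≤ 1 → 1 / 10 ≤ |d.re - 5 / 13| → ∀ t : ℝ, 0 ≤ t →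
      t < 3 / 4 → (t : ℂ) * d ∈ Om (Dk Z) := by
    intro d hd h1 h2 t t0 t1 ζ hζ
    have := B3 ζ hζ d hd h1 h2
    rw [ph_mul]
    unfold h0 at this
    nlinarith
  have m35 : (3 / 5 : ℂ) ∈ Om (Dk Z) := by
    have := mem 1 (by simp) (by simp) (by norm_num [abs_of_pos]) (3 / 5) (by norm_num) (by norm_num)
    simpa using this
  refine ⟨Om (Dk Z), isOpen_Om hD, ?_, Om_convex _, Om_strict hZ, ?_,
    fun ξ _ => by rw [ph_zero]; norm_num, m35, ?_⟩
  · exact isBounded_ball.subset (fun y hy => mem_ball_zero_iff.2 (norm_lt h0' hy))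
  · intro A hA
    have sym : ∀ y ∈ Om (Dk Z), 2 * A 0 - y ∈ Om (Dk Z) := by
      intro y hy
      rw [hA] at hy ⊢
      obtain ⟨w, hw, rfl⟩ := hy
      refine ⟨-w, by simpa using hw, ?_⟩
      have e1 : ∀ v, A v = A.linear v + A 0 := fun v => by
        have := A.map_vadd 0 v
        simpa using this
      rw [e1 (-w), e1 w, map_neg]; ring
    have pos : ∀ d : ℂ, ‖d‖ = 1 → b * d.im ≤ 1 → 1 / 10 ≤ |d.re - 5 / 13| → 0 ≤ ip d (A 0) := by
      intro d hd h1 h2
      by_contra hc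
      push Not at hc
      have k := norm_lt h0' (sym _ (mem d hd h1 h2 (max 0 (3 / 4 + ip d (A 0))) (le_max_left _ _)
        (max_lt (by norm_num) (by linarith))))
      have k1 := ip_le (-d) (2 * A 0 - ((max 0 (3 / 4 + ip d (A 0)) : ℝ) : ℂ) * d)
      have hu := unit_sq hd
      have k2 := le_max_right 0 (3 / 4 + ip d (A 0))
      generalize max 0 (3 / 4 + ip d (A 0)) = t at *
      have k3 : ip (-d) (2 * A 0 - (t : ℂ) * d) = -2 * ip d (A 0) + t := by
        simp only [ip, Complex.sub_re, Complex.sub_im, Complex.neg_re, Complex.neg_im,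
          Complex.mul_re, Complex.mul_im, Complex.ofReal_re, Complex.ofReal_im, Complex.re_ofNat,
          Complex.im_ofNat]
        linear_combination t * hu
      rw [norm_neg, hd, k3] at k1
      linarith
    have a1 := pos 1 (by simp) (by simp) (by norm_num [abs_of_pos])
    have a2 := pos (-1) (by simp) (by simp) (le_abs.2 (Or.inr (by norm_num)))
    have a3 := pos ⟨-3 / 5, 4 / 5⟩ (norm_one (by norm_num)) (by simp only; linarith)
      (le_abs.2 (Or.inr (by norm_num)))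
    have a4 := pos ⟨3 / 5, -4 / 5⟩ (norm_one (by norm_num)) (by simp only; linarith)
      (le_abs.2 (Or.inl (by norm_num)))
    simp only [ip, Complex.one_re, Complex.one_im, Complex.neg_re, Complex.neg_im] at a1 a2 a3 a4
    have hA0 : A 0 = 0 := by
      apply Complex.ext
      · simp only [Complex.zero_re]; linarith
      · simp only [Complex.zero_im]; linarith
    have bp : 0 < b + 1 / 3 := by linarith
    have k := sym _ (mem (-Complex.I) (by simp) (by simp; linarith)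
      (le_abs.2 (Or.inr (by norm_num))) (1 / (b + 1 / 3)) (by positivity)
      (by rw [div_lt_iff₀ bp]; linarith))
    have k2 := k _ (hs (mem_D1 b (t := 1) (w := Complex.I) ⟨zero_le_one, le_rfl⟩ (by simp)))
    rw [hA0] at k2
    have k3 : 1 / (b + 1 / 3) * (b + 1 / 3) = 1 := by field_simp
    generalize 1 / (b + 1 / 3) = t at *
    simp only [ph, ip, Complex.sub_re, Complex.sub_im, Complex.neg_re, Complex.neg_im,
      Complex.mul_re, Complex.mul_im, Complex.ofReal_re, Complex.ofReal_im, Complex.re_ofNat,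
      Complex.im_ofNat, Complex.add_re, Complex.add_im, Complex.I_re, Complex.I_im, cc_re, cc_im,
      Complex.zero_re, Complex.zero_im] at k2
    linarith
  · ext X
    have hL : (LL (Om (Dk Z))).Nonempty := ⟨3 / 5, m35, by simp⟩
    constructor
    · rintro ⟨hX, h⟩
      exact ⟨hX, sub_eq_zero.2 ((crit hD h0' hL hH1 hH2 hX).1 h)⟩
    · rintro ⟨hX, h⟩
      exact ⟨hX, (crit hD h0' hL hH1 hH2 hX).2 (sub_eq_zero.1 h)⟩

end Pool.Agent.H56.Hp
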