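import Mathlib

/-! Upper bound for the number of linear extensions in terms of the number of comparable pairs:
`e(P) * ∏_{m=1}^N (m^2 + n m + k) ≤ N! (N+n)!`. -/

namespace Pool.Agent.H56.LinExt

open Finset

/-- `D N n k = ∏_{m=1}^N (m^2 + n m + k)`. -/
noncomputable def D (N : ℕ) (n k : ℝ) : ℝ := ∏ m ∈ range N, (((m : ℝ) + 1) ^ 2 + n * (m + 1) + k)

theorem D_succ (N : ℕ) (n k : ℝ) :
    D (N + 1) n k = D N n k * (((N : ℝ) + 1) ^ 2 + n * (N + 1) + k) := by
  simp [D, prod_range_succ]

theorem D_pos (N : ℕ) {n k : ℝ} (hn : 0 ≤ n) (hk : -1 - n < k) : 0 < D N n k := by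
  unfold D
  apply prod_pos
  intro m _
  have : (0 : ℝ) ≤ m := Nat.cast_nonneg m
  nlinarith [mul_nonneg hn this, mul_nonneg this this]

/-- ratio -/
noncomputable def rho (N : ℕ) (n k u : ℝ) : ℝ := D N (n + 1) k / D N n (k - u)

noncomputable def hh (n k : ℝ) : ℕ → ℝ → ℝ
  | 0, _ => 0
  | N + 1, u => (((N : ℝ) + 1) ^ 2 + (n + 1) * (N + 1) + k) / (((N : ℝ) + 1) ^ 2 + n * (N + 1) + k)
      * hh n k N u + rho (N + 1) n k u / (((N : ℝ) + 1) ^ 2 + n * (N + 1) + k)

theorem rho_succ (N : ℕ) (n k u : ℝ) :
    rho (N + 1) n k u = rho N n k u * ((((N : ℝ) + 1) ^ 2 + (n + 1) * (N + 1) + k) *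
      (((N : ℝ) + 1) ^ 2 + n * (N + 1) + k - u)⁻¹) := by
  unfold rho
  rw [D_succ, D_succ, mul_div_mul_comm, div_eq_mul_inv (((N : ℝ) + 1) ^ 2 + (n + 1) * (N + 1) + k)]
  congr 3
  ring

theorem base_pos (N : ℕ) {n k u : ℝ} (hn : 0 ≤ n) (hu : u < k + n + 1) :
    0 < ((N : ℝ) + 1) ^ 2 + n * (N + 1) + k - u := by
  have : (0 : ℝ) ≤ N := Nat.cast_nonneg N
  nlinarith [mul_nonneg hn this, mul_nonneg this this]

theorem rho_eq (N : ℕ) {n k u : ℝ} (hn : 0 ≤ n) (hk : 0 ≤ k) (hu : u < k + n + 1) :
    rho N n k u = rho N n k 0 + u * hh n k N u := by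
  induction N with
  | zero => simp [rho, D, hh]
  | succ N ih =>
    have h1 := base_pos N hn hu
    have h0 := base_pos N (u := 0) (k := k) hn (by linarith)
    simp only [sub_zero] at h0
    rw [hh, rho_succ, rho_succ, sub_zero]
    have : rho N n k 0 = rho N n k u - u * hh n k N u := by linarith
    rw [this]
    generalize ((N : ℝ) + 1) ^ 2 + n * (N + 1) + k = r at h0 h1 ⊢
    field_simp
    ring

/-- nonnegative, monotone, convex on `s` -/
def Good (s : Set ℝ) (f : ℝ → ℝ) : Prop := (∀ x ∈ s, 0 ≤ f x) ∧ MonotoneOn f s ∧ ConvexOn ℝ s f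

theorem Good.mul {s : Set ℝ} {f g : ℝ → ℝ} (hf : Good s f) (hg : Good s g) :
    Good s (fun x => f x * g x) :=
  ⟨fun x hx => mul_nonneg (hf.1 x hx) (hg.1 x hx),
    hf.2.1.mul hg.2.1 (fun x hx => hf.1 x hx) (fun x hx => hg.1 x hx),
    hf.2.2.mul hg.2.2 (fun x hx => hf.1 x hx) (fun x hx => hg.1 x hx)
      (hf.2.1.monovaryOn hg.2.1)⟩

theorem Good.add {s : Set ℝ} {f g : ℝ → ℝ} (hf : Good s f) (hg : Good s g) :
    Good s (fun x => f x + g x) :=
  ⟨fun x hx => add_nonneg (hf.1 x hx) (hg.1 x hx), hf.2.1.add hg.2.1, hf.2.2.add hg.2.2⟩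

theorem Good.const {s : Set ℝ} (hs : Convex ℝ s) {c : ℝ} (hc : 0 ≤ c) : Good s (fun _ => c) :=
  ⟨fun _ _ => hc, monotoneOn_const, convexOn_const c hs⟩

theorem good_inv {r t : ℝ} (h : t ≤ r) : Good (Set.Iio t) (fun u => (r - u)⁻¹) := by
  refine ⟨fun x hx => ?_, fun x hx y hy hxy => ?_, ⟨convex_Iio t, ?_⟩⟩
  · have : x < t := hx
    exact inv_nonneg.2 (by linarith)
  · have : y < t := hy
    exact inv_anti₀ (by linarith) (by linarith)
  · intro x hx y hy a b ha hb hab
    have hx' : 0 < r - x := by have : x < t := hx; linarith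
    have hy' : 0 < r - y := by have : y < t := hy; linarith
    simp only [smul_eq_mul]
    have e : r - (a * x + b * y) = a * (r - x) + b * (r - y) := by
      have : r = (a + b) * r := by rw [hab, one_mul]
      nlinarith
    rw [e]
    have hb' : b = 1 - a := by linarith
    have hpos : 0 < a * (r - x) + b * (r - y) := by
      rcases eq_or_lt_of_le ha with h0 | h0
      · rw [hb', ← h0]; simpa using hy'
      · have := mul_pos h0 hx'
        have := mul_nonneg hb hy'.le
        linarith
    rw [inv_le_iff_one_le_mul₀ hpos]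
    set p := r - x
    set q := r - y
    have key : (a * p⁻¹ + b * q⁻¹) * (a * p + b * q) = 1 + a * b * (p - q) ^ 2 / (p * q) := by
      rw [hb']
      field_simp
      ring
    rw [key]
    have : 0 ≤ a * b * (p - q) ^ 2 / (p * q) := by positivity
    linarith

theorem good_rho (N : ℕ) {n k : ℝ} (hn : 0 ≤ n) (hk : 0 ≤ k) :
    Good (Set.Iio (k + n + 1)) (rho N n k) := by
  induction N with
  | zero =>
    have : rho 0 n k = fun _ => 1 := by ext u; simp [rho, D]
    rw [this]
    exact Good.const (convex_Iio _) zero_le_one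
  | succ N ih =>
    have : rho (N + 1) n k = fun u => rho N n k u * ((((N : ℝ) + 1) ^ 2 + (n + 1) * (N + 1) + k) *
      (((N : ℝ) + 1) ^ 2 + n * (N + 1) + k - u)⁻¹) := by
      ext u; exact rho_succ N n k u
    rw [this]
    have hN : (0 : ℝ) ≤ N := Nat.cast_nonneg N
    refine ih.mul ((Good.const (convex_Iio _) (by positivity)).mul (good_inv ?_))
    nlinarith [mul_nonneg hn hN, mul_nonneg hN hN]

theorem good_hh (N : ℕ) {n k : ℝ} (hn : 0 ≤ n) (hk : 0 ≤ k) :
    Good (Set.Iio (k + n + 1)) (hh n k N) := by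
  induction N with
  | zero => exact Good.const (convex_Iio _) le_rfl
  | succ N ih =>
    have hN : (0 : ℝ) ≤ N := Nat.cast_nonneg N
    have : hh n k (N + 1) = fun u =>
        (((N : ℝ) + 1) ^ 2 + (n + 1) * (N + 1) + k) / (((N : ℝ) + 1) ^ 2 + n * (N + 1) + k)
      * hh n k N u + rho (N + 1) n k u * (((N : ℝ) + 1) ^ 2 + n * (N + 1) + k)⁻¹ := by
      ext u; simp [hh, div_eq_mul_inv]
    rw [this]
    exact ((Good.const (convex_Iio _) (by positivity)).mul ih).add
      ((good_rho (N + 1) hn hk).mul (Good.const (convex_Iio _) (by positivity)))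

/-- value at a root -/
theorem rho_root (N : ℕ) {x y : ℝ} (hx : 0 ≤ x) (hy : 0 < y) :
    rho N (x + y - 1) (x * y) x = (N + y) / y := by
  induction N with
  | zero => simp [rho, D, hy.ne']
  | succ N ih =>
    have hN : (0 : ℝ) ≤ N := Nat.cast_nonneg N
    rw [rho_succ, ih]
    have e1 : ((N : ℝ) + 1) ^ 2 + (x + y - 1 + 1) * (N + 1) + x * y = (N + 1 + x) * (N + 1 + y) := by
      ring
    have e2 : ((N : ℝ) + 1) ^ 2 + (x + y - 1) * (N + 1) + x * y - x = (N + 1 + x) * (N + y) := by
      ring
    rw [e1, e2]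
    have : (0 : ℝ) < N + y := by linarith
    have : (0 : ℝ) < N + 1 + x := by linarith
    push_cast
    field_simp

theorem rho_anti (N : ℕ) {n k k' b : ℝ} (hn : 0 ≤ n) (hk : 0 ≤ k) (hb : 0 ≤ b) (hkk : k ≤ k')
    (hu : b < k + n + 1) : rho N n k' b ≤ rho N n k b := by
  induction N with
  | zero => simp [rho, D]
  | succ N ih =>
    have hN : (0 : ℝ) ≤ N := Nat.cast_nonneg N
    rw [rho_succ, rho_succ]
    have h1 := base_pos N hn hu
    have h2 := base_pos N (k := k') (u := b) hn (by linarith)
    apply mul_le_mul ih _ (mul_nonneg (by nlinarith [mul_nonneg hn hN]) (inv_nonneg.2 h2.le))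
      ((good_rho N hn hk).1 b hu)
    rw [← div_eq_mul_inv, ← div_eq_mul_inv, div_le_div_iff₀ h2 h1]
    nlinarith [mul_nonneg (sub_nonneg.2 hkk) (add_nonneg hb (add_nonneg hN zero_le_one))]

/-- The key inequality. -/
theorem key {ι : Type*} (M : Finset ι) (u : ι → ℝ) (N : ℕ) {n k b : ℝ} (hn : 0 ≤ n) (hk : 0 ≤ k)
    (hb : 0 ≤ b) (hab : (M.card : ℝ) + b = n + 1) (hu0 : ∀ i ∈ M, 0 ≤ u i) (hub : ∀ i ∈ M, u i ≤ b)
    (hs : ∑ i ∈ M, u i ≤ k) : ∑ i ∈ M, rho N n k (u i) ≤ N + (n + 1) := by
  have hN : (0 : ℝ) ≤ N := Nat.cast_nonneg N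
  rcases M.eq_empty_or_nonempty with rfl | hne
  · simp; positivity
  set a : ℝ := (M.card : ℝ) with ha
  have ha1 : 1 ≤ a := by
    have : 1 ≤ M.card := hne.card_pos
    rw [ha]
    exact_mod_cast this
  have hbI : b < k + n + 1 := by linarith
  by_cases hc : a * b ≤ k
  · -- all terms at most `rho b`
    have h1 : ∀ i ∈ M, rho N n k (u i) ≤ (N + a) / a := by
      intro i hi
      have t1 : rho N n k (u i) ≤ rho N n k b :=
        (good_rho N hn hk).2.1 (show u i < k + n + 1 by linarith [hub i hi]) hbI (hub i hi)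
      have t2 : rho N n k b ≤ rho N n (b * a) b :=
        rho_anti N hn (by positivity) hb (by linarith) (by nlinarith [mul_nonneg hb (by linarith : (0:ℝ) ≤ a)])
      have t3 := rho_root N hb (show 0 < a by linarith)
      have e : b + a - 1 = n := by linarith
      rw [e] at t3
      linarith
    calc ∑ i ∈ M, rho N n k (u i) ≤ ∑ _i ∈ M, (N + a) / a := sum_le_sum h1
      _ = N + a := by
        rw [sum_const, nsmul_eq_mul, ← ha]
        field_simp
      _ ≤ _ := by linarith
  · push Not at hc
    rcases eq_or_lt_of_le hk with hk0 | hk0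
    · subst hk0
      have hz : ∀ i ∈ M, u i = 0 := by
        intro i hi
        have := single_le_sum hu0 hi
        linarith [hu0 i hi]
      have t3 := rho_root N (le_refl 0) (show 0 < n + 1 by linarith)
      simp only [zero_add, add_sub_cancel_right, zero_mul] at t3
      rw [sum_congr rfl (fun i hi => by rw [hz i hi, t3]), sum_const, nsmul_eq_mul, ← ha,
        ← mul_div_assoc, div_le_iff₀ (by linarith)]
      nlinarith
    · -- real roots
      set d := Real.sqrt ((n + 1) ^ 2 - 4 * k) with hd
      have hdisc : (a - b) ^ 2 < (n + 1) ^ 2 - 4 * k := by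
        rw [← hab]; nlinarith
      have hd2 : d ^ 2 = (n + 1) ^ 2 - 4 * k := Real.sq_sqrt (by nlinarith [sq_nonneg (a - b)])
      have hd0 : 0 ≤ d := Real.sqrt_nonneg _
      have hd1 : |a - b| < d := Real.lt_sqrt_of_sq_lt (by rwa [sq_abs])
      have hdn : d < n + 1 := by
        apply lt_of_pow_lt_pow_left₀ 2 (by linarith)
        linarith
      obtain ⟨hl, hr⟩ := abs_lt.1 hd1
      set x := (n + 1 - d) / 2 with hx
      set y := (n + 1 + d) / 2 with hy
      have hx0 : 0 < x := by linarith
      have hxb : x < b := by linarith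
      have hby : b < y := by linarith
      have hxy : x * y = k := by rw [hx, hy]; nlinarith
      have hsum : x + y - 1 = n := by linarith
      have hyI : y < k + n + 1 := by linarith
      have hxI : x < k + n + 1 := by linarith
      have r1 := rho_root N hx0.le (show 0 < y by linarith)
      have r2 := rho_root N (show 0 ≤ y by linarith) hx0
      rw [hsum, hxy] at r1
      rw [add_comm y x, hsum, mul_comm y x, hxy] at r2
      set r0 := rho N n k 0
      have e1 := rho_eq N hn hk hxI
      have e2 := rho_eq N hn hk hyI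
      have hy0 : 0 < y := by linarith
      have v1 : k * hh n k N x = N - (r0 - 1) * y := by
        rw [r1] at e1
        have : hh n k N x = ((N + y) / y - r0) / x := by
          rw [eq_div_iff hx0.ne']; linarith
        rw [this, ← hxy]
        field_simp
        ring
      have v2 : k * hh n k N y = N - (r0 - 1) * x := by
        rw [r2] at e2
        have : hh n k N y = ((N + x) / x - r0) / y := by
          rw [eq_div_iff hy0.ne']; linarith
        rw [this, ← hxy]
        field_simp
        ring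
      have hyx : 0 < y - x := by linarith
      have cv := (good_hh N hn hk).2.2.2 hxI hyI
        (show 0 ≤ (y - b) / (y - x) from div_nonneg (by linarith) hyx.le)
        (show 0 ≤ (b - x) / (y - x) from div_nonneg (by linarith) hyx.le)
        (by field_simp; ring)
      simp only [smul_eq_mul] at cv
      have eb : (y - b) / (y - x) * x + (b - x) / (y - x) * y = b := by
        field_simp; ring
      rw [eb] at cv
      have v3 : k * hh n k N b ≤ N - (r0 - 1) * a := by
        have t : k * ((y - b) / (y - x) * hh n k N x + (b - x) / (y - x) * hh n k N y)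
            = N - (r0 - 1) * a := by
          have ea : a = x + y - b := by linarith
          rw [mul_add, ← mul_assoc, ← mul_assoc, mul_comm k, mul_comm k, mul_assoc, mul_assoc,
            v1, v2, ea]
          field_simp
          ring
        rw [← t]
        exact mul_le_mul_of_nonneg_left cv hk
      have hb0 : 0 ≤ hh n k N b := (good_hh N hn hk).1 b hbI
      have h1 : ∀ i ∈ M, rho N n k (u i) ≤ r0 + u i * hh n k N b := by
        intro i hi
        have hi' : u i < k + n + 1 := by linarith [hub i hi]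
        rw [rho_eq N hn hk hi']
        have := (good_hh N hn hk).2.1 hi' hbI (hub i hi)
        have := mul_le_mul_of_nonneg_left this (hu0 i hi)
        linarith
      calc ∑ i ∈ M, rho N n k (u i) ≤ ∑ i ∈ M, (r0 + u i * hh n k N b) := sum_le_sum h1
        _ = a * r0 + (∑ i ∈ M, u i) * hh n k N b := by
          rw [sum_add_distrib, sum_const, nsmul_eq_mul, ← ha, sum_mul]
        _ ≤ a * r0 + k * hh n k N b := by
          have := mul_le_mul_of_nonneg_right hs hb0
          linarith
        _ ≤ _ := by nlinarith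

open Classical in
/-- labellings of `S` by `0, …, |S| - 1` increasing along `r` -/
noncomputable def T {n : ℕ} (r : Fin n → Fin n → Prop) (S : Finset (Fin n)) : Finset (Fin n → ℕ) :=
  (Fintype.piFinset (fun _ => range n)).filter (fun f => (∀ a, a ∉ S → f a = 0) ∧
    (∀ a ∈ S, f a < S.card) ∧ (∀ a ∈ S, ∀ b ∈ S, f a = f b → a = b) ∧
    (∀ a ∈ S, ∀ b ∈ S, r a b → f a < f b))

open Classical in
noncomputable def K {n : ℕ} (r : Fin n → Fin n → Prop) (S : Finset (Fin n)) : ℕ :=
  ((S ×ˢ S).filter (fun p => r p.1 p.2)).card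

open Classical in
noncomputable def Mx {n : ℕ} (r : Fin n → Fin n → Prop) (S : Finset (Fin n)) : Finset (Fin n) :=
  S.filter (fun x => ∀ b ∈ S, ¬ r x b)

open Classical in
noncomputable def U {n : ℕ} (r : Fin n → Fin n → Prop) (S : Finset (Fin n)) (x : Fin n) : ℕ :=
  (S.filter (fun a => r a x)).card

theorem T_rec {n : ℕ} (r : Fin n → Fin n → Prop) (S : Finset (Fin n)) (m : ℕ)
    (hS : S.card = m + 1) : (T r S).card ≤ ∑ x ∈ Mx r S, (T r (S.erase x)).card := by
  classical
  have hsub : T r S ⊆ (Mx r S).biUnion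
      (fun x => (T r (S.erase x)).image (fun f => Function.update f x m)) := by
    intro f hf
    simp only [T, mem_filter, Fintype.mem_piFinset, mem_range] at hf
    obtain ⟨h0, h1, h2, h3, h4⟩ := hf
    have himg : S.image f = range (m + 1) := by
      apply eq_of_subset_of_card_le
      · intro y hy
        obtain ⟨a, ha, rfl⟩ := mem_image.1 hy
        rw [mem_range, ← hS]; exact h2 a ha
      · rw [card_image_of_injOn (fun a ha b hb h => h3 a ha b hb h), card_range, hS]
    have : m ∈ S.image f := by rw [himg]; simp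
    obtain ⟨x, hx, hfx⟩ := mem_image.1 this
    refine mem_biUnion.2 ⟨x, ?_, mem_image.2 ⟨Function.update f x 0, ?_, ?_⟩⟩
    · simp only [Mx, mem_filter]
      refine ⟨hx, fun b hb hr => ?_⟩
      have := h4 x hx b hb hr
      have := h2 b hb
      omega
    · simp only [T, mem_filter, Fintype.mem_piFinset, mem_range]
      refine ⟨fun a => ?_, fun a ha => ?_, fun a ha => ?_, fun a ha b hb => ?_,
        fun a ha b hb => ?_⟩
      · by_cases h : a = x
        · subst h; simpa using a.pos
        · simpa [h] using h0 a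
      · by_cases h : a = x
        · subst h; simp
        · simp only [mem_erase, ne_eq, h, not_false_eq_true, true_and] at ha
          simpa [h] using h1 a ha
      · obtain ⟨h, ha'⟩ := mem_erase.1 ha
        rw [card_erase_of_mem hx, hS, Function.update_of_ne h]
        have := h2 a ha'
        have : f a ≠ m := fun e => h (h3 a ha' x hx (e.trans hfx.symm))
        omega
      · obtain ⟨h, ha'⟩ := mem_erase.1 ha
        obtain ⟨h', hb'⟩ := mem_erase.1 hb
        rw [Function.update_of_ne h, Function.update_of_ne h']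
        exact h3 a ha' b hb'
      · obtain ⟨h, ha'⟩ := mem_erase.1 ha
        obtain ⟨h', hb'⟩ := mem_erase.1 hb
        rw [Function.update_of_ne h, Function.update_of_ne h']
        exact h4 a ha' b hb'
    · rw [Function.update_idem, ← hfx, Function.update_eq_self]
  exact (card_le_card hsub).trans (card_biUnion_le.trans (sum_le_sum fun x _ => card_image_le))

theorem K_erase {n : ℕ} (r : Fin n → Fin n → Prop) (S : Finset (Fin n)) (x : Fin n)
    (hx : x ∈ Mx r S) : K r (S.erase x) + U r S x = K r S := by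
  classical
  simp only [Mx, mem_filter] at hx
  have h := card_filter_add_card_filter_not (s := (S ×ˢ S).filter (fun p => r p.1 p.2))
    (fun p => p.2 = x)
  unfold K U
  rw [add_comm]
  refine Eq.trans ?_ (by convert h)
  congr 1
  · apply card_bij (fun a _ => (a, x))
    · intro a ha
      simp only [mem_filter] at ha
      simp [ha, hx.1]
    · intro a _ b _ h
      simpa using h
    · intro p hp
      simp only [mem_filter, mem_product] at hp
      obtain ⟨⟨⟨p1, _⟩, p3⟩, p4⟩ := hp
      refine ⟨p.1, ?_, ?_⟩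
      · simp only [mem_filter]
        exact ⟨p1, p4 ▸ p3⟩
      · rw [← p4]
  · congr 1
    ext p
    simp only [mem_filter, mem_product, mem_erase]
    constructor
    · rintro ⟨⟨⟨_, p1⟩, p2, p3⟩, p4⟩
      exact ⟨⟨⟨p1, p3⟩, p4⟩, p2⟩
    · rintro ⟨⟨⟨p1, p3⟩, p4⟩, p2⟩
      refine ⟨⟨⟨?_, p1⟩, p2, p3⟩, p4⟩
      intro e
      exact hx.2 _ p3 (e ▸ p4)

theorem U_le {n : ℕ} (r : Fin n → Fin n → Prop) (S : Finset (Fin n)) (x : Fin n)
    (hx : x ∈ Mx r S) : (Mx r S).card + U r S x ≤ S.card := by
  classical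
  unfold U
  rw [← card_union_of_disjoint]
  · apply card_le_card
    intro a ha
    rcases mem_union.1 ha with h | h
    · exact (mem_filter.1 h).1
    · exact (mem_filter.1 h).1
  · rw [disjoint_left]
    intro a ha hb
    simp only [Mx, mem_filter] at ha hb hx
    exact ha.2 x hx.1 hb.2

theorem U_sum {n : ℕ} (r : Fin n → Fin n → Prop) (S : Finset (Fin n)) :
    ∑ x ∈ Mx r S, U r S x ≤ K r S := by
  classical
  have h1 : ∑ x ∈ Mx r S, U r S x ≤ ∑ x ∈ S, U r S x :=
    sum_le_sum_of_subset (filter_subset _ _)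
  refine h1.trans (le_of_eq ?_)
  unfold K U
  simp only [card_filter]
  rw [sum_product_right]

theorem main {n : ℕ} (r : Fin n → Fin n → Prop) (N : ℕ) (m : ℕ) :
    ∀ S : Finset (Fin n), S.card = m →
      ((T r S).card : ℝ) * D N m (K r S) ≤ (N.factorial : ℝ) * (N + m).factorial := by
  induction m with
  | zero =>
    intro S hS
    rw [card_eq_zero] at hS
    subst hS
    have h1 : (T r ∅).card ≤ 1 := by
      rw [card_le_one]
      intro f hf g hg
      simp only [T, mem_filter] at hf hg
      ext a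
      rw [hf.2.1 a (by simp), hg.2.1 a (by simp)]
    have h2 : K r ∅ = 0 := by simp [K]
    have h3 : D N ((0 : ℕ) : ℝ) ((0 : ℕ) : ℝ) = (N.factorial : ℝ) * N.factorial := by
      unfold D
      rw [← prod_range_add_one_eq_factorial]
      push_cast
      rw [← prod_mul_distrib]
      exact prod_congr rfl fun i _ => by ring
    rw [h2, h3]
    have : ((T r ∅).card : ℝ) ≤ 1 := by exact_mod_cast h1
    simp only [add_zero]
    have h4 : (0 : ℝ) ≤ (N.factorial : ℝ) * N.factorial := by positivity
    nlinarith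
  | succ m ih =>
    intro S hS
    have hm : (0 : ℝ) ≤ m := Nat.cast_nonneg m
    have hk : (0 : ℝ) ≤ K r S := Nat.cast_nonneg _
    have hMS : (Mx r S).card ≤ S.card := by
      classical exact card_le_card (filter_subset _ _)
    have hD : 0 < D N ((m : ℝ) + 1) (K r S) := D_pos N (by linarith) (by linarith)
    have step : ∀ x ∈ Mx r S, ((T r (S.erase x)).card : ℝ) * D N ((m : ℝ) + 1) (K r S)
        ≤ (N.factorial : ℝ) * (N + m).factorial * rho N m (K r S) (U r S x) := by
      intro x hx
      have hxS : x ∈ S := by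
        classical exact (mem_filter.1 hx).1
      have h := ih (S.erase x) (by rw [card_erase_of_mem hxS, hS]; rfl)
      have e : (K r (S.erase x) : ℝ) = (K r S : ℝ) - U r S x := by
        rw [← K_erase r S x hx]; push_cast; ring
      have hp : 0 < D N (m : ℝ) ((K r S : ℝ) - U r S x) := by
        rw [← e]
        exact D_pos N hm (by have : (0 : ℝ) ≤ K r (S.erase x) := Nat.cast_nonneg _; linarith)
      rw [e] at h
      unfold rho
      rw [← mul_div_assoc, le_div_iff₀ hp, mul_right_comm]
      exact mul_le_mul_of_nonneg_right h hD.le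
    have hkey := key (Mx r S) (fun x => (U r S x : ℝ)) N (b := (m : ℝ) + 1 - (Mx r S).card) hm hk
      (by
        have : ((Mx r S).card : ℝ) ≤ ((m + 1 : ℕ) : ℝ) := by exact_mod_cast hS ▸ hMS
        push_cast at this; linarith)
      (by ring) (fun x _ => Nat.cast_nonneg _)
      (fun x hx => by
        have : (((Mx r S).card + U r S x : ℕ) : ℝ) ≤ ((m + 1 : ℕ) : ℝ) := by
          exact_mod_cast hS ▸ U_le r S x hx
        push_cast at this; linarith)
      (by exact_mod_cast U_sum r S)
    have hrec : ((T r S).card : ℝ) ≤ ∑ x ∈ Mx r S, ((T r (S.erase x)).card : ℝ) := by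
      exact_mod_cast T_rec r S m hS
    push_cast
    calc ((T r S).card : ℝ) * D N ((m : ℝ) + 1) (K r S)
        ≤ (∑ x ∈ Mx r S, ((T r (S.erase x)).card : ℝ)) * D N ((m : ℝ) + 1) (K r S) :=
          mul_le_mul_of_nonneg_right hrec hD.le
      _ ≤ ∑ x ∈ Mx r S, (N.factorial : ℝ) * (N + m).factorial * rho N m (K r S) (U r S x) := by
          rw [sum_mul]; exact sum_le_sum step
      _ ≤ (N.factorial : ℝ) * (N + m).factorial * (N + (m + 1)) := by
          rw [← mul_sum]
          exact mul_le_mul_of_nonneg_left hkey (by positivity)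
      _ = _ := by
          rw [← add_assoc N m 1, Nat.factorial_succ]
          push_cast; ring

theorem D_knot (N s t : ℕ) : D N ((s + t : ℕ) : ℝ) ((s * t : ℕ) : ℝ) * (s.factorial * t.factorial)
    = (N + s).factorial * (N + t).factorial := by
  induction N with
  | zero => simp [D]
  | succ N ih =>
    rw [D_succ, mul_right_comm, ih, add_right_comm N 1 s, add_right_comm N 1 t,
      Nat.factorial_succ, Nat.factorial_succ]
    push_cast; ring

theorem fact_ineq (N s t : ℕ) : (N : ℝ) ^ s * (N.factorial * (N + (s + t)).factorial)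
    ≤ (N + (s + t) : ℝ) ^ s * ((N + s).factorial * (N + t).factorial) := by
  induction s with
  | zero => simp
  | succ s ih =>
    rw [show N + (s + 1 + t) = (N + (s + t)) + 1 by ring, show N + (s + 1) = N + s + 1 by ring,
      Nat.factorial_succ, Nat.factorial_succ, pow_succ, pow_succ]
    push_cast at ih ⊢
    have h1 : (N + (s + t) : ℝ) ^ s ≤ (N + (s + 1 + t) : ℝ) ^ s :=
      pow_le_pow_left₀ (by positivity) (by linarith) s
    have h2 : (N : ℝ) ^ s * (N.factorial * (N + (s + t)).factorial)
        ≤ (N + (s + 1 + t) : ℝ) ^ s * ((N + s).factorial * (N + t).factorial) :=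
      ih.trans (mul_le_mul_of_nonneg_right h1 (by positivity))
    have h3 : (N : ℝ) * (N + (s + t) + 1) ≤ (N + (s + 1 + t)) * (N + s + 1) := by
      have : (0 : ℝ) ≤ N := Nat.cast_nonneg N
      have : (0 : ℝ) ≤ s := Nat.cast_nonneg s
      have : (0 : ℝ) ≤ t := Nat.cast_nonneg t
      nlinarith
    have := mul_le_mul h2 h3 (by positivity) (by positivity)
    nlinarith

theorem final (e s t : ℕ) (h : ∀ N : ℕ, (e : ℝ) * D N ((s + t : ℕ) : ℝ) ((s * t : ℕ) : ℝ)
    ≤ (N.factorial : ℝ) * (N + (s + t)).factorial) : e ≤ s.factorial * t.factorial := by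
  have h1 : ∀ N : ℕ, 0 < N →
      (e : ℝ) ≤ (s.factorial * t.factorial) * (1 + ((s : ℝ) + t) / N) ^ s := by
    intro N hN
    have hN' : (0 : ℝ) < N := by exact_mod_cast hN
    have a1 := h N
    have a2 := D_knot N s t
    have a3 := fact_ineq N s t
    have p : (0 : ℝ) < (N + s).factorial * (N + t).factorial := by positivity
    have q : (0 : ℝ) < s.factorial * t.factorial := by positivity
    have e1 : (1 + ((s : ℝ) + t) / N) ^ s = (N + (s + t) : ℝ) ^ s / (N : ℝ) ^ s := by
      rw [← div_pow]; congr 1; field_simp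
    rw [e1, ← mul_div_assoc, le_div_iff₀ (by positivity)]
    have a4 : (e : ℝ) * ((N + s).factorial * (N + t).factorial)
        ≤ (N.factorial : ℝ) * (N + (s + t)).factorial * (s.factorial * t.factorial) := by
      rw [← a2, ← mul_assoc]
      exact mul_le_mul_of_nonneg_right a1 q.le
    have a5 := mul_le_mul_of_nonneg_left a4 (show (0 : ℝ) ≤ (N : ℝ) ^ s by positivity)
    have a6 := mul_le_mul_of_nonneg_right a3 q.le
    refine le_of_mul_le_mul_right ?_ p
    nlinarith
  have lim : Filter.Tendsto (fun N : ℕ => ((s.factorial * t.factorial : ℝ)) *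
      (1 + ((s : ℝ) + t) / N) ^ s) Filter.atTop (nhds ((s.factorial * t.factorial : ℝ) * (1 + 0) ^ s)) :=
    ((tendsto_const_div_atTop_nhds_zero_nat _).const_add 1 |>.pow s).const_mul _
  have := ge_of_tendsto lim (Filter.eventually_atTop.2 ⟨1, fun N hN => h1 N hN⟩)
  simp only [add_zero, one_pow, mul_one] at this
  exact_mod_cast this

theorem bound {n : ℕ} (r : Fin n → Fin n → Prop) (s t : ℕ) (hn : n = s + t)
    (hk : K r univ = s * t) : (T r univ).card ≤ s.factorial * t.factorial := by
  apply final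
  intro N
  have := main r N (s + t) univ (by simp [hn])
  rwa [hk] at this

end Pool.Agent.H56.LinExt
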