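import Pool.Agent.H56.LipDef

set_option autoImplicit false

namespace Pool.Agent.H56.Lip
open Filter Topology Set
open scoped Classical ZeroAtInfty

lemma hyper {X : Type} [NormedAddCommGroup X] [NormedSpace ℂ X] [CompleteSpace X]
    (T : X →L[ℂ] X) (s : Set X) (hs : s.Countable) (hd : Dense (Submodule.span ℂ s : Set X))
    (hA : ∀ x ∈ s, ∀ ε : ℝ, 0 < ε → ∀ᶠ n in atTop, ∃ e, ‖e‖ ≤ ε ∧ ‖(T ^ n) e - x‖ ≤ ε)
    (hB : ∀ x ∈ s, ∀ ε : ℝ, 0 < ε → ∀ᶠ n in atTop, ∃ e, ‖e‖ ≤ ε ∧ ‖(T ^ n) (x + e)‖ ≤ ε) :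
    ∃ f, ∀ g, ∀ ε : ℝ, 0 < ε → ∃ n : ℕ, ‖(T ^ n) f - g‖ < ε := by
  have hA' : ∀ x ∈ Submodule.span ℂ s, ∀ ε : ℝ, 0 < ε →
      ∀ᶠ n in atTop, ∃ e, ‖e‖ ≤ ε ∧ ‖(T ^ n) e - x‖ ≤ ε := by
    intro x hx
    induction hx using Submodule.span_induction with
    | mem x hx => exact hA x hx
    | zero => exact fun ε hε => Eventually.of_forall fun n => ⟨0, by simp [hε.le], by simp [hε.le]⟩
    | add x y _ _ hx hy =>
      intro ε hε
      filter_upwards [hx (ε / 2) (by positivity), hy (ε / 2) (by positivity)] with n ⟨e, e1, e2⟩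
        ⟨f, f1, f2⟩
      refine ⟨e + f, (norm_add_le _ _).trans (by linarith), ?_⟩
      rw [show (T ^ n) (e + f) - (x + y) = ((T ^ n) e - x) + ((T ^ n) f - y) by
        rw [map_add]; abel]
      exact (norm_add_le _ _).trans (by linarith)
    | smul c x _ hx =>
      intro ε hε
      have h0 : ‖c‖ * (ε / (‖c‖ + 1)) ≤ ε := by
        rw [mul_div_assoc', div_le_iff₀ (by positivity)]; nlinarith
      filter_upwards [hx (ε / (‖c‖ + 1)) (by positivity)] with n ⟨e, e1, e2⟩
      refine ⟨c • e, ?_, ?_⟩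
      · rw [norm_smul]; exact (mul_le_mul_of_nonneg_left e1 (norm_nonneg _)).trans h0
      · rw [map_smul, ← smul_sub, norm_smul]
        exact (mul_le_mul_of_nonneg_left e2 (norm_nonneg _)).trans h0
  have hB' : ∀ x ∈ Submodule.span ℂ s, ∀ ε : ℝ, 0 < ε →
      ∀ᶠ n in atTop, ∃ e, ‖e‖ ≤ ε ∧ ‖(T ^ n) (x + e)‖ ≤ ε := by
    intro x hx
    induction hx using Submodule.span_induction with
    | mem x hx => exact hB x hx
    | zero => exact fun ε hε => Eventually.of_forall fun n => ⟨0, by simp [hε.le], by simp [hε.le]⟩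
    | add x y _ _ hx hy =>
      intro ε hε
      filter_upwards [hx (ε / 2) (by positivity), hy (ε / 2) (by positivity)] with n ⟨e, e1, e2⟩
        ⟨f, f1, f2⟩
      refine ⟨e + f, (norm_add_le _ _).trans (by linarith), ?_⟩
      rw [show (T ^ n) (x + y + (e + f)) = (T ^ n) (x + e) + (T ^ n) (y + f) by
        rw [← map_add]; congr 1; abel]
      exact (norm_add_le _ _).trans (by linarith)
    | smul c x _ hx =>
      intro ε hε
      have h0 : ‖c‖ * (ε / (‖c‖ + 1)) ≤ ε := by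
        rw [mul_div_assoc', div_le_iff₀ (by positivity)]; nlinarith
      filter_upwards [hx (ε / (‖c‖ + 1)) (by positivity)] with n ⟨e, e1, e2⟩
      refine ⟨c • e, ?_, ?_⟩
      · rw [norm_smul]; exact (mul_le_mul_of_nonneg_left e1 (norm_nonneg _)).trans h0
      · rw [← smul_add, map_smul, norm_smul]
        exact (mul_le_mul_of_nonneg_left e2 (norm_nonneg _)).trans h0
  have hsep : TopologicalSpace.IsSeparable (univ : Set X) := by
    rw [← hd.closure_eq]
    exact (hs.isSeparable.span).closure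
  obtain ⟨c, hc, hc2⟩ := hsep
  have := hc.to_subtype
  have hG := dense_iInter_of_isOpen (ι := c × ℕ)
    (f := fun p => ⋃ n : ℕ, {f : X | ‖(T ^ n) f - p.1‖ < 1 / ((p.2 : ℝ) + 1)})
    (fun p => isOpen_iUnion fun n => isOpen_lt (by fun_prop) continuous_const) (fun p => ?_)
  · obtain ⟨f, hf⟩ := hG.nonempty
    refine ⟨f, fun g ε hε => ?_⟩
    obtain ⟨m, hm⟩ := exists_nat_one_div_lt (show 0 < ε / 2 by positivity)
    obtain ⟨u, hu, hu2⟩ := Metric.mem_closure_iff.1 (hc2 (mem_univ g)) (ε / 2) (by positivity)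
    obtain ⟨n, hn⟩ := mem_iUnion.1 (mem_iInter.1 hf (⟨u, hu⟩, m))
    refine ⟨n, ?_⟩
    rw [dist_comm, dist_eq_norm] at hu2
    have := norm_add_le ((T ^ n) f - u) (u - g)
    rw [sub_add_sub_cancel] at this
    have hn : ‖(T ^ n) f - u‖ < 1 / ((m : ℝ) + 1) := hn
    linarith
  · rw [Metric.dense_iff]
    intro g r hr
    set δ : ℝ := min r (1 / ((p.2 : ℝ) + 1)) / 4 with hδ
    have hδ0 : 0 < δ := by positivity
    have d1 : δ ≤ r / 4 := by rw [hδ]; gcongr; exact min_le_left _ _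
    have d2 : δ ≤ 1 / ((p.2 : ℝ) + 1) / 4 := by rw [hδ]; gcongr; exact min_le_right _ _
    obtain ⟨x, hx, hx2⟩ := hd.exists_dist_lt g hδ0
    obtain ⟨y, hy, hy2⟩ := hd.exists_dist_lt (p.1 : X) hδ0
    obtain ⟨n, ⟨e, e1, e2⟩, ⟨f, f1, f2⟩⟩ := ((hA' y hy δ hδ0).and (hB' x hx δ hδ0)).exists
    rw [dist_comm, dist_eq_norm] at hx2 hy2
    refine ⟨x + f + e, ?_, mem_iUnion.2 ⟨n, ?_⟩⟩
    · rw [mem_ball_iff_norm, show x + f + e - g = (x - g) + f + e by abel]
      exact (norm_add₃_le).trans_lt (by linarith)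
    · change ‖(T ^ n) (x + f + e) - p.1‖ < _
      rw [show (T ^ n) (x + f + e) - p.1 = (T ^ n) (x + f) + ((T ^ n) e - y) + (y - p.1) by
        rw [map_add (T ^ n) (x + f)]; abel]
      exact (norm_add₃_le).trans_lt (by linarith)

variable {V : Type} (τ : RTree V)

noncomputable def D (f : V → ℂ) (v : V) : ℂ := if v = τ.o then f v else f v - f (τ.par v)

def Bd (f : V → ℂ) (c : ℝ) : Prop := ∀ v, ‖D τ f v‖ ≤ c

noncomputable def dl (w : V) : V → ℂ := fun v => if v = w then 1 else 0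

lemma D_add (f g : V → ℂ) : D τ (f + g) = D τ f + D τ g := by
  funext v; simp only [D, Pi.add_apply]; split_ifs <;> ring
lemma D_sub (f g : V → ℂ) : D τ (f - g) = D τ f - D τ g := by
  funext v; simp only [D, Pi.sub_apply]; split_ifs <;> ring
lemma D_smul (c : ℂ) (f : V → ℂ) : D τ (c • f) = c • D τ f := by
  funext v; simp only [D, Pi.smul_apply, smul_eq_mul]; split_ifs <;> ring

lemma ball_fin (n : ℕ) : {v | τ.dep v ≤ n}.Finite := by
  induction n with
  | zero =>
    refine (finite_singleton τ.o).subset fun v hv => ?_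
    by_contra h
    have := τ.dep_par v h
    have hv : τ.dep v ≤ 0 := hv
    omega
  | succ n ih =>
    refine ((finite_singleton τ.o).union (ih.biUnion fun v _ => τ.fin v)).subset fun v hv => ?_
    by_cases h : v = τ.o
    · exact Or.inl h
    · have := τ.dep_par v h
      have hv : τ.dep v ≤ n + 1 := hv
      exact Or.inr (mem_biUnion (x := τ.par v) (show τ.dep _ ≤ n by omega) rfl)

lemma comap_eq : comap τ.dep atTop = cofinite := by
  apply le_antisymm
  · rw [← Nat.cofinite_eq_atTop]; exact comap_cofinite_le _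
  · rw [← tendsto_iff_comap, tendsto_atTop]
    intro n
    exact (ball_fin τ n).subset fun v hv => (not_le.1 (show ¬ n ≤ τ.dep v from hv)).le

lemma inL0_iff (f : V → ℂ) : InL0 τ f ↔ Tendsto (D τ f) cofinite (𝓝 0) := by
  rw [InL0, comap_eq]
  refine tendsto_congr' ?_
  filter_upwards [eventually_cofinite_ne τ.o] with v hv
  simp [D, hv]

lemma par_cof : Tendsto τ.par cofinite cofinite :=
  Tendsto.cofinite_of_finite_preimage_singleton fun v => τ.fin v

lemma inL0_fin (f : V → ℂ) (h : {v | f v ≠ 0}.Finite) : InL0 τ f := by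
  rw [inL0_iff]
  refine tendsto_const_nhds.congr' ?_
  have h1 : ∀ᶠ v in cofinite, f v = 0 := h
  filter_upwards [h1, (par_cof τ).eventually h1] with v a b
  simp [D, a, b]

lemma ind {P : V → Prop} (h0 : P τ.o) (h1 : ∀ v, v ≠ τ.o → P (τ.par v) → P v) (v : V) : P v := by
  induction' hn : τ.dep v using Nat.strong_induction_on with n ih generalizing v
  by_cases h : v = τ.o
  · rwa [h]
  · have := τ.dep_par v h
    exact h1 v h (ih _ (by omega) _ rfl)

noncomputable def S (u : V → ℂ) (v : V) : ℂ := ∑ k ∈ Finset.range (τ.dep v + 1), u (τ.par^[k] v)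

lemma DS (u : V → ℂ) : D τ (S τ u) = u := by
  funext v
  by_cases h : v = τ.o
  · simp [D, S, h, τ.dep_o]
  · simp only [D, S, h, if_false]
    rw [τ.dep_par v h, Finset.sum_range_succ' _ (τ.dep (τ.par v) + 1)]
    simp [Function.iterate_succ_apply]

lemma D_inj (f g : V → ℂ) (h : D τ f = D τ g) : f = g := by
  funext v
  refine ind τ (P := fun v => f v = g v) ?_ (fun v hv h2 => ?_) v
  · simpa [D] using congrFun h τ.o
  · have := congrFun h v
    simp only [D, hv, if_false] at this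
    have h2 : f (τ.par v) = g (τ.par v) := h2
    change f v = g v
    linear_combination this + h2

lemma SD (f : V → ℂ) : S τ (D τ f) = f := D_inj τ _ _ (DS τ _)

lemma nrm_le (f : V → ℂ) (c : ℝ) (h : Bd τ f c) : nrm τ f ≤ c := by
  refine max_le (by simpa [D] using h τ.o)
    (Real.iSup_le (fun v => ?_) ((norm_nonneg _).trans (h τ.o)))
  simpa [D, v.2] using h v

lemma bd_nrm (f : V → ℂ) (c : ℝ) (h : Bd τ f c) : Bd τ f (nrm τ f) := by
  intro v
  by_cases hv : v = τ.o
  · simp [D, hv, nrm]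
  · refine le_trans ?_ (le_max_right _ _)
    refine le_trans ?_ (le_ciSup (f := fun v : {v // v ≠ τ.o} => ‖f v - f (τ.par v)‖)
      ⟨c, ?_⟩ ⟨v, hv⟩)
    · simp [D, hv]
    · rintro _ ⟨v, rfl⟩
      simpa [D, v.2] using h v

lemma val_le (f : V → ℂ) (c : ℝ) (h : Bd τ f c) (v : V) : ‖f v‖ ≤ (τ.dep v + 1) * c := by
  refine ind τ (P := fun v => ‖f v‖ ≤ (τ.dep v + 1) * c) ?_ (fun v hv h2 => ?_) v
  · simpa [D, τ.dep_o] using h τ.o
  · have h3 := h v
    simp only [D, hv, if_false] at h3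
    have h4 := norm_add_le (f v - f (τ.par v)) (f (τ.par v))
    rw [sub_add_cancel] at h4
    have h2 : ‖f (τ.par v)‖ ≤ (τ.dep (τ.par v) + 1) * c := h2
    change ‖f v‖ ≤ (τ.dep v + 1) * c
    rw [τ.dep_par v hv]
    push_cast
    linarith

def Adj (v w : V) : Prop := v = w ∨ (v ≠ τ.o ∧ τ.par v = w) ∨ (w ≠ τ.o ∧ τ.par w = v)

lemma adj_bd (f : V → ℂ) (c : ℝ) (h : Bd τ f c) (v w : V) (a : Adj τ v w) : ‖f v - f w‖ ≤ c := by
  rcases a with rfl | ⟨h1, rfl⟩ | ⟨h1, rfl⟩
  · simpa using (norm_nonneg _).trans (h v)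
  · simpa [D, h1] using h v
  · rw [norm_sub_rev]; simpa [D, h1] using h w

lemma comp_bd (φ : V → V) (hφ : ∀ v, v ≠ τ.o → ∃ z, Adj τ (φ v) z ∧ Adj τ (φ (τ.par v)) z)
    (f : V → ℂ) (c : ℝ) (h : Bd τ f c) : Bd τ (f ∘ φ) ((τ.dep (φ τ.o) + 2) * c) := by
  have hc : 0 ≤ c := (norm_nonneg _).trans (h τ.o)
  intro v
  by_cases hv : v = τ.o
  · have := val_le τ f c h (φ τ.o)
    simp only [D, hv, if_true, Function.comp]
    nlinarith
  · obtain ⟨z, z1, z2⟩ := hφ v hv
    have a1 := adj_bd τ f c h _ _ z1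
    have a2 := adj_bd τ f c h _ _ z2
    have a3 := norm_sub_le (f (φ v) - f z) (f (φ (τ.par v)) - f z)
    rw [sub_sub_sub_cancel_right] at a3
    simp only [D, hv, if_false, Function.comp]
    have : (0 : ℝ) ≤ τ.dep (φ τ.o) * c := by positivity
    nlinarith

lemma comp_L0 (φ : V → V) (hi : Function.Injective φ)
    (hφ : ∀ v, v ≠ τ.o → ∃ z, Adj τ (φ v) z ∧ Adj τ (φ (τ.par v)) z)
    (f : V → ℂ) (h : InL0 τ f) : InL0 τ (f ∘ φ) := by
  rw [inL0_iff, Metric.tendsto_nhds] at h ⊢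
  intro ε hε
  have h1 := h (ε / 2) (by positivity)
  have h2 : ∀ᶠ x in cofinite, ∀ y, Adj τ x y → ‖f x - f y‖ < ε / 2 := by
    have h3 : ∀ᶠ x in cofinite, x ∉ τ.par '' {x | ¬ dist (D τ f x) 0 < ε / 2} :=
      (Set.Finite.image _ h1).compl_mem_cofinite
    filter_upwards [h1, h3] with x a b y hy
    rcases hy with rfl | ⟨h1, rfl⟩ | ⟨h1, rfl⟩
    · simpa using hε
    · simpa [D, h1] using a
    · rw [norm_sub_rev]
      by_contra hn
      exact b ⟨y, by simpa [D, h1] using hn, rfl⟩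
  have h4 := hi.tendsto_cofinite.eventually h2
  filter_upwards [h4, (par_cof τ).eventually h4, eventually_cofinite_ne τ.o] with v a b hv
  obtain ⟨z, z1, z2⟩ := hφ v hv
  have a1 := a z z1
  have a2 := b z z2
  have a3 := norm_sub_le (f (φ v) - f z) (f (φ (τ.par v)) - f z)
  rw [sub_sub_sub_cancel_right] at a3
  simp only [D, hv, if_false, Function.comp, dist_zero_right]
  linarith

lemma cl_lip (t t' x x' : ℝ) :
    |max (-t) (min t x) - max (-t') (min t' x')| ≤ |x - x'| + |t - t'| := by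
  have a1 := le_abs_self (x - x')
  have a2 := neg_abs_le (x - x')
  have a3 := le_abs_self (t - t')
  have a4 := neg_abs_le (t - t')
  rw [abs_le]
  simp only [max_def, min_def]
  split_ifs <;> constructor <;> linarith

lemma trunc (f : V → ℂ) (h : InL0 τ f) (η : ℝ) (hη : 0 < η) :
    ∃ g : V → ℂ, {v | g v ≠ 0}.Finite ∧ Bd τ (f - g) (6 * η) := by
  have h1 : ∀ᶠ v in comap τ.dep atTop, dist (f v - f (τ.par v)) 0 < η :=
    Metric.tendsto_nhds.1 h η hη
  obtain ⟨R, hR⟩ := eventually_atTop.1 (eventually_comap.1 h1)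
  have hR : ∀ v, R < τ.dep v → ‖f v - f (τ.par v)‖ ≤ η := fun v hv => by
    simpa using (hR _ hv.le v rfl).le
  obtain ⟨M, hM⟩ := ((ball_fin τ R).image fun v => ‖f v‖).bddAbove
  have hM : ∀ v, τ.dep v ≤ R → ‖f v‖ ≤ M := fun v hv => hM ⟨v, hv, rfl⟩
  have hf : ∀ v, ‖f v‖ ≤ M + η * ((τ.dep v - R : ℕ) : ℝ) := by
    refine ind τ ?_ fun v hv h2 => ?_
    · simpa [τ.dep_o] using hM τ.o (by simp [τ.dep_o])
    · by_cases h3 : τ.dep v ≤ R
      · simpa [Nat.sub_eq_zero_of_le h3] using hM v h3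
      · have h4 := τ.dep_par v hv
        have h5 := hR v (by omega)
        have h6 := norm_add_le (f v - f (τ.par v)) (f (τ.par v))
        rw [sub_add_cancel] at h6
        rw [show τ.dep v - R = (τ.dep (τ.par v) - R) + 1 by omega]
        push_cast
        linarith
  set t : V → ℝ := fun v => 2 * η * ((τ.dep v - R : ℕ) : ℝ) with ht
  set p : V → ℂ := fun v => ⟨max (-t v) (min (t v) (f v).re), max (-t v) (min (t v) (f v).im)⟩
    with hp
  have p0 : ∀ v, τ.dep v ≤ R → p v = 0 := fun v hv => by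
    apply Complex.ext <;> simp [hp, ht, Nat.sub_eq_zero_of_le hv]
  refine ⟨f - p, ?_, fun v => ?_⟩
  · obtain ⟨N, hN⟩ := exists_nat_ge (M / η)
    rw [div_le_iff₀ hη] at hN
    refine (ball_fin τ (R + N)).subset fun v hv => ?_
    by_contra hn
    have hn : R + N < τ.dep v := not_le.1 hn
    have h2 : (N : ℝ) ≤ ((τ.dep v - R : ℕ) : ℝ) := by exact_mod_cast (by omega)
    have h3 : ‖f v‖ ≤ t v := by
      have := hf v
      simp only [ht]
      nlinarith
    have h4 := abs_le.1 ((Complex.abs_re_le_norm (f v)).trans h3)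
    have h5 := abs_le.1 ((Complex.abs_im_le_norm (f v)).trans h3)
    apply hv
    rw [Pi.sub_apply, sub_eq_zero]
    apply Complex.ext
    · simp only [hp]; rw [min_eq_right h4.2, max_eq_right h4.1]
    · simp only [hp]; rw [min_eq_right h5.2, max_eq_right h5.1]
  · rw [sub_sub_cancel]
    by_cases hv : v = τ.o
    · simp [D, hv, p0 τ.o (by simp [τ.dep_o]), hη.le]
    · have h4 := τ.dep_par v hv
      simp only [D, hv, if_false]
      by_cases h3 : τ.dep v ≤ R
      · simp [p0 v h3, p0 (τ.par v) (by omega), hη.le]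
      · have h5 := hR v (by omega)
        have h6 : |t v - t (τ.par v)| = 2 * η := by
          simp only [ht]
          rw [show τ.dep v - R = (τ.dep (τ.par v) - R) + 1 by omega]
          push_cast
          rw [show ∀ a : ℝ, 2 * η * (a + 1) - 2 * η * a = 2 * η by intro a; ring,
            abs_of_pos (by positivity)]
        have h7 := cl_lip (t v) (t (τ.par v)) (f v).re (f (τ.par v)).re
        have h8 := cl_lip (t v) (t (τ.par v)) (f v).im (f (τ.par v)).im
        have h9 := (Complex.abs_re_le_norm _).trans h5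
        have h10 := (Complex.abs_im_le_norm _).trans h5
        rw [Complex.sub_re] at h9
        rw [Complex.sub_im] at h10
        refine (Complex.norm_le_abs_re_add_abs_im _).trans ?_
        simp only [hp, Complex.sub_re, Complex.sub_im]
        linarith

end Pool.Agent.H56.Lip
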