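import Pool.Agent.H56.Lip1

set_option autoImplicit false

namespace Pool.Agent.H56.Lip
open Filter Topology Set
open scoped Classical ZeroAtInfty

variable {V : Type} (τ : RTree V)

theorem main (φ : V → V) (hi : Function.Injective φ)
    (hφ : ∀ v, v ≠ τ.o → ∃ z, Adj τ (φ v) z ∧ Adj τ (φ (τ.par v)) z)
    (hA : ∀ w, ∀ ε : ℝ, 0 < ε → ∀ᶠ n in atTop, ∃ e, InL0 τ e ∧ Bd τ e ε ∧ e ∘ φ^[n] = dl w)
    (hB : ∀ w, ∀ ε : ℝ, 0 < ε → ∀ᶠ n in atTop,
      ∃ e, InL0 τ e ∧ Bd τ e ε ∧ Bd τ ((dl w + e) ∘ φ^[n]) ε) :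
    BoundedComp τ φ ∧ HypercyclicComp τ φ 1 := by
  let _ : TopologicalSpace V := ⊥
  have : DiscreteTopology V := ⟨rfl⟩
  have hc : Countable V := by
    rw [← countable_univ_iff]
    refine (countable_iUnion fun n : ℕ => (ball_fin τ n).countable).mono fun v _ => ?_
    exact mem_iUnion.2 ⟨τ.dep v, show τ.dep v ≤ τ.dep v from le_rfl⟩
  have mk : ∀ f, InL0 τ f → ∃ u : C₀(V, ℂ), ⇑u = D τ f := fun f hf =>
    ⟨⟨⟨D τ f, continuous_of_discreteTopology⟩, by
      rw [cocompact_eq_cofinite]; exact (inL0_iff τ f).1 hf⟩, rfl⟩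
  have nl : ∀ (u : C₀(V, ℂ)) (c : ℝ), ‖u‖ ≤ c ↔ ∀ v, ‖u v‖ ≤ c := fun u c => by
    rw [← ZeroAtInftyContinuousMap.norm_toBCF_eq_norm]
    have : Nonempty V := ⟨τ.o⟩
    exact BoundedContinuousFunction.norm_le_of_nonempty
  have sl : ∀ u : C₀(V, ℂ), InL0 τ (S τ u) := fun u => by
    rw [inL0_iff, DS, ← cocompact_eq_cofinite]; exact u.zero_at_infty'
  have bd : ∀ f, InL0 τ f → Bd τ f (nrm τ f) := fun f hf => by
    obtain ⟨u, hu⟩ := mk f hf
    exact bd_nrm τ f ‖u‖ fun v => hu ▸ (nl u _).1 le_rfl v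
  refine ⟨⟨τ.dep (φ τ.o) + 2, fun f hf => ⟨comp_L0 τ φ hi hφ f hf,
    nrm_le τ _ _ (comp_bd τ φ hφ f _ (bd f hf))⟩⟩, ?_⟩
  choose T0 hT0 using fun u : C₀(V, ℂ) => mk _ (comp_L0 τ φ hi hφ _ (sl u))
  have Sa : ∀ u w : V → ℂ, S τ (u + w) = S τ u + S τ w := fun u w =>
    D_inj τ _ _ (by rw [D_add, DS, DS, DS])
  have Ss : ∀ (c : ℂ) (u : V → ℂ), S τ (c • u) = c • S τ u := fun c u =>
    D_inj τ _ _ (by rw [D_smul, DS, DS])
  let T1 : C₀(V, ℂ) →ₗ[ℂ] C₀(V, ℂ) :=
    { toFun := T0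
      map_add' := fun u w => by
        apply DFunLike.coe_injective
        rw [ZeroAtInftyContinuousMap.coe_add, hT0, hT0, hT0, ZeroAtInftyContinuousMap.coe_add, Sa,
          ← D_add]
        rfl
      map_smul' := fun c u => by
        apply DFunLike.coe_injective
        rw [ZeroAtInftyContinuousMap.coe_smul, hT0, hT0, ZeroAtInftyContinuousMap.coe_smul, Ss,
          ← D_smul]
        rfl }
  let T : C₀(V, ℂ) →L[ℂ] C₀(V, ℂ) := T1.mkContinuous (τ.dep (φ τ.o) + 2) fun u => by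
    rw [nl]
    intro v
    change ‖T0 u v‖ ≤ _
    rw [hT0]
    exact comp_bd τ φ hφ _ _ (fun v => by rw [DS]; exact (nl u _).1 le_rfl v) v
  have hT : ∀ (n : ℕ) (u : C₀(V, ℂ)), ⇑((T ^ n) u) = D τ (S τ u ∘ φ^[n]) := by
    intro n
    induction n with
    | zero => intro u; simp [DS]
    | succ n ih =>
      intro u
      rw [pow_succ', mul_apply_eq_comp]
      change ⇑(T0 _) = _
      rw [hT0, ih, SD, Function.iterate_succ]
      rfl
  have hdl : ∀ w, InL0 τ (dl w) := fun w =>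
    inL0_fin τ _ ((finite_singleton w).subset fun v hv => by by_contra h; exact hv (if_neg h))
  choose x hx using fun w => mk _ (hdl w)
  have hsp : ∀ (F : Finset V) (g : V → ℂ), (∀ v, v ∉ F → g v = 0) →
      ∃ u ∈ Submodule.span ℂ (range x), ⇑u = D τ g := by
    intro F
    induction F using Finset.induction_on with
    | empty =>
      intro g hg
      refine ⟨0, Submodule.zero_mem _, ?_⟩
      funext v; simp [D, hg]
    | insert a F _ ih =>
      intro g hg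
      obtain ⟨u, u1, u2⟩ := ih (g - g a • dl a) fun v hv => by
        by_cases h : v = a
        · simp [h, dl]
        · simp [h, dl, hg v (by simp [h, hv])]
      refine ⟨u + g a • x a, Submodule.add_mem _ u1
        (Submodule.smul_mem _ _ (Submodule.subset_span ⟨a, rfl⟩)), ?_⟩
      rw [ZeroAtInftyContinuousMap.coe_add, ZeroAtInftyContinuousMap.coe_smul, u2, hx, ← D_smul,
        ← D_add, sub_add_cancel]
  refine (hyper T (range x) (countable_range x) ?_ ?_ ?_).elim fun f hf => ?_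
  pick_goal 4
  · refine ⟨S τ f, sl f, fun g hg ε hε => ?_⟩
    obtain ⟨u, hu⟩ := mk g hg
    obtain ⟨n, hn⟩ := hf u ε hε
    refine ⟨n, (nrm_le τ _ _ fun v => ?_).trans_lt hn⟩
    have := (nl _ _).1 (le_refl ‖(T ^ n) f - u‖) v
    rwa [ZeroAtInftyContinuousMap.coe_sub, hT, hu, ← D_sub, ← one_smul ℂ (S τ f ∘ φ^[n]),
      ← one_pow n] at this
  · rw [Metric.dense_iff]
    intro u r hr
    obtain ⟨g, g1, g2⟩ := trunc τ _ (sl u) (r / 7) (by positivity)
    obtain ⟨y, y1, y2⟩ := hsp g1.toFinset g fun v hv => by simpa using hv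
    refine ⟨y, ?_, y1⟩
    rw [mem_ball_iff_norm, norm_sub_rev]
    refine lt_of_le_of_lt ((nl _ (6 * (r / 7))).2 fun v => ?_) (by linarith)
    have := g2 v
    rwa [D_sub, DS, ← y2, ← ZeroAtInftyContinuousMap.coe_sub] at this
  · rintro _ ⟨w, rfl⟩ ε hε
    filter_upwards [hA w ε hε] with n ⟨e, e1, e2, e3⟩
    obtain ⟨u, hu⟩ := mk e e1
    refine ⟨u, (nl _ _).2 (hu ▸ e2), (nl _ _).2 fun v => ?_⟩
    rw [ZeroAtInftyContinuousMap.coe_sub, hT, hu, SD, e3, hx]
    simpa using hε.le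
  · rintro _ ⟨w, rfl⟩ ε hε
    filter_upwards [hB w ε hε] with n ⟨e, e1, e2, e3⟩
    obtain ⟨u, hu⟩ := mk e e1
    refine ⟨u, (nl _ _).2 (hu ▸ e2), (nl _ _).2 fun v => ?_⟩
    rw [hT, ZeroAtInftyContinuousMap.coe_add, hu, hx, ← D_add, SD]
    exact e3 v

lemma comb (ψ : V → V) (c : ℝ) (hc : 0 ≤ c) (F : Finset V)
    (h : ∀ w ∈ F, ∃ e, InL0 τ e ∧ Bd τ e c ∧ e ∘ ψ = dl w) (g : V → ℂ) (g1 : ∀ v, ‖g v‖ ≤ 1)
    (g0 : ∀ v, v ∉ F → g v = 0) : ∃ e, InL0 τ e ∧ Bd τ e (F.card * c) ∧ e ∘ ψ = g := by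
  induction F using Finset.induction_on generalizing g with
  | empty =>
    refine ⟨0, inL0_fin τ _ (by simp), fun v => by simp [D], ?_⟩
    funext v; simp [g0]
  | insert a F ha ih =>
    obtain ⟨e, e1, e2, e3⟩ := ih (fun w hw => h w (Finset.mem_insert_of_mem hw)) (g - g a • dl a)
      (fun v => by
        by_cases h : v = a
        · simp [h, dl]
        · simpa [h, dl] using g1 v)
      (fun v hv => by
        by_cases h : v = a
        · simp [h, dl]
        · simp [h, dl, g0 v (by simp [h, hv])])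
    obtain ⟨f, f1, f2, f3⟩ := h a (Finset.mem_insert_self _ _)
    refine ⟨e + g a • f, ?_, fun v => ?_, ?_⟩
    · rw [inL0_iff] at e1 f1 ⊢
      rw [D_add, D_smul]
      have := e1.add (f1.const_smul (g a))
      rw [smul_zero, add_zero] at this
      exact this
    · rw [D_add, D_smul, Finset.card_insert_of_notMem ha]
      refine (norm_add_le _ _).trans ?_
      have := mul_le_mul (g1 a) (f2 v) (norm_nonneg _) zero_le_one
      have := e2 v
      rw [Pi.smul_apply, norm_smul]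
      push_cast
      linarith
    · have : (e + g a • f) ∘ ψ = e ∘ ψ + g a • (f ∘ ψ) := rfl
      rw [this, e3, f3, sub_add_cancel]

end Pool.Agent.H56.Lip
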