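import Pool.Agent.H56.Lip2

set_option autoImplicit false

namespace Pool.Agent.H56.Lip
open Filter Topology Set
open scoped Classical

def nu (i : ℤ) : ℤ := (i.natAbs : ℤ) + 1

@[ext] structure W where
  i : ℤ
  h : ℤ
  ok : -nu i ≤ h

def mk' (i h : ℤ) : W := ⟨i, max h (-nu i), le_max_right _ _⟩

lemma nu_spec (i : ℤ) : (0 ≤ i ∧ nu i = i + 1) ∨ (i < 0 ∧ nu i = 1 - i) := by
  unfold nu; omega

lemma mk_spec (i h : ℤ) (hh : -nu i ≤ h) : (mk' i h).i = i ∧ (mk' i h).h = h :=
  ⟨rfl, max_eq_left hh⟩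

def parW (v : W) : W :=
  if 0 < v.i then (if v.h = -v.i - 1 then mk' (v.i - 1) (v.i + 1) else mk' v.i (v.h - 1))
  else if v.h = -v.i then (if v.i = 0 then v else mk' (v.i + 1) v.i)
  else if -v.i < v.h then mk' v.i (v.h - 1) else mk' v.i (v.h + 1)

lemma par_spec (v : W) :
    (0 < v.i ∧ v.h = -v.i - 1 ∧ (parW v).i = v.i - 1 ∧ (parW v).h = v.i + 1) ∨
    (0 < v.i ∧ v.h ≠ -v.i - 1 ∧ (parW v).i = v.i ∧ (parW v).h = v.h - 1) ∨
    (v.i = 0 ∧ v.h = 0 ∧ (parW v).i = 0 ∧ (parW v).h = 0) ∨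
    (v.i < 0 ∧ v.h = -v.i ∧ (parW v).i = v.i + 1 ∧ (parW v).h = v.i) ∨
    (v.i ≤ 0 ∧ -v.i < v.h ∧ (parW v).i = v.i ∧ (parW v).h = v.h - 1) ∨
    (v.i ≤ 0 ∧ v.h < -v.i ∧ (parW v).i = v.i ∧ (parW v).h = v.h + 1) := by
  have := v.ok
  have := nu_spec v.i
  unfold parW
  split_ifs
  · have := mk_spec (v.i - 1) (v.i + 1) (by unfold nu; omega); omega
  · have := mk_spec v.i (v.h - 1) (by omega); omega
  · omega
  · have := mk_spec (v.i + 1) v.i (by unfold nu; omega); omega
  · have := mk_spec v.i (v.h - 1) (by omega); omega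
  · have := mk_spec v.i (v.h + 1) (by omega); omega

def B (i : ℤ) : ℤ := if 0 < i then i ^ 2 + 3 * i - 1 else i ^ 2 - i
def en (i : ℤ) : ℤ := if 0 < i then -i - 1 else -i

lemma B_spec (i : ℤ) : 0 ≤ B i ∧ B 0 = 0 ∧ B 1 = 3 ∧ (1 < i → B i = B (i - 1) + 2 * i + 2) ∧
    (i < 0 → B i = B (i + 1) - 2 * i) := by
  refine ⟨?_, by simp [B], by simp [B], fun h => ?_, fun h => ?_⟩
  · unfold B; split_ifs <;> nlinarith
  · unfold B; rw [if_pos (by omega), if_pos (by omega)]; ring
  · unfold B; rw [if_neg (by omega), if_neg (by omega)]; ring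

lemma en_spec (i : ℤ) : (0 < i ∧ en i = -i - 1) ∨ (i ≤ 0 ∧ en i = -i) := by
  unfold en; split_ifs <;> omega

lemma box_fin (k : ℤ) : {w : W | |w.i| ≤ k ∧ |w.h| ≤ k}.Finite := by
  refine Finite.of_finite_image (f := fun w => (w.i, w.h))
    (((finite_Icc (-k) k).prod (finite_Icc (-k) k)).subset ?_) ?_
  · rintro _ ⟨w, ⟨h1, h2⟩, rfl⟩
    exact ⟨abs_le.1 h1, abs_le.1 h2⟩
  · intro a _ b _ h
    exact W.ext (congrArg Prod.fst h) (congrArg Prod.snd h)

def oW : W := ⟨0, 0, by decide⟩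

lemma ne_o (v : W) : v ≠ oW ↔ ¬ (v.i = 0 ∧ v.h = 0) := by
  rw [ne_eq, W.ext_iff]; rfl

def tr : RTree W where
  o := oW
  par := parW
  dep v := (B v.i).toNat + (v.h - en v.i).natAbs
  dep_o := by simp [oW, B, en]
  par_o := by simp [parW, oW]
  dep_par v hv := by
    rw [ne_o] at hv
    have h1 := B_spec v.i
    have h2 := (B_spec (parW v).i).1
    have h3 := en_spec v.i
    have h4 := en_spec (parW v).i
    have h7 := v.ok
    have h8 := nu_spec v.i
    rcases par_spec v with h | h | h | h | h | h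
    · by_cases h5 : v.i = 1
      · have h6 : (parW v).i = 0 := by omega
        rw [h6] at h2 h4 ⊢
        rw [h5] at h1 h3 h h7 h8 ⊢
        omega
      · rw [h.2.2.1] at h2 h4 ⊢
        omega
    · rw [h.2.2.1] at h2 h4 ⊢
      omega
    · exact absurd ⟨h.1, h.2.1⟩ hv
    · rw [h.2.2.1] at h2 h4 ⊢
      omega
    · rw [h.2.2.1] at h2 h4 ⊢
      omega
    · rw [h.2.2.1] at h2 h4 ⊢
      omega
  fin v := by
    refine (box_fin (|v.i| + |v.h| + 3)).subset fun w hw => ?_
    have hw : parW w = v := hw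
    have := par_spec w
    rw [hw] at this
    simp only [mem_ofPred_eq, Int.abs_eq_natAbs]
    omega
  child v := by
    have hv := v.ok
    have := nu_spec v.i
    have key : ∀ i h : ℤ, -nu i ≤ h → ∃ w : W, w.i = i ∧ w.h = h := fun i h hh =>
      ⟨_, mk_spec i h hh⟩
    by_cases h1 : 0 < v.i ∨ -v.i ≤ v.h
    · obtain ⟨w, w1, w2⟩ := key v.i (v.h + 1) (by omega)
      have := par_spec w
      exact ⟨w, (ne_o w).2 (by omega), W.ext (by omega) (by omega)⟩
    · by_cases h2 : v.h = v.i - 1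
      · obtain ⟨w, w1, w2⟩ := key (v.i - 1) (1 - v.i) (by unfold nu; omega)
        have := par_spec w
        exact ⟨w, (ne_o w).2 (by omega), W.ext (by omega) (by omega)⟩
      · obtain ⟨w, w1, w2⟩ := key v.i (v.h - 1) (by omega)
        have := par_spec w
        exact ⟨w, (ne_o w).2 (by omega), W.ext (by omega) (by omega)⟩

def ph (v : W) : W :=
  if -nu (v.i - 1) ≤ 2 * v.h then mk' (v.i - 1) (2 * v.h) else mk' (v.i - 2) (-2 * v.h - 1)

lemma ph_spec (v : W) :
    (-nu (v.i - 1) ≤ 2 * v.h ∧ (ph v).i = v.i - 1 ∧ (ph v).h = 2 * v.h) ∨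
    (2 * v.h < -nu (v.i - 1) ∧ (ph v).i = v.i - 2 ∧ (ph v).h = -2 * v.h - 1) := by
  unfold ph
  split_ifs with h
  · have := mk_spec _ _ h; omega
  · have := mk_spec (v.i - 2) (-2 * v.h - 1) (by unfold nu at *; omega); omega

lemma ph_inj : Function.Injective ph := by
  intro a b h
  have h1 := ph_spec a
  have h2 := ph_spec b
  rw [h] at h1
  rw [W.ext_iff]
  omega

lemma adj_symm {v w : W} (h : Adj tr v w) : Adj tr w v := by
  rcases h with h | h | h
  exacts [Or.inl h.symm, Or.inr (Or.inr h), Or.inr (Or.inl h)]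

lemma adj_up (a b : W) (h1 : a.i = b.i) (h2 : a.h = b.h + 1) : Adj tr a b := by
  have h3 := b.ok
  unfold nu at h3
  by_cases c : 0 < a.i ∨ -a.i < a.h
  · have := par_spec a
    exact Or.inr (Or.inl ⟨(ne_o a).2 (by omega), W.ext (show (parW a).i = _ by omega)
      (show (parW a).h = _ by omega)⟩)
  · have := par_spec b
    exact Or.inr (Or.inr ⟨(ne_o b).2 (by omega), W.ext (show (parW b).i = _ by omega)
      (show (parW b).h = _ by omega)⟩)

lemma adj_link (a b : W) (h1 : a.i = b.i + 1) (h2 : a.h = -nu a.i) (h3 : b.h = nu a.i) :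
    Adj tr a b := by
  unfold nu at h2 h3
  by_cases c : 0 < a.i
  · have := par_spec a
    exact Or.inr (Or.inl ⟨(ne_o a).2 (by omega), W.ext (show (parW a).i = _ by omega)
      (show (parW a).h = _ by omega)⟩)
  · have := par_spec b
    exact Or.inr (Or.inr ⟨(ne_o b).2 (by omega), W.ext (show (parW b).i = _ by omega)
      (show (parW b).h = _ by omega)⟩)

lemma step_up (a b : W) (h1 : a.i = b.i) (h2 : b.h = a.h + 1) :
    ∃ z, Adj tr (ph a) z ∧ Adj tr (ph b) z := by
  have ha := ph_spec a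
  have hb := ph_spec b
  rw [← h1] at hb
  by_cases c1 : -nu (a.i - 1) ≤ 2 * a.h
  · have := mk_spec (a.i - 1) (2 * a.h + 1) (by omega)
    exact ⟨mk' (a.i - 1) (2 * a.h + 1), adj_symm (adj_up _ _ (by omega) (by omega)),
      adj_up _ _ (by omega) (by omega)⟩
  · by_cases c2 : nu (a.i - 1) = -2 * a.h - 1
    · have := mk_spec (a.i - 1) (2 * a.h + 1) (by omega)
      exact ⟨mk' (a.i - 1) (2 * a.h + 1), adj_symm (adj_link _ _ (by omega)
        (by rw [this.1]; omega) (by rw [this.1]; omega)), adj_up _ _ (by omega) (by omega)⟩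
    · have := mk_spec (a.i - 2) (-2 * a.h - 2) (by unfold nu at *; omega)
      refine ⟨mk' (a.i - 2) (-2 * a.h - 2), adj_up _ _ (by omega) (by omega), ?_⟩
      by_cases c3 : -nu (a.i - 1) ≤ 2 * b.h
      · have e : (ph b).i = a.i - 1 := by omega
        exact adj_link _ _ (by omega) (by rw [e]; omega) (by rw [e]; omega)
      · exact adj_symm (adj_up _ _ (by omega) (by omega))

lemma step_link (a b : W) (h1 : a.i = b.i + 1) (h2 : a.h = -nu a.i) (h3 : b.h = nu a.i) :
    Adj tr (ph a) (ph b) := by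
  have n1 := nu_spec a.i
  have n2 := nu_spec (a.i - 1)
  have n3 := nu_spec (b.i - 1)
  have hb : (ph b).i = b.i - 1 ∧ (ph b).h = 2 * b.h := by
    have := ph_spec b
    omega
  rcases ph_spec a with ha | ha
  · exact adj_link _ _ (by omega) (by rw [ha.2.1]; omega) (by rw [ha.2.1]; omega)
  · exact adj_symm (adj_up _ _ (by omega) (by omega))

lemma ph_adj (v : W) (hv : v ≠ tr.o) : ∃ z, Adj tr (ph v) z ∧ Adj tr (ph (tr.par v)) z := by
  have hv := (ne_o v).1 hv
  change ∃ z, Adj tr (ph v) z ∧ Adj tr (ph (parW v)) z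
  rcases par_spec v with h | h | h | h | h | h
  · exact ⟨_, step_link v (parW v) (by omega) (by unfold nu; omega) (by unfold nu; omega),
      Or.inl rfl⟩
  · obtain ⟨z, z1, z2⟩ := step_up (parW v) v (by omega) (by omega)
    exact ⟨z, z2, z1⟩
  · omega
  · exact ⟨_, adj_symm (step_link (parW v) v (by omega) (by unfold nu; omega)
      (by unfold nu; omega)), Or.inl rfl⟩
  · obtain ⟨z, z1, z2⟩ := step_up (parW v) v (by omega) (by omega)
    exact ⟨z, z2, z1⟩
  · exact step_up v (parW v) (by omega) (by omega)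

noncomputable def bb (r t : ℤ) : ℝ := max 0 (1 - |(t : ℝ)| / r)

lemma bb_zero (r t : ℤ) (hr : 0 < r) (h : r ≤ |t|) : bb r t = 0 := by
  have h1 : (r : ℝ) ≤ |(t : ℝ)| := by exact_mod_cast h
  have h2 : (0 : ℝ) < r := by exact_mod_cast hr
  exact max_eq_left (by rw [sub_nonpos, le_div_iff₀ h2]; linarith)

lemma bb_lip (r t : ℤ) (hr : 0 < r) : |bb r (t + 1) - bb r t| ≤ 1 / r := by
  have h2 : (0 : ℝ) < r := by exact_mod_cast hr
  unfold bb
  rw [max_comm, max_comm 0]
  refine (abs_max_sub_max_le_abs _ _ _).trans ?_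
  rw [sub_sub_sub_cancel_left, ← sub_div, abs_div, abs_of_pos h2]
  gcongr
  refine (abs_abs_sub_abs_le_abs_sub _ _).trans ?_
  simp

lemma bb_le (r t : ℤ) (hr : 0 < r) : |bb r t| ≤ 1 := by
  have h2 : (0 : ℝ) < r := by exact_mod_cast hr
  have : 0 ≤ |(t : ℝ)| / r := by positivity
  rw [abs_of_nonneg (le_max_left _ _)]
  exact max_le zero_le_one (by linarith)

noncomputable def bump (j H r : ℤ) (z : W) : ℂ := if z.i = j then (bb r (z.h - H) : ℂ) else 0

lemma bump_zero (j H r : ℤ) (hr : 0 < r) (z : W) (h : z.i = j → r ≤ |z.h - H|) :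
    bump j H r z = 0 := by
  unfold bump
  split_ifs with h1
  · simp [bb_zero r _ hr (h h1)]
  · rfl

lemma bump_L0 (j H r : ℤ) (hr : 0 < r) : InL0 tr (bump j H r) := by
  refine inL0_fin _ _ ((box_fin (|j| + |H| + r)).subset fun v hv => ?_)
  by_contra hn
  refine hv (bump_zero j H r hr v fun h => ?_)
  simp only [mem_ofPred_eq, Int.abs_eq_natAbs] at *
  omega

lemma bump_bd (j H r : ℤ) (hr : 0 < r) (h1 : r ≤ |-nu j - H|) (h2 : r ≤ |nu (j + 1) - H|)
    (h3 : j = 0 → r ≤ |H|) : Bd tr (bump j H r) (1 / r) := by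
  have h0 : (0 : ℝ) ≤ 1 / r := by
    have h2 : (0 : ℝ) < r := by exact_mod_cast hr
    positivity
  have key : ∀ a b : W, a.i = b.i → a.h = b.h + 1 → ‖bump j H r a - bump j H r b‖ ≤ 1 / r := by
    intro a b e1 e2
    unfold bump
    rw [e1, e2]
    split_ifs
    · rw [← Complex.ofReal_sub, Complex.norm_real, show b.h + 1 - H = b.h - H + 1 by ring]
      exact bb_lip r _ hr
    · simpa using h0
  intro v
  unfold D
  split_ifs with hv
  · rw [bump_zero j H r hr v fun h => ?_]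
    · simpa using h0
    · have : v.i = 0 ∧ v.h = 0 := by rw [hv]; exact ⟨rfl, rfl⟩
      simp only [Int.abs_eq_natAbs] at *
      omega
  · have hv := (ne_o v).1 hv
    change ‖bump j H r v - bump j H r (parW v)‖ ≤ _
    simp only [Int.abs_eq_natAbs, nu] at h1 h2
    rcases par_spec v with h | h | h | h | h | h
    · rw [bump_zero j H r hr v fun h => ?_, bump_zero j H r hr (parW v) fun h => ?_]
      · simpa using h0
      all_goals
        simp only [Int.abs_eq_natAbs]
        omega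
    · exact key _ _ (by omega) (by omega)
    · omega
    · rw [bump_zero j H r hr v fun h => ?_, bump_zero j H r hr (parW v) fun h => ?_]
      · simpa using h0
      all_goals
        simp only [Int.abs_eq_natAbs]
        omega
    · exact key _ _ (by omega) (by omega)
    · rw [norm_sub_rev]; exact key _ _ (by omega) (by omega)

end Pool.Agent.H56.Lip
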