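import Pool.Agent.H56.Lip3

set_option autoImplicit false

namespace Pool.Agent.H56.Lip
open Filter Topology Set
open scoped Classical

def Cond (j H : ℤ) (s : ℕ) : Prop := (j.natAbs : ℤ) + s + 4 ≤ H ∨ (H = 0 ∧ j ≤ -2 ^ s)

lemma iso (j H : ℤ) (s : ℕ) (hc : Cond j H s) (y : W) (h1 : (ph^[s] y).i = j - s)
    (h2 : |(ph^[s] y).h - 2 ^ s * H| < 2 ^ s) : y.i = j ∧ y.h = H := by
  induction s with
  | zero =>
    simp only [Function.iterate_zero, id, pow_zero, one_mul, Int.abs_eq_natAbs] at h1 h2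
    omega
  | succ s ih =>
    have hp : (1 : ℤ) ≤ 2 ^ s := one_le_pow₀ (by norm_num)
    have e1 : (2 : ℤ) ^ (s + 1) = 2 * 2 ^ s := by ring
    have e2 : (2 : ℤ) ^ (s + 1) * H = 2 * (2 ^ s * H) := by ring
    rw [Function.iterate_succ_apply'] at h1 h2
    rw [e2, e1, abs_lt] at h2
    unfold Cond at hc ih
    rw [e1] at hc
    push_cast at h1 hc
    rw [Int.abs_eq_natAbs] at hc
    rcases ph_spec (ph^[s] y) with h | h
    · exact ih (by omega) (by omega) (by rw [abs_lt]; omega)
    · exfalso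
      have h3 := (ph^[s] y).ok
      unfold nu at h3 h
      rcases hc with hc | hc
      · have h4 : H - 1 ≤ 2 ^ s * H - 2 ^ s := by
          have : 0 ≤ H - 1 := by omega
          nlinarith
        omega
      · rw [hc.1, mul_zero] at h2
        omega

lemma pos_iter (y : W) (hy : 0 ≤ y.h) (s : ℕ) :
    (ph^[s] y).i = y.i - s ∧ (ph^[s] y).h = 2 ^ s * y.h := by
  induction s with
  | zero => simp
  | succ s ih =>
    have h0 : 0 ≤ 2 ^ s * y.h := by positivity
    have e2 : (2 : ℤ) ^ (s + 1) * y.h = 2 * (2 ^ s * y.h) := by ring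
    have := nu_spec ((ph^[s] y).i - 1)
    have := ph_spec (ph^[s] y)
    rw [Function.iterate_succ_apply', e2]
    push_cast
    omega

lemma inv (w : W) (hw : w.h ≠ 0) (m : ℕ) :
    ((ph^[m] w).h ≤ -2 ^ m ∧ (ph^[m] w).i = w.i - m) ∨
    (2 ^ m ≤ 2 * (ph^[m] w).h ∧ ((ph^[m] w).i = w.i - m ∨ (ph^[m] w).i = w.i - m - 1)) := by
  induction m with
  | zero => simp only [Function.iterate_zero, id, pow_zero]; omega
  | succ s ih =>
    have hp : (1 : ℤ) ≤ 2 ^ s := one_le_pow₀ (by norm_num)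
    have e1 : (2 : ℤ) ^ (s + 1) = 2 * 2 ^ s := by ring
    have := nu_spec ((ph^[s] w).i - 1)
    have := ph_spec (ph^[s] w)
    rw [Function.iterate_succ_apply', e1]
    push_cast
    omega

lemma grow (m : ℕ) (hm : 5 ≤ m) : 5 * (m : ℤ) < 2 ^ m := by
  induction m, hm using Nat.le_induction with
  | base => norm_num
  | succ m hm ih =>
    rw [pow_succ]; push_cast; omega

lemma sepc (w : W) (s m : ℕ) (hc : Cond (ph^[m] w).i (ph^[m] w).h s) :
    ∃ e, InL0 tr e ∧ Bd tr e (1 / 2 ^ s) ∧ e ∘ ph^[s + m] = dl w := by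
  set y := ph^[m] w with hy
  have hp : (1 : ℤ) ≤ 2 ^ s := one_le_pow₀ (by norm_num)
  have hy0 : 0 ≤ y.h := by unfold Cond at hc; omega
  refine ⟨bump (y.i - s) (2 ^ s * y.h) (2 ^ s), bump_L0 _ _ _ (by omega), ?_, ?_⟩
  · have := bump_bd (y.i - s) (2 ^ s * y.h) (2 ^ s) (by omega) ?_ ?_ ?_
    · simpa using this
    all_goals
      simp only [Int.abs_eq_natAbs, nu]
      rcases hc with hc | hc
      · have h4 : y.h - 1 ≤ 2 ^ s * y.h - 2 ^ s := by
          have : 0 ≤ y.h - 1 := by omega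
          nlinarith
        omega
      · rw [hc.1, mul_zero]
        omega
  · funext v
    rw [Function.comp, Function.iterate_add_apply]
    by_cases h : v = w
    · have := pos_iter y hy0 s
      rw [h, ← hy]
      simp [bump, dl, this.1, this.2, bb]
    · rw [dl, if_neg h]
      refine bump_zero _ _ _ (by omega) _ fun h1 => ?_
      by_contra h2
      have := iso y.i y.h s hc _ h1 (not_le.1 h2)
      exact h (ph_inj.iterate m (W.ext this.1 this.2))

lemma cond_of (k s m : ℕ) (hm : 2 * k + 4 * s + 10 ≤ m) (w : W)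
    (hw : (w.i.natAbs : ℤ) ≤ k + m + s) (h0 : w.h ≠ 0) : Cond (ph^[m] w).i (ph^[m] w).h s := by
  have h1 := grow m (by omega)
  have h2 := inv w h0 m
  have h3 := (ph^[m] w).ok
  unfold nu at h3
  left
  omega

lemma small (ε : ℝ) (hε : 0 < ε) : ∃ s : ℕ, 1 / (2 : ℝ) ^ s ≤ ε := by
  obtain ⟨s, hs⟩ := exists_pow_lt_of_lt_one hε (show (1 / 2 : ℝ) < 1 by norm_num)
  exact ⟨s, by rw [one_div_pow] at hs; exact hs.le⟩

lemma hA (w : W) (ε : ℝ) (hε : 0 < ε) :
    ∀ᶠ n in atTop, ∃ e, InL0 tr e ∧ Bd tr e ε ∧ e ∘ ph^[n] = dl w := by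
  obtain ⟨s, hs⟩ := small ε hε
  filter_upwards [eventually_ge_atTop (s + (3 * w.i.natAbs + 4 * s + 10 + 2 ^ s))] with n hn
  obtain ⟨m, rfl⟩ : ∃ m, n = s + m := Nat.exists_eq_add_of_le ((Nat.le_add_right _ _).trans hn)
  obtain ⟨e, e1, e2, e3⟩ := sepc w s m (by
    by_cases h0 : w.h = 0
    · have := pos_iter w h0.ge m
      right
      rw [this.1, this.2, h0]
      have h1 : ((3 * w.i.natAbs + 4 * s + 10 + 2 ^ s : ℕ) : ℤ) ≤ m := by
        exact_mod_cast (by omega)
      push_cast at h1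
      rw [Int.abs_eq_natAbs] at h1
      omega
    · exact cond_of w.i.natAbs s m (by have := Nat.zero_le (2 ^ s); omega) w (by omega) h0)
  exact ⟨e, e1, fun v => (e2 v).trans hs, e3⟩

lemma hB (w : W) (ε : ℝ) (hε : 0 < ε) : ∀ᶠ n in atTop,
    ∃ e, InL0 tr e ∧ Bd tr e ε ∧ Bd tr ((dl w + e) ∘ ph^[n]) ε := by
  by_cases h0 : w.h = 0
  swap
  · filter_upwards [eventually_ge_atTop (w.h.natAbs + 5)] with n hn
    refine ⟨0, inL0_fin _ _ (by simp), fun v => by simp [D, hε.le], ?_⟩
    have : (dl w + 0) ∘ ph^[n] = 0 := by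
      funext v
      simp only [add_zero, Function.comp, dl, Pi.zero_apply]
      rw [if_neg]
      intro h
      have h1 := grow n (by omega)
      by_cases h2 : v.h = 0
      · have := (pos_iter v h2.ge n).2
        rw [h, h2, mul_zero] at this
        exact h0 this
      · have := inv v h2 n
        rw [h] at this
        omega
    rw [this]
    intro v
    simp [D, hε.le]
  obtain ⟨ρ, hρ⟩ := exists_nat_one_div_lt hε
  obtain ⟨s, hs⟩ := small (ε / (2 * (ρ + 1))) (by positivity)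
  filter_upwards [eventually_ge_atTop (s + (3 * w.i.natAbs + 4 * s + 10 + ρ))] with n hn
  obtain ⟨m, rfl⟩ : ∃ m, n = s + m := ⟨n - s, by omega⟩
  set I : ℤ := w.i + (s + m : ℕ) with hI
  have hI2 : I = w.i + s + m := by rw [hI]; push_cast; ring
  have hc := mk_spec I 0 (by unfold nu; omega)
  have hw : ph^[s + m] (mk' I 0) = w := by
    have := pos_iter (mk' I 0) hc.2.ge (s + m)
    exact W.ext (by omega) (by rw [this.2, hc.2, h0, mul_zero])
  set F : Finset W := ((Finset.Icc (-(ρ : ℤ)) ρ).erase 0).image (mk' I) with hF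
  have hcard : (F.card : ℝ) ≤ 2 * (ρ + 1) := by
    have h1 : F.card ≤ 2 * (ρ + 1) := by
      refine Finset.card_image_le.trans (Finset.card_erase_le.trans ?_)
      rw [Int.card_Icc]; omega
    exact_mod_cast h1
  obtain ⟨e, e1, e2, e3⟩ := comb tr ph^[s + m] (1 / 2 ^ s) (by positivity) F (fun v hv => by
      obtain ⟨h, h1, rfl⟩ := Finset.mem_image.1 hv
      rw [Finset.mem_erase, Finset.mem_Icc] at h1
      have h2 := mk_spec I h (by unfold nu; omega)
      exact sepc _ s m (cond_of w.i.natAbs s m (by omega) _ (by omega) (by omega)))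
    (bump I 0 (ρ + 1) - dl (mk' I 0)) (fun v => by
      by_cases h : v = mk' I 0
      · simp [h, bump, dl, hc.1, hc.2, bb]
      · simp only [Pi.sub_apply, dl, if_neg h, sub_zero, bump]
        split_ifs
        · rw [Complex.norm_real]; exact bb_le _ _ (by omega)
        · simp)
    (fun v hv => by
      by_cases h : v = mk' I 0
      · simp [h, bump, dl, hc.1, hc.2, bb]
      · simp only [Pi.sub_apply, dl, if_neg h, sub_zero]
        refine bump_zero _ _ _ (by omega) _ fun h1 => ?_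
        by_contra h2
        rw [W.ext_iff] at h
        rw [Int.abs_eq_natAbs] at h2
        have h3 := mk_spec I v.h (h1 ▸ v.ok)
        exact hv (Finset.mem_image.2 ⟨v.h, Finset.mem_erase.2 ⟨by omega,
          Finset.mem_Icc.2 (by omega)⟩, W.ext (by omega) (by omega)⟩))
  refine ⟨e, e1, fun v => (e2 v).trans ?_, ?_⟩
  · rw [le_div_iff₀ (by positivity)] at hs
    have := mul_le_mul_of_nonneg_right hcard (show (0 : ℝ) ≤ 1 / 2 ^ s by positivity)
    linarith
  · have h1 : dl w ∘ ph^[s + m] = dl (mk' I 0) := by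
      funext v
      simp only [Function.comp, dl]
      rw [← hw]
      simp only [(ph_inj.iterate (s + m)).eq_iff]
    have : (dl w + e) ∘ ph^[s + m] = dl w ∘ ph^[s + m] + e ∘ ph^[s + m] := rfl
    rw [this, h1, e3, add_sub_cancel]
    intro v
    refine (bump_bd I 0 (ρ + 1) (by omega) ?_ ?_ ?_ v).trans (by push_cast; exact hρ.le)
    all_goals
      simp only [Int.abs_eq_natAbs, nu]
      omega

theorem final : BoundedComp tr ph ∧ HypercyclicComp tr ph 1 ∧ (backSet ph oW).Infinite := by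
  obtain ⟨h1, h2⟩ := main tr ph ph_inj ph_adj hA hB
  refine ⟨h1, h2, (Ici_infinite 1).mono fun n hn => ⟨hn, mk' n 0, ?_⟩⟩
  have hc := mk_spec n 0 (by unfold nu; omega)
  have := pos_iter (mk' n 0) hc.2.ge n
  exact W.ext (by rw [this.1, hc.1]; simp [oW]) (by rw [this.2, hc.2]; simp [oW])

end Pool.Agent.H56.Lip
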