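import Mathlib

set_option autoImplicit false

namespace Pool.Agent.H56.Lip
open Filter Topology Set

/-- A rooted locally finite tree on the vertex set `V`, given by its root `o`, the parent map
`par` (`par v = v⁻` for `v ≠ o`) and the depth `dep v = |v|`.  Every vertex has finitely many
children and at least one child (so only the root may have degree one). -/
structure RTree (V : Type) where
  o : V
  par : V → V
  dep : V → ℕ
  dep_o : dep o = 0
  par_o : par o = o
  dep_par : ∀ v, v ≠ o → dep v = dep (par v) + 1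
  fin : ∀ v, {w | par w = v}.Finite
  child : ∀ v, ∃ w, w ≠ o ∧ par w = v

variable {V : Type}

/-- Membership in the little Lipschitz space: `f v - f v⁻ → 0` as `|v| → ∞`. -/
def InL0 (τ : RTree V) (f : V → ℂ) : Prop :=
  Tendsto (fun v => f v - f (τ.par v)) (comap τ.dep atTop) (𝓝 0)

/-- The norm `max {|f o|, sup_{v ≠ o} |f v - f v⁻|}`. -/
noncomputable def nrm (τ : RTree V) (f : V → ℂ) : ℝ :=
  max ‖f τ.o‖ (⨆ v : {v // v ≠ τ.o}, ‖f v - f (τ.par v)‖)

/-- `C_φ` maps the little Lipschitz space into itself and is bounded. -/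
def BoundedComp (τ : RTree V) (φ : V → V) : Prop :=
  ∃ C : ℝ, ∀ f, InL0 τ f → InL0 τ (f ∘ φ) ∧ nrm τ (f ∘ φ) ≤ C * nrm τ f

/-- `l • C_φ` is hypercyclic: the orbit `(l C_φ)^n f = l^n • f ∘ φ^n` of some `f` is dense. -/
def HypercyclicComp (τ : RTree V) (φ : V → V) (l : ℂ) : Prop :=
  ∃ f, InL0 τ f ∧ ∀ g, InL0 τ g → ∀ ε : ℝ, 0 < ε → ∃ n : ℕ, nrm τ (l ^ n • (f ∘ φ^[n]) - g) < ε

/-- The set `N_v(φ)`. -/
def backSet (φ : V → V) (v : V) : Set ℕ := {n | 1 ≤ n ∧ ∃ w, φ^[n] w = v}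

end Pool.Agent.H56.Lip
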