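import Mathlib

set_option autoImplicit false
set_option linter.unusedSectionVars false

namespace Pool.Agent.H56.MConv

open Finset

variable {ι : Type*} [DecidableEq ι] [Fintype ι]

def ex (b : ι → ℤ) (x y : ι) : ι → ℤ := fun j => b j + (if j = x then 1 else 0) - (if j = y then 1 else 0)

structure MC (B : Set (ι → ℤ)) (d : ℤ) : Prop where
  deg : ∀ u ∈ B, ∑ j, u j = d
  exch : ∀ u ∈ B, ∀ v ∈ B, ∀ p, v p < u p → ∃ q, u q < v q ∧ ex u q p ∈ B

theorem ex_self (b : ι → ℤ) (x : ι) : ex b x x = b := by ext j; simp [ex]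

theorem sum_ex (b : ι → ℤ) (x y : ι) (R : Finset ι) : ∑ j ∈ R, ex b x y j =
    ∑ j ∈ R, b j + (if x ∈ R then 1 else 0) - (if y ∈ R then 1 else 0) := by
  simp [ex, sum_add_distrib, sum_sub_distrib]

def dist (u v : ι → ℤ) : ℕ := ∑ j, (u j - v j).natAbs

theorem dist_ex {u v : ι → ℤ} {p q : ι} (hp : v p < u p) (hq : u q < v q) :
    dist (ex u q p) v < dist u v := by
  have hne : p ≠ q := by rintro rfl; omega
  apply sum_lt_sum
  · intro j _
    simp only [ex]
    split_ifs with h1 h2 h2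
    · omega
    · subst h1; omega
    · subst h2; omega
    · omega
  · refine ⟨p, mem_univ _, ?_⟩
    simp only [ex, hne, if_false, if_true]
    omega

theorem MC.tight {B : Set (ι → ℤ)} {d : ℤ} (h : MC B d) {b : ι → ℤ} (hb : b ∈ B) (R : Finset ι)
    (hR : ∀ x ∈ R, ∀ y, ex b x y ∈ B → y ∈ R) : ∀ b' ∈ B, ∑ j ∈ R, b' j ≤ ∑ j ∈ R, b j := by
  intro b'
  induction hn : dist b' b using Nat.strong_induction_on generalizing b' with
  | _ n ih =>
    intro hb'
    by_cases hc : ∃ p, p ∉ R ∧ b p < b' p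
    · obtain ⟨p, h1, h2⟩ := hc
      obtain ⟨q, h3, h4⟩ := h.exch b' hb' b hb p h2
      have := ih _ (hn ▸ dist_ex h2 h3) _ rfl h4
      rw [sum_ex] at this
      split_ifs at this <;> omega
    · push Not at hc
      by_cases hc2 : ∃ p, p ∉ R ∧ b' p < b p
      · obtain ⟨p, h1, h2⟩ := hc2
        obtain ⟨q, h3, h4⟩ := h.exch b hb b' hb' p h2
        have : q ∈ R := by
          by_contra h5
          have := hc q h5
          omega
        exact absurd (hR q this p h4) h1
      · push Not at hc2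
        have e1 := sum_add_sum_compl R b
        have e2 := sum_add_sum_compl R b'
        rw [h.deg b hb] at e1
        rw [h.deg b' hb'] at e2
        have : ∑ j ∈ Rᶜ, b j ≤ ∑ j ∈ Rᶜ, b' j := sum_le_sum fun j hj => hc2 j (mem_compl.1 hj)
        omega

theorem MC.persist {B : Set (ι → ℤ)} {d : ℤ} (h : MC B d) {b : ι → ℤ} (hb : b ∈ B) {u v x y : ι}
    (h1 : ex b u v ∈ B) (h2 : ex b x y ∈ B) (h3 : ex b x v ∉ B) : ex (ex b u v) x y ∈ B := by
  have xv : x ≠ v := by rintro rfl; exact h3 (by rwa [ex_self])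
  have xu : x ≠ u := by rintro rfl; exact h3 h1
  have yv : y ≠ v := by rintro rfl; exact h3 h2
  by_cases uv : u = v
  · subst uv; rwa [ex_self]
  obtain ⟨q, a, c⟩ := h.exch _ h2 _ h1 v (by simp [ex, xv.symm, yv.symm, Ne.symm uv])
  by_cases qu : q = u
  · subst qu
    convert c using 1
    ext j; simp only [ex]; ring
  · have qy : q = y := by
      by_contra qy
      simp only [ex, qu, qy, if_false] at a
      split_ifs at a <;> omega
    subst qy
    refine absurd ?_ h3
    convert c using 1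
    ext j; simp only [ex]; ring

def SumS (B : Set (ι → ℤ)) (k : ℕ) : Set (ι → ℤ) :=
  {c | ∃ b : Fin k → ι → ℤ, (∀ s, b s ∈ B) ∧ c = ∑ s, b s}

def Ed (B : Set (ι → ℤ)) {k : ℕ} (b : Fin k → ι → ℤ) (x y : ι) : Prop := ∃ s, ex (b s) x y ∈ B

def Reach (B : Set (ι → ℤ)) {k : ℕ} (b : Fin k → ι → ℤ) (x : ι) : ℕ → ι → Prop
  | 0 => fun y => y = x
  | m + 1 => fun y => Reach B b x m y ∨ ∃ l, Reach B b x m l ∧ Ed B b l y

theorem Reach.mono {B : Set (ι → ℤ)} {k : ℕ} {b : Fin k → ι → ℤ} {x y : ι} {m m' : ℕ}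
    (h : Reach B b x m y) (hm : m ≤ m') : Reach B b x m' y := by
  induction hm with
  | refl => exact h
  | step _ ih => exact Or.inl ih

theorem MC.reach {B : Set (ι → ℤ)} {d : ℤ} (h : MC B d) {k : ℕ} (x : ι) (m : ℕ) :
    ∀ (b : Fin k → ι → ℤ), (∀ s, b s ∈ B) → ∀ y, Reach B b x m y → ex (∑ s, b s) x y ∈ SumS B k := by
  induction m with
  | zero => rintro b hb y rfl; exact ⟨b, hb, ex_self _ _⟩
  | succ m ih =>
    intro b hb y hy
    by_cases h0 : Reach B b x m y
    · exact ih b hb y h0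
    obtain ⟨l, h1, s, h2⟩ := hy.resolve_left h0
    let b' := Function.update b s (ex (b s) l y)
    have hb' : ∀ t, b' t ∈ B := by
      intro t
      by_cases e : t = s
      · subst e; simpa [b'] using h2
      · simpa [b', e] using hb t
    have key : ∀ m' ≤ m, ∀ z, Reach B b x m' z → Reach B b' x m' z := by
      intro m'
      induction m' with
      | zero => exact fun _ z hz => hz
      | succ m' ih' =>
        rintro hm z (hz | ⟨w, a1, t, a2⟩)
        · exact Or.inl (ih' (by omega) z hz)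
        refine Or.inr ⟨w, ih' (by omega) w a1, t, ?_⟩
        by_cases e : t = s
        · subst e
          simp only [b', Function.update_self]
          refine h.persist (hb t) h2 a2 fun a3 => h0 ?_
          exact Reach.mono (m := m' + 1) (Or.inr ⟨w, a1, t, a3⟩) hm
        · simpa [b', e] using a2
    have := ih b' hb' l (key m le_rfl l h1)
    convert this using 1
    have e : ∑ t, b' t = ex (∑ t, b t) l y := by
      ext j
      simp only [b', Finset.sum_apply, ex]
      rw [← add_sum_erase _ _ (mem_univ s), ← add_sum_erase _ (fun t => b t j) (mem_univ s),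
        sum_congr rfl (g := fun t => b t j)
          (fun t ht => by rw [Function.update_of_ne (ne_of_mem_erase ht)])]
      simp only [Function.update_self, ex]; ring
    rw [e]
    ext j; simp only [ex]; ring

theorem MC.path {B : Set (ι → ℤ)} {d : ℤ} (h : MC B d) {k : ℕ} {b : Fin k → ι → ℤ}
    (hb : ∀ s, b s ∈ B) {x y : ι} (hp : Relation.ReflTransGen (Ed B b) x y) :
    ex (∑ s, b s) x y ∈ SumS B k := by
  obtain ⟨m, hm⟩ : ∃ m, Reach B b x m y := by
    induction hp with
    | refl => exact ⟨0, rfl⟩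
    | tail _ a ih => obtain ⟨m, hm⟩ := ih; exact ⟨m + 1, Or.inr ⟨_, hm, a⟩⟩
  exact h.reach x m b hb y hm

theorem MC.tightS {B : Set (ι → ℤ)} {d : ℤ} (h : MC B d) {k : ℕ} {b : Fin k → ι → ℤ}
    (hb : ∀ s, b s ∈ B) (R : Finset ι) (hR : ∀ x ∈ R, ∀ y, Ed B b x y → y ∈ R) :
    ∀ c ∈ SumS B k, ∑ j ∈ R, c j ≤ ∑ j ∈ R, (∑ s, b s) j := by
  rintro c ⟨b', hb', rfl⟩
  simp only [Finset.sum_apply]
  rw [sum_comm, sum_comm (s := R)]
  exact sum_le_sum fun s _ => h.tight (hb s) R (fun x hx y e => hR x hx y ⟨s, e⟩) _ (hb' s)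

theorem MC.sumS {B : Set (ι → ℤ)} {d : ℤ} (h : MC B d) (k : ℕ) : MC (SumS B k) (k * d) := by
  classical
  have hd : ∀ u ∈ SumS B k, ∑ j, u j = k * d := by
    rintro u ⟨b, hb, rfl⟩
    simp only [Finset.sum_apply]
    rw [sum_comm, sum_congr rfl fun s _ => h.deg _ (hb s)]
    simp
  refine ⟨hd, ?_⟩
  rintro u ⟨b, hb, rfl⟩ v hv p hp
  by_contra hc
  push Not at hc
  let R := univ.filter fun q => Relation.ReflTransGen (Ed B b) q p
  have h1 := h.tightS hb Rᶜ (fun x hx y e => by
    simp only [R, mem_compl, mem_filter, mem_univ, true_and] at hx ⊢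
    exact fun h' => hx (h'.head e)) v hv
  have h2 : ∑ j ∈ R, v j < ∑ j ∈ R, (∑ s, b s) j := by
    apply sum_lt_sum
    · intro j hj
      by_contra h3
      exact hc j (by omega) (h.path hb (mem_filter.1 hj).2)
    · exact ⟨p, mem_filter.2 ⟨mem_univ _, .refl⟩, hp⟩
  have e1 := sum_add_sum_compl R v
  have e2 := sum_add_sum_compl R (∑ s, b s)
  rw [hd v hv] at e1
  rw [hd _ ⟨b, hb, rfl⟩] at e2
  omega

theorem MC.link {B : Set (ι → ℤ)} {d : ℤ} (h : MC B d) {l u b1 : ι → ℤ} (hlu : ∀ j, l j ≤ u j)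
    (h1 : b1 ∈ B) (hu : ∀ j, b1 j ≤ u j) :
    ∀ b2 ∈ B, (∀ j, l j ≤ b2 j) → ∃ b ∈ B, ∀ j, l j ≤ b j ∧ b j ≤ u j := by
  intro b2
  induction hn : dist b2 b1 using Nat.strong_induction_on generalizing b2 with
  | _ n ih =>
    intro h2 hl
    by_cases hc : ∃ p, u p < b2 p
    · obtain ⟨p, hp⟩ := hc
      have hp' : b1 p < b2 p := (hu p).trans_lt hp
      obtain ⟨q, a1, a2⟩ := h.exch b2 h2 b1 h1 p hp'
      refine ih _ (hn ▸ dist_ex hp' a1) _ rfl a2 fun j => ?_
      have := hl j
      have := hlu j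
      simp only [ex]
      split_ifs with e1 e2 e2
      · omega
      · omega
      · subst e2; omega
      · omega
    · push Not at hc
      exact ⟨b2, h2, fun j => ⟨hl j, hc j⟩⟩

theorem rmono {r r' : ι → ι → Prop} (h : ∀ x y, r x y → r' x y) {x y : ι}
    (p : Relation.ReflTransGen r x y) : Relation.ReflTransGen r' x y := by
  induction p with
  | refl => exact .refl
  | tail _ a ih => exact ih.tail (h _ _ a)

def ind (t : Finset ι) (j : ι) : ℤ := if j ∈ t then 1 else 0

def Good (B : Set (ι → ℤ)) (a : ι → ℤ) : Prop :=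
  (∃ b ∈ B, ∀ j, b j ≤ a j) ∧ ∀ p, ∃ b ∈ B, ∀ j, a j - 1 + ind {p} j ≤ b j

theorem MC.split {B : Set (ι → ℤ)} {d : ℤ} (h : MC B d) {k i : ℕ} (hi : i ≤ k) {a : ι → ℤ}
    (ha : Good (SumS B (k + 1)) a) (hs : ∑ j, a j = (k + 1 : ℕ) * d + i) :
    ∃ b ∈ B, Good (SumS B k) (a - b) := by
  classical
  obtain ⟨⟨b1, h1, h2⟩, h3⟩ := ha
  have hS := h.sumS (k + 1)
  obtain ⟨c, hc, hc2⟩ : ∃ c ∈ SumS B (k + 1), ∀ j, a j - 1 ≤ c j ∧ c j ≤ a j := by
    rcases isEmpty_or_nonempty ι with h0 | ⟨⟨p⟩⟩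
    · exact ⟨b1, h1, fun j => h0.elim j⟩
    obtain ⟨b2, a1, a2⟩ := h3 p
    refine hS.link (fun j => by omega) h1 h2 b2 a1 fun j => ?_
    have := a2 j
    unfold ind at this
    split_ifs at this <;> omega
  let T := univ.filter fun j => c j < a j
  have hT : T.card = i := by
    have e1 := hS.deg c hc
    have e2 : ∑ j, (a j - c j) = T.card := by
      rw [card_filter]
      push_cast
      refine sum_congr rfl fun j _ => ?_
      have := hc2 j
      split_ifs <;> omega
    rw [sum_sub_distrib] at e2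
    omega
  obtain ⟨b, hb, rfl⟩ := hc
  have grow : ∀ m ≤ T.card, ∃ (W : Finset ι) (L : Finset (Fin (k + 1))), W ⊆ T ∧ W.card = m ∧
      L.card ≤ m ∧ ∀ x ∈ W, ∃ y, y ∉ T ∧
        Relation.ReflTransGen (fun x y => ∃ s ∈ L, ex (b s) x y ∈ B) x y := by
    intro m
    induction m with
    | zero => exact fun _ => ⟨∅, ∅, by simp, rfl, by simp, by simp⟩
    | succ m ih =>
      intro hm
      obtain ⟨W, L, a1, a2, a3, a4⟩ := ih (by omega)
      obtain ⟨x, hx, y, ⟨s, e⟩, hy⟩ : ∃ x ∈ T \ W, ∃ y, Ed B b x y ∧ y ∉ T \ W := by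
        by_contra hn
        push Not at hn
        obtain ⟨p, hp⟩ : (T \ W).Nonempty := by
          rw [← card_pos, card_sdiff_of_subset a1]; omega
        obtain ⟨c', a5, a6⟩ := h3 p
        refine absurd (h.tightS hb _ hn c' a5) (not_le.2 (sum_lt_sum (fun j hj => ?_) ⟨p, hp, ?_⟩))
        · have := a6 j
          have := (mem_filter.1 (mem_sdiff.1 hj).1).2
          unfold ind at *
          split_ifs at * <;> omega
        · have := a6 p
          have := (mem_filter.1 (mem_sdiff.1 hp).1).2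
          simp only [ind, mem_singleton, if_true] at *
          omega
      obtain ⟨x1, x2⟩ := mem_sdiff.1 hx
      have mono : ∀ u v, Relation.ReflTransGen (fun x y => ∃ s ∈ L, ex (b s) x y ∈ B) u v →
          Relation.ReflTransGen (fun x y => ∃ s' ∈ insert s L, ex (b s') x y ∈ B) u v :=
        fun u v => rmono fun _ _ ⟨s', p1, p2⟩ => ⟨s', mem_insert_of_mem p1, p2⟩
      refine ⟨insert x W, insert s L, insert_subset x1 a1, by rw [card_insert_of_notMem x2, a2],
        (card_insert_le _ _).trans (by omega), fun z hz => ?_⟩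
      rcases mem_insert.1 hz with rfl | hz
      · by_cases hyT : y ∈ T
        · obtain ⟨y', p1, p2⟩ := a4 y (by by_contra h'; exact hy (mem_sdiff.2 ⟨hyT, h'⟩))
          exact ⟨y', p1, (mono _ _ p2).head ⟨s, mem_insert_self _ _, e⟩⟩
        · exact ⟨y, hyT, .single ⟨s, mem_insert_self _ _, e⟩⟩
      · obtain ⟨y', p1, p2⟩ := a4 z hz
        exact ⟨y', p1, mono _ _ p2⟩
  obtain ⟨W, L, a1, a2, a3, a4⟩ := grow _ le_rfl
  obtain rfl := eq_of_subset_of_card_le a1 a2.ge
  obtain ⟨s0, hs0⟩ : ∃ s0, s0 ∉ L := by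
    by_contra hn
    push Not at hn
    have := eq_univ_iff_forall.2 hn
    subst this
    simp at a3
    omega
  let b' : Fin k → ι → ℤ := fun s => b (s0.succAbove s)
  have hb' : ∀ s, b' s ∈ B := fun s => hb _
  have e : ∀ j, (∑ s, b s) j = b s0 j + (∑ s, b' s) j := by
    intro j
    rw [Fin.sum_univ_succAbove b s0]; rfl
  refine ⟨b s0, hb s0, ⟨_, ⟨b', hb', rfl⟩, fun j => ?_⟩, fun p => ?_⟩
  · have := hc2 j
    have := e j
    simp only [Pi.sub_apply]; omega
  by_cases hp : p ∈ T
  · obtain ⟨y, p1, p2⟩ := a4 p hp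
    refine ⟨_, h.path hb' (x := p) (y := y) (rmono ?_ p2), fun j => ?_⟩
    · rintro u v ⟨s, q1, q2⟩
      obtain ⟨s', rfl⟩ := Fin.exists_succAbove_eq (x := s) (y := s0) (fun e => hs0 (e ▸ q1))
      exact ⟨s', q2⟩
    · have := hc2 j
      have := e j
      simp only [T, mem_filter, mem_univ, true_and, not_lt] at p1
      simp only [Pi.sub_apply, ex, ind, mem_singleton]
      split_ifs with e1 e2 e2
      · subst e2; omega
      · omega
      · subst e2; omega
      · omega
  · refine ⟨_, ⟨b', hb', rfl⟩, fun j => ?_⟩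
    have := hc2 j
    have := e j
    simp only [T, mem_filter, mem_univ, true_and, not_lt] at hp
    simp only [Pi.sub_apply, ind, mem_singleton]
    split_ifs with e1
    · subst e1; omega
    · omega

theorem good_add {B : Set (ι → ℤ)} {k : ℕ} {a b : ι → ℤ} (hb : b ∈ B) (ha : Good (SumS B k) a) :
    Good (SumS B (k + 1)) (b + a) := by
  have key : ∀ c ∈ SumS B k, b + c ∈ SumS B (k + 1) := by
    rintro c ⟨f, hf, rfl⟩
    refine ⟨Fin.cons b f, fun s => ?_, by simp [Fin.sum_univ_succ]⟩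
    induction s using Fin.cases <;> simp [*]
  obtain ⟨⟨c, h1, h2⟩, h3⟩ := ha
  refine ⟨⟨_, key c h1, fun j => by simpa using h2 j⟩, fun p => ?_⟩
  obtain ⟨c, h1, h2⟩ := h3 p
  exact ⟨_, key c h1, fun j => by have := h2 j; simp only [Pi.add_apply]; omega⟩

def Face (B : Set (ι → ℤ)) (a : ι → ℤ) (t : Finset ι) : Prop := ∃ b ∈ B, ∀ j, b j + ind t j ≤ a j

theorem sum_ind (t : Finset ι) : ∑ j, ind t j = t.card := by
  simp [ind]

theorem MC.aug {B : Set (ι → ℤ)} {d : ℤ} (h : MC B d) {a : ι → ℤ} {s t : Finset ι}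
    (ht : Face B a t) (hc : s.card < t.card) (hs : Face B a s) :
    ∃ j ∈ t, j ∉ s ∧ Face B a (insert j s) := by
  classical
  obtain ⟨b, hb, hb2⟩ := ht
  obtain ⟨b', hb', hb2'⟩ := hs
  induction hn : dist b' b using Nat.strong_induction_on generalizing b' with
  | _ n ih =>
    by_contra hno
    push Not at hno
    have h1 : ∀ j ∈ t, j ∉ s → b j < b' j := by
      intro j a1 a2
      by_contra a3
      refine hno j a1 a2 ⟨b', hb', fun l => ?_⟩
      have := hb2 l
      have := hb2' l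
      simp only [ind, mem_insert] at *
      by_cases e : l = j
      · subst e; simp only [a1, true_or, if_true] at *; omega
      · simp only [e, false_or]; omega
    let R := univ.filter fun z => ∃ f, b' f < b f ∧ b' f + ind s f < a f ∧ ex b' f z ∈ B
    have h2 : ∀ z ∈ R, b' z ≤ b z := by
      intro z hz
      by_contra a3
      obtain ⟨f, p1, p2, p3⟩ := (mem_filter.1 hz).2
      obtain ⟨j, q1, q2, q3⟩ := ih _ (hn ▸ dist_ex (by omega) p1) _ p3 (fun l => by
        have := hb2' l
        simp only [ex]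
        split_ifs with e1 e2 e2
        · omega
        · subst e1; omega
        · omega
        · omega) rfl
      exact hno j q1 q2 q3
    have h3 := h.tight hb' R (fun x hx y e => by
      obtain ⟨f, p1, p2, p3⟩ := (mem_filter.1 hx).2
      refine mem_filter.2 ⟨mem_univ _, f, p1, p2, ?_⟩
      by_contra p4
      have := h.persist hb' e p3 p4
      refine p4 ?_
      convert this using 1
      ext j; simp only [ex]; ring) b hb
    have h4 : ∀ f, b' f < b f → a f ≤ b' f + ind s f := by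
      intro f p1
      by_contra p2
      refine absurd h3 (not_le.2 (sum_lt_sum h2 ⟨f, ?_, p1⟩))
      exact mem_filter.2 ⟨mem_univ _, f, p1, by omega, by rwa [ex_self]⟩
    have h5 : ∑ j, (b j + ind t j) ≤ ∑ j, (b' j + ind s j) := by
      refine sum_le_sum fun j _ => ?_
      have := h4 j
      have := h1 j
      have := hb2 j
      simp only [ind] at *
      split_ifs at * <;> simp_all <;> omega
    rw [sum_add_distrib, sum_add_distrib, h.deg b hb, h.deg b' hb', sum_ind, sum_ind] at h5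
    omega

theorem face_down {B : Set (ι → ℤ)} {a : ι → ℤ} {s t : Finset ι} (hst : s ⊆ t) (ht : Face B a t) :
    Face B a s := by
  obtain ⟨b, hb, h⟩ := ht
  refine ⟨b, hb, fun j => ?_⟩
  have := h j
  have := @hst j
  simp only [ind] at *
  split_ifs at * <;> simp_all
  omega

theorem MC.face_card {B : Set (ι → ℤ)} {d : ℤ} (h : MC B d) {a : ι → ℤ} {t : Finset ι}
    (ht : Face B a t) : d + t.card ≤ ∑ j, a j := by
  obtain ⟨b, hb, h2⟩ := ht
  rw [← h.deg b hb, ← sum_ind, ← sum_add_distrib]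
  exact sum_le_sum fun j _ => h2 j

theorem MC.good_face {B : Set (ι → ℤ)} {d : ℤ} (h : MC B d) {a : ι → ℤ} {i : ℕ} (ha : Good B a)
    (hs : ∑ j, a j = d + i) :
    (∃ t, Face B a t ∧ t.card = i) ∧ ∀ p, ∃ t, Face B a t ∧ t.card = i ∧ p ∉ t := by
  obtain ⟨⟨b1, h1, h2⟩, h3⟩ := ha
  have key : ∀ c ∈ B, (∀ j, a j - 1 ≤ c j ∧ c j ≤ a j) →
      Face B a (univ.filter fun j => c j < a j) ∧ (univ.filter fun j => c j < a j).card = i := by
    intro c hc hc2
    have e0 : ∀ j, c j + ind (univ.filter fun j => c j < a j) j = a j := by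
      intro j
      have := hc2 j
      simp only [ind, mem_filter, mem_univ, true_and]
      split_ifs <;> omega
    refine ⟨⟨c, hc, fun j => (e0 j).le⟩, ?_⟩
    have := sum_congr rfl (s₁ := univ) fun j _ => e0 j
    rw [sum_add_distrib, h.deg c hc, sum_ind, hs] at this
    exact_mod_cast add_left_cancel this
  have k2 : ∀ p, ∃ t, Face B a t ∧ t.card = i ∧ p ∉ t := by
    intro p
    obtain ⟨b2, a1, a2⟩ := h3 p
    obtain ⟨c, hc, hc2⟩ := h.link (l := fun j => a j - 1 + ind {p} j)
      (fun j => by unfold ind; split_ifs <;> omega) h1 h2 b2 a1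
      a2
    obtain ⟨q1, q2⟩ := key c hc fun j => by
      have := hc2 j
      unfold ind at this
      split_ifs at this <;> omega
    refine ⟨_, q1, q2, ?_⟩
    have := (hc2 p).1
    simp only [ind, mem_singleton, if_true] at this
    simp only [mem_filter, mem_univ, true_and]
    omega
  refine ⟨?_, k2⟩
  rcases isEmpty_or_nonempty ι with h0 | ⟨⟨p⟩⟩
  · exact ⟨_, key b1 h1 fun j => h0.elim j⟩
  · exact (k2 p).imp fun t h => ⟨h.1, h.2.1⟩

theorem MC.face_good {B : Set (ι → ℤ)} {d : ℤ} (h : MC B d) {a : ι → ℤ} {i : ℕ}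
    (h0 : ∃ t, Face B a t ∧ t.card = i) (h1 : ∀ t, Face B a t → t.card ≤ i)
    (h2 : ∀ p, ∃ t, Face B a t ∧ t.card = i ∧ p ∉ t) : Good B a ∧ ∑ j, a j = d + i := by
  have key : ∀ t : Finset ι, t.card = i → ∀ b ∈ B, (∀ j, b j + ind t j ≤ a j) →
      ∀ j, b j + ind t j = a j := by
    intro t ht b hb hb2 p
    by_contra hp
    have hp' : b p + ind t p < a p := lt_of_le_of_ne (hb2 p) hp
    have ins : ∀ l, l ∉ t → ∀ c ∈ B, (∀ j, c j + ind t j ≤ a j) → c l < a l → False := by
      intro l hl c hc a1 a2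
      have := h1 (insert l t) ⟨c, hc, fun j => by
        have := a1 j
        simp only [ind, mem_insert] at *
        by_cases e : j = l
        · subst e; simp only [true_or, if_true]; omega
        · simp only [e, false_or]; omega⟩
      rw [card_insert_of_notMem hl] at this
      omega
    have hpt : p ∈ t := by
      by_contra a1
      exact ins p a1 b hb hb2 (by simpa [ind, a1] using hp')
    obtain ⟨t', a1, a2, a3⟩ := h2 p
    obtain ⟨l, b1, b2, b', hb', b3⟩ := h.aug a1 (s := t.erase p) (by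
      rw [card_erase_of_mem hpt]
      have := card_pos.2 ⟨p, hpt⟩
      omega) (face_down (erase_subset _ _) ⟨b, hb, hb2⟩)
    have lp : l ≠ p := fun e => a3 (e ▸ b1)
    have lt : l ∉ t := fun e => b2 (mem_erase.2 ⟨lp, e⟩)
    have c1 := b3 l
    have c2 := hb2 l
    simp only [ind, mem_insert, true_or, if_true, lt, if_false] at c1 c2
    by_cases e : b l < a l
    · exact ins l lt b hb hb2 e
    obtain ⟨q, q1, q2⟩ := h.exch b hb b' hb' l (by omega)
    have ql : l ≠ q := by rintro rfl; omega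
    refine ins l lt _ q2 (fun j => ?_) (by simp only [ex, ql, if_true, if_false]; omega)
    have c3 := b3 j
    have c4 := hb2 j
    simp only [ex]
    split_ifs with e1 e2 e2
    · omega
    · subst e1
      by_cases e3 : j = p
      · subst e3; omega
      · simp only [ind, mem_insert, mem_erase, e2, e3, false_or, ne_eq, not_false_eq_true,
          true_and] at c3 ⊢
        omega
    · omega
    · omega
  obtain ⟨t, ⟨b, hb, hb2⟩, ht⟩ := h0
  refine ⟨⟨⟨b, hb, fun j => ?_⟩, fun p => ?_⟩, ?_⟩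
  · have := hb2 j
    unfold ind at this
    split_ifs at this <;> omega
  · obtain ⟨t, ⟨c, hc, hc2⟩, a1, a2⟩ := h2 p
    refine ⟨c, hc, fun j => ?_⟩
    have := key t a1 c hc hc2 j
    simp only [ind, mem_singleton] at this ⊢
    by_cases e : j = p
    · subst e; simp only [a2, if_false, if_true] at this ⊢; omega
    · simp only [e, if_false]; split_ifs at this <;> omega
  · rw [← sum_congr rfl fun j _ => key t ht b hb hb2 j, sum_add_distrib, h.deg b hb, sum_ind, ht]

end Pool.Agent.H56.MConv
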