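import Mathlib

open Polynomial

namespace Pool.Agent.H56.MinLen

noncomputable def P : ℤ[X] := X ^ 4 + X ^ 3 + 2 * X ^ 2 - X + 1

noncomputable def T : ℤ[X] := X ^ 2 - X - 1

noncomputable def Lam {R : Type} [CommRing R] (w : ℕ → R) (F : ℤ[X]) : R :=
  F.sum (fun i a => (a : R) * w i)

lemma Lam_add {R : Type} [CommRing R] (w : ℕ → R) (F G : ℤ[X]) :
    Lam w (F + G) = Lam w F + Lam w G := by
  unfold Lam
  rw [Polynomial.sum_add_index]
  · intro i; simp
  · intro i a b; push_cast; ring

lemma Lam_monomial {R : Type} [CommRing R] (w : ℕ → R) (k : ℕ) (a : ℤ) :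
    Lam w (monomial k a) = (a : R) * w k := by
  unfold Lam
  rw [Polynomial.sum_monomial_index]
  simp

lemma P_mul_monomial (k : ℕ) (a : ℤ) :
    P * monomial k a = monomial (k + 4) a + monomial (k + 3) a + monomial (k + 2) (2 * a)
      + monomial (k + 1) (-a) + monomial k a := by
  simp only [← C_mul_X_pow_eq_monomial, P, map_mul, map_neg]
  have : (C (2 : ℤ) : ℤ[X]) = 2 := rfl
  rw [this]
  ring

lemma vanish {R : Type} [CommRing R] (w : ℕ → R)
    (hw : ∀ k, w (k + 4) + w (k + 3) + 2 * w (k + 2) - w (k + 1) + w k = 0) (S : ℤ[X]) :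
    Lam w (P * S) = 0 := by
  induction S using Polynomial.induction_on' with
  | add p q hp hq => rw [mul_add, Lam_add, hp, hq, add_zero]
  | monomial k a =>
    rw [P_mul_monomial]
    simp only [Lam_add, Lam_monomial]
    push_cast
    linear_combination (a : R) * hw k

noncomputable def phi : ℝ := (1 + Real.sqrt 5) / 2

lemma phi_sq : phi ^ 2 = phi + 1 := by
  unfold phi
  have h : Real.sqrt 5 ^ 2 = 5 := Real.sq_sqrt (by norm_num)
  nlinarith [h]

lemma phi_gt : (3 : ℝ) / 2 < phi := by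
  unfold phi
  have : (2 : ℝ) < Real.sqrt 5 := by
    rw [Real.lt_sqrt (by norm_num)]; norm_num
  linarith

/-- class length -/
noncomputable def Lc (F : ℤ[X]) (r : ℕ) : ℤ :=
  ∑ i ∈ F.support.filter (fun i => i % 3 = r), |F.coeff i|

noncomputable def Ac (F : ℤ[X]) (r : ℕ) : ℝ :=
  ∑ i ∈ F.support.filter (fun i => i % 3 = r), (F.coeff i : ℝ) * phi ^ i

lemma Lc_nonneg (F : ℤ[X]) (r : ℕ) : 0 ≤ Lc F r :=
  Finset.sum_nonneg (fun _ _ => abs_nonneg _)

lemma len_split (F : ℤ[X]) :
    ∑ i ∈ F.support, |F.coeff i| = Lc F 0 + Lc F 1 + Lc F 2 := by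
  unfold Lc
  simp only [Finset.sum_filter]
  rw [← Finset.sum_add_distrib, ← Finset.sum_add_distrib]
  refine Finset.sum_congr rfl (fun i _ => ?_)
  have : i % 3 = 0 ∨ i % 3 = 1 ∨ i % 3 = 2 := by omega
  rcases this with h | h | h <;> simp [h]

lemma Lc_even (S : ℤ[X]) (r : ℕ) (_hr : r < 3) : Even (Lc (P * S) r) := by
  have h := vanish (R := ZMod 2) (fun i => if i % 3 = r then 1 else 0) (by
    intro k
    have h4 : (k + 4) % 3 = (k + 1) % 3 := by omega
    have h3 : (k + 3) % 3 = k % 3 := by omega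
    have h2 : (2 : ZMod 2) = 0 := rfl
    simp only [h4, h3, h2]
    have : ∀ x : ZMod 2, x + x = 0 := by decide
    linear_combination this (if k % 3 = r then 1 else 0)) S
  rw [← ZMod.intCast_eq_zero_iff_even]
  rw [← h]
  unfold Lc Lam Polynomial.sum
  rw [Finset.sum_filter]
  push_cast
  refine Finset.sum_congr rfl (fun i _ => ?_)
  split_ifs with hi
  · rw [mul_one]
    rcases abs_choice ((P * S).coeff i) with h1 | h1
    · rw [h1]
    · have : ((|(P * S).coeff i| : ℤ) : ZMod 2) = -(((P * S).coeff i : ℤ) : ZMod 2) := by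
        rw [h1]; push_cast; rfl
      have hn : ∀ x : ZMod 2, -x = x := by decide
      rw [hn] at this
      exact this
  · simp

lemma Ac_eq (S : ℤ[X]) (r s : ℕ) (hr : r < 3) (hs : s < 3) :
    Ac (P * S) r = Ac (P * S) s := by
  have h := vanish (R := ℝ)
    (fun i => (if i % 3 = r then phi ^ i else 0) - (if i % 3 = s then phi ^ i else 0)) (by
    intro k
    have h4 : (k + 4) % 3 = (k + 1) % 3 := by omega
    have h3 : (k + 3) % 3 = k % 3 := by omega
    have key : ∀ t, t < 3 → (if (k + 4) % 3 = t then phi ^ (k + 4) else 0)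
        + (if (k + 3) % 3 = t then phi ^ (k + 3) else 0)
        + 2 * (if (k + 2) % 3 = t then phi ^ (k + 2) else 0)
        - (if (k + 1) % 3 = t then phi ^ (k + 1) else 0)
        + (if k % 3 = t then phi ^ k else 0) = 2 * phi ^ (k + 2) := by
      intro t ht
      have hp := phi_sq
      have : k % 3 = t ∨ (k + 1) % 3 = t ∨ (k + 2) % 3 = t := by omega
      rcases this with h | h | h
      · rw [if_neg (by omega), if_pos (by omega), if_neg (by omega), if_neg (by omega), if_pos h]
        linear_combination phi ^ k * (phi - 1) * hp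
      · rw [if_pos (by omega), if_neg (by omega), if_neg (by omega), if_pos h, if_neg (by omega)]
        linear_combination phi ^ k * (phi ^ 2 + phi) * hp
      · rw [if_neg (by omega), if_neg (by omega), if_pos h, if_neg (by omega), if_neg (by omega)]
        ring
    linear_combination key r hr - key s hs) S
  unfold Lam Polynomial.sum at h
  unfold Ac
  rw [Finset.sum_filter, Finset.sum_filter, ← sub_eq_zero, ← Finset.sum_sub_distrib]
  refine Eq.trans (Finset.sum_congr rfl (fun i _ => ?_)) h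
  beta_reduce
  split_ifs <;> ring

lemma Ac_zero_of_Lc (F : ℤ[X]) (r : ℕ) (h : Lc F r = 0) : Ac F r = 0 := by
  unfold Lc at h
  rw [Finset.sum_eq_zero_iff_of_nonneg (fun _ _ => abs_nonneg _)] at h
  unfold Ac
  refine Finset.sum_eq_zero (fun i hi => ?_)
  have := abs_eq_zero.mp (h i hi)
  simp [this]

lemma big_of_Ac (F : ℤ[X]) (hF : F ≠ 0) (h : Ac F (F.natDegree % 3) = 0) :
    5 ≤ Lc F (F.natDegree % 3) := by
  set n := F.natDegree with hn
  have hmem : n ∈ F.support.filter (fun i => i % 3 = n % 3) := by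
    simp only [Finset.mem_filter, and_true]
    exact natDegree_mem_support_of_nonzero hF
  unfold Ac at h
  unfold Lc
  rw [← Finset.add_sum_erase _ _ hmem] at h ⊢
  set s := (F.support.filter (fun i => i % 3 = n % 3)).erase n with hs
  have hc : (1 : ℤ) ≤ |F.coeff n| := by
    have : F.coeff n ≠ 0 := by
      exact mem_support_iff.mp (natDegree_mem_support_of_nonzero hF)
    exact Int.one_le_abs this
  have hphi := phi_gt
  have hp0 : 0 < phi := by linarith
  have hle : ∀ i ∈ s, |(F.coeff i : ℝ) * phi ^ i| * phi ^ 3 ≤ ((|F.coeff i| : ℤ) : ℝ) * phi ^ n := by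
    intro i hi
    rw [hs, Finset.mem_erase, Finset.mem_filter] at hi
    have h1 : i ≤ n := le_natDegree_of_mem_supp i hi.2.1
    have h2 : i + 3 ≤ n := by omega
    rw [abs_mul, abs_of_pos (pow_pos hp0 i), mul_assoc, ← pow_add]
    push_cast
    exact mul_le_mul_of_nonneg_left (pow_le_pow_right₀ (by linarith) h2) (abs_nonneg _)
  have h1 : |(F.coeff n : ℝ) * phi ^ n| ≤ ∑ i ∈ s, |(F.coeff i : ℝ) * phi ^ i| := by
    have : (F.coeff n : ℝ) * phi ^ n = -∑ i ∈ s, (F.coeff i : ℝ) * phi ^ i := by linarith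
    rw [this, abs_neg]
    exact Finset.abs_sum_le_sum_abs _ _
  have h2 : (∑ i ∈ s, |(F.coeff i : ℝ) * phi ^ i|) * phi ^ 3
      ≤ ((∑ i ∈ s, |F.coeff i| : ℤ) : ℝ) * phi ^ n := by
    rw [Finset.sum_mul]
    push_cast
    rw [Finset.sum_mul]
    refine Finset.sum_le_sum (fun i hi => ?_)
    have := hle i hi
    push_cast at this
    exact this
  rw [abs_mul, abs_of_pos (pow_pos hp0 n)] at h1
  have hc' : (1 : ℝ) ≤ |(F.coeff n : ℝ)| := by exact_mod_cast hc
  have hpn : 0 < phi ^ n := pow_pos hp0 n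
  have h3 : phi ^ 3 * phi ^ n ≤ ((∑ i ∈ s, |F.coeff i| : ℤ) : ℝ) * phi ^ n := by
    have h4 : phi ^ n ≤ ∑ i ∈ s, |(F.coeff i : ℝ) * phi ^ i| := by nlinarith
    have h5 : 0 < phi ^ 3 := pow_pos hp0 3
    nlinarith
  have h6 : phi ^ 3 ≤ ((∑ i ∈ s, |F.coeff i| : ℤ) : ℝ) := le_of_mul_le_mul_right h3 hpn
  have h7 : (3 : ℝ) < phi ^ 3 := by nlinarith [phi_sq]
  have h8 : (3 : ℤ) < ∑ i ∈ s, |F.coeff i| := by exact_mod_cast lt_of_lt_of_le h7 h6
  omega

theorem six_le (S : ℤ[X]) (hF : P * S ≠ 0) : 6 ≤ ∑ i ∈ (P * S).support, |(P * S).coeff i| := by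
  rw [len_split]
  have e0 := Lc_even S 0 (by norm_num)
  have e1 := Lc_even S 1 (by norm_num)
  have e2 := Lc_even S 2 (by norm_num)
  have n0 := Lc_nonneg (P * S) 0
  have n1 := Lc_nonneg (P * S) 1
  have n2 := Lc_nonneg (P * S) 2
  rw [Int.even_iff] at e0 e1 e2
  by_cases hz : Lc (P * S) 0 = 0 ∨ Lc (P * S) 1 = 0 ∨ Lc (P * S) 2 = 0
  · have hA : Ac (P * S) ((P * S).natDegree % 3) = 0 := by
      have hlt : (P * S).natDegree % 3 < 3 := Nat.mod_lt _ (by norm_num)
      rcases hz with h | h | h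
      · rw [Ac_eq S _ 0 hlt (by norm_num)]; exact Ac_zero_of_Lc _ _ h
      · rw [Ac_eq S _ 1 hlt (by norm_num)]; exact Ac_zero_of_Lc _ _ h
      · rw [Ac_eq S _ 2 hlt (by norm_num)]; exact Ac_zero_of_Lc _ _ h
    have hb := big_of_Ac _ hF hA
    have : (P * S).natDegree % 3 = 0 ∨ (P * S).natDegree % 3 = 1 ∨ (P * S).natDegree % 3 = 2 := by
      omega
    rcases this with h | h | h <;> rw [h] at hb <;> omega
  · omega

lemma P_natDegree : P.natDegree = 4 := by unfold P; compute_degree!

lemma P_monic : P.Monic := by unfold P; monicity!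

lemma P_irreducible : Irreducible P := by
  have hne : P ≠ 1 := by
    intro h
    have := P_natDegree
    rw [h] at this
    simp at this
  rw [P_monic.irreducible_iff_lt_natDegree_lt hne]
  intro q hq hdeg hdvd
  rw [P_natDegree] at hdeg
  have hev : ∀ x : ℤ, q.eval x ∣ P.eval x := fun x => Polynomial.eval_dvd hdvd
  have h0 := hev 0
  have h1 := hev 1
  have h2 := hev 2
  have hm1 := hev (-1)
  have hm2 := hev (-2)
  simp only [P, eval_add, eval_sub, eval_pow, eval_mul, eval_X, eval_one, eval_ofNat] at h0 h1 h2 hm1 hm2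
  norm_num at h0 h1 h2 hm1 hm2
  simp only [Finset.mem_Ioc] at hdeg
  have hd : q.natDegree = 1 ∨ q.natDegree = 2 := by omega
  have hlc : q.coeff q.natDegree = 1 := hq
  rcases hd with hd | hd
  · have hq' := q.as_sum_range_C_mul_X_pow
    rw [hd] at hq' hlc
    simp only [Finset.sum_range_succ, Finset.sum_range_zero, hlc] at hq'
    set a := q.coeff 0
    rw [hq'] at h0 h1 h2
    simp at h0 h1 h2
    rcases Int.isUnit_iff.mp (isUnit_of_dvd_one h0) with h | h <;> rw [h] at h1 h2 <;> (revert h1 h2; decide)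
  · have hq' := q.as_sum_range_C_mul_X_pow
    rw [hd] at hq' hlc
    simp only [Finset.sum_range_succ, Finset.sum_range_zero, hlc] at hq'
    set a := q.coeff 0
    set b := q.coeff 1
    rw [hq'] at h0 h1 h2 hm1 hm2
    simp at h0 h1 h2 hm1 hm2
    have hb1 := Int.le_of_dvd (by norm_num) h1
    have hb2 := Int.le_of_dvd (by norm_num) hm1
    rcases Int.isUnit_iff.mp (isUnit_of_dvd_one h0) with h | h <;> rw [h] at h1 h2 hm1 hm2 hb1 hb2
    · have : -2 ≤ b := by omega
      have : b ≤ 2 := by omega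
      interval_cases b <;> (revert h1 h2 hm1 hm2; decide)
    · have : -4 ≤ b := by omega
      have : b ≤ 4 := by omega
      interval_cases b <;> (revert h1 h2 hm1 hm2; decide)

lemma PT : P * T = monomial 6 1 + monomial 3 (-4) + monomial 0 (-1) := by
  simp only [← C_mul_X_pow_eq_monomial, P, T, map_neg, map_one]
  have : (C (4 : ℤ) : ℤ[X]) = 4 := rfl
  rw [this]
  ring

lemma len_PT : ∑ i ∈ (P * T).support, |(P * T).coeff i| = 6 := by
  have hsub : (P * T).support ⊆ {0, 3, 6} := by
    intro i hi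
    rw [mem_support_iff, PT] at hi
    by_contra hc
    simp only [Finset.mem_insert, Finset.mem_singleton, not_or] at hc
    apply hi
    simp only [coeff_add, coeff_monomial]
    rw [if_neg (by omega), if_neg (by omega), if_neg (by omega)]
    simp
  rw [Finset.sum_subset hsub (by intro i _ hi; simp only [mem_support_iff, not_not] at hi; simp [hi])]
  rw [PT]
  simp [coeff_monomial, coeff_one]

end Pool.Agent.H56.MinLen
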