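import Mathlib

set_option autoImplicit false

namespace Pool.Agent.H56.Mono

open Filter Topology Set

variable {V : Type} [NormedAddCommGroup V] [NormedSpace ℝ V]

theorem sandwich {B : Set (V × ℝ)} (hB : Convex ℝ B) (hne : B.Nonempty) {ψ : V → ℝ}
    (h1 : ConvexOn ℝ univ ψ) (h2 : Continuous ψ) (h : ∀ p ∈ B, 0 ≤ p.2 + ψ p.1) :
    ∃ (l : V →L[ℝ] ℝ) (c : ℝ), (∀ p ∈ B, l p.1 + c ≤ p.2) ∧ ∀ v, -l v - c ≤ ψ v := by
  have hA : Convex ℝ {p : V × ℝ | p.2 < -ψ p.1} := by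
    simpa using h1.neg.convex_strict_hypograph
  obtain ⟨f, u, f1, f2⟩ := geometric_hahn_banach_open hA
    (isOpen_lt continuous_snd (by fun_prop)) hB (disjoint_left.2 fun p hp hp' => by
      have := h p hp'
      simp only [mem_ofPred_eq] at hp
      linarith)
  set s := f (0, 1) with hs
  have hf : ∀ v t, f (v, t) = f (v, 0) + s * t := fun v t => by
    rw [show (v, t) = (v, 0) + t • ((0 : V), (1 : ℝ)) by simp, map_add, map_smul, smul_eq_mul,
      mul_comm]
  obtain ⟨⟨v0, t0⟩, h0⟩ := hne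
  have sp : 0 < s := by
    have a1 := f1 (v0, -ψ v0 - 1) (by simp)
    have a2 := f2 _ h0
    have a3 := h _ h0
    rw [hf] at a1 a2
    simp only at a3
    by_contra hc
    nlinarith
  refine ⟨-s⁻¹ • f.comp (ContinuousLinearMap.inl ℝ V ℝ), s⁻¹ * u, fun p hp => ?_, fun v => ?_⟩
  · have := f2 p hp
    rw [show p = (p.1, p.2) from rfl, hf] at this
    have e : p.2 = s⁻¹ * (s * p.2) := by field_simp
    rw [e]
    simp only [smul_apply, ContinuousLinearMap.comp_apply,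
      ContinuousLinearMap.inl_apply, smul_eq_mul]
    nlinarith [inv_pos.2 sp]
  · simp only [smul_apply, ContinuousLinearMap.comp_apply,
      ContinuousLinearMap.inl_apply, smul_eq_mul]
    refine le_of_forall_pos_le_add fun ε hε => ?_
    have := f1 (v, -ψ v - ε) (by simpa using hε)
    rw [hf] at this
    have e : ψ v + ε = s⁻¹ * (s * (ψ v + ε)) := by field_simp
    rw [e]
    nlinarith [inv_pos.2 sp]

theorem cont_of_convex {f : V → ℝ} (hf : ConvexOn ℝ univ f) (M : ℝ)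
    (h : ∀ x, ‖x‖ ≤ 1 → f x ≤ M) : Continuous f := by
  rw [← continuousOn_univ]
  have : ∃ x₀ ∈ (univ : Set V), (𝓝 x₀).IsBoundedUnder (· ≤ ·) f := by
    refine ⟨0, trivial, M, ?_⟩
    rw [eventually_map]
    filter_upwards [Metric.closedBall_mem_nhds (0 : V) one_pos] with x hx
    exact h x (by simpa using hx)
  exact ((hf.continuousOn_tfae isOpen_univ univ_nonempty).out 1 3).2 this

/-- subgradient -/
def Sg (g : V → ℝ) (u : V) (s : V →L[ℝ] ℝ) : Prop := ∀ v, g u + s (v - u) ≤ g v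

theorem exists_sg {g : V → ℝ} (h1 : ConvexOn ℝ univ g) (h2 : Continuous g) (u : V) :
    ∃ s, Sg g u s := by
  obtain ⟨l, c, a1, a2⟩ := sandwich (B := {(u, -g u)}) (convex_singleton _) (singleton_nonempty _)
    h1 h2 (by simp)
  refine ⟨-l, fun v => ?_⟩
  have := a1 _ rfl
  have := a2 v
  simp only [neg_apply, map_sub] at *
  linarith

theorem sg_add {q ψ : V → ℝ} (hq : ConvexOn ℝ univ q) (h1 : ConvexOn ℝ univ ψ) (h2 : Continuous ψ)
    {u : V} {s : V →L[ℝ] ℝ} (h : Sg (fun v => q v + ψ v) u s) :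
    ∃ l, Sg q u (s - l) ∧ Sg ψ u l := by
  have hc : ConvexOn ℝ univ fun v => q v - s v - (q u - s u + ψ u) :=
    (hq.sub (s.toLinearMap.concaveOn convex_univ)).sub (concaveOn_const _ convex_univ)
  obtain ⟨l, c, a1, a2⟩ := sandwich (B := {p | q p.1 - s p.1 - (q u - s u + ψ u) ≤ p.2})
    (by simpa using hc.convex_epigraph) ⟨(u, q u - s u - (q u - s u + ψ u)), by simp⟩ h1 h2 (fun p hp => by
      have := h p.1
      simp only [mem_ofPred_eq, map_sub] at *
      linarith)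
  have b1 := a1 (u, q u - s u - (q u - s u + ψ u)) (by simp)
  have b2 := a2 u
  refine ⟨-l, fun v => ?_, fun v => ?_⟩
  · have := a1 (v, q v - s v - (q u - s u + ψ u)) (by simp)
    simp only [neg_apply, sub_apply, map_sub] at *
    linarith
  · have := a2 v
    simp only [neg_apply, map_sub] at *
    linarith

def Refl (V : Type) [NormedAddCommGroup V] [NormedSpace ℝ V] : Prop :=
  ∀ φ : (V →L[ℝ] ℝ) →L[ℝ] ℝ, ∃ x : V, ∀ f : V →L[ℝ] ℝ, φ f = f x

structure MM (T : V → Set (V →L[ℝ] ℝ)) : Prop where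
  mono : ∀ x y : V, ∀ f ∈ T x, ∀ g ∈ T y, 0 ≤ (f - g) (x - y)
  max : ∀ (x : V) (f : V →L[ℝ] ℝ), (∀ y : V, ∀ g ∈ T y, 0 ≤ (f - g) (x - y)) → f ∈ T x

theorem MM.ex {T : V → Set (V →L[ℝ] ℝ)} (hT : MM T) (x : V) (f : V →L[ℝ] ℝ) :
    ∃ a, ∃ b ∈ T a, f x ≤ b x + f a - b a := by
  by_contra hc
  push Not at hc
  have := hc x f (hT.max x f fun a b hb => by
    have := hc a b hb
    simp only [sub_apply, map_sub]
    linarith)
  linarith

theorem fitz (hV : Refl V) {T : V → Set (V →L[ℝ] ℝ)} (hT : MM T) {g : V → ℝ}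
    (h1 : ConvexOn ℝ univ g) (h2 : Continuous g) (h3 : ∀ κ : ℝ, ∃ m, ∀ x, κ * ‖x‖ - m ≤ g x) :
    ∃ u, ∃ t ∈ T u, Sg g u (-t) := by
  let G : (V →L[ℝ] ℝ) → ℝ := fun y => ⨆ x, (-y x - g x)
  have bd : ∀ (κ m : ℝ), (∀ x, κ * ‖x‖ - m ≤ g x) → ∀ y : V →L[ℝ] ℝ, ‖y‖ ≤ κ →
      ∀ x, -y x - g x ≤ m := fun κ m hm y hy x => by
    have := hm x
    have := (abs_le.1 (y.le_of_opNorm_le hy x)).1
    linarith
  have G1 : ∀ y x, -y x - g x ≤ G y := fun y x => by
    obtain ⟨m, hm⟩ := h3 ‖y‖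
    exact le_ciSup (f := fun x => -y x - g x) ⟨m, by rintro _ ⟨x, rfl⟩; exact bd _ _ hm y le_rfl x⟩ x
  have Gc : ConvexOn ℝ univ G := ⟨convex_univ, fun y _ y' _ a b ha hb hab => ciSup_le fun x => by
    have a1 := mul_le_mul_of_nonneg_left (G1 y x) ha
    have a2 := mul_le_mul_of_nonneg_left (G1 y' x) hb
    have e : g x = a * g x + b * g x := by rw [← add_mul, hab, one_mul]
    simp only [add_apply, smul_apply, smul_eq_mul]
    linarith⟩
  obtain ⟨m, hm⟩ := h3 1
  have Gk : Continuous G := cont_of_convex Gc m fun y hy => ciSup_le (bd _ _ hm y hy)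
  let B : Set ((V × (V →L[ℝ] ℝ)) × ℝ) := {p | ∀ a, ∀ b ∈ T a, b p.1.1 + p.1.2 a - b a ≤ p.2}
  have hB : ∀ a, ∀ b ∈ T a, ((a, b), b a) ∈ B := fun a b hb a' b' hb' => by
    have := hT.mono a a' b hb b' hb'
    simp only [sub_apply, map_sub] at *
    linarith
  obtain ⟨a0, b0, h0, -⟩ := hT.ex 0 0
  obtain ⟨l, c, a1, a2⟩ := sandwich (B := B) (ψ := fun p => g p.1 + G p.2)
    (fun p hp p' hp' α β ha hb hab a b h => by
      have a1 := mul_le_mul_of_nonneg_left (hp a b h) ha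
      have a2 := mul_le_mul_of_nonneg_left (hp' a b h) hb
      have e : b a = α * b a + β * b a := by rw [← add_mul, hab, one_mul]
      simp only [Prod.fst_add, Prod.snd_add, Prod.smul_fst, Prod.smul_snd, map_add, map_smul,
        add_apply, smul_apply, smul_eq_mul]
      linarith) ⟨_, hB a0 b0 h0⟩
    ((h1.comp_linearMap (LinearMap.fst ℝ V (V →L[ℝ] ℝ))).add
      (Gc.comp_linearMap (LinearMap.snd ℝ V (V →L[ℝ] ℝ)))) (by fun_prop) (fun p hp => by
      obtain ⟨a, b, hb, h⟩ := hT.ex p.1.1 p.1.2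
      have := hp a b hb
      have := G1 p.1.2 p.1.1
      linarith)
  obtain ⟨u, hu⟩ := hV (l.comp (ContinuousLinearMap.inr ℝ _ _))
  let t := l.comp (ContinuousLinearMap.inl ℝ _ _)
  have hl : ∀ x y, l (x, y) = t x + y u := fun x y => by
    rw [← hu y]
    simp [t, ← map_add]
  obtain ⟨s, hs⟩ := exists_sg h1 h2 u
  have c1 : G (-s) ≤ s u - g u := ciSup_le fun x => by
    have := hs x
    simp only [neg_apply, map_sub] at *
    linarith
  have c2 : ∀ x, -c ≤ g x + t x - g u := fun x => by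
    have := a2 (x, -s)
    simp only [hl, neg_apply] at this
    linarith
  have c3 : ∀ a, ∀ b ∈ T a, t a + b u + c ≤ b a := fun a b hb => by
    simpa only [hl] using a1 _ (hB a b hb)
  refine ⟨u, t, hT.max u t fun a b hb => ?_, fun v => ?_⟩
  · have := c3 a b hb
    have := c2 u
    simp only [sub_apply, map_sub]
    linarith
  · obtain ⟨a, b, hb, h⟩ := hT.ex u t
    have := c3 a b hb
    have := c2 v
    simp only [neg_apply, map_sub]
    linarith

end Pool.Agent.H56.Mono
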