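import Pool.Agent.H56.Mono1
import Pool.Agent.H15.Brouwer

set_option autoImplicit false

namespace Pool.Agent.H56.Mono

open Filter Topology Set TopologicalSpace
open scoped InnerProductSpace

variable {V : Type} [NormedAddCommGroup V] [NormedSpace ℝ V]

def Lur (q : V → ℝ) : Prop := ∀ (u : V) (η : ℝ), 0 < η → ∃ δ : ℝ, 0 < δ ∧ ∀ u' : V,
  q u + q u' - 2 * q ((1 / 2 : ℝ) • u + (1 / 2 : ℝ) • u') ≤ δ → ‖u' - u‖ ≤ η

theorem quad_coer {w : ℝ} (hw : 0 < w) (d : V) (κ : ℝ) :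
    ∃ m, ∀ x : V, κ * ‖x‖ - m ≤ w * ‖x - d‖ ^ 2 := by
  refine ⟨|κ| * ‖d‖ + κ ^ 2 / (4 * w), fun x => ?_⟩
  have a1 : ‖x‖ ≤ ‖x - d‖ + ‖d‖ := norm_le_norm_sub_add _ _
  have a2 : κ * ‖x‖ ≤ |κ| * (‖x - d‖ + ‖d‖) :=
    mul_le_mul (le_abs_self _) a1 (norm_nonneg _) (abs_nonneg _)
  have a3 : κ ^ 2 / (4 * w) = w * (|κ| / (2 * w)) ^ 2 := by rw [← sq_abs]; field_simp; ring
  have a4 : |κ| = w * (2 * (|κ| / (2 * w))) := by field_simp
  have a5 : |κ| * ‖x - d‖ = w * (2 * (|κ| / (2 * w))) * ‖x - d‖ := by rw [← a4]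
  rw [a3]
  nlinarith [mul_nonneg hw.le (sq_nonneg (‖x - d‖ - |κ| / (2 * w)))]

theorem convex_sq (d : V) : ConvexOn ℝ univ fun x : V => ‖x - d‖ ^ 2 := by
  have := (convexOn_dist d (convex_univ (𝕜 := ℝ) (E := V))).pow (fun _ _ => dist_nonneg) 2
  simp only [dist_eq_norm] at this
  exact this

theorem exists_N [SeparableSpace V] : ∃ N : V → ℝ, ConvexOn ℝ univ N ∧
    (∀ x, 0 ≤ N x ∧ N x ≤ 2 * (1 + ‖x‖) ^ 2) ∧ (∀ κ : ℝ, ∃ m, ∀ x, κ * ‖x‖ - m ≤ N x) ∧ Lur N := by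
  let d := denseSeq V
  let w : ℕ → ℝ := fun n => (1 / 2) ^ n / (1 + ‖d n‖) ^ 2
  have hw : ∀ n, 0 < w n := fun n => by positivity
  have bd : ∀ x n, w n * ‖x - d n‖ ^ 2 ≤ (1 / 2) ^ n * (1 + ‖x‖) ^ 2 := fun x n => by
    have a1 : ‖x - d n‖ ≤ (1 + ‖x‖) * (1 + ‖d n‖) := by
      have := norm_sub_le x (d n)
      nlinarith [mul_nonneg (norm_nonneg x) (norm_nonneg (d n))]
    refine (mul_le_mul_of_nonneg_left (pow_le_pow_left₀ (norm_nonneg _) a1 2) (hw n).le).trans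
      (le_of_eq ?_)
    simp only [w]
    field_simp
  have hs : ∀ x : V, HasSum (fun n => w n * ‖x - d n‖ ^ 2) (∑' n, w n * ‖x - d n‖ ^ 2) := fun x =>
    (Summable.of_nonneg_of_le (fun n => by have := hw n; positivity) (bd x)
      (summable_geometric_two.mul_right _)).hasSum
  refine ⟨fun x => ∑' n, w n * ‖x - d n‖ ^ 2, ⟨convex_univ, fun x _ y _ a b ha hb hab => ?_⟩,
    fun x => ⟨tsum_nonneg fun n => by have := hw n; positivity,
      hasSum_le (bd x) (hs x) (hasSum_geometric_two.mul_right _)⟩, fun κ => ?_, fun u η hη => ?_⟩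
  · refine hasSum_le (fun n => ?_) (hs _) (((hs x).mul_left a).add ((hs y).mul_left b))
    have := mul_le_mul_of_nonneg_left ((convex_sq (d n)).2 (mem_univ x) (mem_univ y) ha hb hab)
      (hw n).le
    simp only [smul_eq_mul] at this
    linarith
  · obtain ⟨m, hm⟩ := quad_coer (hw 0) (d 0) κ
    exact ⟨m, fun x => (hm x).trans (le_hasSum (hs x) 0 fun n _ => by have := hw n; positivity)⟩
  · obtain ⟨n, hn⟩ := (denseRange_denseSeq V).exists_dist_lt u (show 0 < η / 3 by positivity)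
    refine ⟨w n * ((η / 3) ^ 2 / 2), by have := hw n; positivity, fun u' h => ?_⟩
    have key : ∀ k, (‖u - d k‖ - ‖u' - d k‖) ^ 2 / 2 ≤ ‖u - d k‖ ^ 2 + ‖u' - d k‖ ^ 2 -
        2 * ‖(1 / 2 : ℝ) • u + (1 / 2 : ℝ) • u' - d k‖ ^ 2 := fun k => by
      have := (convexOn_dist (d k) (convex_univ (𝕜 := ℝ) (E := V))).2 (mem_univ u) (mem_univ u')
        (show (0 : ℝ) ≤ 1 / 2 by norm_num) (show (0 : ℝ) ≤ 1 / 2 by norm_num) (by norm_num)
      simp only [dist_eq_norm, smul_eq_mul] at this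
      nlinarith [pow_le_pow_left₀ (norm_nonneg _) this 2]
    have a1 := (le_hasSum (((hs u).add (hs u')).sub
      ((hs ((1 / 2 : ℝ) • u + (1 / 2 : ℝ) • u')).mul_left 2)) n fun k _ => by
        nlinarith [mul_le_mul_of_nonneg_left (key k) (hw k).le,
          mul_nonneg (hw k).le (sq_nonneg (‖u - d k‖ - ‖u' - d k‖))]).trans h
    have a2 : (‖u - d n‖ - ‖u' - d n‖) ^ 2 ≤ (η / 3) ^ 2 := by
      refine le_of_mul_le_mul_left ?_ (hw n)
      nlinarith [mul_le_mul_of_nonneg_left (key n) (hw n).le]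
    have a3 := (abs_le_of_sq_le_sq' a2 (by positivity)).1
    have a4 : ‖u' - u‖ ≤ ‖u' - d n‖ + ‖u - d n‖ := by
      simpa using norm_sub_le (u' - d n) (u - d n)
    rw [dist_eq_norm] at hn
    linarith

variable {E : Type} [NormedAddCommGroup E] [InnerProductSpace ℝ E] [FiniteDimensional ℝ E]

theorem resolvent (hV : Refl V) {T : V → Set (V →L[ℝ] ℝ)} (hT : MM T) (ι : E →L[ℝ] V) {r : ℝ}
    (hr : 0 ≤ r) {q : V → ℝ} (h1 : ConvexOn ℝ univ q) (h2 : Continuous q)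
    (h3 : ∀ κ : ℝ, ∃ m, ∀ x, κ * ‖x‖ - m ≤ q x) (z : E) :
    ∃ u t s v, t ∈ T u ∧ Sg q u s ∧ ‖t + s‖ ≤ r ∧
      (t + s) (ι (z - v) - u) = r * ‖ι (z - v) - u‖ ∧ ∀ e, (t + s) (ι e) = ⟪v, e⟫_ℝ := by
  have := FiniteDimensional.proper_real E
  have := FiniteDimensional.complete ℝ E
  have hm : ∀ a : V, ∃ v : E, ∀ v' : E,
      r * ‖a - ι v‖ + ‖v‖ ^ 2 / 2 ≤ r * ‖a - ι v'‖ + ‖v'‖ ^ 2 / 2 := fun a => by
    refine Continuous.exists_forall_le (f := fun v : E => r * ‖a - ι v‖ + ‖v‖ ^ 2 / 2)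
      (by fun_prop) (tendsto_atTop_mono (f := fun v : E => ‖v‖ ^ 2 / 2)
        (fun v => le_add_of_nonneg_left (by positivity)) ?_)
    exact ((tendsto_pow_atTop two_ne_zero).comp tendsto_norm_cocompact_atTop).atTop_div_const
      two_pos
  choose m hm using hm
  let ψ : V → ℝ := fun u => r * ‖ι z - u - ι (m (ι z - u))‖ + ‖m (ι z - u)‖ ^ 2 / 2
  have c1 : ConvexOn ℝ univ ψ := ⟨convex_univ, fun x _ y _ a b ha hb hab => by
    refine (hm _ (a • m (ι z - x) + b • m (ι z - y))).trans ?_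
    have e : ι z - (a • x + b • y) - ι (a • m (ι z - x) + b • m (ι z - y)) =
        a • (ι z - x - ι (m (ι z - x))) + b • (ι z - y - ι (m (ι z - y))) := by
      have : ι z = a • ι z + b • ι z := by rw [← add_smul, hab, one_smul]
      conv_lhs => arg 1; arg 1; rw [this]
      simp only [map_add, map_smul, smul_sub]
      abel
    rw [e]
    have a1 := mul_le_mul_of_nonneg_left ((convexOn_univ_norm (E := V)).2
      (mem_univ (ι z - x - ι (m (ι z - x)))) (mem_univ (ι z - y - ι (m (ι z - y)))) ha hb hab) hr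
    have a2 := (convex_sq (0 : E)).2 (mem_univ (m (ι z - x))) (mem_univ (m (ι z - y))) ha hb hab
    simp only [smul_eq_mul, sub_zero, ψ] at *
    linarith⟩
  have c2 : Continuous ψ := cont_of_convex c1 (r * (‖ι z‖ + 1)) fun x hx => by
    refine (hm _ 0).trans ?_
    have := mul_le_mul_of_nonneg_left ((norm_sub_le (ι z) x).trans (add_le_add le_rfl hx)) hr
    simpa using this
  obtain ⟨u, t, ht, hs⟩ := fitz hV hT (h1.add c1) (h2.add c2) fun κ => by
    obtain ⟨m', hm'⟩ := h3 κ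
    exact ⟨m', fun x => (hm' x).trans (le_add_of_nonneg_right (by positivity))⟩
  obtain ⟨l, l1, l2⟩ := sg_add h1 c1 c2 hs
  set v := m (ι z - u) with hv
  set a := ι z - u with ha
  have e : t + (-t - l) = -l := by abel
  have key : ∀ b v', r * ‖a - ι v‖ + ‖v‖ ^ 2 / 2 + l (a - b) ≤ r * ‖b - ι v'‖ + ‖v'‖ ^ 2 / 2 :=
    fun b v' => by
      have := (l2 (ι z - b)).trans (hm _ v')
      rwa [sub_sub_cancel, show ι z - b - u = a - b by rw [ha]; abel] at this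
  have k1 : ‖-l‖ ≤ r := ContinuousLinearMap.opNorm_le_bound _ hr fun x => by
    have b1 := key (a + x) v
    have b2 := key (a - x) v
    have b3 : ‖a + x - ι v‖ ≤ ‖a - ι v‖ + ‖x‖ := by
      simpa [add_sub_right_comm] using norm_add_le (a - ι v) x
    have b4 : ‖a - x - ι v‖ ≤ ‖a - ι v‖ + ‖x‖ := by
      simpa [sub_right_comm] using norm_sub_le (a - ι v) x
    simp only [sub_add_cancel_left, map_neg, sub_sub_cancel, neg_apply, norm_neg,
      Real.norm_eq_abs] at *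
    rw [abs_le]
    constructor <;> nlinarith
  refine ⟨u, t, -t - l, v, ht, l1, e ▸ k1, ?_, ?_⟩
  · rw [e, show ι (z - v) - u = a - ι v by rw [ha, map_sub]; abel]
    refine le_antisymm ((le_abs_self _).trans ((-l).le_of_opNorm_le k1 _)) ?_
    have := key (ι v) v
    simp only [sub_self, norm_zero, neg_apply] at *
    linarith
  · let y := (InnerProductSpace.toDual ℝ E).symm ((-l).comp ι)
    have hy : ∀ x, ⟪y, x⟫_ℝ = -l (ι x) := fun x => InnerProductSpace.toDual_symm_apply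
    have b1 := key (a + ι (y - v)) y
    rw [show a + ι (y - v) - ι y = a - ι v by rw [map_sub]; abel, sub_add_cancel_left, map_neg,
      ← hy, inner_sub_right, real_inner_self_eq_norm_sq] at b1
    have b2 : ‖y - v‖ ^ 2 ≤ 0 := by rw [norm_sub_sq_real]; linarith
    have b3 : y = v := by simpa [sub_eq_zero] using b2
    intro x
    rw [e, ← b3, hy, neg_apply]

theorem acute {h : E → E} (hc : Continuous h) {R : ℝ} (hR : 0 < R)
    (hp : ∀ z, ‖z‖ = R → 0 ≤ ⟪h z, z⟫_ℝ) : ∃ z, h z = 0 := by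
  have := FiniteDimensional.proper_real E
  by_contra hn
  push Not at hn
  have n1 : ∀ z, ‖(-R / ‖h z‖) • h z‖ = R := fun z => by
    have := norm_pos_iff.2 (hn z)
    rw [norm_smul, norm_div, norm_neg, norm_norm, Real.norm_of_nonneg hR.le]
    field_simp
  obtain ⟨z, -, hz⟩ := H15.Brouwer.brouwer (isCompact_closedBall (0 : E) R) (convex_closedBall _ _)
    ⟨0, by simpa using hR.le⟩ (fun z => (-R / ‖h z‖) • h z)
    ((continuous_const.div hc.norm fun z => (norm_pos_iff.2 (hn z)).ne').smul hc).continuousOn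
    fun z _ => by simpa using (n1 z).le
  have a1 := hp z (hz ▸ n1 z)
  rw [← hz, inner_smul_right, hz, real_inner_self_eq_norm_sq] at a1
  have := norm_pos_iff.2 (hn z)
  have : 0 < R / ‖h z‖ * ‖h z‖ ^ 2 := by positivity
  rw [neg_div] at a1
  linarith

def PM (T : V → Set (V →L[ℝ] ℝ)) (T0 : V → V →L[ℝ] ℝ) : Prop :=
  ∀ (u : ℕ → V) (v : V) (y : ℕ → (V →L[ℝ] ℝ)),
    (∀ f : V →L[ℝ] ℝ, Tendsto (fun j => f (u j)) atTop (𝓝 (f v))) → (∀ j, y j ∈ T (u j)) →
    (∃ C : ℝ, ∀ j, ‖y j‖ ≤ C) → (∀ ε : ℝ, 0 < ε → ∀ᶠ j in atTop, (T0 (u j)) (u j - v) ≤ ε) →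
    (∀ x, Tendsto (fun j => T0 (u j) x) atTop (𝓝 (T0 v x))) ∧
      Tendsto (fun j => (T0 (u j)) (u j - v)) atTop (𝓝 0)

theorem PM.strong {T : V → Set (V →L[ℝ] ℝ)} {T0 : V → V →L[ℝ] ℝ} (hP : PM T T0) {u : ℕ → V} {v : V}
    {y : ℕ → V →L[ℝ] ℝ} (hu : Tendsto u atTop (𝓝 v)) (hy : ∀ j, y j ∈ T (u j)) {C C' : ℝ}
    (h1 : ∀ j, ‖y j‖ ≤ C) (h2 : ∀ j, ‖T0 (u j)‖ ≤ C') (x : V) :
    Tendsto (fun j => T0 (u j) x) atTop (𝓝 (T0 v x)) := by
  refine (hP u v y (fun f => (f.continuous.tendsto v).comp hu) hy ⟨C, h1⟩ fun ε hε => ?_).1 x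
  have : Tendsto (fun j => C' * ‖u j - v‖) atTop (𝓝 0) := by
    simpa using (tendsto_iff_norm_sub_tendsto_zero.1 hu).const_mul C'
  filter_upwards [this.eventually (ge_mem_nhds hε)] with j hj
  exact (le_abs_self _).trans (((T0 (u j)).le_of_opNorm_le (h2 j) _).trans hj)

theorem galerkin (hV : Refl V) {T : V → Set (V →L[ℝ] ℝ)} (hT : MM T) {T0 : V → V →L[ℝ] ℝ}
    (hP : PM T T0) (f : V →L[ℝ] ℝ) (F : Submodule ℝ V) [FiniteDimensional ℝ F] {q : V → ℝ}
    (h1 : ConvexOn ℝ univ q) (h2 : Continuous q) (h3 : ∀ κ : ℝ, ∃ m, ∀ x, κ * ‖x‖ - m ≤ q x)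
    (h4 : Lur q) {r ρ C : ℝ}
    (hap : ∀ u t s, t ∈ T u → Sg q u s → ‖t + s‖ ≤ r → ‖u‖ ≤ ρ ∧ ‖t‖ ≤ C)
    (hr : 1 ≤ r) (hb : ∀ u, ‖u‖ ≤ ρ → ‖T0 u - f‖ ≤ r - 1) :
    ∃ u t s, t ∈ T u ∧ Sg q u s ∧ ‖t + s‖ ≤ r ∧ (∀ x ∈ F, (t + s + (T0 u - f)) x = 0) ∧
      (t + s + (T0 u - f)) u ≤ 0 := by
  let ι : EuclideanSpace ℝ (Fin (Module.finrank ℝ F)) →L[ℝ] V :=
    F.subtypeL.comp (toEuclidean (E := F)).symm.toContinuousLinearMap
  obtain ⟨K, K0, hK⟩ : ∃ K : ℝ, 0 ≤ K ∧ ∀ e, ‖e‖ ≤ K * ‖ι e‖ :=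
    ⟨‖(toEuclidean (E := F)).toContinuousLinearMap‖, ContinuousLinearMap.opNorm_nonneg _, fun e => by
      simpa [ι] using (toEuclidean (E := F)).toContinuousLinearMap.le_opNorm
        ((toEuclidean (E := F)).symm e)⟩
  choose u t s v a1 a2 a3 a4 a5 using resolvent hV hT ι (by linarith : 0 ≤ r) h1 h2 h3
  have key : ∀ z z', ‖v z - v z'‖ ^ 2 + 2 * (q (u z) + q (u z') -
      2 * q ((1 / 2 : ℝ) • u z + (1 / 2 : ℝ) • u z')) ≤ ⟪v z - v z', z - z'⟫_ℝ := fun z z' => by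
    have b1 := hT.mono _ _ _ (a1 z) _ (a1 z')
    have b2 := a2 z ((1 / 2 : ℝ) • u z + (1 / 2 : ℝ) • u z')
    have b3 := a2 z' ((1 / 2 : ℝ) • u z + (1 / 2 : ℝ) • u z')
    have b4 := (le_abs_self _).trans ((t z' + s z').le_of_opNorm_le (a3 z') (ι (z - v z) - u z))
    have b5 := (le_abs_self _).trans ((t z + s z).le_of_opNorm_le (a3 z) (ι (z' - v z') - u z'))
    rw [← a4] at b4 b5
    rw [← real_inner_self_eq_norm_sq]
    rw [map_sub, map_sub (t z + s z), a5, a5] at b4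
    rw [map_sub, map_sub (t z' + s z'), a5, a5] at b5
    simp only [map_sub, map_add, map_smul, sub_apply, add_apply, smul_eq_mul, inner_sub_left,
      inner_sub_right] at *
    linarith
  have dq : ∀ z z', 0 ≤ q (u z) + q (u z') - 2 * q ((1 / 2 : ℝ) • u z + (1 / 2 : ℝ) • u z') :=
    fun z z' => by
      have := h1.2 (mem_univ (u z)) (mem_univ (u z')) (show (0 : ℝ) ≤ 1 / 2 by norm_num)
        (show (0 : ℝ) ≤ 1 / 2 by norm_num) (by norm_num)
      simp only [smul_eq_mul] at this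
      linarith
  have lv : ∀ z z', ‖v z - v z'‖ ≤ ‖z - z'‖ := fun z z' => by
    have := key z z'
    have := dq z z'
    have := real_inner_le_norm (v z - v z') (z - z')
    by_contra hc
    nlinarith [norm_nonneg (z - z')]
  have cv : Continuous v := (LipschitzWith.of_dist_le_mul (K := 1) fun x y => by
    simpa [dist_eq_norm] using lv x y).continuous
  have cu : Continuous u := Metric.continuous_iff.2 fun z η hη => by
    obtain ⟨δ, d1, d2⟩ := h4 (u z) (η / 2) (by positivity)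
    refine ⟨√δ, by positivity, fun z' hz => ?_⟩
    rw [dist_eq_norm] at hz ⊢
    refine (d2 _ ?_).trans_lt (by linarith)
    have := key z z'
    have := dq z z'
    have := (real_inner_le_norm (v z - v z') (z - z')).trans
      (mul_le_mul_of_nonneg_right (lv z z') (norm_nonneg _))
    rw [norm_sub_rev] at hz
    have := mul_self_lt_mul_self (norm_nonneg _) hz
    rw [Real.mul_self_sqrt d1.le] at this
    nlinarith [sq_nonneg ‖v z - v z'‖]
  have hu := fun z => hap _ _ _ (a1 z) (a2 z) (a3 z)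
  have cw : Continuous fun z => (T0 (u z) - f).comp ι := continuous_clm_apply.2 fun e => by
    refine Continuous.sub (continuous_iff_seqContinuous.2 fun zs z hz => ?_) continuous_const
    exact hP.strong (C' := r - 1 + ‖f‖) ((cu.tendsto z).comp hz) (fun j => a1 _)
      (fun j => (hu _).2) (fun j => (norm_le_norm_sub_add _ f).trans
        (add_le_add (hb _ (hu _).1) le_rfl)) _
  let h := fun z => v z + (InnerProductSpace.toDual ℝ _).symm ((T0 (u z) - f).comp ι)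
  have hh : ∀ z e, ⟪h z, e⟫_ℝ = (t z + s z + (T0 (u z) - f)) (ι e) := fun z e => by
    rw [add_apply, a5, inner_add_left, InnerProductSpace.toDual_symm_apply]
    rfl
  have lo : ∀ z, ‖ι (z - v z) - u z‖ ≤ (t z + s z + (T0 (u z) - f)) (ι (z - v z) - u z) :=
    fun z => by
      have := (abs_le.1 ((T0 (u z) - f).le_of_opNorm_le (hb _ (hu z).1) (ι (z - v z) - u z))).1
      rw [add_apply, a4]
      linarith
  have vb : ∀ z, ‖v z‖ ≤ r * ‖ι‖ := fun z => by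
    have b1 := (le_abs_self _).trans ((t z + s z).le_of_opNorm_le (a3 z) (ι (v z)))
    rw [a5, real_inner_self_eq_norm_sq] at b1
    have b2 := mul_le_mul_of_nonneg_left (ι.le_opNorm (v z)) (by linarith : 0 ≤ r)
    by_contra hc
    nlinarith [mul_nonneg (by linarith : 0 ≤ r) (norm_nonneg ι)]
  have ρ0 : 0 ≤ ρ := (norm_nonneg _).trans (hu 0).1
  obtain ⟨z, hz⟩ := acute (h := h) (cv.add ((InnerProductSpace.toDual ℝ _).symm.continuous.comp cw))
    (R := K * ((2 * r + 1) * (ρ + ‖ι‖ * (r * ‖ι‖))) + 1) (by positivity) fun z hz => by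
      rw [hh]
      have b1 : ‖u z + ι (v z)‖ ≤ ρ + ‖ι‖ * (r * ‖ι‖) :=
        (norm_add_le _ _).trans (add_le_add (hu z).1 (ι.le_opNorm_of_le (vb z)))
      have b2 : ‖t z + s z + (T0 (u z) - f)‖ ≤ 2 * r :=
        (norm_add_le _ _).trans (by linarith [a3 z, hb _ (hu z).1])
      have b3 := (abs_le.1 ((t z + s z + (T0 (u z) - f)).le_of_opNorm_le_of_le b2 b1)).1
      have e : ι z = (ι (z - v z) - u z) + (u z + ι (v z)) := by rw [map_sub]; abel
      have b4 : ‖ι z‖ ≤ ‖ι (z - v z) - u z‖ + (ρ + ‖ι‖ * (r * ‖ι‖)) := by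
        conv_lhs => rw [e]
        exact (norm_add_le _ _).trans (add_le_add le_rfl b1)
      have b5 : (2 * r + 1) * (ρ + ‖ι‖ * (r * ‖ι‖)) ≤ ‖ι z‖ := by
        by_contra hc
        have := hK z
        nlinarith
      have := lo z
      rw [e, map_add]
      linarith
  have z0 : ∀ e, (t z + s z + (T0 (u z) - f)) (ι e) = 0 := fun e => by
    rw [← hh, hz, inner_zero_left]
  refine ⟨u z, t z, s z, a1 z, a2 z, a3 z, fun x hx => ?_, ?_⟩
  · simpa [ι] using z0 (toEuclidean (E := F) ⟨x, hx⟩)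
  · have := lo z
    rw [map_sub (t z + s z + (T0 (u z) - f)), z0] at this
    linarith [norm_nonneg (ι (z - v z) - u z)]

end Pool.Agent.H56.Mono
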