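import Pool.Agent.H56.Mono2

set_option autoImplicit false

namespace Pool.Agent.H56.Mono

open Filter Topology Set TopologicalSpace

variable {V : Type} [NormedAddCommGroup V] [NormedSpace ℝ V]

theorem weak_subseq [SeparableSpace V] (y : ℕ → V →L[ℝ] ℝ) (C : ℝ) (h : ∀ j, ‖y j‖ ≤ C) :
    ∃ (l : V →L[ℝ] ℝ) (φ : ℕ → ℕ), StrictMono φ ∧
      ∀ x, Tendsto (fun j => y (φ j) x) atTop (𝓝 (l x)) := by
  obtain ⟨l, -, φ, h1, h2⟩ := WeakDual.isSeqCompact_closedBall ℝ V 0 C
    (x := fun j => StrongDual.toWeakDual (y j)) (fun j => by simpa using h j)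
  exact ⟨WeakDual.toStrongDual l, φ, h1, fun x => ((WeakDual.eval_continuous x).tendsto l).comp h2⟩

theorem limit {T : V → Set (V →L[ℝ] ℝ)} (hT : MM T) {T0 : V → V →L[ℝ] ℝ} (hP : PM T T0)
    {f : V →L[ℝ] ℝ} {N p : V → ℝ} (hN : ∀ x, 0 ≤ N x) (p1 : ConvexOn ℝ univ p) (p2 : Continuous p)
    {u : ℕ → V} {t s : ℕ → V →L[ℝ] ℝ} {ε : ℕ → ℝ} (e0 : ∀ j, 0 ≤ ε j) (e1 : Tendsto ε atTop (𝓝 0))
    (ht : ∀ j, t j ∈ T (u j)) {C : ℝ} (hC : ∀ j, ‖t j‖ ≤ C)
    (hs : ∀ j, Sg (fun x => ε j * N x + p x) (u j) (s j)) {v : V} {τ : V →L[ℝ] ℝ}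
    (hu : ∀ g : V →L[ℝ] ℝ, Tendsto (fun j => g (u j)) atTop (𝓝 (g v)))
    (hτ : ∀ x, Tendsto (fun j => t j x) atTop (𝓝 (τ x)))
    (h1 : ∀ x, Tendsto (fun j => (t j + s j + (T0 (u j) - f)) x) atTop (𝓝 0))
    (h2 : ∀ j, (t j + s j + (T0 (u j) - f)) (u j) ≤ 0) : τ ∈ T v ∧ Sg p v (f - T0 v - τ) := by
  obtain ⟨π, hπ⟩ := exists_sg p1 p2 v
  obtain ⟨a, b, hb, hab⟩ := hT.ex v τ
  have lA := (((hτ a).add (hu b)).sub_const (b a)).sub (hτ v)
  have lB := ((hu π).sub_const (π v)).sub (e1.mul_const (N v))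
  have lD := ((hu f).sub_const (f v)).sub (h1 v)
  have iA : ∀ j, t j a + b (u j) - b a - t j v ≤ t j (u j - v) := fun j => by
    have := hT.mono _ _ _ (ht j) _ hb
    simp only [sub_apply, map_sub] at *
    linarith
  have iB : ∀ j, π (u j) - π v - ε j * N v ≤ s j (u j - v) := fun j => by
    have := hs j v
    have := hπ (u j)
    have := mul_nonneg (e0 j) (hN (u j))
    simp only [map_sub] at *
    linarith
  have iD : ∀ j, t j (u j - v) + s j (u j - v) + T0 (u j) (u j - v) ≤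
      f (u j) - f v - (t j + s j + (T0 (u j) - f)) v := fun j => by
    have := h2 j
    simp only [add_apply, sub_apply, map_sub] at *
    linarith
  obtain ⟨c1, c2⟩ := hP u v t hu ht ⟨C, hC⟩ fun η hη => by
    filter_upwards [((lD.sub lA).sub lB).eventually_le_const (u := η) (by linarith)] with j hj
    linarith [iA j, iB j, iD j]
  refine ⟨hT.max _ _ fun a' b' hb' => ?_, fun x => ?_⟩
  · have := ge_of_tendsto' (b := 0) ((((lD.sub lB).sub c2).add (hτ (v - a'))).sub
      ((hu b').sub_const (b' a'))) fun j => by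
        have := hT.mono _ _ _ (ht j) _ hb'
        have := iB j
        have := iD j
        simp only [sub_apply, map_sub] at *
        linarith
    simp only [sub_apply, map_sub] at *
    linarith
  · have := le_of_tendsto_of_tendsto' (((((hu π).sub_const (π v)).add
      ((((h1 (x - v)).sub (hτ (x - v))).sub (c1 (x - v))).add_const (f (x - v)))).sub
        ((lD.sub lA).sub c2)).const_add (p v)) ((e1.mul_const (N x)).add_const (p x)) fun j => by
        have := hs j x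
        have := hπ (u j)
        have := mul_nonneg (e0 j) (hN (u j))
        have := iA j
        have := iD j
        simp only [add_apply, sub_apply, map_sub] at *
        linarith
    simp only [sub_apply, map_sub] at *
    linarith

theorem main_sep [SeparableSpace V] [SeparableSpace (V →L[ℝ] ℝ)] (hV : Refl V)
    {T : V → Set (V →L[ℝ] ℝ)} (hT : MM T) {T0 : V → V →L[ℝ] ℝ} (hP : PM T T0)
    (hb : ∀ R : ℝ, ∃ M : ℝ, ∀ x, ‖x‖ ≤ R → ‖T0 x‖ ≤ M)
    (hc : ∀ M : ℝ, ∃ R : ℝ, ∀ x, ∀ y ∈ T x, R ≤ ‖x‖ → M * ‖x‖ ≤ (y + T0 x) x) (f : V →L[ℝ] ℝ) :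
    ∃ x, ∃ y ∈ T x, y + T0 x = f := by
  obtain ⟨N, n1, n2, n3, n4⟩ := exists_N (V := V)
  have n5 : Continuous N := cont_of_convex n1 8 fun x hx => (n2 x).2.trans (by
    nlinarith [norm_nonneg x])
  obtain ⟨u0, t0, h0, -⟩ := hT.ex 0 0
  obtain ⟨R, hR⟩ := hc (‖f‖ + 1)
  obtain ⟨ρ, r1, r2, r3⟩ : ∃ ρ : ℝ, R ≤ ρ ∧ ‖u0‖ ≤ ρ ∧ 0 < ρ :=
    ⟨max R ‖u0‖ + 1, by linarith [le_max_left R ‖u0‖], by linarith [le_max_right R ‖u0‖],
      by linarith [le_max_right R ‖u0‖, norm_nonneg u0]⟩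
  obtain ⟨M, hM⟩ := hb (ρ + 1)
  have M0 : 0 ≤ M := (norm_nonneg _).trans (hM 0 (by simp; linarith))
  set r := M + ‖f‖ + 1 with hr
  have r0 : 1 ≤ r := by linarith [norm_nonneg f]
  have hb' : ∀ u, ‖u‖ ≤ ρ + 1 → ‖T0 u - f‖ ≤ r - 1 := fun u hu =>
    (norm_sub_le _ _).trans (by linarith [hM u hu])
  set L := (r + ‖t0‖) * (2 * ρ + 1) + N u0 + 1 with hL
  have L0 : 0 < L := by have := (n2 u0).1; positivity
  let p : V → ℝ := fun x => L * max (‖x‖ - ρ) 0
  have p0 : ∀ x, 0 ≤ p x := fun x => by positivity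
  have p1 : ConvexOn ℝ univ p := ((convexOn_univ_norm.sub (concaveOn_const ρ convex_univ)).sup
    (convexOn_const 0 convex_univ)).smul L0.le
  have p2 : Continuous p := by fun_prop
  have p3 : ∀ x, ‖x‖ ≤ ρ → p x = 0 := fun x hx => by simp [p, hx]
  let ε : ℕ → ℝ := fun n => 1 / ((n : ℝ) + 1)
  have e0 : ∀ n, 0 < ε n := fun n => by positivity
  have e1 : ∀ n, ε n ≤ 1 := fun n => by
    rw [div_le_one (by positivity)]; linarith [Nat.cast_nonneg (α := ℝ) n]
  have hap : ∀ n u t s, t ∈ T u → Sg (fun x => ε n * N x + p x) u s → ‖t + s‖ ≤ r →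
      ‖u‖ ≤ ρ + 1 ∧ ‖t‖ ≤ r + (2 * (ρ + 3) ^ 2 + L * 2) := fun n u t s h1 h2 h3 => by
    have a1 : ‖u‖ ≤ ρ + 1 := by
      by_contra hu
      have b1 := hT.mono _ _ _ h1 _ h0
      have b2 := h2 u0
      have b3 : ‖u - u0‖ ≤ (2 * ρ + 1) * (‖u‖ - ρ) := (norm_sub_le _ _).trans (by nlinarith)
      have b4 := (le_abs_self _).trans ((t + s).le_of_opNorm_le_of_le h3 b3)
      have b5 := (abs_le.1 (t0.le_opNorm_of_le b3)).1
      have b6 : L * (‖u‖ - ρ) ≤ p u := mul_le_mul_of_nonneg_left (le_max_left _ _) L0.le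
      have b7 := mul_le_of_le_one_left (n2 u0).1 (e1 n)
      have b8 := mul_nonneg (e0 n).le (n2 u).1
      have b9 := (n2 u0).1
      simp only [p3 u0 r2, add_apply, sub_apply, map_sub] at *
      nlinarith
    refine ⟨a1, ?_⟩
    have a2 : ‖s‖ ≤ 2 * (ρ + 3) ^ 2 + L * 2 := by
      have key : ∀ e, ‖e‖ ≤ 1 → s e ≤ 2 * (ρ + 3) ^ 2 + L * 2 := fun e he => by
        have b1 := h2 (u + e)
        have b2 : ‖u + e‖ ≤ ρ + 2 := (norm_add_le _ _).trans (by linarith)
        have b3 : p (u + e) ≤ L * 2 :=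
          mul_le_mul_of_nonneg_left (max_le (by linarith) (by norm_num)) L0.le
        have b4 := (mul_le_of_le_one_left (n2 (u + e)).1 (e1 n)).trans (n2 (u + e)).2
        have b5 := mul_nonneg (e0 n).le (n2 u).1
        have b6 := p0 u
        simp only [add_sub_cancel_left] at b1
        nlinarith [norm_nonneg (u + e)]
      refine ContinuousLinearMap.opNorm_le_of_unit_norm (by positivity) fun e he => ?_
      have := key (-e) (by simp [he])
      rw [map_neg] at this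
      exact abs_le.2 ⟨by linarith, key e he.le⟩
    simpa using (norm_sub_le (t + s) s).trans (add_le_add h3 a2)
  let d := denseSeq V
  have gal := fun n : ℕ =>
    haveI := FiniteDimensional.span_of_finite ℝ ((finite_Iio n).image d)
    galerkin hV hT hP f (Submodule.span ℝ (d '' Iio n)) ((n1.smul (e0 n).le).add p1)
      (by fun_prop : Continuous fun x => ε n * N x + p x) (fun κ => by
        obtain ⟨m, hm⟩ := n3 (κ / ε n)
        refine ⟨ε n * m, fun x => ?_⟩
        have := mul_le_mul_of_nonneg_left (hm x) (e0 n).le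
        rw [mul_sub, ← mul_assoc, mul_div_cancel₀ _ (e0 n).ne'] at this
        exact this.trans (le_add_of_nonneg_right (p0 x))) (fun u η hη => by
        obtain ⟨δ, d1, d2⟩ := n4 u η hη
        refine ⟨ε n * δ, mul_pos (e0 n) d1, fun u' h => d2 u' (le_of_mul_le_mul_left ?_ (e0 n))⟩
        have := p1.2 (mem_univ u) (mem_univ u') (show (0 : ℝ) ≤ 1 / 2 by norm_num)
          (show (0 : ℝ) ≤ 1 / 2 by norm_num) (by norm_num)
        simp only [smul_eq_mul, Pi.add_apply] at this h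
        linarith) (hap n) r0 hb'
  choose u t s a1 a2 a3 a4 a5 using gal
  have hu := fun n => hap n _ _ _ (a1 n) (a2 n) (a3 n)
  have z0 : ∀ x, Tendsto (fun j => (t j + s j + (T0 (u j) - f)) x) atTop (𝓝 0) := fun x => by
    refine Metric.tendsto_atTop.2 fun η hη => ?_
    obtain ⟨i, hi⟩ := (denseRange_denseSeq V).exists_dist_lt x (show 0 < η / (2 * r) by positivity)
    refine ⟨i + 1, fun j hj => ?_⟩
    have b1 := a4 j (d i) (Submodule.subset_span ⟨i, hj, rfl⟩)
    have b2 : ‖t j + s j + (T0 (u j) - f)‖ ≤ 2 * r :=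
      (norm_add_le _ _).trans (by linarith [a3 j, hb' _ (hu j).1])
    have b3 := (t j + s j + (T0 (u j) - f)).le_of_opNorm_le b2 (x - d i)
    rw [map_sub, b1, sub_zero] at b3
    rw [dist_eq_norm, lt_div_iff₀ (by positivity)] at hi
    rw [dist_zero_right]
    linarith
  obtain ⟨w, φ, f1, f2⟩ := weak_subseq (fun j => NormedSpace.inclusionInDoubleDual ℝ V (u j))
    (ρ + 1) fun j => (NormedSpace.double_dual_bound ℝ V _).trans (hu j).1
  obtain ⟨v, hv⟩ := hV w
  obtain ⟨τ, φ', g1, g2⟩ := weak_subseq (fun j => t (φ j)) _ fun j => (hu _).2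
  have tφ := (f1.comp g1).tendsto_atTop
  obtain ⟨c1, c2⟩ := limit (u := fun j => u (φ (φ' j))) (s := fun j => s (φ (φ' j))) (f := f)
    hT hP (fun x => (n2 x).1) p1 p2 (fun j => (e0 _).le)
    (tendsto_one_div_add_atTop_nhds_zero_nat.comp tφ) (fun j => a1 _) (fun j => (hu _).2)
    (fun j => a2 _) (fun g => hv g ▸ (f2 g).comp g1.tendsto_atTop) g2
    (fun x => (z0 x).comp tφ) fun j => a5 _
  refine ⟨v, τ, c1, ?_⟩
  rcases lt_or_ge ‖v‖ ρ with h | h
  · have : ‖f - T0 v - τ‖ ≤ 0 := by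
      have key : ∀ e, ‖e‖ = 1 → (f - T0 v - τ) e ≤ 0 := fun e he => by
        have := c2 (v + (ρ - ‖v‖) • e)
        rw [p3 v h.le, p3 _ ((norm_add_le _ _).trans (by
          rw [norm_smul, he, Real.norm_of_nonneg (by linarith)]; linarith)), add_sub_cancel_left,
          map_smul, smul_eq_mul] at this
        by_contra hc
        nlinarith
      refine ContinuousLinearMap.opNorm_le_of_unit_norm le_rfl fun e he => ?_
      have := key (-e) (by simp [he])
      rw [map_neg] at this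
      exact abs_le.2 ⟨by linarith, key e he⟩
    rw [norm_le_zero_iff, sub_sub, sub_eq_zero] at this
    rw [this, add_comm]
  · have b1 := c2 0
    have b2 := hR v τ c1 (r1.trans h)
    have b3 := (le_abs_self _).trans (f.le_opNorm v)
    have b4 := p0 v
    simp only [p3 0 (by simpa using r3.le), zero_sub, map_neg, sub_apply, add_apply] at *
    linarith

end Pool.Agent.H56.Mono
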