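import Pool.Agent.H56.Mono3

set_option autoImplicit false

namespace Pool.Agent.H56.Mono

open Filter Topology Set TopologicalSpace

theorem exists_closed {Z ι : Type} [Countable ι] (op : ι → Z → Z → Z) (z0 : Z) :
    ∃ S : Set Z, S.Countable ∧ z0 ∈ S ∧ ∀ i, ∀ a ∈ S, ∀ b ∈ S, op i a b ∈ S := by
  let S : ℕ → Set Z := fun n => Nat.rec {z0} (fun _ A => A ∪ ⋃ i, image2 (op i) A A) n
  have h1 : Monotone S := monotone_nat_of_le_succ fun n => subset_union_left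
  have h2 : ∀ n, (S n).Countable := fun n => by
    induction n with
    | zero => exact countable_singleton _
    | succ n ih => exact ih.union (countable_iUnion fun i => ih.image2 ih _)
  refine ⟨⋃ n, S n, countable_iUnion h2, mem_iUnion.2 ⟨0, rfl⟩, fun i a ha b hb => ?_⟩
  obtain ⟨n, hn⟩ := mem_iUnion.1 ha
  obtain ⟨m, hm⟩ := mem_iUnion.1 hb
  exact mem_iUnion.2 ⟨max n m + 1, Or.inr (mem_iUnion.2 ⟨i, mem_image2_of_mem
    (h1 (le_max_left _ _) hn) (h1 (le_max_right _ _) hm)⟩)⟩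

variable {V : Type} [NormedAddCommGroup V] [NormedSpace ℝ V]

theorem exists_sub {A : Set V} (h0 : (0 : V) ∈ A) (h1 : ∀ a ∈ A, ∀ b ∈ A, a + b ∈ A)
    (h2 : ∀ q : ℚ, ∀ a ∈ A, (q : ℝ) • a ∈ A) : ∃ K : Submodule ℝ V, (K : Set V) = closure A :=
  ⟨{ carrier := closure A
     add_mem' := fun ha hb => map_mem_closure₂ continuous_add ha hb h1
     zero_mem' := subset_closure h0
     smul_mem' := fun c _ hx => map_mem_closure₂ (f := fun (c : ℝ) (x : V) => c • x) continuous_smul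
       (Rat.denseRange_cast c) hx (by rintro _ ⟨q, rfl⟩; exact h2 q) }, rfl⟩

theorem sep {W : Submodule ℝ V} (hW : IsClosed (W : Set V)) {v : V}
    (h : ∀ g : V →L[ℝ] ℝ, (∀ w ∈ W, g w = 0) → g v = 0) : v ∈ W := by
  by_contra hv
  obtain ⟨g, c, h1, h2⟩ := geometric_hahn_banach_closed_point W.convex hW hv
  have := h g fun w hw => by
    by_contra hc
    have := h1 _ (W.smul_mem (c / g w) hw)
    rw [map_smul, smul_eq_mul, div_mul_cancel₀ _ hc] at this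
    exact lt_irrefl _ this
  have := h1 0 W.zero_mem
  rw [map_zero] at this
  linarith

theorem exists_res (hV : Refl V) {T : V → Set (V →L[ℝ] ℝ)} (hT : MM T) (x : V) (y : V →L[ℝ] ℝ) :
    ∃ u, ∃ t ∈ T u, (t - y) (u - x) ≤ -‖u - x‖ ^ 2 ∧ ‖t - y‖ ≤ 3 * ‖u - x‖ := by
  obtain ⟨u, t, ht, hs⟩ := fitz hV hT (g := fun v => ‖v - x‖ ^ 2 - y v)
    ((convex_sq x).sub (y.toLinearMap.concaveOn convex_univ)) (by fun_prop) fun κ => by
      obtain ⟨m, hm⟩ := quad_coer one_pos x (κ + ‖y‖)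
      refine ⟨m, fun v => ?_⟩
      have := hm v
      have := (le_abs_self _).trans (y.le_opNorm v)
      linarith
  refine ⟨u, t, ht, ?_, ?_⟩
  · have := hs x
    simp only [sub_self, norm_zero, neg_apply, sub_apply, map_sub] at *
    linarith
  · refine le_of_forall_pos_le_add fun η hη => ?_
    have key : ∀ e, ‖e‖ = 1 → (t - y) e ≤ 3 * ‖u - x‖ + η := fun e he => by
      have a1 := hs (u - η • e)
      have a2 : ‖u - η • e - x‖ ≤ ‖u - x‖ + η := by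
        simpa [sub_right_comm, norm_smul, he, abs_of_pos hη] using norm_sub_le (u - x) (η • e)
      have a3 := pow_le_pow_left₀ (norm_nonneg _) a2 2
      simp only [neg_apply, sub_apply, map_sub, map_smul, smul_eq_mul] at *
      refine le_of_mul_le_mul_left ?_ hη
      nlinarith [mul_nonneg hη.le (norm_nonneg (u - x))]
    refine ContinuousLinearMap.opNorm_le_of_unit_norm (by positivity) fun e he => ?_
    have := key (-e) (by simp [he])
    rw [map_neg] at this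
    exact abs_le.2 ⟨by linarith, key e he⟩

theorem cont_aux {W : Type} [TopologicalSpace W] (A : W → (V →L[ℝ] ℝ)) (h : Continuous A) :
    Continuous fun y => 2 * ‖A y‖ := by fun_prop

theorem closed_aux {W : Type} [NormedAddCommGroup W] [NormedSpace ℝ W] [CompleteSpace W]
    (A : W →L[ℝ] (V →L[ℝ] ℝ)) (h : ∀ y, ‖y‖ ≤ 2 * ‖A y‖) :
    IsClosed (A.range : Set (V →L[ℝ] ℝ)) :=
  (AddMonoidHomClass.antilipschitz_of_bound (K := 2) A h).isClosed_range A.uniformContinuous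

theorem main (hV : Refl V) {T : V → Set (V →L[ℝ] ℝ)} (hT : MM T) {T0 : V → V →L[ℝ] ℝ}
    (hP : PM T T0) (hb : ∀ R : ℝ, ∃ M : ℝ, ∀ x, ‖x‖ ≤ R → ‖T0 x‖ ≤ M)
    (hc : ∀ M : ℝ, ∃ R : ℝ, ∀ x, ∀ y ∈ T x, R ≤ ‖x‖ → M * ‖x‖ ≤ (y + T0 x) x) (f : V →L[ℝ] ℝ) :
    ∃ x, ∃ y ∈ T x, y + T0 x = f := by
  choose ru rt r1 r2 r3 using exists_res hV hT
  choose j j1 j2 using fun x : V => exists_dual_vector'' ℝ x
  have hk : ∀ y : V →L[ℝ] ℝ, ∃ x, ‖x‖ ≤ 1 ∧ ‖y‖ ≤ 2 * ‖y x‖ := fun y => by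
    rcases (norm_nonneg y).eq_or_lt with h | h
    · exact ⟨0, by simp, by simp [← h]⟩
    · obtain ⟨x, h1, h2⟩ := y.exists_lt_apply_of_lt_opNorm (r := ‖y‖ / 2) (by linarith)
      exact ⟨x, h1.le, by linarith⟩
  choose k k1 k2 using hk
  obtain ⟨S, s1, s2, s3⟩ := exists_closed (Z := V × (V →L[ℝ] ℝ)) (ι := ℚ × ℕ) (fun i a b =>
    match i.2 with
    | 0 => a + b
    | 1 => (i.1 : ℝ) • a
    | 2 => (a.1, 0)
    | 3 => (0, a.2)
    | 4 => (ru a.1 b.2, rt a.1 b.2)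
    | 5 => (0, T0 a.1)
    | 6 => (0, j a.1)
    | _ => (k a.2, 0)) (0, f)
  obtain ⟨X, hX⟩ := exists_sub (A := Prod.fst '' S) ⟨_, s2, rfl⟩
    (by rintro _ ⟨a, ha, rfl⟩ _ ⟨b, hb, rfl⟩; exact ⟨_, s3 (0, 0) a ha b hb, rfl⟩)
    (by rintro q _ ⟨a, ha, rfl⟩; exact ⟨_, s3 (q, 1) a ha a ha, rfl⟩)
  obtain ⟨Y, hY⟩ := exists_sub (A := Prod.snd '' S) ⟨_, s3 (0, 2) _ s2 _ s2, rfl⟩
    (by rintro _ ⟨a, ha, rfl⟩ _ ⟨b, hb, rfl⟩; exact ⟨_, s3 (0, 0) a ha b hb, rfl⟩)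
    (by rintro q _ ⟨a, ha, rfl⟩; exact ⟨_, s3 (q, 1) a ha a ha, rfl⟩)
  have cX : IsClosed (X : Set V) := hX ▸ isClosed_closure
  have cY : IsClosed (Y : Set (V →L[ℝ] ℝ)) := hY ▸ isClosed_closure
  have mX : ∀ a ∈ S, a.1 ∈ X := fun a ha => (hX.symm ▸ subset_closure ⟨a, ha, rfl⟩ : a.1 ∈ (X : Set V))
  have mY : ∀ a ∈ S, a.2 ∈ Y := fun a ha =>
    (hY.symm ▸ subset_closure ⟨a, ha, rfl⟩ : a.2 ∈ (Y : Set (V →L[ℝ] ℝ)))
  have K : ∀ x ∈ X, ∀ y ∈ Y, (∀ a ∈ X, ∀ b ∈ Y, b ∈ T a → 0 ≤ (y - b) (x - a)) →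
      y ∈ T x ∧ T0 x ∈ Y := fun x hx y hy h => by
    obtain ⟨xs, x1, x2⟩ := mem_closure_iff_seq_limit.1 (hX ▸ hx : x ∈ closure (Prod.fst '' S))
    obtain ⟨ys, y1, y2⟩ := mem_closure_iff_seq_limit.1 (hY ▸ hy : y ∈ closure (Prod.snd '' S))
    have m : ∀ n, (ru (xs n) (ys n), rt (xs n) (ys n)) ∈ S := fun n => by
      obtain ⟨a, ha, e1⟩ := x1 n
      obtain ⟨b, hb, e2⟩ := y1 n
      rw [← e1, ← e2]
      exact s3 (0, 4) a ha b hb
    have est : ∀ n, ‖ru (xs n) (ys n) - xs n‖ ≤ 4 * (‖xs n - x‖ + ‖ys n - y‖) := fun n => by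
      have b0 := h _ (mX _ (m n)) _ (mY _ (m n)) (r1 _ _)
      have b1 := r2 (xs n) (ys n)
      have b2 := (le_abs_self _).trans ((rt (xs n) (ys n) - ys n).le_of_opNorm_le (r3 _ _) (xs n - x))
      have b3 := (le_abs_self _).trans ((ys n - y).le_opNorm (ru (xs n) (ys n) - xs n))
      have b4 := (le_abs_self _).trans ((ys n - y).le_opNorm (xs n - x))
      simp only [sub_apply, map_sub] at b0 b1 b2 b3 b4
      by_contra hc
      nlinarith [norm_nonneg (xs n - x), norm_nonneg (ys n - y)]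
    have l0 : Tendsto (fun n => ‖ru (xs n) (ys n) - xs n‖) atTop (𝓝 0) :=
      squeeze_zero (fun _ => norm_nonneg _) est (by
        simpa using ((tendsto_iff_norm_sub_tendsto_zero.1 x2).add
          (tendsto_iff_norm_sub_tendsto_zero.1 y2)).const_mul 4)
    have l1 : Tendsto (fun n => ru (xs n) (ys n)) atTop (𝓝 x) := by
      simpa using (tendsto_zero_iff_norm_tendsto_zero.2 l0).add x2
    have l2 : Tendsto (fun n => rt (xs n) (ys n)) atTop (𝓝 y) := by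
      simpa using (tendsto_zero_iff_norm_tendsto_zero.2 (squeeze_zero (fun _ => norm_nonneg _)
        (fun n => r3 (xs n) (ys n)) (by simpa using l0.const_mul 3))).add y2
    refine ⟨hT.max _ _ fun a b hb => ?_, sep cY fun g hg => ?_⟩
    · exact ge_of_tendsto' ((isBoundedBilinearMap_apply.continuous.tendsto (y - b, x - a)).comp
        ((l2.sub_const b).prodMk_nhds (l1.sub_const a))) fun n => hT.mono _ _ _ (r1 _ _) _ hb
    · obtain ⟨z, hz⟩ := hV g
      obtain ⟨C, hC⟩ := (Metric.isBounded_range_of_tendsto _ l2).exists_norm_le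
      obtain ⟨R, hR⟩ := (Metric.isBounded_range_of_tendsto _ l1).exists_norm_le
      obtain ⟨M, hM⟩ := hb R
      have := hP.strong l1 (fun n => r1 _ _) (fun n => hC _ ⟨n, rfl⟩) (fun n => hM _ (hR _ ⟨n, rfl⟩)) z
      have e : ∀ n, T0 (ru (xs n) (ys n)) z = 0 := fun n =>
        (hz _).symm.trans (hg _ (mY _ (s3 (0, 5) _ (m n) _ (m n))))
      simp only [e] at this
      exact (hz _).trans (tendsto_nhds_unique this tendsto_const_nhds)
  let R : (V →L[ℝ] ℝ) →L[ℝ] (X →L[ℝ] ℝ) := (ContinuousLinearMap.compL ℝ X V ℝ).flip X.subtypeL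
  have hR : ∀ y (e : X), R y e = y e := fun _ _ => rfl
  have R1 : ∀ y, ‖R y‖ ≤ ‖y‖ := fun y =>
    ContinuousLinearMap.opNorm_le_bound _ (norm_nonneg _) fun e => y.le_opNorm e
  have R2 : ∀ y ∈ Y, ‖y‖ ≤ 2 * ‖R y‖ := fun y hy => by
    refine closure_minimal (t := {y | ‖y‖ ≤ 2 * ‖R y‖}) ?_ (isClosed_le continuous_norm
      (cont_aux (V := X) R R.continuous)) (hY ▸ hy : y ∈ closure (Prod.snd '' S))
    rintro _ ⟨a, ha, rfl⟩
    have := (R a.2).le_opNorm_of_le (x := ⟨_, mX _ (s3 (0, 7) a ha a ha)⟩) (k1 a.2)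
    exact (k2 _).trans (by simpa [hR] using this)
  have rX : Refl X := fun φ => by
    obtain ⟨x, hx⟩ := hV (φ.comp R)
    refine ⟨⟨x, sep cX fun g hg => ?_⟩, fun η => ?_⟩
    · rw [← hx, ContinuousLinearMap.comp_apply, show R g = 0 from
        ContinuousLinearMap.ext fun e => hg _ e.2, map_zero]
    · obtain ⟨g, hg, -⟩ := exists_extension_norm_eq X η
      rw [show η = R g from ContinuousLinearMap.ext fun e => (hg e).symm]
      exact hx g
  have R3 : ∀ η, ∃ y ∈ Y, R y = η := fun η => by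
    have := cY.completeSpace_coe
    have h1 : IsClosed ((R.comp Y.subtypeL).range : Set (X →L[ℝ] ℝ)) :=
      closed_aux (V := X) (W := Y) (R.comp Y.subtypeL) fun y : Y => R2 y y.2
    obtain ⟨y, hy⟩ := sep h1 (v := η) fun g hg => by
      obtain ⟨e, he⟩ := rX g
      have : ‖(e : V)‖ ≤ 0 := le_of_forall_pos_le_add fun δ hδ => by
        obtain ⟨_, ⟨a, ha, rfl⟩, h⟩ := Metric.mem_closure_iff.1
          (hX ▸ e.2 : (e : V) ∈ closure (Prod.fst '' S)) (δ / 2) (by positivity)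
        have b1 : j a.1 e = 0 := (he _).symm.trans (hg _ ⟨⟨_, mY _ (s3 (0, 6) a ha a ha)⟩, rfl⟩)
        have b2 := (abs_le.1 ((j a.1).le_of_opNorm_le (j1 _) (e - a.1))).1
        have b3 := norm_le_norm_sub_add (e : V) a.1
        rw [map_sub, b1, j2] at b2
        rw [dist_eq_norm] at h
        simp only [RCLike.ofReal_real_eq_id, id] at b2
        linarith
      rw [he, show e = 0 by simpa using this, map_zero]
    exact ⟨y, y.2, hy⟩
  have : SeparableSpace X := (hX ▸ (s1.image _).isSeparable.closure : IsSeparable (X : Set V)).separableSpace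
  have : SeparableSpace Y := (hY ▸ (s1.image _).isSeparable.closure :
    IsSeparable (Y : Set (V →L[ℝ] ℝ))).separableSpace
  have : SeparableSpace (X →L[ℝ] ℝ) := DenseRange.separableSpace (f := R.comp Y.subtypeL)
    (Function.Surjective.denseRange fun η => (R3 η).elim fun y h => ⟨⟨y, h.1⟩, h.2⟩)
    (R.comp Y.subtypeL).continuous
  have m1 : MM fun e : X => R '' (T e ∩ Y) := by
    refine ⟨?_, fun e η h => ?_⟩
    · rintro a b _ ⟨y, hy, rfl⟩ _ ⟨y', hy', rfl⟩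
      exact hT.mono _ _ _ hy.1 _ hy'.1
    · obtain ⟨y, hy, rfl⟩ := R3 η
      exact ⟨y, ⟨(K e e.2 y hy fun a ha b hb hab => h ⟨a, ha⟩ _ ⟨b, ⟨hab, hb⟩, rfl⟩).1, hy⟩, rfl⟩
  have m2 : PM (fun e : X => R '' (T e ∩ Y)) fun e => R (T0 e) := by
    rintro u v η hu hη ⟨C, hC⟩ hl
    choose y hy e using hη
    obtain ⟨c1, c2⟩ := hP (fun j => u j) v y (fun g => hu (R g)) (fun j => (hy j).1)
      ⟨2 * C, fun j => (R2 _ (hy j).2).trans (by rw [e]; linarith [hC j])⟩ hl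
    exact ⟨fun z => c1 z, c2⟩
  obtain ⟨x, _, ⟨y, ⟨y1, y2⟩, rfl⟩, h⟩ := main_sep rX m1 m2
    (fun ρ => (hb ρ).imp fun M hM e he => (R1 _).trans (hM e he))
    (fun M => (hc M).imp (by rintro ρ hρ e _ ⟨y, hy, rfl⟩ he; exact hρ e y hy.1 he)) (R f)
  refine ⟨x, y, y1, ?_⟩
  have := R2 _ (Y.sub_mem (Y.add_mem y2 (K x x.2 y y2 fun a _ b _ hb => hT.mono _ _ _ y1 _ hb).2)
    (mY _ s2))
  rw [map_sub, map_add, h, sub_self, ContinuousLinearMap.opNorm_zero, mul_zero] at this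
  exact sub_eq_zero.1 (norm_le_zero_iff.1 this)

end Pool.Agent.H56.Mono
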