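import Mathlib

open Filter Topology Set MeasureTheory Real

namespace Pool.Agent.H56.Osc

/-- ODE data of the impulse response -/
structure Ode (c lam : ℝ) (g h : ℝ → ℝ) : Prop where
  dg : ∀ s, HasDerivAt g (h s) s
  dh : ∀ s, HasDerivAt h (-c * h s - lam * g s) s
  g0 : g 0 = 0
  h0 : h 0 = 1

/-- excess over the common envelope -/
noncomputable def ex (c : ℝ) (h : ℝ → ℝ) (s : ℝ) : ℝ := max (|h s| - exp (-c * s)) 0

lemma Ode.ch {c lam : ℝ} {g h : ℝ → ℝ} (H : Ode c lam g h) : Continuous h :=
  continuous_iff_continuousAt.2 fun s => (H.dh s).continuousAt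

lemma Ode.cg {c lam : ℝ} {g h : ℝ → ℝ} (H : Ode c lam g h) : Continuous g :=
  continuous_iff_continuousAt.2 fun s => (H.dg s).continuousAt

lemma ex_cont {c : ℝ} {h : ℝ → ℝ} (hh : Continuous h) : Continuous (ex c h) := by
  unfold ex; fun_prop

lemma ex_nonneg (c : ℝ) (h : ℝ → ℝ) (s : ℝ) : 0 ≤ ex c h s := le_max_right _ _

lemma int_le {r ρ ρ' : ℝ → ℝ} {a b : ℝ} (hab : a ≤ b) (hr : Continuous r)
    (hρ : ∀ s, HasDerivAt ρ (ρ' s) s) (hc : Continuous ρ') (hle : ∀ s ∈ Icc a b, r s ≤ ρ' s) :
    ∫ s in a..b, r s ≤ ρ b - ρ a := by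
  rw [← intervalIntegral.integral_eq_sub_of_hasDerivAt (fun s _ => hρ s)
    (hc.intervalIntegrable _ _)]
  exact intervalIntegral.integral_mono_on hab (hr.intervalIntegrable _ _)
    (hc.intervalIntegrable _ _) hle

lemma dexp (k s : ℝ) : HasDerivAt (fun s => exp (k * s)) (k * exp (k * s)) s := by
  have := ((hasDerivAt_id s).const_mul k).exp
  simpa [mul_comm] using this

lemma Ode.upper {lam : ℝ} {g h : ℝ → ℝ} (H : Ode 2 lam g h) (hl : 0 ≤ lam) {T : ℝ}
    (hg : ∀ s ∈ Icc 0 T, 0 ≤ g s) : ∀ s ∈ Icc 0 T, h s ≤ exp (-2 * s) := by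
  have hd : ∀ s, HasDerivAt (fun s => exp (2 * s) * h s) (-(lam * g s * exp (2 * s))) s := by
    intro s
    refine HasDerivAt.congr_deriv ((dexp 2 s).mul (H.dh s)) ?_
    ring
  have ha : AntitoneOn (fun s => exp (2 * s) * h s) (Icc 0 T) := by
    apply antitoneOn_of_deriv_nonpos (convex_Icc 0 T)
    · exact fun s _ => (hd s).continuousAt.continuousWithinAt
    · exact fun s _ => (hd s).differentiableAt.differentiableWithinAt
    · intro s hs
      rw [(hd s).deriv]
      have := hg s (interior_subset hs)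
      have := exp_pos (2 * s)
      have : 0 ≤ lam * g s * exp (2 * s) := by positivity
      linarith
  intro s hs
  have h1 := ha ⟨le_rfl, hs.1.trans hs.2⟩ hs hs.1
  simp only [mul_zero, exp_zero, H.h0, mul_one] at h1
  have h2 : exp (-2 * s) * exp (2 * s) = 1 := by rw [← exp_add]; simp
  have h3 := exp_pos (-2 * s)
  calc h s = exp (-2 * s) * (exp (2 * s) * h s) := by rw [← mul_assoc, h2, one_mul]
    _ ≤ exp (-2 * s) * 1 := by gcongr
    _ = _ := mul_one _

lemma caseA {lam : ℝ} {g h : ℝ → ℝ} (H : Ode 2 lam g h) (hl : 0 ≤ lam)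
    (hg : ∀ s, 0 ≤ s → 0 ≤ g s) (S : ℝ) (hS : 0 ≤ S) : ∫ s in (0:ℝ)..S, ex 2 h s ≤ 1 / 2 := by
  have hu := H.upper hl (T := S) fun s hs => hg s hs.1
  have hch := H.ch
  have := int_le (r := ex 2 h) (ρ := fun s => -(1/2) * exp (-2 * s) - g s)
    (ρ' := fun s => exp (-2 * s) - h s) hS (ex_cont hch)
    (fun s => by
      refine HasDerivAt.congr_deriv (((dexp (-2) s).const_mul (-(1/2))).sub (H.dg s)) ?_
      ring) (by fun_prop) (fun s hs => by
      have h1 := hu s hs
      have h2 := exp_pos (-2 * s)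
      unfold ex
      apply max_le _ (by linarith)
      rcases abs_cases (h s) with h3 | h3 <;> linarith [h3.1, h3.2])
  simp only [mul_zero, exp_zero, H.g0] at this
  have h1 := exp_pos (-2 * S)
  have h2 := hg S hS
  linarith

lemma caseB {lam : ℝ} {g h : ℝ → ℝ} (H : Ode 2 lam g h) (hl : 3 / 2 ≤ lam)
    (S : ℝ) (hS : 0 ≤ S) : ∫ s in (0:ℝ)..S, ex 2 h s ≤ 1 / 2 := by
  have hch := H.ch
  have hp : 0 < 4 * lam - 3 := by linarith
  set W : ℝ → ℝ := fun s => exp (1 * s) * ((2 * lam - 1) * (h s * h s) + 2 * lam * (g s * h s) +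
    2 * lam ^ 2 * (g s * g s)) with hW
  have dW : ∀ s, HasDerivAt W (-((4 * lam - 3) * (exp (1 * s) * (h s * h s)))) s := by
    intro s
    refine HasDerivAt.congr_deriv ((dexp 1 s).mul (((((H.dh s).mul (H.dh s)).const_mul (2 * lam - 1)).add
      (((H.dg s).mul (H.dh s)).const_mul (2 * lam))).add
      (((H.dg s).mul (H.dg s)).const_mul (2 * lam ^ 2)))) ?_
    try simp only [Pi.add_apply, Pi.mul_apply, Pi.sub_apply]
    ring
  have := int_le (r := ex 2 h)
    (ρ := fun s => -(1 / (2 * (4 * lam - 3))) * W s - 1/2 * exp (-1 * s) + 1/2 * exp (-2 * s)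
      - 1/6 * exp (-3 * s))
    (ρ' := fun s => 1/2 * (exp (1 * s) * (h s * h s)) + 1/2 * exp (-1 * s) - exp (-2 * s)
      + 1/2 * exp (-3 * s)) hS (ex_cont hch)
    (fun s => by
      refine HasDerivAt.congr_deriv (((((dW s).const_mul (-(1 / (2 * (4 * lam - 3))))).sub
        ((dexp (-1) s).const_mul (1/2))).add ((dexp (-2) s).const_mul (1/2))).sub
        ((dexp (-3) s).const_mul (1/6))) ?_
      field_simp
      ring) (by fun_prop) (fun s hs => by
      have e1 : exp (1 * s) * exp (-1 * s) = 1 := by rw [← exp_add]; simp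
      have e2 : exp (-2 * s) = exp (-1 * s) ^ 2 := by rw [← exp_nat_mul]; congr 1; push_cast; ring
      have e3 : exp (-3 * s) = exp (-1 * s) ^ 3 := by rw [← exp_nat_mul]; congr 1; push_cast; ring
      have p1 := exp_pos (1 * s)
      have p2 := exp_pos (-1 * s)
      unfold ex
      rw [e2, e3, ← abs_mul_abs_self (h s)]
      generalize exp (1 * s) = E at *
      generalize exp (-1 * s) = y at *
      generalize |h s| = x at *
      have k1 : 0 ≤ E * (x - y) ^ 2 := by positivity
      have k2 : E * (x - y) ^ 2 = E * (x * x) - 2 * x * (E * y) + y * (E * y) := by ring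
      rw [k2, e1] at k1
      have k3 : 0 ≤ y * (1 - y) ^ 2 := by positivity
      have k4 : 0 ≤ E * (x * x) := mul_nonneg p1.le (mul_self_nonneg x)
      have k5 : 0 ≤ y ^ 3 := by positivity
      apply max_le <;> nlinarith)
  have w0 : W 0 = 2 * lam - 1 := by simp [hW, H.g0, H.h0]
  have wS : 0 ≤ W S := by
    apply mul_nonneg (exp_pos _).le
    nlinarith [sq_nonneg (h S + lam * g S), sq_nonneg (lam * g S), mul_self_nonneg (h S)]
  simp only [mul_zero, exp_zero, w0] at this
  have e2 : exp (-2 * S) ≤ exp (-1 * S) := exp_le_exp.2 (by linarith)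
  have e3 := exp_pos (-3 * S)
  have k1 : 0 ≤ 1 / (2 * (4 * lam - 3)) * W S := by positivity
  have k2 : 1 / (2 * (4 * lam - 3)) * (2 * lam - 1) ≤ 1 / 3 := by
    rw [div_mul_eq_mul_div, div_le_iff₀ (by positivity)]; linarith
  linarith

lemma under_ode {w : ℝ} (hw : 0 < w) : Ode 2 (1 + w ^ 2) (fun s => exp (-1 * s) * (sin (w * s) / w))
    (fun s => exp (-1 * s) * (cos (w * s) - sin (w * s) / w)) := by
  have ds : ∀ s, HasDerivAt (fun s => sin (w * s)) (w * cos (w * s)) s := fun s => by
    simpa [mul_comm] using ((hasDerivAt_id s).const_mul w).sin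
  have dc : ∀ s, HasDerivAt (fun s => cos (w * s)) (-(w * sin (w * s))) s := fun s => by
    simpa [mul_comm] using ((hasDerivAt_id s).const_mul w).cos
  refine ⟨fun s => ?_, fun s => ?_, by simp, by simp⟩
  · refine HasDerivAt.congr_deriv ((dexp (-1) s).mul ((ds s).div_const w)) ?_
    field_simp
    ring
  · refine HasDerivAt.congr_deriv ((dexp (-1) s).mul ((dc s).sub ((ds s).div_const w))) ?_
    try simp only [Pi.add_apply, Pi.mul_apply, Pi.sub_apply]
    field_simp
    ring

lemma sin_div_le {w s : ℝ} (hw : 0 < w) (hs : 0 ≤ s) : |sin (w * s) / w| ≤ s := by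
  rw [abs_div, abs_of_pos hw, div_le_iff₀ hw]
  have := abs_sin_le_abs (x := w * s)
  rw [abs_of_nonneg (by positivity : 0 ≤ w * s)] at this
  linarith

lemma caseC {w : ℝ} (hw : 0 < w) (hw2 : w ≤ 3 / 4) (S : ℝ) (hS : 0 ≤ S) :
    ∫ s in (0:ℝ)..S, ex 2 (fun s => exp (-1 * s) * (cos (w * s) - sin (w * s) / w)) s ≤ 1 / 2 := by
  have H := under_ode hw
  set g : ℝ → ℝ := fun s => exp (-1 * s) * (sin (w * s) / w) with hg
  set h : ℝ → ℝ := fun s => exp (-1 * s) * (cos (w * s) - sin (w * s) / w) with hh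
  have hch := H.ch
  have hex := ex_cont (c := 2) hch
  set T := π / w with hT
  have hwT : w * T = π := by rw [hT]; field_simp
  have hT4 : 4 ≤ T := by rw [hT, le_div_iff₀ hw]; linarith [pi_gt_three]
  have gpos : ∀ s ∈ Icc 0 T, 0 ≤ g s := by
    intro s hs
    apply mul_nonneg (exp_pos _).le (div_nonneg _ hw.le)
    apply sin_nonneg_of_nonneg_of_le_pi (mul_nonneg hw.le hs.1)
    rw [← hwT]; exact mul_le_mul_of_nonneg_left hs.2 hw.le
  have hu := H.upper (by positivity) gpos
  have hφc : Continuous fun s => cos (w * s) - sin (w * s) / w := by fun_prop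
  obtain ⟨z, hz, hz0⟩ : (0:ℝ) ∈ (fun s => cos (w * s) - sin (w * s) / w) '' Icc 0 (T / 2) := by
    apply intermediate_value_Icc' (by linarith) hφc.continuousOn
    have : w * (T / 2) = π / 2 := by rw [← hwT]; ring
    simp only [this, cos_pi_div_two, sin_pi_div_two, mul_zero, cos_zero, sin_zero, mem_Icc]
    constructor
    · have : 0 < 1 / w := by positivity
      linarith
    · simp
  simp only at hz0
  have mono : ∀ a b, 0 ≤ a → a ≤ b → b ≤ T / 2 →
      cos (w * b) - sin (w * b) / w ≤ cos (w * a) - sin (w * a) / w := by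
    intro a b ha hab hb
    have h1 : 0 ≤ w * a := by positivity
    have h2 : w * a ≤ w * b := by gcongr
    have h3 : w * b ≤ π / 2 := by rw [← hwT]; nlinarith
    have c1 := cos_le_cos_of_nonneg_of_le_pi h1 (by linarith [pi_pos]) h2
    have c2 := sin_le_sin_of_le_of_le_pi_div_two (by linarith [pi_pos]) h3 h2
    have c3 : sin (w * a) / w ≤ sin (w * b) / w := by gcongr
    linarith
  have i1 : ∫ s in (0:ℝ)..z, ex 2 h s ≤ 0 := by
    have := int_le (r := ex 2 h) (ρ := fun _ => (0:ℝ)) (ρ' := fun _ => 0) hz.1 hex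
      (fun s => hasDerivAt_const s 0) continuous_const (fun s hs => by
        have h1 := hu s ⟨hs.1, by linarith [hs.2, hz.2]⟩
        have h2 := mono s z hs.1 hs.2 hz.2
        have h3 : 0 ≤ h s := mul_nonneg (exp_pos _).le (by linarith)
        unfold ex
        rw [abs_of_nonneg h3]
        exact max_le (by linarith) le_rfl)
    simpa using this
  have i2 : ∫ s in z..T, ex 2 h s ≤ exp (-1) := by
    have := int_le (r := ex 2 h) (ρ := fun s => -g s) (ρ' := fun s => -h s)
      (by linarith [hz.2] : z ≤ T) hex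
      (fun s => (H.dg s).neg) hch.neg (fun s hs => by
        have h3 : h s ≤ 0 := by
          apply mul_nonpos_of_nonneg_of_nonpos (exp_pos _).le
          by_cases hc : s ≤ T / 2
          · have := mono z s hz.1 hs.1 hc
            linarith
          · have k1 : π / 2 ≤ w * s := by rw [← hwT]; nlinarith
            have k2 : w * s ≤ π := by rw [← hwT]; exact mul_le_mul_of_nonneg_left hs.2 hw.le
            have c1 := cos_nonpos_of_pi_div_two_le_of_le k1 (by linarith [pi_pos])
            have c2 := sin_nonneg_of_nonneg_of_le_pi (by linarith [pi_pos]) k2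
            have c3 : 0 ≤ sin (w * s) / w := by positivity
            linarith
        have := exp_pos (-2 * s)
        unfold ex
        rw [abs_of_nonpos h3]
        exact max_le (by linarith) (by linarith))
    have gT := gpos T ⟨by linarith, le_rfl⟩
    have gz : g z ≤ exp (-1) := by
      have k1 := (le_abs_self _).trans (sin_div_le hw hz.1)
      have k2 := add_one_le_exp (z - 1)
      calc g z ≤ exp (-1 * z) * exp (z - 1) := by
            apply mul_le_mul_of_nonneg_left _ (exp_pos _).le; linarith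
        _ = exp (-1) := by rw [← exp_add]; congr 1; ring
    linarith
  have i3 : ∫ s in T..max S T, ex 2 h s ≤ 1 / 9 := by
    have := int_le (r := ex 2 h) (ρ := fun s => -(exp (-1 * s) * (2 + s)))
      (ρ' := fun s => exp (-1 * s) * (1 + s)) (le_max_right S T) hex
      (fun s => by
        refine HasDerivAt.congr_deriv (((dexp (-1) s).mul ((hasDerivAt_id s).const_add 2)).neg) ?_
        simp only [id]; ring) (by fun_prop) (fun s hs => by
        have hs0 : 0 ≤ s := by linarith [hs.1]
        have k1 := sin_div_le hw hs0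
        have k2 := abs_cos_le_one (w * s)
        have k3 : |h s| ≤ exp (-1 * s) * (1 + s) := by
          rw [hh]; simp only [abs_mul, abs_of_pos (exp_pos _)]
          apply mul_le_mul_of_nonneg_left _ (exp_pos _).le
          exact (abs_sub _ _).trans (by linarith)
        have := exp_pos (-2 * s)
        unfold ex
        exact max_le (by linarith) (by positivity))
    have k1 : 0 ≤ exp (-1 * max S T) * (2 + max S T) := by positivity
    have k2 : exp (-1 * T) * (2 + T) ≤ 1 / 9 := by
      have a1 := add_one_le_exp (T - 4)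
      have a2 : 54 ≤ exp 4 := by
        have := exp_one_gt_d9
        have e : exp 4 = exp 1 ^ 4 := by rw [← exp_nat_mul]; norm_num
        rw [e]
        calc (54:ℝ) ≤ 2.7182818283 ^ 4 := by norm_num
          _ ≤ _ := by gcongr
      have a3 : exp (-1 * T) * (exp 4 * exp (T - 4)) = 1 := by
        rw [← exp_add, ← exp_add]; simp
      have a4 : 9 * (2 + T) ≤ exp 4 * exp (T - 4) := by nlinarith
      have a5 := exp_pos (-1 * T)
      nlinarith
    linarith
  have j1 : ∫ s in (0:ℝ)..S, ex 2 h s ≤ ∫ s in (0:ℝ)..max S T, ex 2 h s :=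
    intervalIntegral.integral_mono_interval le_rfl hS (le_max_left _ _)
      (Eventually.of_forall fun s => ex_nonneg _ _ s) (hex.intervalIntegrable _ _)
  have j2 := intervalIntegral.integral_add_adjacent_intervals (a := 0) (b := T) (c := max S T)
    (μ := volume) (hex.intervalIntegrable _ _) (hex.intervalIntegrable _ _)
  have j3 := intervalIntegral.integral_add_adjacent_intervals (a := 0) (b := z) (c := T)
    (μ := volume) (hex.intervalIntegrable _ _) (hex.intervalIntegrable _ _)
  have := exp_neg_one_lt_d9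
  linarith

lemma tendsto_env : Tendsto (fun s : ℝ => exp (-1 * s) * (1 + s)) atTop (𝓝 0) := by
  have h0 := tendsto_pow_mul_exp_neg_atTop_nhds_zero 0
  have h1 := tendsto_pow_mul_exp_neg_atTop_nhds_zero 1
  have := h0.add h1
  simp only [add_zero] at this
  refine this.congr fun s => ?_
  simp; ring

lemma tendsto_of_env {f : ℝ → ℝ} (hf : ∀ s, 0 ≤ s → |f s| ≤ exp (-1 * s) * (1 + s)) :
    Tendsto f atTop (𝓝 0) :=
  squeeze_zero_norm' ((eventually_ge_atTop 0).mono hf) tendsto_env

lemma texp {a : ℝ} (ha : 0 < a) : Tendsto (fun s : ℝ => exp (-a * s)) atTop (𝓝 0) :=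
  tendsto_exp_atBot.comp (tendsto_id.const_mul_atTop_of_neg (by linarith))

lemma imp2 {lam : ℝ} (hl : 0 < lam) : ∃ g h : ℝ → ℝ, Ode 2 lam g h ∧ Tendsto g atTop (𝓝 0) ∧
    Tendsto h atTop (𝓝 0) ∧ ∀ S, 0 ≤ S → ∫ s in (0:ℝ)..S, ex 2 h s ≤ 1 / 2 := by
  rcases lt_trichotomy lam 1 with h1 | rfl | h1
  · set k := √(1 - lam) with hk
    have k0 : 0 < k := sqrt_pos.2 (by linarith)
    have k2 : k ^ 2 = 1 - lam := sq_sqrt (by linarith)
    have k1 : k < 1 := by nlinarith
    have hlam : lam = 1 - k ^ 2 := by linarith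
    have H : Ode 2 lam (fun s => (exp (-(1 - k) * s) - exp (-(1 + k) * s)) / (2 * k))
        (fun s => (-(1 - k) * exp (-(1 - k) * s) + (1 + k) * exp (-(1 + k) * s)) / (2 * k)) := by
      refine ⟨fun s => ?_, fun s => ?_, by simp, ?_⟩
      · refine HasDerivAt.congr_deriv (((dexp (-(1 - k)) s).sub (dexp (-(1 + k)) s)).div_const (2 * k)) ?_
        ring
      · refine HasDerivAt.congr_deriv ((((dexp (-(1 - k)) s).const_mul (-(1 - k))).add
          ((dexp (-(1 + k)) s).const_mul (1 + k))).div_const (2 * k)) ?_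
        rw [hlam]; field_simp; ring
      · simp; field_simp; ring
    refine ⟨_, _, H, ?_, ?_, caseA H hl.le fun s hs => ?_⟩
    · simpa using ((texp (a := 1 - k) (by linarith)).sub (texp (a := 1 + k) (by linarith))).div_const
        (2 * k)
    · simpa using (((texp (a := 1 - k) (by linarith)).const_mul (-(1 - k))).add
        ((texp (a := 1 + k) (by linarith)).const_mul (1 + k))).div_const (2 * k)
    · apply div_nonneg _ (by positivity)
      have : exp (-(1 + k) * s) ≤ exp (-(1 - k) * s) := exp_le_exp.2 (by nlinarith)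
      linarith
  · have H : Ode 2 1 (fun s => exp (-1 * s) * s) (fun s => exp (-1 * s) * (1 - s)) := by
      refine ⟨fun s => ?_, fun s => ?_, by simp, by simp⟩
      · refine HasDerivAt.congr_deriv ((dexp (-1) s).mul (hasDerivAt_id s)) ?_
        (try simp only [id]); ring
      · refine HasDerivAt.congr_deriv ((dexp (-1) s).mul ((hasDerivAt_id s).const_sub 1)) ?_
        (try simp only [id]); ring
    refine ⟨_, _, H, tendsto_of_env fun s hs => ?_, tendsto_of_env fun s hs => ?_,
      caseA H hl.le fun s hs => by positivity⟩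
    · rw [abs_mul, abs_of_pos (exp_pos _), abs_of_nonneg hs]
      apply mul_le_mul_of_nonneg_left (by linarith) (exp_pos _).le
    · rw [abs_mul, abs_of_pos (exp_pos _)]
      apply mul_le_mul_of_nonneg_left _ (exp_pos _).le
      rw [abs_le]; constructor <;> linarith
  · set w := √(lam - 1) with hw
    have w0 : 0 < w := sqrt_pos.2 (by linarith)
    have w2 : w ^ 2 = lam - 1 := sq_sqrt (by linarith)
    have hlam : lam = 1 + w ^ 2 := by linarith
    have H := under_ode w0
    rw [← hlam] at H
    refine ⟨_, _, H, tendsto_of_env fun s hs => ?_, tendsto_of_env fun s hs => ?_, fun S hS => ?_⟩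
    · rw [abs_mul, abs_of_pos (exp_pos _)]
      apply mul_le_mul_of_nonneg_left _ (exp_pos _).le
      linarith [sin_div_le w0 hs]
    · rw [abs_mul, abs_of_pos (exp_pos _)]
      apply mul_le_mul_of_nonneg_left _ (exp_pos _).le
      exact (abs_sub _ _).trans (by linarith [sin_div_le w0 hs, abs_cos_le_one (w * s)])
    · by_cases hc : 3 / 2 ≤ lam
      · exact caseB H hc S hS
      · exact caseC w0 (by nlinarith) S hS

lemma imp {c lam : ℝ} (hc : 0 < c) (hl : 0 < lam) : ∃ g h : ℝ → ℝ, Ode c lam g h ∧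
    Tendsto g atTop (𝓝 0) ∧ Tendsto h atTop (𝓝 0) ∧
    ∀ S, 0 ≤ S → ∫ s in (0:ℝ)..S, ex c h s ≤ 1 / c := by
  obtain ⟨g, h, H, tg, th, hi⟩ := imp2 (lam := 4 * lam / c ^ 2) (by positivity)
  have dl : ∀ s : ℝ, HasDerivAt (fun s => c / 2 * s) (c / 2) s := fun s => by
    simpa using (hasDerivAt_id s).const_mul (c / 2)
  have tl : Tendsto (fun s : ℝ => c / 2 * s) atTop atTop :=
    tendsto_id.const_mul_atTop (by positivity)
  refine ⟨fun s => 2 / c * g (c / 2 * s), fun s => h (c / 2 * s), ⟨fun s => ?_, fun s => ?_,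
    by simp [H.g0], by simp [H.h0]⟩, ?_, th.comp tl, fun S hS => ?_⟩
  · refine HasDerivAt.congr_deriv (((H.dg (c / 2 * s)).comp s (dl s)).const_mul (2 / c)) ?_
    field_simp
  · refine HasDerivAt.congr_deriv ((H.dh (c / 2 * s)).comp s (dl s)) ?_
    field_simp
    ring
  · simpa using (tg.comp tl).const_mul (2 / c)
  · have e : ∀ s, ex c (fun s => h (c / 2 * s)) s = ex 2 h (c / 2 * s) := by
      intro s; unfold ex; congr 3; ring
    simp only [e]
    rw [intervalIntegral.integral_comp_mul_left (fun s => ex 2 h s) (by positivity : c / 2 ≠ 0)]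
    have := hi (c / 2 * S) (by positivity)
    simp only [mul_zero, smul_eq_mul]
    calc (c / 2)⁻¹ * ∫ x in (0:ℝ)..c / 2 * S, ex 2 h x ≤ (c / 2)⁻¹ * (1 / 2) := by gcongr
      _ = 1 / c := by field_simp

end Pool.Agent.H56.Osc
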