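import Pool.Agent.H56.OscDef
import Pool.Agent.H56.Osc1

open Filter Topology Set MeasureTheory Real
open scoped RealInnerProductSpace NNReal ENNReal

namespace Pool.Agent.H56.Osc

lemma ac_of_deriv {E : Type*} [NormedAddCommGroup E] [NormedSpace ℝ E] {φ φ' : ℝ → E} {a b : ℝ}
    (hd : ∀ s ∈ uIcc a b, HasDerivWithinAt φ (φ' s) (uIcc a b) s)
    (hc : ContinuousOn φ' (uIcc a b)) : AbsolutelyContinuousOnInterval φ a b := by
  obtain ⟨C, hC⟩ := isCompact_uIcc.exists_bound_of_continuousOn hc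
  refine LipschitzOnWith.absolutelyContinuousOnInterval (K := C.toNNReal) ?_
  apply (convex_uIcc a b).lipschitzOnWith_of_nnnorm_hasDerivWithin_le hd
  intro x hx
  rw [← NNReal.coe_le_coe]
  exact (hC x hx).trans (Real.le_coe_toNNReal C)

lemma ac_inner {d : ℕ} {v : ℝ → V d} {a b : ℝ} (e : V d) (he : ‖e‖ = 1)
    (hv : AbsolutelyContinuousOnInterval v a b) :
    AbsolutelyContinuousOnInterval (fun s => ⟪e, v s⟫) a b := by
  unfold AbsolutelyContinuousOnInterval at hv ⊢
  refine squeeze_zero (fun E => Finset.sum_nonneg fun _ _ => dist_nonneg) (fun E => ?_) hv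
  apply Finset.sum_le_sum
  intro i _
  rw [Real.dist_eq, ← inner_sub_right, dist_eq_norm]
  exact (abs_real_inner_le_norm _ _).trans (by rw [he, one_mul])

lemma ac_sum {ι : Type*} (s : Finset ι) {F : ι → ℝ → ℝ} {a b : ℝ}
    (h : ∀ i, AbsolutelyContinuousOnInterval (F i) a b) :
    AbsolutelyContinuousOnInterval (fun x => ∑ i ∈ s, F i x) a b := by
  classical
  induction s using Finset.induction_on with
  | empty => simpa using (contDiffOn_const (c := (0:ℝ))).absolutelyContinuousOnInterval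
  | insert i s hi ih =>
    simp only [Finset.sum_insert hi]
    exact (h i).add ih

lemma sum_abs_le {d : ℕ} (b : OrthonormalBasis (Fin d) ℝ (V d)) (x y : V d) :
    ∑ i, |⟪b i, x⟫| * |⟪b i, y⟫| ≤ ‖x‖ * ‖y‖ := by
  have h := Real.sum_mul_le_sqrt_mul_sqrt Finset.univ (fun i => |⟪b i, x⟫|) (fun i => |⟪b i, y⟫|)
  simp only [sq_abs] at h
  rw [b.sum_sq_inner_right, b.sum_sq_inner_right, sqrt_sq (norm_nonneg _),
    sqrt_sq (norm_nonneg _)] at h
  exact h

lemma sum_abs_le' {d : ℕ} (b : OrthonormalBasis (Fin d) ℝ (V d)) (x : V d) :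
    ∑ i, |⟪b i, x⟫| ≤ √d * ‖x‖ := by
  have h := Real.sum_mul_le_sqrt_mul_sqrt Finset.univ (fun _ : Fin d => (1:ℝ))
    (fun i => |⟪b i, x⟫|)
  simp only [sq_abs, one_mul, one_pow] at h
  rw [b.sum_sq_inner_right, sqrt_sq (norm_nonneg _)] at h
  simpa using h

lemma core {d : ℕ} {A : Matrix (Fin d) (Fin d) ℝ} {c : ℝ} (hc : 0 < c)
    (b : OrthonormalBasis (Fin d) ℝ (V d)) (lam : Fin d → ℝ) (hl : ∀ i, 0 < lam i)
    (hb : ∀ i x, ⟪b i, Matrix.toEuclideanLin A x⟫ = lam i * ⟪b i, x⟫)
    (g h : Fin d → ℝ → ℝ) (H : ∀ i, Ode c (lam i) (g i) (h i))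
    (hi : ∀ i S, 0 ≤ S → ∫ s in (0:ℝ)..S, ex c (h i) s ≤ 1 / c)
    {f u v : ℝ → V d} (hs : IsSol A c f u v) {F T t : ℝ} (hF : 0 ≤ F) (hT : 0 < T) (ht : T ≤ t)
    (hf : ∀ᵐ s ∂(volume : Measure ℝ), T ≤ s → ‖f s‖ ≤ F) :
    ‖v t‖ ≤ ∑ i, (|h i (t - T)| * ‖v T‖ + lam i * |g i (t - T)| * ‖u T‖) +
      (1 + √d) / c * F := by
  set ξ : Fin d → ℝ := fun i => ⟪b i, v t⟫ with hξ
  set Ψ : ℝ → ℝ := fun s => ∑ i, ξ i * (h i (t - s) * ⟪b i, v s⟫ -
    lam i * (g i (t - s) * ⟪b i, u s⟫)) with hΨ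
  have dsub : ∀ s : ℝ, HasDerivAt (fun s => t - s) (-1) s := fun s =>
    (hasDerivAt_id s).const_sub t
  have dg : ∀ i s, HasDerivAt (fun s => g i (t - s)) (-h i (t - s)) s := fun i s => by
    refine HasDerivAt.congr_deriv (((H i).dg (t - s)).comp s (dsub s)) ?_
    ring
  have dh : ∀ i s, HasDerivAt (fun s => h i (t - s))
      (c * h i (t - s) + lam i * g i (t - s)) s := fun i s => by
    refine HasDerivAt.congr_deriv (((H i).dh (t - s)).comp s (dsub s)) ?_
    ring
  have hI : uIcc T t = Icc T t := uIcc_of_le ht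
  have sub0 : uIcc T t ⊆ Ici 0 := by rw [hI]; exact fun s hs => hT.le.trans hs.1
  have acv : AbsolutelyContinuousOnInterval v T t := by
    apply (hs.ac t (hT.le.trans ht)).mono
    rw [hI, uIcc_of_le (hT.le.trans ht)]
    exact Icc_subset_Icc_left hT.le
  have acu : AbsolutelyContinuousOnInterval u T t :=
    ac_of_deriv (fun s hs' => (hs.hasDeriv s (sub0 hs')).mono sub0) (hs.cont.mono sub0)
  have acΨ : AbsolutelyContinuousOnInterval Ψ T t := by
    apply ac_sum
    intro i
    have cg := (H i).cg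
    have ch := (H i).ch
    have a1 : AbsolutelyContinuousOnInterval (fun s => g i (t - s)) T t :=
      ac_of_deriv (fun s _ => (dg i s).hasDerivWithinAt) (by fun_prop)
    have a2 : AbsolutelyContinuousOnInterval (fun s => h i (t - s)) T t :=
      ac_of_deriv (fun s _ => (dh i s).hasDerivWithinAt) (by fun_prop)
    exact ((a2.mul (ac_inner (b i) (b.orthonormal.1 i) acv)).sub
      ((a1.mul (ac_inner (b i) (b.orthonormal.1 i) acu)).const_mul (lam i))).const_mul (ξ i)
  have key : ∀ᵐ s ∂(volume : Measure ℝ), s ∈ Icc T t → deriv Ψ s ≤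
      F * ‖v t‖ * exp (-c * (t - s)) + ∑ i, F * |ξ i| * ex c (h i) (t - s) := by
    filter_upwards [hs.ode, hf] with s h1 h2 hst
    obtain ⟨w, hw, he⟩ := h1 (hT.le.trans hst.1)
    have hfs := h2 hst.1
    have du : HasDerivAt u (v s) s :=
      (hs.hasDeriv s (hT.le.trans hst.1)).hasDerivAt (Ici_mem_nhds (hT.trans_le hst.1))
    have dΨ : HasDerivAt Ψ (∑ i, ξ i * (h i (t - s) * ⟪b i, f s⟫)) s := by
      apply HasDerivAt.fun_sum
      intro i _
      have e1 : HasDerivAt (fun s => ⟪b i, v s⟫) ⟪b i, w⟫ s := by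
        simpa using (hasDerivAt_const s (b i)).inner ℝ hw
      have e2 : HasDerivAt (fun s => ⟪b i, u s⟫) ⟪b i, v s⟫ s := by
        simpa using (hasDerivAt_const s (b i)).inner ℝ du
      refine HasDerivAt.congr_deriv ((((dh i s).mul e1).sub
        (((dg i s).mul e2).const_mul (lam i))).const_mul (ξ i)) ?_
      rw [← he, inner_add_right, inner_add_right, inner_smul_right, hb]
      ring
    rw [dΨ.deriv]
    have k1 := sum_abs_le b (v t) (f s)
    have ep := exp_pos (-c * (t - s))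
    calc ∑ i, ξ i * (h i (t - s) * ⟪b i, f s⟫)
        ≤ ∑ i, (|⟪b i, v t⟫| * |⟪b i, f s⟫| * exp (-c * (t - s)) +
          F * |ξ i| * ex c (h i) (t - s)) := by
          apply Finset.sum_le_sum
          intro i _
          have a1 : |h i (t - s)| ≤ exp (-c * (t - s)) + ex c (h i) (t - s) := by
            have := le_max_left (|h i (t - s)| - exp (-c * (t - s))) 0
            unfold ex; linarith
          have a2 : |⟪b i, f s⟫| ≤ F :=
            (abs_real_inner_le_norm _ _).trans (by rw [b.orthonormal.1 i, one_mul]; exact hfs)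
          have a3 := ex_nonneg c (h i) (t - s)
          calc ξ i * (h i (t - s) * ⟪b i, f s⟫) ≤ |ξ i| * (|h i (t - s)| * |⟪b i, f s⟫|) := by
                rw [← abs_mul, ← abs_mul]; exact le_abs_self _
            _ ≤ |ξ i| * ((exp (-c * (t - s)) + ex c (h i) (t - s)) * |⟪b i, f s⟫|) := by gcongr
            _ = |ξ i| * |⟪b i, f s⟫| * exp (-c * (t - s)) +
                |⟪b i, f s⟫| * |ξ i| * ex c (h i) (t - s) := by ring
            _ ≤ _ := by gcongr
      _ ≤ _ := by
          rw [Finset.sum_add_distrib, ← Finset.sum_mul]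
          gcongr
          calc _ ≤ ‖v t‖ * ‖f s‖ := k1
            _ ≤ ‖v t‖ * F := by gcongr
            _ = _ := mul_comm _ _
  have cex : ∀ i, Continuous fun s => F * |ξ i| * ex c (h i) (t - s) := fun i =>
    continuous_const.mul ((ex_cont (H i).ch).comp (by fun_prop))
  have c1 : Continuous fun s => F * ‖v t‖ * exp (-c * (t - s)) := by fun_prop
  have i1 := intervalIntegral.integral_mono_ae_restrict ht acΨ.intervalIntegrable_deriv
    ((c1.add (continuous_finsetSum Finset.univ fun i _ => cex i)).intervalIntegrable T t)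
    ((ae_restrict_iff' measurableSet_Icc).2 key)
  rw [acΨ.integral_deriv_eq_sub] at i1
  simp only [Pi.add_apply] at i1
  rw [intervalIntegral.integral_add (c1.intervalIntegrable T t)
    ((continuous_finsetSum Finset.univ fun i _ => cex i).intervalIntegrable T t),
    intervalIntegral.integral_finsetSum fun i _ => (cex i).intervalIntegrable T t] at i1
  have i2 : ∫ s in T..t, F * ‖v t‖ * exp (-c * (t - s)) ≤ F * ‖v t‖ * (1 / c) := by
    have := int_le (ρ := fun s => F * ‖v t‖ * (exp (-c * (t - s)) / c))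
      (ρ' := fun s => F * ‖v t‖ * exp (-c * (t - s))) ht c1 (fun s => by
        refine HasDerivAt.congr_deriv
          ((((dexp (-c) (t - s)).comp s (dsub s)).div_const c).const_mul (F * ‖v t‖)) ?_
        field_simp) c1 (fun s _ => le_rfl)
    simp only [sub_self, mul_zero, exp_zero] at this
    have : 0 ≤ F * ‖v t‖ * (exp (-c * (t - T)) / c) := by positivity
    linarith
  have i3 : ∀ i, ∫ s in T..t, F * |ξ i| * ex c (h i) (t - s) ≤ F * |ξ i| * (1 / c) := by
    intro i
    rw [intervalIntegral.integral_const_mul, intervalIntegral.integral_comp_sub_left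
      (fun s => ex c (h i) s), sub_self]
    exact mul_le_mul_of_nonneg_left (hi i _ (by linarith)) (by positivity)
  have i4 : ∑ i, ∫ s in T..t, F * |ξ i| * ex c (h i) (t - s) ≤ F * (√d * ‖v t‖) * (1 / c) := by
    refine (Finset.sum_le_sum fun i _ => i3 i).trans ?_
    rw [← Finset.sum_mul, ← Finset.mul_sum]
    gcongr
    exact sum_abs_le' b (v t)
  have p1 : Ψ t = ‖v t‖ ^ 2 := by
    simp only [hΨ, sub_self, (H _).g0, (H _).h0]
    rw [← b.sum_sq_inner_right]
    apply Finset.sum_congr rfl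
    intro i _
    simp only [hξ]; ring
  have p2 : Ψ T ≤ ‖v t‖ * ∑ i, (|h i (t - T)| * ‖v T‖ + lam i * |g i (t - T)| * ‖u T‖) := by
    rw [Finset.mul_sum]
    apply Finset.sum_le_sum
    intro i _
    have a : ∀ x, |⟪b i, x⟫| ≤ ‖x‖ := fun x =>
      (abs_real_inner_le_norm _ _).trans (by rw [b.orthonormal.1 i, one_mul])
    have l := (hl i).le
    refine (le_abs_self _).trans ?_
    rw [abs_mul]
    apply mul_le_mul (a _) _ (abs_nonneg _) (norm_nonneg _)
    refine (abs_sub _ _).trans ?_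
    rw [abs_mul, abs_mul, abs_mul, abs_of_nonneg l, mul_assoc]
    gcongr
    · exact a _
    · exact a _
  have sn : 0 ≤ ∑ i, (|h i (t - T)| * ‖v T‖ + lam i * |g i (t - T)| * ‖u T‖) :=
    Finset.sum_nonneg fun i _ => by have := (hl i).le; positivity
  rcases (norm_nonneg (v t)).eq_or_lt with h0 | h0
  · rw [← h0]; positivity
  · apply le_of_mul_le_mul_left _ h0
    have : ‖v t‖ * ((1 + √d) / c * F) = F * ‖v t‖ * (1 / c) + F * (√d * ‖v t‖) * (1 / c) := by
      ring
    nlinarith

lemma upper {d : ℕ} {A : Matrix (Fin d) (Fin d) ℝ} (hA : A.PosDef) {c : ℝ} (hc : 0 < c) :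
    Admissible A c ((1 + √d) / c) := by
  intro f u v _ hfin hs
  set b := hA.1.eigenvectorBasis
  set lam := hA.1.eigenvalues
  have hl : ∀ i, 0 < lam i := hA.eigenvalues_pos
  have hb : ∀ i x, ⟪b i, Matrix.toEuclideanLin A x⟫ = lam i * ⟪b i, x⟫ := by
    intro i x
    have hsym := Matrix.isSymmetric_toEuclideanLin_iff.2 hA.1
    rw [← hsym (b i) x]
    have : Matrix.toEuclideanLin A (b i) = lam i • b i := by
      ext j
      have := congrFun (hA.1.mulVec_eigenvectorBasis i) j
      simpa using this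
    rw [this, inner_smul_left]; simp
  choose g h H tg th hi using fun i => imp hc (hl i)
  set K := (1 + √d) / c with hK
  have K0 : 0 ≤ K := by positivity
  obtain ⟨l, hlF⟩ : ∃ l : ℝ≥0, essLimsup f = l := ⟨_, (ENNReal.coe_toNNReal hfin.ne).symm⟩
  apply ENNReal.le_of_forall_pos_le_add
  intro ε hε _
  have hε' : (0:ℝ) < ε := hε
  set δ : ℝ := ε / (2 * (K + 1)) with hδ
  have δ0 : 0 < δ := by positivity
  have h1 : essLimsup f < ENNReal.ofReal (l + δ) := by
    rw [hlF, ← ENNReal.ofReal_coe_nnreal, ENNReal.ofReal_lt_ofReal_iff (by positivity)]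
    linarith
  have h2 := eventually_lt_of_limsup_lt h1
  rw [eventually_inf] at h2
  obtain ⟨s1, hs1, s2, hs2, h3⟩ := h2
  obtain ⟨T0, hT0⟩ := mem_atTop_sets.1 hs1
  have hf : ∀ᵐ s ∂(volume : Measure ℝ), max T0 1 ≤ s → ‖f s‖ ≤ l + δ := by
    filter_upwards [hs2] with s h4 h5
    have := h3 s ⟨hT0 s ((le_max_left _ _).trans h5), h4⟩
    rw [← ofReal_norm, ENNReal.ofReal_lt_ofReal_iff (by positivity)] at this
    exact this.le
  set T := max T0 1
  have hT : 0 < T := lt_of_lt_of_le one_pos (le_max_right _ _)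
  have tz : Tendsto (fun t => ∑ i, (|h i (t - T)| * ‖v T‖ + lam i * |g i (t - T)| * ‖u T‖))
      atTop (𝓝 0) := by
    have ts : Tendsto (fun t : ℝ => t - T) atTop atTop := tendsto_atTop_add_const_right _ _ tendsto_id
    have := tendsto_finsetSum Finset.univ fun i _ => ((((th i).comp ts).abs.mul_const ‖v T‖).add
      ((((tg i).comp ts).abs.const_mul (lam i)).mul_const ‖u T‖))
    simpa using this
  apply limsup_le_of_le
  · isBoundedDefault
  filter_upwards [eventually_ge_atTop T, tz.eventually (gt_mem_nhds (half_pos hε'))] with t h4 h5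
  have h6 := core hc b lam hl hb g h H hi hs (by positivity) hT h4 hf
  rw [← ofReal_norm, hlF, ← ENNReal.ofReal_coe_nnreal, ← ENNReal.ofReal_coe_nnreal,
    ← ENNReal.ofReal_mul K0, ← ENNReal.ofReal_add (by positivity) (by positivity)]
  apply ENNReal.ofReal_le_ofReal
  have : K * δ ≤ ε / 2 := by
    rw [hδ, mul_div_assoc', div_le_div_iff₀ (by positivity) (by positivity)]
    nlinarith
  rw [← hK] at h6
  nlinarith

end Pool.Agent.H56.Osc
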