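import Pool.Agent.H56.Osc2

open Filter Topology Set MeasureTheory Real
open scoped RealInnerProductSpace NNReal ENNReal

namespace Pool.Agent.H56.Osc

lemma bump {p q m : ℝ} (hpq : p < q) (hm : 0 < m) : ∃ β : ℝ → ℝ, ContDiff ℝ 1 β ∧
    (∀ x, 0 ≤ β x ∧ β x ≤ 1) ∧ (∀ x, p ≤ x → x ≤ q → β x = 1) ∧
    ∀ x, β x ≠ 0 → p - m < x ∧ x < q + m := by
  let f : ContDiffBump ((p + q) / 2) := ⟨(q - p) / 2, (q - p) / 2 + m, by linarith, by linarith⟩
  refine ⟨f, f.contDiff, fun x => ⟨f.nonneg, f.le_one⟩, fun x h1 h2 => ?_, fun x hx => ?_⟩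
  · apply f.one_of_mem_closedBall
    rw [Metric.mem_closedBall, Real.dist_eq, abs_le]
    show -((q - p) / 2) ≤ _ ∧ _ ≤ (q - p) / 2
    constructor <;> linarith
  · have : x ∈ Function.support f := hx
    rw [f.support_eq, Metric.mem_ball, Real.dist_eq, abs_lt] at this
    have h1 : -((q - p) / 2 + m) < x - (p + q) / 2 := this.1
    have h2 : x - (p + q) / 2 < (q - p) / 2 + m := this.2
    constructor <;> linarith

lemma forcing (d : ℕ) {η : ℝ} (h0 : 0 < η) (h8 : η ≤ 1 / 8) :
    ∃ G : Fin d → ℝ → ℝ, (∀ i, ContDiff ℝ 1 (G i)) ∧ (∀ x, ∑ i, G i x ^ 2 ≤ 1) ∧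
      (∀ i, G i 0 = 1 / √d) ∧
      ∀ (i : Fin d) x, η ^ (3 * (i:ℕ) + 4) / 2 ≤ x → x ≤ η ^ (3 * (i:ℕ) + 2) → G i x = -1 := by
  have h1 : η ≤ 1 := by linarith
  have hp : ∀ n : ℕ, 0 < η ^ n := fun n => pow_pos h0 n
  have hle : ∀ {m n : ℕ}, m ≤ n → η ^ n ≤ η ^ m := fun h => pow_le_pow_of_le_one h0.le h1 h
  choose β hβ1 hβ2 hβ3 hβ4 using fun i : Fin d => bump (p := η ^ (3 * (i:ℕ) + 4) / 2)
    (q := η ^ (3 * (i:ℕ) + 2)) (m := η ^ (3 * (i:ℕ) + 4) / 4)
    (by linarith [hle (show 3 * (i:ℕ) + 2 ≤ 3 * (i:ℕ) + 4 by omega), hp (3 * (i:ℕ) + 4)])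
    (by linarith [hp (3 * (i:ℕ) + 4)])
  obtain ⟨γ, hγ1, hγ2, hγ3, hγ4⟩ := bump (p := -(η ^ (3 * d + 1) / 8)) (q := η ^ (3 * d + 1) / 8)
    (m := η ^ (3 * d + 1) / 8) (by linarith [hp (3 * d + 1)]) (by linarith [hp (3 * d + 1)])
  have lo : ∀ i x, β i x ≠ 0 → η ^ (3 * (i:ℕ) + 4) / 4 < x := fun i x h => by
    linarith [(hβ4 i x h).1]
  have hi : ∀ i x, β i x ≠ 0 → x < 2 * η ^ (3 * (i:ℕ) + 2) := fun i x h => by
    linarith [(hβ4 i x h).2, hle (show 3 * (i:ℕ) + 2 ≤ 3 * (i:ℕ) + 4 by omega), hp (3 * (i:ℕ) + 4)]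
  have dis : ∀ (i j : Fin d) x, i < j → β i x ≠ 0 → β j x = 0 := by
    intro i j x hij h
    by_contra h'
    have a1 := lo i x h
    have a2 := hi j x h'
    have a3 := hle (show 3 * (i:ℕ) + 4 + 1 ≤ 3 * (j:ℕ) + 2 by have : (i:ℕ) < j := hij; omega)
    rw [pow_succ η (3 * (i:ℕ) + 4)] at a3
    nlinarith [hp (3 * (i:ℕ) + 4)]
  have dis0 : ∀ (i : Fin d) x, β i x ≠ 0 → γ x = 0 := by
    intro i x h
    by_contra h'
    have a1 := lo i x h
    have a2 := (hγ4 x h').2
    have a3 := hle (show 3 * (i:ℕ) + 4 ≤ 3 * d + 1 by have := i.2; omega)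
    linarith
  refine ⟨fun i x => γ x * (1 / √d) - β i x, fun i => (hγ1.mul contDiff_const).sub (hβ1 i),
    fun x => ?_, fun i => ?_, fun i x a1 a2 => ?_⟩
  · by_cases h : ∃ i, β i x ≠ 0
    · obtain ⟨i, h⟩ := h
      simp only [dis0 i x h, zero_mul, zero_sub, neg_sq]
      rw [Finset.sum_eq_single i]
      · nlinarith [(hβ2 i x).1, (hβ2 i x).2]
      · intro j _ hj
        rcases lt_or_gt_of_ne hj with h' | h'
        · by_contra h2
          exact h (dis j i x h' (by intro e; simp [e] at h2))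
        · simp [dis i j x h' h]
      · simp
    · push Not at h
      simp only [h, sub_zero, mul_pow, div_pow, one_pow, Finset.sum_const, Finset.card_univ,
        Fintype.card_fin, nsmul_eq_mul, sq_sqrt (Nat.cast_nonneg d)]
      have a1 : (d:ℝ) * (1 / d) ≤ 1 := by
        rcases Nat.eq_zero_or_pos d with rfl | hd
        · simp
        · have : (0:ℝ) < d := by exact_mod_cast hd
          rw [mul_one_div_cancel this.ne']
      have a2 : γ x ^ 2 ≤ 1 := by nlinarith [(hγ2 x).1, (hγ2 x).2]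
      have a3 : (0:ℝ) ≤ d * (1 / d) := by positivity
      nlinarith [sq_nonneg (γ x)]
  · have a1 : β i 0 = 0 := by
      by_contra h
      linarith [lo i 0 h, hp (3 * (i:ℕ) + 4)]
    simp only [a1, hγ3 0 (by linarith [hp (3 * d + 1)]) (by linarith [hp (3 * d + 1)])]
    ring
  · have a3 := hβ3 i x a1 a2
    simp only [a3, dis0 i x (by rw [a3]; exact one_ne_zero)]
    ring

lemma first_order {lam : ℝ} (hl : 0 < lam) {F : ℝ → ℝ} (hF : Continuous F)
    (hb : ∀ s, |F s| ≤ 1) : ∃ U : ℝ → ℝ, (∀ s, HasDerivAt U (F s - lam * U s) s) ∧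
      (∀ s, 0 ≤ s → |lam * U s| ≤ 1) ∧
      ∀ t a b, 0 ≤ a → a ≤ b → b ≤ t → (∀ s, a ≤ s → s ≤ b → F (t - s) = -1) →
        lam * U t ≤ -1 + 2 * (lam * a) + 2 * exp (-(lam * b)) := by
  have hc : Continuous fun s => lam * exp (lam * s) * F s := by fun_prop
  have up : ∀ a b, a ≤ b → ∫ s in a..b, lam * exp (lam * s) * F s ≤ exp (lam * b) - exp (lam * a) :=
    fun a b hab => int_le hab hc (dexp lam) (by fun_prop) fun s _ => by
      have : 0 < lam * exp (lam * s) := by positivity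
      nlinarith [(abs_le.1 (hb s)).2]
  have dn : ∀ b, 0 ≤ b → -∫ s in (0:ℝ)..b, lam * exp (lam * s) * F s ≤ exp (lam * b) - 1 := by
    intro b hb0
    have := int_le (r := fun s => -(lam * exp (lam * s) * F s)) hb0 hc.neg (dexp lam)
      (by fun_prop) fun s _ => by
      have : 0 < lam * exp (lam * s) := by positivity
      nlinarith [(abs_le.1 (hb s)).1]
    rw [intervalIntegral.integral_neg] at this
    simpa using this
  have ee : ∀ s, exp (-lam * s) * exp (lam * s) = 1 := fun s => by rw [← exp_add]; simp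
  refine ⟨fun t => exp (-lam * t) * (∫ s in (0:ℝ)..t, lam * exp (lam * s) * F s) / lam,
    fun s => ?_, fun s hs => ?_, fun t a b ha hab hbt h => ?_⟩
  · refine HasDerivAt.congr_deriv (((dexp (-lam) s).mul
      (hc.integral_hasStrictDerivAt 0 s).hasDerivAt).div_const lam) ?_
    have := ee s
    beta_reduce
    generalize exp (-lam * s) = E at *
    field_simp
    linear_combination (F s) * this
  · rw [mul_div_cancel₀ _ hl.ne', abs_le]
    have a1 := up 0 s hs
    have a2 := dn s hs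
    have a3 := exp_pos (-lam * s)
    have a4 := ee s
    simp only [mul_zero, exp_zero] at a1
    constructor <;> nlinarith
  · rw [mul_div_cancel₀ _ hl.ne']
    have a1 := up 0 (t - b) (by linarith)
    have a2 := up (t - a) t (by linarith)
    have a3 := int_le (r := fun s => lam * exp (lam * s) * F s) (ρ := fun s => -exp (lam * s))
      (by linarith : t - b ≤ t - a) hc (fun s => (dexp lam s).neg) (by fun_prop) fun s hs => by
        have := h (t - s) (by linarith [hs.2]) (by linarith [hs.1])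
        rw [sub_sub_cancel] at this
        rw [this]; linarith
    have j1 := intervalIntegral.integral_add_adjacent_intervals (a := 0) (b := t - b) (c := t - a)
      (μ := volume) (hc.intervalIntegrable _ _) (hc.intervalIntegrable _ _)
    have j2 := intervalIntegral.integral_add_adjacent_intervals (a := 0) (b := t - a) (c := t)
      (μ := volume) (hc.intervalIntegrable _ _) (hc.intervalIntegrable _ _)
    simp only [mul_zero, exp_zero] at a1
    have e1 : exp (-lam * t) * exp (lam * (t - a)) = exp (-(lam * a)) := by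
      rw [← exp_add]; congr 1; ring
    have e2 : exp (-lam * t) * exp (lam * (t - b)) = exp (-(lam * b)) := by
      rw [← exp_add]; congr 1; ring
    have a4 := add_one_le_exp (-(lam * a))
    have a5 := exp_pos (-lam * t)
    have a6 : ∫ s in (0:ℝ)..t, lam * exp (lam * s) * F s ≤
        exp (lam * t) - 2 * exp (lam * (t - a)) + 2 * exp (lam * (t - b)) := by linarith
    have a7 := mul_le_mul_of_nonneg_left a6 a5.le
    have a8 := ee t
    nlinarith

lemma dvec {d : ℕ} {φ : Fin d → ℝ → ℝ} {φ' : Fin d → ℝ} {s : ℝ}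
    (h : ∀ i, HasDerivAt (φ i) (φ' i) s) :
    HasDerivAt (fun s => (WithLp.toLp 2 fun i => φ i s : V d)) (WithLp.toLp 2 φ') s :=
  (EuclideanSpace.equiv (Fin d) ℝ).symm.toContinuousLinearMap.hasFDerivAt.comp_hasDerivAt s
    (hasDerivAt_pi.2 h)

lemma slow {d : ℕ} (hd : 1 ≤ d) {η : ℝ} (h0 : 0 < η) (h8 : η ≤ 1 / 8) :
    ∃ (A : Matrix (Fin d) (Fin d) ℝ) (D : ℝ) (U P W : ℝ → V d), A.PosDef ∧ 0 ≤ D ∧
      (∀ s, HasDerivAt U (P s) s) ∧ (∀ s, HasDerivAt P (W s) s) ∧ Continuous W ∧
      (∀ s, ‖P s + Matrix.toEuclideanLin A (U s)‖ ≤ 1) ∧ (∀ s, 0 ≤ s → ‖W s‖ ≤ D) ∧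
      ∀ n : ℕ, 1 ≤ n → 1 + √d - 4 * η * √d ≤ ‖P (n * (2 * π))‖ := by
  obtain ⟨G, G1, G2, G3, G4⟩ := forcing d h0 h8
  have h1 : η ≤ 1 := by linarith
  have hp : ∀ n : ℕ, 0 < η ^ n := fun n => pow_pos h0 n
  have Gb : ∀ i x, |G i x| ≤ 1 := fun i x => by
    rw [← sq_le_one_iff_abs_le_one]
    exact (Finset.single_le_sum (f := fun i => G i x ^ 2) (fun _ _ => sq_nonneg _)
      (Finset.mem_univ i)).trans (G2 x)
  set lam : Fin d → ℝ := fun i => 1 / η ^ (3 * (i:ℕ) + 3) with hlam
  have hl : ∀ i, 0 < lam i := fun i => by simp only [hlam]; positivity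
  have cF : ∀ i, Continuous fun s => G i (-sin s) := fun i => (G1 i).continuous.comp (by fun_prop)
  choose U U1 U2 U3 using fun i => first_order (hl i) (cF i) (fun s => Gb i _)
  have cG' : ∀ i, Continuous (deriv (G i)) := fun i => (G1 i).continuous_deriv le_rfl
  choose B hB using fun i => (isCompact_Icc (a := (-1:ℝ)) (b := 1)).exists_bound_of_continuousOn
    (cG' i).continuousOn
  have dF : ∀ i s, HasDerivAt (fun s => G i (-sin s)) (deriv (G i) (-sin s) * (-cos s)) s :=
    fun i s => (((G1 i).differentiable one_ne_zero) _).hasDerivAt.comp s (hasDerivAt_sin s).neg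
  have cU : ∀ i, Continuous (U i) := fun i =>
    continuous_iff_continuousAt.2 fun s => (U1 i s).continuousAt
  refine ⟨Matrix.diagonal lam, √(∑ i, (B i + 2 * lam i) ^ 2),
    fun s => WithLp.toLp 2 fun i => U i s,
    fun s => WithLp.toLp 2 fun i => G i (-sin s) - lam i * U i s,
    fun s => WithLp.toLp 2 fun i => deriv (G i) (-sin s) * (-cos s) -
      lam i * (G i (-sin s) - lam i * U i s),
    Matrix.posDef_diagonal_iff.2 hl, sqrt_nonneg _, fun s => dvec fun i => U1 i s,
    fun s => dvec fun i => (dF i s).sub ((U1 i s).const_mul (lam i)), ?_, fun s => ?_,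
    fun s hs => ?_, fun n hn => ?_⟩
  · apply (PiLp.continuous_toLp 2 _).comp
    apply continuous_pi
    intro i
    have := cG' i
    have := cF i
    have := cU i
    fun_prop
  · rw [EuclideanSpace.norm_eq, sqrt_le_one]
    refine le_of_eq_of_le (Finset.sum_congr rfl fun i _ => ?_) (G2 (-sin s))
    simp [Matrix.mulVec_diagonal]
  · rw [EuclideanSpace.norm_eq]
    apply sqrt_le_sqrt
    apply Finset.sum_le_sum
    intro i _
    apply pow_le_pow_left₀ (norm_nonneg _)
    have a1 := hB i (-sin s) ⟨by linarith [sin_le_one s], by linarith [neg_one_le_sin s]⟩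
    have a2 := abs_cos_le_one s
    have a3 := Gb i (-sin s)
    have a4 := U2 i s hs
    rw [Real.norm_eq_abs] at a1 ⊢
    refine (abs_sub _ _).trans (add_le_add ?_ ?_)
    · rw [abs_mul, abs_neg]
      nlinarith [abs_nonneg (deriv (G i) (-sin s)), abs_nonneg (cos s)]
    · rw [abs_mul, abs_of_pos (hl i)]
      have := abs_sub (G i (-sin s)) (lam i * U i s)
      nlinarith [hl i]
  · have hdp : (0:ℝ) < d := by exact_mod_cast hd
    have sd : 0 < √(d:ℝ) := sqrt_pos.2 hdp
    have hn' : (1:ℝ) ≤ n := by exact_mod_cast hn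
    have key : ∀ i, 1 / √d + 1 - 4 * η ≤ G i (-sin (n * (2 * π))) - lam i * U i (n * (2 * π)) := by
      intro i
      have b1 : η ^ (3 * (i:ℕ) + 2) ≤ 1 := pow_le_one₀ h0.le h1
      have := U3 i (n * (2 * π)) (η ^ (3 * (i:ℕ) + 4)) (η ^ (3 * (i:ℕ) + 2)) (hp _).le
        (pow_le_pow_of_le_one h0.le h1 (by omega)) (by nlinarith [pi_gt_three]) (fun s a1 a2 => by
          have e : -sin (n * (2 * π) - s) = sin s := by rw [sin_nat_mul_two_pi_sub]; simp
          simp only [e]
          have s0 : 0 ≤ s := (hp _).le.trans a1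
          apply G4
          · have k1 := mul_le_sin s0 (by linarith [pi_gt_three])
            have k2 : 1 / 2 ≤ 2 / π := by
              rw [div_le_div_iff₀ (by norm_num) pi_pos]; linarith [pi_lt_four]
            nlinarith
          · linarith [sin_le s0])
      have e1 : lam i * η ^ (3 * (i:ℕ) + 4) = η := by
        simp only [hlam]; field_simp; ring
      have e2 : lam i * η ^ (3 * (i:ℕ) + 2) = 1 / η := by
        simp only [hlam]; field_simp; ring
      have e3 : exp (-(1 / η)) ≤ η := by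
        have k1 := add_one_le_exp (1 / η)
        have k2 : exp (-(1 / η)) * exp (1 / η) = 1 := by rw [← exp_add]; simp
        have k3 := exp_pos (-(1 / η))
        have k4 : η * (1 / η) = 1 := by field_simp
        nlinarith [mul_le_mul_of_nonneg_left k1 (mul_pos k3 h0).le]
      rw [e1, e2] at this
      have e4 : sin (n * (2 * π)) = 0 := by
        have := sin_nat_mul_two_pi_sub 0 n
        simpa using this
      rw [e4, neg_zero, G3]
      linarith
    have k0 : 0 ≤ 1 / √d + 1 - 4 * η := by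
      have : 0 < 1 / √(d:ℝ) := by positivity
      linarith
    rw [EuclideanSpace.norm_eq]
    apply le_sqrt_of_sq_le
    have e : (1 + √d - 4 * η * √d) ^ 2 = ∑ _i : Fin d, (1 / √d + 1 - 4 * η) ^ 2 := by
      rw [Finset.sum_const, Finset.card_univ, Fintype.card_fin, nsmul_eq_mul]
      nth_rewrite 3 [← sq_sqrt hdp.le]
      field_simp
    rw [e]
    apply Finset.sum_le_sum
    intro i _
    apply pow_le_pow_left₀ k0
    exact (key i).trans (le_abs_self _)

lemma lower {d : ℕ} (hd : 1 ≤ d) {η : ℝ} (h0 : 0 < η) (h8 : η ≤ 1 / 8) :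
    ∃ (A : Matrix (Fin d) (Fin d) ℝ) (D : ℝ), A.PosDef ∧ 0 ≤ D ∧ ∀ c σ : ℝ, 0 < c → 0 < σ →
      (1 + √d - 4 * η * √d) / (1 + D / (c * σ)) ≤ c * Kopt ((c / σ) • A) c := by
  obtain ⟨A, D, U, P, W, hA, hD, dU, dP, cW, hF, hW, hn⟩ := slow hd h0 h8
  refine ⟨A, D, hA, hD, fun c σ hc hσ => ?_⟩
  have hA' : ((c / σ) • A).PosDef := hA.smul (by positivity)
  rw [← div_le_iff₀' hc]
  refine le_csInf ⟨_, by positivity, upper hA' hc⟩ ?_
  rintro K ⟨K0, hK⟩
  have dl : ∀ s : ℝ, HasDerivAt (fun s => s / σ) (1 / σ) s := fun s =>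
    (hasDerivAt_id s).div_const σ
  have cP : Continuous P := continuous_iff_continuousAt.2 fun s => (dP s).continuousAt
  have cU : Continuous U := continuous_iff_continuousAt.2 fun s => (dU s).continuousAt
  set f : ℝ → V d := fun t => (1 / (c * σ)) • W (t / σ) +
    (P (t / σ) + Matrix.toEuclideanLin A (U (t / σ))) with hf
  have dv : ∀ t, HasDerivAt (fun t => (1 / c) • P (t / σ)) ((1 / (c * σ)) • W (t / σ)) t := by
    intro t
    refine HasDerivAt.congr_deriv (((dP (t / σ)).scomp t (dl t)).const_smul (1 / c)) ?_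
    rw [smul_smul]; congr 1; field_simp
  have cf : Continuous f := by
    have := (Matrix.toEuclideanLin A).continuous_of_finiteDimensional
    fun_prop
  have hs : IsSol ((c / σ) • A) c f (fun t => (σ / c) • U (t / σ)) (fun t => (1 / c) • P (t / σ)) := by
    refine ⟨fun t _ => HasDerivAt.hasDerivWithinAt ?_, by fun_prop, fun T _ =>
      ac_of_deriv (fun s _ => (dv s).hasDerivWithinAt) (by fun_prop),
      Eventually.of_forall fun t _ => ⟨_, dv t, ?_⟩⟩
    · refine HasDerivAt.congr_deriv (((dU (t / σ)).scomp t (dl t)).const_smul (σ / c)) ?_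
      rw [smul_smul]; congr 1; field_simp
    · have e1 : c * (1 / c) = 1 := by field_simp
      have e2 : σ / c * (c / σ) = 1 := by field_simp
      simp only [hf, map_smul, LinearMap.smul_apply, smul_smul, e1, e2, one_smul, add_assoc]
  have hle : essLimsup f ≤ ENNReal.ofReal (1 + D / (c * σ)) := by
    apply limsup_le_of_le
    · isBoundedDefault
    refine ((eventually_ge_atTop 0).filter_mono inf_le_left).mono fun t ht => ?_
    rw [← ofReal_norm]
    apply ENNReal.ofReal_le_ofReal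
    refine (norm_add_le _ _).trans ?_
    have a1 := hF (t / σ)
    have a2 := hW (t / σ) (by positivity)
    rw [norm_smul, Real.norm_eq_abs, abs_of_pos (by positivity)]
    have : 1 / (c * σ) * ‖W (t / σ)‖ ≤ D / (c * σ) := by
      rw [one_div_mul_eq_div]; gcongr
    linarith
  have h1 := hK f _ _ (cf.continuousOn.locallyIntegrableOn measurableSet_Ici)
    (hle.trans_lt ENNReal.ofReal_lt_top) hs
  have h2 : ENNReal.ofReal ((1 + √d - 4 * η * √d) / c) ≤
      limsup (fun t => ‖(1 / c) • P (t / σ)‖ₑ) atTop := by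
    apply le_limsup_of_frequently_le
    · rw [frequently_atTop]
      intro a
      obtain ⟨n, hn1⟩ := exists_nat_ge (a / σ)
      refine ⟨σ * ((n + 1 : ℕ) * (2 * π)), ?_, ?_⟩
      · rw [div_le_iff₀ hσ] at hn1
        push_cast
        have : (0:ℝ) ≤ n := n.cast_nonneg
        have : 0 ≤ σ * n := by positivity
        nlinarith [pi_gt_three]
      · rw [mul_div_cancel_left₀ _ hσ.ne', ← ofReal_norm]
        apply ENNReal.ofReal_le_ofReal
        rw [norm_smul, Real.norm_eq_abs, abs_of_pos (by positivity), one_div_mul_eq_div]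
        gcongr
        exact hn _ (by omega)
    · isBoundedDefault
  have h3 := h2.trans (h1.trans (mul_le_mul_right hle _))
  rw [← ENNReal.ofReal_mul K0, ENNReal.ofReal_le_ofReal_iff (by positivity)] at h3
  rw [div_right_comm, div_le_iff₀ (by positivity)]
  exact h3

lemma Kopt_le {d : ℕ} {A : Matrix (Fin d) (Fin d) ℝ} (hA : A.PosDef) {c : ℝ} (hc : 0 < c) :
    c * Kopt A c ≤ 1 + √d := by
  rw [← le_div_iff₀' hc]
  exact csInf_le ⟨0, fun K hK => hK.1⟩ ⟨by positivity, upper hA hc⟩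

lemma Kopt_nonneg {d : ℕ} (A : Matrix (Fin d) (Fin d) ℝ) (c : ℝ) : 0 ≤ Kopt A c :=
  Real.sInf_nonneg fun _ hK => hK.1

end Pool.Agent.H56.Osc
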