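import Mathlib

/-!
Definitions for the forced damped system `u'' + c u' + A u = f` on `[0, ∞)`.
-/

open Filter Set MeasureTheory
open scoped ENNReal

namespace Pool.Agent.H56.Osc

/-- Euclidean space `ℝ^d`. -/
abbrev V (d : ℕ) : Type := EuclideanSpace ℝ (Fin d)

/-- `u` is a solution of `u'' + c u' + A u = f` on `[0, ∞)`, and `v = u'`: `u` is `C¹` with
derivative `v`, `v` is locally absolutely continuous, and the equation holds almost everywhere. -/
structure IsSol {d : ℕ} (A : Matrix (Fin d) (Fin d) ℝ) (c : ℝ) (f u v : ℝ → V d) : Prop where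
  hasDeriv : ∀ t, 0 ≤ t → HasDerivWithinAt u (v t) (Ici 0) t
  cont : ContinuousOn v (Ici 0)
  ac : ∀ T, 0 ≤ T → AbsolutelyContinuousOnInterval v 0 T
  ode : ∀ᵐ t ∂(volume : Measure ℝ), 0 ≤ t →
    ∃ w, HasDerivAt v w t ∧ w + c • v t + Matrix.toEuclideanLin A (u t) = f t

/-- The essential limsup of `|f t|` as `t → ∞`: the limsup along the filter of sets that
contain almost every sufficiently large `t`. -/
noncomputable def essLimsup {d : ℕ} (f : ℝ → V d) : ℝ≥0∞ :=
  limsup (fun t => ‖f t‖ₑ) (atTop ⊓ ae (volume : Measure ℝ))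

/-- `K` is an admissible constant: `limsup |u'| ≤ K * ess limsup |f|` for every locally
integrable `f` with finite essential limsup and every solution `u`. -/
def Admissible {d : ℕ} (A : Matrix (Fin d) (Fin d) ℝ) (c K : ℝ) : Prop :=
  ∀ f u v : ℝ → V d, LocallyIntegrableOn f (Ici 0) volume → essLimsup f < ⊤ →
    IsSol A c f u v → limsup (fun t => ‖v t‖ₑ) atTop ≤ ENNReal.ofReal K * essLimsup f

/-- The optimal constant `K(A, c)`. -/
noncomputable def Kopt {d : ℕ} (A : Matrix (Fin d) (Fin d) ℝ) (c : ℝ) : ℝ :=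
  sInf {K | 0 ≤ K ∧ Admissible A c K}

end Pool.Agent.H56.Osc
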