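import Pool.Agent.H56.Osc3

namespace Pool.Agent.H56.OscJ

open Pool.Agent.H56.Osc Filter Topology Real

lemma approx {d : ℕ} {x : ℝ} (h : ∀ η : ℝ, 0 < η → η ≤ 1 / 8 → 1 + √d - 4 * η * √d ≤ x) :
    1 + √d ≤ x := by
  have t : Tendsto (fun η : ℝ => 1 + √d - 4 * η * √d) (𝓝[>] 0) (𝓝 (1 + √d - 4 * 0 * √d)) :=
    (Continuous.tendsto (by fun_prop) 0).mono_left nhdsWithin_le_nhds
  simp only [mul_zero, zero_mul, sub_zero] at t
  apply le_of_tendsto t
  filter_upwards [Ioc_mem_nhdsGT (show (0:ℝ) < 1 / 8 by norm_num)] with η hη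
  exact h η hη.1 hη.2

lemma lim {m D : ℝ} {φ : ℝ → ℝ} (hφ : Tendsto φ atTop atTop) :
    Tendsto (fun s => m / (1 + D / φ s)) atTop (𝓝 m) := by
  have := (tendsto_const_nhds (x := m)).div
    ((tendsto_const_nhds (x := (1:ℝ))).add (hφ.const_div_atTop D)) (by norm_num)
  simp only [add_zero, div_one] at this
  exact this

/-- `M_d = L_d = 1 + √d`. -/
theorem joined (d : ℕ) (hd : 1 ≤ d) :
    (∀ c : ℝ, 0 < c → IsLUB
      {x : ℝ | ∃ A : Matrix (Fin d) (Fin d) ℝ, A.PosDef ∧ x = c * Kopt A c} (1 + √d)) ∧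
    IsLUB {x : ℝ | ∃ A : Matrix (Fin d) (Fin d) ℝ, A.PosDef ∧
      x = liminf (fun c : ℝ => c * Kopt A c) atTop} (1 + √d) := by
  refine ⟨fun c hc => ⟨?_, fun x hx => approx fun η h0 h8 => ?_⟩,
    ⟨?_, fun x hx => approx fun η h0 h8 => ?_⟩⟩
  · rintro _ ⟨A, hA, rfl⟩
    exact Kopt_le hA hc
  · obtain ⟨A, D, hA, hD, h⟩ := lower hd h0 h8
    apply le_of_tendsto (lim (D := D) (φ := fun σ => c * σ) (tendsto_id.const_mul_atTop hc))
    filter_upwards [eventually_gt_atTop 0] with σ hσ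
    exact (h c σ hc hσ).trans (hx ⟨_, hA.smul (by positivity), rfl⟩)
  · rintro _ ⟨A, hA, rfl⟩
    apply liminf_le_of_frequently_le
    · exact ((eventually_gt_atTop 0).mono fun c hc => Kopt_le hA hc).frequently
    · exact isBoundedUnder_of_eventually_ge (a := 0) ((eventually_gt_atTop 0).mono fun c hc =>
        mul_nonneg hc.le (Kopt_nonneg A c))
  · obtain ⟨A, D, hA, hD, h⟩ := lower hd h0 h8
    refine le_trans ?_ (hx ⟨A, hA, rfl⟩)
    have t := lim (m := 1 + √d - 4 * η * √d) (D := D) (φ := fun c => c * c)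
      (tendsto_id.atTop_mul_atTop₀ tendsto_id)
    rw [← t.liminf_eq]
    apply liminf_le_liminf
    · filter_upwards [eventually_gt_atTop 0] with c hc
      have := h c c hc hc
      rwa [div_self hc.ne', one_smul] at this
    · exact t.isBoundedUnder_ge
    · exact IsBoundedUnder.isCoboundedUnder_ge (isBoundedUnder_of_eventually_le (a := 1 + √d)
        ((eventually_gt_atTop 0).mono fun c hc => Kopt_le hA hc))

end Pool.Agent.H56.OscJ
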