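import Mathlib

open Set Filter Topology

namespace Pool.Agent.H56.Ov

def Sg (f : ℝ → ℝ) (a e : ℝ) : Prop :=
  (∀ᶠ t in 𝓝[>] a, 0 < f t) ∧ ∀ᶠ t in 𝓝[<] a, 0 < e * f t

lemma mvt {f f' : ℝ → ℝ} {a b : ℝ} (h : a < b) (hd : ∀ t ∈ Icc a b, HasDerivAt f (f' t) t) :
    ∃ c ∈ Ioo a b, f b - f a = f' c * (b - a) := by
  obtain ⟨c, hc, e⟩ := exists_hasDerivAt_eq_slope f f' h
    (fun t ht => (hd t ht).continuousAt.continuousWithinAt) fun t ht => hd t (Ioo_subset_Icc_self ht)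
  exact ⟨c, hc, by rw [e, div_mul_cancel₀ _ (by linarith)]⟩

lemma Sg.step {f g w : ℝ → ℝ} {a e : ℝ} (hg : Sg g a e)
    (hd : ∀ᶠ t in 𝓝 a, HasDerivAt f (g t * w t) t) (hw : ∀ᶠ t in 𝓝 a, 0 < w t) (h0 : f a = 0) :
    Sg f a (-e) := by
  obtain ⟨h1, h2⟩ := hg
  rw [eventually_nhdsWithin_iff] at h1 h2
  obtain ⟨δ, hδ, H⟩ := Metric.eventually_nhds_iff.1 (hd.and (hw.and (h1.and h2)))
  have hb : ∀ᶠ t in 𝓝 a, dist t a < δ := Metric.ball_mem_nhds a hδ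
  constructor
  · rw [eventually_nhdsWithin_iff]
    filter_upwards [hb] with t ht (h : a < t)
    rw [Real.dist_eq, abs_lt] at ht
    have K : ∀ s ∈ Icc a t, dist s a < δ := fun s hs => by
      rw [Real.dist_eq, abs_lt]; constructor <;> linarith [hs.1, hs.2]
    obtain ⟨c, hc, e⟩ := mvt h fun s hs => (H (K s hs)).1
    obtain ⟨-, a1, a2, -⟩ := H (K c (Ioo_subset_Icc_self hc))
    have := mul_pos (mul_pos (a2 hc.1) a1) (sub_pos.2 h)
    linarith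
  · rw [eventually_nhdsWithin_iff]
    filter_upwards [hb] with t ht (h : t < a)
    rw [Real.dist_eq, abs_lt] at ht
    have K : ∀ s ∈ Icc t a, dist s a < δ := fun s hs => by
      rw [Real.dist_eq, abs_lt]; constructor <;> linarith [hs.1, hs.2]
    obtain ⟨c, hc, e'⟩ := mvt h fun s hs => (H (K s hs)).1
    obtain ⟨-, a1, -, a2⟩ := H (K c (Ioo_subset_Icc_self hc))
    have := mul_pos (mul_pos (a2 hc.2) a1) (sub_pos.2 h)
    have e2 : f t = -(g c * w c * (a - t)) := by linarith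
    rw [e2]; linarith

lemma Sg.base {f : ℝ → ℝ} {a c : ℝ} (hd : HasDerivAt f c a) (hc : 0 < c) (h0 : f a = 0) :
    Sg f a (-1) := by
  have := hd.tendsto_slope.eventually (lt_mem_nhds hc)
  rw [eventually_nhdsWithin_iff] at this
  constructor
  · rw [eventually_nhdsWithin_iff]
    filter_upwards [this] with t ht (h : a < t)
    have := ht h.ne'
    rw [slope_def_field, h0, sub_zero] at this
    exact (div_pos_iff_of_pos_right (sub_pos.2 h)).1 this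
  · rw [eventually_nhdsWithin_iff]
    filter_upwards [this] with t ht (h : t < a)
    have := ht h.ne
    rw [slope_def_field, h0, sub_zero, ← neg_div_neg_eq] at this
    have := (div_pos_iff_of_pos_right (by linarith)).1 this
    linarith

def Lev (f g : ℝ → ℝ) (a : ℝ) : Prop :=
  ∀ s ∈ 𝓝 a, ∃ t1 ∈ s, ∃ t2 ∈ s, t1 < a ∧ a < t2 ∧ f t1 = f t2 ∧ g t1 = g t2

lemma Sg.not {f g h : ℝ → ℝ} {a : ℝ} (hs : Sg h a (-1)) (hl : Lev f g a)
    (e : ∀ s t, f s = f t → g s = g t → h s = h t) : False := by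
  obtain ⟨h1, h2⟩ := hs
  rw [eventually_nhdsWithin_iff] at h1 h2
  obtain ⟨t1, a1, t2, a2, b1, b2, c1, c2⟩ := hl _ (h1.and h2)
  have := e _ _ c1 c2
  linarith [a1.2 b1, a2.1 b2]

structure Chain (w F0 F1 F2 F3 F4 : ℝ → ℝ) (f5 a : ℝ) : Prop where
  d0 : ∀ᶠ t in 𝓝 a, HasDerivAt F0 (F1 t * w t) t
  d1 : ∀ᶠ t in 𝓝 a, HasDerivAt F1 (F2 t * w t) t
  d2 : ∀ᶠ t in 𝓝 a, HasDerivAt F2 (F3 t * w t) t
  d3 : ∀ᶠ t in 𝓝 a, HasDerivAt F3 (F4 t * w t) t
  d4 : HasDerivAt F4 (f5 * w a) a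

lemma two_arc {w F0 F1 F2 F3 F4 G0 G1 G2 G3 G4 : ℝ → ℝ} {f5 g5 a : ℝ}
    (hF : Chain w F0 F1 F2 F3 F4 f5 a) (hG : Chain w G0 G1 G2 G3 G4 g5 a)
    (hw : ∀ᶠ t in 𝓝 a, 0 < w t) (f0 : F0 a = 0) (f1 : F1 a = 0) (g0 : G0 a = 0) (g1 : G1 a = 0)
    (f2 : F2 a ≠ 0) (hl : Lev F0 G0 a) :
    G3 a * F2 a = G2 a * F3 a ∧
      3 * F2 a * (g5 * F2 a - G2 a * f5) = 10 * F3 a * (G4 a * F2 a - G2 a * F4 a) := by
  have wa := hw.self_of_nhds
  have key : ∀ p q c : ℝ, Chain w (fun t => c * (G0 t - p * F0 t - q * (F0 t * F0 t)))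
      (fun t => c * (G1 t - p * F1 t - q * (2 * (F0 t * F1 t))))
      (fun t => c * (G2 t - p * F2 t - q * (2 * (F1 t * F1 t + F0 t * F2 t))))
      (fun t => c * (G3 t - p * F3 t - q * (2 * (3 * (F1 t * F2 t) + F0 t * F3 t))))
      (fun t => c * (G4 t - p * F4 t - q * (2 * (3 * (F2 t * F2 t) + 4 * (F1 t * F3 t) + F0 t * F4 t))))
      (c * (g5 - p * f5 - q * (20 * (F2 a * F3 a)))) a := by
    intro p q c
    refine ⟨?_, ?_, ?_, ?_, ?_⟩
    · filter_upwards [hF.d0, hG.d0] with t a0 b0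
      exact (((b0.sub (a0.const_mul p)).sub ((a0.mul a0).const_mul q)).const_mul c).congr_deriv
        (by ring)
    · filter_upwards [hF.d0, hF.d1, hG.d1] with t a0 a1 b1
      exact (((b1.sub (a1.const_mul p)).sub (((a0.mul a1).const_mul 2).const_mul q)).const_mul
        c).congr_deriv (by ring)
    · filter_upwards [hF.d0, hF.d1, hF.d2, hG.d2] with t a0 a1 a2 b2
      exact (((b2.sub (a2.const_mul p)).sub ((((a1.mul a1).add (a0.mul a2)).const_mul 2).const_mul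
        q)).const_mul c).congr_deriv (by ring)
    · filter_upwards [hF.d0, hF.d1, hF.d2, hF.d3, hG.d3] with t a0 a1 a2 a3 b3
      exact (((b3.sub (a3.const_mul p)).sub (((((a1.mul a2).const_mul 3).add
        (a0.mul a3)).const_mul 2).const_mul q)).const_mul c).congr_deriv (by ring)
    · have a0 := hF.d0.self_of_nhds
      have a1 := hF.d1.self_of_nhds
      have a2 := hF.d2.self_of_nhds
      have a3 := hF.d3.self_of_nhds
      exact (((hG.d4.sub (hF.d4.const_mul p)).sub ((((((a2.mul a2).const_mul 3).add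
        ((a1.mul a3).const_mul 4)).add (a0.mul hF.d4)).const_mul 2).const_mul q)).const_mul
        c).congr_deriv (by rw [f0, f1]; ring)
  have r3 : G3 a - G2 a / F2 a * F3 a = 0 := by
    by_contra h
    have C := key (G2 a / F2 a) 0 (G3 a - G2 a / F2 a * F3 a)
    have s2 := Sg.base C.d2.self_of_nhds (by
      rw [zero_mul, sub_zero]; exact mul_pos (mul_self_pos.2 h) wa) (by
      rw [div_mul_cancel₀ _ f2]; ring)
    have s1 := s2.step C.d1 hw (by rw [f1, g1]; ring)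
    have s0 := s1.step C.d0 hw (by rw [f0, g0]; ring)
    rw [neg_neg] at s0
    exact s0.not hl fun s t e1 e2 => by rw [e1, e2]
  set q := (G4 a - G2 a / F2 a * F4 a) / (6 * (F2 a * F2 a)) with hq
  have r5 : g5 - G2 a / F2 a * f5 - q * (20 * (F2 a * F3 a)) = 0 := by
    by_contra h
    have C := key (G2 a / F2 a) q (g5 - G2 a / F2 a * f5 - q * (20 * (F2 a * F3 a)))
    have s4 := Sg.base C.d4 (mul_pos (mul_self_pos.2 h) wa) (by
      rw [f0, f1, hq]; field_simp; ring)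
    have s3 := s4.step C.d3 hw (by rw [f0, f1, r3]; ring)
    have s2 := s3.step C.d2 hw (by rw [f0, f1, div_mul_cancel₀ _ f2]; ring)
    have s1 := s2.step C.d1 hw (by rw [f1, g1]; ring)
    have s0 := s1.step C.d0 hw (by rw [f0, g0]; ring)
    rw [neg_neg, neg_neg] at s0
    exact s0.not hl fun s t e1 e2 => by rw [e1, e2]
  rw [hq] at r5
  field_simp at r3 r5
  constructor
  · linarith
  · linarith

lemma Chain.comp {w w' G0 G1 G2 G3 G4 ρ : ℝ → ℝ} {g5 a : ℝ} (h : Chain w' G0 G1 G2 G3 G4 g5 a)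
    (h0 : ρ a = a) (hρ : ∀ᶠ t in 𝓝 a, ∃ r, HasDerivAt ρ r t ∧ w' (ρ t) * r = w t) :
    Chain w (G0 ∘ ρ) (G1 ∘ ρ) (G2 ∘ ρ) (G3 ∘ ρ) (G4 ∘ ρ) g5 a := by
  obtain ⟨r, r1, r2⟩ := hρ.self_of_nhds
  have ht : Tendsto ρ (𝓝 a) (𝓝 a) := by
    have := r1.continuousAt.tendsto
    rwa [h0] at this
  have k : ∀ A B : ℝ → ℝ, (∀ᶠ t in 𝓝 a, HasDerivAt A (B t * w' t) t) →
      ∀ᶠ t in 𝓝 a, HasDerivAt (A ∘ ρ) ((B ∘ ρ) t * w t) t := fun A B hA => by
    filter_upwards [ht.eventually hA, hρ] with t a1 ⟨r, r1, r2⟩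
    exact (a1.comp t r1).congr_deriv (by rw [← r2, mul_assoc]; rfl)
  refine ⟨k _ _ h.d0, k _ _ h.d1, k _ _ h.d2, k _ _ h.d3, ?_⟩
  have := h.d4
  rw [← h0] at this
  exact (this.comp a r1).congr_deriv (by rw [← r2, mul_assoc])

lemma arc {ω B s s1 c c1 E p p1 p2 : ℝ → ℝ} {p3 e1 a : ℝ}
    (h : ∀ᶠ t in 𝓝 a, HasDerivAt B (s t / p t * ω t) t ∧ HasDerivAt s (s1 t * ω t) t ∧
      HasDerivAt c (c1 t * ω t) t ∧ HasDerivAt c1 (-(E t * c t) * ω t) t ∧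
      HasDerivAt p (p1 t * ω t) t ∧ HasDerivAt p1 (p2 t * ω t) t ∧ c t * s1 t - s t * c1 t = 1 ∧
      p t ≠ 0 ∧ c t ≠ 0)
    (h2 : HasDerivAt p2 (p3 * ω a) a) (hE : HasDerivAt E (e1 * ω a) a) (hc : c a = 1)
    (hc1 : c1 a = 0) :
    ∃ F1 F2 F3 F4 : ℝ → ℝ, Chain (fun t => c t / p t * ω t) B F1 F2 F3 F4
      (p a * (p1 a ^ 3 + 4 * p a * p1 a * p2 a + 19 * E a * p a ^ 2 * p1 a + p a ^ 2 * p3 +
        3 * e1 * p a ^ 3)) a ∧ F1 a = s a ∧ F2 a = p a ∧ F3 a = p a * p1 a ∧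
      F4 a = p a * (p1 a ^ 2 + p a * p2 a + 3 * E a * p a ^ 2) := by
  refine ⟨fun t => s t / c t, fun t => p t / c t ^ 3,
    fun t => p t * (p1 t * c t - 3 * (c1 t * p t)) / c t ^ 5,
    fun t => p t * (p1 t * p1 t * c t ^ 2 - 10 * (c1 t * c t * (p t * p1 t)) +
      15 * (c1 t * c1 t * (p t * p t)) + p t * p2 t * c t ^ 2 +
      3 * (E t * (p t * p t) * c t ^ 2)) / c t ^ 7, ⟨?_, ?_, ?_, ?_, ?_⟩, ?_, ?_, ?_, ?_⟩
  · filter_upwards [h] with t ⟨a1, _, _, _, _, _, _, b1, b2⟩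
    exact a1.congr_deriv (by field_simp)
  · filter_upwards [h] with t ⟨_, a2, a3, _, _, _, b0, b1, b2⟩
    refine (a2.div a3 b2).congr_deriv ?_
    field_simp
    linear_combination ω t * b0
  · filter_upwards [h] with t ⟨_, _, a3, _, a5, _, _, b1, b2⟩
    refine (a5.div (a3.pow 3) (pow_ne_zero _ b2)).congr_deriv ?_
    simp only [Pi.pow_apply]
    field_simp
    norm_num
    ring
  · filter_upwards [h] with t ⟨_, _, a3, a4, a5, a6, _, b1, b2⟩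
    refine ((a5.mul ((a6.mul a3).sub ((a4.mul a5).const_mul 3))).div (a3.pow 5)
      (pow_ne_zero _ b2)).congr_deriv ?_
    simp only [Pi.pow_apply, Pi.mul_apply, Pi.sub_apply]
    field_simp
    norm_num
    ring
  · obtain ⟨_, _, a3, a4, a5, a6, _, b1, b2⟩ := h.self_of_nhds
    refine ((a5.mul ((((((a6.mul a6).mul (a3.pow 2)).sub (((a4.mul a3).mul (a5.mul a6)).const_mul
      10)).add (((a4.mul a4).mul (a5.mul a5)).const_mul 15)).add ((a5.mul h2).mul (a3.pow 2))).add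
      (((hE.mul (a5.mul a5)).mul (a3.pow 2)).const_mul 3))).div (a3.pow 7)
      (pow_ne_zero _ b2)).congr_deriv ?_
    simp only [Pi.pow_apply, Pi.mul_apply, Pi.sub_apply, Pi.add_apply, hc, hc1]
    field_simp
    ring
  · simp [hc]
  · simp [hc]
  · simp [hc, hc1]
  · simp only [hc, hc1]; ring

lemma loc_inv {n : WithTop ℕ∞} (hn : n ≠ 0) {f : ℝ → ℝ} {a f' : ℝ} (hf : ContDiffAt ℝ n f a)
    (hd : HasDerivAt f f' a) (h0 : f' ≠ 0) : ∃ σ : ℝ → ℝ, ContDiffAt ℝ n σ (f a) ∧ σ (f a) = a ∧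
      (∀ᶠ y in 𝓝 (f a), f (σ y) = y) ∧ ∀ᶠ x in 𝓝 a, σ (f x) = x :=
  ⟨_, hf.to_localInverse (hd.hasFDerivAt_equiv h0) hn,
    hf.localInverse_apply_image (hd.hasFDerivAt_equiv h0) hn,
    (hf.hasStrictFDerivAt' (hd.hasFDerivAt_equiv h0) hn).eventually_right_inverse,
    (hf.hasStrictFDerivAt' (hd.hasFDerivAt_equiv h0) hn).eventually_left_inverse⟩

end Pool.Agent.H56.Ov
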