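import Pool.Agent.H56.Ov1

open Set Filter Topology

namespace Pool.Agent.H56.Ov

lemma const_of {f : ℝ → ℝ} {a e t : ℝ} (h : ∀ s ∈ Ico a e, HasDerivAt f 0 s) (ht : t ∈ Ico a e) :
    f t = f a := by
  rcases ht.1.eq_or_lt with rfl | h1
  · rfl
  obtain ⟨c, -, e'⟩ := mvt (f' := fun _ => 0) h1 fun s hs => h s ⟨hs.1, hs.2.trans_lt ht.2⟩
  linarith

lemma rp (x : ℝ) (hx : 0 < x) : x ^ (-2 / 3 : ℝ) = x ^ (-2 / 3 - 1 : ℝ) * x := by
  rw [← Real.rpow_add_one hx.ne']; norm_num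

lemma blow {x x1 x2 ω : ℝ → ℝ} {a e β C : ℝ} (hae : a < e) (hβ : 0 < β) (hc : Continuous x)
    (he : x e = 1) (h : ∀ t ∈ Ico a e, HasDerivAt x (x1 t * ω t) t ∧
      HasDerivAt x1 (x2 t * ω t) t ∧ x t < 1 ∧
      3 * x t * x2 t - x1 t ^ 2 + β / (1 - x t ^ 2) = C) : False := by
  obtain ⟨δ, hδ, H⟩ := Metric.eventually_nhds_iff.1
    ((hc.tendsto e).eventually (lt_mem_nhds (show 1 / 2 < x e by rw [he]; norm_num)))
  set b := max a (e - δ / 2) with hb
  have be : b < e := max_lt hae (by linarith)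
  have hx : ∀ t ∈ Ico b e, 1 / 2 < x t := fun t ht => H (by
    rw [Real.dist_eq, abs_lt]; constructor <;> linarith [ht.1, ht.2, le_max_right a (e - δ / 2)])
  have sub : ∀ t ∈ Ico b e, t ∈ Ico a e := fun t ht => ⟨(le_max_left _ _).trans ht.1, ht.2⟩
  set m : ℝ → ℝ := fun l => max (1 / 2) (1 - Real.exp (-l)) with hm
  have m1 : ∀ l, 1 / 2 ≤ m l := fun l => le_max_left _ _
  have m2 : ∀ l, m l ≤ 1 := fun l => max_le (by norm_num) (by linarith [Real.exp_pos (-l)])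
  have mc : Continuous m := by fun_prop
  set φ : ℝ → ℝ := fun l => 2 * β / 3 * (m l ^ (-2 / 3 - 1 : ℝ) / (1 + m l)) with hφ
  have φc : Continuous φ := continuous_const.mul ((mc.rpow_const fun l =>
    Or.inl (by linarith [m1 l])).div (continuous_const.add mc) fun l => by linarith [m1 l])
  have φ1 : ∀ l, β / 3 ≤ φ l := fun l => by
    have : 1 ≤ m l ^ (-2 / 3 - 1 : ℝ) :=
      Real.one_le_rpow_of_pos_of_le_one_of_nonpos (by linarith [m1 l]) (m2 l) (by norm_num)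
    have : 1 / 2 ≤ m l ^ (-2 / 3 - 1 : ℝ) / (1 + m l) := by
      rw [le_div_iff₀ (by linarith [m1 l])]; linarith [m2 l]
    simp only [hφ]; nlinarith
  set Φ : ℝ → ℝ := fun l => ∫ s in (0:ℝ)..l, φ s with hΦ
  have Φd : ∀ l, HasDerivAt Φ (φ l) l := fun l => intervalIntegral.integral_hasDerivAt_right
    (φc.intervalIntegrable _ _) (φc.stronglyMeasurableAtFilter _ _) φc.continuousAt
  have Φ1 : ∀ l, 0 ≤ l → β / 3 * l ≤ Φ l := fun l hl => by
    have := intervalIntegral.integral_mono_on (μ := MeasureTheory.volume) hl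
      (continuous_const.intervalIntegrable _ _) (φc.intervalIntegrable _ _) fun s _ => φ1 s
    rw [intervalIntegral.integral_const, smul_eq_mul] at this
    simp only [hΦ]; linarith
  set J : ℝ → ℝ := fun t => (x1 t * x1 t + C) * x t ^ (-2 / 3 : ℝ) + Φ (-Real.log (1 - x t)) with hJ
  have Jd : ∀ t ∈ Ico b e, HasDerivAt J 0 t := fun t ht => by
    obtain ⟨a1, a2, a3, a4⟩ := h t (sub t ht)
    have a5 := hx t ht
    have n1 : 1 - x t ≠ 0 := by linarith
    have n2 : 1 + x t ≠ 0 := by linarith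
    refine ((((a2.mul a2).add_const C).mul (a1.rpow_const (Or.inl (by linarith)))).add
      ((Φd _).comp t ((a1.const_sub 1).log n1).neg)).congr_deriv ?_
    have e1 : m (-Real.log (1 - x t)) = x t := by
      simp only [hm, neg_neg]
      rw [Real.exp_log (by linarith), sub_sub_cancel, max_eq_right a5.le]
    simp only [hφ, Pi.neg_apply, Pi.mul_apply, e1]
    rw [rp _ (by linarith), ← a4, show 1 - x t ^ 2 = (1 - x t) * (1 + x t) by ring]
    generalize x t ^ (-2 / 3 - 1 : ℝ) = z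
    field_simp
    ring
  have bd : ∀ t ∈ Ico b e, Real.exp (-(3 * (J b + 2 * |C|) / β)) ≤ 1 - x t := fun t ht => by
    obtain ⟨a1, a2, a3, a4⟩ := h t (sub t ht)
    have a5 := hx t ht
    have c1 := const_of Jd ht
    have c2 : 0 ≤ -Real.log (1 - x t) := by
      have := Real.log_nonpos (show 0 ≤ 1 - x t by linarith) (by linarith)
      linarith
    have c3 := Φ1 _ c2
    have c4 : x t ^ (-2 / 3 : ℝ) ≤ 2 := by
      refine (Real.rpow_le_rpow_of_exponent_ge (by linarith) a3.le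
        (show (-1 : ℝ) ≤ -2 / 3 by norm_num)).trans ?_
      rw [Real.rpow_neg_one, inv_le_comm₀ (by linarith) (by norm_num)]; linarith
    have c5 : 0 ≤ x t ^ (-2 / 3 : ℝ) := Real.rpow_nonneg (by linarith) _
    have c6 : -(2 * |C|) ≤ (x1 t * x1 t + C) * x t ^ (-2 / 3 : ℝ) := by
      nlinarith [neg_abs_le C, abs_nonneg C, mul_self_nonneg (x1 t)]
    rw [← Real.exp_log (show 0 < 1 - x t by linarith), Real.exp_le_exp, neg_le,
      le_div_iff₀ hβ]
    simp only [hJ] at c1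
    simp only [hJ]
    linarith
  have t1 : Tendsto (fun t => 1 - x t) (𝓝[<] e) (𝓝 (1 - x e)) :=
    ((continuous_const.sub hc).tendsto e).mono_left nhdsWithin_le_nhds
  have := ge_of_tendsto t1 (Filter.mem_of_superset (Ico_mem_nhdsLT be) bd)
  rw [he, sub_self] at this
  exact absurd this (not_le.2 (Real.exp_pos _))

lemma final {x x1 x2 ω : ℝ → ℝ} {a β S : ℝ} (hβ : 0 < β) (hω : ∀ t, 0 < ω t) (hS : S < 1)
    (h : ∀ t, HasDerivAt x (x1 t * ω t) t ∧ HasDerivAt x1 (x2 t * ω t) t ∧ x t ^ 2 ≤ S ∧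
      3 * x t * x2 t - x1 t ^ 2 + β / (1 - x t ^ 2) = β - x1 a ^ 2) (h0 : x a = 0)
    (h1 : x (a + 1) = 0) (hq : 0 < x1 a) (hr : 2 * x1 a ^ 2 * (1 - S) = β * S) : False := by
  have xc : Continuous x := continuous_iff_continuousAt.2 fun t => (h t).1.continuousAt
  have x1c : Continuous x1 := continuous_iff_continuousAt.2 fun t => (h t).2.1.continuousAt
  obtain ⟨c, hc, e⟩ := exists_hasDerivAt_eq_zero (show a < a + 1 by linarith) xc.continuousOn
    (h0.trans h1.symm) fun t _ => (h t).1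
  set Z := {t | a ≤ t ∧ x1 t ≤ 0} with hZ
  have Zc : IsClosed Z := (isClosed_le continuous_const continuous_id).inter
    (isClosed_le x1c continuous_const)
  have Zn : Z.Nonempty := ⟨c, hc.1.le, ((mul_eq_zero.1 e).resolve_right (hω c).ne').le⟩
  have Zb : BddBelow Z := ⟨a, fun t ht => ht.1⟩
  set b := sInf Z with hb
  have bZ : b ∈ Z := Zc.csInf_mem Zn Zb
  have ab : a < b := lt_of_le_of_ne bZ.1 fun e => by
    have := bZ.2
    rw [← e] at this; linarith
  have p1 : ∀ t ∈ Ico a b, 0 < x1 t := fun t ht => by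
    by_contra hh
    exact absurd (csInf_le Zb ⟨ht.1, not_lt.1 hh⟩) (not_le.2 ht.2)
  have b0 : x1 b = 0 := le_antisymm bZ.2 (ge_of_tendsto
    ((x1c.tendsto b).mono_left (nhdsWithin_le_nhds (s := Iio b)))
    (Filter.mem_of_superset (Ico_mem_nhdsLT ab) fun t ht => (p1 t ht).le))
  have p0 : ∀ t ∈ Ioc a b, 0 < x t := fun t ht => by
    obtain ⟨c, hc, e⟩ := mvt ht.1 fun s _ => (h s).1
    have := mul_pos (mul_pos (p1 c ⟨hc.1.le, hc.2.trans_le ht.2⟩) (hω c)) (sub_pos.2 ht.1)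
    linarith
  have n1 : ∀ t, 0 < 1 - x t ^ 2 := fun t => by linarith [(h t).2.2.1]
  set Ψ : ℝ → ℝ := fun t => x1 t * x1 t - x1 a ^ 2 + β / 2 * (x t ^ 2 / (1 - x t ^ 2)) with hΨ
  have Ψd : ∀ t, HasDerivAt Ψ ((2 * x1 t * x2 t + β * x t * x1 t / (1 - x t ^ 2) ^ 2) * ω t) t :=
    fun t => by
      obtain ⟨a1, a2, -, -⟩ := h t
      refine (((a2.mul a2).sub_const _).add ((((a1.pow 2).div ((a1.pow 2).const_sub 1)
        (n1 t).ne')).const_mul _)).congr_deriv ?_
      have := (n1 t).ne'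
      simp only [Pi.pow_apply]
      field_simp
      ring
  set G : ℝ → ℝ := fun t => Ψ t * x t ^ (-2 / 3 : ℝ) with hG
  have Gd : ∀ t ∈ Ioc a b, HasDerivAt G
      (β * x t ^ 4 * x t ^ (-2 / 3 - 1 : ℝ) / (1 - x t ^ 2) ^ 2 * (x1 t * ω t)) t := fun t ht => by
    obtain ⟨a1, a2, -, a4⟩ := h t
    refine ((Ψd t).mul (a1.rpow_const (Or.inl (p0 t ht).ne'))).congr_deriv ?_
    have := (n1 t).ne'
    have e : x1 a ^ 2 = β - (3 * x t * x2 t - x1 t ^ 2 + β / (1 - x t ^ 2)) := by linarith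
    simp only [hΨ]
    rw [rp _ (p0 t ht), e]
    generalize x t ^ (-2 / 3 - 1 : ℝ) = z
    field_simp
    ring
  have Gm : ∀ s t, a < s → s < t → t ≤ b → G s < G t := fun s t h1 h2 h3 => by
    obtain ⟨c, hc, e⟩ := mvt h2 fun r hr => Gd r ⟨h1.trans_le hr.1, hr.2.trans h3⟩
    have c1 := p0 c ⟨h1.trans hc.1, hc.2.le.trans h3⟩
    have c2 := p1 c ⟨(h1.trans hc.1).le, hc.2.trans_le h3⟩
    have c3 := hω c
    have c4 := n1 c
    have c5 := sub_pos.2 h2
    have : 0 < β * x c ^ 4 * x c ^ (-2 / 3 - 1 : ℝ) / (1 - x c ^ 2) ^ 2 * (x1 c * ω c) * (t - s) := by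
      positivity
    linarith
  have Ψ0 : Ψ a = 0 := by simp only [hΨ, h0]; ring
  have t1 : Tendsto G (𝓝[>] a) (𝓝 0) := by
    have s1 := ((Ψd a).tendsto_slope.div (h a).1.tendsto_slope (mul_pos hq (hω a)).ne').mono_left
      (nhdsGT_le_nhdsNE a)
    have s2 : Tendsto (fun t => x t ^ (1 / 3 : ℝ)) (𝓝[>] a) (𝓝 0) := by
      have := ((xc.rpow_const (p := 1 / 3) fun _ => Or.inr (by norm_num)).tendsto a).mono_left
        (nhdsWithin_le_nhds (s := Ioi a))
      rwa [h0, Real.zero_rpow (by norm_num)] at this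
    have s3 := s1.mul s2
    rw [mul_zero] at s3
    refine s3.congr' (Filter.mem_of_superset (Ioc_mem_nhdsGT ab) fun t ht => ?_)
    have c1 := p0 t ht
    have c2 := (sub_pos.2 ht.1).ne'
    simp only [hG, Pi.div_apply, slope_def_field, Ψ0, h0, sub_zero, mem_ofPred_eq]
    rw [show (1 / 3 : ℝ) = -2 / 3 + 1 by norm_num, Real.rpow_add_one c1.ne']
    field_simp
  have t2 : 0 ≤ G ((a + b) / 2) := le_of_tendsto t1 (Filter.mem_of_superset
    (Ioo_mem_nhdsGT (show a < (a + b) / 2 by linarith)) fun t ht =>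
      (Gm t _ ht.1 ht.2 (by linarith)).le)
  have t3 := t2.trans_lt (Gm _ b (by linarith) (by linarith) le_rfl)
  have t4 := (mul_pos_iff_of_pos_right (Real.rpow_pos_of_pos (p0 b ⟨ab, le_rfl⟩) _)).1 t3
  simp only [hΨ, b0] at t4
  have t5 : x b ^ 2 / (1 - x b ^ 2) ≤ S / (1 - S) := by
    rw [div_le_div_iff₀ (n1 b) (by linarith)]; nlinarith [(h b).2.2.1]
  have t6 : β / 2 * (S / (1 - S)) = x1 a ^ 2 := by
    have : 1 - S ≠ 0 := by linarith
    field_simp; linarith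
  nlinarith

end Pool.Agent.H56.Ov
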