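import Pool.Agent.H56.Ov2

open Set Filter Topology Function
open scoped ContDiff

namespace Pool.Agent.H56.Ov

abbrev V := ℝ × ℝ

def dt (u v : V) : ℝ := u.1 * v.2 - u.2 * v.1

def ip (u v : V) : ℝ := u.1 * v.1 + u.2 * v.2

lemma hd1 {f : ℝ → V} {f' : V} {t : ℝ} (h : HasDerivAt f f' t) :
    HasDerivAt (fun s => (f s).1) f'.1 t :=
  (ContinuousLinearMap.fst ℝ ℝ ℝ).hasFDerivAt.comp_hasDerivAt t h

lemma hd2 {f : ℝ → V} {f' : V} {t : ℝ} (h : HasDerivAt f f' t) :
    HasDerivAt (fun s => (f s).2) f'.2 t :=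
  (ContinuousLinearMap.snd ℝ ℝ ℝ).hasFDerivAt.comp_hasDerivAt t h

lemma hdt {f g : ℝ → V} {f' g' : V} {t : ℝ} (hf : HasDerivAt f f' t) (hg : HasDerivAt g g' t) :
    HasDerivAt (fun s => dt (f s) (g s)) (dt f' (g t) + dt (f t) g') t :=
  (((hd1 hf).mul (hd2 hg)).sub ((hd2 hf).mul (hd1 hg))).congr_deriv (by simp only [dt]; ring)

lemma hdl (u : V) {g : ℝ → V} {g' : V} {t : ℝ} (hg : HasDerivAt g g' t) :
    HasDerivAt (fun s => dt u (g s)) (dt u g') t :=
  (hdt (hasDerivAt_const t u) hg).congr_deriv (by simp [dt])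

lemma hdr (u : V) {g : ℝ → V} {g' : V} {t : ℝ} (hg : HasDerivAt g g' t) :
    HasDerivAt (fun s => dt (g s) u) (dt g' u) t :=
  (hdt hg (hasDerivAt_const t u)).congr_deriv (by simp [dt])

lemma ip_pos {u : V} (h : u ≠ 0) : 0 < ip u u := by
  by_contra hh
  apply h
  simp only [ip] at hh
  exact Prod.ext (by change u.1 = 0; nlinarith) (by change u.2 = 0; nlinarith)

lemma par {u y : V} (h : u ≠ 0) (e : dt u y = 0) : y = (ip u y / ip u u) • u := by
  have := (ip_pos h).ne'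
  simp only [dt, ip] at *
  ext
  · simp only [Prod.smul_fst, smul_eq_mul]
    rw [div_mul_eq_mul_div, eq_div_iff this]; linear_combination -u.2 * e
  · simp only [Prod.smul_snd, smul_eq_mul]
    rw [div_mul_eq_mul_div, eq_div_iff this]; linear_combination u.1 * e

lemma dt_sl (a : ℝ) (u v : V) : dt (a • u) v = a * dt u v := by simp [dt]; ring
lemma dt_sr (a : ℝ) (u v : V) : dt u (a • v) = a * dt u v := by simp [dt]; ring
lemma dt_self (u : V) : dt u u = 0 := by simp [dt]; ring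
lemma dt_comm (u v : V) : dt u v = -dt v u := by simp [dt]; ring

def Ch (Γ : Set V) (u x y : V) : Prop :=
  y ∈ Γ ∧ (∃ t : ℝ, y = x + t • u) ∧ (y = x → ∀ t : ℝ, x + t • u ∈ Γ → t = 0)

lemma Ch.ex {Γ : Set V} {u x : V} (hu : u ≠ 0) (hx : x ∈ Γ) : ∃ y, Ch Γ u x y := by
  by_cases h : ∃ t : ℝ, t ≠ 0 ∧ x + t • u ∈ Γ
  · obtain ⟨t, h1, h2⟩ := h
    exact ⟨_, h2, ⟨t, rfl⟩, fun e => absurd e (by simp [h1, hu])⟩
  · push Not at h
    exact ⟨x, hx, ⟨0, by simp⟩, fun _ t ht => by_contra fun h' => h t h' ht⟩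

lemma Ch.symm {Γ : Set V} {u x y : V} (hx : x ∈ Γ) (h : Ch Γ u x y) : Ch Γ u y x := by
  obtain ⟨-, ⟨t, ht⟩, h3⟩ := h
  refine ⟨hx, ⟨-t, by simp [ht]⟩, fun e => ?_⟩
  subst e
  exact h3 rfl

lemma Ch.of_ne {Γ : Set V} {u x y : V} (hu : u ≠ 0) (hy : y ∈ Γ) (h : dt u (y - x) = 0)
    (hn : y ≠ x) : Ch Γ u x y :=
  ⟨hy, ⟨_, by rw [← par hu h]; simp⟩, fun e => absurd e hn⟩

structure Oval (γ : ℝ → V) : Prop where
  sm : ContDiff ℝ ∞ γ
  per : Periodic γ 1
  inj : ∀ s t, t < s → s < t + 1 → γ s ≠ γ t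
  reg : ∀ t, deriv γ t ≠ 0
  pos : ∀ t s, γ s ≠ γ t → 0 < dt (deriv γ t) (γ s - γ t)
  uniq : ∀ u, u ≠ 0 → ∀ x y z, x ∈ range γ → Ch (range γ) u x y → Ch (range γ) u x z → y = z
  rot : ∀ u v, u ≠ 0 → v ≠ 0 → ∀ p q, p ∈ range γ → Ch (range γ) u p p → Ch (range γ) v p q →
    Ch (range γ) u q q → Ch (range γ) v q p → ∀ x y z w e, x ∈ range γ → Ch (range γ) u x y →
    Ch (range γ) v y z → Ch (range γ) u z w → Ch (range γ) v w e → e = x

variable {γ : ℝ → V}

noncomputable def kk (γ : ℝ → V) (t : ℝ) : ℝ := dt (deriv γ t) (deriv (deriv γ) t)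

lemma per_deriv {f : ℝ → V} (h : Periodic f 1) : Periodic (deriv f) 1 := fun t => by
  rw [← deriv_comp_add_const]
  congr 1
  exact funext h

lemma Oval.sm1 (h : Oval γ) : ContDiff ℝ ∞ (deriv γ) := (contDiff_infty_iff_deriv.1 h.sm).2
lemma Oval.sm2 (h : Oval γ) : ContDiff ℝ ∞ (deriv (deriv γ)) := (contDiff_infty_iff_deriv.1 h.sm1).2
lemma Oval.d0 (h : Oval γ) (t : ℝ) : HasDerivAt γ (deriv γ t) t :=
  ((contDiff_infty_iff_deriv.1 h.sm).1 t).hasDerivAt
lemma Oval.d1 (h : Oval γ) (t : ℝ) : HasDerivAt (deriv γ) (deriv (deriv γ) t) t :=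
  ((contDiff_infty_iff_deriv.1 h.sm1).1 t).hasDerivAt

lemma Oval.ksm (h : Oval γ) : ContDiff ℝ ∞ (kk γ) := by
  have h1 := h.sm1
  have h2 := h.sm2
  unfold kk dt
  fun_prop

lemma Oval.nn (h : Oval γ) (t s : ℝ) : 0 ≤ dt (deriv γ t) (γ s - γ t) := by
  by_cases e : γ s = γ t
  · simp [e, dt]
  · exact (h.pos t s e).le

lemma Oval.knn (h : Oval γ) (t : ℝ) : 0 ≤ kk γ t := by
  by_contra hh
  have s1 := Sg.base (hdl (deriv γ t) (h.d1 t)).neg (neg_pos.2 (not_le.1 hh)) (by simp [dt_self])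
  have s0 := s1.step (f := fun s => -dt (deriv γ t) (γ s - γ t)) (w := fun _ => 1)
    (Eventually.of_forall fun s => (hdl _ ((h.d0 s).sub_const _)).neg.congr_deriv (by simp))
    (by simp) (by simp [dt])
  obtain ⟨s, hs⟩ := s0.1.exists
  linarith [h.nn t s]

lemma Oval.tan_ch (h : Oval γ) {u : V} {r : ℝ} (hu : u ≠ 0) (e : dt (deriv γ r) u = 0) :
    Ch (range γ) u (γ r) (γ r) := by
  refine ⟨⟨r, rfl⟩, ⟨0, by simp⟩, ?_⟩
  rintro - t ⟨s, hs⟩
  by_contra ht
  have := h.pos r s (by rw [hs]; simp [ht, hu])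
  rw [hs, add_sub_cancel_left, dt_sr, e] at this
  simp at this

lemma Oval.ch_tan (h : Oval γ) {u : V} {r : ℝ} (hu : u ≠ 0) (e : Ch (range γ) u (γ r) (γ r)) :
    dt u (deriv γ r) = 0 := by
  have nz : ∀ s ∈ Ioo r (r + 1), dt u (γ s - γ r) ≠ 0 := fun s hs h0 => by
    have h1 := par hu h0
    have := e.2.2 rfl _ ⟨s, by rw [← h1]; simp⟩
    rw [this, zero_smul, sub_eq_zero] at h1
    exact h.inj s r hs.1 hs.2 h1
  have hc : Continuous fun s => dt u (γ s - γ r) := by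
    have := h.sm.continuous
    unfold dt; fun_prop
  have key : ∀ c : ℝ, (∀ s ∈ Ioo r (r + 1), 0 < c * dt u (γ s - γ r)) → c * dt u (deriv γ r) = 0 := by
    intro c hc
    apply IsLocalMin.hasDerivAt_eq_zero _ ((hdl u ((h.d0 r).sub_const (γ r))).const_mul c)
    filter_upwards [Ioo_mem_nhds (show r - 1 < r by linarith) (show r < r + 1 by linarith)] with s hs
    rw [sub_self, show dt u 0 = 0 by simp [dt], mul_zero]
    rcases lt_trichotomy s r with h1 | rfl | h1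
    · rw [← h.per s]; exact (hc _ ⟨by linarith [hs.1], by linarith⟩).le
    · simp [dt]
    · exact (hc _ ⟨h1, hs.2⟩).le
  rcases isPreconnected_Ioo.mapsTo_Ioi_or_Iio hc.continuousOn nz with h1 | h1
  · simpa using key 1 fun s hs => by simpa using h1 hs
  · simpa using key (-1) fun s hs => by simpa using h1 hs

lemma Oval.tuniq (h : Oval γ) {s r a : ℝ} (ha : 0 < a) (e : deriv γ s = a • deriv γ r) : γ s = γ r := by
  by_contra hn
  have h1 := h.pos r s hn
  have h2 := h.pos s r (Ne.symm hn)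
  rw [e, dt_sl, ← neg_sub, ← neg_one_smul ℝ, dt_sr] at h2
  nlinarith

lemma Oval.suniq (h : Oval γ) {e : V} {t s r a b : ℝ} (hs : s ∈ Ioo t (t + 1)) (hr : r ∈ Ioo t (t + 1))
    (ha : 0 < a) (hb : 0 < b) (e1 : e = a • deriv γ s) (e2 : e = b • deriv γ r) : s = r := by
  have := h.tuniq (s := s) (r := r) (a := a⁻¹ * b) (by positivity) (by
    rw [mul_smul, ← e2, e1, inv_smul_smul₀ ha.ne'])
  rcases lt_trichotomy s r with h1 | h1 | h1
  · exact absurd this.symm (h.inj r s h1 (by linarith [hs.1, hr.2]))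
  · exact h1
  · exact absurd this (h.inj s r h1 (by linarith [hs.2, hr.1]))

lemma Oval.tan_ex (h : Oval γ) {e : V} (he : e ≠ 0) (t : ℝ) (hn : ∀ a : ℝ, 0 < a → e ≠ a • deriv γ t) :
    ∃ s ∈ Ioo t (t + 1), ∃ a : ℝ, 0 < a ∧ e = a • deriv γ s := by
  have hc : Continuous fun s => dt e (γ s) := by
    have := h.sm.continuous
    unfold dt; fun_prop
  obtain ⟨s0, -, hs0⟩ := isCompact_Icc.exists_isMinOn (nonempty_Icc.2 (show t ≤ t + 1 by linarith))
    hc.continuousOn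
  obtain ⟨s, hs, e0⟩ := h.per.exists_mem_Ico one_pos s0 t
  have mn : ∀ r, dt e (γ s) ≤ dt e (γ r) := fun r => by
    obtain ⟨r', hr, e1⟩ := h.per.exists_mem_Ico one_pos r t
    rw [← e0, e1]
    exact hs0 (Ico_subset_Icc_self hr)
  have z : dt e (deriv γ s) = 0 :=
    IsLocalMin.hasDerivAt_eq_zero (Eventually.of_forall mn) (hdl e (h.d0 s))
  have e1 := par (h.reg s) (y := e) (by rw [dt_comm, z, neg_zero])
  set a := ip (deriv γ s) e / ip (deriv γ s) (deriv γ s)
  have a0 : a ≠ 0 := fun h0 => he (by rw [e1, h0, zero_smul])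
  have a1 : 0 < a := by
    have h1 := h.pos s (s + 1 / 2) (h.inj _ _ (by linarith) (by linarith))
    have h2 : 0 ≤ dt e (γ (s + 1 / 2) - γ s) := by
      have := mn (s + 1 / 2)
      simp only [dt, Prod.fst_sub, Prod.snd_sub] at this ⊢
      linarith
    rw [e1, dt_sl] at h2
    exact lt_of_le_of_ne (nonneg_of_mul_nonneg_left h2 h1) a0.symm
  refine ⟨s, ⟨lt_of_le_of_ne hs.1 fun e2 => hn a a1 (by rw [e2]; exact e1), hs.2⟩, a, a1, e1⟩

lemma Oval.tan_fun (h : Oval γ) {e : ℝ → V} (hc : Continuous e) (he : ∀ t, e t ≠ 0)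
    (hn : ∀ t (a : ℝ), 0 < a → e t ≠ a • deriv γ t) : ∃ σ : ℝ → ℝ, Continuous σ ∧
      (∀ t, σ t ∈ Ioo t (t + 1) ∧ ∃ a : ℝ, 0 < a ∧ e t = a • deriv γ (σ t)) ∧
      ∀ t, kk γ (σ t) ≠ 0 → ContDiffAt ℝ ∞ e t → ContDiffAt ℝ ∞ σ t := by
  choose σ h1 h2 using fun t => h.tan_ex (he t) t (hn t)
  have c1 := h.sm1.continuous
  have σc : Continuous σ := by
    rw [continuous_iff_continuousAt]
    intro t
    have : Tendsto (fun s => (s, σ s)) (𝓝 t) (𝓝 (t, σ t)) := by
      apply (isCompact_Icc (a := (t - 1, t - 1)) (b := (t + 1, t + 2))).tendsto_nhds_of_unique_mapClusterPt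
      · filter_upwards [Ioo_mem_nhds (show t - 1 < t by linarith) (show t < t + 1 by linarith)]
          with s hs
        exact ⟨⟨hs.1.le, by linarith [(h1 s).1, hs.1]⟩, hs.2.le, by linarith [(h1 s).2, hs.2]⟩
      · rintro ⟨a, b⟩ - hx
        have ea : a = t := by
          have : MapClusterPt a (𝓝 t) fun s => s := hx.continuousAt_comp continuous_fst.continuousAt
          exact eq_of_nhds_neBot (by simpa [MapClusterPt, ClusterPt] using this)
        subst ea
        have cl : IsClosed {p : ℝ × ℝ | p.1 ≤ p.2 ∧ p.2 ≤ p.1 + 1 ∧ dt (deriv γ p.2) (e p.1) = 0 ∧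
            0 ≤ ip (deriv γ p.2) (e p.1)} := by
          have q1 : Continuous fun p : ℝ × ℝ => dt (deriv γ p.2) (e p.1) := by unfold dt; fun_prop
          have q2 : Continuous fun p : ℝ × ℝ => ip (deriv γ p.2) (e p.1) := by unfold ip; fun_prop
          exact (isClosed_le continuous_fst continuous_snd).inter ((isClosed_le continuous_snd
            (continuous_fst.add continuous_const)).inter ((isClosed_eq q1 continuous_const).inter
            (isClosed_le continuous_const q2)))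
        obtain ⟨b1, b2, b3, b4⟩ := cl.mem_of_mapClusterPt hx (Eventually.of_forall fun s => by
          obtain ⟨c, c0, ce⟩ := h2 s
          refine ⟨(h1 s).1.le, (h1 s).2.le, by rw [ce, dt_sr, dt_self, mul_zero], ?_⟩
          have := ip_pos (h.reg (σ s))
          rw [ce]
          simp only [ip, Prod.smul_fst, Prod.smul_snd, smul_eq_mul] at this ⊢
          nlinarith)
        have e1 := par (h.reg b) b3
        have p1 : 0 < ip (deriv γ b) (e a) / ip (deriv γ b) (deriv γ b) :=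
          lt_of_le_of_ne (div_nonneg b4 (ip_pos (h.reg b)).le) fun h0 => he a (by
            rw [e1, ← h0, zero_smul])
        obtain ⟨c, c0, ce⟩ := h2 a
        congr 1
        refine h.suniq ⟨lt_of_le_of_ne b1 fun e2 => hn a _ p1 (by
          obtain rfl : a = b := e2
          exact e1),
          lt_of_le_of_ne b2 fun e2 => hn a _ p1 ?_⟩ (h1 a) p1 c0 e1 ce
        rw [← per_deriv h.per a, ← show b = a + 1 from e2]
        exact e1
    exact (continuous_snd.tendsto _).comp this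
  refine ⟨σ, σc, fun t => ⟨h1 t, h2 t⟩, fun t hk hs => ?_⟩
  set u := deriv γ (σ t) with hu
  have up := ip_pos (h.reg (σ t))
  have s1 := h.sm1
  have m1 : ContDiffAt ℝ ∞ (fun s => dt u (deriv γ s) / ip u (deriv γ s)) (σ t) := by
    apply ContDiffAt.div
    · unfold dt; fun_prop
    · unfold ip; fun_prop
    · exact up.ne'
  have m2 : HasDerivAt (fun s => dt u (deriv γ s) / ip u (deriv γ s)) (kk γ (σ t) / ip u u) (σ t) := by
    refine ((hdl u (h.d1 _)).div (((hd1 (h.d1 _)).const_mul u.1).add ((hd2 (h.d1 _)).const_mul u.2))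
      up.ne').congr_deriv ?_
    change (kk γ (σ t) * ip u u - dt u u * _) / ip u u ^ 2 = _
    rw [dt_self]
    have : ip u u ≠ 0 := up.ne'
    field_simp
    ring
  obtain ⟨ι, i1, -, -, i4⟩ := loc_inv (by simp) m1 m2 (div_ne_zero hk up.ne')
  have ee : ∀ s, dt u (deriv γ (σ s)) / ip u (deriv γ (σ s)) = dt u (e s) / ip u (e s) := fun s => by
    obtain ⟨c, c0, ce⟩ := h2 s
    rw [ce, dt_sr, show ip u (c • deriv γ (σ s)) = c * ip u (deriv γ (σ s)) by simp [ip]; ring,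
      mul_div_mul_left _ _ c0.ne']
  have m3 : ContDiffAt ℝ ∞ (fun s => dt u (e s) / ip u (e s)) t := by
    apply ContDiffAt.div
    · unfold dt; fun_prop
    · unfold ip; fun_prop
    · obtain ⟨c, c0, ce⟩ := h2 t
      rw [ce, show ip u (c • deriv γ (σ t)) = c * ip u u by simp [ip, hu]; ring]
      exact (mul_pos c0 up).ne'
  simp only [ee] at i1
  refine (i1.comp t m3).congr_of_eventuallyEq ?_
  filter_upwards [(σc.tendsto t).eventually i4] with s hs
  rw [ee] at hs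
  exact hs.symm

end Pool.Agent.H56.Ov
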