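import Pool.Agent.H56.Ov3

open Set Filter Topology Function
open scoped ContDiff

namespace Pool.Agent.H56.Ov

structure Op (γ : ℝ → V) (ψ : ℝ → ℝ) : Prop extends Oval γ where
  ct : Continuous ψ
  mem : ∀ t, ψ t ∈ Ioo t (t + 1)
  pr : ∀ t, ∃ a : ℝ, 0 < a ∧ -deriv γ t = a • deriv γ (ψ t)
  ps : ∀ t, kk γ (ψ t) ≠ 0 → ContDiffAt ℝ ∞ ψ t

variable {γ : ℝ → V} {ψ : ℝ → ℝ}

lemma Oval.op (h : Oval γ) : ∃ ψ, Op γ ψ := by
  obtain ⟨ψ, h1, h2, h3⟩ := h.tan_fun (e := fun t => -deriv γ t) h.sm1.continuous.neg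
    (fun t => neg_ne_zero.2 (h.reg t)) fun t a ha e => h.reg t (by
      have : (a + 1) • deriv γ t = 0 := by rw [add_smul, ← e]; simp
      exact (smul_eq_zero.1 this).resolve_left (by linarith))
  exact ⟨ψ, h, h1, fun t => (h2 t).1, fun t => (h2 t).2, fun t hk => h3 t hk h.sm1.contDiffAt.neg⟩

lemma Op.add (h : Op γ ψ) (t : ℝ) : ψ (t + 1) = ψ t + 1 := by
  obtain ⟨a, a0, e1⟩ := h.pr (t + 1)
  obtain ⟨b, b0, e2⟩ := h.pr t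
  refine h.suniq (h.mem _) ⟨by linarith [(h.mem t).1], by linarith [(h.mem t).2]⟩ a0 b0 e1 ?_
  rw [per_deriv h.per, per_deriv h.per, e2]

lemma Op.two (h : Op γ ψ) (t : ℝ) : ψ (ψ t) = t + 1 := by
  obtain ⟨a, a0, e1⟩ := h.pr (ψ t)
  obtain ⟨b, b0, e2⟩ := h.pr t
  refine h.suniq (h.mem _) ⟨(h.mem t).2, by linarith [(h.mem t).1]⟩ a0 (inv_pos.2 b0) e1 ?_
  rw [per_deriv h.per, ← neg_neg (deriv γ t), e2, smul_neg, inv_smul_smul₀ b0.ne']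

def dd (γ : ℝ → V) (ψ : ℝ → ℝ) (t : ℝ) : V := γ (ψ t) - γ t
noncomputable def WW (γ : ℝ → V) (ψ : ℝ → ℝ) (t : ℝ) : ℝ := dt (deriv γ t) (dd γ ψ t)
noncomputable def gg (γ : ℝ → V) (ψ : ℝ → ℝ) (t : ℝ) : V := (WW γ ψ t)⁻¹ • deriv γ t
noncomputable def om (γ : ℝ → V) (ψ : ℝ → ℝ) (t : ℝ) : ℝ := kk γ t / WW γ ψ t ^ 2
noncomputable def PP (γ : ℝ → V) (ψ : ℝ → ℝ) (t : ℝ) : ℝ := kk γ t / WW γ ψ t ^ 3

lemma Op.ne (h : Op γ ψ) (t : ℝ) : γ (ψ t) ≠ γ t := h.inj _ _ (h.mem t).1 (h.mem t).2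
lemma Op.Wp (h : Op γ ψ) (t : ℝ) : 0 < WW γ ψ t := h.pos _ _ (h.ne t)
lemma Op.dne (h : Op γ ψ) (t : ℝ) : dd γ ψ t ≠ 0 := sub_ne_zero.2 (h.ne t)
lemma Op.gne (h : Op γ ψ) (t : ℝ) : gg γ ψ t ≠ 0 :=
  smul_ne_zero (inv_ne_zero (h.Wp t).ne') (h.reg t)
lemma Op.gd (h : Op γ ψ) (t : ℝ) : dt (gg γ ψ t) (dd γ ψ t) = 1 := by
  rw [gg, dt_sl]; exact inv_mul_cancel₀ (h.Wp t).ne'

lemma Op.dc (h : Op γ ψ) : Continuous (dd γ ψ) :=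
  (h.sm.continuous.comp h.ct).sub h.sm.continuous

lemma Op.Pc (h : Op γ ψ) : Continuous (PP γ ψ) := by
  have h1 := h.dc
  have h2 := h.sm1.continuous
  refine h.ksm.continuous.div (Continuous.pow ?_ 3) fun t => pow_ne_zero _ (h.Wp t).ne'
  exact (h2.fst.mul h1.snd).sub (h2.snd.mul h1.fst)

lemma Op.Pper (h : Op γ ψ) (t : ℝ) : PP γ ψ (t + 1) = PP γ ψ t := by
  simp only [PP, WW, dd, kk, h.add, h.per _, per_deriv h.per t, per_deriv (per_deriv h.per) t]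

lemma Op.dsm (h : Op γ ψ) {t : ℝ} (hk : kk γ (ψ t) ≠ 0) : ContDiffAt ℝ ∞ (dd γ ψ) t :=
  (h.sm.contDiffAt.comp t (h.ps t hk)).sub h.sm.contDiffAt

lemma Op.Wsm (h : Op γ ψ) {t : ℝ} (hk : kk γ (ψ t) ≠ 0) : ContDiffAt ℝ ∞ (WW γ ψ) t := by
  have h1 := h.dsm hk
  have h2 := h.sm1.contDiffAt (x := t)
  exact (h2.fst.mul h1.snd).sub (h2.snd.mul h1.fst)

lemma Op.omsm (h : Op γ ψ) {t : ℝ} (hk : kk γ (ψ t) ≠ 0) : ContDiffAt ℝ ∞ (om γ ψ) t :=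
  h.ksm.contDiffAt.div ((h.Wsm hk).pow 2) (pow_ne_zero _ (h.Wp t).ne')

lemma Op.Psm (h : Op γ ψ) {t : ℝ} (hk : kk γ (ψ t) ≠ 0) : ContDiffAt ℝ ∞ (PP γ ψ) t :=
  h.ksm.contDiffAt.div ((h.Wsm hk).pow 3) (pow_ne_zero _ (h.Wp t).ne')

lemma Op.Qsm (h : Op γ ψ) {t : ℝ} (h0 : kk γ t ≠ 0) (hk : kk γ (ψ t) ≠ 0) :
    ContDiffAt ℝ ∞ (fun t => PP γ ψ (ψ t)) t :=
  (h.Psm (by simpa only [h.two, kk, per_deriv h.per t, per_deriv (per_deriv h.per) t] using h0)).comp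
    t (h.ps t hk)

lemma Op.fr1 (h : Op γ ψ) {t : ℝ} (h0 : kk γ t ≠ 0) :
    HasDerivAt γ ((om γ ψ t / PP γ ψ t) • gg γ ψ t) t := by
  refine (h.d0 t).congr_deriv ?_
  have := (h.Wp t).ne'
  rw [gg, smul_smul, show om γ ψ t / PP γ ψ t * (WW γ ψ t)⁻¹ = 1 by
    simp only [om, PP]; field_simp, one_smul]

lemma Op.fr2 (h : Op γ ψ) {t : ℝ} (hk : kk γ (ψ t) ≠ 0) :
    HasDerivAt (fun t => γ (ψ t)) ((om γ ψ t / -PP γ ψ (ψ t)) • gg γ ψ t) t := by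
  have r1 := ((h.ps t hk).differentiableAt (by simp)).hasDerivAt
  refine ((h.d0 _).scomp t r1).congr_deriv ?_
  have z : (fun s => dt (deriv γ s) (deriv γ (ψ s))) = fun _ => 0 := funext fun s => by
    obtain ⟨a, -, e⟩ := h.pr s
    rw [← neg_neg (deriv γ s), e, ← neg_smul, dt_sl, dt_self, mul_zero]
  have r2 := hdt (h.d1 t) ((h.d1 _).scomp t r1)
  simp only [comp_def] at r2
  rw [z] at r2
  have r3 := r2.unique (hasDerivAt_const t 0)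
  obtain ⟨a, a0, e⟩ := h.pr t
  have e' : deriv γ t = (-a) • deriv γ (ψ t) := by rw [neg_smul, ← e, neg_neg]
  have w1 : WW γ ψ t = a * WW γ ψ (ψ t) := by
    simp only [WW, dd, h.two, h.per t, e', dt, Prod.smul_fst, Prod.smul_snd, smul_eq_mul,
      Prod.fst_sub, Prod.snd_sub]
    ring
  have k1 : kk γ t = a ^ 2 * deriv ψ t * kk γ (ψ t) := by
    simp only [kk, e', dt, Prod.smul_fst, Prod.smul_snd, smul_eq_mul] at r3 ⊢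
    linear_combination a * r3
  have := (h.Wp (ψ t)).ne'
  have := a0.ne'
  rw [gg, e', smul_smul, smul_smul]
  congr 1
  simp only [om, PP]
  rw [w1, k1]
  field_simp

lemma Op.fr3 (h : Op γ ψ) {t : ℝ} (h0 : kk γ t ≠ 0) (hk : kk γ (ψ t) ≠ 0) :
    HasDerivAt (dd γ ψ) ((-((1 / PP γ ψ t + 1 / PP γ ψ (ψ t)) * om γ ψ t)) • gg γ ψ t) t := by
  refine ((h.fr2 hk).sub (h.fr1 h0)).congr_deriv ?_
  rw [← sub_smul]
  congr 1
  ring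

lemma Op.fr4 (h : Op γ ψ) {t : ℝ} (h0 : kk γ t ≠ 0) (hk : kk γ (ψ t) ≠ 0) :
    HasDerivAt (gg γ ψ) (om γ ψ t • dd γ ψ t) t := by
  have w : HasDerivAt (WW γ ψ) _ t := hdt (h.d1 t) (h.fr3 h0 hk)
  have := (h.Wp t).ne'
  refine ((w.inv this).smul (h.d1 t)).congr_deriv ?_
  rw [gg, dt_sr, dt_sr, dt_self]
  have e : WW γ ψ t = dt (deriv γ t) (dd γ ψ t) := rfl
  simp only [om, kk, Pi.inv_apply]
  ext
  · simp only [dt, Prod.smul_fst, Prod.fst_add, smul_eq_mul] at e ⊢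
    field_simp
    rw [e]; ring
  · simp only [dt, Prod.smul_snd, Prod.snd_add, smul_eq_mul] at e ⊢
    field_simp
    rw [e]; ring

lemma Op.rot' (h : Op γ ψ) (t : ℝ) {x y z w e : V} (hx : x ∈ range γ)
    (h1 : Ch (range γ) (gg γ ψ t) x y) (h2 : Ch (range γ) (dd γ ψ t) y z)
    (h3 : Ch (range γ) (gg γ ψ t) z w) (h4 : Ch (range γ) (dd γ ψ t) w e) : e = x := by
  obtain ⟨a, a0, e⟩ := h.pr t
  have c : Ch (range γ) (dd γ ψ t) (γ t) (γ (ψ t)) := Ch.of_ne (h.dne t) ⟨_, rfl⟩ (dt_self _) (h.ne t)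
  refine h.rot _ _ (h.gne t) (h.dne t) (γ t) (γ (ψ t)) ⟨t, rfl⟩ (h.tan_ch (h.gne t) ?_) c
    (h.tan_ch (h.gne t) ?_) (c.symm ⟨t, rfl⟩) _ _ _ _ _ hx h1 h2 h3 h4
  · rw [gg, dt_sr, dt_self, mul_zero]
  · rw [gg, ← neg_neg (deriv γ t), e, ← neg_smul, dt_sr, dt_sr, dt_self]; simp

lemma Op.lev (h : Op γ ψ) {a : ℝ} {ρ : ℝ → ℝ}
    (hρ : ∀ᶠ t in 𝓝 a, dt (γ (ψ (ρ t)) - γ t) (dd γ ψ a) = 0 ∧ γ (ψ (ρ t)) ≠ γ t) :
    Lev (fun t => dt (gg γ ψ a) (γ t - γ a))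
      ((fun t => dt (gg γ ψ a) (γ (ψ t) - γ (ψ a))) ∘ ρ) a := by
  intro s hs
  obtain ⟨ε, ε0, H⟩ := Metric.eventually_nhds_iff.1 (hρ.and hs)
  set δ := min (ε / 2) (1 / 3) with hδ
  have d0 : 0 < δ := by positivity
  have d1 : δ ≤ 1 / 3 := min_le_right _ _
  have d2 : δ ≤ ε / 2 := min_le_left _ _
  set B : ℝ → ℝ := fun t => dt (gg γ ψ a) (γ t - γ a) with hB
  have Bc : Continuous B := by
    have := h.sm.continuous
    simp only [hB, dt]; fun_prop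
  have Bp : ∀ t, γ t ≠ γ a → 0 < B t := fun t ht => by
    simp only [hB, gg, dt_sl]
    exact mul_pos (inv_pos.2 (h.Wp a)) (h.pos _ _ ht)
  have B0 : B a = 0 := by simp [hB, dt]
  have b1 := Bp (a - δ) (h.inj _ _ (by linarith) (by linarith)).symm
  have b2 := Bp (a + δ) (h.inj _ _ (by linarith) (by linarith))
  have m0 := lt_min b1 b2
  obtain ⟨t1, a1, e1⟩ := intermediate_value_Ico' (show a - δ ≤ a by linarith) Bc.continuousOn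
    (show min (B (a - δ)) (B (a + δ)) ∈ _ from ⟨by rwa [B0], min_le_left _ _⟩)
  obtain ⟨t2, a2, e2⟩ := intermediate_value_Ioc (show a ≤ a + δ by linarith) Bc.continuousOn
    (show min (B (a - δ)) (B (a + δ)) ∈ _ from ⟨by rwa [B0], min_le_right _ _⟩)
  obtain ⟨⟨c1, c2⟩, c3⟩ := H (y := t1) (by
    rw [Real.dist_eq, abs_lt]; constructor <;> linarith [a1.1, a1.2])
  obtain ⟨⟨c4, c5⟩, c6⟩ := H (y := t2) (by
    rw [Real.dist_eq, abs_lt]; constructor <;> linarith [a2.1, a2.2])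
  refine ⟨t1, c3, t2, c6, a1.2, a2.1, e1.trans e2.symm, ?_⟩
  have f1 : Ch (range γ) (gg γ ψ a) (γ t1) (γ t2) := Ch.of_ne (h.gne a) ⟨_, rfl⟩ (by
    have := e1.trans e2.symm
    simp only [hB, dt, Prod.fst_sub, Prod.snd_sub] at this ⊢
    linarith) (h.inj _ _ (a1.2.trans a2.1) (by linarith [a1.1, a2.2]))
  have f2 : Ch (range γ) (dd γ ψ a) (γ t2) (γ (ψ (ρ t2))) :=
    Ch.of_ne (h.dne a) ⟨_, rfl⟩ (by rw [dt_comm, c4, neg_zero]) c5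
  have f3 : Ch (range γ) (dd γ ψ a) (γ t1) (γ (ψ (ρ t1))) :=
    Ch.of_ne (h.dne a) ⟨_, rfl⟩ (by rw [dt_comm, c1, neg_zero]) c2
  obtain ⟨w, f4⟩ := Ch.ex (h.gne a) f2.1
  obtain ⟨e, f5⟩ := Ch.ex (h.dne a) f4.1
  have := h.rot' a ⟨t1, rfl⟩ f1 f2 f4 f5
  rw [this] at f5
  have := h.uniq _ (h.dne a) _ _ _ ⟨t1, rfl⟩ (f5.symm f4.1) f3
  obtain ⟨r, hr⟩ := f4.2.1
  simp only [comp_apply]
  rw [← this, hr]
  simp only [dt, Prod.fst_sub, Prod.snd_sub, Prod.fst_add, Prod.snd_add, Prod.smul_fst,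
    Prod.smul_snd, smul_eq_mul]
  ring

lemma Op.radon (h : Op γ ψ) {t s l : ℝ} (hl : 0 < l) (e : dd γ ψ t = l • deriv γ s) :
    dt (gg γ ψ t) (dd γ ψ s) = 0 := by
  have c0 : Ch (range γ) (dd γ ψ t) (γ s) (γ s) :=
    h.tan_ch (h.dne t) (by rw [e, dt_sr, dt_self, mul_zero])
  obtain ⟨z, c1⟩ := Ch.ex (h.gne t) (mem_range_self (f := γ) s)
  obtain ⟨w, c2⟩ := Ch.ex (h.dne t) c1.1
  have := h.rot' t c1.1 (c1.symm ⟨s, rfl⟩) c0 c1 c2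
  rw [this] at c2
  obtain ⟨r, rfl⟩ := c1.1
  have c3 := h.ch_tan (h.dne t) c2
  rw [e, dt_sl] at c3
  have c4 := par (h.reg s) ((mul_eq_zero.1 c3).resolve_left hl.ne')
  have n : γ r ≠ γ s := fun e' => by
    rw [e'] at c1
    have := h.ch_tan (h.gne t) c1
    have g := h.gd t
    rw [e, dt_sr, this] at g
    simp at g
  rcases lt_trichotomy (ip (deriv γ s) (deriv γ r) / ip (deriv γ s) (deriv γ s)) 0 with p | p | p
  · obtain ⟨b, b0, eb⟩ := h.pr s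
    have := h.tuniq (s := r) (r := ψ s) (mul_pos (neg_pos.2 p) b0) (by
      rw [mul_smul, ← eb, neg_smul, smul_neg, neg_neg]; exact c4)
    obtain ⟨τ, hτ⟩ := c1.2.1
    rw [dd, ← this, hτ, add_sub_cancel_left, dt_sr, dt_self, mul_zero]
  · exact absurd (by rw [c4, p, zero_smul]) (h.reg r)
  · exact absurd (h.tuniq p c4) n

end Pool.Agent.H56.Ov
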