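import Pool.Agent.H56.Ov4

open Set Filter Topology Function

namespace Pool.Agent.H56.Ov

variable {γ : ℝ → V} {ψ : ℝ → ℝ}

noncomputable def D (w f : ℝ → ℝ) (t : ℝ) : ℝ := deriv f t / w t

lemma D_hd {w f : ℝ → ℝ} {t : ℝ} (hf : ContDiffAt ℝ ((⊤ : ℕ∞) : WithTop ℕ∞) f t) (h : w t ≠ 0) :
    HasDerivAt f (D w f t * w t) t :=
  (hf.differentiableAt (by simp)).hasDerivAt.congr_deriv (div_mul_cancel₀ _ h).symm

lemma D_sm {w f : ℝ → ℝ} {t : ℝ} (hf : ContDiffAt ℝ ((⊤ : ℕ∞) : WithTop ℕ∞) f t) (hw : ContDiffAt ℝ ((⊤ : ℕ∞) : WithTop ℕ∞) w t)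
    (h : w t ≠ 0) : ContDiffAt ℝ ((⊤ : ℕ∞) : WithTop ℕ∞) (D w f) t :=
  (hf.derivWithin (by simp)).div hw h

def U (γ : ℝ → V) (ψ : ℝ → ℝ) (t : ℝ) : Prop := kk γ t ≠ 0 ∧ kk γ (ψ t) ≠ 0

lemma Op.Uo (h : Op γ ψ) {a : ℝ} (ha : U γ ψ a) : ∀ᶠ t in 𝓝 a, U γ ψ t :=
  (h.ksm.continuous.continuousAt.eventually_ne ha.1).and
    ((h.ksm.continuous.comp h.ct).continuousAt.eventually_ne ha.2)

lemma Op.omp (h : Op γ ψ) {t : ℝ} (ht : kk γ t ≠ 0) : 0 < om γ ψ t :=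
  div_pos (lt_of_le_of_ne (h.knn t) ht.symm) (pow_pos (h.Wp t) 2)

lemma Op.Pp (h : Op γ ψ) {t : ℝ} (ht : kk γ t ≠ 0) : 0 < PP γ ψ t :=
  div_pos (lt_of_le_of_ne (h.knn t) ht.symm) (pow_pos (h.Wp t) 3)

lemma Op.jet0 (h : Op γ ψ) {a : ℝ} (ha : U γ ψ a) {w P R E : ℝ → ℝ} (hw : w = om γ ψ)
    (hP : P = PP γ ψ) (hR : R = fun t => -PP γ ψ (ψ t)) (hE : E = fun t => 1 / P t - 1 / R t)
    {e1 : ℝ} (he : e1 = -D w P a / P a ^ 2 + D w R a / R a ^ 2) :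
    R a * D w R a * P a = R a * (P a * D w P a) ∧
    3 * P a * (R a * (D w R a ^ 3 + 4 * R a * D w R a * D w (D w R) a + 19 * E a * R a ^ 2 * D w R a +
      R a ^ 2 * D w (D w (D w R)) a + 3 * e1 * R a ^ 3) * P a -
      R a * (P a * (D w P a ^ 3 + 4 * P a * D w P a * D w (D w P) a + 19 * E a * P a ^ 2 * D w P a +
      P a ^ 2 * D w (D w (D w P)) a + 3 * e1 * P a ^ 3))) =
    10 * (P a * D w P a) * (R a * (D w R a ^ 2 + R a * D w (D w R) a + 3 * E a * R a ^ 2) * P a -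
      R a * (P a * (D w P a ^ 2 + P a * D w (D w P) a + 3 * E a * P a ^ 2))) := by
  have o1 : ∀ t, U γ ψ t → 0 < w t := fun t ht => hw ▸ h.omp ht.1
  have o2 : ∀ t, U γ ψ t → ContDiffAt ℝ ((⊤ : ℕ∞) : WithTop ℕ∞) w t := fun t ht => hw ▸ h.omsm ht.2
  have p1 : ∀ t, U γ ψ t → ContDiffAt ℝ ((⊤ : ℕ∞) : WithTop ℕ∞) P t ∧ P t ≠ 0 := fun t ht =>
    hP ▸ ⟨h.Psm ht.2, (h.Pp ht.1).ne'⟩
  have p2 : ∀ t, U γ ψ t → ContDiffAt ℝ ((⊤ : ℕ∞) : WithTop ℕ∞) R t ∧ R t ≠ 0 := fun t ht =>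
    hR ▸ ⟨(h.Qsm ht.1 ht.2).neg, neg_ne_zero.2 (h.Pp ht.2).ne'⟩
  set c : ℝ → ℝ := fun t => dt (gg γ ψ t) (dd γ ψ a) with hc
  have ca : c a = 1 := h.gd a
  have cd : ∀ t, U γ ψ t → HasDerivAt c (dt (dd γ ψ t) (dd γ ψ a) * w t) t := fun t ht =>
    (hdr _ (h.fr4 ht.1 ht.2)).congr_deriv (by rw [dt_sl, hw, mul_comm])
  have cp : ∀ᶠ t in 𝓝 a, 0 < c t := (cd a ha).continuousAt.eventually (lt_mem_nhds (by rw [ca]; norm_num))
  have dE : HasDerivAt E (e1 * w a) a := by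
    rw [hE]
    refine (((hasDerivAt_const a 1).div (D_hd (p1 a ha).1 (o1 a ha).ne') (p1 a ha).2).sub
      ((hasDerivAt_const a 1).div (D_hd (p2 a ha).1 (o1 a ha).ne') (p2 a ha).2)).congr_deriv ?_
    rw [he]; ring
  have key : ∀ (p : ℝ → ℝ) (η : ℝ → V), (∀ t, U γ ψ t → ContDiffAt ℝ ((⊤ : ℕ∞) : WithTop ℕ∞) p t ∧ p t ≠ 0) →
      (∀ t, U γ ψ t → HasDerivAt η ((w t / p t) • gg γ ψ t) t) → _ := fun p η hp hη =>
    arc (ω := w) (B := fun t => dt (gg γ ψ a) (η t - η a)) (s := fun t => dt (gg γ ψ a) (gg γ ψ t))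
      (s1 := fun t => dt (gg γ ψ a) (dd γ ψ t)) (c := c) (c1 := fun t => dt (dd γ ψ t) (dd γ ψ a))
      (E := E) (p := p) (p1 := D w p) (p2 := D w (D w p)) (p3 := D w (D w (D w p)) a) (e1 := e1)
      (a := a) (by
        filter_upwards [h.Uo ha, cp] with t ht c0
        refine ⟨(hdl _ ((hη t ht).sub_const _)).congr_deriv (by rw [dt_sr]; ring),
          (hdl _ (h.fr4 ht.1 ht.2)).congr_deriv (by rw [dt_sr, hw, mul_comm]), cd t ht,
          (hdr _ (h.fr3 ht.1 ht.2)).congr_deriv ?_, D_hd (hp t ht).1 (o1 t ht).ne',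
          D_hd (D_sm (hp t ht).1 (o2 t ht) (o1 t ht).ne') (o1 t ht).ne', ?_, (hp t ht).2, c0.ne'⟩
        · rw [dt_sl, hE, hP, hR, hw]; simp only [hc]; ring
        · have g1 := h.gd t
          have g2 := h.gd a
          simp only [hc, dt] at g1 g2 ⊢
          linear_combination ((gg γ ψ a).1 * (dd γ ψ a).2 - (gg γ ψ a).2 * (dd γ ψ a).1) * g1 + g2)
      (D_hd (D_sm (D_sm (hp a ha).1 (o2 a ha) (o1 a ha).ne') (o2 a ha) (o1 a ha).ne') (o1 a ha).ne')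
      dE ca (dt_self _)
  have η1 : ∀ t, U γ ψ t → HasDerivAt γ ((w t / P t) • gg γ ψ t) t := fun t ht => by
    rw [hw, hP]; exact h.fr1 ht.1
  have η2 : ∀ t, U γ ψ t → HasDerivAt (fun t => γ (ψ t)) ((w t / R t) • gg γ ψ t) t := fun t ht => by
    rw [hw, hR]; exact h.fr2 ht.2
  obtain ⟨F1, F2, F3, F4, hF, f1, f2, f3, f4⟩ := key P γ p1 η1
  obtain ⟨G1, G2, G3, G4, hG, g1, g2, g3, g4⟩ := key R _ p2 η2
  set A1 : ℝ → ℝ := fun t => dt (γ t - γ a) (dd γ ψ a) with hA1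
  set A2 : ℝ → ℝ := fun t => dt (γ (ψ t) - γ a) (dd γ ψ a) with hA2
  have a1 : ∀ t, U γ ψ t → HasDerivAt A1 (c t / P t * w t) t := fun t ht =>
    (hdr _ ((η1 t ht).sub_const _)).congr_deriv (by rw [dt_sl]; simp only [hc]; ring)
  have a2 : ∀ t, U γ ψ t → HasDerivAt A2 (c t / R t * w t) t := fun t ht =>
    (hdr _ ((η2 t ht).sub_const _)).congr_deriv (by rw [dt_sl]; simp only [hc]; ring)
  have s2 : ContDiffAt ℝ 1 A2 a := by
    have := ((h.sm.contDiffAt.comp a (h.ps a ha.2)).sub (contDiffAt_const (c := γ a))).of_le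
      (show (1 : WithTop ℕ∞) ≤ ((⊤ : ℕ∞) : WithTop ℕ∞) by simp)
    exact (this.fst.mul contDiffAt_const).sub (this.snd.mul contDiffAt_const)
  obtain ⟨ι, i1, i2, i3, -⟩ := loc_inv one_ne_zero s2 (a2 a ha)
    (mul_ne_zero (div_ne_zero (by rw [ca]; norm_num) (p2 a ha).2) (o1 a ha).ne')
  have e0 : A2 a = A1 a := by
    simp only [hA1, hA2, sub_self]
    exact (dt_self _).trans (by simp [dt])
  rw [e0] at i1 i2 i3
  have t1 := (a1 a ha).continuousAt.tendsto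
  have t2 : Tendsto (ι ∘ A1) (𝓝 a) (𝓝 a) := by
    have := i1.continuousAt.tendsto.comp t1
    rwa [i2] at this
  have ev : ∀ᶠ t in 𝓝 a, A2 ((ι ∘ A1) t) = A1 t := t1.eventually i3
  have hG' := hG.comp (w := fun t => c t / P t * w t) (ρ := ι ∘ A1) i2 (by
    filter_upwards [h.Uo ha, t2.eventually (h.Uo ha), ev.eventually_nhds,
      t1.eventually (i1.eventually (by simp))] with t b1 b2 b3 b4
    have r1 := (b4.differentiableAt one_ne_zero).hasDerivAt.comp t (a1 t b1)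
    exact ⟨_, r1, (((a2 _ b2).comp t r1).congr_of_eventuallyEq (b3.mono fun s hs => hs.symm)).unique
      (a1 t b1)⟩)
  have := two_arc hF hG' (by
    filter_upwards [h.Uo ha, cp] with t b1 b2
    exact mul_pos (div_pos b2 (hP ▸ h.Pp b1.1)) (o1 t b1)) (by simp [dt]) (f1.trans (dt_self _))
    (by simp [dt, i2]) (by simp only [comp_apply, i2, g1, dt_self]) (f2 ▸ (p1 a ha).2) (h.lev (by
      have t3 : Tendsto (fun t => γ (ψ ((ι ∘ A1) t)) - γ t) (𝓝 a) (𝓝 (dd γ ψ a)) :=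
        (((h.sm.continuous.comp h.ct).tendsto a).comp t2).sub (h.sm.continuous.tendsto a)
      filter_upwards [ev, t3.eventually_ne (h.dne a)] with t b1 b2
      refine ⟨?_, sub_ne_zero.1 b2⟩
      simp only [hA1, hA2, dt, Prod.fst_sub, Prod.snd_sub] at b1 ⊢
      linarith))
  simp only [comp_apply, i2, f2, f3, f4, g2, g3, g4] at this
  exact this

noncomputable def ZZ (w P Q : ℝ → ℝ) (t : ℝ) : ℝ :=
  3 * ((P t ^ 2 - Q t ^ 2) * D w (D w P) t) - 2 * ((P t + Q t) * D w P t ^ 2) +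
    9 * ((1 / P t + 1 / Q t) * (P t ^ 3 + Q t ^ 3))

lemma Op.jet (h : Op γ ψ) {a : ℝ} (ha : U γ ψ a) :
    HasDerivAt (fun t => PP γ ψ t + PP γ ψ (ψ t)) 0 a ∧
      HasDerivAt (ZZ (om γ ψ) (PP γ ψ) fun t => PP γ ψ (ψ t)) 0 a := by
  set w := om γ ψ with hw
  set P := PP γ ψ with hP
  set R : ℝ → ℝ := fun t => -PP γ ψ (ψ t) with hR
  have e1 : ∀ t, U γ ψ t → D w R t = D w P t := fun t ht => by
    have := (h.jet0 ht hw hP hR rfl rfl).1
    have b1 : P t ≠ 0 := (h.Pp ht.1).ne'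
    have b2 : R t ≠ 0 := neg_ne_zero.2 (h.Pp ht.2).ne'
    field_simp at this
    exact this
  have e2 : ∀ t, U γ ψ t → D w (D w R) t = D w (D w P) t := fun t ht => by
    rw [D, EventuallyEq.deriv_eq ((h.Uo ht).mono e1)]; rfl
  have e3 : D w (D w (D w R)) a = D w (D w (D w P)) a := by
    rw [D, EventuallyEq.deriv_eq ((h.Uo ha).mono e2)]; rfl
  have k := (h.jet0 ha hw hP hR rfl rfl).2
  rw [e1 a ha, e2 a ha, e3] at k
  have o1 := (h.omp ha.1).ne'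
  have o2 := h.omsm ha.2
  have d0 := D_hd (h.Psm ha.2) o1
  have d1 := D_hd (D_sm (h.Psm ha.2) o2 o1) o1
  have d2 := D_hd (D_sm (D_sm (h.Psm ha.2) o2 o1) o2 o1) o1
  have dq : HasDerivAt (fun t => PP γ ψ (ψ t)) (-(D w P a * w a)) a := by
    have := (D_hd (w := w) (f := R) (h.Qsm ha.1 ha.2).neg o1).neg
    rw [e1 a ha] at this
    exact this.congr_of_eventuallyEq (Eventually.of_forall fun t => by simp [hR])
  have b1 : P a ≠ 0 := (h.Pp ha.1).ne'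
  have b2 : P (ψ a) ≠ 0 := (h.Pp ha.2).ne'
  refine ⟨(d0.add dq).congr_deriv (by simp [hP, hw]), ?_⟩
  refine ((((((d0.pow 2).sub (dq.pow 2)).mul d2).const_mul 3).sub (((d0.add dq).mul
    (d1.pow 2)).const_mul 2)).add (((((hasDerivAt_const a 1).div d0 b1).add
    ((hasDerivAt_const a 1).div dq b2)).mul ((d0.pow 3).add (dq.pow 3))).const_mul 9)).congr_deriv ?_
  simp only [hR, ← hP, ← hw, Pi.pow_apply, Pi.add_apply, Pi.sub_apply, Pi.div_apply] at k ⊢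
  generalize D w (D w (D w P)) a = p3 at *
  generalize D w (D w P) a = p2 at *
  generalize D w P a = p1 at *
  generalize P (ψ a) = q at *
  generalize P a = p at *
  field_simp at k ⊢
  linear_combination w a * k

end Pool.Agent.H56.Ov
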