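import Pool.Agent.H56.Ov5

open Set Filter Topology Function

namespace Pool.Agent.H56.Ov

variable {γ : ℝ → V} {ψ : ℝ → ℝ}

lemma Op.ode (h : Op γ ψ) {S : Set ℝ} {a : ℝ} (hS : ∀ t ∈ S, U γ ψ t) (ha : a ∈ S)
    (hc : ∀ f : ℝ → ℝ, (∀ t ∈ S, HasDerivAt f 0 t) → ∀ t ∈ S, f t = f a) :
    ∃ (C C3 : ℝ) (x1 x2 : ℝ → ℝ), 0 < C ∧ ∀ t ∈ S, PP γ ψ t + PP γ ψ (ψ t) = 2 * C ∧
      HasDerivAt (fun t => PP γ ψ t / C - 1) (x1 t * om γ ψ t) t ∧
      HasDerivAt x1 (x2 t * om γ ψ t) t ∧ -1 < PP γ ψ t / C - 1 ∧ PP γ ψ t / C - 1 < 1 ∧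
      3 * (PP γ ψ t / C - 1) * x2 t - x1 t ^ 2 + 36 / C / (1 - (PP γ ψ t / C - 1) ^ 2) = C3 := by
  have k1 := hc _ fun t ht => (h.jet (hS t ht)).1
  have k2 := hc _ fun t ht => (h.jet (hS t ht)).2
  set C := (PP γ ψ a + PP γ ψ (ψ a)) / 2 with hC
  have C0 : 0 < C := by have := h.Pp (hS a ha).1; have := h.Pp (hS a ha).2; positivity
  refine ⟨C, ((ZZ (om γ ψ) (PP γ ψ) (fun t => PP γ ψ (ψ t)) a) + 108 * C ^ 2) / (4 * C ^ 3),
    fun t => D (om γ ψ) (PP γ ψ) t / C, fun t => D (om γ ψ) (D (om γ ψ) (PP γ ψ)) t / C, C0,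
    fun t ht => ?_⟩
  have u := hS t ht
  have o1 := (h.omp u.1).ne'
  have p1 := h.Pp u.1
  have p2 := h.Pp u.2
  have e : PP γ ψ t + PP γ ψ (ψ t) = 2 * C := by rw [k1 t ht, hC]; ring
  refine ⟨e, (((D_hd (h.Psm u.2) o1).div_const C).sub_const 1).congr_deriv (by ring),
    ((D_hd (D_sm (h.Psm u.2) (h.omsm u.2) o1) o1).div_const C).congr_deriv (by ring), ?_, ?_, ?_⟩
  · have := div_pos p1 C0
    linarith
  · have : PP γ ψ t / C < 2 := by rw [div_lt_iff₀ C0]; linarith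
    linarith
  · rw [← k2 t ht, ZZ]
    have e' : C = (PP γ ψ t + PP γ ψ (ψ t)) / 2 := by linarith
    generalize PP γ ψ (ψ t) = q at *
    generalize PP γ ψ t = p at *
    have e2 : 1 - (p / C - 1) ^ 2 = p * q / C ^ 2 := by rw [e']; field_simp; ring
    rw [e2, e']
    field_simp
    ring

lemma Op.Uadd (h : Op γ ψ) (t : ℝ) : U γ ψ (t + 1) ↔ U γ ψ t := by
  simp only [U, kk, h.add, per_deriv h.per _, per_deriv (per_deriv h.per) _]

lemma Oval.kex (h : Oval γ) {a b : ℝ} (h1 : a < b) : ∃ t ∈ Ioo a b, kk γ t ≠ 0 := by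
  by_contra hn
  push Not at hn
  set m := (a + b) / 2 with hm
  have f1 : ∀ s ∈ Ico m b, HasDerivAt (fun s => dt (deriv γ m) (deriv γ s) ^ 2 /
      ip (deriv γ s) (deriv γ s)) 0 s := fun s hs => by
    have k := hn s ⟨by linarith [hs.1], hs.2⟩
    refine (((hdl (deriv γ m) (h.d1 s)).pow 2).div (((hd1 (h.d1 s)).mul (hd1 (h.d1 s))).add
      ((hd2 (h.d1 s)).mul (hd2 (h.d1 s)))) (ip_pos (h.reg s)).ne').congr_deriv ?_
    rw [div_eq_zero_iff]
    left
    simp only [kk, dt, Pi.add_apply, Pi.mul_apply, Pi.pow_apply] at k ⊢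
    linear_combination 2 * ((deriv γ m).1 * (deriv γ s).2 - (deriv γ m).2 * (deriv γ s).1) *
      ((deriv γ m).1 * (deriv γ s).1 + (deriv γ m).2 * (deriv γ s).2) * k
  have f2 : ∀ s ∈ Ico m b, HasDerivAt (fun s => dt (deriv γ m) (γ s - γ m)) 0 s := fun s hs => by
    refine (hdl _ ((h.d0 s).sub_const _)).congr_deriv ?_
    have := const_of f1 hs
    simp only [dt_self, ne_eq, OfNat.ofNat_ne_zero, not_false_eq_true, zero_pow, zero_div,
      div_eq_zero_iff, (ip_pos (h.reg s)).ne', or_false, pow_eq_zero_iff] at this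
    exact this
  have a1 : m < min (m + 1 / 2) ((m + b) / 2) := lt_min (by linarith) (by linarith)
  have a2 := min_le_left (m + 1 / 2) ((m + b) / 2)
  have a3 := min_le_right (m + 1 / 2) ((m + b) / 2)
  have := const_of f2 ⟨a1.le, by linarith⟩
  have p := h.pos m _ (h.inj _ _ a1 (by linarith))
  rw [this] at p
  simp [dt] at p

lemma Op.Uex (h : Op γ ψ) : ∃ t, U γ ψ t := by
  obtain ⟨a, -, ha⟩ := h.kex zero_lt_one
  obtain ⟨δ, d0, H⟩ := Metric.eventually_nhds_iff.1 (h.ksm.continuous.continuousAt.eventually_ne ha)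
  have n : ψ a ≠ ψ (a + δ / 2) := fun e => by
    have := h.two a
    rw [e, h.two] at this
    linarith
  obtain ⟨s, hs, k⟩ := h.kex (inf_lt_sup.2 n)
  obtain ⟨t, ht, rfl⟩ := intermediate_value_uIcc h.ct.continuousOn (Ioo_subset_Icc_self hs)
  rw [uIcc_of_le (by linarith)] at ht
  exact ⟨t, H (by rw [Real.dist_eq, abs_lt]; constructor <;> linarith [ht.1, ht.2]), k⟩

lemma Op.Uall (h : Op γ ψ) (b : ℝ) : U γ ψ b := by
  by_contra hb
  obtain ⟨a, ha⟩ := h.Uex
  have it : ∀ n : ℕ, ¬ U γ ψ (b + n) := fun n => by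
    induction n with
    | zero => simpa using hb
    | succ n ih => push_cast; rwa [← add_assoc, h.Uadd]
  obtain ⟨n, hn⟩ := exists_nat_ge (a - b)
  set Z := {t | a ≤ t ∧ ¬ U γ ψ t} with hZ
  have Zc : IsClosed Z := (isClosed_le continuous_const continuous_id).inter
    (isOpen_iff_mem_nhds.2 fun t ht => h.Uo ht).isClosed_compl
  have Zb : BddBelow Z := ⟨a, fun t ht => ht.1⟩
  have eZ : sInf Z ∈ Z := Zc.csInf_mem ⟨b + n, by linarith, it n⟩ Zb
  set e := sInf Z with he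
  have ae : a < e := lt_of_le_of_ne eZ.1 fun e' => eZ.2 (e' ▸ ha)
  have p1 : ∀ t ∈ Ico a e, U γ ψ t := fun t ht => by
    by_contra hh
    exact absurd (csInf_le Zb ⟨ht.1, hh⟩) (not_le.2 ht.2)
  obtain ⟨C, C3, x1, x2, C0, H⟩ := h.ode p1 ⟨le_rfl, ae⟩ fun f hf t ht => const_of hf ht
  have le : PP γ ψ e + PP γ ψ (ψ e) = 2 * C := tendsto_nhds_unique
    (((h.Pc.add (h.Pc.comp h.ct)).tendsto e).mono_left (nhdsWithin_le_nhds (s := Iio e)))
    (tendsto_const_nhds.congr' (Filter.mem_of_superset (Ico_mem_nhdsLT ae) fun t ht =>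
      (H t ht).1.symm))
  have xc : Continuous fun t => PP γ ψ t / C - 1 := (h.Pc.div_const C).sub continuous_const
  rcases not_and_or.1 eZ.2 with k | k
  · refine blow (x := fun t => -(PP γ ψ t / C - 1)) (x1 := fun t => -x1 t) (x2 := fun t => -x2 t)
      (ω := om γ ψ) (C := C3) ae (show 0 < 36 / C by positivity) xc.neg
      (by simp [PP, not_not.1 k]) fun t ht => ?_
    obtain ⟨-, a1, a2, a3, -, a5⟩ := H t ht
    exact ⟨a1.neg.congr_deriv (by ring), a2.neg.congr_deriv (by ring), by linarith,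
      by rw [← a5]; ring⟩
  · refine blow (x1 := x1) (x2 := x2) (ω := om γ ψ) (C := C3) ae (show 0 < 36 / C by positivity) xc
      ?_ fun t ht => ?_
    · rw [show PP γ ψ (ψ e) = 0 by simp [PP, not_not.1 k], add_zero] at le
      rw [le]; field_simp; ring
    · obtain ⟨-, a1, a2, -, a4, a5⟩ := H t ht
      exact ⟨a1, a2, a4, a5⟩

lemma rad {x x1 x2 ω c r : ℝ → ℝ} {a β C m : ℝ} (hβ : 0 < β) (hω : ∀ t, 0 < ω t) (hm : 0 < m)
    (h : ∀ t, HasDerivAt x (x1 t * ω t) t ∧ HasDerivAt x1 (x2 t * ω t) t ∧ x t ^ 2 < 1 ∧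
      3 * x t * x2 t - x1 t ^ 2 + β / (1 - x t ^ 2) = C) (h0 : x a = 0) (h1 : x (a + 1) = 0)
    (hc : ∀ t, HasDerivAt c (r t) t ∧ ω (c t) * r t * (1 - x t ^ 2) = m * ω t ∧
      (1 - x t ^ 2) * (1 - x (c t) ^ 2) = m ^ 2) (t : ℝ) : x t = 0 := by
  set S := x (c a) ^ 2 with hS
  have e1 : 1 - S = m ^ 2 := by have := (hc a).2.2; rw [h0] at this; linarith
  have S1 : S < 1 := (h _).2.2.1
  have le : ∀ t, x t ^ 2 ≤ S := fun t => by
    have := (hc t).2.2
    nlinarith [(h t).2.2.1, sq_nonneg (x (c t))]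
  by_contra hn
  have S0 : 0 < S := (sq_pos_of_ne_zero hn).trans_le (le t)
  have dy : ∀ t, HasDerivAt (fun t => x (c t)) (x1 (c t) * ω (c t) * r t) t := fun t =>
    (h _).1.comp t (hc t).1
  have r1 : ∀ t, x t * x1 t * (1 - x (c t) ^ 2) + m * (x (c t) * x1 (c t)) = 0 := fun t => by
    have d := (((h t).1.pow 2).const_sub 1).mul (((dy t).pow 2).const_sub 1)
    have z : ((fun s => 1 - (x ^ 2) s) * fun s => 1 - ((fun t => x (c t)) ^ 2) s) = fun _ => m ^ 2 :=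
      funext fun s => (hc s).2.2
    rw [z] at d
    have := d.unique (hasDerivAt_const t _)
    simp only [Pi.pow_apply] at this
    apply mul_left_cancel₀ (hω t).ne'
    linear_combination -(1 / 2) * this - x (c t) * x1 (c t) * (hc t).2.1
  have y0 : x (c a) ≠ 0 := fun e => by rw [hS, e] at S0; simp at S0
  have y1 : x1 (c a) = 0 := by
    have := r1 a
    rw [h0] at this
    simpa [hm.ne', y0] using this
  have d := (((h a).1.mul (h a).2.1).mul (((dy a).pow 2).const_sub 1)).add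
    (((dy a).mul ((h _).2.1.comp a (hc a).1)).const_mul m)
  have z : ((x * x1 * fun s => 1 - ((fun t => x (c t)) ^ 2) s) +
      fun y => m * ((fun t => x (c t)) * x1 ∘ c) y) = fun _ => 0 := funext r1
  rw [z] at d
  have r2 := d.unique (hasDerivAt_const a _)
  have r3 := (hc a).2.1
  simp only [Pi.pow_apply, Pi.mul_apply, comp_apply, h0, y1, ← hS, e1] at r2 r3
  have r4 : x (c a) * x2 (c a) = -x1 a ^ 2 := by
    apply mul_left_cancel₀ (mul_pos (pow_pos hm 2) (hω a)).ne'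
    linear_combination r2 - m * x (c a) * x2 (c a) * r3
  have o1 := (h a).2.2.2
  have o2 := (h (c a)).2.2.2
  rw [h0] at o1
  rw [y1, ← hS] at o2
  have hC : C = β - x1 a ^ 2 := by rw [← o1]; ring
  have r5 : 2 * x1 a ^ 2 * (1 - S) = β * S := by
    have n : 1 - S ≠ 0 := by linarith
    have : β / (1 - S) = β + 2 * x1 a ^ 2 := by linarith
    rw [div_eq_iff n] at this
    linarith
  rcases lt_trichotomy (x1 a) 0 with q | q | q
  · exact final (x := fun t => -x t) (x1 := fun t => -x1 t) (x2 := fun t => -x2 t) (a := a) hβ hω S1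
      (fun t => ⟨(h t).1.neg.congr_deriv (by ring), (h t).2.1.neg.congr_deriv (by ring),
        by simpa using le t, by rw [neg_sq, neg_sq, neg_sq, ← hC, ← (h t).2.2.2]; ring⟩)
      (by simp [h0]) (by simp [h1]) (by simpa using q) (by simpa using r5)
  · rw [q] at r5
    nlinarith
  · exact final hβ hω S1 (fun t => ⟨(h t).1, (h t).2.1, le t, hC ▸ (h t).2.2.2⟩) h0 h1 q r5

end Pool.Agent.H56.Ov
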