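import Pool.Agent.H56.Ov6

open Set Filter Topology Function

namespace Pool.Agent.H56.Ov

variable {γ : ℝ → V} {ψ : ℝ → ℝ}

lemma cst {F : Type} [NormedAddCommGroup F] [NormedSpace ℝ F] {f : ℝ → F}
    (h : ∀ t, HasDerivAt f 0 t) (s t : ℝ) : f s = f t :=
  is_const_of_deriv_eq_zero (fun t => (h t).differentiableAt) (fun t => (h t).deriv) s t

lemma Op.sym (h : Op γ ψ) : ∃ C : ℝ, 0 < C ∧ ∀ t, PP γ ψ t = C := by
  obtain ⟨C, C3, x1, x2, C0, H⟩ := h.ode (S := univ) (a := 0) (fun t _ => h.Uall t) trivial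
    fun f hf t _ => cst (fun t => hf t trivial) t 0
  simp only [mem_univ, forall_const] at H
  set x : ℝ → ℝ := fun t => PP γ ψ t / C - 1 with hx
  have xc : Continuous x := (h.Pc.div_const C).sub continuous_const
  have xP : ∀ t, PP γ ψ t = C * (1 + x t) := fun t => by simp only [hx]; field_simp; ring
  have xo : ∀ t, x (ψ t) = -x t := fun t => by
    have := (H t).1
    rw [xP, xP] at this
    apply mul_left_cancel₀ C0.ne'
    linarith
  have x1' : ∀ t, x t ^ 2 < 1 := fun t => by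
    have a1 : -1 < x t := (H t).2.2.2.1
    have a2 : x t < 1 := (H t).2.2.2.2.1
    nlinarith
  obtain ⟨a, ha⟩ : ∃ a, x a = 0 := by
    obtain ⟨a, -, ha⟩ := intermediate_value_uIcc (a := 0) (b := ψ 0) xc.continuousOn
      (show (0:ℝ) ∈ _ by
        rw [xo, mem_uIcc]
        rcases le_total (x 0) 0 with h | h
        · left; constructor <;> linarith
        · right; constructor <;> linarith)
    exact ⟨a, ha⟩
  obtain ⟨c, -, c2, c3⟩ := h.tan_fun h.dc h.dne fun t a _ e => by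
    have := h.Wp t
    rw [WW, e, dt_sr, dt_self] at this
    simp at this
  have cd : ∀ t, HasDerivAt c (deriv c t) t := fun t =>
    ((c3 t (h.Uall _).1 (h.dsm (h.Uall t).2)).differentiableAt (by simp)).hasDerivAt
  have hE : ∀ t, 1 / PP γ ψ t + 1 / PP γ ψ (ψ t) = 2 / C / (1 - x t ^ 2) := fun t => by
    have a1 : 1 + x t ≠ 0 := by have : -1 < x t := (H t).2.2.2.1; linarith
    have a2 : 1 - x t ≠ 0 := by have : x t < 1 := (H t).2.2.2.2.1; linarith
    rw [xP, xP, xo, show 1 - x t ^ 2 = (1 + x t) * (1 - x t) by ring, ← sub_eq_add_neg]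
    field_simp
    ring
  have dg := fun t => h.fr4 (h.Uall t).1 (h.Uall t).2
  have dd' := fun t => h.fr3 (h.Uall t).1 (h.Uall t).2
  simp only [hE] at dd'
  set μ : ℝ → ℝ := fun t => dt (gg γ ψ t) (gg γ ψ (c t)) with hμ
  have m1 : ∀ t, 0 < μ t ∧ gg γ ψ (c t) = μ t • dd γ ψ t := fun t => by
    obtain ⟨l, l0, e⟩ := (c2 t).2
    have e1 : gg γ ψ (c t) = ((WW γ ψ (c t))⁻¹ * l⁻¹) • dd γ ψ t := by
      rw [e, mul_smul, inv_smul_smul₀ l0.ne', gg]
    have e2 : μ t = (WW γ ψ (c t))⁻¹ * l⁻¹ := by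
      simp only [hμ]; rw [e1, dt_sr, h.gd, mul_one]
    have := h.Wp (c t)
    exact ⟨by rw [e2]; positivity, by rw [e2, e1]⟩
  have m2 : ∀ t, dd γ ψ (c t) = (-(μ t)⁻¹) • gg γ ψ t := fun t => by
    obtain ⟨l, l0, e⟩ := (c2 t).2
    have e1 := par (h.gne t) (h.radon l0 e)
    have e2 := h.gd (c t)
    rw [(m1 t).2, e1, dt_sl, dt_sr, dt_comm, h.gd] at e2
    rw [e1]
    congr 1
    have := (m1 t).1.ne'
    generalize ip (gg γ ψ t) (dd γ ψ (c t)) / ip (gg γ ψ t) (gg γ ψ t) = z at *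
    field_simp
    linarith
  have m3 : ∀ t, μ t = μ 0 := fun t => cst (fun t => (hdt (dg t) ((dg _).scomp t (cd t))).congr_deriv (by
    simp only [comp_apply]
    rw [(m1 t).2, m2]
    simp only [dt_sl, dt_sr, dt_self, mul_zero, add_zero])) t 0
  have m4 : ∀ t, om γ ψ (c t) * deriv c t * (1 - x t ^ 2) = μ t ^ 2 * (2 / C) * om γ ψ t := fun t => by
    have d := hdt ((dg _).scomp t (cd t)) (dd' t)
    have z : (fun s => dt ((gg γ ψ ∘ c) s) (dd γ ψ s)) = fun _ => 0 := funext fun s => by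
      rw [comp_apply, (m1 s).2, dt_sl, dt_self, mul_zero]
    rw [z] at d
    have := d.unique (hasDerivAt_const t _)
    rw [comp_apply, (m1 t).2, m2] at this
    simp only [dt_sl, dt_sr, h.gd, dt_comm (dd γ ψ t) (gg γ ψ t)] at this
    have n1 := (m1 t).1.ne'
    have n2 : 1 - x t ^ 2 ≠ 0 := by linarith [x1' t]
    field_simp at this ⊢
    linarith
  have m5 : ∀ t, (1 - x t ^ 2) * (1 - x (c t) ^ 2) = (μ t ^ 2 * (2 / C)) ^ 2 := fun t => by
    have d := hdt (dg t) ((dd' _).scomp t (cd t))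
    have z : (fun s => dt (gg γ ψ s) ((dd γ ψ ∘ c) s)) = fun _ => 0 := funext fun s => by
      rw [comp_apply, m2 s, dt_sr, dt_self, mul_zero]
    rw [z] at d
    have := d.unique (hasDerivAt_const t _)
    rw [comp_apply, (m1 t).2, m2] at this
    simp only [dt_sl, dt_sr, h.gd, dt_comm (dd γ ψ t) (gg γ ψ t)] at this
    have n1 := (m1 t).1.ne'
    have n2 : 1 - x (c t) ^ 2 ≠ 0 := by linarith [x1' (c t)]
    have n3 := (h.omp (h.Uall t).1).ne'
    have k := m4 t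
    field_simp at this k ⊢
    apply mul_left_cancel₀ n3
    linear_combination (1 - x t ^ 2) * C * this + 2 * μ t ^ 2 * k
  simp only [m3] at m4 m5
  have := rad (x := x) (c := c) (a := a) (show 0 < 36 / C by positivity)
    (fun t => h.omp (h.Uall t).1) (show 0 < μ 0 ^ 2 * (2 / C) by have := (m1 0).1; positivity)
    (fun t => ⟨(H t).2.1, (H t).2.2.1, x1' t, (H t).2.2.2.2.2⟩) ha
    (by simp only [hx, h.Pper]; exact ha) fun t => ⟨cd t, m4 t, m5 t⟩
  exact ⟨C, C0, fun t => by rw [xP, this]; ring⟩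

lemma aff (m e1 e2 : V) (h : dt e1 e2 ≠ 0) :
    ∃ A : V ≃ᵃ[ℝ] V, ∀ p, A p = m + (p.1 • e1 + p.2 • e2) := by
  let L : V ≃ₗ[ℝ] V :=
    { toFun := fun p => p.1 • e1 + p.2 • e2
      map_add' := fun p q => by simp only [Prod.fst_add, Prod.snd_add, add_smul]; abel
      map_smul' := fun a p => by simp [smul_smul]
      invFun := fun y => (dt y e2 / dt e1 e2, dt e1 y / dt e1 e2)
      left_inv := fun p => by
        ext <;> simp only [div_eq_iff h] <;> simp [dt] <;> ring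
      right_inv := fun y => by
        ext <;> simp only [Prod.fst_add, Prod.snd_add, Prod.smul_fst, Prod.smul_snd, smul_eq_mul] <;>
          field_simp <;> simp only [dt] <;> ring }
  exact ⟨L.toAffineEquiv.trans (AffineEquiv.constVAdd ℝ V m), fun p => rfl⟩

lemma Op.ell (h : Op γ ψ) : ∃ A : V ≃ᵃ[ℝ] V, (∀ t, γ t ∈ A '' {p : V | p.1 ^ 2 + p.2 ^ 2 = 1}) ∧
    A 0 = (1 / 2 : ℝ) • γ 0 + (1 / 2 : ℝ) • γ (ψ 0) := by
  obtain ⟨C, C0, hC⟩ := h.sym
  have dg := fun t => h.fr4 (h.Uall t).1 (h.Uall t).2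
  have dd' := fun t => h.fr3 (h.Uall t).1 (h.Uall t).2
  have d0 := fun t => h.fr1 (h.Uall t).1
  simp only [hC] at dd' d0
  have k0 : ∀ t, γ t + (1 / 2 : ℝ) • dd γ ψ t = γ 0 + (1 / 2 : ℝ) • dd γ ψ 0 := fun t =>
    cst (fun t => ((d0 t).add ((dd' t).const_smul (1 / 2 : ℝ))).congr_deriv (by
      rw [smul_smul, ← add_smul, show om γ ψ t / C + 1 / 2 * -((1 / C + 1 / C) * om γ ψ t) = 0 by ring,
        zero_smul])) t 0
  have k1 : ∀ (u : V) t, dt u (dd γ ψ t) ^ 2 + 2 / C * dt u (gg γ ψ t) ^ 2 =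
      dt u (dd γ ψ 0) ^ 2 + 2 / C * dt u (gg γ ψ 0) ^ 2 := fun u t =>
    cst (fun t => (((hdl u (dd' t)).pow 2).add (((hdl u (dg t)).pow 2).const_mul (2 / C))).congr_deriv
      (by simp only [dt_sr]; ring)) t 0
  set e := Real.sqrt (2 / C) with he
  have e0 : 0 < e := Real.sqrt_pos.2 (by positivity)
  have e2 : e ^ 2 = 2 / C := Real.sq_sqrt (by positivity)
  obtain ⟨A, hA⟩ := aff (γ 0 + (1 / 2 : ℝ) • dd γ ψ 0) ((e / 2) • gg γ ψ 0) ((-1 / 2 : ℝ) • dd γ ψ 0)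
    (by rw [dt_sl, dt_sr, h.gd]; have := e0.ne'; simp [this])
  refine ⟨A, fun t => ⟨(dt (dd γ ψ 0) (dd γ ψ t) / e, dt (gg γ ψ 0) (dd γ ψ t)), ?_, ?_⟩, ?_⟩
  · have a1 := k1 (dd γ ψ 0) t
    have a2 := k1 (gg γ ψ 0) t
    rw [dt_self, dt_comm (dd γ ψ 0) (gg γ ψ 0), h.gd, ← e2] at a1
    rw [dt_self, h.gd, ← e2] at a2
    have a3 : dt (gg γ ψ 0) (gg γ ψ t) * dt (dd γ ψ 0) (dd γ ψ t) -
        dt (dd γ ψ 0) (gg γ ψ t) * dt (gg γ ψ 0) (dd γ ψ t) = 1 := by
      have g1 := h.gd t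
      have g2 := h.gd 0
      simp only [dt] at g1 g2 ⊢
      linear_combination ((gg γ ψ 0).1 * (dd γ ψ 0).2 - (gg γ ψ 0).2 * (dd γ ψ 0).1) * g1 + g2
    simp only [mem_ofPred_eq]
    generalize dt (gg γ ψ 0) (gg γ ψ t) = s at *
    generalize dt (dd γ ψ 0) (dd γ ψ t) = c1 at *
    generalize dt (dd γ ψ 0) (gg γ ψ t) = c at *
    generalize dt (gg γ ψ 0) (dd γ ψ t) = s1 at *
    have z : e ^ 2 * (c + s1) ^ 2 + (c1 - e ^ 2 * s) ^ 2 = 0 := by
      linear_combination a1 + e ^ 2 * a2 - 2 * e ^ 2 * a3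
    have z2 : c1 - e ^ 2 * s = 0 := by nlinarith [sq_nonneg (c + s1), sq_nonneg e]
    rw [show c1 = e ^ 2 * s by linarith]
    field_simp
    linarith
  · rw [hA, ← k0 t]
    have g2 := h.gd 0
    have := e0.ne'
    ext
    · simp only [dt, Prod.fst_add, Prod.smul_fst, smul_eq_mul] at g2 ⊢
      field_simp
      linear_combination -(dd γ ψ t).1 * g2
    · simp only [dt, Prod.snd_add, Prod.smul_snd, smul_eq_mul] at g2 ⊢
      field_simp
      linear_combination -(dd γ ψ t).2 * g2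
  · rw [hA, dd]
    simp only [Prod.fst_zero, Prod.snd_zero, zero_smul, add_zero]
    module

end Pool.Agent.H56.Ov
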