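import Pool.Agent.H56.Ov7

open Set Filter Topology Function

namespace Pool.Agent.H56.Ov

variable {K : Set V}

lemma mid (hs : StrictConvex ℝ K) {x u : V} (hu : u ≠ 0) {p q r : ℝ} (h1 : p < q) (h2 : q < r)
    (hp : x + p • u ∈ K) (hr : x + r • u ∈ K) : x + q • u ∈ interior K := by
  have n : r - p ≠ 0 := by linarith
  have := hs hp hr (fun e => n (by
    have := smul_left_injective ℝ hu (add_left_cancel e)
    linarith)) (show 0 < (r - q) / (r - p) from div_pos (by linarith) (by linarith))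
    (show 0 < (q - p) / (r - p) from div_pos (by linarith) (by linarith)) (by field_simp; ring)
  have e : ((r - q) / (r - p)) • (x + p • u) + ((q - p) / (r - p)) • (x + r • u) = x + q • u := by
    ext <;> simp only [Prod.fst_add, Prod.snd_add, Prod.smul_fst, Prod.smul_snd, smul_eq_mul] <;>
      field_simp <;> ring
  rwa [e] at this

lemma ch_uniq (hK : IsClosed K) (hs : StrictConvex ℝ K) {u x y z : V} (hu : u ≠ 0)
    (hx : x ∈ frontier K) (h1 : Ch (frontier K) u x y) (h2 : Ch (frontier K) u x z) : y = z := by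
  obtain ⟨y1, ⟨a, rfl⟩, y2⟩ := h1
  obtain ⟨z1, ⟨b, rfl⟩, z2⟩ := h2
  by_cases ha : a = 0
  · rw [y2 (by simp [ha]) b z1, ha]
  by_cases hb : b = 0
  · rw [z2 (by simp [hb]) a y1, hb]
  have x0 : x + (0:ℝ) • u ∈ frontier K := by simpa using hx
  have key : ∀ a b : ℝ, a ≠ 0 → b ≠ 0 → x + a • u ∈ frontier K → x + b • u ∈ frontier K → ¬ a < b := by
    intro a b ha hb h1 h2 h
    rcases lt_or_gt_of_ne ha with a0 | a0
    · rcases lt_or_gt_of_ne hb with b0 | b0
      · exact h2.2 (mid hs hu h b0 (hK.frontier_subset h1) (hK.frontier_subset x0))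
      · exact x0.2 (mid hs hu a0 b0 (hK.frontier_subset h1) (hK.frontier_subset h2))
    · exact h1.2 (mid hs hu a0 h (hK.frontier_subset x0) (hK.frontier_subset h2))
  rw [le_antisymm (not_lt.1 (key b a hb ha z1 y1)) (not_lt.1 (key a b ha hb y1 z1))]

lemma side (hK : IsClosed K) (hs : StrictConvex ℝ K) {γ : ℝ → V} (hd : Differentiable ℝ γ)
    (reg : ∀ t, deriv γ t ≠ 0) (rng : range γ = frontier K) {o : V} (ho : o ∈ interior K) (t : ℝ)
    {x : V} (hx : x ∈ K) (hn : x ≠ γ t) :
    0 < dt (deriv γ t) (x - γ t) * dt (deriv γ t) (o - γ t) := by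
  have m : ∀ s, γ s ∈ frontier K := fun s => rng ▸ mem_range_self s
  obtain ⟨l, hl⟩ := geometric_hahn_banach_open_point hs.convex.interior isOpen_interior (m t).2
  have lt : ∀ x ∈ K, x ≠ γ t → l (x - γ t) < 0 := fun x hx hn => by
    have := hl _ (hs hx (hK.frontier_subset (m t)) hn one_half_pos one_half_pos (by norm_num))
    simp only [map_add, map_smul, smul_eq_mul] at this
    rw [map_sub]; linarith
  have z : l (deriv γ t) = 0 := by
    apply IsLocalMax.hasDerivAt_eq_zero _ (l.hasFDerivAt.comp_hasDerivAt t (hd t).hasDerivAt)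
    refine Eventually.of_forall fun s => ?_
    by_cases e : γ s = γ t
    · simp [e]
    · have := lt _ (hK.frontier_subset (m s)) e
      rw [map_sub] at this
      simp only [comp_apply]; linarith
  have e : ∀ y : V, l y = y.1 * l (1, 0) + y.2 * l (0, 1) := fun y => by
    rw [← smul_eq_mul, ← smul_eq_mul, ← map_smul, ← map_smul, ← map_add]; simp
  have e2 : ∀ y : V, ip (deriv γ t) (deriv γ t) * l y =
      (l (0, 1) * (deriv γ t).1 - l (1, 0) * (deriv γ t).2) * dt (deriv γ t) y := fun y => by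
    rw [e] at z
    rw [e y]
    simp only [ip, dt]
    linear_combination (y.1 * (deriv γ t).1 + y.2 * (deriv γ t).2) * z
  have p := ip_pos (reg t)
  have a1 := mul_neg_of_pos_of_neg p (lt x hx hn)
  have a2 := mul_neg_of_pos_of_neg p (lt o (interior_subset ho) fun e => (m t).2 (e ▸ ho))
  rw [e2] at a1 a2
  have := mul_pos_of_neg_of_neg a1 a2
  by_contra hh
  nlinarith [mul_self_nonneg (l (0, 1) * (deriv γ t).1 - l (1, 0) * (deriv γ t).2)]

lemma fill (hK : IsCompact K) (A : V ≃ᵃ[ℝ] V) (h0 : A 0 ∈ interior K)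
    (h : frontier K ⊆ A '' {p : V | p.1 ^ 2 + p.2 ^ 2 = 1}) :
    frontier K = A '' {p : V | p.1 ^ 2 + p.2 ^ 2 = 1} := by
  refine h.antisymm ?_
  rintro _ ⟨p, hp, rfl⟩
  have hp' : p.1 ^ 2 + p.2 ^ 2 = 1 := hp
  have e : ∀ r : ℝ, A (r • p) = A 0 + r • (A p - A 0) := fun r => by
    have h1 := A.map_vadd 0 (r • p)
    have h2 := A.map_vadd 0 p
    simp only [vadd_eq_add, add_zero, map_smul] at h1 h2
    rw [h1, h2]; simp [add_comm]
  have n : A p - A 0 ≠ 0 := sub_ne_zero.2 fun e => by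
    rw [A.injective e] at hp'
    simp at hp'
  have c : Continuous fun r : ℝ => A 0 + r • (A p - A 0) := by fun_prop
  obtain ⟨r, r0, hr⟩ : ∃ r : ℝ, 0 ≤ r ∧ A 0 + r • (A p - A 0) ∈ frontier K := by
    by_contra hn
    push Not at hn
    have sub : (fun r : ℝ => A 0 + r • (A p - A 0)) '' Ici 0 ⊆ interior K :=
      (isPreconnected_Ici.image _ c.continuousOn).subset_left_of_subset_union isOpen_interior
        hK.isClosed.isOpen_compl (disjoint_compl_right.mono_left interior_subset) (by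
          rintro _ ⟨r, r0, rfl⟩
          by_contra h2
          simp only [mem_union, mem_compl_iff, not_or, not_not] at h2
          exact hn r r0 ⟨subset_closure h2.2, h2.1⟩) ⟨_, ⟨0, self_mem_Ici, rfl⟩, by simpa using h0⟩
    obtain ⟨M, hM⟩ := isBounded_iff_forall_norm_le.1 hK.isBounded
    have p0 := norm_pos_iff.2 n
    have M0 := hM _ (interior_subset h0)
    have a1 := hM _ (interior_subset (sub ⟨(2 * M + 1) / ‖A p - A 0‖, by
      have := norm_nonneg (A 0)
      exact div_nonneg (by linarith) p0.le, rfl⟩))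
    have a2 := norm_sub_le (A 0 + ((2 * M + 1) / ‖A p - A 0‖) • (A p - A 0)) (A 0)
    rw [add_sub_cancel_left, norm_smul, Real.norm_eq_abs, abs_of_nonneg (by
      have := norm_nonneg (A 0)
      exact div_nonneg (by linarith) p0.le), div_mul_cancel₀ _ p0.ne'] at a2
    linarith
  rw [← e] at hr
  obtain ⟨q, hq, e'⟩ := h hr
  rw [A.injective e'] at hq
  have hq' : (r * p.1) ^ 2 + (r * p.2) ^ 2 = 1 := hq
  have : r = 1 := by
    have : r ^ 2 = 1 := by linear_combination hq' - r ^ 2 * hp'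
    nlinarith
  rwa [this, one_smul] at hr

lemma core (hK : IsCompact K) (hs : StrictConvex ℝ K) {γ : ℝ → V} (h : Oval γ)
    (rng : range γ = frontier K) :
    ∃ A : V ≃ᵃ[ℝ] V, frontier K = A '' {p : V | p.1 ^ 2 + p.2 ^ 2 = 1} := by
  obtain ⟨ψ, h⟩ := h.op
  obtain ⟨A, h1, h2⟩ := h.ell
  have m : ∀ s, γ s ∈ K := fun s => hK.isClosed.frontier_subset (rng ▸ mem_range_self s)
  refine ⟨A, fill hK A ?_ ?_⟩
  · rw [h2]
    exact hs (m _) (m _) (h.ne 0).symm one_half_pos one_half_pos (by norm_num)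
  · rw [← rng]
    rintro _ ⟨t, rfl⟩
    exact h1 t

end Pool.Agent.H56.Ov
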