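import Mathlib

/-! Counting permutations of `Fin n` through the list `(List.range n).permutations'`. -/

namespace Pool.Agent.H56.PermCount

def toL {n : ℕ} (σ : Equiv.Perm (Fin n)) : List ℕ := List.ofFn (fun i => (σ i : ℕ))

theorem toL_getD {n : ℕ} (σ : Equiv.Perm (Fin n)) (i : Fin n) : (toL σ).getD i 0 = σ i := by
  simp [toL, List.getD]

theorem toL_inj {n : ℕ} : Function.Injective (toL (n := n)) := by
  intro σ τ h
  have := List.ofFn_injective h
  ext i
  exact congrFun this i

theorem toL_perm {n : ℕ} (σ : Equiv.Perm (Fin n)) : (toL σ).Perm (List.range n) := by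
  have h1 : toL σ = ((List.finRange n).map σ).map Fin.val := by
    simp [toL, List.ofFn_eq_map]
  have h2 : List.range n = (List.finRange n).map Fin.val := by
    simp
  rw [h1, h2]
  exact (Equiv.Perm.map_finRange_perm σ).map _

theorem nodup_perms (n : ℕ) : ((List.range n).permutations').Nodup :=
  (List.permutations_perm_permutations' _).nodup_iff.1 (List.nodup_permutations _ List.nodup_range)

theorem image_toL (n : ℕ) :
    (Finset.univ : Finset (Equiv.Perm (Fin n))).image toL = ((List.range n).permutations').toFinset := by
  apply Finset.eq_of_subset_of_card_le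
  · intro l hl
    obtain ⟨σ, -, rfl⟩ := Finset.mem_image.1 hl
    simpa using toL_perm σ
  · rw [Finset.card_image_of_injective _ toL_inj, List.toFinset_card_of_nodup (nodup_perms n),
      ← (List.permutations_perm_permutations' _).length_eq, List.length_permutations]
    simp [Fintype.card_perm]

theorem sum_perm {n : ℕ} (g : List ℕ → ℕ) :
    ∑ σ : Equiv.Perm (Fin n), g (toL σ) = (((List.range n).permutations').map g).sum := by
  rw [← List.sum_toFinset _ (nodup_perms n), ← image_toL, Finset.sum_image]
  intro a _ b _ h
  exact toL_inj h

theorem card_perm {n : ℕ} (Q : List ℕ → Bool) :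
    ((Finset.univ : Finset (Equiv.Perm (Fin n))).filter (fun σ => Q (toL σ) = true)).card
      = ((List.range n).permutations').countP Q := by
  rw [Finset.card_filter]
  have := sum_perm (n := n) (fun l => if Q l = true then 1 else 0)
  rw [this]
  induction ((List.range n).permutations') with
  | nil => simp
  | cons a l ih => by_cases h : Q a <;> simp [h, ih, add_comm]

end Pool.Agent.H56.PermCount
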