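import Pool.Agent.H56.Scp1

/-! Plichko spaces: invariance under isomorphisms, separable complemented subspaces,
Hilbert pieces. -/

namespace Pool.Agent.H56.Plk

open Set Topology Pool.Agent.H56.Scp

/-- the Plichko property, with attained norming constants -/
def Pl (Z : Type) [NormedAddCommGroup Z] [NormedSpace ℝ Z] : Prop :=
  ∃ (S : Set Z) (N : Submodule ℝ (Z →L[ℝ] ℝ)) (c : ℝ), 0 < c ∧
    Dense (Submodule.span ℝ S : Set Z) ∧ (∀ x, ∃ f ∈ N, ‖f‖ ≤ 1 ∧ c * ‖x‖ ≤ |f x|) ∧
    ∀ f ∈ N, {s | s ∈ S ∧ f s ≠ 0}.Countable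

variable {Z W : Type} [NormedAddCommGroup Z] [NormedSpace ℝ Z] [NormedAddCommGroup W]
  [NormedSpace ℝ W]

theorem Pl.equiv (h : Pl Z) (e : Z ≃L[ℝ] W) : Pl W := by
  obtain ⟨S, N, c, hc, hS, hN, hcount⟩ := h
  set a := ‖(e.symm : W →L[ℝ] Z)‖ + 1 with ha
  set b := ‖(e : Z →L[ℝ] W)‖ + 1 with hb
  have a0 : 0 < a := by positivity
  have b0 : 0 < b := by positivity
  refine ⟨e '' S, N.comap ((ContinuousLinearMap.compL ℝ Z W ℝ).flip (e : Z →L[ℝ] W)).toLinearMap,
    c / (a * b), by positivity, ?_, fun x => ?_, fun f hf => ?_⟩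
  · have : (Submodule.span ℝ (e '' S) : Set W) = e '' (Submodule.span ℝ S : Set Z) := by
      have := Submodule.map_span (e : Z →ₗ[ℝ] W) S
      exact (congrArg (fun p : Submodule ℝ W => (p : Set W)) this).symm
    rw [this]
    exact e.surjective.denseRange.dense_image e.continuous hS
  · obtain ⟨f, hf, h1, h2⟩ := hN (e.symm x)
    refine ⟨a⁻¹ • f.comp (e.symm : W →L[ℝ] Z), ?_, ?_, ?_⟩
    · have : ((ContinuousLinearMap.compL ℝ Z W ℝ).flip (e : Z →L[ℝ] W))
          (a⁻¹ • f.comp (e.symm : W →L[ℝ] Z)) = a⁻¹ • f := by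
        ext z; simp
      show ((ContinuousLinearMap.compL ℝ Z W ℝ).flip (e : Z →L[ℝ] W)) _ ∈ N
      rw [this]
      exact N.smul_mem _ hf
    · rw [norm_smul, Real.norm_of_nonneg (inv_nonneg.2 a0.le), inv_mul_le_iff₀ a0]
      have := f.opNorm_comp_le (e.symm : W →L[ℝ] Z)
      nlinarith [norm_nonneg (e.symm : W →L[ℝ] Z)]
    · have h3 : ‖x‖ ≤ b * ‖e.symm x‖ := by
        have := (e : Z →L[ℝ] W).le_opNorm (e.symm x)
        simp only [ContinuousLinearEquiv.coe_coe, e.apply_symm_apply] at this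
        nlinarith [norm_nonneg (e.symm x)]
      have : |(a⁻¹ • f.comp (e.symm : W →L[ℝ] Z)) x| = a⁻¹ * |f (e.symm x)| := by
        simp [abs_mul, abs_of_pos a0]
      rw [this, div_mul_eq_mul_div, div_le_iff₀ (by positivity)]
      calc c * ‖x‖ ≤ c * (b * ‖e.symm x‖) := by gcongr
        _ = b * (c * ‖e.symm x‖) := by ring
        _ ≤ b * |f (e.symm x)| := by gcongr
        _ = _ := by field_simp
  · refine ((hcount _ hf).image e).mono ?_
    rintro _ ⟨⟨s, hs, rfl⟩, h⟩
    exact ⟨s, ⟨hs, h⟩, rfl⟩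

theorem Pl.scp [CompleteSpace Z] (h : Pl Z) (Y : Set Z) (hY : TopologicalSpace.IsSeparable Y) :
    ∃ V : Submodule ℝ Z, Y ⊆ V ∧ IsClosed (V : Set Z) ∧ TopologicalSpace.IsSeparable (V : Set Z) ∧
      ∃ P : Z →L[ℝ] Z, (∀ x, P x ∈ V) ∧ ∀ z ∈ V, P z = z := by
  classical
  obtain ⟨S, N, c, hc, hS, hN, hcount⟩ := h
  let u : S → Z := Subtype.val
  have hd : DenseRange (Finsupp.linearCombination ℝ u) := by
    have : range (Finsupp.linearCombination ℝ u) = (Submodule.span ℝ S : Set Z) := by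
      rw [← LinearMap.coe_range, Finsupp.range_linearCombination, Subtype.range_coe]
    rwa [DenseRange, this]
  choose f hf1 hf2 hf3 using hN
  choose T hT1 hT2 using exists_supp hd
  obtain ⟨D, hD, hYD⟩ := hY
  have hs : ∀ A : Set S, A.Countable → ∃ D : Set Z, D.Countable ∧
      (Submodule.span ℝ (u '' A) : Set Z) ⊆ closure D := fun A hA =>
    (hA.image u).isSeparable.span (R := ℝ)
  choose! D' hD1 hD2 using hs
  let Φ : Set S → Set S := fun A => A ∪ ⋃ d ∈ D' A, {s | f d s.1 ≠ 0}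
  have hΦ : ∀ A, A.Countable → (Φ A).Countable := fun A hA =>
    hA.union ((hD1 A hA).biUnion fun d _ =>
      ((hcount _ (hf1 d)).preimage Subtype.val_injective).mono fun s hs => And.intro s.2 hs)
  let A : ℕ → Set S := fun n => Φ^[n] (⋃ x ∈ D, T x)
  have hA : ∀ n, A (n + 1) = Φ (A n) := fun n => Function.iterate_succ_apply' _ _ _
  have hAc : ∀ n, (A n).Countable := fun n => by
    induction n with
    | zero => exact hD.biUnion fun x _ => hT1 x
    | succ n ih => rw [hA]; exact hΦ _ ih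
  have hAm : Monotone A := monotone_nat_of_le_succ fun n => by rw [hA]; exact subset_union_left
  let B : Set S := ⋃ n, A n
  have key : ∀ x ∈ Submodule.span ℝ (u '' B), ∀ y ∈ Submodule.span ℝ (u '' Bᶜ),
      c * ‖x‖ ≤ ‖x + y‖ := by
    intro x hx y hy
    obtain ⟨n, hn⟩ : ∃ n, x ∈ Submodule.span ℝ (u '' A n) := by
      rw [image_iUnion, Submodule.span_iUnion] at hx
      exact (Submodule.mem_iSup_of_directed _ (Monotone.directed_le fun i j hij =>
        Submodule.span_mono (image_mono (hAm hij)))).1 hx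
    have hz : ∀ d ∈ D' (A n), f d y = 0 := fun d hd' => by
      have : Submodule.span ℝ (u '' Bᶜ) ≤ LinearMap.ker (f d).toLinearMap := by
        rw [Submodule.span_le]
        rintro _ ⟨s, hs, rfl⟩
        by_contra hne
        exact hs (mem_iUnion.2 ⟨n + 1, hA n ▸ Or.inr (mem_biUnion hd' hne)⟩)
      exact this hy
    have hcl : IsClosed {d : Z | c * ‖d‖ ≤ ‖x + y‖ + ‖d - x‖} := isClosed_le (by fun_prop) (by fun_prop)
    have := hcl.closure_subset_iff.2 (fun d hd' => ?_) (hD2 _ (hAc n) hn)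
    · simpa using this
    · have e1 : f d d = f d (x + y) + f d (d - x) := by simp [hz d hd']
      have b1 : ∀ z, |f d z| ≤ ‖z‖ := fun z => ((f d).le_opNorm z).trans
        (mul_le_of_le_one_left (norm_nonneg _) (hf2 d))
      have := abs_add_le (f d (x + y)) (f d (d - x))
      have := hf3 d
      rw [e1] at this
      simp only [mem_ofPred_eq]
      linarith [b1 (x + y), b1 (d - x)]
  let p : S → Z := fun s => if s ∈ B then u s else 0
  have hb : ∀ l, ‖Finsupp.linearCombination ℝ p l‖ ≤ c⁻¹ * ‖Finsupp.linearCombination ℝ u l‖ := by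
    intro l
    rw [le_inv_mul_iff₀ hc]
    have := key (Finsupp.linearCombination ℝ p l) ?_
      (Finsupp.linearCombination ℝ u l - Finsupp.linearCombination ℝ p l) ?_
    · simpa using this
    · rw [Finsupp.linearCombination_apply, Finsupp.sum]
      refine Submodule.sum_mem _ fun s _ => Submodule.smul_mem _ _ ?_
      simp only [p]
      split_ifs with hs
      · exact Submodule.subset_span ⟨s, hs, rfl⟩
      · exact Submodule.zero_mem _
    · simp only [Finsupp.linearCombination_apply, Finsupp.sum, ← Finset.sum_sub_distrib, ← smul_sub]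
      refine Submodule.sum_mem _ fun s _ => Submodule.smul_mem _ _ ?_
      simp only [p]
      split_ifs with hs
      · simp
      · rw [sub_zero]; exact Submodule.subset_span ⟨s, hs, rfl⟩
  let P := (Finsupp.linearCombination ℝ p).extendOfNorm (Finsupp.linearCombination ℝ u)
  have hP : ∀ s, P (u s) = p s := fun s => by
    simpa using LinearMap.extendOfNorm_eq (f := Finsupp.linearCombination ℝ p) hd ⟨_, hb⟩
      (Finsupp.single s 1)
  refine ⟨(Submodule.span ℝ (u '' B)).topologicalClosure, ?_, Submodule.isClosed_topologicalClosure _,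
    ((((countable_iUnion hAc).image u).isSeparable.span (R := ℝ)).closure), P, ?_, ?_⟩
  · refine hYD.trans (closure_minimal (fun x hx => ?_) isClosed_closure)
    exact closure_mono (Submodule.span_mono (image_mono
      ((subset_biUnion_of_mem (u := T) hx).trans (subset_iUnion A 0)))) (hT2 x)
  · refine map_mem hd P _ (Submodule.isClosed_topologicalClosure _) fun s =>
      Submodule.le_topologicalClosure _ ?_
    rw [hP]
    simp only [p]
    split_ifs with hs
    · exact Submodule.subset_span ⟨s, hs, rfl⟩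
    · exact Submodule.zero_mem _
  · refine fix_closure P _ ?_
    rintro _ ⟨s, hs, rfl⟩
    rw [hP]; simp only [p, if_pos hs]

/-- type synonym carrying a semi-inner product -/
def Gns (Z : Type) : Type := Z

instance : AddCommGroup (Gns Z) := inferInstanceAs (AddCommGroup Z)
instance : Module ℝ (Gns Z) := inferInstanceAs (Module ℝ Z)

theorem exists_hilbert' {G : Type} [SeminormedAddCommGroup G] [InnerProductSpace ℝ G]
    (T0 : Z →L[ℝ] G) (h : Function.Surjective T0) :
    ∃ (H : Type) (_ : NormedAddCommGroup H) (_ : InnerProductSpace ℝ H) (_ : CompleteSpace H)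
      (T : Z →L[ℝ] H), DenseRange T ∧ ∀ f g, inner ℝ (T f) (T g) = inner ℝ (T0 f) (T0 g) :=
  ⟨UniformSpace.Completion G, inferInstance, inferInstance, inferInstance,
    UniformSpace.Completion.toComplL.comp T0,
    UniformSpace.Completion.denseRange_coe.comp h.denseRange (UniformSpace.Completion.continuous_coe _),
    fun f g => UniformSpace.Completion.inner_coe (𝕜 := ℝ) (T0 f) (T0 g)⟩

theorem exists_hilbert (B : Z →ₗ[ℝ] Z →ₗ[ℝ] ℝ) (h1 : ∀ f g, B f g = B g f) (h2 : ∀ f, 0 ≤ B f f)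
    (K : ℝ) (h3 : ∀ f, √(B f f) ≤ K * ‖f‖) :
    ∃ (H : Type) (_ : NormedAddCommGroup H) (_ : InnerProductSpace ℝ H) (_ : CompleteSpace H)
      (T : Z →L[ℝ] H), DenseRange T ∧ ∀ f g, inner ℝ (T f) (T g) = B f g := by
  let core : PreInnerProductSpace.Core ℝ (Gns Z) :=
    { inner := fun f g => B f g
      conj_inner_symm := fun f g => h1 g f
      re_inner_nonneg := fun f => h2 f
      add_left := fun (f g k : Z) => LinearMap.map_add₂ B f g k
      smul_left := fun (f g : Z) r => LinearMap.map_smul₂ B r f g }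
  let _ : SeminormedAddCommGroup (Gns Z) := InnerProductSpace.Core.toSeminormedAddCommGroup (c := core)
  let _ : InnerProductSpace ℝ (Gns Z) := InnerProductSpace.ofCore core
  let T1 : Z →ₗ[ℝ] Gns Z := LinearMap.id (R := ℝ) (M := Z)
  exact exists_hilbert' (T1.mkContinuous K h3) fun x => ⟨x, rfl⟩

theorem piece (B : Z →ₗ[ℝ] Z →ₗ[ℝ] ℝ) (h1 : ∀ f g, B f g = B g f) (h2 : ∀ f, 0 ≤ B f f)
    (K : ℝ) (h3 : ∀ f, √(B f f) ≤ K * ‖f‖) :
    (∀ f g, |B f g| ≤ √(B f f) * √(B g g)) ∧
    ∃ S : Set (Z →L[ℝ] ℝ), (∀ F : (Z →L[ℝ] ℝ) →L[ℝ] ℝ, {s | s ∈ S ∧ F s ≠ 0}.Countable) ∧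
      (∀ (l : Z →L[ℝ] ℝ) (C : ℝ), (∀ f, |l f| ≤ C * √(B f f)) →
        l ∈ closure (Submodule.span ℝ S : Set (Z →L[ℝ] ℝ))) ∧
      ∀ s ∈ S, ∀ f, |s f| ≤ √(B f f) := by
  obtain ⟨H, _, _, _, T, hT, hB⟩ := exists_hilbert B h1 h2 K h3
  have hn : ∀ f, √(B f f) = ‖T f‖ := fun f => by
    rw [← hB, real_inner_self_eq_norm_sq, Real.sqrt_sq (norm_nonneg _)]
  refine ⟨fun f g => by rw [hn, hn, ← hB]; exact abs_real_inner_le_norm _ _, ?_⟩
  obtain ⟨w, b, hb⟩ := exists_hilbertBasis ℝ H
  let U : H →L[ℝ] (Z →L[ℝ] ℝ) := ((ContinuousLinearMap.compL ℝ Z H ℝ).flip T).comp (innerSL ℝ)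
  have hU : ∀ h f, U h f = inner ℝ h (T f) := fun h f => rfl
  refine ⟨range fun i => U (b i), fun F => ?_, fun l C hl => ?_, ?_⟩
  · obtain ⟨h0, hh⟩ := (InnerProductSpace.toDual ℝ H).surjective (F.comp U)
    have hs := (b.orthonormal.inner_products_summable h0).countable_support
    refine (hs.image fun i => U (b i)).mono ?_
    rintro _ ⟨⟨i, rfl⟩, hi⟩
    refine ⟨i, ?_, rfl⟩
    have : inner ℝ h0 (b i) = F (U (b i)) := congrArg (fun g : H →L[ℝ] ℝ => g (b i)) hh
    rw [Function.mem_support, real_inner_comm, this]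
    simpa using hi
  · have hl' : ∃ C, ∀ f, ‖l.toLinearMap f‖ ≤ C * ‖T.toLinearMap f‖ :=
      ⟨C, fun f => by simpa [hn] using hl f⟩
    obtain ⟨h0, hh⟩ := (InnerProductSpace.toDual ℝ H).surjective
      (l.toLinearMap.extendOfNorm T.toLinearMap)
    have : U h0 = l := by
      ext f
      rw [hU]
      exact (congrArg (fun g : H →L[ℝ] ℝ => g (T f)) hh).trans
        (LinearMap.extendOfNorm_eq hT hl' f)
    rw [← this]
    have hd : h0 ∈ closure (Submodule.span ℝ (range b) : Set H) := by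
      rw [← Submodule.topologicalClosure_coe, b.dense_span]; trivial
    refine closure_mono ?_ (image_closure_subset_closure_image U.continuous ⟨h0, hd, rfl⟩)
    rintro _ ⟨x, hx, rfl⟩
    have := Submodule.mem_map_of_mem (f := U.toLinearMap) hx
    rwa [Submodule.map_span, ← range_comp] at this
  · rintro _ ⟨i, rfl⟩ f
    rw [hU, hn]
    simpa [b.orthonormal.1 i] using abs_real_inner_le_norm (b i) (T f)

end Pool.Agent.H56.Plk
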