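import Pool.Agent.H56.Plk1
import Pool.Agent.H95.Ekeland

/-! The dual of a space of bounded continuous functions is Plichko. -/

namespace Pool.Agent.H56.Plk

open Set Topology Pool.Agent.H56.Scp

theorem mazur_orlicz {V : Type} [NormedAddCommGroup V] [NormedSpace ℝ V] (M : ℝ)
    (C : Set (V × ℝ)) (h0 : (0 : V × ℝ) ∈ C) (hadd : ∀ a ∈ C, ∀ b ∈ C, a + b ∈ C)
    (hsm : ∀ r : ℝ, 0 ≤ r → ∀ a ∈ C, r • a ∈ C) (hb : ∀ a ∈ C, a.2 ≤ M * ‖a.1‖) (hM : 0 ≤ M) :
    ∃ g : V →L[ℝ] ℝ, (∀ a ∈ C, a.2 ≤ g a.1) ∧ ∀ v, g v ≤ M * ‖v‖ := by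
  have hU : Convex ℝ {a : V × ℝ | M * ‖a.1‖ < a.2} := by
    intro a ha b hb s t hs ht hst
    simp only [mem_ofPred_eq, Prod.fst_add, Prod.smul_fst, Prod.snd_add, Prod.smul_snd,
      smul_eq_mul] at *
    have h1 := norm_add_le (s • a.1) (t • b.1)
    rw [norm_smul, norm_smul, Real.norm_of_nonneg hs, Real.norm_of_nonneg ht] at h1
    have h2 := mul_le_mul_of_nonneg_left h1 hM
    rcases hs.eq_or_lt with rfl | hs'
    · rw [zero_add] at hst; subst hst; simpa using hb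
    · nlinarith [mul_lt_mul_of_pos_left ha hs', mul_le_mul_of_nonneg_left hb.le ht]
  obtain ⟨F, u, h1, h2⟩ := geometric_hahn_banach_open hU (isOpen_lt (by fun_prop) (by fun_prop))
    (t := C) (fun a ha b hb s t hs ht _ => hadd _ (hsm s hs a ha) _ (hsm t ht b hb))
    (disjoint_left.2 fun a ha hc => absurd (hb a hc) (not_le.2 ha))
  have hu : u ≤ 0 := by simpa using h2 0 h0
  have hα : F (0, 1) < 0 := (h1 (0, 1) (by simp)).trans_le hu
  have hF : ∀ a : V × ℝ, F a = F (a.1, 0) + a.2 * F (0, 1) := fun a => by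
    rw [← smul_eq_mul, ← map_smul, ← map_add]; simp
  have hC : ∀ a ∈ C, 0 ≤ F a := fun a ha => by
    by_contra hn
    have hn := not_le.1 hn
    have := h2 _ (hsm ((u - 1) / F a) (div_nonneg_of_nonpos (by linarith) hn.le) a ha)
    rw [map_smul, smul_eq_mul, div_mul_cancel₀ _ hn.ne] at this
    linarith
  refine ⟨(-F (0, 1))⁻¹ • F.comp (ContinuousLinearMap.inl ℝ V ℝ), fun a ha => ?_, fun v => ?_⟩
  · have := hC a ha
    rw [hF] at this
    simp only [smul_apply, ContinuousLinearMap.comp_apply,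
      ContinuousLinearMap.inl_apply, smul_eq_mul]
    rw [le_inv_mul_iff₀ (by linarith)]
    linarith
  · simp only [smul_apply, ContinuousLinearMap.comp_apply,
      ContinuousLinearMap.inl_apply, smul_eq_mul]
    refine le_of_forall_gt_imp_ge_of_dense fun t ht => ?_
    have := (h1 (v, t) ht).trans_le hu
    rw [hF] at this
    rw [inv_mul_le_iff₀ (by linarith)]
    linarith

variable {Γ : Type} [TopologicalSpace Γ]

/-- bounded continuous functions -/
abbrev E (Γ : Type) [TopologicalSpace Γ] : Type := BoundedContinuousFunction Γ ℝ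

/-- the dual space -/
abbrev Dl (V : Type) [NormedAddCommGroup V] [NormedSpace ℝ V] : Type := V →L[ℝ] ℝ

/-- positive functionals -/
def Pos (ν : Dl (E Γ)) : Prop := ∀ f, 0 ≤ f → 0 ≤ ν f

/-- mutually singular functionals -/
def Sing (μ ν : Dl (E Γ)) : Prop :=
  ∀ ε > 0, ∃ f : E Γ, 0 ≤ f ∧ f ≤ 1 ∧ μ f ≤ ε ∧ ν (1 - f) ≤ ε

/-- orthogonal functionals -/
def Orth (a b : Dl (E Γ)) : Prop :=
  ∀ ε > 0, ∃ f : E Γ, 0 ≤ f ∧ f ≤ 1 ∧ (∀ g, |a (f * g)| ≤ ε * ‖g‖) ∧
    ∀ g, |b ((1 - f) * g)| ≤ ε * ‖g‖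

theorem Pos.mono {ν : Dl (E Γ)} (h : Pos ν) {f g : E Γ} (hfg : f ≤ g) : ν f ≤ ν g := by
  have := h (g - f) (sub_nonneg.2 hfg)
  rw [map_sub] at this
  linarith

theorem le_nrm (f : E Γ) (x : Γ) : |f x| ≤ ‖f‖ := f.norm_coe_le_norm x

theorem Pos.norm_le {ν : Dl (E Γ)} (h : Pos ν) : ‖ν‖ ≤ ν 1 := by
  refine ν.opNorm_le_bound (h 1 fun x => by simp) fun f => ?_
  have a : f ≤ ‖f‖ • (1 : E Γ) := fun x => by simpa using (abs_le.1 (le_nrm f x)).2
  have b : -f ≤ ‖f‖ • (1 : E Γ) := fun x => by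
    have := (abs_le.1 (le_nrm f x)).1
    simp; linarith
  have a' := h.mono a
  have b' := h.mono b
  rw [map_smul, smul_eq_mul] at a' b'
  rw [map_neg] at b'
  rw [Real.norm_eq_abs, abs_le]
  constructor <;> linarith

theorem nrm_mul_le {f : E Γ} (h0 : 0 ≤ f) (h1 : f ≤ 1) (g : E Γ) : ‖f * g‖ ≤ ‖g‖ := by
  refine (BoundedContinuousFunction.norm_le (norm_nonneg _)).2 fun x => ?_
  have a : 0 ≤ f x := h0 x
  have b : f x ≤ 1 := h1 x
  rw [BoundedContinuousFunction.mul_apply, Real.norm_eq_abs, abs_mul, abs_of_nonneg a]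
  nlinarith [le_nrm g x, abs_nonneg (g x)]

theorem Orth.symm {a b : Dl (E Γ)} (h : Orth a b) : Orth b a := fun ε hε => by
  obtain ⟨f, h0, h1, h2, h3⟩ := h ε hε
  exact ⟨1 - f, sub_nonneg.2 h1, sub_le_self _ h0, h3, by simpa using h2⟩

theorem Sing.symm {a b : Dl (E Γ)} (h : Sing a b) : Sing b a := fun ε hε => by
  obtain ⟨f, h0, h1, h2, h3⟩ := h ε hε
  exact ⟨1 - f, sub_nonneg.2 h1, sub_le_self _ h0, h3, by simpa using h2⟩

theorem orth_span {s : Set (Dl (E Γ))} {b : Dl (E Γ)} (h : ∀ a ∈ s, Orth a b)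
    {a : Dl (E Γ)} (ha : a ∈ Submodule.span ℝ s) : Orth a b := by
  induction ha using Submodule.span_induction with
  | mem a ha => exact h a ha
  | zero => exact fun ε hε => ⟨1, fun x => by simp, le_rfl, fun g => by simp; positivity,
      fun g => by simp; positivity⟩
  | add a a' _ _ ha ha' =>
    intro ε hε
    obtain ⟨f, h0, h1, h2, h3⟩ := ha (ε / 2) (by positivity)
    obtain ⟨f', h0', h1', h2', h3'⟩ := ha' (ε / 2) (by positivity)
    refine ⟨f * f', fun x => mul_nonneg (h0 x) (h0' x), fun x => mul_le_one₀ (h1 x) (h0' x) (h1' x),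
      fun g => ?_, fun g => ?_⟩
    · have a1 := h2 (f' * g)
      have a2 := h2' (f * g)
      rw [← mul_assoc] at a1
      rw [← mul_assoc, mul_comm f' f] at a2
      have := abs_add_le (a (f * f' * g)) (a' (f * f' * g))
      rw [add_apply]
      nlinarith [nrm_mul_le h0 h1 g, nrm_mul_le h0' h1' g]
    · have e : (1 - f * f') * g = (1 - f) * g + (1 - f') * (f * g) := by ring
      rw [e, map_add]
      have := abs_add_le (b ((1 - f) * g)) (b ((1 - f') * (f * g)))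
      nlinarith [nrm_mul_le h0 h1 g, h3 g, h3' (f * g)]
  | smul r a _ ha =>
    intro ε hε
    obtain ⟨f, h0, h1, h2, h3⟩ := ha (ε / (|r| + 1)) (by positivity)
    have hr : ε / (|r| + 1) * (|r| + 1) = ε := div_mul_cancel₀ _ (by positivity)
    have hp : 0 ≤ ε / (|r| + 1) := by positivity
    generalize ε / (|r| + 1) = δ at *
    subst hr
    refine ⟨f, h0, h1, fun g => ?_, fun g => ?_⟩
    · rw [smul_apply, smul_eq_mul, abs_mul]
      have := mul_le_mul_of_nonneg_left (h2 g) (abs_nonneg r)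
      nlinarith [mul_nonneg hp (norm_nonneg g)]
    · nlinarith [h3 g, mul_nonneg (mul_nonneg hp (norm_nonneg g)) (abs_nonneg r)]

theorem Orth.norm_le {a b : Dl (E Γ)} (h : Orth a b) : ‖a‖ ≤ ‖a + b‖ := by
  refine le_of_forall_pos_le_add fun ε hε => ?_
  obtain ⟨f, h0, h1, h2, h3⟩ := h (ε / 2) (by positivity)
  refine a.opNorm_le_bound (by positivity) fun g => ?_
  have e : a g = (a + b) ((1 - f) * g) + a (f * g) - b ((1 - f) * g) := by
    simp [sub_mul]; ring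
  have b1 := (a + b).le_opNorm ((1 - f) * g)
  have b2 := nrm_mul_le (sub_nonneg.2 h1) (sub_le_self _ h0) g
  have b3 := mul_le_mul_of_nonneg_left b2 (norm_nonneg (a + b))
  have b4 := abs_le.1 (h2 g)
  have b5 := abs_le.1 (h3 g)
  have b6 := abs_le.1 (b1.trans b3)
  rw [e, Real.norm_eq_abs, abs_le]
  constructor <;> nlinarith

theorem dom_le {μ s : Dl (E Γ)} (hμ : Pos μ) (hs : ∀ f, |s f| ≤ √(μ (f * f))) {f : E Γ}
    (h0 : 0 ≤ f) (h1 : f ≤ 1) {ε : ℝ} (hε : 0 ≤ ε) (h : μ f ≤ ε ^ 2) (g : E Γ) :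
    |s (f * g)| ≤ ε * ‖g‖ := by
  refine (hs _).trans (Real.sqrt_le_iff.2 ⟨by positivity, ?_⟩)
  have : f * g * (f * g) ≤ ‖g‖ ^ 2 • f := fun x => by
    have a : 0 ≤ f x := h0 x
    have b : f x ≤ 1 := h1 x
    have c : g x ^ 2 ≤ ‖g‖ ^ 2 := sq_le_sq' (abs_le.1 (le_nrm g x)).1 (abs_le.1 (le_nrm g x)).2
    simp only [BoundedContinuousFunction.coe_mul, BoundedContinuousFunction.coe_smul,
      ContinuousMap.toFun_eq_coe, BoundedContinuousFunction.coe_toContinuousMap, Pi.mul_apply,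
      smul_eq_mul]
    nlinarith [mul_nonneg a (sub_nonneg.2 b), sq_nonneg (g x), mul_le_mul_of_nonneg_left c a,
      mul_nonneg (mul_nonneg a (sub_nonneg.2 b)) (sq_nonneg (g x))]
  have := hμ.mono this
  rw [map_smul, smul_eq_mul] at this
  nlinarith [mul_le_mul_of_nonneg_left h (sq_nonneg ‖g‖)]

theorem hb1 (x : Dl (E Γ)) : ∃ ν : Dl (E Γ), Pos ν ∧ Pos (ν - x) := by
  obtain ⟨ν, h1, -⟩ := mazur_orlicz ‖x‖ {a | ∃ g h : E Γ, 0 ≤ g ∧ 0 ≤ h ∧ a = (g + h, x h)}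
    ⟨0, 0, le_rfl, le_rfl, by simp; rfl⟩
    (by
        rintro _ ⟨g, h, hg, hh, rfl⟩ _ ⟨g', h', hg', hh', rfl⟩
        exact ⟨g + g', h + h', add_nonneg hg hg', add_nonneg hh hh', by
          ext <;> simp; ring⟩)
    (by
        rintro r hr _ ⟨g, h, hg, hh, rfl⟩
        exact ⟨r • g, r • h, fun y => mul_nonneg hr (hg y), fun y => mul_nonneg hr (hh y), by simp⟩)
    (by
        rintro _ ⟨g, h, hg, hh, rfl⟩
        have : ‖h‖ ≤ ‖g + h‖ := (BoundedContinuousFunction.norm_le (norm_nonneg _)).2 fun y => by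
          have a : 0 ≤ g y := hg y
          have b : 0 ≤ h y := hh y
          have := (abs_le.1 (le_nrm (g + h) y)).2
          rw [Real.norm_of_nonneg b]
          simp at this
          linarith
        exact (le_abs_self _).trans ((x.le_opNorm h).trans (by gcongr)))
    (norm_nonneg _)
  refine ⟨ν, fun f hf => ?_, fun f hf => ?_⟩
  · simpa using h1 _ ⟨f, 0, hf, le_rfl, rfl⟩
  · simpa using h1 _ ⟨0, f, le_rfl, hf, rfl⟩

theorem hb2 {μ ν : Dl (E Γ)} (hμ : Pos μ) (hν : Pos ν) (h : ¬ Sing μ ν) :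
    ∃ l : Dl (E Γ), Pos l ∧ Pos (μ - l) ∧ Pos (ν - l) ∧ 0 < l 1 := by
  simp only [Sing, not_forall, not_exists, not_and, not_le] at h
  obtain ⟨δ, hδ, h⟩ := h
  obtain ⟨l, h1, -⟩ := mazur_orlicz δ {a | ∃ (g h k : E Γ) (t : ℝ), 0 ≤ g ∧ 0 ≤ h ∧ 0 ≤ k ∧ 0 ≤ t ∧
    a = (g - h - k + t • 1, t * δ - μ h - ν k)}
    ⟨0, 0, 0, 0, le_rfl, le_rfl, le_rfl, le_rfl, by simp; rfl⟩
    (by
        rintro _ ⟨g, h, k, t, hg, hh, hk, ht, rfl⟩ _ ⟨g', h', k', t', hg', hh', hk', ht', rfl⟩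
        exact ⟨g + g', h + h', k + k', t + t', add_nonneg hg hg', add_nonneg hh hh', add_nonneg hk hk',
          add_nonneg ht ht', by ext <;> simp <;> ring⟩)
    (by
        rintro r hr _ ⟨g, h, k, t, hg, hh, hk, ht, rfl⟩
        exact ⟨r • g, r • h, r • k, r * t, fun y => mul_nonneg hr (hg y), fun y => mul_nonneg hr (hh y),
          fun y => mul_nonneg hr (hk y), mul_nonneg hr ht, by ext <;> simp <;> ring⟩)
    (by
        rintro _ ⟨g, p, k, t, hg, hp, hk, ht, rfl⟩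
        simp only
        set r := ‖g - p - k + t • (1 : E Γ)‖ with hr
        have a1 := hμ p hp
        have a2 := hν k hk
        rcases le_or_gt t r with htr | htr
        · nlinarith
        have hs : 0 < t - r := sub_pos.2 htr
        have hy : ∀ y, t - r ≤ p y + k y := fun y => by
          have := (abs_le.1 (le_nrm (g - p - k + t • (1 : E Γ)) y)).2
          have a : 0 ≤ g y := hg y
          simp at this
          linarith
        let f : E Γ := ((t - r)⁻¹ • p) ⊓ 1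
        have f1 : f ≤ (t - r)⁻¹ • p := inf_le_left
        have f0 : 0 ≤ f := le_inf (fun y => mul_nonneg (inv_nonneg.2 hs.le) (hp y)) fun y => by simp
        have f2 : 1 - f ≤ (t - r)⁻¹ • k := fun y => by
          have e : (1 - f) y = 1 - min ((t - r)⁻¹ * p y) 1 := rfl
          have b : 0 ≤ (t - r)⁻¹ * k y := mul_nonneg (inv_nonneg.2 hs.le) (hk y)
          have c : 1 ≤ (t - r)⁻¹ * p y + (t - r)⁻¹ * k y := by
            rw [← mul_add, le_inv_mul_iff₀ hs]; simpa using hy y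
          show (1 - f) y ≤ (t - r)⁻¹ * k y
          rw [e]
          rcases min_cases ((t - r)⁻¹ * p y) 1 with h | h <;> rw [h.1] <;> linarith
        have b1 := hμ.mono f1
        have b2 := hν.mono f2
        rw [map_smul, smul_eq_mul, le_inv_mul_iff₀ hs] at b1 b2
        have b3 : δ ≤ μ f + ν (1 - f) := by
          by_cases hc : μ f ≤ δ
          · linarith [h f f0 inf_le_right hc, hμ f f0]
          · linarith [hν (1 - f) (sub_nonneg.2 inf_le_right)]
        nlinarith [mul_le_mul_of_nonneg_left b3 hs.le])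
    hδ.le
  refine ⟨l, fun f hf => ?_, fun f hf => ?_, fun f hf => ?_, ?_⟩
  · simpa using h1 _ ⟨f, 0, 0, 0, hf, le_rfl, le_rfl, le_rfl, rfl⟩
  · simpa using h1 _ ⟨0, f, 0, 0, le_rfl, hf, le_rfl, le_rfl, rfl⟩
  · simpa using h1 _ ⟨0, 0, f, 0, le_rfl, le_rfl, hf, le_rfl, rfl⟩
  · have := h1 _ ⟨0, 0, 0, 1, le_rfl, le_rfl, le_rfl, zero_le_one, rfl⟩
    simp at this
    exact hδ.trans_le this

theorem pos_piece {ν : Dl (E Γ)} (hν : Pos ν) :
    ∃ S : Set (Dl (E Γ)), (∀ F : Dl (Dl (E Γ)), {s | s ∈ S ∧ F s ≠ 0}.Countable) ∧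
      (∀ l : Dl (E Γ), Pos l → Pos (ν - l) →
        l ∈ closure (Submodule.span ℝ S : Set (Dl (E Γ)))) ∧
      ∀ s ∈ S, ∀ f, |s f| ≤ √(ν (f * f)) := by
  have key := fun (μ : Dl (E Γ)) (hμ : Pos μ) =>
    piece ((LinearMap.mul ℝ (E Γ)).compr₂ μ.toLinearMap) (fun f g => by simp [mul_comm])
      (fun f => hμ _ fun x => mul_self_nonneg _) √‖μ‖ fun f => by
        refine Real.sqrt_le_iff.2 ⟨by positivity, ?_⟩
        rw [mul_pow, Real.sq_sqrt (norm_nonneg μ)]
        refine (le_abs_self _).trans ((μ.le_opNorm (f * f)).trans ?_)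
        rw [sq]
        exact mul_le_mul_of_nonneg_left (norm_mul_le _ _) (norm_nonneg _)
  obtain ⟨-, S, h1, h2, h3⟩ := key ν hν
  refine ⟨S, h1, fun l hl hl' => h2 l √(l 1) fun f => ?_, h3⟩
  have := (key l hl).1 1 f
  simp only [LinearMap.compr₂_apply, LinearMap.mul_apply', one_mul,
    ContinuousLinearMap.coe_coe] at this ⊢
  refine this.trans (mul_le_mul_of_nonneg_left (Real.sqrt_le_sqrt ?_) (Real.sqrt_nonneg _))
  have := hl' (f * f) fun x => mul_self_nonneg _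
  simpa using this

theorem pl_dual (Γ : Type) [TopologicalSpace Γ] : Pl (Dl (E Γ)) := by
  obtain ⟨𝓕, h𝓕⟩ := zorn_subset
    {B : Set (Dl (E Γ)) | (∀ f ∈ B, Pos f) ∧ ∀ f ∈ B, ∀ g ∈ B, f ≠ g → Sing f g}
    (fun c hc hch => by
      refine ⟨⋃₀ c, ⟨?_, ?_⟩, fun s hs => subset_sUnion_of_mem hs⟩
      · rintro f ⟨s, hs, hf⟩
        exact (hc hs).1 f hf
      rintro f ⟨s, hs, hf⟩ g ⟨t, ht, hg⟩ hfg
      rcases hch.total hs ht with h | h
      · exact (hc ht).2 f (h hf) g hg hfg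
      · exact (hc hs).2 f hf g (h hg) hfg)
  choose! S hS1 hS2 hS3 using fun ν : Dl (E Γ) => pos_piece (ν := ν)
  let Z := (Submodule.span ℝ (⋃ μ ∈ 𝓕, S μ)).topologicalClosure
  have hZ : ∀ μ ∈ 𝓕, ∀ l, Pos l → Pos (μ - l) → l ∈ Z := fun μ hμ l h1 h2 =>
    closure_mono (Submodule.span_mono (subset_biUnion_of_mem (u := S) hμ))
      (hS2 μ (h𝓕.prop.1 μ hμ) l h1 h2)
  have hpos : ∀ ν, Pos ν → ν ∈ Z := by
    intro ν hν
    let Y : Set (Dl (E Γ)) := {l | l ∈ Z ∧ Pos l ∧ Pos (ν - l)}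
    have hY : IsClosed Y := by
      have hc : IsClosed {l : Dl (E Γ) | Pos l} := by
        simp only [Pos, ofPred_forall]
        exact isClosed_iInter fun f => isClosed_iInter fun _ => isClosed_le (by fun_prop) (by fun_prop)
      exact (Submodule.isClosed_topologicalClosure _).inter
        (hc.inter (hc.preimage (continuous_const.sub continuous_id)))
    have := hY.completeSpace_coe
    obtain ⟨x, -, hx⟩ := Pool.Agent.H95.Ekeland.ekeland (Y := Y) (k := fun l => l.1 1) (by fun_prop)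
      (M := ν 1) (fun y => by simpa using y.2.2.2 1 fun x => by simp) (ε := 1 / 2) (by norm_num)
      ⟨0, Z.zero_mem, fun _ _ => le_rfl, by simpa using hν⟩
    have hs : ∀ μ ∈ 𝓕, Sing μ (ν - x.1) := fun μ hμ => by
      by_contra hn
      obtain ⟨l, l1, l2, l3, l4⟩ := hb2 (h𝓕.prop.1 μ hμ) x.2.2.2 hn
      have := hx ⟨x.1 + l, Z.add_mem x.2.1 (hZ μ hμ l l1 l2),
        fun f hf => add_nonneg (x.2.2.1 f hf) (l1 f hf), by rwa [← sub_sub]⟩
      rw [Subtype.dist_eq, dist_self_add_right] at this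
      simp only [add_apply] at this
      linarith [l1.norm_le]
    have hmem : ν - x.1 ∈ 𝓕 := by
      refine h𝓕.eq_of_subset (t := insert (ν - x.1) 𝓕) ⟨?_, ?_⟩ (subset_insert _ _) ▸ mem_insert _ _
      · rintro f (rfl | hf)
        · exact x.2.2.2
        · exact h𝓕.prop.1 f hf
      rintro f (rfl | hf) g (rfl | hg) hfg
      · exact absurd rfl hfg
      · exact (hs g hg).symm
      · exact hs f hf
      · exact h𝓕.prop.2 f hf g hg hfg
    have := Z.add_mem (hZ _ hmem _ x.2.2.2 (by simp [Pos])) x.2.1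
    simpa using this
  have hdense : Dense (Submodule.span ℝ (⋃ μ ∈ 𝓕, S μ) : Set (Dl (E Γ))) := fun x => by
    obtain ⟨ν, h1, h2⟩ := hb1 x
    have := Z.sub_mem (hpos _ h1) (hpos _ h2)
    rwa [sub_sub_cancel] at this
  refine ⟨⋃ μ ∈ 𝓕, S μ,
    { carrier := {F | {μ | μ ∈ 𝓕 ∧ ∃ s ∈ S μ, F s ≠ 0}.Countable}
      add_mem' := fun {F G} hF hG => (Set.Countable.union hF hG).mono ?_
      zero_mem' := by simp
      smul_mem' := fun r F hF => Set.Countable.mono ?_ hF }, 1, one_pos, hdense, fun x => ?_, ?_⟩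
  · rintro μ ⟨hμ, s, hs, hne⟩
    by_cases h : F s = 0
    · exact Or.inr ⟨hμ, s, hs, by simpa [h] using hne⟩
    · exact Or.inl ⟨hμ, s, hs, h⟩
  · rintro μ ⟨hμ, s, hs, hne⟩
    exact ⟨hμ, s, hs, fun h => hne (by simp [h])⟩
  · have hd : DenseRange (Finsupp.linearCombination ℝ (Subtype.val : (⋃ μ ∈ 𝓕, S μ : Set _) → _)) := by
      rwa [DenseRange, ← LinearMap.coe_range, Finsupp.range_linearCombination, Subtype.range_coe]
    obtain ⟨T, hT, hx⟩ := exists_supp hd x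
    have hm : ∀ t : (⋃ μ ∈ 𝓕, S μ : Set _), ∃ μ ∈ 𝓕, t.1 ∈ S μ := fun t => by
      obtain ⟨μ, h1, h2⟩ := mem_iUnion₂.1 t.2
      exact ⟨μ, h1, h2⟩
    choose m hm1 hm2 using hm
    let M := Submodule.span ℝ (⋃ μ ∈ 𝓕 \ m '' T, S μ)
    have hM : ∀ y ∈ M, ‖x‖ ≤ ‖x + y‖ := fun y hy => by
      refine (isClosed_le (f := fun x => ‖x‖) (g := fun x => ‖x + y‖) (by fun_prop)
        (by fun_prop)).closure_subset_iff.2 (fun a ha => Orth.norm_le (orth_span ?_ ha)) hx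
      rintro _ ⟨t, ht, rfl⟩
      refine (orth_span (fun s hs => ?_) hy).symm
      obtain ⟨μ, hμ, hs⟩ := mem_iUnion₂.1 hs
      intro ε hε
      obtain ⟨f, f0, f1, f2, f3⟩ := h𝓕.prop.2 μ hμ.1 (m t) (hm1 t)
        (fun e => hμ.2 ⟨t, ht, e.symm⟩) (ε ^ 2) (by positivity)
      exact ⟨f, f0, f1, dom_le (h𝓕.prop.1 μ hμ.1) (hS3 μ (h𝓕.prop.1 μ hμ.1) s hs) f0 f1 hε.le f2,
        dom_le (h𝓕.prop.1 _ (hm1 t)) (hS3 _ (h𝓕.prop.1 _ (hm1 t)) _ (hm2 t)) (sub_nonneg.2 f1)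
          (sub_le_self _ f0) hε.le f3⟩
    obtain ⟨g, g1, g2⟩ := mazur_orlicz 1 {a | ∃ y ∈ M, ∃ t : ℝ, 0 ≤ t ∧ a = (t • x + y, t * ‖x‖)}
      ⟨0, M.zero_mem, 0, le_rfl, by simp; rfl⟩
      (by
          rintro _ ⟨y, hy, t, ht, rfl⟩ _ ⟨y', hy', t', ht', rfl⟩
          exact ⟨y + y', M.add_mem hy hy', t + t', add_nonneg ht ht', by
            rw [Prod.mk_add_mk, add_smul, add_mul]; congr 1; abel⟩)
      (by
          rintro r hr _ ⟨y, hy, t, ht, rfl⟩
          exact ⟨r • y, M.smul_mem r hy, r * t, mul_nonneg hr ht, by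
            rw [Prod.smul_mk, smul_add, smul_smul, smul_eq_mul, mul_assoc]⟩)
      (by
          rintro _ ⟨y, hy, t, ht, rfl⟩
          rcases ht.eq_or_lt with rfl | ht'
          · simp
          have := hM _ (M.smul_mem t⁻¹ hy)
          have e : t • x + y = t • (x + t⁻¹ • y) := by rw [smul_add, smul_inv_smul₀ ht'.ne']
          simp only [one_mul]
          rw [e, norm_smul, Real.norm_of_nonneg ht]
          gcongr)
      zero_le_one
    have g0 : ∀ y ∈ M, 0 ≤ g y := fun y hy => by simpa using g1 _ ⟨y, hy, 0, le_rfl, rfl⟩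
    refine ⟨g, (hT.image m).mono ?_, g.opNorm_le_bound zero_le_one fun v => ?_, ?_⟩
    · rintro μ ⟨hμ, s, hs, hne⟩
      by_contra hn
      have hsM : s ∈ M := Submodule.subset_span (mem_biUnion (x := μ) ⟨hμ, hn⟩ hs)
      have := g0 _ (M.neg_mem hsM)
      rw [map_neg] at this
      exact hne (by linarith [g0 s hsM])
    · have := g2 (-v)
      rw [map_neg, norm_neg] at this
      rw [Real.norm_eq_abs, abs_le]
      constructor <;> linarith [g2 v]
    · have := g1 _ ⟨0, M.zero_mem, 1, zero_le_one, rfl⟩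
      simp only [one_smul, add_zero, one_mul] at this ⊢
      exact this.trans (le_abs_self _)
  · intro F hF
    refine (Set.Countable.biUnion hF fun μ hμ => hS1 μ (h𝓕.prop.1 μ hμ.1) F).mono ?_
    rintro s ⟨hs, hne⟩
    obtain ⟨μ, hμ, hs⟩ := mem_iUnion₂.1 hs
    exact mem_biUnion (x := μ) ⟨hμ, s, hs, hne⟩ ⟨hs, hne⟩

end Pool.Agent.H56.Plk
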