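import Pool.Agent.H56.Plk2

/-! Averages over finite cubes, generalized limits, signs, and the swindle. -/

namespace Pool.Agent.H56.Plk

open Set Topology Filter Pool.Agent.H56.Scp
open scoped symmDiff

section av
variable {C : Type} [DecidableEq C] {V V' : Type} [AddCommGroup V] [Module ℝ V] [AddCommGroup V']
  [Module ℝ V']

/-- the average over the coordinates in `S` -/
noncomputable def Av (S : Finset C) (g : Finset C → V) (p : Finset C) : V :=
  ((2 : ℝ) ^ S.card)⁻¹ • ∑ t ∈ S.powerset, g (p ∆ t)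

theorem Av_insert {n : C} {S : Finset C} (h : n ∉ S) (g : Finset C → V) (p : Finset C) :
    Av (insert n S) g p = Av S (fun q => (1 / 2 : ℝ) • (g q + g (q ∆ {n}))) p := by
  simp only [Av]
  rw [Finset.sum_powerset_insert h, Finset.card_insert_of_notMem h, ← Finset.smul_sum, smul_smul,
    Finset.sum_add_distrib]
  congr 1
  · rw [pow_succ]; field_simp
  · congr 1
    refine Finset.sum_congr rfl fun t ht => ?_
    have : n ∉ t := fun a => h (Finset.mem_powerset.1 ht a)
    rw [symmDiff_assoc]
    congr 2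
    ext x
    simp only [Finset.mem_insert, Finset.mem_symmDiff, Finset.mem_singleton]
    grind

theorem Av_empty (g : Finset C → V) (p : Finset C) : Av ∅ g p = g p := by
  have : p ∆ ∅ = p := symmDiff_bot p
  simp [Av, this]

theorem map_Av (L : V →ₗ[ℝ] V') (S : Finset C) (g : Finset C → V) (p : Finset C) :
    L (Av S g p) = Av S (fun q => L (g q)) p := by
  simp [Av, map_sum]

theorem Av_add (S : Finset C) (g g' : Finset C → V) (p : Finset C) :
    Av S (fun q => g q + g' q) p = Av S g p + Av S g' p := by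
  simp [Av, Finset.sum_add_distrib]

theorem Av_sub (S : Finset C) (g g' : Finset C → V) (p : Finset C) :
    Av S (fun q => g q - g' q) p = Av S g p - Av S g' p := by
  simp [Av, Finset.sum_sub_distrib, smul_sub]

theorem Av_smul (S : Finset C) (r : ℝ) (g : Finset C → V) (p : Finset C) :
    Av S (fun q => r • g q) p = r • Av S g p := by
  simp only [Av, ← Finset.smul_sum]
  rw [smul_comm]

theorem Av_sum {ι : Type} (Z : Finset ι) (S : Finset C) (g : ι → Finset C → V) (p : Finset C) :
    Av S (fun q => ∑ i ∈ Z, g i q) p = ∑ i ∈ Z, Av S (g i) p := by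
  simp only [Av, ← Finset.smul_sum]
  rw [Finset.sum_comm]

theorem Av_congr {S : Finset C} {g g' : Finset C → V} {p : Finset C}
    (h : ∀ t ⊆ S, g (p ∆ t) = g' (p ∆ t)) : Av S g p = Av S g' p := by
  simp only [Av]
  rw [Finset.sum_congr rfl fun t ht => h t (Finset.mem_powerset.1 ht)]

theorem Av_const (S : Finset C) (c : V) (p : Finset C) : Av S (fun _ => c) p = c := by
  simp only [Av, Finset.sum_const, Finset.card_powerset]
  rw [← Nat.cast_smul_eq_nsmul ℝ, smul_smul]
  simp

theorem Av_shift (S : Finset C) (g : Finset C → V) (p s : Finset C) :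
    Av S (fun q => g (q ∆ s)) p = Av S g (p ∆ s) := by
  simp only [Av, symmDiff_right_comm p]

theorem Av_union {S S' : Finset C} (h : Disjoint S S') (g : Finset C → V) (p : Finset C) :
    Av S (Av S' g) p = Av (S ∪ S') g p := by
  induction S' using Finset.induction_on generalizing g with
  | empty => simp only [Finset.union_empty]; congr 1; ext q; exact Av_empty g q
  | insert n S' hn ih =>
    rw [Finset.disjoint_insert_right] at h
    rw [Finset.union_insert, Av_insert (by simp [h.1, hn]), ← ih h.2]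
    congr 1; ext q; exact Av_insert hn g q

theorem Av_tower {F G H : Finset C} (h : F ⊆ G) (h' : G ⊆ H) (g : Finset C → V) (p : Finset C) :
    Av (G \ F) (Av (H \ G) g) p = Av (H \ F) g p := by
  rw [Av_union (Finset.disjoint_of_subset_left Finset.sdiff_subset Finset.disjoint_sdiff),
    Finset.union_comm,
    Finset.sdiff_union_sdiff_cancel h' h]

theorem Av_mono (S : Finset C) {g g' : Finset C → ℝ} (h : ∀ q, g q ≤ g' q) (p : Finset C) :
    Av S g p ≤ Av S g' p :=
  smul_le_smul_of_nonneg_left (Finset.sum_le_sum fun _ _ => h _) (by positivity)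

theorem norm_Av_le {X : Type} [NormedAddCommGroup X] [NormedSpace ℝ X] (S : Finset C)
    (g : Finset C → X) (p : Finset C) : ‖Av S g p‖ ≤ Av S (fun q => ‖g q‖) p := by
  simp only [Av]
  rw [norm_smul, Real.norm_of_nonneg (by positivity), smul_eq_mul]
  exact mul_le_mul_of_nonneg_left (norm_sum_le _ _) (by positivity)

theorem abs_Av_le (S : Finset C) {g : Finset C → ℝ} {M : ℝ} (h : ∀ q, |g q| ≤ M) (p : Finset C) :
    |Av S g p| ≤ M :=
  (norm_Av_le S g p).trans ((Av_mono S h p).trans_eq (Av_const S M p))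

/-- one half of a Rademacher function -/
noncomputable def rad (n : C) (q : Finset C) : ℝ := if n ∈ q then 1 / 2 else -(1 / 2)

theorem rad_flip (n : C) (q : Finset C) : rad n (q ∆ {n}) = -rad n q := by
  by_cases h : n ∈ q <;> simp [rad, Finset.mem_symmDiff, h]

theorem rad_same {n : C} (q : Finset C) {t : Finset C} (h : n ∉ t) : rad n (q ∆ t) = rad n q := by
  simp [rad, Finset.mem_symmDiff, h]

theorem rad_sq (n : C) (q : Finset C) : rad n q ^ 2 = 1 / 4 := by
  unfold rad; split_ifs <;> norm_num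

theorem abs_rad (n : C) (q : Finset C) : |rad n q| = 1 / 2 := by
  unfold rad; split_ifs <;> norm_num [abs_of_pos]

theorem Av_sq (ε : C → ℝ) (hε : ∀ n, ε n ^ 2 = 1) (S p : Finset C) :
    Av S (fun q => (∑ n ∈ S, ε n * rad n q) ^ 2) p = S.card / 4 := by
  induction S using Finset.induction_on with
  | empty => simp [Av_empty]
  | insert n S hn ih =>
    rw [Av_insert hn, Finset.card_insert_of_notMem hn]
    have : ∀ q, (1 / 2 : ℝ) • ((∑ k ∈ insert n S, ε k * rad k q) ^ 2 +
        (∑ k ∈ insert n S, ε k * rad k (q ∆ {n})) ^ 2) =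
        (∑ k ∈ S, ε k * rad k q) ^ 2 + 1 / 4 := fun q => by
      rw [Finset.sum_insert hn, Finset.sum_insert hn, rad_flip,
        Finset.sum_congr (f := fun k => ε k * rad k (q ∆ {n})) rfl fun k hk => by
          rw [rad_same q (t := {n}) (by rw [Finset.mem_singleton]; rintro rfl; exact hn hk)]]
      have := rad_sq n q
      have := hε n
      simp only [smul_eq_mul]
      linear_combination (ε n ^ 2) * rad_sq n q + (1 / 4) * hε n
    simp only [this]
    rw [Av_add, ih, Av_const]
    push_cast; ring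

theorem exists_signs (a : C → C → ℝ) (S : Finset C) : ∃ ε : C → ℝ, (∀ n, ε n ^ 2 = 1) ∧
    ∑ k ∈ S, a k k ≤ ∑ k ∈ S, ∑ l ∈ S, ε k * ε l * a k l := by
  induction S using Finset.induction_on with
  | empty => exact ⟨fun _ => 1, by simp, by simp⟩
  | insert n S hn ih =>
    obtain ⟨ε, h1, h2⟩ := ih
    obtain ⟨η, hη, h⟩ : ∃ η : ℝ, η ^ 2 = 1 ∧ 0 ≤ η * ∑ l ∈ S, ε l * (a n l + a l n) := by
      rcases le_total 0 (∑ l ∈ S, ε l * (a n l + a l n)) with h | h
      · exact ⟨1, by simp, by simpa using h⟩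
      · exact ⟨-1, by simp, by simpa using h⟩
    refine ⟨Function.update ε n η, fun k => ?_, ?_⟩
    · by_cases hk : k = n
      · simp [hk, hη]
      · simp [hk, h1]
    have e : ∀ k ∈ S, Function.update ε n η k = ε k := fun k hk =>
      Function.update_of_ne (by rintro rfl; exact hn hk) _ _
    simp only [Finset.sum_insert hn, Function.update_self, Finset.sum_add_distrib]
    rw [Finset.sum_congr (s₁ := S) (f := fun k => η * Function.update ε n η k * a n k) rfl
        fun k hk => by rw [e k hk],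
      Finset.sum_congr (s₁ := S) (f := fun k => Function.update ε n η k * η * a k n) rfl
        fun k hk => by rw [e k hk],
      Finset.sum_congr (s₁ := S)
        (f := fun k => ∑ l ∈ S, Function.update ε n η k * Function.update ε n η l * a k l) rfl
        fun k hk => Finset.sum_congr rfl fun l hl => by rw [e k hk, e l hl]]
    have : η * ∑ l ∈ S, ε l * (a n l + a l n) =
        ∑ l ∈ S, η * ε l * a n l + ∑ l ∈ S, ε l * η * a l n := by
      rw [Finset.mul_sum, ← Finset.sum_add_distrib]
      exact Finset.sum_congr rfl fun l _ => by ring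
    rw [← sq, hη]
    linarith

end av

theorem exists_lim (ι : Type) [SemilatticeSup ι] [Nonempty ι] : ∃ L : (ι → ℝ) →ₗ[ℝ] ℝ,
    (∀ f M, (∀ i, |f i| ≤ M) → |L f| ≤ M) ∧ ∀ f g c, (∀ᶠ i in atTop, f i = g i + c) →
      L f = L g + c := by
  let U := Ultrafilter.of (atTop : Filter ι)
  let P : Submodule ℝ (ι → ℝ) :=
    { carrier := {f | ∃ c, Tendsto f U (𝓝 c)}
      add_mem' := fun ⟨c, hc⟩ ⟨d, hd⟩ => ⟨c + d, hc.add hd⟩
      zero_mem' := ⟨0, tendsto_const_nhds⟩
      smul_mem' := fun r _ ⟨c, hc⟩ => ⟨r • c, hc.const_smul r⟩ }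
  choose l hl using fun f : P => f.2
  obtain ⟨L, hL⟩ := LinearMap.exists_extend (p := P)
    { toFun := l
      map_add' := fun f g => tendsto_nhds_unique (hl _) ((hl f).add (hl g))
      map_smul' := fun r f => tendsto_nhds_unique (hl _) ((hl f).const_smul r) }
  have key : ∀ f c, Tendsto f U (𝓝 c) → L f = c := fun f c h =>
    (LinearMap.congr_fun hL ⟨f, c, h⟩).trans (tendsto_nhds_unique (hl _) h)
  refine ⟨L, fun f M h => ?_, fun f g c h => ?_⟩
  · obtain ⟨c, hc, h'⟩ := (isCompact_Icc (a := -M) (b := M)).ultrafilter_le_nhds (U.map f)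
      (le_principal_iff.2 (Filter.mem_map.2 (Eventually.of_forall fun i => abs_le.1 (h i))))
    rw [key f c h']
    exact abs_le.2 hc
  · have := key (f - g) c (tendsto_const_nhds.congr' ((h.filter_mono (Ultrafilter.of_le _)).mono
      fun i hi => by simp [hi]))
    rw [map_sub] at this
    linarith

theorem exists_ad : ∃ (C B : Type) (_ : DecidableEq C) (_ : Countable C) (_ : Uncountable B)
    (A : B → Set C), (∀ b, (A b).Infinite) ∧ ∀ a b, a ≠ b → (A a ∩ A b).Finite := by
  refine ⟨List Bool, ℕ → Bool, inferInstance, inferInstance, ?_,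
    fun b => range fun n => List.ofFn fun i : Fin n => b i, fun b => ?_, fun a b h => ?_⟩
  · rw [← Cardinal.aleph0_lt_mk_iff]
    simpa using Cardinal.aleph0_lt_continuum
  · refine infinite_range_of_injective fun n m h => ?_
    simpa using congrArg List.length h
  · obtain ⟨i, hi⟩ := Function.ne_iff.1 h
    refine ((finite_Iic i).image fun n => List.ofFn fun i : Fin n => a i).subset ?_
    rintro _ ⟨⟨n, rfl⟩, m, hm⟩
    refine ⟨n, ?_, rfl⟩
    obtain rfl : m = n := by simpa using congrArg List.length hm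
    by_contra hn
    exact hi (congrFun (List.ofFn_injective hm) ⟨i, not_le.1 hn⟩).symm

theorem swindle {J X : Type} [NormedAddCommGroup X] [NormedSpace ℝ X] [CompleteSpace X]
    (u : J ⊕ J × ℕ → X) (hu : ∀ j, ‖u j‖ ≤ 1) (hd : DenseRange (Finsupp.linearCombination ℝ u))
    (Q : (J → ℝ) →ₗ[ℝ] (J → ℝ)) (hQ : ∀ f M, (∀ j, |f j| ≤ M) → ∀ j, |Q f j| ≤ 3 * M)
    (h1 : ∀ x : Dl X, Q (fun j => x (u (.inl j))) = fun j => x (u (.inl j)))
    (h2 : ∀ (f : J → ℝ) (z : J × ℕ → ℝ) (M : ℝ), (∀ j, |f j| ≤ M) → (∀ j, |z j| ≤ M) →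
      ∃ x : Dl X, (fun j => x (u (.inl j))) = Q f ∧ ∀ j, x (u (.inr j)) = z j) :
    Pl (Dl (Dl X)) := by
  let _ : TopologicalSpace J := ⊥
  have : DiscreteTopology J := ⟨rfl⟩
  have hQQ : ∀ f M, (∀ j, |f j| ≤ M) → 0 ≤ M → Q (Q f) = Q f := fun f M h hM => by
    obtain ⟨x, hx, -⟩ := h2 f 0 M h (fun _ => by simpa using hM)
    rw [← hx, h1]
  let s : ℕ → Dl X →ₗ[ℝ] (J → ℝ) := fun n =>
    { toFun := fun x j => x (u (match n with | 0 => .inl j | n + 1 => .inr (j, n)))
      map_add' := fun _ _ => rfl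
      map_smul' := fun _ _ => rfl }
  have hs : ∀ n x j, |s n x j| ≤ ‖x‖ := fun n x j =>
    (x.le_opNorm _).trans (mul_le_of_le_one_right (norm_nonneg _) (hu _))
  have hb : ∀ (x : Dl X) (j : J × ℕ),
      ‖(Q (s j.2 x) + (s (j.2 + 1) x - Q (s (j.2 + 1) x))) j.1‖ ≤ 7 * ‖x‖ := fun x j => by
    have a := abs_le.1 (hQ _ _ (hs j.2 x) j.1)
    have b := abs_le.1 (hQ _ _ (hs (j.2 + 1) x) j.1)
    have c := abs_le.1 (hs (j.2 + 1) x j.1)
    simp only [Pi.add_apply, Pi.sub_apply, Real.norm_eq_abs, abs_le]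
    constructor <;> linarith
  let Θ0 : Dl X →ₗ[ℝ] E (J × ℕ) :=
    { toFun := fun x => BoundedContinuousFunction.ofNormedAddCommGroupDiscrete _ _ (hb x)
      map_add' := fun x y => by ext j; simp; ring
      map_smul' := fun r x => by ext j; simp; ring }
  have hΘ : ∀ x n, (fun j => Θ0 x (j, n)) = Q (s n x) + (s (n + 1) x - Q (s (n + 1) x)) :=
    fun x n => rfl
  let Θ : Dl X →L[ℝ] E (J × ℕ) := Θ0.mkContinuous 7 fun x =>
    (BoundedContinuousFunction.norm_le (by positivity)).2 (hb x)
  have e : Dl X ≃L[ℝ] E (J × ℕ) := by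
    refine ContinuousLinearEquiv.ofBijective Θ (LinearMap.ker_eq_bot'.2 fun x hx => ?_)
      (LinearMap.range_eq_top.2 fun g => ?_)
    · have hx : Θ0 x = 0 := hx
      have a : ∀ n, Q (s n x) + (s (n + 1) x - Q (s (n + 1) x)) = 0 := fun n => by
        rw [← hΘ, hx]; rfl
      have b : ∀ n, Q (s n x) = 0 := fun n => by
        have := congrArg Q (a n)
        rwa [map_add, map_sub, hQQ _ _ (hs n x) (norm_nonneg _),
          hQQ _ _ (hs (n + 1) x) (norm_nonneg _), sub_self, add_zero, map_zero] at this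
      have c : ∀ j, x (u j) = 0 := by
        rintro (j | ⟨j, n⟩)
        · exact congrFun ((h1 x).symm.trans (b 0)) j
        · have := a n
          rw [b n, b (n + 1), zero_add, sub_zero] at this
          exact congrFun this j
      ext y
      refine hd.induction_on y (isClosed_eq (by fun_prop) (by fun_prop)) fun l => ?_
      simp [Finsupp.linearCombination_apply, Finsupp.sum, map_sum, c]
    · let γ : ℕ → J → ℝ := fun n j => g (j, n)
      have hγ : ∀ n j, |γ n j| ≤ ‖g‖ := fun n j => le_nrm g _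
      obtain ⟨x, x1, x2⟩ := h2 (γ 0) (fun j => (γ j.2 - Q (γ j.2) + Q (γ (j.2 + 1))) j.1) (7 * ‖g‖)
        (fun j => (hγ 0 j).trans (by linarith [norm_nonneg g])) fun j => by
          have a := abs_le.1 (hQ _ _ (hγ j.2) j.1)
          have b := abs_le.1 (hQ _ _ (hγ (j.2 + 1)) j.1)
          have c := abs_le.1 (hγ j.2 j.1)
          simp only [Pi.add_apply, Pi.sub_apply, abs_le]
          constructor <;> linarith
      have s1 : ∀ n, s (n + 1) x = γ n - Q (γ n) + Q (γ (n + 1)) := fun n => funext fun j => x2 (j, n)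
      have q := fun n => hQQ _ _ (hγ n) (norm_nonneg _)
      have s2 : ∀ n, Q (s n x) = Q (γ n) := by
        rintro (_ | n)
        · exact (congrArg Q x1).trans (q 0)
        · rw [s1, map_add, map_sub, q, q, sub_self, zero_add]
      refine ⟨x, ?_⟩
      ext ⟨j, n⟩
      have := congrFun (hΘ x n) j
      rw [s2 n, s2 (n + 1), s1] at this
      exact this.trans (by simp [γ])
  exact (pl_dual (J × ℕ)).equiv (e.symm.arrowCongr (ContinuousLinearEquiv.refl ℝ ℝ))

end Pool.Agent.H56.Plk
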