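import Pool.Agent.H56.Plk3

/-! The space: the kernel of a quotient map onto `L₁` of the Cantor cube, given by generators. -/

namespace Pool.Agent.H56.Plk

open Set Topology Filter Pool.Agent.H56.Scp
open scoped symmDiff

/-- the main generators -/
abbrev J0 (C B : Type) : Type := (Finset C × Finset C × Finset C) ⊕ (B × Finset C × Finset C)

/-- the data of a functional -/
abbrev Tr (C B : Type) : Type :=
  (Finset C → Finset C → ℝ) × (B → Finset C → Finset C → ℝ) × (J0 C B × ℕ → ℝ)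

variable {C B : Type} [DecidableEq C]

open Classical in
/-- the part of `F` inside `A b` -/
noncomputable def flt (A : B → Set C) (b : B) (F : Finset C) : Finset C := F.filter (· ∈ A b)

omit [DecidableEq C] in
theorem mem_flt {A : B → Set C} {b : B} {F : Finset C} {x : C} :
    x ∈ flt A b F ↔ x ∈ F ∧ x ∈ A b := by simp [flt]

omit [DecidableEq C] in
theorem flt_eq {A : B → Set C} {b : B} {F : Finset C} (h : ↑F ⊆ A b) : flt A b F = F := by
  ext x; exact mem_flt.trans (and_iff_left_of_imp fun a => h a)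

omit [DecidableEq C] in
theorem flt_sub (A : B → Set C) (b : B) (F : Finset C) : ↑(flt A b F) ⊆ A b :=
  fun _ h => (mem_flt.1 h).2

omit [DecidableEq C] in
theorem flt_mono (A : B → Set C) (b : B) {F G : Finset C} (h : F ⊆ G) : flt A b F ⊆ flt A b G :=
  fun _ a => mem_flt.2 ⟨h (mem_flt.1 a).1, (mem_flt.1 a).2⟩

/-- the coefficients of a functional -/
noncomputable def cf (A : B → Set C) (l : Tr C B) : J0 C B ⊕ J0 C B × ℕ → ℝ
  | .inl (.inl (F, G, p)) => l.1 F p - Av (G \ F) (l.1 (F ∪ G)) p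
  | .inl (.inr (b, F, p)) => l.1 (flt A b F) p - l.2.1 b (flt A b F) p
  | .inr j => l.2.2 j

theorem cf_smul (A : B → Set C) (r : ℝ) (l : Tr C B) (j : J0 C B ⊕ J0 C B × ℕ) :
    cf A (r • l) j = r * cf A l j := by
  rcases j with (⟨F, G, p⟩ | ⟨b, F, p⟩) | j
  · exact (congrArg (r * l.1 F p - ·) (Av_smul (G \ F) r (l.1 (F ∪ G)) p)).trans (mul_sub _ _ _).symm
  · exact (mul_sub _ _ _).symm
  · rfl

theorem cf_add (A : B → Set C) (l l' : Tr C B) (j : J0 C B ⊕ J0 C B × ℕ) :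
    cf A (l + l') j = cf A l j + cf A l' j := by
  rcases j with (⟨F, G, p⟩ | ⟨b, F, p⟩) | j
  · exact (congrArg (l.1 F p + l'.1 F p - ·)
      (Av_add (G \ F) (l.1 (F ∪ G)) (l'.1 (F ∪ G)) p)).trans (add_sub_add_comm _ _ _ _)
  · exact add_sub_add_comm _ _ _ _
  · rfl

/-- `cf` as a linear map -/
noncomputable def cfL (A : B → Set C) : Tr C B →ₗ[ℝ] (J0 C B ⊕ J0 C B × ℕ → ℝ) where
  toFun := cf A
  map_add' l l' := funext (cf_add A l l')
  map_smul' r l := funext (cf_smul A r l)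

/-- bounded data whose second part consists of martingales -/
def Good (A : B → Set C) (M : ℝ) (l : Tr C B) : Prop :=
  (∀ F p, |l.1 F p| ≤ M) ∧ (∀ b F p, |l.2.1 b F p| ≤ M) ∧ (∀ j, |l.2.2 j| ≤ M) ∧
    ∀ b F G p, F ⊆ G → ↑G ⊆ A b → l.2.1 b F p = Av (G \ F) (l.2.1 b G) p

theorem cf_le {A : B → Set C} (l : {l // Good A (1 / 2) l}) (j : J0 C B ⊕ J0 C B × ℕ) :
    ‖cf A l.1 j‖ ≤ 1 := by
  rcases j with (⟨F, G, p⟩ | ⟨b, F, p⟩) | j
  · exact (abs_sub _ _).trans ((add_le_add (l.2.1 _ _) (abs_Av_le _ (l.2.1 _) _)).trans (by norm_num))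
  · exact (abs_sub _ _).trans ((add_le_add (l.2.1 _ _) (l.2.2.1 _ _ _)).trans (by norm_num))
  · exact (l.2.2.2.1 j).trans (by norm_num)

variable {X : Type} [NormedAddCommGroup X] [NormedSpace ℝ X] {A : B → Set C}
  {u : J0 C B ⊕ J0 C B × ℕ → X} {ev : {l // Good A (1 / 2) l} → X →L[ℝ] ℝ}

theorem fun_of (h0 : ∀ c j, ev c (u j) = cf A c.1 j) {M : ℝ} {l : Tr C B} (hl : Good A M l) :
    ∃ x : Dl X, ∀ j, x (u j) = cf A l j := by
  have hr : 0 < 2 * (|M| + 1) := by positivity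
  have hb : ∀ y : ℝ, |y| ≤ M → |(2 * (|M| + 1))⁻¹ * y| ≤ 1 / 2 := fun y hy => by
    rw [abs_mul, abs_of_pos (inv_pos.2 hr), inv_mul_le_iff₀ hr]
    linarith [le_abs_self M]
  refine ⟨(2 * (|M| + 1)) • ev ⟨(2 * (|M| + 1))⁻¹ • l, fun F p => hb _ (hl.1 F p),
    fun b F p => hb _ (hl.2.1 b F p), fun j => hb _ (hl.2.2.1 j), fun b F G p a a' => ?_⟩, fun j => ?_⟩
  · exact (congrArg (_ * ·) (hl.2.2.2 b F G p a a')).trans (Av_smul _ _ _ _).symm
  · rw [smul_apply, h0, cf_smul, smul_eq_mul, mul_inv_cancel_left₀ hr.ne']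

theorem rel1 (h0 : ∀ c j, ev c (u j) = cf A c.1 j)
    (h2 : ∀ x M, 0 ≤ M → (∀ c, ‖ev c x‖ ≤ M) → ‖x‖ ≤ M) {F G H : Finset C} (h : F ∪ G ⊆ H)
    (p : Finset C) : u (.inl (.inl (F, H, p))) =
      Av (G \ F) (fun q => u (.inl (.inl (F ∪ G, H, q)))) p + u (.inl (.inl (F, G, p))) := by
  rw [← sub_eq_zero, ← norm_le_zero_iff]
  refine h2 _ _ le_rfl fun c => le_of_eq (norm_eq_zero.2 ?_)
  have := map_Av (ev c).toLinearMap (G \ F) (fun q => u (.inl (.inl (F ∪ G, H, q)))) p
  simp only [ContinuousLinearMap.coe_coe] at this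
  rw [map_sub, map_add, this]
  simp only [h0, cf]
  rw [Av_sub, Finset.union_eq_right.2 h, Finset.union_eq_right.2 (Finset.subset_union_left.trans h),
    ← Av_tower Finset.subset_union_left h, Finset.union_sdiff_left]
  ring

theorem rel2 (h0 : ∀ c j, ev c (u j) = cf A c.1 j)
    (h2 : ∀ x M, 0 ≤ M → (∀ c, ‖ev c x‖ ≤ M) → ‖x‖ ≤ M) {b : B} {F K : Finset C}
    (h : flt A b F ⊆ K) (hK : ↑K ⊆ A b) (p : Finset C) : u (.inl (.inr (b, F, p))) =
      Av (K \ flt A b F) (fun q => u (.inl (.inr (b, K, q)))) p +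
        u (.inl (.inl (flt A b F, K, p))) := by
  rw [← sub_eq_zero, ← norm_le_zero_iff]
  refine h2 _ _ le_rfl fun c => le_of_eq (norm_eq_zero.2 ?_)
  have := map_Av (ev c).toLinearMap (K \ flt A b F) (fun q => u (.inl (.inr (b, K, q)))) p
  simp only [ContinuousLinearMap.coe_coe] at this
  rw [map_sub, map_add, this]
  simp only [h0, cf]
  rw [Av_sub, Finset.union_eq_right.2 h, flt_eq hK, c.2.2.2.2 b _ K p h hK]
  ring

theorem pl_bidual [CompleteSpace X] (h0 : ∀ c j, ev c (u j) = cf A c.1 j)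
    (h2 : ∀ x M, 0 ≤ M → (∀ c, ‖ev c x‖ ≤ M) → ‖x‖ ≤ M)
    (hd : DenseRange (Finsupp.linearCombination ℝ u)) : Pl (Dl (Dl X)) := by
  obtain ⟨L, L1, L2⟩ := exists_lim (Finset C)
  have LA : ∀ (S : Finset C) (g : Finset C → Finset C → ℝ) (p : Finset C),
      Av S (fun q => L (fun H => g H q)) p = L (fun H => Av S (g H) p) := fun S g p => by
    rw [← map_Av]
    congr 1
    ext H
    exact map_Av (LinearMap.proj H) S (fun q H => g H q) p
  let φ : (J0 C B → ℝ) → Finset C → Finset C → ℝ := fun ψ F p => L fun H => ψ (.inl (F, H, p))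
  let D : (J0 C B → ℝ) →ₗ[ℝ] Tr C B :=
    { toFun := fun ψ => (φ ψ, fun b F p => L fun H => Av (flt A b H \ F)
        (fun q => φ ψ (flt A b H) q - ψ (.inr (b, flt A b H, q))) p, 0)
      map_add' := fun ψ ψ' => by
        have e : ∀ F p, φ (ψ + ψ') F p = φ ψ F p + φ ψ' F p := fun F p => L.map_add _ _
        refine Prod.ext (funext₂ e) (Prod.ext (funext₃ fun b F p => ?_) (add_zero _).symm)
        refine (congrArg L (funext fun H => ?_)).trans (L.map_add _ _)
        simp only [e, Pi.add_apply, add_sub_add_comm, Av_add]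
      map_smul' := fun r ψ => by
        have e : ∀ F p, φ (r • ψ) F p = r • φ ψ F p := fun F p => L.map_smul _ _
        refine Prod.ext (funext₂ e) (Prod.ext (funext₃ fun b F p => ?_) (smul_zero _).symm)
        refine (congrArg L (funext fun H => ?_)).trans (L.map_smul _ _)
        simp only [e, Pi.smul_apply, ← smul_sub, Av_smul, RingHom.id_apply] }
  have b1 : ∀ ψ M, (∀ j, |ψ j| ≤ M) → ∀ F p, |φ ψ F p| ≤ M := fun ψ M h F p => L1 _ _ fun H => h _
  have b2 : ∀ ψ M, (∀ j, |ψ j| ≤ M) → ∀ b F p, |(D ψ).2.1 b F p| ≤ 2 * M := fun ψ M h b F p =>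
    L1 _ _ fun H => abs_Av_le _ (fun q => (abs_sub _ _).trans (by
      linarith [b1 ψ M h (flt A b H) q, h (.inr (b, flt A b H, q))])) _
  refine swindle u (fun j => h2 _ _ zero_le_one fun c => h0 c j ▸ cf_le c j) hd
    ((LinearMap.funLeft ℝ ℝ Sum.inl).comp ((cfL A).comp D)) (fun f M h j => ?_) (fun x => ?_)
    fun f z M hf hz => ?_
  · have hM : 0 ≤ M := (abs_nonneg _).trans (h j)
    rcases j with ⟨F, G, p⟩ | ⟨b, F, p⟩
    · exact (abs_sub _ _).trans ((add_le_add (b1 f M h _ _) (abs_Av_le _ (b1 f M h _) _)).trans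
        (by linarith))
    · exact (abs_sub _ _).trans ((add_le_add (b1 f M h _ _) (b2 f M h _ _ _)).trans (by linarith))
  · set ψ : J0 C B → ℝ := fun j => x (u (.inl j)) with hψ
    have k1 : ∀ F G p, φ ψ F p = Av (G \ F) (φ ψ (F ∪ G)) p + ψ (.inl (F, G, p)) := fun F G p => by
      refine (L2 _ _ _ ((eventually_ge_atTop (F ∪ G)).mono fun H hH => ?_)).trans
        (congrArg (· + _) (LA (G \ F) (fun H q => ψ (.inl (F ∪ G, H, q))) p).symm)
      simp only [hψ]
      rw [rel1 h0 h2 hH, map_add]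
      exact congrArg (· + _) (map_Av x.toLinearMap _ _ _)
    ext (⟨F, G, p⟩ | ⟨b, F, p⟩)
    · exact sub_eq_iff_eq_add'.2 (k1 F G p)
    · have : (D ψ).2.1 b (flt A b F) p = L 0 + (φ ψ (flt A b F) p - ψ (.inr (b, F, p))) := by
        refine L2 _ _ _ ((eventually_ge_atTop F).mono fun H hH => ?_)
        have hs := flt_mono A b hH
        rw [Av_sub, k1 (flt A b F) (flt A b H) p, Finset.union_eq_right.2 hs]
        simp only [hψ]
        rw [rel2 h0 h2 hs (flt_sub A b H), map_add]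
        have := map_Av x.toLinearMap (flt A b H \ flt A b F)
          (fun q => u (.inl (.inr (b, flt A b H, q)))) p
        simp only [ContinuousLinearMap.coe_coe] at this
        rw [this]
        simp
      show φ ψ (flt A b F) p - (D ψ).2.1 b (flt A b F) p = _
      rw [this]
      simp
  · have hM : 0 ≤ M := (abs_nonneg _).trans (hf (.inl (∅, ∅, ∅)))
    obtain ⟨x, hx⟩ := fun_of h0 (M := 2 * M) (l := ((D f).1, (D f).2.1, z))
      ⟨fun F p => (b1 f M hf F p).trans (by linarith), b2 f M hf,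
        fun j => (hz j).trans (by linarith), fun b F G p a a' => by
          refine (L2 _ _ 0 ((eventually_ge_atTop G).mono fun H hH => ?_)).trans
            ((add_zero _).trans (LA (G \ F) (fun H => Av (flt A b H \ G)
              fun q => φ f (flt A b H) q - f (.inr (b, flt A b H, q))) p).symm)
          rw [add_zero, Av_tower a (flt_eq a' ▸ flt_mono A b hH)]⟩
    refine ⟨x, funext fun j => (hx _).trans ?_, fun j => hx _⟩
    rcases j with ⟨F, G, p⟩ | ⟨b, F, p⟩ <;> rfl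

end Pool.Agent.H56.Plk
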