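import Pool.Agent.H56.Plk4

/-! The space fails the separable complementation property. -/

namespace Pool.Agent.H56.Plk

open Set Topology Filter Pool.Agent.H56.Scp
open scoped symmDiff

variable {C B : Type} [DecidableEq C]

/-- the martingale of a Rademacher function -/
noncomputable def rho (n : C) (F p : Finset C) : ℝ := if n ∈ F then rad n p else 0

theorem abs_rho (n : C) (F p : Finset C) : |rho n F p| ≤ 1 / 2 := by
  unfold rho; split_ifs
  · exact (abs_rad n p).le
  · simp

theorem rho_mart (n : C) {F G : Finset C} (h : F ⊆ G) (p : Finset C) :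
    rho n F p = Av (G \ F) (rho n G) p := by
  by_cases hF : n ∈ F
  · rw [Av_congr (g' := fun _ => rad n p) fun t ht => by
      simp only [rho, if_pos (h hF)]
      exact rad_same p fun a => (Finset.mem_sdiff.1 (ht a)).2 hF, Av_const, rho, if_pos hF]
  · by_cases hG : n ∈ G
    · rw [← Finset.insert_erase (Finset.mem_sdiff.2 ⟨hG, hF⟩), Av_insert (Finset.notMem_erase _ _)]
      simp [rho, hF, hG, rad_flip, Av_const]
    · have : rho n G = fun _ => 0 := by ext; simp [rho, hG]
      simp [this, Av_const, rho, hF]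

open Classical in
/-- the Rademacher functional restricted to a set of pieces -/
noncomputable def dat (n : C) (W : Set ((Finset C × Finset C) ⊕ B)) : Tr C B :=
  (fun F p => if .inl (F, p) ∈ W then rho n F p else 0,
    fun a F p => if .inr a ∈ W then rho n F p else 0, 0)

theorem good_sum (A : B → Set C) (S : Finset C) (ε : C → ℝ) (hε : ∀ n, ε n ^ 2 = 1)
    (W : C → Set ((Finset C × Finset C) ⊕ B))
    (hW : ∀ n ∈ S, ∀ m ∈ S, ∀ c, c ∈ W n → c ∈ W m → n = m) :
    Good A (1 / 2) (∑ n ∈ S, ε n • dat n (W n)) := by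
  classical
  have key : ∀ c F p, |∑ n ∈ S, ε n * if c ∈ W n then rho n F p else 0| ≤ 1 / 2 := fun c F p => by
    by_cases h : ∃ n ∈ S, c ∈ W n
    · obtain ⟨n, hn, hc⟩ := h
      rw [Finset.sum_eq_single_of_mem n hn fun m hm hne => by
        rw [if_neg fun a => hne (hW m hm n hn c a hc), mul_zero], if_pos hc, abs_mul,
        (pow_eq_one_iff_of_nonneg (abs_nonneg (ε n)) two_ne_zero).1 ((sq_abs _).trans (hε n)),
        one_mul]
      exact abs_rho _ _ _
    · rw [Finset.sum_eq_zero fun n hn => by rw [if_neg fun a => h ⟨n, hn, a⟩, mul_zero]]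
      simp
  refine ⟨fun F p => ?_, fun b F p => ?_, fun j => ?_, fun b F G p h _ => ?_⟩
  · simpa [Prod.fst_sum, dat] using key (.inl (F, p)) F p
  · simpa [Prod.fst_sum, Prod.snd_sum, dat] using key (.inr b) F p
  · simp [Prod.snd_sum, dat]
  · have e : ∀ F p, (∑ n ∈ S, ε n • dat n (W n)).2.1 b F p =
        ∑ n ∈ S, (if .inr b ∈ W n then ε n else 0) • rho n F p := fun F p => by
      simp [Prod.fst_sum, Prod.snd_sum, dat]
    rw [funext (e G), e, Av_sum]
    exact Finset.sum_congr rfl fun n _ => by rw [Av_smul, ← rho_mart n h]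

theorem good_dat (A : B → Set C) (n : C) (W : Set ((Finset C × Finset C) ⊕ B)) :
    Good A (1 / 2) (dat n W) := by
  simpa using good_sum A {n} (fun _ => 1) (by simp) (fun _ => W) (by simp)

theorem cf_zero (A : B → Set C) (n : C) (W : Set ((Finset C × Finset C) ⊕ B))
    (h1 : ∀ F p, .inl (F, p) ∈ W → n ∉ F) (h2 : ∀ a, .inr a ∈ W → n ∉ A a)
    (j : J0 C B ⊕ J0 C B × ℕ) : cf A (dat n W) j = 0 := by
  have e : (dat n W).1 = fun _ _ => 0 := by
    ext F p
    simp only [dat, rho]
    split_ifs with a b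
    · exact absurd b (h1 F p a)
    · rfl
    · rfl
  rcases j with (⟨F, G, p⟩ | ⟨b, F, p⟩) | j
  · simp [cf, e, Av_const]
  · simp only [cf, e, zero_sub, neg_eq_zero]
    simp only [dat, rho]
    split_ifs with a b
    · exact absurd (mem_flt.1 b).2 (h2 _ a)
    · rfl
    · rfl
  · rfl

theorem cf_univ (A : B → Set C) (n : C) (j : J0 C B ⊕ J0 C B × ℕ) : cf A (dat n univ) j = 0 := by
  rcases j with (⟨F, G, p⟩ | ⟨b, F, p⟩) | j
  · simp only [cf, dat, mem_univ, if_true]
    rw [rho_mart n (Finset.subset_union_left (s₂ := G)), Finset.union_sdiff_left, sub_self]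
  · simp [cf, dat]
  · rfl

theorem dat_split (n : C) (W W' : Set ((Finset C × Finset C) ⊕ B)) :
    dat n W = dat n (W ∩ W') + dat n (W \ W') := by
  refine Prod.ext (funext₂ fun F p => ?_) (Prod.ext (funext₃ fun b F p => ?_) (add_zero _).symm)
  · by_cases a : .inl (F, p) ∈ W <;> by_cases b : .inl (F, p) ∈ W' <;> simp [dat, a, b]
  · by_cases a : .inr b ∈ W <;> by_cases b : .inr b ∈ W' <;> simp [dat, a, b]

theorem cf_local (A : B → Set C) (j : J0 C B ⊕ J0 C B × ℕ) :
    ∃ K : Set ((Finset C × Finset C) ⊕ B), K.Finite ∧ ∀ n W, Disjoint W K → cf A (dat n W) j = 0 := by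
  rcases j with (⟨F, G, p⟩ | ⟨b, F, p⟩) | j
  · refine ⟨insert (.inl (F, p)) ((fun t => .inl (F ∪ G, p ∆ t)) '' (G \ F).powerset),
      ((Finset.finite_toSet _).image _).insert _, fun n W h => ?_⟩
    rw [disjoint_right] at h
    simp only [cf]
    rw [Av_congr (g' := fun _ => 0) fun t ht => by
      simp [dat, h (mem_insert_of_mem _ ⟨t, Finset.mem_coe.2 (Finset.mem_powerset.2 ht), rfl⟩)], Av_const]
    simp [dat, h (mem_insert _ _)]
  · refine ⟨{.inl (flt A b F, p), .inr b}, by simp, fun n W h => ?_⟩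
    rw [disjoint_right] at h
    simp [cf, dat, h (mem_insert _ _), h (mem_insert_of_mem _ (mem_singleton _))]
  · exact ⟨∅, finite_empty, fun _ _ _ => rfl⟩

variable {X : Type} [NormedAddCommGroup X] [NormedSpace ℝ X] {A : B → Set C}
  {u : J0 C B ⊕ J0 C B × ℕ → X} {ev : {l // Good A (1 / 2) l} → X →L[ℝ] ℝ}

theorem noscp [Uncountable B] (h0 : ∀ c j, ev c (u j) = cf A c.1 j) (h1 : ∀ c x, ‖ev c x‖ ≤ ‖x‖)
    (h2 : ∀ x M, 0 ≤ M → (∀ c, ‖ev c x‖ ≤ M) → ‖x‖ ≤ M)
    (hd : DenseRange (Finsupp.linearCombination ℝ u)) (a1 : ∀ b, (A b).Infinite)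
    (a2 : ∀ a b, a ≠ b → (A a ∩ A b).Finite) (R : X →L[ℝ] X)
    (hR : ∀ j, R (u (.inl (.inl j))) = u (.inl (.inl j))) (T : Set (J0 C B ⊕ J0 C B × ℕ))
    (hT : T.Countable) (hRT : ∀ x, R x ∈ closure (Submodule.span ℝ (u '' T) : Set X)) : False := by
  classical
  obtain ⟨b, hb⟩ : ∃ b, b ∉ Prod.fst '' (Sum.inr ⁻¹' (Sum.inl ⁻¹' T)) := by
    by_contra hn
    push Not at hn
    exact not_countable_univ ((((hT.preimage Sum.inl_injective).preimage Sum.inr_injective).image
      Prod.fst).mono fun b _ => hn b)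
  have ext : ∀ f g : X →L[ℝ] ℝ, (∀ j, f (u j) = g (u j)) → f = g := fun f g h => by
    ext y
    refine hd.induction_on y (isClosed_eq (by fun_prop) (by fun_prop)) fun l => ?_
    simp [Finsupp.linearCombination_apply, Finsupp.sum, map_sum, h]
  let Φ := fun n W => ev ⟨dat n W, good_dat A n W⟩
  have Φ2 : ∀ n W W', Φ n W = Φ n (W ∩ W') + Φ n (W \ W') := fun n W W' => ext _ _ fun j => by
    simp only [Φ, add_apply, h0]
    rw [← cf_add, ← dat_split]
  have Φ5 : ∀ x, ∃ K : Set ((Finset C × Finset C) ⊕ B), K.Finite ∧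
      ∀ n W, Disjoint W K → |Φ n W x| ≤ 1 / 2 := fun x => by
    obtain ⟨_, ⟨l, rfl⟩, hl⟩ := Metric.mem_closure_iff.1 (hd x) (1 / 2) (by norm_num)
    choose K K1 K2 using cf_local A
    refine ⟨⋃ j ∈ l.support, K j, l.support.finite_toSet.biUnion fun j _ => K1 j, fun n W h => ?_⟩
    have : Φ n W (Finsupp.linearCombination ℝ u l) = 0 := by
      rw [Finsupp.linearCombination_apply, Finsupp.sum, map_sum]
      refine Finset.sum_eq_zero fun j hj => ?_
      rw [map_smul, h0, K2 j n W (h.mono_right (subset_biUnion_of_mem (u := K) hj)), smul_zero]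
    have h3 := h1 ⟨dat n W, good_dat A n W⟩ (x - Finsupp.linearCombination ℝ u l)
    rw [map_sub, this, sub_zero, ← dist_eq_norm] at h3
    exact h3.trans hl.le
  let y : C → X := fun n => u (.inl (.inr (b, {n}, {n}))) - u (.inl (.inr (b, {n}, ∅)))
  let z : C → X := fun n => y n - R (y n)
  have hz : ∀ n ∈ A b, Φ n {.inr b}ᶜ (z n) = 1 := fun n hn => by
    have e1 : Φ n univ = 0 := ext _ _ fun j => by simp only [Φ, h0, cf_univ, zero_apply]
    have e2 := congrArg (fun f : X →L[ℝ] ℝ => f (z n)) (Φ2 n univ {.inr b})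
    have e3 : Φ n {.inr b} (R (y n)) = 0 := by
      refine closure_minimal (t := (LinearMap.ker (Φ n {.inr b}).toLinearMap : Set X))
        (Submodule.span_le.2 ?_) (Φ n {.inr b}).isClosed_ker (hRT (y n))
      rintro _ ⟨(⟨F, G, p⟩ | ⟨a, F, p⟩) | j, hj, rfl⟩
      · exact (h0 _ _).trans (by
          have : (dat n ({.inr b} : Set ((Finset C × Finset C) ⊕ B))).1 = fun _ _ => 0 := by
            ext; simp [dat]
          simp [cf, this, Av_const])
      · have : a ≠ b := by rintro rfl; exact hb ⟨(a, F, p), hj, rfl⟩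
        exact (h0 _ _).trans (by simp [cf, dat, this])
      · exact h0 _ _
    have e4 : Φ n {.inr b} (y n) = -1 := by
      have : flt A b {n} = {n} := flt_eq (by simpa using hn)
      simp only [y, Φ, map_sub, h0]
      simp [cf, dat, this, rho, rad]
      norm_num
    simp only [e1, zero_apply, add_apply, univ_inter, ← compl_eq_univ_sdiff] at e2
    simp only [z, map_sub, e3, e4] at e2 ⊢
    linarith
  have sel : ∀ N : ℕ, ∃ (S : Finset C) (W : C → Set ((Finset C × Finset C) ⊕ B)), S.card = N ∧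
      ↑S ⊆ A b ∧ (∀ n, (W n).Finite ∧ .inr b ∉ W n) ∧
      (∀ n ∈ S, ∀ m ∈ S, ∀ c, c ∈ W n → c ∈ W m → n = m) ∧ ∀ n ∈ S, 1 / 2 ≤ Φ n (W n) (z n) := by
    intro N
    induction N with
    | zero => exact ⟨∅, fun _ => ∅, rfl, by simp, by simp, by simp, by simp⟩
    | succ N ih =>
      obtain ⟨S, W, s1, s2, s3, s4, s5⟩ := ih
      let K0 := ⋃ n ∈ S, W n
      have hK0 : K0.Finite := S.finite_toSet.biUnion fun n _ => (s3 n).1
      have hb0 : .inr b ∉ K0 := fun h => by
        obtain ⟨n, -, h⟩ := mem_iUnion₂.1 h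
        exact (s3 n).2 h
      have hfin : ((S : Set C) ∪ (⋃ c ∈ Sum.inl ⁻¹' K0, (c.1 : Set C)) ∪
          ⋃ a ∈ Sum.inr ⁻¹' K0, A a ∩ A b).Finite :=
        (S.finite_toSet.union ((hK0.preimage Sum.inl_injective.injOn).biUnion fun c _ =>
          c.1.finite_toSet)).union ((hK0.preimage Sum.inr_injective.injOn).biUnion fun a ha =>
            a2 a b (by rintro rfl; exact hb0 ha))
      obtain ⟨n, n1, n2⟩ := ((a1 b).sdiff hfin).nonempty
      simp only [mem_union, not_or] at n2
      obtain ⟨K, K1, K2⟩ := Φ5 (z n)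
      have e : ∀ m ∈ S, Function.update W n (({.inr b}ᶜ \ K0) ∩ K) m = W m := fun m hm =>
        Function.update_of_ne (by rintro rfl; exact n2.1.1 hm) _ _
      refine ⟨insert n S, Function.update W n (({.inr b}ᶜ \ K0) ∩ K),
        by rw [Finset.card_insert_of_notMem n2.1.1, s1], by simp [insert_subset_iff, n1, s2],
        fun m => ?_, ?_, ?_⟩
      · by_cases hm : m = n
        · rw [hm, Function.update_self]
          exact ⟨K1.subset inter_subset_right, fun h => h.1.1 rfl⟩
        · rw [Function.update_of_ne hm]; exact s3 m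
      · intro m hm k hk c
        rcases Finset.mem_insert.1 hm with rfl | hm' <;>
          rcases Finset.mem_insert.1 hk with rfl | hk'
        · exact fun _ _ => rfl
        · rw [Function.update_self, e k hk']
          exact fun a a' => absurd (mem_biUnion hk' a') a.1.2
        · rw [Function.update_self, e m hm']
          exact fun a a' => absurd (mem_biUnion hm' a) a'.1.2
        · rw [e m hm', e k hk']; exact s4 m hm' k hk' c
      · intro m hm
        rcases Finset.mem_insert.1 hm with rfl | hm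
        · rw [Function.update_self]
          have e1 : Φ m ({.inr b}ᶜ ∩ K0) = 0 := ext _ _ fun j => (h0 _ _).trans
            (cf_zero A m _ (fun F p h a => n2.1.2 (mem_biUnion (x := (F, p)) h.2 a))
              (fun a h a' => n2.2 (mem_biUnion (x := a) h.2 ⟨a', n1⟩)) j)
          have e2 := hz m n1
          rw [Φ2 m _ K0, e1, zero_add, Φ2 m _ K, add_apply] at e2
          linarith [(abs_le.1 (K2 m (({.inr b}ᶜ \ K0) \ K) disjoint_sdiff_left)).2]
        · rw [e m hm]; exact s5 m hm
  set κ := 1 + ‖R‖ with hκ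
  have κ0 : 0 < κ := by positivity
  obtain ⟨N, hN⟩ := exists_nat_gt (16 * κ ^ 2)
  obtain ⟨S, W, s1, s2, -, s4, s5⟩ := sel N
  obtain ⟨ε, e1, e2⟩ := exists_signs (fun k l => Φ k (W k) (z l)) S
  let v : X := (4 : ℝ) • Av S (fun q => (∑ n ∈ S, ε n * rad n q) • u (.inl (.inr (b, S, q)))) ∅
  have hv : ∑ n ∈ S, ε n • z n = v - R v := by
    have : ∀ n ∈ S, z n = (4 : ℝ) • Av S (fun q => rad n q • u (.inl (.inr (b, S, q)))) ∅ -
        R ((4 : ℝ) • Av S (fun q => rad n q • u (.inl (.inr (b, S, q)))) ∅) := fun n hn => by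
      have f1 : flt A b {n} = {n} := flt_eq (by simpa using s2 hn)
      have r := fun p => rel2 h0 h2 (b := b) (F := {n}) (K := S) (by simpa [f1] using hn) s2 p
      have : (4 : ℝ) • Av S (fun q => rad n q • u (.inl (.inr (b, S, q)))) ∅ =
          Av (S \ {n}) (fun q => u (.inl (.inr (b, S, q)))) {n} -
          Av (S \ {n}) (fun q => u (.inl (.inr (b, S, q)))) ∅ := by
        have e0 : (∅ : Finset C) ∆ {n} = {n} := bot_symmDiff _
        conv_lhs => rw [← Finset.insert_erase hn, Av_insert (Finset.notMem_erase _ _),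
          Finset.insert_erase hn, ← Av_smul]
        rw [← e0, ← Av_shift, e0, ← Av_sub, Finset.sdiff_singleton_eq_erase]
        refine Av_congr fun t ht => ?_
        have : rad n (∅ ∆ t) = -(1 / 2) := by
          rw [rad_same _ fun a => Finset.notMem_erase _ _ (ht a)]; simp [rad]
        rw [rad_flip, this]
        module
      rw [this]
      simp only [z, y, r, f1, map_sub, map_add, hR]
      abel
    rw [Finset.sum_congr rfl fun n hn => by rw [this n hn]]
    have : v = ∑ n ∈ S, ε n • (4 : ℝ) • Av S (fun q => rad n q • u (.inl (.inr (b, S, q)))) ∅ := by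
      simp only [v, Finset.sum_smul, mul_smul, Av_sum, Av_smul, Finset.smul_sum]
      exact Finset.sum_congr rfl fun n _ => smul_comm _ _ _
    rw [this]
    simp only [map_sum, map_smul, smul_sub, Finset.sum_sub_distrib]
  have hn : ‖v‖ ≤ 4 * (N / 4 / (4 * κ) + κ) := by
    simp only [v]
    rw [norm_smul, Real.norm_of_nonneg (by norm_num)]
    refine mul_le_mul_of_nonneg_left ((norm_Av_le _ _ _).trans ((Av_mono S (g' := fun q =>
      (4 * κ)⁻¹ • (∑ n ∈ S, ε n * rad n q) ^ 2 + κ) (fun q => ?_) _).trans_eq ?_)) (by norm_num)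
    · rw [norm_smul, Real.norm_eq_abs, ← sq_abs, smul_eq_mul]
      have : ‖u (.inl (.inr (b, S, q)))‖ ≤ 1 := h2 _ _ zero_le_one fun c => h0 c _ ▸ cf_le c _
      refine (mul_le_of_le_one_right (abs_nonneg _) this).trans ?_
      generalize |∑ n ∈ S, ε n * rad n q| = w
      rw [← sub_le_iff_le_add, le_inv_mul_iff₀ (by positivity)]
      nlinarith [sq_nonneg (w - 2 * κ)]
    · rw [Av_add, Av_smul, Av_sq ε e1, Av_const, s1, smul_eq_mul]
      field_simp
  have up := h1 ⟨_, good_sum A S ε e1 W s4⟩ (v - R v)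
  have e3 : ev ⟨_, good_sum A S ε e1 W s4⟩ = ∑ n ∈ S, ε n • Φ n (W n) := ext _ _ fun j => by
    rw [h0]
    have := congrFun (map_sum (cfL A) (fun n => ε n • dat n (W n)) S) j
    simp only [map_smul, Finset.sum_apply, Pi.smul_apply] at this
    simp only [sum_apply, smul_apply, Φ, h0]
    exact this
  have e4 : ev ⟨_, good_sum A S ε e1 W s4⟩ (v - R v) =
      ∑ k ∈ S, ∑ l ∈ S, ε k * ε l * Φ k (W k) (z l) := by
    rw [e3, ← hv]
    simp only [sum_apply, smul_apply, map_sum, map_smul, smul_eq_mul,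
      Finset.mul_sum]
    rw [Finset.sum_comm]
    exact Finset.sum_congr rfl fun k _ => Finset.sum_congr rfl fun l _ => by ring
  have low : (N : ℝ) * (1 / 2) ≤ ∑ k ∈ S, Φ k (W k) (z k) := by
    rw [← s1, ← nsmul_eq_mul]
    exact Finset.card_nsmul_le_sum _ _ _ s5
  have b1 : ‖v - R v‖ ≤ κ * ‖v‖ := by
    have := norm_sub_le v (R v)
    have := R.le_opNorm v
    rw [hκ]; linarith
  have b2 := mul_le_mul_of_nonneg_left hn κ0.le
  have b3 : κ * (4 * (N / 4 / (4 * κ) + κ)) = N / 4 + 4 * κ ^ 2 := by field_simp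
  rw [e4] at up
  have := (le_abs_self _).trans up
  linarith

/-- a Banach space without the separable complementation property with Plichko bidual -/
theorem main : ∃ (X : Type) (_ : NormedAddCommGroup X) (_ : NormedSpace ℝ X) (_ : CompleteSpace X),
    Pl (Dl (Dl X)) ∧ ∃ Y : Submodule ℝ X, TopologicalSpace.IsSeparable (Y : Set X) ∧
      ∀ (V : Set X) (P : X →L[ℝ] X), TopologicalSpace.IsSeparable V → (∀ x, P x ∈ V) →
        (∀ y ∈ Y, P y = y) → False := by
  obtain ⟨C, B, _, _, _, A, a1, a2⟩ := exists_ad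
  obtain ⟨X, i1, i2, i3, u, ev, h0, h1, h2, hd⟩ :=
    exists_space (fun (c : {l // Good A (1 / 2) l}) => cf A c.1) cf_le
  refine ⟨X, i1, i2, i3, pl_bidual h0 h2 hd, Submodule.span ℝ (range fun j => u (.inl (.inl j))),
    (countable_range _).isSeparable.span, fun V P ⟨D, hD, hVD⟩ p1 p2 => ?_⟩
  choose T hT1 hT2 using exists_supp hd
  refine noscp h0 h1 h2 hd a1 a2 P (fun j => p2 _ (Submodule.subset_span ⟨j, rfl⟩)) (⋃ x ∈ D, T x)
    (hD.biUnion fun x _ => hT1 x) fun x => closure_minimal (fun y hy => ?_) isClosed_closure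
      (hVD (p1 x))
  exact closure_mono (Submodule.span_mono (image_mono (subset_biUnion_of_mem (u := T) hy))) (hT2 y)

end Pool.Agent.H56.Plk
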