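import Pool.Agent.H56.Plk5

/-! A subspace of `ℓ₁(Γ)` without the separable complementation property. -/

namespace Pool.Agent.H56.Plk

open Set Topology Filter Pool.Agent.H56.Scp
open scoped symmDiff

section
variable {C B : Type} [DecidableEq C] {X : Type} [NormedAddCommGroup X] [NormedSpace ℝ X]
  {A : B → Set C} {u : J0 C B ⊕ J0 C B × ℕ → X} {ev : {l // Good A (1 / 2) l} → X →L[ℝ] ℝ}

theorem fun_of' (h0 : ∀ c j, ev c (u j) = cf A c.1 j) (h1 : ∀ c x, ‖ev c x‖ ≤ ‖x‖) {M : ℝ}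
    {l : Tr C B} (hl : Good A M l) :
    ∃ x : Dl X, (∀ j, x (u j) = cf A l j) ∧ ∀ y, |x y| ≤ 2 * (|M| + 1) * ‖y‖ := by
  have hr : 0 < 2 * (|M| + 1) := by positivity
  have hb : ∀ y : ℝ, |y| ≤ M → |(2 * (|M| + 1))⁻¹ * y| ≤ 1 / 2 := fun y hy => by
    rw [abs_mul, abs_of_pos (inv_pos.2 hr), inv_mul_le_iff₀ hr]
    linarith [le_abs_self M]
  refine ⟨(2 * (|M| + 1)) • ev ⟨(2 * (|M| + 1))⁻¹ • l, fun F p => hb _ (hl.1 F p),
    fun b F p => hb _ (hl.2.1 b F p), fun j => hb _ (hl.2.2.1 j), fun b F G p a a' => ?_⟩,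
    fun j => ?_, fun y => ?_⟩
  · exact (congrArg (_ * ·) (hl.2.2.2 b F G p a a')).trans (Av_smul _ _ _ _).symm
  · rw [smul_apply, h0, cf_smul, smul_eq_mul, mul_inv_cancel_left₀ hr.ne']
  · rw [smul_apply, smul_eq_mul, abs_mul, abs_of_pos hr]
    exact mul_le_mul_of_nonneg_left (h1 _ _) hr.le

theorem exists_Q (h0 : ∀ c j, ev c (u j) = cf A c.1 j) (h1 : ∀ c x, ‖ev c x‖ ≤ ‖x‖)
    (h2 : ∀ x M, 0 ≤ M → (∀ c, ‖ev c x‖ ≤ M) → ‖x‖ ≤ M) :
    ∃ Q : (J0 C B → ℝ) →ₗ[ℝ] (J0 C B → ℝ), (∀ f M, (∀ j, |f j| ≤ M) → ∀ j, |Q f j| ≤ 3 * M) ∧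
      (∀ x : X →ₗ[ℝ] ℝ, Q (fun j => x (u (.inl j))) = fun j => x (u (.inl j))) ∧
      (∀ (x : X →ₗ[ℝ] ℝ) ψ, (∀ d, ψ (.inl d) = x (u (.inl (.inl d)))) →
        ∀ d, Q ψ (.inl d) = ψ (.inl d)) ∧
      ∀ (f : J0 C B → ℝ) (M : ℝ), (∀ j, |f j| ≤ M) → ∃ x : Dl X, (∀ j, x (u (.inl j)) = Q f j) ∧
        (∀ j, x (u (.inr j)) = 0) ∧ ∀ y, |x y| ≤ 2 * (|2 * M| + 1) * ‖y‖ := by
  obtain ⟨L, L1, L2⟩ := exists_lim (Finset C)
  have LA : ∀ (S : Finset C) (g : Finset C → Finset C → ℝ) (p : Finset C),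
      Av S (fun q => L (fun H => g H q)) p = L (fun H => Av S (g H) p) := fun S g p => by
    rw [← map_Av]
    congr 1
    ext H
    exact map_Av (LinearMap.proj H) S (fun q H => g H q) p
  let φ : (J0 C B → ℝ) → Finset C → Finset C → ℝ := fun ψ F p => L fun H => ψ (.inl (F, H, p))
  let D : (J0 C B → ℝ) →ₗ[ℝ] Tr C B :=
    { toFun := fun ψ => (φ ψ, fun b F p => L fun H => Av (flt A b H \ F)
        (fun q => φ ψ (flt A b H) q - ψ (.inr (b, flt A b H, q))) p, 0)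
      map_add' := fun ψ ψ' => by
        have e : ∀ F p, φ (ψ + ψ') F p = φ ψ F p + φ ψ' F p := fun F p => L.map_add _ _
        refine Prod.ext (funext₂ e) (Prod.ext (funext₃ fun b F p => ?_) (add_zero _).symm)
        refine (congrArg L (funext fun H => ?_)).trans (L.map_add _ _)
        simp only [e, Pi.add_apply, add_sub_add_comm, Av_add]
      map_smul' := fun r ψ => by
        have e : ∀ F p, φ (r • ψ) F p = r • φ ψ F p := fun F p => L.map_smul _ _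
        refine Prod.ext (funext₂ e) (Prod.ext (funext₃ fun b F p => ?_) (smul_zero _).symm)
        refine (congrArg L (funext fun H => ?_)).trans (L.map_smul _ _)
        simp only [e, Pi.smul_apply, ← smul_sub, Av_smul, RingHom.id_apply] }
  have b1 : ∀ ψ M, (∀ j, |ψ j| ≤ M) → ∀ F p, |φ ψ F p| ≤ M := fun ψ M h F p => L1 _ _ fun H => h _
  have b2 : ∀ ψ M, (∀ j, |ψ j| ≤ M) → ∀ b F p, |(D ψ).2.1 b F p| ≤ 2 * M := fun ψ M h b F p =>
    L1 _ _ fun H => abs_Av_le _ (fun q => (abs_sub _ _).trans (by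
      linarith [b1 ψ M h (flt A b H) q, h (.inr (b, flt A b H, q))])) _
  have k1 : ∀ (x : X →ₗ[ℝ] ℝ) (ψ : J0 C B → ℝ), (∀ d, ψ (.inl d) = x (u (.inl (.inl d)))) →
      ∀ F G p, φ ψ F p = Av (G \ F) (φ ψ (F ∪ G)) p + ψ (.inl (F, G, p)) := fun x ψ hψ F G p => by
    refine (L2 _ _ _ ((eventually_ge_atTop (F ∪ G)).mono fun H hH => ?_)).trans
      (congrArg (· + _) (LA (G \ F) (fun H q => ψ (.inl (F ∪ G, H, q))) p).symm)
    simp only [hψ]
    rw [rel1 h0 h2 hH, map_add]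
    exact congrArg (· + _) (map_Av x _ _ _)
  refine ⟨(LinearMap.funLeft ℝ ℝ Sum.inl).comp ((cfL A).comp D), fun f M h j => ?_, fun x => ?_,
    fun x ψ hψ ⟨F, G, p⟩ => sub_eq_iff_eq_add'.2 (k1 x ψ hψ F G p), fun f M hf => ?_⟩
  · have hM : 0 ≤ M := (abs_nonneg _).trans (h j)
    rcases j with ⟨F, G, p⟩ | ⟨b, F, p⟩
    · exact (abs_sub _ _).trans ((add_le_add (b1 f M h _ _) (abs_Av_le _ (b1 f M h _) _)).trans
        (by linarith))
    · exact (abs_sub _ _).trans ((add_le_add (b1 f M h _ _) (b2 f M h _ _ _)).trans (by linarith))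
  · set ψ : J0 C B → ℝ := fun j => x (u (.inl j)) with hψ
    have k1 := k1 x ψ fun _ => rfl
    ext (⟨F, G, p⟩ | ⟨b, F, p⟩)
    · exact sub_eq_iff_eq_add'.2 (k1 F G p)
    · have : (D ψ).2.1 b (flt A b F) p = L 0 + (φ ψ (flt A b F) p - ψ (.inr (b, F, p))) := by
        refine L2 _ _ _ ((eventually_ge_atTop F).mono fun H hH => ?_)
        have hs := flt_mono A b hH
        rw [Av_sub, k1 (flt A b F) (flt A b H) p, Finset.union_eq_right.2 hs]
        simp only [hψ]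
        rw [rel2 h0 h2 hs (flt_sub A b H), map_add, map_Av]
        simp
      show φ ψ (flt A b F) p - (D ψ).2.1 b (flt A b F) p = _
      rw [this]
      simp
  · have hM : 0 ≤ M := (abs_nonneg _).trans (hf (.inl (∅, ∅, ∅)))
    obtain ⟨x, hx, hx'⟩ := fun_of' h0 h1 (M := 2 * M) (l := ((D f).1, (D f).2.1, 0))
      ⟨fun F p => (b1 f M hf F p).trans (by linarith), b2 f M hf,
        fun j => by simpa using hM, fun b F G p a a' => by
          refine (L2 _ _ 0 ((eventually_ge_atTop G).mono fun H hH => ?_)).trans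
            ((add_zero _).trans (LA (G \ F) (fun H => Av (flt A b H \ G)
              fun q => φ f (flt A b H) q - f (.inr (b, flt A b H, q))) p).symm)
          rw [add_zero, Av_tower a (flt_eq a' ▸ flt_mono A b hH)]⟩
    refine ⟨x, fun j => (hx _).trans ?_, fun j => hx _, hx'⟩
    rcases j with ⟨F, G, p⟩ | ⟨b, F, p⟩ <;> rfl

end

theorem factor {ι X : Type} [AddCommGroup X] [Module ℝ X] (v : ι → X) (ψ : ι → ℝ)
    (h : ∀ a, Finsupp.linearCombination ℝ v a = 0 → Finsupp.linearCombination ℝ ψ a = 0) :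
    ∃ x : X →ₗ[ℝ] ℝ, ∀ i, x (v i) = ψ i := by
  have : Finsupp.linearCombination ℝ ψ ∈
      (LinearMap.ker (Finsupp.linearCombination ℝ v)).dualAnnihilator :=
    (Submodule.mem_dualAnnihilator _).2 h
  rw [← LinearMap.range_dualMap_eq_dualAnnihilator_ker] at this
  obtain ⟨x, hx⟩ := this
  exact ⟨x, fun i => by simpa using LinearMap.congr_fun hx (Finsupp.single i 1)⟩

theorem transfer {Γ X : Type} [NormedAddCommGroup X] [NormedSpace ℝ X] [CompleteSpace X]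
    (v : Γ → X) (hv : ∀ j, ‖v j‖ ≤ 1) (G : Set Γ) (hG : G.Countable)
    (Q : (Γ → ℝ) →ₗ[ℝ] (Γ → ℝ)) (q1 : ∀ f M, (∀ j, |f j| ≤ M) → ∀ j, |Q f j| ≤ 3 * M)
    (q2 : ∀ x : X →ₗ[ℝ] ℝ, Q (fun j => x (v j)) = fun j => x (v j))
    (q3 : ∀ (x : X →ₗ[ℝ] ℝ) ψ, (∀ d ∈ G, ψ d = x (v d)) → ∀ d ∈ G, Q ψ d = ψ d)
    (q4 : ∀ (f : Γ → ℝ) (M : ℝ), (∀ j, |f j| ≤ M) → ∃ x : X →ₗ[ℝ] ℝ, ∀ j, x (v j) = Q f j) :
    ∃ Z : Submodule ℝ (lp (fun _ : Γ => ℝ) 1), IsClosed (Z : Set (lp (fun _ : Γ => ℝ) 1)) ∧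
      ∃ Y : Set Z, TopologicalSpace.IsSeparable Y ∧ ∀ (V : Set Z) (R : Z →L[ℝ] Z),
        TopologicalSpace.IsSeparable V → (∀ x, R x ∈ V) → (∀ y ∈ Y, R y = y) →
        ∃ p : Γ → X, (∀ g ∈ G, p g = v g) ∧ (∃ T : Set Γ, T.Countable ∧
          ∀ j, p j ∈ closure (Submodule.span ℝ (v '' T) : Set X)) ∧ (∃ K, ∀ j, ‖p j‖ ≤ K) ∧
          ∀ a, Finsupp.linearCombination ℝ v a = 0 → Finsupp.linearCombination ℝ p a = 0 := by
  classical
  have hs : ∀ a : lp (fun _ : Γ => ℝ) 1, HasSum (fun γ => ‖a γ‖) ‖a‖ := fun a => by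
    simpa using lp.hasSum_norm (p := 1) (by simp) a
  have hle : ∀ (a : lp (fun _ : Γ => ℝ) 1) γ, ‖a γ • v γ‖ ≤ ‖a γ‖ := fun a γ => by
    rw [norm_smul]; exact mul_le_of_le_one_right (norm_nonneg _) (hv γ)
  have hsum : ∀ a : lp (fun _ : Γ => ℝ) 1, Summable fun γ => a γ • v γ := fun a =>
    .of_norm_bounded (hs a).summable (hle a)
  let q0 : lp (fun _ : Γ => ℝ) 1 →ₗ[ℝ] X :=
    { toFun := fun a => ∑' γ, a γ • v γ
      map_add' := fun a b => by
        rw [← (hsum a).tsum_add (hsum b)]; simp [add_smul]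
      map_smul' := fun r a => by
        rw [RingHom.id_apply, ← (hsum a).tsum_const_smul]; simp [mul_smul] }
  have hq0 : ∀ a, ‖q0 a‖ ≤ 1 * ‖a‖ := fun a => by
    rw [one_mul]; exact tsum_of_norm_bounded (hs a) (hle a)
  let q := q0.mkContinuous 1 hq0
  let e : Γ → lp (fun _ : Γ => ℝ) 1 := fun γ => lp.single 1 γ 1
  have he : ∀ j γ, e j γ = if γ = j then 1 else 0 := fun j γ => by
    simp [e, lp.single_apply, Pi.single_apply]
  have hqe : ∀ j, q0 (e j) = v j := fun j => by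
    show ∑' γ, e j γ • v γ = v j
    rw [tsum_eq_single j fun γ h => by simp [he, h]]
    simp [he]
  have hcl : ∀ {W : Type} [NormedAddCommGroup W] [NormedSpace ℝ W] (w : Γ → W) (T : Set Γ)
      (a : Γ → ℝ) (y : W), (∀ γ ∉ T, a γ = 0) → HasSum (fun γ => a γ • w γ) y →
      y ∈ closure (Submodule.span ℝ (w '' T) : Set W) := fun w T a y h hy =>
    mem_closure_of_tendsto hy (Eventually.of_forall fun s => Submodule.sum_mem _ fun γ _ => by
      by_cases hγ : γ ∈ T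
      · exact Submodule.smul_mem _ _ (Submodule.subset_span ⟨γ, hγ, rfl⟩)
      · rw [h γ hγ, zero_smul]; exact Submodule.zero_mem _)
  refine ⟨LinearMap.ker q0, q.isClosed_ker, {z | ∀ γ ∉ G, z.1 γ = 0}, ?_, ?_⟩
  · refine (IsEmbedding.subtypeVal.isSeparable_preimage
      ((hG.image e).isSeparable.span (R := ℝ)).closure).mono fun z hz => hcl e G z.1 z.1 hz ?_
    convert lp.hasSum_single (p := 1) (by simp) z.1 using 2 with γ
    ext δ
    by_cases h : δ = γ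
    · subst h; simp [he]
    · simp [he, h]
  rintro V R ⟨D, hD, hVD⟩ hRV hRY
  let ρ : Γ → LinearMap.ker q0 →L[ℝ] ℝ := fun γ =>
    (lp.evalCLM (𝕜 := ℝ) (fun _ : Γ => ℝ) 1 γ).comp ((LinearMap.ker q0).subtypeL.comp R)
  have hρ : ∀ γ z, ρ γ z = (R z).1 γ := fun _ _ => rfl
  have hext : ∀ f : LinearMap.ker q0 →L[ℝ] ℝ, ∃ ψ : Γ → ℝ, (∀ j, |ψ j| ≤ ‖f‖) ∧
      ∀ (ι : Type) (κ : ι → Γ) (a : ι →₀ ℝ) h, Finsupp.linearCombination ℝ (ψ ∘ κ) a =
        f ⟨Finsupp.linearCombination ℝ (e ∘ κ) a, h⟩ := fun f => by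
    obtain ⟨g, g1, g2⟩ := exists_extension_norm_eq _ f
    refine ⟨fun j => g (e j), fun j => (g.le_opNorm _).trans ?_, fun ι κ a h => ?_⟩
    · rw [g2, lp.norm_single (by simp)]; simp
    · rw [← g1]
      exact (Finsupp.apply_linearCombination ℝ g.toLinearMap (e ∘ κ) a).symm
  have hmem : ∀ (ι : Type) (κ : ι → Γ) (a : ι →₀ ℝ), Finsupp.linearCombination ℝ (v ∘ κ) a = 0 →
      Finsupp.linearCombination ℝ (e ∘ κ) a ∈ LinearMap.ker q0 := fun ι κ a h => by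
    rw [LinearMap.mem_ker, Finsupp.apply_linearCombination, ← h]
    congr 2
    exact funext fun i => hqe _
  have hQ0 : ∀ (f : Γ → ℝ) (M : ℝ), (∀ j, |f j| ≤ M) → ∀ (ι : Type) (κ : ι → Γ) (a : ι →₀ ℝ),
      Finsupp.linearCombination ℝ (v ∘ κ) a = 0 → Finsupp.linearCombination ℝ (Q f ∘ κ) a = 0 :=
    fun f M hf ι κ a h => by
      obtain ⟨x, hx⟩ := q4 f M hf
      have := Finsupp.apply_linearCombination ℝ x (v ∘ κ) a
      rw [h, map_zero] at this
      rw [this]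
      congr 2
      exact funext fun i => (hx _).symm
  have hlin : ∀ (ι : Type) (f g : ι → ℝ) (a : ι →₀ ℝ), Finsupp.linearCombination ℝ (f - g) a =
      Finsupp.linearCombination ℝ f a - Finsupp.linearCombination ℝ g a := fun ι f g a => by
    simp [Finsupp.linearCombination_apply, Finsupp.sum, mul_sub]
  have hδ : ∀ (ι : Type) (κ : ι → Γ) (a : ι →₀ ℝ) γ, Finsupp.linearCombination ℝ (e ∘ κ) a γ =
      Finsupp.linearCombination ℝ ((fun j => e j γ) ∘ κ) a := fun ι κ a γ =>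
    Finsupp.apply_linearCombination ℝ (lp.evalₗ (𝕜 := ℝ) (fun _ : Γ => ℝ) 1 γ) (e ∘ κ) a
  choose ψ hψ1 hψ2 using hext
  let I : (Γ → ℝ) →ₗ[ℝ] (Γ → ℝ) :=
    { toFun := fun f j => if j ∈ G then f j else 0
      map_add' := fun f g => by ext j; by_cases h : j ∈ G <;> simp [h]
      map_smul' := fun r f => by ext j; by_cases h : j ∈ G <;> simp [h] }
  have hI : ∀ f M, (∀ j, |f j| ≤ M) → ∀ j, |I f j| ≤ M := fun f M h j => by
    show |if j ∈ G then f j else 0| ≤ M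
    split_ifs
    · exact h j
    · simpa using (abs_nonneg _).trans (h j)
  have hb : ∀ f M, (∀ j, |f j| ≤ M) → ∀ j, |(f - Q f) j| ≤ 4 * M := fun f M h j =>
    (abs_sub _ _).trans (by linarith [h j, q1 f M h j])
  let Ξ : (Γ → ℝ) × (Γ → ℝ) →ₗ[ℝ] (Γ → ℝ) := (LinearMap.id - Q).comp (LinearMap.fst ℝ _ _) -
    Q.comp (I.comp ((LinearMap.id - Q).comp (LinearMap.fst ℝ _ _) - LinearMap.snd ℝ _ _))
  have hΞ : ∀ f d, Ξ (f, d) = f - Q f - Q (I (f - Q f - d)) := fun _ _ => rfl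
  have hb2 : ∀ f d M, (∀ j, |f j| ≤ M) → (∀ j, |d j| ≤ 1) → ∀ j, |(f - Q f - d) j| ≤ 4 * M + 1 :=
    fun f d M h h' j => (abs_sub _ _).trans (add_le_add (hb f M h j) (h' j))
  have he1 : ∀ γ j, |e j γ| ≤ 1 := fun γ j => by rw [he]; split_ifs <;> simp
  have hrow : ∀ j (s : Finset Γ), ∑ γ ∈ s, ‖Ξ (ψ (ρ γ), fun i => e i γ) j‖ ≤ 16 * ‖R‖ + 3 := by
    intro j s
    have hsg : ∀ t : ℝ, ∃ ε : ℝ, |ε| ≤ 1 ∧ ‖t‖ = ε * t := fun t => by
      rcases le_total 0 t with h | h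
      · exact ⟨1, by simp, by simpa using h⟩
      · exact ⟨-1, by simp, by simpa using h⟩
    choose ε ε1 ε2 using fun γ => hsg (Ξ (ψ (ρ γ), fun i => e i γ) j)
    have n1 : ‖∑ γ ∈ s, ε γ • ρ γ‖ ≤ ‖R‖ := ContinuousLinearMap.opNorm_le_bound _ R.opNorm_nonneg
      fun z => by
        rw [sum_apply]
        refine (norm_sum_le _ _).trans ((Finset.sum_le_sum fun γ _ => ?_).trans
          ((sum_le_hasSum s (fun _ _ => norm_nonneg _) (hs (R z).1)).trans (R.le_opNorm z)))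
        rw [smul_apply, norm_smul, hρ]
        exact mul_le_of_le_one_left (norm_nonneg _) (ε1 γ)
    obtain ⟨x, hx⟩ := factor v (∑ γ ∈ s, ε γ • ψ (ρ γ) - ψ (∑ γ ∈ s, ε γ • ρ γ)) fun a ha => by
      have k := fun f => hψ2 f Γ id a (hmem Γ id a ha)
      simp only [Function.comp_id] at k
      rw [hlin, k, sum_apply, sub_eq_zero]
      simp only [smul_apply]
      simp only [← k]
      simp only [Finsupp.linearCombination_apply, Finsupp.sum, Finset.sum_apply, Pi.smul_apply,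
        smul_eq_mul, Finset.mul_sum]
      rw [Finset.sum_comm]
      exact Finset.sum_congr rfl fun _ _ => Finset.sum_congr rfl fun _ _ => by ring
    have e1 : ∑ γ ∈ s, ε γ • ψ (ρ γ) = ψ (∑ γ ∈ s, ε γ • ρ γ) + fun j => x (v j) := by
      rw [funext hx]; abel
    have e2 : ∑ γ ∈ s, ‖Ξ (ψ (ρ γ), fun i => e i γ) j‖ =
        Ξ (∑ γ ∈ s, ε γ • ψ (ρ γ), ∑ γ ∈ s, ε γ • fun i => e i γ) j := by
      rw [prod_mk_sum, map_sum, Finset.sum_apply]
      refine Finset.sum_congr rfl fun γ _ => ?_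
      rw [ε2, ← Prod.smul_mk, map_smul]; rfl
    have n2 : ∀ i, |(∑ γ ∈ s, ε γ • fun i => e i γ) i| ≤ 1 := fun i => by
      simp only [Finset.sum_apply, Pi.smul_apply, he, smul_eq_mul, mul_ite, mul_one, mul_zero,
        Finset.sum_ite_eq']
      split_ifs
      · exact ε1 i
      · simp
    rw [e2, e1, hΞ, map_add, q2, add_sub_add_right_eq_sub]
    have n3 := fun j => (hψ1 (∑ γ ∈ s, ε γ • ρ γ) j).trans n1
    refine (le_abs_self _).trans ((abs_sub _ _).trans ?_)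
    linarith [hb _ _ n3 j, q1 _ _ (hI _ _ (hb2 _ _ _ n3 n2)) j]
  let row : Γ → lp (fun _ : Γ => ℝ) 1 := fun j => ⟨fun γ => Ξ (ψ (ρ γ), fun i => e i γ) j,
    memℓp_gen' (C := 16 * ‖R‖ + 3) (by simpa using hrow j)⟩
  refine ⟨fun j => q0 (row j), fun g hg => ?_, ?_, ⟨16 * ‖R‖ + 3, fun j => ?_⟩, fun a ha => ?_⟩
  · rw [← hqe]
    refine congrArg q0 ?_
    ext γ
    obtain ⟨x, hx⟩ := factor (v ∘ (Subtype.val : G → Γ))
      ((ψ (ρ γ) - Q (ψ (ρ γ)) - fun i => e i γ) ∘ Subtype.val) fun a ha => by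
        have k := hψ2 (ρ γ) G Subtype.val a (hmem _ _ a ha)
        rw [hρ, hRY _ fun δ hδ' => by
          rw [hδ, Finsupp.linearCombination_apply, Finsupp.sum]
          refine Finset.sum_eq_zero fun i _ => ?_
          have : δ ≠ i.1 := by rintro rfl; exact hδ' i.2
          simp [he, this], hδ] at k
        rw [Pi.sub_comp, Pi.sub_comp, hlin, hlin, k, hQ0 _ _ (hψ1 _) _ _ a ha]
        ring
    have := q3 x (I (ψ (ρ γ) - Q (ψ (ρ γ)) - fun i => e i γ))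
      (fun d hd => (if_pos hd).trans (hx ⟨d, hd⟩).symm) g hg
    show Ξ (ψ (ρ γ), fun i => e i γ) g = e g γ
    rw [hΞ, Pi.sub_apply, this]
    show _ - (if g ∈ G then _ else _) = _
    simp [hg]
  · refine ⟨G ∪ ⋃ d ∈ D, Function.support fun γ => ‖d.1 γ‖, hG.union (hD.biUnion fun d _ =>
      (hs d.1).summable.countable_support), fun j => hcl v _ (row j) _ (fun γ hγ => ?_)
        (hsum (row j)).hasSum⟩
    rw [mem_union, not_or] at hγ
    have h0 : ρ γ = 0 := by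
      ext z
      refine closure_minimal (t := {z : LinearMap.ker q0 | z.1 γ = 0}) (fun d hd => ?_)
        (isClosed_eq (((lp.evalCLM (𝕜 := ℝ) (fun _ : Γ => ℝ) 1 γ).continuous).comp
          continuous_subtype_val) continuous_const) (hVD (hRV z))
      by_contra hn
      exact hγ.2 (mem_biUnion hd (norm_ne_zero_iff.2 hn))
    have h1 : ψ (ρ γ) = 0 := funext fun i => abs_nonpos_iff.1
      ((hψ1 (ρ γ) i).trans (by rw [h0]; exact ContinuousLinearMap.opNorm_zero.le))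
    have h2 : I (0 - Q 0 - fun i => e i γ) = 0 := funext fun i => by
      show (if i ∈ G then _ else _) = _
      split_ifs with hi
      · have : γ ≠ i := by rintro rfl; exact hγ.1 hi
        simp [he, this]
      · rfl
    show Ξ (ψ (ρ γ), fun i => e i γ) j = 0
    rw [h1, hΞ, h2]
    simp
  · refine (hq0 _).trans ?_
    rw [one_mul]
    exact hasSum_le_of_sum_le (hs (row j)) (hrow j)
  · have k := fun f => hψ2 f Γ id a (hmem Γ id a ha)
    have : Finsupp.linearCombination ℝ row a = (R ⟨_, hmem Γ id a ha⟩).1 := by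
      ext γ
      refine (Finsupp.apply_linearCombination ℝ (lp.evalₗ (𝕜 := ℝ) (fun _ : Γ => ℝ) 1 γ)
        row a).trans ?_
      show Finsupp.linearCombination ℝ (Ξ (ψ (ρ γ), fun i => e i γ)) a = _
      have a1 := hQ0 _ _ (hψ1 (ρ γ)) Γ id a ha
      have a2 := hQ0 _ _ (hI _ _ (hb2 _ _ _ (hψ1 (ρ γ)) (he1 γ))) Γ id a ha
      simp only [Function.comp_id] at a1 a2 k
      rw [hΞ, hlin, hlin, a1, a2, k, hρ]
      simp
    exact (Finsupp.apply_linearCombination ℝ q0 row a).symm.trans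
      (this ▸ (R ⟨_, hmem Γ id a ha⟩).2)

/-- for every uncountable `Γ`, a closed subspace of `ℓ₁(Γ)` that is not Plichko -/
theorem main2 (Γ : Type) [Uncountable Γ] :
    ∃ Z : Submodule ℝ (lp (fun _ : Γ => ℝ) 1), IsClosed (Z : Set (lp (fun _ : Γ => ℝ) 1)) ∧
      ¬ Pl Z := by
  obtain ⟨C, B0, _, _, _, A0, a1, a2⟩ := exists_ad
  obtain ⟨B, hB⟩ := Cardinal.le_mk_iff_exists_set.1
    (Cardinal.aleph_one_le_iff.2 (Cardinal.aleph0_lt_mk (α := B0)))
  have : Uncountable B := Cardinal.aleph0_lt_mk_iff.1 (hB ▸ Cardinal.aleph0_lt_aleph_one)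
  let A : B → Set C := fun b => A0 b
  obtain ⟨X, i1, i2, i3, u, ev, h0, h1, h2, hd⟩ :=
    exists_space (fun (c : {l // Good A (1 / 2) l}) => cf A c.1) cf_le
  obtain ⟨Q, q1, q2, q3, q4⟩ := exists_Q h0 h1 h2
  obtain ⟨s⟩ : Nonempty (J0 C B ↪ Γ) := by
    refine (Cardinal.le_def _ _).1 (le_trans ?_
      (Cardinal.aleph_one_le_iff.2 (Cardinal.aleph0_lt_mk (α := Γ))))
    have c0 := Cardinal.aleph0_lt_aleph_one.{0}.le
    simp only [Cardinal.mk_sum, Cardinal.lift_id]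
    refine Cardinal.add_le_of_le c0 (Cardinal.mk_le_aleph0.trans c0) ?_
    rw [Cardinal.mk_prod, Cardinal.lift_id, Cardinal.lift_id]
    exact Cardinal.mul_le_of_le c0 hB.le (Cardinal.mk_le_aleph0.trans c0)
  obtain ⟨π, hπ⟩ := s.injective.hasLeftInverse
  have hπ : ∀ j, π (s j) = j := hπ
  obtain ⟨Z, hZ, Y, hY, hn⟩ := transfer (fun γ => u (.inl (π γ)))
    (fun j => h2 _ _ zero_le_one fun c => h0 c _ ▸ cf_le c _) (range fun d => s (.inl d))
    (countable_range _) ((LinearMap.funLeft ℝ ℝ π).comp (Q.comp (LinearMap.funLeft ℝ ℝ s)))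
    (fun f M h j => q1 _ M (fun i => h _) _)
    (fun x => by
      have : LinearMap.funLeft ℝ ℝ s (fun γ => x (u (.inl (π γ)))) = fun j => x (u (.inl j)) :=
        funext fun j => by simp [hπ]
      rw [LinearMap.comp_apply, LinearMap.comp_apply, this, q2]; rfl)
    (by
      rintro x ψ h _ ⟨d, rfl⟩
      have := q3 x (LinearMap.funLeft ℝ ℝ s ψ) (fun d => by simpa [hπ] using h _ ⟨d, rfl⟩) d
      simpa [hπ] using this)
    (fun f M h => by
      obtain ⟨x, hx, -⟩ := q4 (LinearMap.funLeft ℝ ℝ s f) M fun j => h _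
      exact ⟨x, fun j => hx _⟩)
  refine ⟨Z, hZ, fun hP => ?_⟩
  have := hZ.completeSpace_coe
  obtain ⟨V, hYV, -, hV, R, r1, r2⟩ := hP.scp Y hY
  obtain ⟨p, p1, ⟨T, hT, p2⟩, ⟨K, p3⟩, p4⟩ := hn V R hV r1 fun y hy => r2 y (hYV hy)
  let p' : J0 C B ⊕ J0 C B × ℕ → X := Sum.elim (fun j => p (s j)) fun _ => 0
  have hb : ∀ l, ‖Finsupp.linearCombination ℝ p' l‖ ≤
      2 * (|2 * K| + 1) * ‖Finsupp.linearCombination ℝ u l‖ := fun l => by
    refine h2 _ _ (by positivity) fun c => ?_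
    obtain ⟨x, hx⟩ := factor _ (fun γ => ev c (p γ)) fun a ha =>
      (Finsupp.apply_linearCombination ℝ (ev c).toLinearMap p a).symm.trans (by
        rw [p4 a ha, map_zero])
    obtain ⟨y, y1, y2, y3⟩ := q4 (fun j => x (u (.inl j))) K fun j => by
      have := hx (s j)
      rw [hπ] at this
      rw [this]
      exact (h1 _ _).trans (p3 _)
    refine le_of_eq_of_le ?_ (y3 _)
    rw [Real.norm_eq_abs]
    congr 1
    simp only [Finsupp.linearCombination_apply, Finsupp.sum, map_sum, map_smul]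
    refine Finset.sum_congr rfl fun j _ => ?_
    congr 1
    rcases j with j | j
    · have := hx (s j)
      rw [hπ] at this
      rw [y1, q2]
      exact this.symm
    · simp [p', y2]
  let P := (Finsupp.linearCombination ℝ p').extendOfNorm (Finsupp.linearCombination ℝ u)
  have hP : ∀ j, P (u j) = p' j := fun j => by
    simpa using LinearMap.extendOfNorm_eq (f := Finsupp.linearCombination ℝ p') hd ⟨_, hb⟩
      (Finsupp.single j 1)
  refine noscp h0 h1 h2 hd (fun b => a1 b) (fun a b h => a2 a b fun e => h (Subtype.ext e)) P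
    (fun d => by rw [hP]; simpa [p', hπ] using p1 _ ⟨d, rfl⟩) ((fun γ => .inl (π γ)) '' T)
    (hT.image _) (map_mem hd P (Submodule.span ℝ _).topologicalClosure
      (Submodule.isClosed_topologicalClosure _) fun j => ?_)
  rw [hP]
  rcases j with j | j
  · rw [image_image]; exact p2 _
  · exact Submodule.zero_mem _

end Pool.Agent.H56.Plk
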