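import Pool.Agent.H56.RTDef

open Set Filter Topology
open scoped NNReal

namespace Pool.Agent.H56.RT

variable {X : Type} [MetricSpace X] [IsUltrametricDist X]

/-- pre-tree -/
def P (X : Type) : Type := X × ℝ≥0

noncomputable instance : PseudoMetricSpace (P X) where
  dist a b := 2 * max (max (a.2:ℝ) b.2) (dist a.1 b.1) - a.2 - b.2
  dist_self a := by simp; ring
  dist_comm a b := by rw [dist_comm a.1, max_comm (a.2:ℝ)]; ring
  dist_triangle a b c := by
    have h := IsUltrametricDist.dist_triangle_max a.1 b.1 c.1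
    have h1 : max (max (a.2:ℝ) c.2) (dist a.1 c.1) ≤ max (max (max (a.2:ℝ) b.2) (dist a.1 b.1))
        (max (max (b.2:ℝ) c.2) (dist b.1 c.1)) := by
      refine max_le (max_le ?_ ?_) (h.trans (max_le_max (le_max_right _ _) (le_max_right _ _)))
      · simp
      · simp
    have h2 : (b.2:ℝ) ≤ max (max (a.2:ℝ) b.2) (dist a.1 b.1) := by simp
    have h3 : (b.2:ℝ) ≤ max (max (b.2:ℝ) c.2) (dist b.1 c.1) := by simp
    rcases le_max_iff.1 h1 with h4 | h4 <;> linarith

/-- the tree over an ultrametric space -/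
def Tr (X : Type) [MetricSpace X] [IsUltrametricDist X] : Type := SeparationQuotient (P X)

noncomputable instance : MetricSpace (Tr X) :=
  inferInstanceAs (MetricSpace (SeparationQuotient (P X)))

noncomputable def pt (x : X) (s : ℝ) : Tr X :=
  SeparationQuotient.mk (show P X from (x, s.toNNReal))

/-- height of the meeting point -/
noncomputable def mt (x : X) (s : ℝ) (y : X) (t : ℝ) : ℝ := max (max s t) (dist x y)

lemma dist_pt (x y : X) {s t : ℝ} (hs : 0 ≤ s) (ht : 0 ≤ t) :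
    dist (pt x s) (pt y t) = 2 * mt x s y t - s - t := by
  have := SeparationQuotient.dist_mk (show P X from (x, s.toNNReal)) (show P X from (y, t.toNNReal))
  refine this.trans ?_
  change 2 * max (max (s.toNNReal:ℝ) t.toNNReal) (dist x y) - s.toNNReal - t.toNNReal = _
  rw [Real.coe_toNNReal _ hs, Real.coe_toNNReal _ ht, mt]

lemma exists_pt (z : Tr X) : ∃ x s, 0 ≤ s ∧ z = pt x s := by
  obtain ⟨⟨x, s⟩, rfl⟩ := SeparationQuotient.surjective_mk (X := P X) z
  exact ⟨x, s, s.2, by simp [pt]⟩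

omit [IsUltrametricDist X] in
lemma le_mt1 (x : X) (s : ℝ) (y : X) (t : ℝ) : s ≤ mt x s y t := by simp [mt]
omit [IsUltrametricDist X] in
lemma le_mt2 (x : X) (s : ℝ) (y : X) (t : ℝ) : t ≤ mt x s y t := by simp [mt]
omit [IsUltrametricDist X] in
lemma le_mt3 (x : X) (s : ℝ) (y : X) (t : ℝ) : dist x y ≤ mt x s y t := by simp [mt]
omit [IsUltrametricDist X] in
lemma mt_comm (x : X) (s : ℝ) (y : X) (t : ℝ) : mt x s y t = mt y t x s := by
  rw [mt, mt, dist_comm, max_comm s]

lemma pt_eq {x y : X} {s : ℝ} (h : dist x y ≤ s) : pt x s = pt y s := by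
  have hs : 0 ≤ s := dist_nonneg.trans h
  apply eq_of_dist_eq_zero
  rw [dist_pt _ _ hs hs, mt, max_self, max_eq_left h]; ring

lemma dist_same (x : X) {s t : ℝ} (hs : 0 ≤ s) (ht : 0 ≤ t) :
    dist (pt x s) (pt x t) = |s - t| := by
  rw [dist_pt _ _ hs ht, mt, dist_self, max_eq_left (le_max_of_le_left hs)]
  rcases le_total s t with h | h
  · rw [max_eq_right h, abs_of_nonpos (by linarith)]; ring
  · rw [max_eq_left h, abs_of_nonneg (by linarith)]; ring

lemma hit {Q : Set (Tr X)} (hQ : IsPreconnected Q) {x y : X} {u w s : ℝ} (hu : 0 ≤ u) (hw : 0 ≤ w)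
    (ha : pt x u ∈ Q) (hb : pt y w ∈ Q) (h1 : u ≤ s) (h2 : s ≤ mt x u y w) : pt x s ∈ Q := by
  rcases h1.eq_or_lt with rfl | h1
  · exact ha
  by_contra hc
  have hs : 0 ≤ s := by linarith
  set D : Set (Tr X) := {z | ∃ q r, 0 ≤ r ∧ z = pt q r ∧ r < s ∧ dist q x < s} with hD
  set D' : Set (Tr X) := {z | ∃ q r, 0 ≤ r ∧ z = pt q r ∧ (s < r ∨ (s ≤ dist q x ∧ r < dist q x))}
    with hD'
  have o1 : IsOpen D := by
    rw [Metric.isOpen_iff]
    rintro _ ⟨q, r, r0, rfl, r1, r2⟩
    refine ⟨s - r, by linarith, fun z hz => ?_⟩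
    obtain ⟨q', r', r0', rfl⟩ := exists_pt z
    rw [Metric.mem_ball, dist_pt _ _ r0' r0] at hz
    have a1 := le_mt1 q' r' q r
    have a3 := le_mt3 q' r' q r
    exact ⟨q', r', r0', rfl, by linarith, (IsUltrametricDist.dist_triangle_max q' q x).trans_lt
      (max_lt (by linarith) r2)⟩
  have o2 : IsOpen D' := by
    rw [Metric.isOpen_iff]
    rintro _ ⟨q, r, r0, rfl, r1 | ⟨r1, r2⟩⟩
    · refine ⟨r - s, by linarith, fun z hz => ?_⟩
      obtain ⟨q', r', r0', rfl⟩ := exists_pt z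
      rw [Metric.mem_ball, dist_pt _ _ r0' r0] at hz
      have a2 := le_mt2 q' r' q r
      exact ⟨q', r', r0', rfl, Or.inl (by linarith)⟩
    · refine ⟨dist q x - r, by linarith, fun z hz => ?_⟩
      obtain ⟨q', r', r0', rfl⟩ := exists_pt z
      rw [Metric.mem_ball, dist_pt _ _ r0' r0] at hz
      have a1 := le_mt1 q' r' q r
      have a3 := le_mt3 q' r' q r
      have a4 : dist q x ≤ dist q' x := by
        have := IsUltrametricDist.dist_triangle_max q q' x
        rw [dist_comm q q'] at this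
        rcases le_max_iff.1 this with h | h
        · linarith
        · exact h
      exact ⟨q', r', r0', rfl, Or.inr ⟨by linarith, by linarith⟩⟩
  have cov : Q ⊆ D ∪ D' := by
    intro z hz
    obtain ⟨q, r, r0, rfl⟩ := exists_pt z
    by_cases c1 : s < r
    · exact Or.inr ⟨q, r, r0, rfl, Or.inl c1⟩
    by_cases c2 : s ≤ dist q x ∧ r < dist q x
    · exact Or.inr ⟨q, r, r0, rfl, Or.inr c2⟩
    by_cases c3 : r < s
    · refine Or.inl ⟨q, r, r0, rfl, c3, ?_⟩
      by_contra c4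
      exact c2 ⟨by linarith, by linarith⟩
    · exfalso
      have e : r = s := by linarith
      subst e
      apply hc
      rw [← pt_eq (x := q)]
      · exact hz
      · by_contra c4
        exact c2 ⟨by linarith, by linarith⟩
  have dis : Disjoint D D' := by
    rw [Set.disjoint_left]
    rintro _ ⟨q, r, r0, rfl, r1, r2⟩ ⟨q', r', r0', e, h⟩
    have := dist_pt q q' r0 r0'
    rw [← e, dist_self] at this
    have a1 := le_mt1 q r q' r'
    have a2 := le_mt2 q r q' r'
    have a3 := le_mt3 q r q' r'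
    rcases h with h | ⟨h, h'⟩
    · linarith
    · have := IsUltrametricDist.dist_triangle_max q' q x
      rw [dist_comm q' q] at this
      rcases le_max_iff.1 this with h3 | h3 <;> linarith
  have aD : pt x u ∈ D := ⟨x, u, hu, rfl, h1, by rw [dist_self]; linarith⟩
  have := hQ.subset_left_of_subset_union o1 o2 dis cov ⟨_, ha, aD⟩ hb
  obtain ⟨q, r, r0, e, r1, r2⟩ := this
  have := dist_pt y q hw r0
  rw [e, dist_self] at this
  have a1 := le_mt1 y w q r
  have a2 := le_mt2 y w q r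
  have a3 := le_mt3 y w q r
  have a4 := IsUltrametricDist.dist_triangle_max x q y
  rw [dist_comm x q, dist_comm q y] at a4
  have a5 : dist x y < s := a4.trans_lt (max_lt r2 (by linarith))
  have a6 : mt x u y w < s := max_lt (max_lt h1 (by linarith)) a5
  linarith

/-- the segment -/
def seg (x : X) (u : ℝ) (y : X) (w : ℝ) : Set (Tr X) :=
  pt x '' Icc u (mt x u y w) ∪ pt y '' Icc w (mt x u y w)

lemma seg_sub {Q : Set (Tr X)} (hQ : IsPreconnected Q) {x y : X} {u w : ℝ} (hu : 0 ≤ u)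
    (hw : 0 ≤ w) (ha : pt x u ∈ Q) (hb : pt y w ∈ Q) : seg x u y w ⊆ Q := by
  rintro _ (⟨s, hs, rfl⟩ | ⟨s, hs, rfl⟩)
  · exact hit hQ hu hw ha hb hs.1 hs.2
  · exact hit hQ hw hu hb ha hs.1 (mt_comm x u y w ▸ hs.2)

lemma median (x : X) (u : ℝ) (y : X) (w : ℝ) (q : X) (r : ℝ) :
    ∃ c, c ∈ seg x u y w ∧ c ∈ seg x u q r ∧ c ∈ seg q r y w := by
  by_cases h1 : mt x u y w ≤ mt x u q r ∧ mt x u y w ≤ mt q r y w
  · exact ⟨pt x (mt x u y w), Or.inl ⟨_, ⟨le_mt1 _ _ _ _, le_rfl⟩, rfl⟩,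
      Or.inl ⟨_, ⟨le_mt1 _ _ _ _, h1.1⟩, rfl⟩,
      Or.inr ⟨_, ⟨le_mt2 _ _ _ _, h1.2⟩, (pt_eq (le_mt3 _ _ _ _)).symm⟩⟩
  by_cases h2 : mt x u q r ≤ mt q r y w
  · have h3 : mt x u q r ≤ mt x u y w := by
      by_contra h
      exact h1 ⟨by linarith, by linarith⟩
    exact ⟨pt x (mt x u q r), Or.inl ⟨_, ⟨le_mt1 _ _ _ _, h3⟩, rfl⟩,
      Or.inl ⟨_, ⟨le_mt1 _ _ _ _, le_rfl⟩, rfl⟩,
      Or.inl ⟨_, ⟨le_mt2 _ _ _ _, h2⟩, (pt_eq (le_mt3 _ _ _ _)).symm⟩⟩
  · have h3 : mt q r y w ≤ mt x u y w := by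
      by_contra h
      exact h1 ⟨by linarith, by linarith⟩
    exact ⟨pt y (mt q r y w), Or.inr ⟨_, ⟨le_mt2 _ _ _ _, h3⟩, rfl⟩,
      Or.inr ⟨_, ⟨le_mt1 _ _ _ _, by linarith⟩, pt_eq (le_mt3 _ _ _ _)⟩,
      Or.inr ⟨_, ⟨le_mt2 _ _ _ _, le_rfl⟩, rfl⟩⟩

theorem isRTree : IsRTree (Tr X) := by
  intro a b _
  obtain ⟨x, u, hu, rfl⟩ := exists_pt a
  obtain ⟨y, w, hw, rfl⟩ := exists_pt b
  have hd := dist_pt x y hu hw
  have m1 := le_mt1 x u y w
  have m2 := le_mt2 x u y w
  have m3 := le_mt3 x u y w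
  have sg : seg x u y w = pt x '' Icc u (mt x u y w) ∪ pt y '' Icc w (mt x u y w) := rfl
  set M := mt x u y w with hM
  have cross : ∀ s t : ℝ, 0 ≤ s → s ≤ M - u → M - u < t → t ≤ 2 * M - u - w →
      dist (pt x (u + s)) (pt y (2 * M - u - t)) = t - s := by
    intro s t s0 s1 t0 t1
    rw [dist_pt _ _ (by linarith) (by linarith)]
    have : mt x (u + s) y (2 * M - u - t) = M := by
      apply le_antisymm (max_le (max_le (by linarith) (by linarith)) m3)
      have b1 := le_mt1 x (u + s) y (2 * M - u - t)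
      have b2 := le_mt2 x (u + s) y (2 * M - u - t)
      have b3 := le_mt3 x (u + s) y (2 * M - u - t)
      change max (max u w) (dist x y) ≤ mt x (u + s) y (2 * M - u - t)
      exact max_le (max_le (by linarith) (by linarith)) b3
    rw [this]; ring
  refine ⟨fun t => if (t:ℝ) ≤ M - u then pt x (u + t) else pt y (2 * M - u - t), ?_, ?_, ?_, ?_⟩
  · apply Isometry.of_dist_eq
    rintro ⟨s, s0, s1⟩ ⟨t, t0, t1⟩
    rw [hd] at s1 t1
    simp only [Subtype.dist_eq, Real.dist_eq]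
    split_ifs with h1 h2 h2
    · rw [dist_same _ (by linarith) (by linarith)]; congr 1; ring
    · rw [cross s t s0 h1 (by linarith) t1, abs_of_nonpos (by linarith)]; ring
    · rw [dist_comm, cross t s t0 h2 (by linarith) s1, abs_of_nonneg (by linarith)]
    · rw [dist_same _ (by linarith) (by linarith), abs_sub_comm]; congr 1; ring
  · simp only
    rw [if_pos (by linarith), add_zero]
  · simp only
    split_ifs with h
    · rw [hd] at h ⊢
      have e : w = M := by linarith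
      rw [show u + (2 * M - u - w) = w by linarith]
      exact pt_eq (by linarith)
    · rw [hd]; congr 1; ring
  · intro p hp
    have e1 : range p = seg x u y w := by
      apply Subset.antisymm
      · rintro _ ⟨τ, rfl⟩
        obtain ⟨q, r, r0, hz⟩ := exists_pt (p τ)
        obtain ⟨c, c1, c2, c3⟩ := median x u y w q r
        have k1 : IsPreconnected (p '' Icc 0 τ) := isPreconnected_Icc.image _ p.continuous.continuousOn
        have k2 : IsPreconnected (p '' Icc τ 1) := isPreconnected_Icc.image _ p.continuous.continuousOn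
        obtain ⟨τ1, t1, e1⟩ := seg_sub k1 hu r0 ⟨0, ⟨le_rfl, τ.2.1⟩, p.source⟩
          ⟨τ, ⟨τ.2.1, le_rfl⟩, hz⟩ c2
        obtain ⟨τ2, t2, e2⟩ := seg_sub k2 r0 hw ⟨τ, ⟨le_rfl, τ.2.2⟩, hz⟩
          ⟨1, ⟨τ.2.2, le_rfl⟩, p.target⟩ c3
        have := hp (e1.trans e2.symm)
        have e3 : τ1 = τ := le_antisymm t1.2 (this ▸ t2.1)
        rw [← e3, e1]; exact c1
      · exact seg_sub (isPreconnected_range p.continuous) hu hw ⟨0, p.source⟩ ⟨1, p.target⟩
    rw [e1, sg]
    apply Subset.antisymm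
    · rintro _ (⟨s, hs, rfl⟩ | ⟨s, hs, rfl⟩)
      · refine ⟨⟨s - u, by linarith [hs.1], by rw [hd]; linarith [hs.2]⟩, ?_⟩
        simp only
        rw [if_pos (by linarith [hs.2])]; congr 1; ring
      · refine ⟨⟨2 * M - u - s, by linarith [hs.2], by rw [hd]; linarith [hs.1]⟩, ?_⟩
        simp only
        split_ifs with h
        · have e : s = M := by linarith [hs.2]
          rw [show u + (2 * M - u - s) = s by linarith]
          exact pt_eq (by linarith)
        · congr 1; ring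
    · rintro _ ⟨⟨t, t0, t1⟩, rfl⟩
      rw [hd] at t1
      simp only
      split_ifs with h
      · exact Or.inl ⟨_, ⟨by linarith, by linarith⟩, rfl⟩
      · exact Or.inr ⟨_, ⟨by linarith, by linarith⟩, rfl⟩

end Pool.Agent.H56.RT
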