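import Pool.Agent.H56.RT1

open Set Filter Topology MeasureTheory
open scoped NNReal

namespace Pool.Agent.H56.RT

section Fr
variable {M : Type} [MetricSpace M] {o : M}

theorem fn_le (g : Lip0 o) (x y : M) : ‖fn g x - fn g y‖ ≤ ‖g‖ * dist x y := le_lipC g x y

noncomputable def vl (o : M) : Free o →ₗᵢ[ℝ] StrongDual ℝ (Lip0 o) where
  toFun γ := (show freeSub o from γ).1
  map_add' _ _ := rfl
  map_smul' _ _ := rfl
  norm_map' _ := rfl

theorem vl_dF (x : M) (g : Lip0 o) : vl o (dF o x) g = fn g x := rfl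

theorem norm_mol (x y : M) : ‖dF o x - dF o y‖ ≤ dist x y := by
  rw [← (vl o).norm_map, map_sub]
  refine ContinuousLinearMap.opNorm_le_bound _ dist_nonneg fun g => ?_
  rw [mul_comm]
  exact fn_le g x y

theorem exists_ev (o : M) (F : M → ℝ) (hF : ∀ a b, |F a - F b| ≤ dist a b) :
    ∃ L : Free o →L[ℝ] ℝ, (∀ γ, |L γ| ≤ ‖γ‖) ∧ ∀ x, L (dF o x) = F x - F o := by
  have h : ∀ x y, ‖(F x - F o) - (F y - F o)‖ ≤ 1 * dist x y := fun x y => by
    rw [sub_sub_sub_cancel_right, one_mul]; exact hF x y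
  let G : Lip0 o := (⟨fun t => F t - F o, sub_self _, 1, h⟩ : lipSub o)
  have hG : ‖G‖ ≤ 1 := lipC_le zero_le_one h
  refine ⟨(ContinuousLinearMap.apply ℝ ℝ G).comp (vl o).toContinuousLinearMap, fun γ => ?_,
    fun x => rfl⟩
  have := (vl o γ).le_opNorm G
  rw [(vl o).norm_map] at this
  exact this.trans (mul_le_of_le_one_right (norm_nonneg _) hG)

theorem dense_span (γ : Free o) {ε : ℝ} (hε : 0 < ε) :
    ∃ μ ∈ Submodule.span ℝ (range (dF o)), ‖γ - μ‖ < ε := by
  have h : vl o γ ∈ closure (Submodule.span ℝ (range (dl o)) : Set _) := (show freeSub o from γ).2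
  obtain ⟨ν, hν, hd⟩ := Metric.mem_closure_iff.1 h ε hε
  have e : range (dl o) = (vl o).toLinearMap '' range (dF o) := by
    rw [← range_comp]; rfl
  rw [e, Submodule.span_image] at hν
  obtain ⟨μ, hμ, rfl⟩ := hν
  refine ⟨μ, hμ, ?_⟩
  rw [← (vl o).norm_map, map_sub, ← dist_eq_norm]
  exact hd

theorem norming {n : ℕ} (a : Fin n → ℝ) (x y : Fin n → M) {η : ℝ} (hη : 0 < η) :
    ∃ g : M → ℝ, (∀ p q, |g p - g q| ≤ dist p q) ∧ ‖∑ i, a i • mol o (x i) (y i)‖ - η ≤
      ∑ i, a i * ((dist (x i) (y i))⁻¹ * (g (x i) - g (y i))) := by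
  set γ := ∑ i, a i • mol o (x i) (y i) with hγ
  obtain ⟨G, h1, h2⟩ := (vl o γ).exists_lt_apply_of_lt_opNorm (r := ‖γ‖ - η)
    (by rw [(vl o).norm_map]; linarith)
  have e : ∀ G : Lip0 o, vl o γ G =
      ∑ i, a i * ((dist (x i) (y i))⁻¹ * (fn G (x i) - fn G (y i))) := by
    intro G
    simp only [hγ, mol, map_sum, map_smul, map_sub, _root_.sum_apply, smul_apply,
      sub_apply, vl_dF, smul_eq_mul]
  have l : ∀ G : Lip0 o, ‖G‖ < 1 → ∀ p q, |fn G p - fn G q| ≤ dist p q := fun G h p q =>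
    (fn_le G p q).trans (mul_le_of_le_one_left dist_nonneg h.le)
  rcases le_total 0 (vl o γ G) with h | h
  · refine ⟨fn G, l G h1, ?_⟩
    rw [← e]; rw [Real.norm_eq_abs, abs_of_nonneg h] at h2; exact h2.le
  · refine ⟨fn (-G), l _ (by rwa [norm_neg]), ?_⟩
    rw [← e, map_neg]; rw [Real.norm_eq_abs, abs_of_nonpos h] at h2; exact h2.le

end Fr

variable {X : Type} [MetricSpace X] [IsUltrametricDist X]

lemma ii {σ : ℝ → ℝ} (hm : Measurable σ) (hb : ∀ s, |σ s| ≤ 1) (a b : ℝ) :
    IntervalIntegrable σ volume a b :=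
  (intervalIntegrable_const (c := (1:ℝ))).mono_fun' hm.aestronglyMeasurable
    (Eventually.of_forall hb)

/-- `F` is a primitive of `σ` along the tree -/
def Prim (σ : X → ℝ → ℝ) (F : Tr X → ℝ) : Prop :=
  ∀ x u y w, 0 ≤ u → 0 ≤ w → F (pt x u) - F (pt y w) =
    (∫ s in u..mt x u y w, σ x s) - ∫ s in w..mt x u y w, σ y s

lemma Prim.lip {σ : X → ℝ → ℝ} {F : Tr X → ℝ} (h : Prim σ F) (hb : ∀ x s, |σ x s| ≤ 1)
    (a b : Tr X) : |F a - F b| ≤ dist a b := by
  obtain ⟨x, u, hu, rfl⟩ := exists_pt a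
  obtain ⟨y, w, hw, rfl⟩ := exists_pt b
  rw [h x u y w hu hw, dist_pt _ _ hu hw]
  have h1 := intervalIntegral.norm_integral_le_of_norm_le_const (a := u) (b := mt x u y w)
    (f := σ x) (C := 1) fun s _ => hb x s
  have h2 := intervalIntegral.norm_integral_le_of_norm_le_const (a := w) (b := mt x u y w)
    (f := σ y) (C := 1) fun s _ => hb y s
  rw [abs_of_nonneg (by linarith [le_mt1 x u y w]), Real.norm_eq_abs] at h1
  rw [abs_of_nonneg (by linarith [le_mt2 x u y w]), Real.norm_eq_abs] at h2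
  exact (abs_sub _ _).trans (by linarith)

lemma exists_prim (hX : ∀ x y : X, dist x y ≤ 1) (σ : X → ℝ → ℝ) (hm : ∀ x, Measurable (σ x))
    (hb : ∀ x s, |σ x s| ≤ 1) (hc : ∀ x y s, dist x y < s → σ x s = σ y s) :
    ∃ F, Prim σ F := by
  have key : ∀ x u y w, (∫ s in u..1, σ x s) - (∫ s in w..1, σ y s) =
      (∫ s in u..mt x u y w, σ x s) - ∫ s in w..mt x u y w, σ y s := by
    intro x u y w
    have e : ∫ s in mt x u y w..1, σ x s = ∫ s in mt x u y w..1, σ y s := by
      apply intervalIntegral.integral_congr_ae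
      refine Eventually.of_forall fun s hs => hc x y s ?_
      exact lt_of_le_of_lt (le_min (le_mt3 x u y w) (hX x y)) hs.1
    rw [← intervalIntegral.integral_add_adjacent_intervals (ii (hm x) (hb x) u (mt x u y w))
      (ii (hm x) (hb x) _ 1), ← intervalIntegral.integral_add_adjacent_intervals
      (ii (hm y) (hb y) w (mt x u y w)) (ii (hm y) (hb y) _ 1), e]
    ring
  choose c h h0 he using exists_pt (X := X)
  have val : ∀ x u, 0 ≤ u → ∫ s in h (pt x u)..1, σ (c (pt x u)) s = ∫ s in u..1, σ x s := by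
    intro x u hu
    have d := dist_pt (c (pt x u)) x (h0 (pt x u)) hu
    rw [← he, dist_self] at d
    have m1 := le_mt1 (c (pt x u)) (h (pt x u)) x u
    have m2 := le_mt2 (c (pt x u)) (h (pt x u)) x u
    rw [← sub_eq_zero, key, show mt (c (pt x u)) (h (pt x u)) x u = u by linarith,
      show h (pt x u) = u by linarith]
    simp
  refine ⟨fun z => ∫ s in h z..1, σ (c z) s, fun x u y w hu hw => ?_⟩
  simp only
  rw [val x u hu, val y w hw, key]

lemma pt_lip (x : X) (s t : ℝ) : dist (pt x s) (pt x t) ≤ |s - t| := by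
  have e : ∀ s : ℝ, pt x s = pt x (max s 0) := fun s => by
    have : (max s 0).toNNReal = s.toNNReal := by ext; simp
    unfold pt; rw [this]
  rw [e s, e t, dist_same _ (le_max_right _ _) (le_max_right _ _)]
  exact abs_max_sub_max_le_abs s t 0

lemma exists_deriv (g : Tr X → ℝ) (hg : ∀ a b, |g a - g b| ≤ dist a b) :
    ∃ τ : X → ℝ → ℝ, (∀ x, Measurable (τ x)) ∧ (∀ x s, |τ x s| ≤ 1) ∧
      (∀ x y s, dist x y < s → τ x s = τ y s) ∧ Prim τ g := by
  have L : ∀ x : X, LipschitzWith 1 fun s => g (pt x s) := fun x =>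
    LipschitzWith.of_dist_le_mul fun s t => by
      rw [NNReal.coe_one, one_mul]; exact (hg _ _).trans (pt_lip x s t)
  refine ⟨fun x s => -deriv (fun s => g (pt x s)) s, fun x => (measurable_deriv _).neg,
    fun x s => ?_, fun x y s h => ?_, fun x u y w _ _ => ?_⟩
  · rw [abs_neg]; exact norm_deriv_le_of_lipschitz (L x)
  · refine congrArg Neg.neg ?_
    apply EventuallyEq.deriv_eq
    filter_upwards [lt_mem_nhds h] with t ht
    rw [pt_eq ht.le]
  · rw [intervalIntegral.integral_neg, intervalIntegral.integral_neg,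
      (L x).lipschitzOnWith.absolutelyContinuousOnInterval.integral_deriv_eq_sub,
      (L y).lipschitzOnWith.absolutelyContinuousOnInterval.integral_deriv_eq_sub,
      pt_eq (le_mt3 x u y w)]
    ring

lemma split (hX : ∀ x y : X, dist x y ≤ 1) (g : Tr X → ℝ) (hg : ∀ a b, |g a - g b| ≤ dist a b)
    (E : X → Set ℝ) (hE : ∀ x, MeasurableSet (E x))
    (hc : ∀ x y s, dist x y < s → (s ∈ E x ↔ s ∈ E y)) :
    ∃ f : Tr X → ℝ, (∀ a b, |f a - f b| ≤ dist a b) ∧
      (∀ a b, |(g a - f a) - (g b - f b)| ≤ dist a b) ∧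
      (∀ x u y w, 0 ≤ u → 0 ≤ w → Ioc u (mt x u y w) ⊆ E x → Ioc w (mt x u y w) ⊆ E y →
        f (pt x u) - f (pt y w) = g (pt x u) - g (pt y w)) ∧
      ∀ x y, |f (pt x 0) - f (pt y 0)| ≤ (∫ s in (0:ℝ)..dist x y, (E x).indicator 1 s) +
        ∫ s in (0:ℝ)..dist x y, (E y).indicator 1 s := by
  classical
  obtain ⟨τ, t1, t2, t3, t4⟩ := exists_deriv g hg
  have b1 : ∀ (A : Set ℝ) x s, |A.indicator (τ x) s| ≤ 1 := fun A x s => by
    by_cases h : s ∈ A
    · simp [h, t2]
    · simp [h]
  have m1 : ∀ x, Measurable ((E x).indicator (τ x)) := fun x => (t1 x).indicator (hE x)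
  obtain ⟨f, hf⟩ := exists_prim hX (fun x => (E x).indicator (τ x)) m1 (fun x => b1 _ x)
    fun x y s h => by simp only [indicator, hc x y s h, t3 x y s h]
  have hh : Prim (fun x => (E x)ᶜ.indicator (τ x)) fun a => g a - f a := by
    intro x u y w hu hw
    have e : ∀ x a b, ∫ s in a..b, (E x)ᶜ.indicator (τ x) s =
        (∫ s in a..b, τ x s) - ∫ s in a..b, (E x).indicator (τ x) s := by
      intro x a b
      rw [← intervalIntegral.integral_sub (ii (t1 x) (t2 x) _ _) (ii (m1 x) (b1 _ x) _ _),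
        indicator_compl]
      rfl
    simp only
    rw [e, e]
    linarith [hf x u y w hu hw, t4 x u y w hu hw]
  refine ⟨f, hf.lip fun x => b1 _ x, hh.lip fun x => b1 _ x, fun x u y w hu hw h1 h2 => ?_,
    fun x y => ?_⟩
  · have e : ∀ x a b, a ≤ b → Ioc a b ⊆ E x → ∫ s in a..b, (E x).indicator (τ x) s =
        ∫ s in a..b, τ x s := by
      intro x a b hab h
      apply intervalIntegral.integral_congr_ae
      refine Eventually.of_forall fun s hs => ?_
      rw [uIoc_of_le hab] at hs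
      exact indicator_of_mem (h hs) _
    rw [hf x u y w hu hw, t4 x u y w hu hw, e x _ _ (le_mt1 _ _ _ _) h1, e y _ _ (le_mt2 _ _ _ _) h2]
  · have e : ∀ x r, 0 ≤ r → |∫ s in (0:ℝ)..r, (E x).indicator (τ x) s| ≤
        ∫ s in (0:ℝ)..r, (E x).indicator 1 s := by
      intro x r hr
      refine (intervalIntegral.abs_integral_le_integral_abs hr).trans ?_
      apply intervalIntegral.integral_mono_on hr (ii (m1 x) (b1 _ x) _ _).abs
        (ii (measurable_one.indicator (hE x)) (fun s => by by_cases h : s ∈ E x <;> simp [h]) _ _)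
      intro s _
      by_cases h : s ∈ E x
      · simp [h, t2]
      · simp [h]
    rw [hf x 0 y 0 le_rfl le_rfl, show mt x 0 y 0 = dist x y by simp [mt]]
    exact (abs_sub _ _).trans (add_le_add (e x _ dist_nonneg) (e y _ dist_nonneg))

/-- heights at which the ray above `z` meets one of finitely many vertical pieces -/
def pieces {κ : Type} (J : Finset κ) (c : κ → X) (α β : κ → ℝ) (z : X) : Set ℝ :=
  ⋃ k ∈ J, Ioc (α k) (β k) ∩ Ici (dist z (c k))

omit [IsUltrametricDist X] in
lemma pieces_meas {κ : Type} (J : Finset κ) (c : κ → X) (α β : κ → ℝ) (z : X) :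
    MeasurableSet (pieces J c α β z) :=
  Finset.measurableSet_biUnion _ fun _ _ => measurableSet_Ioc.inter measurableSet_Ici

lemma pieces_coh {κ : Type} (J : Finset κ) (c : κ → X) (α β : κ → ℝ) (x y : X) (s : ℝ)
    (h : dist x y < s) : s ∈ pieces J c α β x ↔ s ∈ pieces J c α β y := by
  have k : ∀ x y : X, dist x y < s → s ∈ pieces J c α β x → s ∈ pieces J c α β y := by
    intro x y h hs
    simp only [pieces, mem_iUnion] at hs ⊢
    obtain ⟨k, hk, h1, h2⟩ := hs
    exact ⟨k, hk, h1, (IsUltrametricDist.dist_triangle_max y x (c k)).trans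
      (max_le (by rw [dist_comm]; exact h.le) h2)⟩
  exact ⟨k x y h, k y x (by rwa [dist_comm])⟩

lemma packing {κ ι : Type} (J : Finset κ) (c : κ → X) (α β : κ → ℝ) (hαβ : ∀ k, α k ≤ β k)
    (Y : Finset ι) (p : ι → X) {r : ℝ} (hr : 0 ≤ r)
    (hp : ∀ i ∈ Y, ∀ j ∈ Y, dist (p i) (p j) < r → i = j) :
    ∑ i ∈ Y, ∫ s in (0:ℝ)..r, (pieces J c α β (p i)).indicator (1 : ℝ → ℝ) s ≤
      ∑ k ∈ J, (β k - α k) := by
  classical
  have ib : ∀ {A : Set ℝ}, MeasurableSet A → IntervalIntegrable (A.indicator (1 : ℝ → ℝ)) volume 0 r :=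
    fun {A} hA => ii (measurable_one.indicator hA) (fun s => by by_cases h : s ∈ A <;> simp [h]) _ _
  rw [← intervalIntegral.integral_finsetSum fun i _ => ib (pieces_meas _ _ _ _ _)]
  have i1 : IntervalIntegrable (fun s => ∑ i ∈ Y, (pieces J c α β (p i)).indicator (1 : ℝ → ℝ) s)
      volume 0 r := by
    have := IntervalIntegrable.sum Y fun i _ => ib (pieces_meas J c α β (p i))
    rwa [Finset.sum_fn] at this
  have i2 : IntervalIntegrable (fun s => ∑ k ∈ J, (Ioc (α k) (β k)).indicator (1 : ℝ → ℝ) s)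
      volume 0 r := by
    have := IntervalIntegrable.sum J fun k _ => ib (measurableSet_Ioc (a := α k) (b := β k))
    rwa [Finset.sum_fn] at this
  refine (intervalIntegral.integral_mono_on_of_le_Ioo hr i1 i2 fun s hs => ?_).trans ?_
  · calc ∑ i ∈ Y, (pieces J c α β (p i)).indicator (1 : ℝ → ℝ) s
        ≤ ∑ i ∈ Y, ∑ k ∈ J, (if dist (p i) (c k) ≤ s then
            (Ioc (α k) (β k)).indicator (1 : ℝ → ℝ) s else 0) := by
          apply Finset.sum_le_sum
          intro i _
          have nn : ∀ k ∈ J, 0 ≤ (if dist (p i) (c k) ≤ s then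
              (Ioc (α k) (β k)).indicator (1 : ℝ → ℝ) s else 0) := fun k _ => by
            split_ifs
            · exact indicator_nonneg (fun _ _ => zero_le_one) _
            · exact le_rfl
          by_cases h : s ∈ pieces J c α β (p i)
          · rw [indicator_of_mem h]
            simp only [pieces, mem_iUnion] at h
            obtain ⟨k, hk, h1, h2⟩ := h
            refine le_trans ?_ (Finset.single_le_sum nn hk)
            rw [if_pos (mem_Ici.1 h2), indicator_of_mem h1]
          · rw [indicator_of_notMem h]; exact Finset.sum_nonneg nn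
      _ ≤ _ := by
          rw [Finset.sum_comm]
          apply Finset.sum_le_sum
          intro k _
          rw [← Finset.sum_filter, Finset.sum_const, nsmul_eq_mul]
          apply mul_le_of_le_one_left (indicator_nonneg (fun _ _ => zero_le_one) _)
          norm_cast
          rw [Finset.card_le_one]
          intro i hi j hj
          rw [Finset.mem_filter] at hi hj
          apply hp i hi.1 j hj.1
          exact (IsUltrametricDist.dist_triangle_max _ (c k) _).trans_lt
            (max_lt (hi.2.trans_lt hs.2) (by rw [dist_comm]; exact hj.2.trans_lt hs.2))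
  · rw [intervalIntegral.integral_finsetSum fun k _ => ib measurableSet_Ioc]
    apply Finset.sum_le_sum
    intro k _
    rw [intervalIntegral.integral_of_le hr]
    refine (setIntegral_le_integral ?_ (Eventually.of_forall
      (indicator_nonneg fun _ _ => zero_le_one))).trans ?_
    · exact (integrable_indicator_iff measurableSet_Ioc).2 (integrableOn_const (by simp))
    · rw [integral_indicator_const _ measurableSet_Ioc, Real.volume_real_Ioc_of_le (hαβ k)]
      simp

theorem condA (hX : ∀ x y : X, dist x y ≤ 1) (o : Tr X) (W : Set (Free o)) (hW : W.Nonempty)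
    (h : ∀ γ ∈ W, ∀ (L : Free o →L[ℝ] ℝ) (f : Tr X → ℝ) (E : X → Set ℝ) (δ : ℝ),
      (∀ x, L (dF o x) = f x - f o) →
      (∀ x y, |f (pt x 0) - f (pt y 0)| ≤ (∫ s in (0:ℝ)..dist x y, (E x).indicator 1 s) +
        ∫ s in (0:ℝ)..dist x y, (E y).indicator 1 s) →
      (∀ (Y : Finset ℕ) (p : ℕ → X) (r : ℝ), 0 ≤ r →
        (∀ i ∈ Y, ∀ j ∈ Y, dist (p i) (p j) < r → i = j) →
        ∑ i ∈ Y, ∫ s in (0:ℝ)..r, (E (p i)).indicator (1 : ℝ → ℝ) s ≤ δ) → L γ ≤ δ) :
    CondA o W := by
  classical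
  intro ε hε
  refine ⟨ε / 2, half_pos hε, fun n a x y hxy hn I hI => ?_⟩
  obtain ⟨g, hg, hg'⟩ := norming (o := o) a x y (half_pos hε)
  choose cx u hu ex using fun i => exists_pt (x i)
  choose cy w hw ey using fun i => exists_pt (y i)
  set J : Finset (Fin n × Bool) := I ×ˢ Finset.univ with hJ
  set c : Fin n × Bool → X := fun k => if k.2 then cx k.1 else cy k.1 with hc
  set α : Fin n × Bool → ℝ := fun k => if k.2 then u k.1 else w k.1 with hα
  set β : Fin n × Bool → ℝ := fun k => mt (cx k.1) (u k.1) (cy k.1) (w k.1) with hβ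
  have hαβ : ∀ k, α k ≤ β k := fun k => by
    simp only [hα, hβ]
    split_ifs
    · exact le_mt1 _ _ _ _
    · exact le_mt2 _ _ _ _
  have tot : ∑ k ∈ J, (β k - α k) = ∑ i ∈ I, dist (x i) (y i) := by
    rw [hJ, Finset.sum_product]
    apply Finset.sum_congr rfl
    intro i _
    rw [ex i, ey i, dist_pt _ _ (hu i) (hw i)]
    simp [hα, hβ]; ring
  obtain ⟨f, f1, f2, f3, f4⟩ := split hX g hg (pieces J c α β) (pieces_meas _ _ _ _)
    (pieces_coh _ _ _ _)
  obtain ⟨L, L1, L2⟩ := exists_ev o f f1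
  set γ := ∑ i, a i • mol o (x i) (y i) with hγ
  have Lγ : L γ = ∑ i, a i * ((dist (x i) (y i))⁻¹ * (f (x i) - f (y i))) := by
    simp only [hγ, mol, map_sum, map_smul, map_sub, L2, smul_eq_mul, sub_sub_sub_cancel_right]
  have low : ∑ i ∈ I, |a i| - ε / 2 ≤ L γ := by
    have k : ∀ i, a i * ((dist (x i) (y i))⁻¹ * (g (x i) - g (y i))) - |a i| +
        (if i ∈ I then |a i| else 0) ≤ a i * ((dist (x i) (y i))⁻¹ * (f (x i) - f (y i))) := by
      intro i
      split_ifs with hi
      · have := f3 (cx i) (u i) (cy i) (w i) (hu i) (hw i) (fun s hs => by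
          simp only [pieces, mem_iUnion]
          exact ⟨(i, true), by simp [hJ, hi], hs, by
            simp only [hc, if_true, dist_self, mem_Ici]; linarith [hs.1, hu i]⟩) (fun s hs => by
          simp only [pieces, mem_iUnion]
          exact ⟨(i, false), by simp [hJ, hi], hs, by
            simp only [hc, Bool.false_eq_true, if_false, dist_self, mem_Ici]
            linarith [hs.1, hw i]⟩)
        rw [← ex i, ← ey i] at this
        rw [this]; linarith
      · have d0 : 0 < dist (x i) (y i) := dist_pos.2 (hxy i)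
        have b : |(dist (x i) (y i))⁻¹ * ((g (x i) - f (x i)) - (g (y i) - f (y i)))| ≤ 1 := by
          rw [abs_mul, abs_of_pos (inv_pos.2 d0), ← div_eq_inv_mul, div_le_one d0]
          exact f2 _ _
        have b2 := le_abs_self (a i *
          ((dist (x i) (y i))⁻¹ * ((g (x i) - f (x i)) - (g (y i) - f (y i)))))
        rw [abs_mul] at b2
        nlinarith [abs_nonneg (a i)]
    have := Finset.sum_le_sum fun i (_ : i ∈ Finset.univ) => k i
    rw [Finset.sum_add_distrib, Finset.sum_sub_distrib, Finset.sum_ite_mem, Finset.univ_inter,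
      ← Lγ] at this
    linarith
  rw [← sub_le_iff_le_add', Metric.le_infDist hW]
  intro γ' hγ'
  have := h γ' hγ' L f _ _ L2 f4 fun Y p r hr hp => packing J c α β hαβ Y p hr hp
  have b := (le_abs_self _).trans (L1 (γ - γ'))
  rw [map_sub, ← dist_eq_norm] at b
  linarith

end Pool.Agent.H56.RT
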