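import Pool.Agent.H56.RT2

open Set Filter Topology MeasureTheory
open scoped NNReal

namespace Pool.Agent.H56.RT

attribute [local instance] PiNat.dist

def Ca : Type := ℕ → Bool

noncomputable instance : MetricSpace Ca := PiNat.metricSpace (E := fun _ => Bool)

instance : IsUltrametricDist Ca := ⟨PiNat.dist_triangle_nonarch (E := fun _ => Bool)⟩

instance : CompactSpace Ca := inferInstanceAs (CompactSpace (ℕ → Bool))

instance : MeasurableSpace Ca := inferInstanceAs (MeasurableSpace (ℕ → Bool))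

instance : BorelSpace Ca := inferInstanceAs (BorelSpace (ℕ → Bool))

lemma diam (x y : Ca) : dist x y ≤ 1 := PiNat.dist_le_one (E := fun _ => Bool) x y

def cyl (x : Ca) (n : ℕ) : Set Ca := {y | ∀ i < n, y i = x i}

lemma cyl_iff {x y : Ca} {n : ℕ} : y ∈ cyl x n ↔ dist y x ≤ (1 / 2) ^ n :=
  PiNat.mem_cylinder_iff_dist_le (E := fun _ => Bool)

lemma eq_of_lt {x y : Ca} {n : ℕ} (h : dist x y < (1 / 2) ^ n) {i : ℕ} (hi : i ≤ n) : x i = y i :=
  PiNat.apply_eq_of_dist_lt (E := fun _ => Bool) h hi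

lemma cyl_open (x : Ca) (n : ℕ) : IsOpen (cyl x n) := PiNat.isOpen_cylinder (fun _ => Bool) x n

def bits (v : ℕ) : Ca := fun k => v.testBit k

lemma bits_inj {n i j : ℕ} (hi : i < 2 ^ n) (hj : j < 2 ^ n) (h : ∀ k < n, bits i k = bits j k) :
    i = j := by
  apply Nat.eq_of_testBit_eq
  intro k
  rcases Nat.lt_or_ge k n with hk | hk
  · exact h k hk
  · have := Nat.pow_le_pow_right two_pos hk
    rw [Nat.testBit_lt_two_pow (hi.trans_le this), Nat.testBit_lt_two_pow (hj.trans_le this)]

lemma bits_top {n v : ℕ} (hv : v < 2 ^ n) : bits (2 ^ n + v) n = true := by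
  simp [bits, Nat.testBit_two_pow_add_eq, Nat.testBit_lt_two_pow hv]

lemma dist_bits {n v : ℕ} (hv : v < 2 ^ n) : dist (bits (2 ^ n + v)) (bits v) = (1 / 2) ^ n := by
  apply le_antisymm (cyl_iff.1 fun i hi => Nat.testBit_two_pow_add_gt hi v)
  by_contra h
  have : bits (2 ^ n + v) n = bits v n := eq_of_lt (not_le.1 h) le_rfl
  rw [bits_top hv] at this
  simp [bits, Nat.testBit_lt_two_pow hv] at this

noncomputable def en (x : Ca) : Tr Ca := pt x 0

lemma dist_en (x y : Ca) : dist (en x) (en y) = 2 * dist x y := by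
  rw [en, en, dist_pt _ _ le_rfl le_rfl]; simp [mt]

lemma en_cont : Continuous en :=
  (LipschitzWith.of_dist_le_mul (K := 2) fun x y => by rw [dist_en]; simp).continuous

noncomputable def root : Tr Ca := pt (bits 0) 1

noncomputable def gam (n : ℕ) : Free root :=
  ∑ v ∈ Finset.range (2 ^ n), (dF root (en (bits (2 ^ n + v))) - dF root (en (bits v)))

lemma pw (n : ℕ) : (2:ℝ) ^ n * (1 / 2) ^ n = 1 := by rw [← mul_pow]; simp

lemma gam_norm (n : ℕ) : ‖gam n‖ ≤ 2 := by
  refine (norm_sum_le_of_le _ (n := fun _ => 2 * (1 / 2 : ℝ) ^ n) fun v hv => ?_).trans ?_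
  · refine (norm_mol _ _).trans ?_
    rw [dist_en, dist_bits (Finset.mem_range.1 hv)]
  · simp only [Finset.sum_const, Finset.card_range, nsmul_eq_mul]
    push_cast
    nlinarith [pw n]

lemma gam_condA : CondA root (range gam) := by
  apply condA diam root _ (range_nonempty _)
  rintro _ ⟨n, rfl⟩ L f E δ h1 h2 h3
  have := h3 (Finset.range (2 ^ n + 2 ^ n)) bits ((1 / 2) ^ n) (by positivity) fun i hi j hj h =>
    bits_inj (n := n + 1) (by rw [pow_succ]; have := Finset.mem_range.1 hi; omega)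
      (by rw [pow_succ]; have := Finset.mem_range.1 hj; omega)
      fun k hk => eq_of_lt h (by omega)
  rw [Finset.sum_range_add, add_comm, ← Finset.sum_add_distrib] at this
  refine le_trans ?_ this
  rw [gam, map_sum]
  apply Finset.sum_le_sum
  intro v hv
  have := h2 (bits (2 ^ n + v)) (bits v)
  rw [dist_bits (Finset.mem_range.1 hv)] at this
  rw [map_sub, h1, h1, sub_sub_sub_cancel_right]
  exact (le_abs_self _).trans this

noncomputable def nu : Measure Bool := (PMF.uniformOfFintype Bool).toMeasure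

instance : IsProbabilityMeasure nu := by unfold nu; infer_instance

noncomputable def mu : Measure Ca := Measure.infinitePi fun _ : ℕ => nu

instance : IsProbabilityMeasure mu :=
  inferInstanceAs (IsProbabilityMeasure (Measure.infinitePi fun _ : ℕ => nu))

lemma mu_cyl (x : Ca) (n : ℕ) : mu.real (cyl x n) = (1 / 2) ^ n := by
  have h := Measure.infinitePi_pi (fun _ : ℕ => nu) (s := Finset.range n) (t := fun i => {x i})
    fun _ _ => measurableSet_singleton _
  have e : ∀ b : Bool, nu {b} = 2⁻¹ := fun b => by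
    rw [nu, PMF.toMeasure_apply_singleton _ _ (measurableSet_singleton b),
      PMF.uniformOfFintype_apply]
    simp
  rw [← PiNat.cylinder_eq_pi (E := fun _ => Bool)] at h
  simp only [e, Finset.prod_const, Finset.card_range] at h
  have : mu (cyl x n) = 2⁻¹ ^ n := h
  simp [Measure.real, this]

lemma bad_count (B : Set Ca) (n j : ℕ) (hj : n ≤ j) [DecidablePred fun i => cyl (bits i) j ⊆ B] :
    (((Finset.range (2 ^ n)).filter fun i => cyl (bits i) j ⊆ B).card : ℝ) * (1 / 2) ^ j ≤
      mu.real B := by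
  have h := measureReal_biUnion_finset (μ := mu)
    (s := (Finset.range (2 ^ n)).filter fun i => cyl (bits i) j ⊆ B) (f := fun i => cyl (bits i) j)
    (fun a ha b hb hab => by
      rw [Function.onFun, Set.disjoint_left]
      intro x h1 h2
      simp only [Finset.coe_filter, Finset.mem_range, mem_ofPred_eq] at ha hb
      exact hab (bits_inj ha.1 hb.1 fun k hk => (h1 k (by omega)).symm.trans (h2 k (by omega))))
    (fun i _ => (cyl_open _ _).measurableSet)
  simp only [mu_cyl, Finset.sum_const, nsmul_eq_mul] at h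
  rw [← h]
  apply measureReal_mono _ (measure_ne_top _ _)
  simp only [iUnion_subset_iff]
  exact fun i hi => (Finset.mem_filter.1 hi).2

lemma gam_reg : UnifReg root (range gam) := by
  classical
  intro U hU ε hε
  obtain ⟨m, hm⟩ := exists_pow_lt_of_lt_one (show 0 < ε / 4 by positivity)
    (show (1 / 2 : ℝ) < 1 by norm_num)
  have o1 : IsOpen (en ⁻¹' U) := hU.preimage en_cont
  set K' : ℕ → Set Ca := fun k => {x | cyl x k ⊆ en ⁻¹' U} with hK'
  have c1 : ∀ k, IsClosed (K' k) := by
    intro k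
    rw [← isOpen_compl_iff, isOpen_iff_forall_mem_open]
    intro x hx
    refine ⟨cyl x k, fun y hy h => hx fun z hz => h fun i hi => (hz i hi).trans (hy i hi).symm,
      cyl_open _ _, fun _ _ => rfl⟩
  have t := tendsto_measure_iInter_atTop (μ := mu) (s := fun k => en ⁻¹' U \ K' k)
    (fun k => (o1.measurableSet.diff (c1 k).measurableSet).nullMeasurableSet)
    (fun a b hab x hx => ⟨hx.1, fun h => hx.2 fun y hy => h fun i hi => hy i (by omega)⟩)
    ⟨0, measure_ne_top _ _⟩
  have e : ⋂ k, (en ⁻¹' U \ K' k) = ∅ := by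
    rw [eq_empty_iff_forall_notMem]
    intro x hx
    rw [mem_iInter] at hx
    obtain ⟨r, hr, h⟩ := Metric.isOpen_iff.1 o1 x (hx 0).1
    obtain ⟨k, hk⟩ := exists_pow_lt_of_lt_one hr (show (1 / 2 : ℝ) < 1 by norm_num)
    exact (hx k).2 fun y hy => h ((cyl_iff.1 hy).trans_lt hk)
  rw [e, measure_empty] at t
  have t' := (ENNReal.tendsto_toReal ENNReal.zero_ne_top).comp t
  obtain ⟨k, hk⟩ := (t'.eventually (gt_mem_nhds
    (show (0:ENNReal).toReal < ε / 8 * (1 / 2) ^ m by simp only [ENNReal.toReal_zero]; positivity))).exists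
  set B := en ⁻¹' U \ K' k with hB
  have hk' : mu.real B < ε / 8 * (1 / 2) ^ m := hk
  refine ⟨en '' K' k, (c1 k).isCompact.image en_cont, ?_, ?_⟩
  · rintro _ ⟨x, hx, rfl⟩
    exact hx fun _ _ => rfl
  rintro _ ⟨n, rfl⟩
  have good : ∀ i, ¬ cyl (bits i) (n + 1 + m) ⊆ B → ∃ y ∈ en '' K' k ∪ Uᶜ,
      ‖dF root (en (bits i)) - dF root y‖ ≤ (1 / 2) ^ n * (1 / 2) ^ m := by
    intro i h
    obtain ⟨y, h1, h2⟩ := not_subset.1 h
    refine ⟨en y, ?_, (norm_mol _ _).trans ?_⟩
    · by_cases h3 : en y ∈ U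
      · exact Or.inl ⟨y, by_contra fun h4 => h2 ⟨h3, h4⟩, rfl⟩
      · exact Or.inr h3
    · have := cyl_iff.1 h1
      rw [dist_en, dist_comm]
      rw [pow_add, pow_succ] at this
      linarith
  have pair : ∀ v, v < 2 ^ n → ∃ w ∈ freeOn root (en '' K' k ∪ Uᶜ),
      ‖dF root (en (bits (2 ^ n + v))) - dF root (en (bits v)) - w‖ ≤
        2 * ((1 / 2) ^ n * (1 / 2) ^ m) + 2 * (1 / 2) ^ n *
          ((if cyl (bits v) (n + 1 + m) ⊆ B then 1 else 0) +
            if cyl (bits (2 ^ n + v)) (n + 1 + m) ⊆ B then 1 else 0) := by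
    intro v hv
    have h0 : ‖dF root (en (bits (2 ^ n + v))) - dF root (en (bits v)) - 0‖ ≤ 2 * (1 / 2) ^ n := by
      rw [sub_zero]
      refine (norm_mol _ _).trans ?_
      rw [dist_en, dist_bits hv]
    have p1 : (0:ℝ) < (1 / 2) ^ n * (1 / 2) ^ m := by positivity
    have p2 : (0:ℝ) < (1 / 2) ^ n := by positivity
    split_ifs with h1 h2 h2
    · exact ⟨0, zero_mem _, by linarith⟩
    · exact ⟨0, zero_mem _, by linarith⟩
    · exact ⟨0, zero_mem _, by linarith⟩
    · obtain ⟨y, a1, a2⟩ := good _ h1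
      obtain ⟨y', b1, b2⟩ := good _ h2
      have mem : ∀ y ∈ en '' K' k ∪ Uᶜ, dF root y ∈ freeOn root (en '' K' k ∪ Uᶜ) := fun y hy =>
        Submodule.le_topologicalClosure _ (Submodule.subset_span ⟨y, hy, rfl⟩)
      refine ⟨dF root y' - dF root y, sub_mem (mem _ b1) (mem _ a1), ?_⟩
      rw [sub_sub_sub_comm]
      exact (norm_sub_le _ _).trans (by linarith)
  choose! w hw1 hw2 using pair
  refine ⟨∑ v ∈ Finset.range (2 ^ n), w v, sum_mem fun v hv => hw1 v (Finset.mem_range.1 hv), ?_⟩
  rw [gam, ← Finset.sum_sub_distrib]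
  refine (norm_sum_le_of_le _ fun v hv => hw2 v (Finset.mem_range.1 hv)).trans ?_
  rw [Finset.sum_add_distrib, Finset.sum_const, ← Finset.mul_sum, Finset.sum_add_distrib,
    ← Finset.sum_range_add (fun i => if cyl (bits i) (n + 1 + m) ⊆ B then (1:ℝ) else 0),
    Finset.sum_boole, ← two_mul, ← pow_succ']
  have bc := bad_count B (n + 1) (n + 1 + m) (by omega)
  simp only [Finset.card_range, nsmul_eq_mul]
  push_cast
  rw [pow_add (1 / 2 : ℝ), pow_succ (1 / 2 : ℝ)] at bc
  generalize (((Finset.range (2 ^ (n + 1))).filter fun i => cyl (bits i) (n + 1 + m) ⊆ B).card : ℝ)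
    = N at *
  have p2 : (0:ℝ) < (1 / 2) ^ m := by positivity
  have k1 : N * (1 / 2) ^ n ≤ ε / 4 := by
    apply le_of_mul_le_mul_right _ p2
    nlinarith
  have k2 : (2:ℝ) ^ n * (2 * ((1 / 2) ^ n * (1 / 2) ^ m)) = 2 * (1 / 2) ^ m := by
    rw [mul_left_comm, ← mul_assoc ((2:ℝ) ^ n), pw, one_mul]
  rw [k2]
  linarith

/-- heights belonging to levels in `A` whose digit is one -/
def lev (A : Set ℕ) (x : Ca) : Set ℝ :=
  ⋃ n ∈ {n | n ∈ A ∧ x n = true}, Ioc ((1 / 2 : ℝ) ^ (n + 1)) ((1 / 2) ^ n)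

lemma lev_meas (A : Set ℕ) (x : Ca) : MeasurableSet (lev A x) :=
  MeasurableSet.biUnion (to_countable _) fun _ _ => measurableSet_Ioc

lemma ind_le (A : Set ℝ) (s : ℝ) : |A.indicator (1 : ℝ → ℝ) s| ≤ 1 := by
  by_cases h : s ∈ A <;> simp [h]

lemma lev_prim (A : Set ℕ) : ∃ F, Prim (fun x => (lev A x).indicator 1) F := by
  classical
  apply exists_prim diam _ (fun x => measurable_one.indicator (lev_meas A x))
    (fun x s => ind_le _ s)
  have k : ∀ x y s, dist x y < s → s ∈ lev A x → s ∈ lev A y := by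
    intro x y s h hs
    simp only [lev, mem_iUnion] at hs ⊢
    obtain ⟨n, ⟨h1, h2⟩, h3⟩ := hs
    exact ⟨n, ⟨h1, by rw [← eq_of_lt (h.trans_le h3.2) le_rfl]; exact h2⟩, h3⟩
  intro x y s h
  have : s ∈ lev A x ↔ s ∈ lev A y := ⟨k x y s h, k y x s (by rwa [dist_comm])⟩
  simp only [indicator, this]

lemma lev_ge {A : Set ℕ} {x : Ca} {s : ℝ} {n : ℕ} (hs : s ∈ lev A x) (h : s ≤ (1 / 2) ^ n) :
    ∃ k, n ≤ k ∧ k ∈ A ∧ x k = true := by
  simp only [lev, mem_iUnion] at hs
  obtain ⟨k, ⟨h1, h2⟩, h3⟩ := hs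
  refine ⟨k, ?_, h1, h2⟩
  by_contra hc
  have : (1 / 2 : ℝ) ^ n ≤ (1 / 2) ^ (k + 1) :=
    pow_le_pow_of_le_one (by norm_num) (by norm_num) (by omega)
  linarith [h3.1]

lemma int_zero {A : Set ℕ} {x : Ca} {n : ℕ} (h : ∀ k, n ≤ k → k ∈ A → x k = false) :
    ∫ s in (0:ℝ)..(1 / 2) ^ n, (lev A x).indicator (1 : ℝ → ℝ) s = 0 := by
  refine (intervalIntegral.integral_congr (g := fun _ => (0:ℝ)) ?_).trans
    intervalIntegral.integral_zero
  intro s hs
  rw [uIcc_of_le (by positivity)] at hs
  apply indicator_of_notMem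
  intro h1
  obtain ⟨k, a1, a2, a3⟩ := lev_ge h1 hs.2
  simp [h k a1 a2] at a3

lemma gam_not : ¬ RelWeakCompact root (range gam) := by
  intro hc
  choose F hF using lev_prim
  choose L L1 L2 using fun A => exists_ev root (F A) ((hF A).lip fun x s => ind_le _ s)
  have val : ∀ A n, L A (gam n) = ∑ v ∈ Finset.range (2 ^ n),
      ((∫ s in (0:ℝ)..(1 / 2) ^ n, (lev A (bits (2 ^ n + v))).indicator (1 : ℝ → ℝ) s) -
        ∫ s in (0:ℝ)..(1 / 2) ^ n, (lev A (bits v)).indicator (1 : ℝ → ℝ) s) := by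
    intro A n
    rw [gam, map_sum]
    apply Finset.sum_congr rfl
    intro v hv
    rw [map_sub, L2, L2, sub_sub_sub_cancel_right, en, en, hF A _ _ _ _ le_rfl le_rfl,
      show mt (bits (2 ^ n + v)) 0 (bits v) 0 = (1 / 2) ^ n by
        rw [mt, dist_bits (Finset.mem_range.1 hv)]; simp]
  have v1 : ∀ n, 1 / 2 ≤ L univ (gam n) := by
    intro n
    rw [val]
    refine le_trans ?_ (Finset.card_nsmul_le_sum _ _ ((1 / 2 : ℝ) ^ (n + 1)) fun v hv => ?_)
    · simp only [Finset.card_range, nsmul_eq_mul, pow_succ]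
      push_cast
      nlinarith [pw n]
    · have hv' := Finset.mem_range.1 hv
      rw [int_zero (x := bits v) fun k hk _ => Nat.testBit_lt_two_pow
        (hv'.trans_le (Nat.pow_le_pow_right two_pos hk)), sub_zero]
      have hle : (1 / 2 : ℝ) ^ (n + 1) ≤ (1 / 2) ^ n :=
        pow_le_pow_of_le_one (by norm_num) (by norm_num) (by omega)
      refine le_trans ?_ (intervalIntegral.integral_mono_interval (a := (1 / 2) ^ (n + 1))
        (b := (1 / 2) ^ n) (by positivity) hle le_rfl
        (Eventually.of_forall (indicator_nonneg fun _ _ => zero_le_one))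
        (ii (measurable_one.indicator (lev_meas _ _)) (ind_le _) _ _))
      rw [intervalIntegral.integral_congr_ae (g := fun _ => (1:ℝ)) (Eventually.of_forall fun s hs => by
        rw [uIoc_of_le hle] at hs
        apply indicator_of_mem
        simp only [lev, mem_iUnion]
        exact ⟨n, ⟨trivial, bits_top hv'⟩, hs⟩)]
      simp only [intervalIntegral.integral_const, smul_eq_mul, pow_succ]
      linarith
  have v2 : ∀ N n, N ≤ n → L (Iio N) (gam n) = 0 := by
    intro N n h
    rw [val]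
    apply Finset.sum_eq_zero
    intro v _
    have z : ∀ x : Ca, ∫ s in (0:ℝ)..(1 / 2) ^ n, (lev (Iio N) x).indicator (1 : ℝ → ℝ) s = 0 :=
      fun x => int_zero fun k hk h' => absurd (show k < N from h') (by omega)
    rw [z, z, sub_zero]
  have v3 : ∀ N (x : Ca) (u M : ℝ), u ≤ M → |(∫ s in u..M, (lev univ x).indicator (1 : ℝ → ℝ) s) -
      ∫ s in u..M, (lev (Iio N) x).indicator (1 : ℝ → ℝ) s| ≤ (1 / 2) ^ N := by
    intro N x u M h
    have i1 := ii (measurable_one.indicator (lev_meas univ x)) (ind_le _) u M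
    have i2 := ii (measurable_one.indicator (lev_meas (Iio N) x)) (ind_le _) u M
    rw [← intervalIntegral.integral_sub i1 i2]
    refine (intervalIntegral.abs_integral_le_integral_abs h).trans ?_
    refine (intervalIntegral.integral_mono_on h (i1.sub i2).abs
      (ii (measurable_one.indicator (measurableSet_Ioc (a := (0:ℝ)) (b := (1 / 2) ^ N))) (ind_le _) u M)
      fun s _ => ?_).trans ?_
    · by_cases h1 : s ∈ lev (Iio N) x
      · have : s ∈ lev univ x := by
          simp only [lev, mem_iUnion] at h1 ⊢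
          obtain ⟨k, a, b⟩ := h1
          exact ⟨k, ⟨trivial, a.2⟩, b⟩
        rw [indicator_of_mem h1, indicator_of_mem this, sub_self, abs_zero]
        exact indicator_nonneg (fun _ _ => zero_le_one) _
      · by_cases h2 : s ∈ lev univ x
        · rw [indicator_of_notMem h1, indicator_of_mem h2, indicator_of_mem]
          · simp
          · simp only [lev, mem_iUnion] at h1 h2
            obtain ⟨k, a, b⟩ := h2
            have hk : N ≤ k := by
              by_contra hk
              exact h1 ⟨k, ⟨not_le.1 hk, a.2⟩, b⟩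
            exact ⟨lt_trans (by positivity) b.1, b.2.trans
              (pow_le_pow_of_le_one (by norm_num) (by norm_num) hk)⟩
        · rw [indicator_of_notMem h1, indicator_of_notMem h2, sub_self, abs_zero]
          exact indicator_nonneg (fun _ _ => zero_le_one) _
    · rw [intervalIntegral.integral_of_le h]
      refine (setIntegral_le_integral ?_ (Eventually.of_forall
        (indicator_nonneg fun _ _ => zero_le_one))).trans ?_
      · exact (integrable_indicator_iff measurableSet_Ioc).2 (integrableOn_const (by simp))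
      · rw [integral_indicator_const _ measurableSet_Ioc, Real.volume_real_Ioc_of_le (by positivity)]
        simp
  have v4 : ∀ μ ∈ Submodule.span ℝ (range (dF root)),
      Tendsto (fun N => L univ μ - L (Iio N) μ) atTop (𝓝 0) := by
    intro μ hμ
    induction hμ using Submodule.span_induction with
    | mem _ h =>
      obtain ⟨z, rfl⟩ := h
      obtain ⟨x, u, hu, rfl⟩ := exists_pt z
      have t := (tendsto_pow_atTop_nhds_zero_of_lt_one (show (0:ℝ) ≤ 1 / 2 by norm_num)
        (by norm_num)).const_mul 2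
      rw [mul_zero] at t
      refine squeeze_zero_norm (fun N => ?_) t
      rw [L2, L2, root, hF _ _ _ _ _ hu zero_le_one, hF _ _ _ _ _ hu zero_le_one, sub_sub_sub_comm]
      exact (abs_sub _ _).trans (by
        linarith [v3 N x u _ (le_mt1 x u (bits 0) 1), v3 N (bits 0) 1 _ (le_mt2 x u (bits 0) 1)])
    | zero => simp
    | add a b _ _ h1 h2 =>
      have := h1.add h2
      rw [add_zero] at this
      refine this.congr fun N => ?_
      simp only [map_add]; ring
    | smul c a _ h =>
      have := h.const_mul c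
      rw [mul_zero] at this
      refine this.congr fun N => ?_
      simp only [map_smul, smul_eq_mul]; ring
  obtain ⟨γ, -, hγ⟩ := hc.exists_mapClusterPt (f := atTop)
    (u := fun n => toWeakSpace ℝ (Free root) (gam n))
    (le_principal_iff.2 (mem_map.2
      (Eventually.of_forall fun n => subset_closure ⟨_, ⟨n, rfl⟩, rfl⟩)))
  have ct : ∀ A, Continuous fun γ : WeakSpace ℝ (Free root) =>
      L A ((toWeakSpace ℝ (Free root)).symm γ) := fun A => WeakBilin.eval_continuous _ (L A)
  have a1 : 1 / 2 ≤ L univ ((toWeakSpace ℝ (Free root)).symm γ) :=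
    (isClosed_le continuous_const (ct univ)).mem_of_mapClusterPt hγ (Eventually.of_forall v1)
  have a2 : ∀ N, L (Iio N) ((toWeakSpace ℝ (Free root)).symm γ) = 0 := fun N =>
    (isClosed_eq (ct (Iio N)) continuous_const).mem_of_mapClusterPt hγ
      ((eventually_ge_atTop N).mono fun n hn => v2 N n hn)
  obtain ⟨μ, hμ, hd⟩ := dense_span ((toWeakSpace ℝ (Free root)).symm γ) (show (0:ℝ) < 1 / 8 by norm_num)
  obtain ⟨N, hN⟩ := ((v4 μ hμ).eventually (gt_mem_nhds (show (0:ℝ) < 1 / 4 by norm_num))).exists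
  have b1 := (abs_le.1 ((L1 univ _).trans hd.le)).2
  have b2 := (abs_le.1 ((L1 (Iio N) _).trans hd.le)).1
  rw [map_sub] at b1 b2
  linarith [a2 N]

end Pool.Agent.H56.RT
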