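import Mathlib

set_option autoImplicit false

namespace Pool.Agent.H56.Rep

open Finset Equiv

/-- integer weights with prescribed binomial transform near the top -/
theorem exists_coef (D : ℕ) : ∀ (M : ℕ) (f : ℕ → ℤ), ∃ c : ℕ → ℤ, (∀ j, D < j → c j = 0) ∧
    ∀ r, r ≤ D → r ≤ M → ∑ j ∈ range (M - r + 1), ((M - r).choose j : ℤ) * c j = f r := by
  induction D with
  | zero =>
    intro M f
    refine ⟨fun j => if j = 0 then f 0 else 0, fun j hj => by simp; omega, fun r hr _ => ?_⟩
    obtain rfl : r = 0 := by omega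
    rw [sum_eq_single 0] <;> simp +contextual
  | succ D ih =>
    intro M f
    rcases M with _ | M
    · refine ⟨fun j => if j = 0 then f 0 else 0, fun j hj => by simp; omega, fun r _ hr => ?_⟩
      obtain rfl : r = 0 := by omega
      simp
    obtain ⟨c, hc0, hc⟩ := ih M (fun r => f r - f (r + 1))
    let c' : ℕ → ℤ := fun j => if j = 0 then 0 else c (j - 1)
    let S : ℕ → ℤ := fun n => ∑ j ∈ range (n + 1), (n.choose j : ℤ) * c' j
    have hS : ∀ n, S (n + 1) = S n + ∑ j ∈ range (n + 1), (n.choose j : ℤ) * c j := by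
      intro n
      have := Finset.sum_choose_succ_mul (R := ℤ) (fun i _ => c' i) n
      simpa [S, c'] using this
    have key : ∀ r, r ≤ D + 1 → r ≤ M + 1 → S (M + 1 - r) - S (M + 1) = f r - f 0 := by
      intro r
      induction r with
      | zero => simp
      | succ r ihr =>
        intro h1 h2
        have h3 := ihr (by omega) (by omega)
        have h4 := hS (M - r)
        have h5 := hc r (by omega) (by omega)
        have e1 : M + 1 - r = M - r + 1 := by omega
        have e2 : M + 1 - (r + 1) = M - r := by omega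
        rw [e1] at h3
        rw [e2]
        linarith
    refine ⟨fun j => c' j + if j = 0 then f 0 - S (M + 1) else 0, fun j hj => ?_, fun r h1 h2 => ?_⟩
    · have : j ≠ 0 := by omega
      simp [c', this, hc0 (j - 1) (by omega)]
    · have h3 := key r h1 h2
      simp only [mul_add, sum_add_distrib]
      rw [sum_eq_single (s := range (M + 1 - r + 1)) (f := fun j =>
        ((M + 1 - r).choose j : ℤ) * if j = 0 then f 0 - S (M + 1) else 0) 0]
      · simp only [S] at h3 ⊢
        simp
        linarith
      · simp +contextual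
      · simp

theorem exists_mono_perm {m : ℕ} (A B : Finset (Fin m)) (h : A.card = B.card) :
    ∃ θ : Perm (Fin m), StrictMonoOn θ A ∧ A.image θ = B := by
  classical
  let e : A ≃o B := (A.orderIsoOfFin h).symm.trans (B.orderIsoOfFin rfl)
  let e' : {x // x ∈ A} ≃ {x // x ∈ B} := e.toEquiv
  refine ⟨e'.extendSubtype, fun a ha b hb hab => ?_, ?_⟩
  · rw [e'.extendSubtype_apply_of_mem a ha, e'.extendSubtype_apply_of_mem b hb]
    exact e.strictMono (show (⟨a, ha⟩ : A) < ⟨b, hb⟩ from hab)
  · apply eq_of_subset_of_card_le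
    · intro x hx
      obtain ⟨a, ha, rfl⟩ := mem_image.1 hx
      exact e'.extendSubtype_mem a ha
    · rw [card_image_of_injective _ (Equiv.injective _), h]

/-- a sum of an order-invariant function with small nonempty support is divisible -/
theorem orbit_dvd {m e : ℕ} {Q : ℤ} (hQ : ∀ j, 1 ≤ j → j ≤ e → Q ∣ (m.choose j : ℤ))
    {Ξ : Type} [Fintype Ξ] (act : Perm (Fin m) → Ξ ≃ Ξ) (supp : Ξ → Finset (Fin m))
    (hsupp : ∀ θ z, supp (act θ z) = (supp z).image θ) (f : Ξ → ℤ)
    (hf : ∀ (θ : Perm (Fin m)) z, StrictMonoOn θ (supp z) → f (act θ z) = f z)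
    (hb : ∀ z, f z ≠ 0 → 1 ≤ (supp z).card ∧ (supp z).card ≤ e) :
    Q ∣ ∑ z, f z := by
  classical
  let F : Finset (Fin m) → ℤ := fun A => ∑ z with supp z = A, f z
  have hF : ∀ A B : Finset (Fin m), A.card = B.card → F A = F B := by
    intro A B h
    obtain ⟨θ, h1, h2⟩ := exists_mono_perm A B h
    simp only [F]
    refine sum_equiv (act θ) (fun z => ?_) (fun z hz => ?_)
    · simp only [mem_filter, mem_univ, true_and, hsupp]
      rw [← h2]
      exact ⟨fun h => by rw [h], fun h => image_injective θ.injective h⟩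
    · simp only [mem_filter, mem_univ, true_and] at hz
      rw [hf θ z (hz ▸ h1)]
  have h1 : ∑ z, f z = ∑ A : Finset (Fin m), F A := by
    simp only [F]
    rw [sum_fiberwise]
  have h2 : ∑ A : Finset (Fin m), F A = ∑ j ∈ range (m + 1),
      ∑ A ∈ powersetCard j (univ : Finset (Fin m)), F A := by
    rw [← powerset_univ, sum_powerset]
    simp
  rw [h1, h2]
  refine dvd_sum fun j _ => ?_
  by_cases hj : 1 ≤ j ∧ j ≤ e
  · rcases (powersetCard j (univ : Finset (Fin m))).eq_empty_or_nonempty with h0 | ⟨A, hA⟩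
    · simp [h0]
    · rw [sum_congr rfl (g := fun _ => F A) (fun B hB => hF B A (by
        rw [(mem_powersetCard.1 hA).2, (mem_powersetCard.1 hB).2]))]
      simp only [sum_const, card_powersetCard, card_univ, Fintype.card_fin, nsmul_eq_mul]
      exact (hQ j hj.1 hj.2).mul_right _
  · rw [sum_eq_zero]
    · simp
    intro A hA
    refine sum_eq_zero fun z hz => ?_
    by_contra hne
    have := hb z hne
    simp only [mem_filter, mem_univ, true_and] at hz
    rw [hz, (mem_powersetCard.1 hA).2] at this
    exact hj this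

section swaps
variable {Λ : Type} [DecidableEq Λ]

/-- product of the swaps of the entries of a list with `y n, y (n+1), ...` -/
def G (y : ℕ → Λ) : List Λ → ℕ → Perm Λ
  | [], _ => 1
  | a :: l, n => swap a (y n) * G y l (n + 1)

theorem G_fix (y : ℕ → Λ) (l : List Λ) : ∀ (n : ℕ) (x : Λ), x ∉ l →
    (∀ k, n ≤ k → k < n + l.length → x ≠ y k) → G y l n x = x := by
  induction l with
  | nil => intro n x _ _; rfl
  | cons a l ih =>
    intro n x h1 h2
    simp only [List.mem_cons, not_or, List.length_cons] at h1 h2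
    simp only [G, Perm.mul_apply]
    rw [ih (n + 1) x h1.2 (fun k hk hk' => h2 k (by omega) (by omega))]
    exact swap_apply_of_ne_of_ne h1.1 (h2 n le_rfl (by omega))

theorem G_mem (y : ℕ → Λ) (N : ℕ) (hy : ∀ a b, a < N → b < N → y a = y b → a = b) (l : List Λ) :
    ∀ (n : ℕ), l.Nodup → (∀ x ∈ l, ∀ k, x ≠ y k) → n + l.length ≤ N → ∀ x ∈ l,
    ∃ k, n ≤ k ∧ k < n + l.length ∧ G y l n x = y k := by
  induction l with
  | nil => intro n _ _ _ x hx; simp at hx
  | cons a l ih =>
    intro n h1 h2 h3 x hx
    simp only [List.nodup_cons, List.length_cons] at h1 h3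
    simp only [G, Perm.mul_apply, List.length_cons]
    rcases List.mem_cons.1 hx with rfl | hx'
    · refine ⟨n, le_rfl, by omega, ?_⟩
      rw [G_fix y l (n + 1) x h1.1 (fun k _ _ => h2 x (by simp) k)]
      simp
    · obtain ⟨k, k1, k2, k3⟩ := ih (n + 1) h1.2 (fun x hx => h2 x (by simp [hx])) (by omega) x hx'
      refine ⟨k, by omega, by omega, ?_⟩
      rw [k3]
      refine swap_apply_of_ne_of_ne (fun h => h2 a (by simp) k h.symm) (fun h => ?_)
      have := hy _ _ (by omega) (by omega) h
      omega

theorem G_conj (y : ℕ → Λ) (θ : Perm Λ) (hθ : ∀ k, θ (y k) = y k) (l : List Λ) :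
    ∀ n, G y (l.map θ) n * θ = θ * G y l n := by
  induction l with
  | nil => intro n; simp [G]
  | cons a l ih =>
    intro n
    simp only [List.map_cons, G]
    rw [mul_assoc, ih, ← mul_assoc, ← mul_assoc, mul_swap_eq_swap_mul, hθ]

end swaps

end Pool.Agent.H56.Rep
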