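import Pool.Agent.H56.Rep1

set_option autoImplicit false

namespace Pool.Agent.H56.Rep

open Finset Equiv

abbrev Lam (d m : ℕ) := Fin d × Fin m

variable {d m : ℕ}

def rl (x y : Lam d m) : Prop := toLex x ≤ toLex y

instance : DecidableRel (rl (d := d) (m := m)) := fun x y => by unfold rl; infer_instance
instance : IsTrans (Lam d m) rl := ⟨fun _ _ _ h1 h2 => le_trans h1 h2⟩
instance : Std.Antisymm (rl (d := d) (m := m)) :=
  ⟨fun _ _ h1 h2 => toLex.injective (le_antisymm h1 h2)⟩
instance : Std.Total (rl (d := d) (m := m)) := ⟨fun _ _ => le_total _ _⟩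

variable [NeZero m]

def yy (i : Fin d) (n : ℕ) : Lam d m := (i, Fin.ofNat m n)

def gg (i : Fin d) (D s : ℕ) (A : Finset (Lam d m)) : Perm (Lam d m) :=
  G (yy i) (A.sort rl) (s * D)

def ns (i : Fin d) : Finset (Lam d m) := univ.filter (fun x => x.1 ≠ i)

def InY (i : Fin d) (D s : ℕ) (x : Lam d m) : Prop := x.1 = i ∧ x.2.val / D = s

omit [NeZero m] in
theorem mem_ns {i : Fin d} {x : Lam d m} : x ∈ ns i ↔ x.1 ≠ i := by simp [ns]

theorem inY_yy {i : Fin d} {D s k : ℕ} (hm : (s + 1) * D ≤ m) (h1 : s * D ≤ k)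
    (h2 : k < s * D + D) : InY i D s (yy (m := m) i k) := by
  refine ⟨rfl, ?_⟩
  have hk : k < m := by nlinarith
  simp only [yy, Fin.ofNat, Nat.mod_eq_of_lt hk]
  have hD : 0 < D := by omega
  exact Nat.div_eq_of_lt_le (by omega) (by nlinarith)

theorem gg_mem {i : Fin d} {D s : ℕ} {A : Finset (Lam d m)} (hA : A ⊆ ns i) (hc : A.card ≤ D)
    (hm : (s + 1) * D ≤ m) {x : Lam d m} (hx : x ∈ A) : InY i D s (gg i D s A x) := by
  obtain ⟨k, k1, k2, k3⟩ := G_mem (yy (m := m) i) m (fun a b ha hb h => by
      have := congrArg (fun z => z.2.val) h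
      simpa [yy, Fin.ofNat, Nat.mod_eq_of_lt ha, Nat.mod_eq_of_lt hb] using this)
    (A.sort rl) (s * D) (sort_nodup _ _) (fun x hx k h => by
      have := mem_ns.1 (hA ((mem_sort _).1 hx))
      exact this (by rw [h]; rfl)) (by rw [length_sort]; nlinarith) x ((mem_sort _).2 hx)
  rw [length_sort] at k2
  unfold gg
  rw [k3]
  exact inY_yy hm k1 (by omega)

theorem gg_fix {i : Fin d} {D s : ℕ} {A : Finset (Lam d m)} (hc : A.card ≤ D)
    (hm : (s + 1) * D ≤ m) {x : Lam d m} (hx : x ∉ A) (hy : ¬ InY i D s x) :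
    gg i D s A x = x := by
  refine G_fix _ _ _ _ (fun h => hx ((mem_sort _).1 h)) (fun k k1 k2 h => hy ?_)
  rw [length_sort] at k2
  rw [h]
  exact inY_yy hm k1 (by omega)

theorem gg_cases {i : Fin d} {D s : ℕ} {A : Finset (Lam d m)} (hc : A.card ≤ D)
    (hm : (s + 1) * D ≤ m) (x : Lam d m) :
    gg i D s A x = x ∨ gg i D s A x ∈ A ∨ InY i D s (gg i D s A x) := by
  by_contra h
  push Not at h
  exact h.1 ((gg i D s A).injective (gg_fix hc hm h.2.1 h.2.2))

section Ex
variable {X : Type} [MulAction (Perm (Lam d m)) X] (i : Fin d) (D : ℕ) (c : ℕ → ℤ)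

/-- one step of the signed random permutation -/
def T (s : ℕ) : (X → ℤ) →ₗ[ℤ] (X → ℤ) where
  toFun Φ x := ∑ A ∈ (ns (m := m) i).powerset, c A.card * Φ (gg i D s A • x)
  map_add' Φ Ψ := by ext x; simp [mul_add, sum_add_distrib]
  map_smul' a Φ := by ext x; simp [mul_sum, mul_left_comm]

/-- several steps -/
def Ex : ℕ → ℕ → (X → ℤ) →ₗ[ℤ] (X → ℤ)
  | 0, _ => LinearMap.id
  | n + 1, s => T (m := m) i D c s ∘ₗ Ex n (s + 1)

theorem Ex_zero (s : ℕ) (Φ : X → ℤ) : Ex (m := m) i D c 0 s Φ = Φ := rfl

theorem Ex_succ (n s : ℕ) (Φ : X → ℤ) (x : X) : Ex (m := m) i D c (n + 1) s Φ x =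
    ∑ A ∈ (ns (m := m) i).powerset, c A.card * Ex (m := m) i D c n (s + 1) Φ (gg i D s A • x) :=
  rfl

theorem Ex_add (n1 n2 : ℕ) : ∀ (s : ℕ) (Φ : X → ℤ), Ex (m := m) i D c (n1 + n2) s Φ =
    Ex (m := m) i D c n1 s (Ex (m := m) i D c n2 (s + n1) Φ) := by
  induction n1 with
  | zero => intro s Φ; simp [Ex_zero]
  | succ n ih =>
    intro s Φ
    ext x
    rw [show n + 1 + n2 = (n + n2) + 1 by ring, Ex_succ, Ex_succ, ih,
      show s + 1 + n = s + (n + 1) by ring]

theorem Ex_nat {X' : Type} [MulAction (Perm (Lam d m)) X'] (π : X → X')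
    (hπ : ∀ (g : Perm (Lam d m)) x, π (g • x) = g • π x) (Φ : X' → ℤ) (n : ℕ) :
    ∀ (s : ℕ) (x : X), Ex (m := m) i D c n s (fun x => Φ (π x)) x =
      Ex (m := m) i D c n s Φ (π x) := by
  induction n with
  | zero => intro s x; rfl
  | succ n ih =>
    intro s x
    rw [Ex_succ, Ex_succ]
    simp only [ih, hπ]

end Ex

/-- the defining property of the weights -/
def Good (i : Fin d) (m D : ℕ) (c : ℕ → ℤ) : Prop :=
  (∀ j, D < j → c j = 0) ∧ ∀ B : Finset (Lam d m), B ⊆ ns i → B.card ≤ D →
    ∑ A ∈ (ns (m := m) i \ B).powerset, c A.card = if B = ∅ then 1 else 0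

omit [NeZero m] in
theorem exists_good (i : Fin d) (m D : ℕ) : ∃ c, Good i m D c := by
  obtain ⟨c, h1, h2⟩ := exists_coef D (ns (m := m) i).card (fun r => if r = 0 then 1 else 0)
  refine ⟨c, h1, fun B hB hc => ?_⟩
  rw [sum_powerset_apply_card, card_sdiff_of_subset hB]
  have := h2 B.card hc (card_le_card hB)
  simp only [card_eq_zero] at this
  simpa using this

variable {i : Fin d} {D : ℕ} {c : ℕ → ℤ}

theorem Ex_one {X : Type} [MulAction (Perm (Lam d m)) X] (hc : Good i m D c) (n : ℕ) :
    ∀ (s : ℕ) (x : X), Ex (m := m) i D c n s (fun _ => 1) x = 1 := by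
  induction n with
  | zero => intro s x; rfl
  | succ n ih =>
    intro s x
    rw [Ex_succ]
    simp only [ih, mul_one]
    simpa using hc.2 ∅ (by simp) (by simp)

variable {ι : Type} [Fintype ι]

/-- after enough untouched steps every tracked point is special -/
theorem Ex_bad (hc : Good i m D c) (hι : Fintype.card ι ≤ D) (H : (ι → Lam d m) → ℤ)
    (hH : ∀ x, (∀ t, (x t).1 = i) → H x = 0) (n : ℕ) : ∀ (s : ℕ) (x : ι → Lam d m),
    (s + n) * D ≤ m → (∀ t s', s ≤ s' → s' < s + n → ¬ InY i D s' (x t)) →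
    (univ.filter (fun t => (x t).1 ≠ i)).card ≤ n → Ex (m := m) i D c n s H x = 0 := by
  classical
  induction n with
  | zero =>
    intro s x _ _ h
    refine hH x fun t => ?_
    have h0 := card_eq_zero.1 (Nat.le_zero.1 h)
    by_contra hne
    have : t ∈ univ.filter (fun t => (x t).1 ≠ i) := by simp [hne]
    rw [h0] at this
    simp at this
  | succ n ih =>
    intro s x hm hav hcard
    have hm1 : (s + 1) * D ≤ m := le_trans (Nat.mul_le_mul_right _ (by omega)) hm
    have hm2 : (s + 1 + n) * D ≤ m := by rwa [show s + 1 + n = s + (n + 1) by ring]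
    let B : Finset (Lam d m) := (univ.filter (fun t => (x t).1 ≠ i)).image x
    have hB : B ⊆ ns i := by
      intro b hb
      obtain ⟨t, ht, rfl⟩ := mem_image.1 hb
      exact mem_ns.2 (mem_filter.1 ht).2
    have hBc : B.card ≤ D := card_image_le.trans ((card_le_univ _).trans hι)
    rw [Ex_succ]
    have key : ∀ A ∈ (ns (m := m) i).powerset,
        c A.card * Ex (m := m) i D c n (s + 1) H (gg i D s A • x) =
        if A ∈ (ns (m := m) i \ B).powerset then c A.card * Ex (m := m) i D c n (s + 1) H x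
        else 0 := by
      intro A hA
      have hA' := mem_powerset.1 hA
      by_cases hcA : D < A.card
      · simp [hc.1 _ hcA]
      have hcA : A.card ≤ D := by omega
      have hfix : ∀ t, x t ∉ A → gg i D s A (x t) = x t := fun t ht =>
        gg_fix hcA hm1 ht (hav t s le_rfl (by omega))
      split_ifs with h
      · have : gg i D s A • x = x := by
          funext t
          refine hfix t fun ht => ?_
          have h1 := mem_sdiff.1 (mem_powerset.1 h ht)
          exact h1.2 (mem_image.2 ⟨t, by simpa using mem_ns.1 h1.1, rfl⟩)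
        rw [this]
      · rw [ih (s + 1) _ hm2, mul_zero]
        · intro t s' h1 h2 h3
          by_cases ht : x t ∈ A
          · have := (gg_mem hA' hcA hm1 ht).2
            have h4 : (gg i D s A (x t)).2.val / D = s' := h3.2
            omega
          · have h4 : InY i D s' (gg i D s A (x t)) := h3
            rw [hfix t ht] at h4
            exact hav t s' (by omega) (by omega) h4
        · have : ∃ a ∈ A, a ∈ B := by
            by_contra hne
            push Not at hne
            exact h (mem_powerset.2 fun a ha => mem_sdiff.2 ⟨hA' ha, hne a ha⟩)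
          obtain ⟨a, ha, hb⟩ := this
          obtain ⟨t0, ht0, rfl⟩ := mem_image.1 hb
          have hss : univ.filter (fun t => ((gg i D s A • x) t).1 ≠ i) ⊂
              univ.filter (fun t => (x t).1 ≠ i) := by
            refine ⟨fun t ht => ?_, fun hsub => ?_⟩
            · simp only [mem_filter, mem_univ, true_and] at ht ⊢
              by_cases hta : x t ∈ A
              · exact mem_ns.1 (hA' hta)
              · have h5 : (gg i D s A (x t)).1 ≠ i := ht
                rwa [hfix t hta] at h5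
            · have := (mem_filter.1 (hsub ht0)).2
              exact this (gg_mem hA' hcA hm1 ha).1
          have := card_lt_card hss
          omega
    rw [sum_congr rfl key, ← sum_filter, filter_mem_eq_inter,
      inter_eq_right.2 (powerset_mono.2 sdiff_subset), ← sum_mul, hc.2 B hB hBc]
    split_ifs with h0
    · rw [ih (s + 1) x hm2 (fun t s' h1 h2 => hav t s' (by omega) (by omega)), mul_zero]
      have : univ.filter (fun t => (x t).1 ≠ i) = ∅ := image_eq_empty.1 h0
      simp [this]
    · simp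

omit [Fintype ι] in
/-- steps before a block keep the tracked points away from the block -/
theorem Ex_avoid (hc : Good i m D c) (b b' : ℕ) (H : (ι → Lam d m) → ℤ)
    (hH : ∀ x, (∀ t s', b ≤ s' → s' < b' → ¬ InY i D s' (x t)) → H x = 0) (n : ℕ) :
    ∀ (s : ℕ) (x : ι → Lam d m), (s + n) * D ≤ m → s + n ≤ b →
    (∀ t s', b ≤ s' → s' < b' → ¬ InY i D s' (x t)) → Ex (m := m) i D c n s H x = 0 := by
  induction n with
  | zero => intro s x _ _ h; exact hH x h
  | succ n ih =>
    intro s x hm hb hav
    have hm1 : (s + 1) * D ≤ m := le_trans (Nat.mul_le_mul_right _ (by omega)) hm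
    have hm2 : (s + 1 + n) * D ≤ m := by rwa [show s + 1 + n = s + (n + 1) by ring]
    rw [Ex_succ]
    refine sum_eq_zero fun A hA => ?_
    have hA' := mem_powerset.1 hA
    by_cases hcA : D < A.card
    · simp [hc.1 _ hcA]
    have hcA : A.card ≤ D := by omega
    rw [ih (s + 1) _ hm2 (by omega), mul_zero]
    intro t s' h1 h2 h3
    have h4 : InY i D s' (gg i D s A (x t)) := h3
    rcases gg_cases (i := i) hcA hm1 (x t) with h | h | h
    · rw [h] at h4
      exact hav t s' h1 h2 h4
    · exact mem_ns.1 (hA' h) h4.1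
    · have := h.2
      have := h4.2
      omega

end Pool.Agent.H56.Rep
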