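import Pool.Agent.H56.Rep2

set_option autoImplicit false

namespace Pool.Agent.H56.Rep

open Finset Equiv

variable {d m : ℕ}

/-- relabel the second coordinate of the colours in `C` -/
def hat (C : Finset (Fin d)) (θ : Perm (Fin m)) : Perm (Lam d m) :=
  Equiv.prodCongrRight (fun k => if k ∈ C then θ else Equiv.refl _)

theorem hat_apply (C : Finset (Fin d)) (θ : Perm (Fin m)) (x : Lam d m) :
    hat C θ x = (x.1, if x.1 ∈ C then θ x.2 else x.2) := by
  obtain ⟨k, μ⟩ := x
  simp only [hat, prodCongrRight_apply]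
  split_ifs <;> rfl

/-- the second coordinates of the elements with colour in `C` -/
def sp (C : Finset (Fin d)) (A : Finset (Lam d m)) : Finset (Fin m) :=
  (A.filter (fun x => x.1 ∈ C)).image (fun x => x.2)

theorem sp_map (C : Finset (Fin d)) (θ : Perm (Fin m)) (A : Finset (Lam d m)) :
    sp C (A.map (hat C θ).toEmbedding) = (sp C A).image θ := by
  ext μ
  simp only [sp, mem_image, mem_filter, mem_map, Equiv.coe_toEmbedding]
  constructor
  · rintro ⟨_, ⟨⟨x, hx, rfl⟩, h⟩, rfl⟩
    rw [hat_apply] at h ⊢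
    simp only at h
    exact ⟨x.2, ⟨x, ⟨hx, h⟩, rfl⟩, by simp [h]⟩
  · rintro ⟨_, ⟨x, ⟨hx, h⟩, rfl⟩, rfl⟩
    exact ⟨hat C θ x, ⟨⟨x, hx, rfl⟩, by rw [hat_apply]; exact h⟩, by rw [hat_apply]; simp [h]⟩

variable [NeZero m]

theorem gg_hat {i : Fin d} {C : Finset (Fin d)} (hi : i ∉ C) (D s : ℕ) (θ : Perm (Fin m))
    (A : Finset (Lam d m)) (h : StrictMonoOn θ (sp C A)) :
    gg i D s (A.map (hat C θ).toEmbedding) * hat C θ = hat C θ * gg i D s A := by
  unfold gg
  rw [← map_sort (hat C θ).toEmbedding A rl rl]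
  · exact G_conj _ _ (fun k => by rw [hat_apply]; simp [yy, hi]) _ _
  · intro a ha b hb
    simp only [rl, Equiv.coe_toEmbedding, hat_apply, Prod.Lex.le_iff, ofLex_toLex]
    refine or_congr_right (and_congr_right fun hab => ?_)
    by_cases hC : a.1 ∈ C
    · have hC' : b.1 ∈ C := hab ▸ hC
      simp only [hC, hC', if_true]
      refine (h.le_iff_le ?_ ?_).symm
      · exact mem_coe.2 (mem_image.2 ⟨a, mem_filter.2 ⟨ha, hC⟩, rfl⟩)
      · exact mem_coe.2 (mem_image.2 ⟨b, mem_filter.2 ⟨hb, hC'⟩, rfl⟩)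
    · have hC' : b.1 ∉ C := hab ▸ hC
      simp only [hC, hC', if_false]

variable {i : Fin d} {D : ℕ} {c : ℕ → ℤ} {ι : Type}

theorem Ex_inv (hc : Good i m D c) {C : Finset (Fin d)} (hi : i ∉ C) {e : ℕ} {Q : ℤ}
    (hQ : ∀ j, 1 ≤ j → j ≤ e → Q ∣ (m.choose j : ℤ)) (Ψ : (ι → Lam d m) → ℤ)
    (hΨ : ∀ (θ : Perm (Fin m)) (x : ι → Lam d m), Ψ (hat C θ • x) = Ψ x) (n : ℕ) :
    ∀ (s e0 : ℕ) (Ξ : Type) [Fintype Ξ] (act : Perm (Fin m) → Ξ ≃ Ξ) (supp : Ξ → Finset (Fin m))
    (ξ : Ξ → ι → Lam d m) (ω : Ξ → ℤ), e0 + n * D ≤ e →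
    (∀ θ z, supp (act θ z) = (supp z).image θ) →
    (∀ (θ : Perm (Fin m)) z, StrictMonoOn θ (supp z) →
      ω (act θ z) = ω z ∧ ξ (act θ z) = hat C θ • ξ z) →
    (∀ z, ω z ≠ 0 → 1 ≤ (supp z).card ∧ (supp z).card ≤ e0) →
    Q ∣ ∑ z, ω z * Ex (m := m) i D c n s Ψ (ξ z) := by
  induction n with
  | zero =>
    intro s e0 Ξ _ act supp ξ ω he h1 h2 h3
    refine orbit_dvd hQ act supp h1 _ (fun θ z hz => ?_) (fun z hz => ?_)
    · rw [(h2 θ z hz).1, (h2 θ z hz).2, Ex_zero, hΨ]
    · have := h3 z (left_ne_zero_of_mul hz)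
      omega
  | succ n ih =>
    intro s e0 Ξ _ act supp ξ ω he h1 h2 h3
    have := ih (s + 1) (e0 + D) (Ξ × Finset (Lam d m))
      (fun θ => (act θ).prodCongr (hat C θ).finsetCongr) (fun z => supp z.1 ∪ sp C z.2)
      (fun z => gg i D s z.2 • ξ z.1)
      (fun z => ω z.1 * if z.2 ⊆ ns i then c z.2.card else 0) (by nlinarith) ?_ ?_ ?_
    · convert this using 1
      rw [Fintype.sum_prod_type]
      refine sum_congr rfl fun z _ => ?_
      rw [Ex_succ, mul_sum]
      simp only [mul_ite, mul_zero, ite_mul, zero_mul]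
      rw [← sum_filter]
      refine sum_congr (by ext A; simp) fun A _ => by ring
    · rintro θ ⟨z, A⟩
      simp [h1, sp_map, image_union]
    · rintro θ ⟨z, A⟩ hz
      simp only [coe_union] at hz
      have hz1 := h2 θ z (hz.mono Set.subset_union_left)
      have hz2 := gg_hat hi D s θ A (hz.mono Set.subset_union_right)
      simp only [prodCongr_apply, Prod.map_apply, finsetCongr_apply, card_map]
      refine ⟨?_, ?_⟩
      · rw [hz1.1]
        congr 2
        apply propext
        constructor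
        · intro h x hx
          have := mem_ns.1 (h (mem_map_of_mem _ hx))
          simp only [Equiv.coe_toEmbedding, hat_apply] at this
          exact mem_ns.2 this
        · intro h x hx
          obtain ⟨y, hy, rfl⟩ := mem_map.1 hx
          refine mem_ns.2 ?_
          simp only [Equiv.coe_toEmbedding, hat_apply]
          exact mem_ns.1 (h hy)
      · rw [hz1.2, ← mul_smul, ← mul_smul, hz2]
    · rintro ⟨z, A⟩ hz
      have a1 := h3 z (left_ne_zero_of_mul hz)
      have a2 : A.card ≤ D := by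
        by_contra hne
        have := right_ne_zero_of_mul hz
        simp [hc.1 A.card (by omega)] at this
      have a3 : (sp C A).card ≤ D := card_image_le.trans ((card_filter_le _ _).trans a2)
      have a4 := card_union_le (supp z) (sp C A)
      have a5 := card_le_card (subset_union_left (s₁ := supp z) (s₂ := sp C A))
      simp only
      omega

omit [NeZero m] in
/-- some block of steps is avoided -/
theorem exists_block [Fintype ι] (hι : Fintype.card ι ≤ D) (x : ι → Lam d m) :
    ∃ β, β ≤ D ∧ ∀ t, (x t).1 = i → (x t).2.val / D / D ≠ β := by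
  classical
  by_contra h
  push Not at h
  have : range (D + 1) ⊆ univ.image (fun t => (x t).2.val / D / D) := by
    intro β hβ
    obtain ⟨t, _, ht⟩ := h β (by simpa [Nat.lt_succ_iff] using hβ)
    exact mem_image.2 ⟨t, mem_univ _, ht⟩
  have h1 := card_le_card this
  have h2 := card_image_le (s := (univ : Finset ι)) (f := fun t => (x t).2.val / D / D)
  simp only [card_range, card_univ] at h1 h2
  omega

theorem Ex_split [Fintype ι] (hc : Good i m D c) (hι : Fintype.card ι ≤ D)
    (hm : (D + 1) * D * D ≤ m) (Φ : (ι → Lam d m) → ℤ) (β : ℕ) (hβ : β ≤ D) (x : ι → Lam d m)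
    (hx : ∀ t, (x t).1 = i → (x t).2.val / D / D ≠ β) :
    Ex (m := m) i D c ((D + 1) * D) 0 Φ x = Ex (m := m) i D c (β * D + D) 0
      (fun z => if ∀ t, (z t).1 = i then
        Ex (m := m) i D c ((D - β) * D) (β * D + D) Φ z else 0) x := by
  classical
  set Ψ := Ex (m := m) i D c ((D - β) * D) (β * D + D) Φ with hΨ
  have e1 : (D + 1) * D = (β * D + D) + (D - β) * D := by
    obtain ⟨r, rfl⟩ := Nat.exists_eq_add_of_le hβ
    simp only [Nat.add_sub_cancel_left]
    ring
  rw [e1, Ex_add, zero_add, ← hΨ]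
  have e2 : Ψ = (fun z => if ∀ t, (z t).1 = i then Ψ z else 0) +
      (fun z => if ∀ t, (z t).1 = i then 0 else Ψ z) := by
    ext z
    simp only [Pi.add_apply]
    split_ifs <;> simp
  have hle : (β * D + D) * D ≤ m := le_trans (Nat.mul_le_mul_right _ (by omega)) hm
  have e3 : Ex (m := m) i D c (β * D + D) 0
      (fun z => if ∀ t, (z t).1 = i then 0 else Ψ z) x = 0 := by
    rw [Ex_add, zero_add]
    refine Ex_avoid hc (β * D) (β * D + D) _ (fun z hz => ?_) _ 0 x
      (le_trans (Nat.mul_le_mul_right _ (by omega)) hle) (by omega) ?_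
    · refine Ex_bad hc hι _ (fun z hz => by simp [hz]) D _ z hle hz ?_
      exact (card_le_univ _).trans hι
    · intro t s' h1 h2 h3
      refine hx t h3.1 ?_
      rw [h3.2]
      exact Nat.div_eq_of_lt_le (by omega) (by nlinarith)
  conv_lhs => rw [e2, map_add, Pi.add_apply, e3, add_zero]

/-- events with a closed set of colours avoiding the special colour have negligible weight -/
theorem vanish (hc : Good i m D c) (hm : (D + 1) * D * D ≤ m) {Q : ℤ}
    (hQ : ∀ j, 1 ≤ j → j ≤ D + (D + 1) * D * D → Q ∣ (m.choose j : ℤ))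
    {τ : Type} [Fintype τ] (hτ : 2 * Fintype.card τ ≤ D) (k l : τ → Fin d) (a b : τ → Lam d m)
    (C : Finset (Fin d)) (hi : i ∉ C) (hC : ∀ t, k t ∈ C ↔ l t ∈ C) (t0 : τ) (h0 : k t0 ∈ C) :
    Q ∣ Ex (m := m) i D c ((D + 1) * D) 0 (fun γ : Perm (Lam d m) =>
      if ∀ t, (γ⁻¹ (a t)).1 = k t ∧ (γ⁻¹ (b t)).1 = l t ∧ (γ⁻¹ (a t)).2 = (γ⁻¹ (b t)).2
      then 1 else 0) 1 := by
  classical
  let xx : (τ → Fin m) → (τ ⊕ τ → Lam d m) := fun μ =>
    Sum.elim (fun t => (k t, μ t)) (fun t => (l t, μ t))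
  let Φ : (τ ⊕ τ → Lam d m) → ℤ := fun z => if z = Sum.elim a b then 1 else 0
  have hι : Fintype.card (τ ⊕ τ) ≤ D := by simp; omega
  have e1 : (fun γ : Perm (Lam d m) =>
      if ∀ t, (γ⁻¹ (a t)).1 = k t ∧ (γ⁻¹ (b t)).1 = l t ∧ (γ⁻¹ (a t)).2 = (γ⁻¹ (b t)).2
      then (1 : ℤ) else 0) = ∑ μ : τ → Fin m, fun γ => Φ (γ • xx μ) := by
    ext γ
    rw [Finset.sum_apply, sum_eq_single (fun t => (γ⁻¹ (a t)).2)]
    · simp only [Φ]
      congr 1
      apply propext
      constructor
      · intro h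
        funext t
        rcases t with t | t
        · have : (k t, (γ⁻¹ (a t)).2) = γ⁻¹ (a t) := by rw [← (h t).1]
          simp only [xx, Pi.smul_apply, Sum.elim_inl, Perm.smul_def, this]
          simp
        · have : (l t, (γ⁻¹ (a t)).2) = γ⁻¹ (b t) := by rw [← (h t).2.1, (h t).2.2]
          simp only [xx, Pi.smul_apply, Sum.elim_inr, Perm.smul_def, this]
          simp
      · intro h t
        have h1 := congrFun h (Sum.inl t)
        have h2 := congrFun h (Sum.inr t)
        simp only [xx, Pi.smul_apply, Sum.elim_inl, Sum.elim_inr, Perm.smul_def] at h1 h2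
        have h3 : γ⁻¹ (a t) = (k t, (γ⁻¹ (a t)).2) := by
          conv_lhs => rw [← h1]
          simp
        have h4 : γ⁻¹ (b t) = (l t, (γ⁻¹ (a t)).2) := by
          rw [← h2]
          simp
        exact ⟨congrArg Prod.fst h3, congrArg Prod.fst h4, (congrArg Prod.snd h4).symm⟩
    · intro μ _ hne
      simp only [Φ]
      rw [if_neg]
      intro h
      apply hne
      funext t
      have h1 := congrFun h (Sum.inl t)
      simp only [xx, Pi.smul_apply, Sum.elim_inl, Perm.smul_def] at h1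
      rw [← h1]
      simp
    · simp
  rw [e1, map_sum, Finset.sum_apply]
  have e2 : ∀ μ, Ex (m := m) i D c ((D + 1) * D) 0 (fun γ : Perm (Lam d m) => Φ (γ • xx μ)) 1 =
      Ex (m := m) i D c ((D + 1) * D) 0 Φ (xx μ) := by
    intro μ
    rw [Ex_nat i D c (fun γ : Perm (Lam d m) => γ • xx μ) (fun g x => by rw [smul_eq_mul, mul_smul])]
    simp
  simp only [e2]
  let P : (τ → Fin m) → ℕ → Prop := fun μ β =>
    β ≤ D ∧ ∀ t, (xx μ t).1 = i → (xx μ t).2.val / D / D ≠ β
  have hP : ∀ μ, ∃ β, P μ β := fun μ => exists_block hι (xx μ)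
  let bl : (τ → Fin m) → ℕ := fun μ => Nat.find (hP μ)
  have hbl : ∀ μ, P μ (bl μ) := fun μ => Nat.find_spec (hP μ)
  have e3 : ∀ μ, Ex (m := m) i D c ((D + 1) * D) 0 Φ (xx μ) = ∑ β ∈ range (D + 1),
      (if bl μ = β then 1 else 0) * Ex (m := m) i D c (β * D + D) 0
      (fun z => if ∀ t, (z t).1 = i then
        Ex (m := m) i D c ((D - β) * D) (β * D + D) Φ z else 0) (xx μ) := by
    intro μ
    rw [sum_eq_single (bl μ), Ex_split hc hι hm Φ (bl μ) (hbl μ).1 _ (hbl μ).2]
    · simp
    · intro β _ hne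
      simp [hne.symm]
    · intro h
      exact absurd (mem_range.2 (Nat.lt_succ_of_le (hbl μ).1)) h
  simp only [e3]
  rw [sum_comm]
  refine dvd_sum fun β hβ => ?_
  have hβ' : β ≤ D := by simpa [Nat.lt_succ_iff] using hβ
  let act : Perm (Fin m) → (τ → Fin m) ≃ (τ → Fin m) := fun θ =>
    Equiv.piCongrRight (fun t => if k t ∈ C then θ else Equiv.refl _)
  have hact : ∀ θ μ t, act θ μ t = if k t ∈ C then θ (μ t) else μ t := by
    intro θ μ t
    simp only [act, piCongrRight_apply, Pi.map_apply]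
    split_ifs <;> rfl
  have hxx : ∀ θ μ, xx (act θ μ) = hat C θ • xx μ := by
    intro θ μ
    funext t
    rcases t with t | t
    · simp [xx, hact, hat_apply]
    · simp [xx, hact, hat_apply, hC]
  refine Ex_inv hc hi hQ _ (fun θ z => ?_) (β * D + D) 0 D (τ → Fin m) act
    (fun μ => (univ.filter (fun t => k t ∈ C)).image μ) xx _ ?_ ?_ ?_ ?_
  · by_cases h : ∀ t, (z t).1 = i
    · have : hat C θ • z = z := by
        funext t
        simp only [Pi.smul_apply, Perm.smul_def, hat_apply, h t, hi, if_false]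
        rw [← h t]
      rw [this]
    · rw [if_neg h, if_neg]
      intro h'
      apply h
      intro t
      have := h' t
      simpa only [Pi.smul_apply, Perm.smul_def, hat_apply] using this
  · have : (β * D + D) * D ≤ (D + 1) * D * D := Nat.mul_le_mul_right _ (by nlinarith)
    omega
  · intro θ μ
    rw [image_image]
    refine image_congr fun t ht => ?_
    simp only [coe_filter, mem_univ, true_and, Set.mem_ofPred_eq] at ht
    simp [hact, ht]
  · intro θ μ _
    refine ⟨?_, hxx θ μ⟩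
    have : bl (act θ μ) = bl μ := by
      refine Nat.find_congr' (fun {β} => ?_)
      simp only [P, hxx, Pi.smul_apply, Perm.smul_def, hat_apply]
      refine and_congr_right fun _ => forall_congr' fun t => imp_congr_right fun h => ?_
      rw [h, if_neg hi]
    rw [this]
  · intro μ _
    refine ⟨card_pos.2 ⟨μ t0, mem_image.2 ⟨t0, by simp [h0], rfl⟩⟩, ?_⟩
    refine card_image_le.trans ((card_le_univ _).trans (by omega))

end Pool.Agent.H56.Rep
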