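import Pool.Agent.H56.Rep3

set_option autoImplicit false

namespace Pool.Agent.H56.Rep

open Finset Equiv AddMonoidAlgebra

abbrev BB (d m : ℕ) := Perm (Lam d m) → AddMonoidAlgebra ℤ (Fin d → ℤ)

variable {d m r : ℕ}

def wt (k l : Fin d) : Fin d → ℤ := Pi.single k 1 - Pi.single l 1

theorem wt_add (k l n : Fin d) : wt k l + wt l n = wt k n := by simp [wt]

theorem wt_self (k : Fin d) : wt k k = 0 := by simp [wt]

theorem wt_pair (h : Fin d → ℤ) (k l : Fin d) : ∑ x, h x * wt k l x = h k - h l := by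
  simp [wt, mul_sub, sum_sub_distrib, Pi.single_apply]

theorem wt_pair_sum {τ : Type} [Fintype τ] (k l : τ → Fin d) (i j : Fin d)
    (hw : ∑ t, wt (k t) (l t) = wt i j) (h : Fin d → ℤ) :
    ∑ t, (h (k t) - h (l t)) = h i - h j := by
  rw [← wt_pair h i j, ← hw]
  simp only [← wt_pair, Finset.sum_apply, mul_sum]
  rw [sum_comm]

theorem wt_inj {k l i j : Fin d} (hij : i ≠ j) (h : wt k l = wt i j) : k = i ∧ l = j := by
  have h1 := wt_pair (fun x => if x = i then 1 else 0) k l
  have h2 := wt_pair (fun x => if x = j then 1 else 0) k l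
  rw [h, wt_pair] at h1 h2
  simp only [if_true, hij, hij.symm, if_false] at h1 h2
  constructor
  · by_contra hne
    simp only [hne, if_false] at h1
    split_ifs at h1 <;> omega
  · by_contra hne
    simp only [hne, if_false] at h2
    split_ifs at h2 <;> omega

theorem wt_zero {k l : Fin d} (h : wt k l = 0) : k = l := by
  have h1 := wt_pair (fun x => if x = k then 1 else 0) k l
  by_contra hne
  simp [h, Ne.symm hne] at h1

/-- entries of the generic matrix units -/
noncomputable def gen (k l : Fin d) (a b : Lam d m) : BB d m := fun γ =>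
  if (γ.symm a).1 = k ∧ (γ.symm b).1 = l ∧ (γ.symm a).2 = (γ.symm b).2 then single (wt k l) 1 else 0

noncomputable def rhoF (X : Matrix (Fin d × Fin r) (Fin d × Fin r) ℤ) :
    Matrix (Lam d m × Fin r) (Lam d m × Fin r) (BB d m) := fun u v γ =>
  if (γ.symm u.1).2 = (γ.symm v.1).2 then
    single (wt (γ.symm u.1).1 (γ.symm v.1).1) (X ((γ.symm u.1).1, u.2) ((γ.symm v.1).1, v.2)) else 0

noncomputable def rho : Matrix (Fin d × Fin r) (Fin d × Fin r) ℤ →+*
    Matrix (Lam d m × Fin r) (Lam d m × Fin r) (BB d m) where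
  toFun := rhoF
  map_zero' := by ext u v γ; simp [rhoF]
  map_add' X Y := by
    funext u v γ
    simp only [rhoF, Matrix.add_apply, Pi.add_apply, single_add]
    split_ifs <;> simp
  map_one' := by
    funext u v γ
    by_cases h : u = v
    · subst h
      simp [rhoF, wt_self, AddMonoidAlgebra.one_def]
    · rw [Matrix.one_apply_ne h]
      simp only [rhoF, Pi.zero_apply]
      split_ifs with h1
      · rw [Matrix.one_apply_ne, single_zero]
        intro h2
        apply h
        have h3 := congrArg Prod.fst h2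
        have h4 := congrArg Prod.snd h2
        exact Prod.ext (γ.symm.injective (Prod.ext h3 h1)) h4
      · rfl
  map_mul' X Y := by
    funext u v γ
    rw [Matrix.mul_apply, Finset.sum_apply,
      ← Equiv.sum_comp (Equiv.prodCongr γ (Equiv.refl (Fin r)))]
    simp only [rhoF, Pi.mul_apply, prodCongr_apply, Prod.map_fst, Prod.map_snd, symm_apply_apply,
      coe_refl, id_eq, Matrix.mul_apply]
    simp only [Fintype.sum_prod_type]
    have : ∀ k : Fin d, (∑ μ : Fin m, ∑ δ : Fin r,
        (if (γ.symm u.1).2 = μ then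
          single (wt (γ.symm u.1).1 k) (X ((γ.symm u.1).1, u.2) (k, δ)) else 0) *
        (if μ = (γ.symm v.1).2 then
          single (wt k (γ.symm v.1).1) (Y (k, δ) ((γ.symm v.1).1, v.2)) else 0)) =
        if (γ.symm u.1).2 = (γ.symm v.1).2 then single (wt (γ.symm u.1).1 (γ.symm v.1).1)
          (∑ δ : Fin r, X ((γ.symm u.1).1, u.2) (k, δ) * Y (k, δ) ((γ.symm v.1).1, v.2)) else 0 := by
      intro k
      rw [sum_eq_single (γ.symm u.1).2]
      · split_ifs with h1 h2 h2
        · simp only [single_mul_single, wt_add]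
          exact (map_sum (singleAddHom _) _ _).symm
        · simp
        · exact absurd rfl h1
        · exact absurd rfl h1
      · intro μ _ hne
        simp [hne.symm]
      · simp
    simp only [this]
    split_ifs
    · exact map_sum (singleAddHom _) _ _
    · simp

theorem rho_eq (X : Matrix (Fin d × Fin r) (Fin d × Fin r) ℤ) (u v : Lam d m × Fin r) :
    rho X u v = ∑ k, ∑ l, X (k, u.2) (l, v.2) • gen k l u.1 v.1 := by
  funext γ
  simp only [Finset.sum_apply, Pi.smul_apply]
  rw [sum_eq_single (γ.symm u.1).1, sum_eq_single (γ.symm v.1).1]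
  · change rhoF X u v γ = _
    simp only [rhoF, gen, true_and]
    split_ifs <;> simp
  · intro l _ hl
    simp [gen, hl.symm]
  · simp
  · intro k _ hk
    simp [gen, hk.symm]
  · simp

theorem sum_gen (a b : Lam d m) : ∑ k, gen k k a b = if a = b then 1 else 0 := by
  funext γ
  simp only [Finset.sum_apply]
  rw [sum_eq_single (γ.symm a).1]
  · by_cases h : a = b
    · subst h
      simp [gen, wt_self, AddMonoidAlgebra.one_def]
    · simp only [gen, h, if_false, Pi.zero_apply]
      rw [if_neg]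
      rintro ⟨_, h1, h2⟩
      exact h (γ.symm.injective (Prod.ext h1.symm h2))
  · intro k _ hk
    simp [gen, hk.symm]
  · simp

theorem prod_gen {τ : Type} [Fintype τ] (k l : τ → Fin d) (a b : τ → Lam d m)
    (γ : Perm (Lam d m)) : (∏ t, gen (k t) (l t) (a t) (b t)) γ =
    if ∀ t, (γ.symm (a t)).1 = k t ∧ (γ.symm (b t)).1 = l t ∧ (γ.symm (a t)).2 = (γ.symm (b t)).2
    then single (∑ t, wt (k t) (l t)) 1 else 0 := by
  rw [Finset.prod_apply]
  split_ifs with h
  · rw [prod_congr rfl (g := fun t => single (wt (k t) (l t)) (1 : ℤ))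
      (fun t _ => by simp only [gen]; rw [if_pos (h t)]), prod_single]
    simp
  · push Not at h
    obtain ⟨t, ht⟩ := h
    refine prod_eq_zero (mem_univ t) ?_
    simp only [gen]
    rw [if_neg]
    rintro ⟨h1, h2, h3⟩
    exact ht h1 h2 h3

variable [NeZero m]

/-- the functional attached to the pair of colours `(i, j)` -/
noncomputable def psi (D : ℕ) (c : Fin d → ℕ → ℤ) (i j : Fin d) : BB d m →ₗ[ℤ] ℤ where
  toFun f := Ex (m := m) i D (c i) ((D + 1) * D) 0 (fun γ => (f γ).coeff (wt i j)) 1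
  map_add' f g := by
    rw [← Pi.add_apply (Ex (m := m) i D (c i) ((D + 1) * D) 0 _), ← map_add]
    rfl
  map_smul' a f := by
    rw [RingHom.id_apply, ← Pi.smul_apply a (Ex (m := m) i D (c i) ((D + 1) * D) 0 _), ← map_smul]
    rfl

/-- the exponents attached to a pair of colours -/
def cc (a : Fin d → ℕ) (k l : Fin d) : ℕ := max (a k - a l) (if l ≤ k then 1 else 0)

theorem trunc (a : Fin d → ℕ) (N : ℕ) {τ : Type} [Fintype τ] (k l : τ → Fin d) (i j : Fin d)
    (hw : ∑ t, wt (k t) (l t) = wt i j) (hτ : d * N + d ≤ Fintype.card τ) :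
    N ≤ ∑ t, cc a (k t) (l t) := by
  have h1 := wt_pair_sum k l i j hw (fun x => (x.val : ℤ))
  have h2 : ∀ t, (1 : ℤ) ≤ d * (cc a (k t) (l t) : ℤ) - (((k t).val : ℤ) - (l t).val) := by
    intro t
    have := (k t).2
    by_cases h : l t ≤ k t
    · have h3 : 1 ≤ cc a (k t) (l t) := by simp [cc, h]
      have h4 : (1 : ℤ) ≤ cc a (k t) (l t) := by exact_mod_cast h3
      nlinarith
    · have h3 : (k t).val < (l t).val := not_le.1 h
      have h4 : (0 : ℤ) ≤ d * (cc a (k t) (l t) : ℤ) := by positivity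
      omega
  have h3 := sum_le_sum (fun t (_ : t ∈ univ) => h2 t)
  rw [sum_sub_distrib, h1, ← mul_sum] at h3
  simp only [sum_const, card_univ, nsmul_eq_mul, mul_one] at h3
  have h4 : ((d * N + d : ℕ) : ℤ) ≤ Fintype.card τ := by exact_mod_cast hτ
  push_cast at h4
  have := j.2
  have h5 : (d : ℤ) * N < d * ∑ t, (cc a (k t) (l t) : ℤ) := by omega
  have h6 := lt_of_mul_lt_mul_left h5 (by positivity)
  exact_mod_cast h6.le

theorem dichotomy (a : Fin d → ℕ) {τ : Type} [Fintype τ] (k l : τ → Fin d) (i j : Fin d)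
    (hw : ∑ t, wt (k t) (l t) = wt i j) (v : τ → ℕ) (hv : ∀ t, cc a (k t) (l t) ≤ v t)
    (t0 : τ) (h0 : a (k t0) ≤ v t0) : a i ≤ ∑ t, v t ∨ ∃ C : Finset (Fin d), i ∉ C ∧
      (∀ t, k t ∈ C ↔ l t ∈ C) ∧ k t0 ∈ C := by
  classical
  by_cases h : ∀ h ∈ Ioc (a (k t0)) (a i), ∃ t, a (l t) < h ∧ h ≤ a (k t)
  · left
    have h1 : Ioc (a (k t0)) (a i) ⊆ (univ.erase t0).biUnion (fun t => Ioc (a (l t)) (a (k t))) := by
      intro x hx
      obtain ⟨t, ht⟩ := h x hx
      refine mem_biUnion.2 ⟨t, mem_erase.2 ⟨?_, mem_univ _⟩, mem_Ioc.2 ht⟩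
      rintro rfl
      have := (mem_Ioc.1 hx).1
      omega
    have h2 := (card_le_card h1).trans card_biUnion_le
    simp only [Nat.card_Ioc] at h2
    have h3 : ∑ t ∈ univ.erase t0, (a (k t) - a (l t)) ≤ ∑ t ∈ univ.erase t0, v t :=
      sum_le_sum fun t _ => (le_max_left _ _).trans (hv t)
    rw [← add_sum_erase _ _ (mem_univ t0)]
    omega
  · right
    push Not at h
    obtain ⟨h, h1, h2⟩ := h
    rw [mem_Ioc] at h1
    refine ⟨univ.filter (fun x => a x < h), by simp; omega, fun t => ?_, by simp; omega⟩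
    have h3 := wt_pair_sum k l i j hw (fun x => if h ≤ a x then 1 else 0)
    have h4 : ∀ t ∈ (univ : Finset τ),
        ((if h ≤ a (k t) then 1 else 0) - (if h ≤ a (l t) then 1 else 0) : ℤ) ≤ 0 := by
      intro t _
      have := h2 t
      split_ifs <;> omega
    have h5 : ∑ t, ((if h ≤ a (k t) then 1 else 0) - (if h ≤ a (l t) then 1 else 0) : ℤ) = 0 := by
      apply le_antisymm (sum_nonpos h4)
      rw [h3]
      simp only [h1.2, if_true]
      split_ifs <;> omega
    have h6 := (sum_eq_zero_iff_of_nonpos h4).1 h5 t (mem_univ _)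
    simp only [mem_filter, mem_univ, true_and]
    split_ifs at h6 <;> omega

theorem psi_prod {D : ℕ} {c : Fin d → ℕ → ℤ} (hc : ∀ i, Good i m D (c i))
    (hm : (D + 1) * D * D ≤ m) {p : ℤ} {N : ℕ} (hD : D = 2 * (d * N + d))
    (hQ : ∀ j, 1 ≤ j → j ≤ D + (D + 1) * D * D → p ^ N ∣ (m.choose j : ℤ))
    (a : Fin d → ℕ) (ha : ∀ k, a k ≤ N) {τ : Type} [Fintype τ] (k l : τ → Fin d)
    (x y : τ → Lam d m) (v : τ → ℕ) (hv : ∀ t, cc a (k t) (l t) ≤ v t)
    (t0 : τ) (h0 : a (k t0) ≤ v t0) (i j : Fin d) :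
    p ^ a i ∣ psi D c i j (∏ t, p ^ v t • gen (k t) (l t) (x t) (y t)) := by
  classical
  rw [prod_smul, map_smul, smul_eq_mul, prod_pow_eq_pow_sum]
  by_cases hw : ∑ t, wt (k t) (l t) = wt i j
  · by_cases hτ : d * N + d ≤ Fintype.card τ
    · have := trunc a N k l i j hw hτ
      have h2 : ∑ t, cc a (k t) (l t) ≤ ∑ t, v t := sum_le_sum fun t _ => hv t
      exact (pow_dvd_pow p (by have := ha i; omega)).mul_right _
    rcases dichotomy a k l i j hw v hv t0 h0 with h | ⟨C, h1, h2, h3⟩
    · exact (pow_dvd_pow p h).mul_right _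
    · refine ((pow_dvd_pow p (ha i)).trans ?_).mul_left _
      have := vanish (hc i) hm hQ (τ := τ) (by omega) k l x y C h1 h2 t0 h3
      have e : (fun γ => ((∏ t, gen (k t) (l t) (x t) (y t)) γ).coeff (wt i j)) =
          (fun γ : Perm (Lam d m) => if ∀ t, (γ.symm (x t)).1 = k t ∧ (γ.symm (y t)).1 = l t ∧
            (γ.symm (x t)).2 = (γ.symm (y t)).2 then (1 : ℤ) else 0) := by
        funext γ
        rw [prod_gen, hw]
        split_ifs <;> simp
      change _ ∣ Ex (m := m) i D (c i) ((D + 1) * D) 0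
        (fun γ => ((∏ t, gen (k t) (l t) (x t) (y t)) γ).coeff (wt i j)) 1
      rw [e]
      exact this
  · have : psi D c i j (∏ t, gen (k t) (l t) (x t) (y t)) = 0 := by
      change Ex (m := m) i D (c i) ((D + 1) * D) 0 _ 1 = _
      have : (fun γ => ((∏ t, gen (k t) (l t) (x t) (y t)) γ).coeff (wt i j)) = 0 := by
        funext γ
        rw [prod_gen]
        split_ifs
        · simp [hw]
        · simp
      rw [this, map_zero]
      rfl
    simp [this]

end Pool.Agent.H56.Rep
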