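import Pool.Agent.H56.Rep4

set_option autoImplicit false

namespace Pool.Agent.H56.Rep

open Finset Equiv AddMonoidAlgebra

variable {d m r : ℕ}

/-- the subring generated by the weighted entries -/
noncomputable def K0 (m : ℕ) (p : ℤ) (a : Fin d → ℕ) : Subring (BB d m) :=
  Subring.closure {f | ∃ k l x y, f = p ^ cc a k l • gen k l x y}

theorem gen_mem (p : ℤ) (a : Fin d → ℕ) (k l : Fin d) (x y : Lam d m) (n : ℤ)
    (hn : p ^ cc a k l ∣ n) : n • gen k l x y ∈ K0 m p a := by
  obtain ⟨q, rfl⟩ := hn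
  rw [mul_comm, mul_smul]
  refine zsmul_mem (Subring.subset_closure ?_) q
  exact ⟨k, l, x, y, rfl⟩

theorem mon_repr (p : ℤ) (a : Fin d → ℕ) (g : BB d m)
    (hg : g ∈ Submonoid.closure {f : BB d m | ∃ k l x y, f = p ^ cc a k l • gen k l x y}) :
    ∃ (τ : Type) (_ : Fintype τ) (k l : τ → Fin d) (x y : τ → Lam d m),
      g = ∏ t, p ^ cc a (k t) (l t) • gen (k t) (l t) (x t) (y t) := by
  induction hg using Submonoid.closure_induction with
  | mem f hf =>
    obtain ⟨k, l, x, y, rfl⟩ := hf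
    exact ⟨Unit, inferInstance, fun _ => k, fun _ => l, fun _ => x, fun _ => y, by simp⟩
  | one => exact ⟨Empty, inferInstance, Empty.elim, Empty.elim, Empty.elim, Empty.elim, by simp⟩
  | mul f g _ _ hf hg =>
    obtain ⟨τ, _, k, l, x, y, rfl⟩ := hf
    obtain ⟨τ', _, k', l', x', y', rfl⟩ := hg
    exact ⟨τ ⊕ τ', inferInstance, Sum.elim k k', Sum.elim l l', Sum.elim x x', Sum.elim y y',
      by rw [Fintype.prod_sum_type]; rfl⟩

variable [NeZero m]

/-- the ideal cut out by the functionals -/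
noncomputable def II (D : ℕ) (c : Fin d → ℕ → ℤ) (p : ℤ) (a : Fin d → ℕ) : Ideal (K0 m p a) where
  carrier := {f | ∀ g ∈ K0 m p a, ∀ i j, p ^ a i ∣ psi D c i j ((f : BB d m) * g)}
  zero_mem' := by intro g _ i j; simp
  add_mem' := by
    intro f f' hf hf' g hg i j
    rw [Subring.coe_add, add_mul, map_add]
    exact dvd_add (hf g hg i j) (hf' g hg i j)
  smul_mem' := by
    intro h f hf g hg i j
    have := hf (h * g) (mul_mem h.2 hg) i j
    rw [smul_eq_mul, Subring.coe_mul, mul_comm (h : BB d m), mul_assoc]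
    exact this

section
variable {D : ℕ} {c : Fin d → ℕ → ℤ} (hc : ∀ i, Good i m D (c i))
    (hm : (D + 1) * D * D ≤ m) {p : ℤ} {N : ℕ} (hD : D = 2 * (d * N + d))
    (hQ : ∀ j, 1 ≤ j → j ≤ D + (D + 1) * D * D → p ^ N ∣ (m.choose j : ℤ))
    (a : Fin d → ℕ) (ha : ∀ k, a k ≤ N) (ha1 : ∀ k, 1 ≤ a k)
include hc hm hD hQ ha ha1

theorem psi_gen_mul (k l : Fin d) (x y : Lam d m) (g : BB d m) (hg : g ∈ K0 m p a) (i j : Fin d) :
    p ^ a i ∣ psi D c i j ((p ^ a k • gen k l x y) * g) := by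
  have hg' := Subring.mem_closure_iff.1 hg
  clear hg
  induction hg' using AddSubgroup.closure_induction with
  | mem g hg =>
    obtain ⟨τ, _, k', l', x', y', rfl⟩ := mon_repr p a g hg
    have := psi_prod hc hm hD hQ a ha (τ := Option τ) (fun t => t.elim k k') (fun t => t.elim l l')
      (fun t => t.elim x x') (fun t => t.elim y y')
      (fun t => t.elim (a k) (fun t => cc a (k' t) (l' t))) (fun t => by
        rcases t with _ | t
        · have := ha1 k
          simp only [Option.elim, cc]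
          split_ifs <;> omega
        · exact le_rfl) none le_rfl i j
    rw [Fintype.prod_option] at this
    exact this
  | zero => simp
  | add f g _ _ hf hg =>
    rw [mul_add, map_add]
    exact dvd_add hf hg
  | neg f _ hf =>
    rw [mul_neg, map_neg]
    exact hf.neg_right

theorem rho_II (X : Matrix (Fin d × Fin r) (Fin d × Fin r) ℤ) (hX : ∀ u v, p ^ a u.1 ∣ X u v)
    (u v : Lam d m × Fin r) (g : BB d m) (hg : g ∈ K0 m p a) (i j : Fin d) :
    p ^ a i ∣ psi D c i j (rho X u v * g) := by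
  rw [rho_eq]
  simp only [sum_mul, map_sum]
  refine dvd_sum fun k _ => dvd_sum fun l _ => ?_
  obtain ⟨q, hq⟩ := hX (k, u.2) (l, v.2)
  rw [hq, mul_comm (p ^ _) q, mul_smul, smul_mul_assoc, map_smul, smul_eq_mul]
  exact (psi_gen_mul hc hm hD hQ a ha ha1 k l _ _ g hg i j).mul_left _

omit ha ha1 in
theorem psi_colour (i k : Fin d) (x : Lam d m) (hk : k ≠ i) :
    p ^ N ∣ Ex (m := m) i D (c i) ((D + 1) * D) 0
      (fun γ : Perm (Lam d m) => if (γ.symm x).1 = k then (1 : ℤ) else 0) 1 := by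
  have h1 : 1 ≤ d := by have := i.2; omega
  have := vanish (hc i) hm hQ (τ := Unit) (by simp; omega) (fun _ => k) (fun _ => k) (fun _ => x)
    (fun _ => x) {k} (by simpa using hk.symm) (by simp) () (by simp)
  simpa using this

omit ha1 in
theorem detect (X : Matrix (Fin d × Fin r) (Fin d × Fin r) ℤ)
    (hX : ∀ (u v : Lam d m × Fin r) i j, p ^ a i ∣ psi D c i j (rho X u v)) (u v : Fin d × Fin r) :
    p ^ a u.1 ∣ X u v := by
  classical
  obtain ⟨i, α⟩ := u
  obtain ⟨j, β⟩ := v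
  let x : Lam d m := (i, 0)
  let E : (Perm (Lam d m) → ℤ) →ₗ[ℤ] ℤ :=
    (LinearMap.proj 1) ∘ₗ Ex (m := m) i D (c i) ((D + 1) * D) 0
  let χ : Fin d → Perm (Lam d m) → ℤ := fun k γ => if (γ.symm x).1 = k then 1 else 0
  have h1 : ∀ k, k ≠ i → p ^ a i ∣ E (χ k) := fun k hk =>
    (pow_dvd_pow p (ha i)).trans (psi_colour hc hm hD hQ i k x hk)
  have h2 : ∑ k, E (χ k) = 1 := by
    rw [← map_sum]
    have : ∑ k, χ k = fun _ => 1 := by
      funext γ
      simp [χ, Finset.sum_apply]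
    rw [this]
    exact Ex_one (hc i) _ _ _
  have h3 : p ^ a i ∣ ∑ y, psi D c i j (rho X (x, α) (y, β)) := dvd_sum fun y _ => hX _ _ i j
  let w : Fin d → ℤ := fun k => ∑ l, if wt k l = wt i j then X (k, α) (l, β) else 0
  have h4 : ∑ y, psi D c i j (rho X (x, α) (y, β)) = ∑ k, w k * E (χ k) := by
    have e1 : ∀ y, psi D c i j (rho X (x, α) (y, β)) =
        E (fun γ => (rho X (x, α) (y, β) γ).coeff (wt i j)) := fun y => rfl
    simp only [e1, ← smul_eq_mul, ← map_smul, ← map_sum]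
    congr 1
    funext γ
    simp only [Finset.sum_apply, Pi.smul_apply, smul_eq_mul, χ, mul_ite, mul_one, mul_zero,
      sum_ite_eq, mem_univ, if_true]
    rw [← Equiv.sum_comp γ, Fintype.sum_prod_type]
    refine sum_congr rfl fun l _ => ?_
    rw [sum_eq_single (γ.symm x).2]
    · change (rhoF X _ _ γ).coeff _ = _
      simp [rhoF, Finsupp.single_apply]
    · intro μ _ hne
      change (rhoF X _ _ γ).coeff _ = _
      simp [rhoF, hne.symm]
    · simp
  have h5 : w i = X (i, α) (j, β) := by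
    simp only [w]
    rw [sum_eq_single j]
    · simp
    · intro l _ hl
      rw [if_neg]
      intro h
      apply hl
      by_cases hij : i = j
      · subst hij
        rw [wt_self] at h
        exact (wt_zero h).symm
      · exact (wt_inj hij h).2
    · simp
  rw [h4, ← add_sum_erase _ _ (mem_univ i), h5] at h3
  rw [← add_sum_erase _ _ (mem_univ i)] at h2
  have h6 : p ^ a i ∣ ∑ k ∈ univ.erase i, w k * E (χ k) :=
    dvd_sum fun k hk => (h1 k (mem_erase.1 hk).1).mul_left _
  have h7 : p ^ a i ∣ ∑ k ∈ univ.erase i, E (χ k) := dvd_sum fun k hk => h1 k (mem_erase.1 hk).1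
  have h8 := (dvd_add_left h6).1 h3
  have h9 : X (i, α) (j, β) = X (i, α) (j, β) * E (χ i) +
      X (i, α) (j, β) * ∑ k ∈ univ.erase i, E (χ k) := by rw [← mul_add, h2, mul_one]
  rw [h9]
  exact dvd_add h8 (h7.mul_left _)

end

omit [NeZero m] in
theorem rho_mem (p : ℤ) (a : Fin d → ℕ) (X : Matrix (Fin d × Fin r) (Fin d × Fin r) ℤ)
    (τ : Fin r → Fin r → ℤ) (h1 : ∀ u v, p ^ (a u.1 - a v.1) ∣ X u v)
    (h2 : ∀ u v, v.1 < u.1 → p ∣ X u v) (h3 : ∀ k α β, p ∣ X (k, α) (k, β) - τ α β)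
    (u v : Lam d m × Fin r) : rho X u v ∈ K0 m p a := by
  have : rho X u v = τ u.2 v.2 • (∑ k, gen k k u.1 v.1) +
      ∑ k, ∑ l, (X (k, u.2) (l, v.2) - if l = k then τ u.2 v.2 else 0) • gen k l u.1 v.1 := by
    rw [rho_eq, smul_sum, ← sum_add_distrib]
    refine sum_congr rfl fun k _ => ?_
    simp [sub_smul, sum_sub_distrib]
  rw [this, sum_gen]
  refine add_mem (zsmul_mem ?_ _) (sum_mem fun k _ => sum_mem fun l _ => gen_mem _ _ _ _ _ _ _ ?_)
  · split_ifs
    · exact one_mem _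
    · exact zero_mem _
  · by_cases h : l = k
    · subst h
      simpa [cc] using h3 l u.2 v.2
    · simp only [h, if_false, sub_zero, cc]
      rcases max_choice (a k - a l) (if l ≤ k then 1 else 0) with e | e <;> rw [e]
      · exact h1 (k, u.2) (l, v.2)
      · split_ifs with hl
        · simpa using h2 (k, u.2) (l, v.2) (lt_of_le_of_ne hl h)
        · simp

theorem exists_m (Q e b : ℕ) (hQ : 0 < Q) : ∃ m, 0 < m ∧ b ≤ m ∧
    ∀ j, 1 ≤ j → j ≤ e → Q ∣ m.choose j := by
  have hpos : 0 < Q * e.factorial := Nat.mul_pos hQ e.factorial_pos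
  refine ⟨Q * e.factorial * (b + 1), Nat.mul_pos hpos (by omega), by nlinarith, fun j h1 h2 => ?_⟩
  obtain ⟨q, hq⟩ := Nat.dvd_factorial h1 h2
  obtain ⟨j, rfl⟩ : ∃ j', j = j' + 1 := ⟨j - 1, by omega⟩
  obtain ⟨n, hn⟩ : ∃ n, Q * e.factorial * (b + 1) = n + 1 :=
    ⟨Q * e.factorial * (b + 1) - 1, by have := Nat.mul_pos hpos (show 0 < b + 1 by omega); omega⟩
  have h3 := Nat.add_one_mul_choose_eq n j
  rw [hn]
  refine ⟨q * (b + 1) * n.choose j, Nat.eq_of_mul_eq_mul_right (show 0 < j + 1 by omega) ?_⟩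
  rw [← h3, ← hn, hq]
  ring

omit [NeZero m] in
/-- a ring with an adapted generating family is representable -/
theorem repr_of_adapted (R : Type) [Ring R] (p N d r : ℕ) (hp : 0 < p) (a : Fin d → ℕ)
    (ha : ∀ k, a k ≤ N) (ha1 : ∀ k, 1 ≤ a k) (b : Fin d × Fin r → R)
    (hind : ∀ z : Fin d × Fin r → ℤ, ∑ u, z u • b u = 0 ↔ ∀ u, (p : ℤ) ^ a u.1 ∣ z u)
    (hfaith : ∀ x : R, (∀ u, x * b u = 0) → x = 0)
    (hact : ∀ x : R, ∃ (X : Matrix (Fin d × Fin r) (Fin d × Fin r) ℤ) (τ : Fin r → Fin r → ℤ),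
      (∀ v, x * b v = ∑ u, X u v • b u) ∧ (∀ u v, v.1 < u.1 → (p : ℤ) ∣ X u v) ∧
      ∀ k α β, (p : ℤ) ∣ X (k, α) (k, β) - τ α β) :
    ∃ (C : Type) (_ : CommRing C) (n : ℕ) (f : R →+* Matrix (Fin n) (Fin n) C),
      Function.Injective f := by
  classical
  obtain ⟨D, hD⟩ : ∃ D, D = 2 * (d * N + d) := ⟨_, rfl⟩
  obtain ⟨m, m0, hm, hQ'⟩ := exists_m (p ^ N) (D + (D + 1) * D * D) ((D + 1) * D * D)
    (by positivity)
  have : NeZero m := ⟨m0.ne'⟩
  have hQ : ∀ j, 1 ≤ j → j ≤ D + (D + 1) * D * D → (p : ℤ) ^ N ∣ (m.choose j : ℤ) :=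
    fun j h1 h2 => by exact_mod_cast hQ' j h1 h2
  choose c hc using fun i : Fin d => exists_good i m D
  let P : Subring (R × Matrix (Fin d × Fin r) (Fin d × Fin r) ℤ) :=
    { carrier := {z | (∀ v, z.1 * b v = ∑ u, z.2 u v • b u) ∧ ∀ u v, rho z.2 u v ∈ K0 m p a}
      zero_mem' := ⟨by simp, fun u v => by simp⟩
      one_mem' := ⟨fun v => by simp [Matrix.one_apply], fun u v => by
        rw [Prod.snd_one, map_one, Matrix.one_apply]
        split_ifs
        · exact one_mem _
        · exact zero_mem _⟩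
      add_mem' := fun {z z'} h h' => ⟨fun v => by
        simp [add_mul, h.1, h'.1, add_smul, sum_add_distrib], fun u v => by
        rw [Prod.snd_add, map_add, Matrix.add_apply]
        exact add_mem (h.2 u v) (h'.2 u v)⟩
      neg_mem' := fun {z} h => ⟨fun v => by simp [h.1], fun u v => by
        rw [Prod.snd_neg, map_neg, Matrix.neg_apply]
        exact neg_mem (h.2 u v)⟩
      mul_mem' := fun {z z'} h h' => ⟨fun v => by
        rw [Prod.fst_mul, mul_assoc, h'.1, mul_sum]
        simp only [mul_smul_comm, h.1, smul_sum, Prod.snd_mul, Matrix.mul_apply, sum_smul]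
        rw [sum_comm]
        refine sum_congr rfl fun u _ => sum_congr rfl fun w _ => ?_
        rw [mul_comm, mul_smul], fun u v => by
        rw [Prod.snd_mul, map_mul, Matrix.mul_apply]
        exact sum_mem fun w _ => mul_mem (h.2 u w) (h'.2 w v)⟩ }
  let π : P →+* R := (RingHom.fst _ _).comp P.subtype
  have hπ : Function.Surjective π := by
    intro x
    obtain ⟨X, τ, h1, h2, h3⟩ := hact x
    refine ⟨⟨(x, X), h1, rho_mem p a X τ (fun u v => ?_) h2 h3⟩, rfl⟩
    have e0 : (p : ℤ) ^ a v.1 • b v = 0 := by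
      have := (hind (Pi.single v ((p : ℤ) ^ a v.1))).2 (fun w => by
        by_cases hw : w = v
        · subst hw; simp
        · simp [hw])
      simpa [Pi.single_apply] using this
    have e1 : ∑ w, ((p : ℤ) ^ a v.1 * X w v) • b w = 0 := by
      simp only [mul_smul]
      rw [← smul_sum, ← h1, ← mul_smul_comm, e0, mul_zero]
    have e2 := (hind _).1 e1 u
    by_cases hle : a u.1 ≤ a v.1
    · simp [Nat.sub_eq_zero_of_le hle]
    · have e3 : a u.1 = a v.1 + (a u.1 - a v.1) := by omega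
      rw [e3, pow_add] at e2
      exact Int.dvd_of_mul_dvd_mul_left (by positivity) e2
  have hinj : Function.Injective
      ((K0 m p a).subtype.mapMatrix (m := Lam d m × Fin r)) := by
    intro A B h
    funext u v
    exact Subtype.ext (congrFun (congrFun h u) v)
  let F0 : P → Matrix (Lam d m × Fin r) (Lam d m × Fin r) (K0 m p a) :=
    fun z u v => ⟨rho z.1.2 u v, z.2.2 u v⟩
  have hF0 : ∀ z, (K0 m p a).subtype.mapMatrix (F0 z) = rho z.1.2 := fun z => rfl
  let F1 : P →+* Matrix (Lam d m × Fin r) (Lam d m × Fin r) (K0 m p a) :=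
    { toFun := F0
      map_zero' := hinj (by rw [hF0, map_zero]; exact map_zero _)
      map_one' := hinj (by rw [hF0, map_one]; exact map_one _)
      map_add' := fun z z' => hinj (by rw [hF0, map_add, hF0, hF0]; exact map_add _ _ _)
      map_mul' := fun z z' => hinj (by rw [hF0, map_mul, hF0, hF0]; exact map_mul _ _ _) }
  let F2 := (Ideal.Quotient.mk (II (m := m) D c p a)).mapMatrix.comp F1
  have hF2 : ∀ z, F2 z = 0 ↔ ∀ u v, F0 z u v ∈ II (m := m) D c p a := by
    intro z
    simp only [← Ideal.Quotient.eq_zero_iff_mem]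
    exact ⟨fun h u v => congrFun (congrFun h u) v, fun h => funext fun u => funext fun v => h u v⟩
  have hker : RingHom.ker π ≤ RingHom.ker F2 := by
    intro z hz
    have hz1 : z.1.1 = 0 := hz
    rw [RingHom.mem_ker, hF2]
    intro u v g hg i j
    refine rho_II hc hm hD hQ a ha ha1 z.1.2 (fun u v => ?_) u v g hg i j
    refine (hind (fun u => z.1.2 u v)).1 ?_ u
    rw [← z.2.1, hz1, zero_mul]
  let f := π.liftOfSurjective hπ ⟨F2, hker⟩
  let e := Matrix.reindexRingEquiv (K0 m p a ⧸ II (m := m) D c p a)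
    (Fintype.equivFin (Lam d m × Fin r))
  suffices hf : Function.Injective f by
    refine ⟨K0 m p a ⧸ II (m := m) D c p a, inferInstance, Fintype.card (Lam d m × Fin r),
      e.toRingHom.comp f, ?_⟩
    intro x y h
    exact hf (e.injective h)
  rw [injective_iff_map_eq_zero]
  intro x hx
  obtain ⟨z, rfl⟩ := hπ x
  rw [RingHom.liftOfSurjective_comp_apply] at hx
  have h1 := (hF2 z).1 hx
  refine hfaith _ fun v => ?_
  change z.1.1 * b v = 0
  rw [z.2.1]
  refine (hind _).2 fun u => detect hc hm hD hQ a ha z.1.2 (fun u v i j => ?_) u v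
  have := h1 u v 1 (one_mem _) i j
  rwa [mul_one] at this

end Pool.Agent.H56.Rep
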