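import Pool.Agent.H56.Rep5

set_option autoImplicit false

namespace Pool.Agent.H56.Rep

open Finset

variable {R : Type} [Ring R] [Finite R] [IsLocalRing R]

omit [IsLocalRing R] in
theorem nu_left {x : R} (y : R) (hx : ¬ IsUnit x) : ¬ IsUnit (y * x) :=
  fun h => hx (isUnit_of_mul_isUnit_right h)

omit [Finite R] in
theorem nu_one_sub {x : R} (hx : ¬ IsUnit x) : IsUnit (1 - x) :=
  (IsLocalRing.isUnit_or_isUnit_of_add_one (a := x) (b := 1 - x) (by simp)).resolve_left hx

theorem nu_nil {x : R} (hx : ¬ IsUnit x) : ∃ N, x ^ N = 0 := by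
  obtain ⟨a, b, hab, h⟩ := Finite.exists_ne_map_eq_of_infinite (fun n : ℕ => x ^ n)
  wlog hlt : a < b generalizing a b
  · exact this b a hab.symm h.symm (by omega)
  obtain ⟨c, rfl⟩ := Nat.exists_eq_add_of_lt hlt
  refine ⟨a, ?_⟩
  have h1 : IsUnit (1 - x ^ c * x) := nu_one_sub (nu_left _ hx)
  have h2 : x ^ a * (1 - x ^ c * x) = 0 := by
    rw [mul_sub, mul_one, ← mul_assoc, ← pow_add, ← pow_succ, ← h, sub_self]
  exact (h1.mul_left_eq_zero).1 h2

variable (R) in
theorem exists_p : ∃ p : ℕ, p.Prime ∧ ¬ IsUnit (p : R) := by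
  have h0 : ringChar R ≠ 0 := CharP.ringChar_ne_zero_of_finite R
  have h1 : ringChar R ≠ 1 := CharP.ringChar_ne_one
  refine ⟨(ringChar R).minFac, Nat.minFac_prime h1, fun hu => ?_⟩
  obtain ⟨q, hq⟩ := Nat.minFac_dvd (ringChar R)
  have h2 : (((ringChar R).minFac : ℕ) : R) * (q : R) = 0 := by
    rw [← Nat.cast_mul, ← hq]
    exact ringChar.Nat.cast_ringChar
  have h3 := (ringChar.spec R q).1 ((hu.mul_right_eq_zero).1 h2)
  have h4 := (Nat.minFac_prime h1).one_lt
  have h5 : 0 < q := Nat.pos_of_ne_zero (by rintro rfl; exact h0 hq)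
  have h6 := Nat.le_of_dvd h5 h3
  nlinarith

/-- the non-units as an additive subgroup -/
def JJ (R : Type) [Ring R] [IsLocalRing R] : AddSubgroup R where
  carrier := {x | ¬ IsUnit x}
  zero_mem' := not_isUnit_zero
  add_mem' := IsLocalRing.nonunits_add
  neg_mem' := fun hx h => hx (by simpa using h)

theorem exists_basis (p : ℕ) (hp : p.Prime) (V : Type) [AddCommGroup V] [Finite V]
    (h : ∀ x : V, p • x = 0) : ∃ (r : ℕ) (b : Fin r → V),
      (∀ z : Fin r → ℤ, ∑ α, z α • b α = 0 → ∀ α, (p : ℤ) ∣ z α) ∧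
      ∀ x : V, ∃ z : Fin r → ℤ, x = ∑ α, z α • b α := by
  have : Fact p.Prime := ⟨hp⟩
  obtain ⟨inst⟩ : Nonempty (Module (ZMod p) V) := ⟨AddCommGroup.zmodModule h⟩
  have hmf : Module.Finite (ZMod p) V := Module.Finite.of_finite
  let b := Module.finBasis (ZMod p) V
  refine ⟨_, b, fun z hz α => ?_, fun x => ⟨fun α => ((b.repr x α).val : ℤ), ?_⟩⟩
  · simp only [← Int.cast_smul_eq_zsmul (ZMod p)] at hz
    have := Fintype.linearIndependent_iff.1 b.linearIndependent _ hz α
    exact (ZMod.intCast_zmod_eq_zero_iff_dvd _ _).1 this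
  · simp only [← Int.cast_smul_eq_zsmul (ZMod p)]
    simp

theorem exists_resid (p : ℕ) (hp : p.Prime) (hu : ¬ IsUnit (p : R)) :
    ∃ (r : ℕ) (s : Fin r → R),
      (∀ z : Fin r → ℤ, ¬ IsUnit (∑ α, z α • s α) → ∀ α, (p : ℤ) ∣ z α) ∧
      ∀ x : R, ∃ z : Fin r → ℤ, ¬ IsUnit (x - ∑ α, z α • s α) := by
  have hfin : Finite (R ⧸ JJ R) := Quotient.finite _
  obtain ⟨r, b, h1, h2⟩ := exists_basis p hp (R ⧸ JJ R) (fun x => by
    obtain ⟨x, rfl⟩ := QuotientAddGroup.mk'_surjective (JJ R) x
    rw [← map_nsmul]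
    refine (QuotientAddGroup.eq_zero_iff _).2 ?_
    change ¬ IsUnit _
    rw [nsmul_eq_mul']
    exact nu_left _ hu)
  choose s hs using fun α => QuotientAddGroup.mk'_surjective (JJ R) (b α)
  have key : ∀ z : Fin r → ℤ, QuotientAddGroup.mk' (JJ R) (∑ α, z α • s α) =
      ∑ α, z α • b α := by
    intro z
    simp only [map_sum, map_zsmul, hs]
  refine ⟨_, s, fun z hz => h1 z ?_, fun x => ?_⟩
  · rw [← key]
    exact (QuotientAddGroup.eq_zero_iff _).2 hz
  · obtain ⟨z, hz⟩ := h2 (QuotientAddGroup.mk' (JJ R) x)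
    refine ⟨z, ?_⟩
    apply (QuotientAddGroup.eq_zero_iff (N := JJ R) _).1
    change QuotientAddGroup.mk' (JJ R) _ = 0
    rw [map_sub, key, hz, sub_self]

theorem exists_next (p : ℤ) (N : ℕ) (hN : ∀ y : R, p ^ N • y = 0) (W : Submodule R R) :
    ∃ (u : R) (e : ℕ), W ≠ ⊤ → 1 ≤ e ∧ e ≤ N ∧ p ^ e • u = 0 ∧ u ∉ W ∧
      (∀ x, ¬ IsUnit x → x * u ∈ W) ∧ ∀ e' y, e' < e → p ^ e' • y = 0 → y ∈ W := by
  classical
  by_cases hW : W = ⊤
  · exact ⟨0, 0, fun h => absurd hW h⟩
  have hN' : ∃ y, p ^ N • y = 0 ∧ y ∉ W := by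
    by_contra h
    push Not at h
    exact hW (eq_top_iff.2 fun y _ => h y (hN y))
  have hex : ∃ e, ∃ y, p ^ e • y = 0 ∧ y ∉ W := ⟨N, hN'⟩
  have hmin : ∀ e' y, e' < Nat.find hex → p ^ e' • y = 0 → y ∈ W := by
    intro e' y h1 h2
    by_contra h3
    exact Nat.find_min hex h1 ⟨y, h2, h3⟩
  obtain ⟨y, hy1, hy2⟩ := Nat.find_spec hex
  obtain ⟨U, ⟨u, h1, h2, rfl⟩, h3⟩ := (wellFounded_lt (α := Submodule R R)).has_min
    {U | ∃ u, p ^ Nat.find hex • u = 0 ∧ u ∉ W ∧ U = Submodule.span R {u}} ⟨_, y, hy1, hy2, rfl⟩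
  refine ⟨u, Nat.find hex, fun _ => ⟨?_, Nat.find_min' hex hN', h1, h2, fun x hx => ?_, hmin⟩⟩
  · by_contra h
    have h0 : Nat.find hex = 0 := by omega
    rw [h0, pow_zero, one_smul] at h1
    exact h2 (h1 ▸ W.zero_mem)
  · by_contra h
    have h4 := h3 (Submodule.span R {x * u}) ⟨x * u, by rw [← mul_smul_comm, h1, mul_zero], h, rfl⟩
    have h5 : Submodule.span R {x * u} ≤ Submodule.span R {u} :=
      (Submodule.span_singleton_le_iff_mem _ _).2 (Submodule.mem_span_singleton.2 ⟨x, rfl⟩)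
    have h6 : Submodule.span R {x * u} = Submodule.span R {u} := by
      by_contra hne
      exact h4 (lt_of_le_of_ne h5 hne)
    have h7 : u ∈ Submodule.span R {x * u} := h6 ▸ Submodule.mem_span_singleton_self u
    obtain ⟨y, hy⟩ := Submodule.mem_span_singleton.1 h7
    have h8 : (1 - y * x) * u = 0 := by
      rw [sub_mul, one_mul, mul_assoc, ← smul_eq_mul y, hy, sub_self]
    have h9 := ((nu_one_sub (nu_left y hx)).mul_right_eq_zero).1 h8
    exact h2 (h9 ▸ W.zero_mem)

variable (R) in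
theorem representable : ∃ (C : Type) (_ : CommRing C) (n : ℕ)
    (f : R →+* Matrix (Fin n) (Fin n) C), Function.Injective f := by
  classical
  obtain ⟨p, hp, hu⟩ := exists_p R
  obtain ⟨N, hN⟩ := nu_nil hu
  have hN' : ∀ y : R, (p : ℤ) ^ N • y = 0 := by
    intro y
    rw [zsmul_eq_mul]
    push_cast
    rw [hN, zero_mul]
  obtain ⟨r, s, hs1, hs2⟩ := exists_resid p hp hu
  choose u e hue using exists_next (p : ℤ) N hN'
  let W : ℕ → Submodule R R := fun n =>
    Nat.rec (Submodule.span R {(p : R)}) (fun _ U => U ⊔ Submodule.span R {u U}) n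
  have hWs : ∀ n, W (n + 1) = W n ⊔ Submodule.span R {u (W n)} := fun n => rfl
  have hmono : Monotone W := monotone_nat_of_le_succ fun n => by rw [hWs]; exact le_sup_left
  have huW : ∀ n, u (W n) ∈ W (n + 1) := fun n => by
    rw [hWs]; exact Submodule.mem_sup_right (Submodule.mem_span_singleton_self _)
  have hpW : ∀ n (y : R), (p : ℤ) • y ∈ W n := fun n y => hmono (Nat.zero_le n)
    (Submodule.mem_span_singleton.2 ⟨y, by simp [(Nat.cast_commute p y).eq]⟩)
  have hex : ∃ n, W n = ⊤ := by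
    by_contra h
    push Not at h
    have : StrictMono W := strictMono_nat_of_lt_succ fun n =>
      lt_of_le_of_ne (hmono n.le_succ) fun heq => (hue _ (h n)).2.2.2.1 (heq ▸ huW n)
    exact not_injective_infinite_finite W this.injective
  obtain ⟨d, hd, hd'⟩ : ∃ d, W d = ⊤ ∧ ∀ k < d, W k ≠ ⊤ := by
    obtain ⟨d, h1, h2⟩ := (wellFounded_lt (α := ℕ)).has_min {n | W n = ⊤} hex
    exact ⟨d, h1, fun k hk h => h2 k h hk⟩
  let b : Fin d × Fin r → R := fun v => s v.2 * u (W v.1)
  let a : Fin d → ℕ := fun k => e (W k)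
  have hk : ∀ k : Fin d, _ := fun k => hue _ (hd' k k.2)
  have hsum : ∀ (k : Fin d) (z : Fin r → ℤ),
      ∑ v, (if v.1 = k then z v.2 else 0) • b v = (∑ α, z α • s α) * u (W k) := by
    intro k z
    rw [Fintype.sum_prod_type, sum_eq_single k]
    · simp [b, sum_mul, mul_assoc]
    · intro l _ hl
      simp [hl]
    · simp
  have hspan : ∀ n, n ≤ d → ∀ y ∈ W n, ∃ (z : Fin d × Fin r → ℤ) (y' : R),
      (∀ v, n ≤ v.1 → z v = 0) ∧ y = ∑ v, z v • b v + (p : ℤ) • y' := by
    intro n
    induction n with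
    | zero =>
      intro _ y hy
      obtain ⟨x, rfl⟩ := Submodule.mem_span_singleton.1 hy
      exact ⟨0, x, fun _ _ => rfl, by simp [(Nat.cast_commute p x).eq]⟩
    | succ n ih =>
      intro hn y hy
      rw [hWs] at hy
      obtain ⟨w, hw, y2, hy2, rfl⟩ := Submodule.mem_sup.1 hy
      obtain ⟨x, rfl⟩ := Submodule.mem_span_singleton.1 hy2
      obtain ⟨z, hz⟩ := hs2 x
      have h1 := (hk ⟨n, hn⟩).2.2.2.2.1 _ hz
      obtain ⟨z0, y', h2, h3⟩ := ih (by omega) _ (add_mem hw h1)
      refine ⟨fun v => z0 v + if v.1 = ⟨n, hn⟩ then z v.2 else 0, y', fun v hv => ?_, ?_⟩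
      · have : v.1 ≠ ⟨n, hn⟩ := fun h => by rw [h] at hv; simp at hv
        simp [h2 v (by omega), this]
      · simp only [add_smul, sum_add_distrib, hsum]
        rw [add_right_comm, ← h3, smul_eq_mul, sub_mul]
        abel
  have hgen : ∀ y : R, ∃ z : Fin d × Fin r → ℤ, y = ∑ v, z v • b v := by
    have : ∀ t (y : R), ∃ (z : Fin d × Fin r → ℤ) (y' : R),
        y = ∑ v, z v • b v + (p : ℤ) ^ t • y' := by
      intro t
      induction t with
      | zero => intro y; exact ⟨0, y, by simp⟩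
      | succ t ih =>
        intro y
        obtain ⟨z, y', h⟩ := ih y
        obtain ⟨z', y'', -, h'⟩ := hspan d le_rfl y' (by rw [hd]; trivial)
        refine ⟨fun v => z v + (p : ℤ) ^ t * z' v, y'', ?_⟩
        simp only [add_smul, sum_add_distrib, mul_smul, ← smul_sum, pow_succ]
        rw [add_assoc, ← smul_add, ← h', ← h]
    intro y
    obtain ⟨z, y', h⟩ := this N y
    exact ⟨z, by rw [h, hN', add_zero]⟩
  have hb0 : ∀ v (n : ℤ), (p : ℤ) ^ a v.1 ∣ n → n • b v = 0 := by
    rintro v _ ⟨q, rfl⟩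
    rw [mul_comm, mul_smul, ← mul_smul_comm, (hk v.1).2.2.1, mul_zero, smul_zero]
  refine repr_of_adapted R p N d r hp.pos a (fun k => (hk k).2.1) (fun k => (hk k).1) b
    (fun z => ⟨fun hz => ?_, fun hz => sum_eq_zero fun v _ => hb0 v _ (hz v)⟩)
    (fun x hx => ?_) (fun x => ?_)
  · have : ∀ t v, (p : ℤ) ^ min t (a v.1) ∣ z v := by
      intro t
      induction t with
      | zero => simp
      | succ t ih =>
        have h1 : ∀ v, ∃ q, (a v.1 ≤ t → q = 0) ∧ (t < a v.1 → z v = (p : ℤ) ^ t * q) := by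
          intro v
          by_cases h : a v.1 ≤ t
          · exact ⟨0, fun _ => rfl, fun h' => by omega⟩
          · obtain ⟨q, hq⟩ := ih v
            rw [min_eq_left (by omega)] at hq
            exact ⟨q, fun h' => absurd h' h, fun _ => hq⟩
        choose q hq1 hq2 using h1
        have h2 : (p : ℤ) ^ t • ∑ v, q v • b v = 0 := by
          rw [← hz, smul_sum]
          refine sum_congr rfl fun v _ => ?_
          by_cases h : a v.1 ≤ t
          · rw [hq1 v h, hb0 v (z v) (by have := ih v; rwa [min_eq_right h] at this)]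
            simp
          · rw [hq2 v (by omega), mul_smul]
        have h3 : ∀ (n : ℕ) (v : Fin d × Fin r), d - n ≤ v.1 → (p : ℤ) ∣ q v := by
          intro n
          induction n with
          | zero => intro v hv; have := v.1.2; omega
          | succ n ihn =>
            intro v hv
            by_cases h : a v.1 ≤ t
            · rw [hq1 v h]; exact dvd_zero _
            by_cases h' : d - n ≤ v.1
            · exact ihn v h'
            have h4 := (hk v.1).2.2.2.2.2 t _ (not_le.1 h) h2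
            have h5 : ∑ w, (if w.1 = v.1 then 0 else q w) • b w ∈ W v.1 := by
              refine sum_mem fun w _ => ?_
              split_ifs with hw
              · simp
              rcases lt_or_gt_of_ne hw with hlt | hlt
              · have h8 : b w ∈ W (w.1 + 1) := (W (w.1 + 1)).smul_mem (s w.2) (huW w.1)
                exact zsmul_mem (hmono (show w.1.val + 1 ≤ v.1 from hlt) h8) _
              · obtain ⟨q', hq'⟩ := ihn w (by have : v.1.val < w.1.val := hlt; omega)
                rw [hq', mul_smul]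
                exact hpW _ _
            have h6 : (∑ α, q (v.1, α) • s α) * u (W v.1) ∈ W v.1 := by
              rw [← hsum v.1 (fun α => q (v.1, α))]
              convert sub_mem h4 h5 using 1
              rw [← sum_sub_distrib]
              refine sum_congr rfl fun w _ => ?_
              split_ifs with hw
              · simp [← hw]
              · simp
            refine hs1 (fun α => q (v.1, α)) (fun hun => ?_) v.2
            obtain ⟨y, hy⟩ := hun.exists_left_inv
            have h7 := (W v.1).smul_mem y h6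
            rw [smul_eq_mul, ← mul_assoc, hy, one_mul] at h7
            exact (hk v.1).2.2.2.1 h7
        intro v
        by_cases h : a v.1 ≤ t
        · have := ih v
          rwa [min_eq_right h, ← min_eq_right (show a v.1 ≤ t + 1 by omega)] at this
        · rw [min_eq_left (by omega), hq2 v (by omega), pow_succ]
          exact mul_dvd_mul_left _ (h3 d v (by omega))
    intro v
    simpa using this (a v.1) v
  · obtain ⟨z, hz⟩ := hgen 1
    rw [← mul_one x, hz, mul_sum]
    simp only [mul_smul_comm, hx, smul_zero, sum_const_zero]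
  · choose τ hτ using fun β => hs2 (x * s β)
    have : ∀ v : Fin d × Fin r, ∃ z z' : Fin d × Fin r → ℤ, (∀ w, v.1.val ≤ w.1 → z w = 0) ∧
        x * b v = ∑ w, ((if w.1 = v.1 then τ v.2 w.2 else 0) + z w + p * z' w) • b w := by
      intro v
      obtain ⟨z, y', h1, h2⟩ := hspan v.1 v.1.2.le _ ((hk v.1).2.2.2.2.1 _ (hτ v.2))
      obtain ⟨z', h3⟩ := hgen y'
      refine ⟨z, z', h1, ?_⟩
      simp only [add_smul, sum_add_distrib, hsum, mul_smul, ← smul_sum]
      rw [← h3, add_assoc, ← h2, sub_mul, mul_assoc]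
      simp [b]
    choose z z' h1 h2 using this
    refine ⟨fun w v => (if w.1 = v.1 then τ v.2 w.2 else 0) + z v w + p * z' v w,
      fun α β => τ β α, h2, fun w v hv => ?_, fun k α β => ?_⟩
    · simp [hv.ne', h1 v w hv.le]
    · simp [h1 (k, β) (k, α) le_rfl]

end Pool.Agent.H56.Rep
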