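import Mathlib

open Set Filter Topology Ordinal Order

namespace H56.Rk

variable {X : Type} [TopologicalSpace X]

/-- Bounded Baire class 1 functions: bounded pointwise limits of continuous functions. -/
def BB1 (f : X → ℝ) : Prop :=
  (∃ M, ∀ x, |f x| ≤ M) ∧
    ∃ u : ℕ → X → ℝ, (∀ n, Continuous (u n)) ∧ ∀ x, Tendsto (fun n => u n x) atTop (𝓝 (f x))

/-- Sets that are both G-delta and F-sigma. -/
def Delta2 (A : Set X) : Prop := IsGδ A ∧ IsGδ Aᶜ

/-- The relation a ≲ b on ordinals. -/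
def Lsim (a b : Ordinal.{0}) : Prop :=
  ∀ η : Ordinal.{0}, 1 ≤ η → η < ω₁ → b ≤ ω ^ η → a ≤ ω ^ η

/-- The relation a ≈ b on ordinals. -/
def Approx (a b : Ordinal.{0}) : Prop := Lsim a b ∧ Lsim b a

/-- A continuous decreasing sequence of closed sets of length l, extended by the empty set. -/
def CSeq (F : Ordinal.{0} → Set X) (l : Ordinal.{0}) : Prop :=
  Antitone F ∧ (∀ η, IsClosed (F η)) ∧ F 0 = Set.univ ∧
    (∀ η, IsSuccLimit η → F η = ⋂ θ < η, F θ) ∧ F l = ∅

/-- The transfinite difference; an ordinal is even when it has the form 2 * c. -/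
def tdiff (F : Ordinal.{0} → Set X) (l : Ordinal.{0}) : Set X :=
  ⋃ η < l, ⋃ _ : 2 ∣ η, F η \ F (η + 1)

/-- The modified separation rank of a pair of sets. -/
noncomputable def alpha1 (B C : Set X) : Ordinal.{0} :=
  sInf {l | ∃ F, CSeq F l ∧ B ⊆ tdiff F l ∧ Disjoint (tdiff F l) C}

/-- The modified separation rank of a function. -/
noncomputable def alphaF (f : X → ℝ) : Ordinal.{0} :=
  ⨆ r : {r : ℚ × ℚ // r.1 < r.2}, alpha1 {x | f x ≤ r.1.1} {x | r.1.2 ≤ f x}

end H56.Rk
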