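import Mathlib
import Pool.Agent.H56.RkDef

open Set Filter Topology Ordinal Order

namespace H56.Rk

variable {X : Type} [TopologicalSpace X]

lemma par1 {o : Ordinal.{0}} (h : 2 ∣ o) : ¬ 2 ∣ o + 1 := by
  obtain ⟨a, rfl⟩ := h
  rintro ⟨c, hc⟩
  rcases le_or_gt c a with h | h
  · have : 2 * c ≤ 2 * a := by gcongr
    exact absurd (hc ▸ this) (not_le.2 (lt_add_one _))
  · have h1 : 2 * (a + 1) ≤ 2 * c := by gcongr; exact add_one_le_iff.2 h
    rw [← hc, mul_add, mul_one, ← one_add_one_eq_two (R := Ordinal.{0}), ← add_assoc] at h1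
    exact absurd h1 (not_le.2 (lt_add_one _))

lemma par2 {o : Ordinal.{0}} (h : 2 ∣ o) : 2 ∣ o + 1 + 1 := by
  obtain ⟨a, rfl⟩ := h
  exact ⟨a + 1, by rw [mul_add, mul_one, add_assoc, one_add_one_eq_two]⟩

open Classical in
noncomputable def G (B C : Set X) (η : Ordinal.{0}) : Set X :=
  Ordinal.limitRecOn (motive := fun _ => Set X) η Set.univ
    (fun o S => closure (S ∩ if 2 ∣ o then C else B))
    (fun o _ ih => ⋂ θ, ⋂ h : θ < o, ih θ h)

variable {B C : Set X}

lemma G_zero : G B C 0 = Set.univ := by simp [G]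

lemma G_even {o : Ordinal.{0}} (h : 2 ∣ o) : G B C (o + 1) = closure (G B C o ∩ C) := by
  simp only [G, limitRecOn_add_one, if_pos h]

lemma G_odd {o : Ordinal.{0}} (h : ¬ 2 ∣ o) : G B C (o + 1) = closure (G B C o ∩ B) := by
  simp only [G, limitRecOn_add_one, if_neg h]

lemma G_lim {o : Ordinal.{0}} (h : IsSuccLimit o) : G B C o = ⋂ θ < o, G B C θ := by
  simp only [G, limitRecOn_limit _ _ _ _ h]

lemma G_closed (o : Ordinal.{0}) : IsClosed (G B C o) := by
  induction o using Ordinal.limitRecOn with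
  | zero => rw [G_zero]; exact isClosed_univ
  | add_one o _ =>
    by_cases h : 2 ∣ o
    · rw [G_even h]; exact isClosed_closure
    · rw [G_odd h]; exact isClosed_closure
  | limit o h ih => rw [G_lim h]; exact isClosed_biInter ih

lemma G_succ (o : Ordinal.{0}) : G B C (o + 1) ⊆ G B C o := by
  by_cases h : 2 ∣ o
  · rw [G_even h]; exact closure_minimal inter_subset_left (G_closed o)
  · rw [G_odd h]; exact closure_minimal inter_subset_left (G_closed o)

lemma G_anti : Antitone (G B C) := by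
  intro a b hab
  induction b using Ordinal.limitRecOn with
  | zero => rw [le_zero_iff.1 hab]
  | add_one o ih =>
    rcases hab.eq_or_lt with rfl | h
    · exact le_rfl
    · exact (G_succ o).trans (ih (lt_add_one_iff.1 h))
  | limit o h _ =>
    rcases hab.eq_or_lt with rfl | h'
    · exact le_rfl
    · rw [G_lim h]; exact biInter_subset_of_mem h'

lemma G_mono {B' C' : Set X} (hB : B ⊆ B') (hC : C ⊆ C') (o : Ordinal.{0}) :
    G B C o ⊆ G B' C' o := by
  induction o using Ordinal.limitRecOn with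
  | zero => rw [G_zero, G_zero]
  | add_one o ih =>
    by_cases h : 2 ∣ o
    · rw [G_even h, G_even h]; exact closure_mono (inter_subset_inter ih hC)
    · rw [G_odd h, G_odd h]; exact closure_mono (inter_subset_inter ih hB)
  | limit o h ih => rw [G_lim h, G_lim h]; exact iInter₂_mono ih

omit [TopologicalSpace X] in
lemma mem_tdiff {F : Ordinal.{0} → Set X} {l : Ordinal.{0}} {x : X} :
    x ∈ tdiff F l ↔ ∃ η < l, 2 ∣ η ∧ x ∈ F η ∧ x ∉ F (η + 1) := by
  simp only [tdiff, mem_iUnion, Set.mem_sdiff, exists_prop]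

omit [TopologicalSpace X] in
lemma lev_uniq {F : Ordinal.{0} → Set X} (hF : Antitone F) {x : X} {a b : Ordinal.{0}}
    (h1 : x ∈ F a) (h2 : x ∉ F (a + 1)) (h3 : x ∈ F b) (h4 : x ∉ F (b + 1)) : a = b := by
  refine le_antisymm ?_ ?_ <;> refine lt_add_one_iff.1 (not_le.1 fun h => ?_)
  · exact h4 (hF h h1)
  · exact h2 (hF h h3)

lemma level {F : Ordinal.{0} → Set X} {l : Ordinal.{0}} (h : CSeq F l) (x : X) :
    ∃ η < l, x ∈ F η ∧ x ∉ F (η + 1) := by
  obtain ⟨-, -, h0, hl, he⟩ := h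
  have ne : {m | x ∉ F m}.Nonempty := ⟨l, by simp [he]⟩
  have hm : x ∉ F (sInf {m | x ∉ F m}) := csInf_mem ne
  have hlt : ∀ θ < sInf {m | x ∉ F m}, x ∈ F θ := fun θ h => by
    by_contra hc
    exact absurd (csInf_le' (show θ ∈ {m | x ∉ F m} from hc)) (not_le.2 h)
  have hle : sInf {m | x ∉ F m} ≤ l := csInf_le' (by simp [he])
  generalize sInf {m | x ∉ F m} = m at hm hlt hle
  induction m using Ordinal.limitRecOn with
  | zero => exact absurd (h0 ▸ mem_univ x) hm
  | add_one o _ => exact ⟨o, add_one_le_iff.1 hle, hlt o (lt_add_one o), hm⟩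
  | limit o h _ => exact absurd (hl o h ▸ mem_iInter₂.2 hlt) hm

lemma G_min {F : Ordinal.{0} → Set X} {l : Ordinal.{0}} (h : CSeq F l) (hB : B ⊆ tdiff F l)
    (hC : Disjoint (tdiff F l) C) (o : Ordinal.{0}) : G B C o ⊆ F o := by
  induction o using Ordinal.limitRecOn with
  | zero => rw [h.2.2.1]; exact subset_univ _
  | add_one o ih =>
    by_cases e : 2 ∣ o
    · rw [G_even e]
      refine closure_minimal (fun x hx => ?_) (h.2.1 _)
      by_contra hc
      have : o < l := not_le.1 fun hl => by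
        have := h.1 hl (ih hx.1)
        rw [h.2.2.2.2] at this; exact this
      exact disjoint_left.1 hC (mem_tdiff.2 ⟨o, this, e, ih hx.1, hc⟩) hx.2
    · rw [G_odd e]
      refine closure_minimal (fun x hx => ?_) (h.2.1 _)
      by_contra hc
      obtain ⟨η, -, e', h1, h2⟩ := mem_tdiff.1 (hB hx.2)
      exact e (lev_uniq h.1 h1 h2 (ih hx.1) hc ▸ e')
  | limit o hl ih => rw [G_lim hl, h.2.2.2.1 o hl]; exact iInter₂_mono ih

lemma G_cseq {l : Ordinal.{0}} (h : G B C l = ∅) : CSeq (G B C) l :=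
  ⟨G_anti, G_closed, G_zero, fun _ h => G_lim h, h⟩

lemma G_sep {l : Ordinal.{0}} (h : G B C l = ∅) :
    B ⊆ tdiff (G B C) l ∧ Disjoint (tdiff (G B C) l) C := by
  refine ⟨fun x hx => ?_, disjoint_left.2 fun x hx hC => ?_⟩
  · obtain ⟨η, h1, h2, h3⟩ := level (G_cseq h) x
    refine mem_tdiff.2 ⟨η, h1, ?_, h2, h3⟩
    by_contra e
    exact h3 (by rw [G_odd e]; exact subset_closure ⟨h2, hx⟩)
  · obtain ⟨η, -, e, h2, h3⟩ := mem_tdiff.1 hx
    exact h3 (by rw [G_even e]; exact subset_closure ⟨h2, hC⟩)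

lemma alpha1_le {l : Ordinal.{0}} (h : G B C l = ∅) : alpha1 B C ≤ l :=
  csInf_le' ⟨_, G_cseq h, G_sep h⟩

lemma exists_empty [PolishSpace X] (hB : IsGδ B) (hC : IsGδ C) (hd : Disjoint B C) :
    ∃ l, G B C l = ∅ := by
  obtain ⟨a, e1, e2⟩ : ∃ a, G B C (2 * a + 1) = G B C (2 * a) ∧
      G B C (2 * a + 1 + 1) = G B C (2 * a) := by
    have := not_injective_of_ordinal (fun η : Ordinal.{0} => G B C (2 * η))
    simp only [Function.Injective, not_forall] at this
    obtain ⟨a, b, hab, hne⟩ := this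
    wlog h : a < b generalizing a b
    · exact this b a hab.symm (Ne.symm hne) (lt_of_le_of_ne (not_lt.1 h) (Ne.symm hne))
    have h1 : 2 * a + 1 + 1 ≤ 2 * b := by
      have : 2 * (a + 1) ≤ 2 * b := by gcongr; exact add_one_le_iff.2 h
      rwa [mul_add, mul_one, ← one_add_one_eq_two (R := Ordinal.{0}), ← add_assoc,
        one_add_one_eq_two] at this
    have h2 : G B C (2 * a) ⊆ G B C (2 * a + 1 + 1) := hab ▸ G_anti h1
    exact ⟨a, (G_succ _).antisymm (h2.trans (G_succ _)),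
      ((G_succ _).trans (G_succ _)).antisymm h2⟩
  refine ⟨2 * a, ?_⟩
  rw [G_odd (par1 ⟨a, rfl⟩), e1] at e2
  rw [G_even ⟨a, rfl⟩] at e1
  have hc := G_closed (B := B) (C := C) (2 * a)
  generalize G B C (2 * a) = S at e1 e2 hc
  by_contra hne
  have := hc.isCompletelyMetrizableSpace
  have : Nonempty S := (nonempty_iff_ne_empty.2 hne).to_subtype
  have dn : ∀ A : Set X, closure (S ∩ A) = S → Dense ((↑) ⁻¹' A : Set S) := fun A hA x => by
    rw [closure_subtype, Subtype.image_preimage_coe, hA]; exact x.2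
  obtain ⟨x, h1, h2⟩ := (Dense.inter_of_Gδ (hB.preimage continuous_subtype_val)
    (hC.preimage continuous_subtype_val) (dn B e2) (dn C e1)).nonempty
  exact disjoint_left.1 hd h1 h2

lemma G_empty [PolishSpace X] (hB : IsGδ B) (hC : IsGδ C) (hd : Disjoint B C) {θ : Ordinal.{0}}
    (h : alpha1 B C ≤ θ) : G B C θ = ∅ := by
  obtain ⟨l, hl⟩ := exists_empty hB hC hd
  obtain ⟨F, h1, h2, h3⟩ : alpha1 B C ∈ _ := csInf_mem ⟨l, _, G_cseq hl, G_sep hl⟩
  exact subset_eq_empty ((G_anti h).trans (G_min h1 h2 h3 _)) h1.2.2.2.2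

lemma cnt {l : Ordinal.{0}} (h : l < ω₁) : (Iio l).Countable := by
  rw [← Cardinal.le_aleph0_iff_set_countable, Cardinal.mk_Iio_ordinal]
  rw [Cardinal.lt_omega_iff_card_lt, Cardinal.lt_aleph_one_iff] at h
  exact Cardinal.lift_le_aleph0.2 h

lemma delta_tdiff [PolishSpace X] {F : Ordinal.{0} → Set X} {l : Ordinal.{0}} (h : CSeq F l)
    (hl : l < ω₁) : Delta2 (tdiff F l) := by
  have key : ∀ P : Ordinal.{0} → Prop,
      IsGδ (⋂ η ∈ Iio l ∩ {η | P η}, (F η)ᶜ ∪ F (η + 1)) := fun P =>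
    IsGδ.biInter ((cnt hl).mono inter_subset_left) fun η _ =>
      (h.2.1 η).isOpen_compl.isGδ.union (h.2.1 _).isGδ
  constructor
  · suffices e : (⋂ η ∈ Iio l ∩ {η | ¬ 2 ∣ η}, (F η)ᶜ ∪ F (η + 1)) = tdiff F l from
      e ▸ key fun η => ¬ 2 ∣ η
    ext x
    simp only [mem_iInter, mem_tdiff, mem_inter_iff, mem_Iio, mem_ofPred_eq, mem_union,
      mem_compl_iff]
    constructor
    · intro H
      obtain ⟨η, h1, h2, h3⟩ := level h x
      refine ⟨η, h1, ?_, h2, h3⟩
      by_contra e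
      rcases H η ⟨h1, e⟩ with h' | h'
      exacts [h' h2, h3 h']
    · rintro ⟨η, -, e, h2, h3⟩ θ ⟨-, e'⟩
      by_contra hc
      push Not at hc
      exact e' (lev_uniq h.1 h2 h3 hc.1 hc.2 ▸ e)
  · suffices e : (⋂ η ∈ Iio l ∩ {η | 2 ∣ η}, (F η)ᶜ ∪ F (η + 1)) = (tdiff F l)ᶜ from
      e ▸ key fun η => 2 ∣ η
    ext x
    simp only [mem_iInter, mem_tdiff, mem_inter_iff, mem_Iio, mem_ofPred_eq, mem_union,
      mem_compl_iff]
    constructor
    · rintro H ⟨η, h1, e, h2, h3⟩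
      rcases H η ⟨h1, e⟩ with h' | h'
      exacts [h' h2, h3 h']
    · rintro H η ⟨h1, e⟩
      by_contra hc
      push Not at hc
      exact H ⟨η, h1, e, hc.1, hc.2⟩

end H56.Rk
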