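import Mathlib
import Pool.Agent.H56.Rk1

open Set Filter Topology Ordinal Order

namespace H56.Rk

lemma closed_fan {X : Type} [MetricSpace X] {x : X} {K : ℕ → Set X} (hK : ∀ n, IsClosed (K n))
    {r : ℕ → ℝ} (hr : Tendsto r atTop (𝓝 0)) (h : ∀ n, ∀ y ∈ K n, dist y x ≤ r n) :
    IsClosed (insert x (⋃ n, K n)) := by
  refine isClosed_of_closure_subset fun y hy => ?_
  by_cases e : y = x
  · exact Or.inl e
  have d0 : 0 < dist y x := dist_pos.2 e
  obtain ⟨N, hN⟩ := eventually_atTop.1 (hr.eventually (gt_mem_nhds (half_pos d0)))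
  have sub : insert x (⋃ n, K n) ⊆
      Metric.closedBall x (dist y x / 2) ∪ ⋃ n ∈ Iio N, K n := by
    rintro z (rfl | hz)
    · exact Or.inl (Metric.mem_closedBall_self (half_pos d0).le)
    · obtain ⟨n, hn⟩ := mem_iUnion.1 hz
      rcases lt_or_ge n N with h' | h'
      · exact Or.inr (mem_biUnion h' hn)
      · exact Or.inl ((h n z hn).trans (hN n h').le)
  rcases closure_minimal sub (Metric.isClosed_closedBall.union
    ((finite_Iio N).isClosed_biUnion fun n _ => hK n)) hy with h' | h'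
  · exact absurd (Metric.mem_closedBall.1 h') (by linarith)
  · obtain ⟨n, -, hn⟩ := mem_iUnion₂.1 h'
    exact Or.inr (mem_iUnion.2 ⟨n, hn⟩)

lemma exists_K {X : Type} [MetricSpace X] {B C : Set X} (o : Ordinal.{0}) (ho : o < ω₁) :
    ∀ x ∈ G B C o, ∀ ε > 0, ∃ K : Set X, IsClosed K ∧ K.Countable ∧ x ∈ K ∧
      (∀ y ∈ K, dist y x ≤ ε) ∧ (∀ y ∈ K, y = x ∨ y ∈ B ∪ C) ∧ x ∈ G (K ∩ B) (K ∩ C) o := by
  have t0 : ∀ ε : ℝ, Tendsto (fun n : ℕ => ε / ((n : ℝ) + 1)) atTop (𝓝 0) := fun ε =>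
    tendsto_const_nhds.div_atTop (tendsto_atTop_add_const_right _ _ tendsto_natCast_atTop_atTop)
  have l0 : ∀ ε : ℝ, 0 < ε → ∀ n : ℕ, ε / ((n : ℝ) + 1) ≤ ε := fun ε h n =>
    div_le_self h.le (by linarith [Nat.cast_nonneg (α := ℝ) n])
  induction o using Ordinal.limitRecOn with
  | zero =>
    intro x _ ε hε
    exact ⟨{x}, isClosed_singleton, countable_singleton x, rfl,
      by rintro y rfl; simpa using hε.le, fun y hy => Or.inl hy, by rw [G_zero]; trivial⟩
  | add_one o ih =>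
    intro x hx ε hε
    have step : ∀ D : Set X, D ⊆ B ∪ C → x ∈ closure (G B C o ∩ D) →
        ∃ K : Set X, IsClosed K ∧ K.Countable ∧ x ∈ K ∧ (∀ y ∈ K, dist y x ≤ ε) ∧
          (∀ y ∈ K, y = x ∨ y ∈ B ∪ C) ∧ x ∈ closure (G (K ∩ B) (K ∩ C) o ∩ (K ∩ D)) := by
      intro D hD hx
      have p : ∀ n : ℕ, 0 < ε / ((n : ℝ) + 1) / 2 := fun n => by positivity
      choose z hz hzd using fun n : ℕ => Metric.mem_closure_iff.1 hx _ (p n)
      choose K c1 c2 c3 c4 c5 c6 using fun n : ℕ =>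
        ih ((lt_add_one o).trans ho) (z n) (hz n).1 _ (p n)
      have hd : ∀ n, ∀ y ∈ K n, dist y x ≤ ε / ((n : ℝ) + 1) := fun n y hy => by
        have := dist_triangle_right y x (z n)
        linarith [c4 n y hy, hzd n]
      have sub : ∀ n, K n ⊆ insert x (⋃ n, K n) := fun n =>
        (subset_iUnion K n).trans (subset_insert _ _)
      refine ⟨_, closed_fan c1 (t0 ε) hd, (countable_iUnion c2).insert x, Or.inl rfl, ?_, ?_, ?_⟩
      · rintro y (rfl | hy)
        · simpa using hε.le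
        · obtain ⟨n, hn⟩ := mem_iUnion.1 hy
          exact (hd n y hn).trans (l0 ε hε n)
      · rintro y (rfl | hy)
        · exact Or.inl rfl
        · obtain ⟨n, hn⟩ := mem_iUnion.1 hy
          rcases c5 n y hn with rfl | h
          · exact Or.inr (hD (hz n).2)
          · exact Or.inr h
      · refine mem_closure_of_tendsto (f := z) (b := atTop) ?_ (Eventually.of_forall fun n => ?_)
        · rw [tendsto_iff_dist_tendsto_zero]
          exact squeeze_zero (fun _ => dist_nonneg) (fun n => hd n _ (c3 n)) (t0 ε)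
        · exact ⟨G_mono (inter_subset_inter_left _ (sub n)) (inter_subset_inter_left _ (sub n)) o
            (c6 n), sub n (c3 n), (hz n).2⟩
    by_cases e : 2 ∣ o
    · simp only [G_even e] at hx ⊢
      exact step C subset_union_right hx
    · simp only [G_odd e] at hx ⊢
      exact step B subset_union_left hx
  | limit o hl ih =>
    intro x hx ε hε
    obtain ⟨s, hs⟩ := (cnt ho).exists_eq_range ⟨0, hl.bot_lt⟩
    have hso : ∀ n, s n < o := fun n => show s n ∈ Iio o from hs ▸ mem_range_self n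
    have p : ∀ n : ℕ, 0 < ε / ((n : ℝ) + 1) := fun n => by positivity
    choose K c1 c2 c3 c4 c5 c6 using fun n : ℕ =>
      ih (s n) (hso n) ((hso n).trans ho) x (G_anti (hso n).le hx) _ (p n)
    have sub : ∀ n, K n ⊆ insert x (⋃ n, K n) := fun n =>
      (subset_iUnion K n).trans (subset_insert _ _)
    refine ⟨_, closed_fan c1 (t0 ε) c4, (countable_iUnion c2).insert x, Or.inl rfl, ?_, ?_, ?_⟩
    · rintro y (rfl | hy)
      · simpa using hε.le
      · obtain ⟨n, hn⟩ := mem_iUnion.1 hy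
        exact (c4 n y hn).trans (l0 ε hε n)
    · rintro y (rfl | hy)
      · exact Or.inl rfl
      · obtain ⟨n, hn⟩ := mem_iUnion.1 hy
        exact c5 n y hn
    · rw [G_lim hl]
      refine mem_iInter₂.2 fun θ hθ => ?_
      obtain ⟨n, rfl⟩ : θ ∈ range s := hs ▸ hθ
      exact G_mono (inter_subset_inter_left _ (sub n)) (inter_subset_inter_left _ (sub n)) _ (c6 n)

variable {X : Type} [TopologicalSpace X]

lemma delta_sub [PolishSpace X] {K A : Set X} (hK : IsClosed K) (hc : K.Countable) (hA : A ⊆ K) :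
    Delta2 A := by
  refine ⟨?_, (hc.mono hA).isGδ_compl⟩
  have : A = K ∩ (K \ A)ᶜ := by
    ext x; by_cases h : x ∈ A <;> simp [h]
    exact hA h
  rw [this]
  exact hK.isGδ.inter (hc.mono sdiff_subset).isGδ_compl

lemma alpha_punct [PolishSpace X] {K A : Set X} (hK : IsClosed K) (hA : A ⊆ K) {x : X}
    (h : ∀ y ∈ K, y = x ∨ y ∈ A) : alpha1 A Aᶜ ≤ ω := by
  have e0 : (2 : Ordinal.{0}) ∣ 0 := dvd_zero _
  have h2 : G A Aᶜ (0 + 1 + 1) ⊆ K := by
    rw [G_odd (par1 e0)]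
    exact closure_minimal (inter_subset_right.trans hA) hK
  have h3 : G A Aᶜ (0 + 1 + 1 + 1) ⊆ K \ A := by
    rw [G_even (par2 e0)]
    refine closure_minimal (inter_subset_inter_left _ h2) (Set.Finite.isClosed ?_)
    exact (finite_singleton x).subset fun y hy => (h y hy.1).resolve_right hy.2
  have h4 : G A Aᶜ (0 + 1 + 1 + 1 + 1) = ∅ := by
    rw [G_odd (par1 (par2 e0)), closure_empty_iff]
    exact eq_empty_of_forall_notMem fun y hy => (h3 hy.1).2 hy.2
  refine (alpha1_le h4).trans ?_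
  have := (natCast_lt_omega0 4).le
  norm_num at this ⊢
  exact this

lemma BB1.add {f g : X → ℝ} (hf : BB1 f) (hg : BB1 g) : BB1 (f + g) := by
  obtain ⟨⟨M, hM⟩, u, hu, hu'⟩ := hf
  obtain ⟨⟨N, hN⟩, v, hv, hv'⟩ := hg
  exact ⟨⟨M + N, fun x => (abs_add_le _ _).trans (add_le_add (hM x) (hN x))⟩,
    fun n => u n + v n, fun n => (hu n).add (hv n), fun x => (hu' x).add (hv' x)⟩

lemma BB1.comp {f : X → ℝ} (hf : BB1 f) {h : ℝ → ℝ} (hh : Continuous h) : BB1 (h ∘ f) := by
  obtain ⟨⟨M, hM⟩, u, hu, hu'⟩ := hf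
  obtain ⟨N, hN⟩ := (isCompact_Icc (a := -M) (b := M)).exists_bound_of_continuousOn hh.continuousOn
  exact ⟨⟨N, fun x => hN _ (abs_le.1 (hM x))⟩, fun n => h ∘ u n, fun n => hh.comp (hu n),
    fun x => (hh.tendsto _).comp (hu' x)⟩

lemma BB1.gdelta {f : X → ℝ} (hf : BB1 f) (p : ℝ) : IsGδ {x | f x ≤ p} := by
  obtain ⟨-, u, hu, hu'⟩ := hf
  have : {x | f x ≤ p} =
      ⋂ k : ℕ, ⋂ n : ℕ, ⋃ m, ⋃ _ : n ≤ m, {x | u m x < p + 1 / ((k : ℝ) + 1)} := by
    ext x
    simp only [mem_iInter, mem_iUnion, mem_ofPred_eq, exists_prop]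
    constructor
    · intro h k n
      have : f x < p + 1 / ((k : ℝ) + 1) := by linarith [Nat.one_div_pos_of_nat (α := ℝ) (n := k)]
      obtain ⟨m, h1, h2⟩ := ((eventually_ge_atTop n).and
        ((hu' x).eventually (gt_mem_nhds this))).exists
      exact ⟨m, h1, h2⟩
    · intro h
      by_contra hc
      obtain ⟨k, hk⟩ := exists_nat_one_div_lt (sub_pos.2 (not_le.1 hc))
      have : p + 1 / ((k : ℝ) + 1) < f x := by linarith
      obtain ⟨n, hn⟩ := eventually_atTop.1 ((hu' x).eventually (lt_mem_nhds this))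
      obtain ⟨m, h1, h2⟩ := h k n
      exact absurd (hn m h1) (not_lt.2 h2.le)
  rw [this]
  exact IsGδ.iInter fun k => IsGδ.iInter_of_isOpen fun n =>
    isOpen_iUnion fun m => isOpen_iUnion fun _ => isOpen_lt (hu m) continuous_const

lemma BB1.gdelta' {f : X → ℝ} (hf : BB1 f) (q : ℝ) : IsGδ {x | q ≤ f x} := by
  simpa using (hf.comp continuous_neg).gdelta (-q)

lemma exh {A : Set X} (h : IsGδ Aᶜ) : ∃ S : ℕ → Set X, (∀ n, IsClosed (S n)) ∧ (∀ n, S n ⊆ A) ∧
    ∀ x ∈ A, ∀ᶠ n in atTop, x ∈ S n := by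
  obtain ⟨U, hU, e⟩ := h.eq_iInter_nat
  refine ⟨fun n => ⋃ k ∈ Iic n, (U k)ᶜ,
    fun n => (finite_Iic n).isClosed_biUnion fun k _ => (hU k).isClosed_compl, fun n x hx => ?_,
    fun x hx => ?_⟩
  · obtain ⟨k, -, hk⟩ := mem_iUnion₂.1 hx
    by_contra hc
    exact hk (mem_iInter.1 (e ▸ hc : x ∈ ⋂ n, U n) k)
  · have : x ∉ ⋂ n, U n := fun h => (e ▸ h : x ∈ Aᶜ) hx
    obtain ⟨k, hk⟩ := not_forall.1 (fun h => this (mem_iInter.2 h))
    filter_upwards [eventually_ge_atTop k] with n hn using mem_biUnion hn hk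

lemma Delta2.bb1 [PolishSpace X] {A : Set X} (h : Delta2 A) : BB1 (A.indicator 1) := by
  obtain ⟨S, s1, s2, s3⟩ := exh h.2
  obtain ⟨T, t1, t2, t3⟩ := exh (A := Aᶜ) (by rw [compl_compl]; exact h.1)
  choose u u0 u1 _ using fun n => exists_continuous_zero_one_of_isClosed (t1 n) (s1 n)
    (disjoint_compl_left.mono (t2 n) (s2 n))
  refine ⟨⟨1, fun x => by by_cases hx : x ∈ A <;> simp [hx]⟩, fun n => u n,
    fun n => (u n).continuous, fun x => tendsto_const_nhds.congr' ?_⟩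
  by_cases hx : x ∈ A
  · filter_upwards [s3 x hx] with n hn
    rw [u1 n hn]; simp [hx]
  · filter_upwards [t3 x hx] with n hn
    rw [u0 n hn]; simp [hx]

end H56.Rk
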