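import Mathlib

namespace Pool.Agent.H56.Sb1
open Polynomial Finset

theorem antidiff {F : Type*} [Field F] (p : ℕ) (hF : ∀ e : ℕ, 0 < e → e < p → (e : F) ≠ 0) :
    ∀ d : ℕ, d < p → ∀ P : F[X], P.degree < d →
      ∃ Q : F[X], Q.natDegree ≤ d ∧ Q.comp (X + 1) - Q = P := by
  intro d
  induction d with
  | zero =>
    intro _ P hP
    have : P = 0 := by
      by_contra h
      rw [degree_eq_natDegree h] at hP
      exact absurd hP (by simp)
    exact ⟨0, by simp, by simp [this]⟩
  | succ d ih =>
    intro hd P hP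
    have hne : ((d + 1 : ℕ) : F) ≠ 0 := hF _ (by omega) hd
    set a : F := P.coeff d / ((d + 1 : ℕ) : F) with ha
    have hdeg : (P - C a * ((X + 1) ^ (d + 1) - X ^ (d + 1))).degree < ((d : ℕ) : WithBot ℕ) := by
      rw [degree_lt_iff_coeff_zero]
      intro k hk
      have hk' : d ≤ k := by exact_mod_cast hk
      rw [coeff_sub, coeff_C_mul, coeff_sub, coeff_X_add_one_pow, coeff_X_pow]
      rcases Nat.eq_or_lt_of_le hk' with h | h
      · subst h
        rw [if_neg (by omega), Nat.choose_succ_self_right, ha]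
        field_simp
        ring
      · have h0 : P.coeff k = 0 := by
          apply coeff_eq_zero_of_degree_lt
          refine lt_of_lt_of_le hP ?_
          exact_mod_cast h
        rcases Nat.eq_or_lt_of_le (Nat.succ_le_of_lt h) with h2 | h2
        · rw [h0, if_pos h2.symm, ← h2]; simp
        · rw [h0, if_neg (by omega), Nat.choose_eq_zero_of_lt h2]; simp
    obtain ⟨Q, hQ, hQe⟩ := ih (by omega) _ hdeg
    refine ⟨Q + C a * X ^ (d + 1), ?_, ?_⟩
    · refine (natDegree_add_le _ _).trans (max_le (by omega) ?_)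
      exact natDegree_C_mul_X_pow_le _ _
    · simp only [add_comp, mul_comp, C_comp, pow_comp, X_comp]
      linear_combination hQe

theorem sum_range_zmod (p : ℕ) [NeZero p] {M : Type*} [AddCommMonoid M] (f : ZMod p → M) :
    ∑ i ∈ range p, f (i : ZMod p) = ∑ y, f y := by
  refine Finset.sum_nbij' (fun i : ℕ => (i : ZMod p)) (fun y => y.val) ?_ ?_ ?_ ?_ ?_
  · intro i _; simp
  · intro y _; simp [ZMod.val_lt]
  · intro i hi; simp only [mem_range] at hi; exact ZMod.val_cast_of_lt hi
  · intro y _; simp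
  · intro i _; rfl

theorem key (p : ℕ) [hp : Fact p.Prime] (hp3 : 3 ≤ p) (m q : ℕ) (hm : 3 ≤ m)
    (hd : m * q + 2 ≤ p) (hev : Even (m * q)) :
    ∑ j ∈ range p, (∏ i ∈ range q, ((j : ZMod p) - i)) ^ m *
      ∑ i ∈ range j, ((i : ZMod p) + 1) ^ (p - 3) = 0 := by
  set D : (ZMod p)[X] := ∏ i ∈ range q, (X - C (i : ZMod p)) with hD
  have hDev : ∀ y, D.eval y = ∏ i ∈ range q, (y - i) := by
    intro y; simp [hD, eval_prod]
  have hDdeg : D.natDegree ≤ q := by
    refine (natDegree_prod_le _ _).trans ?_
    refine (Finset.sum_le_sum (g := fun _ => 1) (fun i _ => (natDegree_X_sub_C _).le)).trans (by simp)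
  have hPdeg : (D ^ m).natDegree ≤ m * q :=
    natDegree_pow_le.trans (Nat.mul_le_mul_left _ hDdeg)
  have hF : ∀ e : ℕ, 0 < e → e < p → (e : ZMod p) ≠ 0 := by
    intro e h0 h1 h
    rw [ZMod.natCast_eq_zero_iff] at h
    exact absurd (Nat.le_of_dvd h0 h) (by omega)
  obtain ⟨Q0, hQ0, hQ0e⟩ := antidiff p hF (m * q + 1) (by omega) (D ^ m)
    (lt_of_le_of_lt degree_le_natDegree (by exact_mod_cast (by omega)))
  set Q : (ZMod p)[X] := Q0 - C (Q0.eval 0) with hQ
  have hQdeg : Q.natDegree ≤ p - 1 := by
    rw [hQ, natDegree_sub_C]; omega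
  have hQe : Q.comp (X + 1) - Q = D ^ m := by
    rw [hQ]; simp only [sub_comp, C_comp]; linear_combination hQ0e
  have hQz : Q.eval 0 = 0 := by simp [hQ]
  have hstep : ∀ y, Q.eval (y + 1) - Q.eval y = (D.eval y) ^ m := by
    intro y
    have := congrArg (eval y) hQe
    simpa [eval_comp] using this
  have hsym : ∀ y : ZMod p, (D.eval ((q : ZMod p) - (y + 1))) ^ m = (D.eval y) ^ m := by
    intro y
    rw [hDev, hDev, ← Finset.prod_range_reflect]
    have : ∏ j ∈ range q, ((q : ZMod p) - (y + 1) - ((q - 1 - j : ℕ) : ZMod p))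
        = ∏ j ∈ range q, (-1 * (y - j)) := by
      refine Finset.prod_congr rfl fun j hj => ?_
      simp only [mem_range] at hj
      have h1 : q = (q - 1 - j) + j + 1 := by omega
      have h2 : (q : ZMod p) = ((q - 1 - j : ℕ) : ZMod p) + j + 1 := by
        conv_lhs => rw [h1]
        push_cast; ring
      linear_combination h2
    rw [this, Finset.prod_mul_distrib, mul_pow, Finset.prod_const, card_range, ← pow_mul,
      mul_comm q m, hev.neg_one_pow, one_mul]
  set R : (ZMod p)[X] := Q + Q.comp (C (q : ZMod p) - X) with hR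
  have hRev : ∀ y, R.eval y = Q.eval y + Q.eval (q - y) := by
    intro y; simp [hR, eval_comp]
  have hRstep : ∀ y, R.eval (y + 1) = R.eval y := by
    intro y
    rw [hRev, hRev]
    have h1 := hstep y
    have h2 := hstep (q - (y + 1))
    rw [hsym, show (q : ZMod p) - (y + 1) + 1 = q - y by ring] at h2
    linear_combination h1 - h2
  have hRn : ∀ n : ℕ, R.eval (n : ZMod p) = R.eval 0 := by
    intro n
    induction n with
    | zero => simp
    | succ n ih => push_cast; rw [hRstep, ih]
  have hRdeg : R.natDegree ≤ p - 1 := by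
    refine (natDegree_add_le _ _).trans (max_le hQdeg ?_)
    refine natDegree_comp_le.trans ?_
    have : (C (q : ZMod p) - X).natDegree ≤ 1 := by
      refine (natDegree_sub_le _ _).trans (by simp)
    calc _ ≤ (p - 1) * 1 := Nat.mul_le_mul hQdeg this
      _ = _ := by ring
  have hRc : R - C (R.eval 0) = 0 := by
    apply Polynomial.eq_zero_of_natDegree_lt_card_of_eval_eq_zero (ι := ZMod p) _
      (f := id) Function.injective_id
    · intro y
      have := hRn y.val
      simp only [ZMod.natCast_val, ZMod.cast_id', id_eq] at this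
      simp [this]
    · rw [natDegree_sub_C, ZMod.card]; omega
  set Q2 := derivative (derivative Q) with hQ2
  have hA : Q2.eval 0 + Q2.eval (q : ZMod p) = 0 := by
    have := congrArg (fun T => eval 0 (derivative (derivative T))) hRc
    simp only [hR, derivative_sub, derivative_add, derivative_comp, derivative_C, derivative_X,
      derivative_mul, derivative_zero, derivative_one, eval_add, eval_sub, eval_mul, eval_comp,
      eval_zero, eval_one, eval_C, eval_X, sub_zero] at this
    linear_combination this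
  have hB : ∀ y, D.eval y = 0 → Q2.eval (y + 1) = Q2.eval y := by
    intro y hy
    obtain ⟨k, rfl⟩ : ∃ k, m = k + 3 := ⟨m - 3, by omega⟩
    have := congrArg (fun T => eval y (derivative (derivative T))) hQe
    simp only [derivative_sub, derivative_add, derivative_comp, derivative_C, derivative_X,
      derivative_mul, derivative_zero, derivative_one, eval_add, eval_sub, eval_mul, eval_comp,
      eval_zero, eval_one, eval_C, eval_X, derivative_pow, eval_pow, hy,
      show k + 3 - 1 = k + 2 by omega, show k + 2 - 1 = k + 1 by omega] at this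
    simp only [pow_succ, mul_zero, zero_mul, add_zero] at this
    linear_combination this
  have hC : ∀ n : ℕ, n ≤ q → Q2.eval (n : ZMod p) = Q2.eval 0 := by
    intro n
    induction n with
    | zero => simp
    | succ n ih =>
      intro hn
      push_cast
      rw [hB, ih (by omega)]
      rw [hDev]
      exact Finset.prod_eq_zero (i := n) (by simp; omega) (by simp)
  have h2ne : (2 : ZMod p) ≠ 0 := by exact_mod_cast hF 2 (by omega) (by omega)
  have hc2 : Q.coeff 2 = 0 := by
    have h1 : Q2.eval 0 = 0 := by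
      rw [hC q le_rfl] at hA
      have : 2 * Q2.eval 0 = 0 := by linear_combination hA
      exact (mul_eq_zero.1 this).resolve_left h2ne
    rw [← coeff_zero_eq_eval_zero, hQ2, coeff_derivative, coeff_derivative] at h1
    have : 2 * Q.coeff 2 = 0 := by
      simp only [Nat.cast_zero, zero_add, mul_one, Nat.cast_one] at h1
      linear_combination h1
    exact (mul_eq_zero.1 this).resolve_left h2ne
  have hc0 : Q.coeff 0 = 0 := by rw [coeff_zero_eq_eval_zero, hQz]
  have hparts : ∀ N : ℕ, ∑ j ∈ range N, (∏ i ∈ range q, ((j : ZMod p) - i)) ^ m *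
      ∑ i ∈ range j, ((i : ZMod p) + 1) ^ (p - 3) =
      Q.eval (N : ZMod p) * ∑ i ∈ range N, ((i : ZMod p) + 1) ^ (p - 3)
        - ∑ i ∈ range N, Q.eval ((i : ZMod p) + 1) * ((i : ZMod p) + 1) ^ (p - 3) := by
    intro N
    induction N with
    | zero => simp
    | succ N ih =>
      rw [sum_range_succ, ih, sum_range_succ, sum_range_succ, ← hDev, ← hstep]
      push_cast; ring
  rw [hparts, ZMod.natCast_self, hQz, zero_mul, zero_sub, neg_eq_zero,
    sum_range_zmod p (fun y => Q.eval (y + 1) * (y + 1) ^ (p - 3))]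
  have hshift := Equiv.sum_comp (Equiv.addRight (1 : ZMod p)) (fun y => Q.eval y * y ^ (p - 3))
  simp only [Equiv.coe_addRight] at hshift
  rw [hshift]
  have hexp : ∀ y : ZMod p, Q.eval y * y ^ (p - 3)
      = ∑ e ∈ range p, Q.coeff e * y ^ (e + (p - 3)) := by
    intro y
    rw [eval_eq_sum_range' (n := p) (by omega), Finset.sum_mul]
    refine Finset.sum_congr rfl fun e _ => ?_
    rw [pow_add, mul_assoc]
  simp_rw [hexp]
  rw [Finset.sum_comm]
  refine Finset.sum_eq_zero fun e he => ?_
  simp only [mem_range] at he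
  rw [← Finset.mul_sum]
  rcases (by omega : e = 0 ∨ e = 1 ∨ e = 2 ∨ 3 ≤ e) with h | h | h | h
  · rw [h, hc0, zero_mul]
  · rw [FiniteField.sum_pow_lt_card_sub_one _ _ (by rw [ZMod.card]; omega), mul_zero]
  · rw [h, hc2, zero_mul]
  · have : ∀ y : ZMod p, y ^ (e + (p - 3)) = y ^ (e - 2) := by
      intro y
      rw [show e + (p - 3) = p + (e - 3) by omega, pow_add, ZMod.pow_card,
        show e - 2 = (e - 3) + 1 by omega, pow_succ]
      ring
    simp_rw [this]
    rw [FiniteField.sum_pow_lt_card_sub_one _ _ (by rw [ZMod.card]; omega), mul_zero]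

theorem altsum (N m q : ℕ) (hN : Even N) (hd : m * q < N) :
    ∑ j ∈ range (N + 1), ((-1 : ℚ) ^ j * (N.choose j : ℚ)) *
      (∏ i ∈ range q, ((j : ℚ) - i)) ^ m = 0 := by
  set D : ℚ[X] := ∏ i ∈ range q, (X - C (i : ℚ)) with hD
  have hDev : ∀ y, D.eval y = ∏ i ∈ range q, (y - i) := by
    intro y; simp [hD, eval_prod]
  have hDdeg : D.natDegree ≤ q := by
    refine (natDegree_prod_le _ _).trans ?_
    refine (Finset.sum_le_sum (g := fun _ => 1) (fun i _ => (natDegree_X_sub_C _).le)).trans (by simp)
  have hPdeg : (D ^ m).natDegree < N :=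
    lt_of_le_of_lt (natDegree_pow_le.trans (Nat.mul_le_mul_left _ hDdeg)) hd
  have h := congrFun (Polynomial.fwdDiff_iter_eq_zero_of_degree_lt hPdeg) 0
  rw [fwdDiff_iter_eq_sum_shift, Pi.zero_apply] at h
  refine Eq.trans (Finset.sum_congr rfl fun j hj => ?_) h
  simp only [mem_range] at hj
  have hs : (-1 : ℚ) ^ (N - j) = (-1) ^ j := by
    have : (-1 : ℚ) ^ (N - j) * (-1) ^ j = 1 := by
      rw [← pow_add, Nat.sub_add_cancel (by omega), hN.neg_one_pow]
    have h2 : (-1 : ℚ) ^ j * (-1) ^ j = 1 := by rw [← mul_pow]; simp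
    linear_combination (-1 : ℚ) ^ j * this - (-1 : ℚ) ^ (N - j) * h2
  simp [hDev, hs]

end Pool.Agent.H56.Sb1
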