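import Mathlib
import Pool.Agent.H56.Sb1

namespace Pool.Agent.H56.Sb2
open Finset

/-- rationals with a denominator prime to `p`. -/
def Zp (p : ℕ) [hp : Fact p.Prime] : Subring ℚ where
  carrier := {x | ∃ a b : ℤ, ¬ (p : ℤ) ∣ b ∧ x = a / b}
  one_mem' := ⟨1, 1, (Nat.prime_iff_prime_int.1 hp.out).not_dvd_one, by simp⟩
  zero_mem' := ⟨0, 1, (Nat.prime_iff_prime_int.1 hp.out).not_dvd_one, by simp⟩
  mul_mem' := by
    rintro _ _ ⟨a, b, hb, rfl⟩ ⟨c, d, hd, rfl⟩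
    refine ⟨a * c, b * d, fun h => ?_, by push_cast; rw [div_mul_div_comm]⟩
    rcases (Nat.prime_iff_prime_int.1 hp.out).dvd_or_dvd h with h | h <;> contradiction
  add_mem' := by
    rintro _ _ ⟨a, b, hb, rfl⟩ ⟨c, d, hd, rfl⟩
    have hb0 : (b : ℚ) ≠ 0 := by rintro h; apply hb; have : b = 0 := by exact_mod_cast h
                                 simp [this]
    have hd0 : (d : ℚ) ≠ 0 := by rintro h; apply hd; have : d = 0 := by exact_mod_cast h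
                                 simp [this]
    refine ⟨a * d + b * c, b * d, fun h => ?_, by push_cast; field_simp⟩
    rcases (Nat.prime_iff_prime_int.1 hp.out).dvd_or_dvd h with h | h <;> contradiction
  neg_mem' := by
    rintro _ ⟨a, b, hb, rfl⟩
    exact ⟨-a, b, hb, by push_cast; ring⟩

variable {p : ℕ} [hp : Fact p.Prime]

theorem inv_mem_int (b : ℤ) (hb : ¬ (p : ℤ) ∣ b) : ((b : ℚ))⁻¹ ∈ Zp p :=
  ⟨1, b, hb, by simp⟩

theorem inv_mem_nat (b : ℕ) (h0 : 0 < b) (hb : b < p) : ((b : ℚ))⁻¹ ∈ Zp p := by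
  have := inv_mem_int (p := p) (b : ℤ) (fun h => by
    have := Nat.le_of_dvd h0 (Int.natCast_dvd_natCast.1 h); omega)
  simpa using this

theorem binom3 (R : Subring ℚ) (y : ℚ) (hy : y ∈ R) (m : ℕ) :
    ∃ z ∈ R, (1 - y) ^ m = 1 - m * y + (m.choose 2 : ℚ) * y ^ 2 + y ^ 3 * z := by
  induction m with
  | zero => exact ⟨0, R.zero_mem, by simp⟩
  | succ m ih =>
    obtain ⟨z, hz, h⟩ := ih
    refine ⟨z - (m.choose 2 : ℚ) - y * z,
      R.sub_mem (R.sub_mem hz (natCast_mem R _)) (R.mul_mem hy hz), ?_⟩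
    rw [pow_succ, h, Nat.choose_succ_succ' m 1, Nat.choose_one_right]
    push_cast; ring

theorem expand (m : ℕ) (hm0 : 0 < m) (hm : ((m : ℚ))⁻¹ ∈ Zp p) (j : ℕ) (hj : j < p) :
    ∃ z ∈ Zp p, ∃ g ∈ Zp p, (∑ i ∈ range j, (((i : ℚ) + 1)⁻¹) ^ 2) ∈ Zp p ∧
      ∏ i ∈ range j, (1 - (p : ℚ) * ((i : ℚ) + 1)⁻¹) = 1 + p * g ∧
      (∏ i ∈ range j, (1 - (p : ℚ) / m * ((i : ℚ) + 1)⁻¹)) ^ m =
        ∏ i ∈ range j, (1 - (p : ℚ) * ((i : ℚ) + 1)⁻¹) +
          (p : ℚ) ^ 2 * ((m.choose 2 : ℚ) * ((m : ℚ)⁻¹) ^ 2) *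
            (∑ i ∈ range j, (((i : ℚ) + 1)⁻¹) ^ 2) + (p : ℚ) ^ 3 * z := by
  induction j with
  | zero => exact ⟨0, zero_mem _, 0, zero_mem _, by simp, by simp, by simp⟩
  | succ j ih =>
    obtain ⟨z, hz, g, hg, hH, hG, h⟩ := ih (by omega)
    have hw : ((j : ℚ) + 1)⁻¹ ∈ Zp p := by
      have := inv_mem_nat (p := p) (j + 1) (by omega) hj
      simpa using this
    have hpm : (p : ℚ) ∈ Zp p := natCast_mem _ _
    set w := ((j : ℚ) + 1)⁻¹ with hwdef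
    set H := ∑ i ∈ range j, (((i : ℚ) + 1)⁻¹) ^ 2 with hHdef
    set mi := ((m : ℚ))⁻¹ with hmi
    have hl : (m.choose 2 : ℚ) * mi ^ 2 ∈ Zp p := mul_mem (natCast_mem _ _) (pow_mem hm _)
    set l := (m.choose 2 : ℚ) * mi ^ 2 with hldef
    obtain ⟨z', hz', h'⟩ := binom3 (Zp p) ((p : ℚ) * mi * w) (mul_mem (mul_mem hpm hm) hw) m
    have hm1 : (m : ℚ) * mi = 1 := mul_inv_cancel₀ (by exact_mod_cast hm0.ne')
    have hf : (1 - (p : ℚ) / m * w) ^ m
        = 1 - p * w + (p : ℚ) ^ 2 * l * w ^ 2 + (p : ℚ) ^ 3 * (mi ^ 3 * w ^ 3 * z') := by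
      rw [div_eq_mul_inv, ← hmi, h', hldef]
      linear_combination (-(p : ℚ) * w) * hm1
    have hz2 : mi ^ 3 * w ^ 3 * z' ∈ Zp p := mul_mem (mul_mem (pow_mem hm _) (pow_mem hw _)) hz'
    set z2 := mi ^ 3 * w ^ 3 * z' with hz2def
    refine ⟨g * l * w ^ 2 + (1 + p * g) * z2 - l * H * w + p * l * H * (l * w ^ 2 + p * z2)
      + z * (1 - p * w + (p : ℚ) ^ 2 * l * w ^ 2 + (p : ℚ) ^ 3 * z2), ?_,
      g - w - p * g * w, ?_, ?_, ?_, ?_⟩
    · have h1 : (1 : ℚ) ∈ Zp p := one_mem _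
      refine add_mem (add_mem (sub_mem (add_mem ?_ ?_) ?_) ?_) ?_
      · exact mul_mem (mul_mem hg hl) (pow_mem hw _)
      · exact mul_mem (add_mem h1 (mul_mem hpm hg)) hz2
      · exact mul_mem (mul_mem hl hH) hw
      · exact mul_mem (mul_mem (mul_mem hpm hl) hH)
          (add_mem (mul_mem hl (pow_mem hw _)) (mul_mem hpm hz2))
      · exact mul_mem hz (add_mem (add_mem (sub_mem h1 (mul_mem hpm hw))
          (mul_mem (mul_mem (pow_mem hpm _) hl) (pow_mem hw _))) (mul_mem (pow_mem hpm _) hz2))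
    · exact sub_mem (sub_mem hg hw) (mul_mem (mul_mem hpm hg) hw)
    · rw [sum_range_succ]; exact add_mem hH (pow_mem hw _)
    · rw [prod_range_succ, hG]; ring
    · rw [prod_range_succ, prod_range_succ, sum_range_succ, mul_pow, h, hf, hG]; ring

theorem prod_choose (N j : ℕ) (hj : j ≤ N) :
    ∏ i ∈ range j, (1 - ((N + 1 : ℕ) : ℚ) * ((i : ℚ) + 1)⁻¹) = (-1) ^ j * (N.choose j : ℚ) := by
  induction j with
  | zero => simp
  | succ j ih =>
    rw [prod_range_succ, ih (by omega)]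
    have h := Nat.choose_succ_right_eq N j
    have h2 : (N.choose (j + 1) : ℚ) * ((j : ℚ) + 1) = N.choose j * ((N : ℚ) - j) := by
      have := congrArg (fun x : ℕ => (x : ℚ)) h
      simp only [Nat.cast_mul, Nat.cast_sub (show j ≤ N by omega)] at this
      exact_mod_cast this
    have h3 : ((j : ℚ) + 1) ≠ 0 := by positivity
    field_simp
    push_cast
    linear_combination (-1 : ℚ) ^ j * h2

theorem hsum (hp3 : 3 ≤ p) (m q : ℕ) (hm : 3 ≤ m) (hd : m * q + 2 ≤ p) (hev : Even (m * q)) :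
    ∃ z ∈ Zp p, ∑ j ∈ range p, (∏ i ∈ range q, ((j : ℚ) - i)) ^ m *
      (∑ i ∈ range j, (((i : ℚ) + 1)⁻¹) ^ 2) = p * z := by
  have hk := Sb1.key p hp3 m q hm hd hev
  have hint : (p : ℤ) ∣ ∑ j ∈ range p, (∏ i ∈ range q, ((j : ℤ) - i)) ^ m *
      ∑ i ∈ range j, ((i : ℤ) + 1) ^ (p - 3) := by
    rw [← ZMod.intCast_zmod_eq_zero_iff_dvd]
    push_cast
    exact hk
  obtain ⟨c, hc⟩ := hint
  have hcq := congrArg (fun x : ℤ => (x : ℚ)) hc
  push_cast at hcq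
  have hterm : ∀ i, ∃ z, z ∈ Zp p ∧ (i + 1 < p →
      (((i : ℚ) + 1)⁻¹) ^ 2 = ((i : ℚ) + 1) ^ (p - 3) + p * z) := by
    intro i
    by_cases hi : i + 1 < p
    · have hw : ((i : ℚ) + 1)⁻¹ ∈ Zp p := by
        have := inv_mem_nat (p := p) (i + 1) (by omega) hi
        simpa using this
      have hdv : (p : ℤ) ∣ 1 - ((i : ℤ) + 1) ^ (p - 1) := by
        rw [← ZMod.intCast_zmod_eq_zero_iff_dvd]
        push_cast
        have hne : ((i : ZMod p) + 1) ≠ 0 := by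
          intro h
          have h' : ((i + 1 : ℕ) : ZMod p) = 0 := by exact_mod_cast h
          rw [ZMod.natCast_eq_zero_iff] at h'
          exact absurd (Nat.le_of_dvd (by omega) h') (by omega)
        rw [ZMod.pow_card_sub_one_eq_one hne, sub_self]
      obtain ⟨e, he⟩ := hdv
      have heq := congrArg (fun x : ℤ => (x : ℚ)) he
      push_cast at heq
      refine ⟨e * (((i : ℚ) + 1)⁻¹) ^ 2, mul_mem (intCast_mem _ _) (pow_mem hw _), fun _ => ?_⟩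
      rw [show p - 1 = (p - 3) + 2 by omega, pow_add] at heq
      have h3 : ((i : ℚ) + 1) ≠ 0 := by positivity
      field_simp
      linear_combination heq
    · exact ⟨0, zero_mem _, fun h => absurd h hi⟩
  choose z hz hzeq using hterm
  refine ⟨c + ∑ j ∈ range p, (∏ i ∈ range q, ((j : ℚ) - i)) ^ m * ∑ i ∈ range j, z i, ?_, ?_⟩
  · refine add_mem (intCast_mem _ _) (sum_mem fun j _ => mul_mem (pow_mem (prod_mem fun i _ =>
      sub_mem (natCast_mem _ _) (natCast_mem _ _)) _) (sum_mem fun i _ => hz i))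
  · rw [mul_add, ← hcq, Finset.mul_sum, ← Finset.sum_add_distrib]
    refine Finset.sum_congr rfl fun j hj => ?_
    simp only [mem_range] at hj
    have : ∑ i ∈ range j, (((i : ℚ) + 1)⁻¹) ^ 2
        = ∑ i ∈ range j, ((i : ℚ) + 1) ^ (p - 3) + p * ∑ i ∈ range j, z i := by
      rw [Finset.mul_sum, ← Finset.sum_add_distrib]
      refine Finset.sum_congr rfl fun i hi => hzeq i ?_
      simp only [mem_range] at hi; omega
    rw [this]; ring

theorem core (hp3 : 3 ≤ p) (hodd : Odd p) (m q : ℕ) (hm : 3 ≤ m) (hmi : ((m : ℚ))⁻¹ ∈ Zp p)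
    (hd : m * q + 2 ≤ p) (hev : Even (m * q)) :
    ∃ z ∈ Zp p, ∑ j ∈ range p, (∏ i ∈ range j, (1 - (p : ℚ) / m * ((i : ℚ) + 1)⁻¹)) ^ m *
      (∏ i ∈ range q, ((j : ℚ) - i)) ^ m = (p : ℚ) ^ 3 * z := by
  obtain ⟨z1, hz1, h1⟩ := hsum hp3 m q hm hd hev
  have hex : ∀ j, ∃ z, z ∈ Zp p ∧ (j < p →
      (∏ i ∈ range j, (1 - (p : ℚ) / m * ((i : ℚ) + 1)⁻¹)) ^ m =
        (-1) ^ j * ((p - 1).choose j : ℚ) +
          (p : ℚ) ^ 2 * ((m.choose 2 : ℚ) * ((m : ℚ)⁻¹) ^ 2) *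
            (∑ i ∈ range j, (((i : ℚ) + 1)⁻¹) ^ 2) + (p : ℚ) ^ 3 * z) := by
    intro j
    by_cases hj : j < p
    · obtain ⟨z, hz, g, _, _, _, h⟩ := expand (p := p) m (by omega) hmi j hj
      refine ⟨z, hz, fun _ => ?_⟩
      have := prod_choose (p - 1) j (by omega)
      rw [show p - 1 + 1 = p by omega] at this
      rw [h, this]
    · exact ⟨0, zero_mem _, fun h => absurd h hj⟩
  choose z hz hzeq using hex
  have h0 := Sb1.altsum (p - 1) m q (by obtain ⟨k, hk⟩ := hodd; exact ⟨k, by omega⟩) (by omega)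
  rw [show p - 1 + 1 = p by omega] at h0
  refine ⟨((m.choose 2 : ℚ) * ((m : ℚ)⁻¹) ^ 2) * z1 +
    ∑ j ∈ range p, z j * (∏ i ∈ range q, ((j : ℚ) - i)) ^ m, ?_, ?_⟩
  · refine add_mem (mul_mem (mul_mem (natCast_mem _ _) (pow_mem hmi _)) hz1)
      (sum_mem fun j _ => mul_mem (hz j) (pow_mem (prod_mem fun i _ =>
      sub_mem (natCast_mem _ _) (natCast_mem _ _)) _))
  · have : ∑ j ∈ range p, (∏ i ∈ range j, (1 - (p : ℚ) / m * ((i : ℚ) + 1)⁻¹)) ^ m *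
        (∏ i ∈ range q, ((j : ℚ) - i)) ^ m =
        ∑ j ∈ range p, ((-1 : ℚ) ^ j * ((p - 1).choose j : ℚ)) * (∏ i ∈ range q, ((j : ℚ) - i)) ^ m
        + (p : ℚ) ^ 2 * ((m.choose 2 : ℚ) * ((m : ℚ)⁻¹) ^ 2) *
          ∑ j ∈ range p, (∏ i ∈ range q, ((j : ℚ) - i)) ^ m *
            (∑ i ∈ range j, (((i : ℚ) + 1)⁻¹) ^ 2)
        + (p : ℚ) ^ 3 * ∑ j ∈ range p, z j * (∏ i ∈ range q, ((j : ℚ) - i)) ^ m := by
      rw [Finset.mul_sum, Finset.mul_sum, ← Finset.sum_add_distrib, ← Finset.sum_add_distrib]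
      refine Finset.sum_congr rfl fun j hj => ?_
      rw [hzeq j (mem_range.1 hj)]; ring
    rw [this, h0, h1]; ring

end Pool.Agent.H56.Sb2
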