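import Mathlib
import Pool.Agent.H56.Sb2

namespace Pool.Agent.H56.Sb3
open Finset Pool.Agent.H56.Sb2

def poch (x : ℚ) (k : ℕ) : ℚ := ∏ j ∈ range k, (x + j)

theorem poch_succ (x : ℚ) (k : ℕ) : poch x (k + 1) = poch x k * (x + k) := prod_range_succ _ _

theorem poch_pos {x : ℚ} (hx : 0 < x) (k : ℕ) : 0 < poch x k :=
  prod_pos fun j _ => by positivity

def B (c : ℚ) (k : ℕ) : ℚ :=
  poch (1/3) k * (-1) ^ k * poch c k * poch (1/2) k /
    (k.factorial * poch (4/3 - c) k * poch (5/6) k)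

theorem wz (c : ℚ) (hc : ∀ j : ℕ, 4/3 - c + j ≠ 0) (n : ℕ) :
    ∑ k ∈ range (n + 1), (1/3 + 2 * k) * B c k / ((n - k).factorial * poch (4/3) (n + k))
      = 1/3 * poch (5/6 - c) n / (n.factorial * poch (4/3 - c) n * poch (5/6) n) := by
  have hpc : ∀ k, poch (4/3 - c) k ≠ 0 := fun k => prod_ne_zero_iff.2 fun j _ => hc j
  induction n with
  | zero => simp [B, poch]
  | succ n ih =>
    set G : ℕ → ℚ := fun k => -(B c k * k * (1/3 - c + k) * (k - 1/6) * (1/3 + (n + 1) + k)) /
      ((n + 1 - k).factorial * poch (4/3) (n + 1 + k)) with hG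
    have hstep : ∀ k ∈ range (n + 1),
        (n + 1) * (4/3 - c + n) * (5/6 + n) *
          ((1/3 + 2 * k) * B c k / ((n + 1 - k).factorial * poch (4/3) (n + 1 + k)))
        - (5/6 - c + n) * ((1/3 + 2 * k) * B c k / ((n - k).factorial * poch (4/3) (n + k)))
        = G (k + 1) - G k := by
      intro k hk
      have hk' : k ≤ n := by simpa [Nat.lt_succ_iff] using hk
      obtain ⟨d, rfl⟩ : ∃ d, n = k + d := ⟨n - k, by omega⟩
      have hB : B c (k + 1) = B c k * (-((1/3 + k) * (c + k) * (1/2 + k))) /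
          ((k + 1) * (4/3 - c + k) * (5/6 + k)) := by
        have h1 := hpc k
        have h2 := (poch_pos (x := 5/6) (by norm_num) k).ne'
        have h3 := hc k
        have h4 : (k.factorial : ℚ) ≠ 0 := by positivity
        simp only [B, poch_succ, Nat.factorial_succ, pow_succ]
        push_cast
        field_simp
      simp only [hG]
      rw [hB, show k + d + 1 - k = d + 1 by omega, show k + d - k = d by omega,
        show k + d + 1 - (k + 1) = d by omega, show k + d + 1 + (k + 1) = (k + d + k) + 1 + 1 by ring,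
        show k + d + 1 + k = (k + d + k) + 1 by ring]
      simp only [poch_succ (4/3), Nat.factorial_succ]
      push_cast
      have h2 := (poch_pos (x := 4/3) (by norm_num) (k + d + k)).ne'
      have h3 := hc k
      have h4 : (d.factorial : ℚ) ≠ 0 := by positivity
      generalize poch (4/3) (k + d + k) = P at *
      generalize B c k = b
      generalize (d.factorial : ℚ) = D at *
      have e1 : (4/3 - c + k : ℚ) = 1/3 - c + (k + 1) := by ring
      rw [e1] at h3 ⊢
      have e2 : ((k : ℚ) + 1 - 1/6) = 5/6 + k := by ring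
      have e3 : (1/3 + ((k : ℚ) + d + 1) + (k + 1)) = 4/3 + (k + d + k + 1) := by ring
      rw [e2, e3]
      generalize hu : (1/3 - c + ((k : ℚ) + 1)) = u at *
      have hc' : c = 4/3 + k - u := by linarith
      subst hc'
      field_simp
      ring
    have hs := Finset.sum_congr rfl hstep
    rw [Finset.sum_range_sub, Finset.sum_sub_distrib, ← Finset.mul_sum, ← Finset.mul_sum, ih] at hs
    rw [sum_range_succ]
    have hG0 : G 0 = 0 := by simp [hG]
    rw [hG0] at hs
    simp only [hG] at hs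
    have h1 := hpc n
    have h2 := (poch_pos (x := 5/6) (by norm_num) n).ne'
    have h3 := hc n
    have h4 : (n.factorial : ℚ) ≠ 0 := by positivity
    have h5 : ((n : ℚ) + 1) * (4/3 - c + n) * (5/6 + n) ≠ 0 := by
      refine mul_ne_zero (mul_ne_zero (by positivity) h3) (by positivity)
    apply mul_left_cancel₀ h5
    rw [mul_add, poch_succ, poch_succ, poch_succ, Nat.factorial_succ n]
    have e : ((n : ℚ) + 1) * (4/3 - c + n) * (5/6 + n) * (1/3 * (poch (5/6 - c) n * (5/6 - c + n)) /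
        ((((n + 1) * n.factorial : ℕ) : ℚ) * (poch (4/3 - c) n * (4/3 - c + n)) *
          (poch (5/6) n * (5/6 + n)))) = (5/6 - c + n) *
          (1/3 * poch (5/6 - c) n / (n.factorial * poch (4/3 - c) n * poch (5/6) n)) := by
      generalize (4/3 - c + n : ℚ) = u at *
      push_cast
      field_simp
    rw [e]
    push_cast at hs ⊢
    linear_combination hs

variable {p : ℕ} [hp : Fact p.Prime]

/-- congruence mod `p` between `p`-integral rationals -/
def Cg (p : ℕ) [Fact p.Prime] (x y : ℚ) : Prop :=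
  x ∈ Zp p ∧ y ∈ Zp p ∧ ∃ z ∈ Zp p, x - y = p * z

theorem Cg.refl {x : ℚ} (hx : x ∈ Zp p) : Cg p x x := ⟨hx, hx, 0, zero_mem _, by simp⟩

theorem Cg.add {x y u v : ℚ} (h : Cg p x y) (h' : Cg p u v) : Cg p (x + u) (y + v) := by
  obtain ⟨a, b, z, hz, e⟩ := h
  obtain ⟨a', b', z', hz', e'⟩ := h'
  exact ⟨add_mem a a', add_mem b b', z + z', add_mem hz hz', by linear_combination e + e'⟩

theorem Cg.sub {x y u v : ℚ} (h : Cg p x y) (h' : Cg p u v) : Cg p (x - u) (y - v) := by
  obtain ⟨a, b, z, hz, e⟩ := h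
  obtain ⟨a', b', z', hz', e'⟩ := h'
  exact ⟨sub_mem a a', sub_mem b b', z - z', sub_mem hz hz', by linear_combination e - e'⟩

theorem Cg.mul {x y u v : ℚ} (h : Cg p x y) (h' : Cg p u v) : Cg p (x * u) (y * v) := by
  obtain ⟨a, b, z, hz, e⟩ := h
  obtain ⟨a', b', z', hz', e'⟩ := h'
  exact ⟨mul_mem a a', mul_mem b b', z * u + y * z', add_mem (mul_mem hz a') (mul_mem b hz'),
    by linear_combination u * e + y * e'⟩

theorem Cg.pow {x y : ℚ} (h : Cg p x y) (n : ℕ) : Cg p (x ^ n) (y ^ n) := by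
  induction n with
  | zero => simpa using Cg.refl (one_mem _)
  | succ n ih => rw [pow_succ, pow_succ]; exact ih.mul h

theorem Cg.inv {x y : ℚ} (h : Cg p x y) (hx : x ≠ 0) (hy : y ≠ 0) (hx' : x⁻¹ ∈ Zp p)
    (hy' : y⁻¹ ∈ Zp p) : Cg p x⁻¹ y⁻¹ := by
  obtain ⟨_, _, z, hz, e⟩ := h
  refine ⟨hx', hy', -(z * x⁻¹ * y⁻¹), neg_mem (mul_mem (mul_mem hz hx') hy'), ?_⟩
  field_simp
  linear_combination -e

theorem Cg.prod {f g : ℕ → ℚ} (k : ℕ) (h : ∀ j < k, Cg p (f j) (g j)) :
    Cg p (∏ j ∈ range k, f j) (∏ j ∈ range k, g j) := by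
  induction k with
  | zero => simpa using Cg.refl (one_mem _)
  | succ k ih =>
    rw [prod_range_succ, prod_range_succ]
    exact (ih fun j hj => h j (by omega)).mul (h k (by omega))

theorem Cg.sum {f g : ℕ → ℚ} (k : ℕ) (h : ∀ j < k, Cg p (f j) (g j)) :
    Cg p (∑ j ∈ range k, f j) (∑ j ∈ range k, g j) := by
  induction k with
  | zero => simpa using Cg.refl (zero_mem _)
  | succ k ih =>
    rw [sum_range_succ, sum_range_succ]
    exact (ih fun j hj => h j (by omega)).add (h k (by omega))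

/-- `a / b` is a unit when `p` divides neither. -/
theorem inv_frac (x : ℚ) (a b : ℤ) (ha : ¬ (p : ℤ) ∣ a) (hb : b ≠ 0) (hx : x * b = a) :
    x ≠ 0 ∧ x⁻¹ ∈ Zp p := by
  have ha0 : (a : ℚ) ≠ 0 := by
    intro h; apply ha
    have : a = 0 := by exact_mod_cast h
    simp [this]
  have hb0 : (b : ℚ) ≠ 0 := by exact_mod_cast hb
  have hx0 : x ≠ 0 := by rintro rfl; apply ha0; rw [← hx]; simp
  refine ⟨hx0, b, a, ha, ?_⟩
  rw [← hx]; field_simp

theorem antisym (n : ℕ) (hn : Even n) (ρ σ : ℕ → ℚ) (hρ : ∀ j < n, ρ (n - 1 - j) * ρ j = 1)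
    (hσ : ∀ j < n, σ (n - 1 - j) = -σ j) :
    ∑ k ∈ range (n + 1), (2 * (k : ℚ) - n) * (∏ j ∈ range k, ρ j) * ∑ j ∈ range k, σ j = 0 := by
  have hw : ∀ k ≤ n, ∏ j ∈ range (n - k), ρ j = (∏ j ∈ range n, ρ j) * ∏ j ∈ range k, ρ j := by
    intro k
    induction k with
    | zero => simp
    | succ k ih =>
      intro hk
      have h1 := ih (by omega)
      rw [show n - k = (n - 1 - k) + 1 by omega, prod_range_succ] at h1
      rw [prod_range_succ _ k, show n - (k + 1) = n - 1 - k by omega, ← mul_assoc, ← h1, mul_assoc,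
        hρ k (by omega), mul_one]
  have hh : ∀ k ≤ n, ∑ j ∈ range (n - k), σ j = (∑ j ∈ range n, σ j) + ∑ j ∈ range k, σ j := by
    intro k
    induction k with
    | zero => simp
    | succ k ih =>
      intro hk
      have h1 := ih (by omega)
      rw [show n - k = (n - 1 - k) + 1 by omega, sum_range_succ, hσ k (by omega)] at h1
      rw [sum_range_succ _ k, show n - (k + 1) = n - 1 - k by omega]
      linear_combination h1
  obtain ⟨m, hm⟩ := hn
  have hw1 : ∏ j ∈ range n, ρ j = 1 := by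
    have h1 := hw m (by omega)
    rw [show n - m = m by omega] at h1
    have hne : ∏ j ∈ range m, ρ j ≠ 0 := prod_ne_zero_iff.2 fun j hj h => by
      have := hρ j (by simp at hj; omega)
      rw [h] at this; simp at this
    exact (mul_eq_right₀ hne).1 h1.symm
  have hh1 : ∑ j ∈ range n, σ j = 0 := by
    have h1 := hh m (by omega)
    rw [show n - m = m by omega] at h1
    linear_combination -h1
  have hr := Finset.sum_range_reflect
    (fun k : ℕ => (2 * (k : ℚ) - n) * (∏ j ∈ range k, ρ j) * ∑ j ∈ range k, σ j) (n + 1)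
  have : ∑ k ∈ range (n + 1), (2 * ((n + 1 - 1 - k : ℕ) : ℚ) - n) *
      (∏ j ∈ range (n + 1 - 1 - k), ρ j) * ∑ j ∈ range (n + 1 - 1 - k), σ j
      = -∑ k ∈ range (n + 1), (2 * (k : ℚ) - n) * (∏ j ∈ range k, ρ j) * ∑ j ∈ range k, σ j := by
    rw [← Finset.sum_neg_distrib]
    refine Finset.sum_congr rfl fun k hk => ?_
    have hk' : k ≤ n := by simpa [Nat.lt_succ_iff] using hk
    rw [show n + 1 - 1 - k = n - k by omega, hw k hk', hh k hk', hw1, hh1, Nat.cast_sub hk']
    ring
  rw [this] at hr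
  linear_combination (-1/2 : ℚ) * hr

/-- second-order expansion of a product of factors `1 + p^2 s + p^3 z`. -/
theorem prod_expand (k : ℕ) (f s : ℕ → ℚ) (hs : ∀ j < k, s j ∈ Zp p)
    (h : ∀ j < k, ∃ z ∈ Zp p, f j = 1 + (p : ℚ) ^ 2 * s j + (p : ℚ) ^ 3 * z) :
    ∃ z ∈ Zp p, ∏ j ∈ range k, f j = 1 + (p : ℚ) ^ 2 * (∑ j ∈ range k, s j) + (p : ℚ) ^ 3 * z := by
  induction k with
  | zero => exact ⟨0, zero_mem _, by simp⟩
  | succ k ih =>
    obtain ⟨z, hz, e⟩ := ih (fun j hj => hs j (by omega)) (fun j hj => h j (by omega))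
    obtain ⟨z', hz', e'⟩ := h k (by omega)
    have hS : ∑ j ∈ range k, s j ∈ Zp p := sum_mem fun j hj => hs j (by simp at hj; omega)
    have hk := hs k (by omega)
    have hpm : (p : ℚ) ∈ Zp p := natCast_mem _ _
    refine ⟨z + z' + p * (∑ j ∈ range k, s j + p * z) * (s k + p * z'),
      add_mem (add_mem hz hz') (mul_mem (mul_mem hpm (add_mem hS (mul_mem hpm hz)))
        (add_mem hk (mul_mem hpm hz'))), ?_⟩
    rw [prod_range_succ, sum_range_succ, e, e']; ring

end Pool.Agent.H56.Sb3
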