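import Mathlib

namespace Pool.Agent.H56.Sb4
open Finset

variable {A : Type*} [CommRing A]

theorem binom_trunc (y : A) (m K : ℕ) :
    ∃ z : A, (1 - y) ^ m = ∑ j ∈ range K, (-1) ^ j * (m.choose j : A) * y ^ j + y ^ K * z := by
  have h1 : (1 - y) ^ m = ∑ j ∈ range (m + 1 + K), (-1) ^ j * (m.choose j : A) * y ^ j := by
    rw [show (1 - y) = -y + 1 by ring, add_pow, sum_range_add (n := m + 1),
      Finset.sum_eq_zero (s := range K) (fun j _ => by
        rw [Nat.choose_eq_zero_of_lt (by omega)]; simp), add_zero]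
    refine Finset.sum_congr rfl fun j _ => ?_
    rw [neg_pow]; ring
  rw [h1, add_comm (m + 1) K, sum_range_add]
  refine ⟨∑ j ∈ range (m + 1), (-1) ^ (K + j) * (m.choose (K + j) : A) * y ^ j, ?_⟩
  rw [Finset.mul_sum]
  refine congrArg _ (Finset.sum_congr rfl fun j _ => ?_)
  rw [pow_add y]; ring

theorem prod_exp (c : A) (f s : ℕ → A) (k : ℕ) (h : ∀ j < k, c ^ 2 ∣ f j - (1 + c * s j)) :
    c ^ 2 ∣ ∏ j ∈ range k, f j - (1 + c * ∑ j ∈ range k, s j) := by
  induction k with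
  | zero => simp
  | succ k ih =>
    obtain ⟨z, hz⟩ := ih fun j hj => h j (by omega)
    obtain ⟨w, hw⟩ := h k (by omega)
    refine ⟨z * f k + (1 + c * ∑ j ∈ range k, s j) * w + (∑ j ∈ range k, s j) * s k, ?_⟩
    rw [prod_range_succ, sum_range_succ]
    linear_combination (f k) * hz + (1 + c * ∑ j ∈ range k, s j) * hw

theorem pow_exp (c x : A) (m : ℕ) : c ^ 2 ∣ (1 - c * x) ^ m - (1 + c * (-(m : A) * x)) := by
  obtain ⟨z, hz⟩ := binom_trunc (c * x) m 2
  refine ⟨x ^ 2 * z, ?_⟩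
  rw [hz]; simp [sum_range_succ]; ring

theorem sum_two (g : ℕ → A) (h : ℕ) :
    ∑ k ∈ range (2 * h), g k = ∑ j ∈ range h, g (2 * j) + ∑ j ∈ range h, g (2 * j + 1) := by
  induction h with
  | zero => simp
  | succ h ih =>
    rw [show 2 * (h + 1) = 2 * h + 1 + 1 by ring, sum_range_succ, sum_range_succ, ih,
      sum_range_succ, sum_range_succ]; ring

theorem err_exp [IsDomain A] [CharZero A] (τ s u : A) (hs : 6 * s = 1) (m : ℕ)
    (hm : (m : A) * τ = 2) :
    ∃ l3 l4 e : A, l3 + 2 * l4 = (1 - τ) * e ∧ ∀ u : A, ∃ z : A,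
      ((1 - u) * (1 - τ * u) + s * (1 - τ) * (2 - τ) * u ^ 2)
        - (1 + (1 - τ) * u + s * (1 - τ) * (2 - τ) * u ^ 2) * (1 - τ * u) ^ m
        = l3 * u ^ 5 - l4 * u ^ 6 + u ^ 7 * z := by
  set B : ℕ → A := fun j => (m.choose j : A) * τ ^ j with hB
  have hrec : ∀ j : ℕ, ((j : A) + 1) * B (j + 1) = B j * (2 - j * τ) := by
    intro j
    have h : ((m.choose (j + 1) : ℕ) : A) * ((j : A) + 1) = (m.choose j : A) * ((m : A) - j) := by
      by_cases hj : j ≤ m
      · have := congrArg (fun x : ℕ => (x : A)) (Nat.choose_succ_right_eq m j)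
        simp only [Nat.cast_mul, Nat.cast_sub hj] at this
        exact_mod_cast this
      · rw [Nat.choose_eq_zero_of_lt (by omega), Nat.choose_eq_zero_of_lt (by omega)]; simp
    simp only [hB]
    linear_combination τ ^ (j + 1) * h + (m.choose j : A) * τ ^ j * hm
  have b0 : B 0 = 1 := by simp [hB]
  have r0 := hrec 0
  have r1 := hrec 1
  have r2 := hrec 2
  have r3 := hrec 3
  have r5 := hrec 5
  norm_num at r0 r1 r2 r3 r5
  have b1 : B 1 = 2 := by rw [r0, b0]; ring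
  have b2 : B 2 = 2 - τ := by
    apply mul_left_cancel₀ (show (2 : A) ≠ 0 by norm_num)
    linear_combination r1 + (2 - τ) * b1
  set θ := s * (1 - τ) * (2 - τ) with hθ
  have hθ6 : 6 * θ = (1 - τ) * (2 - τ) := by rw [hθ]; linear_combination (1 - τ) * (2 - τ) * hs
  have c3 : θ * 2 - (1 - τ) * (2 - τ) + B 3 = 0 := by
    apply mul_left_cancel₀ (show (3 : A) ≠ 0 by norm_num)
    linear_combination hθ6 + r2 + (2 - 2 * τ) * b2
  have c4 : -θ * (2 - τ) + (1 - τ) * B 3 - B 4 = 0 := by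
    apply mul_left_cancel₀ (show (12 : A) ≠ 0 by norm_num)
    linear_combination (-3) * r3 + (6 - 3 * τ) * c3 - (4 - 2 * τ) * hθ6
      - (1 - τ) * (2 - τ) ^ 2 * hs
  refine ⟨B 3 * θ - B 4 * (1 - τ) + B 5, B 4 * θ - B 5 * (1 - τ) + B 6,
    B 3 * s * (2 - τ) - B 4 + 2 * (B 4 * s * (2 - τ) - B 5) + 10 * s * B 5, ?_, fun u => ?_⟩
  · rw [hθ]
    linear_combination (2 * s) * r5 - (B 5 + 2 * B 6) * hs
  · obtain ⟨z, hz⟩ := binom_trunc (τ * u) m 7
    have hz' : (1 - τ * u) ^ m = 1 - 2 * u + (2 - τ) * u ^ 2 - B 3 * u ^ 3 + B 4 * u ^ 4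
        - B 5 * u ^ 5 + B 6 * u ^ 6 + u ^ 7 * (τ ^ 7 * z) := by
      rw [hz, ← b2]
      have := b1
      simp only [hB, sum_range_succ, range_zero, sum_empty] at this ⊢
      simp only [Nat.choose_zero_right, Nat.cast_one]
      linear_combination (-u) * this
    refine ⟨θ * B 5 - (1 - τ) * B 6 - θ * B 6 * u
      - (1 + (1 - τ) * u + θ * u ^ 2) * (τ ^ 7 * z), ?_⟩
    rw [hz']
    linear_combination u ^ 3 * c3 + u ^ 4 * c4

theorem main [IsDomain A] [CharZero A] (p τ s : A) (hp : p ≠ 0) (hs : 6 * s = 1) (h N : ℕ)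
    (hN : (N : A) * τ = 1) (a : ℕ → A) (P : A) (hP : P = 2 * h + 1)
    (ha : ∀ i < 2 * h, ((i : A) + 1) * (p * a i) = P) :
    P ^ 2 * p ^ 3 ∣ ∑ k ∈ range (2 * h + 1), (1 - P) * (2 * k + 1 - τ * P) *
        ∏ j ∈ range k, (1 - τ * (p * a j)) ^ (2 * N) ∧
    (p ∣ 1 - τ → P ^ 2 * p ^ 5 ∣ ∑ k ∈ range (2 * h + 1), (1 - P) * (2 * k + 1 - τ * P) *
        ∏ j ∈ range k, (1 - τ * (p * a j)) ^ (2 * N)) := by
  set E : ℕ → A := fun k => ∏ j ∈ range k, (1 - τ * (p * a j)) ^ (2 * N) with hE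
  have hEs : ∀ k, E (k + 1) = E k * (1 - τ * (p * a k)) ^ (2 * N) := fun k => prod_range_succ _ _
  have hm : ((2 * N : ℕ) : A) * τ = 2 := by push_cast; linear_combination 2 * hN
  have hP0 : P ≠ 0 := by rw [hP]; exact_mod_cast (by omega : 2 * h + 1 ≠ 0)
  have hsym : ∀ i < 2 * h, a i + a (2 * h - 1 - i) = p * a i * a (2 * h - 1 - i) := by
    intro i hi
    have h1 := ha i hi
    have h2 := ha (2 * h - 1 - i) (by omega)
    have h3 : ((2 * h - 1 - i : ℕ) : A) + 1 = P - (i + 1) := by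
      rw [hP, show 2 * h - 1 - i = 2 * h - (i + 1) by omega, Nat.cast_sub (by omega)]
      push_cast; ring
    rw [h3] at h2
    apply mul_left_cancel₀ hP0
    linear_combination (-(a (2 * h - 1 - i))) * h1 - a i * h2
  have hsq : ∀ i < 2 * h, p ∣ a (2 * h - 1 - i) ^ 2 - a i ^ 2 := fun i hi =>
    ⟨a i * a (2 * h - 1 - i) * (a (2 * h - 1 - i) - a i), by
      linear_combination (a (2 * h - 1 - i) - a i) * hsym i hi⟩
  have hhalf : ∀ j < h, 2 * a (2 * j + 1) = a j := by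
    intro j hj
    have h1 := ha j (by omega)
    have h2 := ha (2 * j + 1) (by omega)
    have : ((j : A) + 1) * p ≠ 0 := mul_ne_zero (by exact_mod_cast (by omega : j + 1 ≠ 0)) hp
    apply mul_left_cancel₀ this
    push_cast at h2
    linear_combination h2 - h1
  have hK : p ∣ ∑ i ∈ range (2 * h), a i ^ 2 := by
    have e1 : p ∣ ∑ i ∈ range (2 * h), a i ^ 2 - 2 * ∑ i ∈ range h, a i ^ 2 := by
      rw [show 2 * h = h + h by ring, sum_range_add, ← Finset.sum_range_reflect (fun x => a (h + x) ^ 2)]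
      have : p ∣ ∑ i ∈ range h, (a (h + (h - 1 - i)) ^ 2 - a i ^ 2) :=
        Finset.dvd_sum fun i hi => by
          have hi' := mem_range.1 hi
          rw [show h + (h - 1 - i) = 2 * h - 1 - i by omega]; exact hsq i (by omega)
      rw [Finset.sum_sub_distrib] at this
      obtain ⟨z, hz⟩ := this
      exact ⟨z, by linear_combination hz⟩
    have e2 : p ∣ ∑ i ∈ range (2 * h), a i ^ 2 - 2 * ∑ i ∈ range h, a (2 * i + 1) ^ 2 := by
      rw [sum_two, ← Finset.sum_range_reflect (fun x => a (2 * x) ^ 2)]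
      have : p ∣ ∑ i ∈ range h, (a (2 * (h - 1 - i)) ^ 2 - a (2 * i + 1) ^ 2) :=
        Finset.dvd_sum fun i hi => by
          have hi' := mem_range.1 hi
          rw [show 2 * (h - 1 - i) = 2 * h - 1 - (2 * i + 1) by omega]; exact hsq _ (by omega)
      rw [Finset.sum_sub_distrib] at this
      obtain ⟨z, hz⟩ := this
      exact ⟨z, by linear_combination hz⟩
    have e3 : ∑ i ∈ range h, a i ^ 2 = 4 * ∑ i ∈ range h, a (2 * i + 1) ^ 2 := by
      rw [Finset.mul_sum]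
      refine Finset.sum_congr rfl fun j hj => ?_
      rw [← hhalf j (mem_range.1 hj)]; ring
    obtain ⟨z1, h1⟩ := e1
    obtain ⟨z2, h2⟩ := e2
    exact ⟨2 * s * (4 * z2 - z1), by
      linear_combination 2 * s * (4 * h2 - h1) - 4 * s * e3 - (∑ i ∈ range (2 * h), a i ^ 2) * hs⟩
  have hpair : ∀ i < 2 * h, (1 - τ * (p * a i)) * (1 - τ * (p * a (2 * h - 1 - i)))
      = 1 - ((1 - τ) * p ^ 2) * (τ * a i * a (2 * h - 1 - i)) := fun i hi => by
    linear_combination (-τ * p) * hsym i hi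
  have hEM : (1 - τ) * p ^ 3 ∣ E (2 * h) - 1 := by
    have e1 : E (2 * h) = ∏ i ∈ range (2 * h),
        (1 - ((1 - τ) * p ^ 2) * (τ * a i * a (2 * h - 1 - i))) ^ N := by
      have : E (2 * h) = (∏ i ∈ range (2 * h), (1 - τ * (p * a i)) ^ N) *
          ∏ i ∈ range (2 * h), (1 - τ * (p * a (2 * h - 1 - i))) ^ N := by
        rw [Finset.prod_range_reflect (fun i => (1 - τ * (p * a i)) ^ N), ← Finset.prod_mul_distrib]
        refine Finset.prod_congr rfl fun i _ => ?_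
        rw [← pow_add, two_mul]
      rw [this, ← Finset.prod_mul_distrib]
      refine Finset.prod_congr rfl fun i hi => ?_
      rw [← mul_pow, hpair i (mem_range.1 hi)]
    obtain ⟨z, hz⟩ := prod_exp ((1 - τ) * p ^ 2) _ _ (2 * h)
      (fun i _ => pow_exp ((1 - τ) * p ^ 2) (τ * a i * a (2 * h - 1 - i)) N)
    have e2 : p ∣ ∑ i ∈ range (2 * h), -(N : A) * (τ * a i * a (2 * h - 1 - i))
        - ∑ i ∈ range (2 * h), a i ^ 2 := by
      rw [← Finset.sum_sub_distrib]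
      refine Finset.dvd_sum fun i hi => ⟨-(a i ^ 2 * a (2 * h - 1 - i)), ?_⟩
      linear_combination (-(a i * a (2 * h - 1 - i))) * hN - a i * hsym i (mem_range.1 hi)
    obtain ⟨w, hw⟩ := e2
    obtain ⟨v, hv⟩ := hK
    refine ⟨w + v + (1 - τ) * p * z, ?_⟩
    rw [e1]
    linear_combination hz + (1 - τ) * p ^ 2 * hw + (1 - τ) * p ^ 2 * hv
  obtain ⟨l3, l4, e, hl, herr⟩ := err_exp τ s 0 hs (2 * N) hm
  choose z hz using herr
  set θ := s * (1 - τ) * (2 - τ) with hθ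
  have htel : ∀ n ≤ 2 * h, ∑ k ∈ range (n + 1), (1 - P) * (2 * k + 1 - τ * P) * E k =
      (((n : A) + 1 - P) * (n + 1 - τ * P) + θ * P ^ 2) * E n - θ * P ^ 2 +
        P ^ 2 * p ^ 3 * ∑ i ∈ range n,
          E i * (l3 * a i ^ 3 - l4 * p * a i ^ 4 + p ^ 2 * a i ^ 5 * z (p * a i)) := by
    intro n
    induction n with
    | zero => intro _; simp [hE]
    | succ n ih =>
      intro hn
      rw [sum_range_succ, ih (by omega), sum_range_succ _ n, hEs]
      have h1 := ha n (by omega)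
      have h2 := hz (p * a n)
      rw [← h1]
      push_cast
      linear_combination E n * ((n : A) + 1) ^ 2 * h2
  have hW := htel (2 * h) le_rfl
  have hz0 : (((2 * h : ℕ) : A) + 1 - P) = 0 := by rw [hP]; push_cast; ring
  rw [hz0, zero_mul, zero_add] at hW
  obtain ⟨y, hy⟩ := hEM
  change P ^ 2 * p ^ 3 ∣ ∑ k ∈ range (2 * h + 1), (1 - P) * (2 * k + 1 - τ * P) * E k ∧
    (p ∣ 1 - τ → P ^ 2 * p ^ 5 ∣ ∑ k ∈ range (2 * h + 1), (1 - P) * (2 * k + 1 - τ * P) * E k)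
  rw [hW]
  refine ⟨⟨θ * (1 - τ) * y + ∑ i ∈ range (2 * h),
    E i * (l3 * a i ^ 3 - l4 * p * a i ^ 4 + p ^ 2 * a i ^ 5 * z (p * a i)), by
      linear_combination θ * P ^ 2 * hy⟩, fun ⟨δ, hδ⟩ => ?_⟩
  have hf : ∀ i, p ^ 2 ∣ (1 - τ * (p * a i)) ^ (2 * N) - (1 - 2 * p * a i) := by
    intro i
    obtain ⟨w, hw⟩ := pow_exp p (τ * a i) (2 * N)
    refine ⟨w, ?_⟩
    rw [show τ * (p * a i) = p * (τ * a i) by ring]
    linear_combination hw - p * a i * hm
  have hE1 : ∀ k, p ∣ E k - 1 := by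
    intro k
    induction k with
    | zero => simp [hE]
    | succ k ih =>
      obtain ⟨w, hw⟩ := ih
      obtain ⟨v, hv⟩ := hf k
      refine ⟨w - 2 * a k * E k + p * v * E k, ?_⟩
      rw [hEs]
      linear_combination hw + E k * hv
  have hEsym : ∀ k ≤ 2 * h, p ^ 2 ∣ E (2 * h) * E k - E (2 * h - k) := by
    intro k
    induction k with
    | zero => intro _; simp [hE]
    | succ k ih =>
      intro hk
      obtain ⟨w, hw⟩ := ih (by omega)
      rw [show 2 * h - k = (2 * h - 1 - k) + 1 by omega, hEs] at hw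
      obtain ⟨v, hv⟩ := pow_exp ((1 - τ) * p ^ 2) (τ * a k * a (2 * h - 1 - k)) (2 * N)
      rw [← hpair k (by omega), mul_pow] at hv
      rw [show 2 * h - (k + 1) = 2 * h - 1 - k by omega, hEs]
      refine ⟨w * (1 - τ * (p * a k)) ^ (2 * N) + E (2 * h - 1 - k) * ((1 - τ) *
        (-((2 * N : ℕ) : A) * (τ * a k * a (2 * h - 1 - k))) + (1 - τ) ^ 2 * p ^ 2 * v), ?_⟩
      linear_combination (1 - τ * (p * a k)) ^ (2 * N) * hw + E (2 * h - 1 - k) * hv
  have h3 : p ^ 2 ∣ 2 * ∑ i ∈ range (2 * h), E i * a i ^ 3 + p * ∑ i ∈ range (2 * h), a i ^ 4 := by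
    have : 2 * ∑ i ∈ range (2 * h), E i * a i ^ 3 + p * ∑ i ∈ range (2 * h), a i ^ 4 =
        ∑ i ∈ range (2 * h), (E i * a i ^ 3 + E (2 * h - 1 - i) * a (2 * h - 1 - i) ^ 3
          + p * a i ^ 4) := by
      rw [Finset.sum_add_distrib, Finset.sum_add_distrib,
        Finset.sum_range_reflect (fun i => E i * a i ^ 3), Finset.mul_sum _ _ p]; ring
    rw [this]
    refine Finset.dvd_sum fun i hi => ?_
    have hi' := mem_range.1 hi
    obtain ⟨w, hw⟩ := hEsym (i + 1) (by omega)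
    rw [show 2 * h - (i + 1) = 2 * h - 1 - i by omega, hEs] at hw
    obtain ⟨v, hv⟩ := hf i
    obtain ⟨x, hx⟩ := hE1 i
    have hs' := hsym i hi'
    generalize a (2 * h - 1 - i) = b at *
    generalize a i = c at *
    generalize (1 - τ * (p * c)) ^ (2 * N) = F at *
    have hb : b = -c - p * c ^ 2 + p ^ 2 * (c ^ 2 * b) := by
      linear_combination (1 + p * c) * hs'
    have hE' : E (2 * h - 1 - i) = E i * (1 - 2 * p * c) + p ^ 2 *
        (E i * v + (1 - τ) * p * y * E i * F - w) := by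
      linear_combination -hw + E i * F * hy + E i * hv
    generalize (E i * v + (1 - τ) * p * y * E i * F - w) = g at *
    generalize c ^ 2 * b = d at *
    have hEi : E i = 1 + p * x := by linear_combination hx
    rw [hE', hEi, hb]
    refine ⟨g * (-c - p * c ^ 2 + p ^ 2 * d) ^ 3 - x * c ^ 4 + (1 + p * x) *
      (6 * c ^ 5 + (1 - 2 * p * c) * (3 * c ^ 2 * d - 3 * c * (-c ^ 2 + p * d) ^ 2
        + p * (-c ^ 2 + p * d) ^ 3)), ?_⟩
    ring
  have h4 : p ∣ ∑ i ∈ range (2 * h), E i * a i ^ 4 - ∑ i ∈ range (2 * h), a i ^ 4 := by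
    rw [← Finset.sum_sub_distrib]
    refine Finset.dvd_sum fun i _ => ?_
    obtain ⟨x, hx⟩ := hE1 i
    exact ⟨x * a i ^ 4, by linear_combination a i ^ 4 * hx⟩
  have hsplit : ∑ i ∈ range (2 * h),
      E i * (l3 * a i ^ 3 - l4 * p * a i ^ 4 + p ^ 2 * a i ^ 5 * z (p * a i)) =
      l3 * ∑ i ∈ range (2 * h), E i * a i ^ 3 - l4 * p * ∑ i ∈ range (2 * h), E i * a i ^ 4
        + p ^ 2 * ∑ i ∈ range (2 * h), E i * a i ^ 5 * z (p * a i) := by
    rw [Finset.mul_sum, Finset.mul_sum, Finset.mul_sum, ← Finset.sum_sub_distrib,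
      ← Finset.sum_add_distrib]
    refine Finset.sum_congr rfl fun i _ => by ring
  obtain ⟨w3, hw3⟩ := h3
  obtain ⟨w4, hw4⟩ := h4
  rw [hsplit]
  generalize ∑ i ∈ range (2 * h), E i * a i ^ 3 = S3 at *
  generalize ∑ i ∈ range (2 * h), E i * a i ^ 4 = S4 at *
  generalize ∑ i ∈ range (2 * h), a i ^ 4 = T4 at *
  generalize ∑ i ∈ range (2 * h), E i * a i ^ 5 * z (p * a i) = S5 at *
  refine ⟨s * (2 - τ) * δ ^ 2 * y + 3 * s * l3 * w3 - l4 * w4 + S5 - 3 * s * δ * e * T4, ?_⟩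
  rw [hθ]
  have hτ : τ = 1 - p * δ := by linear_combination -hδ
  have hE2 : E (2 * h) = 1 + (1 - τ) * p ^ 3 * y := by linear_combination hy
  rw [hE2]
  rw [hδ] at hl ⊢
  linear_combination P ^ 2 * p ^ 3 * (3 * s * l3 * hw3 - l4 * p * hw4 - 3 * s * p * T4 * hl
    - (l3 * S3 - l4 * p * T4) * hs)

end Pool.Agent.H56.Sb4
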