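import Mathlib
import Pool.Agent.H56.Sb2
import Pool.Agent.H56.Sb4

namespace Pool.Agent.H56.Sb5
open Finset Pool.Agent.H56.Sb2

variable {p : ℕ} [hp : Fact p.Prime]

theorem a_mem (r k : ℕ) (h0 : 0 < k) (hk : k < p ^ (r + 1)) : (p : ℚ) ^ r / k ∈ Zp p := by
  obtain ⟨e, k', hk', rfl⟩ := Nat.exists_eq_pow_mul_and_not_dvd h0.ne' p hp.out.ne_one
  have hk0 : 0 < k' := Nat.pos_of_mul_pos_left h0
  have he : e ≤ r := by
    by_contra h
    have : p ^ (r + 1) ≤ p ^ e := Nat.pow_le_pow_right hp.out.pos (by omega)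
    nlinarith
  obtain ⟨d, rfl⟩ : ∃ d, r = e + d := ⟨r - e, by omega⟩
  refine ⟨(p : ℤ) ^ d, k', fun h => hk' (Int.natCast_dvd_natCast.1 h), ?_⟩
  have : (p : ℚ) ≠ 0 := by exact_mod_cast hp.out.ne_zero
  push_cast
  field_simp
  ring

theorem bridge (h3 : 3 < p) (r N : ℕ) (hN : ¬ p ∣ N) :
    (∃ z ∈ Zp p, ∑ k ∈ range (p ^ (r + 1)), (1 - (p : ℚ) ^ (r + 1)) *
      (2 * k + 1 - (N : ℚ)⁻¹ * (p : ℚ) ^ (r + 1)) *
        (∏ j ∈ range k, (1 - (N : ℚ)⁻¹ * (p : ℚ) ^ (r + 1) / (j + 1))) ^ (2 * N)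
        = (p : ℚ) ^ (2 * (r + 1) + 3) * z) ∧
    ((p : ℤ) ∣ (N : ℤ) - 1 → ∃ z ∈ Zp p, ∑ k ∈ range (p ^ (r + 1)), (1 - (p : ℚ) ^ (r + 1)) *
      (2 * k + 1 - (N : ℚ)⁻¹ * (p : ℚ) ^ (r + 1)) *
        (∏ j ∈ range k, (1 - (N : ℚ)⁻¹ * (p : ℚ) ^ (r + 1) / (j + 1))) ^ (2 * N)
        = (p : ℚ) ^ (2 * (r + 1) + 5) * z) := by
  have hodd : Odd (p ^ (r + 1)) := (hp.out.odd_of_ne_two (by omega)).pow
  obtain ⟨h, hh⟩ := hodd
  have hτ : ((N : ℚ))⁻¹ ∈ Zp p := by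
    have := inv_mem_int (p := p) (N : ℤ) (fun h => hN (Int.natCast_dvd_natCast.1 h))
    simpa using this
  have hs : ((6 : ℚ))⁻¹ ∈ Zp p := by
    have := inv_mem_int (p := p) (6 : ℤ) (fun h => by
      have h6 : p ∣ 2 * 3 := Int.natCast_dvd_natCast.1 h
      rcases (Nat.Prime.dvd_mul hp.out).1 h6 with h | h <;>
        (have := Nat.le_of_dvd (by norm_num) h; omega))
    simpa using this
  have hN0 : (N : ℚ) ≠ 0 := by
    rintro h0; apply hN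
    have : N = 0 := by exact_mod_cast h0
    simp [this]
  have hp0 : (p : ℚ) ≠ 0 := by exact_mod_cast hp.out.ne_zero
  have hex : ∀ i : ℕ, ∃ x : Zp p, i < 2 * h → (x : ℚ) = (p : ℚ) ^ r / (i + 1) := by
    intro i
    by_cases hi : i < 2 * h
    · exact ⟨⟨_, a_mem r (i + 1) (by omega) (by omega)⟩, fun _ => by push_cast; rfl⟩
    · exact ⟨0, fun h => absurd h hi⟩
  choose a ha using hex
  have hPq : (p : ℚ) ^ (r + 1) = 2 * h + 1 := by exact_mod_cast hh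
  have hm := Sb4.main (A := Zp p) (p : Zp p) ⟨_, hτ⟩ ⟨_, hs⟩
    (by intro h0; apply hp0; simpa using congrArg Subtype.val h0)
    (Subtype.ext (by push_cast; exact mul_inv_cancel₀ (by norm_num : (6 : ℚ) ≠ 0))) h N
    (Subtype.ext (by push_cast; exact mul_inv_cancel₀ hN0)) a ((p : Zp p) ^ (r + 1))
    (Subtype.ext (by push_cast; exact hPq))
    (fun i hi => Subtype.ext (by
      push_cast
      rw [ha i hi]
      have : ((i : ℚ) + 1) ≠ 0 := by positivity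
      field_simp
      ring))
  have hcast : (((∑ k ∈ range (2 * h + 1), (1 - (p : Zp p) ^ (r + 1)) *
      (2 * k + 1 - ⟨_, hτ⟩ * (p : Zp p) ^ (r + 1)) *
        ∏ j ∈ range k, (1 - ⟨_, hτ⟩ * ((p : Zp p) * a j)) ^ (2 * N) : Zp p)) : ℚ) =
      ∑ k ∈ range (p ^ (r + 1)), (1 - (p : ℚ) ^ (r + 1)) *
      (2 * k + 1 - (N : ℚ)⁻¹ * (p : ℚ) ^ (r + 1)) *
        (∏ j ∈ range k, (1 - (N : ℚ)⁻¹ * (p : ℚ) ^ (r + 1) / (j + 1))) ^ (2 * N) := by
    rw [hh]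
    push_cast
    refine Finset.sum_congr rfl fun k hk => ?_
    rw [← Finset.prod_pow]
    have : ∏ j ∈ range k, (1 - (N : ℚ)⁻¹ * ((p : ℚ) * (a j : ℚ))) ^ (2 * N) =
        ∏ j ∈ range k, (1 - (N : ℚ)⁻¹ * (p : ℚ) ^ (r + 1) / (j + 1)) ^ (2 * N) := by
      refine Finset.prod_congr rfl fun j hj => ?_
      rw [ha j (by simp at hj hk; omega)]
      ring
    rw [← this]
    rfl
  obtain ⟨⟨z, hz⟩, h2⟩ := hm
  refine ⟨⟨z, z.2, ?_⟩, fun hd => ?_⟩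
  · rw [← hcast, hz]; push_cast; ring
  · obtain ⟨c, hc⟩ := hd
    have hcq : (N : ℚ) - 1 = p * c := by exact_mod_cast hc
    obtain ⟨w, hw⟩ := h2 ⟨⟨_, hτ⟩ * (c : Zp p), Subtype.ext (by
      push_cast
      field_simp
      linear_combination hcq)⟩
    refine ⟨w, w.2, ?_⟩
    rw [← hcast, hw]; push_cast; ring

theorem poch_div (t : ℚ) (k : ℕ) :
    (∏ j ∈ range k, (1 - t + j)) / (k.factorial : ℚ) = ∏ j ∈ range k, (1 - t / (j + 1)) := by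
  induction k with
  | zero => simp
  | succ k ih =>
    rw [prod_range_succ, prod_range_succ, ← ih, Nat.factorial_succ]
    have h3 : ((k : ℚ) + 1) ≠ 0 := by positivity
    have h4 : (k.factorial : ℚ) ≠ 0 := by positivity
    push_cast
    field_simp
    ring

end Pool.Agent.H56.Sb5
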