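import Mathlib
import Pool.Agent.H56.Sb3

namespace Pool.Agent.H56.Sb6
open Finset Pool.Agent.H56.Sb3

def B (a c d : ℚ) (k : ℕ) : ℚ :=
  poch a k * (-1) ^ k * poch c k * poch d k /
    (k.factorial * poch (1 + a - c) k * poch (1 + a - d) k)

theorem wz (a c d : ℚ) (ha : ∀ j : ℕ, 1 + a + j ≠ 0) (hc : ∀ j : ℕ, 1 + a - c + j ≠ 0)
    (hd : ∀ j : ℕ, 1 + a - d + j ≠ 0) (n : ℕ) :
    ∑ k ∈ range (n + 1), (a + 2 * k) * B a c d k / ((n - k).factorial * poch (1 + a) (n + k))
      = a * poch (1 + a - c - d) n / (n.factorial * poch (1 + a - c) n * poch (1 + a - d) n) := by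
  have hpa : ∀ k, poch (1 + a) k ≠ 0 := fun k => prod_ne_zero_iff.2 fun j _ => ha j
  have hpc : ∀ k, poch (1 + a - c) k ≠ 0 := fun k => prod_ne_zero_iff.2 fun j _ => hc j
  have hpd : ∀ k, poch (1 + a - d) k ≠ 0 := fun k => prod_ne_zero_iff.2 fun j _ => hd j
  induction n with
  | zero => simp [B, poch]
  | succ n ih =>
    set G : ℕ → ℚ := fun k => -(B a c d k * k * (a - c + k) * (a - d + k) * (a + (n + 1) + k)) /
      ((n + 1 - k).factorial * poch (1 + a) (n + 1 + k)) with hG
    have hstep : ∀ k ∈ range (n + 1),
        (n + 1) * (1 + a - c + n) * (1 + a - d + n) *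
          ((a + 2 * k) * B a c d k / ((n + 1 - k).factorial * poch (1 + a) (n + 1 + k)))
        - (1 + a - c - d + n) *
          ((a + 2 * k) * B a c d k / ((n - k).factorial * poch (1 + a) (n + k)))
        = G (k + 1) - G k := by
      intro k hk
      have hk' : k ≤ n := by simpa [Nat.lt_succ_iff] using hk
      obtain ⟨e, rfl⟩ : ∃ e, n = k + e := ⟨n - k, by omega⟩
      have hB : B a c d (k + 1) = B a c d k * (-((a + k) * (c + k) * (d + k))) /
          ((k + 1) * (1 + a - c + k) * (1 + a - d + k)) := by
        have h1 := hpc k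
        have h2 := hpd k
        have h3 := hc k
        have h3' := hd k
        have h4 : (k.factorial : ℚ) ≠ 0 := by positivity
        simp only [B, poch_succ, Nat.factorial_succ, pow_succ]
        push_cast
        field_simp
      simp only [hG]
      rw [hB, show k + e + 1 - k = e + 1 by omega, show k + e - k = e by omega,
        show k + e + 1 - (k + 1) = e by omega, show k + e + 1 + (k + 1) = (k + e + k) + 1 + 1 by ring,
        show k + e + 1 + k = (k + e + k) + 1 by ring]
      simp only [poch_succ (1 + a), Nat.factorial_succ]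
      have h5 := ha (k + e + k)
      have h6 := ha (k + e + k + 1)
      push_cast at h5 h6 ⊢
      have h2 := hpa (k + e + k)
      have h3 := hc k
      have h3' := hd k
      have h4 : (e.factorial : ℚ) ≠ 0 := by positivity
      generalize poch (1 + a) (k + e + k) = P at *
      generalize B a c d k = b
      generalize (e.factorial : ℚ) = D at *
      have e1 : (a - c + ((k : ℚ) + 1)) = 1 + a - c + k := by ring
      have e2 : (a - d + ((k : ℚ) + 1)) = 1 + a - d + k := by ring
      have e3 : (a + ((k : ℚ) + e + 1) + (k + 1)) = 1 + a + (k + e + k + 1) := by ring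
      have e4 : (a + ((k : ℚ) + e + 1) + k) = 1 + a + (k + e + k) := by ring
      rw [e1, e2, e3, e4]
      generalize hu : (1 + a - c + (k : ℚ)) = u at *
      generalize hv : (1 + a - d + (k : ℚ)) = v at *
      generalize (1 + a + ((k : ℚ) + e + k + 1)) = x at *
      generalize hy : (1 + a + ((k : ℚ) + e + k)) = y at *
      have hc' : c = 1 + a + k - u := by linarith
      have hd' : d = 1 + a + k - v := by linarith
      have ha' : a = y - 1 - (k + e + k) := by linarith
      clear hu hv hy ih hG hB e1 e2 e3 e4 hpa hpc hpd ha hc hd G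
      subst hc' hd'
      subst ha'
      field_simp
      ring
    have hs := Finset.sum_congr rfl hstep
    rw [Finset.sum_range_sub, Finset.sum_sub_distrib, ← Finset.mul_sum, ← Finset.mul_sum, ih] at hs
    rw [sum_range_succ]
    have hG0 : G 0 = 0 := by simp [hG]
    rw [hG0] at hs
    simp only [hG] at hs
    have h1 := hpc n
    have h2 := hpd n
    have h3 := hc n
    have h3' := hd n
    have h4 : (n.factorial : ℚ) ≠ 0 := by positivity
    have h5 : ((n : ℚ) + 1) * (1 + a - c + n) * (1 + a - d + n) ≠ 0 :=
      mul_ne_zero (mul_ne_zero (by positivity) h3) h3'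
    apply mul_left_cancel₀ h5
    rw [mul_add, poch_succ, poch_succ, poch_succ, Nat.factorial_succ n]
    have e : ((n : ℚ) + 1) * (1 + a - c + n) * (1 + a - d + n) *
        (a * (poch (1 + a - c - d) n * (1 + a - c - d + n)) /
        ((((n + 1) * n.factorial : ℕ) : ℚ) * (poch (1 + a - c) n * (1 + a - c + n)) *
          (poch (1 + a - d) n * (1 + a - d + n)))) = (1 + a - c - d + n) *
          (a * poch (1 + a - c - d) n /
            (n.factorial * poch (1 + a - c) n * poch (1 + a - d) n)) := by
      generalize (1 + a - c + n : ℚ) = u at *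
      generalize (1 + a - d + n : ℚ) = v at *
      push_cast
      field_simp
    rw [e]
    push_cast at hs ⊢
    linear_combination hs

/-- The terminating very-well-poised `5F4` sum in product form. -/
theorem vwp (a c d : ℚ) (ha : ∀ j : ℕ, 1 + a + j ≠ 0) (hc : ∀ j : ℕ, 1 + a - c + j ≠ 0)
    (hd : ∀ j : ℕ, 1 + a - d + j ≠ 0) (n : ℕ) :
    ∑ k ∈ range (n + 1), (a + 2 * k) * ∏ j ∈ range k,
      ((a + j) * ((j : ℚ) - n) * (c + j) * (d + j) /
        (((j : ℚ) + 1) * (1 + a - c + j) * (1 + a - d + j) * (1 + a + n + j))) =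
      a * poch (1 + a) n * poch (1 + a - c - d) n / (poch (1 + a - c) n * poch (1 + a - d) n) := by
  have hpa : ∀ k, poch (1 + a) k ≠ 0 := fun k => prod_ne_zero_iff.2 fun j _ => ha j
  have hpc : ∀ k, poch (1 + a - c) k ≠ 0 := fun k => prod_ne_zero_iff.2 fun j _ => hc j
  have hpd : ∀ k, poch (1 + a - d) k ≠ 0 := fun k => prod_ne_zero_iff.2 fun j _ => hd j
  have h := wz a c d ha hc hd n
  have hterm : ∀ k ≤ n, ∏ j ∈ range k,
      ((a + j) * ((j : ℚ) - n) * (c + j) * (d + j) /
        (((j : ℚ) + 1) * (1 + a - c + j) * (1 + a - d + j) * (1 + a + n + j))) =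
      (n.factorial * poch (1 + a) n) *
        (B a c d k / ((n - k).factorial * poch (1 + a) (n + k))) := by
    intro k
    induction k with
    | zero =>
      intro _
      have h1 := hpa n
      have h2 : (n.factorial : ℚ) ≠ 0 := by positivity
      simp only [B, poch, range_zero, prod_empty, Nat.sub_zero, Nat.add_zero] at h1 ⊢
      field_simp
      simp
    | succ k ih =>
      intro hk
      rw [prod_range_succ, ih (by omega)]
      obtain ⟨e, he⟩ : ∃ e, n = k + e + 1 := ⟨n - k - 1, by omega⟩
      have hdq : (n : ℚ) = k + e + 1 := by exact_mod_cast he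
      rw [show n - k = e + 1 by omega, show n - (k + 1) = e by omega,
        show n + (k + 1) = (n + k) + 1 by ring]
      simp only [B, poch_succ, Nat.factorial_succ, pow_succ]
      have h1 := hpa (n + k)
      have h2 := hpd k
      have h3 := hpc k
      have h4 := hc k
      have h4' := hd k
      have h7 := ha (n + k)
      have h5 : (e.factorial : ℚ) ≠ 0 := by positivity
      have h6 : (k.factorial : ℚ) ≠ 0 := by positivity
      have e2 : ((k : ℚ) - n) = -(e + 1) := by linarith
      push_cast at h7 ⊢
      rw [e2, show 1 + a + (n : ℚ) + k = 1 + a + (n + k) by ring]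
      generalize (1 + a - c + (k : ℚ)) = u at *
      generalize (1 + a - d + (k : ℚ)) = v at *
      generalize (1 + a + ((n : ℚ) + k)) = x at *
      field_simp
  have h6 : (n.factorial : ℚ) ≠ 0 := by positivity
  calc _ = (n.factorial * poch (1 + a) n) * ∑ k ∈ range (n + 1),
        (a + 2 * k) * B a c d k / ((n - k).factorial * poch (1 + a) (n + k)) := by
        rw [Finset.mul_sum]
        refine Finset.sum_congr rfl fun k hk => ?_
        rw [hterm k (by simpa [Nat.lt_succ_iff] using hk)]; ring
    _ = _ := by
        rw [h]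
        have := hpc n
        have := hpd n
        field_simp

theorem refl_poch (x : ℚ) (n : ℕ) : poch (1 - x - n) n = (-1) ^ n * poch x n := by
  unfold poch
  rw [← Finset.prod_range_reflect, ← card_range n, ← Finset.prod_const, card_range,
    ← Finset.prod_mul_distrib]
  refine Finset.prod_congr rfl fun j hj => ?_
  have hj' : j < n := mem_range.1 hj
  rw [show n - 1 - j = n - (j + 1) by omega, Nat.cast_sub (by omega)]
  push_cast; ring

end Pool.Agent.H56.Sb6
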