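import Mathlib

/-! Banach spaces given by a norming family of coefficient functionals. -/

namespace Pool.Agent.H56.Scp

open Set Topology

variable {𝕜 : Type} [RCLike 𝕜]

/-- A Banach space spanned by vectors `u j` whose norm is the supremum of the functionals. -/
theorem exists_space {J Λ : Type} (co : Λ → J → 𝕜) (hco : ∀ c j, ‖co c j‖ ≤ 1) :
    ∃ (X : Type) (_ : NormedAddCommGroup X) (_ : NormedSpace 𝕜 X) (_ : CompleteSpace X)
      (u : J → X) (ev : Λ → X →L[𝕜] 𝕜), (∀ c j, ev c (u j) = co c j) ∧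
      (∀ c x, ‖ev c x‖ ≤ ‖x‖) ∧ (∀ x M, 0 ≤ M → (∀ c, ‖ev c x‖ ≤ M) → ‖x‖ ≤ M) ∧
      DenseRange (Finsupp.linearCombination 𝕜 u) := by
  let _ : TopologicalSpace Λ := ⊥
  have : DiscreteTopology Λ := ⟨rfl⟩
  let v : J → BoundedContinuousFunction Λ 𝕜 := fun j =>
    BoundedContinuousFunction.ofNormedAddCommGroupDiscrete (fun c => co c j) 1 (fun c => hco c j)
  let S : Submodule 𝕜 (BoundedContinuousFunction Λ 𝕜) :=
    (Submodule.span 𝕜 (range v)).topologicalClosure
  have hS : IsClosed (S : Set (BoundedContinuousFunction Λ 𝕜)) :=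
    Submodule.isClosed_topologicalClosure _
  let u : J → S := fun j =>
    ⟨v j, Submodule.le_topologicalClosure _ (Submodule.subset_span ⟨j, rfl⟩)⟩
  refine ⟨S, inferInstance, inferInstance, hS.completeSpace_coe, u,
    fun c => (BoundedContinuousFunction.evalCLM 𝕜 c).comp S.subtypeL, fun c j => rfl,
    fun c x => BoundedContinuousFunction.norm_coe_le_norm x.1 c,
    fun x M hM h => (BoundedContinuousFunction.norm_le hM).2 h, ?_⟩
  intro x
  rw [IsInducing.subtypeVal.closure_eq_preimage_closure_image]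
  have hx : x.1 ∈ closure (Submodule.span 𝕜 (range v) : Set _) := x.2
  refine closure_mono ?_ hx
  intro y hy
  obtain ⟨l, rfl⟩ := (Finsupp.range_linearCombination 𝕜 (v := v)).ge hy
  refine ⟨Finsupp.linearCombination 𝕜 u l, ⟨l, rfl⟩, ?_⟩
  have := Finsupp.apply_linearCombination 𝕜 S.subtype u l
  exact this

section ext
variable {J Λ X : Type} [NormedAddCommGroup X] [NormedSpace 𝕜 X] [CompleteSpace X]
  {u : J → X} {ev : Λ → X →L[𝕜] 𝕜}

theorem exists_op (h1 : ∀ c x, ‖ev c x‖ ≤ ‖x‖)
    (h2 : ∀ x M, 0 ≤ M → (∀ c, ‖ev c x‖ ≤ M) → ‖x‖ ≤ M)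
    (hd : DenseRange (Finsupp.linearCombination 𝕜 u)) (p : J → X)
    (hp : ∀ c, ∃ c1 c2, ∀ j, ev c (p j) = ev c1 (u j) - ev c2 (u j)) :
    ∃ P : X →L[𝕜] X, ∀ j, P (u j) = p j := by
  have hb : ∀ l, ‖Finsupp.linearCombination 𝕜 p l‖ ≤ 2 * ‖Finsupp.linearCombination 𝕜 u l‖ := by
    intro l
    refine h2 _ _ (by positivity) fun c => ?_
    obtain ⟨c1, c2, hc⟩ := hp c
    have : ev c (Finsupp.linearCombination 𝕜 p l) =
        ev c1 (Finsupp.linearCombination 𝕜 u l) - ev c2 (Finsupp.linearCombination 𝕜 u l) := by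
      simp only [Finsupp.linearCombination_apply, Finsupp.sum, map_sum, map_smul, hc, smul_sub,
        Finset.sum_sub_distrib]
    rw [this]
    have a := h1 c1 (Finsupp.linearCombination 𝕜 u l)
    have b := h1 c2 (Finsupp.linearCombination 𝕜 u l)
    have := norm_sub_le (ev c1 (Finsupp.linearCombination 𝕜 u l))
      (ev c2 (Finsupp.linearCombination 𝕜 u l))
    linarith
  refine ⟨(Finsupp.linearCombination 𝕜 p).extendOfNorm (Finsupp.linearCombination 𝕜 u), fun j => ?_⟩
  have := LinearMap.extendOfNorm_eq (f := Finsupp.linearCombination 𝕜 p) hd ⟨2, hb⟩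
    (Finsupp.single j 1)
  simpa using this

omit [CompleteSpace X] in
theorem exists_supp (hd : DenseRange (Finsupp.linearCombination 𝕜 u)) (x : X) :
    ∃ T : Set J, T.Countable ∧ x ∈ closure (Submodule.span 𝕜 (u '' T) : Set X) := by
  obtain ⟨s, hs, hlim⟩ := mem_closure_iff_seq_limit.1 (hd x)
  choose l hl using hs
  refine ⟨⋃ n, ((l n).support : Set J), countable_iUnion fun n => (l n).support.countable_toSet,
    mem_closure_of_tendsto hlim (Filter.Eventually.of_forall fun n => ?_)⟩
  rw [← hl n, Finsupp.linearCombination_apply, Finsupp.sum]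
  exact Submodule.sum_mem _ fun j hj => Submodule.smul_mem _ _
    (Submodule.subset_span ⟨j, mem_iUnion.2 ⟨n, hj⟩, rfl⟩)

omit [CompleteSpace X] in
/-- a map sending all `u j` into a closed subspace sends everything into it -/
theorem map_mem (hd : DenseRange (Finsupp.linearCombination 𝕜 u)) (P : X →L[𝕜] X)
    (V : Submodule 𝕜 X) (hV : IsClosed (V : Set X)) (h : ∀ j, P (u j) ∈ V) (x : X) : P x ∈ V := by
  refine hd.induction_on x (hV.preimage P.continuous) fun l => ?_
  rw [Finsupp.linearCombination_apply, Finsupp.sum, map_sum]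
  exact V.sum_mem fun j _ => by rw [map_smul]; exact V.smul_mem _ (h j)

omit [CompleteSpace X] in
theorem fix_closure (P : X →L[𝕜] X) (s : Set X) (h : ∀ y ∈ s, P y = y) (x : X)
    (hx : x ∈ closure (Submodule.span 𝕜 s : Set X)) : P x = x := by
  have hc : IsClosed {y | P y = y} := isClosed_eq P.continuous continuous_id
  refine hc.closure_subset_iff.2 (fun y hy => ?_) hx
  induction hy using Submodule.span_induction with
  | mem y hy => exact h y hy
  | zero => simp
  | add a b _ _ ha hb => simp only [mem_ofPred_eq, map_add] at *; rw [ha, hb]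
  | smul r a _ ha => simp only [mem_ofPred_eq, map_smul] at *; rw [ha]

omit [CompleteSpace X] in
/-- a uniformly bounded family of functionals, finitely supported on generators, is `c₀` on the
closed span -/
theorem c0_closure {G : Type} (θ : G → X →L[𝕜] 𝕜) (hθ : ∀ g x, ‖θ g x‖ ≤ 2 * ‖x‖) (s : Set X)
    (h : ∀ y ∈ s, {g | θ g y ≠ 0}.Finite) (x : X)
    (hx : x ∈ closure (Submodule.span 𝕜 s : Set X)) : {g | 1 / 2 < ‖θ g x‖}.Finite := by
  obtain ⟨y, hy, hxy⟩ := Metric.mem_closure_iff.1 hx (1 / 4) (by norm_num)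
  have hfin : {g | θ g y ≠ 0}.Finite := by
    clear hxy
    induction hy using Submodule.span_induction with
    | mem y hy => exact h y hy
    | zero => simp
    | add a b _ _ ha hb =>
      refine (ha.union hb).subset fun g hg => ?_
      by_contra hn
      simp only [mem_union, mem_ofPred_eq, not_or, not_not, map_add] at hn hg
      exact hg (by rw [hn.1, hn.2, add_zero])
    | smul r a _ ha =>
      refine ha.subset fun g hg hn => ?_
      simp only [mem_ofPred_eq, map_smul] at hg
      exact hg (by rw [hn, smul_zero])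
  refine hfin.subset fun g hg hn => ?_
  have h1 := hθ g (x - y)
  rw [map_sub, hn, sub_zero, ← dist_eq_norm] at h1
  simp only [mem_ofPred_eq] at hg
  linarith

omit [CompleteSpace X] in
/-- the closed span of at most `κ` vectors has a dense subset of size at most `κ` -/
theorem exists_dense_card {G : Type} (e : G → X) (κ : Cardinal) (hκ : Cardinal.aleph0 ≤ κ)
    (hG : Cardinal.mk G ≤ κ) :
    ∃ D : Set X, D ⊆ Submodule.span 𝕜 (range e) ∧
      (Submodule.span 𝕜 (range e) : Set X) ⊆ closure D ∧ Cardinal.mk D ≤ κ := by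
  have hs : ∀ s : Finset G, ∃ D : Set X, D ⊆ Submodule.span 𝕜 (e '' s) ∧ D.Countable ∧
      (Submodule.span 𝕜 (e '' s) : Set X) ⊆ closure D := fun s =>
    ((s.countable_toSet.image e).isSeparable.span (R := 𝕜)).exists_countable_dense_subset
  choose D h1 h2 h3 using hs
  refine ⟨⋃ s, D s, iUnion_subset fun s => (h1 s).trans
    (Submodule.span_mono (image_subset_range _ _)), fun x hx => ?_, ?_⟩
  · obtain ⟨l, rfl⟩ := (Finsupp.range_linearCombination 𝕜 (v := e)).ge hx
    refine closure_mono (subset_iUnion D l.support) (h3 _ ?_)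
    rw [Finsupp.linearCombination_apply, Finsupp.sum]
    exact Submodule.sum_mem _ fun j hj => Submodule.smul_mem _ _
      (Submodule.subset_span ⟨j, hj, rfl⟩)
  · refine (Cardinal.mk_iUnion_le _).trans ?_
    have a : Cardinal.mk (Finset G) ≤ κ := by
      classical
      exact (Cardinal.mk_le_of_surjective List.toFinset_surjective).trans
        ((Cardinal.mk_list_le_max G).trans (max_le hκ hG))
    have b : ⨆ s, Cardinal.mk (D s) ≤ κ :=
      ciSup_le' fun s => (Cardinal.le_aleph0_iff_set_countable.2 (h2 s)).trans hκ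
    calc _ ≤ κ * κ := mul_le_mul' a b
      _ = κ := Cardinal.mul_eq_self hκ

end ext

end Pool.Agent.H56.Scp
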