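import Mathlib

/-! Ladder systems on the first uncountable ordinal, along many eventually different graphs. -/

namespace Pool.Agent.H56.Scp

open Set Cardinal

section
variable {I : Type} [LinearOrder I] [WellFoundedLT I] [Uncountable I]

omit [WellFoundedLT I] in
theorem bdd (hI : ∀ a : I, (Iic a).Countable) (s : Set I) (hs : s.Countable) :
    ∃ b, ∀ a ∈ s, a < b := by
  by_contra hn
  push Not at hn
  have : (⋃ a ∈ s, Iic a).Countable := hs.biUnion fun a _ => hI a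
  refine not_countable_univ (this.mono fun b _ => ?_)
  obtain ⟨a, ha, hb⟩ := hn b
  exact mem_biUnion ha hb

omit [WellFoundedLT I] [Uncountable I] in
theorem exists_ladder (hI : ∀ a : I, (Iic a).Countable) :
    ∃ L : I → Set I, (∀ d, L d ⊆ Iio d) ∧ (∀ d a, a < d → (L d ∩ Iic a).Finite) ∧
      ∀ d a, a < d → (∀ b < d, ∃ c, b < c ∧ c < d) → (L d).Infinite := by
  have hn : ∀ d : I, ∃ n : I → ℕ, InjOn n (Iio d) := fun d =>
    countable_iff_exists_injOn.1 ((hI d).mono Iio_subset_Iic_self)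
  choose n hn using hn
  have hf : ∀ d a, {x | x < d ∧ n d x ≤ n d a}.Finite := fun d a =>
    Finite.of_finite_image (f := n d) ((finite_Iic (n d a)).subset (by
      rintro _ ⟨x, hx, rfl⟩; exact hx.2)) ((hn d).mono fun x hx => hx.1)
  refine ⟨fun d => {x | x < d ∧ ∀ y < d, n d y < n d x → y < x}, fun d x hx => hx.1,
    fun d a ha => (hf d a).subset fun x hx => ⟨hx.1.1, ?_⟩, fun d a ha hl => ?_⟩
  · by_contra h
    exact absurd (hx.1.2 a ha (not_le.1 h)) (not_lt.2 hx.2)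
  · have key : ∀ b < d, ∃ x, (x < d ∧ ∀ y < d, n d y < n d x → y < x) ∧ b < x := by
      intro b hb
      obtain ⟨c, hc1, hc2⟩ := hl b hb
      obtain ⟨x, hx, hmin⟩ := (InvImage.wf (n d) wellFounded_lt).has_min {x | b < x ∧ x < d}
        ⟨c, hc1, hc2⟩
      refine ⟨x, ⟨hx.2, fun y hy hlt => ?_⟩, hx.1⟩
      by_contra h
      exact hmin y ⟨hx.1.trans_le (not_lt.1 h), hy⟩ hlt
    intro hfin
    obtain ⟨x0, hx0, -⟩ := key a ha
    obtain ⟨m, hm, hmax⟩ := hfin.exists_maximal ⟨x0, hx0⟩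
    obtain ⟨x, hx, hmx⟩ := key m hm.1
    exact absurd (hmax hx hmx.le) (not_le.2 hmx)

theorem press (hI : ∀ a : I, (Iic a).Countable) (L : I → Set I) (h1 : ∀ d, L d ⊆ Iio d)
    (h3 : ∀ d a, a < d → (∀ b < d, ∃ c, b < c ∧ c < d) → (L d).Infinite)
    (F : I → Set I) (hF : ∀ d, (F d).Finite) : ∃ x, {d | x ∈ L d ∧ x ∉ F d}.Infinite := by
  by_contra hn
  push Not at hn
  have hg : ∀ a : I, ∃ g, a < g ∧ ∀ x ≤ a, ∀ d, x ∈ L d → x ∉ F d → d < g := by
    intro a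
    obtain ⟨g, hg⟩ := bdd hI (insert a (⋃ x ∈ Iic a, {d | x ∈ L d ∧ x ∉ F d}))
      (((hI a).biUnion fun x _ => (hn x).countable).insert a)
    exact ⟨g, hg a (mem_insert _ _), fun x hx d a1 a2 =>
      hg d (mem_insert_of_mem _ (mem_biUnion hx ⟨a1, a2⟩))⟩
  choose g hg1 hg2 using hg
  have : Nonempty I := inferInstance
  let a : ℕ → I := fun k => g^[k] (Classical.arbitrary I)
  have ha : ∀ k, a (k + 1) = g (a k) := fun k => Function.iterate_succ_apply' _ _ _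
  obtain ⟨b, hb⟩ := bdd hI (range a) (countable_range a)
  obtain ⟨d, hd, hmin⟩ := wellFounded_lt.has_min {d | ∀ k, a k ≤ d}
    ⟨b, fun k => (hb _ ⟨k, rfl⟩).le⟩
  have hlt : ∀ k, a k < d := fun k => (hg1 _).trans_le (ha k ▸ hd (k + 1))
  have hco : ∀ b < d, ∃ k, b < a k := fun b hb => by
    by_contra h
    push Not at h
    exact hmin b h hb
  have hinf := h3 d (a 0) (hlt 0) fun b hb => by
    obtain ⟨k, hk⟩ := hco b hb
    exact ⟨a k, hk, hlt k⟩
  obtain ⟨x, hx1, hx2⟩ := (hinf.sdiff (hF d)).nonempty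
  obtain ⟨k, hk⟩ := hco x (h1 d hx1)
  exact absurd (hg2 (a k) x hk.le d hx1 hx2) (not_lt.2 (ha k ▸ hd (k + 1)))

omit [WellFoundedLT I] in
theorem exists_family (hI : ∀ a : I, (Iic a).Countable) :
    ∃ B : Set (I → I), (∀ f ∈ B, ∀ g ∈ B, f ≠ g → {a | f a = g a}.Countable) ∧ #I < #B := by
  obtain ⟨B, hB⟩ := zorn_subset
    {B : Set (I → I) | ∀ f ∈ B, ∀ g ∈ B, f ≠ g → {a | f a = g a}.Countable} (fun c hc hch => by
      refine ⟨⋃₀ c, ?_, fun s hs => subset_sUnion_of_mem hs⟩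
      rintro f ⟨s, hs, hf⟩ g ⟨t, ht, hg⟩ hfg
      rcases hch.total hs ht with h | h
      · exact hc ht f (h hf) g hg hfg
      · exact hc hs f hf g (h hg) hfg)
  refine ⟨B, hB.prop, ?_⟩
  by_contra hn
  obtain ⟨ι⟩ := (Cardinal.le_def _ _).1 (not_lt.1 hn)
  have hh : ∀ a : I, ∃ y, ∀ b : B, ι b ≤ a → b.1 a ≠ y := by
    intro a
    have hc : ((fun b : B => b.1 a) '' (ι ⁻¹' Iic a)).Countable :=
      ((hI a).preimage ι.injective).image _
    obtain ⟨y, hy⟩ := bdd hI _ hc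
    exact ⟨y, fun b hb => (hy _ ⟨b, hb, rfl⟩).ne⟩
  choose h hh using hh
  have hc : ∀ f ∈ B, {a | f a = h a}.Countable := fun f hf =>
    (hI (ι ⟨f, hf⟩)).mono fun a ha => by
      by_contra hlt
      exact hh a ⟨f, hf⟩ (not_le.1 hlt).le ha
  have hmem : h ∈ B := by
    refine hB.eq_of_subset (t := insert h B) ?_ (subset_insert _ _) ▸ mem_insert _ _
    rintro f (rfl | hf) g (rfl | hg) hfg
    · exact absurd rfl hfg
    · simpa only [eq_comm] using hc g hg
    · exact hc f hf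
    · exact hB.prop f hf g hg hfg
  exact not_countable_univ (by simpa using hc h hmem)

end

theorem exists_comb : ∃ (Γ B K : Type) (A : B → K → Set Γ), #Γ ≤ ℵ₁ ∧ ℵ₁ < #B ∧
    (∀ b d, (A b d).Countable) ∧
    (∀ b d d', d ≠ d' → (A b d ∩ A b d').Finite) ∧
    (∀ b (C : Set Γ), C.Countable → {d | (A b d ∩ C).Infinite}.Countable) ∧
    (∀ b b', b ≠ b' → ((⋃ d, A b d) ∩ ⋃ d, A b' d).Countable) ∧
    (∀ b (F : K → Set Γ), (∀ d, (F d).Finite) → ∃ x, {d | x ∈ A b d ∧ x ∉ F d}.Infinite) := by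
  let I : Type := (ℵ₁ : Cardinal.{0}).ord.ToType
  have hcard : #I = ℵ₁ := mk_ord_toType _
  have : Uncountable I := aleph0_lt_mk_iff.1 (hcard ▸ aleph0_lt_aleph_one)
  have hI : ∀ a : I, (Iic a).Countable := fun a => by
    have h1 : #(Iio a) < ℵ₁ := by simpa [I] using mk_Iio_lt a
    have h2 : (Iio a).Countable := by
      rw [← le_aleph0_iff_set_countable]
      exact Order.lt_succ_iff.1 (h1.trans_eq succ_aleph0.symm)
    rw [← Iio_insert]
    exact h2.insert a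
  obtain ⟨L, h1, h2, h3⟩ := exists_ladder hI
  obtain ⟨B, hB1, hB2⟩ := exists_family hI
  have hinj : ∀ b : B, Function.Injective fun x : I => (x, b.1 x) := fun b x y h =>
    congrArg Prod.fst h
  have hlt : ∀ d d', d < d' → (L d ∩ L d').Finite := fun d d' h =>
    (h2 d' d h).subset fun x hx => ⟨hx.2, Iio_subset_Iic_self (h1 d hx.1)⟩
  refine ⟨I × I, B, I, fun b d => (fun x => (x, b.1 x)) '' L d, ?_, hcard ▸ hB2, fun b d => ?_,
    fun b d d' h => ?_, fun b C hC => ?_, fun b b' h => ?_, fun b F hF => ?_⟩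
  · simp [hcard]
  · exact ((hI d).mono ((h1 d).trans Iio_subset_Iic_self)).image _
  · rw [← image_inter (hinj b)]
    refine Finite.image _ ?_
    rcases lt_or_gt_of_ne h with h | h
    · exact hlt _ _ h
    · rw [inter_comm]; exact hlt _ _ h
  · obtain ⟨a, ha⟩ := bdd hI _ (hC.image Prod.fst)
    refine (hI a).mono fun d hd => ?_
    by_contra hn
    refine hd (((h2 d a (not_le.1 hn)).image fun x => (x, b.1 x)).subset ?_)
    rintro _ ⟨⟨x, hx, rfl⟩, hx2⟩
    exact ⟨x, ⟨hx, (ha _ ⟨_, hx2, rfl⟩).le⟩, rfl⟩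
  · refine ((hB1 b.1 b.2 b'.1 b'.2 (fun e => h (Subtype.ext e))).image
      fun x => (x, b.1 x)).mono ?_
    rintro y ⟨hy1, hy2⟩
    obtain ⟨d, x, -, rfl⟩ := mem_iUnion.1 hy1
    obtain ⟨d', x', -, he⟩ := mem_iUnion.1 hy2
    obtain ⟨rfl, he2⟩ := Prod.ext_iff.1 he
    exact ⟨x', he2.symm, rfl⟩
  · obtain ⟨x, hx⟩ := press hI L h1 h3 (fun d => (fun x => (x, b.1 x)) ⁻¹' F d)
      fun d => (hF d).preimage (hinj b).injOn
    exact ⟨(x, b.1 x), hx.mono fun d hd => ⟨⟨x, hd.1, rfl⟩, hd.2⟩⟩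

/-- disjointification -/
theorem disj {Γ K : Type} (A : K → Set Γ) (hfin : ∀ d d', d ≠ d' → (A d ∩ A d').Finite)
    (C : Set Γ) (hC : {d | (A d ∩ C).Infinite}.Countable) :
    ∃ E : K → Set Γ, (∀ d, E d ⊆ A d ∩ C) ∧ (∀ d d' x, x ∈ E d → x ∈ E d' → d = d') ∧
      ∀ d, ((A d ∩ C) \ E d).Finite := by
  obtain ⟨n, hn⟩ := countable_iff_exists_injOn.1 hC
  refine ⟨fun d => {x | x ∈ A d ∩ C ∧ (A d ∩ C).Infinite ∧
    ∀ d', (A d' ∩ C).Infinite → n d' < n d → x ∉ A d'}, fun d x hx => hx.1, ?_, fun d => ?_⟩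
  · intro d d' x hx hx'
    rcases lt_trichotomy (n d) (n d') with h | h | h
    · exact absurd hx.1.1 (hx'.2.2 d hx.2.1 h)
    · exact hn hx.2.1 hx'.2.1 h
    · exact absurd hx'.1.1 (hx.2.2 d' hx'.2.1 h)
  · by_cases hd : (A d ∩ C).Infinite
    · have hf : {d' | (A d' ∩ C).Infinite ∧ n d' < n d}.Finite :=
        Finite.of_finite_image (f := n) ((finite_Iio (n d)).subset (by
          rintro _ ⟨x, hx, rfl⟩; exact hx.2)) (hn.mono fun x hx => hx.1)
      refine (hf.biUnion (t := fun d' => A d ∩ A d') fun d' hd' =>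
        hfin d d' (by rintro rfl; exact lt_irrefl _ hd'.2)).subset fun x hx => ?_
      have := hx.2
      simp only [mem_ofPred_eq, not_and, not_forall, not_not] at this
      obtain ⟨d', h1, h2, h3⟩ := this hx.1 hd
      exact mem_biUnion (x := d') ⟨h1, h2⟩ ⟨hx.1.1, h3⟩
    · exact (not_infinite.1 hd).subset sdiff_subset

end Pool.Agent.H56.Scp
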