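import Pool.Agent.H56.Scp1
import Pool.Agent.H56.Scp2

/-! The space: an `ℓ₁`-amalgam of ladder system spaces over a common `c₀(Γ)`. -/

namespace Pool.Agent.H56.Scp

open Set Cardinal

variable {𝕜 : Type} [RCLike 𝕜] {Γ B K : Type}

/-- sets of pairs with at most one second coordinate over each first coordinate -/
def Sel (B K : Type) : Type := {S : Set (B × K) // ∀ b d d', (b, d) ∈ S → (b, d') ∈ S → d = d'}

open Classical in
/-- the coefficient functionals -/
noncomputable def co (𝕜 : Type) [RCLike 𝕜] (A : B → K → Set Γ) :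
    Γ ⊕ Sel B K → Γ ⊕ B × K → 𝕜
  | .inl x, .inl y => if x = y then 1 else 0
  | .inl x, .inr p => if x ∈ A p.1 p.2 then 1 else 0
  | .inr _, .inl _ => 0
  | .inr S, .inr p => if p ∈ S.1 then 1 else 0

theorem co_le (A : B → K → Set Γ) (c : Γ ⊕ Sel B K) (j : Γ ⊕ B × K) : ‖co 𝕜 A c j‖ ≤ 1 := by
  rcases c with x | S <;> rcases j with y | p <;> simp only [co] <;> (try split_ifs) <;> simp

open Classical in
theorem sum_ite_le {Z : Finset K} (q : K → Prop) (hq : ∀ d d', q d → q d' → d = d') :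
    ‖∑ d ∈ Z, (if q d then (1 : 𝕜) else 0)‖ ≤ 1 := by
  rw [Finset.sum_boole, RCLike.norm_natCast]
  exact_mod_cast Finset.card_le_one.2 fun a ha b hb =>
    hq a b (Finset.mem_filter.1 ha).2 (Finset.mem_filter.1 hb).2

section
variable {X : Type} [NormedAddCommGroup X] [NormedSpace 𝕜 X]
  {A : B → K → Set Γ} {u : Γ ⊕ B × K → X} {ev : Γ ⊕ Sel B K → X →L[𝕜] 𝕜}

open Classical in
theorem ev_sum1 (h0 : ∀ c j, ev c (u j) = co 𝕜 A c j) (x : Γ) (s : Finset Γ) :
    ev (.inl x) (∑ y ∈ s, u (.inl y)) = if x ∈ s then 1 else 0 := by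
  simp [map_sum, h0, co]

theorem ev_sum2 (h0 : ∀ c j, ev c (u j) = co 𝕜 A c j) (S : Sel B K) (s : Finset Γ) :
    ev (.inr S) (∑ y ∈ s, u (.inl y)) = 0 := by
  simp [map_sum, h0, co]

theorem scp [CompleteSpace X] (h0 : ∀ c j, ev c (u j) = co 𝕜 A c j) (h1 : ∀ c x, ‖ev c x‖ ≤ ‖x‖)
    (h2 : ∀ x M, 0 ≤ M → (∀ c, ‖ev c x‖ ≤ M) → ‖x‖ ≤ M)
    (hd : DenseRange (Finsupp.linearCombination 𝕜 u))
    (a1 : ∀ b d, (A b d).Countable) (a2 : ∀ b d d', d ≠ d' → (A b d ∩ A b d').Finite)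
    (a3 : ∀ b (C : Set Γ), C.Countable → {d | (A b d ∩ C).Infinite}.Countable)
    (T : Set (Γ ⊕ B × K)) (hT : T.Countable) :
    ∃ T' : Set (Γ ⊕ B × K), T ⊆ T' ∧ T'.Countable ∧ ∃ P : X →L[𝕜] X,
      (∀ x, P x ∈ closure (Submodule.span 𝕜 (u '' T') : Set X)) ∧
      ∀ x ∈ closure (Submodule.span 𝕜 (u '' T') : Set X), P x = x := by
  classical
  let D : Set (B × K) := Sum.inr ⁻¹' T
  have hD : D.Countable := hT.preimage Sum.inr_injective
  let C : Set Γ := Sum.inl ⁻¹' T ∪ ⋃ p ∈ D, A p.1 p.2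
  have hC : C.Countable := (hT.preimage Sum.inl_injective).union (hD.biUnion fun p _ => a1 _ _)
  have hAC : ∀ p ∈ D, A p.1 p.2 ⊆ C := fun p hp =>
    (subset_biUnion_of_mem (u := fun p : B × K => A p.1 p.2) hp).trans subset_union_right
  choose E e1 e2 e3 using fun b => disj (A b) (a2 b) C (a3 b C hC)
  let p : Γ ⊕ B × K → X := fun j => match j with
    | .inl y => if y ∈ C then u (.inl y) else 0
    | .inr q => if q ∈ D then u (.inr q) else ∑ y ∈ (e3 q.1 q.2).toFinset, u (.inl y)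
  obtain ⟨P, hP⟩ := exists_op h1 h2 hd p (by
    rintro (x | S)
    · by_cases hx : x ∈ C
      · refine ⟨.inl x, .inr ⟨{q | q ∉ D ∧ x ∈ E q.1 q.2}, fun b d d' a b' =>
          e2 b d d' x a.2 b'.2⟩, ?_⟩
        rintro (y | q)
        · simp only [p, h0, co, sub_zero]
          split_ifs with hy hxy hxy
          · simp [h0, co, hxy]
          · simp [h0, co, hxy]
          · exact absurd (hxy ▸ hx) hy
          · simp
        · simp only [p]
          split_ifs with hq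
          · simp [h0, co, hq]
          · rw [ev_sum1 h0]
            have := e1 q.1 q.2
            by_cases hE : x ∈ E q.1 q.2
            · simp [h0, co, hq, hE, (this hE).1]
            · simp [h0, co, hq, hE, hx]
      · refine ⟨.inl x, .inl x, ?_⟩
        rintro (y | q)
        · simp only [p, sub_self]
          split_ifs with hy
          · have : x ≠ y := fun e => hx (e ▸ hy)
            simp [h0, co, this]
          · simp
        · simp only [p, sub_self]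
          split_ifs with hq
          · have : x ∉ A q.1 q.2 := fun e => hx (hAC q hq e)
            simp [h0, co, this]
          · rw [ev_sum1 h0]
            simp [hx]
    · refine ⟨.inr ⟨S.1 ∩ D, fun b d d' a b' => S.2 b d d' a.1 b'.1⟩,
        .inr ⟨∅, fun _ _ _ a => absurd a (notMem_empty _)⟩, ?_⟩
      rintro (y | q)
      · simp only [p]
        split_ifs <;> simp [h0, co]
      · simp only [p]
        split_ifs with hq
        · simp [h0, co, hq]
        · rw [ev_sum2 h0]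
          simp [h0, co, hq])
  refine ⟨Sum.inl '' C ∪ Sum.inr '' D, ?_, (hC.image _).union (hD.image _), P, ?_, ?_⟩
  · rintro (y | q) h
    · exact Or.inl ⟨y, Or.inl h, rfl⟩
    · exact Or.inr ⟨q, h, rfl⟩
  · refine map_mem hd P (Submodule.span 𝕜 (u '' (Sum.inl '' C ∪ Sum.inr '' D))).topologicalClosure
      (Submodule.isClosed_topologicalClosure _) fun j => Submodule.le_topologicalClosure _ ?_
    rw [hP]
    rcases j with y | q
    · simp only [p]
      split_ifs with hy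
      · exact Submodule.subset_span ⟨_, Or.inl ⟨y, hy, rfl⟩, rfl⟩
      · exact Submodule.zero_mem _
    · simp only [p]
      split_ifs with hq
      · exact Submodule.subset_span ⟨_, Or.inr ⟨q, hq, rfl⟩, rfl⟩
      · refine Submodule.sum_mem _ fun y hy => Submodule.subset_span ⟨_, Or.inl ⟨y, ?_, rfl⟩, rfl⟩
        exact ((Finite.mem_toFinset _).1 hy).1.2
  · refine fix_closure P _ ?_
    rintro _ ⟨_, ⟨y, hy, rfl⟩ | ⟨q, hq, rfl⟩, rfl⟩
    · rw [hP]; simp only [p, if_pos hy]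
    · rw [hP]; simp only [p, if_pos hq]

theorem nocomp (h0 : ∀ c j, ev c (u j) = co 𝕜 A c j) (h1 : ∀ c x, ‖ev c x‖ ≤ ‖x‖)
    (h2 : ∀ x M, 0 ≤ M → (∀ c, ‖ev c x‖ ≤ M) → ‖x‖ ≤ M)
    (hd : DenseRange (Finsupp.linearCombination 𝕜 u)) (hB : ℵ₁ < #B)
    (a1 : ∀ b d, (A b d).Countable) (a2 : ∀ b d d', d ≠ d' → (A b d ∩ A b d').Finite)
    (a3 : ∀ b (C : Set Γ), C.Countable → {d | (A b d ∩ C).Infinite}.Countable)
    (a4 : ∀ b b', b ≠ b' → ((⋃ d, A b d) ∩ ⋃ d, A b' d).Countable)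
    (a5 : ∀ b (F : K → Set Γ), (∀ d, (F d).Finite) → ∃ x, {d | x ∈ A b d ∧ x ∉ F d}.Infinite)
    (P : X →L[𝕜] X) (hP : ∀ y, P (u (.inl y)) = u (.inl y)) (D : Set X) (hD : #D ≤ ℵ₁)
    (hPD : ∀ x, P x ∈ closure D) : False := by
  classical
  choose T hT1 hT2 using exists_supp hd
  have hB' : #(⋃ x : D, Prod.fst '' (Sum.inr ⁻¹' T x.1) : Set B) ≤ ℵ₁ := by
    refine (mk_iUnion_le _).trans ?_
    have b : ⨆ x : D, #(Prod.fst '' (Sum.inr ⁻¹' T x.1) : Set B) ≤ ℵ₁ :=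
      ciSup_le' fun x => (le_aleph0_iff_set_countable.2
        (((hT1 x).preimage Sum.inr_injective).image _)).trans aleph0_lt_aleph_one.le
    calc _ ≤ ℵ₁ * ℵ₁ := mul_le_mul' hD b
      _ = ℵ₁ := mul_eq_self aleph0_lt_aleph_one.le
  obtain ⟨b0, hb0⟩ : ∃ b0, b0 ∉ (⋃ x : D, Prod.fst '' (Sum.inr ⁻¹' T x.1) : Set B) := by
    by_contra hn
    push Not at hn
    rw [eq_univ_of_forall hn, mk_univ] at hB'
    exact absurd hB (not_lt.2 hB')
  let s : Set X := u '' {j | ∀ d, j ≠ .inr (b0, d)}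
  have hPs : ∀ x, P x ∈ closure (Submodule.span 𝕜 s : Set X) := fun x => by
    refine (closure_minimal (fun y hy => ?_) isClosed_closure) (hPD x)
    refine closure_mono (Submodule.span_mono (image_mono ?_)) (hT2 y)
    rintro j hj d rfl
    exact hb0 (mem_iUnion.2 ⟨⟨y, hy⟩, (b0, d), hj, rfl⟩)
  let U : Set Γ := ⋃ d, A b0 d
  have hE : ∀ b, b ≠ b0 → ∃ E : K → Set Γ, (∀ d, E d ⊆ A b d ∩ U) ∧
      (∀ d d' x, x ∈ E d → x ∈ E d' → d = d') ∧ ∀ d, ((A b d ∩ U) \ E d).Finite := fun b hb => by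
    refine disj (A b) (a2 b) U ((a3 b _ (a4 b b0 hb)).mono fun d hd => ?_)
    exact Infinite.mono (fun x hx => ⟨hx.1, mem_iUnion.2 ⟨d, hx.1⟩, hx.2⟩) hd
  choose! E e1 e2 e3 using hE
  let θ : U → X →L[𝕜] 𝕜 := fun x => ev (.inl x.1) -
    ev (.inr ⟨{q | q.1 ≠ b0 ∧ x.1 ∈ E q.1 q.2}, fun b d d' a b' => e2 b a.1 d d' x a.2 b'.2⟩)
  have hθ : ∀ g x, ‖θ g x‖ ≤ 2 * ‖x‖ := fun g x => by
    simp only [θ, sub_apply]
    refine (norm_sub_le _ _).trans ?_
    rw [two_mul]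
    exact add_le_add (h1 _ _) (h1 _ _)
  have hfin : ∀ x, {g | 1 / 2 < ‖θ g (P x)‖}.Finite := fun x => by
    refine c0_closure θ hθ s ?_ _ (hPs x)
    rintro _ ⟨y | ⟨b, d⟩, hj, rfl⟩
    · refine ((finite_singleton y).preimage Subtype.val_injective.injOn).subset fun g hg => ?_
      by_contra hn
      have : g.1 ≠ y := hn
      exact hg (by simp [θ, h0, co, this])
    · have hb : b ≠ b0 := by rintro rfl; exact hj d rfl
      refine ((e3 b hb d).preimage Subtype.val_injective.injOn).subset fun g hg => ?_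
      by_contra hn
      apply hg
      by_cases hE : g.1 ∈ E b d
      · simp [θ, h0, co, hb, hE, (e1 b hb d hE).1]
      · have : g.1 ∉ A b d := fun a => hn ⟨⟨a, g.2⟩, hE⟩
        simp [θ, h0, co, hE, this]
  obtain ⟨x, hx⟩ := a5 b0 (fun d => Subtype.val '' {g | 1 / 2 < ‖θ g (P (u (.inr (b0, d))))‖})
    fun d => (hfin _).image _
  obtain ⟨N, hN⟩ := exists_nat_gt (4 * (1 + ‖P‖))
  obtain ⟨Z, hZ, hZc⟩ := hx.exists_subset_card_eq N
  obtain ⟨d0, hd0⟩ := hx.nonempty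
  have hxU : x ∈ U := mem_iUnion.2 ⟨d0, hd0.1⟩
  obtain ⟨E', f1, f2, f3⟩ := disj (A b0) (a2 b0) (⋃ d ∈ Z, A b0 d)
    (a3 b0 _ (Z.countable_toSet.biUnion fun d _ => a1 b0 d))
  let z : X := ∑ d ∈ Z, (u (.inr (b0, d)) - ∑ y ∈ (f3 d).toFinset, u (.inl y))
  have hz : ‖z‖ ≤ 1 := by
    refine h2 _ _ zero_le_one ?_
    rintro (y | S)
    · have : ev (.inl y) z = ∑ d ∈ Z, if y ∈ E' d then (1 : 𝕜) else 0 := by
        simp only [z]
        rw [map_sum]
        refine Finset.sum_congr rfl fun d hd => ?_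
        rw [map_sub, ev_sum1 h0]
        by_cases hE : y ∈ E' d
        · simp [h0, co, hE, (f1 d hE).1]
        · by_cases hA : y ∈ A b0 d
          · have : ∃ i ∈ Z, y ∈ A b0 i := ⟨d, hd, hA⟩
            simp [h0, co, hE, hA, this]
          · simp [h0, co, hE, hA]
      rw [this]
      convert sum_ite_le (𝕜 := 𝕜) (Z := Z) (fun d => y ∈ E' d) fun d d' => f2 d d' y
    · have : ev (.inr S) z = ∑ d ∈ Z, if (b0, d) ∈ S.1 then (1 : 𝕜) else 0 := by
        simp only [z]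
        rw [map_sum]
        refine Finset.sum_congr rfl fun d hd => ?_
        rw [map_sub, ev_sum2 h0]
        simp [h0, co]
      rw [this]
      convert sum_ite_le (𝕜 := 𝕜) (Z := Z) (fun d => (b0, d) ∈ S.1) fun d d' => S.2 b0 d d'
  have hval : θ ⟨x, hxU⟩ (z - P z) =
      (N : 𝕜) - ∑ d ∈ Z, θ ⟨x, hxU⟩ (P (u (.inr (b0, d)))) := by
    have : z - P z = ∑ d ∈ Z, (u (.inr (b0, d)) - P (u (.inr (b0, d)))) := by
      simp only [z, map_sum, map_sub, hP]
      rw [← Finset.sum_sub_distrib]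
      exact Finset.sum_congr rfl fun d _ => by abel
    rw [this, map_sum, ← hZc, Finset.card_eq_sum_ones, Nat.cast_sum, ← Finset.sum_sub_distrib]
    refine Finset.sum_congr rfl fun d hd => ?_
    rw [map_sub]
    congr 1
    have := (hZ hd).1
    simp [θ, h0, co, this]
  have hsum : ‖∑ d ∈ Z, θ ⟨x, hxU⟩ (P (u (.inr (b0, d))))‖ ≤ N * (1 / 2) := by
    refine (norm_sum_le _ _).trans ?_
    rw [← hZc, ← nsmul_eq_mul]
    refine Finset.sum_le_card_nsmul _ _ _ fun d hd => ?_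
    by_contra hn
    exact (hZ hd).2 ⟨⟨x, hxU⟩, not_le.1 hn, rfl⟩
  have up : ‖θ ⟨x, hxU⟩ (z - P z)‖ ≤ 2 * (1 + ‖P‖) := by
    refine (hθ _ _).trans ?_
    have a := norm_sub_le z (P z)
    have b := P.le_opNorm z
    have c : ‖P‖ * ‖z‖ ≤ ‖P‖ * 1 := mul_le_mul_of_nonneg_left hz (norm_nonneg _)
    linarith
  have low := norm_sub_norm_le (N : 𝕜) (∑ d ∈ Z, θ ⟨x, hxU⟩ (P (u (.inr (b0, d)))))
  rw [← hval, RCLike.norm_natCast] at low
  linarith

end

end Pool.Agent.H56.Scp
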