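import Mathlib

open Polynomial Finset

namespace Pool.Agent.H56.Skew

variable {K : Type} [Field K] {ρ : K →+* K}

section act
variable {V W : Type} [AddCommGroup V] [Module K V] [AddCommGroup W] [Module K W]

/-- action of a skew polynomial through a semilinear operator -/
noncomputable def act (θ : V →ₛₗ[ρ] V) (P : K[X]) (v : V) : V :=
  P.sum (fun i a => a • θ^[i] v)

lemma iter_add (θ : V →ₛₗ[ρ] V) (i : ℕ) (v w : V) : θ^[i] (v + w) = θ^[i] v + θ^[i] w := by
  induction i with
  | zero => rfl
  | succ i ih => simp only [Function.iterate_succ_apply', ih, map_add]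

lemma iter_smul (θ : V →ₛₗ[ρ] V) (i : ℕ) (a : K) (v : V) :
    θ^[i] (a • v) = ρ^[i] a • θ^[i] v := by
  induction i with
  | zero => rfl
  | succ i ih => simp only [Function.iterate_succ_apply', ih, map_smulₛₗ]

lemma iter_zero (θ : V →ₛₗ[ρ] V) (i : ℕ) : θ^[i] 0 = 0 := by
  induction i with
  | zero => rfl
  | succ i ih => simp only [Function.iterate_succ_apply', ih, map_zero]

lemma act_monomial (θ : V →ₛₗ[ρ] V) (i : ℕ) (a : K) (v : V) :
    act θ (monomial i a) v = a • θ^[i] v := by
  unfold act
  rw [Polynomial.sum_monomial_index]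
  simp

lemma act_add (θ : V →ₛₗ[ρ] V) (P Q : K[X]) (v : V) :
    act θ (P + Q) v = act θ P v + act θ Q v := by
  unfold act
  rw [Polynomial.sum_add_index]
  · simp
  · intro i a b; rw [add_smul]

lemma act_zero (θ : V →ₛₗ[ρ] V) (v : V) : act θ 0 v = 0 := by simp [act]

lemma act_neg (θ : V →ₛₗ[ρ] V) (P : K[X]) (v : V) : act θ (-P) v = -act θ P v := by
  have := act_add θ P (-P) v
  rw [add_neg_cancel, act_zero] at this
  exact (neg_eq_of_add_eq_zero_right this.symm).symm

lemma act_sub (θ : V →ₛₗ[ρ] V) (P Q : K[X]) (v : V) :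
    act θ (P - Q) v = act θ P v - act θ Q v := by
  rw [sub_eq_add_neg, act_add, act_neg, sub_eq_add_neg]

lemma act_add_right (θ : V →ₛₗ[ρ] V) (P : K[X]) (v w : V) :
    act θ P (v + w) = act θ P v + act θ P w := by
  induction P using Polynomial.induction_on' with
  | add p q hp hq => simp only [act_add, hp, hq]; abel
  | monomial i a => simp only [act_monomial, iter_add, smul_add]

lemma act_zero_right (θ : V →ₛₗ[ρ] V) (P : K[X]) : act θ P 0 = 0 := by
  induction P using Polynomial.induction_on' with
  | add p q hp hq => simp only [act_add, hp, hq, add_zero]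
  | monomial i a => simp only [act_monomial, iter_zero, smul_zero]

lemma act_smul (θ : V →ₛₗ[ρ] V) (c : K) (P : K[X]) (v : V) :
    act θ (c • P) v = c • act θ P v := by
  induction P using Polynomial.induction_on' with
  | add p q hp hq => simp only [smul_add, act_add, hp, hq]
  | monomial i a => simp only [smul_monomial, act_monomial, smul_eq_mul, mul_smul]

lemma act_nat (θ : V →ₛₗ[ρ] V) (θ' : W →ₛₗ[ρ] W) (f : V →ₗ[K] W) (hf : ∀ v, f (θ v) = θ' (f v))
    (P : K[X]) (v : V) : f (act θ P v) = act θ' P (f v) := by
  have h : ∀ i, f (θ^[i] v) = θ'^[i] (f v) := by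
    intro i
    induction i with
    | zero => rfl
    | succ i ih => simp only [Function.iterate_succ_apply', hf, ih]
  induction P using Polynomial.induction_on' with
  | add p q hp hq => simp only [act_add, map_add, hp, hq]
  | monomial i a => simp only [act_monomial, map_smul, h]

lemma act_eq_sum (θ : V →ₛₗ[ρ] V) (P : K[X]) (v : V) (m : ℕ) (h : P.natDegree < m) :
    act θ P v = ∑ i ∈ range m, P.coeff i • θ^[i] v := by
  unfold act
  rw [Polynomial.sum_over_range' _ (by simp) m h]

end act

variable (ρ) in
/-- left multiplication by the skew variable -/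
noncomputable def T : K[X] →ₛₗ[ρ] K[X] where
  toFun P := X * P.map ρ
  map_add' P Q := by rw [Polynomial.map_add, mul_add]
  map_smul' c P := by
    rw [smul_eq_C_mul, smul_eq_C_mul, Polynomial.map_mul, map_C]; ring

lemma T_monomial (i : ℕ) (a : K) : T ρ (monomial i a) = monomial (i + 1) (ρ a) := by
  change X * (monomial i a).map ρ = _
  rw [map_monomial, X_mul_monomial]

lemma T_iter_monomial (j i : ℕ) (a : K) :
    (T ρ)^[j] (monomial i a) = monomial (j + i) (ρ^[j] a) := by
  induction j with
  | zero => simp
  | succ j ih =>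
    rw [Function.iterate_succ_apply', ih, T_monomial, Function.iterate_succ_apply']
    congr 2; ring

variable (ρ) in
/-- skew product -/
noncomputable def star (A B : K[X]) : K[X] := act (T ρ) A B

lemma star_monomial (i j : ℕ) (a b : K) :
    star ρ (monomial i a) (monomial j b) = monomial (i + j) (a * ρ^[i] b) := by
  unfold star
  rw [act_monomial, T_iter_monomial, smul_monomial, smul_eq_mul]

lemma star_add (A A' B : K[X]) : star ρ (A + A') B = star ρ A B + star ρ A' B := act_add _ _ _ _

lemma star_add_right (A B B' : K[X]) : star ρ A (B + B') = star ρ A B + star ρ A B' :=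
  act_add_right _ _ _ _

lemma star_sub (A A' B : K[X]) : star ρ (A - A') B = star ρ A B - star ρ A' B := act_sub _ _ _ _

lemma zero_star (B : K[X]) : star ρ 0 B = 0 := act_zero _ _

lemma star_zero (A : K[X]) : star ρ A 0 = 0 := act_zero_right _ _

lemma act_star {V : Type} [AddCommGroup V] [Module K V] (θ : V →ₛₗ[ρ] V) (A B : K[X]) (v : V) :
    act θ (star ρ A B) v = act θ A (act θ B v) := by
  induction A using Polynomial.induction_on' with
  | add p q hp hq => simp only [star_add, act_add, hp, hq]
  | monomial i a =>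
    induction B using Polynomial.induction_on' with
    | add p q hp hq => simp only [star_add_right, act_add, act_add_right, hp, hq]
    | monomial j b =>
      rw [star_monomial, act_monomial, act_monomial, act_monomial, iter_smul, mul_smul,
        Function.iterate_add_apply]

lemma star_assoc (A B C : K[X]) : star ρ (star ρ A B) C = star ρ A (star ρ B C) :=
  act_star _ _ _ _

lemma rho_iter_zero (i : ℕ) : ρ^[i] 0 = 0 := iterate_map_zero ρ i

lemma rho_iter_one (i : ℕ) : ρ^[i] 1 = 1 := iterate_map_one ρ i

lemma rho_iter_inj (i : ℕ) : Function.Injective (ρ^[i]) := ρ.injective.iterate i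

lemma coeff_star (A B : K[X]) (m : ℕ) :
    (star ρ A B).coeff m = ∑ x ∈ antidiagonal m, A.coeff x.1 * ρ^[x.1] (B.coeff x.2) := by
  induction A using Polynomial.induction_on' with
  | add p q hp hq => simp only [star_add, coeff_add, hp, hq, add_mul, sum_add_distrib]
  | monomial i a =>
    induction B using Polynomial.induction_on' with
    | add p q hp hq =>
      simp only [star_add_right, coeff_add, hp, hq, iterate_map_add, mul_add, sum_add_distrib]
    | monomial j b =>
      rw [star_monomial, coeff_monomial]
      split_ifs with h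
      · rw [sum_eq_single (i, j)]
        · simp
        · rintro ⟨x, y⟩ _ hne
          simp only [coeff_monomial]
          split_ifs with h1 h2
          · exact absurd (by rw [h1, h2]) hne
          · simp
          · simp
          · simp
        · intro h'; exact absurd (HasAntidiagonal.mem_antidiagonal.mpr h) h'
      · symm
        refine sum_eq_zero ?_
        rintro ⟨x, y⟩ hxy
        simp only [coeff_monomial]
        split_ifs with h1 h2
        · exact absurd (by rw [h1, h2]; exact HasAntidiagonal.mem_antidiagonal.mp hxy) h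
        · simp
        · simp
        · simp

lemma coeff_star_top (A B : K[X]) (i j : ℕ) (hA : A.natDegree ≤ i) (hB : B.natDegree ≤ j) :
    (star ρ A B).coeff (i + j) = A.coeff i * ρ^[i] (B.coeff j) := by
  rw [coeff_star, sum_eq_single (i, j)]
  · rintro ⟨x, y⟩ hxy hne
    rw [HasAntidiagonal.mem_antidiagonal] at hxy
    simp only at hxy ⊢
    by_cases h : i < x
    · rw [coeff_eq_zero_of_natDegree_lt (by omega), zero_mul]
    · have : j < y := by
        by_contra h'
        exact hne (by congr <;> omega)
      rw [coeff_eq_zero_of_natDegree_lt (p := B) (by omega), rho_iter_zero, mul_zero]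
  · intro h'; exact absurd (by simp) h'

lemma natDegree_star_le (A B : K[X]) : (star ρ A B).natDegree ≤ A.natDegree + B.natDegree := by
  rw [natDegree_le_iff_coeff_eq_zero]
  intro N hN
  obtain ⟨d, rfl⟩ : ∃ d, N = A.natDegree + (B.natDegree + d + 1) :=
    ⟨N - (A.natDegree + B.natDegree) - 1, by omega⟩
  rw [coeff_star_top A B _ _ le_rfl (by omega), coeff_eq_zero_of_natDegree_lt (p := B) (by omega),
    rho_iter_zero, mul_zero]

lemma star_top_ne {A B : K[X]} (hA : A ≠ 0) (hB : B ≠ 0) :
    (star ρ A B).coeff (A.natDegree + B.natDegree) ≠ 0 := by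
  rw [coeff_star_top A B _ _ le_rfl le_rfl]
  refine mul_ne_zero (leadingCoeff_ne_zero.mpr hA) (fun h => leadingCoeff_ne_zero.mpr hB ?_)
  exact rho_iter_inj _ (h.trans (rho_iter_zero _).symm)

lemma star_ne_zero {A B : K[X]} (hA : A ≠ 0) (hB : B ≠ 0) : star ρ A B ≠ 0 := by
  intro h
  have := star_top_ne (ρ := ρ) hA hB
  rw [h] at this
  simp at this

lemma natDegree_star {A B : K[X]} (hA : A ≠ 0) (hB : B ≠ 0) :
    (star ρ A B).natDegree = A.natDegree + B.natDegree :=
  le_antisymm (natDegree_star_le A B) (le_natDegree_of_ne_zero (star_top_ne hA hB))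

lemma leadingCoeff_star {A B : K[X]} (hA : A ≠ 0) (hB : B ≠ 0) :
    (star ρ A B).leadingCoeff = A.leadingCoeff * ρ^[A.natDegree] B.leadingCoeff := by
  rw [leadingCoeff, natDegree_star hA hB, coeff_star_top A B _ _ le_rfl le_rfl]
  rfl

lemma monic_star {A B : K[X]} (hA : A.Monic) (hB : B.Monic) : (star ρ A B).Monic := by
  unfold Monic
  rw [leadingCoeff_star hA.ne_zero hB.ne_zero, hA, hB, rho_iter_one, mul_one]

lemma degree_star (A B : K[X]) : (star ρ A B).degree = A.degree + B.degree := by
  by_cases hA : A = 0
  · simp [hA, zero_star]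
  by_cases hB : B = 0
  · simp [hB, star_zero]
  rw [degree_eq_natDegree (star_ne_zero hA hB), natDegree_star hA hB, degree_eq_natDegree hA,
    degree_eq_natDegree hB]
  push_cast; rfl

lemma nextCoeff_one' : (1 : K[X]).nextCoeff = 0 := by simp [nextCoeff]

lemma nextCoeff_star {A B : K[X]} (hA : A.Monic) (hB : B.Monic) :
    (star ρ A B).nextCoeff = A.nextCoeff + ρ^[A.natDegree] B.nextCoeff := by
  rcases Nat.eq_zero_or_pos A.natDegree with h0 | h0
  · have : A = 1 := hA.natDegree_eq_zero.mp h0
    have h1 : star ρ 1 B = B := by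
      unfold star
      rw [← monomial_zero_one, act_monomial]; simp
    subst this
    simp [h1, nextCoeff_one']
  rcases Nat.eq_zero_or_pos B.natDegree with h1 | h1
  · have : B = 1 := hB.natDegree_eq_zero.mp h1
    subst this
    have h2 : star ρ A 1 = A := by
      ext m
      have := coeff_star_top (ρ := ρ) A 1 (max m A.natDegree) 0 (le_max_right _ _) (by simp)
      rw [coeff_star, sum_eq_single (m, 0)]
      · simp
      · rintro ⟨x, y⟩ hxy hne
        rw [HasAntidiagonal.mem_antidiagonal] at hxy
        have : y ≠ 0 := by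
          rintro rfl
          exact hne (by simp at hxy; rw [hxy])
        simp [coeff_one, this]
      · intro h'; exact absurd (by simp) h'
    simp [h2, nextCoeff_one']
  obtain ⟨i, hi⟩ : ∃ i, A.natDegree = i + 1 := ⟨A.natDegree - 1, by omega⟩
  obtain ⟨j, hj⟩ : ∃ j, B.natDegree = j + 1 := ⟨B.natDegree - 1, by omega⟩
  have hd := natDegree_star (ρ := ρ) hA.ne_zero hB.ne_zero
  rw [nextCoeff_of_natDegree_pos (by omega), nextCoeff_of_natDegree_pos h0,
    nextCoeff_of_natDegree_pos h1, hd, hi, hj, coeff_star]
  have hA1 : A.coeff (i + 1) = 1 := by rw [← hi]; exact hA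
  have hB1 : B.coeff (j + 1) = 1 := by rw [← hj]; exact hB
  rw [sum_eq_add (i, j + 1) (i + 1, j)]
  · simp [hA1, hB1]
  · simp
  · rintro ⟨x, y⟩ hxy ⟨h2, h3⟩
    rw [HasAntidiagonal.mem_antidiagonal] at hxy
    simp only at hxy ⊢
    by_cases h : i + 1 < x
    · rw [coeff_eq_zero_of_natDegree_lt (by omega), zero_mul]
    · have : j + 1 < y := by
        by_contra h'
        by_cases h4 : x = i
        · exact h2 (by congr; omega)
        · exact h3 (by congr <;> omega)
      rw [coeff_eq_zero_of_natDegree_lt (p := B) (by omega), rho_iter_zero, mul_zero]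
  · intro h'; exact absurd (HasAntidiagonal.mem_antidiagonal.mpr (by simp only; omega)) h'
  · intro h'; exact absurd (HasAntidiagonal.mem_antidiagonal.mpr (by simp only; omega)) h'

lemma div_exists {B : K[X]} (hB : B.Monic) (P : K[X]) :
    ∃ Q H : K[X], P = star ρ Q B + H ∧ H.degree < B.degree := by
  induction hn : P.natDegree using Nat.strong_induction_on generalizing P with
  | _ n ih =>
    by_cases h : P.degree < B.degree
    · exact ⟨0, P, by simp [zero_star], h⟩
    have hP : P ≠ 0 := by
      rintro rfl
      exact h (by simpa [bot_lt_iff_ne_bot] using hB.ne_zero)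
    have hle : B.natDegree ≤ P.natDegree := natDegree_le_natDegree (not_lt.mp h)
    set Q₀ : K[X] := monomial (P.natDegree - B.natDegree) P.leadingCoeff with hQ₀
    have hlc : P.leadingCoeff ≠ 0 := leadingCoeff_ne_zero.mpr hP
    have hQ0 : Q₀ ≠ 0 := by simpa [hQ₀] using hP
    have hdeg : P.degree = (star ρ Q₀ B).degree := by
      rw [degree_eq_natDegree hP, degree_eq_natDegree (star_ne_zero hQ0 hB.ne_zero),
        natDegree_star hQ0 hB.ne_zero, hQ₀, natDegree_monomial_eq _ hlc]
      congr 1; omega
    have hl : P.leadingCoeff = (star ρ Q₀ B).leadingCoeff := by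
      rw [leadingCoeff_star hQ0 hB.ne_zero, hB, rho_iter_one, mul_one, hQ₀, leadingCoeff_monomial]
    have hlt := degree_sub_lt_left hdeg hP hl
    by_cases h0 : P - star ρ Q₀ B = 0
    · refine ⟨Q₀, 0, by rw [add_zero]; exact sub_eq_zero.mp h0, ?_⟩
      simpa [bot_lt_iff_ne_bot] using hB.ne_zero
    obtain ⟨Q, H, h1, h2⟩ := ih _ (hn ▸ natDegree_lt_natDegree h0 hlt) _ rfl
    refine ⟨Q₀ + Q, H, ?_, h2⟩
    rw [star_add, add_assoc, ← h1]; ring

lemma star_right_cancel {A A' B : K[X]} (h : (star ρ A B - star ρ A' B).degree < B.degree) :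
    A = A' := by
  rw [← star_sub, degree_star] at h
  by_contra hne
  have h1 : (0 : WithBot ℕ) ≤ (A - A').degree := zero_le_degree_iff.mpr (sub_ne_zero.mpr hne)
  have : B.degree ≤ (A - A').degree + B.degree := le_add_of_nonneg_left h1
  exact absurd h (not_lt.mpr this)

end Pool.Agent.H56.Skew
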