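import Mathlib
import Pool.Agent.H56.Skew1

open Polynomial Finset
open scoped Classical

namespace Pool.Agent.H56.Skew

variable {K : Type} [Field K] [Fintype K] {ρ : K →+* K}

variable (K) in
/-- polynomials of degree less than k -/
noncomputable def Low (k : ℕ) : Finset K[X] :=
  (univ : Finset (Fin k → K)).image (fun f => ((degreeLTEquiv K k).symm f : K[X]))

lemma mem_Low {k : ℕ} {P : K[X]} : P ∈ Low K k ↔ P.degree < k := by
  unfold Low
  simp only [mem_image, mem_univ, true_and]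
  constructor
  · rintro ⟨f, rfl⟩; exact mem_degreeLT.mp ((degreeLTEquiv K k).symm f).2
  · intro h; exact ⟨degreeLTEquiv K k ⟨P, mem_degreeLT.mpr h⟩, by simp⟩

lemma card_Low (k : ℕ) : (Low K k).card = Fintype.card K ^ k := by
  unfold Low
  rw [card_image_of_injective]
  · simp
  · intro f g h
    exact (degreeLTEquiv K k).symm.injective (Subtype.ext h)

variable (K) in
/-- monic polynomials of degree k -/
noncomputable def Mon (k : ℕ) : Finset K[X] := (Low K k).image (fun P => X ^ k + P)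

lemma mem_Mon {k : ℕ} {P : K[X]} : P ∈ Mon K k ↔ P.Monic ∧ P.natDegree = k := by
  unfold Mon
  simp only [mem_image, mem_Low]
  constructor
  · rintro ⟨Q, hQ, rfl⟩
    refine ⟨monic_X_pow_add hQ, ?_⟩
    rw [natDegree_add_eq_left_of_degree_lt (by simpa using hQ), natDegree_X_pow]
  · rintro ⟨h1, h2⟩
    refine ⟨P - X ^ k, ?_, by ring⟩
    have hd : P.degree = k := by rw [degree_eq_natDegree h1.ne_zero, h2]
    rw [← hd]
    exact degree_sub_lt_left (by rw [hd, degree_X_pow]) h1.ne_zero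
      (by rw [h1.leadingCoeff, leadingCoeff_X_pow])

lemma card_Mon (k : ℕ) : (Mon K k).card = Fintype.card K ^ k := by
  unfold Mon
  rw [card_image_of_injective _ (add_right_injective _), card_Low]

lemma degree_of_Mon {k : ℕ} {P : K[X]} (h : P ∈ Mon K k) : P.degree = k := by
  rw [degree_eq_natDegree (mem_Mon.mp h).1.ne_zero, (mem_Mon.mp h).2]

lemma add_mem_Mon {k : ℕ} {L U : K[X]} (hL : L ∈ Mon K k) (hU : U.degree < k) :
    L + U ∈ Mon K k := by
  have hd := degree_of_Mon hL
  rw [mem_Mon] at hL ⊢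
  refine ⟨hL.1.add_of_left (by rwa [hd]), ?_⟩
  rw [natDegree_add_eq_left_of_degree_lt (by rwa [hd]), hL.2]

lemma sub_lt_of_Mon {k : ℕ} {L L' : K[X]} (hL : L ∈ Mon K k) (hL' : L' ∈ Mon K k) :
    (L - L').degree < k := by
  rw [← degree_of_Mon hL]
  exact degree_sub_lt_left (by rw [degree_of_Mon hL, degree_of_Mon hL'])
    (mem_Mon.mp hL).1.ne_zero (by rw [(mem_Mon.mp hL).1, (mem_Mon.mp hL').1])

lemma nextCoeff_add_Mon {k : ℕ} {L U : K[X]} (hL : L ∈ Mon K (k + 1))
    (hU : U.degree < (k + 1 : ℕ)) : (L + U).nextCoeff = L.nextCoeff + U.coeff k := by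
  have h := (mem_Mon.mp (add_mem_Mon hL hU)).2
  have h' := (mem_Mon.mp hL).2
  rw [nextCoeff_of_natDegree_pos (by omega), nextCoeff_of_natDegree_pos (by omega), h, h',
    coeff_add]
  rfl

/-- sign character -/
noncomputable def psi (t : K →+ ZMod 2) (x : K) : ℤ := if t x = 0 then 1 else -1

omit [Fintype K] in
lemma psi_add (t : K →+ ZMod 2) (x y : K) : psi t (x + y) = psi t x * psi t y := by
  unfold psi
  rw [map_add]
  generalize t x = a
  generalize t y = b
  revert a b
  decide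

omit [Fintype K] in
lemma psi_sq (t : K →+ ZMod 2) (x : K) : psi t x * psi t x = 1 := by
  unfold psi; split_ifs <;> simp

omit [Fintype K] in
lemma psi_zero (t : K →+ ZMod 2) : psi t 0 = 1 := by simp [psi]

/-- standing hypotheses -/
structure Hyp (ρ : K →+* K) (t : K →+ ZMod 2) : Prop where
  two : (2 : K) = 0
  inv : ∀ x, t (ρ x) = t x
  nontriv : ∃ c, t c = 1
  fix : ∀ b, ρ b = b → b = 0 ∨ b = 1

variable {t : K →+ ZMod 2}

omit [Fintype K] in
lemma psi_iter (H : Hyp ρ t) (i : ℕ) (x : K) : psi t (ρ^[i] x) = psi t x := by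
  induction i with
  | zero => rfl
  | succ i ih => rw [Function.iterate_succ_apply', ← ih]; unfold psi; rw [H.inv]

omit [Fintype K] in
lemma exists_psi_neg (H : Hyp ρ t) {d : K} (hd : d ≠ 0) : ∃ c, psi t (c * d) = -1 := by
  obtain ⟨c, hc⟩ := H.nontriv
  refine ⟨c / d, ?_⟩
  rw [div_mul_cancel₀ _ hd]
  simp [psi, hc]

/-- character on monic skew polynomials -/
noncomputable def chi (t : K →+ ZMod 2) (P : K[X]) : ℤ := psi t P.nextCoeff

omit [Fintype K] in
lemma chi_star (H : Hyp ρ t) {A B : K[X]} (hA : A.Monic) (hB : B.Monic) :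
    chi t (star ρ A B) = chi t A * chi t B := by
  unfold chi
  rw [nextCoeff_star hA hB, psi_add, psi_iter H]

lemma chi_add {k : ℕ} {L U : K[X]} (hL : L ∈ Mon K (k + 1)) (hU : U.degree < (k + 1 : ℕ)) :
    chi t (L + U) = chi t L * psi t (U.coeff k) := by
  unfold chi
  rw [nextCoeff_add_Mon hL hU, psi_add]

omit [Fintype K] in
lemma add_self_poly (H : Hyp ρ t) (U : K[X]) : U + U = 0 := by
  rw [← two_smul K U, H.two, zero_smul]

variable (ρ t) in
/-- inner sum -/
noncomputable def Inn (k : ℕ) (B A : K[X]) : ℤ :=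
  ∑ x ∈ (Mon K k ×ˢ Mon K k).filter (fun x => star ρ x.2 B = star ρ A x.1), chi t x.1 * chi t x.2

variable (ρ t) in
/-- the Rankin-Selberg type sum -/
noncomputable def Sig (k : ℕ) : ℤ := ∑ B ∈ Low K k, ∑ A ∈ Low K k, Inn ρ t k B A

lemma Inn_shift (H : Hyp ρ t) {k : ℕ} {B A U U' : K[X]} (hU : U.degree < (k + 1 : ℕ))
    (hU' : U'.degree < (k + 1 : ℕ)) (he : star ρ U' B = star ρ A U)
    (hs : psi t (U.coeff k + U'.coeff k) = -1) : Inn ρ t (k + 1) B A = 0 := by
  unfold Inn
  refine sum_involution (fun x _ => (x.1 + U, x.2 + U')) ?_ ?_ ?_ ?_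
  · intro x hx
    simp only [mem_filter, mem_product] at hx
    rw [chi_add hx.1.1 hU, chi_add hx.1.2 hU']
    rw [psi_add] at hs
    linear_combination chi t x.1 * chi t x.2 * hs
  · intro x _ _ h
    have h1 : U = 0 := by simpa using congrArg Prod.fst h
    have h2 : U' = 0 := by simpa using congrArg Prod.snd h
    rw [h1, h2] at hs
    simp [psi_zero] at hs
  · intro x hx
    simp only [mem_filter, mem_product] at hx ⊢
    refine ⟨⟨add_mem_Mon hx.1.1 hU, add_mem_Mon hx.1.2 hU'⟩, ?_⟩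
    rw [star_add, star_add_right, hx.2, he]
  · intro x _
    simp only [add_assoc, add_self_poly H, add_zero]

lemma Inn_ne_zero {k : ℕ} {B A : K[X]} (h : Inn ρ t k B A ≠ 0) :
    ∃ L ∈ Mon K k, ∃ L' ∈ Mon K k, star ρ L' B = star ρ A L := by
  obtain ⟨x, hx, -⟩ := exists_ne_zero_of_sum_ne_zero h
  simp only [mem_filter, mem_product] at hx
  exact ⟨x.1, hx.1.1, x.2, hx.1.2, hx.2⟩

lemma monic_of_Inn_ne_zero (H : Hyp ρ t) {k : ℕ} {B A : K[X]} (hB : B.degree < (k + 1 : ℕ))
    (h : Inn ρ t (k + 1) B A ≠ 0) : B.Monic ∧ A.Monic ∧ A.natDegree = B.natDegree := by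
  obtain ⟨L, hL, L', hL', he⟩ := Inn_ne_zero h
  rw [mem_Mon] at hL hL'
  have hB0 : B ≠ 0 := by
    rintro rfl
    have hA : A = 0 := by
      by_contra hA
      exact star_ne_zero hA hL.1.ne_zero (by rw [← he, star_zero])
    subst hA
    obtain ⟨c, hc⟩ := exists_psi_neg H (one_ne_zero (α := K))
    refine h (Inn_shift H (U := monomial k c) (U' := 0) ?_ ?_ ?_ ?_)
    · exact lt_of_le_of_lt (degree_monomial_le _ _) (by exact_mod_cast Nat.lt_succ_self k)
    · simp
    · simp [zero_star]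
    · simpa using hc
  have hA0 : A ≠ 0 := by
    rintro rfl
    exact star_ne_zero hL'.1.ne_zero hB0 (by rw [he, zero_star])
  have hd : A.natDegree = B.natDegree := by
    have h1 := natDegree_star (ρ := ρ) hL'.1.ne_zero hB0
    have h2 := natDegree_star (ρ := ρ) hA0 hL.1.ne_zero
    rw [he] at h1
    omega
  have hl : A.leadingCoeff = ρ^[k + 1] B.leadingCoeff := by
    have h1 := leadingCoeff_star (ρ := ρ) hL'.1.ne_zero hB0
    have h2 := leadingCoeff_star (ρ := ρ) hA0 hL.1.ne_zero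
    rw [he, h2, hL.1, hL'.1, rho_iter_one, mul_one, one_mul, hL'.2] at h1
    exact h1
  have hBm : B.Monic := by
    by_contra hne
    have hlt : B.natDegree < k + 1 := (natDegree_lt_iff_degree_lt hB0).mpr hB
    obtain ⟨m, hm⟩ : ∃ m, k = m + B.natDegree := ⟨k - B.natDegree, by omega⟩
    set b := B.leadingCoeff with hb
    have hb1 : b + ρ b ≠ 0 := by
      intro h0
      have : ρ b = b := by linear_combination h0 - b * H.two
      rcases H.fix b this with h1 | h1
      · exact leadingCoeff_ne_zero.mpr hB0 h1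
      · exact hne h1
    have hd1 : ρ^[m] (b + ρ b) ≠ 0 := fun h0 => hb1 (rho_iter_inj m (h0.trans (rho_iter_zero m).symm))
    obtain ⟨c, hc⟩ := exists_psi_neg H hd1
    have hQ : (monomial m c : K[X]).natDegree ≤ m := natDegree_monomial_le c
    refine h (Inn_shift H (U := star ρ (monomial m c) B) (U' := star ρ A (monomial m c))
      ?_ ?_ (star_assoc _ _ _) ?_)
    · refine lt_of_le_of_lt degree_le_natDegree ?_
      have := natDegree_star_le (ρ := ρ) (monomial m c) B
      exact_mod_cast (by omega)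
    · refine lt_of_le_of_lt degree_le_natDegree ?_
      have := natDegree_star_le (ρ := ρ) A (monomial m c)
      exact_mod_cast (by omega)
    · have h1 := coeff_star_top (ρ := ρ) (monomial m c) B m B.natDegree hQ le_rfl
      have h2 := coeff_star_top (ρ := ρ) A (monomial m c) A.natDegree m le_rfl hQ
      rw [← hm] at h1
      rw [show A.natDegree + m = k by omega] at h2
      rw [h1, h2, coeff_monomial_same, coeff_natDegree, coeff_natDegree, hl, hd, ← hb,
        show k + 1 = B.natDegree + (m + 1) by omega, Function.iterate_add_apply,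
        ← iterate_map_mul, psi_add, psi_iter H, ← psi_add, ← hc, iterate_map_add,
        Function.iterate_succ_apply]
      congr 1; ring
  refine ⟨hBm, ?_, hd⟩
  unfold Monic
  rw [hl, hBm, rho_iter_one]

lemma Inn_monic (H : Hyp ρ t) {m j : ℕ} {B A : K[X]} (hB : B ∈ Mon K j) (hA : A ∈ Mon K j) :
    Inn ρ t (m + 1 + j) B A = (Fintype.card K : ℤ) ^ (m + 1) * (chi t B * chi t A) *
      ((Low K j ×ˢ Low K j).filter (fun y => star ρ A y.1 = star ρ y.2 B)).card := by
  have hBd := degree_of_Mon hB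
  have hAd := degree_of_Mon hA
  have hB' := mem_Mon.mp hB
  have hA' := mem_Mon.mp hA
  have hjk : (j : WithBot ℕ) < (m + j + 1 : ℕ) := by exact_mod_cast (by omega)
  have e : m + 1 + j = m + j + 1 := by ring
  have : (Fintype.card K : ℤ) ^ (m + 1) * (chi t B * chi t A) *
      ((Low K j ×ˢ Low K j).filter (fun y => star ρ A y.1 = star ρ y.2 B)).card
      = ∑ z ∈ Mon K (m + 1) ×ˢ ((Low K j ×ˢ Low K j).filter
        (fun y => star ρ A y.1 = star ρ y.2 B)), chi t B * chi t A := by
    rw [sum_const, card_product, card_Mon, nsmul_eq_mul]; push_cast; ring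
  rw [this]
  unfold Inn
  have hQB : ∀ Q ∈ Mon K (m + 1), star ρ Q B ∈ Mon K (m + j + 1) ∧
      star ρ A Q ∈ Mon K (m + j + 1) := by
    intro Q hQ
    rw [mem_Mon] at hQ
    simp only [mem_Mon]
    refine ⟨⟨monic_star hQ.1 hB'.1, ?_⟩, monic_star hA'.1 hQ.1, ?_⟩
    · rw [natDegree_star hQ.1.ne_zero hB'.1.ne_zero]; omega
    · rw [natDegree_star hA'.1.ne_zero hQ.1.ne_zero]; omega
  symm
  refine sum_bij (fun z _ => (star ρ z.1 B + z.2.1, star ρ A z.1 + z.2.2)) ?_ ?_ ?_ ?_
  · rintro ⟨Q, Hh, H'⟩ hz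
    simp only [mem_product, mem_filter, mem_Low] at hz ⊢
    rw [e]
    refine ⟨⟨add_mem_Mon (hQB Q hz.1).1 (hz.2.1.1.trans hjk),
      add_mem_Mon (hQB Q hz.1).2 (hz.2.1.2.trans hjk)⟩, ?_⟩
    rw [star_add, star_add_right, star_assoc, hz.2.2]
  · rintro ⟨Q, Hh, H'⟩ hz ⟨Q2, Hh2, H2'⟩ hz2 h
    simp only [mem_product, mem_filter, mem_Low, Prod.mk.injEq] at hz hz2 h ⊢
    have hQ : Q = Q2 := by
      apply star_right_cancel (ρ := ρ) (B := B)
      rw [show star ρ Q B - star ρ Q2 B = Hh2 - Hh by linear_combination h.1, hBd]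
      exact lt_of_le_of_lt (degree_sub_le _ _) (max_lt hz2.2.1.1 hz.2.1.1)
    subst hQ
    exact ⟨rfl, add_left_cancel h.1, add_left_cancel h.2⟩
  · rintro ⟨L, L'⟩ hx
    simp only [mem_product, mem_filter] at hx
    obtain ⟨⟨hL, hL'⟩, he⟩ := hx
    obtain ⟨Q, Hh, h1, h2⟩ := div_exists (ρ := ρ) hB'.1 L
    rw [hBd] at h2
    have hQBm : star ρ Q B ∈ Mon K (m + 1 + j) := by
      rw [show star ρ Q B = L + (-Hh) by rw [h1]; ring]
      exact add_mem_Mon hL (by rw [degree_neg, e]; exact h2.trans hjk)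
    rw [mem_Mon] at hQBm
    have hQ0 : Q ≠ 0 := by
      rintro rfl
      exact hQBm.1.ne_zero (zero_star _)
    have hQ : Q ∈ Mon K (m + 1) := by
      rw [mem_Mon]
      have h3 := natDegree_star (ρ := ρ) hQ0 hB'.1.ne_zero
      have h4 := leadingCoeff_star (ρ := ρ) hQ0 hB'.1.ne_zero
      rw [hQBm.1, hB'.1, rho_iter_one, mul_one] at h4
      exact ⟨h4.symm, by omega⟩
    have h5 : star ρ A Hh = star ρ (L' - star ρ A Q) B := by
      rw [star_sub, he, star_assoc, h1, star_add_right]; ring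
    have h6 : (L' - star ρ A Q).degree < j := by
      have h7 := congrArg degree h5
      rw [degree_star, degree_star, hAd, hBd, add_comm] at h7
      have h8 := WithBot.add_right_cancel (by simp) h7
      rw [← h8]; exact h2
    refine ⟨(Q, Hh, L' - star ρ A Q), ?_, ?_⟩
    · simp only [mem_product, mem_filter, mem_Low]
      exact ⟨hQ, ⟨h2, h6⟩, h5⟩
    · simp [h1]
  · rintro ⟨Q, Hh, H'⟩ hz
    simp only [mem_product, mem_filter, mem_Low] at hz ⊢
    have hQ := mem_Mon.mp hz.1
    rw [chi_add (hQB Q hz.1).1 (hz.2.1.1.trans hjk), chi_add (hQB Q hz.1).2 (hz.2.1.2.trans hjk),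
      chi_star H hQ.1 hB'.1, chi_star H hA'.1 hQ.1,
      coeff_eq_zero_of_degree_lt (hz.2.1.1.trans_le (by exact_mod_cast (by omega))),
      coeff_eq_zero_of_degree_lt (hz.2.1.2.trans_le (by exact_mod_cast (by omega))), psi_zero]
    have := psi_sq t Q.nextCoeff
    unfold chi at *
    linear_combination (-(psi t B.nextCoeff * psi t A.nextCoeff)) * this

lemma Sig_eq (k : ℕ) : Sig ρ t k = ∑ L ∈ Mon K k, ∑ L' ∈ Mon K k, chi t L * chi t L' *
      ((Low K k ×ˢ Low K k).filter (fun y => star ρ L' y.1 = star ρ y.2 L)).card := by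
  unfold Sig Inn
  rw [← sum_product', ← sum_product']
  simp only [sum_filter, card_filter]
  rw [sum_comm]
  refine sum_congr rfl (fun x _ => ?_)
  push_cast
  rw [mul_sum]
  refine sum_congr rfl (fun y _ => ?_)
  split_ifs <;> simp

lemma Sig_zero : Sig ρ t 0 = 1 := by
  rw [Sig_eq]
  have h1 : Mon K 0 = {1} := by
    ext P
    rw [mem_Mon, mem_singleton]
    constructor
    · rintro ⟨h1, h2⟩; exact h1.natDegree_eq_zero.mp h2
    · rintro rfl; simp
  have h2 : Low K 0 = {0} := by
    ext P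
    rw [mem_Low, mem_singleton]
    simp
  rw [h1, h2]
  simp [chi, nextCoeff_one', psi_zero, star_zero, zero_star, filter_singleton]

lemma Sig_succ (H : Hyp ρ t) (k : ℕ) : Sig ρ t (k + 1) =
    ∑ j ∈ range (k + 1), (Fintype.card K : ℤ) ^ (k + 1 - j) * Sig ρ t j := by
  have h1 : ∀ j ∈ range (k + 1), (Fintype.card K : ℤ) ^ (k + 1 - j) * Sig ρ t j
      = ∑ B ∈ Mon K j, ∑ A ∈ Mon K j, Inn ρ t (k + 1) B A := by
    intro j hj
    rw [mem_range] at hj
    rw [Sig_eq, mul_sum]
    refine sum_congr rfl (fun B hB => ?_)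
    rw [mul_sum]
    refine sum_congr rfl (fun A hA => ?_)
    have := Inn_monic H (m := k - j) hB hA
    rw [show k - j + 1 + j = k + 1 by omega, show k - j + 1 = k + 1 - j by omega] at this
    rw [this]; ring
  rw [sum_congr rfl h1]
  unfold Sig
  rw [← sum_product']
  simp only [← sum_product']
  rw [← sum_biUnion]
  · symm
    refine sum_subset ?_ ?_
    · intro x hx
      simp only [mem_biUnion, mem_product, mem_range, mem_Low] at hx ⊢
      obtain ⟨j, hj, h1, h2⟩ := hx
      rw [degree_of_Mon h1, degree_of_Mon h2]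
      exact ⟨by exact_mod_cast hj, by exact_mod_cast hj⟩
    · intro x hx hx'
      by_contra hne
      simp only [mem_product, mem_Low] at hx
      obtain ⟨h1, h2, h3⟩ := monic_of_Inn_ne_zero H hx.1 hne
      apply hx'
      simp only [mem_biUnion, mem_product, mem_range, mem_Mon]
      exact ⟨x.1.natDegree, (natDegree_lt_iff_degree_lt h1.ne_zero).mpr hx.1, ⟨h1, rfl⟩, h2, h3⟩
  · intro i _ j _ hij
    simp only [Function.onFun]
    rw [disjoint_left]
    intro x hx hx'
    simp only [mem_product, mem_Mon] at hx hx'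
    exact hij (hx.1.2.symm.trans hx'.1.2)

theorem Sig_val (H : Hyp ρ t) (k : ℕ) :
    Sig ρ t (k + 1) = (Fintype.card K : ℤ) ^ (k + 1) * 2 ^ k := by
  induction k with
  | zero => rw [Sig_succ H]; simp [Sig_zero]
  | succ k ih =>
    have h := Sig_succ H k
    rw [Sig_succ H, sum_range_succ]
    have : ∑ j ∈ range (k + 1), (Fintype.card K : ℤ) ^ (k + 1 + 1 - j) * Sig ρ t j
        = Fintype.card K * Sig ρ t (k + 1) := by
      rw [h, mul_sum]
      refine sum_congr rfl (fun j hj => ?_)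
      rw [mem_range] at hj
      rw [show k + 1 + 1 - j = (k + 1 - j) + 1 by omega]; ring
    rw [this, ih, show k + 1 + 1 - (k + 1) = 1 by omega]
    ring

end Pool.Agent.H56.Skew
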