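import Mathlib
import Pool.Agent.H56.Skew2

open Polynomial Finset Module
open scoped Classical

namespace Pool.Agent.H56.Skew

variable {K : Type} [Field K] [Fintype K] {ρ : K →+* K} {t : K →+ ZMod 2} {k : ℕ}

noncomputable instance fintypeSemi : Fintype ((Fin k → K) →ₛₗ[ρ] (Fin k → K)) :=
  @Fintype.ofFinite _ (Finite.of_injective _ DFunLike.coe_injective)

/-- cyclic vectors -/
def Cyc (θ : (Fin k → K) →ₛₗ[ρ] (Fin k → K)) (w : Fin k → K) : Prop :=
  ∀ P : K[X], P.degree < k → act θ P w = 0 → P = 0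

variable (t) in
/-- local sum -/
noncomputable def ee (θ : (Fin k → K) →ₛₗ[ρ] (Fin k → K)) (w : Fin k → K) : ℤ :=
  ∑ L ∈ (Mon K k).filter (fun L => act θ L w = 0), chi t L

variable (t) in
/-- total sum -/
noncomputable def EE (θ : (Fin k → K) →ₛₗ[ρ] (Fin k → K)) : ℤ := ∑ w, ee t θ w

variable (ρ t k) in
/-- the same sum in polynomial terms -/
noncomputable def GG (L : K[X]) : ℤ := ∑ L' ∈ Mon K k, chi t L' *
      ((Low K k ×ˢ Low K k).filter (fun y => star ρ L' y.1 = star ρ y.2 L)).card

lemma ee_noncyc (H : Hyp ρ t) {θ : (Fin (k + 1) → K) →ₛₗ[ρ] (Fin (k + 1) → K)}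
    {w : Fin (k + 1) → K} (h : ¬ Cyc θ w) : ee t θ w = 0 := by
  unfold Cyc at h
  push Not at h
  obtain ⟨P, h1, h2, h3⟩ := h
  have hlt : P.natDegree < k + 1 := (natDegree_lt_iff_degree_lt h3).mpr h1
  obtain ⟨m, hm⟩ : ∃ m, k = m + P.natDegree := ⟨k - P.natDegree, by omega⟩
  have hd1 : ρ^[m] P.leadingCoeff ≠ 0 := fun h0 =>
    leadingCoeff_ne_zero.mpr h3 (rho_iter_inj m (h0.trans (rho_iter_zero m).symm))
  obtain ⟨c, hc⟩ := exists_psi_neg H hd1
  have hQ : (monomial m c : K[X]).natDegree ≤ m := natDegree_monomial_le c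
  set U := star ρ (monomial m c) P with hU
  have hUd : U.degree < (k + 1 : ℕ) := by
    refine lt_of_le_of_lt degree_le_natDegree ?_
    have := natDegree_star_le (ρ := ρ) (monomial m c) P
    exact_mod_cast (by rw [hU]; omega)
  have hUc : psi t (U.coeff k) = -1 := by
    have h1 := coeff_star_top (ρ := ρ) (monomial m c) P m P.natDegree hQ le_rfl
    rw [← hm] at h1
    rw [hU, h1, coeff_monomial_same, coeff_natDegree, hc]
  have hUw : act θ U w = 0 := by rw [hU, act_star, h2, act_zero_right]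
  unfold ee
  refine sum_involution (fun L _ => L + U) ?_ ?_ ?_ ?_
  · intro L hL
    rw [chi_add (mem_filter.mp hL).1 hUd, hUc]; ring
  · intro L _ _ h
    have h1 : U = 0 := by simpa using h
    rw [h1] at hUc
    simp [psi_zero] at hUc
  · intro L hL
    rw [mem_filter] at hL ⊢
    exact ⟨add_mem_Mon hL.1 hUd, by rw [act_add, hL.2, hUw, add_zero]⟩
  · intro L _
    simp only [add_assoc, add_self_poly H, add_zero]

variable {θ : (Fin k → K) →ₛₗ[ρ] (Fin k → K)} {w : Fin k → K}

omit [Fintype K] in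
lemma Cyc.inj (h : Cyc θ w) {P Q : K[X]} (hd : (P - Q).degree < k)
    (he : act θ P w = act θ Q w) : P = Q :=
  sub_eq_zero.mp (h _ hd (by rw [act_sub, he, sub_self]))

lemma Cyc.surj (h : Cyc θ w) (v : Fin k → K) : ∃ P : K[X], P.degree < k ∧ act θ P w = v := by
  have := surjOn_of_injOn_of_card_le (s := Low K k) (t := univ) (fun P => act θ P w)
    (fun _ _ => by simp) (fun P hP Q hQ he => h.inj (lt_of_le_of_lt (degree_sub_le _ _)
      (max_lt (mem_Low.mp hP) (mem_Low.mp hQ))) he) (by simp [card_Low])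
  obtain ⟨P, hP, he⟩ := this (mem_coe.mpr (mem_univ v))
  exact ⟨P, mem_Low.mp hP, he⟩

lemma Cyc.exists_Mon (h : Cyc θ w) : ∃ D ∈ Mon K k, act θ D w = 0 := by
  obtain ⟨P, h1, h2⟩ := h.surj (act θ (X ^ k) w)
  refine ⟨X ^ k + (-P), add_mem_Mon (mem_Mon.mpr ⟨monic_X_pow k, natDegree_X_pow k⟩)
    (by rwa [degree_neg]), ?_⟩
  rw [act_add, act_neg, h2, add_neg_cancel]

lemma Cyc.ee_eq (h : Cyc θ w) {D : K[X]} (hD : D ∈ Mon K k) (hw : act θ D w = 0) :
    ee t θ w = chi t D := by
  unfold ee
  rw [sum_eq_single D]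
  · intro L hL hne
    rw [mem_filter] at hL
    exact absurd (h.inj (sub_lt_of_Mon hL.1 hD) (by rw [hL.2, hw])) hne
  · intro h'; exact absurd (mem_filter.mpr ⟨hD, hw⟩) h'

lemma EE_swap (θ : (Fin k → K) →ₛₗ[ρ] (Fin k → K)) : EE t θ =
    ∑ L ∈ Mon K k, chi t L * (univ.filter (fun v => act θ L v = 0)).card := by
  unfold EE ee
  simp only [sum_filter, card_filter]
  rw [sum_comm]
  refine sum_congr rfl (fun L _ => ?_)
  push_cast
  rw [mul_sum]
  refine sum_congr rfl (fun y _ => ?_)
  split_ifs <;> simp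

lemma Cyc.EE_eq (h : Cyc θ w) {L : K[X]} (hL : L ∈ Mon K k) (hw : act θ L w = 0) :
    EE t θ = GG ρ t k L := by
  rw [EE_swap]
  unfold GG
  refine sum_congr rfl (fun L' hL' => ?_)
  congr 2
  symm
  have hLd := degree_of_Mon hL
  refine card_bij (fun y _ => act θ y.1 w) ?_ ?_ ?_
  · rintro ⟨B, A⟩ hy
    simp only [mem_filter, mem_product, mem_univ, true_and] at hy ⊢
    rw [← act_star, hy.2, act_star, hw, act_zero_right]
  · rintro ⟨B, A⟩ hy ⟨B2, A2⟩ hy2 he
    simp only [mem_filter, mem_product, mem_Low, Prod.mk.injEq] at hy hy2 he ⊢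
    have hB : B = B2 := h.inj (lt_of_le_of_lt (degree_sub_le _ _) (max_lt hy.1.1 hy2.1.1)) he
    subst hB
    refine ⟨rfl, star_right_cancel (ρ := ρ) (B := L) ?_⟩
    rw [← hy.2, ← hy2.2, sub_self, hLd]
    simp
  · intro v hv
    simp only [mem_filter, mem_univ, true_and] at hv
    obtain ⟨B, hB, rfl⟩ := h.surj v
    obtain ⟨A, Hh, h1, h2⟩ := div_exists (ρ := ρ) (mem_Mon.mp hL).1 (star ρ L' B)
    rw [hLd] at h2
    have h3 : Hh = 0 := by
      refine h _ h2 ?_
      have := congrArg (fun P => act θ P w) h1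
      simp only [act_add, act_star, hw, act_zero_right, hv, zero_add] at this
      exact this.symm
    rw [h3, add_zero] at h1
    refine ⟨(B, A), ?_, rfl⟩
    simp only [mem_filter, mem_product, mem_Low]
    refine ⟨⟨hB, ?_⟩, h1⟩
    have h7 := congrArg degree h1
    rw [degree_star, degree_star, hLd, degree_of_Mon hL', add_comm] at h7
    have h8 := WithBot.add_right_cancel (by simp) h7
    rw [← h8]; exact hB

omit [Fintype K] in
lemma act_eq_sum_fin {V : Type} [AddCommGroup V] [Module K V] (θ : V →ₛₗ[ρ] V) (P : K[X])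
    (v : V) (h : P.degree < k) : act θ P v = ∑ i : Fin k, P.coeff i • θ^[i] v := by
  by_cases h0 : P = 0
  · simp [h0, act_zero]
  rw [act_eq_sum θ P v k ((natDegree_lt_iff_degree_lt h0).mpr h),
    Fin.sum_univ_eq_sum_range (fun i => P.coeff i • θ^[i] v)]

omit [Fintype K] in
lemma cyc_iff : Cyc θ w ↔ LinearIndependent K (fun i : Fin k => θ^[i] w) := by
  rw [Fintype.linearIndependent_iff]
  constructor
  · intro h g hg i
    set P := (degreeLTEquiv K k).symm g with hP
    have hc : ∀ i : Fin k, (P : K[X]).coeff i = g i := by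
      intro i
      have : degreeLTEquiv K k P i = g i := by rw [hP]; simp
      exact this
    have hd : (P : K[X]).degree < k := mem_degreeLT.mp P.2
    have := h P hd (by rw [act_eq_sum_fin θ _ w hd]; simpa only [hc] using hg)
    rw [← hc, this, coeff_zero]
  · intro h P hd he
    rw [act_eq_sum_fin θ _ w hd] at he
    have := h _ he
    ext n
    by_cases hn : n < k
    · exact this ⟨n, hn⟩
    · exact coeff_eq_zero_of_degree_lt (hd.trans_le (by exact_mod_cast not_lt.mp hn))

variable (ρ) in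
/-- semilinear map with prescribed values on a basis -/
noncomputable def mk (b : Basis (Fin k) K (Fin k → K)) (c : Fin k → (Fin k → K)) :
    (Fin k → K) →ₛₗ[ρ] (Fin k → K) where
  toFun v := ∑ i, ρ (b.repr v i) • c i
  map_add' v v' := by simp [add_smul, sum_add_distrib]
  map_smul' a v := by simp [smul_sum, mul_smul]

omit [Fintype K] in
lemma mk_apply (b : Basis (Fin k) K (Fin k → K)) (c : Fin k → (Fin k → K)) (v : Fin k → K) :
    mk ρ b c v = ∑ i, ρ (b.repr v i) • c i := rfl

omit [Fintype K] in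
lemma mk_basis (b : Basis (Fin k) K (Fin k → K)) (c : Fin k → (Fin k → K)) (i : Fin k) :
    mk ρ b c (b i) = c i := by
  rw [mk_apply, sum_eq_single i]
  · simp
  · intro j _ hj; simp [hj.symm]
  · simp

variable (K k) in
/-- ordered bases -/
noncomputable def Bas : Finset (Fin k → (Fin k → K)) := univ.filter (LinearIndependent K ·)

/-- basis from an independent family -/
noncomputable def toB (b : Fin k → (Fin k → K)) (hb : LinearIndependent K b) :
    Basis (Fin k) K (Fin k → K) :=
  basisOfLinearIndependentOfCardEqFinrank' b hb (by simp)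

omit [Fintype K] in
lemma toB_apply (b : Fin k → (Fin k → K)) (hb : LinearIndependent K b) (i : Fin k) :
    toB b hb i = b i := by
  simp [toB]

omit [Fintype K] in
lemma act_Mon_succ {V : Type} [AddCommGroup V] [Module K V] (θ : V →ₛₗ[ρ] V) {L : K[X]}
    (h1 : L.Monic) (h2 : L.natDegree = k) (v : V) :
    act θ L v = ∑ i : Fin k, L.coeff i • θ^[i] v + θ^[k] v := by
  rw [act_eq_sum θ L v (k + 1) (by omega), sum_range_succ,
    Fin.sum_univ_eq_sum_range (fun i => L.coeff i • θ^[i] v)]
  have : L.coeff k = 1 := by rw [← h2]; exact h1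
  rw [this, one_smul]

lemma count_pairs {L : K[X]} (hL : L ∈ Mon K (k + 1)) :
    (univ.filter (fun x : ((Fin (k + 1) → K) →ₛₗ[ρ] (Fin (k + 1) → K)) × (Fin (k + 1) → K) =>
      Cyc x.1 x.2 ∧ act x.1 L x.2 = 0)).card = (Bas K (k + 1)).card := by
  obtain ⟨hL1, hL2⟩ := mem_Mon.mp hL
  refine card_bij (fun x _ => fun i : Fin (k + 1) => x.1^[i] x.2) ?_ ?_ ?_
  · rintro ⟨θ, w⟩ hx
    simp only [mem_filter, mem_univ, true_and, Bas] at hx ⊢
    exact cyc_iff.mp hx.1
  · rintro ⟨θ, w⟩ hx ⟨θ', w'⟩ hx' he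
    simp only [mem_filter, mem_univ, true_and, Prod.mk.injEq] at hx hx' he ⊢
    have he' : ∀ i : Fin (k + 1), θ^[i] w = θ'^[i] w' := fun i => congrFun he i
    have htop : θ^[k + 1] w = θ'^[k + 1] w' := by
      have h1 := hx.2
      have h2 := hx'.2
      rw [act_Mon_succ _ hL1 hL2] at h1 h2
      simp only [he'] at h1
      exact add_left_cancel (h1.trans h2.symm)
    have hall : ∀ i ≤ k + 1, θ^[i] w = θ'^[i] w' := by
      intro i hi
      rcases eq_or_lt_of_le hi with rfl | h
      · exact htop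
      · exact he' ⟨i, h⟩
    refine ⟨(toB _ (cyc_iff.mp hx.1)).ext (fun i => ?_), hall 0 (by omega)⟩
    rw [toB_apply]
    have h1 := hall (i + 1) (by omega)
    rw [Function.iterate_succ_apply', Function.iterate_succ_apply'] at h1
    rw [h1, hall i (by omega)]
  · intro b hb
    simp only [Bas, mem_filter, mem_univ, true_and] at hb
    let c : Fin (k + 1) → (Fin (k + 1) → K) := fun i =>
      if h : i.val + 1 < k + 1 then b ⟨i + 1, h⟩ else -∑ j : Fin (k + 1), L.coeff j • b j
    let θ := mk ρ (toB b hb) c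
    have hθ : ∀ i, θ (b i) = c i := fun i => by
      have := mk_basis (ρ := ρ) (toB b hb) c i
      rwa [toB_apply] at this
    have hit : ∀ (i : ℕ) (h : i < k + 1), θ^[i] (b 0) = b ⟨i, h⟩ := by
      intro i
      induction i with
      | zero => intro h; rfl
      | succ i ih =>
        intro h
        rw [Function.iterate_succ_apply', ih (by omega), hθ]
        simp only [c, dif_pos h]
    have hfun : (fun i : Fin (k + 1) => θ^[i] (b 0)) = b := funext fun i => hit i i.2
    refine ⟨(θ, b 0), ?_, hfun⟩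
    simp only [mem_filter, mem_univ, true_and]
    refine ⟨cyc_iff.mpr (by rw [hfun]; exact hb), ?_⟩
    rw [act_Mon_succ _ hL1 hL2, Function.iterate_succ_apply', hit k (by omega), hθ]
    simp only [c, lt_self_iff_false, dite_false, hit _ (Fin.is_lt _), Fin.eta, add_neg_cancel]

theorem sum_sq (H : Hyp ρ t) :
    ∑ θ : (Fin (k + 1) → K) →ₛₗ[ρ] (Fin (k + 1) → K), EE t θ ^ 2 =
      (Bas K (k + 1)).card * Sig ρ t (k + 1) := by
  have h1 : ∀ θ : (Fin (k + 1) → K) →ₛₗ[ρ] (Fin (k + 1) → K), EE t θ ^ 2 =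
      ∑ w, ∑ L ∈ Mon K (k + 1),
        if Cyc θ w ∧ act θ L w = 0 then chi t L * GG ρ t (k + 1) L else 0 := by
    intro θ
    rw [sq]
    nth_rewrite 1 [EE]
    rw [sum_mul]
    refine sum_congr rfl (fun w _ => ?_)
    by_cases hc : Cyc θ w
    · unfold ee
      rw [sum_mul, sum_filter]
      refine sum_congr rfl (fun L hL => ?_)
      by_cases hw : act θ L w = 0
      · rw [if_pos hw, if_pos ⟨hc, hw⟩, hc.EE_eq hL hw]
      · rw [if_neg hw, if_neg (fun h => hw h.2)]
    · rw [ee_noncyc H hc, zero_mul]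
      simp [hc]
  simp only [h1]
  rw [← Fintype.sum_prod_type', sum_comm, Sig_eq, mul_sum]
  refine sum_congr rfl (fun L hL => ?_)
  rw [← sum_filter, sum_const, count_pairs hL, nsmul_eq_mul]
  congr 1
  unfold GG
  rw [mul_sum]
  refine sum_congr rfl (fun L' _ => by ring)

variable (ρ k) in
/-- the coordinatewise operator -/
def th0 : (Fin k → K) →ₛₗ[ρ] (Fin k → K) where
  toFun v := fun i => ρ (v i)
  map_add' v v' := by ext; simp
  map_smul' a v := by ext; simp

lemma EE_fix (b : Basis (Fin k) K (Fin k → K)) : EE t (mk ρ b b) = EE t (th0 ρ k) := by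
  rw [EE_swap, EE_swap]
  refine sum_congr rfl (fun L _ => ?_)
  congr 2
  have hn : ∀ v, b.equivFun (act (mk ρ b b) L v) = act (th0 ρ k) L (b.equivFun v) := by
    intro v
    refine act_nat (mk ρ b b) (th0 ρ k) b.equivFun.toLinearMap (fun v => ?_) L v
    ext i
    simp [mk_apply, th0, Finsupp.single_apply]
  refine card_bijective b.equivFun b.equivFun.bijective (fun v => ?_)
  simp only [mem_filter, mem_univ, true_and]
  rw [← hn, LinearEquiv.map_eq_zero_iff]

theorem main_ineq (H : Hyp ρ t) [CharP K 2] :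
    EE t (th0 ρ (k + 1)) ^ 2 ≤ (∏ i : Fin (k + 1), (2 ^ (k + 1) - 2 ^ i.val) : ℕ) *
      ((Fintype.card K : ℤ) ^ (k + 1) * 2 ^ k) := by
  set M : ℕ := ∏ i : Fin (k + 1), (2 ^ (k + 1) - 2 ^ i.val) with hM
  let f : (Fin (k + 1) → (Fin (k + 1) → K)) → ((Fin (k + 1) → K) →ₛₗ[ρ] (Fin (k + 1) → K)) :=
    fun b => if hb : LinearIndependent K b then mk ρ (toB b hb) (toB b hb) else 0
  have hfib : (Bas K (k + 1)).card ≤ M * ((Bas K (k + 1)).image f).card := by
    refine card_le_mul_card_image _ _ ?_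
    intro θ hθ
    obtain ⟨b, hb, rfl⟩ := mem_image.mp hθ
    simp only [Bas, mem_filter, mem_univ, true_and] at hb
    have hc := card_linearIndependent (K := ZMod 2) (V := Fin (k + 1) → ZMod 2) (k := k + 1)
      (by simp)
    simp only [ZMod.card, finrank_fintype_fun_eq_card, Fintype.card_fin] at hc
    rw [← hM, Nat.card_eq_fintype_card, Fintype.card_subtype] at hc
    rw [← hc]
    set B := toB b hb with hB
    have hcoord : ∀ b' ∈ (Bas K (k + 1)).filter (fun a => f a = f b), ∀ i j,
        ((if B.repr (b' i) j = 0 then 0 else 1 : ZMod 2).cast : K) = B.repr (b' i) j := by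
      intro b' hb' i j
      simp only [Bas, mem_filter, mem_univ, true_and] at hb'
      have h1 : mk ρ B B (b' i) = b' i := by
        have h2 := hb'.2
        simp only [f, dif_pos hb, dif_pos hb'.1] at h2
        rw [← h2]
        have := mk_basis (ρ := ρ) (toB b' hb'.1) (toB b' hb'.1) i
        rwa [toB_apply] at this
      have h3 := congrArg (fun v => B.repr v j) h1
      simp only [mk_apply, map_sum, map_smul, Basis.repr_self, Finsupp.coe_finsetSum,
        Finsupp.coe_smul, Finset.sum_apply, Pi.smul_apply, Finsupp.single_apply, smul_eq_mul,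
        mul_ite, mul_one, mul_zero, sum_ite_eq', mem_univ, if_true] at h3
      rcases H.fix _ h3 with h4 | h4 <;> simp [h4]
    refine card_le_card_of_injOn
      (fun b' => fun i j => (if B.repr (b' i) j = 0 then 0 else 1 : ZMod 2)) ?_ ?_
    · intro b' hb'
      have hco := hcoord b' hb'
      simp only [Bas, coe_filter, mem_filter, mem_univ, true_and, Set.mem_ofPred_eq] at hb' ⊢
      rw [Fintype.linearIndependent_iff]
      intro g hg i
      have h5 := Fintype.linearIndependent_iff.mp hb'.1 (fun i => ZMod.castHom (dvd_refl 2) K (g i))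
        (by
          apply B.repr.injective
          ext j
          have h6 := congrArg (ZMod.castHom (dvd_refl 2) K) (congrFun hg j)
          simp only [Finset.sum_apply, Pi.smul_apply, smul_eq_mul, map_sum, map_mul,
            Pi.zero_apply, map_zero] at h6
          simp only [map_sum, map_smul, Finsupp.coe_finsetSum, Finsupp.coe_smul,
            Finset.sum_apply, Pi.smul_apply, smul_eq_mul, map_zero, Finsupp.coe_zero,
            Pi.zero_apply]
          rw [← h6]
          refine sum_congr rfl (fun i _ => ?_)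
          rw [ZMod.castHom_apply, ZMod.castHom_apply, hco i j]) i
      exact (ZMod.castHom (dvd_refl 2) K).injective (h5.trans (map_zero _).symm)
    · intro b1 h1 b2 h2 he
      funext i
      apply B.repr.injective
      ext j
      rw [← hcoord b1 h1 i j, ← hcoord b2 h2 i j]
      exact congrArg _ (congrFun (congrFun he i) j)
  have hsum : ((Bas K (k + 1)).image f).card * EE t (th0 ρ (k + 1)) ^ 2
      ≤ (Bas K (k + 1)).card * Sig ρ t (k + 1) := by
    rw [← sum_sq H, ← nsmul_eq_mul, ← sum_const]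
    refine le_trans (le_of_eq (sum_congr rfl ?_))
      (sum_le_sum_of_subset_of_nonneg (subset_univ _) (fun _ _ _ => sq_nonneg _))
    intro θ hθ
    obtain ⟨b, hb, rfl⟩ := mem_image.mp hθ
    simp only [Bas, mem_filter, mem_univ, true_and] at hb
    simp only [f, dif_pos hb, EE_fix]
  rw [← Sig_val H]
  have hpos : 0 < (Bas K (k + 1)).card := by
    refine card_pos.mpr ⟨Pi.basisFun K (Fin (k + 1)), ?_⟩
    simp only [Bas, mem_filter, mem_univ, true_and]
    exact (Pi.basisFun K (Fin (k + 1))).linearIndependent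
  have hpos' : (0 : ℤ) < (Bas K (k + 1)).card := by exact_mod_cast hpos
  have hfib' : ((Bas K (k + 1)).card : ℤ) ≤ M * ((Bas K (k + 1)).image f).card := by
    exact_mod_cast hfib
  have hM0 : (0 : ℤ) ≤ M := by positivity
  refine le_of_mul_le_mul_left ?_ hpos'
  calc ((Bas K (k + 1)).card : ℤ) * EE t (th0 ρ (k + 1)) ^ 2
      ≤ M * ((Bas K (k + 1)).image f).card * EE t (th0 ρ (k + 1)) ^ 2 :=
        mul_le_mul_of_nonneg_right hfib' (sq_nonneg _)
    _ = M * (((Bas K (k + 1)).image f).card * EE t (th0 ρ (k + 1)) ^ 2) := by ring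
    _ ≤ M * ((Bas K (k + 1)).card * Sig ρ t (k + 1)) := mul_le_mul_of_nonneg_left hsum hM0
    _ = _ := by ring

end Pool.Agent.H56.Skew
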