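import Mathlib
import Pool.Agent.H56.Skew3

open Polynomial Finset Module
open scoped Classical

namespace Pool.Agent.H56.Skew

section vieta
variable {K : Type} [Field K]

lemma vieta (s : Finset K) (g : K[X]) (hd : g.natDegree ≤ s.card) (hr : ∀ x ∈ s, g.eval x = 0)
    (h0 : g.coeff 0 ≠ 0) : g.coeff 0 * ∑ x ∈ s, x⁻¹ = -g.coeff 1 := by
  induction s using Finset.induction_on generalizing g with
  | empty =>
    simp only [card_empty, nonpos_iff_eq_zero] at hd
    rw [coeff_eq_zero_of_natDegree_lt (by omega : g.natDegree < 1)]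
    simp
  | insert a s ha ih =>
    obtain ⟨g', rfl⟩ := dvd_iff_isRoot.mpr (hr a (mem_insert_self _ _))
    have hg' : g' ≠ 0 := by rintro rfl; simp at h0
    rw [natDegree_mul (X_sub_C_ne_zero a) hg', natDegree_X_sub_C, card_insert_of_notMem ha] at hd
    have e0 : ((X - C a) * g').coeff 0 = -a * g'.coeff 0 := by simp [mul_coeff_zero]
    have e1 : ((X - C a) * g').coeff 1 = g'.coeff 0 - a * g'.coeff 1 := by
      rw [sub_mul, coeff_sub, coeff_X_mul, coeff_C_mul]
    rw [e0] at h0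
    have ha0 : a ≠ 0 := by rintro rfl; simp at h0
    have := ih g' (by omega) (fun x hx => by
      have h1 := hr x (mem_insert_of_mem hx)
      rw [eval_mul, eval_sub, eval_X, eval_C] at h1
      exact (mul_eq_zero.mp h1).resolve_left (sub_ne_zero.mpr (fun h => ha (h ▸ hx))))
      (right_ne_zero_of_mul h0)
    rw [e0, e1, sum_insert ha]
    have h2 : a * a⁻¹ = 1 := mul_inv_cancel₀ ha0
    linear_combination (-a) * this - g'.coeff 0 * h2

/-- linearised polynomial -/
noncomputable def lin (m : ℕ) (P : K[X]) : K[X] :=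
  ∑ j ∈ range (m + 1), monomial (2 ^ (m - j)) (P.coeff j)

lemma lin_coeff (m j : ℕ) (hj : j ≤ m) (P : K[X]) : (lin m P).coeff (2 ^ (m - j)) = P.coeff j := by
  unfold lin
  rw [finsetSum_coeff, sum_eq_single j]
  · simp
  · intro i hi hij
    rw [mem_range] at hi
    rw [coeff_monomial, if_neg]
    intro h
    have := Nat.pow_right_injective (le_refl 2) h
    omega
  · intro h; exact absurd (mem_range.mpr (by omega)) h

lemma lin_coeff_zero (m : ℕ) (P : K[X]) : (lin m P).coeff 0 = 0 := by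
  unfold lin
  rw [finsetSum_coeff]
  refine sum_eq_zero (fun i _ => ?_)
  rw [coeff_monomial, if_neg (by positivity)]

lemma lin_natDegree (m : ℕ) (P : K[X]) : (lin m P).natDegree ≤ 2 ^ m := by
  unfold lin
  refine natDegree_sum_le_of_forall_le _ _ (fun i _ => ?_)
  exact (natDegree_monomial_le _).trans (Nat.pow_le_pow_right (by norm_num) (by omega))

variable {ρ : K →+* K}

variable (ρ) in
/-- the ring endomorphism as a semilinear map -/
def th1 : K →ₛₗ[ρ] K where
  toFun x := ρ x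
  map_add' := map_add ρ
  map_smul' a x := by simp

lemma th1_iter (i : ℕ) (x : K) : (th1 ρ)^[i] x = ρ^[i] x := rfl

lemma act_th0 {k : ℕ} (P : K[X]) (w : Fin k → K) (i : Fin k) :
    act (th0 ρ k) P w i = act (th1 ρ) P (w i) :=
  act_nat (th0 ρ k) (th1 ρ) (LinearMap.proj i) (fun _ => rfl) P w

lemma iter_pow (hρ : ∀ x, ρ x ^ 2 = x) (i j : ℕ) (x : K) :
    (ρ^[i + j] x) ^ (2 ^ i) = ρ^[j] x := by
  induction i with
  | zero => simp
  | succ i ih =>
    rw [show i + 1 + j = (i + j) + 1 by ring, Function.iterate_succ_apply', pow_succ', pow_mul,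
      hρ, ih]

lemma eval_lin (hρ : ∀ x, ρ x ^ 2 = x) {m : ℕ} {P : K[X]} (h : P.natDegree ≤ m) (x : K) :
    (lin m P).eval (ρ^[m] x) = act (th1 ρ) P x := by
  unfold lin
  rw [act_eq_sum _ _ _ (m + 1) (by omega), eval_finsetSum]
  refine sum_congr rfl (fun j hj => ?_)
  rw [mem_range] at hj
  have := iter_pow hρ (m - j) j x
  rw [show m - j + j = m by omega] at this
  rw [eval_monomial, this, th1_iter, smul_eq_mul]

lemma ker_card (hρ : ∀ x, ρ x ^ 2 = x) {m : ℕ} {P : K[X]} (h0 : P ≠ 0) (h : P.natDegree ≤ m)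
    (s : Finset K) (hs : ∀ x ∈ s, act (th1 ρ) P x = 0) : s.card ≤ 2 ^ m := by
  have hl : lin m P ≠ 0 := by
    intro h1
    have := lin_coeff m _ h P
    rw [h1, coeff_zero] at this
    exact leadingCoeff_ne_zero.mpr h0 this.symm
  rw [← card_image_of_injective s (rho_iter_inj (ρ := ρ) m)]
  refine le_trans (card_le_degree_of_subset_roots ?_) (lin_natDegree m P)
  intro y hy
  obtain ⟨x, hx, rfl⟩ := mem_image.mp hy
  rw [mem_roots hl, IsRoot.def, eval_lin hρ h, hs x hx]

lemma iter_sum_inv (m : ℕ) (s : Finset K) :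
    ρ^[m] (∑ x ∈ s, x⁻¹) = ∑ y ∈ s.image (ρ^[m]), y⁻¹ := by
  rw [sum_image (fun x _ y _ h => rho_iter_inj m h), ← RingHom.coe_pow, map_sum]
  simp

lemma vieta_lin (hρ : ∀ x, ρ x ^ 2 = x) {k : ℕ} {D : K[X]} (h1 : D.Monic)
    (h2 : D.natDegree = k + 1) (s : Finset K) (hc : s.card = 2 ^ (k + 1)) (h0 : 0 ∈ s)
    (hs : ∀ x ∈ s, act (th1 ρ) D x = 0) : ρ^[k + 1] (∑ x ∈ s, x⁻¹) = -D.nextCoeff := by
  have c1 : (lin (k + 1) D).divX.coeff 0 = 1 := by
    have := lin_coeff (k + 1) (k + 1) le_rfl D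
    rw [Nat.sub_self, pow_zero] at this
    rw [coeff_divX, zero_add, this, ← h2]; exact h1
  have c2 : (lin (k + 1) D).divX.coeff 1 = D.nextCoeff := by
    have := lin_coeff (k + 1) k (by omega) D
    rw [show k + 1 - k = 1 by omega, pow_one] at this
    rw [coeff_divX, this, nextCoeff_of_natDegree_pos (by omega), h2]; rfl
  have h := vieta ((s.erase 0).image (ρ^[k + 1])) (lin (k + 1) D).divX (by
      rw [card_image_of_injective _ (rho_iter_inj _), card_erase_of_mem h0, hc,
        natDegree_divX_eq_natDegree_tsub_one]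
      have := lin_natDegree (k + 1) D
      omega) (by
      intro y hy
      obtain ⟨x, hx, rfl⟩ := mem_image.mp hy
      rw [mem_erase] at hx
      have h3 := eval_lin hρ h2.le x
      rw [hs x hx.2, ← X_mul_divX_add (lin (k + 1) D), lin_coeff_zero] at h3
      simp only [map_zero, add_zero, eval_mul, eval_X] at h3
      refine (mul_eq_zero.mp h3).resolve_left (fun h4 => hx.1 ?_)
      exact rho_iter_inj _ (h4.trans (rho_iter_zero _).symm)) (by rw [c1]; exact one_ne_zero)
  rw [c1, c2, one_mul, ← iter_sum_inv, sum_erase _ (by simp)] at h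
  exact h

lemma vieta_aff (hρ : ∀ x, ρ x ^ 2 = x) {k : ℕ} {D : K[X]} (h1 : D.Monic)
    (h2 : D.natDegree = k) (s : Finset K) (hc : s.card = 2 ^ k) {z : K} (hz : z ≠ 0)
    (hs : ∀ x ∈ s, act (th1 ρ) D x = z) : ρ^[k] (∑ x ∈ s, x⁻¹) = z⁻¹ := by
  have c0 : (lin k D - C z).coeff 0 = -z := by simp [lin_coeff_zero]
  have c1 : (lin k D - C z).coeff 1 = 1 := by
    have := lin_coeff k k le_rfl D
    rw [Nat.sub_self, pow_zero] at this
    rw [coeff_sub, this, coeff_C_succ, sub_zero, ← h2]; exact h1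
  have h := vieta (s.image (ρ^[k])) (lin k D - C z) (by
      rw [card_image_of_injective _ (rho_iter_inj _), hc, natDegree_sub_C]
      exact lin_natDegree k D) (by
      intro y hy
      obtain ⟨x, hx, rfl⟩ := mem_image.mp hy
      rw [eval_sub, eval_lin hρ h2.le, hs x hx, eval_C, sub_self]) (by rw [c0]; simpa using hz)
  rw [c0, c1, ← iter_sum_inv] at h
  exact eq_inv_of_mul_eq_one_right (by linear_combination -h)

end vieta

variable {K : Type} [Field K] [Fintype K] [Algebra (ZMod 2) K] {ρ : K →+* K}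

variable (ρ) in
/-- the additive map of a skew polynomial -/
noncomputable def AD (D : K[X]) : K →ₗ[ZMod 2] K :=
  AddMonoidHom.toZModLinearMap 2 (AddMonoidHom.mk' (act (th1 ρ) D) (act_add_right _ _))

omit [Fintype K] in
lemma AD_apply (D : K[X]) (x : K) : AD ρ D x = act (th1 ρ) D x := rfl

/-- the elements of a subspace -/
noncomputable def els (F : Submodule (ZMod 2) K) : Finset K := univ.filter (· ∈ F)

lemma mem_els {F : Submodule (ZMod 2) K} {x : K} : x ∈ els F ↔ x ∈ F := by simp [els]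

lemma card_els (F : Submodule (ZMod 2) K) : (els F).card = 2 ^ finrank (ZMod 2) F := by
  have := Module.card_eq_pow_finrank (K := ZMod 2) (V := F)
  rw [ZMod.card, Fintype.card_subtype] at this
  exact this

/-- sum of inverses -/
noncomputable def SS (F : Submodule (ZMod 2) K) : K := ∑ x ∈ els F, x⁻¹

lemma indep_cyc (hρ : ∀ x, ρ x ^ 2 = x) {k : ℕ} {w : Fin k → K}
    (hw : LinearIndependent (ZMod 2) w) : Cyc (th0 ρ k) w := by
  intro P hP he
  by_contra h0
  have hlt : P.natDegree < k := (natDegree_lt_iff_degree_lt h0).mpr hP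
  have h1 : Submodule.span (ZMod 2) (Set.range w) ≤ LinearMap.ker (AD ρ P) := by
    rw [Submodule.span_le]
    rintro _ ⟨i, rfl⟩
    have := congrFun he i
    rw [act_th0] at this
    exact this
  have h2 := ker_card hρ h0 le_rfl (els (Submodule.span (ZMod 2) (Set.range w)))
    (fun x hx => h1 (mem_els.mp hx))
  rw [card_els, finrank_span_eq_card hw, Fintype.card_fin] at h2
  have := (Nat.pow_le_pow_iff_right (by norm_num)).mp h2
  omega

lemma cyc_indep {k : ℕ} {w : Fin k → K} (h : Cyc (th0 ρ k) w) :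
    LinearIndependent (ZMod 2) w := by
  rw [Fintype.linearIndependent_iff]
  intro g hg i
  obtain ⟨P, -, hP⟩ := h.surj (Pi.single i 1)
  have h1 := congrArg (AD ρ P) hg
  rw [map_sum, map_zero] at h1
  simp only [map_smul, AD_apply, ← act_th0, hP] at h1
  rw [sum_eq_single i] at h1
  · simpa using h1
  · intro j _ hj; simp [hj]
  · simp

lemma exists_D_span (hρ : ∀ x, ρ x ^ 2 = x) {k : ℕ} {w : Fin k → K}
    (hw : LinearIndependent (ZMod 2) w) : ∃ D ∈ Mon K k, act (th0 ρ k) D w = 0 ∧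
      LinearMap.ker (AD ρ D) = Submodule.span (ZMod 2) (Set.range w) := by
  obtain ⟨D, hD, he⟩ := (indep_cyc hρ hw).exists_Mon
  refine ⟨D, hD, he, ?_⟩
  have h1 : Submodule.span (ZMod 2) (Set.range w) ≤ LinearMap.ker (AD ρ D) := by
    rw [Submodule.span_le]
    rintro _ ⟨i, rfl⟩
    have := congrFun he i
    rw [act_th0] at this
    exact this
  have h2 := ker_card hρ (mem_Mon.mp hD).1.ne_zero (mem_Mon.mp hD).2.le
    (els (LinearMap.ker (AD ρ D))) (fun x hx => mem_els.mp hx)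
  rw [card_els] at h2
  symm
  refine Submodule.eq_of_le_of_finrank_le h1 ?_
  rw [finrank_span_eq_card hw, Fintype.card_fin]
  exact (Nat.pow_le_pow_iff_right (by norm_num)).mp h2

lemma exists_D (hρ : ∀ x, ρ x ^ 2 = x) (F : Submodule (ZMod 2) K) :
    ∃ D ∈ Mon K (finrank (ZMod 2) F), LinearMap.ker (AD ρ D) = F := by
  let b := Module.finBasis (ZMod 2) F
  have hw : LinearIndependent (ZMod 2) (fun i => (b i : K)) :=
    b.linearIndependent.map' F.subtype (Submodule.ker_subtype F)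
  obtain ⟨D, hD, -, he⟩ := exists_D_span hρ hw
  refine ⟨D, hD, he.trans ?_⟩
  have : Set.range (fun i => (b i : K)) = F.subtype '' Set.range b := by
    rw [← Set.range_comp]; rfl
  rw [this, Submodule.span_image, b.span_eq, Submodule.map_subtype_top]

lemma SS_ker (hρ : ∀ x, ρ x ^ 2 = x) {k : ℕ} {D : K[X]} (hD : D ∈ Mon K (k + 1))
    (hr : finrank (ZMod 2) (LinearMap.ker (AD ρ D)) = k + 1) :
    ρ^[k + 1] (SS (LinearMap.ker (AD ρ D))) = -D.nextCoeff :=
  vieta_lin hρ (mem_Mon.mp hD).1 (mem_Mon.mp hD).2 _ (by rw [card_els, hr])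
    (mem_els.mpr (Submodule.zero_mem _)) (fun _ hx => mem_els.mp hx)

lemma coset_sum (hρ : ∀ x, ρ x ^ 2 = x) {k : ℕ} {D : K[X]} (hD : D ∈ Mon K k)
    (hr : finrank (ZMod 2) (LinearMap.ker (AD ρ D)) = k) (a : K) (ha : AD ρ D a ≠ 0) :
    ρ^[k] (∑ x ∈ els (LinearMap.ker (AD ρ D)), (a + x)⁻¹) = (AD ρ D a)⁻¹ := by
  have := vieta_aff hρ (mem_Mon.mp hD).1 (mem_Mon.mp hD).2
    ((els (LinearMap.ker (AD ρ D))).image (a + ·))
    (by rw [card_image_of_injective _ (add_right_injective a), card_els, hr]) ha (by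
      intro y hy
      obtain ⟨x, hx, rfl⟩ := mem_image.mp hy
      rw [← AD_apply, map_add, LinearMap.mem_ker.mp (mem_els.mp hx), add_zero])
  rwa [sum_image (fun x _ y _ h => add_right_injective a h)] at this

lemma affine_ne (hρ : ∀ x, ρ x ^ 2 = x) (F : Submodule (ZMod 2) K) (a : K) (ha : a ∉ F) :
    ∑ x ∈ els F, (a + x)⁻¹ ≠ 0 := by
  obtain ⟨D, hD, he⟩ := exists_D hρ F
  have ha' : AD ρ D a ≠ 0 := fun h => ha (he ▸ LinearMap.mem_ker.mpr h)
  have := coset_sum hρ hD (by rw [he]) a ha'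
  rw [he] at this
  intro h
  rw [h, rho_iter_zero] at this
  exact inv_ne_zero ha' this.symm

lemma affine_mem (F : Submodule (ZMod 2) K) (a : K) (ha : a ∈ F) :
    ∑ x ∈ els F, (a + x)⁻¹ = SS F := by
  unfold SS
  refine sum_bij (fun x _ => a + x) ?_ ?_ ?_ (fun _ _ => rfl)
  · intro x hx; exact mem_els.mpr (F.add_mem ha (mem_els.mp hx))
  · intro x _ y _ h; exact add_left_cancel h
  · intro y hy; exact ⟨y - a, mem_els.mpr (F.sub_mem (mem_els.mp hy) ha), by ring⟩

lemma dual (hρ : ∀ x, ρ x ^ 2 = x) (hK : 2 < Fintype.card K) (F : Submodule (ZMod 2) K)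
    (hF : SS F = 0) : ∃ F' : Submodule (ZMod 2) K,
      finrank (ZMod 2) F' + finrank (ZMod 2) F = finrank (ZMod 2) K ∧ SS F' = 0 := by
  obtain ⟨D, hD, he⟩ := exists_D hρ F
  refine ⟨LinearMap.range (AD ρ D), by rw [← he, LinearMap.finrank_range_add_finrank_ker], ?_⟩
  have h1 : ∑ x : K, x⁻¹ = 0 := by
    have := FiniteField.sum_pow_lt_card_sub_one K 1 (by omega)
    simp only [pow_one] at this
    rw [← this]
    exact sum_bijective _ inv_involutive.bijective (by simp) (by simp)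
  rw [← sum_fiberwise_of_maps_to (t := els (LinearMap.range (AD ρ D))) (g := AD ρ D)
    (fun x _ => mem_els.mpr (LinearMap.mem_range_self _ x))] at h1
  have h2 := congrArg (ρ ^ finrank (ZMod 2) F) h1
  rw [map_sum, map_zero] at h2
  unfold SS
  rw [← h2]
  refine sum_congr rfl (fun z hz => ?_)
  obtain ⟨a, rfl⟩ := mem_els.mp hz
  have h3 : ∑ x ∈ univ.filter (fun x => AD ρ D x = AD ρ D a), x⁻¹ = ∑ x ∈ els F, (a + x)⁻¹ := by
    symm
    refine sum_bij (fun x _ => a + x) ?_ ?_ ?_ (fun _ _ => rfl)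
    · intro x hx
      rw [mem_els, ← he, LinearMap.mem_ker] at hx
      simp [hx]
    · intro x _ y _ h; exact add_left_cancel h
    · intro y hy
      refine ⟨y - a, ?_, by ring⟩
      rw [mem_els, ← he, LinearMap.mem_ker, map_sub, (mem_filter.mp hy).2, sub_self]
  rw [h3, RingHom.coe_pow]
  by_cases ha : AD ρ D a = 0
  · rw [affine_mem F a (he ▸ LinearMap.mem_ker.mpr ha), hF, ha, rho_iter_zero, inv_zero]
  · have := coset_sum hρ hD (by rw [he]) a ha
    rw [he] at this
    exact this.symm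

lemma of_factor (hρ : ∀ x, ρ x ^ 2 = x) {k m : ℕ} {D D' : K[X]} (hD : D ∈ Mon K (k + 1))
    (h0 : D.nextCoeff = 0) (hD' : D' ≠ 0) (hm : D'.natDegree ≤ m)
    (hn : finrank (ZMod 2) K = k + 1 + m)
    (hc : ∀ x, act (th1 ρ) D (act (th1 ρ) D' x) = 0) :
    ∃ F : Submodule (ZMod 2) K, finrank (ZMod 2) F = k + 1 ∧ SS F = 0 := by
  have h1 := ker_card hρ (mem_Mon.mp hD).1.ne_zero (mem_Mon.mp hD).2.le
    (els (LinearMap.ker (AD ρ D))) (fun x hx => mem_els.mp hx)
  have h2 := ker_card hρ hD' hm (els (LinearMap.ker (AD ρ D'))) (fun x hx => mem_els.mp hx)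
  rw [card_els, Nat.pow_le_pow_iff_right (by norm_num)] at h1 h2
  have h3 := LinearMap.finrank_range_add_finrank_ker (AD ρ D')
  have h4 : finrank (ZMod 2) (LinearMap.range (AD ρ D')) ≤
      finrank (ZMod 2) (LinearMap.ker (AD ρ D)) := by
    apply Submodule.finrank_mono
    rintro _ ⟨x, rfl⟩
    exact hc x
  have h5 : finrank (ZMod 2) (LinearMap.ker (AD ρ D)) = k + 1 := by omega
  refine ⟨_, h5, ?_⟩
  have := SS_ker hρ hD h5
  rw [h0, neg_zero] at this
  exact rho_iter_inj _ (this.trans (rho_iter_zero _).symm)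

end Pool.Agent.H56.Skew
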