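import Mathlib
import Pool.Agent.H56.Skew4

open Polynomial Finset Module
open scoped Classical

namespace Pool.Agent.H56.Skew

variable {K : Type} [Field K] [Fintype K] [Algebra (ZMod 2) K] {ρ : K →+* K} {t : K →+ ZMod 2}

omit [Algebra (ZMod 2) K] in
lemma sum_psi (H : Hyp ρ t) {s : K} (hs : s ≠ 0) :
    ∑ l ∈ univ.erase (0 : K), psi t (l⁻¹ * s) = -1 := by
  have h1 : ∑ x : K, psi t x = 0 := by
    obtain ⟨c, hc⟩ := exists_psi_neg H (one_ne_zero (α := K))
    rw [mul_one] at hc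
    refine sum_involution (fun x _ => x + c) ?_ ?_ (fun _ _ => mem_univ _) ?_
    · intro x _; rw [psi_add, hc]; ring
    · intro x _ _ h
      have : c = 0 := by simpa using h
      rw [this, psi_zero] at hc
      simp at hc
    · intro x _; linear_combination c * H.two
  have h2 : ∑ l : K, psi t (l⁻¹ * s) = ∑ x : K, psi t x :=
    sum_bijective (fun l => l⁻¹ * s)
      ((mulRight_bijective₀ s hs).comp inv_involutive.bijective) (by simp) (by simp)
  rw [h1, ← add_sum_erase _ _ (mem_univ (0 : K))] at h2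
  simp only [inv_zero, zero_mul, psi_zero] at h2
  linarith

lemma SS_smul {k : ℕ} (w : Fin k → K) {l : K} (hl : l ≠ 0) :
    SS (Submodule.span (ZMod 2) (Set.range (l • w))) =
      l⁻¹ * SS (Submodule.span (ZMod 2) (Set.range w)) := by
  unfold SS
  rw [mul_sum]
  symm
  have key : ∀ c : Fin k → ZMod 2, ∑ i, c i • (l • w) i = l * ∑ i, c i • w i := by
    intro c
    rw [mul_sum]
    exact sum_congr rfl (fun i _ => by simp)
  refine sum_bij (fun x _ => l * x) ?_ ?_ ?_ ?_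
  · intro x hx
    rw [mem_els, Submodule.mem_span_range_iff_exists_fun] at hx ⊢
    obtain ⟨c, rfl⟩ := hx
    exact ⟨c, key c⟩
  · intro x _ y _ h; exact mul_left_cancel₀ hl h
  · intro y hy
    rw [mem_els, Submodule.mem_span_range_iff_exists_fun] at hy
    obtain ⟨c, rfl⟩ := hy
    refine ⟨∑ i, c i • w i, ?_, (key c).symm⟩
    rw [mem_els, Submodule.mem_span_range_iff_exists_fun]
    exact ⟨c, rfl⟩
  · intro x _; rw [mul_inv]

omit [Fintype K] in
lemma indep_smul {k : ℕ} {w : Fin k → K} (hw : LinearIndependent (ZMod 2) w) {l : K}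
    (hl : l ≠ 0) : LinearIndependent (ZMod 2) (l • w) := by
  rw [Fintype.linearIndependent_iff] at hw ⊢
  intro g hg
  apply hw g
  apply mul_left_cancel₀ hl
  rw [mul_zero, ← hg, mul_sum]
  exact sum_congr rfl (fun i _ => by simp)

lemma EE_th0 (H : Hyp ρ t) (hρ : ∀ x, ρ x ^ 2 = x) (k : ℕ) : EE t (th0 ρ (k + 1)) =
    ∑ w ∈ univ.filter (fun w : Fin (k + 1) → K => LinearIndependent (ZMod 2) w),
      psi t (SS (Submodule.span (ZMod 2) (Set.range w))) := by
  unfold EE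
  rw [sum_filter]
  refine sum_congr rfl (fun w _ => ?_)
  split_ifs with hw
  · obtain ⟨D, hD, h1, h2⟩ := exists_D_span hρ hw
    rw [(indep_cyc hρ hw).ee_eq hD h1, ← h2, ← psi_iter H (k + 1),
      SS_ker hρ hD (by rw [h2, finrank_span_eq_card hw, Fintype.card_fin]), chi]
    congr 1
    linear_combination D.nextCoeff * H.two
  · exact ee_noncyc H (fun h => hw (cyc_indep h))

theorem count_ineq [CharP K 2] (H : Hyp ρ t) (hρ : ∀ x, ρ x ^ 2 = x) (k n : ℕ)
    (hn : finrank (ZMod 2) K = n) (hk : k + 1 ≤ n)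
    (h : ∀ F : Submodule (ZMod 2) K, finrank (ZMod 2) F = k + 1 → SS F ≠ 0) :
    (∏ i : Fin (k + 1), (2 ^ n - 2 ^ i.val) : ℕ) ^ 2 ≤
      (2 ^ n - 1) ^ 2 * ((∏ i : Fin (k + 1), (2 ^ (k + 1) - 2 ^ i.val) : ℕ) *
        ((2 ^ n) ^ (k + 1) * 2 ^ k)) := by
  have hq : Fintype.card K = 2 ^ n := by
    rw [Module.card_eq_pow_finrank (K := ZMod 2) (V := K), ZMod.card, hn]
  set I := univ.filter (fun w : Fin (k + 1) → K => LinearIndependent (ZMod 2) w) with hI
  have hc := card_linearIndependent (K := ZMod 2) (V := K) (k := k + 1) (by omega)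
  rw [ZMod.card, hn, Nat.card_eq_fintype_card, Fintype.card_subtype] at hc
  have h1 : ((2 ^ n - 1 : ℕ) : ℤ) * EE t (th0 ρ (k + 1)) = -(I.card : ℤ) := by
    have e1 : ∀ l ∈ univ.erase (0 : K), EE t (th0 ρ (k + 1)) =
        ∑ w ∈ I, psi t (l⁻¹ * SS (Submodule.span (ZMod 2) (Set.range w))) := by
      intro l hl
      have hl0 : l ≠ 0 := (mem_erase.mp hl).1
      rw [EE_th0 H hρ]
      symm
      refine sum_bij (fun w _ => l • w) ?_ ?_ ?_ ?_
      · intro w hw
        exact mem_filter.mpr ⟨mem_univ _, indep_smul (mem_filter.mp hw).2 hl0⟩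
      · intro w _ w' _ h; exact smul_right_injective _ hl0 h
      · intro w hw
        exact ⟨l⁻¹ • w, mem_filter.mpr ⟨mem_univ _,
          indep_smul (mem_filter.mp hw).2 (inv_ne_zero hl0)⟩, smul_inv_smul₀ hl0 w⟩
      · intro w _; rw [SS_smul w hl0]
    have e2 := sum_congr rfl e1
    rw [sum_const, card_erase_of_mem (mem_univ _), card_univ, hq, nsmul_eq_mul, sum_comm] at e2
    rw [e2, sum_congr rfl (fun w hw => sum_psi H (h _ (by
      rw [finrank_span_eq_card (mem_filter.mp hw).2, Fintype.card_fin])))]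
    simp
  have h2 := main_ineq (k := k) H
  rw [hq] at h2
  have h3 : (I.card : ℤ) ^ 2 = ((2 ^ n - 1 : ℕ) : ℤ) ^ 2 * EE t (th0 ρ (k + 1)) ^ 2 := by
    rw [← mul_pow, h1]; ring
  have h4 := mul_le_mul_of_nonneg_left h2 (sq_nonneg ((2 ^ n - 1 : ℕ) : ℤ))
  rw [← h3, hI, hc] at h4
  exact_mod_cast h4

lemma numeric (k n : ℕ) (hk : 2 ≤ k) (hn : 2 * (k + 1) + 1 ≤ n) (h13 : 13 ≤ n) :
    (2 ^ n - 1) ^ 2 * ((∏ i : Fin (k + 1), (2 ^ (k + 1) - 2 ^ i.val) : ℕ) *
        ((2 ^ n) ^ (k + 1) * 2 ^ k)) < (∏ i : Fin (k + 1), (2 ^ n - 2 ^ i.val) : ℕ) ^ 2 := by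
  rw [Fin.prod_univ_succ (fun i : Fin (k + 1) => 2 ^ n - 2 ^ i.val), mul_pow]
  simp only [Fin.val_zero, pow_zero, Fin.val_succ]
  have h1 : 1 < 2 ^ n := Nat.one_lt_two_pow (by omega)
  refine Nat.mul_lt_mul_of_pos_left ?_ (pow_pos (by omega) 2)
  have hM : (∏ i : Fin (k + 1), (2 ^ (k + 1) - 2 ^ i.val) : ℕ) ≤ (2 ^ (k + 1)) ^ (k + 1) := by
    have := prod_le_pow_card univ (fun i : Fin (k + 1) => 2 ^ (k + 1) - 2 ^ i.val) (2 ^ (k + 1))
      (fun i _ => Nat.sub_le _ _)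
    simpa using this
  have hP : (2 ^ n - 2 ^ k) ^ k ≤ ∏ i : Fin k, (2 ^ n - 2 ^ (i.val + 1)) := by
    have := pow_card_le_prod univ (fun i : Fin k => 2 ^ n - 2 ^ (i.val + 1)) (2 ^ n - 2 ^ k)
      (fun i _ => Nat.sub_le_sub_left (Nat.pow_le_pow_right (by norm_num) i.2) _)
    simpa using this
  have hkn : 2 ^ k ≤ 2 ^ n := Nat.pow_le_pow_right (by norm_num) (by omega)
  have hB : 3 * (2 ^ n) ^ k ≤ 4 * (2 ^ n - 2 ^ k) ^ k := by
    obtain ⟨d, hd⟩ : ∃ d, n = k + d := ⟨n - k, by omega⟩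
    have hd2 : 4 * k ≤ 2 ^ d := by
      have h2 : k < 2 ^ k := Nat.lt_two_pow_self
      have h3 : 2 ^ (k + 2) ≤ 2 ^ d := Nat.pow_le_pow_right (by norm_num) (by omega)
      rw [pow_add] at h3
      omega
    have hd3 : (4 : ℝ) * k ≤ 2 ^ d := by exact_mod_cast hd2
    have hd0 : (0 : ℝ) < 2 ^ d := by positivity
    have hb := one_add_mul_le_pow (a := -(1 / (2 : ℝ) ^ d)) (by
      have : (1 : ℝ) / 2 ^ d ≤ 1 := by
        rw [div_le_one hd0]; exact one_le_pow₀ (by norm_num)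
      linarith) k
    have h4 : (3 : ℝ) / 4 ≤ 1 + k * -(1 / (2 : ℝ) ^ d) := by
      have : (k : ℝ) * (1 / 2 ^ d) ≤ 1 / 4 := by
        rw [mul_one_div, div_le_iff₀ hd0]; linarith
      linarith
    have h5 : ((2 : ℝ) ^ n - 2 ^ k) = 2 ^ n * (1 + -(1 / (2 : ℝ) ^ d)) := by
      rw [hd, pow_add]; field_simp; ring
    have h6 : (3 : ℝ) * (2 ^ n) ^ k ≤ 4 * ((2 : ℝ) ^ n - 2 ^ k) ^ k := by
      rw [h5, mul_pow]
      have : (0 : ℝ) < (2 ^ n) ^ k := by positivity
      nlinarith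
    have h7 : (((2 ^ n - 2 ^ k : ℕ)) : ℝ) = (2 : ℝ) ^ n - 2 ^ k := by
      rw [Nat.cast_sub hkn]; push_cast; ring
    rw [← h7] at h6
    exact_mod_cast h6
  have hE : (2 ^ (k + 1)) ^ (k + 1) * ((2 ^ n) ^ (k + 1) * 2 ^ k) * 2 ≤ ((2 ^ n) ^ k) ^ 2 := by
    rw [← pow_mul, ← pow_mul, ← pow_mul, ← pow_mul, ← pow_add, ← pow_add, ← pow_succ]
    refine Nat.pow_le_pow_right (by norm_num) ?_
    obtain ⟨j, rfl⟩ : ∃ j, k = j + 2 := ⟨k - 2, by omega⟩
    rcases j with _ | _ | j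
    · omega
    · omega
    · nlinarith
  have h8 : 0 < (2 ^ n) ^ k := by positivity
  have h9 := Nat.mul_le_mul_right ((2 ^ n) ^ (k + 1) * 2 ^ k) hM
  have h10 := Nat.pow_le_pow_left hP 2
  nlinarith

lemma numeric' (k n : ℕ) (hk : 2 ≤ k) (hn : 2 * (k + 1) + 1 ≤ n) (ho : Odd n)
    (h7 : ¬ (n = 7 ∧ k = 2)) (h9 : ¬ (n = 9 ∧ k = 2)) :
    (2 ^ n - 1) ^ 2 * ((∏ i : Fin (k + 1), (2 ^ (k + 1) - 2 ^ i.val) : ℕ) *
        ((2 ^ n) ^ (k + 1) * 2 ^ k)) < (∏ i : Fin (k + 1), (2 ^ n - 2 ^ i.val) : ℕ) ^ 2 := by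
  by_cases h13 : 13 ≤ n
  · exact numeric k n hk hn h13
  obtain ⟨m, rfl⟩ := ho
  have : (m = 4 ∧ k = 3) ∨ (m = 5 ∧ k = 2) ∨ (m = 5 ∧ k = 3) ∨ (m = 5 ∧ k = 4) := by omega
  rcases this with ⟨rfl, rfl⟩ | ⟨rfl, rfl⟩ | ⟨rfl, rfl⟩ | ⟨rfl, rfl⟩ <;>
    simp [Fin.prod_univ_succ]

lemma exists_rho [CharP K 2] : ∃ (ρ : K →+* K) (t : K →+ ZMod 2), Hyp ρ t ∧ ∀ x, ρ x ^ 2 = x := by
  let e : K ≃+* K := (frobeniusEquiv K 2).symm
  have he : ∀ x, e x ^ 2 = x := fun x => frobenius_apply_frobeniusEquiv_symm K 2 x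
  let e' : K ≃ₐ[ZMod 2] K := AlgEquiv.ofRingEquiv (f := e) (fun x => by
    have := RingHom.ext_zmod ((e : K →+* K).comp (algebraMap (ZMod 2) K)) (algebraMap (ZMod 2) K)
    exact DFunLike.congr_fun this x)
  refine ⟨e, (Algebra.trace (ZMod 2) K).toAddMonoidHom, ⟨?_, ?_, ?_, ?_⟩, he⟩
  · exact CharTwo.two_eq_zero
  · intro x; exact Algebra.trace_eq_of_algEquiv e' x
  · exact Algebra.trace_surjective (ZMod 2) K 1
  · intro b hb
    have h1 := he b
    change e b = b at hb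
    rw [hb] at h1
    have : b * (b - 1) = 0 := by linear_combination h1
    rcases mul_eq_zero.mp this with h | h
    · exact Or.inl h
    · exact Or.inr (sub_eq_zero.mp h)

lemma iter_id (hρ : ∀ x, ρ x ^ 2 = x) {n : ℕ} (hn : finrank (ZMod 2) K = n) (x : K) :
    ρ^[n] x = x := by
  have hq : Fintype.card K = 2 ^ n := by
    rw [Module.card_eq_pow_finrank (K := ZMod 2) (V := K), ZMod.card, hn]
  have := iter_pow hρ n 0 x
  rw [add_zero, ← hq, FiniteField.pow_card] at this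
  exact this

omit [Fintype K] [Algebra (ZMod 2) K] in
lemma act_X_pow (i : ℕ) (x : K) : act (th1 ρ) (X ^ i) x = ρ^[i] x := by
  rw [← monomial_one_right_eq_X_pow, act_monomial, one_smul, th1_iter]

theorem exists_half [CharP K 2] (n k : ℕ) (hn : finrank (ZMod 2) K = n) (ho : Odd n) (hk : 3 ≤ k)
    (hkn : 2 * k + 1 ≤ n) : ∃ F : Submodule (ZMod 2) K, finrank (ZMod 2) F = k ∧ SS F = 0 := by
  obtain ⟨ρ, t, H, hρ⟩ := exists_rho (K := K)
  obtain ⟨k, rfl⟩ : ∃ j, k = j + 1 := ⟨k - 1, by omega⟩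
  by_cases h7 : n = 7 ∧ k = 2
  · obtain ⟨rfl, rfl⟩ := h7
    refine of_factor hρ (m := 4) (D := X ^ 3 + X ^ 1 + X ^ 0) (D' := X ^ 4 + X ^ 2 + X ^ 1 + X ^ 0)
      (mem_Mon.mpr ⟨by monicity!, by compute_degree!⟩) ?_ ?_ (by compute_degree) hn ?_
    · have : (X ^ 3 + X ^ 1 + X ^ 0 : K[X]).natDegree = 3 := by compute_degree!
      rw [nextCoeff_of_natDegree_pos (by omega), this]
      simp [coeff_X, coeff_one]
    · exact Monic.ne_zero (by monicity!)
    · intro x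
      have := iter_id hρ hn x
      simp only [act_add, act_X_pow, iterate_map_add, ← Function.iterate_add_apply]
      norm_num
      simp only [Function.iterate_succ_apply', Function.iterate_zero_apply] at this ⊢
      rw [this]
      linear_combination (x + ρ x + ρ (ρ x) + ρ (ρ (ρ x)) + ρ (ρ (ρ (ρ x)))
        + ρ (ρ (ρ (ρ (ρ x))))) * H.two
  by_cases h9 : n = 9 ∧ k = 2
  · obtain ⟨rfl, rfl⟩ := h9
    refine of_factor hρ (m := 6) (D := X ^ 3 + X ^ 0) (D' := X ^ 6 + X ^ 3 + X ^ 0)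
      (mem_Mon.mpr ⟨by monicity!, by compute_degree!⟩) ?_ ?_ (by compute_degree) hn ?_
    · have : (X ^ 3 + X ^ 0 : K[X]).natDegree = 3 := by compute_degree!
      rw [nextCoeff_of_natDegree_pos (by omega), this]
      simp [coeff_one]
    · exact Monic.ne_zero (by monicity!)
    · intro x
      have := iter_id hρ hn x
      simp only [act_add, act_X_pow, iterate_map_add, ← Function.iterate_add_apply]
      norm_num
      simp only [Function.iterate_succ_apply', Function.iterate_zero_apply] at this ⊢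
      rw [this]
      linear_combination (x + ρ (ρ (ρ x)) + ρ (ρ (ρ (ρ (ρ (ρ x)))))) * H.two
  by_contra hcon
  push Not at hcon
  exact absurd (count_ineq H hρ k n hn (by omega) hcon)
    (not_le.mpr (numeric' k n (by omega) hkn ho h7 h9))

theorem small_ne [CharP K 2] (n : ℕ) (hn : finrank (ZMod 2) K = n) (ho : Odd n)
    (F : Submodule (ZMod 2) K) (hF : finrank (ZMod 2) F = 1 ∨ finrank (ZMod 2) F = 2) :
    SS F ≠ 0 := by
  obtain ⟨ρ, t, H, hρ⟩ := exists_rho (K := K)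
  have hq : Fintype.card K = 2 ^ n := by
    rw [Module.card_eq_pow_finrank (K := ZMod 2) (V := K), ZMod.card, hn]
  intro h0
  have hc := card_els F
  have hz : (0 : K) ∈ els F := mem_els.mpr F.zero_mem
  have hc' := card_erase_of_mem hz
  unfold SS at h0
  rw [← add_sum_erase _ _ hz, inv_zero, zero_add] at h0
  rcases hF with hF | hF
  · rw [hc, hF] at hc'
    obtain ⟨a, ha⟩ := card_eq_one.mp hc'
    rw [ha, sum_singleton] at h0
    have : a ∈ (els F).erase 0 := by rw [ha]; simp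
    exact (mem_erase.mp this).1 (inv_eq_zero.mp h0)
  · rw [hc, hF] at hc'
    obtain ⟨a, b, c, hab, hac, hbc, he⟩ := card_eq_three.mp hc'
    have ha : a ∈ (els F).erase 0 := by rw [he]; simp
    have hb : b ∈ (els F).erase 0 := by rw [he]; simp
    have hab0 : a + b ≠ 0 := fun h => hab (by linear_combination h - b * H.two)
    have hs : a + b ∈ (els F).erase 0 := mem_erase.mpr ⟨hab0,
      mem_els.mpr (F.add_mem (mem_els.mp (mem_erase.mp ha).2) (mem_els.mp (mem_erase.mp hb).2))⟩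
    have ha0 := (mem_erase.mp ha).1
    have hb0 := (mem_erase.mp hb).1
    rw [he] at hs
    simp only [mem_insert, mem_singleton] at hs
    have hcab : c = a + b := by
      rcases hs with h | h | h
      · exact absurd (by simpa using h) hb0
      · exact absurd (by simpa using h) ha0
      · exact h.symm
    rw [he, sum_insert (by simp [hab, hac]), sum_insert (by simp [hbc]), sum_singleton, hcab] at h0
    field_simp at h0
    set u := a / b with hu
    have hu0 : u ≠ 0 := div_ne_zero ha0 hb0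
    have hu1 : u ≠ 1 := fun h => hab ((div_eq_one_iff_eq hb0).mp h)
    have hu3 : u ^ 3 = 1 := by
      rw [hu, div_pow, div_eq_one_iff_eq (pow_ne_zero _ hb0)]
      linear_combination (a - b) * h0 - (a - b) * a * b * H.two
    have h4 := FiniteField.pow_card u
    obtain ⟨m, rfl⟩ := ho
    have h5 : ∀ m : ℕ, u ^ 2 ^ (2 * m + 1) = u ^ 2 := by
      intro m
      induction m with
      | zero => simp
      | succ m ih =>
        rw [show 2 * (m + 1) + 1 = (2 * m + 1) + 2 by ring, pow_add, pow_mul, ih]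
        linear_combination (u ^ 5 + u ^ 2) * hu3
    rw [hq, h5] at h4
    exact hu1 (mul_left_cancel₀ hu0 (by linear_combination h4))

theorem exists_iff [CharP K 2] (n k : ℕ) (hn : finrank (ZMod 2) K = n) (ho : Odd n) (h3 : 3 ≤ n)
    (hk1 : 1 ≤ k) (hk2 : k ≤ n - 1) :
    (∃ F : Submodule (ZMod 2) K, finrank (ZMod 2) F = k ∧ SS F = 0) ↔ (3 ≤ k ∧ k ≤ n - 3) := by
  obtain ⟨ρ, t, H, hρ⟩ := exists_rho (K := K)
  have hq : 2 < Fintype.card K := by
    rw [Module.card_eq_pow_finrank (K := ZMod 2) (V := K), ZMod.card, hn]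
    exact lt_of_lt_of_le (by norm_num) (Nat.pow_le_pow_right (by norm_num) h3)
  constructor
  · rintro ⟨F, h1, h2⟩
    obtain ⟨F', h4, h5⟩ := dual hρ hq F h2
    have h6 : ¬ (finrank (ZMod 2) F = 1 ∨ finrank (ZMod 2) F = 2) :=
      fun h => small_ne n hn ho F h h2
    have h7 : ¬ (finrank (ZMod 2) F' = 1 ∨ finrank (ZMod 2) F' = 2) :=
      fun h => small_ne n hn ho F' h h5
    omega
  · rintro ⟨h1, h2⟩
    by_cases h : 2 * k + 1 ≤ n
    · exact exists_half n k hn ho h1 h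
    · obtain ⟨m, hm⟩ := ho
      obtain ⟨F, h4, h5⟩ := exists_half n (n - k) hn ⟨m, hm⟩ (by omega) (by omega)
      obtain ⟨F', h6, h7⟩ := dual hρ hq F h5
      exact ⟨F', by omega, h7⟩

lemma finsum_els (F : Submodule (ZMod 2) K) (f : K → K) :
    ∑ᶠ x ∈ (F : Set K), f x = ∑ x ∈ els F, f x := by
  rw [← finsum_mem_coe_finset]
  congr 1
  ext x
  simp [els]

end Pool.Agent.H56.Skew
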