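import Pool.Agent.H56.SniDef

set_option autoImplicit false

namespace Pool.Agent.H56.Sni
open Filter Topology Set

section general
variable {X : Type} [NormedAddCommGroup X] [NormedSpace ℝ X]

lemma rad_nonneg (T : X →L[ℝ] X) : 0 ≤ numRadius T :=
  Real.sSup_nonneg (by rintro _ ⟨x, f, -, -, -, rfl⟩; exact abs_nonneg _)

lemma le_rad (T : X →L[ℝ] X) (x : X) (f : X →L[ℝ] ℝ) (hx : ‖x‖ ≤ 1) (hf : ‖f‖ ≤ 1)
    (h : f x = 1) : |f (T x)| ≤ numRadius T := by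
  have h1 := f.le_opNorm x
  rw [h, norm_one] at h1
  have h2 := norm_nonneg x
  have h3 := norm_nonneg f
  refine le_csSup ⟨‖T‖, ?_⟩ ⟨x, f, by nlinarith, by nlinarith, h, rfl⟩
  rintro _ ⟨y, g, hy, hg, -, rfl⟩
  have h1 := g.le_opNorm (T y)
  have h2 := T.le_opNorm y
  rw [hg, one_mul, Real.norm_eq_abs] at h1
  rw [hy, mul_one] at h2
  exact h1.trans h2

lemma rad_le (T : X →L[ℝ] X) (c C : ℝ) (hc : 0 ≤ c) (hC : 0 ≤ C)
    (h : ∀ x, ‖x‖ = 1 → ∀ t : ℝ, ‖x + t • T x‖ ≤ 1 + |t| * c + t ^ 2 * C) : numRadius T ≤ c := by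
  refine Real.sSup_le ?_ hc
  rintro _ ⟨x, f, hx, hf, h1, rfl⟩
  have key : ∀ t : ℝ, t * f (T x) ≤ |t| * c + t ^ 2 * C := fun t => by
    have h2 := f.le_opNorm (x + t • T x)
    rw [hf, one_mul, map_add, map_smul, h1, smul_eq_mul, Real.norm_eq_abs] at h2
    have := h x hx t
    have := le_abs_self (1 + t * f (T x))
    linarith
  refine le_of_forall_pos_le_add fun η hη => ?_
  have hs : 0 < η / (C + 1) := by positivity
  have h3 : η / (C + 1) * C ≤ η := by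
    rw [div_mul_eq_mul_div, div_le_iff₀ (by positivity)]; nlinarith
  have k1 := key (η / (C + 1))
  have k2 := key (-(η / (C + 1)))
  rw [abs_neg] at k2
  rw [abs_of_pos hs] at k1 k2
  rw [abs_le]
  constructor <;> nlinarith

lemma zero_skew : (0 : X →L[ℝ] X) ∈ skew X :=
  le_antisymm (rad_le 0 0 0 le_rfl le_rfl fun x hx t => by simp [hx]) (rad_nonneg _)

lemma quot_bdd (T : X →L[ℝ] X) : BddBelow {r : ℝ | ∃ S ∈ skew X, r = ‖T - S‖} :=
  ⟨0, by rintro _ ⟨S, -, rfl⟩; exact norm_nonneg _⟩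

lemma rad_lip (T S : X →L[ℝ] X) (hS : S ∈ skew X) : numRadius T ≤ ‖T - S‖ := by
  refine Real.sSup_le ?_ (norm_nonneg _)
  rintro _ ⟨x, f, hx, hf, h1, rfl⟩
  have h2 := le_rad S x f hx.le hf.le h1
  rw [show numRadius S = 0 from hS] at h2
  have h3 := f.le_opNorm ((T - S) x)
  have h4 := (T - S).le_opNorm x
  rw [hf, one_mul, Real.norm_eq_abs, sub_apply, map_sub, abs_nonpos_iff.1 h2, sub_zero] at h3
  rw [hx, mul_one, sub_apply] at h4
  exact h3.trans h4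

lemma index_le (T : X →L[ℝ] X) (c : ℝ) (h1 : numRadius T ≤ c)
    (h2 : ∀ S ∈ skew X, 1 ≤ ‖T - S‖) : secondIndex X ≤ c := by
  have h3 : 1 ≤ quotNorm T :=
    le_csInf ⟨_, 0, zero_skew, rfl⟩ (by rintro _ ⟨S, hS, rfl⟩; exact h2 S hS)
  unfold secondIndex
  refine le_trans (csInf_le (a := numRadius T / quotNorm T) ⟨0, ?_⟩ ⟨T, fun h => ?_, rfl⟩) ?_
  · rintro _ ⟨S, -, rfl⟩
    exact div_nonneg (rad_nonneg _)
      (Real.sInf_nonneg (by rintro _ ⟨S, -, rfl⟩; exact norm_nonneg _))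
  · have := h2 T h
    rw [sub_self, norm_zero] at this
    linarith
  · exact (div_le_self (rad_nonneg _) h3).trans h1

lemma le_index (x : X) (f : X →L[ℝ] ℝ) (hx : ‖x‖ ≤ 1) (hf : ‖f‖ ≤ 1) (h0 : f x = 1) (C : ℝ)
    (hC : 0 < C) (h : ∀ T : X →L[ℝ] X, ∃ S ∈ skew X, ‖T - S‖ ≤ C * numRadius T) :
    1 / C ≤ secondIndex X := by
  refine le_csInf ⟨_, ContinuousLinearMap.id ℝ X, fun h1 => ?_, rfl⟩ ?_
  · have := le_rad (ContinuousLinearMap.id ℝ X) x f hx hf h0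
    rw [show numRadius _ = 0 from h1, ContinuousLinearMap.id_apply, h0] at this
    norm_num at this
  · rintro _ ⟨T, hT, rfl⟩
    have h1 : 0 < numRadius T := (rad_nonneg T).lt_of_ne' hT
    have h2 : numRadius T ≤ quotNorm T :=
      le_csInf ⟨_, 0, zero_skew, rfl⟩ (by rintro _ ⟨S, hS, rfl⟩; exact rad_lip T S hS)
    obtain ⟨S, hS, h3⟩ := h T
    have h4 : quotNorm T ≤ ‖T - S‖ := csInf_le (quot_bdd T) ⟨S, hS, rfl⟩
    rw [div_le_div_iff₀ hC (by linarith)]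
    linarith

lemma le_rad_dual (T : (X →L[ℝ] ℝ) →L[ℝ] (X →L[ℝ] ℝ)) (φ : X →L[ℝ] ℝ) (x : X) (h1 : ‖φ‖ ≤ 1)
    (h2 : ‖x‖ ≤ 1) (h : φ x = 1) : |T φ x| ≤ numRadius T :=
  le_rad T φ (ContinuousLinearMap.apply ℝ ℝ x) h1
    (ContinuousLinearMap.opNorm_le_bound _ zero_le_one fun ψ => by
      have := ψ.le_opNorm x
      have := mul_le_mul_of_nonneg_left h2 (norm_nonneg ψ)
      simp only [ContinuousLinearMap.apply_apply]
      linarith) h

end general

abbrev A : Type := ℂ × C(OnePoint ℕ, ℝ)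

noncomputable def L : A →L[ℝ] ℝ :=
  (ContinuousMap.evalCLM ℝ OnePoint.infty).comp (ContinuousLinearMap.snd ℝ _ _) -
    (1 / 100 : ℝ) • Complex.reCLM.comp (ContinuousLinearMap.fst ℝ _ _)

def E : Type := (L.ker : Submodule ℝ A)

noncomputable instance : NormedAddCommGroup E :=
  inferInstanceAs (NormedAddCommGroup (L.ker : Submodule ℝ A))
noncomputable instance : NormedSpace ℝ E := inferInstanceAs (NormedSpace ℝ (L.ker : Submodule ℝ A))
instance : CompleteSpace E := inferInstanceAs (CompleteSpace (L.ker : Submodule ℝ A))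

noncomputable def inc : E →L[ℝ] A :=
  LinearMap.mkContinuous
    { toFun := fun x => x.1, map_add' := fun _ _ => rfl, map_smul' := fun _ _ => rfl } 1
    fun x => (one_mul ‖x‖).ge

noncomputable def Z : E →L[ℝ] ℂ := (ContinuousLinearMap.fst ℝ _ _).comp inc

noncomputable def dl (n : ℕ) : E →L[ℝ] ℝ :=
  (ContinuousMap.evalCLM ℝ (n : OnePoint ℕ)).comp ((ContinuousLinearMap.snd ℝ _ _).comp inc)

lemma lim (x : E) : Tendsto (fun n => dl n x) atTop (𝓝 (1 / 100 * (Z x).re)) := by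
  have h1 : x.1.2 OnePoint.infty - 1 / 100 * (Z x).re = 0 := x.2
  rw [← sub_eq_zero.1 h1]
  exact (OnePoint.continuous_iff_from_nat _).1 x.1.2.continuous

lemma Z_le (x : E) : ‖Z x‖ ≤ ‖x‖ := norm_fst_le x.1

lemma dl_le (n : ℕ) (x : E) : |dl n x| ≤ ‖x‖ :=
  (x.1.2.norm_coe_le_norm (n : OnePoint ℕ)).trans (norm_snd_le x.1)

lemma nle (x : E) (c : ℝ) (h1 : ‖Z x‖ ≤ c) (h2 : ∀ n, |dl n x| ≤ c) : ‖x‖ ≤ c := by
  refine max_le h1 ((ContinuousMap.norm_le _ ((norm_nonneg _).trans h1)).2 fun t => ?_)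
  induction t using OnePoint.rec with
  | infty =>
    exact le_of_tendsto' ((OnePoint.continuous_iff_from_nat _).1 x.1.2.continuous).abs h2
  | coe n => exact h2 n

lemma ex (z : ℂ) (f : ℕ → ℝ) (h : Tendsto f atTop (𝓝 (1 / 100 * z.re))) :
    ∃ x : E, Z x = z ∧ ∀ n, dl n x = f n :=
  ⟨⟨(z, OnePoint.continuousMapMkNat f _ h), sub_self (1 / 100 * z.re)⟩, rfl, fun _ => rfl⟩

lemma extE (x y : E) (h1 : Z x = Z y) (h2 : ∀ n, dl n x = dl n y) : x = y := by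
  rw [← sub_eq_zero, ← norm_le_zero_iff]
  exact nle _ _ (by simp [h1]) fun n => by simp [h2]

end Pool.Agent.H56.Sni
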