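import Pool.Agent.H56.Sni1

set_option autoImplicit false

namespace Pool.Agent.H56.Sni
open Filter Topology Set

lemma ex_e (n : ℕ) : ∃ x : E, Z x = 0 ∧ ∀ m, dl m x = if m = n then 1 else 0 := by
  refine ex 0 _ (tendsto_const_nhds.congr' ?_)
  filter_upwards [eventually_gt_atTop n] with m hm
  simp [hm.ne']

noncomputable def e (n : ℕ) : E := (ex_e n).choose
lemma Z_e (n : ℕ) : Z (e n) = 0 := (ex_e n).choose_spec.1
lemma dl_e (n m : ℕ) : dl m (e n) = if m = n then 1 else 0 := (ex_e n).choose_spec.2 m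

lemma ex_u (N : ℕ) : ∃ x : E, Z x = 1 ∧ ∀ m, dl m x = if m < N then 0 else 1 / 100 := by
  refine ex 1 _ (tendsto_const_nhds.congr' ?_)
  filter_upwards [eventually_ge_atTop N] with m hm
  simp [hm.not_gt]

noncomputable def u (N : ℕ) : E := (ex_u N).choose
lemma Z_u (N : ℕ) : Z (u N) = 1 := (ex_u N).choose_spec.1
lemma dl_u (N m : ℕ) : dl m (u N) = if m < N then 0 else 1 / 100 := (ex_u N).choose_spec.2 m

lemma ex_w : ∃ x : E, Z x = Complex.I ∧ ∀ m, dl m x = 0 := ex _ _ (by simp)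

noncomputable def w : E := ex_w.choose
lemma Z_w : Z w = Complex.I := ex_w.choose_spec.1
lemma dl_w (m : ℕ) : dl m w = 0 := ex_w.choose_spec.2 m

lemma e_le (n : ℕ) : ‖e n‖ ≤ 1 :=
  nle _ _ (by simp [Z_e]) fun m => by rw [dl_e]; split_ifs <;> simp
lemma u_le (N : ℕ) : ‖u N‖ ≤ 1 :=
  nle _ _ (by simp [Z_u]) fun m => by rw [dl_u]; split_ifs <;> norm_num
lemma w_le : ‖w‖ ≤ 1 := nle _ _ (by simp [Z_w]) fun m => by simp [dl_w]
lemma dl_norm (n : ℕ) : ‖dl n‖ ≤ 1 :=
  ContinuousLinearMap.opNorm_le_bound _ zero_le_one fun x => by simpa using dl_le n x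

noncomputable def P (k : ℂ) : E →L[ℝ] ℝ :=
  k.re • Complex.reCLM.comp Z + k.im • Complex.imCLM.comp Z

lemma P_apply (k : ℂ) (x : E) : P k x = k.re * (Z x).re + k.im * (Z x).im := rfl

lemma P_le (k : ℂ) (x : E) : |P k x| ≤ ‖k‖ * ‖x‖ := by
  refine le_trans ?_ (mul_le_mul_of_nonneg_left (Z_le x) (norm_nonneg k))
  have := abs_real_inner_le_norm k (Z x)
  rw [Complex.inner] at this
  rw [P_apply]
  simpa [mul_comm] using this

lemma P_norm (k : ℂ) : ‖P k‖ ≤ ‖k‖ :=
  ContinuousLinearMap.opNorm_le_bound _ (norm_nonneg _) (P_le k)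

lemma bump (x : E) (hx : ‖x‖ ≤ 1) (n : ℕ) :
    ‖x + (1 - dl n x) • e n‖ ≤ 1 ∧ dl n (x + (1 - dl n x) • e n) = 1 := by
  refine ⟨nle _ _ ?_ fun m => ?_, by simp [dl_e]⟩
  · simpa [Z_e] using (Z_le x).trans hx
  · by_cases h : m = n
    · simp [h, dl_e]
    · simpa [h, dl_e] using (dl_le m x).trans hx

lemma rot_le (k : ℂ) (t : ℝ) (h : ‖k‖ ≤ 1) : ‖k + t • (Complex.I * k)‖ ≤ ‖k‖ + t ^ 2 := by
  have h1 : k + t • (Complex.I * k) = (1 + t * Complex.I) * k := by
    simp only [Complex.real_smul]; ring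
  have h2 : ‖(1 + t * Complex.I : ℂ)‖ ≤ 1 + t ^ 2 := by
    refine le_of_sq_le_sq ?_ (by positivity)
    rw [Complex.sq_norm, Complex.normSq_apply]
    simp
    nlinarith [sq_nonneg t, sq_nonneg (t ^ 2)]
  rw [h1, norm_mul]
  nlinarith [norm_nonneg k, sq_nonneg t, norm_nonneg (1 + t * Complex.I : ℂ)]

theorem upper : secondIndex E ≤ 1 / 100 := by
  set T : E →L[ℝ] E := (P 1).smulRight w - (P Complex.I).smulRight (u 0) with hT
  have hZ : ∀ x, Z (T x) = Complex.I * Z x := fun x => by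
    apply Complex.ext <;> simp [hT, P_apply, Z_w, Z_u]
  have hd : ∀ x n, dl n (T x) = -(Z x).im / 100 := fun x n => by
    simp [hT, P_apply, dl_w, dl_u]; ring
  refine index_le T _ (rad_le T _ 1 (by norm_num) zero_le_one fun x hx t => ?_) fun S hS => ?_
  · have h1 := (Z_le x).trans hx.le
    have h0 : 0 ≤ |t| := abs_nonneg t
    refine nle _ _ ?_ fun n => ?_
    · rw [map_add, map_smul, hZ]
      have := rot_le (Z x) t h1
      linarith
    · rw [map_add, map_smul, hd, smul_eq_mul]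
      refine (abs_add_le _ _).trans ?_
      have h2 := (dl_le n x).trans hx.le
      have h3 := (Complex.abs_im_le_norm (Z x)).trans h1
      rw [abs_mul, abs_div, abs_neg, abs_of_pos (show (0 : ℝ) < 100 by norm_num)]
      nlinarith [sq_nonneg t]
  · have h0 : ∀ x n, ‖x‖ ≤ 1 → dl n x = 1 → dl n (S x) = 0 := fun x n h1 h2 => by
      have := le_rad S x (dl n) h1 (dl_norm n) h2
      rw [show numRadius S = 0 from hS] at this
      exact abs_nonpos_iff.1 this
    have h1 : ∀ n, dl n (S w) = 0 := fun n => by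
      have h2 := h0 _ n (bump w w_le n).1 (bump w w_le n).2
      have h3 := h0 _ n (e_le n) (by simp [dl_e])
      simpa [h3] using h2
    have h2 := lim (S w)
    simp only [h1] at h2
    have h3 := tendsto_nhds_unique h2 tendsto_const_nhds
    have h4 : (Z ((T - S) w)).re = -1 := by
      rw [sub_apply, map_sub, hZ, Z_w, Complex.sub_re]
      simp
      linarith
    have h5 := (Complex.abs_re_le_norm _).trans (Z_le ((T - S) w))
    have h6 := (T - S).le_opNorm w
    have h7 := mul_le_mul_of_nonneg_left w_le (norm_nonneg (T - S))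
    rw [h4] at h5
    norm_num at h5
    rw [sub_apply] at h6
    linarith

lemma dl_sum (c : ℕ → ℝ) (N m : ℕ) :
    dl m (∑ n ∈ Finset.range N, c n • e n) = if m < N then c m else 0 := by
  simp [map_sum, dl_e]

lemma Z_sum (c : ℕ → ℝ) (N : ℕ) : Z (∑ n ∈ Finset.range N, c n • e n) = 0 := by
  simp [map_sum, Z_e]

lemma sgn (a : ℝ) : ∃ s : ℝ, |s| ≤ 1 ∧ s * a = |a| := by
  rcases le_total 0 a with h | h
  · exact ⟨1, by simp, by simp [abs_of_nonneg h]⟩
  · exact ⟨-1, by simp, by simp [abs_of_nonpos h]⟩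

/-- test vectors -/
lemma test (φ : E →L[ℝ] ℝ) (k : ℂ) (hk : ‖k‖ ≤ 1) (N : ℕ) :
    k.re * φ (u N) + k.im * φ w + ∑ n ∈ Finset.range N, |φ (e n)| ≤ ‖φ‖ := by
  choose s s1 s2 using fun n => sgn (φ (e n))
  have h1 : ‖k.re • u N + k.im • w + ∑ n ∈ Finset.range N, s n • e n‖ ≤ 1 := by
    refine nle _ _ ?_ fun m => ?_
    · rw [map_add, Z_sum, add_zero, map_add, map_smul, map_smul, Z_u, Z_w]
      convert hk using 2
      apply Complex.ext <;> simp
    · rw [map_add, dl_sum, map_add, map_smul, map_smul, dl_u, dl_w]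
      have := (Complex.abs_re_le_norm k).trans hk
      split_ifs
      · simpa using s1 m
      · simp only [smul_eq_mul, mul_zero, add_zero, abs_mul]
        norm_num
        linarith [abs_nonneg k.re]
  have h2 := φ.le_opNorm (k.re • u N + k.im • w + ∑ n ∈ Finset.range N, s n • e n)
  have h3 := mul_le_mul_of_nonneg_left h1 (norm_nonneg φ)
  simp only [map_add, map_smul, map_sum, smul_eq_mul, s2, Real.norm_eq_abs] at h2
  exact (le_abs_self _).trans (by linarith)

lemma summ (φ : E →L[ℝ] ℝ) : Summable fun n => |φ (e n)| :=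
  summable_of_sum_range_le (c := ‖φ‖) (fun _ => abs_nonneg _) fun N => by
    simpa using test φ 0 (by simp) N

lemma u_eq (N : ℕ) : u N = u 0 - ∑ n ∈ Finset.range N, (1 / 100 : ℝ) • e n := by
  refine extE _ _ (by rw [map_sub, Z_sum, Z_u, Z_u, sub_zero]) fun m => ?_
  rw [map_sub, dl_sum, dl_u, dl_u]
  split_ifs <;> simp_all

noncomputable def k1 (φ : E →L[ℝ] ℝ) : ℝ := φ (u 0) - ∑' n, 1 / 100 * φ (e n)

lemma k1_lim (φ : E →L[ℝ] ℝ) : Tendsto (fun N => φ (u N)) atTop (𝓝 (k1 φ)) := by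
  have h1 := ((summ φ).of_abs.mul_left (1 / 100)).hasSum.tendsto_sum_nat
  refine (tendsto_const_nhds.sub h1).congr fun N => ?_
  rw [u_eq N]
  simp [map_sum]

noncomputable def kk : (E →L[ℝ] ℝ) →L[ℝ] ℂ :=
  LinearMap.mkContinuous
    { toFun := fun φ => ⟨k1 φ, φ w⟩
      map_add' := fun φ ψ => Complex.ext
        (tendsto_nhds_unique (k1_lim (φ + ψ)) ((k1_lim φ).add (k1_lim ψ))) rfl
      map_smul' := fun c φ => Complex.ext
        (by simpa using tendsto_nhds_unique (k1_lim (c • φ)) ((k1_lim φ).const_mul c))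
        (by simp) } 2 fun φ => by
    refine (Complex.norm_le_abs_re_add_abs_im _).trans ?_
    have h1 : |k1 φ| ≤ ‖φ‖ := le_of_tendsto' (k1_lim φ).abs fun N =>
      (φ.le_opNorm _).trans (mul_le_of_le_one_right (norm_nonneg _) (u_le N))
    have h2 : |φ w| ≤ ‖φ‖ := (φ.le_opNorm _).trans (mul_le_of_le_one_right (norm_nonneg _) w_le)
    change |k1 φ| + |φ w| ≤ _
    linarith

lemma kk_re (φ : E →L[ℝ] ℝ) : (kk φ).re = k1 φ := rfl
lemma kk_im (φ : E →L[ℝ] ℝ) : (kk φ).im = φ w := rfl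

lemma lower_norm (φ : E →L[ℝ] ℝ) : ‖kk φ‖ + ∑' n, |φ (e n)| ≤ ‖φ‖ := by
  obtain ⟨k, hk, h⟩ : ∃ k : ℂ, ‖k‖ ≤ 1 ∧ k.re * (kk φ).re + k.im * (kk φ).im = ‖kk φ‖ := by
    by_cases h0 : kk φ = 0
    · exact ⟨0, by simp, by simp [h0]⟩
    · have h1 : ‖kk φ‖ ≠ 0 := norm_ne_zero_iff.2 h0
      refine ⟨‖kk φ‖⁻¹ • kk φ, by rw [norm_smul, norm_inv, norm_norm, inv_mul_cancel₀ h1], ?_⟩
      have := Complex.sq_norm (kk φ)
      rw [Complex.normSq_apply] at this
      simp only [Complex.smul_re, Complex.smul_im, smul_eq_mul]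
      field_simp
      linarith
  rw [← h]
  exact le_of_tendsto' ((((k1_lim φ).const_mul k.re).add_const (k.im * φ w)).add
    (summ φ).hasSum.tendsto_sum_nat) (test φ k hk)

lemma repr (φ : E →L[ℝ] ℝ) (x : E) :
    Tendsto (fun N => ∑ n ∈ Finset.range N, φ (e n) * dl n x) atTop (𝓝 (φ x - P (kk φ) x)) := by
  have h1 : Tendsto (fun N => x - ∑ n ∈ Finset.range N, dl n x • e n - (Z x).re • u N -
      (Z x).im • w) atTop (𝓝 0) := by
    rw [Metric.tendsto_atTop]
    intro ε hε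
    obtain ⟨M, hM⟩ := Metric.tendsto_atTop.1 (lim x) (ε / 2) (by positivity)
    refine ⟨M, fun N hN => ?_⟩
    rw [dist_zero_right]
    refine lt_of_le_of_lt (nle _ (ε / 2) ?_ fun m => ?_) (by linarith)
    · rw [map_sub, map_sub, map_sub, Z_sum, map_smul, map_smul, Z_u, Z_w]
      rw [show Z x - 0 - (Z x).re • (1 : ℂ) - (Z x).im • Complex.I = 0 by
        apply Complex.ext <;> simp, norm_zero]
      positivity
    · rw [map_sub, map_sub, map_sub, dl_sum, map_smul, map_smul, dl_u, dl_w]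
      split_ifs with h
      · simp; positivity
      · have := hM m (by omega)
        rw [Real.dist_eq] at this
        rw [smul_eq_mul, smul_eq_mul, sub_zero, mul_zero, sub_zero, mul_comm]
        exact this.le
  have h2 := (φ.continuous.tendsto 0).comp h1
  rw [map_zero] at h2
  have h3 := ((tendsto_const_nhds (x := φ x - (Z x).im * φ w)).sub
    ((k1_lim φ).const_mul (Z x).re)).sub h2
  convert h3 using 2
  · simp [map_sum, mul_comm]; ring
  · rw [P_apply, kk_re, kk_im]; ring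

lemma hasSum_R (φ : E →L[ℝ] ℝ) : HasSum (fun n => φ (e n) • dl n) (φ - P (kk φ)) := by
  have h1 : Summable fun n => φ (e n) • dl n := by
    refine Summable.of_norm_bounded (summ φ) fun n => ?_
    rw [norm_smul]
    exact mul_le_of_le_one_right (abs_nonneg _) (dl_norm n)
  convert h1.hasSum using 1
  ext x
  have h2 := (h1.hasSum.mapL (ContinuousLinearMap.apply ℝ ℝ x)).tendsto_sum_nat
  exact tendsto_nhds_unique (repr φ x) h2

lemma R_le (T : (E →L[ℝ] ℝ) →L[ℝ] (E →L[ℝ] ℝ)) (c : ℝ) (h : ∀ n, ‖T (dl n)‖ ≤ c)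
    (φ : E →L[ℝ] ℝ) : ‖T (φ - P (kk φ))‖ ≤ (∑' n, |φ (e n)|) * c := by
  refine ((hasSum_R φ).mapL T).norm_le_of_bounded ((summ φ).hasSum.mul_right c) fun n => ?_
  rw [map_smul, norm_smul]
  exact mul_le_mul_of_nonneg_left (h n) (abs_nonneg _)

end Pool.Agent.H56.Sni
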