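import Pool.Agent.H56.Sni2

set_option autoImplicit false

namespace Pool.Agent.H56.Sni
open Filter Topology Set

noncomputable def PL : ℂ →L[ℝ] (E →L[ℝ] ℝ) :=
  Complex.reCLM.smulRight (P 1) + Complex.imCLM.smulRight (P Complex.I)

lemma PL_eq (k : ℂ) : PL k = P k := by
  ext x; simp [PL, P_apply]

lemma kk_dl (n : ℕ) : kk (dl n) = 0 := by
  refine Complex.ext ?_ (dl_w n)
  refine tendsto_nhds_unique (k1_lim (dl n)) (tendsto_const_nhds.congr' ?_)
  filter_upwards [eventually_gt_atTop n] with N hN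
  simp [dl_u, hN]

noncomputable def SS (s : ℝ) : (E →L[ℝ] ℝ) →L[ℝ] (E →L[ℝ] ℝ) :=
  s • PL.comp ((ContinuousLinearMap.mul ℝ ℂ Complex.I).comp kk)

lemma SS_apply (s : ℝ) (φ : E →L[ℝ] ℝ) : SS s φ = s • P (Complex.I * kk φ) := by
  rw [← PL_eq]; rfl

lemma kk_P (k : ℂ) : kk (P k) = k := by
  refine Complex.ext ?_ (by simp [kk_im, P_apply, Z_w])
  refine tendsto_nhds_unique (k1_lim (P k)) (tendsto_const_nhds.congr fun N => ?_)
  simp [P_apply, Z_u]

lemma SS_skew (s : ℝ) : SS s ∈ skew (E →L[ℝ] ℝ) := by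
  refine le_antisymm (rad_le _ 0 (s ^ 2) le_rfl (sq_nonneg s) fun φ hφ t => ?_) (rad_nonneg _)
  have h1 := lower_norm φ
  have h0 : 0 ≤ ∑' n, |φ (e n)| := tsum_nonneg fun _ => abs_nonneg _
  have h2 := R_le (ContinuousLinearMap.id ℝ _) 1 dl_norm φ
  have h3 := rot_le (kk φ) (t * s) (by linarith)
  have h4 := P_norm (kk φ + (t * s) • (Complex.I * kk φ))
  have h5 : φ + t • SS s φ = (φ - P (kk φ)) + P (kk φ + (t * s) • (Complex.I * kk φ)) := by
    rw [SS_apply, ← PL_eq (_ + _), map_add, map_smul, PL_eq, PL_eq, smul_smul]; abel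
  rw [h5]
  refine (norm_add_le _ _).trans ?_
  rw [ContinuousLinearMap.id_apply] at h2
  rw [mul_pow] at h3
  linarith

theorem lower : 1 / 23 ≤ secondIndex (E →L[ℝ] ℝ) := by
  refine le_index (dl 0) (ContinuousLinearMap.apply ℝ ℝ (e 0)) (dl_norm 0)
    (ContinuousLinearMap.opNorm_le_bound _ zero_le_one fun ψ => by
      have := ψ.le_opNorm (e 0)
      have := mul_le_mul_of_nonneg_left (e_le 0) (norm_nonneg ψ)
      simp only [ContinuousLinearMap.apply_apply]
      linarith) (by simp [dl_e]) 23 (by norm_num) fun T => ?_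
  set v := numRadius T with hv
  have v0 : 0 ≤ v := rad_nonneg T
  have ha : ∀ n, ‖T (dl n)‖ ≤ 3 * v := fun n => by
    refine ContinuousLinearMap.opNorm_le_of_unit_norm (by positivity) fun x hx => ?_
    have h1 := le_rad_dual T (dl n) _ (dl_norm n) (bump x hx.le n).1 (bump x hx.le n).2
    have h2 := le_rad_dual T (dl n) _ (dl_norm n) (e_le n) (by simp [dl_e])
    have h3 := abs_le.1 ((dl_le n x).trans hx.le)
    have h4 : |(1 - dl n x) * T (dl n) (e n)| ≤ 2 * v := by
      rw [abs_mul]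
      exact mul_le_mul (abs_le.2 ⟨by linarith, by linarith⟩) h2 (abs_nonneg _) (by norm_num)
    rw [map_add, map_smul, smul_eq_mul] at h1
    rw [Real.norm_eq_abs]
    rw [abs_le] at h1 h4 ⊢
    constructor <;> linarith [h1.1, h1.2, h4.1, h4.2]
  have hb : ∀ k : ℂ, ‖k‖ = 1 → ∀ g : E, Z g = 0 → ‖g‖ ≤ 1 / 2 →
      |T (P k) (k.re • u 0 + k.im • w + g)| ≤ v := fun k hk g g0 g1 => by
    have hz : Z (k.re • u 0 + k.im • w + g) = k := by
      apply Complex.ext <;> simp [Z_u, Z_w, g0]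
    refine le_rad_dual T _ _ ((P_norm k).trans hk.le) (nle _ _ (by rw [hz, hk]) fun n => ?_) ?_
    · have h1 := abs_le.1 ((dl_le n g).trans g1)
      have h2 := abs_le.1 ((Complex.abs_re_le_norm k).trans hk.le)
      simp only [map_add, map_smul, dl_u, dl_w, smul_eq_mul, Nat.not_lt_zero, if_false]
      rw [abs_le]
      constructor <;> linarith [h1.1, h1.2, h2.1, h2.2]
    · have := Complex.sq_norm k
      rw [Complex.normSq_apply, hk] at this
      rw [P_apply, hz]; linarith
  have hc : ∀ k : ℂ, ‖k‖ = 1 → ∀ x : E, ‖x‖ = 1 →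
      |T (P k) x - (Z x).re * T (P k) (u 0) - (Z x).im * T (P k) w| ≤ 8 * v := fun k hk x hx => by
    have h1 := hb k hk 0 (by simp) (by simp)
    have h2 := hb k hk ((1 / 4 : ℝ) • (x - (Z x).re • u 0 - (Z x).im • w))
      (by apply Complex.ext <;> simp [Z_u, Z_w]) (nle _ _ ?_ fun n => ?_)
    · rw [add_zero] at h1
      rw [map_add (T (P k)) (_ + _), map_smul, map_sub, map_sub, map_smul, map_smul] at h2
      simp only [smul_eq_mul] at h2
      rw [abs_le] at h1 h2 ⊢
      constructor <;> linarith [h1.1, h1.2, h2.1, h2.2]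
    · rw [show Z ((1 / 4 : ℝ) • (x - (Z x).re • u 0 - (Z x).im • w)) = 0 by
        apply Complex.ext <;> simp [Z_u, Z_w]]
      simp
    · have h1 := abs_le.1 ((dl_le n x).trans hx.le)
      have h2 := abs_le.1 ((Complex.abs_re_le_norm _).trans ((Z_le x).trans hx.le))
      simp only [map_sub, map_smul, dl_u, dl_w, smul_eq_mul, Nat.not_lt_zero, if_false]
      rw [abs_le]
      constructor <;> linarith [h1.1, h1.2, h2.1, h2.2]
  have a11 := hb 1 (by simp) 0 (by simp) (by simp)
  have a22 := hb Complex.I (by simp) 0 (by simp) (by simp)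
  have a12 := hb ⟨3 / 5, 4 / 5⟩ (by
    rw [← sq_eq_sq₀ (norm_nonneg _) zero_le_one, Complex.sq_norm, Complex.normSq_apply]
    norm_num) 0 (by simp) (by simp)
  rw [← PL_eq] at a12
  simp only [PL, add_apply, ContinuousLinearMap.smulRight_apply, Complex.reCLM_apply,
    Complex.imCLM_apply, map_add, map_smul, smul_apply, smul_eq_mul, add_zero] at a12
  simp only [Complex.one_re, Complex.one_im, Complex.I_re, Complex.I_im, one_smul, zero_smul,
    add_zero, zero_add] at a11 a22
  set s := T (P 1) w with hs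
  have b12 : |T (P Complex.I) (u 0) + s| ≤ 5 * v := by
    rw [abs_le] at a11 a22 a12 ⊢
    constructor <;> linarith [a11.1, a11.2, a22.1, a22.2, a12.1, a12.2]
  have hm : ∀ a b c : ℝ, |a| ≤ 1 → |b| ≤ c → |a * b| ≤ c := fun a b c h1 h2 => by
    rw [abs_mul]
    exact (mul_le_of_le_one_left (abs_nonneg _) h1).trans h2
  have c1 : ‖(T - SS s) (P 1)‖ ≤ 9 * v := by
    refine ContinuousLinearMap.opNorm_le_of_unit_norm (by positivity) fun x hx => ?_
    have h1 := hc 1 (by simp) x hx
    have h2 := hm _ _ _ ((Complex.abs_re_le_norm _).trans ((Z_le x).trans hx.le)) a11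
    rw [sub_apply, sub_apply, SS_apply, kk_P, smul_apply, P_apply, Real.norm_eq_abs]
    simp only [mul_one, Complex.I_re, Complex.I_im, smul_eq_mul]
    rw [abs_le] at h1 h2 ⊢
    constructor <;> linarith [h1.1, h1.2, h2.1, h2.2]
  have c2 : ‖(T - SS s) (P Complex.I)‖ ≤ 14 * v := by
    refine ContinuousLinearMap.opNorm_le_of_unit_norm (by positivity) fun x hx => ?_
    have h1 := hc Complex.I (by simp) x hx
    have h2 := hm _ _ _ ((Complex.abs_re_le_norm _).trans ((Z_le x).trans hx.le)) b12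
    have h3 := hm _ _ _ ((Complex.abs_im_le_norm _).trans ((Z_le x).trans hx.le)) a22
    rw [sub_apply, sub_apply, SS_apply, kk_P, smul_apply, P_apply, Real.norm_eq_abs]
    simp only [Complex.I_mul_I, Complex.neg_re, Complex.neg_im, Complex.one_re, Complex.one_im,
      smul_eq_mul]
    rw [abs_le] at h1 h2 h3 ⊢
    constructor <;> linarith [h1.1, h1.2, h2.1, h2.2, h3.1, h3.2]
  refine ⟨SS s, SS_skew s, ContinuousLinearMap.opNorm_le_bound _ (by positivity) fun φ => ?_⟩
  have h1 := R_le (T - SS s) (3 * v) (fun n => by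
    rw [sub_apply, SS_apply, kk_dl, mul_zero, ← PL_eq, map_zero, smul_zero, sub_zero]
    exact ha n) φ
  have h2 := lower_norm φ
  have h0 : 0 ≤ ∑' n, |φ (e n)| := tsum_nonneg fun _ => abs_nonneg _
  have h3 : (T - SS s) φ = (T - SS s) (φ - P (kk φ)) + (kk φ).re • (T - SS s) (P 1) +
      (kk φ).im • (T - SS s) (P Complex.I) := by
    rw [← map_smul, ← map_smul, ← map_add, ← map_add, ← PL_eq (kk φ)]
    congr 1
    simp only [PL, add_apply, ContinuousLinearMap.smulRight_apply, Complex.reCLM_apply,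
      Complex.imCLM_apply]
    abel
  rw [h3]
  refine norm_add₃_le.trans ?_
  rw [norm_smul, norm_smul]
  have k1 := mul_le_mul (Complex.abs_re_le_norm (kk φ)) c1 (norm_nonneg _) (norm_nonneg _)
  have k2 := mul_le_mul (Complex.abs_im_le_norm (kk φ)) c2 (norm_nonneg _) (norm_nonneg _)
  rw [Real.norm_eq_abs, Real.norm_eq_abs]
  nlinarith [mul_nonneg h0 v0, mul_le_mul_of_nonneg_left h2 v0]

end Pool.Agent.H56.Sni
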