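import Mathlib

set_option autoImplicit false

namespace Pool.Agent.H56.Sni

/-- The numerical radius `v(T)`. -/
noncomputable def numRadius {X : Type} [NormedAddCommGroup X] [NormedSpace ℝ X]
    (T : X →L[ℝ] X) : ℝ :=
  sSup {r : ℝ | ∃ (x : X) (f : X →L[ℝ] ℝ), ‖x‖ = 1 ∧ ‖f‖ = 1 ∧ f x = 1 ∧ r = |f (T x)|}

/-- The Lie algebra `Z(X)` of skew-hermitian operators. -/
def skew (X : Type) [NormedAddCommGroup X] [NormedSpace ℝ X] : Set (X →L[ℝ] X) :=
  {S | numRadius S = 0}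

/-- The quotient norm `‖T + Z(X)‖`. -/
noncomputable def quotNorm {X : Type} [NormedAddCommGroup X] [NormedSpace ℝ X]
    (T : X →L[ℝ] X) : ℝ :=
  sInf {r : ℝ | ∃ S ∈ skew X, r = ‖T - S‖}

/-- The second numerical index `n'(X)`. -/
noncomputable def secondIndex (X : Type) [NormedAddCommGroup X] [NormedSpace ℝ X] : ℝ :=
  sInf {r : ℝ | ∃ T : X →L[ℝ] X, T ∉ skew X ∧ r = numRadius T / quotNorm T}

end Pool.Agent.H56.Sni
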