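import Pool.Agent.H56.HSDef

set_option autoImplicit false

namespace Pool.Agent.H56.HS

open MvPolynomial

variable {n : ℕ} {K : Type*} [Field K]

/-- The `k`-th symbolic power: intersection over the associated primes `P` of `I` of the
contraction of `I^k S_P`. -/
noncomputable def symb (I : Ideal (MvPolynomial (Fin n) K)) (k : ℕ) :
    Ideal (MvPolynomial (Fin n) K) :=
  ⨅ (P : PrimeSpectrum (MvPolynomial (Fin n) K))
    (_ : P.asIdeal ∈ associatedPrimes (MvPolynomial (Fin n) K) (MvPolynomial (Fin n) K ⧸ I)),
    ((I ^ k).map (algebraMap _ (Localization.AtPrime P.asIdeal))).comap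
      (algebraMap _ (Localization.AtPrime P.asIdeal))

/-- The ideal generated by the homogeneous elements of degree `j` of `J`. -/
noncomputable def comp (J : Ideal (MvPolynomial (Fin n) K)) (j : ℕ) :
    Ideal (MvPolynomial (Fin n) K) :=
  Ideal.span {f | f ∈ J ∧ f.IsHomogeneous j}

/-- Every `comp J j` has a `j`-linear resolution: its `i`-th Tor lives in degree `i + j` only. -/
def CompLinear (J : Ideal (MvPolynomial (Fin n) K)) : Prop :=
  ∀ j i a, TorNe (comp J j) i a → ∑ l, a l = i + j

end Pool.Agent.H56.HS
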