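import Pool.Agent.H56.SymbDef
import Pool.Agent.H56.HSMain

set_option autoImplicit false

namespace Pool.Agent.H56.HS

open MvPolynomial Finset Pool.Agent.H56.MConv Pool.Agent.H56.MatHom

section gen
variable {n : ℕ} {K : Type*} [Field K]

noncomputable def ph (K : Type*) [Field K] (C : Finset (Fin n)) :
    MvPolynomial (Fin n) K →ₐ[K] Polynomial (MvPolynomial (Fin n) K) :=
  aeval fun j => Polynomial.monomial (if j ∈ C then 1 else 0) (X j)

theorem ph_mon (C : Finset (Fin n)) (m : Fin n →₀ ℕ) (c : K) :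
    ph K C (monomial m c) = Polynomial.monomial (∑ j ∈ C, m j) (monomial m c) := by
  induction m using Finsupp.induction_linear generalizing c with
  | zero => simp [ph, Polynomial.algebraMap_apply]
  | add a b ha hb =>
    have : monomial (a + b) c = monomial a c * monomial b 1 := by simp [monomial_mul]
    rw [this, map_mul, ha, hb, Polynomial.monomial_mul_monomial]
    simp [sum_add_distrib]
  | single j k =>
    rw [← C_mul_X_pow_eq_monomial, map_mul, map_pow]
    simp only [ph, aeval_C, aeval_X, Polynomial.monomial_pow, Polynomial.algebraMap_apply,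
      Polynomial.C_mul_monomial, Finsupp.single_apply, sum_ite_eq, algebraMap_eq]
    congr 2
    split_ifs <;> simp

theorem ph_dvd (C : Finset (Fin n)) (k : ℕ) (g : MvPolynomial (Fin n) K) :
    Polynomial.X ^ k ∣ ph K C g ↔ ∀ m ∈ g.support, k ≤ ∑ j ∈ C, m j := by
  rw [Polynomial.X_pow_dvd_iff]
  have key : ∀ d m, coeff m ((ph K C g).coeff d) = if ∑ j ∈ C, m j = d then coeff m g else 0 := by
    intro d m
    conv_lhs => rw [g.as_sum]
    simp only [map_sum, ph_mon, Polynomial.finsetSum_coeff, coeff_sum, Polynomial.coeff_monomial]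
    rw [sum_eq_single m]
    · split_ifs <;> simp
    · intro b _ hb
      split_ifs <;> simp [hb]
    · intro h
      simp [notMem_support_iff.1 h]
  constructor
  · intro h m hm
    by_contra h1
    have := key (∑ j ∈ C, m j) m
    rw [h _ (not_le.1 h1), if_pos rfl] at this
    exact mem_support_iff.1 hm (by simpa using this.symm)
  · intro h d hd
    ext m
    rw [key]
    split_ifs with h1
    · by_contra h2
      have := h m (mem_support_iff.2 (by simpa using h2))
      omega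
    · simp

noncomputable def PC (K : Type*) [Field K] (C : Finset (Fin n)) : Ideal (MvPolynomial (Fin n) K) :=
  (Ideal.span {Polynomial.X}).comap (ph K C)

theorem PC_prime (C : Finset (Fin n)) : (PC K C).IsPrime := by
  have : (Ideal.span {(Polynomial.X : Polynomial (MvPolynomial (Fin n) K))}).IsPrime :=
    (Ideal.span_singleton_prime Polynomial.X_ne_zero).2 Polynomial.prime_X
  exact Ideal.IsPrime.comap _

theorem mem_PC' (C : Finset (Fin n)) (g : MvPolynomial (Fin n) K) :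
    g ∈ PC K C ↔ Polynomial.X ∣ ph K C g := by
  rw [PC, Ideal.mem_comap, Ideal.mem_span_singleton]

theorem mem_PC (C : Finset (Fin n)) (g : MvPolynomial (Fin n) K) :
    g ∈ PC K C ↔ ∀ m ∈ g.support, 1 ≤ ∑ j ∈ C, m j := by
  rw [mem_PC', ← ph_dvd, pow_one]

theorem mem_col (J : Ideal (MvPolynomial (Fin n) K)) (f r : MvPolynomial (Fin n) K) :
    r ∈ Submodule.colon (⊥ : Submodule (MvPolynomial (Fin n) K) (MvPolynomial (Fin n) K ⧸ J))
      {Ideal.Quotient.mk J f} ↔ r * f ∈ J := by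
  rw [Submodule.mem_colon_singleton, Submodule.mem_bot, ← Ideal.Quotient.eq_zero_iff_mem]
  rfl

theorem poly_of {B : Set (Fin n → ℤ)} {d : ℕ} (h : MC B d) : IsPolymatroidal (mI K B) := by
  refine ⟨_, d, rfl, fun u hu => ?_, fun u hu v hv p hp => ?_⟩
  · have := h.deg _ hu
    simp only [toZ] at this
    exact_mod_cast this
  · obtain ⟨q, a1, a2⟩ := h.exch _ hu _ hv p (by simpa [toZ] using hp)
    refine ⟨q, by simpa [toZ] using a1, ?_⟩
    change toZ _ ∈ B
    convert a2 using 1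
    ext j
    simp only [toZ, ex, Finsupp.add_apply, Finsupp.tsub_apply, Finsupp.single_apply, eq_comm (a := j)]
    split_ifs with e1 e2 e2
    · subst e1; omega
    · subst e1; omega
    · omega
    · omega

theorem mon_mem {B : Set (Fin n → ℤ)} (h0 : ∀ b ∈ B, ∀ j, 0 ≤ b j) {c : Fin n → ℤ}
    (hc : ∀ j, 0 ≤ c j) : monomial (ofZ c) (1 : K) ∈ mI K B ↔ ∃ b ∈ B, ∀ j, b j ≤ c j := by
  have : ∀ j, (ofZ c j : ℤ) = c j := congrFun (toZ_ofZ hc)
  simp [mem_mI h0, this]

theorem mon_PC (C : Finset (Fin n)) {c : Fin n → ℤ} (hc : ∀ j, 0 ≤ c j) :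
    monomial (ofZ c) (1 : K) ∈ PC K C ↔ 1 ≤ ∑ j ∈ C, c j := by
  have : ∀ j, (ofZ c j : ℤ) = c j := congrFun (toZ_ofZ hc)
  simp only [← this]
  simp [mem_PC]
  norm_cast

end gen

def trees : List (Fin 6 → ℤ) :=
  [![1,1,1,0,0,0], ![1,1,0,1,0,0], ![1,1,0,0,1,0], ![1,1,0,0,0,1], ![1,0,1,1,0,0], ![0,1,1,1,0,0],
   ![0,0,1,1,1,0], ![0,0,1,1,0,1], ![1,0,0,0,1,1], ![0,1,0,0,1,1], ![0,0,1,0,1,1], ![0,0,0,1,1,1],
   ![1,0,1,0,1,0], ![1,0,0,1,0,1], ![0,1,1,0,0,1], ![0,1,0,1,1,0]]

def cuts : List (Finset (Fin 6)) :=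
  [{0,2,4}, {0,3,5}, {1,2,5}, {1,3,4}, {2,3,4,5}, {0,1,4,5}, {0,1,2,3}]

def cyc : List (Fin 6 → ℤ) := [![0,0,1,1,1,1], ![1,1,0,0,1,1], ![1,1,1,1,0,0]]

def BT : Set (Fin 6 → ℤ) := {b | b ∈ trees}
def BC : Set (Fin 6 → ℤ) := {b | b ∈ cyc}

theorem BT_mc : MC BT (3 : ℕ) := by
  have h1 : ∀ u ∈ trees, ∑ j, u j = 3 := by decide +kernel
  have h2 : ∀ u ∈ trees, ∀ v ∈ trees, ∀ p, v p < u p → ∃ q, u q < v q ∧ ex u q p ∈ trees := by
    decide +kernel
  exact ⟨h1, h2⟩

theorem BT_nn : ∀ b ∈ BT, ∀ j, 0 ≤ b j := by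
  have h1 : ∀ u ∈ trees, ∀ j, 0 ≤ u j := by decide +kernel
  exact h1

theorem BC_nn : ∀ b ∈ BC, ∀ j, 0 ≤ b j := by
  have h1 : ∀ u ∈ cyc, ∀ j, 0 ≤ u j := by decide +kernel
  exact h1

variable {K : Type*} [Field K]

theorem mem_I (g : MvPolynomial (Fin 6) K) : g ∈ mI K BT ↔ ∀ C ∈ cuts, g ∈ PC K C := by
  simp only [mem_mI BT_nn, mem_PC]
  constructor
  · intro h C hC m hm
    obtain ⟨b, hb, h1⟩ := h m hm
    have h2 : ∀ b ∈ trees, ∀ C ∈ cuts, 1 ≤ ∑ j ∈ C, b j := by decide +kernel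
    have := (h2 b hb C hC).trans (sum_le_sum fun j _ => h1 j)
    exact_mod_cast this
  · intro h m hm
    have h2 : ∀ A : Finset (Fin 6), (∀ C ∈ cuts, ∃ j ∈ C, j ∈ A) →
        ∃ b ∈ trees, ∀ j, b j ≤ if j ∈ A then 1 else 0 := by decide +kernel
    obtain ⟨b, hb, h3⟩ := h2 m.support fun C hC => by
      obtain ⟨j, h4, h5⟩ := exists_ne_zero_of_sum_ne_zero (Nat.one_le_iff_ne_zero.1 (h C hC m hm))
      exact ⟨j, h4, Finsupp.mem_support_iff.2 h5⟩
    refine ⟨b, hb, fun j => (h3 j).trans ?_⟩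
    split_ifs with h4
    · have := Finsupp.mem_support_iff.1 h4
      omega
    · omega

theorem ind_nn (A : Finset (Fin 6)) (j : Fin 6) : 0 ≤ ind A j := by
  unfold ind; split_ifs <;> omega

theorem PC_ass (C : Finset (Fin 6)) (hC : C ∈ cuts) :
    PC K C ∈ associatedPrimes (MvPolynomial (Fin 6) K) (MvPolynomial (Fin 6) K ⧸ mI K BT) := by
  rw [AssociatedPrimes.mem_iff, isAssociatedPrime_iff]
  refine ⟨PC_prime C, Ideal.Quotient.mk _ (monomial (ofZ (ind Cᶜ)) 1), ?_⟩
  ext r
  rw [mem_col, mem_I]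
  have h2 : ∀ C ∈ cuts, ∀ D ∈ cuts, (1 ≤ ∑ j ∈ D, ind Cᶜ j ↔ D ≠ C) := by decide +kernel
  constructor
  · intro h D hD
    by_cases e : D = C
    · exact Ideal.mul_mem_right _ _ (e ▸ h)
    · exact Ideal.mul_mem_left _ _ ((mon_PC D (ind_nn _)).2 ((h2 C hC D hD).2 e))
  · intro h
    refine ((PC_prime C).mem_or_mem (h C hC)).resolve_right fun h1 => ?_
    exact (h2 C hC C hC).1 ((mon_PC C (ind_nn _)).1 h1) rfl

theorem comp_eq : comp (symb (mI K BT) 2) 4 = mI K BC := by
  apply le_antisymm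
  · refine Ideal.span_le.2 ?_
    rintro f ⟨h1, h2⟩
    rw [SetLike.mem_coe, mem_mI BC_nn]
    intro m hm
    have h3 : ∀ C ∈ cuts, 2 ≤ ∑ j ∈ C, m j := by
      intro C hC
      simp only [symb, Ideal.mem_iInf] at h1
      have := h1 ⟨PC K C, PC_prime C⟩ (PC_ass C hC)
      rw [Ideal.mem_comap, IsLocalization.algebraMap_mem_map_algebraMap_iff
        (Ideal.primeCompl (PC K C) (hp := PC_prime C))] at this
      obtain ⟨s, hs, h4⟩ := this
      have h5 : mI K BT ^ 2 ≤ (Ideal.span {Polynomial.X ^ 2}).comap (ph K C) := by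
        rw [← Ideal.span_singleton_pow]
        exact (Ideal.pow_right_mono (fun g hg => (mem_I g).1 hg C hC) 2).trans (Ideal.le_comap_pow _ 2)
      have h6 := h5 h4
      rw [Ideal.mem_comap, Ideal.mem_span_singleton, map_mul] at h6
      exact (ph_dvd C 2 f).1 (Polynomial.prime_X.pow_dvd_of_dvd_mul_left 2
        (fun h => hs ((mem_PC' C s).2 h)) h6) m hm
    have h4 : ∑ j, m j = 4 := by
      have := h2 (mem_support_iff.1 hm)
      rw [← this, Finsupp.weight_apply, Finsupp.sum_fintype] <;> simp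
    simp only [cuts, List.mem_cons, List.not_mem_nil, or_false, forall_eq_or_imp, forall_eq] at h3
    simp only [Fin.sum_univ_six] at h4
    simp only [BC, cyc, Set.mem_ofPred_eq, List.mem_cons, List.not_mem_nil, or_false,
      exists_eq_or_imp, exists_eq_left, Fin.forall_fin_succ]
    simp at h3 ⊢
    omega
  · refine Ideal.span_le.2 ?_
    rintro _ ⟨m, hm, rfl⟩
    refine Ideal.subset_span ⟨?_, isHomogeneous_monomial _ ?_⟩
    · simp only [symb, Ideal.mem_iInf]
      intro P hP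
      rw [Ideal.mem_comap, IsLocalization.algebraMap_mem_map_algebraMap_iff P.asIdeal.primeCompl]
      rw [AssociatedPrimes.mem_iff, isAssociatedPrime_iff] at hP
      obtain ⟨hP, x, e⟩ := hP
      obtain ⟨g, rfl⟩ := Ideal.Quotient.mk_surjective x
      obtain ⟨C, hC, hg⟩ : ∃ C ∈ cuts, g ∉ PC K C := by
        by_contra h
        push Not at h
        exact hP.ne_top ((Ideal.eq_top_iff_one _).2 (by rw [e, mem_col, one_mul, mem_I]; exact h))
      refine ⟨monomial (ofZ (2 • ind Cᶜ)) 1, fun h => ?_, ?_⟩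
      · rw [SetLike.mem_coe, e, mem_col, mem_I] at h
        have := (mon_PC C (c := 2 • ind Cᶜ) (fun j => by simpa using ind_nn _ j)).1
          (((PC_prime C).mem_or_mem (h C hC)).resolve_right hg)
        rw [sum_eq_zero (fun j hj => by simp [ind, hj])] at this
        omega
      · have h2 : ∀ c ∈ cyc, ∀ C ∈ cuts, ∃ b ∈ trees, ∃ b' ∈ trees, ∀ j,
            b j + b' j ≤ 2 * ind Cᶜ j + c j := by decide +kernel
        obtain ⟨b, hb, b', hb', h3⟩ := h2 _ hm C hC
        rw [pow_two, mI_mul BT_nn BT_nn, monomial_mul, mem_mI (by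
          rintro _ ⟨a, ha, c, hc, rfl⟩ j
          exact add_nonneg (BT_nn a ha j) (BT_nn c hc j))]
        intro m' hm'
        obtain rfl : m' = _ := mem_singleton.1 (support_monomial_subset hm')
        refine ⟨_, ⟨b, hb, b', hb', rfl⟩, fun j => ?_⟩
        have := h3 j
        have := congrFun (toZ_ofZ (b := 2 • ind Cᶜ) (fun j => by simpa using ind_nn _ j)) j
        change ((ofZ (2 • ind Cᶜ) j : ℕ) : ℤ) = 2 * ind Cᶜ j at this
        simp only [toZ, Pi.add_apply, Finsupp.add_apply, Nat.cast_add] at *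
        linarith
    · have h2 : ∀ c ∈ cyc, ∑ j, c j = 4 := by decide +kernel
      have := h2 _ hm
      simp only [toZ] at this
      rw [Finsupp.degree_eq_sum]
      exact_mod_cast this

theorem tor_ne : TorNe (mI K BC) 1 (ofZ fun _ => 1) := by
  have ea : toZ (ofZ fun _ : Fin 6 => 1) = fun _ => 1 := toZ_ofZ fun _ => by norm_num
  let c : Finset (Fin 6) → K := fun t => if t = {0} then 1 else if t = {2} then -1 else 0
  have hc : Supp (Face BC (toZ (ofZ fun _ : Fin 6 => 1))) 1 c := by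
    intro t ht
    rw [ea]
    by_cases h1 : t = {0}
    · subst h1
      exact ⟨⟨![0,0,1,1,1,1], by simp [BC, cyc], by decide⟩, rfl⟩
    by_cases h2 : t = {2}
    · subst h2
      exact ⟨⟨![1,1,0,0,1,1], by simp [BC, cyc], by decide⟩, rfl⟩
    simp [c, h1, h2] at ht
  refine ⟨psi _ c, (chain_iff BC_nn _ _ _).2 ⟨c, hc, rfl⟩, ?_, ?_⟩
  · rw [kd_psi BC_nn hc, ← psi_zero (ofZ fun _ => 1)]
    congr 1
    ext s
    simp only [bd, Finset.sum_apply, io, Pi.zero_apply]
    by_cases hs : s = ∅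
    · subst hs
      simp [c, sg, Fin.sum_univ_six]
    · refine sum_eq_zero fun j _ => ?_
      split_ifs with h
      · rfl
      · have : c (insert j s) = 0 := by
          by_contra h1
          have := (hc _ h1).2
          rw [card_insert_of_notMem h] at this
          exact hs (card_eq_zero.1 (by omega))
        simp [this]
  · rintro ⟨w, b1, b2⟩
    obtain ⟨w, hw, rfl⟩ := (chain_iff BC_nn _ _ w).1 b1
    rw [kd_psi BC_nn hw] at b2
    have e := psi_inj _ b2
    have z : ∀ t : Finset (Fin 6), (0 ∈ t ∨ 1 ∈ t) → t ≠ {0, 1} → w t = 0 := by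
      intro t h1 h2
      by_contra h3
      obtain ⟨⟨b, hb, h4⟩, h5⟩ := hw t h3
      rw [ea] at h4
      have h6 : ∀ t : Finset (Fin 6), ∀ b ∈ cyc, (∀ j, b j + ind t j ≤ 1) → t.card = 2 →
        (0 ∈ t ∨ 1 ∈ t) → t = {0, 1} := by decide +kernel
      exact h2 (h6 t b hb h4 h5 h1)
    have e0 := congrFun e {0}
    have e1 := congrFun e {1}
    simp only [bd, Finset.sum_apply, io, Fin.sum_univ_six] at e0 e1
    rw [z (insert 2 {0}) (by decide) (by decide), z (insert 3 {0}) (by decide) (by decide),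
      z (insert 4 {0}) (by decide) (by decide), z (insert 5 {0}) (by decide) (by decide)] at e0
    rw [z (insert 2 {1}) (by decide) (by decide), z (insert 3 {1}) (by decide) (by decide),
      z (insert 4 {1}) (by decide) (by decide), z (insert 5 {1}) (by decide) (by decide)] at e1
    have s1 : sg K ({0} : Finset (Fin 6)) 1 = -1 := by
      rw [sg, show (filter (· < (1 : Fin 6)) {0}).card = 1 by decide, pow_one]
    have s2 : sg K ({1} : Finset (Fin 6)) 0 = 1 := by
      rw [sg, show (filter (· < (0 : Fin 6)) {1}).card = 0 by decide, pow_zero]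
    rw [s1, pair_comm] at e0
    rw [s2] at e1
    simp [c] at e0 e1
    rw [pair_comm, e1] at e0
    simp at e0

theorem main : ∃ I : Ideal (MvPolynomial (Fin 6) K), IsPolymatroidal I ∧ I ≠ ⊥ ∧
    ¬ CompLinear (symb I 2) := by
  refine ⟨mI K BT, poly_of BT_mc, fun h => ?_, fun h => ?_⟩
  · have : monomial (ofZ fun _ => 1) (1 : K) ∈ mI K BT :=
      (mon_mem BT_nn fun _ => by norm_num).2 ⟨![1,1,1,0,0,0], by simp [BT, trees], by decide⟩
    rw [h] at this
    simp at this
  · have := h 4 1 _ (comp_eq (K := K) ▸ tor_ne)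
    simp [ofZ] at this

end Pool.Agent.H56.HS
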