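import Mathlib

set_option autoImplicit false

namespace Pool.Agent.H56.Trunc
open Set Filter Topology

variable {n : ℕ}

noncomputable def dv (y : Fin n → ℝ) : Fin n → ℝ := fun j => y j - (∑ i, y i) / n

noncomputable def R (p q : (Fin n → ℝ) → ℝ) (y : Fin n → ℝ) : Fin n → ℝ :=
  fun j => (∑ i, y i) / n + p y / q y * dv y j

lemma sum_dv (hn : 0 < n) (y : Fin n → ℝ) : ∑ j, dv y j = 0 := by
  have : (n : ℝ) ≠ 0 := by positivity
  simp [dv, Finset.sum_sub_distrib]; field_simp; ring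

lemma sum_R (hn : 0 < n) (p q : (Fin n → ℝ) → ℝ) (y : Fin n → ℝ) : ∑ j, R p q y j = ∑ i, y i := by
  have : (n : ℝ) ≠ 0 := by positivity
  simp [R, Finset.sum_add_distrib, ← Finset.mul_sum, sum_dv hn]; field_simp

lemma dv_R (hn : 0 < n) (p q : (Fin n → ℝ) → ℝ) (y : Fin n → ℝ) :
    dv (R p q y) = (p y / q y) • dv y := by
  funext j
  rw [dv, sum_R hn]; simp [R]

/-- gauge functions -/
structure Gauge (p : (Fin n → ℝ) → ℝ) : Prop where
  nonneg : ∀ y, 0 ≤ p y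
  cont : Continuous p
  zero : ∀ y, p y = 0 → dv y = 0
  hom : ∀ y z (s : ℝ), 0 ≤ s → ∑ i, z i = ∑ i, y i → dv z = s • dv y → p z = s * p y

lemma g_R (hn : 0 < n) {p q r : (Fin n → ℝ) → ℝ} (hp : Gauge p) (hq : Gauge q) (hr : Gauge r)
    (y : Fin n → ℝ) : r (R p q y) = p y / q y * r y :=
  hr.hom _ _ _ (div_nonneg (hp.nonneg y) (hq.nonneg y)) (sum_R hn p q y) (dv_R hn p q y)

lemma g_zero {p : (Fin n → ℝ) → ℝ} (hp : Gauge p) {y : Fin n → ℝ} (h : dv y = 0) : p y = 0 := by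
  simpa using hp.hom y y 0 le_rfl rfl (by simp [h])

lemma q_R (hn : 0 < n) {p q : (Fin n → ℝ) → ℝ} (hp : Gauge p) (hq : Gauge q)
    (y : Fin n → ℝ) : q (R p q y) = p y := by
  rw [g_R hn hp hq hq]
  by_cases h : q y = 0
  · simp [h, g_zero hp (hq.zero y h)]
  · field_simp

lemma R_R (hn : 0 < n) {p q : (Fin n → ℝ) → ℝ} (hp : Gauge p) (hq : Gauge q)
    (y : Fin n → ℝ) : R q p (R p q y) = y := by
  funext j
  rw [R, sum_R hn, dv_R hn, q_R hn hp hq, g_R hn hp hq hp]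
  by_cases h : dv y = 0
  · have := congrFun h j
    simp only [dv, Pi.zero_apply] at this
    simp [h]; linarith
  · have h1 : p y ≠ 0 := fun h' => h (hp.zero y h')
    have h2 : q y ≠ 0 := fun h' => h (hq.zero y h')
    simp only [Pi.smul_apply, smul_eq_mul, dv]
    field_simp; ring

lemma R_cont {p q : (Fin n → ℝ) → ℝ} (hp : Gauge p) (hq : Gauge q) (C : ℝ) (hC : 0 ≤ C)
    (h : ∀ y, p y ≤ C * q y) : Continuous (R p q) := by
  have hd : ∀ j, Continuous fun y : Fin n → ℝ => dv y j := fun j => by unfold dv; fun_prop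
  refine continuous_pi fun j => Continuous.add (by fun_prop) ?_
  rw [continuous_iff_continuousAt]
  intro y
  by_cases h0 : q y = 0
  · have h1 : dv y j = 0 := congrFun (hq.zero y h0) j
    rw [ContinuousAt, h1, mul_zero]
    refine squeeze_zero_norm (a := fun y => C * ‖dv y j‖) (fun y => ?_) ?_
    · rw [norm_mul]
      gcongr
      rw [Real.norm_eq_abs, abs_of_nonneg (div_nonneg (hp.nonneg y) (hq.nonneg y))]
      exact div_le_of_le_mul₀ (hq.nonneg y) hC (h y)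
    · simpa [h1] using ((hd j).norm.const_mul C).tendsto y
  · exact (hp.cont.continuousAt.div hq.cont.continuousAt h0).mul (hd j).continuousAt

noncomputable def lo (y : Fin n → ℝ) : ℝ := ‖fun j => max (-dv y j) 0‖
noncomputable def hi (y : Fin n → ℝ) : ℝ := ‖fun j => max (dv y j) 0‖
noncomputable def cl (s : ℝ) : ℝ := min (max s 0) 1
noncomputable def up (t : ℝ) (y : Fin n → ℝ) : ℝ :=
  max (lo y) (cl (∑ i, y i) / (n * t - cl (∑ i, y i)) * hi y)

lemma abs_mx (a : ℝ) : |max a 0| = max a 0 := abs_of_nonneg (le_max_right a 0)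

lemma lo_le {y : Fin n → ℝ} {r : ℝ} (hr : 0 ≤ r) : lo y ≤ r ↔ ∀ j, -dv y j ≤ r := by
  simp [lo, pi_norm_le_iff_of_nonneg hr, abs_mx, hr]

lemma hi_le {y : Fin n → ℝ} {r : ℝ} (hr : 0 ≤ r) : hi y ≤ r ↔ ∀ j, dv y j ≤ r := by
  simp [hi, pi_norm_le_iff_of_nonneg hr, abs_mx, hr]

lemma hi_le_lo (hn : 0 < n) (y : Fin n → ℝ) : hi y ≤ n * lo y := by
  have h0 : 0 ≤ lo y := norm_nonneg _
  have h1 := (lo_le h0).1 le_rfl
  refine (hi_le (by positivity)).2 fun j => ?_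
  have h2 := Finset.single_le_sum (f := fun i => dv y i + lo y) (s := Finset.univ)
    (fun i _ => by linarith [h1 i]) (Finset.mem_univ j)
  simp [Finset.sum_add_distrib, sum_dv hn] at h2
  linarith

lemma hom_aux (f g : Fin n → ℝ) (s : ℝ) (hs : 0 ≤ s) (h : ∀ j, f j = s * g j) :
    ‖fun j => max (f j) 0‖ = s * ‖fun j => max (g j) 0‖ := by
  have : (fun j => max (f j) 0) = s • fun j => max (g j) 0 := by
    funext j; simp [h, mul_max_of_nonneg _ _ hs]
  rw [this, norm_smul, Real.norm_eq_abs, abs_of_nonneg hs]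

lemma lo_gauge (hn : 0 < n) : Gauge (lo (n := n)) where
  nonneg := fun _ => norm_nonneg _
  cont := by unfold lo dv; fun_prop
  zero := fun y h => by
    have h1 := (lo_le le_rfl).1 h.le
    have h2 := (hi_le le_rfl).1 (by simpa [h] using hi_le_lo hn y)
    funext j; simp only [Pi.zero_apply]; linarith [h1 j, h2 j]
  hom := fun y z s hs _ h => hom_aux _ _ s hs fun j => by simp [h]

lemma cl_nonneg (s : ℝ) : 0 ≤ cl s := le_min (le_max_right _ _) zero_le_one
lemma cl_le (s : ℝ) : cl s ≤ 1 := min_le_right _ _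

lemma up_gauge (hn : 0 < n) {t : ℝ} (ht : 1 < n * t) : Gauge (up (n := n) t) where
  nonneg := fun _ => le_max_of_le_left (norm_nonneg _)
  cont := by
    have h1 : Continuous fun y : Fin n → ℝ => cl (∑ i, y i) := by unfold cl; fun_prop
    have h2 : Continuous (hi (n := n)) := by unfold hi dv; fun_prop
    exact (lo_gauge hn).cont.max ((h1.div (continuous_const.sub h1) fun y =>
      sub_ne_zero.2 (by linarith [cl_le (∑ i, y i)] : cl (∑ i, y i) < n * t).ne').mul h2)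
  zero := fun y h => (lo_gauge hn).zero y (le_antisymm (h ▸ le_max_left _ _) (norm_nonneg _))
  hom := fun y z s hs h1 h => by
    have h2 : hi z = s * hi y := hom_aux _ _ s hs fun j => by simp [h]
    rw [up, up, (lo_gauge hn).hom y z s hs h1 h, h1, h2, mul_max_of_nonneg _ _ hs]
    congr 1; ring

lemma up_le (hn : 0 < n) {t : ℝ} (ht : 1 < n * t) (y : Fin n → ℝ) :
    up t y ≤ (1 + n / (n * t - 1)) * lo y := by
  have h0 : 0 ≤ lo y := norm_nonneg _
  have h1 : 0 < n * t - 1 := by linarith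
  have h2 : 0 ≤ n / (n * t - 1) * lo y := by positivity
  refine max_le (by linarith) ?_
  have h3 := cl_nonneg (∑ i, y i)
  have h4 := cl_le (∑ i, y i)
  have h5 : cl (∑ i, y i) / (n * t - cl (∑ i, y i)) ≤ 1 / (n * t - 1) := by gcongr
  have h6 := mul_le_mul h5 (hi_le_lo hn y) (norm_nonneg _) (by positivity)
  calc _ ≤ _ := h6
    _ = n / (n * t - 1) * lo y := by ring
    _ ≤ _ := by linarith

lemma mem_lo {y : Fin n → ℝ} (h : 0 ≤ ∑ i, y i) :
    lo y ≤ (∑ i, y i) / n ↔ ∀ j, 0 ≤ y j := by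
  rw [lo_le (by positivity)]
  simp [dv]

lemma mem_up (hn : 0 < n) {t : ℝ} (ht : 1 < n * t) {y : Fin n → ℝ} (h : 0 ≤ ∑ i, y i)
    (h' : ∑ i, y i ≤ 1) : up t y ≤ (∑ i, y i) / n ↔ ∀ j, 0 ≤ y j ∧ y j ≤ t := by
  have hn' : (0 : ℝ) < n := by positivity
  have hc : cl (∑ i, y i) = ∑ i, y i := by rw [cl, max_eq_left h, min_eq_left h']
  have h1 : 0 < n * t - ∑ i, y i := by linarith
  have h2 : 0 ≤ t - (∑ i, y i) / n := by rw [sub_nonneg, div_le_iff₀ hn']; linarith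
  have h3 : hi y ≤ t - (∑ i, y i) / n ↔ ∀ j, y j ≤ t := by rw [hi_le h2]; simp [dv]
  rw [up, max_le_iff, mem_lo h, hc, forall_and, ← h3]
  refine and_congr_right fun h0 => ?_
  rcases h.eq_or_lt with h4 | h4
  · have h5 : ∀ j, y j = 0 := fun j =>
      (Finset.sum_eq_zero_iff_of_nonneg fun i _ => h0 i).1 h4.symm j (Finset.mem_univ j)
    rw [h3]
    have : 0 ≤ t := by nlinarith
    simp [h5, this]
  · rw [div_mul_eq_mul_div, div_le_div_iff₀ h1 hn', le_sub_iff_add_le, ← le_sub_iff_add_le',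
      div_le_iff₀ hn']
    constructor <;> intro h5 <;> nlinarith

theorem block {t : ℝ} (hn : 0 < n) (ht : 1 < n * t) : ∃ F G : (Fin n → ℝ) → Fin n → ℝ,
    Continuous F ∧ Continuous G ∧ (∀ y, G (F y) = y) ∧ (∀ y, F (G y) = y) ∧
    (∀ y, ∑ i, F y i = ∑ i, y i) ∧ (∀ y, ∑ i, G y i = ∑ i, y i) ∧
    (∀ y, (∀ j, 0 ≤ y j) → ∑ i, y i ≤ 1 → ∀ j, 0 ≤ F y j ∧ F y j ≤ t) ∧
    (∀ y, (∀ j, 0 ≤ y j ∧ y j ≤ t) → ∑ i, y i ≤ 1 → ∀ j, 0 ≤ G y j) := by
  have hl := lo_gauge hn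
  have hu := up_gauge hn ht
  have h1 : 0 < n * t - 1 := by linarith
  refine ⟨R lo (up t), R (up t) lo, R_cont hl hu 1 zero_le_one fun y => by simp [up],
    R_cont hu hl _ (by positivity) (up_le hn ht), R_R hn hl hu, R_R hn hu hl, sum_R hn _ _,
    sum_R hn _ _, fun y h2 h3 => ?_, fun y h2 h3 => ?_⟩
  · have h4 : 0 ≤ ∑ i, y i := Finset.sum_nonneg fun i _ => h2 i
    rw [← mem_up hn ht (by rwa [sum_R hn]) (by rwa [sum_R hn]), q_R hn hl hu, sum_R hn]
    exact (mem_lo h4).2 h2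
  · have h4 : 0 ≤ ∑ i, y i := Finset.sum_nonneg fun i _ => (h2 i).1
    rw [← mem_lo (by rwa [sum_R hn]), q_R hn hu hl, sum_R hn]
    exact (mem_up hn ht h4 h3).2 h2

end Pool.Agent.H56.Trunc
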