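import Mathlib

namespace Pool.Agent.H56.Wk1

open Set Filter Topology

variable {E : Type} [NormedAddCommGroup E] [NormedSpace ℝ E]

def Top (I : Set ℝ) : ℕ → ℝ → (ℝ → E) → Prop
  | 0, B, g => ∀ s ∈ I, ∀ t ∈ I, ‖g s - g t‖ ≤ B * |s - t|
  | k + 1, B, g => ∃ g' : ℝ → E, (∀ t ∈ I, HasDerivWithinAt g (g' t) I t) ∧ Top I k B g'

def Cls (I : Set ℝ) : ℕ → ℝ → (ℝ → E) → Prop
  | 0, M, g => (∀ t ∈ I, ‖g t‖ ≤ M) ∧ ∀ s ∈ I, ∀ t ∈ I, ‖g s - g t‖ ≤ M * |s - t|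
  | k + 1, M, g => (∀ t ∈ I, ‖g t‖ ≤ M) ∧
      ∃ g' : ℝ → E, (∀ t ∈ I, HasDerivWithinAt g (g' t) I t) ∧ Cls I k M g'

theorem lip_cont {I : Set ℝ} {g : ℝ → E} {B : ℝ}
    (h : ∀ s ∈ I, ∀ t ∈ I, ‖g s - g t‖ ≤ B * |s - t|) : ContinuousOn g I := by
  have : LipschitzOnWith (Real.toNNReal B) g I := by
    refine LipschitzOnWith.of_dist_le_mul fun s hs t ht => ?_
    rw [dist_eq_norm, Real.dist_eq]
    exact (h s hs t ht).trans (mul_le_mul_of_nonneg_right (Real.le_coe_toNNReal B) (abs_nonneg _))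
  exact this.continuousOn

theorem Top.cont {I : Set ℝ} {k : ℕ} {B : ℝ} {g : ℝ → E} (h : Top I k B g) : ContinuousOn g I := by
  cases k with
  | zero => exact lip_cont h
  | succ k =>
    obtain ⟨g', h1, -⟩ := h
    exact fun t ht => (h1 t ht).continuousWithinAt

theorem Top.subset {I J : Set ℝ} (hJ : J ⊆ I) : ∀ {k : ℕ} {B : ℝ} {g : ℝ → E},
    Top I k B g → Top J k B g
  | 0, _, _, h => fun s hs t ht => h s (hJ hs) t (hJ ht)
  | _ + 1, _, _, ⟨g', h1, h2⟩ => ⟨g', fun t ht => (h1 t (hJ ht)).mono hJ, Top.subset hJ h2⟩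

theorem Top.mono {I : Set ℝ} {B B' : ℝ} (hB : B ≤ B') : ∀ {k : ℕ} {g : ℝ → E},
    Top I k B g → Top I k B' g
  | 0, _, h => fun s hs t ht => (h s hs t ht).trans (mul_le_mul_of_nonneg_right hB (abs_nonneg _))
  | _ + 1, _, ⟨g', h1, h2⟩ => ⟨g', h1, Top.mono hB h2⟩

theorem Top.clm {F : Type} [NormedAddCommGroup F] [NormedSpace ℝ F] (L : E →L[ℝ] F) {I : Set ℝ}
    {B : ℝ} : ∀ {k : ℕ} {g : ℝ → E}, Top I k B g → Top I k (‖L‖ * B) (fun t => L (g t))
  | 0, g, h => fun s hs t ht => by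
      rw [← map_sub, mul_assoc]
      exact (L.le_opNorm _).trans (mul_le_mul_of_nonneg_left (h s hs t ht) (norm_nonneg _))
  | _ + 1, _, ⟨g', h1, h2⟩ =>
      ⟨fun t => L (g' t), fun t ht => L.hasFDerivAt.comp_hasDerivWithinAt t (h1 t ht), Top.clm L h2⟩

theorem Cls.bd {I : Set ℝ} {k : ℕ} {M : ℝ} {g : ℝ → E} (h : Cls I k M g) : ∀ t ∈ I, ‖g t‖ ≤ M := by
  cases k with
  | zero => exact h.1
  | succ k => exact h.1

theorem Cls.top {I : Set ℝ} {M : ℝ} : ∀ {k : ℕ} {g : ℝ → E}, Cls I k M g → Top I k M g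
  | 0, _, h => h.2
  | _ + 1, _, ⟨_, g', h1, h2⟩ => ⟨g', h1, Cls.top h2⟩

theorem Cls.subset {I J : Set ℝ} (hJ : J ⊆ I) : ∀ {k : ℕ} {B : ℝ} {g : ℝ → E},
    Cls I k B g → Cls J k B g
  | 0, _, _, h => ⟨fun t ht => h.1 t (hJ ht), fun s hs t ht => h.2 s (hJ hs) t (hJ ht)⟩
  | _ + 1, _, _, ⟨h0, g', h1, h2⟩ =>
      ⟨fun t ht => h0 t (hJ ht), g', fun t ht => (h1 t (hJ ht)).mono hJ, Cls.subset hJ h2⟩

theorem Cls.mono {I : Set ℝ} {B B' : ℝ} (hB : B ≤ B') : ∀ {k : ℕ} {g : ℝ → E},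
    Cls I k B g → Cls I k B' g
  | 0, _, h => ⟨fun t ht => (h.1 t ht).trans hB,
      fun s hs t ht => (h.2 s hs t ht).trans (mul_le_mul_of_nonneg_right hB (abs_nonneg _))⟩
  | _ + 1, _, ⟨h0, g', h1, h2⟩ => ⟨fun t ht => (h0 t ht).trans hB, g', h1, Cls.mono hB h2⟩

theorem Cls.congr {I : Set ℝ} {B : ℝ} {k : ℕ} {g f : ℝ → E} (h : Cls I k B g)
    (e : ∀ t ∈ I, f t = g t) : Cls I k B f := by
  cases k with
  | zero =>
    exact ⟨fun t ht => by rw [e t ht]; exact h.1 t ht,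
      fun s hs t ht => by rw [e t ht, e s hs]; exact h.2 s hs t ht⟩
  | succ k =>
    obtain ⟨h0, g', h1, h2⟩ := h
    exact ⟨fun t ht => by rw [e t ht]; exact h0 t ht, g',
      fun t ht => (h1 t ht).congr e (e t ht), h2⟩

theorem mvt {a b : ℝ} {g g' : ℝ → E} {N : ℝ}
    (h1 : ∀ t ∈ Icc a b, HasDerivWithinAt g (g' t) (Icc a b) t) (h2 : ∀ t ∈ Icc a b, ‖g' t‖ ≤ N) :
    ∀ s ∈ Icc a b, ∀ t ∈ Icc a b, ‖g s - g t‖ ≤ N * |s - t| := fun s hs t ht => by
  have := (convex_Icc a b).norm_image_sub_le_of_norm_hasDerivWithin_le h1 h2 ht hs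
  rwa [Real.norm_eq_abs] at this

theorem Cls.pred {a b M : ℝ} : ∀ {k : ℕ} {g : ℝ → E},
    Cls (Icc a b) (k + 1) M g → Cls (Icc a b) k M g
  | 0, _, ⟨h0, _, h1, h2⟩ => ⟨h0, mvt h1 h2.bd⟩
  | _ + 1, _, ⟨h0, g', h1, h2⟩ => ⟨h0, g', h1, Cls.pred h2⟩

theorem Cls.le {a b M : ℝ} {k j : ℕ} {g : ℝ → E} (hj : j ≤ k) (h : Cls (Icc a b) k M g) :
    Cls (Icc a b) j M g := by
  induction hj with
  | refl => exact h
  | step _ ih => exact ih h.pred

theorem Cls.lip {a b M : ℝ} {k : ℕ} {g : ℝ → E} (h : Cls (Icc a b) k M g) :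
    ∀ s ∈ Icc a b, ∀ t ∈ Icc a b, ‖g s - g t‖ ≤ M * |s - t| := (h.le (Nat.zero_le k)).2

theorem cls_const (I : Set ℝ) : ∀ (k : ℕ) (x : E), Cls I k ‖x‖ (fun _ => x)
  | 0, x => ⟨fun _ _ => le_rfl, fun s _ t _ => by simp; positivity⟩
  | k + 1, x => ⟨fun _ _ => le_rfl, fun _ => 0, fun t _ => hasDerivWithinAt_const _ _ _,
      (cls_const I k 0).mono (by simp)⟩

theorem Cls.add {I : Set ℝ} {M N : ℝ} : ∀ {k : ℕ} {f g : ℝ → E},
    Cls I k M f → Cls I k N g → Cls I k (M + N) (fun t => f t + g t)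
  | 0, f, g, h, h' => ⟨fun t ht => (norm_add_le _ _).trans (add_le_add (h.1 t ht) (h'.1 t ht)),
      fun s hs t ht => by
        have e : f s + g s - (f t + g t) = (f s - f t) + (g s - g t) := by abel
        rw [e, add_mul]
        exact (norm_add_le _ _).trans (add_le_add (h.2 s hs t ht) (h'.2 s hs t ht))⟩
  | _ + 1, _, _, ⟨h0, f', h1, h2⟩, ⟨k0, g', k1, k2⟩ =>
      ⟨fun t ht => (norm_add_le _ _).trans (add_le_add (h0 t ht) (k0 t ht)),
        fun t => f' t + g' t, fun t ht => (h1 t ht).add (k1 t ht), Cls.add h2 k2⟩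

theorem cls_sum {I : Set ℝ} {k : ℕ} {M : ℕ → ℝ} {f : ℕ → ℝ → E} (n : ℕ)
    (h : ∀ i < n, Cls I k (M i) (f i)) :
    Cls I k (∑ i ∈ Finset.range n, M i) (fun t => ∑ i ∈ Finset.range n, f i t) := by
  induction n with
  | zero => simpa using cls_const I k (0 : E)
  | succ n ih =>
    simp only [Finset.sum_range_succ]
    exact (ih fun i hi => h i (by omega)).add (h n (by omega))

theorem Cls.mul {a b M N : ℝ} (hM : 0 ≤ M) (hN : 0 ≤ N) : ∀ {k : ℕ} {f g : ℝ → ℂ},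
    Cls (Icc a b) k M f → Cls (Icc a b) k N g →
      Cls (Icc a b) k (2 ^ (k + 1) * M * N) (fun t => f t * g t)
  | 0, f, g, h, h' => ⟨fun t ht => by
        rw [norm_mul]
        have := mul_le_mul (h.1 t ht) (h'.1 t ht) (norm_nonneg _) hM
        rw [zero_add, pow_one]
        nlinarith [mul_nonneg hM hN],
      fun s hs t ht => by
        have e : f s * g s - (f t * g t) = (f s - f t) * g s + f t * (g s - g t) := by ring
        rw [e]
        refine (norm_add_le _ _).trans ?_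
        rw [norm_mul, norm_mul]
        have h1 := mul_le_mul (h.2 s hs t ht) (h'.1 s hs) (norm_nonneg _) (by positivity)
        have h2 := mul_le_mul (h.1 t ht) (h'.2 s hs t ht) (norm_nonneg _) hM
        rw [zero_add, pow_one]
        nlinarith⟩
  | k + 1, f, g, ⟨h0, f', h1, h2⟩, ⟨k0, g', k1, k2⟩ => by
      refine ⟨fun t ht => ?_, fun t => f' t * g t + f t * g' t,
        fun t ht => (h1 t ht).mul (k1 t ht), ?_⟩
      · rw [norm_mul]
        have := mul_le_mul (h0 t ht) (k0 t ht) (norm_nonneg _) hM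
        have h3 : (1 : ℝ) ≤ 2 ^ (k + 1 + 1) := one_le_pow₀ (by norm_num)
        nlinarith [mul_nonneg hM hN]
      · have p1 := Cls.mul hM hN h2 (Cls.pred ⟨k0, g', k1, k2⟩)
        have p2 := Cls.mul hM hN (Cls.pred ⟨h0, f', h1, h2⟩) k2
        exact (p1.add p2).mono (le_of_eq (by ring))

theorem Cls.pow {a b M : ℝ} (hM : 0 ≤ M) {k : ℕ} {f : ℝ → ℂ} (h : Cls (Icc a b) k M f) (i : ℕ) :
    Cls (Icc a b) k ((2 ^ (k + 1) * M) ^ i) (fun t => f t ^ i) := by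
  induction i with
  | zero => simpa using cls_const (Icc a b) k (1 : ℂ)
  | succ i ih =>
    simp only [pow_succ _ i]
    exact (ih.mul (by positivity) hM h).mono (le_of_eq (by ring))

theorem cls_inv (k : ℕ) {M c : ℝ} (hM : 0 ≤ M) (hc : 0 < c) : ∃ M', 0 ≤ M' ∧ ∀ (a b : ℝ) (g : ℝ → ℂ),
    Cls (Icc a b) k M g → (∀ t ∈ Icc a b, c ≤ ‖g t‖) → Cls (Icc a b) k M' (fun t => (g t)⁻¹) := by
  have hb : ∀ z : ℂ, c ≤ ‖z‖ → ‖z⁻¹‖ ≤ c⁻¹ := fun z hz => by
    rw [norm_inv]; exact inv_anti₀ hc hz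
  induction k with
  | zero =>
    refine ⟨c⁻¹ + c⁻¹ * c⁻¹ * M, by positivity, fun a b g h hg => ⟨fun t ht => ?_, fun s hs t ht => ?_⟩⟩
    · have := hb _ (hg t ht)
      have : 0 ≤ c⁻¹ * c⁻¹ * M := by positivity
      linarith
    · have hs0 : g s ≠ 0 := fun e => by have := hg s hs; rw [e, norm_zero] at this; linarith
      have ht0 : g t ≠ 0 := fun e => by have := hg t ht; rw [e, norm_zero] at this; linarith
      have e : (g s)⁻¹ - (g t)⁻¹ = -((g s)⁻¹ * (g t)⁻¹ * (g s - g t)) := by field_simp; ring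
      rw [e, norm_neg, norm_mul, norm_mul]
      have h1 := mul_le_mul (mul_le_mul (hb _ (hg s hs)) (hb _ (hg t ht)) (norm_nonneg _)
        (by positivity)) (h.2 s hs t ht) (norm_nonneg _) (by positivity)
      have : 0 ≤ c⁻¹ * |s - t| := by positivity
      nlinarith
  | succ k ih =>
    obtain ⟨M1, hM1, ih⟩ := ih
    refine ⟨c⁻¹ + 2 ^ (k + 1) * (2 ^ (k + 1) * ‖(-1 : ℂ)‖ * M) * (2 ^ (k + 1) * M1) ^ 2,
      by positivity, fun a b g h hg => ?_⟩
    have h3 := ih a b g h.pred hg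
    obtain ⟨h0, g', h1, h2⟩ := h
    refine ⟨fun t ht => ?_, fun t => (-1 * g' t) * (g t)⁻¹ ^ 2, fun t ht => ?_, ?_⟩
    · have := hb _ (hg t ht)
      have : 0 ≤ 2 ^ (k + 1) * (2 ^ (k + 1) * ‖(-1 : ℂ)‖ * M) * (2 ^ (k + 1) * M1) ^ 2 := by
        positivity
      linarith
    · have ht0 : g t ≠ 0 := fun e => by have := hg t ht; rw [e, norm_zero] at this; linarith
      have := (h1 t ht).inv ht0
      refine this.congr_deriv ?_
      field_simp
    · refine (((cls_const _ k (-1 : ℂ)).mul (by positivity) hM h2).mul (by positivity)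
        (by positivity) (h3.pow hM1 2)).mono ?_
      have : 0 ≤ c⁻¹ := by positivity
      linarith

def LK (E : Type) [NormedAddCommGroup E] [NormedSpace ℝ E] (k : ℕ) (C : ℝ) : Prop :=
  ∀ (a b A B : ℝ) (g : ℝ → E), a < b → 0 ≤ B → (∀ t ∈ Icc a b, ‖g t‖ ≤ A) → Top (Icc a b) k B g →
    ∀ s ∈ Icc a b, ∀ t ∈ Icc a b, ‖g s - g t‖ ≤ C * (A / (b - a) + B * (b - a) ^ k) * |s - t|

def LKd (E : Type) [NormedAddCommGroup E] [NormedSpace ℝ E] (k : ℕ) (C : ℝ) : Prop :=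
  ∀ (a b A B : ℝ) (g g' : ℝ → E), a < b → 0 ≤ B → (∀ t ∈ Icc a b, ‖g t‖ ≤ A) →
    (∀ t ∈ Icc a b, HasDerivWithinAt g (g' t) (Icc a b) t) → Top (Icc a b) k B g' →
    ∀ t ∈ Icc a b, ‖g' t‖ ≤ C * (A / (b - a) + B * (b - a) ^ (k + 1))

theorem lkd_of_lk {k : ℕ} {C : ℝ} (hC : 1 ≤ C) (h : LK E k C) : LKd E k (8 * C) := by
  intro a b A B g g' hab hB hA hd hT
  obtain ⟨x, hx, hmax⟩ := (isCompact_Icc (a := a) (b := b)).exists_isMaxOn
    (nonempty_Icc.2 hab.le) hT.cont.norm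
  set N := ‖g' x‖ with hN
  have hN' : ∀ t ∈ Icc a b, ‖g' t‖ ≤ N := fun t ht => hmax ht
  have hL : 0 < b - a := by linarith
  set L := b - a with hLdef
  set Λ := C * (N / L + B * L ^ k) with hΛ
  have hlip := h a b N B g' hab hB hN' hT
  set δ := L / (2 * C) with hδ
  have hδ0 : 0 < δ := by positivity
  have hδL : δ ≤ L / 2 := by
    rw [hδ]; apply div_le_div_of_nonneg_left hL.le (by norm_num); linarith
  have hA0 : 0 ≤ A := (norm_nonneg _).trans (hA x hx)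
  have hN0 : 0 ≤ N := norm_nonneg _
  have hΛ0 : 0 ≤ Λ := by positivity
  obtain ⟨y, hy, hxy⟩ : ∃ y ∈ Icc a b, |y - x| = δ := by
    by_cases hc : x + δ ≤ b
    · exact ⟨x + δ, ⟨by linarith [hx.1], hc⟩, by simp [abs_of_pos hδ0]⟩
    · exact ⟨x - δ, ⟨by linarith, by linarith [hx.2]⟩, by simp [abs_of_pos hδ0]⟩
  have hsub : uIcc x y ⊆ Icc a b := uIcc_subset_Icc hx hy
  have key : ‖(g y - (y - x) • g' x) - (g x - (x - x) • g' x)‖ ≤ Λ * δ * ‖y - x‖ := by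
    refine (convex_uIcc x y).norm_image_sub_le_of_norm_hasDerivWithin_le
      (f := fun s => g s - (s - x) • g' x) (f' := fun s => g' s - g' x)
      (fun s hs => ?_) (fun s hs => ?_) left_mem_uIcc right_mem_uIcc
    · have := ((hd s (hsub hs)).mono hsub).fun_sub
        ((((hasDerivAt_id s).sub_const x).smul_const (g' x)).hasDerivWithinAt (s := uIcc x y))
      simpa using this
    · refine (hlip s (hsub hs) x hx).trans (mul_le_mul_of_nonneg_left ?_ hΛ0)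
      rw [← hxy]
      exact abs_sub_left_of_mem_uIcc hs
  rw [Real.norm_eq_abs, hxy] at key
  have h2 : δ * N ≤ 2 * A + Λ * δ * δ := by
    have e : (y - x) • g' x = g y - g x - ((g y - (y - x) • g' x) - (g x - (x - x) • g' x)) := by
      simp
    have e2 : ‖(y - x) • g' x‖ = δ * N := by rw [norm_smul, Real.norm_eq_abs, hxy]
    rw [← e2, e]
    refine (norm_sub_le _ _).trans (add_le_add ((norm_sub_le _ _).trans ?_) key)
    linarith [hA y hy, hA x hx]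
  have h3 : Λ * δ = N / 2 + B * L ^ (k + 1) / 2 := by
    rw [hΛ, hδ]; field_simp; ring
  have h4 : N ≤ 2 * A / δ + Λ * δ := by
    rw [div_add' _ _ _ hδ0.ne', le_div_iff₀ hδ0]; linarith
  have h5 : 2 * A / δ = 4 * C * (A / L) := by rw [hδ]; field_simp; ring
  intro t ht
  refine (hN' t ht).trans ?_
  have : 0 ≤ B * L ^ (k + 1) := by positivity
  nlinarith

theorem lk (k : ℕ) : ∃ C, 1 ≤ C ∧ LK E k C := by
  induction k with
  | zero =>
    refine ⟨1, le_rfl, fun a b A B g hab hB hA hT s hs t ht => (hT s hs t ht).trans ?_⟩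
    have hA0 : 0 ≤ A := (norm_nonneg _).trans (hA s hs)
    have : 0 ≤ A / (b - a) := div_nonneg hA0 (by linarith)
    refine mul_le_mul_of_nonneg_right ?_ (abs_nonneg _)
    simp only [pow_zero]; linarith
  | succ k ih =>
    obtain ⟨C, hC, h⟩ := ih
    refine ⟨8 * C, by linarith, fun a b A B g hab hB hA ⟨g', h1, h2⟩ => ?_⟩
    exact mvt h1 (lkd_of_lk hC h a b A B g g' hab hB hA h1 h2)

theorem lkd (k : ℕ) : ∃ C, 1 ≤ C ∧ LKd E k C := by
  obtain ⟨C, hC, h⟩ := lk (E := E) k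
  exact ⟨8 * C, by linarith, lkd_of_lk hC h⟩

theorem cls_of_top (k : ℕ) {M : ℝ} (hM : 0 ≤ M) : ∃ M', M ≤ M' ∧ ∀ g : ℝ → E,
    (∀ t ∈ Icc (0 : ℝ) 1, ‖g t‖ ≤ M) → Top (Icc 0 1) k M g → Cls (Icc 0 1) k M' g := by
  induction k generalizing M with
  | zero => exact ⟨M, le_rfl, fun g h1 h2 => ⟨h1, h2⟩⟩
  | succ k ih =>
    obtain ⟨C, hC, h⟩ := lkd (E := E) k
    have hM2 : M ≤ C * (2 * M) := by nlinarith
    obtain ⟨M', hM', ih⟩ := ih (M := C * (2 * M)) (by positivity)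
    refine ⟨M', hM2.trans hM', fun g h1 ⟨g', h2, h3⟩ =>
      ⟨fun t ht => (h1 t ht).trans (hM2.trans hM'), g', h2, ih g' (fun t ht => ?_) (h3.mono hM2)⟩⟩
    have := h 0 1 M M g g' one_pos hM h1 h2 h3 t ht
    simp only [sub_zero, div_one, one_pow, mul_one] at this
    linarith

theorem Top.affine {a L : ℝ} (hL : 0 < L) {B : ℝ} : ∀ {k : ℕ} {g : ℝ → ℂ} (w : ℂ),
    Top (Icc a (a + L)) k B g →
      Top (Icc 0 1) k (‖w‖ * B * L ^ (k + 1)) (fun s => w * g (a + L * s))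
  | 0, g, w, h => fun s hs t ht => by
      have h1 := h (a + L * s) ⟨by nlinarith [hs.1], by nlinarith [hs.2]⟩ (a + L * t)
        ⟨by nlinarith [ht.1], by nlinarith [ht.2]⟩
      have e : a + L * s - (a + L * t) = L * (s - t) := by ring
      rw [e, abs_mul, abs_of_pos hL] at h1
      rw [← mul_sub, norm_mul]
      have := mul_le_mul_of_nonneg_left h1 (norm_nonneg w)
      simp only [zero_add, pow_one]
      linarith
  | k + 1, g, w, ⟨g', h1, h2⟩ => by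
      refine ⟨fun s => (w * L) * g' (a + L * s), fun t ht => ?_, ?_⟩
      · have hm : MapsTo (fun s => a + L * s) (Icc (0 : ℝ) 1) (Icc a (a + L)) :=
          fun s hs => ⟨by nlinarith [hs.1], by nlinarith [hs.2]⟩
        have h3 : HasDerivWithinAt (fun s => a + L * s) L (Icc (0 : ℝ) 1) t := by
          simpa using (((hasDerivAt_id t).const_mul L).const_add a).hasDerivWithinAt
        have := ((h1 _ (hm ht)).scomp t h3 hm).const_mul w
        refine this.congr_deriv ?_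
        simp [mul_assoc]
      · refine (Top.affine hL (w * L) h2).mono (le_of_eq ?_)
        rw [norm_mul, Complex.norm_real, Real.norm_eq_abs, abs_of_pos hL]; ring

end Pool.Agent.H56.Wk1
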