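import Pool.Agent.H56.Wk1

namespace Pool.Agent.H56.Wk2

open Set Filter Topology MeasureTheory Metric Pool.Agent.H56.Wk1

def Zs (a b : ℝ) (g : ℝ → ℝ) (k : ℕ) : Prop :=
  ∃ s : Finset ℝ, k ≤ s.card ∧ ∀ x ∈ s, x ∈ Icc a b ∧ g x = 0

theorem zs_of_infinite {a b : ℝ} {g : ℝ → ℝ} (k : ℕ) (h : {x | x ∈ Icc a b ∧ g x = 0}.Infinite) :
    Zs a b g k := by
  obtain ⟨t, ht, hc⟩ := h.exists_subset_card_eq k
  exact ⟨t, hc.ge, fun x hx => ht hx⟩

theorem zc {a b B : ℝ} (hB : 0 ≤ B) : ∀ {k : ℕ} {g : ℝ → ℝ}, Top (Icc a b) k B g → Zs a b g (k + 1) →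
    ∀ t ∈ Icc a b, |g t| ≤ B * (b - a) ^ (k + 1)
  | 0, g, h, ⟨s, hs, hz⟩ => fun t ht => by
      obtain ⟨z, hz'⟩ := Finset.card_pos.1 (show 0 < s.card by omega)
      have := h t ht z (hz z hz').1
      rw [(hz z hz').2, sub_zero, Real.norm_eq_abs] at this
      refine this.trans (mul_le_mul_of_nonneg_left ?_ hB)
      rw [zero_add, pow_one, abs_le]
      have := (hz z hz').1
      constructor <;> linarith [ht.1, ht.2, this.1, this.2]
  | k + 1, g, ⟨g', h1, h2⟩, ⟨s, hs, hz⟩ => fun t ht => by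
      have hz' : Zs a b g' (k + 1) := by
        by_cases hf : {x | x ∈ Icc a b ∧ g' x = 0}.Finite
        · refine ⟨hf.toFinset, ?_, fun x hx => by simpa using hx⟩
          have : s.card ≤ hf.toFinset.card + 1 := by
            refine Finset.card_le_of_interleaved fun x hx y hy hxy _ => ?_
            have hsub : Icc x y ⊆ Icc a b := Icc_subset_Icc (hz x hx).1.1 (hz y hy).1.2
            obtain ⟨c, hc, hc0⟩ := exists_hasDerivAt_eq_zero (f := g) (f' := g') hxy
              (fun u hu => ((h1 u (hsub hu)).continuousWithinAt).mono hsub)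
              (by rw [(hz x hx).2, (hz y hy).2])
              (fun u hu => (h1 u (hsub (Ioo_subset_Icc_self hu))).hasDerivAt
                (Icc_mem_nhds (lt_of_le_of_lt (hz x hx).1.1 hu.1) (lt_of_lt_of_le hu.2 (hz y hy).1.2)))
            exact ⟨c, by simpa using ⟨hsub (Ioo_subset_Icc_self hc), hc0⟩, hc.1, hc.2⟩
          omega
        · exact zs_of_infinite _ hf
      have h3 := zc hB h2 hz'
      obtain ⟨z, hz''⟩ := Finset.card_pos.1 (show 0 < s.card by omega)
      have := mvt h1 (fun u hu => by rw [Real.norm_eq_abs]; exact h3 u hu) t ht z (hz z hz'').1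
      rw [(hz z hz'').2, sub_zero, Real.norm_eq_abs] at this
      refine this.trans ?_
      have hz1 := (hz z hz'').1
      have hab : 0 ≤ b - a := by linarith [ht.1, ht.2]
      rw [pow_succ _ (k + 1), ← mul_assoc]
      refine mul_le_mul_of_nonneg_left ?_ (by positivity)
      rw [abs_le]
      constructor <;> linarith [ht.1, ht.2, hz1.1, hz1.2]

theorem fin_of_not_zs {a b : ℝ} {g : ℝ → ℝ} {k : ℕ} (h : ¬ Zs a b g (k + 1)) :
    ∃ s : Finset ℝ, s.card ≤ k ∧ ∀ x ∈ Icc a b, g x = 0 → x ∈ s := by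
  have hf : {x | x ∈ Icc a b ∧ g x = 0}.Finite := by
    by_contra hf; exact h (zs_of_infinite _ hf)
  refine ⟨hf.toFinset, ?_, fun x hx h0 => by simpa using ⟨hx, h0⟩⟩
  by_contra hc
  exact h ⟨hf.toFinset, by omega, fun x hx => by simpa using hx⟩

theorem vit (E W : Set ℝ) (x r : ℝ → ℝ) (K R : ℝ) (hK : 0 ≤ K)
    (hr : ∀ e ∈ E, 0 < r e ∧ r e ≤ R) (hW : ∀ e ∈ E, closedBall (x e) (r e) ⊆ W)
    (h : ∀ b ∈ E, volume {e ∈ E | closedBall (x e) (r e) ⊆ closedBall (x b) (5 * r b)} ≤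
      ENNReal.ofReal (K * r b)) : volume E ≤ ENNReal.ofReal K * volume W := by
  obtain ⟨u, huE, hd, hc⟩ := Vitali.exists_disjoint_subfamily_covering_enlargement_closedBall E x r R
    (fun a ha => (hr a ha).2) 5 (by norm_num)
  have hcount : u.Countable := hd.countable_of_nonempty_interior fun j hj =>
    (nonempty_ball.2 (hr j (huE hj)).1).mono ball_subset_interior_closedBall
  have h1 : E ⊆ ⋃ b ∈ u, {e ∈ E | closedBall (x e) (r e) ⊆ closedBall (x b) (5 * r b)} := by
    intro e he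
    obtain ⟨b, hb, hb'⟩ := hc e he
    exact mem_biUnion hb ⟨he, hb'⟩
  calc volume E ≤ ∑' b : u, volume {e ∈ E | closedBall (x e) (r e) ⊆ closedBall (x b) (5 * r b)} :=
        (measure_mono h1).trans (measure_biUnion_le _ hcount _)
    _ ≤ ∑' b : u, ENNReal.ofReal K * volume (closedBall (x b) (r b)) := by
        refine ENNReal.tsum_le_tsum fun b => (h b (huE b.2)).trans ?_
        rw [Real.volume_closedBall, ← ENNReal.ofReal_mul hK]
        have := (hr b (huE b.2)).1
        exact ENNReal.ofReal_le_ofReal (by nlinarith)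
    _ = ENNReal.ofReal K * volume (⋃ b ∈ u, closedBall (x b) (r b)) := by
        rw [ENNReal.tsum_mul_left, measure_biUnion hcount hd fun _ _ => measurableSet_closedBall]
    _ ≤ _ := by
        gcongr
        exact iUnion₂_subset fun b hb => hW b (huE hb)

theorem one_side {f f' : ℝ → ℝ} {ξ δ : ℝ}
    (hd : ∀ u ∈ Icc (ξ - δ) (ξ + δ), HasDerivAt f (f' u) u)
    (hz : ∀ u ∈ Icc (ξ - δ) (ξ + δ), f u ≠ 0 ∧ f' u ≠ 0) :
    (∀ u ∈ Icc (ξ - δ) ξ, |f u| ≤ |f ξ|) ∨ (∀ u ∈ Icc ξ (ξ + δ), |f u| ≤ |f ξ|) := by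
  by_contra hc
  push Not at hc
  obtain ⟨⟨u, hu, hu'⟩, v, hv, hv'⟩ := hc
  have hsub : Icc u v ⊆ Icc (ξ - δ) (ξ + δ) := Icc_subset_Icc hu.1 hv.2
  have hd2 : ∀ w ∈ Icc u v, HasDerivAt (fun w => f w * f w) (f' w * f w + f w * f' w) w :=
    fun w hw => (hd w (hsub hw)).mul (hd w (hsub hw))
  obtain ⟨c, hc, hmin⟩ := (isCompact_Icc (a := u) (b := v)).exists_isMinOn
    (nonempty_Icc.2 (hu.2.trans hv.1)) (fun w hw => (hd2 w hw).continuousAt.continuousWithinAt)
  have h1 : f c * f c ≤ f ξ * f ξ := hmin (show ξ ∈ Icc u v from ⟨hu.2, hv.1⟩)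
  have hu2 : f ξ * f ξ < f u * f u := abs_lt_iff_mul_self_lt.1 hu'
  have hv2 : f ξ * f ξ < f v * f v := abs_lt_iff_mul_self_lt.1 hv'
  have hcu : u < c := lt_of_le_of_ne hc.1 fun e => by rw [← e] at h1; linarith
  have hcv : c < v := lt_of_le_of_ne hc.2 fun e => by rw [e] at h1; linarith
  have := (hmin.isLocalMin (Icc_mem_nhds hcu hcv)).hasDerivAt_eq_zero (hd2 c hc)
  have h2 : f c * f' c = 0 := by linarith
  exact mul_ne_zero (hz c (hsub hc)).1 (hz c (hsub hc)).2 h2

theorem ex_root (k : ℕ) {x : ℝ} (hx : 0 < x) : ∃ H, 0 < H ∧ H ^ (k + 1) = x :=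
  ⟨x ^ (((k + 1 : ℕ) : ℝ)⁻¹), Real.rpow_pos_of_pos hx _,
    Real.rpow_inv_natCast_pow hx.le (Nat.succ_ne_zero k)⟩

def UU (a b : ℝ) (f f' : ℝ → ℝ) (k : ℕ) (Λ σ : ℝ) : Set ℝ :=
  {y | ∃ ξ ∈ Icc a b, ∃ h, 0 < h ∧ h ≤ 1 ∧ |y - ξ| ≤ 2 * h ∧ |f ξ| ≤ Λ * h * |f' ξ| ∧
    (σ * h) ^ (k + 1) ≤ |f' ξ|}

theorem gg (k : ℕ) {B Λ : ℝ} (hB : 1 ≤ B) (hΛ : 0 < Λ) : ∃ C, 0 < C ∧ ∀ (a b σ : ℝ) (f f' : ℝ → ℝ),
    a < b → b - a ≤ 1 → 0 < σ → (∀ t ∈ Icc a b, HasDerivWithinAt f (f' t) (Icc a b) t) →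
    Top (Icc a b) k B f' → (∀ t ∈ Icc a b, |f' t| ≤ B) →
    volume (UU a b f f' k Λ σ) ≤ ENNReal.ofReal (C / σ) := by
  obtain ⟨C1, hC1, hlk⟩ := lkd (E := ℝ) k
  set K := 40 * C1 * B with hK
  set Λ' := 4 * C1 * Λ with hΛ'
  have hK0 : 0 < K := by positivity
  have hΛ0 : 0 < Λ' := by positivity
  set K2 := (2 * k + 5) * (2 * ((Λ' + 2) * (5 * K))) with hK2
  refine ⟨5 * (K * Λ') + 3 * K2, by positivity, fun a b σ f f' hab hL hσ hd hT hb => ?_⟩
  have hK20 : 0 ≤ K2 := by positivity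
  by_cases hs : σ ≤ K * Λ'
  · have : UU a b f f' k Λ σ ⊆ Icc (a - 2) (b + 2) := by
      rintro y ⟨ξ, hξ, h, -, h1, h2, -⟩
      rw [abs_le] at h2
      constructor <;> linarith [hξ.1, hξ.2]
    refine (measure_mono this).trans ?_
    rw [Real.volume_Icc]
    refine ENNReal.ofReal_le_ofReal ?_
    rw [le_div_iff₀ hσ]
    nlinarith
  push Not at hs
  have hex : ∀ y, ∃ ξ h H : ℝ, y ∈ UU a b f f' k Λ σ → ξ ∈ Icc a b ∧ 0 < h ∧ |y - ξ| ≤ 2 * h ∧
      |f ξ| ≤ Λ * h * |f' ξ| ∧ 0 < H ∧ H ≤ 1 ∧ σ * h ≤ K * H ∧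
      4 * C1 * B * (10 * H) ^ (k + 1) = |f' ξ| := by
    intro y
    by_cases hy : y ∈ UU a b f f' k Λ σ
    · obtain ⟨ξ, hξ, h, h0, -, h2, h3, h4⟩ := hy
      have hN : 0 < |f' ξ| := lt_of_lt_of_le (by positivity) h4
      obtain ⟨H, H0, H1⟩ := ex_root k (show 0 < |f' ξ| / (4 * C1 * B) by positivity)
      have e : 10 * (H / 10) = H := by ring
      have h41 : 1 ≤ 4 * C1 * B := by nlinarith
      have e2 : 4 * C1 * B * H ^ (k + 1) = |f' ξ| := by rw [H1]; field_simp
      refine ⟨ξ, h, H / 10, fun _ => ⟨hξ, h0, h2, h3, by positivity, ?_, ?_, by rw [e, e2]⟩⟩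
      · have : H ^ (k + 1) ≤ 1 := by
          have := hb ξ hξ
          have h5 : 0 < H ^ (k + 1) := by positivity
          nlinarith
        have := (pow_le_one_iff_of_nonneg H0.le (Nat.succ_ne_zero k)).1 this
        linarith
      · refine (pow_le_pow_iff_left₀ (by positivity) (by positivity) (Nat.succ_ne_zero k)).1
          (h4.trans ?_)
        have e3 : K * (H / 10) = (4 * C1 * B) * H := by rw [hK]; ring
        rw [e3, mul_pow, ← e2]
        exact mul_le_mul_of_nonneg_right (le_self_pow₀ h41 (Nat.succ_ne_zero k)) (by positivity)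
    · exact ⟨0, 0, 0, fun h => absurd h hy⟩
  choose ξ h H hp using hex
  have hv := vit (UU a b f f' k Λ σ) (Icc (a - 1) (b + 1)) ξ H (K2 / σ) 1 (by positivity)
    (fun e he => ⟨(hp e he).2.2.2.2.1, (hp e he).2.2.2.2.2.1⟩)
    (fun e he y hy => by
      obtain ⟨h1, -, -, -, -, h2, -⟩ := hp e he
      rw [mem_closedBall, Real.dist_eq, abs_le] at hy
      constructor <;> linarith [h1.1, h1.2])
    (fun c hc => by
      obtain ⟨c1, -, -, -, c2, -, -, c3⟩ := hp c hc
      set a' := max a (ξ c - 5 * H c) with ha'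
      set b' := min b (ξ c + 5 * H c) with hb'
      have hab' : a' < b' := by
        rw [ha', hb', max_lt_iff, lt_min_iff, lt_min_iff]
        refine ⟨⟨hab, ?_⟩, ?_, ?_⟩ <;> linarith [c1.1, c1.2]
      have hsub : Icc a' b' ⊆ Icc a b := Icc_subset_Icc (le_max_left _ _) (min_le_left _ _)
      have hlen : b' - a' ≤ 10 * H c := by
        linarith [le_max_right a (ξ c - 5 * H c), min_le_right b (ξ c + 5 * H c)]
      have hξ : ξ c ∈ Icc a' b' := ⟨max_le c1.1 (by linarith), le_min c1.2 (by linarith)⟩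
      have hpw : (b' - a') ^ (k + 1) ≤ (10 * H c) ^ (k + 1) :=
        pow_le_pow_left₀ (by linarith) hlen _
      have hpos : 0 < B * (10 * H c) ^ (k + 1) := by positivity
      have hd' : ∀ t ∈ Icc a' b', HasDerivWithinAt f (f' t) (Icc a' b') t :=
        fun t ht => (hd t (hsub ht)).mono hsub
      have z1 : ¬ Zs a' b' f' (k + 1) := fun hz => by
        have := zc (by linarith) (hT.subset hsub) hz _ hξ
        nlinarith
      have z2 : ¬ Zs a' b' f (k + 1 + 1) := fun hz => by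
        have h1 := zc (k := k + 1) (by linarith : 0 ≤ B) ⟨f', hd', hT.subset hsub⟩ hz
        have h2 := hlk a' b' _ B f f' hab' (by linarith) h1 hd' (hT.subset hsub) _ hξ
        have e : B * (b' - a') ^ (k + 1 + 1) / (b' - a') = B * (b' - a') ^ (k + 1) := by
          have : b' - a' ≠ 0 := by linarith
          field_simp; ring
        rw [e, Real.norm_eq_abs] at h2
        have h3 : B * (b' - a') ^ (k + 1) ≤ B * (10 * H c) ^ (k + 1) := by gcongr
        nlinarith
      obtain ⟨s1, s1c, s1m⟩ := fin_of_not_zs z1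
      obtain ⟨s2, s2c, s2m⟩ := fin_of_not_zs z2
      set ρ := (Λ' + 2) * (5 * K) * H c / σ with hρ
      have hcov : {e ∈ UU a b f f' k Λ σ | closedBall (ξ e) (H e) ⊆ closedBall (ξ c) (5 * H c)} ⊆
          ⋃ z ∈ insert a (insert b (s1 ∪ s2)), closedBall z ρ := by
        rintro e ⟨he, hball⟩
        obtain ⟨e1, e2, e3, e4, e5, -, e6, e7⟩ := hp e he
        set δ := Λ' * h e with hδ
        have hδ0 : 0 < δ := by positivity
        have hδH : δ ≤ H e := by
          have : K * δ ≤ K * H e := by rw [hδ]; nlinarith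
          exact le_of_mul_le_mul_left this hK0
        have b1 := hball (show ξ e + H e ∈ closedBall (ξ e) (H e) by
          simp [abs_of_pos e5])
        have b2 := hball (show ξ e - H e ∈ closedBall (ξ e) (H e) by
          simp [abs_of_pos e5])
        rw [mem_closedBall, Real.dist_eq, abs_le] at b1 b2
        have hH : H e ≤ 5 * H c := by linarith
        have hz : ∃ z ∈ insert a (insert b (s1 ∪ s2)), |z - ξ e| ≤ δ := by
          by_contra hz
          push Not at hz
          have za := hz a (by simp)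
          have zb := hz b (by simp)
          rw [abs_sub_comm, abs_of_nonneg (by linarith [e1.1])] at za
          rw [abs_of_nonneg (by linarith [e1.2])] at zb
          have hin : ∀ u ∈ Icc (ξ e - δ) (ξ e + δ), u ∈ Icc a' b' := fun u hu =>
            ⟨max_le (by linarith [hu.1]) (by linarith [hu.1]),
              le_min (by linarith [hu.2]) (by linarith [hu.2])⟩
          have habs : ∀ u ∈ Icc (ξ e - δ) (ξ e + δ), |u - ξ e| ≤ δ := fun u hu => by
            rw [abs_le]; constructor <;> linarith [hu.1, hu.2]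
          have hN : 0 < |f' (ξ e)| := by rw [← e7]; positivity
          have fin : ∀ p q : ℝ, q - p = δ → Icc p q ⊆ Icc (ξ e - δ) (ξ e + δ) → ξ e ∈ Icc p q →
              (∀ u ∈ Icc p q, |f u| ≤ |f (ξ e)|) → False := by
            intro p q hpq hs2 hm hle
            have hs3 : Icc p q ⊆ Icc a b := fun u hu => hsub (hin u (hs2 hu))
            have h2 := hlk p q (Λ * h e * |f' (ξ e)|) B f f' (by linarith) (by linarith)
              (fun u hu => (hle u hu).trans e4) (fun u hu => (hd u (hs3 hu)).mono hs3)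
              (hT.subset hs3) _ hm
            rw [hpq, Real.norm_eq_abs] at h2
            have e8 : C1 * (Λ * h e * |f' (ξ e)| / δ) = |f' (ξ e)| / 4 := by
              rw [hδ, hΛ']; field_simp
            have e9 : δ ^ (k + 1) ≤ (10 * H e) ^ (k + 1) := pow_le_pow_left₀ hδ0.le (by linarith) _
            have e10 : C1 * B * δ ^ (k + 1) ≤ C1 * B * (10 * H e) ^ (k + 1) := by gcongr
            nlinarith
          rcases one_side (f := f) (f' := f') (ξ := ξ e) (δ := δ)
            (fun u hu => (hd u (hsub (hin u hu))).hasDerivAt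
              (Icc_mem_nhds (by linarith [hu.1]) (by linarith [hu.2])))
            (fun u hu => ⟨fun h0 => absurd (habs u hu) (not_le.2 (hz u (by simp [s2m u (hin u hu) h0]))),
              fun h0 => absurd (habs u hu) (not_le.2 (hz u (by simp [s1m u (hin u hu) h0])))⟩)
            with h1 | h1
          · exact fin _ _ (by ring) (Icc_subset_Icc le_rfl (by linarith)) ⟨by linarith, le_rfl⟩ h1
          · exact fin _ _ (by ring) (Icc_subset_Icc (by linarith) le_rfl) ⟨le_rfl, by linarith⟩ h1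
        obtain ⟨z, hz1, hz2⟩ := hz
        refine mem_biUnion hz1 ?_
        rw [mem_closedBall, Real.dist_eq]
        have t1 : |e - z| ≤ (Λ' + 2) * h e := by
          rw [abs_le] at *; constructor <;> linarith [hz2.1, hz2.2, e3.1, e3.2]
        refine t1.trans ?_
        rw [hρ, le_div_iff₀ hσ]
        have : σ * h e ≤ 5 * K * H c := by nlinarith
        nlinarith
      refine (measure_mono hcov).trans ((measure_biUnion_finset_le _ _).trans ?_)
      simp only [Real.volume_closedBall, Finset.sum_const, nsmul_eq_mul]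
      have hcard : (insert a (insert b (s1 ∪ s2))).card ≤ 2 * k + 5 := by
        have := Finset.card_insert_le a (insert b (s1 ∪ s2))
        have := Finset.card_insert_le b (s1 ∪ s2)
        have := Finset.card_union_le s1 s2
        omega
      have hρ0 : 0 ≤ ρ := by positivity
      rw [← ENNReal.ofReal_natCast, ← ENNReal.ofReal_mul (Nat.cast_nonneg _)]
      refine ENNReal.ofReal_le_ofReal ?_
      have e : K2 / σ * H c = (2 * k + 5) * (2 * ρ) := by rw [hK2, hρ]; ring
      rw [e]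
      have : ((insert a (insert b (s1 ∪ s2))).card : ℝ) ≤ 2 * k + 5 := by exact_mod_cast hcard
      gcongr)
  refine hv.trans ?_
  rw [Real.volume_Icc, ← ENNReal.ofReal_mul (by positivity)]
  refine ENNReal.ofReal_le_ofReal ?_
  rw [div_mul_eq_mul_div]
  gcongr
  have : 0 ≤ K * Λ' := by positivity
  nlinarith

end Pool.Agent.H56.Wk2
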