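import Pool.Agent.H56.Wk2

namespace Pool.Agent.H56.Wk3

open Set Filter Topology Polynomial Pool.Agent.H56.Wk1

theorem ev_gen {n : ℕ} {q : ℂ[X]} (hq : q.natDegree ≤ n) {V : ℂ} {θ : ℝ}
    (h : ∀ i ≤ n, ‖q.coeff i‖ * ‖V‖ ^ i ≤ θ) : ‖q.eval V‖ ≤ (n + 1) * θ := by
  rw [eval_eq_sum_range' (Nat.lt_succ_of_le hq)]
  refine (norm_sum_le _ _).trans ((Finset.sum_le_card_nsmul _ _ θ fun i hi => ?_).trans (by simp))
  rw [norm_mul, norm_pow]
  exact h i (by simpa [Nat.lt_succ_iff] using hi)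

theorem ev_bd {n : ℕ} {q : ℂ[X]} (hq : q.natDegree ≤ n) {V : ℂ} {M R : ℝ} (hR : 1 ≤ R)
    (hV : ‖V‖ ≤ R) (h : ∀ i, ‖q.coeff i‖ ≤ M) : ‖q.eval V‖ ≤ (n + 1) * (M * R ^ n) :=
  ev_gen hq fun i hi => mul_le_mul (h i)
    ((pow_le_pow_left₀ (norm_nonneg _) hV i).trans (pow_le_pow_right₀ hR hi)) (by positivity)
    ((norm_nonneg _).trans (h 0))

theorem hasse_deg {n : ℕ} {q : ℂ[X]} (hq : q.natDegree ≤ n) (k : ℕ) :
    (hasseDeriv k q).natDegree ≤ n := (natDegree_hasseDeriv_le q k).trans (by omega)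

theorem hasse_co {n : ℕ} {q : ℂ[X]} (hq : q.natDegree ≤ n) (k i : ℕ) :
    ‖(hasseDeriv k q).coeff i‖ ≤ 2 ^ n * ‖q.coeff (i + k)‖ := by
  rw [hasseDeriv_coeff, norm_mul]
  by_cases h : i + k ≤ n
  · refine mul_le_mul_of_nonneg_right ?_ (norm_nonneg _)
    rw [Complex.norm_natCast]
    exact_mod_cast (Nat.choose_le_two_pow _ _).trans (Nat.pow_le_pow_right (by norm_num) h)
  · rw [coeff_eq_zero_of_natDegree_lt (by omega)]; simp

theorem tay_bd {n : ℕ} {q : ℂ[X]} (hq : q.natDegree ≤ n) {V : ℂ} {M R : ℝ} (hR : 1 ≤ R)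
    (hV : ‖V‖ ≤ R) (h : ∀ i, ‖q.coeff i‖ ≤ M) (k : ℕ) :
    ‖(taylor V q).coeff k‖ ≤ (n + 1) * (2 ^ n * M * R ^ n) := by
  rw [taylor_coeff]
  exact ev_bd (hasse_deg hq k) hR hV fun i => (hasse_co hq k i).trans (by gcongr; exact h _)

theorem ev1 {n : ℕ} {q : ℂ[X]} (hq : q.natDegree ≤ n) {V : ℂ} {M : ℝ}
    (hV : ‖V‖ ≤ 1) (h : ∀ i, ‖q.coeff i‖ ≤ M) : ‖q.eval V - q.coeff 0‖ ≤ (n + 1) * M * ‖V‖ := by
  have e : q.eval V - q.coeff 0 = q.divX.eval V * V := by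
    have := congrArg (eval V) (X_mul_divX_add q)
    simp only [eval_add, eval_mul, eval_X, eval_C] at this
    linear_combination -this
  rw [e, norm_mul]
  have := ev_bd (natDegree_divX_le.trans hq) le_rfl hV (M := M) fun i => by
    rw [coeff_divX]; exact h _
  rw [one_pow, mul_one] at this
  gcongr

theorem tay_lip {n : ℕ} {q : ℂ[X]} (hq : q.natDegree ≤ n) {V : ℂ} {M : ℝ}
    (hV : ‖V‖ ≤ 1) (h : ∀ i, ‖q.coeff i‖ ≤ M) (k : ℕ) :
    ‖(taylor V q).coeff k - q.coeff k‖ ≤ (n + 1) * (2 ^ n * M) * ‖V‖ := by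
  have := ev1 (hasse_deg hq k) hV (M := 2 ^ n * M) fun i =>
    (hasse_co hq k i).trans (by gcongr; exact h _)
  rw [hasseDeriv_coeff] at this
  simpa [taylor_coeff] using this

theorem tay_cont (n : ℕ) {M ε : ℝ} (hM : 1 ≤ M) (hε : 0 < ε) : ∃ ρ, 0 < ρ ∧ ∀ (p q : ℂ[X]) (z w : ℂ),
    p.natDegree ≤ n → q.natDegree ≤ n → (∀ i, ‖p.coeff i‖ ≤ M) → (∀ i, ‖p.coeff i - q.coeff i‖ ≤ ρ) →
    ‖z‖ ≤ M → ‖w‖ ≤ M → ‖w - z‖ ≤ ρ → ∀ k, ‖(taylor z p).coeff k - (taylor w q).coeff k‖ ≤ ε := by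
  set A : ℝ := (n + 1) * (2 ^ n * ((n + 1) * (2 ^ n * M * M ^ n))) with hA
  set B : ℝ := (n + 1) * (2 ^ n * M ^ n) with hB
  have hA0 : 0 < A := by positivity
  have hB0 : 0 < B := by positivity
  refine ⟨min 1 (ε / (A + B)), by positivity, fun p q z w hp hq h1 h2 hz hw h3 k => ?_⟩
  set ρ := min 1 (ε / (A + B)) with hρ
  have h4 := tay_lip (n := n) (q := taylor z p) (by rw [natDegree_taylor]; exact hp)
    (h3.trans (min_le_left _ _)) (tay_bd hp hM hz h1) k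
  rw [taylor_taylor, sub_add_cancel] at h4
  have h5 := tay_bd (q := p - q) ((natDegree_sub_le _ _).trans (max_le hp hq)) hM hw
    (M := ρ) (fun i => by rw [coeff_sub]; exact h2 i) k
  rw [map_sub, coeff_sub] at h5
  have h6 : ρ * (A + B) ≤ ε := (le_div_iff₀ (by positivity)).1 (min_le_right _ _)
  have e : (taylor z p).coeff k - (taylor w q).coeff k =
      ((taylor w p).coeff k - (taylor w q).coeff k) - ((taylor w p).coeff k - (taylor z p).coeff k) := by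
    ring
  rw [e]
  refine (norm_sub_le _ _).trans ?_
  have h7 : A * ‖w - z‖ ≤ A * ρ := by gcongr
  have : (n + 1 : ℝ) * (2 ^ n * ρ * M ^ n) = ρ * B := by rw [hB]; ring
  linarith

theorem rootB (n m : ℕ) {M c : ℝ} (hM : 0 < M) (hc : 0 < c) : ∃ ρ Λ, 0 < ρ ∧ ρ ≤ 1 ∧ 1 ≤ Λ ∧
    ∀ (F : ℂ[X]) (V : ℂ) (x : ℝ), F.natDegree ≤ n → (∀ i, m < i → ‖F.coeff i‖ ≤ M) →
    c ≤ ‖F.coeff m‖ → F.eval V = 0 → ‖V‖ ≤ ρ → 0 ≤ x → (∀ i < m, ‖F.coeff i‖ ≤ x ^ (m - i)) →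
    ‖V‖ ≤ Λ * x := by
  set θ : ℝ := c / (2 * (n + 1)) with hθ
  have hθ0 : 0 < θ := by positivity
  refine ⟨min 1 (θ / M), max 1 θ⁻¹, by positivity, min_le_left _ _, le_max_left _ _,
    fun F V x hF h1 h2 h3 h4 hx h5 => ?_⟩
  by_contra hlt
  push Not at hlt
  have hΛ : 1 ≤ max 1 θ⁻¹ := le_max_left _ _
  have hV0 : 0 < ‖V‖ := lt_of_le_of_lt (by positivity) hlt
  have hxV : x ≤ ‖V‖ := by nlinarith
  have hxθ : x ≤ θ * ‖V‖ := by
    have : θ⁻¹ * x ≤ ‖V‖ := le_trans (by gcongr; exact le_max_right _ _) hlt.le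
    rwa [inv_mul_le_iff₀ hθ0] at this
  have hV1 : ‖V‖ ≤ 1 := h4.trans (min_le_left _ _)
  have hV2 : ‖V‖ * M ≤ θ := (le_div_iff₀ hM).1 (h4.trans (min_le_right _ _))
  have hdeg : (F.erase m).natDegree ≤ n := (natDegree_le_natDegree (degree_erase_le F m)).trans hF
  have key := ev_gen hdeg (V := V) (θ := θ * ‖V‖ ^ m) fun i _ => by
    rw [coeff_erase]
    rcases lt_trichotomy i m with h | h | h
    · rw [if_neg h.ne]
      obtain ⟨j, rfl⟩ : ∃ j, m = i + j + 1 := ⟨m - i - 1, by omega⟩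
      have := h5 i h
      rw [show i + j + 1 - i = j + 1 by omega, pow_succ] at this
      have h6 : x ^ j * x ≤ ‖V‖ ^ j * (θ * ‖V‖) := by gcongr
      calc _ ≤ ‖V‖ ^ j * (θ * ‖V‖) * ‖V‖ ^ i := by gcongr; exact this.trans h6
        _ = _ := by ring
    · rw [if_pos h]; simp; positivity
    · rw [if_neg h.ne']
      obtain ⟨j, rfl⟩ : ∃ j, i = m + j + 1 := ⟨i - m - 1, by omega⟩
      have h6 : ‖V‖ ^ j ≤ 1 := pow_le_one₀ hV0.le hV1
      calc _ ≤ M * ‖V‖ ^ (m + j + 1) := by gcongr; exact h1 _ h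
        _ = ‖V‖ * M * ‖V‖ ^ m * ‖V‖ ^ j := by ring
        _ ≤ θ * ‖V‖ ^ m * 1 := by gcongr
        _ = _ := by ring
  have e : (F.erase m).eval V = -(F.coeff m * V ^ m) := by
    rw [← monomial_add_erase F m, eval_add, eval_monomial] at h3
    linear_combination h3
  rw [e, norm_neg, norm_mul, norm_pow] at key
  have e2 : (n + 1 : ℝ) * (θ * ‖V‖ ^ m) = c / 2 * ‖V‖ ^ m := by rw [hθ]; field_simp
  have : 0 < ‖V‖ ^ m := by positivity
  nlinarith

theorem sr (n : ℕ) {M c : ℝ} (hM : 1 ≤ M) (hc : 0 < c) : ∃ ρ Λ, 0 < ρ ∧ 0 < Λ ∧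
    ∀ (p q : ℂ[X]) (z w : ℂ) (η : ℝ), p.natDegree ≤ n → q.natDegree ≤ n → (∀ i, ‖p.coeff i‖ ≤ M) →
    (∀ i, ‖p.coeff i - q.coeff i‖ ≤ η) → p.eval z = 0 → q.eval w = 0 → ‖z‖ ≤ M → ‖w‖ ≤ M →
    c ≤ ‖(taylor z p).coeff 1‖ → ‖w - z‖ ≤ ρ → ‖w - z‖ ≤ Λ * η := by
  obtain ⟨ρ, Λ, h0, -, h1, h⟩ := rootB n 1 (M := (n + 1) * (2 ^ n * M * M ^ n)) (by positivity) hc
  refine ⟨ρ, Λ * ((n + 1) * M ^ n), h0, by positivity,
    fun p q z w η hp hq h2 h3 hz hw hz1 hw1 h4 h5 => ?_⟩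
  have hη : 0 ≤ η := (norm_nonneg _).trans (h3 0)
  have h6 := ev_bd (q := p - q) ((natDegree_sub_le _ _).trans (max_le hp hq)) hM hw1
    (M := η) (fun i => by rw [coeff_sub]; exact h3 i)
  rw [eval_sub, hw, sub_zero] at h6
  have := h (taylor z p - C (p.eval w)) (w - z) ((n + 1) * (η * M ^ n))
    ((natDegree_sub_le _ _).trans (max_le (by rw [natDegree_taylor]; exact hp) (by simp)))
    (fun i hi => by
      rw [coeff_sub, coeff_C, if_neg (by omega), sub_zero]; exact tay_bd hp hM hz1 h2 i)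
    (by rw [coeff_sub, coeff_C, if_neg (by omega), sub_zero]; exact h4)
    (by rw [eval_sub, taylor_eval_sub, eval_C, sub_self]) h5 (by positivity)
    (fun i hi => by
      obtain rfl : i = 0 := by omega
      rw [coeff_sub, coeff_C_zero, taylor_coeff_zero, hz, zero_sub, norm_neg]
      simpa using h6)
  linarith

theorem rootA (n m : ℕ) {M c : ℝ} (hM : 1 ≤ M) (hc : 0 < c) : ∃ ρ Λ, 0 < ρ ∧ 1 ≤ Λ ∧
    ∀ (F : ℂ[X]) (V : ℂ) (y : ℝ), F.natDegree ≤ n → (∀ i, ‖F.coeff i‖ ≤ M) →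
    c ≤ ‖F.coeff (m + 2)‖ → F.coeff (m + 1) = 0 → F.eval V = 0 → ‖V‖ ≤ ρ → 0 ≤ y →
    (∀ i, 1 ≤ i → i < m + 2 → ‖(taylor V F).coeff i‖ ≤ y ^ (m + 2 - i)) →
    ∀ i < m + 2, ‖F.coeff i‖ ≤ (Λ * y) ^ (m + 2 - i) := by
  obtain ⟨ρ, Λ, h0, h00, h1, h⟩ := rootB n 1 (M := 2 ^ n * M) (by positivity) hc
  set M' : ℝ := (n + 1) * (2 ^ n * M * 1 ^ n) with hM'
  have hM'0 : 0 ≤ M' := by positivity
  set A : ℝ := (n + 1) * (2 ^ n * (1 + M')) with hA
  have hA1 : 1 ≤ A := by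
    have h2 : (1 : ℝ) ≤ 2 ^ n := one_le_pow₀ (by norm_num)
    have h3 : (1 : ℝ) ≤ n + 1 := by linarith [Nat.cast_nonneg (α := ℝ) n]
    exact one_le_mul_of_one_le_of_one_le h3 (one_le_mul_of_one_le_of_one_le h2 (by linarith))
  refine ⟨ρ, A * Λ, h0, one_le_mul_of_one_le_of_one_le hA1 h1,
    fun F V y hF h2 h3 h4 h5 h6 hy h7 i hi => ?_⟩
  have hV1 : ‖V‖ ≤ 1 := h6.trans h00
  have hV := h (hasseDeriv (m + 1) F - C ((taylor V F).coeff (m + 1))) V y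
    ((natDegree_sub_le _ _).trans (max_le (hasse_deg hF _) (by simp)))
    (fun i hi => by
      rw [coeff_sub, coeff_C, if_neg (by omega), sub_zero]
      exact (hasse_co hF _ _).trans (by gcongr; exact h2 _))
    (by
      rw [coeff_sub, coeff_C, if_neg (by omega), sub_zero, hasseDeriv_coeff, norm_mul,
        show 1 + (m + 1) = m + 1 + 1 by ring, Nat.choose_succ_self_right, Complex.norm_natCast]
      have : (1 : ℝ) ≤ ((m + 1 + 1 : ℕ) : ℝ) := by exact_mod_cast (by omega)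
      nlinarith)
    (by rw [eval_sub, eval_C, taylor_coeff, sub_self]) h6 hy
    (fun i hi => by
      obtain rfl : i = 0 := by omega
      rw [coeff_sub, coeff_C_zero, hasseDeriv_coeff, zero_add, h4, mul_zero, zero_sub, norm_neg]
      simpa using h7 (m + 1) (by omega) (by omega))
  set G := taylor V F with hG
  have hGd : G.natDegree ≤ n := by rw [hG, natDegree_taylor]; exact hF
  have hG0 : ∀ j < m + 2, ‖G.coeff j‖ ≤ (Λ * y) ^ (m + 2 - j) := fun j hj => by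
    rcases Nat.eq_zero_or_pos j with rfl | hj0
    · rw [hG, taylor_coeff_zero, h5, norm_zero]; positivity
    · exact (h7 j hj0 hj).trans (pow_le_pow_left₀ hy (by nlinarith) _)
  have e : F.coeff i = (hasseDeriv i G).eval (-V) := by
    rw [← taylor_coeff, hG, taylor_taylor, neg_add_cancel, taylor_zero]
  rw [e]
  have hΛy : 0 ≤ Λ * y := by positivity
  refine (ev_gen (hasse_deg hGd i) (θ := 2 ^ n * (1 + M') * (Λ * y) ^ (m + 2 - i))
    fun l _ => ?_).trans ?_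
  · rw [norm_neg, mul_assoc]
    refine (mul_le_mul_of_nonneg_right (hasse_co hGd i l) (by positivity)).trans ?_
    rw [mul_assoc]
    refine mul_le_mul_of_nonneg_left ?_ (by positivity)
    by_cases hl : l + i < m + 2
    · calc _ ≤ (Λ * y) ^ (m + 2 - (l + i)) * (Λ * y) ^ l := by gcongr; exact hG0 _ hl
        _ = 1 * (Λ * y) ^ (m + 2 - i) := by rw [← pow_add, one_mul]; congr 1; omega
        _ ≤ _ := by gcongr; linarith
    · calc _ ≤ M' * ‖V‖ ^ (m + 2 - i) :=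
          mul_le_mul (tay_bd hF le_rfl hV1 h2 _)
            (pow_le_pow_of_le_one (norm_nonneg _) hV1 (by omega)) (by positivity) hM'0
        _ ≤ _ := by gcongr; linarith
  · rw [← mul_assoc, ← hA, mul_assoc A, mul_pow A]
    exact mul_le_mul_of_nonneg_right (le_self_pow₀ hA1 (by omega)) (by positivity)

theorem mulset {W : ℂ} {ρ K : ℝ} (hρ : 0 < ρ) (hK : 0 ≤ K) (s : Multiset ℂ)
    (h : ∀ w ∈ s, ρ + ‖w‖ ≤ K * ‖W - w‖) : ∀ k,
    ‖((s.map (X - C ·)).prod).coeff k‖ * ρ ^ k ≤ K ^ s.card * ‖((s.map (X - C ·)).prod).eval W‖ := by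
  induction s using Multiset.induction_on with
  | empty =>
    intro k
    rcases k with _ | k <;> simp [coeff_one]
  | cons w s ih =>
    intro k
    have ih := ih fun u hu => h u (Multiset.mem_cons_of_mem hu)
    have hw := h w (Multiset.mem_cons_self _ _)
    rw [Multiset.map_cons, Multiset.prod_cons, Multiset.card_cons]
    set q := (s.map (X - C ·)).prod
    set N := K ^ s.card * ‖q.eval W‖ with hN
    have hN0 : 0 ≤ N := by positivity
    have e : K ^ (s.card + 1) * ‖((X - C w) * q).eval W‖ = K * ‖W - w‖ * N := by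
      rw [eval_mul, norm_mul, hN]; simp; ring
    rw [e]
    refine le_trans ?_ (mul_le_mul_of_nonneg_right hw hN0)
    rcases k with _ | k
    · have := ih 0
      simp only [pow_zero, mul_one, mul_coeff_zero, coeff_sub, coeff_X_zero, coeff_C_zero, zero_sub,
        norm_mul, norm_neg] at this ⊢
      nlinarith [norm_nonneg w]
    · rw [coeff_X_sub_C_mul]
      have h1 := ih k
      have h2 := ih (k + 1)
      have h3 : ‖q.coeff k - w * q.coeff (k + 1)‖ ≤ ‖q.coeff k‖ + ‖w‖ * ‖q.coeff (k + 1)‖ := by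
        rw [← norm_mul]; exact norm_sub_le _ _
      calc _ ≤ (‖q.coeff k‖ + ‖w‖ * ‖q.coeff (k + 1)‖) * ρ ^ (k + 1) := by gcongr
        _ = ρ * (‖q.coeff k‖ * ρ ^ k) + ‖w‖ * (‖q.coeff (k + 1)‖ * ρ ^ (k + 1)) := by ring
        _ ≤ ρ * N + ‖w‖ * N := by gcongr
        _ = _ := by ring

theorem harn {n : ℕ} {p : ℂ[X]} (hp : p.natDegree ≤ n) {W : ℂ} {ρ K : ℝ} (hρ : 0 < ρ) (hK : 1 ≤ K)
    (h : ∀ w ∈ p.roots, ρ + ‖w‖ ≤ K * ‖W - w‖) (k : ℕ) :
    ‖p.coeff k‖ * ρ ^ k ≤ K ^ n * ‖p.eval W‖ := by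
  have e := (IsAlgClosed.splits p).eq_prod_roots
  have h1 := mulset hρ (by linarith) p.roots h k
  have h2 : K ^ p.roots.card ≤ K ^ n := pow_le_pow_right₀ hK ((card_roots' p).trans hp)
  set q := (p.roots.map (X - C ·)).prod
  rw [e, coeff_C_mul, eval_mul, eval_C, norm_mul, norm_mul]
  have h3 := mul_le_mul_of_nonneg_left
    (h1.trans (mul_le_mul_of_nonneg_right h2 (norm_nonneg _))) (norm_nonneg p.leadingCoeff)
  linarith

theorem ex_near {n : ℕ} {q : ℂ[X]} (hq : q.natDegree ≤ n) {z : ℂ} {ρ : ℝ} (hρ : 0 < ρ)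
    (h : 2 ^ n * ‖q.eval z‖ < ‖(taylor z q).coeff 1‖ * ρ) : ∃ w, q.eval w = 0 ∧ ‖w - z‖ ≤ ρ := by
  by_contra hc
  push Not at hc
  have := harn (n := n) (p := taylor z q) (by rw [natDegree_taylor]; exact hq) (W := 0) hρ one_le_two
    (fun w hw => by
      have h1 := hc (w + z) (by rw [← taylor_eval]; exact isRoot_of_mem_roots hw)
      simp only [add_sub_cancel_right, zero_sub, norm_neg] at h1 ⊢
      linarith) 1
  rw [taylor_eval, zero_add, pow_one] at this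
  linarith

theorem barrier (n : ℕ) {ρ : ℝ} (hρ : 0 < ρ) (hρ1 : ρ ≤ 1) : ∃ κ, 0 < κ ∧ ∀ p : ℂ[X], p.natDegree ≤ n →
    ∃ ρ', 0 < ρ' ∧ ρ' ≤ ρ ∧ ∀ W : ℂ, ‖W‖ = ρ' → ∀ k, κ * ‖p.coeff k‖ ≤ ‖p.eval W‖ := by
  set r : ℝ := ρ / (n + 1) with hr
  have hn : (0 : ℝ) ≤ n := Nat.cast_nonneg n
  have hr0 : 0 < r := by positivity
  have hrn : r * (n + 1) = ρ := by rw [hr]; field_simp
  have hr1 : r ≤ 1 := by nlinarith
  refine ⟨r ^ n / (2 * n + 5) ^ n, by positivity, fun p hp => ?_⟩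
  obtain ⟨i, hi, hi'⟩ := Finset.exists_mem_notMem_of_card_lt_card (s := p.roots.toFinset.image
    fun w => ⌊‖w‖ / r⌋₊) (t := Finset.range (n + 1)) (by
      have := Finset.card_image_le (s := p.roots.toFinset) (f := fun w => ⌊‖w‖ / r⌋₊)
      have := Multiset.toFinset_card_le p.roots
      have := card_roots' p
      rw [Finset.card_range]; omega)
  have hin : (i : ℝ) ≤ n := by exact_mod_cast Nat.lt_succ_iff.1 (Finset.mem_range.1 hi)
  have hi0 : (0 : ℝ) ≤ i := Nat.cast_nonneg i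
  refine ⟨(i + 1 / 2) * r, by positivity, by nlinarith, fun W hW k => ?_⟩
  have := harn hp (W := W) (K := 2 * n + 5) hr0 (by linarith) (fun w hw => by
    have h1 : ⌊‖w‖ / r⌋₊ ≠ i := fun e => hi' (Finset.mem_image.2 ⟨w, by simpa using hw, e⟩)
    have h2 := norm_sub_norm_le W w
    have h3 := norm_sub_norm_le w W
    rw [norm_sub_rev] at h3
    have h4 : r / 2 ≤ ‖W - w‖ := by
      rcases lt_or_gt_of_ne h1 with h | h
      · have := (Nat.floor_lt (by positivity)).1 h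
        rw [div_lt_iff₀ hr0] at this
        linarith
      · have := (Nat.le_floor_iff (by positivity)).1 (Nat.succ_le_of_lt h)
        rw [le_div_iff₀ hr0] at this
        push_cast at this
        linarith
    nlinarith) k
  by_cases hk : k ≤ n
  · have h2 : r ^ n ≤ r ^ k := pow_le_pow_of_le_one hr0.le hr1 hk
    rw [div_mul_eq_mul_div, div_le_iff₀ (by positivity)]
    nlinarith [norm_nonneg (p.coeff k)]
  · rw [coeff_eq_zero_of_natDegree_lt (by omega)]; simp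

theorem modulus (n : ℕ) {M c ρ : ℝ} (hM : 1 ≤ M) (hc : 0 < c) (hρ : 0 < ρ) : ∃ δ, 0 < δ ∧
    ∀ (a b t0 : ℝ) (P : ℝ → ℂ[X]) (l : ℝ → ℂ), (∀ t, (P t).natDegree ≤ n) →
    (∀ i, ∀ s ∈ Icc a b, ∀ t ∈ Icc a b, ‖(P s).coeff i - (P t).coeff i‖ ≤ M * |s - t|) →
    ContinuousOn l (Icc a b) → (∀ t ∈ Icc a b, (P t).eval (l t) = 0 ∧ ‖l t‖ ≤ M) → t0 ∈ Icc a b →
    (∃ k, c ≤ ‖(taylor (l t0) (P t0)).coeff k‖) → ∀ t ∈ Icc a b, |t - t0| ≤ δ → ‖l t - l t0‖ ≤ ρ := by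
  obtain ⟨κ, hκ, h⟩ := barrier n (ρ := min ρ 1) (by positivity) (min_le_right _ _)
  set A : ℝ := (n + 1) * (M * M ^ n) with hA
  have hA0 : 0 < A := by positivity
  refine ⟨κ * c / (2 * A), by positivity, fun a b t0 P l hP h1 h2 h3 h4 ⟨k, hk⟩ t ht h5 => ?_⟩
  obtain ⟨ρ', h6, h7, h8⟩ := h (taylor (l t0) (P t0)) (by rw [natDegree_taylor]; exact hP t0)
  by_contra hlt
  push Not at hlt
  have hsub : uIcc t0 t ⊆ Icc a b := uIcc_subset_Icc h4 ht
  obtain ⟨s, hs, hs'⟩ := intermediate_value_uIcc (f := fun s => ‖l s - l t0‖)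
    (((h2.mono hsub).sub continuousOn_const).norm)
    (show ρ' ∈ uIcc ‖l t0 - l t0‖ ‖l t - l t0‖ by
      rw [sub_self, norm_zero, uIcc_of_le (norm_nonneg _)]
      exact ⟨h6.le, by linarith [min_le_left ρ 1]⟩)
  have h9 := h8 _ hs' k
  rw [taylor_eval_sub] at h9
  have h10 : |t0 - s| ≤ κ * c / (2 * A) := by
    rw [abs_sub_comm]; exact (abs_sub_left_of_mem_uIcc hs).trans h5
  have h11 := ev_bd (q := P t0 - P s) ((natDegree_sub_le _ _).trans (max_le (hP _) (hP _))) hM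
    (h3 s (hsub hs)).2 (M := M * (κ * c / (2 * A))) (fun i => by
      rw [coeff_sub]; exact (h1 i t0 h4 s (hsub hs)).trans (by gcongr))
  rw [eval_sub, (h3 s (hsub hs)).1, sub_zero] at h11
  have e : (n + 1 : ℝ) * (M * (κ * c / (2 * A)) * M ^ n) = κ * c / 2 := by
    rw [hA]; field_simp
  have : κ * c ≤ κ * ‖(taylor (l t0) (P t0)).coeff k‖ := by gcongr
  have : 0 < κ * c := by positivity
  linarith

end Pool.Agent.H56.Wk3
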