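import Pool.Agent.H56.Wk3

namespace Pool.Agent.H56.Wk4

open Set Filter Topology Polynomial MeasureTheory Pool.Agent.H56.Wk1 Pool.Agent.H56.Wk3

theorem cls_psum (j n : ℕ) {M : ℝ} (hM : 0 ≤ M) : ∃ M', 0 ≤ M' ∧ ∀ (a b : ℝ) (c : ℕ → ℝ → ℂ) (μ : ℝ → ℂ),
    (∀ i, Cls (Icc a b) j M (c i)) → Cls (Icc a b) j M μ →
    Cls (Icc a b) j M' (fun t => ∑ i ∈ Finset.range (n + 1), c i t * μ t ^ i) :=
  ⟨∑ i ∈ Finset.range (n + 1), 2 ^ (j + 1) * M * (2 ^ (j + 1) * M) ^ i, by positivity,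
    fun _ _ _ _ h1 h2 => cls_sum (n + 1) fun i _ => (h1 i).mul hM (by positivity) (h2.pow hM i)⟩

theorem cls_hasse {j n : ℕ} {M a b : ℝ} (hM : 0 ≤ M) {P : ℝ → ℂ[X]} (hP : ∀ t, (P t).natDegree ≤ n)
    (h : ∀ i, Cls (Icc a b) j M (fun t => (P t).coeff i)) (k i : ℕ) :
    Cls (Icc a b) j (2 ^ (j + 1) * 2 ^ n * M) (fun t => (hasseDeriv k (P t)).coeff i) := by
  simp only [hasseDeriv_coeff]
  by_cases hi : i + k ≤ n
  · refine ((cls_const _ j _).mul (norm_nonneg _) hM (h (i + k))).mono ?_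
    gcongr
    rw [Complex.norm_natCast]
    exact_mod_cast (Nat.choose_le_two_pow _ _).trans (Nat.pow_le_pow_right (by norm_num) hi)
  · refine ((cls_const _ j (0 : ℂ)).mono (by simp; positivity)).congr fun t _ => ?_
    rw [coeff_eq_zero_of_natDegree_lt (lt_of_le_of_lt (hP t) (by omega)), mul_zero]

theorem cls_taylor (j n : ℕ) {M : ℝ} (hM : 1 ≤ M) : ∃ M', M ≤ M' ∧ ∀ (a b : ℝ) (P : ℝ → ℂ[X]) (μ : ℝ → ℂ),
    (∀ t, (P t).natDegree ≤ n) → (∀ i, Cls (Icc a b) j M (fun t => (P t).coeff i)) →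
    Cls (Icc a b) j M μ → ∀ k, Cls (Icc a b) j M' (fun t => (taylor (μ t) (P t)).coeff k) := by
  obtain ⟨M', h0, h⟩ := cls_psum j n (M := 2 ^ (j + 1) * 2 ^ n * M) (by positivity)
  have h1 : M ≤ 2 ^ (j + 1) * 2 ^ n * M := by
    rw [← pow_add]
    exact le_mul_of_one_le_left (by linarith) (one_le_pow₀ (by norm_num))
  refine ⟨M' + M, by linarith, fun a b P μ hP h2 h3 k =>
    ((h a b _ μ (cls_hasse (by linarith) hP h2 k) (h3.mono h1)).mono (by linarith)).congr fun t _ => ?_⟩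
  rw [taylor_coeff, eval_eq_sum_range' (Nat.lt_succ_of_le (hasse_deg (hP t) k))]

theorem hd_mul {I : Set ℝ} {u ψ : ℝ → ℂ} {u' : ℂ} {t : ℝ} (hu : HasDerivWithinAt u u' I t)
    (h0 : u t = 0) (hψ : ContinuousWithinAt ψ I t) :
    HasDerivWithinAt (fun s => u s * ψ s) (u' * ψ t) I t := by
  rw [hasDerivWithinAt_iff_tendsto_slope] at *
  refine (hu.mul (hψ.tendsto.mono_left (nhdsWithin_mono _ sdiff_subset))).congr fun s => ?_
  simp [slope, h0]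
  ring

theorem root_deriv {n : ℕ} {I : Set ℝ} {Q : ℝ → ℂ[X]} {μ : ℝ → ℂ} {c' : ℕ → ℂ} {t : ℝ} (ht : t ∈ I)
    (hQ : ∀ t, (Q t).natDegree ≤ n) (hd : ∀ i, HasDerivWithinAt (fun s => (Q s).coeff i) (c' i) I t)
    (hμ : ContinuousWithinAt μ I t) (h0 : ∀ s ∈ I, (Q s).eval (μ s) = 0)
    (h1 : (taylor (μ t) (Q t)).coeff 1 ≠ 0) :
    HasDerivWithinAt μ ((-1 * ∑ i ∈ Finset.range (n + 1), c' i * μ t ^ i) *
      ((taylor (μ t) (Q t)).coeff 1)⁻¹) I t := by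
  set R := (taylor (μ t) (Q t)).divX with hR
  have hRc : ContinuousWithinAt (fun s => R.eval (μ s - μ t)) I t :=
    R.continuous.continuousAt.comp_continuousWithinAt (hμ.sub continuousWithinAt_const)
  have hR0 : R.eval (μ t - μ t) = (taylor (μ t) (Q t)).coeff 1 := by
    rw [sub_self, ← coeff_zero_eq_eval_zero, hR, coeff_divX]
  have h2 : HasDerivWithinAt (fun s => μ t + ∑ i ∈ Finset.range (n + 1),
      ((Q s).coeff i - (Q t).coeff i) * (-1 * μ s ^ i * (R.eval (μ s - μ t))⁻¹))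
      (∑ i ∈ Finset.range (n + 1), c' i * (-1 * μ t ^ i * (R.eval (μ t - μ t))⁻¹)) I t := by
    refine HasDerivWithinAt.const_add _ (HasDerivWithinAt.fun_sum fun i _ => ?_)
    exact hd_mul ((hd i).sub_const _) (sub_self _)
      ((continuousWithinAt_const.mul (hμ.pow i)).mul (hRc.inv₀ (by rw [hR0]; exact h1)))
  refine (h2.congr_of_eventuallyEq ?_ (by simp)).congr_deriv ?_
  · filter_upwards [hRc.eventually_ne (hR0.trans_ne h1), self_mem_nhdsWithin] with s hs hs'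
    have e1 := congrArg (eval (μ s - μ t)) (X_mul_divX_add (taylor (μ t) (Q t)))
    rw [taylor_eval_sub, eval_add, eval_mul, eval_X, eval_C, taylor_coeff_zero, h0 t ht, ← hR,
      eval_eq_sum_range' (Nat.lt_succ_of_le (hQ t))] at e1
    have e2 := h0 s hs'
    rw [eval_eq_sum_range' (Nat.lt_succ_of_le (hQ s))] at e2
    have e3 : ∑ i ∈ Finset.range (n + 1),
        ((Q s).coeff i - (Q t).coeff i) * (-1 * μ s ^ i * (R.eval (μ s - μ t))⁻¹) =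
        (∑ i ∈ Finset.range (n + 1), (Q t).coeff i * μ s ^ i -
          ∑ i ∈ Finset.range (n + 1), (Q s).coeff i * μ s ^ i) * (R.eval (μ s - μ t))⁻¹ := by
      rw [← Finset.sum_sub_distrib, Finset.sum_mul]
      exact Finset.sum_congr rfl fun i _ => by ring
    rw [e3, e2, ← e1]
    field_simp
    ring
  · rw [hR0, Finset.mul_sum, Finset.sum_mul]
    exact Finset.sum_congr rfl fun i _ => by ring

theorem centre (K n : ℕ) {M c : ℝ} (hM : 1 ≤ M) (hc : 0 < c) : ∃ ρ, 0 < ρ ∧ ∀ j ≤ K + 1, ∃ M', M ≤ M' ∧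
    ∀ (a b : ℝ) (Q : ℝ → ℂ[X]) (μ : ℝ → ℂ), (∀ t, (Q t).natDegree ≤ n) →
    (∀ i, Cls (Icc a b) (K + 1) M (fun t => (Q t).coeff i)) →
    (∀ t ∈ Icc a b, (Q t).eval (μ t) = 0 ∧ ‖μ t‖ ≤ M ∧ c ≤ ‖(taylor (μ t) (Q t)).coeff 1‖) →
    (∀ s ∈ Icc a b, ∀ t ∈ Icc a b, ‖μ s - μ t‖ ≤ ρ) → Cls (Icc a b) j M' μ := by
  obtain ⟨ρ, Λ, hρ, hΛ, hsr⟩ := sr n hM hc
  refine ⟨ρ, hρ, fun j => ?_⟩
  induction j with
  | zero =>
    refine fun _ => ⟨M + Λ * M, by nlinarith, fun a b Q μ hQ h1 h2 h3 =>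
      ⟨fun t ht => by nlinarith [(h2 t ht).2.1], fun s hs t ht => ?_⟩⟩
    have := hsr (Q t) (Q s) (μ t) (μ s) (M * |s - t|) (hQ t) (hQ s) (fun i => (h1 i).bd t ht)
      (fun i => by rw [abs_sub_comm]; exact (h1 i).lip t ht s hs) (h2 t ht).1 (h2 s hs).1
      (h2 t ht).2.1 (h2 s hs).2.1 (h2 t ht).2.2 (h3 s hs t ht)
    nlinarith [abs_nonneg (s - t)]
  | succ j ih =>
    intro hj
    obtain ⟨M1, hM1, ih⟩ := ih (by omega)
    obtain ⟨M2, hM2, p2⟩ := cls_psum j n (M := M1) (by linarith)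
    obtain ⟨M3, hM3, p3⟩ := cls_taylor j n (M := M1) (by linarith)
    obtain ⟨M4, hM4, p4⟩ := cls_inv j (M := M3) (by linarith) hc
    have hpos : 0 ≤ 2 ^ (j + 1) * (2 ^ (j + 1) * ‖(-1 : ℂ)‖ * M2) * M4 := by positivity
    refine ⟨M + 2 ^ (j + 1) * (2 ^ (j + 1) * ‖(-1 : ℂ)‖ * M2) * M4, by linarith,
      fun a b Q μ hQ h1 h2 h3 => ?_⟩
    have h4 := ih a b Q μ hQ h1 h2 h3
    choose c' hc1 hc2 using fun i => (h1 i).2
    refine ⟨fun t ht => by linarith [(h2 t ht).2.1],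
      fun t => (-1 * ∑ i ∈ Finset.range (n + 1), c' i t * μ t ^ i) *
        ((taylor (μ t) (Q t)).coeff 1)⁻¹, fun t ht => ?_, ?_⟩
    · refine root_deriv ht hQ (fun i => hc1 i t ht) (h4.top.cont t ht) (fun s hs => (h2 s hs).1) ?_
      intro e
      have := (h2 t ht).2.2
      rw [e, norm_zero] at this
      linarith
    · refine (((cls_const _ j (-1 : ℂ)).mul (norm_nonneg _) hM2
        (p2 a b c' μ (fun i => ((hc2 i).le (by omega)).mono hM1) h4)).mul (by positivity) hM4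
        (p4 a b _ (p3 a b Q μ hQ (fun i => ((h1 i).le (by omega)).mono hM1) h4 1)
          fun t ht => (h2 t ht).2.2)).mono (by linarith)

def Bad (l : ℝ → ℂ) (r : ℝ) : Set ℝ := {t | ¬ ∀ᶠ s in 𝓝 t, ‖l s - l t‖ ≤ r * |s - t|}

def S01 (K n m : ℕ) (q : ℝ) : Prop := ∀ M c : ℝ, 1 ≤ M → 0 < c → ∃ C, 0 < C ∧
  ∀ (P : ℝ → ℂ[X]) (l : ℝ → ℂ), (∀ t, (P t).natDegree ≤ n) →
    (∀ i, Cls (Icc 0 1) K M (fun t => (P t).coeff i)) → ContinuousOn l (Icc 0 1) →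
    (∀ t ∈ Icc (0 : ℝ) 1, (P t).eval (l t) = 0 ∧ ‖l t‖ ≤ M ∧
      ∃ i, 1 ≤ i ∧ i ≤ m ∧ c ≤ ‖(taylor (l t) (P t)).coeff i‖) →
    ∀ r, 0 < r → volume (Bad l r ∩ Ioo 0 1) ≤ ENNReal.ofReal (C * r ^ (-q))

def Sc (K n m : ℕ) (q : ℝ) : Prop := ∀ M c : ℝ, 1 ≤ M → 0 < c → ∃ C, 0 < C ∧
  ∀ (a L D E : ℝ) (P : ℝ → ℂ[X]) (l : ℝ → ℂ), 0 < L → 0 < D → 0 < E → (∀ t, (P t).natDegree ≤ n) →
    (∀ i, ∀ t ∈ Icc a (a + L), ‖(P t).coeff i‖ * D ^ i ≤ M * E) →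
    (∀ i, ∃ B, Top (Icc a (a + L)) K B (fun t => (P t).coeff i) ∧ B * D ^ i * L ^ (K + 1) ≤ M * E) →
    ContinuousOn l (Icc a (a + L)) →
    (∀ t ∈ Icc a (a + L), (P t).eval (l t) = 0 ∧ ‖l t‖ ≤ M * D ∧
      ∃ i, 1 ≤ i ∧ i ≤ m ∧ c * E ≤ ‖(taylor (l t) (P t)).coeff i‖ * D ^ i) →
    ∀ r, 0 < r → volume (Bad l r ∩ Ioo a (a + L)) ≤ ENNReal.ofReal (L * (C * (L * r / D) ^ (-q)))

theorem sc_of {K n m : ℕ} {q : ℝ} (h : S01 K n m q) : Sc K n m q := by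
  intro M c hM hc
  obtain ⟨M', hM', hcl⟩ := cls_of_top (E := ℂ) K (M := M) (by linarith)
  obtain ⟨C0, hC0, h⟩ := h M' c (hM.trans hM') hc
  refine ⟨C0, hC0, fun a L D E P l hL hD hE hP h1 h2 h3 h4 r hr => ?_⟩
  have hm : MapsTo (fun s => a + L * s) (Icc (0 : ℝ) 1) (Icc a (a + L)) :=
    fun s hs => ⟨by nlinarith [hs.1], by nlinarith [hs.2]⟩
  have hD' : (D : ℂ) ≠ 0 := by exact_mod_cast hD.ne'
  set sc : ℂ[X] → ℂ[X] := fun p => C ((E : ℂ)⁻¹) * p.comp (C (D : ℂ) * X) with hsc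
  have hco : ∀ p i, (sc p).coeff i = ((E : ℂ)⁻¹ * D ^ i) * p.coeff i := fun p i => by
    simp only [hsc, coeff_C_mul, comp_C_mul_X_coeff]; ring
  have hw : ∀ i : ℕ, ‖(E : ℂ)⁻¹ * D ^ i‖ = D ^ i / E := fun i => by
    rw [norm_mul, norm_inv, norm_pow, Complex.norm_real, Complex.norm_real, Real.norm_eq_abs,
      Real.norm_eq_abs, abs_of_pos hD, abs_of_pos hE]; ring
  have htay : ∀ p (z : ℂ), taylor (z / D) (sc p) = sc (taylor z p) := fun p z => by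
    simp only [hsc, taylor_apply, mul_comp, C_comp, comp_assoc, add_comp, X_comp]
    rw [mul_add, ← C_mul, mul_div_cancel₀ _ hD']
  have key := h (fun s => sc (P (a + L * s))) (fun s => l (a + L * s) / D)
    (fun s => natDegree_le_iff_coeff_eq_zero.2 fun N hN => by
      rw [hco, coeff_eq_zero_of_natDegree_lt (lt_of_le_of_lt (hP _) hN), mul_zero])
    (fun i => by
      simp only [hco]
      obtain ⟨B, hB1, hB2⟩ := h2 i
      refine hcl _ (fun t ht => ?_) ((Top.affine hL _ hB1).mono ?_)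
      · rw [norm_mul, hw, div_mul_eq_mul_div, div_le_iff₀ hE, mul_comm]
        exact h1 i _ (hm ht)
      · rw [hw, div_mul_eq_mul_div, div_mul_eq_mul_div, div_le_iff₀ hE]
        linarith)
    ((h3.comp (by fun_prop) hm).div_const _)
    (fun t ht => by
      obtain ⟨p1, p2, i, p3, p4, p5⟩ := h4 _ (hm ht)
      refine ⟨?_, ?_, i, p3, p4, ?_⟩
      · rw [← taylor_coeff_zero, htay, hco, taylor_coeff_zero, p1, mul_zero]
      · rw [norm_div, Complex.norm_real, Real.norm_eq_abs, abs_of_pos hD, div_le_iff₀ hD]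
        nlinarith
      · rw [htay, hco, norm_mul, hw, div_mul_eq_mul_div, le_div_iff₀ hE]
        linarith)
    (L * r / D) (by positivity)
  have hsub : Bad l r ∩ Ioo a (a + L) ⊆ (fun t => t + -a) ⁻¹' ((fun t => L⁻¹ * t) ⁻¹'
      (Bad (fun s => l (a + L * s) / D) (L * r / D) ∩ Ioo 0 1)) := by
    rintro t ⟨ht, ht1, ht2⟩
    refine ⟨fun hb => ht ?_, mul_pos (inv_pos.2 hL) (by linarith), ?_⟩
    · have hc : Continuous fun t => L⁻¹ * (t + -a) := by fun_prop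
      filter_upwards [(hc.tendsto t).eventually hb] with s hs
      have e : ∀ u, a + L * (L⁻¹ * (u + -a)) = u := fun u => by field_simp; ring
      have e2 : L⁻¹ * (s + -a) - L⁻¹ * (t + -a) = L⁻¹ * (s - t) := by ring
      simp only [e] at hs
      rw [e2, ← sub_div, norm_div, Complex.norm_real, Real.norm_eq_abs, abs_of_pos hD, abs_mul,
        abs_of_pos (inv_pos.2 hL), div_le_iff₀ hD] at hs
      refine hs.trans (le_of_eq ?_)
      field_simp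
    · simp only
      rw [inv_mul_lt_iff₀ hL]; linarith
  refine (measure_mono hsub).trans ?_
  rw [measure_preimage_add_right, Real.volume_preimage_mul_left (inv_pos.2 hL).ne', inv_inv,
    abs_of_pos hL, ENNReal.ofReal_mul hL.le]
  gcongr

end Pool.Agent.H56.Wk4
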