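import Pool.Agent.H56.Wk4

namespace Pool.Agent.H56.Wk5

open Set Filter Topology Polynomial MeasureTheory Metric Pool.Agent.H56.Wk1 Pool.Agent.H56.Wk2
  Pool.Agent.H56.Wk3 Pool.Agent.H56.Wk4

theorem exD (m : ℕ) (x : ℕ → ℝ) (hx : ∀ i, 0 ≤ x i) (h : ∃ i < m, x i ≠ 0) :
    ∃ D, 0 < D ∧ (∀ i < m, x i ≤ D ^ (m - i)) ∧ ∃ i < m, x i = D ^ (m - i) := by
  obtain ⟨i0, hi0, h0⟩ := h
  set y : ℕ → ℝ := fun i => x i ^ (((m - i : ℕ) : ℝ)⁻¹) with hy
  have hy1 : ∀ i < m, y i ^ (m - i) = x i := fun i hi =>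
    Real.rpow_inv_natCast_pow (hx i) (by omega)
  have hy0 : ∀ i, 0 ≤ y i := fun i => Real.rpow_nonneg (hx i) _
  obtain ⟨j, hj, hmax⟩ := Finset.exists_max_image (Finset.range m) y ⟨i0, Finset.mem_range.2 hi0⟩
  refine ⟨y j, lt_of_lt_of_le (Real.rpow_pos_of_pos (lt_of_le_of_ne (hx i0) h0.symm) _)
    (hmax i0 (Finset.mem_range.2 hi0)), fun i hi => ?_, j, Finset.mem_range.1 hj,
    (hy1 j (Finset.mem_range.1 hj)).symm⟩
  rw [← hy1 i hi]
  exact pow_le_pow_left₀ (hy0 i) (hmax i (Finset.mem_range.2 hi)) _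

theorem stop {a b t0 η : ℝ} {φ : ℝ → ℝ} (hφ : ContinuousOn φ (Icc a b)) (ht : t0 ∈ Icc a b)
    (h0 : φ t0 = 0) (hη : 0 < η) : ∃ h, 0 < h ∧ h ≤ η ∧ (∀ t ∈ Icc a b, |t - t0| ≤ h → φ t ≤ 1 / 2) ∧
      (h = η ∨ ∃ t1 ∈ Icc a b, |t1 - t0| ≤ h ∧ 1 / 2 ≤ φ t1) := by
  by_cases hS : (Icc a b ∩ φ ⁻¹' Ici (1 / 2)).Nonempty
  · have hc : IsCompact (Icc a b ∩ φ ⁻¹' Ici (1 / 2)) := isCompact_Icc.of_isClosed_subset
      (hφ.preimage_isClosed_of_isClosed isClosed_Icc isClosed_Ici) inter_subset_left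
    obtain ⟨t1, ⟨h1, h2⟩, hmin⟩ := hc.exists_isMinOn hS (f := fun t => |t - t0|) (by fun_prop)
    have h2' : 1 / 2 ≤ φ t1 := h2
    have hd : 0 < |t1 - t0| := abs_pos.2 (sub_ne_zero.2 fun e => by rw [e, h0] at h2'; linarith)
    refine ⟨min η |t1 - t0|, by positivity, min_le_left _ _, fun t ht' h3 => ?_, ?_⟩
    · by_contra hlt
      push Not at hlt
      have hsub : uIcc t0 t ⊆ Icc a b := uIcc_subset_Icc ht ht'
      obtain ⟨s, hs, hs'⟩ := intermediate_value_uIcc (hφ.mono hsub)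
        (show 1 / 2 ∈ uIcc (φ t0) (φ t) by
          rw [h0, uIcc_of_le (by linarith)]; exact ⟨by norm_num, hlt.le⟩)
      have h4 : |t1 - t0| ≤ |s - t0| := hmin (show s ∈ Icc a b ∩ φ ⁻¹' Ici (1 / 2) from
        ⟨hsub hs, hs'.ge⟩)
      have h5 : s ≠ t := fun e => by rw [e] at hs'; linarith
      have h6 := h3.trans (min_le_right _ _)
      rcases mem_uIcc.1 hs with h | h
      · have := lt_of_le_of_ne h.2 h5
        rw [abs_of_nonneg (show 0 ≤ s - t0 by linarith)] at h4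
        rw [abs_of_nonneg (show 0 ≤ t - t0 by linarith)] at h6
        linarith
      · have := lt_of_le_of_ne h.1 h5.symm
        rw [abs_of_nonpos (show s - t0 ≤ 0 by linarith)] at h4
        rw [abs_of_nonpos (show t - t0 ≤ 0 by linarith)] at h6
        linarith
    · rcases le_total η |t1 - t0| with h | h
      · exact Or.inl (min_eq_left h)
      · exact Or.inr ⟨t1, h1, (min_eq_right h).ge, h2'⟩
  · refine ⟨η, hη, le_rfl, fun t ht' _ => ?_, Or.inl rfl⟩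
    by_contra hlt
    push Not at hlt
    exact hS ⟨t, ht', hlt.le⟩

theorem mvt2 {a b u v : ℝ} {f f' : ℝ → ℝ} (hd : ∀ t ∈ Icc a b, HasDerivWithinAt f (f' t) (Icc a b) t)
    (hu : u ∈ Icc a b) (hv : v ∈ Icc a b) : ∃ ξ ∈ uIcc u v, |f v - f u| = |f' ξ| * |v - u| := by
  wlog h : u ≤ v generalizing u v
  · obtain ⟨ξ, h1, h2⟩ := this hv hu (by linarith)
    exact ⟨ξ, by rwa [uIcc_comm], by rw [abs_sub_comm, h2, abs_sub_comm]⟩
  rcases h.eq_or_lt with rfl | h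
  · exact ⟨u, left_mem_uIcc, by simp⟩
  have hsub : Icc u v ⊆ Icc a b := Icc_subset_Icc hu.1 hv.2
  obtain ⟨c, hc, hc0⟩ := exists_hasDerivAt_eq_slope f f' h
    (fun t ht => ((hd t (hsub ht)).continuousWithinAt).mono hsub)
    (fun t ht => (hd t (hsub (Ioo_subset_Icc_self ht))).hasDerivAt
      (Icc_mem_nhds (lt_of_le_of_lt hu.1 ht.1) (lt_of_lt_of_le ht.2 hv.2)))
  refine ⟨c, by rw [uIcc_of_le h.le]; exact Ioo_subset_Icc_self hc, ?_⟩
  rw [← abs_mul, hc0, div_mul_cancel₀ _ (by linarith)]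

theorem triv {q r r0 : ℝ} (hq : 0 < q) (hr : 0 < r) (h : r ≤ r0) : 1 ≤ r0 ^ q * r ^ (-q) := by
  rw [Real.rpow_neg hr.le, ← div_eq_mul_inv, le_div_iff₀ (by positivity), one_mul]
  exact Real.rpow_le_rpow hr.le h hq.le

theorem sumlem {q q' C1 C2 : ℝ} (hqq : q < q') (hq' : 0 < q') (h1 : 0 < C1) (h2 : 0 < C2) :
    ∃ C, 0 < C ∧ ∀ (E : Set ℝ) (h G : ℝ → ℝ) (W : ℝ → Set ℝ) (r : ℝ), 0 < r →
    (∀ s, 0 < s → volume (W s) ≤ ENNReal.ofReal (C2 * s ^ (-q))) →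
    (∀ e ∈ E, 0 < h e ∧ h e ≤ 1 ∧ 0 < G e ∧ (∀ s, 0 < s → s ≤ G e → closedBall e (h e) ⊆ W s) ∧
      volume (E ∩ closedBall e (h e / 2)) ≤ ENNReal.ofReal (2 * h e * (C1 * (r / G e) ^ (-q')))) →
    volume E ≤ ENNReal.ofReal (C * r ^ (-q)) := by
  set θ : ℝ := (2 : ℝ) ^ (q - q') with hθ
  have hθ0 : 0 < θ := by positivity
  have hθ1 : θ < 1 := Real.rpow_lt_one_of_one_lt_of_neg (by norm_num) (by linarith)
  have hθ2 : 0 < (1 - θ)⁻¹ := inv_pos.2 (by linarith)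
  refine ⟨C2 + 20 * C1 * C2 * 2 ^ q * (1 - θ)⁻¹, by positivity, fun E h G W r hr hW hE => ?_⟩
  set Ej : ℕ → Set ℝ := fun j => {e ∈ E | r * (1 / 2) ^ (j + 1) ≤ G e ∧ G e ≤ r * (1 / 2) ^ j}
  have hcov : E ⊆ W r ∪ ⋃ j, Ej j := by
    intro e he
    obtain ⟨p1, -, p3, p4, -⟩ := hE e he
    by_cases hG : r ≤ G e
    · exact Or.inl (p4 r hr hG (mem_closedBall_self p1.le))
    · obtain ⟨j, j1, j2⟩ := exists_nat_pow_near_of_lt_one (x := G e / r) (y := 1 / 2) (by positivity)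
        ((div_le_one hr).2 (by linarith)) (by norm_num) (by norm_num)
      rw [lt_div_iff₀ hr] at j1
      rw [div_le_iff₀ hr] at j2
      exact Or.inr (mem_iUnion.2 ⟨j, he, by linarith, by linarith⟩)
  have hj : ∀ j, volume (Ej j) ≤ ENNReal.ofReal (20 * C1 * C2 * 2 ^ q * r ^ (-q) * θ ^ j) := by
    intro j
    have hv := vit (Ej j) (W (r * (1 / 2) ^ (j + 1))) id (fun e => h e / 10)
      (20 * C1 * ((2 : ℝ) ^ j) ^ (-q')) 1 (by positivity)
      (fun e he => by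
        obtain ⟨p1, p2, -⟩ := hE e he.1
        constructor <;> linarith)
      (fun e he => by
        obtain ⟨p1, -, -, p4, -⟩ := hE e he.1
        exact (closedBall_subset_closedBall (by linarith)).trans (p4 _ (by positivity) he.2.1))
      (fun b hb => by
        obtain ⟨p1, -, p3, -, p5⟩ := hE b hb.1
        refine (measure_mono ?_).trans (p5.trans (ENNReal.ofReal_le_ofReal ?_))
        · rintro e ⟨he, he'⟩
          refine ⟨he.1, ?_⟩
          have := he' (mem_closedBall_self (by linarith [(hE e he.1).1]))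
          rwa [show 5 * (h b / 10) = h b / 2 by ring] at this
        · have h3 : (2 : ℝ) ^ j ≤ r / G b := by
            rw [le_div_iff₀ p3]
            have := hb.2.2
            rw [one_div, inv_pow, ← div_eq_mul_inv, le_div_iff₀ (by positivity)] at this
            linarith
          have h4 := Real.rpow_le_rpow_of_nonpos (by positivity) h3 (show -q' ≤ 0 by linarith)
          have h5 : 0 ≤ h b * C1 := by positivity
          nlinarith)
    refine hv.trans ((mul_le_mul_right (hW _ (by positivity)) _).trans ?_)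
    rw [← ENNReal.ofReal_mul (by positivity)]
    refine ENNReal.ofReal_le_ofReal (le_of_eq ?_)
    have e1 : ((2 : ℝ) ^ j) ^ (-q') = ((2 : ℝ) ^ (-q')) ^ j := by
      rw [← Real.rpow_pow_comm (by norm_num)]
    have e2 : (r * (1 / 2) ^ (j + 1)) ^ (-q) = r ^ (-q) * ((2 : ℝ) ^ q) ^ (j + 1) := by
      rw [Real.mul_rpow hr.le (by positivity), ← Real.rpow_pow_comm (by norm_num), one_div,
        Real.inv_rpow (by norm_num), Real.rpow_neg (by norm_num : (0 : ℝ) ≤ 2), inv_inv]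
    have e3 : θ = (2 : ℝ) ^ q * (2 : ℝ) ^ (-q') := by
      rw [hθ, ← Real.rpow_add (by norm_num), sub_eq_add_neg]
    rw [e1, e2, e3, mul_pow]; ring
  refine (measure_mono hcov).trans ((measure_union_le _ _).trans ?_)
  refine (add_le_add (hW r hr) ((measure_iUnion_le _).trans (ENNReal.tsum_le_tsum hj))).trans ?_
  rw [← ENNReal.ofReal_tsum_of_nonneg (fun j => by positivity)
    ((summable_geometric_of_lt_one hθ0.le hθ1).mul_left _), tsum_mul_left,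
    tsum_geometric_of_lt_one hθ0.le hθ1, ← ENNReal.ofReal_add (by positivity) (by positivity)]
  exact ENNReal.ofReal_le_ofReal (le_of_eq (by ring))

noncomputable def Lf : Bool → ℂ →L[ℝ] ℝ
  | true => Complex.reCLM
  | false => Complex.imCLM

theorem Lf_norm (b : Bool) : ‖Lf b‖ = 1 := by
  cases b
  · exact Complex.imCLM_norm
  · exact Complex.reCLM_norm

theorem Lf_le (b : Bool) (z : ℂ) : |Lf b z| ≤ ‖z‖ := by
  have := (Lf b).le_opNorm z
  rwa [Lf_norm, one_mul] at this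

theorem Lf_ge (z : ℂ) : ∃ b, ‖z‖ ≤ 2 * |Lf b z| := by
  have := Complex.norm_le_abs_re_add_abs_im z
  rcases le_total |z.re| |z.im| with h | h
  · exact ⟨false, by simp only [Lf, Complex.imCLM_apply]; linarith⟩
  · exact ⟨true, by simp only [Lf, Complex.reCLM_apply]; linarith⟩

theorem acc {a b t0 B : ℝ} {k : ℕ} (hB : 0 ≤ B) {Z : Set ℝ} (hZ : 𝓝[Z ∩ Ioi t0] t0 ≠ ⊥) {g : ℝ → ℂ}
    (hg : Top (Icc a b) k B g) (h0 : ∀ t ∈ Z, g t = 0) {d : ℝ} (hd : 0 < d)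
    (hsub : Icc (t0 - d) (t0 + d) ⊆ Icc a b) :
    ∀ s ∈ Icc (t0 - d) (t0 + d), ‖g s‖ ≤ 2 * (B * (2 * d) ^ (k + 1)) := by
  intro s hs
  have hinf : (Z ∩ Ioo t0 (t0 + d)).Infinite := by
    intro hf
    apply hZ
    rw [← empty_mem_iff_bot]
    have h1 : (Z ∩ Ioo t0 (t0 + d))ᶜ ∈ 𝓝 t0 :=
      hf.isClosed.isOpen_compl.mem_nhds fun h => lt_irrefl _ h.2.1
    filter_upwards [mem_nhdsWithin_of_mem_nhds h1, self_mem_nhdsWithin,
      mem_nhdsWithin_of_mem_nhds (Iio_mem_nhds (show t0 < t0 + d by linarith))] with u u1 u2 u3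
    exact u1 ⟨u2.1, u2.2, u3⟩
  obtain ⟨β, hβ⟩ := Lf_ge (g s)
  have := zc (by rw [Lf_norm, one_mul]; exact hB) ((hg.subset hsub).clm (Lf β))
    (zs_of_infinite _ (hinf.mono fun u hu =>
      ⟨⟨by linarith [hu.2.1], hu.2.2.le⟩, by simp [h0 u hu.1]⟩)) s hs
  rw [Lf_norm, one_mul, show t0 + d - (t0 - d) = 2 * d by ring] at this
  linarith

end Pool.Agent.H56.Wk5
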