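import Pool.Agent.H56.Wk5

namespace Pool.Agent.H56.Wk6

open Set Filter Topology Polynomial MeasureTheory Metric Pool.Agent.H56.Wk1 Pool.Agent.H56.Wk2
  Pool.Agent.H56.Wk3 Pool.Agent.H56.Wk4 Pool.Agent.H56.Wk5

def Hyp (K n k : ℕ) (M c ρ a δ : ℝ) (F : ℝ → ℂ[X]) (V : ℝ → ℂ) : Prop :=
  (∀ t, (F t).natDegree ≤ n) ∧ (∀ i, Cls (Icc a (a + δ)) K M (fun t => (F t).coeff i)) ∧
    ContinuousOn V (Icc a (a + δ)) ∧ ∀ t ∈ Icc a (a + δ), (F t).coeff (k + 1) = 0 ∧
      c ≤ ‖(F t).coeff (k + 2)‖ ∧ (F t).eval (V t) = 0 ∧ ‖V t‖ ≤ ρ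

theorem loc {K n k : ℕ} {q' : ℝ} (hk : k + 1 ≤ K) (hS : Sc K n (k + 1) q') (hq' : 0 < q') {M c : ℝ}
    (hM : 1 ≤ M) (hc : 0 < c) : ∃ ρ C1, 0 < ρ ∧ 0 < C1 ∧ ∀ (δ a : ℝ) (F : ℝ → ℂ[X]) (V : ℝ → ℂ),
    0 < δ → δ ≤ 1 → Hyp K n k M c ρ a δ F V → ∀ t0 ∈ Icc a (a + δ), (∃ i < k + 2, (F t0).coeff i ≠ 0) →
    ∃ h D, 0 < h ∧ h ≤ 1 ∧ 0 < D ∧ D ≤ M ∧
      (∀ r, 0 < r → volume (Bad V r ∩ Ioo a (a + δ) ∩ closedBall t0 (h / 2)) ≤
        ENNReal.ofReal (2 * h * (C1 * (r / (D / h)) ^ (-q')))) ∧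
      (∀ t ∈ Icc a (a + δ), |t - t0| ≤ h → ∀ i < k + 2, ‖(F t).coeff i‖ ≤ 2 * D ^ (k + 2 - i)) ∧
      (h = δ / (2 * M) * D ∨ ∃ t1 ∈ Icc a (a + δ), |t1 - t0| ≤ h ∧ ∃ i < k + 2,
        D ^ (k + 2 - i) ≤ 2 * (k + 2) * ‖(F t1).coeff i - (F t0).coeff i‖) := by
  obtain ⟨ρB, ΛB, hρB, -, hΛB, hB⟩ := rootB n (k + 2) (M := M) (by linarith) hc
  obtain ⟨ρA, ΛA, hρA, hΛA, hA⟩ := rootA n k hM hc
  have hMp : 1 ≤ M ^ (n + K + 2) := one_le_pow₀ hM
  obtain ⟨C1, hC1, hS⟩ := hS (2 + 2 * ΛB + M ^ (n + K + 2)) ((1 / (4 * ΛA)) ^ (k + 2))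
    (by linarith) (by positivity)
  refine ⟨min ρA ρB, C1, by positivity, hC1,
    fun δ a F V hδ hδ1 ⟨hF, hcl, hV, hy⟩ t0 ht0 ⟨i0, hi0, hi0'⟩ => ?_⟩
  obtain ⟨D, hD, hD1, j, hj, hD2⟩ := exD (k + 2) (fun i => ‖(F t0).coeff i‖) (fun _ => norm_nonneg _)
    ⟨i0, hi0, norm_ne_zero_iff.2 hi0'⟩
  have hDM : D ≤ M := by
    by_contra h
    push Not at h
    have := le_self_pow₀ (hM.trans h.le) (show k + 2 - j ≠ 0 by omega)
    have := (hcl j).bd t0 ht0
    linarith
  obtain ⟨h, hh, hh1, hh2, hh3⟩ := stop (a := a) (b := a + δ) (t0 := t0) (η := δ / (2 * M) * D)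
    (φ := fun t => ∑ i ∈ Finset.range (k + 2), ‖(F t).coeff i - (F t0).coeff i‖ / D ^ (k + 2 - i))
    (continuousOn_finsetSum _ fun i _ =>
      (((hcl i).top.cont.sub continuousOn_const).norm).div_const _) ht0 (by simp) (by positivity)
  have hγ : δ / (2 * M) * D ≤ δ / 2 := by
    rw [div_mul_eq_mul_div, div_le_div_iff₀ (by positivity) (by positivity)]; nlinarith
  have hγ2 : δ / (2 * M) * D ≤ D / 2 := by
    rw [div_mul_eq_mul_div, div_le_div_iff₀ (by positivity) (by positivity)]; nlinarith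
  have hosc : ∀ t ∈ Icc a (a + δ), |t - t0| ≤ h → ∀ i < k + 2,
      ‖(F t).coeff i - (F t0).coeff i‖ ≤ D ^ (k + 2 - i) / 2 := fun t ht h1 i hi => by
    have := (Finset.single_le_sum (f := fun i => ‖(F t).coeff i - (F t0).coeff i‖ / D ^ (k + 2 - i))
      (fun i _ => by positivity) (Finset.mem_range.2 hi)).trans (hh2 t ht h1)
    rw [div_le_iff₀ (by positivity)] at this
    linarith
  have hup : ∀ t ∈ Icc a (a + δ), |t - t0| ≤ h → ∀ i < k + 2,
      ‖(F t).coeff i‖ ≤ 2 * D ^ (k + 2 - i) := fun t ht h1 i hi => by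
    have := norm_le_insert' ((F t).coeff i) ((F t0).coeff i)
    have := hosc t ht h1 i hi
    have := hD1 i hi
    have : 0 < D ^ (k + 2 - i) := by positivity
    linarith
  refine ⟨h, D, hh, by linarith, hD, hDM, fun r hr => ?_, hup, ?_⟩
  · set a' := max a (t0 - h) with ha'
    set L := min (a + δ) (t0 + h) - a' with hL
    have hL1 : h ≤ L := by
      rw [hL, le_sub_iff_add_le, le_min_iff, ha']
      rcases le_total a (t0 - h) with h1 | h1
      · rw [max_eq_right h1]; constructor <;> linarith [ht0.2]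
      · rw [max_eq_left h1]; constructor <;> linarith [ht0.1]
    have hL2 : L ≤ 2 * h := by
      linarith [le_max_right a (t0 - h), min_le_right (a + δ) (t0 + h)]
    have hL0 : 0 < L := by linarith
    have hLD : L ≤ D := by linarith
    have e : a' + L = min (a + δ) (t0 + h) := by rw [hL]; ring
    have hsub : Icc a' (a' + L) ⊆ Icc a (a + δ) := by
      rw [e]; exact Icc_subset_Icc (le_max_left _ _) (min_le_left _ _)
    have hnear : ∀ t ∈ Icc a' (a' + L), |t - t0| ≤ h := fun t ht => by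
      rw [e] at ht
      rw [abs_le]
      constructor <;> linarith [ht.1, ht.2, le_max_right a (t0 - h), min_le_right (a + δ) (t0 + h)]
    have hE : 0 < D ^ (k + 2) := by positivity
    have hpw : ∀ l, k + 2 ≤ l → l ≤ n + K + 1 → M * D ^ l ≤ M ^ (n + K + 2) * D ^ (k + 2) := by
      intro l h1 h2
      obtain ⟨u, rfl⟩ := Nat.exists_eq_add_of_le h1
      have : D ^ u ≤ M ^ (n + K + 1) :=
        (pow_le_pow_left₀ hD.le hDM u).trans (pow_le_pow_right₀ hM (by omega))
      calc M * D ^ (k + 2 + u) = M * D ^ u * D ^ (k + 2) := by ring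
        _ ≤ M * M ^ (n + K + 1) * D ^ (k + 2) := by gcongr
        _ = _ := by ring
    have hz : ∀ i, n < i → ∀ t, (F t).coeff i = 0 := fun i hi t =>
      coeff_eq_zero_of_natDegree_lt (lt_of_le_of_lt (hF t) hi)
    have key := hS a' L D (D ^ (k + 2)) F V hL0 hD hE hF
      (fun i t ht => by
        by_cases hi : i < k + 2
        · have := hup t (hsub ht) (hnear t ht) i hi
          have e2 : D ^ (k + 2 - i) * D ^ i = D ^ (k + 2) := by rw [← pow_add]; congr 1; omega
          have : ‖(F t).coeff i‖ * D ^ i ≤ 2 * D ^ (k + 2 - i) * D ^ i := by gcongr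
          nlinarith
        · by_cases hi2 : i ≤ n
          · have := hpw i (by omega) (by omega)
            have : ‖(F t).coeff i‖ * D ^ i ≤ M * D ^ i := by gcongr; exact (hcl i).bd t (hsub ht)
            nlinarith
          · rw [hz i (by omega), norm_zero, zero_mul]; positivity)
      (fun i => by
        by_cases hi2 : i ≤ n
        · refine ⟨M, (hcl i).top.subset hsub, ?_⟩
          have t1 := hpw (i + (K + 1)) (by omega) (by omega)
          have : M * D ^ i * L ^ (K + 1) ≤ M * D ^ i * D ^ (K + 1) := by gcongr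
          rw [pow_add D i] at t1
          nlinarith
        · refine ⟨‖(0 : ℂ)‖, ((cls_const _ K (0 : ℂ)).congr fun t _ => hz i (by omega) t).top, ?_⟩
          rw [norm_zero, zero_mul, zero_mul]; positivity)
      (hV.mono hsub)
      (fun t ht => by
        obtain ⟨p1, p2, p3, p4⟩ := hy t (hsub ht)
        refine ⟨p3, ?_, ?_⟩
        · have := hB (F t) (V t) (2 * D) (hF t) (fun i _ => (hcl i).bd t (hsub ht)) p2 p3
            (p4.trans (min_le_right _ _)) (by positivity) fun i hi =>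
              (hup t (hsub ht) (hnear t ht) i hi).trans (by
                rw [mul_pow]; gcongr; exact le_self_pow₀ (by norm_num) (by omega))
          nlinarith
        · by_contra hcon
          push Not at hcon
          have h4 : 1 / (4 * ΛA) ≤ 1 := by rw [div_le_one (by positivity)]; linarith
          have := hA (F t) (V t) (1 / (4 * ΛA) * D) (hF t) (fun i => (hcl i).bd t (hsub ht)) p2 p1 p3
            (p4.trans (min_le_left _ _)) (by positivity) (fun i i1 i2 => by
              have h1 := hcon i i1 (by omega)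
              have e2 : D ^ (k + 2) = D ^ (k + 2 - i) * D ^ i := by rw [← pow_add]; congr 1; omega
              rw [e2, ← mul_assoc] at h1
              refine (lt_of_mul_lt_mul_right h1 (by positivity)).le.trans ?_
              rw [mul_pow]
              exact mul_le_mul_of_nonneg_right (pow_le_pow_of_le_one (by positivity) h4 (by omega))
                (by positivity)) j hj
          have e3 : ΛA * (1 / (4 * ΛA) * D) = (1 / 4) * D := by field_simp
          rw [e3, mul_pow] at this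
          have h5 : (1 / 4 : ℝ) ^ (k + 2 - j) ≤ 1 / 4 :=
            pow_le_of_le_one (by norm_num) (by norm_num) (by omega)
          have h6 := hosc t (hsub ht) (hnear t ht) j hj
          have h7 := norm_le_insert ((F t).coeff j) ((F t0).coeff j)
          have h8 : 0 < D ^ (k + 2 - j) := by positivity
          nlinarith)
      r hr
    refine (measure_mono ?_).trans (key.trans (ENNReal.ofReal_le_ofReal ?_))
    · rintro t ⟨⟨p1, p2⟩, p3⟩
      rw [mem_closedBall, Real.dist_eq, abs_le] at p3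
      refine ⟨p1, max_lt p2.1 (by linarith), ?_⟩
      rw [e]
      exact lt_min p2.2 (by linarith)
    · have h1 : r / (D / h) ≤ L * r / D := by
        rw [div_div_eq_mul_div, mul_comm]; gcongr
      have h2 := Real.rpow_le_rpow_of_nonpos (by positivity) h1 (show -q' ≤ 0 by linarith)
      gcongr
  · rcases hh3 with h1 | ⟨t1, p1, p2, p3⟩
    · exact Or.inl h1
    · refine Or.inr ⟨t1, p1, p2, ?_⟩
      by_contra hcon
      push Not at hcon
      have := Finset.sum_lt_sum_of_nonempty (s := Finset.range (k + 2))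
        (f := fun i => ‖(F t1).coeff i - (F t0).coeff i‖ / D ^ (k + 2 - i))
        (g := fun _ => 1 / (2 * (k + 2 : ℝ))) ⟨0, by simp⟩ fun i hi => by
          rw [div_lt_div_iff₀ (by positivity) (by positivity)]
          have := hcon i (Finset.mem_range.1 hi)
          linarith
      rw [Finset.sum_const, Finset.card_range, nsmul_eq_mul] at this
      have e : ((k + 2 : ℕ) : ℝ) * (1 / (2 * (k + 2 : ℝ))) = 1 / 2 := by push_cast; field_simp
      linarith

theorem core {K n k : ℕ} {q q' : ℝ} (hk : k + 1 ≤ K) (hS : Sc K n (k + 1) q') (hq : 0 < q)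
    (hqq : q < q') (hq1 : q * (k + 1) ≤ k + 2) {M c : ℝ} (hM : 1 ≤ M) (hc : 0 < c) :
    ∃ ρ, 0 < ρ ∧ ∀ δ, 0 < δ → δ ≤ 1 → ∃ C, 0 < C ∧ ∀ (a : ℝ) (F : ℝ → ℂ[X]) (V : ℝ → ℂ),
    Hyp K n k M c ρ a δ F V → ∀ r, 0 < r →
      volume (Bad V r ∩ Ioo a (a + δ)) ≤ ENNReal.ofReal (C * r ^ (-q)) := by
  obtain ⟨ρB, ΛB, hρB, -, hΛB, hB⟩ := rootB n (k + 2) (M := M) (by linarith) hc
  obtain ⟨ρ, C1, hρ, hC1, hloc⟩ := loc hk hS (by linarith) hM hc
  obtain ⟨Cg, hCg, hgg⟩ := gg k (B := M) (Λ := 8 * (k + 2)) hM (by positivity)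
  refine ⟨min ρ ρB, by positivity, fun δ hδ hδ1 => ?_⟩
  set s0 := 2 * M / δ with hs0
  set c2 : ℝ := 1 / (4 * (k + 2) * M ^ (k + 2)) with hc2
  set r0 := ΛB * (2 * M * 2 ^ (k + 2)) with hr0
  have hs01 : 1 ≤ s0 := by rw [hs0, le_div_iff₀ hδ]; linarith
  have hc20 : 0 < c2 := by positivity
  have hc21 : c2 ≤ 1 := by
    rw [hc2, div_le_one (by positivity)]
    have : 1 ≤ M ^ (k + 2) := one_le_pow₀ hM
    have : (0 : ℝ) ≤ k := Nat.cast_nonneg k
    nlinarith
  obtain ⟨C, hC, hsum⟩ := sumlem (q := q) (q' := q') (C1 := C1)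
    (C2 := 3 * s0 ^ q + 2 * (k + 2) * Cg / c2) hqq (by linarith) hC1 (by positivity)
  refine ⟨C + r0 ^ q, by positivity, fun a F V ⟨hF, hcl, hV, hy⟩ r hr => ?_⟩
  have hrq : 0 < r ^ (-q) := by positivity
  by_cases hr1 : r ≤ r0
  · refine (measure_mono inter_subset_right).trans ?_
    rw [Real.volume_Ioo]
    refine ENNReal.ofReal_le_ofReal ?_
    have := triv hq hr hr1
    nlinarith
  push Not at hr1
  set Z := {t | ∀ i < k + 2, (F t).coeff i = 0} with hZ
  have hloc' := hloc δ a F V hδ hδ1 ⟨hF, hcl, hV, fun t ht =>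
    ⟨(hy t ht).1, (hy t ht).2.1, (hy t ht).2.2.1, (hy t ht).2.2.2.trans (min_le_left _ _)⟩⟩
  set E := (Bad V r ∩ Ioo a (a + δ)) \ Z with hE
  have hex : ∀ t0, ∃ h D : ℝ, t0 ∈ E → 0 < h ∧ h ≤ 1 ∧ 0 < D ∧ D ≤ M ∧
      (∀ r, 0 < r → volume (Bad V r ∩ Ioo a (a + δ) ∩ closedBall t0 (h / 2)) ≤
        ENNReal.ofReal (2 * h * (C1 * (r / (D / h)) ^ (-q')))) ∧
      (∀ t ∈ Icc a (a + δ), |t - t0| ≤ h → ∀ i < k + 2, ‖(F t).coeff i‖ ≤ 2 * D ^ (k + 2 - i)) ∧
      (h = δ / (2 * M) * D ∨ ∃ t1 ∈ Icc a (a + δ), |t1 - t0| ≤ h ∧ ∃ i < k + 2,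
        D ^ (k + 2 - i) ≤ 2 * (k + 2) * ‖(F t1).coeff i - (F t0).coeff i‖) := by
    intro t0
    by_cases ht : t0 ∈ E
    · obtain ⟨h, D, hp⟩ := hloc' t0 (Ioo_subset_Icc_self ht.1.2) (by
        have := ht.2
        simp only [hZ, mem_ofPred_eq] at this
        push Not at this
        exact this)
      exact ⟨h, D, fun _ => hp⟩
    · exact ⟨0, 0, fun h => absurd h ht⟩
  choose h D hp using hex
  choose F' hF1 hF2 using fun i => ((hcl i).le hk).2
  set W : ℝ → Set ℝ := fun s => if s ≤ s0 then Icc (a - 1) (a + δ + 1) else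
    ⋃ p ∈ Finset.range (k + 2) ×ˢ (Finset.univ : Finset Bool), UU a (a + δ)
      (fun t => Lf p.2 ((F t).coeff p.1)) (fun t => Lf p.2 (F' p.1 t)) k (8 * (k + 2)) (c2 * s ^ q)
    with hW
  have hLd : ∀ i β, ∀ t ∈ Icc a (a + δ), HasDerivWithinAt (fun t => Lf β ((F t).coeff i))
      (Lf β (F' i t)) (Icc a (a + δ)) t := fun i β t ht =>
    (Lf β).hasFDerivAt.comp_hasDerivWithinAt t (hF1 i t ht)
  have hE1 := hsum E h (fun t => D t / h t) W r hr
    (fun s hs => by
      have hsq : 0 < s ^ (-q) := by positivity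
      have hpos : 0 ≤ 2 * (k + 2) * Cg / c2 := by positivity
      by_cases h1 : s ≤ s0
      · simp only [hW, if_pos h1, Real.volume_Icc]
        refine ENNReal.ofReal_le_ofReal ?_
        have := triv hq hs h1
        nlinarith
      · simp only [hW, if_neg h1]
        refine (measure_biUnion_finset_le _ _).trans ((Finset.sum_le_card_nsmul _ _
          (ENNReal.ofReal (Cg / (c2 * s ^ q))) fun p _ => ?_).trans ?_)
        · refine hgg a (a + δ) _ _ _ (by linarith) (by linarith) (by positivity) (hLd p.1 p.2) ?_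
            fun t ht => (Lf_le _ _).trans ((hF2 p.1).bd t ht)
          have := (hF2 p.1).top.clm (Lf p.2)
          rwa [Lf_norm, one_mul] at this
        · rw [Finset.card_product, Finset.card_range, Finset.card_univ, Fintype.card_bool,
            nsmul_eq_mul, ← ENNReal.ofReal_natCast, ← ENNReal.ofReal_mul (Nat.cast_nonneg _)]
          refine ENNReal.ofReal_le_ofReal ?_
          have e : (((k + 2) * 2 : ℕ) : ℝ) * (Cg / (c2 * s ^ q)) = 2 * (k + 2) * Cg / c2 * s ^ (-q) := by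
            rw [Real.rpow_neg hs.le]; push_cast; field_simp
          rw [e]
          have : 0 ≤ 3 * s0 ^ q * s ^ (-q) := by positivity
          linarith)
    (fun e he => by
      obtain ⟨p1, p2, p3, p4, p5, p6, p7⟩ := hp e he
      have heI : e ∈ Icc a (a + δ) := Ioo_subset_Icc_self he.1.2
      refine ⟨p1, p2, by positivity, fun s hs hsG y hy => ?_,
        (measure_mono (inter_subset_inter_left _ sdiff_subset)).trans (p5 r hr)⟩
      rw [mem_closedBall, Real.dist_eq] at hy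
      rw [le_div_iff₀ p1] at hsG
      by_cases h1 : s ≤ s0
      · simp only [hW, if_pos h1]
        rw [abs_le] at hy
        constructor <;> linarith [heI.1, heI.2]
      simp only [hW, if_neg h1]
      push Not at h1
      rcases p7 with p7 | ⟨t1, t11, t12, i, hi, t13⟩
      · exfalso
        have : s0 * h e = D e := by rw [p7, hs0]; field_simp
        nlinarith
      obtain ⟨β, hβ⟩ := Lf_ge ((F t1).coeff i - (F e).coeff i)
      obtain ⟨ξ, x1, x2⟩ := mvt2 (hLd i β) heI t11
      rw [map_sub, x2] at hβ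
      have x3 : ξ ∈ Icc a (a + δ) := uIcc_subset_Icc heI t11 x1
      have x4 : |ξ - e| ≤ h e := (abs_sub_left_of_mem_uIcc x1).trans t12
      set N := |Lf β (F' i ξ)| with hN
      have hN0 : 0 ≤ N := abs_nonneg _
      have hk0 : (0 : ℝ) < k + 2 := by positivity
      have x5 : D e ^ (k + 2 - i) ≤ 4 * (k + 2) * (h e * N) := by
        have : N * |t1 - e| ≤ N * h e := by gcongr
        nlinarith
      refine mem_biUnion (x := (i, β)) (by simpa using hi) ⟨ξ, x3, h e, p1, p2, ?_, ?_, ?_⟩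
      · rw [abs_le] at *; constructor <;> linarith [hy.1, hy.2, x4.1, x4.2]
      · have := (Lf_le β _).trans (p6 ξ x3 x4 i hi)
        simp only [← hN]
        linarith
      · simp only [← hN]
        have y1 : (s ^ q) ^ (k + 1) ≤ s ^ (k + 2) := by
          rw [← Real.rpow_natCast, ← Real.rpow_mul hs.le, ← Real.rpow_natCast]
          refine Real.rpow_le_rpow_of_exponent_le (by linarith) ?_
          push_cast; linarith
        have y2 : c2 ^ (k + 1) ≤ c2 := pow_le_of_le_one hc20.le hc21 (by omega)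
        have y3 : (s * h e) ^ (k + 2) ≤ D e ^ (k + 2 - i) * M ^ (k + 2) := by
          refine (pow_le_pow_left₀ (by positivity) hsG _).trans ?_
          have e2 : D e ^ (k + 2) = D e ^ (k + 2 - i) * D e ^ i := by rw [← pow_add]; congr 1; omega
          rw [e2]
          gcongr
          exact (pow_le_pow_left₀ p3.le p4 i).trans (pow_le_pow_right₀ hM (by omega))
        have y4 : (s * h e) ^ (k + 2) ≤ 4 * (k + 2) * (h e * N) * M ^ (k + 2) := y3.trans (by gcongr)
        have y5 : c2 * (s * h e) ^ (k + 2) ≤ h e * N := by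
          rw [hc2, one_div, inv_mul_le_iff₀ (by positivity)]; linarith
        refine le_of_mul_le_mul_left ?_ p1
        calc h e * (c2 * s ^ q * h e) ^ (k + 1) = c2 ^ (k + 1) * (s ^ q) ^ (k + 1) * h e ^ (k + 2) := by
              ring
          _ ≤ c2 * s ^ (k + 2) * h e ^ (k + 2) := by gcongr
          _ = c2 * (s * h e) ^ (k + 2) := by ring
          _ ≤ _ := y5)
  have hcov : Bad V r ∩ Ioo a (a + δ) ⊆ E ∪ {x ∈ Z | 𝓝[Z ∩ Ioi x] x = ⊥} := by
    intro t ht
    by_cases h1 : t ∈ Z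
    swap
    · exact Or.inl ⟨ht, h1⟩
    refine Or.inr ⟨h1, ?_⟩
    by_contra h2
    apply ht.1
    have htI : t ∈ Icc a (a + δ) := Ioo_subset_Icc_self ht.2
    have hV0 : V t = 0 := by
      have := hB (F t) (V t) 0 (hF t) (fun i _ => (hcl i).bd t htI) (hy t htI).2.1 (hy t htI).2.2.1
        ((hy t htI).2.2.2.trans (min_le_right _ _)) le_rfl fun i hi => by
          rw [h1 i hi, norm_zero]; positivity
      simpa using this
    have hη : 0 < min (t - a) (a + δ - t) := lt_min (by linarith [ht.2.1]) (by linarith [ht.2.2])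
    filter_upwards [closedBall_mem_nhds t hη] with s hs
    rw [mem_closedBall, Real.dist_eq] at hs
    rcases eq_or_ne s t with rfl | hst
    · simp
    have hd : 0 < |s - t| := abs_pos.2 (sub_ne_zero.2 hst)
    set d := |s - t| with hdd
    have hd1 := hs.trans (min_le_left _ _)
    have hd2 := hs.trans (min_le_right _ _)
    have hsub : Icc (t - d) (t + d) ⊆ Icc a (a + δ) := Icc_subset_Icc (by linarith) (by linarith)
    have hs' : s ∈ Icc (t - d) (t + d) :=
      ⟨by linarith [neg_abs_le (s - t)], by linarith [le_abs_self (s - t)]⟩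
    have hsI := hsub hs'
    have := hB (F s) (V s) (2 * M * 2 ^ (k + 2) * d) (hF s) (fun i _ => (hcl i).bd s hsI)
      (hy s hsI).2.1 (hy s hsI).2.2.1 ((hy s hsI).2.2.2.trans (min_le_right _ _)) (by positivity)
      fun i hi => by
        refine (acc (by linarith) h2 ((hcl i).le hk).top (fun u hu => hu i hi) hd hsub s hs').trans ?_
        have h3 : 1 ≤ 2 * M * 2 ^ (k + 2) := by
          have : (1 : ℝ) ≤ 2 ^ (k + 2) := one_le_pow₀ (by norm_num)
          nlinarith
        rw [mul_pow (2 * M * 2 ^ (k + 2))]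
        calc 2 * (M * (2 * d) ^ (k + 1 + 1)) = 2 * M * 2 ^ (k + 2) * d ^ (k + 2) := by ring
          _ ≤ _ := mul_le_mul (le_self_pow₀ h3 (by omega))
            (pow_le_pow_of_le_one hd.le (by linarith) (by omega)) (by positivity) (by positivity)
    rw [hV0, sub_zero]
    nlinarith
  refine (measure_mono hcov).trans ((measure_union_le _ _).trans ?_)
  rw [countable_setOfPred_isolated_right_within.measure_zero, add_zero]
  refine hE1.trans (ENNReal.ofReal_le_ofReal ?_)
  have : 0 ≤ r0 ^ q * r ^ (-q) := by positivity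
  linarith

end Pool.Agent.H56.Wk6
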