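import Pool.Agent.H56.Wk6

namespace Pool.Agent.H56.Wk7

open Set Filter Topology Polynomial MeasureTheory Metric Pool.Agent.H56.Wk1 Pool.Agent.H56.Wk2
  Pool.Agent.H56.Wk3 Pool.Agent.H56.Wk4 Pool.Agent.H56.Wk5 Pool.Agent.H56.Wk6

theorem pieces {a δ x : ℝ} (hx : 0 ≤ x) (S : Set ℝ) (N : ℕ)
    (h : ∀ j < N, volume (S ∩ Ioo (a + j * δ) (a + j * δ + δ)) ≤ ENNReal.ofReal x) :
    volume (S ∩ Ioo a (a + N * δ)) ≤ ENNReal.ofReal (N * x) := by
  induction N with
  | zero => simp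
  | succ N ih =>
    have h1 : S ∩ Ioo a (a + (N + 1 : ℕ) * δ) ⊆ (S ∩ Ioo a (a + N * δ)) ∪
        ((S ∩ Ioo (a + N * δ) (a + N * δ + δ)) ∪ {a + N * δ}) := by
      rintro t ⟨h1, h2, h3⟩
      push_cast at h3
      rcases lt_trichotomy t (a + N * δ) with h | h | h
      · exact Or.inl ⟨h1, h2, h⟩
      · exact Or.inr (Or.inr h)
      · exact Or.inr (Or.inl ⟨h1, h, by linarith⟩)
    refine (measure_mono h1).trans ((measure_union_le _ _).trans ((add_le_add
      (ih fun j hj => h j (by omega)) ((measure_union_le _ _).trans (add_le_add (h N (by omega))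
        Real.volume_singleton.le))).trans (le_of_eq ?_)))
    rw [add_zero, ← ENNReal.ofReal_add (by positivity) hx]
    push_cast; ring_nf

theorem vol01 (S : Set ℝ) {q r r0 C : ℝ} (hq : 0 < q) (hr : 0 < r) (h : r ≤ r0) (hC : r0 ^ q ≤ C) :
    volume (S ∩ Ioo 0 1) ≤ ENNReal.ofReal (C * r ^ (-q)) := by
  refine (measure_mono inter_subset_right).trans ?_
  rw [Real.volume_Ioo]
  refine ENNReal.ofReal_le_ofReal ?_
  have := triv hq hr h
  have : r0 ^ q * r ^ (-q) ≤ C * r ^ (-q) := by gcongr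
  linarith

theorem base (K n : ℕ) {q : ℝ} (hq : 0 < q) : S01 K n 1 q := by
  intro M c hM hc
  obtain ⟨ρ, Λ, hρ, hΛ, hsr⟩ := sr n hM hc
  refine ⟨(Λ * M) ^ q, by positivity, fun P l hP hcl hl hy r hr => ?_⟩
  by_cases h : r ≤ Λ * M
  · exact vol01 _ hq hr h le_rfl
  have : Bad l r ∩ Ioo 0 1 = ∅ := by
    refine eq_empty_of_forall_notMem fun t ⟨h1, h2⟩ => h1 ?_
    have hn : Icc (0 : ℝ) 1 ∈ 𝓝 t := Icc_mem_nhds h2.1 h2.2
    have ht := Ioo_subset_Icc_self h2
    filter_upwards [hn, (hl.continuousAt hn).eventually (closedBall_mem_nhds _ hρ)] with s hs hs'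
    obtain ⟨p1, p2, i, i1, i2, p3⟩ := hy t ht
    obtain rfl : i = 1 := by omega
    have := hsr (P t) (P s) (l t) (l s) (M * |s - t|) (hP t) (hP s) (fun i => (hcl i).bd t ht)
      (fun i => by rw [abs_sub_comm]; exact (hcl i).lip t ht s hs) p1 (hy s hs).1 p2 (hy s hs).2.1 p3
      (by rwa [← dist_eq_norm])
    nlinarith [abs_nonneg (s - t)]
  rw [this]; simp

theorem tay_hasse (p : ℂ[X]) (z : ℂ) (j : ℕ) :
    ‖(taylor z p).coeff (j + 1)‖ ≤ ‖(taylor z (hasseDeriv j p)).coeff 1‖ := by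
  have := LinearMap.congr_fun (hasseDeriv_comp (R := ℂ) 1 j) p
  rw [LinearMap.comp_apply] at this
  rw [taylor_coeff, taylor_coeff, this, add_comm 1 j, Nat.choose_one_right, LinearMap.smul_apply,
    nsmul_eq_mul, eval_mul, eval_natCast, norm_mul, Complex.norm_natCast]
  refine le_mul_of_one_le_left (norm_nonneg _) ?_
  exact_mod_cast (by omega)

theorem step {K n k : ℕ} {q q' : ℝ} (hk : k ≤ K) (hS : S01 (K + 1) n (k + 1) q') (hq : 0 < q)
    (hqq : q < q') (hq1 : q * (k + 1) ≤ k + 2) : S01 (K + 1) n (k + 2) q := by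
  intro M c hM hc
  have hS := sc_of hS
  set M1 : ℝ := 2 ^ (K + 1 + 1) * 2 ^ n * M + (M + 1) with hM1
  have hM10 : 0 ≤ 2 ^ (K + 1 + 1) * 2 ^ n * M := by positivity
  obtain ⟨ρc, hρc, hcen⟩ := centre K n (M := M1) (c := c / 2) (by linarith) (by positivity)
  obtain ⟨M2, hM2, hcen⟩ := hcen (K + 1) le_rfl
  obtain ⟨M3, hM3, htay⟩ := cls_taylor (K + 1) n (M := M2) (by linarith)
  obtain ⟨ρ0, hρ0, hcore⟩ := core (M := M3) (c := c / 2) (Nat.succ_le_succ hk) hS hq hqq hq1
    (by linarith) (by positivity)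
  obtain ⟨ρ1, hρ1, ht1⟩ := tay_cont n (M := M + 1) (ε := c / 2) (by linarith) (by positivity)
  obtain ⟨ρ, hρ, r1, r2, r3, r4⟩ : ∃ ρ, 0 < ρ ∧ ρ ≤ ρ0 ∧ ρ ≤ 1 ∧ ρ ≤ ρc / 4 ∧ ρ ≤ ρ1 / 2 :=
    ⟨min (min ρ0 1) (min (ρc / 4) (ρ1 / 2)), by positivity,
      (min_le_left _ _).trans (min_le_left _ _), (min_le_left _ _).trans (min_le_right _ _),
      (min_le_right _ _).trans (min_le_left _ _), (min_le_right _ _).trans (min_le_right _ _)⟩
  set c1 : ℝ := c * ρ / (4 * 2 ^ n) with hc1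
  have hc10 : 0 < c1 := by positivity
  have hc1c : c1 ≤ c := by
    rw [hc1, div_le_iff₀ (by positivity)]
    have : (1 : ℝ) ≤ 2 ^ n := one_le_pow₀ (by norm_num)
    nlinarith
  obtain ⟨ρ2, hρ2, ht2⟩ := tay_cont n (M := M + 1) (ε := c1 / 2) (by linarith) (by positivity)
  obtain ⟨δm, hδm, hmod⟩ := modulus n (ρ := min ρ ρ2) hM hc (by positivity)
  obtain ⟨N, hN⟩ := exists_nat_one_div_lt (show 0 < min δm (min ρ1 ρ2 / M) by positivity)
  set δ : ℝ := 1 / (N + 1) with hδ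
  have hδ0 : 0 < δ := by positivity
  have hδN : ((N + 1 : ℕ) : ℝ) * δ = 1 := by rw [hδ]; push_cast; field_simp
  have hδ1 : δ ≤ 1 := by
    rw [hδ, div_le_one (by positivity)]; linarith [Nat.cast_nonneg (α := ℝ) N]
  have d1 : δ ≤ δm := hN.le.trans (min_le_left _ _)
  have d2 : δ * M ≤ min ρ1 ρ2 := (le_div_iff₀ (by linarith)).1 (hN.le.trans (min_le_right _ _))
  obtain ⟨Cc, hCc, hcore⟩ := hcore δ hδ0 hδ1
  obtain ⟨C1, hC1, hS⟩ := hS M (c1 / 2) hM (by positivity)
  set Cp := C1 * δ ^ (-q') + Cc * 2 ^ q with hCp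
  have hCp0 : 0 < Cp := by positivity
  have hr0 : 0 < (2 * M2) ^ q := Real.rpow_pos_of_pos (by linarith) _
  refine ⟨(N + 1 : ℕ) * Cp + (2 * M2) ^ q, by positivity, fun P l hP hcl hl hy r hr => ?_⟩
  by_cases hr1 : r ≤ 2 * M2
  · exact vol01 _ hq hr hr1 (le_add_of_nonneg_left (by positivity))
  push Not at hr1
  have hrq : 0 < r ^ (-q) := by positivity
  have := pieces (a := 0) (δ := δ) (x := Cp * r ^ (-q)) (by positivity) (Bad l r) (N + 1) fun j hj => by
    set a := 0 + j * δ with ha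
    have hsub : Icc a (a + δ) ⊆ Icc 0 1 := by
      refine Icc_subset_Icc (by positivity) ?_
      have : ((j + 1 : ℕ) : ℝ) ≤ (N + 1 : ℕ) := by exact_mod_cast hj
      rw [← hδN, ha]
      push_cast at this ⊢
      nlinarith
    have ha0 : a ∈ Icc a (a + δ) := ⟨le_rfl, by linarith⟩
    have hd : ∀ t ∈ Icc a (a + δ), |t - a| ≤ δ := fun t ht => by
      rw [abs_le]; constructor <;> linarith [ht.1, ht.2]
    have hl1 : ∀ t ∈ Icc a (a + δ), ‖l t - l a‖ ≤ min ρ ρ2 := fun t ht => by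
      obtain ⟨-, -, i, -, -, h⟩ := hy a (hsub ha0)
      exact hmod 0 1 a P l hP (fun i => (hcl i).lip) hl (fun t ht => ⟨(hy t ht).1, (hy t ht).2.1⟩)
        (hsub ha0) ⟨i, h⟩ t (hsub ht) ((hd t ht).trans d1)
    have hco : ∀ t ∈ Icc a (a + δ), ∀ i, ‖(P a).coeff i - (P t).coeff i‖ ≤ min ρ1 ρ2 := fun t ht i => by
      refine ((hcl i).lip a (hsub ha0) t (hsub ht)).trans (le_trans ?_ d2)
      rw [abs_sub_comm, mul_comm]
      gcongr
      exact hd t ht
    have hba : ∀ i, ‖(P a).coeff i‖ ≤ M + 1 := fun i => by linarith [(hcl i).bd a (hsub ha0)]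
    have hlM : ∀ t ∈ Icc a (a + δ), ‖l t‖ ≤ M := fun t ht => (hy t (hsub ht)).2.1
    have e2 : ∀ t ∈ Icc a (a + δ), ∀ i,
        ‖(taylor (l a) (P a)).coeff i - (taylor (l t) (P t)).coeff i‖ ≤ c1 / 2 := fun t ht =>
      ht2 _ _ _ _ (hP a) (hP t) hba (fun i => (hco t ht i).trans (min_le_right _ _))
        (by linarith [hlM a ha0]) (by linarith [hlM t ht]) ((hl1 t ht).trans (min_le_right _ _))
    by_cases hcase : ∃ i, 1 ≤ i ∧ i ≤ k + 1 ∧ c1 ≤ ‖(taylor (l a) (P a)).coeff i‖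
    · obtain ⟨i, i1, i2, i3⟩ := hcase
      refine (hS a δ 1 1 P l hδ0 one_pos one_pos hP
        (fun i t ht => by simpa using (hcl i).bd t (hsub ht))
        (fun i => ⟨M, (hcl i).top.subset hsub, by
          have : δ ^ (K + 1 + 1) ≤ 1 := pow_le_one₀ hδ0.le hδ1
          simp only [one_pow, mul_one]; nlinarith⟩)
        (hl.mono hsub) (fun t ht => ⟨(hy t (hsub ht)).1, by simpa using hlM t ht, i, i1, i2, by
          have := norm_le_insert ((taylor (l t) (P t)).coeff i) ((taylor (l a) (P a)).coeff i)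
          rw [norm_sub_rev] at this
          simp only [one_pow, mul_one]
          linarith [e2 t ht i]⟩) r hr).trans (ENNReal.ofReal_le_ofReal ?_)
      rw [div_one, Real.mul_rpow hδ0.le hr.le]
      have h1 : r ^ (-q') ≤ r ^ (-q) := Real.rpow_le_rpow_of_exponent_le (by linarith) (by linarith)
      have h2 : 0 ≤ Cc * 2 ^ q * r ^ (-q) := by positivity
      calc δ * (C1 * (δ ^ (-q') * r ^ (-q'))) ≤ 1 * (C1 * (δ ^ (-q') * r ^ (-q))) := by gcongr
        _ ≤ _ := by rw [hCp]; linarith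
    push Not at hcase
    have hm : c ≤ ‖(taylor (l a) (P a)).coeff (k + 2)‖ := by
      obtain ⟨-, -, i, i1, i2, h⟩ := hy a (hsub ha0)
      by_cases hi : i ≤ k + 1
      · linarith [hcase i i1 hi]
      · obtain rfl : i = k + 2 := by omega
        exact h
    have e1 : ∀ t ∈ Icc a (a + δ), ∀ w : ℂ, ‖w - l t‖ ≤ ρ → ‖w‖ ≤ M + 1 ∧ ‖w - l a‖ ≤ 2 * ρ ∧
        c / 2 ≤ ‖(taylor w (P t)).coeff (k + 2)‖ := fun t ht w hw => by
      have w1 : ‖w‖ ≤ M + 1 := by linarith [norm_le_insert' w (l t), hlM t ht]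
      have w2 : ‖w - l a‖ ≤ 2 * ρ := by
        linarith [norm_sub_le_norm_sub_add_norm_sub w (l t) (l a), hl1 t ht, min_le_left ρ ρ2]
      refine ⟨w1, w2, ?_⟩
      have := ht1 _ _ (l a) w (hP a) (hP t) hba (fun i => (hco t ht i).trans (min_le_left _ _))
        (by linarith [hlM a ha0]) w1 (by linarith) (k + 2)
      linarith [norm_le_insert' ((taylor (l a) (P a)).coeff (k + 2)) ((taylor w (P t)).coeff (k + 2))]
    have hex : ∀ t, ∃ w, t ∈ Icc a (a + δ) → (hasseDeriv (k + 1) (P t)).eval w = 0 ∧ ‖w - l t‖ ≤ ρ := by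
      intro t
      by_cases ht : t ∈ Icc a (a + δ)
      · obtain ⟨w, hw⟩ := ex_near (hasse_deg (hP t) (k + 1)) (z := l t) hρ (by
          have h1 := ((e1 t ht (l t) (by simpa using hρ.le)).2.2).trans (tay_hasse _ _ (k + 1))
          have h2 := hcase (k + 1) (by omega) le_rfl
          have h3 := norm_le_insert ((taylor (l a) (P a)).coeff (k + 1))
            ((taylor (l t) (P t)).coeff (k + 1))
          have h4 := e2 t ht (k + 1)
          rw [← taylor_coeff]
          have h5 : 2 ^ n * (2 * c1) = c / 2 * ρ := by rw [hc1]; field_simp; ring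
          calc _ < 2 ^ n * (2 * c1) := by gcongr; linarith
            _ ≤ _ := by rw [h5]; gcongr)
        exact ⟨w, fun _ => hw⟩
      · exact ⟨0, fun h => absurd h ht⟩
    choose μ hμ using hex
    have hclI : ∀ i, Cls (Icc a (a + δ)) (K + 1) M (fun t => (P t).coeff i) :=
      fun i => (hcl i).subset hsub
    have hμc := hcen a (a + δ) (fun t => hasseDeriv (k + 1) (P t)) μ (fun t => hasse_deg (hP t) _)
      (fun i => (cls_hasse (by linarith) hP hclI (k + 1) i).mono (by linarith))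
      (fun t ht => ⟨(hμ t ht).1, by linarith [(e1 t ht _ (hμ t ht).2).1],
        (e1 t ht _ (hμ t ht).2).2.2.trans (tay_hasse _ _ (k + 1))⟩)
      (fun s hs t ht => by
        have := norm_sub_le_norm_sub_add_norm_sub (μ s) (l a) (μ t)
        rw [norm_sub_rev (l a)] at this
        linarith [(e1 t ht _ (hμ t ht).2).2.1, (e1 s hs _ (hμ s hs).2).2.1])
    have key := hcore a (fun t => taylor (μ t) (P t)) (fun t => l t - μ t)
      ⟨fun t => by rw [natDegree_taylor]; exact hP t,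
        htay a (a + δ) P μ hP (fun i => (hclI i).mono (by linarith)) hμc,
        (hl.mono hsub).sub hμc.top.cont, fun t ht => ⟨by rw [taylor_coeff]; exact (hμ t ht).1,
          (e1 t ht _ (hμ t ht).2).2.2, by rw [taylor_eval_sub]; exact (hy t (hsub ht)).1,
          by rw [norm_sub_rev]; exact (hμ t ht).2.trans r1⟩⟩ (r / 2) (by positivity)
    refine (measure_mono ?_).trans (key.trans (ENNReal.ofReal_le_ofReal ?_))
    · rintro t ⟨h1, h2⟩
      refine ⟨fun h3 => h1 ?_, h2⟩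
      filter_upwards [h3, Icc_mem_nhds h2.1 h2.2] with s hs hs'
      have h4 := hμc.lip s hs' t (Ioo_subset_Icc_self h2)
      have e : l s - l t = (l s - μ s - (l t - μ t)) + (μ s - μ t) := by ring
      rw [e]
      refine (norm_add_le _ _).trans ?_
      nlinarith [abs_nonneg (s - t)]
    · rw [Real.div_rpow hr.le (by norm_num), Real.rpow_neg (by norm_num : (0 : ℝ) ≤ 2),
        div_inv_eq_mul, hCp]
      have : 0 ≤ C1 * δ ^ (-q') * r ^ (-q) := by positivity
      linarith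
  rw [zero_add, hδN] at this
  refine this.trans (ENNReal.ofReal_le_ofReal ?_)
  have : 0 ≤ (2 * M2) ^ q * r ^ (-q) := by positivity
  linarith

theorem main (K n k : ℕ) (hk : k ≤ K + 1) : ∀ q : ℝ, 0 < q → q * k ≤ k + 1 → S01 (K + 1) n (k + 1) q := by
  induction k with
  | zero => exact fun q hq _ => base _ n hq
  | succ k ih =>
    intro q hq h
    have hk0 : (0 : ℝ) ≤ k := Nat.cast_nonneg k
    push_cast at h
    refine step (q' := (2 * k + 3) / (2 * k + 1)) (by omega) (ih (by omega) _ (by positivity) ?_) hq ?_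
      (by linarith)
    · rw [div_mul_eq_mul_div, div_le_iff₀ (by positivity)]; nlinarith
    · rw [lt_div_iff₀ (by positivity)]
      by_contra hc
      push Not at hc
      nlinarith

end Pool.Agent.H56.Wk7
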