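import Pool.Agent.H56.Wk7

namespace Pool.Agent.H56.Wk8

open Set Filter Topology Polynomial MeasureTheory Metric Pool.Agent.H56.Wk1 Pool.Agent.H56.Wk2
  Pool.Agent.H56.Wk3 Pool.Agent.H56.Wk4 Pool.Agent.H56.Wk5 Pool.Agent.H56.Wk6 Pool.Agent.H56.Wk7

theorem top_of {α β B : ℝ} (h : α < β) : ∀ (k : ℕ) (g : ℝ → ℂ), ContDiffOn ℝ k g (Icc α β) →
    (∀ s ∈ Icc α β, ∀ t ∈ Icc α β, ‖iteratedDerivWithin k g (Icc α β) s -
      iteratedDerivWithin k g (Icc α β) t‖ ≤ B * |s - t|) → Top (Icc α β) k B g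
  | 0, g, _, h2 => by simpa [Wk1.Top] using h2
  | k + 1, g, h1, h2 => by
      push_cast at h1
      rw [contDiffOn_succ_iff_derivWithin (uniqueDiffOn_Icc h)] at h1
      rw [iteratedDerivWithin_succ'] at h2
      exact ⟨derivWithin g (Icc α β), fun t ht => (h1.1 t ht).hasDerivWithinAt,
        top_of h k _ h1.2.2 h2⟩

theorem rootM {n : ℕ} {F : ℂ[X]} {V : ℂ} {x : ℝ} (hF : F.natDegree ≤ n) (h1 : F.coeff n = 1)
    (h3 : F.eval V = 0) (hx : 0 ≤ x) (h5 : ∀ i < n, ‖F.coeff i‖ ≤ x ^ (n - i)) :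
    ‖V‖ ≤ 2 * (n + 1) * x := by
  by_contra hlt
  push Not at hlt
  have hn : (0 : ℝ) ≤ n := Nat.cast_nonneg n
  have hV0 : 0 < ‖V‖ := lt_of_le_of_lt (by positivity) hlt
  have hxV : x ≤ ‖V‖ := by nlinarith
  set θ : ℝ := 1 / (2 * (n + 1)) with hθ
  have hxθ : x ≤ θ * ‖V‖ := by
    rw [hθ, one_div, le_inv_mul_iff₀ (by positivity)]; exact hlt.le
  have hdeg : (F.erase n).natDegree ≤ n := (natDegree_le_natDegree (degree_erase_le F n)).trans hF
  have key := ev_gen hdeg (V := V) (θ := θ * ‖V‖ ^ n) fun i hi => by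
    rw [coeff_erase]
    rcases hi.lt_or_eq with h | h
    · rw [if_neg h.ne]
      obtain ⟨j, rfl⟩ : ∃ j, n = i + j + 1 := ⟨n - i - 1, by omega⟩
      have := h5 i h
      rw [show i + j + 1 - i = j + 1 by omega, pow_succ] at this
      have h6 : x ^ j * x ≤ ‖V‖ ^ j * (θ * ‖V‖) := by gcongr
      calc _ ≤ ‖V‖ ^ j * (θ * ‖V‖) * ‖V‖ ^ i := by gcongr; exact this.trans h6
        _ = _ := by ring
    · rw [if_pos h]; simp; positivity
  have e : (F.erase n).eval V = -(F.coeff n * V ^ n) := by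
    rw [← monomial_add_erase F n, eval_add, eval_monomial] at h3
    linear_combination h3
  rw [e, norm_neg, h1, one_mul, norm_pow] at key
  have e2 : (n + 1 : ℝ) * (θ * ‖V‖ ^ n) = 1 / 2 * ‖V‖ ^ n := by rw [hθ]; field_simp
  have : 0 < ‖V‖ ^ n := by positivity
  linarith

theorem exhaust {S : Set ℝ} {α β : ℝ} (h : α < β) {X : ENNReal}
    (hX : ∀ η, 0 < η → η ≤ (β - α) / 4 → volume (S ∩ Ioo (α + η) (β - η)) ≤ X) :
    volume (S ∩ Ioo α β) ≤ X := by
  refine ENNReal.le_of_forall_pos_le_add fun ε hε _ => ?_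
  set η := min ((β - α) / 4) (ε / 2) with hη
  have hε' : (0 : ℝ) < ε := hε
  have hη0 : 0 < η := lt_min (by linarith) (by positivity)
  have hsub : S ∩ Ioo α β ⊆ (S ∩ Ioo (α + η) (β - η)) ∪ (Icc α (α + η) ∪ Icc (β - η) β) := by
    rintro t ⟨h1, h2, h3⟩
    by_cases c1 : t ≤ α + η
    · exact Or.inr (Or.inl ⟨h2.le, c1⟩)
    by_cases c2 : β - η ≤ t
    · exact Or.inr (Or.inr ⟨c2, h3.le⟩)
    exact Or.inl ⟨h1, by linarith, by linarith⟩
  refine (measure_mono hsub).trans ((measure_union_le _ _).trans (add_le_add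
    (hX η hη0 (min_le_left _ _)) ((measure_union_le _ _).trans ?_)))
  rw [Real.volume_Icc, Real.volume_Icc, ← ENNReal.ofReal_add (by linarith) (by linarith),
    ← ENNReal.ofReal_coe_nnreal]
  exact ENNReal.ofReal_le_ofReal (by linarith [min_le_right ((β - α) / 4) ((ε : ℝ) / 2)])

theorem final (k : ℕ) : ∃ C, 0 < C ∧ ∀ (α β A : ℝ) (a : ℕ → ℝ → ℂ) (l : ℝ → ℂ), α < β → 0 < A →
    (∀ j ∈ Finset.Icc 1 (k + 2), (∀ t ∈ Icc α β, ‖a j t‖ ≤ A ^ j) ∧ Top (Icc α β) (k + 1) (A ^ j) (a j)) →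
    ContinuousOn l (Ioo α β) →
    (∀ t ∈ Ioo α β, l t ^ (k + 2) + ∑ j ∈ Finset.Icc 1 (k + 2), a j t * l t ^ (k + 2 - j) = 0) →
    ∀ r, 0 < r → volume (Bad l r ∩ Ioo α β) ≤
      ENNReal.ofReal (C * (β - α) * (A / (min 1 (β - α) * r)) ^ ((k + 2 : ℝ) / (k + 1))) := by
  set q : ℝ := (k + 2 : ℝ) / (k + 1) with hq
  have hq0 : 0 < q := by positivity
  have hk0 : (0 : ℝ) ≤ k := Nat.cast_nonneg k
  obtain ⟨C, hC, hS⟩ := sc_of (main k (k + 2) (k + 1) le_rfl q hq0 (by
    rw [hq]; push_cast; rw [div_mul_cancel₀ _ (by positivity)]; linarith))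
    (2 * ((k + 2 : ℕ) + 1)) 1 (by push_cast; linarith) one_pos
  refine ⟨C * 2 ^ q, by positivity, fun α β A a l hαβ hA ha hl hr0 r hr => ?_⟩
  set b : ℕ → ℝ → ℂ := fun i t => if i < k + 2 then a (k + 2 - i) t else if i = k + 2 then 1 else 0
    with hb
  set P : ℝ → ℂ[X] := fun t => ∑ i ∈ Finset.range (k + 3), monomial i (b i t) with hP
  have hco : ∀ t i, (P t).coeff i = b i t := fun t i => by
    simp only [hP, finsetSum_coeff, coeff_monomial, Finset.sum_ite_eq', Finset.mem_range]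
    split_ifs with h
    · rfl
    · simp only [hb]; rw [if_neg (by omega), if_neg (by omega)]
  have hdeg : ∀ t, (P t).natDegree ≤ k + 2 := fun t => natDegree_le_iff_coeff_eq_zero.2 fun N hN => by
    rw [hco]; simp only [hb]; rw [if_neg (by omega), if_neg (by omega)]
  have hlow : ∀ t, ∀ i < k + 2, (P t).coeff i = a (k + 2 - i) t := fun t i hi => by
    rw [hco]; simp only [hb]; rw [if_pos hi]
  have htop : ∀ t, (P t).coeff (k + 2) = 1 := fun t => by rw [hco]; simp [hb]
  have hmem : ∀ i < k + 2, k + 2 - i ∈ Finset.Icc 1 (k + 2) := fun i hi => by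
    rw [Finset.mem_Icc]; omega
  have hev : ∀ t ∈ Ioo α β, (P t).eval (l t) = 0 := fun t ht => by
    rw [eval_eq_sum_range' (Nat.lt_succ_of_le (hdeg t)), Finset.sum_range_succ, htop, one_mul,
      add_comm, ← hr0 t ht]
    congr 1
    refine Finset.sum_nbij' (fun i => k + 2 - i) (fun j => k + 2 - j) (fun i hi => ?_) (fun j hj => ?_)
      (fun i hi => ?_) (fun j hj => ?_) fun i hi => ?_
    · exact hmem i (Finset.mem_range.1 hi)
    · rw [Finset.mem_Icc] at hj; rw [Finset.mem_range]; omega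
    · rw [Finset.mem_range] at hi; omega
    · rw [Finset.mem_Icc] at hj; omega
    · rw [Finset.mem_range] at hi
      rw [hlow t i hi]; congr 2; omega
  have hM1 : (1 : ℝ) ≤ 2 * ((k + 2 : ℕ) + 1) := by push_cast; linarith
  have hE : 0 < A ^ (k + 2) := by positivity
  have hpw : ∀ i < k + 2, A ^ (k + 2 - i) * A ^ i = A ^ (k + 2) := fun i hi => by
    rw [← pow_add]; congr 1; omega
  refine exhaust hαβ fun η h1 h2 => ?_
  set L := β - α - 2 * η with hL
  have hL0 : 0 < L := by linarith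
  set N := ⌈L⌉₊ with hN
  have hN0 : 0 < (N : ℝ) := by exact_mod_cast Nat.ceil_pos.2 hL0
  set δ := L / N with hδ
  have hδ0 : 0 < δ := by positivity
  have hδ1 : δ ≤ 1 := (div_le_one hN0).2 (Nat.le_ceil L)
  have hδN : N * δ = L := by rw [hδ]; field_simp
  have hδ2 : min 1 (β - α) / 2 ≤ δ := by
    rw [hδ, le_div_iff₀ hN0]
    have h3 : (N : ℝ) < L + 1 := Nat.ceil_lt_add_one hL0.le
    have h4 := min_le_left 1 (β - α)
    have h5 := min_le_right 1 (β - α)
    rcases le_total L 1 with h | h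
    · have : N ≤ 1 := Nat.ceil_le.2 (by exact_mod_cast h)
      have : (N : ℝ) ≤ 1 := by exact_mod_cast this
      have : 0 < min 1 (β - α) := lt_min one_pos (by linarith)
      nlinarith
    · nlinarith
  have := pieces (a := α + η) (δ := δ) (x := δ * (C * (δ * r / A) ^ (-q))) (by positivity)
    (Bad l r) N fun j hj => by
      set u := α + η + j * δ with hu
      have hsub : Icc u (u + δ) ⊆ Ioo α β := by
        have : ((j + 1 : ℕ) : ℝ) ≤ N := by exact_mod_cast hj
        push_cast at this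
        have : 0 ≤ (j : ℝ) * δ := by positivity
        exact Icc_subset_Ioo (by linarith) (by nlinarith)
      have hsub' := hsub.trans Ioo_subset_Icc_self
      refine hS u δ A (A ^ (k + 2)) P l hδ0 hA hE hdeg (fun i t ht => ?_) (fun i => ?_)
        (hl.mono hsub) (fun t ht => ⟨hev t (hsub ht), ?_, k + 2, by omega, le_rfl, ?_⟩) r hr
      · rcases lt_trichotomy i (k + 2) with h | rfl | h
        · rw [hlow t i h]
          have : ‖a (k + 2 - i) t‖ * A ^ i ≤ A ^ (k + 2 - i) * A ^ i := by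
            gcongr; exact (ha _ (hmem i h)).1 t (hsub' ht)
          rw [hpw i h] at this
          nlinarith
        · rw [htop, norm_one]; nlinarith
        · rw [coeff_eq_zero_of_natDegree_lt (lt_of_le_of_lt (hdeg t) h), norm_zero, zero_mul]
          positivity
      · have hd : δ ^ (k + 1 + 1) ≤ 1 := pow_le_one₀ hδ0.le hδ1
        rcases lt_trichotomy i (k + 2) with h | rfl | h
        · refine ⟨A ^ (k + 2 - i), ?_, ?_⟩
          · simp only [fun t => hlow t i h]
            exact (ha _ (hmem i h)).2.subset hsub'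
          · rw [hpw i h]; nlinarith
        · refine ⟨‖(1 : ℂ)‖, ((cls_const _ _ (1 : ℂ)).congr fun t _ => htop t).top, ?_⟩
          rw [norm_one]; nlinarith
        · refine ⟨‖(0 : ℂ)‖, ((cls_const _ _ (0 : ℂ)).congr fun t _ =>
            coeff_eq_zero_of_natDegree_lt (lt_of_le_of_lt (hdeg t) h)).top, ?_⟩
          rw [norm_zero, zero_mul, zero_mul]; positivity
      · exact rootM (hdeg t) (htop t) (hev t (hsub ht)) hA.le fun i hi => by
          rw [hlow t i hi]; exact (ha _ (hmem i hi)).1 t (hsub' ht)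
      · have h0 : (hasseDeriv (k + 2) (P t)).natDegree ≤ 0 :=
          (natDegree_hasseDeriv_le _ _).trans (by have := hdeg t; omega)
        rw [taylor_coeff, eq_C_of_natDegree_le_zero h0, eval_C, hasseDeriv_coeff, zero_add, htop]
        simp
  rw [hδN, show α + η + L = β - η by rw [hL]; ring] at this
  refine this.trans (ENNReal.ofReal_le_ofReal ?_)
  have hm : 0 < min 1 (β - α) := lt_min one_pos (by linarith)
  have e1 : (δ * r / A) ^ (-q) ≤ 2 ^ q * (A / (min 1 (β - α) * r)) ^ q := by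
    rw [← Real.mul_rpow (by norm_num) (by positivity), Real.rpow_neg (by positivity),
      ← Real.inv_rpow (by positivity)]
    refine Real.rpow_le_rpow (by positivity) ?_ hq0.le
    rw [inv_div, ← mul_div_assoc, div_le_div_iff₀ (by positivity) (by positivity)]
    have : 0 < A * r := by positivity
    nlinarith
  calc N * (δ * (C * (δ * r / A) ^ (-q))) = L * (C * (δ * r / A) ^ (-q)) := by rw [← hδN]; ring
    _ ≤ (β - α) * (C * (2 ^ q * (A / (min 1 (β - α) * r)) ^ q)) := by gcongr <;> linarith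
    _ = _ := by ring

end Pool.Agent.H56.Wk8
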