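import Pool.Agent.H56.Wk8

namespace Pool.Agent.H56.Wk9

open Set Filter Topology MeasureTheory Pool.Agent.H56.Wk1 Pool.Agent.H56.Wk4 Pool.Agent.H56.Wk8

theorem sub_bad (l : ℝ → ℂ) {r : ℝ} (hr : 0 < r) (α β : ℝ) :
    {t ∈ Ioo α β | r < ‖deriv l t‖} ⊆
      {t ∈ Ioo α β | ¬ ∀ᶠ s in 𝓝 t, ‖l s - l t‖ ≤ r * |s - t|} := by
  rintro t ⟨h1, h2⟩
  refine ⟨h1, fun h => absurd h2 (not_lt.2 (norm_deriv_le_of_lip' hr.le ?_))⟩
  simpa [Real.norm_eq_abs] using h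

theorem bound (n : ℕ) (hn : 2 ≤ n) : ∃ C : ℝ, 0 < C ∧
    ∀ (α β A : ℝ) (a : ℕ → ℝ → ℂ) (l : ℝ → ℂ), α < β → 0 < A →
      (∀ j ∈ Finset.Icc 1 n, ContDiffOn ℝ (n - 1 : ℕ) (a j) (Icc α β) ∧
        (∀ t ∈ Icc α β, ‖a j t‖ ≤ A ^ j) ∧
        ∀ s ∈ Icc α β, ∀ t ∈ Icc α β, ‖iteratedDerivWithin (n - 1) (a j) (Icc α β) s -
          iteratedDerivWithin (n - 1) (a j) (Icc α β) t‖ ≤ A ^ j * |s - t|) →
      ContinuousOn l (Ioo α β) →
      (∀ t ∈ Ioo α β, l t ^ n + ∑ j ∈ Finset.Icc 1 n, a j t * l t ^ (n - j) = 0) →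
      ∀ r : ℝ, 0 < r →
        ENNReal.ofReal r * volume {t ∈ Ioo α β | ¬ ∀ᶠ s in 𝓝 t, ‖l s - l t‖ ≤ r * |s - t|} ^
          (((n : ℝ) - 1) / n) ≤
        ENNReal.ofReal (C * ((β - α) ^ (((n : ℝ) - 1) / n) / min 1 (β - α)) * A) := by
  obtain ⟨k, rfl⟩ : ∃ k, n = k + 2 := ⟨n - 2, by omega⟩
  obtain ⟨C, hC, h⟩ := final k
  have e : (((k + 2 : ℕ) : ℝ) - 1) / (k + 2 : ℕ) = ((k + 2 : ℝ) / (k + 1))⁻¹ := by
    push_cast; rw [inv_div]; ring_nf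
  rw [e]
  set q : ℝ := (k + 2 : ℝ) / (k + 1) with hq
  have hq0 : 0 < q := by positivity
  refine ⟨C ^ q⁻¹, by positivity, fun α β A a l hαβ hA ha hl h0 r hr => ?_⟩
  have hL : 0 < β - α := by linarith
  have hm : 0 < min 1 (β - α) := lt_min one_pos hL
  have := h α β A a l hαβ hA (fun j hj => ⟨(ha j hj).2.1,
    top_of hαβ (k + 1) _ (ha j hj).1 (ha j hj).2.2⟩) hl h0 r hr
  rw [inter_comm] at this
  refine (mul_le_mul_right (ENNReal.rpow_le_rpow this (by positivity)) _).trans (le_of_eq ?_)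
  rw [ENNReal.ofReal_rpow_of_nonneg (by positivity) (by positivity), ← ENNReal.ofReal_mul hr.le,
    Real.mul_rpow (by positivity) (by positivity), Real.mul_rpow (by positivity) (by positivity),
    Real.rpow_rpow_inv (by positivity) hq0.ne']
  congr 1
  field_simp

/-- Weak type `n / (n - 1)` estimate for every continuous root of a monic polynomial of degree `n`
with `C^{n-1,1}` coefficients, with an explicit bound. -/
theorem joined (n : ℕ) (hn : 2 ≤ n) :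
    (∀ (α β : ℝ) (a : ℕ → ℝ → ℂ) (l : ℝ → ℂ), α < β →
      (∀ j ∈ Finset.Icc 1 n, ContDiffOn ℝ (n - 1 : ℕ) (a j) (Icc α β) ∧
        ∃ K, LipschitzOnWith K (iteratedDerivWithin (n - 1) (a j) (Icc α β)) (Icc α β)) →
      ContinuousOn l (Ioo α β) →
      (∀ t ∈ Ioo α β, l t ^ n + ∑ j ∈ Finset.Icc 1 n, a j t * l t ^ (n - j) = 0) →
      ⨆ r : ℝ, ⨆ _ : 0 < r,
        ENNReal.ofReal r * volume {t ∈ Ioo α β | r < ‖deriv l t‖} ^ (((n : ℝ) - 1) / n) < ⊤) ∧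
    ∃ C : ℝ, 0 < C ∧
      ∀ (α β A : ℝ) (a : ℕ → ℝ → ℂ) (l : ℝ → ℂ), α < β → 0 < A →
      (∀ j ∈ Finset.Icc 1 n, ContDiffOn ℝ (n - 1 : ℕ) (a j) (Icc α β) ∧
        (∀ t ∈ Icc α β, ‖a j t‖ ≤ A ^ j) ∧
        ∀ s ∈ Icc α β, ∀ t ∈ Icc α β, ‖iteratedDerivWithin (n - 1) (a j) (Icc α β) s -
          iteratedDerivWithin (n - 1) (a j) (Icc α β) t‖ ≤ A ^ j * |s - t|) →
      ContinuousOn l (Ioo α β) →
      (∀ t ∈ Ioo α β, l t ^ n + ∑ j ∈ Finset.Icc 1 n, a j t * l t ^ (n - j) = 0) →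
      ∀ r : ℝ, 0 < r →
        ENNReal.ofReal r * volume {t ∈ Ioo α β | r < ‖deriv l t‖} ^ (((n : ℝ) - 1) / n) ≤
          ENNReal.ofReal (C * ((β - α) ^ (((n : ℝ) - 1) / n) / min 1 (β - α)) * A) ∧
        ENNReal.ofReal r * volume {t ∈ Ioo α β | ¬ ∀ᶠ s in 𝓝 t, ‖l s - l t‖ ≤ r * |s - t|} ^
          (((n : ℝ) - 1) / n) ≤
          ENNReal.ofReal (C * ((β - α) ^ (((n : ℝ) - 1) / n) / min 1 (β - α)) * A) := by
  obtain ⟨C, hC, h⟩ := bound n hn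
  have hp : 0 ≤ ((n : ℝ) - 1) / n := by
    have : (2 : ℝ) ≤ n := by exact_mod_cast hn
    exact div_nonneg (by linarith) (by linarith)
  have h2 : ∀ (α β : ℝ) (l : ℝ → ℂ) (r : ℝ), 0 < r →
      ENNReal.ofReal r * volume {t ∈ Ioo α β | r < ‖deriv l t‖} ^ (((n : ℝ) - 1) / n) ≤
      ENNReal.ofReal r * volume {t ∈ Ioo α β | ¬ ∀ᶠ s in 𝓝 t, ‖l s - l t‖ ≤ r * |s - t|} ^
          (((n : ℝ) - 1) / n) := fun α β l r hr =>
    mul_le_mul_right (ENNReal.rpow_le_rpow (measure_mono (sub_bad l hr α β)) hp) _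
  refine ⟨fun α β a l hαβ ha hl h0 => ?_, C, hC, fun α β A a l hαβ hA ha hl h0 r hr =>
    ⟨(h2 α β l r hr).trans (h α β A a l hαβ hA ha hl h0 r hr), h α β A a l hαβ hA ha hl h0 r hr⟩⟩
  have hex : ∀ j, ∃ B : ℝ, 0 ≤ B ∧ (j ∈ Finset.Icc 1 n → (∀ t ∈ Icc α β, ‖a j t‖ ≤ B) ∧
      ∀ s ∈ Icc α β, ∀ t ∈ Icc α β, ‖iteratedDerivWithin (n - 1) (a j) (Icc α β) s -
        iteratedDerivWithin (n - 1) (a j) (Icc α β) t‖ ≤ B * |s - t|) := by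
    intro j
    by_cases hj : j ∈ Finset.Icc 1 n
    · obtain ⟨h1, K, hK⟩ := ha j hj
      obtain ⟨B, hB⟩ := isCompact_Icc.exists_bound_of_continuousOn h1.continuousOn
      have hK0 : (0 : ℝ) ≤ K := K.2
      refine ⟨|B| + K, by positivity, fun _ => ⟨fun t ht => by linarith [hB t ht, le_abs_self B],
        fun s hs t ht => ?_⟩⟩
      have := hK.dist_le_mul s hs t ht
      rw [dist_eq_norm, Real.dist_eq] at this
      nlinarith [abs_nonneg B, abs_nonneg (s - t)]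
    · exact ⟨0, le_rfl, fun h => absurd h hj⟩
  choose B hB0 hB using hex
  set A := 1 + ∑ j ∈ Finset.Icc 1 n, B j with hA
  have hS : 0 ≤ ∑ j ∈ Finset.Icc 1 n, B j := Finset.sum_nonneg fun j _ => hB0 j
  have hBA : ∀ j ∈ Finset.Icc 1 n, B j ≤ A ^ j := fun j hj => by
    have h1 := Finset.single_le_sum (f := B) (fun j _ => hB0 j) hj
    have h3 := le_self_pow₀ (show 1 ≤ A by linarith) (show j ≠ 0 by
      have := (Finset.mem_Icc.1 hj).1; omega)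
    linarith
  refine lt_of_le_of_lt (iSup₂_le fun r hr => (h2 α β l r hr).trans (h α β A a l hαβ (by linarith)
    (fun j hj => ⟨(ha j hj).1, fun t ht => ((hB j hj).1 t ht).trans (hBA j hj), fun s hs t ht =>
      ((hB j hj).2 s hs t ht).trans (mul_le_mul_of_nonneg_right (hBA j hj) (abs_nonneg _))⟩)
    hl h0 r hr)) ENNReal.ofReal_lt_top

end Pool.Agent.H56.Wk9
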